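import Pool.Agent.P.MP_257122_al.BGal

/-!
# Rational bases adapted to a flag

PLAN.  Let `U k` be the rational points of `W k` (`gal_descent`).  By downward induction on `k`
build finite linearly independent sets `S k ⊇ S (k+1)` with span `U k`
(`exists_linearIndepOn_extension`, `LinearIndepOn.extend`).  `S 0` is a basis with `n` elements;
enumerate it by `Fin n`, let `p` have these columns and let `wt i` be the largest `k` with the
`i`-th vector in `S k`.
-/

namespace Pool.Agent.P.MP_257122_al

open Matrix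

namespace BFlagAux

theorem adapt {K V : Type} [Field K] [AddCommGroup V] [Module K V] (m : ℕ) :
    ∀ U : ℕ → Submodule K V, Antitone U → U m = ⊥ → ∃ S : ℕ → Set V, Antitone S ∧
      ∀ k, LinearIndepOn K id (S k) ∧ Submodule.span K (S k) = U k := by
  induction m with
  | zero =>
    intro U ha h0
    refine ⟨fun _ => ∅, antitone_const, fun k => ⟨linearIndepOn_empty _ _, ?_⟩⟩
    rw [Submodule.span_empty]
    exact (le_bot_iff.1 (h0 ▸ ha (Nat.zero_le k))).symm
  | succ m ih =>
    intro U ha h0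
    obtain ⟨S, h1, h2⟩ := ih (fun k => U (k + 1)) (fun a b h => ha (by omega)) h0
    have hs : S 0 ⊆ U 0 := fun x hx =>
      ha (Nat.zero_le 1) ((h2 0).2 ▸ Submodule.subset_span hx)
    refine ⟨fun k => Nat.casesOn k ((h2 0).1.extend hs) S, antitone_nat_of_succ_le fun k => ?_,
      fun k => ?_⟩
    · cases k with
      | zero => exact (h2 0).1.subset_extend hs
      | succ k => exact h1 (Nat.le_succ k)
    · cases k with
      | zero =>
        refine ⟨(h2 0).1.linearIndepOn_extend hs, le_antisymm ?_ ?_⟩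
        · exact Submodule.span_le.2 ((h2 0).1.extend_subset hs)
        · exact (h2 0).1.subset_span_extend hs
      | succ k => exact h2 k

theorem adaptB {n : ℕ} (m : ℕ) (U : ℕ → Submodule ℚ (Fin n → ℚ)) (ha : Antitone U)
    (h0 : U 0 = ⊤) (hm : U m = ⊥) : ∃ (b : Module.Basis (Fin n) ℚ (Fin n → ℚ)) (wt : Fin n → ℕ),
      ∀ k, U k = Submodule.span ℚ (b '' {i | k ≤ wt i}) := by
  classical
  obtain ⟨S, h1, h2⟩ := adapt m U ha hm
  let b0 : Module.Basis (S 0) ℚ (Fin n → ℚ) := Module.Basis.mk (h2 0).1 (by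
    rw [← h0, ← (h2 0).2]
    exact Submodule.span_mono fun x hx => ⟨⟨x, hx⟩, rfl⟩)
  let e := b0.indexEquiv (Pi.basisFun ℚ (Fin n))
  have hb : ∀ i, b0.reindex e i = (e.symm i).1 := fun i => by
    rw [Module.Basis.reindex_apply, Module.Basis.mk_apply]
    rfl
  refine ⟨b0.reindex e, fun i => Nat.findGreatest (fun k => b0.reindex e i ∈ S k) m, fun k => ?_⟩
  rw [← (h2 k).2]
  congr 1
  ext x
  constructor
  · intro hx
    have e1 : b0.reindex e (e ⟨x, h1 (Nat.zero_le k) hx⟩) = x := by rw [hb, e.symm_apply_apply]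
    refine ⟨_, Nat.le_findGreatest ?_ (by rw [e1]; exact hx), e1⟩
    by_contra hk
    have : x ∈ U m := (h2 m).2 ▸ Submodule.subset_span (h1 (not_le.1 hk).le hx)
    rw [hm, Submodule.mem_bot, ← e1] at this
    exact (b0.reindex e).ne_zero _ this
  · rintro ⟨i, hi, rfl⟩
    refine h1 hi (Nat.findGreatest_spec (P := fun k => b0.reindex e i ∈ S k) (Nat.zero_le m) ?_)
    rw [hb]
    exact (e.symm i).2

end BFlagAux

open BFlagAux in
theorem flag {n : ℕ} (K : ℕ) (W : ℕ → Submodule ℂ (Fin n → ℂ)) (ha : Antitone W) (h0 : W 0 = ⊤)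
    (hK : W K = ⊥) (hg : ∀ k, GalSub (W k)) :
    ∃ (p : GL (Fin n) ℚ) (wt : Fin n → ℤ),
      ∀ (k : ℕ) (v : Fin n → ℂ), castM ℂ p.val *ᵥ v ∈ W k ↔ VanB wt k v := by
  let U : ℕ → Submodule ℚ (Fin n → ℚ) := fun k =>
    { carrier := {v | castV ℂ v ∈ W k}
      add_mem' := fun {x y} hx hy => by
        rw [Set.mem_ofPred_eq, castV_add']
        exact add_mem hx hy
      zero_mem' := by
        have : castV ℂ (0 : Fin n → ℚ) = 0 := funext fun _ => Rat.cast_zero
        rw [Set.mem_ofPred_eq, this]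
        exact zero_mem _
      smul_mem' := fun q x hx => by
        rw [Set.mem_ofPred_eq, castV_smul']
        exact Submodule.smul_mem _ _ hx }
  obtain ⟨b, wt, hb⟩ := adaptB K U (fun a b h x hx => ha h hx)
    (eq_top_iff.2 fun x _ => by
      change castV ℂ x ∈ W 0
      rw [h0]
      trivial)
    (eq_bot_iff.2 fun x hx => by
      have h1 : castV ℂ x ∈ W K := hx
      rw [hK, Submodule.mem_bot] at h1
      exact funext fun i => Rat.cast_eq_zero.1 (congrFun h1 i))
  let p : GL (Fin n) ℚ := ⟨(Pi.basisFun ℚ (Fin n)).toMatrix b, b.toMatrix (Pi.basisFun ℚ (Fin n)),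
    Module.Basis.toMatrix_mul_toMatrix_flip _ _, Module.Basis.toMatrix_mul_toMatrix_flip _ _⟩
  have hp : ∀ v : Fin n → ℂ, castM ℂ p.val *ᵥ v = ∑ i, v i • castV ℂ (b i) := fun v => by
    funext j
    rw [Finset.sum_apply, mulVec, dotProduct]
    refine Finset.sum_congr rfl fun i _ => ?_
    change (((Pi.basisFun ℚ (Fin n)).toMatrix b j i : ℚ) : ℂ) * v i = v i * (b i j : ℚ)
    rw [Module.Basis.toMatrix_apply, Pi.basisFun_repr, mul_comm]
  have hi : castM ℂ p.inv * castM ℂ p.val = 1 := by rw [← castM_mul, p.inv_val, castM_one]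
  refine ⟨p, fun i => wt i, fun k v => ?_⟩
  have hW : W k = Submodule.span ℂ (castV ℂ '' (b '' {i | k ≤ wt i})) := by
    refine (gal_descent (hg k)).trans (Eq.trans ?_ (cx_span (Rat.castHom ℂ) _))
    rw [← hb k]
    rfl
  constructor
  · intro hv
    have key : ∀ y ∈ W k, VanB (fun i => (wt i : ℤ)) k (castM ℂ p.inv *ᵥ y) := fun y hy => by
      rw [hW] at hy
      induction hy using Submodule.span_induction with
      | mem y h =>
        obtain ⟨_, ⟨i, h, rfl⟩, rfl⟩ := h
        have e : castV ℂ (b i) = castM ℂ p.val *ᵥ Pi.single i 1 := by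
          rw [hp, Finset.sum_eq_single i (fun j _ hj => by simp [hj]) (by simp)]
          simp
        rw [e, mulVec_mulVec, hi, one_mulVec]
        intro j hj
        refine Pi.single_eq_of_ne ?_ _
        rintro rfl
        have h' : k ≤ wt j := h
        simp only at hj
        omega
      | zero => intro j _; rw [mulVec_zero]; rfl
      | add x y _ _ hx hy => intro j hj; rw [mulVec_add, Pi.add_apply, hx j hj, hy j hj, add_zero]
      | smul c x _ hx => intro j hj; rw [mulVec_smul, Pi.smul_apply, hx j hj, smul_zero]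
    have := key _ hv
    rwa [mulVec_mulVec, hi, one_mulVec] at this
  · intro hv
    rw [hp, hW]
    refine Submodule.sum_mem _ fun i _ => ?_
    by_cases h : k ≤ wt i
    · exact Submodule.smul_mem _ _ (Submodule.subset_span ⟨_, ⟨i, h, rfl⟩, rfl⟩)
    · rw [hv i (by simp only; omega), zero_smul]
      exact zero_mem _

end Pool.Agent.P.MP_257122_al
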