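import Pool.Agent.P.MP_257122_al.BGal

/-!
# Isomorphisms, congruences, changes of coordinates

PLAN.  Direct computations with `rho_mulVec`, `AddSubgroup.map_map`, `mulVec_mulVec`.
`mem_scal`: unfold.  In `exists_dl`, `(δ δ' - 1) x = (δ - 1) (δ' x) + (δ' - 1) x` and
`(δ⁻¹ - 1) x = -(δ - 1) (δ⁻¹ x)`.
-/

namespace Pool.Agent.P.MP_257122_al

open Matrix

variable {n : ℕ} {us : List (TPair n)} {Ls : List (LPair n)} {κ : ℕ}

theorem mem_scal {V : Type} [AddCommGroup V] [Module ℚ V] {q : ℚ} {Λ : AddSubgroup V} {x : V} :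
    x ∈ scal q Λ ↔ ∃ y ∈ Λ, q • y = x := Iff.rfl

theorem mem_lmap {V W : Type} [AddCommGroup V] [Module ℚ V] [AddCommGroup W] [Module ℚ W]
    {φ : V →ₗ[ℚ] W} {Λ : AddSubgroup V} {y : W} : y ∈ lmap φ Λ ↔ ∃ x ∈ Λ, φ x = y := Iff.rfl

namespace BIsoAux

section act
variable {R : Type} [CommRing R] (σ : List Bool)

theorem act_act (g g' h h' : Mat n R) (w : Tn n σ R) :
    act σ g g' *ᵥ (act σ h h' *ᵥ w) = act σ (g * h) (h' * g') *ᵥ w :=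
  rho_mulVec σ.get g g' h h' w

theorem act_one (w : Tn n σ R) : act σ (1 : Mat n R) 1 *ᵥ w = w := by
  rw [act_eq_rho, rho_one, one_mulVec]

theorem act_cancel {g g' : Mat n R} (h : g' * g = 1) (w : Tn n σ R) :
    act σ g' g *ᵥ (act σ g g' *ᵥ w) = w := by
  rw [act_act, h, act_one]

theorem act_iff {g g' : Mat n R} (h : g * g' = 1) {x y : Tn n σ R} :
    act σ g g' *ᵥ x = y ↔ x = act σ g' g *ᵥ y :=
  ⟨fun e => by rw [← e, act_cancel σ (mul_eq_one_comm.1 h)], fun e => by rw [e, act_cancel σ h]⟩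

theorem act_cast (F : Type) [Field F] [CharZero F] (g g' : Mat n ℚ) (w : Tn n σ ℚ) :
    act σ (castM F g) (castM F g') *ᵥ castV F w = castV F (act σ g g' *ᵥ w) :=
  rho_castV F σ.get g g' w

theorem act_map (τ : ℂ ≃+* ℂ) {g g' : Mat n ℂ} {x y : Tn n σ ℚ}
    (h : act σ g g' *ᵥ castV ℂ x = castV ℂ y) :
    act σ (g.map τ) (g'.map τ) *ᵥ castV ℂ x = castV ℂ y := by
  have e : ∀ z : Tn n σ ℚ, ∀ I, τ (castV ℂ z I) = castV ℂ z I := fun z I => map_ratCast τ _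
  funext I
  rw [act_eq_rho, ← rho_map, ← e y I, ← h, act_eq_rho]
  simp only [mulVec, dotProduct, map_sum, map_mul, e, map_apply]

end act

theorem map_inv (τ : ℂ ≃+* ℂ) {g g' : Mat n ℂ} (h : g * g' = 1) : g.map τ * g'.map τ = 1 := by
  rw [← Matrix.map_mul, h, Matrix.map_one _ (map_zero τ) (map_one τ)]

theorem cast_inv (F : Type) [Field F] [CharZero F] {g g' : Mat n ℚ} :
    castM F g * castM F g' = 1 ↔ g * g' = 1 := by
  rw [← castM_mul, ← castM_one F, (castM_injective F).eq_iff]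

theorem lmap_lmap (x y : Mat n ℚ) (Λ : AddSubgroup (Fin n → ℚ)) :
    lmap x.mulVecLin (lmap y.mulVecLin Λ) = lmap (x * y).mulVecLin Λ := by
  rw [lmap, lmap, lmap, AddSubgroup.map_map, mulVecLin_mul]
  rfl

theorem lmap_one (Λ : AddSubgroup (Fin n → ℚ)) : lmap (1 : Mat n ℚ).mulVecLin Λ = Λ := by
  rw [lmap, mulVecLin_one]
  exact AddSubgroup.map_id Λ

theorem lmap_cancel {g g' : Mat n ℚ} (h : g' * g = 1) (Λ : AddSubgroup (Fin n → ℚ)) :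
    lmap g'.mulVecLin (lmap g.mulVecLin Λ) = Λ := by
  rw [lmap_lmap, h, lmap_one]

theorem lmap_iff {g g' : Mat n ℚ} (h : g * g' = 1) {Λ Λ' : AddSubgroup (Fin n → ℚ)} :
    lmap g.mulVecLin Λ = Λ' ↔ Λ = lmap g'.mulVecLin Λ' :=
  ⟨fun e => by rw [← e, lmap_cancel (mul_eq_one_comm.1 h)], fun e => by rw [e, lmap_cancel h]⟩

theorem hom_lmap (x : Mat n ℚ) (Λ : AddSubgroup (Fin n → ℚ)) :
    x ∈ HomS Λ (lmap x.mulVecLin Λ) := fun v hv => ⟨v, hv, rfl⟩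

theorem hom_lmap' {g g' : Mat n ℚ} (h : g' * g = 1) (Λ : AddSubgroup (Fin n → ℚ)) :
    g' ∈ HomS (lmap g.mulVecLin Λ) Λ := by
  have := hom_lmap g' (lmap g.mulVecLin Λ)
  rwa [lmap_cancel h] at this

theorem scal_map {x : Mat n ℚ} {Λ Λ' : AddSubgroup (Fin n → ℚ)} (h : x ∈ HomS Λ Λ') {q : ℚ}
    {y : Fin n → ℚ} (hy : y ∈ scal q Λ) : x *ᵥ y ∈ scal q Λ' := by
  obtain ⟨z, hz, rfl⟩ := mem_scal.1 hy
  exact mem_scal.2 ⟨x *ᵥ z, h z hz, (mulVec_smul _ _ _).symm⟩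

theorem red_lmap (x : Mat n ℚ) {Λ : AddSubgroup (Fin n → ℚ)} (h : Red Λ) :
    Red (lmap x.mulVecLin Λ) := by
  obtain ⟨m, hm, h⟩ := h
  refine ⟨m * ∏ i, ∏ j, (x i j).den, Nat.mul_pos hm (Finset.prod_pos fun i _ =>
    Finset.prod_pos fun j _ => (x i j).den_pos), ?_⟩
  rintro _ ⟨v, hv, rfl⟩ i
  show ∑ j, x i j * v j ∈ _
  refine Subring.sum_mem _ fun j _ => Subring.mul_mem _ ?_ ?_
  · intro p _ hp
    exact (hp.trans ((Finset.dvd_prod_of_mem (fun j => (x i j).den) (Finset.mem_univ j)).trans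
      (Finset.dvd_prod_of_mem (fun i => ∏ j, (x i j).den) (Finset.mem_univ i)))).mul_left m
  · intro p hp hd
    exact (h v hv j p hp hd).mul_right _

theorem qspan_lmap {g g' : Mat n ℚ} (h : g * g' = 1) {Λ : AddSubgroup (Fin n → ℚ)}
    (hΛ : qspan Λ = ⊤) : qspan (lmap g.mulVecLin Λ) = ⊤ := by
  have : qspan (lmap g.mulVecLin Λ) = (qspan Λ).map g.mulVecLin :=
    (Submodule.map_span g.mulVecLin (Λ : Set (Fin n → ℚ))).symm
  rw [this, hΛ, eq_top_iff]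
  exact fun v _ => ⟨g' *ᵥ v, trivial, by rw [mulVecLin_apply, mulVec_mulVec, h, one_mulVec]⟩

theorem cspan_cast {S : Set (Mat n ℚ)} {x : Mat n ℚ} (h : x ∈ S) : castM ℂ x ∈ CSpan S :=
  Submodule.subset_span ⟨x, h, rfl⟩

end BIsoAux

open BIsoAux

theorem lmap_eq_iff {α : GL (Fin n) ℚ} {Λ Λ' : AddSubgroup (Fin n → ℚ)} :
    lmap α.val.mulVecLin Λ = Λ' ↔ α.val ∈ HomS Λ Λ' ∧ α.inv ∈ HomS Λ' Λ := by
  refine ⟨?_, fun h => le_antisymm ?_ fun v hv => ⟨α.inv *ᵥ v, h.2 v hv, ?_⟩⟩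
  · rintro rfl
    exact ⟨hom_lmap _ _, hom_lmap' α.inv_val _⟩
  · rintro _ ⟨v, hv, rfl⟩
    exact h.1 v hv
  · exact (mulVec_mulVec _ _ _).trans (by rw [α.val_inv, one_mulVec])

theorem exists_dl (ts : List (OT n)) (Λs : List (AddSubgroup (Fin n → ℚ))) (κ : ℕ) :
    ∃ Δ : Subgroup (GL (Fin n) ℚ), ∀ δ, δ ∈ Δ ↔ DlP ts Λs κ δ := by
  refine ⟨⟨⟨⟨{δ | DlP ts Λs κ δ}, fun {a b} ha hb => ⟨fun t ht => ?_, fun Λ hΛ => ⟨?_,
    fun x hx => ?_⟩⟩⟩, fun t _ => act_one _ _, fun Λ _ => ⟨lmap_one Λ, fun x _ => ?_⟩⟩,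
    fun {a} ha => ⟨fun t ht => ((act_iff _ a.val_inv).1 (ha.1 t ht)).symm, fun Λ hΛ =>
      ⟨((lmap_iff a.val_inv).1 (ha.2 Λ hΛ).1).symm, fun x hx => ?_⟩⟩⟩, fun _ => Iff.rfl⟩
  · exact (act_act _ a.val a.inv b.val b.inv _).symm.trans (by rw [hb.1 t ht, ha.1 t ht])
  · exact (lmap_lmap a.val b.val Λ).symm.trans (by rw [(hb.2 Λ hΛ).1, (ha.2 Λ hΛ).1])
  · have := add_mem ((ha.2 Λ hΛ).2 _ ((lmap_eq_iff.1 (hb.2 Λ hΛ).1).1 x hx)) ((hb.2 Λ hΛ).2 x hx)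
    rwa [sub_add_sub_cancel, mulVec_mulVec] at this
  · rw [Units.val_one, one_mulVec, sub_self]
    exact zero_mem _
  · have := neg_mem ((ha.2 Λ hΛ).2 _ ((lmap_eq_iff.1 (ha.2 Λ hΛ).1).2 x hx))
    rwa [neg_sub, mulVec_mulVec, a.val_inv, one_mulVec] at this

theorem tiso_cast_iff (F : Type) [Field F] [CharZero F] {α α' : Mat n ℚ} :
    TIso F us (castM F α) (castM F α') ↔
      α * α' = 1 ∧ α' * α = 1 ∧ ∀ t ∈ us, act t.1 α α' *ᵥ t.2.1 = t.2.2 := by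
  simp only [TIso, cast_inv, act_cast, (castV_injective F).eq_iff]

theorem IsoL.tiso {α : GL (Fin n) ℚ} (h : IsoL us Ls α) :
    TIso ℂ us (castM ℂ α.val) (castM ℂ α.inv) :=
  (tiso_cast_iff ℂ).2 ⟨α.val_inv, α.inv_val, h.1⟩

theorem TIso.map {α α' : Mat n ℂ} (h : TIso ℂ us α α') (τ : ℂ ≃+* ℂ) :
    TIso ℂ us (α.map τ) (α'.map τ) :=
  ⟨map_inv τ h.1, map_inv τ h.2.1, fun t ht => act_map _ τ (h.2.2 t ht)⟩

theorem TIso.mul_aut {α α' : Mat n ℂ} (h : TIso ℂ us α α') {g : GL (Fin n) ℂ} (hg : AutP us g) :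
    TIso ℂ us (α * g.val) (g.inv * α') := by
  have e : α * g.val * (g.inv * α') = 1 := by
    rw [Matrix.mul_assoc, ← Matrix.mul_assoc g.val, g.val_inv, Matrix.one_mul, h.1]
  exact ⟨e, mul_eq_one_comm.1 e, fun t ht => by rw [← act_act, hg t ht, h.2.2 t ht]⟩

theorem TIso.aut {α α' β β' : Mat n ℂ} (h : TIso ℂ us α α') (h' : TIso ℂ us β β') :
    ∃ g : GL (Fin n) ℂ, AutP us g ∧ g.val = α' * β ∧ g.inv = β' * α := by
  have e : α' * β * (β' * α) = 1 := by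
    rw [Matrix.mul_assoc, ← Matrix.mul_assoc β, h'.1, Matrix.one_mul, h.2.1]
  refine ⟨⟨α' * β, β' * α, e, mul_eq_one_comm.1 e⟩, fun t ht => ?_, rfl, rfl⟩
  exact (act_act _ α' α β β' _).symm.trans
    (by rw [h'.2.2 t ht, ← (act_iff _ h.1).1 (h.2.2 t ht)])

theorem exists_autG (us : List (TPair n)) :
    ∃ H : Subgroup (GL (Fin n) ℂ), (∀ h, h ∈ H ↔ AutP us h) ∧ GalSt H :=
  ⟨⟨⟨⟨{h | AutP us h}, fun {a b} ha hb t ht =>
      (act_act _ a.val a.inv b.val b.inv _).symm.trans (by rw [hb t ht, ha t ht])⟩,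
      fun _ _ => act_one _ _⟩, fun {a} ha t ht => ((act_iff _ a.val_inv).1 (ha t ht)).symm⟩,
    fun _ => Iff.rfl, fun τ g hg =>
      ⟨⟨g.val.map τ, g.inv.map τ, map_inv τ g.val_inv, map_inv τ g.inv_val⟩,
        fun t ht => act_map _ τ (hg t ht), rfl⟩⟩

theorem IsoL.mul_dl {α δ : GL (Fin n) ℚ} (h : IsoL us Ls α)
    (hδ : DlP (ts1 us) (Ls.map Prod.fst) κ δ) : IsoL us Ls (α * δ) :=
  ⟨fun t ht => (act_act _ α.val α.inv δ.val δ.inv _).symm.trans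
      (by rw [hδ.1 ⟨t.1, t.2.1⟩ (List.mem_map.2 ⟨t, ht, rfl⟩), h.1 t ht]),
    fun L hL => (lmap_lmap α.val δ.val L.1).symm.trans
      (by rw [(hδ.2 L.1 (List.mem_map.2 ⟨L, hL, rfl⟩)).1, h.2 L hL])⟩

theorem IsoL.dl_mul {α w : GL (Fin n) ℚ} (h : IsoL us Ls α)
    (hw : DlP (ts2 us) (Ls.map Prod.snd) κ w) :
    IsoL us Ls (w * α) ∧ DlP (ts1 us) (Ls.map Prod.fst) κ (α⁻¹ * w * α) := by
  have h1 : ∀ t ∈ us, act t.1 w.val w.inv *ᵥ t.2.2 = t.2.2 := fun t ht =>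
    hw.1 ⟨t.1, t.2.2⟩ (List.mem_map.2 ⟨t, ht, rfl⟩)
  have h2 := fun (L : LPair n) (hL : L ∈ Ls) => hw.2 L.2 (List.mem_map.2 ⟨L, hL, rfl⟩)
  refine ⟨⟨fun t ht => (act_act _ w.val w.inv α.val α.inv _).symm.trans
    (by rw [h.1 t ht, h1 t ht]), fun L hL => (lmap_lmap w.val α.val L.1).symm.trans
      (by rw [h.2 L hL, (h2 L hL).1])⟩, List.forall_mem_map.2 fun t ht => ?_,
    List.forall_mem_map.2 fun L hL => ?_⟩
  · refine (act_act _ (α.inv * w.val) (w.inv * α.val) α.val α.inv _).symm.trans ?_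
    rw [h.1 t ht, ← act_act, h1 t ht, ← (act_iff _ α.val_inv).1 (h.1 t ht)]
  · have h3 := lmap_eq_iff.1 (h.2 L hL)
    refine ⟨(lmap_lmap (α.inv * w.val) α.val _).symm.trans ?_, fun x hx => ?_⟩
    · rw [h.2 L hL, ← lmap_lmap, (h2 L hL).1, ← (lmap_iff α.val_inv).1 (h.2 L hL)]
    · have := scal_map h3.2 ((h2 L hL).2 _ (h3.1 x hx))
      rwa [mulVec_sub, mulVec_mulVec, mulVec_mulVec, mulVec_mulVec, α.inv_val, one_mulVec] at this

theorem isoL_tr (p p' α : GL (Fin n) ℚ) :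
    IsoL (trT p p' us) (trL p p' Ls) α ↔ IsoL us Ls (p' * α * p⁻¹) := by
  refine and_congr (List.forall_mem_map.trans (forall₂_congr fun t _ => ?_))
    (List.forall_mem_map.trans (forall₂_congr fun L _ => ?_))
  · refine (act_iff _ p'.val_inv).symm.trans (Eq.congr_left ?_)
    rw [act_act _ p'.val, act_act]
    rfl
  · refine (lmap_iff p'.val_inv).symm.trans (Eq.congr_left ?_)
    rw [lmap_lmap p'.val, lmap_lmap]
    rfl

theorem tiso_tr (p p' : GL (Fin n) ℚ) (α α' : Mat n ℂ) :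
    TIso ℂ (trT p p' us) α α' ↔ TIso ℂ us (castM ℂ p'.val * α * castM ℂ p.inv)
      (castM ℂ p.val * α' * castM ℂ p'.inv) := by
  have c : ∀ q : GL (Fin n) ℚ, castM ℂ q.val * castM ℂ q.inv = 1 := fun q =>
    (cast_inv ℂ).2 q.val_inv
  have e : ∀ (q q' : GL (Fin n) ℚ) (β β' : Mat n ℂ), β * β' = 1 ↔
      castM ℂ q'.val * β * castM ℂ q.inv * (castM ℂ q.val * β' * castM ℂ q'.inv) = 1 := by
    intro q q' β β'
    have : castM ℂ q'.val * β * castM ℂ q.inv * (castM ℂ q.val * β' * castM ℂ q'.inv) =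
        castM ℂ q'.val * (β * β' * castM ℂ q'.inv) := by
      simp only [Matrix.mul_assoc]
      rw [← Matrix.mul_assoc (castM ℂ q.inv), mul_eq_one_comm.1 (c q), Matrix.one_mul]
    rw [this, mul_eq_one_comm (a := castM ℂ q'.val), Matrix.mul_assoc, mul_eq_one_comm.1 (c q'),
      Matrix.mul_one]
  refine and_congr (e p p' α α') (and_congr (e p' p α' α)
    (List.forall_mem_map.trans (forall₂_congr fun t _ => ?_)))
  dsimp only
  rw [← act_cast, ← act_cast]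
  refine (act_iff _ (c p')).symm.trans (Eq.congr_left ?_)
  rw [act_act _ (castM ℂ p'.val), act_act, Matrix.mul_assoc (castM ℂ p.val)]

theorem trT_trT (p p' v v' : GL (Fin n) ℚ) :
    trT v v' (trT p p' us) = trT (p * v) (p' * v') us := by
  rw [trT, trT, trT, List.map_map]
  refine List.map_congr_left fun t _ => ?_
  rw [Function.comp_apply, act_act, act_act]
  rfl

theorem BTok.tr {a : BTIn} (h : BTok a) (p p' : GL (Fin a.1) ℚ) : BTok (trIn a p p') := by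
  obtain ⟨h1, h2, L, hL, h3, h4⟩ := h
  exact ⟨h1, List.forall_mem_map.2 fun L hL => ⟨red_lmap _ (h2 L hL).1, red_lmap _ (h2 L hL).2⟩,
    _, List.mem_map.2 ⟨L, hL, rfl⟩, qspan_lmap p.inv_val h3, qspan_lmap p'.inv_val h4⟩

theorem BTE.tr {a : BTIn} (h : BTE a) (p p' : GL (Fin a.1) ℚ) : BTE (trIn a p p') := by
  have e : ∀ (q q' : GL (Fin a.1) ℚ) (β : Mat a.1 ℂ) (Λ Λ' : AddSubgroup (Fin a.1 → ℚ)),
      castM ℂ q'.val * β * castM ℂ q.inv ∈ CSpan (HomS Λ Λ') →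
        β ∈ CSpan (HomS (lmap q.inv.mulVecLin Λ) (lmap q'.inv.mulVecLin Λ')) := by
    intro q q' β Λ Λ' hβ
    have := cspan_mul (cspan_mul (cspan_cast (hom_lmap q'.inv Λ')) hβ)
      (cspan_cast (hom_lmap' q.val_inv Λ))
    rwa [Matrix.mul_assoc, Matrix.mul_assoc, (cast_inv ℂ).2 q.inv_val, Matrix.mul_one,
      ← Matrix.mul_assoc, (cast_inv ℂ).2 q'.inv_val, Matrix.one_mul] at this
  refine fun α α' hα => List.forall_mem_map.2 fun L hL => ?_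
  have := h _ _ ((tiso_tr p p' α α').1 hα) L hL
  exact ⟨e p p' α _ _ this.1, e p' p α' _ _ this.2⟩

theorem cover_tr {a : BTIn} (p p' : GL (Fin a.1) ℚ) {R : List (GL (Fin a.1) ℚ)}
    (h : BTCover (trIn a p p') R) : BTCover a (R.map fun β => p' * β * p⁻¹) := by
  intro α hα
  obtain ⟨β, hβ, h1, h2⟩ := h (p'⁻¹ * α * p) ((isoL_tr p p' _).2 (by simpa [mul_assoc] using hα))
  refine ⟨_, List.mem_map.2 ⟨β, hβ, rfl⟩, (isoL_tr p p' β).1 h1, fun L hL x hx => ?_⟩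
  have e : (p' * β * p⁻¹)⁻¹ * α = p * (β⁻¹ * (p'⁻¹ * α * p)) * p⁻¹ := by group
  have := scal_map (hom_lmap' p.val_inv L.1)
    (h2 _ (List.mem_map.2 ⟨L, hL, rfl⟩) _ (hom_lmap p.inv L.1 x hx))
  rw [mulVec_sub, mulVec_mulVec, mulVec_mulVec, mulVec_mulVec, p.val_inv, one_mulVec] at this
  rw [e]
  exact this

end Pool.Agent.P.MP_257122_al
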