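import Pool.Agent.P.MP_257122_al.FOps

/-!
# Functions, matrices, units, linear maps, coordinates

PLAN.  Everything is entrywise: `CS.lam`, `CS.app` and the rules of `FOps`.  The matrix
representation is the function representation by definition.  For generic families use the
`comp` lemmas of `FProp` to move hypotheses to the extended base.
-/

namespace Pool.Agent.P.MP_257122_al

open Matrix

open FEnumAux

variable {A : Type} [Rep A]

namespace FMatAux

theorem ap {ι T : A → Type} [∀ a, Rep (ι a)] [∀ a, Rep (T a)] {f : ∀ a, ι a → T a} (h : CS f) :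
    CS (fun p : Σ a, ι a => f p.1 p.2) := CS.app (h.comp p1) p2

theorem ap2 {m n R : A → Type} [∀ a, Rep (m a)] [∀ a, Rep (n a)] [∀ a, Rep (R a)]
    {f : ∀ a, m a → n a → R a} (h : CS f) : CS (fun p : Σ a, m a × n a => f p.1 p.2.1 p.2.2) :=
  CS.app (CS.app (h.comp p1) (CS.fst p2)) (CS.snd p2)

theorem lam2 {m n R : A → Type} [∀ a, Rep (m a)] [∀ a, Rep (n a)] [∀ a, Rep (R a)]
    {f : ∀ a, m a → n a → R a} (h : CS (fun p : Σ a, m a × n a => f p.1 p.2.1 p.2.2)) : CS f :=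
  CS.lam (CS.lam (h.comp (g := fun q : Σ p : (Σ a, m a), n p.1 => ⟨q.1.1, (q.1.2, q.2)⟩)
    (CS.smk0 (p1.comp p1) (CS.pair (p2.comp p1) p2))))

theorem dot {m R : A → Type} [∀ a, Rep (m a)] [∀ a, Rep (R a)] [∀ a, Fintype (m a)]
    [∀ a, Mul (R a)] [∀ a, AddCommMonoid (R a)] {v w : ∀ a, m a → R a} (hm : CFin m)
    (ha : AddF R) (h0 : ZeroF R) (h1 : MulF R) (h : CS (fun p : Σ a, m a => v p.1 p.2))
    (h' : CS (fun p : Σ a, m a => w p.1 p.2)) : CS (fun a => v a ⬝ᵥ w a) :=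
  CS.sum (s := fun a i => v a i * w a i) hm ha h0 (CS.mul (h1.comp p1) h h')

theorem diag {m R : A → Type} [∀ a, Rep (m a)] [∀ a, Rep (R a)] [∀ a, DecidableEq (m a)]
    [∀ a, Zero (R a)] {d : ∀ a, m a → R a} (hd : Disc m) (hh : Haus m) (h0 : ZeroF R)
    (h : CS d) : CS (fun a => Matrix.diagonal (d a)) :=
  lam2 (f := fun a i j => if i = j then d a i else 0)
    (CS.ite (CS.eq (hd.comp p1) (CS.fst p2) (CS.snd p2))
      (CS.notEq (hh.comp p1) (CS.fst p2) (CS.snd p2)) (CS.app (h.comp p1) (CS.fst p2))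
      (CS.zero (h0.comp p1)))

theorem units {M : A → Type} [∀ a, Rep (M a)] [∀ a, Monoid (M a)] {u : ∀ a, (M a)ˣ} :
    CS u ↔ CS (fun a => ((u a).val, (u a).inv)) := Iff.rfl

theorem enumC_elim {T U : A → Type} [∀ a, Rep (T a)] [∀ a, Rep (U a)] {Q : ∀ a, T a → Prop}
    (h : MV Q) (h' : EnumC (fun p : {p : Σ a, T a // Q p.1 p.2} => U p.1.1)) : EnumC U := by
  obtain ⟨F, hF, h⟩ := h
  obtain ⟨E, hE, h'⟩ := h'
  refine ⟨fun p => ∃ e, e ∈ F p.1 ∧ E (Nat.pair p.1 e, p.2), re_iff.2 ?_, fun c a ha => ?_⟩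
  · exact CS.ex Enum.nat (CS.and (cs_mem hF (CS.fst p1) p2)
      ((re_iff.1 hE).comp (CS.pair (cs_pr (CS.fst p1) p2) (CS.snd p1))))
  · obtain ⟨e, he, x, hx, hr⟩ := h c a ha
    have k := h' (Nat.pair c e) ⟨⟨a, x⟩, hx⟩ (r_sig ha hr)
    refine ⟨?_, fun y hy => ?_⟩
    · rintro d ⟨e', he', hd⟩
      rw [Part.mem_unique he' he] at hd
      exact k.1 d hd
    · obtain ⟨d, hd, hy⟩ := k.2 y hy
      exact ⟨d, ⟨e, he, hd⟩, hy⟩

section
variable {V : A → Type} [∀ a, Rep (V a)] [∀ a, AddCommGroup (V a)] [∀ a, Module ℚ (V a)]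

/-- The base extended by a choice of coordinates. -/
abbrev Ext (V : A → Type) [∀ a, AddCommGroup (V a)] [∀ a, Module ℚ (V a)] : Type :=
  {p : Σ a, Σ n : ℕ, (V a →ₗ[ℚ] (Fin n → ℚ)) × ((Fin n → ℚ) →ₗ[ℚ] V a) //
    p.2.2.2 ∘ₗ p.2.2.1 = LinearMap.id ∧ p.2.2.1 ∘ₗ p.2.2.2 = LinearMap.id}

theorem e_a : CS (fun b : Ext V => b.1.1) := p1.comp v1
theorem e_n : CS (fun b : Ext V => b.1.2.1) := CS.sfst (p2.comp v1)
theorem e_q : CS (fun b : Ext V => b.1.2.2) :=
  s2 (α := fun _ : Ext V => ℕ)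
    (β := fun b n => (V b.1.1 →ₗ[ℚ] (Fin n → ℚ)) × ((Fin n → ℚ) →ₗ[ℚ] V b.1.1)) (p2.comp v1)
theorem e_f : CS (fun b : Ext V => b.1.2.2.1) := CS.fst e_q
theorem e_g : CS (fun b : Ext V => b.1.2.2.2) := CS.snd e_q

omit [Rep A] [∀ a, Rep (V a)] in
theorem e_gf (b : Ext V) (v : V b.1.1) : b.1.2.2.2 (b.1.2.2.1 v) = v :=
  LinearMap.congr_fun b.2.1 v

omit [Rep A] [∀ a, Rep (V a)] in
theorem e_fg (b : Ext V) (v : Fin b.1.2.1 → ℚ) : b.1.2.2.1 (b.1.2.2.2 v) = v :=
  LinearMap.congr_fun b.2.2 v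

/-- Elimination of the coordinates. -/
theorem coord_elim {C : Type} [Rep C] {k : C → A} {U : C → Type} [∀ a, Rep (U a)] {f : ∀ a, U a}
    (h : CoordF V) (hk : CS k)
    (H : ∀ (B : Type) [Rep B] (g : B → C) (n : B → ℕ)
      (φ : ∀ b, V (k (g b)) →ₗ[ℚ] (Fin (n b) → ℚ)) (ψ : ∀ b, (Fin (n b) → ℚ) →ₗ[ℚ] V (k (g b))),
      CS g → CS n → CS φ → CS ψ → (∀ b v, ψ b (φ b v) = v) → CS (fun b => f (g b))) : CS f :=
  MV.elim (h.comp hk) (H (Ext fun c => V (k c)) _ _ _ _ e_a e_n e_f e_g e_gf)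

end

end FMatAux

open FMatAux

section pi
variable {ι : A → Type} [∀ a, Rep (ι a)] {T : A → Type} [∀ a, Rep (T a)]
@[aesop safe 55 apply (transparency := reducible) (rule_sets := [Restrict])]
theorem ZeroF.pi [∀ a, Zero (T a)] (h : ZeroF T) : ZeroF (fun a => ι a → T a) :=
  CS.lam (f := fun a (_ : ι a) => (0 : T a)) (CS.zero (h.comp p1))
@[aesop safe 55 apply (transparency := reducible) (rule_sets := [Restrict])]
theorem AddF.pi [∀ a, Add (T a)] (h : AddF T) : AddF (fun a => ι a → T a) :=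
  have k := p2 (T := fun a => (ι a → T a) × (ι a → T a))
  have k1 := ap (CS.fst k)
  have k2 := ap (CS.snd k)
  CS.lam (CS.add (h.comp (p1.comp p1)) k1 k2)
@[aesop safe 55 apply (transparency := reducible) (rule_sets := [Restrict])]
theorem NegF.pi [∀ a, Neg (T a)] (h : NegF T) : NegF (fun a => ι a → T a) :=
  have k := ap (p2 (T := fun a => ι a → T a))
  CS.lam (CS.neg (h.comp (p1.comp p1)) k)
@[aesop safe 55 apply (transparency := reducible) (rule_sets := [Restrict])]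
theorem SMulF.pi {M : A → Type} [∀ a, Rep (M a)] [∀ a, SMul (M a) (T a)] (h : SMulF M T) :
    SMulF M (fun a => ι a → T a) :=
  have k := ap (CS.snd (p2 (T := fun a => M a × (ι a → T a))))
  CS.lam (CS.smul (h.comp (p1.comp p1)) (CS.fst (p2.comp p1)) k)
@[aesop safe 50 apply (transparency := reducible) (rule_sets := [Restrict])]
theorem CS.piSingle [∀ a, DecidableEq (ι a)] [∀ a, Zero (T a)] {i : ∀ a, ι a}
    {x : ∀ a, T a} (hd : Disc ι) (hh : Haus ι) (h0 : ZeroF T) (hi : CS i) (hx : CS x) :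
    CS (fun a => (Pi.single (i a) (x a) : ι a → T a)) :=
  (CS.lam (f := fun a j => if j = i a then x a else 0)
    (CS.ite (CS.eq (hd.comp p1) p2 (hi.comp p1)) (CS.notEq (hh.comp p1) p2 (hi.comp p1))
      (hx.comp p1) (CS.zero (h0.comp p1)))).congr fun _ _ =>
    funext fun _ => (Pi.single_apply _ _ _).symm
@[aesop safe 50 apply (transparency := reducible) (rule_sets := [Restrict])]
theorem ZeroF.prod {U : A → Type} [∀ a, Rep (U a)] [∀ a, Zero (T a)]
    [∀ a, Zero (U a)] (h : ZeroF T) (h' : ZeroF U) : ZeroF (fun a => T a × U a) :=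
  CS.pair h h'
@[aesop safe 50 apply (transparency := reducible) (rule_sets := [Restrict])]
theorem AddF.prod {U : A → Type} [∀ a, Rep (U a)] [∀ a, Add (T a)]
    [∀ a, Add (U a)] (h : AddF T) (h' : AddF U) : AddF (fun a => T a × U a) :=
  CS.pair (CS.add (h.comp p1) (CS.fst (CS.fst p2)) (CS.fst (CS.snd p2)))
    (CS.add (h'.comp p1) (CS.snd (CS.fst p2)) (CS.snd (CS.snd p2)))
end pi

section matrix
variable {l m n R : A → Type} [∀ a, Rep (l a)] [∀ a, Rep (m a)] [∀ a, Rep (n a)] [∀ a, Rep (R a)]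
@[aesop safe 60 apply (transparency := reducible) (rule_sets := [Restrict])]
theorem CS.mapp {M : ∀ a, Matrix (m a) (n a) (R a)} {i : ∀ a, m a} {j : ∀ a, n a} (h : CS M)
    (hi : CS i) (hj : CS j) : CS (fun a => M a (i a) (j a)) :=
  CS.app (CS.app (T := fun a => n a → R a) (f := M) h hi) hj
@[aesop safe 60 apply (transparency := reducible) (rule_sets := [Restrict])]
theorem CS.mrow {M : ∀ a, Matrix (m a) (n a) (R a)} {i : ∀ a, m a} (h : CS M) (hi : CS i) :
    CS (T := fun a => n a → R a) (fun a => M a (i a)) :=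
  CS.app (T := fun a => n a → R a) (f := M) h hi
@[aesop safe 70 apply (transparency := reducible) (rule_sets := [Restrict])]
theorem CS.mlam {M : ∀ a, Matrix (m a) (n a) (R a)}
    (h : CS (fun p : Σ a, m a × n a => M p.1 p.2.1 p.2.2)) : CS M :=
  lam2 (f := M) h
@[aesop safe 50 apply (transparency := reducible) (rule_sets := [Restrict])]
theorem CS.matrixOf {f : ∀ a, m a → n a → R a} (h : CS f) :
    CS (fun a => Matrix.of (f a)) :=
  h
@[aesop safe 50 apply (transparency := reducible) (rule_sets := [Restrict])]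
theorem ZeroF.matrix [∀ a, Zero (R a)] (h : ZeroF R) :
    ZeroF (fun a => Matrix (m a) (n a) (R a)) :=
  ZeroF.pi (ι := m) (ZeroF.pi (ι := n) h)
@[aesop safe 50 apply (transparency := reducible) (rule_sets := [Restrict])]
theorem AddF.matrix [∀ a, Add (R a)] (h : AddF R) :
    AddF (fun a => Matrix (m a) (n a) (R a)) :=
  AddF.pi (ι := m) (AddF.pi (ι := n) h)
@[aesop safe 50 apply (transparency := reducible) (rule_sets := [Restrict])]
theorem NegF.matrix [∀ a, Neg (R a)] (h : NegF R) :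
    NegF (fun a => Matrix (m a) (n a) (R a)) :=
  NegF.pi (ι := m) (NegF.pi (ι := n) h)
@[aesop safe 50 apply (transparency := reducible) (rule_sets := [Restrict])]
theorem SMulF.matrix {M : A → Type} [∀ a, Rep (M a)] [∀ a, SMul (M a) (R a)]
    (h : SMulF M R) : SMulF M (fun a => Matrix (m a) (n a) (R a)) :=
  SMulF.pi (ι := m) (SMulF.pi (ι := n) h)
@[aesop safe 50 apply (transparency := reducible) (rule_sets := [Restrict])]
theorem OneF.matrix [∀ a, DecidableEq (m a)] [∀ a, Zero (R a)]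
    [∀ a, One (R a)] (hd : Disc m) (hh : Haus m) (h0 : ZeroF R) (h1 : OneF R) :
    OneF (fun a => Matrix (m a) (m a) (R a)) :=
  diag (d := fun a _ => (1 : R a)) hd hh h0 (CS.lam (CS.one (h1.comp p1)))
@[aesop safe 50 apply (transparency := reducible) (rule_sets := [Restrict])]
theorem MulF.matrix [∀ a, Fintype (m a)] [∀ a, Mul (R a)]
    [∀ a, AddCommMonoid (R a)] (hm : CFin m) (ha : AddF R) (h0 : ZeroF R) (h1 : MulF R) :
    MulF (fun a => Matrix (m a) (m a) (R a)) :=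
  CS.mlam (dot (v := fun (q : Σ p : (Σ a, Matrix (m a) (m a) (R a) × Matrix (m a) (m a) (R a)),
      m p.1 × m p.1) j => q.1.2.1 q.2.1 j) (w := fun q j => q.1.2.2 j q.2.2)
    (hm.comp (p1.comp p1)) (ha.comp (p1.comp p1)) (h0.comp (p1.comp p1)) (h1.comp (p1.comp p1))
    (CS.mapp (CS.fst (p2.comp (p1.comp p1))) (CS.fst (p2.comp p1)) p2)
    (CS.mapp (CS.snd (p2.comp (p1.comp p1))) p2 (CS.snd (p2.comp p1))))
@[aesop safe 50 apply (transparency := reducible) (rule_sets := [Restrict])]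
theorem RatF.matrix [∀ a, Fintype (m a)] [∀ a, DecidableEq (m a)]
    [∀ a, Semiring (R a)] [∀ a, Algebra ℚ (R a)] (hd : Disc m) (hh : Haus m) (h0 : ZeroF R)
    (h : RatF R) : RatF (fun a => Matrix (m a) (m a) (R a)) :=
  (diag (d := fun (p : Σ _ : A, ℚ) (_ : m p.1) => algebraMap ℚ (R p.1) p.2) (hd.comp p1)
    (hh.comp p1) (h0.comp p1) (CS.lam (CS.comp h p1))).congr fun _ _ => by
    ext i j
    rw [Matrix.algebraMap_matrix_apply, Matrix.diagonal_apply]
@[aesop safe 45 apply (transparency := reducible) (rule_sets := [Restrict])]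
theorem CS.mmul [∀ a, Fintype (m a)] [∀ a, Mul (R a)] [∀ a, AddCommMonoid (R a)]
    {M : ∀ a, Matrix (l a) (m a) (R a)} {N : ∀ a, Matrix (m a) (n a) (R a)} (hm : CFin m)
    (ha : AddF R) (h0 : ZeroF R) (h1 : MulF R) (h : CS M) (h' : CS N) :
    CS (fun a => M a * N a) :=
  CS.mlam (dot (v := fun (q : Σ a, l a × n a) j => M q.1 q.2.1 j) (w := fun q j => N q.1 j q.2.2)
    (hm.comp p1) (ha.comp p1) (h0.comp p1) (h1.comp p1)
    (CS.mapp (h.comp (p1.comp p1)) (CS.fst (p2.comp p1)) p2)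
    (CS.mapp (h'.comp (p1.comp p1)) p2 (CS.snd (p2.comp p1))))
@[aesop safe 50 apply (transparency := reducible) (rule_sets := [Restrict])]
theorem CS.mulVec [∀ a, Fintype (n a)] [∀ a, NonUnitalNonAssocSemiring (R a)]
    {M : ∀ a, Matrix (m a) (n a) (R a)} {v : ∀ a, n a → R a} (hm : CFin n) (ha : AddF R)
    (h0 : ZeroF R) (h1 : MulF R) (h : CS M) (h' : CS v) : CS (fun a => M a *ᵥ v a) :=
  CS.lam (dot (v := fun (q : Σ a, m a) j => M q.1 q.2 j) (w := fun q => v q.1)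
    (hm.comp p1) (ha.comp p1) (h0.comp p1) (h1.comp p1)
    (CS.mapp (h.comp (p1.comp p1)) (p2.comp p1) p2) (ap (h'.comp p1)))
@[aesop safe 50 apply (transparency := reducible) (rule_sets := [Restrict])]
theorem CS.vecMul [∀ a, Fintype (m a)] [∀ a, NonUnitalNonAssocSemiring (R a)]
    {M : ∀ a, Matrix (m a) (n a) (R a)} {v : ∀ a, m a → R a} (hm : CFin m) (ha : AddF R)
    (h0 : ZeroF R) (h1 : MulF R) (h' : CS v) (h : CS M) : CS (fun a => v a ᵥ* M a) :=
  CS.lam (dot (v := fun (q : Σ a, n a) => v q.1) (w := fun q i => M q.1 i q.2)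
    (hm.comp p1) (ha.comp p1) (h0.comp p1) (h1.comp p1) (ap (h'.comp p1))
    (CS.mapp (h.comp (p1.comp p1)) p2 (p2.comp p1)))
@[aesop safe 50 apply (transparency := reducible) (rule_sets := [Restrict])]
theorem CS.dotProduct [∀ a, Fintype (m a)] [∀ a, Mul (R a)]
    [∀ a, AddCommMonoid (R a)] {v w : ∀ a, m a → R a} (hm : CFin m) (ha : AddF R) (h0 : ZeroF R)
    (h1 : MulF R) (h : CS v) (h' : CS w) : CS (fun a => v a ⬝ᵥ w a) :=
  dot hm ha h0 h1 (ap h) (ap h')
@[aesop safe 50 apply (transparency := reducible) (rule_sets := [Restrict])]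
theorem CS.transpose {M : ∀ a, Matrix (m a) (n a) (R a)} (h : CS M) :
    CS (fun a => (M a)ᵀ) :=
  lam2 (f := fun a i j => M a j i) (CS.mapp (h.comp p1) (CS.snd p2) (CS.fst p2))
@[aesop safe 50 apply (transparency := reducible) (rule_sets := [Restrict])]
theorem CS.matrixMap {S : A → Type} [∀ a, Rep (S a)]
    {M : ∀ a, Matrix (m a) (n a) (R a)} {f : ∀ a, R a → S a} (h : CS M) (hf : CS f) :
    CS (fun a => (M a).map (f a)) :=
  lam2 (f := fun a i j => f a (M a i j))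
    (CS.app (hf.comp p1) (CS.mapp (h.comp p1) (CS.fst p2) (CS.snd p2)))
@[aesop safe 50 apply (transparency := reducible) (rule_sets := [Restrict])]
theorem CS.trace [∀ a, Fintype (m a)] [∀ a, AddCommMonoid (R a)]
    {M : ∀ a, Matrix (m a) (m a) (R a)} (hm : CFin m) (ha : AddF R) (h0 : ZeroF R) (h : CS M) :
    CS (fun a => (M a).trace) :=
  CS.sum (s := fun a i => M a i i) hm ha h0 (CS.mapp (h.comp p1) p2 p2)
@[aesop safe 50 apply (transparency := reducible) (rule_sets := [Restrict])]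
theorem CS.diagonal [∀ a, DecidableEq (m a)] [∀ a, Zero (R a)]
    {d : ∀ a, m a → R a} (hd : Disc m) (hh : Haus m) (h0 : ZeroF R) (h : CS d) :
    CS (fun a => Matrix.diagonal (d a)) :=
  diag hd hh h0 h
@[aesop safe 50 apply (transparency := reducible) (rule_sets := [Restrict])]
theorem CS.submatrix {k : A → Type} [∀ a, Rep (k a)]
    {M : ∀ a, Matrix (m a) (n a) (R a)} {r : ∀ a, l a → m a} {c : ∀ a, k a → n a} (h : CS M)
    (hr : CS r) (hc : CS c) : CS (fun a => (M a).submatrix (r a) (c a)) :=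
  lam2 (f := fun a i j => M a (r a i) (c a j))
    (CS.mapp (h.comp p1) (CS.app (hr.comp p1) (CS.fst p2)) (CS.app (hc.comp p1) (CS.snd p2)))
@[aesop safe 50 apply (transparency := reducible) (rule_sets := [Restrict])]
theorem CS.fromBlocks {k : A → Type} [∀ a, Rep (k a)]
    {M₁ : ∀ a, Matrix (l a) (n a) (R a)} {M₂ : ∀ a, Matrix (l a) (k a) (R a)}
    {M₃ : ∀ a, Matrix (m a) (n a) (R a)} {M₄ : ∀ a, Matrix (m a) (k a) (R a)}
    (h₁ : CS M₁) (h₂ : CS M₂) (h₃ : CS M₃) (h₄ : CS M₄) :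
    CS (fun a => Matrix.fromBlocks (M₁ a) (M₂ a) (M₃ a) (M₄ a)) :=
  CS.sumElim (T := fun a => n a ⊕ k a → R a) (f := fun a i => Sum.elim (M₁ a i) (M₂ a i))
    (g := fun a i => Sum.elim (M₃ a i) (M₄ a i))
    (CS.lam (CS.sumElim (CS.mrow (h₁.comp p1) p2) (CS.mrow (h₂.comp p1) p2)))
    (CS.lam (CS.sumElim (CS.mrow (h₃.comp p1) p2) (CS.mrow (h₄.comp p1) p2)))
@[aesop safe 50 apply (transparency := reducible) (rule_sets := [Restrict])]
theorem Disc.matrix (hm : CFin m) (hn : CFin n) (h : Disc R) :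
    Disc (fun a => Matrix (m a) (n a) (R a)) :=
  Disc.pi (β := fun a _ => n a → R a) hm
    (Disc.pi (β := fun (p : Σ a, m a) _ => R p.1) (hn.comp p1) (h.comp (p1.comp p1)))
@[aesop safe 50 apply (transparency := reducible) (rule_sets := [Restrict])]
theorem Haus.matrix (hm : CFin m) (hn : CFin n) (h : Haus R) :
    Haus (fun a => Matrix (m a) (n a) (R a)) :=
  Haus.pi (β := fun a _ => n a → R a) hm
    (Haus.pi (β := fun (p : Σ a, m a) _ => R p.1) (hn.comp p1) (h.comp (p1.comp p1)))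
@[aesop safe 50 apply (transparency := reducible) (rule_sets := [Restrict])]
theorem Enum.matrix (hm : CFin m) (hm' : Disc m) (hn : CFin n) (hn' : Disc n)
    (h : Enum R) : Enum (fun a => Matrix (m a) (n a) (R a)) :=
  Enum.pi (β := fun a _ => n a → R a) hm hm'
    (Enum.pi (β := fun (p : Σ a, m a) _ => R p.1) (hn.comp p1) (hn'.comp p1) (h.comp (p1.comp p1)))
@[aesop safe 50 apply (transparency := reducible) (rule_sets := [Restrict])]
theorem EnumC.matrix (hm : CFin m) (hm' : Disc m) (hn : CFin n)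
    (hn' : Disc n) (h : EnumC R) : EnumC (fun a => Matrix (m a) (n a) (R a)) :=
  EnumC.pi (β := fun a _ => n a → R a) hm hm'
    (EnumC.pi (β := fun (p : Σ a, m a) _ => R p.1) (hn.comp p1) (hn'.comp p1)
      (h.comp (p1.comp p1)))
end matrix

instance {n : ℕ} {T : Type} [Rep T] [Tot T] : Tot (Fin n → T) :=
  ⟨fun _ => coded_fun_fin.2 fun _ => Tot.tot _⟩
instance {m n : ℕ} {T : Type} [Rep T] [Tot T] : Tot (Matrix (Fin m) (Fin n) T) :=
  ⟨fun _ => coded_matrix_fin.2 fun _ _ => Tot.tot _⟩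
instance {M : Type} [Monoid M] [Rep M] [Tot M] : Tot Mˣ :=
  ⟨fun _ => coded_units.2 ⟨Tot.tot _, Tot.tot _⟩⟩

section units
variable {M : A → Type} [∀ a, Rep (M a)] [∀ a, Monoid (M a)]
@[aesop safe 4 apply (transparency := reducible) (rule_sets := [Restrict])]
theorem CS.unitsVal {u : ∀ a, (M a)ˣ} (h : CS u) : CS (fun a => (u a).val) :=
  CS.fst (units.1 h)
@[aesop safe 50 apply (transparency := reducible) (rule_sets := [Restrict])]
theorem CS.unitsInv {u : ∀ a, (M a)ˣ} (h : CS u) : CS (fun a => (u a).inv) :=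
  CS.snd (units.1 h)
@[aesop safe 50 apply (transparency := reducible) (rule_sets := [Restrict])]
theorem CS.unitsMk {f g : ∀ a, M a} {h : ∀ a, f a * g a = 1}
    {h' : ∀ a, g a * f a = 1} (hf : CS f) (hg : CS g) :
    CS (fun a => (⟨f a, g a, h a, h' a⟩ : (M a)ˣ)) :=
  units.2 (CS.pair hf hg)
theorem CS.unitsIntro {u : ∀ a, (M a)ˣ} (h : CS (fun a => (u a).val))
    (h' : CS (fun a => ((u a)⁻¹).val)) : CS u :=
  units.2 (CS.pair h h')
@[aesop safe 50 apply (transparency := reducible) (rule_sets := [Restrict])]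
theorem OneF.units (h : OneF M) : OneF (fun a => (M a)ˣ) :=
  CS.unitsIntro h h
@[aesop safe 50 apply (transparency := reducible) (rule_sets := [Restrict])]
theorem MulF.units (h : MulF M) : MulF (fun a => (M a)ˣ) :=
  CS.unitsIntro (CS.mul (h.comp p1) (CS.unitsVal (CS.fst p2)) (CS.unitsVal (CS.snd p2)))
    (CS.mul (h.comp p1) (CS.unitsInv (CS.snd p2)) (CS.unitsInv (CS.fst p2)))
@[aesop safe 50 apply (transparency := reducible) (rule_sets := [Restrict])]
theorem InvF.units : InvF (fun a => (M a)ˣ) :=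
  CS.unitsIntro (CS.unitsInv p2) (CS.unitsVal p2)
@[aesop safe 50 apply (transparency := reducible) (rule_sets := [Restrict])]
theorem Disc.units (h : Disc M) : Disc (fun a => (M a)ˣ) :=
  (CS.eq (h.comp p1) (CS.unitsVal (CS.fst p2)) (CS.unitsVal (CS.snd p2))).of_iff fun _ _ =>
    Units.val_inj
@[aesop safe 50 apply (transparency := reducible) (rule_sets := [Restrict])]
theorem Haus.units (h : Haus M) : Haus (fun a => (M a)ˣ) :=
  (CS.ne (h.comp p1) (CS.unitsVal (CS.fst p2)) (CS.unitsVal (CS.snd p2))).of_iff fun _ _ =>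
    Units.val_inj.ne
@[aesop safe 50 apply (transparency := reducible) (rule_sets := [Restrict])]
theorem Enum.units (h : Enum M) (hd : Disc M) (hm : MulF M) (h1 : OneF M) :
    Enum (fun a => (M a)ˣ) :=
  enum_of (enumC_image (U := fun a => {p : M a × M a // p.1 * p.2 = 1 ∧ p.2 * p.1 = 1})
    (EnumC.subtype (Enum.prod h h).toC (CS.and
      (CS.eq (hd.comp p1) (CS.mul (hm.comp p1) (CS.fst p2) (CS.snd p2)) (CS.one (h1.comp p1)))
      (CS.eq (hd.comp p1) (CS.mul (hm.comp p1) (CS.snd p2) (CS.fst p2)) (CS.one (h1.comp p1)))))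
    (f := fun _ p => ⟨p.1.1, p.1.2, p.2.1, p.2.2⟩)
    (CS.unitsMk (CS.fst (CS.val p2)) (CS.snd (CS.val p2)))
    fun _ u _ hu => ⟨⟨(u.val, u.inv), u.val_inv, u.inv_val⟩, hu, rfl⟩)
    fun _ ha _ => coded_units.2 ⟨h.coded ha _, h.coded ha _⟩
end units

section linear
variable {R V W X : A → Type} [∀ a, CommSemiring (R a)] [∀ a, AddCommMonoid (V a)]
  [∀ a, AddCommMonoid (W a)] [∀ a, AddCommMonoid (X a)] [∀ a, Module (R a) (V a)]
  [∀ a, Module (R a) (W a)] [∀ a, Module (R a) (X a)]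
  [∀ a, Rep (V a)] [∀ a, Rep (W a)] [∀ a, Rep (X a)]
@[aesop safe 58 apply (transparency := reducible) (rule_sets := [Restrict])]
theorem CS.linApp {φ : ∀ a, V a →ₗ[R a] W a} {v : ∀ a, V a} (h : CS φ) (hv : CS v) :
    CS (fun a => φ a (v a)) :=
  CS.app (f := fun a => (φ a : V a → W a)) h hv
@[aesop safe 58 apply (transparency := reducible) (rule_sets := [Restrict])]
theorem CS.linCoe {φ : ∀ a, V a →ₗ[R a] W a} (h : CS φ) : CS (fun a => (φ a : V a → W a)) :=
  h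
theorem CS.linIntro {φ : ∀ a, V a →ₗ[R a] W a} (h : CS (fun p : Σ a, V a => φ p.1 p.2)) :
    CS φ :=
  CS.lam (f := fun a => (φ a : V a → W a)) h
@[aesop safe 50 apply (transparency := reducible) (rule_sets := [Restrict])]
theorem CS.linComp {φ : ∀ a, W a →ₗ[R a] X a} {ψ : ∀ a, V a →ₗ[R a] W a}
    (h : CS φ) (h' : CS ψ) : CS (fun a => φ a ∘ₗ ψ a) :=
  have k := CS.linApp (h.comp p1) (CS.linApp (h'.comp p1) p2)
  CS.linIntro k
@[aesop safe 50 apply (transparency := reducible) (rule_sets := [Restrict])]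
theorem CS.linId : CS (fun a => (LinearMap.id : V a →ₗ[R a] V a)) :=
  CS.linIntro p2
@[aesop safe 50 apply (transparency := reducible) (rule_sets := [Restrict])]
theorem CS.linFlip {φ : ∀ a, V a →ₗ[R a] W a →ₗ[R a] X a} (h : CS φ) :
    CS (fun a => (φ a).flip) :=
  have k : CS (fun q : Σ p : (Σ a, W a), V p.1 => φ q.1.1 q.2 q.1.2) :=
    CS.linApp (CS.linApp (h.comp (p1.comp p1)) p2) (p2.comp p1)
  CS.linIntro (CS.linIntro k)
@[aesop safe 50 apply (transparency := reducible) (rule_sets := [Restrict])]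
theorem AddF.linearMap (h : AddF W) : AddF (fun a => V a →ₗ[R a] W a) :=
  CS.linIntro (CS.add (h.comp (p1.comp p1)) (CS.linApp (CS.fst (p2.comp p1)) p2)
    (CS.linApp (CS.snd (p2.comp p1)) p2))
@[aesop safe 50 apply (transparency := reducible) (rule_sets := [Restrict])]
theorem ZeroF.linearMap (h : ZeroF W) : ZeroF (fun a => V a →ₗ[R a] W a) :=
  CS.linIntro (CS.zero (h.comp p1))
end linear

@[aesop safe 50 apply (transparency := reducible) (rule_sets := [Restrict])]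
theorem CS.mulVecLin {m n R : A → Type} [∀ a, Rep (m a)] [∀ a, Rep (n a)]
    [∀ a, Rep (R a)] [∀ a, Fintype (n a)] [∀ a, CommSemiring (R a)]
    {M : ∀ a, Matrix (m a) (n a) (R a)} (hm : CFin n) (ha : AddF R) (h0 : ZeroF R) (h1 : MulF R)
    (h : CS M) : CS (fun a => (M a).mulVecLin) :=
  CS.linIntro (CS.mulVec (hm.comp p1) (ha.comp p1) (h0.comp p1) (h1.comp p1) (h.comp p1) p2)

@[aesop safe 55 apply (transparency := reducible) (rule_sets := [Restrict])]
theorem CoordF.pi {ι : A → Type} [∀ a, Rep (ι a)] (h : CFin ι) (hd : Disc ι) :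
    CoordF (fun a => ι a → ℚ) := by
  refine MV.bind (CFin.equivFin h hd) ?_
  have k := s2 ((p2 (T := fun a => Σ n : ℕ, (ι a → Fin n) × (Fin n → ι a))).comp
    (v1 (p := fun q => Function.LeftInverse q.2.2.2 q.2.2.1 ∧
      Function.RightInverse q.2.2.2 q.2.2.1)))
  have k' := CS.sfst ((p2 (T := fun a => Σ n : ℕ, (ι a → Fin n) × (Fin n → ι a))).comp
    (v1 (p := fun q => Function.LeftInverse q.2.2.2 q.2.2.1 ∧
      Function.RightInverse q.2.2.2 q.2.2.1)))
  refine MV.of_cs (f := fun q => ⟨q.1.2.1, (LinearMap.funLeft ℚ ℚ q.1.2.2.2,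
    LinearMap.funLeft ℚ ℚ q.1.2.2.1)⟩) (CS.sigmaIntro k' (CS.pair ?_ ?_))
    fun q _ => ⟨?_, ?_⟩
  · have k2 := CS.fcomp p2 (CS.snd (k.comp (p1 (T := fun q => ι q.1.1 → ℚ))))
    exact CS.linIntro k2
  · have k2 := CS.fcomp p2 (CS.fst (k.comp (p1 (T := fun q => Fin q.1.2.1 → ℚ))))
    exact CS.linIntro k2
  · exact LinearMap.ext fun v => funext fun i => congrArg v (q.2.1 i)
  · exact LinearMap.ext fun v => funext fun i => congrArg v (q.2.2 i)
@[aesop safe 50 apply (transparency := reducible) (rule_sets := [Restrict])]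
theorem CoordF.matrix {m n : A → Type} [∀ a, Rep (m a)] [∀ a, Rep (n a)]
    (hm : CFin m) (hm' : Disc m) (hn : CFin n) (hn' : Disc n) :
    CoordF (fun a => Matrix (m a) (n a) ℚ) := by
  refine MV.bind (CoordF.pi (CFin.prod hm hn) (Disc.prod hm' hn')) ?_
  refine MV.of_cs (f := fun q : Ext fun a => m a × n a → ℚ => ⟨q.1.2.1,
    (q.1.2.2.1 ∘ₗ ⟨⟨fun M p => M p.1 p.2, fun _ _ => rfl⟩, fun _ _ => rfl⟩,
      ⟨⟨fun f i j => f (i, j), fun _ _ => rfl⟩, fun _ _ => rfl⟩ ∘ₗ q.1.2.2.2)⟩)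
    (CS.sigmaIntro e_n (CS.pair (CS.linComp e_f (CS.linIntro ?_)) (CS.linComp (CS.linIntro ?_) e_g)))
    fun q _ => ⟨?_, ?_⟩
  · exact CS.lam (ap2 (p2 (T := fun q : Ext fun a => m a × n a → ℚ => m q.1.1 → n q.1.1 → ℚ)))
  · exact lam2 (ap (p2 (T := fun q : Ext fun a => m a × n a → ℚ => m q.1.1 × n q.1.1 → ℚ)))
  · exact LinearMap.ext fun M => funext fun i => funext fun j =>
      congrFun (e_gf q fun p => M p.1 p.2) (i, j)
  · exact LinearMap.ext fun v => e_fg q v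

section coord
variable {V : A → Type} [∀ a, Rep (V a)] [∀ a, AddCommGroup (V a)] [∀ a, Module ℚ (V a)]
theorem CoordF.enum (h : CoordF V) : Enum V := by
  have k : ∀ b : Ext V, Coded b → ∀ v : V b.1.1, Coded v := fun b hb v => by
    rw [← e_gf b v]
    exact Coded.app (f := (b.1.2.2.2 : (Fin b.1.2.1 → ℚ) → V b.1.1)) (e_g.coded hb) (Tot.tot _)
  refine enum_of (enumC_elim h (enumC_image (U := fun b : Ext V => Fin b.1.2.1 → ℚ)
    (Enum.pi (β := fun _ _ => ℚ) (CFin.fin e_n) Disc.fin Enum.rat).toC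
    (f := fun b v => b.1.2.2.2 v) (CS.linApp (e_g.comp p1) p2)
    fun b v _ _ => ⟨b.1.2.2.1 v, Tot.tot _, e_gf b v⟩)) fun a ha v => ?_
  obtain ⟨q, hq, e⟩ := MV.exists h ha
  exact k ⟨⟨a, q⟩, e⟩ (coded_subtype.2 (coded_sigma.2 ⟨ha, hq⟩)) v
theorem CoordF.disc (h : CoordF V) : Disc V :=
  coord_elim h p1 fun _ _ _ _ _ _ hg hn hφ _ e =>
    (CS.eq (Disc.pi (β := fun _ _ => ℚ) (CFin.fin hn) Disc.rat)
      (CS.linApp hφ (CS.fst (p2.comp hg))) (CS.linApp hφ (CS.snd (p2.comp hg)))).of_iff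
      fun b _ => (Function.LeftInverse.injective (e b)).eq_iff
theorem CoordF.haus (h : CoordF V) : Haus V :=
  coord_elim h p1 fun _ _ _ _ _ _ hg hn hφ _ e =>
    (CS.ne (Haus.pi (β := fun _ _ => ℚ) (CFin.fin hn) Haus.rat)
      (CS.linApp hφ (CS.fst (p2.comp hg))) (CS.linApp hφ (CS.snd (p2.comp hg)))).of_iff
      fun b _ => (Function.LeftInverse.injective (e b)).ne_iff
theorem CoordF.add (h : CoordF V) : AddF V :=
  coord_elim h p1 fun _ _ _ _ _ _ hg _ hφ hψ e =>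
    (CS.linApp hψ (CS.add (AddF.pi AddF.rat) (CS.linApp hφ (CS.fst (p2.comp hg)))
      (CS.linApp hφ (CS.snd (p2.comp hg))))).congr fun b _ => by rw [← map_add, e]
theorem CoordF.zero (h : CoordF V) : ZeroF V :=
  coord_elim h CS.id fun _ _ _ _ _ _ _ _ _ hψ _ =>
    (CS.linApp hψ (CS.zero (ZeroF.pi ZeroF.rat))).congr fun _ _ => map_zero _
theorem CoordF.neg (h : CoordF V) : NegF V :=
  coord_elim h p1 fun _ _ _ _ _ _ hg _ hφ hψ e =>
    (CS.linApp hψ (CS.neg (NegF.pi NegF.rat) (CS.linApp hφ (p2.comp hg)))).congr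
      fun b _ => by rw [← map_neg, e]
theorem CoordF.smul (h : CoordF V) : SMulF (fun _ => ℚ) V :=
  coord_elim h p1 fun _ _ _ _ _ _ hg _ hφ hψ e =>
    (CS.linApp hψ (CS.smul (SMulF.pi (SMulF.self MulF.rat)) (CS.fst (p2.comp hg))
      (CS.linApp hφ (CS.snd (p2.comp hg))))).congr fun b _ => by rw [← map_smul, e]
namespace FMatAux
variable {W : A → Type} [∀ a, Rep (W a)] [∀ a, AddCommGroup (W a)] [∀ a, Module ℚ (W a)]

/-- The linear map with given values on the basis. -/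
def lin (b : Ext V) (w : Fin b.1.2.1 → W b.1.1) : V b.1.1 →ₗ[ℚ] W b.1.1 :=
  Fintype.linearCombination ℚ w ∘ₗ b.1.2.2.1

theorem cs_lin (ha : AddF W) (h0 : ZeroF W) (hs : SMulF (fun _ => ℚ) W) :
    CS (fun p : Σ b : Ext V, Fin b.1.2.1 → W b.1.1 => lin p.1 p.2) :=
  have k := ap ((p2 (T := fun b : Ext V => Fin b.1.2.1 → W b.1.1)).comp
    (p1 (T := fun p => Fin p.1.1.2.1 → ℚ)))
  CS.linComp (CS.linIntro (CS.sum
    (s := fun (q : Σ p : (Σ b : Ext V, Fin b.1.2.1 → W b.1.1), Fin p.1.1.2.1 → ℚ) i =>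
      q.2 i • q.1.2 i) (CFin.fin (e_n.comp (p1.comp p1))) (ha.comp (e_a.comp (p1.comp p1)))
    (h0.comp (e_a.comp (p1.comp p1))) (CS.smul (hs.comp (e_a.comp (p1.comp (p1.comp p1))))
      (CS.app (p2.comp p1) p2) k))) (e_f.comp p1)

omit [Rep A] [∀ a, Rep (V a)] [∀ a, Rep (W a)] in
theorem lin_eq (b : Ext V) (φ : V b.1.1 →ₗ[ℚ] W b.1.1) :
    lin b (fun i => φ (b.1.2.2.2 (Pi.single i 1))) = φ := by
  have : Fintype.linearCombination ℚ (fun i => φ (b.1.2.2.2 (Pi.single i 1))) = φ ∘ₗ b.1.2.2.2 :=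
    LinearMap.pi_ext' fun i => LinearMap.ext_ring (by simp)
  rw [lin, this, LinearMap.comp_assoc, b.2.1, LinearMap.comp_id]

end FMatAux

/-- Linear maps out of a coordinatised space are enumerated by their values on the basis. -/
@[aesop safe 50 apply (transparency := reducible) (rule_sets := [Restrict])]
theorem EnumC.linearMap {W : A → Type} [∀ a, Rep (W a)]
    [∀ a, AddCommGroup (W a)] [∀ a, Module ℚ (W a)] (h : CoordF V) (hW : EnumC W) (ha : AddF W)
    (h0 : ZeroF W) (hs : SMulF (fun _ => ℚ) W) : EnumC (fun a => V a →ₗ[ℚ] W a) :=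
  enumC_elim h (enumC_image (U := fun b : Ext V => Fin b.1.2.1 → W b.1.1)
    (EnumC.pi (β := fun (b : Ext V) _ => W b.1.1) (CFin.fin e_n) Disc.fin
      (hW.comp (e_a.comp p1))) (f := fun b w => lin b w) (cs_lin ha h0 hs)
    fun b φ hb hφ => ⟨_, coded_fun_fin.2 fun _ => Coded.app (f := (φ : V b.1.1 → W b.1.1)) hφ
      ((h.enum.comp e_a).coded hb _), lin_eq b φ⟩)
theorem CoordF.coded_linearMap {W : A → Type} [∀ a, Rep (W a)]
    [∀ a, AddCommGroup (W a)] [∀ a, Module ℚ (W a)] (h : CoordF V) (ha : AddF W)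
    (h0 : ZeroF W) (hs : SMulF (fun _ => ℚ) W) {a : A} (hc : Coded a) (φ : V a →ₗ[ℚ] W a)
    (hφ : ∀ v, Coded (φ v)) : Coded φ := by
  obtain ⟨q, hq, e⟩ := MV.exists h hc
  rw [← lin_eq (W := W) ⟨⟨a, q⟩, e⟩ φ]
  exact (cs_lin ha h0 hs).coded (a := ⟨⟨⟨a, q⟩, e⟩, _⟩) (coded_sigma.2
    ⟨coded_subtype.2 (coded_sigma.2 ⟨hc, hq⟩), coded_fun_fin.2 fun _ => hφ _⟩)
end coord

end Pool.Agent.P.MP_257122_al
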