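import Pool.Agent.P.MP_257122_al.BSvd
import Pool.Agent.P.MP_257122_al.FMat

/-!
# The geodesic between two frames

PLAN.  `svd` for `g₁ g₀' = k₁ d k₀`; `x t = d ^ t k₀ g₀`, `x' t = g₀' k₀ᵀ d ^ (-t)`.  Orthogonal
matrices act in the same way on a type and its dual (`star_rho_unitary`), preserve dot products
and multiply bounds by at most `n ^ D`.  Bounds: an entry at time `t` is `λ ^ t` times the entry at
time `0`, and `λ ^ t ≤ max 1 λ`.  `ThEq` at time `t`: by `theta_geo` (with `U`, `U'` the spans of the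
two families at time `0`; once for the type, once for its dual) each array of one family lies in
the span of the other family; the coefficients are the dot products because of `DualPk` and
`dot_rho` (`thEq_of_span`).
-/

namespace Pool.Agent.P.MP_257122_al

open Matrix

theorem thEq_of_span {n : ℕ} {g g' : Mat n ℝ} {q : OPk n} (h : g * g' = 1) (hd : DualPk q)
    (h1 : ∀ j, fr1 g g' q j ∈ Submodule.span ℝ (Set.range (fr2 g g' q)))
    (h2 : ∀ j, fr2 g g' q j ∈ Submodule.span ℝ (Set.range (fr1 g g' q))) : ThEq g g' q := by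
  have k : ∀ i j, fr2 g g' q i ⬝ᵥ fr1 g g' q j = if i = j then 1 else 0 := fun i j => by
    rw [fr1, fr2, dot_rho _ (mul_eq_one_comm.1 h), castV_dot, hd i j]
    split_ifs <;> simp
  refine ⟨fun j => ?_, fun j => ?_⟩
  · obtain ⟨c, hc⟩ := (Submodule.mem_span_range_iff_exists_fun ℝ).1 (h1 j)
    refine hc.symm.trans (Finset.sum_congr rfl fun l _ => ?_)
    rw [← hc, sum_dotProduct]
    simp [k]
  · obtain ⟨c, hc⟩ := (Submodule.mem_span_range_iff_exists_fun ℝ).1 (h2 j)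
    refine hc.symm.trans (Finset.sum_congr rfl fun l _ => ?_)
    rw [← hc, sum_dotProduct]
    simp [dotProduct_comm (fr1 g g' q _), k]

namespace BGeoAux

theorem span1 {n : ℕ} {g g' : Mat n ℝ} {q : OPk n} (h : ThEq g g' q) (j : Fin q.2.1) :
    fr1 g g' q j ∈ Submodule.span ℝ (Set.range (fr2 g g' q)) :=
  (Submodule.mem_span_range_iff_exists_fun ℝ).2 ⟨_, (h.1 j).symm⟩

theorem span2 {n : ℕ} {g g' : Mat n ℝ} {q : OPk n} (h : ThEq g g' q) (j : Fin q.2.1) :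
    fr2 g g' q j ∈ Submodule.span ℝ (Set.range (fr1 g g' q)) :=
  (Submodule.mem_span_range_iff_exists_fun ℝ).2 ⟨_, (h.2 j).symm⟩

theorem fr1_mul {n : ℕ} (k k' g g' : Mat n ℝ) (q : OPk n) :
    fr1 (k * g) (g' * k') q = fun j => rho q.1.get k k' *ᵥ fr1 g g' q j :=
  funext fun _ => (rho_mulVec _ _ _ _ _ _).symm

theorem fr2_mul {n : ℕ} (k k' g g' : Mat n ℝ) (q : OPk n) :
    fr2 (k * g) (g' * k') q = fun j => rho (du q.1.get) k k' *ᵥ fr2 g g' q j :=
  funext fun _ => (rho_mulVec _ _ _ _ _ _).symm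

theorem span_mul {J r : Type} [Fintype J] (K : Matrix J J ℝ) (f : r → J → ℝ) :
    Submodule.span ℝ (Set.range fun l => K *ᵥ f l) =
      (Submodule.span ℝ (Set.range f)).map K.mulVecLin := by
  rw [Submodule.map_span, ← Set.range_comp]
  rfl

theorem bd_orth {n D s : ℕ} (σ : Fin D → Bool) {k : Mat n ℝ} (hk : kᵀ * k = 1) (hn : n ≤ s)
    (hD : D ≤ s) {v : (Fin D → Fin n) → ℝ} (hv : ∀ I, |v I| ≤ s) (I : Fin D → Fin n) :
    |(rho σ k kᵀ *ᵥ v) I| ≤ ((s + 1) ^ s * s : ℕ) := by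
  have h1 : ∀ i j, |k i j| ≤ 1 := fun i j => entry_norm_bound_of_unitary (𝕜 := ℝ)
    (mem_unitaryGroup_iff'.2 (by
      rw [star_eq_conjTranspose, conjTranspose_eq_transpose_of_trivial, hk])) i j
  have h2 : ∀ J, |rho σ k kᵀ I J * v J| ≤ s := fun J => by
    rw [abs_mul]
    refine (mul_le_of_le_one_left (abs_nonneg _) ?_).trans (hv J)
    rw [rho, of_apply, Finset.abs_prod]
    refine Finset.prod_le_one (fun _ _ => abs_nonneg _) fun i _ => ?_
    split_ifs <;> exact h1 _ _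
  refine (Finset.abs_sum_le_sum_abs _ _).trans ((Finset.sum_le_card_nsmul _ _ _
    fun J _ => h2 J).trans ?_)
  rw [Finset.card_univ, Fintype.card_fun, Fintype.card_fin, Fintype.card_fin, nsmul_eq_mul,
    ← Nat.cast_mul, Nat.cast_le]
  exact Nat.mul_le_mul_right _ ((Nat.pow_le_pow_left (by omega) _).trans
    (Nat.pow_le_pow_right (Nat.succ_pos s) hD))

theorem fpk_orth {n s : ℕ} {k g g' : Mat n ℝ} {q : OPk n} (hk : kᵀ * k = 1) (h : g * g' = 1)
    (hn : n ≤ s) (hD : q.1.length ≤ s) (hd : DualPk q) (hq : FPk s g g' q) :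
    FPk ((s + 1) ^ s * s) (k * g) (g' * kᵀ) q := by
  have e : rho (du q.1.get) k kᵀ = rho q.1.get k kᵀ := by rw [rho_du, transpose_transpose]
  refine ⟨thEq_of_span ?_ hd (fun j => ?_) fun j => ?_, fun j I => ?_⟩
  · rw [mul_assoc, ← mul_assoc g, h, one_mul, mul_eq_one_comm.1 hk]
  · rw [fr1_mul, fr2_mul, e, span_mul]
    exact Submodule.mem_map_of_mem (span1 hq.1 j)
  · rw [fr1_mul, fr2_mul, e, span_mul]
    exact Submodule.mem_map_of_mem (span2 hq.1 j)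
  · rw [fr1_mul, fr2_mul]
    exact ⟨bd_orth _ hk hn hD (fun I => (hq.2 j I).1) I, bd_orth _ hk hn hD (fun I => (hq.2 j I).2) I⟩

variable {κ ι r : Type} [Fintype κ] [DecidableEq κ] [Fintype ι] [DecidableEq ι] {d : ι → ℝ}

/-- The action of a power of a diagonal matrix. -/
noncomputable abbrev rd (s : κ → Bool) (d : ι → ℝ) (t : ℝ) : Matrix (κ → ι) (κ → ι) ℝ :=
  rho s (diagonal fun i => d i ^ t) (diagonal fun i => (d i ^ t)⁻¹)

theorem bd_geo (s : κ → Bool) (hd : ∀ i, 0 < d i) {t C : ℝ} (ht : t ∈ Set.Icc (0 : ℝ) 1)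
    {v : (κ → ι) → ℝ} {I : κ → ι} (h0 : |v I| ≤ C) (h1 : |(rd s d 1 *ᵥ v) I| ≤ C) :
    |(rd s d t *ᵥ v) I| ≤ C := by
  have p : ∀ i, 0 < if s i = true then d (I i) else (d (I i))⁻¹ := fun i => by
    split_ifs
    exacts [hd _, inv_pos.2 (hd _)]
  have p' := Finset.prod_pos (s := Finset.univ) fun i _ => p i
  have e : ∀ u, |(rd s d u *ᵥ v) I| =
      (∏ i, if s i = true then d (I i) else (d (I i))⁻¹) ^ u * |v I| := fun u => by
    rw [rd, rho_diagonal, mulVec_diagonal, abs_mul, ← abs_of_pos (Real.rpow_pos_of_pos p' u),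
      ← Real.finsetProd_rpow _ _ fun i _ => (p i).le]
    refine congrArg (fun z => |z| * _) (Finset.prod_congr rfl fun i _ => ?_)
    split_ifs
    exacts [rfl, (Real.inv_rpow (hd _).le u).symm]
  rw [e] at h1 ⊢
  rcases le_total (∏ i, if s i = true then d (I i) else (d (I i))⁻¹) 1 with h | h
  · exact (mul_le_of_le_one_left (abs_nonneg _) (Real.rpow_le_one p'.le h ht.1)).trans h0
  · exact (mul_le_mul_of_nonneg_right (Real.rpow_le_rpow_of_exponent_le h ht.2)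
      (abs_nonneg _)).trans h1

theorem span_geo (s : κ → Bool) (hd : ∀ i, 0 < d i) {f f' : r → (κ → ι) → ℝ}
    (h0 : ∀ j, f j ∈ Submodule.span ℝ (Set.range f'))
    (h0' : ∀ j, f' j ∈ Submodule.span ℝ (Set.range f))
    (h1 : ∀ j, rd s d 1 *ᵥ f j ∈ Submodule.span ℝ (Set.range fun l => rd (du s) d 1 *ᵥ f' l))
    (t : ℝ) (j : r) :
    rd s d t *ᵥ f j ∈ Submodule.span ℝ (Set.range fun l => rd (du s) d t *ᵥ f' l) := by
  have a1 : Submodule.span ℝ (Set.range f) ≤ ((Submodule.span ℝ (Set.range f')).map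
      (rd (du s) d 1).mulVecLin).comap (rd s d 1).mulVecLin :=
    Submodule.span_le.2 (Set.range_subset_iff.2 fun j => span_mul _ f' ▸ h1 j)
  obtain ⟨w, w1, w2⟩ := theta_geo (𝕜 := ℝ) s _ _ d hd
    (fun w hw => Submodule.span_le.2 (Set.range_subset_iff.2 h0) hw)
    (fun w hw => Submodule.span_le.2 (Set.range_subset_iff.2 h0') hw)
    (fun w hw => by
      obtain ⟨w', k1, k2⟩ := a1 hw
      exact ⟨w', k1, by simpa [rd] using k2.symm⟩) t (f j)
    (Submodule.subset_span (Set.mem_range_self j))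
  rw [span_mul]
  exact ⟨w, w1, w2.symm⟩

end BGeoAux

open BGeoAux

theorem geo_path : ∃ C : ℕ → ℕ, CS C ∧ ∀ (s n : ℕ) (ys : List (OPk n)) (g₀ g₀' g₁ g₁' : Mat n ℝ),
    n ≤ s → g₀ * g₀' = 1 → g₁ * g₁' = 1 →
    (∀ q ∈ ys, q.1.length ≤ s ∧ DualPk q ∧ FPk s g₀ g₀' q ∧ FPk s g₁ g₁' q) →
      ∃ x x' : ℝ → Mat n ℝ, Continuous x ∧ (x 0)ᵀ * x 0 = g₀ᵀ * g₀ ∧ (x 1)ᵀ * x 1 = g₁ᵀ * g₁ ∧
        ∀ t ∈ Set.Icc (0 : ℝ) 1, x t * x' t = 1 ∧ ∀ q ∈ ys, FPk (C s) (x t) (x' t) q := by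
  refine ⟨fun s => (s + 1) ^ s * s,
    CS.mul MulF.nat (CS.pow MulF.nat OneF.nat (CS.succ CS.id) CS.id) CS.id, ?_⟩
  intro s n ys g₀ g₀' g₁ g₁' hn h0 h1 hq
  have h0' := mul_eq_one_comm.1 h0
  obtain ⟨k₀, k₁, d, e0, e1, hd, e⟩ := svd (𝕜 := ℝ) (y := g₁ * g₀') (y' := g₀ * g₁')
    (by rw [mul_assoc, ← mul_assoc g₀', h0', one_mul, h1])
  rw [conjTranspose_eq_transpose_of_trivial] at e0 e1
  have e1' := mul_eq_one_comm.1 e1
  have a0 : k₀ * g₀ * (g₀' * k₀ᵀ) = 1 := by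
    rw [mul_assoc, ← mul_assoc g₀, h0, one_mul, mul_eq_one_comm.1 e0]
  have a1 : ∀ t : ℝ, (diagonal fun i => d i ^ t) * (k₀ * g₀) *
      (g₀' * k₀ᵀ * diagonal fun i => (d i ^ t)⁻¹) = 1 := fun t => by
    rw [mul_assoc, ← mul_assoc (k₀ * g₀), a0, one_mul, diagonal_mul_diagonal, ← diagonal_one]
    exact congrArg _ (funext fun i => mul_inv_cancel₀ (Real.rpow_pos_of_pos (hd i) t).ne')
  have a2 : (diagonal fun i => d i ^ (1 : ℝ)) * (k₀ * g₀) = k₁ᵀ * g₁ := by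
    have : g₁ = g₁ * g₀' * g₀ := by rw [mul_assoc, h0', mul_one]
    rw [this, e, ← mul_assoc k₁ᵀ, ← mul_assoc k₁ᵀ, ← mul_assoc k₁ᵀ, e1, one_mul, mul_assoc]
    simp
  have a3 : (g₀' * k₀ᵀ * diagonal fun i => (d i ^ (1 : ℝ))⁻¹) = g₁' * k₁ᵀᵀ := by
    refine (left_inv_eq_right_inv ?_ (a2 ▸ a1 1)).symm
    rw [transpose_transpose, mul_assoc, ← mul_assoc k₁, e1', one_mul, mul_eq_one_comm.1 h1]
  refine ⟨fun t => (diagonal fun i => d i ^ t) * (k₀ * g₀),
    fun t => g₀' * k₀ᵀ * diagonal fun i => (d i ^ t)⁻¹, ?_, ?_, ?_, fun t ht => ⟨a1 t, fun q hq' => ?_⟩⟩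
  · exact (Continuous.matrix_diagonal (continuous_pi fun i =>
      continuous_const.rpow continuous_id fun _ => Or.inl (hd i).ne')).matrix_mul continuous_const
  · simp only [Real.rpow_zero, diagonal_one, one_mul, transpose_mul]
    rw [mul_assoc, ← mul_assoc k₀ᵀ, e0, one_mul]
  · simp only [a2, transpose_mul, transpose_transpose]
    rw [mul_assoc, ← mul_assoc k₁, e1', one_mul]
  obtain ⟨b1, b2, b3, b4⟩ := hq q hq'
  have c0 := fpk_orth e0 h0 hn b1 b2 b3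
  have c1 := fpk_orth (k := k₁ᵀ) e1' h1 hn b1 b2 b4
  rw [← a2, ← a3] at c1
  have s1 := span1 c1.1
  have s2 := span2 c1.1
  have s3 := c1.2
  rw [fr1_mul, fr2_mul] at s1 s2 s3
  refine ⟨thEq_of_span (a1 t) b2 (fun j => ?_) fun j => ?_, fun j I => ?_⟩ <;>
    rw [fr1_mul, fr2_mul]
  · exact span_geo _ hd (span1 c0.1) (span2 c0.1) s1 t j
  · have := span_geo (du q.1.get) hd (span2 c0.1) (span1 c0.1) (by rwa [du_du]) t j
    rwa [du_du] at this
  · exact ⟨bd_geo _ hd ht (c0.2 j I).1 (s3 j I).1, bd_geo _ hd ht (c0.2 j I).2 (s3 j I).2⟩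

end Pool.Agent.P.MP_257122_al
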