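import Pool.Agent.P.MP_257122_al.LDefs

/-!
# Approximation of solutions by algebraic solutions

PLAN.  Let `K` be the field of algebraic elements of `F` and `L = K(s)`.  Take a transcendence
basis `t` of `L` over `K` (finite, for instance inside `s`) and a primitive element `β` of `L`
over `K(t)` with minimal polynomial `P(t, Y)` (denominators cleared); every `x ∈ s` is
`g_x(t, β) / h(t)`.  Let `A = K[t][β][1/(h c)]` or just the `K`-algebra generated by `s` inside
it, `c` the leading coefficient of `P`.  For rational `t'` near `t` the polynomial `P(t', Y)` has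
a root `β'` near `β` (simple root, Newton contraction; one may copy the argument of `LRoot`
for coefficients in `F`, or use the implicit function theorem
`HasStrictFDerivAt.implicitFunction` over the complete field `F`), `β'` is algebraic, and
`t ↦ t'`, `β ↦ β'` is a well defined ring map because a polynomial vanishing at `(t, β)` is
divisible by `P` after multiplication by a power of `c` (pseudo-division).  An induction on the
number of generators, adjoining one element at a time to a subring with its family of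
specialisations, is an alternative.
-/

namespace Pool.Agent.P.MP_257122_al

namespace LApproxAux

open Polynomial Filter Topology

variable {F : Type} [NontriviallyNormedField F]

/-- simple roots survive small perturbations of the coefficients -/
theorem near_root [CompleteSpace F] {d : ℕ} {c : Fin d → F} {x D : F} (hD : D ≠ 0)
    (h0 : ∑ i, c i * x ^ i.1 = 0) (h1 : HasDerivAt (fun y => ∑ i, c i * y ^ i.1) D x)
    {W : Set F} (hW : W ∈ 𝓝 x) : ∀ᶠ b in 𝓝 c, ∃ y ∈ W, ∑ i : Fin d, b i * y ^ i.1 = 0 := by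
  let G : (Fin d → F) × F → F := fun p => ∑ i, p.1 i * p.2 ^ i.1
  have hG : HasStrictFDerivAt G (fderiv F G (c, x)) (c, x) :=
    (Finset.analyticAt_fun_sum _ fun i _ => (((ContinuousLinearMap.proj i).comp
      (ContinuousLinearMap.fst F (Fin d → F) F)).analyticAt _).fun_mul
        (analyticAt_snd.fun_pow _)).hasStrictFDerivAt
  generalize fderiv F G (c, x) = L at hG
  have e : L (0, 1) = D := by
    have := (hG.hasFDerivAt.comp x (hasFDerivAt_prodMk_right c x)).hasDerivAt
    exact this.unique h1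
  have hH := (hasStrictFDerivAt_fst.prodMk hG).map_nhds_eq_of_surj (by
    refine LinearMap.range_eq_top.2 fun ⟨a, b⟩ => ⟨(a, 0) + ((b - L (a, 0)) / D) • (0, 1), ?_⟩
    refine Prod.ext (by simp) ?_
    show L _ = b
    rw [map_add, map_smul, e, smul_eq_mul, div_mul_cancel₀ _ hD, add_sub_cancel])
  have h2 : (fun p : (Fin d → F) × F => (p.1, G p)) '' (Set.univ ×ˢ W) ∈ 𝓝 (c, G (c, x)) := by
    rw [← hH]
    exact image_mem_map (prod_mem_nhds univ_mem hW)
  rw [show G (c, x) = 0 from h0] at h2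
  filter_upwards [(Continuous.prodMk_left (0 : F)).continuousAt.eventually h2] with b hb
  obtain ⟨⟨a, y⟩, hy, e⟩ := hb
  obtain ⟨rfl, e2⟩ := Prod.mk.inj e
  exact ⟨y, hy.2, e2⟩

/-- pseudo-division by a polynomial of least degree vanishing at `x` -/
theorem ker_le {A : Type} [CommRing A] {f g : A →+* F} {x y : F} {P : A[X]}
    (h0 : eval₂ f x P = 0) (hd : 0 < P.natDegree)
    (hm : ∀ Q : A[X], Q.natDegree < P.natDegree → eval₂ f x Q = 0 → Q = 0)
    (h1 : eval₂ g y P = 0) (hc : g P.leadingCoeff ≠ 0) (Q : A[X]) (hQ : eval₂ f x Q = 0) :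
    eval₂ g y Q = 0 := by
  induction hn : Q.natDegree using Nat.strong_induction_on generalizing Q with
  | _ n ih =>
    subst hn
    rcases lt_or_ge Q.natDegree P.natDegree with a | a
    · rw [hm Q a hQ, eval₂_zero]
    · have := ih _ (natDegree_cancelLeads_lt_of_natDegree_le_natDegree a (hd.trans_le a))
        (P.cancelLeads Q) (by simp [cancelLeads, eval₂_mul, h0, hQ]) rfl
      simpa [cancelLeads, eval₂_mul, h1, hc, Nat.sub_eq_zero_of_le a] using this

variable [CharZero F]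

theorem alg_eval {A : Type} [CommRing A] {g : A →+* F} (hg : ∀ a, IsAlgebraic ℚ (g a)) {y : F}
    (hy : IsAlgebraic ℚ y) (P : A[X]) : IsAlgebraic ℚ (eval₂ g y P) := by
  rw [← mem_algebraicClosure_iff, eval₂_eq_sum_range]
  exact sum_mem fun i _ => mul_mem (mem_algebraicClosure_iff.2 (hg _))
    (pow_mem (mem_algebraicClosure_iff.2 hy) _)

theorem alg_root {A : Type} [CommRing A] {g : A →+* F} (hg : ∀ a, IsAlgebraic ℚ (g a)) {y : F}
    {P : A[X]} (h1 : eval₂ g y P = 0) (hc : g P.leadingCoeff ≠ 0) : IsAlgebraic ℚ y := by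
  let g' : A →+* algebraicClosure ℚ F :=
    g.codRestrict _ fun a => mem_algebraicClosure_iff.2 (hg a)
  have : IsAlgebraic (algebraicClosure ℚ F) y := by
    refine ⟨P.map g', fun e => hc ?_, by rw [aeval_def, eval₂_map]; exact h1⟩
    have := congrArg (coeff · P.natDegree) e
    rw [coeff_map] at this
    exact congrArg Subtype.val this
  have : Algebra.IsAlgebraic ℚ (algebraicClosure ℚ F) := ⟨fun a =>
    (isAlgebraic_algebraMap_iff Subtype.val_injective).1 (mem_algebraicClosure_iff.1 a.2)⟩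
  exact IsAlgebraic.restrictScalars ℚ (S := algebraicClosure ℚ F) ‹_›

/-- the inclusion of `A` is a limit of ring maps with algebraic values -/
def Lim (A : Subring F) : Prop :=
  (∀ x : F, IsAlgebraic ℚ x → x ∈ A) ∧ ∃ (ι : Type) (l : Filter ι) (φ : ι → A →+* F), l.NeBot ∧
    (∀ i a, IsAlgebraic ℚ (φ i a)) ∧ (∀ i (a : A), IsAlgebraic ℚ (a : F) → φ i a = a) ∧
    ∀ a : A, Tendsto (fun i => φ i a) l (𝓝 a)

theorem freq [CompleteSpace F] (hd : DenseRange (Rat.cast : ℚ → F)) {A : Subring F} {ι : Type}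
    {l : Filter ι} [l.NeBot] {φ : ι → A →+* F} (h1 : ∀ i a, IsAlgebraic ℚ (φ i a))
    (h3 : ∀ a : A, Tendsto (fun i => φ i a) l (𝓝 a)) (x : F) :
    ∃ᶠ p in l ×ˢ 𝓝 x, IsAlgebraic ℚ p.2 ∧
      ∀ Q : A[X], eval₂ A.subtype x Q = 0 → eval₂ (φ p.1) p.2 Q = 0 := by
  classical
  intro H
  obtain ⟨V, hV, W, hW, hs⟩ := mem_prod_iff.1 H
  by_cases h : ∃ n, ∃ Q : A[X], Q.natDegree = n ∧ eval₂ A.subtype x Q = 0 ∧ Q ≠ 0
  swap
  · obtain ⟨i, hi⟩ := nonempty_of_mem hV
    obtain ⟨y, hy, q, rfl⟩ := mem_closure_iff_nhds.1 (hd x) W hW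
    refine hs (Set.mk_mem_prod hi hy) ⟨isAlgebraic_algebraMap q, fun Q hQ => ?_⟩
    rw [not_not.1 fun a => h ⟨_, Q, rfl, hQ, a⟩, eval₂_zero]
  obtain ⟨P, e, h0, hP⟩ := Nat.find_spec h
  have hm : ∀ Q : A[X], Q.natDegree < P.natDegree → eval₂ A.subtype x Q = 0 → Q = 0 :=
    fun Q a b => not_not.1 fun c => Nat.find_min h (e ▸ a) ⟨Q, rfl, b, c⟩
  have hpos : 0 < P.natDegree := pos_iff_ne_zero.2 fun a => hP (by
    rw [eq_C_of_natDegree_eq_zero a, eval₂_C] at h0
    rw [eq_C_of_natDegree_eq_zero a, show P.coeff 0 = 0 from Subtype.ext h0, C_0])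
  have hD : eval₂ A.subtype x (derivative P) ≠ 0 := fun a =>
    hpos.ne' (derivative_eq_zero.1
      (hm _ (natDegree_derivative_lt hpos.ne') a))
  have ev : ∀ (g : A →+* F) y, eval₂ g y P =
      ∑ i : Fin (P.natDegree + 1), g (P.coeff i) * y ^ (i : ℕ) := fun g y => by
    rw [eval₂_eq_sum_range, Finset.sum_range]
  have hder : HasDerivAt (fun y => eval₂ A.subtype y P) (eval₂ A.subtype x (derivative P)) x := by
    simpa only [eval_map, derivative_map] using (P.map A.subtype).hasDerivAt x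
  simp only [ev] at hder h0
  have a1 := (tendsto_pi_nhds.2 fun i : Fin (P.natDegree + 1) => h3 (P.coeff i)).eventually
    (near_root hD h0 hder hW)
  have a2 := (h3 P.leadingCoeff).eventually_ne
    (show (P.leadingCoeff : F) ≠ 0 from fun a => hP (leadingCoeff_eq_zero.1 (Subtype.ext a)))
  obtain ⟨i, ⟨y, hy, b1⟩, b2, b3⟩ := (a1.and (a2.and hV)).exists
  rw [← ev] at b1 h0
  exact hs (Set.mk_mem_prod b3 hy) ⟨alg_root (h1 i) b1 b2, ker_le h0 hpos hm b1 b2⟩

theorem Lim.step [CompleteSpace F] (hd : DenseRange (Rat.cast : ℚ → F)) {A : Subring F}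
    (h : Lim A) (x : F) : ∃ B, Lim B ∧ A ≤ B ∧ x ∈ B := by
  obtain ⟨h0, ι, l, φ, hl, h1, h2, h3⟩ := h
  let f : A[X] →+* F := eval₂RingHom A.subtype x
  have hA : A ≤ f.range := fun a ha => ⟨C ⟨a, ha⟩, eval₂_C _ _⟩
  let Z := {p : ι × F // IsAlgebraic ℚ p.2 ∧
    ∀ Q : A[X], eval₂ A.subtype x Q = 0 → eval₂ (φ p.1) p.2 Q = 0}
  have hψ : ∀ p : Z, ∃ ψ : f.range →+* F, ∀ Q, ψ (f.rangeRestrict Q) = eval₂ (φ p.1.1) p.1.2 Q :=
    fun p => ⟨RingHom.liftOfSurjective _ f.rangeRestrict_surjective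
      ⟨eval₂RingHom (φ p.1.1) p.1.2, fun Q hQ => p.2.2 Q (congrArg Subtype.val hQ)⟩,
      fun Q => RingHom.liftOfRightInverse_comp_apply ..⟩
  choose ψ hψ using hψ
  refine ⟨f.range, ⟨fun y hy => hA (h0 y hy), Z, comap Subtype.val (l ×ˢ 𝓝 x), ψ, ?_, ?_, ?_, ?_⟩,
    hA, X, eval₂_X _ _⟩
  · rw [comap_neBot_iff_frequently, Subtype.range_coe_subtype]
    exact freq hd h1 h3 x
  · intro p b
    obtain ⟨Q, rfl⟩ := f.rangeRestrict_surjective b
    rw [hψ]
    exact alg_eval (h1 _) p.2.1 Q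
  · intro p b hb
    have e : b = f.rangeRestrict (C ⟨b, h0 b hb⟩) :=
      Subtype.ext (Eq.symm (b := A.subtype ⟨b, h0 b hb⟩) (eval₂_C ..))
    rw [e, hψ, eval₂_C, ← e]
    exact h2 _ ⟨b, h0 b hb⟩ hb
  · intro b
    obtain ⟨Q, rfl⟩ := f.rangeRestrict_surjective b
    show Tendsto _ _ (𝓝 (eval₂ A.subtype x Q))
    simp only [hψ, eval₂_eq_sum_range]
    exact tendsto_finsetSum _ fun i _ => ((h3 _).comp (tendsto_fst.comp tendsto_comap)).mul
      ((tendsto_snd.comp tendsto_comap).pow i)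

theorem exists_lim [CompleteSpace F] (hd : DenseRange (Rat.cast : ℚ → F)) (s : Finset F) :
    ∃ A : Subring F, Lim A ∧ ∀ x ∈ s, x ∈ A := by
  classical
  induction s using Finset.induction_on with
  | empty =>
    exact ⟨(algebraicClosure ℚ F).toSubring, ⟨fun x hx => mem_algebraicClosure_iff.2 hx, Unit, ⊤,
      fun _ => Subring.subtype _, inferInstance, fun _ a => mem_algebraicClosure_iff.1 a.2,
      fun _ _ _ => rfl, fun _ => tendsto_const_nhds⟩, by simp⟩
  | insert x s _ ih =>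
    obtain ⟨A, h1, h2⟩ := ih
    obtain ⟨B, b1, b2, b3⟩ := h1.step hd x
    exact ⟨B, b1, fun y hy => (Finset.mem_insert.1 hy).elim (· ▸ b3) fun a => b2 (h2 y a)⟩

end LApproxAux

theorem alg_approx {F : Type} [NontriviallyNormedField F] [CharZero F] [CompleteSpace F]
    (hd : DenseRange (Rat.cast : ℚ → F)) (s : Finset F) {ε : ℝ} (hε : 0 < ε) :
    ∃ (A : Subring F) (φ : A →+* F), (∀ x ∈ s, x ∈ A) ∧ (∀ x : F, IsAlgebraic ℚ x → x ∈ A) ∧
      (∀ x : A, IsAlgebraic ℚ (φ x)) ∧ (∀ x : A, IsAlgebraic ℚ (x : F) → φ x = x) ∧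
      ∀ x : A, (x : F) ∈ s → ‖φ x - x‖ < ε := by
  obtain ⟨A, ⟨h0, ι, l, φ, hl, h1, h2, h3⟩, hs⟩ := LApproxAux.exists_lim hd s
  have hf : {x : A | (x : F) ∈ s}.Finite := s.finite_toSet.preimage Subtype.val_injective.injOn
  obtain ⟨i, hi⟩ := ((Filter.eventually_all_finite hf).2 fun a _ =>
    Metric.tendsto_nhds.1 (h3 a) ε hε).exists
  exact ⟨A, φ i, hs, h0, h1 i, h2 i, fun x hx => by simpa only [dist_eq_norm] using hi x hx⟩

end Pool.Agent.P.MP_257122_al
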