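import Pool.Agent.P.MP_257122_al.BGal
import Pool.Agent.P.MP_257122_al.BGeo
import Pool.Agent.P.MP_257122_al.LApprox

/-!
# Dual bases of invariants; algebraic frames

PLAN.  `exists_spanPk`: the invariants of a type form a `GalSub` subspace `U` (apply `τ⁻¹` to the
group element; the inverse of `g.val.map τ` is `g.inv.map τ`), so `U`, `U'` are spanned by their
rational points `U₀`, `U₀'` (`gal_descent`).  The dot product `U' × U` is nondegenerate on both
sides: for `w ∈ U`, `ThS` gives `w' ∈ U'` with `w' ⬝ᵥ w = ∑ ‖(rho x w) I‖²` (`dot_rho`).  Hence it is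
nondegenerate on `U₀' × U₀`, the map `U₀' → Dual U₀` is bijective (both injections, finite
dimension), and the preimages of the coordinate functions of a basis `y` of `U₀` form `y'`.
`thEq_of_spanPk`: `thEq_of_span`; the real array `fr1 j` is a complex combination of the real
arrays `fr2 l`, take real parts (`mem_span_of_map` for `Complex.ofRealHom`).
`alg_form`: `alg_approx` for the finite set of entries of `g`, `g'`; lift the matrices to the
subring `A` (rationals are algebraic, hence in `A` and fixed by `φ`), state the equations in `A`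
(injectivity of `A.subtype`, `rho_map`) and map them by `φ`.
-/

namespace Pool.Agent.P.MP_257122_al

open Matrix

variable {n : ℕ}

namespace BDualAux

section
variable {κ : Type} [Fintype κ] [DecidableEq κ]

/-- the space of invariants -/
def invS (G : Subgroup (GL (Fin n) ℂ)) (s : κ → Bool) : Submodule ℂ ((κ → Fin n) → ℂ) where
  carrier := {w | Inva G s w}
  add_mem' hx hy g hg := by rw [mulVec_add, hx g hg, hy g hg]
  zero_mem' g _ := mulVec_zero _
  smul_mem' c x hx g hg := by rw [mulVec_smul, hx g hg]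

/-- the space of rational invariants -/
def invQ (G : Subgroup (GL (Fin n) ℂ)) (s : κ → Bool) : Submodule ℚ ((κ → Fin n) → ℚ) where
  carrier := {w | Inva G s (castV ℂ w)}
  add_mem' {x y} hx hy g hg := by rw [castV_add, mulVec_add, hx g hg, hy g hg]
  zero_mem' g _ := by
    have : castV ℂ (0 : (κ → Fin n) → ℚ) = 0 := funext fun _ => Rat.cast_zero
    rw [this, mulVec_zero]
  smul_mem' c x hx g hg := by rw [castV_smul, mulVec_smul, hx g hg]

theorem gal {G : Subgroup (GL (Fin n) ℂ)} (hG : GalSt G) (s : κ → Bool) : GalSub (invS G s) := by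
  intro τ v hv g hg
  obtain ⟨g₂, h2, e⟩ := hG τ.symm g hg
  have e1 : g₂.val.map τ = g.val := by
    rw [e]
    ext i j
    exact τ.apply_symm_apply _
  have e2 : g₂.inv.map τ = g.inv := by
    have h1 : g.val * g₂.inv.map τ = 1 := by
      rw [← e1, ← Matrix.map_mul, g₂.val_inv, Matrix.map_one _ (map_zero τ) (map_one τ)]
    rw [← Matrix.one_mul (g₂.inv.map τ), ← g.inv_val, Matrix.mul_assoc, h1, Matrix.mul_one]
  funext I
  rw [← e1, ← e2, ← rho_map]
  exact (RingHom.map_mulVec τ.toRingHom _ v I).symm.trans (congrArg τ (congrFun (hv g₂ h2) I))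

theorem mem_span {G : Subgroup (GL (Fin n) ℂ)} (hG : GalSt G) (s : κ → Bool)
    {w : (κ → Fin n) → ℂ} (hw : Inva G s w) :
    w ∈ Submodule.span ℂ (castV ℂ '' {v | Inva G s (castV ℂ v)}) :=
  (gal_descent (gal hG s)).le hw

theorem nondeg {G : Subgroup (GL (Fin n) ℂ)} (hG : GalSt G) {s : κ → Bool} {x x' : Mat n ℂ}
    (hx : x * x' = 1) (h : ThS G s x x') {w : (κ → Fin n) → ℚ} (hw : w ∈ invQ G s)
    (h0 : ∀ w' ∈ invQ G (du s), w' ⬝ᵥ w = 0) : w = 0 := by
  have hx' : x' * x = 1 := mul_eq_one_comm.1 hx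
  obtain ⟨w', h1, h2⟩ := h _ hw
  have h3 : w' ⬝ᵥ castV ℂ w = 0 := by
    have := mem_span hG _ h1
    clear h1 h2
    induction this using Submodule.span_induction with
    | mem y hy =>
      obtain ⟨y, hy, rfl⟩ := hy
      rw [castV_dot, h0 y hy, Rat.cast_zero]
    | zero => exact zero_dotProduct _
    | add a b _ _ ha hb => rw [add_dotProduct, ha, hb, add_zero]
    | smul c a _ ha => rw [smul_dotProduct, ha, smul_zero]
  rw [← dot_rho s hx', ← h2] at h3
  have h4 : rho s x x' *ᵥ castV ℂ w = 0 := by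
    open ComplexOrder in exact dotProduct_star_self_eq_zero.1 h3
  have h5 := congrArg (rho s x' x *ᵥ ·) h4
  simp only [rho_mulVec, hx', rho_one, one_mulVec, mulVec_zero] at h5
  exact funext fun I => Rat.cast_eq_zero.1 (congrFun h5 I)

theorem real_map (s : κ → Bool) (g g' : Mat n ℝ) (y : (κ → Fin n) → ℚ) :
    (fun I => Complex.ofRealHom ((rho s g g' *ᵥ castV ℝ y) I)) =
      rho s (g.map Complex.ofReal) (g'.map Complex.ofReal) *ᵥ castV ℂ y := by
  funext I
  rw [RingHom.map_mulVec, rho_map]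
  rfl

theorem real_span {G : Subgroup (GL (Fin n) ℂ)} {s : κ → Bool} {g g' : Mat n ℝ}
    (h : ThS G s (g.map Complex.ofReal) (g'.map Complex.ofReal)) {y : (κ → Fin n) → ℚ}
    (hy : Inva G s (castV ℂ y)) {r : ℕ} {y' : Fin r → (κ → Fin n) → ℚ}
    (hy' : ∀ w, Inva G (du s) w → w ∈ Submodule.span ℂ (Set.range fun j => castV ℂ (y' j))) :
    rho s g g' *ᵥ castV ℝ y ∈
      Submodule.span ℝ (Set.range fun l => rho (du s) g g' *ᵥ castV ℝ (y' l)) := by
  refine mem_span_of_map Complex.ofRealHom _ ?_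
  obtain ⟨w', h1, h2⟩ := h _ hy
  have h3 : star (rho s (g.map Complex.ofReal) (g'.map Complex.ofReal) *ᵥ castV ℂ y) =
      fun I => Complex.ofRealHom ((rho s g g' *ᵥ castV ℝ y) I) := by
    rw [← real_map]
    exact funext fun I => Complex.conj_ofReal _
  rw [← h3, h2]
  have h4 := hy' w' h1
  clear h1 h2
  induction h4 using Submodule.span_induction with
  | mem z hz =>
    obtain ⟨l, rfl⟩ := hz
    exact Submodule.subset_span ⟨_, ⟨l, rfl⟩, real_map _ g g' (y' l)⟩
  | zero => rw [mulVec_zero]; exact zero_mem _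
  | add a b _ _ ha hb => rw [mulVec_add]; exact add_mem ha hb
  | smul c a _ ha => rw [mulVec_smul]; exact Submodule.smul_mem _ _ ha

theorem ring_map {A : Type} [CommRing A] (ψ : A →+* ℝ) (c : ℚ → A) (hc : ∀ q, ψ (c q) = q)
    (s : κ → Bool) (g g' : Mat n A) (y : (κ → Fin n) → ℚ) :
    rho s (g.map ψ) (g'.map ψ) *ᵥ castV ℝ y = fun I => ψ ((rho s g g' *ᵥ fun J => c (y J)) I) := by
  funext I
  rw [RingHom.map_mulVec, rho_map]
  congr 1
  exact funext fun J => (hc _).symm

end

theorem dual_bases {K ι : Type} [Field K] [Fintype ι] (U U' : Submodule K (ι → K))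
    (h1 : ∀ w ∈ U, (∀ w' ∈ U', w' ⬝ᵥ w = 0) → w = 0)
    (h2 : ∀ w' ∈ U', (∀ w ∈ U, w' ⬝ᵥ w = 0) → w' = 0) :
    ∃ (r : ℕ) (y y' : Fin r → ι → K), (∀ i j, y' i ⬝ᵥ y j = if i = j then 1 else 0) ∧
      Submodule.span K (Set.range y) = U ∧ Submodule.span K (Set.range y') = U' := by
  let B : U' →ₗ[K] U →ₗ[K] K := LinearMap.mk₂ K (fun a b => a.1 ⬝ᵥ b.1)
    (fun a a' b => add_dotProduct _ _ _) (fun c a b => smul_dotProduct _ _ _)
    (fun a b b' => dotProduct_add _ _ _) (fun c a b => dotProduct_smul _ _ _)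
  have i1 : Function.Injective B := (injective_iff_map_eq_zero _).2 fun a ha =>
    Subtype.ext (h2 a.1 a.2 fun w hw => LinearMap.congr_fun ha ⟨w, hw⟩)
  have i2 : Function.Injective B.flip := (injective_iff_map_eq_zero _).2 fun a ha =>
    Subtype.ext (h1 a.1 a.2 fun w hw => LinearMap.congr_fun ha ⟨w, hw⟩)
  have d1 := LinearMap.finrank_le_finrank_of_injective i1
  have d2 := LinearMap.finrank_le_finrank_of_injective i2
  have d3 : Module.finrank K (U →ₗ[K] K) = Module.finrank K U := Subspace.dual_finrank_eq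
  have d4 : Module.finrank K (U' →ₗ[K] K) = Module.finrank K U' := Subspace.dual_finrank_eq
  let e : U' ≃ₗ[K] Module.Dual K U := LinearEquiv.ofBijective B
    ⟨i1, (LinearMap.injective_iff_surjective_of_finrank_eq_finrank (by omega)).1 i1⟩
  let b := Module.finBasis K U
  have hs : ∀ {m : ℕ} (W : Submodule K (ι → K)) (b : Module.Basis (Fin m) K W),
      Submodule.span K (Set.range fun j => (b j).1) = W := fun W b => by
    have := congrArg (Submodule.map W.subtype) b.span_eq
    rwa [Submodule.map_span, ← Set.range_comp, Submodule.map_subtype_top] at this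
  refine ⟨_, fun j => (b j).1, fun j => (b.dualBasis.map e.symm j).1, fun i j => ?_, hs U b,
    hs U' _⟩
  change e (b.dualBasis.map e.symm i) (b j) = _
  rw [Module.Basis.map_apply, e.apply_symm_apply, Module.Basis.dualBasis_apply_self]
  simp only [eq_comm]

theorem eq_map {A J : Type} [CommRing A] [Fintype J] (ψ : A →+* ℝ) {r : ℕ} (f f' : Fin r → J → A)
    (j : Fin r) : ((fun I => ψ (f j I)) =
      ∑ l, ((fun I => ψ (f j I)) ⬝ᵥ fun I => ψ (f l I)) • fun I => ψ (f' l I)) ↔
    ∀ I, ψ (f j I) = ψ ((∑ l, (f j ⬝ᵥ f l) • f' l) I) := by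
  rw [funext_iff]
  simp only [Finset.sum_apply, Pi.smul_apply, smul_eq_mul, dotProduct, map_sum, map_mul]

theorem eq_tr {J : Type} [Fintype J] {A : Subring ℝ} (φ : A →+* ℝ) {r : ℕ} (f f' : Fin r → J → A)
    (j : Fin r) (h : (fun I => A.subtype (f j I)) = ∑ l, ((fun I => A.subtype (f j I)) ⬝ᵥ
      fun I => A.subtype (f l I)) • fun I => A.subtype (f' l I)) : (fun I => φ (f j I)) =
      ∑ l, ((fun I => φ (f j I)) ⬝ᵥ fun I => φ (f l I)) • fun I => φ (f' l I) :=
  (eq_map φ f f' j).2 fun I => congrArg φ (A.subtype_injective ((eq_map A.subtype f f' j).1 h I))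

end BDualAux

open BDualAux

theorem galSub_inva {κ : Type} [Fintype κ] [DecidableEq κ] {G : Subgroup (GL (Fin n) ℂ)}
    (hG : GalSt G) (s : κ → Bool) {w : (κ → Fin n) → ℂ} (hw : Inva G s w) :
    w ∈ Submodule.span ℂ (castV ℂ '' {v | Inva G s (castV ℂ v)}) := mem_span hG s hw

theorem exists_spanPk {G : Subgroup (GL (Fin n) ℂ)} (hG : GalSt G) (σ : List Bool)
    {x x' : Mat n ℂ} (hx : x * x' = 1) (h1 : ThS G σ.get x x') (h2 : ThS G (du σ.get) x x') :
    ∃ (r : ℕ) (y y' : Fin r → Tn n σ ℚ), SpanPk G ⟨σ, r, y, y'⟩ := by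
  obtain ⟨r, y, y', h3, h4, h5⟩ := dual_bases (invQ G σ.get) (invQ G (du σ.get))
    (fun w hw h => nondeg hG hx h1 hw h)
    (fun w hw h => nondeg hG hx h2 hw fun w' hw' => by
      rw [du_du] at hw'
      rw [dotProduct_comm, h w' hw'])
  have key : ∀ (s : Fin σ.length → Bool) (z : Fin r → Tn n σ ℚ),
      Submodule.span ℚ (Set.range z) = invQ G s → ∀ w, Inva G s w →
        w ∈ Submodule.span ℂ (Set.range fun j => castV ℂ (z j)) := fun s z hz w hw => by
    have h6 : w ∈ cx (Rat.castHom ℂ) (invQ G s) := mem_span hG s hw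
    rw [← hz, cx_span, ← Set.range_comp] at h6
    exact h6
  refine ⟨r, y, y', h3, fun j => ⟨?_, ?_⟩, key _ y h4, key _ y' h5⟩
  · exact h4.le (Submodule.subset_span ⟨j, rfl⟩)
  · exact h5.le (Submodule.subset_span ⟨j, rfl⟩)

theorem thEq_of_spanPk {G : Subgroup (GL (Fin n) ℂ)} {q : OPk n} (hq : SpanPk G q)
    {g g' : Mat n ℝ} (hg : g * g' = 1)
    (h1 : ThS G q.1.get (g.map Complex.ofReal) (g'.map Complex.ofReal))
    (h2 : ThS G (du q.1.get) (g.map Complex.ofReal) (g'.map Complex.ofReal)) : ThEq g g' q := by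
  refine thEq_of_span hg hq.1 (fun j => real_span h1 (hq.2.1 j).1 hq.2.2.2) fun j => ?_
  have := real_span h2 (hq.2.1 j).2 (y' := q.2.2.1) (by rw [du_du]; exact hq.2.2.1)
  rw [du_du] at this
  exact this

theorem alg_form (qs : List (OPk n)) {g g' : Mat n ℝ} (hg : g * g' = 1)
    (h : ∀ q ∈ qs, ThEq g g' q) :
    ∃ k k' : Mat n ℝ, (∀ i j, IsAlgebraic ℚ (k i j) ∧ IsAlgebraic ℚ (k' i j)) ∧ k * k' = 1 ∧
      ∀ q ∈ qs, ThEq k k' q := by
  classical
  obtain ⟨A, φ, h1, h2, h3, h4, -⟩ := alg_approx (F := ℝ) Rat.denseRange_cast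
    (Finset.univ.image (fun p : Fin n × Fin n => g p.1 p.2) ∪
      Finset.univ.image fun p : Fin n × Fin n => g' p.1 p.2) one_pos
  let a : Mat n A := Matrix.of fun i j => ⟨g i j, h1 _ (Finset.mem_union_left _
    (Finset.mem_image.2 ⟨(i, j), Finset.mem_univ _, rfl⟩))⟩
  let a' : Mat n A := Matrix.of fun i j => ⟨g' i j, h1 _ (Finset.mem_union_right _
    (Finset.mem_image.2 ⟨(i, j), Finset.mem_univ _, rfl⟩))⟩
  let c : ℚ → A := fun q => ⟨q, h2 _ (isAlgebraic_ratCast ℚ q)⟩
  have e1 : a.map A.subtype = g := rfl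
  have e2 : a'.map A.subtype = g' := rfl
  have e3 : a * a' = 1 := Matrix.map_injective A.subtype_injective (by
    change (a * a').map A.subtype = (1 : Mat n A).map A.subtype
    rw [Matrix.map_mul, e1, e2, hg, Matrix.map_one _ (map_zero _) (map_one _)])
  have key : ∀ (ψ : A →+* ℝ), (∀ q, ψ (c q) = q) → ∀ q : OPk n,
      (fr1 (a.map ψ) (a'.map ψ) q = fun j I =>
        ψ ((rho q.1.get a a' *ᵥ fun J => c (q.2.2.1 j J)) I)) ∧
      fr2 (a.map ψ) (a'.map ψ) q = fun j I =>
        ψ ((rho (du q.1.get) a a' *ᵥ fun J => c (q.2.2.2 j J)) I) := fun ψ hψ q =>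
    ⟨funext fun j => ring_map ψ c hψ _ a a' _, funext fun j => ring_map ψ c hψ _ a a' _⟩
  refine ⟨a.map φ, a'.map φ, fun i j => ⟨h3 _, h3 _⟩, ?_, fun q hq => ?_⟩
  · rw [← Matrix.map_mul, e3, Matrix.map_one _ (map_zero _) (map_one _)]
  · have h5 := h q hq
    have k1 := key A.subtype (fun _ => rfl) q
    have k2 := key φ (fun q => h4 (c q) (isAlgebraic_ratCast ℚ q)) q
    rw [← e1, ← e2] at h5
    unfold ThEq at h5 ⊢
    rw [k1.1, k1.2] at h5
    rw [k2.1, k2.2]
    exact ⟨fun j => eq_tr φ (fun j => rho q.1.get a a' *ᵥ fun J => c (q.2.2.1 j J))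
        (fun j => rho (du q.1.get) a a' *ᵥ fun J => c (q.2.2.2 j J)) j (h5.1 j),
      fun j => eq_tr φ (fun j => rho (du q.1.get) a a' *ᵥ fun J => c (q.2.2.2 j J))
        (fun j => rho q.1.get a a' *ᵥ fun J => c (q.2.2.1 j J)) j (h5.2 j)⟩

end Pool.Agent.P.MP_257122_al
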