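import Pool.Agent.P.MP_257122_al.BKn

/-!
# Tensor representations of a semisimple group are semisimple
-/

namespace Pool.Agent.P.MP_257122_al

open Matrix

namespace BTssAux

variable {J : Type} [Fintype J] {d : ℕ}

theorem binet (A : Matrix (Fin d) J ℂ) (m : Matrix J (Fin d) ℂ) :
    (A * m).det = ∑ K : Fin d → J, (∏ a, A a (K a)) * (m.submatrix K id).det := by
  have e : A * m = fun a => ∑ k, A a k • m k := by
    ext a b
    simp [mul_apply]
  refine (congrArg detRowAlternating e).trans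
    ((detRowAlternating.toMultilinearMap.map_sum fun a k => A a k • m k).trans ?_)
  exact Finset.sum_congr rfl fun K _ => detRowAlternating.toMultilinearMap.map_smul_univ _ _

theorem upd (m : Matrix J (Fin d) ℂ) (I : Fin d → J) (y : J → ℂ) (b : Fin d) :
    cramer (m.submatrix I id)ᵀ (y ᵥ* m) b =
      ∑ j, y j * (m.submatrix (Function.update I b j) id).det := by
  have e : y ᵥ* m = ∑ j, y j • m j := by
    ext a
    simp [vecMul, dotProduct]
  rw [e, map_sum, Finset.sum_apply]
  refine Finset.sum_congr rfl fun j _ => ?_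
  rw [map_smul, Pi.smul_apply, smul_eq_mul, cramer_transpose_apply]
  refine congrArg (fun z => y j * det z) (Matrix.ext fun a c => ?_)
  by_cases h : a = b <;> simp [updateRow_apply, h]

theorem ann {m m' : Matrix J (Fin d) ℂ} {B : Matrix (Fin d) J ℂ} (hB : B * m' = 1) {c : ℂ}
    (h : ∀ I : Fin d → J, (m'.submatrix I id).det = c * (m.submatrix I id).det) {y : J → ℂ}
    (hy : y ᵥ* m = 0) : y ᵥ* m' = 0 := by
  obtain ⟨I, hI⟩ : ∃ I : Fin d → J, (m'.submatrix I id).det ≠ 0 := by
    by_contra hc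
    push Not at hc
    simpa [hB, hc] using binet B m'
  have h1 : cramer (m'.submatrix I id)ᵀ (y ᵥ* m') = 0 := funext fun b => by
    have := upd m I y b
    rw [hy, map_zero, Pi.zero_apply] at this
    rw [upd]
    simp only [h, mul_left_comm _ c, ← Finset.mul_sum, ← this, mul_zero, Pi.zero_apply]
  have h2 := mulVec_cramer (m'.submatrix I id)ᵀ (y ᵥ* m')
  rw [h1, mulVec_zero, det_transpose] at h2
  exact (smul_eq_zero.1 h2.symm).resolve_left hI

variable {n : ℕ} {κ : Type} [Fintype κ] [DecidableEq κ]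

/-- The Pluecker coordinates. -/
noncomputable def W (m : Matrix (κ → Fin n) (Fin d) ℂ) (I : Fin d × κ → Fin n) : ℂ :=
  (m.submatrix (Function.curry I) id).det

theorem rho_W (s : κ → Bool) (g g' : Mat n ℂ) (m : Matrix (κ → Fin n) (Fin d) ℂ) :
    rho (fun p : Fin d × κ => s p.2) g g' *ᵥ W m = W (rho s g g' * m) := by
  funext I
  refine Eq.trans ?_ (binet ((rho s g g').submatrix (Function.curry I) id) m).symm
  refine Fintype.sum_equiv (Equiv.curry _ _ _) _ _ fun K => ?_
  exact congrArg (· * W m K) (Fintype.prod_prod_type fun p : Fin d × κ =>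
    if s p.2 = true then g (I p) (K p) else g' (K p) (I p))

end BTssAux

open BTssAux ComplexOrder in
theorem tss {n : ℕ} (G : Subgroup (GL (Fin n) ℂ)) (h : SemiS (vals G)) {κ : Type} [Fintype κ]
    [DecidableEq κ] (s : κ → Bool) : SemiS {y | ∃ g ∈ G, rho s g.val g.inv = y} := by
  refine semiS_of_compl fun M hM => ?_
  obtain ⟨d, m, B, hB, hm⟩ : ∃ (d : ℕ) (m : Matrix (κ → Fin n) (Fin d) ℂ)
      (B : Matrix (Fin d) (κ → Fin n) ℂ), B * m = 1 ∧ ∀ v, v ∈ M ↔ ∃ z, m *ᵥ z = v := by
    let f := M.subtype ∘ₗ (Module.finBasis ℂ M).equivFun.symm.toLinearMap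
    obtain ⟨g, hg⟩ := f.exists_leftInverse_of_injective (LinearMap.ker_eq_bot.2
      (M.subtype_injective.comp (LinearEquiv.injective _)))
    refine ⟨_, LinearMap.toMatrix' f, LinearMap.toMatrix' g, by
      rw [← LinearMap.toMatrix'_comp, hg, LinearMap.toMatrix'_id], fun v => ?_⟩
    simp only [LinearMap.toMatrix'_mulVec]
    exact ⟨fun hv => ⟨(Module.finBasis ℂ M).equivFun ⟨v, hv⟩, by simp [f]⟩,
      fun ⟨z, hz⟩ => hz ▸ Subtype.mem _⟩
  have h1 : ∀ g ∈ G, rho s g.val g.inv * m = m * (B * (rho s g.val g.inv * m)) := fun g hg =>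
    ext_iff_mulVec.2 fun z => by
      obtain ⟨z', e⟩ := (hm _).1 (hM _ ⟨g, hg, rfl⟩ _ ((hm _).2 ⟨z, rfl⟩))
      simp only [← mulVec_mulVec, ← e]
      rw [mulVec_mulVec z' B, hB, one_mulVec]
  obtain ⟨x, x', hx, h2⟩ := kn G h (J := Unit) (fun _ => Fin d × κ) (fun _ p => s p.2)
    (fun _ => W m) (fun _ g => (B * (rho s g.val g.inv * m)).det) fun _ g hg => by
      rw [rho_W]
      funext I
      rw [Pi.smul_apply, smul_eq_mul, mul_comm, W, W, ← det_mul, h1 g hg, ← h1 g hg]
      exact congrArg det (congrArg (submatrix · _ id) (h1 g hg))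
  have hx' := mul_eq_one_comm.1 hx
  have hl : B * rho s x' x * (rho s x x' * m) = 1 := by
    rw [Matrix.mul_assoc, ← Matrix.mul_assoc _ _ m, rho_mul, hx', rho_one, Matrix.one_mul, hB]
  have inj : ∀ z, ((rho s x x' * m)ᴴ * (rho s x x' * m)) *ᵥ z = 0 → z = 0 := fun z hz => by
    rw [← one_mulVec z, ← hl, ← mulVec_mulVec, (conjTranspose_mul_self_mulVec_eq_zero _ _).1 hz,
      mulVec_zero]
  refine ⟨LinearMap.ker ((rho s x x' * m)ᴴ * rho s x x').mulVecLin, ⟨Submodule.disjoint_def.2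
    fun v hv hv' => ?_, Submodule.codisjoint_iff_exists_add_eq.2 fun v => ?_⟩, ?_⟩
  · obtain ⟨z, rfl⟩ := (hm v).1 hv
    rw [inj z (by simpa [Matrix.mul_assoc] using hv'), mulVec_zero]
  · obtain ⟨z, hz⟩ := mulVec_surjective_iff_isUnit.2 (mulVec_injective_iff_isUnit.1
      ((injective_iff_map_eq_zero (mulVecLin _)).2 inj)) (((rho s x x' * m)ᴴ * rho s x x') *ᵥ v)
    refine ⟨m *ᵥ z, v - m *ᵥ z, (hm _).2 ⟨z, rfl⟩, ?_, by simp⟩
    rw [LinearMap.mem_ker, mulVecLin_apply, mulVec_sub, ← hz, mulVec_mulVec, Matrix.mul_assoc,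
      sub_self]
  · rintro _ ⟨g, hg, rfl⟩ v hv
    have h3 := h2 () g hg
    rw [rho_conjTranspose, rho_W, rho_W, ← rho_conjTranspose] at h3
    have e1 : ∀ a b : Mat n ℂ, a * b = 1 → x * a * x' * (x * b * x') = 1 := fun a b e => by
      rw [mul_assoc, mul_assoc x b, ← mul_assoc x', hx', one_mul, mul_assoc, ← mul_assoc a, e,
        one_mul, hx]
    have h4 := ann (B := B * rho s x' x * (rho s (x * g.inv * x') (x * g.val * x'))ᴴ) (by
      rw [Matrix.mul_assoc, ← Matrix.mul_assoc _ _ (_ * m), ← conjTranspose_mul, rho_mul,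
        e1 _ _ g.val_inv, rho_one, conjTranspose_one, Matrix.one_mul, hl])
      (fun I => congrFun h3 (Function.uncurry I)) (y := star (rho s x x' *ᵥ v)) (by
        rw [LinearMap.mem_ker, mulVecLin_apply, ← mulVec_mulVec] at hv
        simpa [star_mulVec] using congrArg star hv)
    rw [← vecMul_vecMul, ← star_mulVec, mulVec_mulVec, rho_mul, mul_assoc, hx', mul_one,
      ← mul_assoc, ← mul_assoc, hx', one_mul, ← rho_mul, ← mulVec_mulVec] at h4
    rw [LinearMap.mem_ker, mulVecLin_apply, ← mulVec_mulVec]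
    simpa [star_vecMul] using congrArg star h4

end Pool.Agent.P.MP_257122_al
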