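import Pool.Agent.P.MP_257122_al.BExp
import Pool.Agent.P.MP_257122_al.BTss
import Pool.Agent.P.MP_257122_al.BDual

/-!
# Fixed points and rational points in orbits of the unipotent group

PLAN.  Index the tensors by `i : Fin ts.length`, let `T i = tw (σ i).get wt`, choose `lo` below and
`hi` above all values of all `T i`.  Both theorems are proved by raising levels: a statement
`P lv` about `lv : Fin _ → ℤ` that holds for the constant `lo` and passes from `lv` to
`update lv i (lv i + 1)` holds for every `lv ≥ lo` (induction on the sum of `lv i - lo`).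
COMMON STEP.  For rational `x i`, call `ξ` admissible if `Rais wt ξ` and
`VanB (T i) (lv i) (drho ξ x i)` for all `i`.  If `v` is complex unipotent and
`VanB (T i) (lv i) (rho v x i - x i)` for all `i`, then `v = exp ξ` (`exists_log`) with `ξ` admissible
and `rho v x i - x i` agrees with `drho ξ x i` at level `lv i` (`rho_exp`, `exp_vanB`); conversely
`exp ξ` has these properties for admissible `ξ`.  A retraction `r : ℂ →+ ℚ` (`exists_retr` for
`Rat.castHom ℂ`) turns an admissible complex `ξ` into an admissible rational one (`drho_retr`).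
`uq`: `P lv` = some rational unipotent `v` has `VanB (T i) (lv i) (y i - rho v x i)`; with
`x' = rho v x` the target is `rho w x'` for a complex unipotent `w`; replace `v` by `exp (r ξ) v`.
`levi`: `P lv` = some rational unipotent `v` has `VanB (T i) (lv i) (rho g x' i - x' i)` for all
`g ∈ G`, `x' = rho v x`.  Let `Q` be the diagonal projector on the indices of weight `d = lv i₀`
(it commutes with `rho g`, which is graded by `grm_rho`), `E` the space of all
`Q (drho ξ x' i₀)`, `ξ` admissible.  `E` is invariant (`drho_conj`, `Rais.conj`) and contains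
`rho g (Q x') - Q x'` (the hypothesis `ho` persists for `x'`).  With the projector `π` of `tss`,
`Q x' - π Q x'` is invariant, so `Q x' + Q (drho ξ x')` is invariant for some admissible `ξ`; by
`galSub_inva` and `lin_span` the same holds for `r ξ`; replace `v` by `exp (r ξ) v`.
-/

namespace Pool.Agent.P.MP_257122_al

open Matrix

namespace BLvAux

section van
variable {J F : Type} [Field F] {T : J → ℤ} {d : ℤ} {y z : J → F}

theorem van_add (h : VanB T d y) (h' : VanB T d z) : VanB T d (y + z) := fun i hi => by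
  rw [Pi.add_apply, h i hi, h' i hi, add_zero]

theorem van_sub (h : VanB T d y) (h' : VanB T d z) : VanB T d (y - z) := fun i hi => by
  rw [Pi.sub_apply, h i hi, h' i hi, sub_zero]

theorem van_pred (h : VanB T (d + 1) y) : VanB T d y := fun i hi => h i (by omega)

theorem van_cast {y : J → ℚ} (h : VanB T d y) : VanB T d (castV F y) := fun i hi => by
  rw [castV, h i hi, Rat.cast_zero]

/-- The component of weight `d`. -/
def Qd (T : J → ℤ) (d : ℤ) : (J → F) →ₗ[F] (J → F) where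
  toFun y i := if T i = d then y i else 0
  map_add' y z := funext fun i => by
    simp only [Pi.add_apply]
    split_ifs <;> simp
  map_smul' c y := funext fun i => by
    simp only [Pi.smul_apply, RingHom.id_apply]
    split_ifs <;> simp

theorem Qd_apply (y : J → F) (i : J) : Qd T d y i = if T i = d then y i else 0 := rfl

theorem Qd_van (h : VanB T (d + 1) y) : Qd T d y = 0 := funext fun i => by
  rw [Qd_apply]
  split_ifs with e
  · exact h i (by omega)
  · rfl

theorem van_succ (h : VanB T d y) (h' : Qd T d y = 0) : VanB T (d + 1) y := fun i hi => by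
  by_cases e : T i = d
  · have := congrFun h' i
    rwa [Qd_apply, if_pos e] at this
  · exact h i (by omega)

theorem Qd_cast (y : J → ℚ) : castV F (Qd T d y) = Qd T d (castV F y) := funext fun i => by
  rw [castV, Qd_apply, Qd_apply]
  split_ifs
  · rfl
  · exact Rat.cast_zero

theorem Qd_mulVec [Fintype J] {M : Matrix J J F} (h : grm T T M = M) (y : J → F) :
    Qd T d (M *ᵥ y) = M *ᵥ Qd T d y := funext fun i => by
  have e : ∀ j, T i ≠ T j → M i j = 0 := fun j hj => by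
    rw [← h, grm, of_apply, if_neg hj]
  rw [Qd_apply]
  simp only [mulVec, dotProduct, Qd_apply]
  split_ifs with hi
  · refine Finset.sum_congr rfl fun j _ => ?_
    split_ifs with hj
    · rfl
    · rw [e j (by omega), zero_mul, zero_mul]
  · refine (Finset.sum_eq_zero fun j _ => ?_).symm
    split_ifs with hj
    · rw [e j (by omega), zero_mul]
    · rw [mul_zero]
end van

theorem levels {I : Type} [Fintype I] [DecidableEq I] (P : (I → ℤ) → Prop) (lo : ℤ)
    (h0 : P fun _ => lo) (hs : ∀ lv i, P lv → P (Function.update lv i (lv i + 1)))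
    (k : I → ℕ) : P fun i => lo + k i := by
  induction k using WellFoundedLT.induction with
  | ind k ih =>
    by_cases h : ∀ i, k i = 0
    · simpa [h] using h0
    · obtain ⟨i, hi⟩ := not_forall.1 h
      have := hs _ i (ih (Function.update k i (k i - 1))
        (update_lt_self_iff.2 (by omega)))
      refine Eq.mp (congrArg P (funext fun j => ?_)) this
      by_cases e : j = i
      · subst e
        simp only [Function.update_self]
        omega
      · simp only [Function.update_of_ne e]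

theorem bounds {I : Type} [Fintype I] {K : I → Type} [∀ i, Fintype (K i)] (T : ∀ i, K i → ℤ) :
    ∃ (lo : ℤ) (k : ℕ), ∀ i j, lo ≤ T i j ∧ T i j < lo + k := by
  obtain ⟨M, hM⟩ := Finite.exists_le fun p : Σ i, K i => (T p.1 p.2).natAbs
  refine ⟨-M, 2 * M + 1, fun i j => ?_⟩
  have := hM ⟨i, j⟩
  dsimp only at this
  omega

variable {n : ℕ} {wt : Fin n → ℤ}

section un
variable {F : Type} [Field F]

/-- The action on tensors. -/
abbrev ra (σ : List Bool) (g : GL (Fin n) F) (y : Tn n σ F) : Tn n σ F :=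
  rho σ.get g.val g.inv *ᵥ y

theorem ra_mul (σ : List Bool) (g h : GL (Fin n) F) (y : Tn n σ F) :
    ra σ (g * h) y = ra σ g (ra σ h y) := (rho_mulVec _ _ _ _ _ _).symm

theorem ra_one (σ : List Bool) (y : Tn n σ F) : ra σ (1 : GL (Fin n) F) y = y := by
  have := rho_one (ι := Fin n) (R := F) σ.get
  exact (congrArg (· *ᵥ y) this).trans (one_mulVec y)

theorem un_one : Rais wt ((1 : GL (Fin n) F).val - 1) := fun i j _ => by
  rw [Units.val_one, sub_self, Matrix.zero_apply]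

theorem un_mul {u v : GL (Fin n) F} (hu : Rais wt (u.val - 1)) (hv : Rais wt (v.val - 1)) :
    Rais wt ((u * v).val - 1) := by
  have e : (u * v).val - 1 = (u.val - 1) * v.val + (v.val - 1) := by
    rw [Units.val_mul]
    noncomm_ring
  rw [e]
  exact (hu.mul_fil hv.fil_of_sub_one.1).add hv

theorem un_inv {u : GL (Fin n) F} (hu : Rais wt (u.val - 1)) : Rais wt ((u⁻¹).val - 1) :=
  hu.inv_sub_one u.val_inv

variable [Algebra ℚ F]

theorem exists_un {ξ : Mat n F} (h : Rais wt ξ) : ∃ u : GL (Fin n) F, Rais wt (u.val - 1) ∧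
    ∀ σ : List Bool, rho σ.get u.val u.inv = IsNilpotent.exp (drho σ.get ξ) :=
  have hn : IsNilpotent ξ := ⟨_, h.pow_card⟩
  ⟨⟨_, _, hn.exp_mul_exp_neg_self, hn.exp_neg_mul_exp_self⟩, h.exp_sub_one,
    fun _ => rho_exp _ hn⟩

theorem log_un {v : GL (Fin n) F} (h : Rais wt (v.val - 1)) : ∃ ξ : Mat n F, Rais wt ξ ∧
    ∀ σ : List Bool, rho σ.get v.val v.inv = IsNilpotent.exp (drho σ.get ξ) := by
  obtain ⟨ξ, h1, h2⟩ := exists_log h
  have hn : IsNilpotent ξ := ⟨_, h1.pow_card⟩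
  have e : v.inv = IsNilpotent.exp (-ξ) := by
    rw [← mul_one v.inv, ← hn.exp_mul_exp_neg_self, h2, ← mul_assoc, v.inv_val, one_mul]
  exact ⟨ξ, h1, fun _ => by rw [e, ← h2, rho_exp _ hn]⟩
end un

/-- A rational invertible matrix as a complex one. -/
noncomputable def cG (v : GL (Fin n) ℚ) : GL (Fin n) ℂ :=
  ⟨castM ℂ v.val, castM ℂ v.inv, by rw [← castM_mul, v.val_inv, castM_one],
    by rw [← castM_mul, v.inv_val, castM_one]⟩

theorem ra_cast (σ : List Bool) (v : GL (Fin n) ℚ) (y : Tn n σ ℚ) :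
    castV ℂ (ra σ v y) = ra σ (cG v) (castV ℂ y) := (rho_castV ℂ _ _ _ _).symm

theorem un_cast {v : GL (Fin n) ℚ} (h : Rais wt (v.val - 1)) : Rais wt ((cG v).val - 1) :=
  fun i j hij => by
    have e : (cG v).val - 1 = castM ℂ (v.val - 1) := by
      rw [castM_sub, castM_one]
      rfl
    rw [e, castM_apply, h i j hij, Rat.cast_zero]

section retr
variable {r : ℂ →+ ℚ} (r1 : ∀ q : ℚ, r q = q) (r2 : ∀ (z : ℂ) (q : ℚ), r (z * q) = r z * q)

theorem rais_retr {ξ : Mat n ℂ} (h : Rais wt ξ) : Rais wt (ξ.map r) := fun i j hij => by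
  rw [map_apply, h i j hij, map_zero]

include r2 in
theorem van_retr {σ : List Bool} {ξ : Mat n ℂ} {x : Tn n σ ℚ} {d : ℤ}
    (h : VanB (tw σ.get wt) d (drho σ.get ξ *ᵥ castV ℂ x)) :
    VanB (tw σ.get wt) d (drho σ.get (ξ.map r) *ᵥ x) := fun i hi => by
  rw [← drho_retr r r2]
  exact (congrArg r (h i hi)).trans (map_zero r)

variable {I : Type} {σ : I → List Bool}

include r1 r2 in
theorem uq_step {x y : ∀ i, Tn n (σ i) ℚ} {w : GL (Fin n) ℂ} (hw : Rais wt (w.val - 1))
    (e : ∀ i, ra (σ i) w (castV ℂ (x i)) = castV ℂ (y i)) {d : ℤ}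
    (h : ∀ i, VanB (tw (σ i).get wt) d (y i - x i)) :
    ∃ u : GL (Fin n) ℚ, Rais wt (u.val - 1) ∧
      ∀ i, VanB (tw (σ i).get wt) (d + 1) (y i - ra (σ i) u (x i)) := by
  obtain ⟨ξ, h1, h2⟩ := log_un hw
  obtain ⟨u, u1, u2⟩ := exists_un (rais_retr (r := r) h1)
  refine ⟨u, u1, fun i => ?_⟩
  have k := exp_vanB (rais_drho (σ i).get h1) (castV ℂ (x i)) d
  have e' : rho (σ i).get w.val w.inv *ᵥ castV ℂ (x i) = castV ℂ (y i) := e i
  rw [← h2, e', ← castV_sub] at k
  have k1 := k.1.2 (van_cast (h i))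
  have k2 : VanB (tw (σ i).get wt) (d + 1) (y i - x i - drho (σ i).get (ξ.map r) *ᵥ x i) :=
    fun j hj => by
      have := congrArg r (k.2 k1 j hj)
      rw [Pi.sub_apply, map_sub, castV, r1, map_zero] at this
      rw [← drho_retr r r2]
      exact this
  have k3 := (exp_vanB (rais_drho (σ i).get (rais_retr (r := r) h1)) (x i) d).2 (van_retr r2 k1)
  rw [← u2] at k3
  have := van_sub k2 k3
  rwa [sub_sub_sub_cancel_right, sub_sub_sub_cancel_right] at this

variable {G : Subgroup (GL (Fin n) ℂ)}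

theorem gr_fil (hgr : ∀ g ∈ G, grm wt wt g.val = g.val) {g : GL (Fin n) ℂ} (hg : g ∈ G) :
    Fil wt wt g.val ∧ Fil wt wt g.inv :=
  have key : ∀ g ∈ G, Fil wt wt g.val := fun g hg => hgr g hg ▸ fil_grm _
  ⟨key g hg, key g⁻¹ (inv_mem hg)⟩

theorem gr_rho (hgr : ∀ g ∈ G, grm wt wt g.val = g.val) {g : GL (Fin n) ℂ} (hg : g ∈ G)
    (s : List Bool) :
    grm (tw s.get wt) (tw s.get wt) (rho s.get g.val g.inv) = rho s.get g.val g.inv := by
  rw [grm_rho _ (gr_fil hgr hg).1 (gr_fil hgr hg).2, hgr g hg]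
  exact congrArg _ (hgr g⁻¹ (inv_mem hg))

/-- The orbit of `x` under `G` lies in the orbit of the unipotent group. -/
def HO (wt : Fin n → ℤ) (G : Subgroup (GL (Fin n) ℂ)) (x : ∀ i, Tn n (σ i) ℚ) : Prop :=
  ∀ g ∈ G, ∃ v : GL (Fin n) ℂ, Rais wt (v.val - 1) ∧
    ∀ i, ra (σ i) g (castV ℂ (x i)) = ra (σ i) v (castV ℂ (x i))

theorem HO.move (hgr : ∀ g ∈ G, grm wt wt g.val = g.val) {x : ∀ i, Tn n (σ i) ℚ}
    (h : HO wt G x) {u : GL (Fin n) ℚ} (hu : Rais wt (u.val - 1)) :
    HO wt G fun i => ra (σ i) u (x i) := fun g hg => by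
  obtain ⟨v, h1, h2⟩ := h g hg
  have h3 : Rais wt ((g * cG u * g⁻¹).val - 1) := by
    have e : (g * cG u * g⁻¹).val - 1 = g.val * ((cG u).val - 1) * g.inv := by
      rw [mul_sub, sub_mul, mul_one, g.val_inv]
      rfl
    rw [e]
    exact (un_cast hu).conj (gr_fil hgr hg).1 (gr_fil hgr hg).2
  refine ⟨g * cG u * g⁻¹ * v * (cG u)⁻¹, un_mul (un_mul h3 h1) (un_inv (un_cast hu)), fun i => ?_⟩
  rw [ra_cast, ← ra_mul, ← ra_mul, inv_mul_cancel_right, ra_mul _ _ v, ← h2, ← ra_mul,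
    inv_mul_cancel_right]

/-- Admissible raising matrices. -/
def adm (wt : Fin n → ℤ) (lv : I → ℤ) (x : ∀ i, Tn n (σ i) ℚ) : Submodule ℂ (Mat n ℂ) where
  carrier := {ξ | Rais wt ξ ∧
    ∀ i, VanB (tw (σ i).get wt) (lv i) (drho (σ i).get ξ *ᵥ castV ℂ (x i))}
  add_mem' := fun h h' => ⟨h.1.add h'.1, fun i => by
    rw [drho_add, add_mulVec]
    exact van_add (h.2 i) (h'.2 i)⟩
  zero_mem' := ⟨fun _ _ _ => rfl, fun i j _ => by rw [drho_zero, zero_mulVec, Pi.zero_apply]⟩
  smul_mem' := fun c _ h => ⟨h.1.smul c, fun i j hj => by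
    rw [drho_smul, smul_mulVec, Pi.smul_apply, h.2 i j hj, smul_zero]⟩

/-- The infinitesimal action on a fixed tensor. -/
def dl (s : List Bool) (y : Tn n s ℂ) : Mat n ℂ →ₗ[ℂ] Tn n s ℂ where
  toFun ξ := drho s.get ξ *ᵥ y
  map_add' _ _ := by rw [drho_add, add_mulVec]
  map_smul' _ _ := by rw [drho_smul, smul_mulVec, RingHom.id_apply]

theorem exists_inv (hs : SemiS (vals G)) (hgr : ∀ g ∈ G, grm wt wt g.val = g.val)
    {x : ∀ i, Tn n (σ i) ℚ} (ho : HO wt G x) {lv : I → ℤ}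
    (h : ∀ g ∈ G, ∀ i, VanB (tw (σ i).get wt) (lv i)
      (ra (σ i) g (castV ℂ (x i)) - castV ℂ (x i))) (i : I) :
    ∃ ξ ∈ adm wt lv x, Inva G (σ i).get (Qd (tw (σ i).get wt) (lv i)
      (castV ℂ (x i) + drho (σ i).get ξ *ᵥ castV ℂ (x i))) := by
  let E := (adm wt lv x).map (Qd (tw (σ i).get wt) (lv i) ∘ₗ dl (σ i) (castV ℂ (x i)))
  have conj : ∀ g ∈ G, ∀ ξ : Mat n ℂ, Rais wt ξ → ∀ j, VanB (tw (σ j).get wt) (lv j + 1)
      (drho (σ j).get (g.val * ξ * g.inv) *ᵥ castV ℂ (x j) -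
        ra (σ j) g (drho (σ j).get ξ *ᵥ castV ℂ (x j))) := fun g hg ξ hξ j => by
    rw [drho_conj _ g.val_inv g.inv_val, ← mulVec_mulVec, ← mulVec_mulVec, ← mulVec_sub,
      ← mulVec_sub]
    exact (fil_rho _ (gr_fil hgr hg).1 (gr_fil hgr hg).2).vanB
      ((rais_drho _ hξ).vanB (h g⁻¹ (inv_mem hg) j))
  obtain ⟨π, p1, p2, p3⟩ := tss G hs (σ i).get E (by
    rintro _ ⟨g, hg, rfl⟩ _ ⟨ξ, hξ, rfl⟩
    refine ⟨g.val * ξ * g.inv, ⟨hξ.1.conj (gr_fil hgr hg).1 (gr_fil hgr hg).2, fun j => ?_⟩, ?_⟩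
    · have := van_add (van_pred (conj g hg ξ hξ.1 j))
        ((fil_rho _ (gr_fil hgr hg).1 (gr_fil hgr hg).2).vanB (hξ.2 j))
      rwa [sub_add_cancel] at this
    · have := Qd_van (conj g hg ξ hξ.1 i)
      rw [map_sub, sub_eq_zero, Qd_mulVec (gr_rho hgr hg _)] at this
      exact this)
  obtain ⟨ξ, hξ, e⟩ := p2 (Qd (tw (σ i).get wt) (lv i) (castV ℂ (x i)))
  refine ⟨-ξ, neg_mem hξ, fun g hg => ?_⟩
  have m : rho (σ i).get g.val g.inv *ᵥ Qd (tw (σ i).get wt) (lv i) (castV ℂ (x i)) -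
      Qd (tw (σ i).get wt) (lv i) (castV ℂ (x i)) ∈ E := by
    obtain ⟨v, v1, v2⟩ := ho g hg
    obtain ⟨η, h1, h2⟩ := log_un v1
    have k := fun j => exp_vanB (rais_drho (σ j).get h1) (castV ℂ (x j)) (lv j)
    simp only [← h2, ← v2] at k
    have k1 := fun j => (k j).1.2 (h g hg j)
    refine ⟨η, ⟨h1, k1⟩, ?_⟩
    have := Qd_van ((k i).2 (k1 i))
    rw [map_sub, sub_eq_zero, map_sub, Qd_mulVec (gr_rho hgr hg _)] at this
    exact this.symm
  have e' : Qd (tw (σ i).get wt) (lv i) (drho (σ i).get ξ *ᵥ castV ℂ (x i)) = _ := e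
  have k := p3 _ m
  rw [mulVec_sub, mulVec_mulVec, p1 _ ⟨g, hg, rfl⟩, ← mulVec_mulVec] at k
  rw [drho_neg, neg_mulVec, map_add, map_neg, e', mulVec_add, mulVec_neg]
  linear_combination -k

include r1 r2 in
theorem levi_step [DecidableEq I] (hG : GalSt G) (hs : SemiS (vals G))
    (hgr : ∀ g ∈ G, grm wt wt g.val = g.val) {x : ∀ i, Tn n (σ i) ℚ} (ho : HO wt G x) {lv : I → ℤ}
    (h : ∀ g ∈ G, ∀ i, VanB (tw (σ i).get wt) (lv i)
      (ra (σ i) g (castV ℂ (x i)) - castV ℂ (x i))) (i : I) :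
    ∃ u : GL (Fin n) ℚ, Rais wt (u.val - 1) ∧ ∀ g ∈ G, ∀ j,
      VanB (tw (σ j).get wt) (Function.update lv i (lv i + 1) j)
        (ra (σ j) g (castV ℂ (ra (σ j) u (x j))) - castV ℂ (ra (σ j) u (x j))) := by
  obtain ⟨ξ, hξ, hi⟩ := exists_inv hs hgr ho h i
  obtain ⟨u, u1, u2⟩ := exists_un (rais_retr (r := r) hξ.1)
  have k := fun j => exp_vanB (rais_drho (σ j).get (rais_retr (r := r) hξ.1)) (x j) (lv j)
  simp only [← u2] at k
  have k1 := fun j => van_retr r2 (hξ.2 j)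
  have e : (fun j => r (Qd (tw (σ i).get wt) (lv i)
      (castV ℂ (x i) + drho (σ i).get ξ *ᵥ castV ℂ (x i)) j)) =
      Qd (tw (σ i).get wt) (lv i) (ra (σ i) u (x i)) := by
    have := Qd_van ((k i).2 (k1 i))
    rw [sub_sub, map_sub, sub_eq_zero] at this
    rw [this, ← drho_retr r r2]
    funext j
    rw [Qd_apply, Qd_apply]
    split_ifs
    · rw [Pi.add_apply, Pi.add_apply, map_add, castV, r1]
    · exact map_zero r
  have hi' : Inva G (σ i).get (castV ℂ (Qd (tw (σ i).get wt) (lv i) (ra (σ i) u (x i)))) := by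
    have := lin_span (Rat.castHom ℂ) r r2 _ (galSub_inva hG _ hi)
    rw [e] at this
    refine Submodule.span_induction (p := fun v _ => Inva G (σ i).get (castV ℂ v))
      (fun _ hv => hv) (fun g _ => ?_) (fun a b _ _ ha hb g hg => ?_) (fun c a _ ha g hg => ?_) this
    · rw [← zero_smul ℚ (0 : Tn n (σ i) ℚ), castV_smul', Rat.cast_zero, zero_smul, mulVec_zero]
    · rw [castV_add', mulVec_add, ha g hg, hb g hg]
    · rw [castV_smul', mulVec_smul, ha g hg]
  refine ⟨u, u1, fun g hg j => ?_⟩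
  have v : VanB (tw (σ j).get wt) (lv j)
      (ra (σ j) g (castV ℂ (ra (σ j) u (x j))) - castV ℂ (ra (σ j) u (x j))) := by
    have a := van_cast (F := ℂ) ((k j).1.1 (k1 j))
    have := van_sub (van_add (h g hg j)
      ((fil_rho _ (gr_fil hgr hg).1 (gr_fil hgr hg).2).vanB a)) a
    rw [castV_sub, mulVec_sub] at this
    refine Eq.mp (congrArg _ ?_) this
    abel
  by_cases hj : j = i
  · subst hj
    rw [Function.update_self]
    refine van_succ v ?_
    rw [map_sub, Qd_mulVec (gr_rho hgr hg _), ← Qd_cast, hi' g hg, sub_self]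
  · rwa [Function.update_of_ne hj]
end retr

end BLvAux

open BLvAux

theorem uq {n : ℕ} (wt : Fin n → ℤ) (us : List (TPair n))
    (h : ∃ v : GL (Fin n) ℂ, Rais wt (v.val - 1) ∧
      ∀ t ∈ us, act t.1 v.val v.inv *ᵥ castV ℂ t.2.1 = castV ℂ t.2.2) :
    ∃ v : GL (Fin n) ℚ, Rais wt (v.val - 1) ∧ ∀ t ∈ us, act t.1 v.val v.inv *ᵥ t.2.1 = t.2.2 := by
  obtain ⟨r, r1, r2⟩ := exists_retr (Rat.castHom ℂ)
  obtain ⟨w, w1, w2⟩ := h
  obtain ⟨lo, k, hb⟩ := bounds fun i : Fin us.length => tw (us.get i).1.get wt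
  have key : ∀ l : ℕ, ∃ v : GL (Fin n) ℚ, Rais wt (v.val - 1) ∧ ∀ i : Fin us.length,
      VanB (tw (us.get i).1.get wt) (lo + l) ((us.get i).2.2 - ra _ v (us.get i).2.1) := by
    intro l
    induction l with
    | zero => exact ⟨1, un_one, fun i j hj => absurd (hb i j).1 (by omega)⟩
    | succ l ih =>
      obtain ⟨v, v1, v2⟩ := ih
      obtain ⟨u, u1, u2⟩ := uq_step r1 r2 (σ := fun i : Fin us.length => (us.get i).1)
        (un_mul w1 (un_inv (un_cast v1))) (fun i => by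
          rw [ra_cast, ← ra_mul, inv_mul_cancel_right]
          exact w2 _ (List.get_mem us i)) v2
      refine ⟨u * v, un_mul u1 v1, fun i => ?_⟩
      rw [ra_mul, Nat.cast_succ, ← add_assoc]
      exact u2 i
  obtain ⟨v, v1, v2⟩ := key k
  refine ⟨v, v1, fun t ht => ?_⟩
  obtain ⟨i, rfl⟩ := List.get_of_mem ht
  exact (sub_eq_zero.1 (funext fun j => v2 i j (hb i j).2)).symm

theorem levi {n : ℕ} (wt : Fin n → ℤ) (ts : List (OT n)) (G : Subgroup (GL (Fin n) ℂ))
    (hG : GalSt G) (hs : SemiS (vals G)) (hgr : ∀ g ∈ G, grm wt wt g.val = g.val)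
    (ho : ∀ g ∈ G, ∃ v : GL (Fin n) ℂ, Rais wt (v.val - 1) ∧ ∀ t ∈ ts,
      act t.1 g.val g.inv *ᵥ castV ℂ t.2 = act t.1 v.val v.inv *ᵥ castV ℂ t.2) :
    ∃ v : GL (Fin n) ℚ, Rais wt (v.val - 1) ∧ ∀ g ∈ G, ∀ t ∈ ts,
      act t.1 g.val g.inv *ᵥ castV ℂ (act t.1 v.val v.inv *ᵥ t.2) =
        castV ℂ (act t.1 v.val v.inv *ᵥ t.2) := by
  obtain ⟨r, r1, r2⟩ := exists_retr (Rat.castHom ℂ)
  obtain ⟨lo, k, hb⟩ := bounds fun i : Fin ts.length => tw (ts.get i).1.get wt
  have ho' : HO wt G fun i : Fin ts.length => (ts.get i).2 := fun g hg =>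
    (ho g hg).imp fun v hv => ⟨hv.1, fun i => hv.2 _ (List.get_mem ts i)⟩
  obtain ⟨v, v1, v2⟩ := levels (fun lv : Fin ts.length → ℤ => ∃ v : GL (Fin n) ℚ,
    Rais wt (v.val - 1) ∧ ∀ g ∈ G, ∀ i, VanB (tw (ts.get i).1.get wt) (lv i)
      (ra _ g (castV ℂ (ra _ v (ts.get i).2)) - castV ℂ (ra _ v (ts.get i).2))) lo
    ⟨1, un_one, fun _ _ i j hj => absurd (hb i j).1 (not_le.2 hj)⟩
    (by
      rintro lv i ⟨v, v1, v2⟩
      obtain ⟨u, u1, u2⟩ := levi_step r1 r2 hG hs hgr (ho'.move hgr v1) v2 i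
      refine ⟨u * v, un_mul u1 v1, fun g hg j => ?_⟩
      rw [ra_mul]
      exact u2 g hg j) fun _ => k
  refine ⟨v, v1, fun g hg t ht => ?_⟩
  obtain ⟨i, rfl⟩ := List.get_of_mem ht
  exact sub_eq_zero.1 (funext fun j => v2 g hg i j (hb i j).2)

end Pool.Agent.P.MP_257122_al
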