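import Pool.Agent.P.MP_257122_al.BRad
import Pool.Agent.P.MP_257122_al.BFlag
import Pool.Agent.P.MP_257122_al.BLv
import Pool.Agent.P.MP_257122_al.BIso

/-!
# Adapted coordinates

PLAN.  `pre_adapt`: `H` from `exists_autG`, `W` from `radical`, `W' k = α₀ (W k)`; it equals
`α (W k)` for every isomorphism `α` (`TIso.aut`), hence is `GalSub` (`TIso.map`).  `flag` for `W`
and `W'` gives `p`, `w`, `p'`, `w'`; use `tiso_tr`, `fil_of_vanB` (all weights are nonnegative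
because `W 0 = ⊤`), and `AutP (trT p p' us) h ↔ AutP us (p h p⁻¹)`.
`post_adapt`: automorphisms are filtered (`TIso.mul_aut`, `Fil.mul`).  `G` = units whose value is
`grm h.val` and inverse `grm h.inv` for some automorphism `h` (a subgroup by `grm_mul`, `GalSt`
by `grm_map`).  `levi` for `ts1 us` (with `v = gr(h) h⁻¹`, `rais_iff`) gives `v₁`.  The tensors
`ū t = gr(α) v₁ u` do not depend on `α` (`gr α₂ = gr α₁ gr (α₁⁻¹ α₂)`), so they are rational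
(`ratV_of_fixed`); `u' = (α v₁⁻¹ gr(α)⁻¹) ū`, and `uq` for the pairs `(ū, u')` gives `v₂`.  Take
`v = v₁⁻¹`, `v' = v₂`: the new isomorphisms are `v₂⁻¹ α v₁⁻¹`, with the same graded part, which
carries `v₁ u` to `ū = v₂⁻¹ u'`.  The graded automorphisms of `v₁ u` are exactly `G`.
-/

namespace Pool.Agent.P.MP_257122_al

open Matrix

variable {n : ℕ} {us : List (TPair n)}

namespace BAdaptAux

variable {w w' w'' : Fin n → ℤ}

/-- the action of an invertible matrix on tensors -/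
noncomputable def ac (σ : List Bool) (g : GL (Fin n) ℂ) (u : Tn n σ ℂ) : Tn n σ ℂ :=
  act σ g.val g.inv *ᵥ u

theorem ac_mul (σ : List Bool) (g h : GL (Fin n) ℂ) (u : Tn n σ ℂ) :
    ac σ (g * h) u = ac σ g (ac σ h u) := (rho_mulVec σ.get _ _ _ _ u).symm

theorem ac_one (σ : List Bool) (u : Tn n σ ℂ) : ac σ 1 u = u :=
  (congrArg (· *ᵥ u) (rho_one σ.get)).trans (one_mulVec u)

theorem ac_inv (σ : List Bool) (g : GL (Fin n) ℂ) (u : Tn n σ ℂ) : ac σ g⁻¹ (ac σ g u) = u := by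
  rw [← ac_mul, inv_mul_cancel, ac_one]

theorem ac_inv' (σ : List Bool) (g : GL (Fin n) ℂ) (u : Tn n σ ℂ) : ac σ g (ac σ g⁻¹ u) = u := by
  rw [← ac_mul, mul_inv_cancel, ac_one]

/-- a rational invertible matrix as a complex one -/
noncomputable def cG (p : GL (Fin n) ℚ) : GL (Fin n) ℂ :=
  ⟨castM ℂ p.val, castM ℂ p.inv, by rw [← castM_mul, p.val_inv, castM_one],
    by rw [← castM_mul, p.inv_val, castM_one]⟩

theorem ac_cG (σ : List Bool) (p : GL (Fin n) ℚ) (u : Tn n σ ℚ) :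
    castV ℂ (act σ p.val p.inv *ᵥ u) = ac σ (cG p) (castV ℂ u) :=
  (rho_castV ℂ σ.get _ _ u).symm

theorem ac_cG' (σ : List Bool) (p : GL (Fin n) ℚ) (u : Tn n σ ℚ) :
    castV ℂ (act σ p.inv p.val *ᵥ u) = ac σ (cG p)⁻¹ (castV ℂ u) :=
  (rho_castV ℂ σ.get _ _ u).symm

theorem autP_tr (p p' : GL (Fin n) ℚ) (h : GL (Fin n) ℂ) :
    AutP (trT p p' us) h ↔ AutP us (cG p * h * (cG p)⁻¹) := by
  simp only [AutP, trT, List.forall_mem_map]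
  refine forall₂_congr fun t _ => ?_
  change ac t.1 h _ = _ ↔ ac t.1 _ _ = _
  rw [ac_cG', ac_mul, ac_mul]
  exact ⟨fun e => by rw [e, ac_inv'], fun e => by rw [← ac_inv t.1 (cG p) (ac t.1 h _), e]⟩

theorem tiso_iff (b : GL (Fin n) ℂ) :
    TIso ℂ us b.val b.inv ↔ ∀ t ∈ us, ac t.1 b (castV ℂ t.2.1) = castV ℂ t.2.2 :=
  ⟨fun h => h.2.2, fun h => ⟨b.val_inv, b.inv_val, h⟩⟩

theorem fil_nat {x : Mat n ℂ} (h0 : ∀ v : Fin n → ℂ, VanB w' (0 : ℕ) v)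
    (h : ∀ (k : ℕ) v, VanB w k v → VanB w' k (x *ᵥ v)) : Fil w' w x := by
  refine fil_of_vanB fun d v hv => ?_
  rcases le_total 0 d with hd | hd
  · lift d to ℕ using hd
    exact h d v hv
  · exact fun i hi => h0 _ i (hi.trans_le hd)

theorem map_mulVec {ι κ : Type} [Fintype ι] (τ : ℂ ≃+* ℂ) (x : Matrix κ ι ℂ) (v : ι → ℂ) :
    (fun i => τ ((x *ᵥ v) i)) = x.map τ *ᵥ fun i => τ (v i) :=
  funext fun i => RingHom.map_mulVec (τ : ℂ →+* ℂ) x v i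

theorem rais_of {x : Mat n ℂ} (h1 : Fil w w x) (h2 : grm w w x = 1) : Rais w (x - 1) :=
  rais_iff.2 ⟨fun i j hij => by rw [Matrix.sub_apply, h1 i j hij, fil_one i j hij, sub_zero],
    by rw [grm_sub, h2, grm_one, sub_self]⟩

/-- filtered with filtered inverse -/
def FU (w' w : Fin n → ℤ) (a : GL (Fin n) ℂ) : Prop := Fil w' w a.val ∧ Fil w w' a.inv

theorem FU.mul {a b : GL (Fin n) ℂ} (ha : FU w'' w' a) (hb : FU w' w b) : FU w'' w (a * b) :=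
  ⟨ha.1.mul hb.1, hb.2.mul ha.2⟩

theorem FU.inv {a : GL (Fin n) ℂ} (ha : FU w' w a) : FU w w' a⁻¹ := ⟨ha.2, ha.1⟩

/-- the graded part -/
noncomputable def FU.gr {a : GL (Fin n) ℂ} (ha : FU w' w a) : GL (Fin n) ℂ :=
  ⟨grm w' w a.val, grm w w' a.inv, by rw [← grm_mul ha.1 ha.2, a.val_inv, grm_one],
    by rw [← grm_mul ha.2 ha.1, a.inv_val, grm_one]⟩

theorem FU.gr_mul {a b : GL (Fin n) ℂ} (ha : FU w'' w' a) (hb : FU w' w b) :
    (ha.mul hb).gr = ha.gr * hb.gr := Units.ext (grm_mul ha.1 hb.1)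

theorem FU.gr_inv {a : GL (Fin n) ℂ} (ha : FU w' w a) : ha.inv.gr = ha.gr⁻¹ := rfl

theorem FU.fu {a : GL (Fin n) ℂ} (ha : FU w' w a) : FU w' w ha.gr := ⟨fil_grm _, fil_grm _⟩

theorem FU.gr_gr {a : GL (Fin n) ℂ} (ha : FU w' w a) : ha.fu.gr = ha.gr := Units.ext (grm_grm _)

theorem FU.gr_congr {a b : GL (Fin n) ℂ} (ha : FU w' w a) (hb : FU w' w b) (e : a = b) :
    ha.gr = hb.gr := by
  subst e
  rfl

theorem FU.rais {a : GL (Fin n) ℂ} (ha : FU w w a) (h : ha.gr = 1) : Rais w (a.val - 1) :=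
  rais_of ha.1 (congrArg Units.val h)

theorem uni {v : GL (Fin n) ℚ} (h : Rais w (v.val - 1)) : ∃ h : FU w w (cG v), h.gr = 1 := by
  have h1 : Rais w ((cG v).val - 1) := fun i j hij => by
    have e : (cG v).val - 1 = castM ℂ (v.val - 1) := by rw [castM_sub, castM_one]; rfl
    rw [e, castM_apply, h i j hij, Rat.cast_zero]
  exact ⟨⟨h1.fil_of_sub_one.1, (h1.inv_sub_one (cG v).val_inv).fil_of_sub_one.1⟩,
    Units.ext h1.fil_of_sub_one.2⟩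

theorem exists_grG (H : Subgroup (GL (Fin n) ℂ)) (hH : GalSt H) (hF : ∀ h ∈ H, FU w w h) :
    ∃ G : Subgroup (GL (Fin n) ℂ), (∀ g, g ∈ G ↔ ∃ h, ∃ hh : h ∈ H, g = (hF h hh).gr) ∧
      GalSt G := by
  refine ⟨⟨⟨⟨{g | ∃ h, ∃ hh : h ∈ H, g = (hF h hh).gr}, ?_⟩, 1, H.one_mem, Units.ext grm_one.symm⟩,
    ?_⟩, fun _ => Iff.rfl, ?_⟩
  · rintro _ _ ⟨a, ha, rfl⟩ ⟨b, hb, rfl⟩
    exact ⟨a * b, H.mul_mem ha hb, (FU.gr_mul _ _).symm⟩
  · rintro _ ⟨a, ha, rfl⟩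
    exact ⟨a⁻¹, H.inv_mem ha, rfl⟩
  · rintro τ _ ⟨a, ha, rfl⟩
    obtain ⟨b, hb, e⟩ := hH τ a ha
    refine ⟨_, ⟨b, hb, rfl⟩, ?_⟩
    change grm w w b.val = (grm w w a.val).map τ
    rw [grm_map _ (map_zero τ), e]

end BAdaptAux

open BAdaptAux

theorem pre_adapt (h : ∃ α α', TIso ℂ us α α') :
    ∃ (p p' : GL (Fin n) ℚ) (w w' : Fin n → ℤ), PreAd (trT p p' us) w w' := by
  obtain ⟨α₀, α₀', h₀⟩ := h
  obtain ⟨H, hH, hg⟩ := exists_autG us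
  obtain ⟨K, W, h1, h2, h3, h4, h5, h6⟩ := radical H hg
  obtain ⟨W', hW'⟩ : ∃ W' : ℕ → Submodule ℂ (Fin n → ℂ), ∀ k v, v ∈ W' k ↔ α₀' *ᵥ v ∈ W k :=
    ⟨fun k => (W k).comap α₀'.mulVecLin, fun _ _ => Iff.rfl⟩
  have key : ∀ α α', TIso ℂ us α α' → ∀ k v, v ∈ W' k ↔ α' *ᵥ v ∈ W k := fun α α' h k v => by
    obtain ⟨g, g1, g2, g3⟩ := h₀.aut h
    rw [hW']
    refine ⟨fun e => ?_, fun e => ?_⟩
    · have e1 : g.inv *ᵥ (α₀' *ᵥ v) ∈ W k := h5 k g⁻¹ (H.inv_mem ((hH g).2 g1)) _ e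
      rwa [g3, mulVec_mulVec, mul_assoc, h₀.1, mul_one] at e1
    · have e1 := h5 k g ((hH g).2 g1) _ e
      rwa [g2, mulVec_mulVec, mul_assoc, h.1, mul_one] at e1
  have h2' : W' 0 = ⊤ := eq_top_iff.2 fun v _ => (hW' 0 v).2 (h2 ▸ Submodule.mem_top)
  obtain ⟨p, w, hp⟩ := flag K W h1 h2 h3 h4
  obtain ⟨p', w', hp'⟩ := flag K W' (fun a b e v hv => (hW' a v).2 (h1 e ((hW' b v).1 hv))) h2'
    (eq_bot_iff.2 fun v hv => by
      have e := (hW' K v).1 hv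
      rw [h3, Submodule.mem_bot] at e
      rw [Submodule.mem_bot, ← one_mulVec v, ← h₀.1, ← mulVec_mulVec, e, mulVec_zero])
    fun k τ v hv => (key _ _ (h₀.map τ) k _).2 (map_mulVec τ α₀' v ▸ h4 k τ _ ((hW' k v).1 hv))
  have e1 : castM ℂ p.val * castM ℂ p.inv = 1 := (cG p).val_inv
  have e2 : castM ℂ p'.val * castM ℂ p'.inv = 1 := (cG p').val_inv
  have e3 : castM ℂ p'.inv * castM ℂ p'.val = 1 := (cG p').inv_val
  refine ⟨p, p', w, w', ⟨castM ℂ p'.inv * α₀ * castM ℂ p.val, castM ℂ p.inv * α₀' * castM ℂ p'.val,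
    (tiso_tr _ _ _ _).2 ?_⟩, fun α α' h => ?_, ?_⟩
  · simp only [← mul_assoc, e1, e2, one_mul]
    simp only [mul_assoc, e1, e2, mul_one]
    exact h₀
  · have e4 : ∀ (k : ℕ) v, VanB w' k v ↔ VanB w k (α' *ᵥ v) := fun k v => by
      rw [← hp, ← hp', key _ _ ((tiso_tr _ _ _ _).1 h), mulVec_mulVec, mulVec_mulVec, mul_assoc, e3,
        mul_one]
    refine ⟨fil_nat (fun v => (hp' 0 v).1 (h2' ▸ Submodule.mem_top)) fun k v hv => (e4 k _).2 ?_,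
      fil_nat (fun v => (hp 0 v).1 (h2 ▸ Submodule.mem_top)) fun k v => (e4 k v).1⟩
    rwa [mulVec_mulVec, h.2.1, one_mulVec]
  · refine (congrArg SemiS (Set.ext fun x => ⟨?_, ?_⟩)).mp (h6 (cG p) w hp)
    · rintro ⟨g, g1, rfl⟩
      refine ⟨(cG p)⁻¹ * g * cG p, (autP_tr _ _ _).2 ?_, rfl⟩
      rw [show cG p * ((cG p)⁻¹ * g * cG p) * (cG p)⁻¹ = g by group]
      exact (hH g).1 g1
    · rintro ⟨g, g1, rfl⟩
      refine ⟨_, (hH _).2 ((autP_tr _ _ _).1 g1), congrArg (grm w w) ?_⟩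
      exact congrArg Units.val (show (cG p)⁻¹ * (cG p * g * (cG p)⁻¹) * cG p = g by group)

theorem post_adapt {w w' : Fin n → ℤ} (h : PreAd us w w') :
    ∃ v v' : GL (Fin n) ℚ, Adapted (trT v v' us) w w' := by
  obtain ⟨⟨α₀, α₀', h₀⟩, hF, hS⟩ := h
  obtain ⟨a₀, rfl, rfl⟩ : ∃ a : GL (Fin n) ℂ, a.val = α₀ ∧ a.inv = α₀' :=
    ⟨⟨α₀, α₀', h₀.1, h₀.2.1⟩, rfl, rfl⟩
  replace hF : ∀ a : GL (Fin n) ℂ, TIso ℂ us a.val a.inv → FU w' w a := fun a => hF _ _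
  obtain ⟨H, hH, hg⟩ := exists_autG us
  have hFH : ∀ g ∈ H, FU w w g := fun g h => by
    have e := (hF a₀ h₀).inv.mul (hF (a₀ * g) (h₀.mul_aut ((hH g).1 h)))
    rwa [inv_mul_cancel_left] at e
  obtain ⟨G, hG, hg'⟩ := exists_grG H hg hFH
  have hS' : SemiS (vals G) := by
    refine (congrArg SemiS (Set.ext fun x => ⟨?_, ?_⟩)).mp hS
    · rintro ⟨g, g1, rfl⟩
      exact ⟨_, (hG _).2 ⟨g, (hH g).2 g1, rfl⟩, rfl⟩
    · rintro ⟨g, g1, rfl⟩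
      obtain ⟨k, k1, rfl⟩ := (hG g).1 g1
      exact ⟨k, (hH k).1 k1, rfl⟩
  obtain ⟨v₁, r1, f1⟩ := levi w (ts1 us) G hg' hS' (fun g h => by
      obtain ⟨k, k1, rfl⟩ := (hG g).1 h
      exact grm_grm _) fun g h => by
    obtain ⟨k, k1, rfl⟩ := (hG g).1 h
    refine ⟨(hFH k k1).gr * k⁻¹, ((hFH k k1).fu.mul (hFH k k1).inv).rais ?_, ?_⟩
    · rw [(hFH k k1).fu.gr_mul (hFH k k1).inv, (hFH k k1).gr_gr, (hFH k k1).gr_inv, mul_inv_cancel]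
    · simp only [ts1, List.forall_mem_map]
      intro t ht
      have e : ac t.1 k⁻¹ _ = _ := (hH _).1 (H.inv_mem k1) t ht
      change ac t.1 _ _ = ac t.1 _ _
      rw [ac_mul, e]
  simp only [ts1, List.forall_mem_map, ac_cG] at f1
  replace f1 : ∀ g ∈ G, ∀ t ∈ us, ac t.1 g (ac t.1 (cG v₁) (castV ℂ t.2.1)) =
    ac t.1 (cG v₁) (castV ℂ t.2.1) := f1
  obtain ⟨u1, u1'⟩ := uni r1
  have ind : ∀ a (h : TIso ℂ us a.val a.inv), ∀ t ∈ us,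
      ac t.1 (hF a h).gr (ac t.1 (cG v₁) (castV ℂ t.2.1)) =
        ac t.1 (hF a₀ h₀).gr (ac t.1 (cG v₁) (castV ℂ t.2.1)) := fun a h t ht => by
    obtain ⟨g, g1, g2, -⟩ := h₀.aut h
    have e : a = a₀ * g := by
      rw [show g = a₀⁻¹ * a from Units.ext g2, mul_inv_cancel_left]
    have g3 := (hH g).2 g1
    rw [(hF a h).gr_congr ((hF a₀ h₀).mul (hFH g g3)) e, (hF a₀ h₀).gr_mul (hFH g g3), ac_mul,
      f1 _ ((hG _).2 ⟨g, g3, rfl⟩) t ht]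
  have hrat : ∀ t : TPair n, ∃ x : Tn n t.1 ℚ, t ∈ us →
      castV ℂ x = ac t.1 (hF a₀ h₀).gr (ac t.1 (cG v₁) (castV ℂ t.2.1)) := fun t => by
    by_cases ht : t ∈ us
    · refine (ratV_of_fixed fun τ => ?_).imp fun x hx _ => hx
      have h1 := h₀.map τ
      refine Eq.trans ?_ (ind ⟨_, _, h1.1, h1.2.1⟩ h1 t ht)
      rw [← ac_cG]
      refine (map_mulVec τ _ _).trans ?_
      have e : (fun i => τ (castV ℂ (act t.1 v₁.val v₁.inv *ᵥ t.2.1) i)) =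
          castV ℂ (act t.1 v₁.val v₁.inv *ᵥ t.2.1) := funext fun i => map_ratCast τ _
      rw [e, act_eq_rho, rho_map]
      change rho _ ((grm w' w _).map τ) ((grm w w' _).map τ) *ᵥ _ = _
      rw [grm_map _ (map_zero τ), grm_map _ (map_zero τ)]
      rfl
    · exact ⟨0, fun h => absurd h ht⟩
  choose ub hub using hrat
  obtain ⟨v₂, r2, f2⟩ := uq w' (us.map fun t => ⟨t.1, ub t, t.2.2⟩)
    ⟨a₀ * (cG v₁)⁻¹ * (hF a₀ h₀).gr⁻¹,
      (((hF a₀ h₀).mul u1.inv).mul (hF a₀ h₀).fu.inv).rais (by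
        rw [((hF a₀ h₀).mul u1.inv).gr_mul (hF a₀ h₀).fu.inv, (hF a₀ h₀).gr_mul u1.inv, u1.gr_inv,
          (hF a₀ h₀).fu.gr_inv, (hF a₀ h₀).gr_gr, u1', inv_one, mul_one, mul_inv_cancel]), by
      simp only [List.forall_mem_map]
      intro t ht
      change ac t.1 _ _ = _
      rw [hub t ht, ac_mul, ac_mul, ac_inv, ac_inv]
      exact h₀.2.2 t ht⟩
  simp only [List.forall_mem_map] at f2
  obtain ⟨u2, u2'⟩ := uni r2
  have f3 : ∀ t ∈ us, ac t.1 (cG v₂) (castV ℂ (ub t)) = castV ℂ t.2.2 := fun t ht => by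
    rw [← ac_cG, f2 t ht]
  have hT : ∀ b : GL (Fin n) ℂ, TIso ℂ (trT v₁⁻¹ v₂ us) b.val b.inv ↔
      ∀ t ∈ us, ac t.1 b (ac t.1 (cG v₁) (castV ℂ t.2.1)) = castV ℂ (ub t) := fun b => by
    rw [tiso_iff]
    simp only [trT, List.forall_mem_map]
    refine forall₂_congr fun t ht => ?_
    rw [ac_cG', ac_cG', ← f3 t ht, ac_inv]
    rfl
  refine ⟨v₁⁻¹, v₂, ⟨_, _, (hT (hF a₀ h₀).gr).2 fun t ht => (hub t ht).symm⟩,
    fun β β' h => ?_, ?_⟩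
  · obtain ⟨b, rfl, rfl⟩ : ∃ b : GL (Fin n) ℂ, b.val = β ∧ b.inv = β' :=
      ⟨⟨β, β', h.1, h.2.1⟩, rfl, rfl⟩
    have h1 : TIso ℂ us (cG v₂ * b * cG v₁).val (cG v₂ * b * cG v₁).inv :=
      (tiso_iff _).2 fun t ht => by rw [ac_mul, ac_mul, (hT b).1 h t ht, f3 t ht]
    have e : (cG v₂)⁻¹ * (cG v₂ * b * cG v₁) * (cG v₁)⁻¹ = b := by group
    have h2 := (u2.inv.mul (hF _ h1)).mul u1.inv
    have h3 : FU w' w b := e ▸ h2
    refine ⟨h3.1, h3.2, (hT h3.gr).2 fun t ht => ?_⟩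
    rw [h3.gr_congr h2 e.symm, (u2.inv.mul (hF _ h1)).gr_mul u1.inv, u2.inv.gr_mul (hF _ h1),
      u1.gr_inv, u2.gr_inv, u1', u2', inv_one, one_mul, mul_one, ind _ h1 t ht, hub t ht]
  · have hA : ∀ g, AutP (trT v₁⁻¹ v₂ us) g ↔ ∀ t ∈ us,
        ac t.1 g (ac t.1 (cG v₁) (castV ℂ t.2.1)) = ac t.1 (cG v₁) (castV ℂ t.2.1) := fun g => by
      simp only [AutP, trT, List.forall_mem_map, ac_cG']
      rfl
    refine (congrArg SemiS (Set.ext fun x => ⟨?_, ?_⟩)).mp hS'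
    · rintro ⟨g, g1, rfl⟩
      refine ⟨g, ⟨(hA g).2 (f1 g g1), ?_⟩, rfl⟩
      obtain ⟨k, k1, rfl⟩ := (hG g).1 g1
      exact ⟨grm_grm _, grm_grm _⟩
    · rintro ⟨g, ⟨g1, g2, g3⟩, rfl⟩
      have h1 : FU w w g := ⟨g2 ▸ fil_grm _, g3 ▸ fil_grm _⟩
      have h2 : (cG v₁)⁻¹ * g * cG v₁ ∈ H := (hH _).2 fun t ht => by
        change ac t.1 _ _ = _
        rw [ac_mul, ac_mul, (hA g).1 g1 t ht, ac_inv]
      refine ⟨g, (hG g).2 ⟨_, h2, ?_⟩, rfl⟩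
      refine Eq.trans ?_ ((u1.inv.mul h1).gr_mul u1).symm
      rw [u1.inv.gr_mul h1, u1.gr_inv, u1', inv_one, one_mul, mul_one]
      exact Units.ext g2.symm

theorem adapt (h : ∃ α α', TIso ℂ us α α') :
    ∃ (p p' : GL (Fin n) ℚ) (w w' : Fin n → ℤ), Adapted (trT p p' us) w w' := by
  obtain ⟨p, p', w, w', h1⟩ := pre_adapt h
  obtain ⟨v, v', h2⟩ := post_adapt h1
  rw [trT_trT] at h2
  exact ⟨_, _, w, w', h2⟩

end Pool.Agent.P.MP_257122_al
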