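import Pool.Agent.P.MP_257122_al.BEps

/-!
# The rational projectors and the raising matrices

PLAN.  `exists_pi`: `proj_field` with `K = ℚ`, `j = Rat.castHom ℂ`, `U = qspan Λ`, `U' = qspan Λ'`
(members of `CSpan (HomS Λ Λ')` carry `cx j U` into `cx j U'`).  An element of `qspan Λ` has a
positive integer multiple in `Λ`; let `m₀` be the product of these integers for the columns of
both projectors and of the two moduli given by `Red`.
`exists_al`: the complex subspace `W` of all `x` as in the last clause is stable under all `τ`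
(`cspan_map`), so `gal_descentM` applies; take a basis `l` of its rational points (they lie in
the rational spans by `mem_span_of_cspan`), extend the coordinate functions to all matrices
(`LinearMap.exists_extend`) and write them as `mdot c`; the identity `InAl` is linear in `x`.
-/

namespace Pool.Agent.P.MP_257122_al

open Matrix

variable {n r : ℕ}

namespace BAlAux

theorem carry {Λ Λ' : AddSubgroup (Fin n → ℚ)} {x : Mat n ℂ} (hx : x ∈ CSpan (HomS Λ Λ'))
    {v : Fin n → ℂ} (hv : v ∈ cx (Rat.castHom ℂ) (qspan Λ)) :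
    x *ᵥ v ∈ cx (Rat.castHom ℂ) (qspan Λ') := by
  rw [qspan, cx_span] at hv ⊢
  induction hx using Submodule.span_induction with
  | mem x hx =>
    obtain ⟨y, hy, rfl⟩ := hx
    induction hv using Submodule.span_induction with
    | mem v hv =>
      obtain ⟨u, hu, rfl⟩ := hv
      exact Submodule.subset_span ⟨_, hy u hu, (castM_mulVec ℂ y u).symm⟩
    | zero => rw [mulVec_zero]; exact zero_mem _
    | add u v _ _ hu hv => rw [mulVec_add]; exact add_mem hu hv
    | smul c v _ hv => rw [mulVec_smul]; exact Submodule.smul_mem _ c hv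
  | zero => rw [zero_mulVec]; exact zero_mem _
  | add x y _ _ hx hy => rw [add_mulVec]; exact add_mem hx hy
  | smul c x _ hx => rw [smul_mulVec]; exact Submodule.smul_mem _ c hx

theorem mult {Λ : AddSubgroup (Fin n → ℚ)} {x : Fin n → ℚ} (hx : x ∈ qspan Λ) :
    ∃ k : ℕ, 0 < k ∧ (k : ℚ) • x ∈ Λ := by
  induction hx using Submodule.span_induction with
  | mem x hx => exact ⟨1, one_pos, by simpa using hx⟩
  | zero => exact ⟨1, one_pos, by simp⟩
  | add x y _ _ hx hy =>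
    obtain ⟨k, hk, h⟩ := hx
    obtain ⟨l, hl, h'⟩ := hy
    refine ⟨k * l, mul_pos hk hl, ?_⟩
    rw [smul_add, Nat.cast_mul]
    refine add_mem ?_ ?_
    · rw [mul_comm, mul_smul, Nat.cast_smul_eq_nsmul]
      exact nsmul_mem h l
    · rw [mul_smul, Nat.cast_smul_eq_nsmul]
      exact nsmul_mem h' k
  | smul c x _ hx =>
    obtain ⟨k, hk, h⟩ := hx
    refine ⟨k * c.den, mul_pos hk c.den_pos, ?_⟩
    rw [smul_smul, Nat.cast_mul, mul_assoc, Rat.den_mul_eq_num, mul_comm, mul_smul,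
      Int.cast_smul_eq_zsmul]
    exact zsmul_mem h _

theorem globC {Λ : AddSubgroup (Fin n → ℚ)} (hr : Red Λ) {π : Mat n ℚ}
    (h1 : ∀ x, π *ᵥ x ∈ qspan Λ) (h2 : ∀ x ∈ qspan Λ, π *ᵥ x = x) :
    ∃ k : ℕ, 0 < k ∧ ∀ m, k ∣ m → GlobC m Λ π := by
  obtain ⟨m₁, hm₁, h⟩ := hr
  choose k hk e using fun j : Fin n => mult (h1 (Pi.single j 1))
  refine ⟨m₁ * ∏ j, k j, mul_pos hm₁ (Finset.prod_pos fun j _ => hk j), fun m hm =>
    ⟨fun x hx => h2 x (Submodule.subset_span hx), fun x hx i p hp hd =>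
      (h x hx i p hp hd).trans ((dvd_mul_right _ _).trans hm), fun j => ?_⟩⟩
  have h3 : ((k j : ℚ))⁻¹ ∈ Zinv m := fun p _ hd => by
    rw [Rat.inv_natCast_den_of_pos (hk j)] at hd
    exact hd.trans (((Finset.dvd_prod_of_mem _ (Finset.mem_univ j)).mul_left _).trans hm)
  have h4 := (glob m Λ).smul_mem ⟨_, h3⟩ (Submodule.subset_span (e j))
  rwa [Subring.smul_def, inv_smul_smul₀ (Nat.cast_ne_zero.2 (hk j).ne')] at h4

theorem mdot_eq (g : Mat n ℚ →ₗ[ℚ] ℚ) (x : Mat n ℚ) :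
    mdot (Matrix.of fun i j => g (single i j 1)) x = g x := by
  conv_rhs => rw [matrix_eq_sum_single x]
  simp only [mdot, map_sum, of_apply]
  refine Finset.sum_congr rfl fun i _ => Finset.sum_congr rfl fun j _ => ?_
  rw [mul_comm, ← smul_eq_mul, ← map_smul, smul_single, smul_eq_mul, mul_one]

/-- Raising matrices in all complex spans. -/
def spW (Ls : List (LPair n)) (w : Fin n → ℤ) : Submodule ℂ (Mat n ℂ) where
  carrier := {x | Rais w x ∧ ∀ L ∈ Ls, x ∈ CSpan (HomS L.2 L.2)}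
  zero_mem' := ⟨fun _ _ _ => rfl, fun _ _ => zero_mem _⟩
  add_mem' := fun hx hy => ⟨hx.1.add hy.1, fun L hL => add_mem (hx.2 L hL) (hy.2 L hL)⟩
  smul_mem' := fun c _ hx => ⟨hx.1.smul c, fun L hL => Submodule.smul_mem _ c (hx.2 L hL)⟩

/-- Rational points. -/
def ratP (W : Submodule ℂ (Mat n ℂ)) : Submodule ℚ (Mat n ℚ) where
  carrier := {x | castM ℂ x ∈ W}
  zero_mem' := by
    change castM ℂ 0 ∈ W
    rw [castM_zero]; exact zero_mem _
  add_mem' := fun {x y} hx hy => by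
    change castM ℂ (x + y) ∈ W
    rw [castM_add]; exact add_mem hx hy
  smul_mem' := fun c x hx => by
    change castM ℂ (c • x) ∈ W
    rw [castM_smul]; exact W.smul_mem _ hx

end BAlAux

open BAlAux

theorem exists_pi {G : Subgroup (GL (Fin n) ℂ)} {β : GL (Fin n) ℂ} {Y Y' : Fin r → Mat n ℚ}
    (hs : SemiS (vals G)) (hE : EOk G β Y Y') {Λ Λ' : AddSubgroup (Fin n → ℚ)}
    (hG : ∀ g ∈ G, g.val ∈ CSpan (HomS Λ Λ)) (hβ : β.val ∈ CSpan (HomS Λ Λ'))
    (hβ' : β.inv ∈ CSpan (HomS Λ' Λ)) (hr : Red Λ) (hr' : Red Λ') :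
    ∃ (a : Fin r → ℚ) (m₀ : ℕ), 0 < m₀ ∧ (∀ x, cmb ℚ a Y *ᵥ x ∈ qspan Λ) ∧
      (∀ x, cmb ℚ a Y' *ᵥ x ∈ qspan Λ') ∧
      ∀ m, m₀ ∣ m → GlobC m Λ (cmb ℚ a Y) ∧ GlobC m Λ' (cmb ℚ a Y') := by
  obtain ⟨a, ⟨h1, h2⟩, h3, h4⟩ := proj_field (Rat.castHom ℂ) hs hE (U := qspan Λ) (U' := qspan Λ')
    (fun g hg _ => carry (hG g hg)) (fun _ => carry hβ) fun _ => carry hβ'
  obtain ⟨k, hk, e⟩ := globC hr h1 h2
  obtain ⟨k', hk', e'⟩ := globC hr' h3 h4
  exact ⟨a, k * k', mul_pos hk hk', h1, h3, fun m hm =>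
    ⟨e m ((dvd_mul_right _ _).trans hm), e' m ((dvd_mul_left _ _).trans hm)⟩⟩

theorem exists_al (Ls : List (LPair n)) (w : Fin n → ℤ) :
    ∃ al : List (Mat n ℚ × Mat n ℚ),
      (∀ l ∈ al, Rais w l.1 ∧ ∀ L ∈ Ls, l.1 ∈ Submodule.span ℚ (HomS L.2 L.2)) ∧
      ∀ x : Mat n ℂ, Rais w x → (∀ L ∈ Ls, x ∈ CSpan (HomS L.2 L.2)) → InAl ℂ al x := by
  let b := Module.finBasis ℚ (ratP (spW Ls w))
  choose g hg using fun i => LinearMap.exists_extend (b.coord i)
  refine ⟨List.ofFn fun i => ((b i).1, Matrix.of fun k l => g i (single k l 1)), fun l hl => ?_,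
    fun x h1 h2 => ?_⟩
  · obtain ⟨i, rfl⟩ := List.mem_ofFn.1 hl
    have h := (b i).2
    exact ⟨fun k l hkl => by exact_mod_cast (castM_apply ℂ _ k l).symm.trans (h.1 k l hkl),
      fun L hL => mem_span_of_cspan (h.2 L hL)⟩
  have hx : x ∈ spW Ls w := ⟨h1, h2⟩
  rw [gal_descentM (W := spW Ls w) fun τ y hy => ⟨fun k l hkl => by
    rw [map_apply, hy.1 k l hkl, map_zero], fun L hL => cspan_map _ τ (hy.2 L hL)⟩] at hx
  clear h1 h2
  simp only [InAl, List.map_ofFn, List.sum_ofFn, Function.comp_apply]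
  induction hx using Submodule.span_induction with
  | mem x hx =>
    obtain ⟨y, hy, rfl⟩ := hx
    have h1 := congrArg Subtype.val (b.sum_repr ⟨y, hy⟩)
    have h2 : ∀ i, g i y = b.repr ⟨y, hy⟩ i := fun i => LinearMap.congr_fun (hg i) ⟨y, hy⟩
    simp only [mdot_cast, mdot_eq, h2]
    simp only [AddSubmonoidClass.coe_finsetSum, SetLike.val_smul] at h1
    refine (congrArg (castM ℂ) (h1.symm.trans ?_)).trans (castM_cmb ℂ _ fun i => (b i).1)
    simp only [cmb, castM_rat]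
  | zero => simp [mdot]
  | add x y _ _ hx hy =>
    simp only [mdot, Matrix.add_apply, mul_add, Finset.sum_add_distrib, add_smul] at hx hy ⊢
    rw [← hx, ← hy]
  | smul c x _ hx =>
    conv_lhs => rw [hx]
    simp only [mdot, Matrix.smul_apply, smul_eq_mul, Finset.smul_sum, smul_smul, Finset.mul_sum,
      mul_left_comm]

end Pool.Agent.P.MP_257122_al
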