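import Pool.Agent.P.MP_257122_al.BRho

/-!
# Decomposition into irreducible blocks; projectors

PLAN.  `semiS_of_compl`: the matrix of `Submodule.projection`/`linearProjOfIsCompl`.
`blocks`: by strong induction on the dimension, every invariant subspace `M` is the sum of an
independent finite family of minimal nonzero invariant subspaces (take a nonzero invariant
`M₁ ≤ M` of least dimension, `π` its projector, `M' = M ⊓ ker π`).  One can carry along a list of
commuting orthogonal idempotents, or `iSupIndep` over `Fin r`.  Collect bases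
(`DirectSum.IsInternal.collectedBasis`, or prove linear independence of the union directly);
`p` has these vectors as columns, `q` is the matrix of the coordinate functions.
-/

namespace Pool.Agent.P.MP_257122_al

open Matrix

theorem semiS_of_compl {ι F : Type} [Field F] [Fintype ι] [DecidableEq ι] {S : Set (Matrix ι ι F)}
    (h : ∀ M : Submodule F (ι → F), (∀ x ∈ S, ∀ v ∈ M, x *ᵥ v ∈ M) →
      ∃ M' : Submodule F (ι → F), IsCompl M M' ∧ ∀ x ∈ S, ∀ v ∈ M', x *ᵥ v ∈ M') : SemiS S := by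
  intro M hM
  obtain ⟨M', hc, hM'⟩ := h M hM
  refine ⟨LinearMap.toMatrix' (M.projection M' hc), fun x hx => ?_, fun v => ?_, fun v hv => ?_⟩
  · refine ext_iff_mulVec.2 fun v => ?_
    obtain ⟨a, ha, b, hb, rfl⟩ := Submodule.mem_sup.1 (hc.sup_eq_top ▸ Submodule.mem_top (x := v))
    rw [← mulVec_mulVec, ← mulVec_mulVec, LinearMap.toMatrix'_mulVec, LinearMap.toMatrix'_mulVec,
      mulVec_add, map_add, map_add, Submodule.projection_apply_of_mem_left hc ha,
      Submodule.projection_apply_of_mem_left hc (hM x hx a ha),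
      Submodule.projection_apply_of_mem_right hc hb,
      Submodule.projection_apply_of_mem_right hc (hM' x hx b hb), add_zero, add_zero]
  · rw [LinearMap.toMatrix'_mulVec]
    exact Submodule.projection_apply_mem hc v
  · rw [LinearMap.toMatrix'_mulVec, Submodule.projection_apply_of_mem_left hc hv]

theorem SemiS.conj {ι F : Type} [Field F] [Fintype ι] [DecidableEq ι] {S : Set (Matrix ι ι F)}
    (h : SemiS S) {p q : Matrix ι ι F} (hp : p * q = 1) : SemiS ((fun x => p * x * q) '' S) := by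
  have hq : q * p = 1 := mul_eq_one_comm.1 hp
  intro M hM
  obtain ⟨π, h1, h2, h3⟩ := h (M.comap p.mulVecLin) fun x hx v hv => by
    have := hM _ ⟨x, hx, rfl⟩ _ hv
    rwa [mulVecLin_apply, mulVec_mulVec, Matrix.mul_assoc, hq, Matrix.mul_one,
      ← mulVec_mulVec] at this
  refine ⟨p * π * q, ?_, fun v => ?_, fun v hv => ?_⟩
  · rintro _ ⟨x, hx, rfl⟩
    have k : ∀ a b : Matrix ι ι F, p * a * q * (p * b * q) = p * (a * b) * q := fun a b => by
      simp only [Matrix.mul_assoc]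
      rw [← Matrix.mul_assoc q p, hq, Matrix.one_mul]
    rw [k, k, h1 x hx]
  · rw [← mulVec_mulVec, ← mulVec_mulVec]
    exact h2 _
  · have e : p *ᵥ (q *ᵥ v) = v := by rw [mulVec_mulVec, hp, one_mulVec]
    rw [← mulVec_mulVec, ← mulVec_mulVec, h3 _ (by
      rw [Submodule.mem_comap, mulVecLin_apply, e]; exact hv), e]

namespace BBlkAux

variable {n : ℕ}

/-- Invariant subspaces. -/
def Iv (S : Set (Mat n ℂ)) (M : Submodule ℂ (Fin n → ℂ)) : Prop := ∀ x ∈ S, ∀ v ∈ M, x *ᵥ v ∈ M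

/-- Minimal invariant subspaces. -/
def Mn (S : Set (Mat n ℂ)) (M : Submodule ℂ (Fin n → ℂ)) : Prop :=
  Iv S M ∧ ∀ K ≤ M, Iv S K → K = ⊥ ∨ K = M

theorem family {S : Set (Mat n ℂ)} (h : SemiS S) :
    ∃ s : Finset (Submodule ℂ (Fin n → ℂ)), s.SupIndep id ∧ (∀ M ∈ s, Mn S M) ∧ s.sup id = ⊤ := by
  classical
  obtain ⟨_, ⟨s, h1, h2, rfl⟩, hm⟩ := wellFounded_gt.has_min
    {M : Submodule ℂ (Fin n → ℂ) | ∃ s : Finset (Submodule ℂ (Fin n → ℂ)),
      s.SupIndep id ∧ (∀ M ∈ s, Mn S M) ∧ s.sup id = M} ⟨_, ∅, by simp, by simp, rfl⟩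
  refine ⟨s, h1, h2, by_contra fun ht => ?_⟩
  obtain ⟨π, p1, p2, p3⟩ := h (s.sup id) fun x hx =>
    (Finset.sup_le_iff (a := (s.sup id).comap x.mulVecLin)).2 fun M hM v hv =>
      Finset.le_sup (f := id) hM ((h2 M hM).1 x hx v hv)
  have k1 : Iv S (LinearMap.ker π.mulVecLin) := fun x hx v hv => by
    rw [LinearMap.mem_ker, mulVecLin_apply] at hv ⊢
    rw [mulVec_mulVec, p1 x hx, ← mulVec_mulVec, hv, mulVec_zero]
  have k2 : LinearMap.ker π.mulVecLin ≠ ⊥ := fun e => ht (eq_top_iff.2 fun v _ => by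
    have : v - π *ᵥ v ∈ LinearMap.ker π.mulVecLin := by
      rw [LinearMap.mem_ker, mulVecLin_apply, mulVec_sub, p3 _ (p2 v), sub_self]
    rw [e, Submodule.mem_bot, sub_eq_zero] at this
    exact this ▸ p2 v)
  obtain ⟨M, ⟨m1, m2, m3⟩, m4⟩ := wellFounded_lt.has_min
    {M : Submodule ℂ (Fin n → ℂ) | M ≤ LinearMap.ker π.mulVecLin ∧ Iv S M ∧ M ≠ ⊥}
    ⟨_, le_rfl, k1, k2⟩
  have d : Disjoint M (s.sup id) := Submodule.disjoint_def.2 fun v h1 h2 => by
    rw [← p3 v h2]
    exact m1 h1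
  refine hm _ ⟨insert M s, h1.insert d, Finset.forall_mem_insert _ _ _ |>.2 ⟨⟨m2, fun K hK hi => ?_⟩,
    h2⟩, rfl⟩ ?_
  · exact or_iff_not_imp_left.2 fun h0 => hK.eq_of_not_lt (m4 K ⟨hK.trans m1, hi, h0⟩)
  · rw [Finset.sup_insert]
    exact right_lt_sup.2 fun hl => m3 (d.eq_bot_of_le hl)

theorem family' {S : Set (Mat n ℂ)} (h : SemiS S) :
    ∃ (r : ℕ) (N : Fin r → Submodule ℂ (Fin n → ℂ)), DirectSum.IsInternal N ∧ ∀ b, Mn S (N b) := by
  obtain ⟨s, h1, h2, h3⟩ := family h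
  refine ⟨_, fun b => (s.equivFin.symm b).1,
    DirectSum.isInternal_submodule_of_iSupIndep_of_iSup_eq_top
      (h1.independent.comp s.equivFin.symm.injective) ?_, fun b => h2 _ (s.equivFin.symm b).2⟩
  rw [eq_top_iff, ← h3]
  exact Finset.sup_le fun M hM => le_iSup_of_le (s.equivFin ⟨M, hM⟩) (by simp)

end BBlkAux

theorem blocks {n : ℕ} {S : Set (Mat n ℂ)} (h : SemiS S) :
    ∃ (r : ℕ) (d : Fin r → ℕ) (p : Matrix (Fin n) (Σ b, Fin (d b)) ℂ)
      (q : Matrix (Σ b, Fin (d b)) (Fin n) ℂ), p * q = 1 ∧ q * p = 1 ∧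
      (∀ x ∈ S, ∀ i j, i.1 ≠ j.1 → (q * x * p) i j = 0) ∧
      ∀ (b : Fin r) (K : Submodule ℂ (Fin (d b) → ℂ)),
        (∀ x ∈ S, ∀ v ∈ K, (Matrix.of fun i j => (q * x * p) ⟨b, i⟩ ⟨b, j⟩) *ᵥ v ∈ K) →
          K = ⊥ ∨ K = ⊤ := by
  obtain ⟨r, N, h1, h2⟩ := BBlkAux.family' h
  let v := fun b => Module.finBasis ℂ (N b)
  let B := h1.collectedBasis v
  have e : ∀ x ∈ S, ∀ hx : ∀ b, Set.MapsTo (toLin' x) (N b) (N b),
      B.toMatrix (Pi.basisFun ℂ (Fin n)) * x * (Pi.basisFun ℂ (Fin n)).toMatrix B =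
        blockDiagonal' fun b => LinearMap.toMatrix (v b) (v b) ((toLin' x).restrict (hx b)) := by
    intro x _ hx
    rw [← LinearMap.toMatrix_directSum_collectedBasis_eq_blockDiagonal' h1 h1 v v hx,
      ← basis_toMatrix_mul_linearMap_toMatrix_mul_basis_toMatrix B (Pi.basisFun ℂ (Fin n)) B
        (Pi.basisFun ℂ (Fin n)), LinearMap.toMatrix_eq_toMatrix', LinearMap.toMatrix'_toLin']
  have m : ∀ x ∈ S, ∀ b, Set.MapsTo (toLin' x) (N b) (N b) := fun x hx b w hw =>
    (h2 b).1 x hx w hw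
  refine ⟨r, fun b => Module.finrank ℂ (N b), (Pi.basisFun ℂ (Fin n)).toMatrix B,
    B.toMatrix (Pi.basisFun ℂ (Fin n)), Module.Basis.toMatrix_mul_toMatrix_flip _ _,
    Module.Basis.toMatrix_mul_toMatrix_flip _ _, fun x hx i j hij => ?_, fun b K hK => ?_⟩
  · rw [e x hx (m x hx)]
    exact blockDiagonal'_apply_ne _ _ _ hij
  · let φ := (N b).subtype ∘ₗ (v b).equivFun.symm.toLinearMap
    have i1 : Function.Injective φ := Subtype.val_injective.comp (v b).equivFun.symm.injective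
    have i2 : (⊤ : Submodule ℂ _).map φ = N b := by
      rw [Submodule.map_comp, Submodule.map_top, LinearEquiv.range, Submodule.map_subtype_top]
    refine ((h2 b).2 (K.map φ) ((Submodule.map_mono le_top).trans i2.le) ?_).imp
      (fun h => ?_) fun h => ?_
    · rintro x hx _ ⟨w, hw, rfl⟩
      refine ⟨_, hK x hx w hw, ?_⟩
      obtain ⟨u, rfl⟩ := (v b).equivFun.surjective w
      have : (Matrix.of fun i j => (B.toMatrix (Pi.basisFun ℂ (Fin n)) * x *
          (Pi.basisFun ℂ (Fin n)).toMatrix B) ⟨b, i⟩ ⟨b, j⟩) =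
          LinearMap.toMatrix (v b) (v b) ((toLin' x).restrict (m x hx b)) := by
        ext i j
        rw [e x hx (m x hx), of_apply, blockDiagonal'_apply_eq]
      rw [this, Module.Basis.equivFun_apply, LinearMap.toMatrix_mulVec_repr,
        ← Module.Basis.equivFun_apply, ← Module.Basis.equivFun_apply]
      simp [φ]
    · exact Submodule.map_injective_of_injective i1 (h.trans (Submodule.map_bot φ).symm)
    · exact Submodule.map_injective_of_injective i1 (h.trans i2.symm)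

end Pool.Agent.P.MP_257122_al
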