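import Pool.Agent.P.MP_257122_al.BRho

/-!
# Filtered, raising and graded matrices

PLAN.  Entrywise, with `Finset.sum_eq_zero`.  `Rais.pow_card`: a nonzero entry `(x ^ k) i j`
forces at least `k` distinct values of `w` in the interval `(w j, w i]` (induction on `k`, count
`(Finset.univ.image w).filter`), or prove nilpotency and use Cayley-Hamilton.
For `rho`: a product is nonzero only if every factor is, then compare the sums defining `tw`
(`Finset.sum_le_sum`, `Finset.sum_eq_sum_iff_of_le`).
-/

namespace Pool.Agent.P.MP_257122_al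

open Matrix

variable {κ ι ι' ι'' F : Type} [Field F] {w : ι → ℤ} {w' : ι' → ℤ} {w'' : ι'' → ℤ}

theorem Fil.mul [Fintype ι'] {x : Matrix ι'' ι' F} {y : Matrix ι' ι F} (hx : Fil w'' w' x)
    (hy : Fil w' w y) : Fil w'' w (x * y) := by
  intro i j h
  rw [Matrix.mul_apply]
  refine Finset.sum_eq_zero fun k _ => ?_
  rcases lt_or_ge (w'' i) (w' k) with c | c
  · rw [hx i k c, zero_mul]
  · rw [hy k j (c.trans_lt h), mul_zero]
theorem fil_one [DecidableEq ι] : Fil w w (1 : Matrix ι ι F) :=
  fun i j h =>
  Matrix.one_apply_ne fun e => by rw [e] at h; exact lt_irrefl _ h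
theorem fil_grm (x : Matrix ι' ι F) : Fil w' w (grm w' w x) :=
  fun _ _ h => if_neg h.ne
theorem grm_grm (x : Matrix ι' ι F) : grm w' w (grm w' w x) = grm w' w x := by
  ext i j
  simp only [grm, of_apply]
  split_ifs <;> rfl
theorem grm_one [DecidableEq ι] : grm w w (1 : Matrix ι ι F) = 1 := by
  ext i j
  simp only [grm, of_apply]
  split_ifs with h
  · rfl
  · exact (Matrix.one_apply_ne fun e => h (by rw [e])).symm
theorem grm_add (x y : Matrix ι' ι F) : grm w' w (x + y) = grm w' w x + grm w' w y := by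
  ext i j
  simp only [grm, of_apply, Matrix.add_apply]
  split_ifs <;> simp
theorem grm_sub (x y : Matrix ι' ι F) : grm w' w (x - y) = grm w' w x - grm w' w y := by
  ext i j
  simp only [grm, of_apply, Matrix.sub_apply]
  split_ifs <;> simp
theorem grm_smul (c : F) (x : Matrix ι' ι F) : grm w' w (c • x) = c • grm w' w x := by
  ext i j
  simp only [grm, of_apply, Matrix.smul_apply]
  split_ifs <;> simp
theorem grm_mul [Fintype ι'] {x : Matrix ι'' ι' F} {y : Matrix ι' ι F} (hx : Fil w'' w' x)
    (hy : Fil w' w y) : grm w'' w (x * y) = grm w'' w' x * grm w' w y := by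
  ext i j
  simp only [grm, of_apply, Matrix.mul_apply]
  split_ifs with h
  · refine Finset.sum_congr rfl fun k _ => ?_
    rcases lt_trichotomy (w'' i) (w' k) with c | c | c
    · rw [hx i k c, ite_self, zero_mul, zero_mul]
    · rw [if_pos c, if_pos (c.symm.trans h)]
    · rw [hy k j (c.trans_eq h), ite_self, mul_zero, mul_zero]
  · refine (Finset.sum_eq_zero fun k _ => ?_).symm
    split_ifs with c d
    · exact absurd (c.trans d) h
    · exact mul_zero _
    · exact zero_mul _
    · exact zero_mul _
theorem grm_map {K : Type} [Field K] (φ : F → K) (h0 : φ 0 = 0) (x : Matrix ι' ι F) :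
    (grm w' w x).map φ = grm w' w (x.map φ) := by
  ext i j
  simp only [grm, of_apply, Matrix.map_apply]
  split_ifs
  exacts [rfl, h0]
theorem rais_iff {x : Matrix ι ι F} : Rais w x ↔ Fil w w x ∧ grm w w x = 0 := by
  constructor
  · intro h
    refine ⟨fun i j c => h i j c.le, ?_⟩
    ext i j
    simp only [grm, of_apply, Matrix.zero_apply]
    split_ifs with c
    exacts [h i j c.le, rfl]
  · rintro ⟨h, k⟩ i j c
    rcases c.lt_or_eq with c | c
    · exact h i j c
    · have := congrFun (congrFun k i) j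
      simpa only [grm, of_apply, if_pos c, Matrix.zero_apply] using this
theorem Rais.add {x y : Matrix ι ι F} (hx : Rais w x) (hy : Rais w y) : Rais w (x + y) :=
  fun i j h => by
  rw [Matrix.add_apply, hx i j h, hy i j h, add_zero]
theorem Rais.neg {x : Matrix ι ι F} (hx : Rais w x) : Rais w (-x) :=
  fun i j h => by
  rw [Matrix.neg_apply, hx i j h, neg_zero]
theorem Rais.smul {x : Matrix ι ι F} (c : F) (hx : Rais w x) : Rais w (c • x) :=
  fun i j h => by
  rw [Matrix.smul_apply, hx i j h, smul_zero]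
theorem Rais.conj [Fintype ι] {x : Matrix ι ι F} {g : Matrix ι' ι F} {g' : Matrix ι ι' F}
    (hx : Rais w x) (hg : Fil w' w g) (hg' : Fil w w' g') : Rais w' (g * x * g') := by
  intro i j h
  simp only [Matrix.mul_apply]
  refine Finset.sum_eq_zero fun k _ => ?_
  rcases lt_or_ge (w k) (w' j) with c | c
  · rw [hg' k j c, mul_zero]
  · rw [Finset.sum_eq_zero, zero_mul]
    intro l _
    rcases lt_or_ge (w' i) (w l) with d | d
    · rw [hg i l d, zero_mul]
    · rw [hx l k (d.trans (h.trans c)), mul_zero]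
theorem Rais.mul_fil [Fintype ι] {x y : Matrix ι ι F} (hx : Rais w x) (hy : Fil w w y) :
    Rais w (x * y) := by
  classical
  have := hx.conj fil_one hy
  rwa [Matrix.one_mul] at this
theorem Fil.mul_rais [Fintype ι] {x y : Matrix ι ι F} (hx : Fil w w x) (hy : Rais w y) :
    Rais w (x * y) := by
  classical
  have := hy.conj hx fil_one
  rwa [Matrix.mul_one] at this
theorem Rais.pow_card [Fintype ι] [DecidableEq ι] {x : Matrix ι ι F} (hx : Rais w x) :
    x ^ Fintype.card ι = 0 := by
  let r : ι → ℕ := fun i => (Finset.univ.filter fun k => w k < w i).card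
  have hr : ∀ i l, w l < w i → r l < r i := fun i l h => by
    refine Finset.card_lt_card ⟨fun k hk => ?_, fun k => ?_⟩
    · simp only [Finset.mem_filter, Finset.mem_univ, true_and] at hk ⊢
      exact hk.trans h
    · have := k (Finset.mem_filter.2 ⟨Finset.mem_univ l, h⟩)
      simp at this
  have key : ∀ k i j, r i < k → (x ^ k) i j = 0 := by
    intro k
    induction k with
    | zero => exact fun i j h => absurd h (Nat.not_lt_zero _)
    | succ k ih =>
      intro i j h
      rw [pow_succ', Matrix.mul_apply]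
      refine Finset.sum_eq_zero fun l _ => ?_
      rcases le_or_gt (w i) (w l) with c | c
      · rw [hx i l c, zero_mul]
      · rw [ih l j ((hr i l c).trans_le (Nat.lt_succ_iff.1 h)), mul_zero]
  ext i j
  refine key _ i j (Finset.card_lt_card ⟨Finset.subset_univ _, fun k => ?_⟩)
  have := k (Finset.mem_univ i)
  simp at this
theorem Rais.fil_of_sub_one [DecidableEq ι] {v : Matrix ι ι F} (hv : Rais w (v - 1)) :
    Fil w w v ∧ grm w w v = 1 := by
  obtain ⟨h, k⟩ := rais_iff.1 hv
  refine ⟨fun i j c => ?_, by rwa [grm_sub, grm_one, sub_eq_zero] at k⟩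
  have := h i j c
  rwa [Matrix.sub_apply, fil_one i j c, sub_zero] at this
theorem Rais.inv_sub_one [Fintype ι] [DecidableEq ι] {v v' : Matrix ι ι F} (hv : Rais w (v - 1))
    (h : v * v' = 1) : Rais w (v' - 1) := by
  have hn : Rais w (1 - v) := by
    have := hv.neg
    rwa [neg_sub] at this
  have hp : ∀ k : ℕ, Fil w w ((1 - v) ^ k) := fun k => by
    induction k with
    | zero => exact fil_one
    | succ k ih => rw [pow_succ]; exact ih.mul (rais_iff.1 hn).1
  have e : ∑ k ∈ Finset.range (Fintype.card ι), (1 - v) ^ k = v' := by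
    have := geom_sum_mul_neg (1 - v) (Fintype.card ι)
    rw [hn.pow_card, sub_zero, sub_sub_cancel] at this
    exact left_inv_eq_right_inv this h
  have hf : Fil w w v' := fun i j c => by
    rw [← e, Matrix.sum_apply]
    exact Finset.sum_eq_zero fun k _ => hp k i j c
  have := hn.mul_fil hf
  rwa [sub_mul, one_mul, h] at this
theorem Fil.vanB [Fintype ι] {x : Matrix ι' ι F} (hx : Fil w' w x) {d : ℤ} {v : ι → F}
    (hv : VanB w d v) : VanB w' d (x *ᵥ v) := by
  intro i h
  refine Finset.sum_eq_zero fun j _ => ?_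
  rcases lt_or_ge (w' i) (w j) with c | c
  · exact mul_eq_zero_of_left (hx i j c) _
  · rw [hv j (c.trans_lt h), mul_zero]
theorem Rais.vanB [Fintype ι] {x : Matrix ι ι F} (hx : Rais w x) {d : ℤ} {v : ι → F}
    (hv : VanB w d v) : VanB w (d + 1) (x *ᵥ v) := by
  intro i h
  refine Finset.sum_eq_zero fun j _ => ?_
  rcases le_or_gt (w i) (w j) with c | c
  · exact mul_eq_zero_of_left (hx i j c) _
  · rw [hv j (by omega), mul_zero]
theorem BGrAux.vanB_single [DecidableEq ι] (j : ι) :
    VanB w (w j) (Pi.single j (1 : F)) := fun i h =>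
  Pi.single_eq_of_ne (fun e => by rw [e] at h; exact lt_irrefl _ h) _

theorem fil_of_vanB [Fintype ι] [DecidableEq ι] {x : Matrix ι' ι F}
    (h : ∀ d v, VanB w d v → VanB w' d (x *ᵥ v)) : Fil w' w x :=
  fun i j c => by
  simpa using h _ _ (BGrAux.vanB_single j) i c
theorem rais_of_vanB [Fintype ι] [DecidableEq ι] {x : Matrix ι ι F}
    (h : ∀ d v, VanB w d v → VanB w (d + 1) (x *ᵥ v)) : Rais w x :=
  fun i j c => by
  simpa using h _ _ (BGrAux.vanB_single j) i (by omega)

variable [Fintype κ]

omit [Fintype κ] in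
theorem BGrAux.le_of_ne (s : κ → Bool) {g : Matrix ι' ι F} {g' : Matrix ι ι' F} (hg : Fil w' w g)
    (hg' : Fil w w' g') {I : κ → ι'} {J : κ → ι} {i : κ}
    (h : (if s i = true then g (I i) (J i) else g' (J i) (I i)) ≠ 0) :
    (if s i = true then w (J i) else -w (J i)) ≤ if s i = true then w' (I i) else -w' (I i) := by
  split_ifs at h ⊢
  · exact not_lt.1 fun c => h (hg _ _ c)
  · exact neg_le_neg (not_lt.1 fun c => h (hg' _ _ c))

theorem fil_rho (s : κ → Bool) {g : Matrix ι' ι F} {g' : Matrix ι ι' F} (hg : Fil w' w g)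
    (hg' : Fil w w' g') : Fil (tw s w') (tw s w) (rho s g g') := by
  intro I J h
  by_contra c
  exact not_le.2 h (Finset.sum_le_sum fun i hi =>
    BGrAux.le_of_ne s hg hg' (Finset.prod_ne_zero_iff.1 c i hi))
theorem grm_rho (s : κ → Bool) {g : Matrix ι' ι F} {g' : Matrix ι ι' F} (hg : Fil w' w g)
    (hg' : Fil w w' g') :
    grm (tw s w') (tw s w) (rho s g g') = rho s (grm w' w g) (grm w w' g') := by
  ext I J
  simp only [grm, rho, of_apply]
  by_cases c : ∏ i, (if s i = true then g (I i) (J i) else g' (J i) (I i)) = 0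
  · rw [c, ite_self]
    obtain ⟨i, hi, c⟩ := Finset.prod_eq_zero_iff.1 c
    refine (Finset.prod_eq_zero hi ?_).symm
    split_ifs at c ⊢ <;> first | exact c | rfl
  · have k := Finset.sum_eq_sum_iff_of_le fun i hi =>
      BGrAux.le_of_ne s hg hg' (Finset.prod_ne_zero_iff.1 c i hi)
    split_ifs with h
    · refine Finset.prod_congr rfl fun i hi => ?_
      have := k.1 h.symm i hi
      by_cases d : s i = true
      · simp only [if_pos d] at this ⊢
        rw [if_pos this.symm]
      · simp only [if_neg d] at this ⊢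
        rw [if_pos (neg_injective this)]
    · obtain ⟨i, hi⟩ := not_forall.1 fun t => h (k.2 t).symm
      obtain ⟨hi, e⟩ := Classical.not_imp.1 hi
      refine (Finset.prod_eq_zero hi ?_).symm
      by_cases d : s i = true
      · simp only [if_pos d] at e ⊢
        exact if_neg fun t => e t.symm
      · simp only [if_neg d] at e ⊢
        exact if_neg fun t => e (congrArg Neg.neg t)
theorem rais_rho [DecidableEq ι] (s : κ → Bool) {v v' : Matrix ι ι F} (hv : Rais w (v - 1))
    (hv' : Rais w (v' - 1)) : Rais (tw s w) (rho s v v' - 1) := by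
  obtain ⟨h1, h2⟩ := hv.fil_of_sub_one
  obtain ⟨h3, h4⟩ := hv'.fil_of_sub_one
  refine rais_iff.2 ⟨fun I J c => ?_, ?_⟩
  · rw [Matrix.sub_apply, fil_rho s h1 h3 I J c, fil_one I J c, sub_zero]
  · rw [grm_sub, grm_rho s h1 h3, h2, h4, grm_one, rho_one, sub_self]
theorem rais_drho [DecidableEq κ] [DecidableEq ι] (s : κ → Bool) {ξ : Matrix ι ι F}
    (h : Rais w ξ) : Rais (tw s w) (drho s ξ) := by
  intro I J c
  refine Finset.sum_eq_zero fun i _ => ?_
  by_cases d : ∀ j, j = i ∨ I j = J j
  · have e : ∑ j ∈ Finset.univ.erase i, (if s j = true then w (I j) else -w (I j)) =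
        ∑ j ∈ Finset.univ.erase i, if s j = true then w (J j) else -w (J j) :=
      Finset.sum_congr rfl fun j hj => by rw [(d j).resolve_left (Finset.ne_of_mem_erase hj)]
    rw [tw, tw, ← Finset.add_sum_erase _ _ (Finset.mem_univ i),
      ← Finset.add_sum_erase _ _ (Finset.mem_univ i), e, add_le_add_iff_right] at c
    refine mul_eq_zero_of_left ?_ _
    split_ifs at c ⊢
    · exact h _ _ c
    · rw [h _ _ (neg_le_neg_iff.1 c), neg_zero]
  · obtain ⟨j, hj⟩ := not_forall.1 d
    exact mul_eq_zero_of_right _ (Finset.prod_eq_zero (Finset.mem_univ j) (if_neg hj))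

end Pool.Agent.P.MP_257122_al
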