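import Pool.Agent.P.MP_257122_al.BReal
import Pool.Agent.P.MP_257122_al.BDual
import Pool.Agent.P.MP_257122_al.BIso
import Pool.Agent.P.MP_257122_al.BGr

/-!
# The packets of the certificate

PLAN.  `exists_levG`: closure properties (`grm_mul`, `fil_grm`, `grm_map`).  `packets`: let `G` be
the group of graded automorphisms, `β₀` a graded isomorphism (`exists_grIso`),
`G₂ = G.map (MulAut.conj β₀).toMonoidHom`; for every graded isomorphism `β`, `β₀⁻¹ β ∈ G`, so `G₂` is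
`GalSt` (`τ β₀` is a graded isomorphism) and semisimple (`SemiS.conj`).  `real_form` for `G` and
`G₂` with the list `tE :: us.map (·.1)`.  For a type `σ` in the list, `exists_spanPk` for `G` gives
`y`, `y*`; `rho β y` does not depend on `β`, so it is rational (`ratV_of_fixed`), giving `y'`, `y'*`
with `SpanPk G₂`; `thEq_of_spanPk` on both sides; finally `alg_form` on both sides.
`USp`: `u` is invariant, so a combination of the `y j`, with coefficients given by `DualPk`.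
`EOk`: `rho_toT`, `ofT_rho`.  `pkC_of_pkQ`: finitely many rational and real numbers.
-/

namespace Pool.Agent.P.MP_257122_al

open Matrix

variable {n : ℕ} {us : List (TPair n)} {w w' : Fin n → ℤ}

namespace BPackAux

/-- The action of an invertible matrix on tensors. -/
noncomputable abbrev ra {κ : Type} [Fintype κ] (s : κ → Bool) (β : GL (Fin n) ℂ) :
    Matrix (κ → Fin n) (κ → Fin n) ℂ := rho s β.val β.inv

/-- A field automorphism applied to an invertible matrix. -/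
noncomputable def mp (τ : ℂ ≃+* ℂ) : GL (Fin n) ℂ →* GL (Fin n) ℂ :=
  GeneralLinearGroup.map (τ : ℂ →+* ℂ)

theorem mp_val (τ : ℂ ≃+* ℂ) (g : GL (Fin n) ℂ) : (mp τ g).val = g.val.map τ := rfl
theorem mp_inv (τ : ℂ ≃+* ℂ) (g : GL (Fin n) ℂ) : (mp τ g).inv = g.inv.map τ := rfl

theorem mp_mem {G : Subgroup (GL (Fin n) ℂ)} (h : GalSt G) (τ : ℂ ≃+* ℂ) {g : GL (Fin n) ℂ}
    (hg : g ∈ G) : mp τ g ∈ G := by
  obtain ⟨g₂, h1, h2⟩ := h τ g hg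
  rwa [show mp τ g = g₂ from Units.ext h2.symm]

theorem gr_mul {u v z : Fin n → ℤ} {x y : Mat n ℂ} (hx : grm u v x = x) (hy : grm v z y = y) :
    grm u z (x * y) = x * y := by
  rw [grm_mul (hx ▸ fil_grm x) (hy ▸ fil_grm y), hx, hy]

theorem gr_map {u v : Fin n → ℤ} {x : Mat n ℂ} (hx : grm u v x = x) (τ : ℂ ≃+* ℂ) :
    grm u v (x.map τ) = x.map τ := by
  rw [← grm_map τ (map_zero τ), hx]

theorem grIso_mp {β : GL (Fin n) ℂ} (h : GrIso us w w' β) (τ : ℂ ≃+* ℂ) :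
    GrIso us w w' (mp τ β) := ⟨h.1.map τ, gr_map h.2.1 τ, gr_map h.2.2 τ⟩

theorem grIso_div {β₀ β : GL (Fin n) ℂ} (h₀ : GrIso us w w' β₀) (h : GrIso us w w' β) :
    LevP us w (β₀⁻¹ * β) := by
  obtain ⟨g, h1, h2, -⟩ := h₀.1.aut h.1
  refine ⟨?_, gr_mul h₀.2.2 h.2.1, gr_mul h.2.2 h₀.2.1⟩
  rwa [show β₀⁻¹ * β = g from Units.ext h2.symm]

section
variable {κ : Type} [Fintype κ] [DecidableEq κ] {s : κ → Bool} {G : Subgroup (GL (Fin n) ℂ)}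
  {β₀ : GL (Fin n) ℂ}

theorem ra_mul (s : κ → Bool) (β γ : GL (Fin n) ℂ) (v : (κ → Fin n) → ℂ) :
    ra s (β * γ) *ᵥ v = ra s β *ᵥ (ra s γ *ᵥ v) := (rho_mulVec s _ _ _ _ v).symm

theorem ra_one (s : κ → Bool) (v : (κ → Fin n) → ℂ) : ra s 1 *ᵥ v = v :=
  (congrArg (· *ᵥ v) (rho_one s)).trans (one_mulVec v)

theorem indep {β : GL (Fin n) ℂ} (hβ : β₀⁻¹ * β ∈ G) {v : (κ → Fin n) → ℂ} (hv : Inva G s v) :
    ra s β *ᵥ v = ra s β₀ *ᵥ v := by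
  rw [← mul_inv_cancel_left β₀ β, ra_mul]
  exact congrArg _ (hv _ hβ)

theorem ratl (hτ : ∀ τ, β₀⁻¹ * mp τ β₀ ∈ G) {y : (κ → Fin n) → ℚ} (hy : Inva G s (castV ℂ y)) :
    ∃ y', castV ℂ y' = ra s β₀ *ᵥ castV ℂ y := by
  refine ratV_of_fixed fun τ => Eq.trans ?_ (indep (hτ τ) hy)
  funext i
  have e : (τ : ℂ →+* ℂ) ∘ castV ℂ y = castV ℂ y := funext fun j => map_ratCast _ _
  have := RingHom.map_mulVec (τ : ℂ →+* ℂ) (ra s β₀) (castV ℂ y) i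
  rw [e, rho_map] at this
  exact this

/-- The conjugate group. -/
noncomputable abbrev cjG (G : Subgroup (GL (Fin n) ℂ)) (β₀ : GL (Fin n) ℂ) :
    Subgroup (GL (Fin n) ℂ) := G.map (MulAut.conj β₀).toMonoidHom

theorem cj_mem {g : GL (Fin n) ℂ} (hg : g ∈ G) : β₀ * g * β₀⁻¹ ∈ cjG G β₀ := ⟨g, hg, rfl⟩

theorem inva_cj {v : (κ → Fin n) → ℂ} (hv : Inva G s v) : Inva (cjG G β₀) s (ra s β₀ *ᵥ v) := by
  rintro _ ⟨g, hg, rfl⟩
  show ra s (β₀ * g * β₀⁻¹) *ᵥ _ = _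
  rw [← ra_mul, inv_mul_cancel_right, ra_mul]
  exact congrArg _ (hv g hg)

theorem inva_cj' {v : (κ → Fin n) → ℂ} (hv : Inva (cjG G β₀) s v) : Inva G s (ra s β₀⁻¹ *ᵥ v) := by
  intro g hg
  show ra s g *ᵥ _ = _
  rw [← ra_mul, show g * β₀⁻¹ = β₀⁻¹ * (β₀ * g * β₀⁻¹) by group, ra_mul]
  exact congrArg _ (hv _ (cj_mem hg))

theorem galSt_cj (hG : GalSt G) (hτ : ∀ τ, β₀⁻¹ * mp τ β₀ ∈ G) : GalSt (cjG G β₀) := by
  rintro τ _ ⟨g, hg, rfl⟩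
  refine ⟨mp τ (β₀ * g * β₀⁻¹), ?_, rfl⟩
  have := cj_mem (β₀ := β₀) (mul_mem (mul_mem (hτ τ) (mp_mem hG τ hg)) (inv_mem (hτ τ)))
  rw [map_mul, map_mul, map_inv]
  rwa [show β₀ * (β₀⁻¹ * mp τ β₀ * mp τ g * (β₀⁻¹ * mp τ β₀)⁻¹) * β₀⁻¹ =
    mp τ β₀ * mp τ g * (mp τ β₀)⁻¹ by group] at this

theorem semiS_cj (h : SemiS (vals G)) : SemiS (vals (cjG G β₀)) := by
  have e : vals (cjG G β₀) = (fun x => β₀.val * x * β₀.inv) '' vals G := by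
    refine Set.ext fun x => ⟨?_, ?_⟩
    · rintro ⟨_, ⟨g, hg, rfl⟩, rfl⟩
      exact ⟨_, ⟨g, hg, rfl⟩, rfl⟩
    · rintro ⟨_, ⟨g, hg, rfl⟩, rfl⟩
      exact ⟨_, cj_mem hg, rfl⟩
  rw [e]
  exact h.conj β₀.val_inv

theorem span_cj {r : ℕ} {y y' : Fin r → (κ → Fin n) → ℚ}
    (e : ∀ j, castV ℂ (y' j) = ra s β₀ *ᵥ castV ℂ (y j))
    (h : ∀ v, Inva G s v → v ∈ Submodule.span ℂ (Set.range fun j => castV ℂ (y j)))
    (v : (κ → Fin n) → ℂ) (hv : Inva (cjG G β₀) s v) :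
    v ∈ Submodule.span ℂ (Set.range fun j => castV ℂ (y' j)) := by
  obtain ⟨c, hc⟩ := (Submodule.mem_span_range_iff_exists_fun ℂ).1 (h _ (inva_cj' hv))
  refine (Submodule.mem_span_range_iff_exists_fun ℂ).2 ⟨c, ?_⟩
  have := congrArg (ra s β₀).mulVecLin hc
  simp only [map_sum, map_smul, mulVecLin_apply] at this
  rw [← ra_mul, mul_inv_cancel, ra_one] at this
  simp only [e, this]

end

variable {G : Subgroup (GL (Fin n) ℂ)} {β₀ : GL (Fin n) ℂ}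

theorem map_inv_one {g g' : Mat n ℝ} (hg : g * g' = 1) :
    g.map Complex.ofReal * g'.map Complex.ofReal = 1 := by
  have := congrArg (RingHom.mapMatrix Complex.ofRealHom) hg
  rwa [map_mul, map_one] at this

/-- What is needed of a packet. -/
def PkG (G : Subgroup (GL (Fin n) ℂ)) (β₀ : GL (Fin n) ℂ) (g : Frames n) (σ : List Bool)
    (q : Pk n σ) : Prop :=
  SpanPk G ⟨σ, q.1, q.2.1⟩ ∧ ThEq g.1.1 g.1.2 ⟨σ, q.1, q.2.1⟩ ∧ ThEq g.2.1 g.2.2 ⟨σ, q.1, q.2.2⟩ ∧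
    ∀ β, β₀⁻¹ * β ∈ G → PkT ℂ β.val β.inv σ q

theorem packet (hG : GalSt G) (hτ : ∀ τ, β₀⁻¹ * mp τ β₀ ∈ G) {g₁ g₁' g₂ g₂' : Mat n ℝ}
    (h1 : g₁ * g₁' = 1) (h2 : g₂ * g₂' = 1) {σ : List Bool}
    (t1 : ThS G σ.get (g₁.map Complex.ofReal) (g₁'.map Complex.ofReal) ∧
      ThS G (du σ.get) (g₁.map Complex.ofReal) (g₁'.map Complex.ofReal))
    (t2 : ThS (cjG G β₀) σ.get (g₂.map Complex.ofReal) (g₂'.map Complex.ofReal) ∧
      ThS (cjG G β₀) (du σ.get) (g₂.map Complex.ofReal) (g₂'.map Complex.ofReal)) :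
    ∃ q, PkG G β₀ ((g₁, g₁'), (g₂, g₂')) σ q := by
  obtain ⟨r, y, z, hq⟩ := exists_spanPk hG σ (map_inv_one h1) t1.1 t1.2
  choose y' hy using fun j => ratl hτ (hq.2.1 j).1
  choose z' hz using fun j => ratl hτ (hq.2.1 j).2
  have hq' : SpanPk (cjG G β₀) ⟨σ, r, y', z'⟩ := by
    refine ⟨fun i j => Eq.trans ?_ (hq.1 i j), fun j => ⟨?_, ?_⟩, span_cj hy hq.2.2.1,
      span_cj hz hq.2.2.2⟩
    · refine Rat.cast_injective (α := ℂ) ?_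
      show ((z' i ⬝ᵥ y' j : ℚ) : ℂ) = ((z i ⬝ᵥ y j : ℚ) : ℂ)
      rw [← castV_dot, ← castV_dot, hy, hz]
      exact dot_rho _ β₀.inv_val _ _
    · exact (hy j).symm ▸ inva_cj (hq.2.1 j).1
    · exact (hz j).symm ▸ inva_cj (hq.2.1 j).2
  exact ⟨⟨r, (y, z), (y', z')⟩, hq, thEq_of_spanPk hq h1 t1.1 t1.2,
    thEq_of_spanPk hq' h2 t2.1 t2.2, fun β hβ j =>
      ⟨(indep hβ (hq.2.1 j).1).trans (hy j).symm, (indep hβ (hq.2.1 j).2).trans (hz j).symm⟩⟩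

theorem usp {q : OPk n} (hq : SpanPk G q) {u : Tn n q.1 ℚ} (hu : Inva G q.1.get (castV ℂ u)) :
    u = ∑ j, (q.2.2.2 j ⬝ᵥ u) • q.2.2.1 j := by
  have h1 := hq.2.2.1 _ hu
  have h2 : u ∈ Submodule.span ℚ (Set.range q.2.2.1) :=
    mem_span_of_map (Rat.castHom ℂ) _ (by rw [← Set.range_comp]; exact h1)
  obtain ⟨c, hc⟩ := (Submodule.mem_span_range_iff_exists_fun ℚ).1 h2
  refine hc.symm.trans (Finset.sum_congr rfl fun j _ => congrArg (· • _) ?_)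
  rw [← hc, dotProduct_sum]
  simp only [dotProduct_smul, hq.1 j, smul_eq_mul, mul_ite, mul_one, mul_zero, Finset.sum_ite_eq,
    Finset.mem_univ, if_true]

theorem eok {E : Pk n tE} (hq : SpanPk G ⟨tE, E.1, E.2.1⟩) {β : GL (Fin n) ℂ}
    (hβ : PkT ℂ β.val β.inv tE E) :
    EOk G β (fun l => ofT (E.2.1.1 l)) (fun l => ofT (E.2.2.1 l)) := by
  refine ⟨fun l => ⟨fun g hg => ?_, ?_⟩, fun c hc => ?_⟩
  · have e : g.val * castM ℂ (ofT (E.2.1.1 l)) * g.inv = castM ℂ (ofT (E.2.1.1 l)) := by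
      rw [← ofT_castV, ← ofT_rho]
      exact congrArg ofT ((hq.2.1 l).1 g hg)
    conv_lhs => rw [← e, mul_assoc, g.inv_val, mul_one]
  · rw [← ofT_castV, ← ofT_castV, ← ofT_rho]
    exact congrArg ofT (hβ l).1
  · have h1 : Inva G tE.get (toT c) := fun g hg => by
      rw [rho_toT, ← hc g hg, mul_assoc, g.val_inv, mul_one]
    obtain ⟨a, ha⟩ := (Submodule.mem_span_range_iff_exists_fun ℂ).1 (hq.2.2.1 _ h1)
    refine ⟨a, ?_⟩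
    rw [← ofT_toT c, ← ha]
    ext i j
    simp only [ofT, cmb, castM, castV, of_apply, Finset.sum_apply, Matrix.sum_apply, Pi.smul_apply,
      Matrix.smul_apply, map_apply]

theorem den {ι : Type} [Fintype ι] (f : ι → ℚ) :
    ∃ N₀ : ℕ, 0 < N₀ ∧ ∀ N : ℕ, N₀ ∣ N → ∀ i, ∃ z : ℤ, (N : ℚ) * f i = z := by
  refine ⟨∏ i, (f i).den, Finset.prod_pos fun i _ => (f i).den_pos, fun N hN i => ?_⟩
  obtain ⟨c, rfl⟩ := (Finset.dvd_prod_of_mem _ (Finset.mem_univ i)).trans hN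
  refine ⟨c * (f i).num, ?_⟩
  push_cast
  rw [← Rat.den_mul_eq_num]
  ring

theorem bd {ι F : Type} [Finite ι] [Field F] [LinearOrder F] [IsStrictOrderedRing F]
    [Archimedean F] (f f' : ι → F) :
    ∃ s₀ : ℕ, ∀ s : ℕ, s₀ ≤ s → ∀ i, |f i| ≤ s ∧ |f' i| ≤ s := by
  obtain ⟨b, hb⟩ := Finite.exists_le fun i => max |f i| |f' i|
  obtain ⟨s₀, h⟩ := exists_nat_ge b
  exact ⟨s₀, fun s hs i => max_le_iff.1 ((hb i).trans (h.trans (Nat.cast_le.2 hs)))⟩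

theorem opk {g g' : Mat n ℝ} {q : OPk n} (h : ThEq g g' q) :
    ∃ N₀ s₀ : ℕ, 0 < N₀ ∧ ∀ N s, N₀ ∣ N → s₀ ≤ s → LPk N 1 1 q ∧ BPk s 1 1 q ∧ FPk s g g' q := by
  obtain ⟨N₁, p₁, h1⟩ := den fun x : Fin q.2.1 × (Fin q.1.length → Fin n) =>
    (rho q.1.get 1 1 *ᵥ q.2.2.1 x.1) x.2
  obtain ⟨N₂, p₂, h2⟩ := den fun x : Fin q.2.1 × (Fin q.1.length → Fin n) =>
    (rho (du q.1.get) 1 1 *ᵥ q.2.2.2 x.1) x.2
  obtain ⟨s₁, h3⟩ := bd (fun x : Fin q.2.1 × (Fin q.1.length → Fin n) =>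
    (rho q.1.get 1 1 *ᵥ q.2.2.1 x.1) x.2) fun x => (rho (du q.1.get) 1 1 *ᵥ q.2.2.2 x.1) x.2
  obtain ⟨s₂, h4⟩ := bd (fun x : Fin q.2.1 × (Fin q.1.length → Fin n) => fr1 g g' q x.1 x.2)
    fun x => fr2 g g' q x.1 x.2
  exact ⟨N₁ * N₂, max s₁ s₂, mul_pos p₁ p₂, fun N s hN hs =>
    ⟨fun j => ⟨fun I => h1 N (dvd_of_mul_right_dvd hN) (j, I),
      fun I => h2 N (dvd_of_mul_left_dvd hN) (j, I)⟩,
    fun j I => h3 s (le_of_max_le_left hs) (j, I), h,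
    fun j I => h4 s (le_of_max_le_right hs) (j, I)⟩⟩

end BPackAux

open BPackAux

theorem exists_levG (us : List (TPair n)) (w : Fin n → ℤ) :
    ∃ G : Subgroup (GL (Fin n) ℂ), (∀ h, h ∈ G ↔ LevP us w h) ∧ GalSt G := by
  obtain ⟨H, h1, h2⟩ := exists_autG us
  refine ⟨{ carrier := {h | LevP us w h}
            one_mem' := ⟨(h1 _).1 (one_mem H), grm_one, grm_one⟩
            mul_mem' := fun ha hb => ⟨(h1 _).1 (mul_mem ((h1 _).2 ha.1) ((h1 _).2 hb.1)),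
              gr_mul ha.2.1 hb.2.1, gr_mul hb.2.2 ha.2.2⟩
            inv_mem' := fun ha => ⟨(h1 _).1 (inv_mem ((h1 _).2 ha.1)), ha.2.2, ha.2.1⟩ },
    fun _ => Iff.rfl, fun τ g hg => ⟨mp τ g, ⟨(h1 _).1 (mp_mem h2 τ ((h1 _).2 hg.1)),
      gr_map hg.2.1 τ, gr_map hg.2.2 τ⟩, rfl⟩⟩

theorem exists_grIso (h : Adapted us w w') {α α' : Mat n ℂ} (hα : TIso ℂ us α α') :
    ∃ β : GL (Fin n) ℂ, GrIso us w w' β ∧ β.val = grm w' w α ∧ β.inv = grm w w' α' :=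
  have k := (h.2.1 α α' hα).2.2
  ⟨⟨_, _, k.1, k.2.1⟩, ⟨k, grm_grm α, grm_grm α'⟩, rfl, rfl⟩

theorem packets (h : Adapted us w w') {G : Subgroup (GL (Fin n) ℂ)}
    (hG : ∀ h, h ∈ G ↔ LevP us w h) :
    ∃ (pks : List (UPk n)) (E : Pk n tE) (g : Frames n), AlgFr g ∧ g.1.1 * g.1.2 = 1 ∧
      g.2.1 * g.2.2 = 1 ∧ UCov us pks ∧ (∀ q ∈ pks, USp q ∧ PkQ g q.1 q.2.2) ∧ PkQ g tE E ∧
      ∀ β, GrIso us w w' β → PkT ℂ β.val β.inv tE E ∧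
        (∀ q ∈ pks, PkT ℂ β.val β.inv q.1 q.2.2) ∧
        EOk G β (fun l => ofT (E.2.1.1 l)) (fun l => ofT (E.2.2.1 l)) := by
  obtain ⟨α, α', hα⟩ := h.1
  obtain ⟨β₀, h₀, -⟩ := exists_grIso h hα
  have gal : GalSt G := by
    obtain ⟨G', k1, k2⟩ := exists_levG us w
    rwa [show G = G' from Subgroup.ext fun x => (hG x).trans (k1 x).symm]
  have ss : SemiS (vals G) := by
    have := h.2.2
    simp only [← hG] at this
    exact this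
  have hβ : ∀ β, GrIso us w w' β → β₀⁻¹ * β ∈ G := fun β k => (hG _).2 (grIso_div h₀ k)
  have hτ : ∀ τ, β₀⁻¹ * mp τ β₀ ∈ G := fun τ => hβ _ (grIso_mp h₀ τ)
  obtain ⟨g₁, g₁', h1, t1⟩ := real_form G ss gal (tE :: us.map Sigma.fst)
  obtain ⟨g₂, g₂', h2, t2⟩ := real_form _ (semiS_cj ss) (galSt_cj gal hτ) (tE :: us.map Sigma.fst)
  have hp := fun σ hσ => packet gal hτ h1 h2 (t1 σ hσ) (t2 σ hσ)
  obtain ⟨E, hE⟩ := hp tE List.mem_cons_self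
  have hq : ∀ t : TPair n, ∃ q : Pk n t.1, t ∈ us → PkG G β₀ ((g₁, g₁'), (g₂, g₂')) t.1 q := by
    intro t
    by_cases ht : t ∈ us
    · exact (hp t.1 (List.mem_cons_of_mem _ (List.mem_map_of_mem ht))).imp fun _ k _ => k
    · exact ⟨⟨0, (Fin.elim0, Fin.elim0), (Fin.elim0, Fin.elim0)⟩, fun k => absurd k ht⟩
  choose q hq using hq
  obtain ⟨k₁, k₁', a1, e1, r1⟩ := alg_form
    (⟨tE, E.1, E.2.1⟩ :: us.map fun t : TPair n => (⟨t.1, (q t).1, (q t).2.1⟩ : OPk n)) h1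
    (List.forall_mem_cons.2 ⟨hE.2.1, List.forall_mem_map.2 fun t ht => (hq t ht).2.1⟩)
  obtain ⟨k₂, k₂', a2, e2, r2⟩ := alg_form
    (⟨tE, E.1, E.2.2⟩ :: us.map fun t : TPair n => (⟨t.1, (q t).1, (q t).2.2⟩ : OPk n)) h2
    (List.forall_mem_cons.2 ⟨hE.2.2.1, List.forall_mem_map.2 fun t ht => (hq t ht).2.2.1⟩)
  rw [List.forall_mem_cons, List.forall_mem_map] at r1 r2
  refine ⟨us.map fun t : TPair n => (⟨t.1, t.2, q t⟩ : UPk n), E, ((k₁, k₁'), (k₂, k₂')),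
    fun i j => ⟨(a1 i j).1, (a1 i j).2, a2 i j⟩, e1, e2,
    fun t ht => List.mem_map.2 ⟨_, List.mem_map_of_mem ht, rfl⟩,
    List.forall_mem_map.2 fun t ht => ⟨usp (hq t ht).1 fun g hg => ?_, (hq t ht).1.1,
      r1.2 t ht, r2.2 t ht⟩, ⟨hE.1.1, r1.1, r2.1⟩, fun β k => ⟨hE.2.2.2 β (hβ β k),
    List.forall_mem_map.2 fun t ht => (hq t ht).2.2.2 β (hβ β k), eok hE.1 (hE.2.2.2 β (hβ β k))⟩⟩
  exact ((hG g).1 hg).1 t ht

theorem pkC_of_pkQ {g : Frames n} {σ : List Bool} {q : Pk n σ} (h : PkQ g σ q) :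
    ∃ N₀ s₀ : ℕ, 0 < N₀ ∧ ∀ N s, N₀ ∣ N → s₀ ≤ s → PkC s N g σ q := by
  obtain ⟨N₁, s₁, p₁, h1⟩ := opk h.2.1
  obtain ⟨N₂, s₂, p₂, h2⟩ := opk h.2.2
  exact ⟨N₁ * N₂, σ.length + q.1 + s₁ + s₂, mul_pos p₁ p₂, fun N s hN hs =>
    ⟨by omega, by omega, h.1, h1 N s (dvd_of_mul_right_dvd hN) (by omega),
      h2 N s (dvd_of_mul_left_dvd hN) (by omega)⟩⟩

end Pool.Agent.P.MP_257122_al
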