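import Pool.Agent.P.MP_257122_al.BRho
import Pool.Agent.P.MP_257122_al.FMat

/-!
# Heights

PLAN.  `siegel_bd`: `g γ = k a N`.  The first column of `N` is `e₀`, so `γ e₀ = a₀ g' k e₀` is a
nonzero integer vector and `a₀ ≥ 1 / (n s)`; the last row of `N'` is the last unit vector, so the
last row of `γ⁻¹ g' = N' a⁻¹ kᵀ` gives `a_last ≤ n s` in the same way (multiply by `g`).  Almost
monotonicity bounds all `a i`, `(a i)⁻¹`; `γ = g' k a N`, `γ⁻¹ = N' a⁻¹ kᵀ g`; entries of `k` are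
at most `1`.  `htG_prod`: induction with the bound `(s (s+1)) ^ length` or a recursion.
`MV.htBox`: all `z / D` with `|z| ≤ B²`, `1 ≤ D ≤ B` (`MV.box` on `Fin n × Fin n`).
-/

namespace Pool.Agent.P.MP_257122_al

open Matrix

namespace BSbAux

theorem ii {q : ℚ} : (∃ z : ℤ, q = z) ↔ q ∈ (Int.castRingHom ℚ).range :=
  ⟨fun ⟨z, h⟩ => ⟨z, h.symm⟩, fun ⟨z, h⟩ => ⟨z, h.symm⟩⟩

theorem i1 {ι ι' : Type} {x : Matrix ι' ι ℚ} (hx : IntM 1 x) (i : ι') (j : ι) :
    ∃ z : ℤ, x i j = z := by simpa using hx i j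

end BSbAux

open BSbAux

theorem HtM.mono {ι ι' : Type} {B B' : ℕ} {x : Matrix ι' ι ℚ} (h : HtM B x) (hB : B ≤ B') :
    HtM B' x :=
  let ⟨D, a, b, c, d⟩ := h
  ⟨D, a, b.trans hB, c, fun i j => (d i j).trans (Nat.cast_le.2 hB)⟩

theorem HtG.mono {n B B' : ℕ} {g : GL (Fin n) ℚ} (h : HtG B g) (hB : B ≤ B') : HtG B' g :=
  ⟨h.1.mono hB, h.2.mono hB⟩

theorem HtG.inv {n B : ℕ} {g : GL (Fin n) ℚ} (h : HtG B g) : HtG B g⁻¹ := ⟨h.2, h.1⟩

theorem IntV.of_dvd {ι : Type} {M M' : ℕ} {x : ι → ℚ} (hx : IntV M x) (h : M ∣ M') :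
    IntV M' x := fun i => by
  obtain ⟨k, rfl⟩ := h
  obtain ⟨z, hz⟩ := hx i
  exact ⟨k * z, by push_cast; rw [← hz]; ring⟩

theorem IntM.of_dvd {ι ι' : Type} {M M' : ℕ} {x : Matrix ι' ι ℚ} (hx : IntM M x) (h : M ∣ M') :
    IntM M' x := fun i => IntV.of_dvd (hx i) h

theorem HtM.intM_factorial {ι ι' : Type} {B : ℕ} {x : Matrix ι' ι ℚ} (h : HtM B x) :
    IntM B.factorial x :=
  let ⟨_, a, b, c, _⟩ := h
  c.of_dvd (Nat.dvd_factorial a b)

theorem IntM.mul {l ι ι' : Type} [Fintype ι'] {M M' : ℕ} {x : Matrix l ι' ℚ} {y : Matrix ι' ι ℚ}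
    (hx : IntM M x) (hy : IntM M' y) : IntM (M * M') (x * y) := fun i j => by
  rw [ii, mul_apply, Finset.mul_sum]
  refine Subring.sum_mem _ fun k _ => ?_
  rw [Nat.cast_mul, mul_mul_mul_comm]
  exact mul_mem (ii.1 (hx i k)) (ii.1 (hy k j))

theorem intM_one {ι : Type} [DecidableEq ι] : IntM 1 (1 : Matrix ι ι ℚ) := fun i j =>
  ⟨if i = j then 1 else 0, by simp [one_apply]⟩

theorem IntM.zm {ι ι' : Type} {x : Matrix ι' ι ℚ} (hx : IntM 1 x) (m : ℕ) : ZM m x :=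
  fun i j => by
    obtain ⟨z, hz⟩ := i1 hx i j
    rw [hz]
    exact intCast_mem _ z

theorem ZM.mul {l ι ι' : Type} [Fintype ι'] {m : ℕ} {x : Matrix l ι' ℚ} {y : Matrix ι' ι ℚ}
    (hx : ZM m x) (hy : ZM m y) : ZM m (x * y) := fun i j =>
  Subring.sum_mem _ fun k _ => mul_mem (hx i k) (hy k j)

theorem IntM.rho_mulVec {κ ι ι' : Type} [Fintype κ] [DecidableEq κ] [Fintype ι] (s : κ → Bool)
    {g : Matrix ι' ι ℚ} {g' : Matrix ι ι' ℚ} (hg : IntM 1 g) (hg' : IntM 1 g') {M : ℕ}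
    {w : (κ → ι) → ℚ} (hw : IntV M w) : IntV M (rho s g g' *ᵥ w) := fun I => by
  rw [ii, mulVec, dotProduct, Finset.mul_sum]
  refine Subring.sum_mem _ fun J _ => ?_
  rw [mul_left_comm]
  refine mul_mem (Subring.prod_mem _ fun k _ => ?_) (ii.1 (hw J))
  split_ifs
  · exact ii.1 (i1 hg _ _)
  · exact ii.1 (i1 hg' _ _)

theorem IntM.norm_le {ι ι' : Type} {x : Matrix ι' ι ℚ} (hx : IntM 1 x) (p : Nat.Primes) (i : ι')
    (j : ι) : ‖castM (Qp p) x i j‖ ≤ 1 := by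
  obtain ⟨z, hz⟩ := i1 hx i j
  rw [castM_apply, hz, Rat.cast_intCast]
  exact Padic.norm_int_le_one z

/-- Right multiplication by an invertible integer matrix does not change the lattice. -/
theorem LPk.mul_int {n M : ℕ} {b b' γ γ' : Mat n ℚ} {q : OPk n} (h : LPk M b b' q)
    (hγ : IntM 1 γ) (hγ' : IntM 1 γ') : LPk M (b * γ) (γ' * b') q := fun j => by
  rw [← rho_mulVec, ← rho_mulVec]
  exact ⟨hγ'.rho_mulVec _ hγ (h j).1, hγ'.rho_mulVec _ hγ (h j).2⟩

theorem PGood.mul_int {n N : ℕ} {b b' γ γ' : Mat n ℚ} {e : PMat n} (h : PGood N b b' e)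
    (hγ : IntM 1 γ) (hγ' : IntM 1 γ') : PGood N (b * γ) (γ' * b') e := fun i j => by
  rw [castM_mul, castM_mul, Matrix.mul_assoc, ← Matrix.mul_assoc e.2, mul_apply,
    mul_apply (N := castM _ γ), Finset.mul_sum, Finset.mul_sum]
  refine ⟨(PadicInt.subring e.1.1).sum_mem fun k _ => ?_,
    (PadicInt.subring e.1.1).sum_mem fun k _ => ?_⟩
  · rw [mul_left_comm]
    exact mul_mem (hγ'.norm_le _ _ _) (h k j).1
  · rw [← mul_assoc]
    exact mul_mem (h i k).2 (hγ.norm_le _ _ _)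

namespace BSbAux

variable {n s B B' : ℕ}

theorem abs_mul_le {F : Type} [Field F] [LinearOrder F] [IsStrictOrderedRing F] {x y : Mat n F}
    (hn : n ≤ s) (hx : ∀ i j, |x i j| ≤ B) (hy : ∀ i j, |y i j| ≤ B') (i j : Fin n) :
    |(x * y) i j| ≤ (s * B * B' : ℕ) := by
  rw [mul_apply]
  refine (Finset.abs_sum_le_sum_abs _ _).trans ((Finset.sum_le_card_nsmul _ _ ((B : F) * B')
    fun k _ => ?_).trans ?_)
  · rw [abs_mul]
    exact mul_le_mul (hx _ _) (hy _ _) (abs_nonneg _) B.cast_nonneg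
  · rw [Finset.card_fin, nsmul_eq_mul, mul_assoc]
    exact_mod_cast Nat.mul_le_mul_right _ hn

theorem orth {k : Mat n ℝ} (h : kᵀ * k = 1) : BdM 1 k := fun i j => by
  have := congrFun (congrFun h j) j
  rw [mul_apply, one_apply_eq] at this
  exact_mod_cast abs_le_one_iff_mul_self_le_one.2 (this ▸ Finset.single_le_sum
    (f := fun l => kᵀ j l * k l j) (fun l _ => mul_self_nonneg (k l j)) (Finset.mem_univ i))

theorem col {γ γ' : Mat n ℚ} (h : γ' * γ = 1) (hγ : IntM 1 γ) (j : Fin n) :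
    ∃ i, 1 ≤ |castM ℝ γ i j| := by
  by_contra! hn
  have h0 : ∀ i, γ i j = 0 := fun i => by
    obtain ⟨z, hz⟩ := i1 hγ i j
    have := hn i
    rw [castM_apply, hz, Rat.cast_intCast] at this
    rw [hz, Int.abs_lt_one_iff.1 (show |z| < 1 by exact_mod_cast this), Int.cast_zero]
  simpa [mul_apply, h0] using congrFun (congrFun h j) j

theorem bd_diag {a : Fin n → ℝ} (h : ∀ i, |a i| ≤ B) : BdM B (diagonal a) := fun i j => by
  rw [diagonal_apply]
  split_ifs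
  · exact h i
  · simp

theorem ht_of {x : Mat n ℚ} (hx : IntM 1 x) (h : BdM B (castM ℝ x)) : HtM (B + 1) x :=
  ⟨1, one_pos, le_add_self, hx, fun i j => by
    have := (h i j).trans (Nat.cast_le.2 B.le_succ)
    rw [castM_apply] at this
    exact_mod_cast this⟩

theorem ht_mul {x y : Mat n ℚ} (hn : n ≤ s) (hx : HtM B x) (hy : HtM B' y) :
    HtM ((s + 1) * B * B') (x * y) :=
  let ⟨D, a, b, c, d⟩ := hx
  let ⟨D', a', b', c', d'⟩ := hy
  ⟨D * D', mul_pos a a', Nat.mul_le_mul (b.trans (Nat.le_mul_of_pos_left _ s.succ_pos)) b',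
    c.mul c', abs_mul_le (hn.trans s.le_succ) d d'⟩

end BSbAux

theorem siegel_bd : ∃ C : ℕ → ℕ, CS C ∧ ∀ (s n : ℕ) (g g' : Mat n ℝ) (γ : GL (Fin n) ℚ),
    n ≤ s → g * g' = 1 → BdM s g → BdM s g' → IntM 1 γ.val → IntM 1 γ.inv →
      Sg (g * castM ℝ γ.val) → HtG (C s) γ := by
  refine ⟨fun s => s ^ 6 * sgB s ^ 2 + 1, ?_, ?_⟩
  · exact CS.add AddF.nat (CS.mul MulF.nat (CS.pow MulF.nat OneF.nat CS.id CS.const)
      (CS.pow MulF.nat OneF.nat (CS.mul MulF.nat (CS.pow MulF.nat OneF.nat CS.const CS.id)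
        (CS.factorial (CS.add AddF.nat CS.id CS.const))) CS.const)) CS.const
  rintro s n g g' γ hn hg b1 b2 z1 z2 ⟨k, N, N', a, hk, e, hN, a0, am, tr, dg, b3, b4⟩
  have hS : (sgB n : ℝ) ≤ sgB s := Nat.cast_le.2
    (Nat.mul_le_mul (Nat.pow_le_pow_right two_pos hn) (Nat.factorial_le (Nat.succ_le_succ hn)))
  have e1 : castM ℝ γ.val = g' * k * diagonal a * N := by
    rw [Matrix.mul_assoc g', Matrix.mul_assoc g', ← e, ← Matrix.mul_assoc, mul_eq_one_comm.1 hg,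
      Matrix.one_mul]
  have e2 : castM ℝ γ.inv = N' * (diagonal (fun i => (a i)⁻¹) * (kᵀ * g)) := by
    have : N' * (diagonal (fun i => (a i)⁻¹) * (kᵀ * g)) * castM ℝ γ.val = 1 := by
      simp only [Matrix.mul_assoc]
      rw [e]
      simp only [← Matrix.mul_assoc kᵀ, ← Matrix.mul_assoc (diagonal _), hk, Matrix.one_mul,
        diagonal_mul_diagonal, inv_mul_cancel₀ (a0 _).ne', diagonal_one, mul_eq_one_comm.1 hN]
    rw [← Matrix.one_mul (castM ℝ γ.inv), ← this, Matrix.mul_assoc _ (castM ℝ γ.val), ← castM_mul,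
      γ.val_inv, castM_one, Matrix.mul_one]
  have k1 : BdM (s * s * 1) (g' * k) := abs_mul_le hn b2 (orth hk)
  have k2 : BdM (s * 1 * s) (kᵀ * g) := abs_mul_le hn (fun i j => orth hk j i) b1
  have c1 : ∀ j, |(a j)⁻¹| ≤ (sgB s * (s * s) : ℕ) := fun j => by
    obtain ⟨i, hi⟩ := col γ.inv_val z1 ⟨0, j.pos⟩
    rw [e1, mul_apply, Finset.sum_eq_single ⟨0, j.pos⟩ (fun l _ hl => by
      rw [(tr l _ (lt_of_le_of_ne (Nat.zero_le _) hl.symm)).1, mul_zero]) (by simp), (dg _).1,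
      mul_one, mul_diagonal, abs_mul, abs_of_pos (a0 _)] at hi
    rw [abs_of_pos (inv_pos.2 (a0 j)), inv_le_iff_one_le_mul₀ (a0 j)]
    refine hi.trans ((mul_le_mul (k1 _ _) ((am _ j (Nat.zero_le _)).trans
      (mul_le_mul_of_nonneg_right hS (a0 j).le)) (a0 _).le (Nat.cast_nonneg _)).trans_eq ?_)
    push_cast
    ring
  have c2 : ∀ j, |a j| ≤ (sgB s * (s * s) : ℕ) := fun j => by
    have hl : ∀ l : Fin n, l ≤ ⟨n - 1, Nat.sub_one_lt j.pos.ne'⟩ := fun l => Nat.le_sub_one_of_lt l.2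
    generalize (⟨n - 1, Nat.sub_one_lt j.pos.ne'⟩ : Fin n) = t at hl
    obtain ⟨i, hi⟩ := col (γ := γ.invᵀ) (γ' := γ.valᵀ)
      (by rw [← transpose_mul, γ.inv_val, transpose_one]) (fun i j => z2 j i) t
    rw [castM_transpose, transpose_apply, e2, mul_apply, Finset.sum_eq_single t (fun l _ h => by
      rw [(tr _ l (lt_of_le_of_ne (hl l) h)).2, zero_mul]) (by simp), (dg _).2,
      one_mul, diagonal_mul, abs_mul, abs_of_pos (inv_pos.2 (a0 _)), one_le_inv_mul₀ (a0 _)] at hi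
    rw [abs_of_pos (a0 j)]
    refine (am j t (hl j)).trans ((mul_le_mul hS (hi.trans (k2 _ _)) (a0 _).le
      (Nat.cast_nonneg _)).trans_eq ?_)
    push_cast
    ring
  refine ⟨(ht_of z1 (e1 ▸ abs_mul_le hn (abs_mul_le hn k1 (bd_diag c2))
    fun i j => (b3 i j).trans hS)).mono (le_of_eq (by ring)),
    (ht_of z2 (e2 ▸ abs_mul_le hn (fun i j => (b4 i j).trans hS)
      (abs_mul_le hn (bd_diag c1) k2))).mono (le_of_eq (by ring))⟩

theorem htG_prod : ∃ C : ℕ → ℕ, CS C ∧ ∀ (s n : ℕ) (l : List (GL (Fin n) ℚ)),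
    n ≤ s → l.length ≤ s → (∀ γ ∈ l, HtG s γ) → HtG (C s) l.prod := by
  refine ⟨fun s => ((s + 1) * (s + 1)) ^ s, ?_, fun s n l hn hl h => ?_⟩
  · aesop (config := { terminal := true, enableSimp := false, maxRuleApplications := 3000, maxRuleApplicationDepth := 70, assumptionTransparency := .reducible }) (rule_sets := [-default, -builtin, Restrict]) (erase CS.mapp, CS.mlam)
  refine HtG.mono ?_ (Nat.pow_le_pow_right (by positivity) hl)
  clear hl
  induction l with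
  | nil =>
    have : HtM 1 (1 : Mat n ℚ) := ⟨1, one_pos, le_rfl, intM_one, fun i j => by
      rw [one_apply]
      split_ifs <;> simp⟩
    exact ⟨this, this⟩
  | cons γ l ih =>
    have a := (h γ List.mem_cons_self).mono s.le_succ
    have b := ih fun δ hδ => h δ (List.mem_cons_of_mem _ hδ)
    rw [List.prod_cons, List.length_cons]
    exact ⟨(ht_mul hn a.1 b.1).mono (le_of_eq (by simp only [Nat.succ_eq_add_one]; ring)),
      (ht_mul hn b.2 a.2).mono (le_of_eq (by simp only [Nat.succ_eq_add_one]; ring))⟩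

theorem MV.htBox {A : Type} [Rep A] {n B : A → ℕ} (hn : CS n) (hB : CS B) :
    MV (fun a (l : List (Mat (n a) ℚ)) => ∀ x, HtM (B a) x → x ∈ l) := by
  refine MV.bind (MV.box (ι := fun a => Fin (n a) × Fin (n a)) (B := fun a => B a * B a)
    (CFin.prod (CFin.fin hn) (CFin.fin hn)) (Disc.prod Disc.fin Disc.fin) (CS.mul MulF.nat hB hB))
    (MV.of_cs (f := fun u => (List.range (B u.1.1 + 1)).flatMap fun D : ℕ => u.1.2.map
      fun t => Matrix.of fun i j => (t (i, j) : ℚ) / (D : ℚ)) ?_ ?_)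
  · have hB' := fun (C : Type) [Rep C] (g : C → A) => hB.comp (g := g)
    aesop (config := { terminal := true, enableSimp := false, maxRuleApplications := 3000, maxRuleApplicationDepth := 70, assumptionTransparency := .reducible }) (rule_sets := [-default, -builtin, Restrict]) (erase CS.mapp, CS.mlam) (add safe 5 (by with_reducible apply hB'))
  · rintro ⟨⟨a, L⟩, hL⟩ - x ⟨D, d1, d2, d3, d4⟩
    choose z hz using d3
    refine List.mem_flatMap.2 ⟨D, List.mem_range.2 (Nat.lt_succ_of_le d2), List.mem_map.2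
      ⟨fun p => z p.1 p.2, (hL _).2 fun p => ?_, ?_⟩⟩
    · have : |(z p.1 p.2 : ℚ)| ≤ B a * B a := by
        rw [← hz, abs_mul, Nat.abs_cast]
        exact mul_le_mul (Nat.cast_le.2 d2) (d4 _ _) (abs_nonneg _) (Nat.cast_nonneg _)
      zify
      exact_mod_cast this
    · ext i j
      rw [of_apply, ← hz, mul_div_cancel_left₀ _ (Nat.cast_ne_zero.2 d1.ne')]

end Pool.Agent.P.MP_257122_al
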