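import Pool.Agent.P.MP_257122_al.LCert

/-!
# Closure under a list of matrices: the algebra

`mem_clM`: the modules `genMod (grow^[j] M) (grow^[j] D)` increase to `clM`.  `padic_struct`:
a `p`-adic module is closed, so without lines it is bounded (compactness of the unit sphere) and
finitely generated; in general intersect with a complement of the union of all lines.
-/

namespace Pool.Agent.P.MP_257122_al

open Matrix

variable {O K : Type} [CommRing O] [Field K] [Algebra O K] {ι : Type} [Fintype ι]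

namespace LClAAux

open Filter

variable {l : List (Matrix ι ι K)}

theorem le_clM {N : Submodule O (ι → K)} : N ≤ clM O l N := le_sInf fun _ h => h.1

theorem clM_closed {N : Submodule O (ι → K)} {φ : Matrix ι ι K} (hφ : φ ∈ l) {x : ι → K}
    (hx : x ∈ clM O l N) : φ *ᵥ x ∈ clM O l N :=
  Submodule.mem_sInf.2 fun P hP => hP.2 φ hφ x (Submodule.mem_sInf.1 hx P hP)

theorem clM_le {N P : Submodule O (ι → K)} (h : N ≤ P) (hc : ∀ φ ∈ l, ∀ x ∈ P, φ *ᵥ x ∈ P) :
    clM O l N ≤ P := sInf_le ⟨h, hc⟩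

theorem mem_grow {X : List (ι → K)} {y : ι → K} :
    y ∈ grow l X ↔ y ∈ X ∨ ∃ φ ∈ l, ∃ x ∈ X, φ *ᵥ x = y := by
  rw [grow, List.mem_append, mem_pairs]

theorem grow_ind {P : (ι → K) → Prop} (hc : ∀ φ ∈ l, ∀ x, P x → P (φ *ᵥ x)) {X : List (ι → K)}
    (hX : ∀ x ∈ X, P x) (j : ℕ) : ∀ x ∈ (grow l)^[j] X, P x := by
  induction j with
  | zero => exact hX
  | succ j ih =>
    intro x hx
    rw [Function.iterate_succ_apply', mem_grow] at hx
    obtain hx | ⟨φ, hφ, y, hy, rfl⟩ := hx
    exacts [ih x hx, hc φ hφ y (ih y hy)]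

theorem grow_sub (X : List (ι → K)) {i j : ℕ} (h : i ≤ j) : (grow l)^[i] X ⊆ (grow l)^[j] X := by
  induction h with
  | refl => exact fun _ h => h
  | step _ ih =>
    rw [Function.iterate_succ_apply']
    exact fun _ h => mem_grow.2 (Or.inl (ih h))

theorem grow_nil (j : ℕ) : (grow l)^[j] [] = [] :=
  List.eq_nil_iff_forall_not_mem.2 (grow_ind (P := fun _ => False) (fun _ _ _ h => h)
    (fun _ h => absurd h List.not_mem_nil) j)

/-- The lines in a closed module are closed. -/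
theorem line_closed {N : Submodule O (ι → K)} (hc : ∀ φ ∈ l, ∀ x ∈ N, φ *ᵥ x ∈ N)
    (Q : K → Prop) : ∀ φ ∈ l, ∀ x, (∀ c, Q c → c • x ∈ N) → ∀ c, Q c → c • φ *ᵥ x ∈ N :=
  fun φ hφ x hx c h => by rw [← mulVec_smul]; exact hc φ hφ _ (hx c h)

theorem gen_grow_le {M D : List (ι → K)} (j : ℕ) :
    genMod O K ((grow l)^[j] M) ((grow l)^[j] D) ≤ clM O l (genMod O K M D) :=
  genMod_le.2 ⟨grow_ind (fun _ hφ _ => clM_closed hφ) (fun _ h => le_clM (mem_gen_left h)) j,
    grow_ind (P := fun d => ∀ c : K, c • d ∈ clM O l (genMod O K M D))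
      (fun φ hφ x hx c => line_closed (fun _ h _ => clM_closed h) (fun _ => True) φ hφ x
        (fun c _ => hx c) c trivial) (fun _ h c => le_clM (smul_mem_gen h c)) j⟩

end LClAAux

open LClAAux

theorem mem_clM {l : List (Matrix ι ι K)} {M D : List (ι → K)} {x : ι → K} :
    x ∈ clM O l (genMod O K M D) ↔ ∃ j, x ∈ genMod O K ((grow l)^[j] M) ((grow l)^[j] D) := by
  refine ⟨fun h => ?_, fun ⟨j, h⟩ => gen_grow_le j h⟩
  have mo : Monotone fun j => genMod O K ((grow l)^[j] M) ((grow l)^[j] D) :=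
    fun i j h => gen_mono (grow_sub M h) (grow_sub D h)
  refine (Submodule.mem_iSup_of_directed _ mo.directed_le).1 (clM_le (le_iSup_of_le 0 le_rfl)
    (fun φ hφ y hy => ?_) h)
  obtain ⟨j, hj⟩ := (Submodule.mem_iSup_of_directed _ mo.directed_le).1 hy
  refine Submodule.mem_iSup_of_mem (j + 1) ?_
  rw [Function.iterate_succ_apply', Function.iterate_succ_apply']
  exact map_gen φ.mulVecLin (fun z hz => mem_gen_left (mem_grow.2 (Or.inr ⟨φ, hφ, z, hz, rfl⟩)))
    (fun z hz c => smul_mem_gen (mem_grow.2 (Or.inr ⟨φ, hφ, z, hz, rfl⟩)) c) hj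

theorem mc_cast [CharZero K] [DecidableEq ι] (φ : (ι → ℚ) →ₗ[ℚ] (ι → ℚ)) (x : ι → ℚ) :
    mc K φ *ᵥ castV K x = castV K (φ x) := by
  ext i
  conv_rhs => rw [pi_eq_sum_univ' x, map_sum]
  simp [mc, castV, mulVec, dotProduct, mul_comm]

theorem ext_cl [CharZero K] [DecidableEq ι] (l : List ((ι → ℚ) →ₗ[ℚ] (ι → ℚ)))
    (Λ : AddSubgroup (ι → ℚ)) : ext O K (cl l Λ) = clM O (l.map (mc K)) (ext O K Λ) := by
  refine le_antisymm (ext_le.2 (sInf_le ⟨ext_le.1 le_clM, fun φ hφ x hx => ?_⟩))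
    (clM_le (ext_le.2 fun x hx => cast_mem_ext (AddSubgroup.mem_sInf.2 fun P hP => hP.1 hx)) ?_)
  · rw [mem_res, ← mc_cast]
    exact clM_closed (List.mem_map_of_mem hφ) hx
  · intro ψ hψ
    obtain ⟨φ, hφ, rfl⟩ := List.mem_map.1 hψ
    refine (ext_le (N := (ext O K (cl l Λ)).comap ((mc K φ).mulVecLin.restrictScalars O))).2
      fun x hx => ?_
    change mc K φ *ᵥ castV K x ∈ ext O K (cl l Λ)
    rw [mc_cast]
    exact cast_mem_ext (AddSubgroup.mem_sInf.2 fun P hP =>
      hP.2 φ hφ x (AddSubgroup.mem_sInf.1 hx P hP))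

theorem clcert_sound {π : K} (hπ : ∀ c : K, ∃ k : ℕ, IsI O (π ^ k * c))
    {l : List (Matrix ι ι K)} {M D M' D' : List (ι → K)} {j : ℕ}
    (h : ClCert O π l M D M' D' j) : clM O l (genMod O K M D) = genMod O K M' D' := by
  obtain ⟨h1, h2, h3, h4⟩ := h
  have h2' : ∀ x ∈ grow l D' ++ D, ∀ c : K, c • x ∈ genMod O K M' D' := fun x hx c =>
    mem_gen_of_span (Submodule.smul_mem _ c (mem_gen_nil.1 (h2 x hx)))
  refine le_antisymm (clM_le (genMod_le.2 ⟨fun x hx => h1 x (List.mem_append_right _ hx),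
    fun x hx => h2' x (List.mem_append_right _ hx)⟩) fun φ hφ x hx => ?_) (genMod_le.2
      ⟨fun x hx => gen_grow_le j (h3 x (List.mem_append_left _ hx)), ?_⟩)
  · exact map_gen φ.mulVecLin
      (fun z hz => h1 _ (List.mem_append_left _ (mem_grow.2 (Or.inr ⟨φ, hφ, z, hz, rfl⟩))))
      (fun z hz => h2' _ (List.mem_append_left _ (mem_grow.2 (Or.inr ⟨φ, hφ, z, hz, rfl⟩)))) hx
  · have key : ∀ k : ℕ, ∀ d ∈ D', ∀ c, IsI O (π ^ k * c) → c • d ∈ clM O l (genMod O K M D) := by
      intro k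
      induction k with
      | zero =>
        intro d hd c hc
        rw [pow_zero, one_mul] at hc
        exact hc.smul_mem (gen_grow_le j (h3 d (List.mem_append_right _ hd)))
      | succ k ih =>
        intro d hd c hc
        refine map_gen (c • LinearMap.id) (fun z hz => ?_) (fun z hz a => ?_) (h4 d hd)
        · obtain ⟨y, hy, rfl⟩ := List.mem_map.1 hz
          change c • π • y ∈ _
          rw [smul_smul]
          refine grow_ind (line_closed (fun _ h _ => clM_closed h) fun c => IsI O (π ^ k * c))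
            ih j y hy _ ?_
          rwa [mul_comm c, ← mul_assoc, ← pow_succ]
        · change a • c • z ∈ _
          rw [smul_smul]
          exact gen_grow_le j (smul_mem_gen hz _)
    exact fun d hd c => (hπ c).elim fun k hk => key k d hd c hk

namespace LClAAux

open Filter Topology

theorem exists_list {R W : Type} [Semiring R] [AddCommMonoid W] [Module R W] {N : Submodule R W}
    (h : N.FG) : ∃ L : List W, Submodule.span R {x | x ∈ L} = N :=
  h.elim fun s hs => ⟨s.toList, by simpa using hs⟩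

theorem unif {l : List (Matrix ι ι K)} {M D X : List (ι → K)} (f : (ι → K) → ι → K)
    (h : ∀ x ∈ X, f x ∈ clM O l (genMod O K M D)) :
    ∀ᶠ j in atTop, ∀ x ∈ X, f x ∈ genMod O K ((grow l)^[j] M) ((grow l)^[j] D) :=
  (eventually_all_finite (List.finite_toSet X)).2 fun x hx => (mem_clM.1 (h x hx)).elim fun i hi =>
    (eventually_ge_atTop i).mono fun _ hj => gen_mono (grow_sub M hj) (grow_sub D hj) hi

omit [Fintype ι] in
theorem mem_scale {π : K} (hπ : π ≠ 0) {A B : List (ι → K)} {x : ι → K}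
    (h : π⁻¹ • x ∈ genMod O K A B) : x ∈ genMod O K (A.map fun y => π • y) B := by
  have := map_gen (N := genMod O K (A.map fun y => π • y) B) (LinearMap.lsmul K _ π)
    (fun z hz => mem_gen_left (List.mem_map.2 ⟨z, hz, rfl⟩))
    (fun z hz c => by rw [LinearMap.lsmul_apply, smul_smul]; exact smul_mem_gen hz _) h
  rwa [LinearMap.lsmul_apply, smul_inv_smul₀ hπ] at this

variable (O) in
/-- The vectors with denominator `q`. -/
def den (ι : Type) (q : K) : Submodule O (ι → K) where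
  carrier := {x | ∀ i, IsI O (q * x i)}
  zero_mem' := fun i => by simpa using isI_zero O
  add_mem' := fun hx hy i => by rw [Pi.add_apply, mul_add]; exact (hx i).add (hy i)
  smul_mem' := fun o x hx i => by rw [Pi.smul_apply, mul_smul_comm]; exact (hx i).smul o

theorem den_fg {q : K} (hq : q ≠ 0) [IsNoetherianRing O] : (den O ι q).FG := by
  classical
  refine (Submodule.fg_span (R := O)
    (Set.finite_range fun i : ι => (Pi.single i q⁻¹ : ι → K))).of_le fun x hx => ?_
  rw [pi_eq_sum_univ' x]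
  refine Submodule.sum_mem _ fun i _ => ?_
  have : x i • (Pi.single i 1 : ι → K) = (q * x i) • (Pi.single i q⁻¹ : ι → K) := by
    rw [← Pi.single_smul, ← Pi.single_smul, smul_eq_mul, smul_eq_mul, mul_comm q, mul_assoc,
      mul_inv_cancel₀ hq]
  rw [this]
  exact (hx i).smul_mem (Submodule.subset_span ⟨i, rfl⟩)

theorem closedN (p : Nat.Primes) (N : Submodule (Zp p) (ι → Qp p)) :
    IsClosed (N : Set (ι → Qp p)) := by
  obtain ⟨s, hs, he⟩ := (Submodule.fg_span_iff_fg_span_finset_subset (N : Set (ι → Qp p))).1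
    (IsNoetherian.noetherian (Submodule.span (Qp p) _))
  let T := Fintype.linearCombination (Qp p) fun i : s => (i : ι → Qp p)
  have hT : T.range = Submodule.span (Qp p) (N : Set (ι → Qp p)) := by
    rw [Fintype.range_linearCombination, he]; simp
  have ho := T.rangeRestrict.isOpenMap_of_finiteDimensional T.surjective_rangeRestrict
  have h1 : IsOpen (N.toAddSubgroup.comap T.range.subtype.toAddMonoidHom : Set T.range) := by
    refine AddSubgroup.isOpen_of_mem_nhds _ (mem_of_superset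
      (ho.image_mem_nhds (Metric.closedBall_mem_nhds 0 one_pos)) ?_)
    rintro _ ⟨a, ha, rfl⟩
    change ∑ i, a i • (i : ι → Qp p) ∈ N
    exact N.sum_mem fun i _ => (isI_padic.2 ((norm_le_pi_norm a i).trans
      (mem_closedBall_zero_iff.1 ha))).smul_mem (hs i.2)
  have h2 := T.range.closed_of_finiteDimensional.isClosedEmbedding_subtypeVal.isClosedMap _
    (AddSubgroup.isClosed_of_isOpen _ h1)
  have h3 : (N : Set (ι → Qp p)) = Subtype.val ''
      (N.toAddSubgroup.comap T.range.subtype.toAddMonoidHom : Set T.range) :=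
    Set.ext fun x => ⟨fun hx => ⟨⟨x, hT ▸ Submodule.subset_span hx⟩, hx, rfl⟩,
      fun ⟨_, hy, e⟩ => e ▸ hy⟩
  exact h3 ▸ h2

theorem fg_of_noline (p : Nat.Primes) (N : Submodule (Zp p) (ι → Qp p))
    (h : ∀ y, (∀ c : Qp p, c • y ∈ N) → y = 0) : N.FG := by
  suffices ∃ q : Qp p, q ≠ 0 ∧ N ≤ den (Zp p) ι q from
    this.elim fun q hq => (den_fg hq.1).of_le hq.2
  by_contra hn
  let B : ℕ → Set (ι → Qp p) := fun k => ⋂ c ∈ {c : Qp p | ‖c‖ ≤ k}, (fun y => c • y) ⁻¹' N
  have hc : ∀ k, IsClosed (B k) :=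
    fun k => isClosed_biInter fun c _ => (closedN p N).preimage (continuous_const_smul c)
  have hne : ∀ k, (Metric.sphere 0 1 ∩ B k).Nonempty := by
    intro k
    obtain ⟨a, ha⟩ := NormedField.exists_lt_norm (Qp p) k
    have a0 : 0 < ‖a‖ := (Nat.cast_nonneg k).trans_lt ha
    obtain ⟨x, hx, hi⟩ := SetLike.not_le_iff_exists.1 fun h =>
      hn ⟨a⁻¹, inv_ne_zero (norm_pos_iff.1 a0), h⟩
    obtain ⟨i, hi⟩ := not_forall.1 hi
    rw [isI_padic, norm_mul, norm_inv, inv_mul_le_iff₀ a0, mul_one, not_le] at hi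
    have : Nonempty ι := ⟨i⟩
    obtain ⟨m, hm⟩ := Finite.exists_max fun i => ‖x i‖
    have hk : ‖a‖ < ‖x m‖ := hi.trans_le (hm i)
    have m0 := a0.trans hk
    refine ⟨(x m)⁻¹ • x, ?_, Set.mem_iInter₂.2 fun c hc => ?_⟩
    · rw [mem_sphere_zero_iff_norm, norm_smul, norm_inv, le_antisymm
        ((pi_norm_le_iff_of_nonneg m0.le).2 hm) (norm_le_pi_norm x m), inv_mul_cancel₀ m0.ne']
    · change c • (x m)⁻¹ • x ∈ N
      rw [smul_smul]
      refine (isI_padic.2 ?_).smul_mem hx
      rw [norm_mul, norm_inv, mul_inv_le_iff₀ m0, one_mul]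
      exact le_trans hc (ha.trans hk).le
  obtain ⟨y, hy⟩ := IsCompact.nonempty_iInter_of_sequence_nonempty_isCompact_isClosed
    (fun k => Metric.sphere 0 1 ∩ B k) (fun k y hy => ⟨hy.1, Set.mem_iInter₂.2 fun c hc => Set.mem_iInter₂.1 hy.2 c
      (le_trans (a := ‖c‖) hc (Nat.cast_le.2 k.le_succ) :)⟩) hne
    ((isCompact_sphere _ _).inter_right (hc 0)) fun k => Metric.isClosed_sphere.inter (hc k)
  have h0 := h y fun c => (exists_nat_ge ‖c‖).elim fun k hk =>
    Set.mem_iInter₂.1 (Set.mem_iInter.1 hy k).2 c hk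
  simpa [h0] using (Set.mem_iInter.1 hy 0).1

end LClAAux

theorem padic_struct (p : Nat.Primes) (N : Submodule (Zp p) (ι → Qp p)) :
    ∃ M D, N = genMod (Zp p) (Qp p) M D := by
  let U : Submodule (Qp p) (ι → Qp p) :=
    { carrier := {y | ∀ c : Qp p, c • y ∈ N}
      zero_mem' := fun c => by rw [smul_zero]; exact N.zero_mem
      add_mem' := fun hx hy c => by rw [smul_add]; exact N.add_mem (hx c) (hy c)
      smul_mem' := fun a x hx c => by rw [smul_smul]; exact hx _ }
  obtain ⟨W, hW⟩ := U.exists_isCompl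
  obtain ⟨D, hD⟩ := exists_list (IsNoetherian.noetherian U)
  obtain ⟨M, hM⟩ := exists_list (fg_of_noline p (N ⊓ W.restrictScalars (Zp p)) fun y hy =>
    Submodule.disjoint_def.1 hW.disjoint y (fun c => (hy c).1) (by simpa using (hy 1).2))
  refine ⟨M, D, ?_⟩
  rw [genMod, hM, hD]
  have hU : ∀ u ∈ U, u ∈ N := fun u hu => by simpa using hu 1
  refine le_antisymm (fun x hx => ?_) (sup_le inf_le_left hU)
  obtain ⟨u, hu, w, hw, rfl⟩ := Submodule.mem_sup.1 (hW.sup_eq_top ▸ Submodule.mem_top : x ∈ U ⊔ W)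
  exact add_mem (Submodule.mem_sup_right hu)
    (Submodule.mem_sup_left ⟨(N.add_mem_iff_right (hU u hu)).1 hx, hw⟩)

theorem clcert_loc (p : Nat.Primes) (l : List (Matrix ι ι (Qp p))) (M D : List (ι → Qp p)) :
    ∃ M' D' j, ClCert (Zp p) ((p.1 : ℕ) : Qp p) l M D M' D' j := by
  obtain ⟨M', D₀, hN⟩ := padic_struct p (clM (Zp p) l (genMod (Zp p) (Qp p) M D))
  let U := Submodule.span (Qp p) {x | x ∈ D₀}
  let S := Submodule.span (Zp p) {x | x ∈ grow l M' ++ M}
  have hUN : ∀ x ∈ U, x ∈ clM (Zp p) l (genMod (Zp p) (Qp p) M D) :=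
    fun x hx => hN ▸ mem_gen_of_span hx
  have hUc : ∀ φ ∈ l, ∀ x ∈ U, φ *ᵥ x ∈ U := fun φ hφ x hx => line_memL (nice_padic p) (M := M')
    fun c => hN ▸ mulVec_smul φ c x ▸ clM_closed hφ (hUN _ (U.smul_mem c hx))
  have hD : ∀ x ∈ D, x ∈ U := fun x hx => line_memL (nice_padic p) (M := M')
    fun c => hN ▸ le_clM (smul_mem_gen hx c)
  obtain ⟨X, hX⟩ := exists_list ((Submodule.fg_span (List.finite_toSet _) : S.FG).of_le
    (inf_le_left (b := U.restrictScalars (Zp p))))
  have hD' : ∀ x ∈ D₀ ++ X, x ∈ U := fun x hx => (List.mem_append.1 hx).elim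
    (fun h => Submodule.subset_span h) fun h => (hX.le (Submodule.subset_span h)).2
  have hS : ∀ x ∈ grow l M' ++ M, x ∈ clM (Zp p) l (genMod (Zp p) (Qp p) M D) := fun x hx =>
    (List.mem_append.1 hx).elim (grow_ind (fun _ h _ => clM_closed h)
      (fun y hy => hN ▸ mem_gen_left hy) 1 x) fun h => le_clM (mem_gen_left h)
  let P := clM (Zp p) l (genMod (Zp p) (Qp p) (D₀ ++ X) D)
  have hP : ∀ x ∈ S, x ∈ U → x ∈ P := fun x h1 h2 => le_clM (Submodule.mem_sup_left
    (Submodule.span_mono (fun _ h => List.mem_append_right _ h) (hX.ge ⟨h1, h2⟩)))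
  have hPU : P ≤ U.restrictScalars (Zp p) :=
    clM_le (genMod_le.2 ⟨hD', fun d hd c => U.smul_mem c (hD d hd)⟩) hUc
  have hM' : Submodule.span (Zp p) {x | x ∈ M'} ≤ S :=
    Submodule.span_mono fun _ h => List.mem_append_left _ (mem_grow.2 (Or.inl h))
  have hQ : ∀ x ∈ grow l M' ++ M, x ∈ Submodule.span (Zp p) {x | x ∈ M'} ⊔ P := by
    intro x hx
    obtain ⟨a, ha, u, hu, e⟩ := Submodule.mem_sup.1 (hN.le (hS x hx))
    refine Submodule.mem_sup.2 ⟨a, ha, u, hP u ?_ hu, e⟩
    rw [eq_sub_of_add_eq' e]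
    exact S.sub_mem (Submodule.subset_span hx) (hM' ha)
  have hUP : ∀ u ∈ U, u ∈ P := by
    intro u hu
    obtain ⟨a, ha, q, hq, rfl⟩ := Submodule.mem_sup.1 (clM_le
      (P := Submodule.span (Zp p) {x | x ∈ M'} ⊔ P) (genMod_le.2
        ⟨fun x hx => hQ x (List.mem_append_right _ hx),
          fun d hd c => Submodule.mem_sup_right (le_clM (smul_mem_gen hd c))⟩)
      (fun φ hφ => (sup_le (Submodule.span_le.2 fun x hx => hQ _ (List.mem_append_left _
        (mem_grow.2 (Or.inr ⟨φ, hφ, x, hx, rfl⟩)))) fun x hx => Submodule.mem_sup_right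
          (clM_closed hφ hx) : _ ≤ (Submodule.span (Zp p) {x | x ∈ M'} ⊔ P).comap
            (φ.mulVecLin.restrictScalars (Zp p))))
      (hUN u hu))
    exact P.add_mem (hP a (hM' ha) ((U.add_mem_iff_left (hPU hq)).1 hu)) hq
  obtain ⟨j, h3, h4⟩ := ((unif (X := M' ++ (D₀ ++ X)) id fun x hx => (List.mem_append.1 hx).elim
    (fun h => hN.ge (mem_gen_left h)) fun h => hUN x (hD' x h)).and (unif
      (fun x => ((p.1 : ℕ) : Qp p)⁻¹ • x) fun x hx => hUP _ (U.smul_mem _ (hD' x hx)))).exists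
  refine ⟨M', D₀ ++ X, j, fun x hx => gen_mono (fun _ h => h) (List.subset_append_left _ _)
    (hN.le (hS x hx)), fun x hx => mem_gen_of_span (Submodule.span_mono
      (fun _ h => List.mem_append_left _ h) ((List.mem_append.1 hx).elim
        (grow_ind hUc hD' 1 x) (hD x))), h3,
    fun x hx => mem_scale (Nat.cast_ne_zero.2 p.2.ne_zero) (h4 x hx)⟩

theorem clcert_glob (h : Nice O K) {l : List (Matrix ι ι K)} (hl : ∀ φ ∈ l, ∀ i j, IsI O (φ i j))
    (M D : List (ι → K)) : ∃ M' D' j, ClCert O 0 l M D M' D' j := by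
  have := h.dom
  have := h.pid
  have := h.frac
  obtain ⟨q, hq⟩ := IsLocalization.exist_integer_multiples_of_finite (nonZeroDivisors O)
    fun t : Fin M.length × ι => M.get t.1 t.2
  have q0 : algebraMap O K q ≠ 0 := IsFractionRing.to_map_ne_zero_of_mem_nonZeroDivisors q.2
  have hf : clM O l (genMod O K M []) ≤ den O ι (algebraMap O K q) := by
    refine clM_le (genMod_le.2 ⟨fun x hx i => ?_, by simp⟩) fun φ hφ x hx i => ?_
    · obtain ⟨n, rfl⟩ := List.mem_iff_get.1 hx
      rw [← Algebra.smul_def]; exact hq (n, i)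
    · rw [mulVec, dotProduct, Finset.mul_sum]
      refine Finset.sum_induction _ _ (fun _ _ => IsI.add) (isI_zero O) fun k _ => ?_
      rw [mul_left_comm]; exact (hl φ hφ i k).mul (hx k)
  obtain ⟨M', hM⟩ := exists_list ((den_fg q0).of_le hf)
  obtain ⟨D', hD⟩ := exists_list (IsNoetherian.noetherian (clM K l (genMod K K [] D)))
  obtain ⟨j, h3, h4⟩ := ((unif (X := M') id fun x hx => hM.le (Submodule.subset_span hx)).and
    (unif (X := D') id fun x hx => hD.le (Submodule.subset_span hx))).exists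
  simp only [grow_nil, mem_gen_nil] at h3 h4
  refine ⟨M', D', j, fun x hx => Submodule.mem_sup_left (hM.ge ((List.mem_append.1 hx).elim
    (grow_ind (fun _ h _ => clM_closed h) (fun y hy => hM.le (Submodule.subset_span hy)) 1 x)
    fun h => le_clM (mem_gen_left h))), fun x hx => mem_gen_of_span (hD.ge
      ((List.mem_append.1 hx).elim (grow_ind (fun _ h _ => clM_closed h)
        (fun y hy => hD.le (Submodule.subset_span hy)) 1 x) fun h => le_clM (mem_gen_right h))),
    fun x hx => (List.mem_append.1 hx).elim (fun h => gen_mono (fun _ h => h)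
      (List.nil_subset _) (h3 x h)) fun h => mem_gen_of_span (h4 x h),
    fun x hx => mem_gen_of_span (h4 x hx)⟩

end Pool.Agent.P.MP_257122_al
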