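import Pool.Agent.P.MP_257122_al.LAsm
import Pool.Agent.P.MP_257122_al.LClA

/-!
# Closure under a list of matrices: the algorithm

A specialisation eventually commutes with `grow l`, with its iterates and with `π • ·`, so
certificates can be taken with coded entries; they are found by search.  The closure of a
described group is assembled from one global and finitely many local closures.
-/

namespace Pool.Agent.P.MP_257122_al

open Matrix Filter

namespace LClBAux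

section pure
variable {O K : Type} [CommRing O] [Field K] [Algebra O K] [Rep K] {ι : Type} [Fintype ι]
  {L : Filter (K → K)}

theorem mulVec_map (h : IsSpec O L) {φ : Matrix ι ι K} (hφ : ∀ i j, Coded (φ i j)) (x : ι → K) :
    ∀ᶠ ψ in L, ψ ∘ (φ *ᵥ x) = φ *ᵥ (ψ ∘ x) := by
  have h1 : ∀ᶠ ψ in L, ∀ i, ψ ((φ *ᵥ x) i) = (φ *ᵥ (ψ ∘ x)) i := by
    refine eventually_all.2 fun i => ?_
    filter_upwards [h.dot (φ i) x, h.fixV (hφ i)] with ψ a b
    change ψ (φ i ⬝ᵥ x) = φ i ⬝ᵥ (ψ ∘ x)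
    rw [a, b]
  filter_upwards [h1] with ψ a
  exact funext a

theorem grow_map (h : IsSpec O L) {l : List (Matrix ι ι K)}
    (hl : ∀ φ ∈ l, ∀ i j, Coded (φ i j)) (X : List (ι → K)) :
    ∀ᶠ ψ in L, (grow l X).map (fun x => ψ ∘ x) = grow l (X.map fun x => ψ ∘ x) := by
  have h1 : ∀ᶠ ψ in L, ∀ φ ∈ l, ∀ x ∈ X, ψ ∘ (φ *ᵥ x) = φ *ᵥ (ψ ∘ x) :=
    IsSpec.all fun φ hφ => IsSpec.all fun x _ => mulVec_map h (hl φ hφ) x
  filter_upwards [h1] with ψ a
  simp only [grow, pairs, List.map_append, List.map_flatMap, List.map_map]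
  congr 1
  exact List.flatMap_congr fun φ hφ => List.map_congr_left fun x hx => a φ hφ x hx

theorem iter_map (h : IsSpec O L) {l : List (Matrix ι ι K)}
    (hl : ∀ φ ∈ l, ∀ i j, Coded (φ i j)) (j : ℕ) (X : List (ι → K)) :
    ∀ᶠ ψ in L, ((grow l)^[j] X).map (fun x => ψ ∘ x) =
      (grow l)^[j] (X.map fun x => ψ ∘ x) := by
  induction j with
  | zero => exact Eventually.of_forall fun _ => rfl
  | succ j ih =>
    filter_upwards [ih, grow_map h hl ((grow l)^[j] X)] with ψ a b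
    rw [Function.iterate_succ_apply', Function.iterate_succ_apply', b, a]

end pure

end LClBAux

theorem IsSpec.clcert {O K : Type} [CommRing O] [Field K] [Algebra O K] [Rep K] {ι : Type}
    [Fintype ι] {L : Filter (K → K)} (h : IsSpec O L) {π : K} {l : List (Matrix ι ι K)}
    {M D M' D' : List (ι → K)} {j : ℕ} (hπ : Coded π) (hl : ∀ φ ∈ l, ∀ i j, Coded (φ i j))
    (hM : ∀ x ∈ M, ∀ i, Coded (x i)) (hD : ∀ x ∈ D, ∀ i, Coded (x i))
    (hc : ClCert O π l M D M' D' j) :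
    ∀ᶠ ψ in L, ClCert O π l M D (M'.map fun x => ψ ∘ x) (D'.map fun x => ψ ∘ x) j := by
  obtain ⟨h1, h2, h3, h4⟩ := hc
  filter_upwards [IsSpec.all fun x hx => h.gen (h1 x hx), IsSpec.all fun x hx => h.gen (h2 x hx),
    IsSpec.all fun x hx => h.gen (h3 x hx), IsSpec.all fun x hx => h.gen (h4 x hx),
    LClBAux.grow_map h hl M', LClBAux.grow_map h hl D', LClBAux.iter_map h hl j M,
    LClBAux.iter_map h hl j D, LClBAux.iter_map h hl j D', h.fixL hM, h.fixL hD,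
    IsSpec.all (fun y (_ : y ∈ (grow l)^[j] D') => h.smul π y), h.fix π hπ]
    with ψ a1 a2 a3 a4 gM gD iM iD iD' fM fD s fπ
  rw [fM] at iM
  rw [fD] at iD
  refine ⟨fun x hx => ?_, fun x hx => ?_, fun x hx => ?_, fun x hx => ?_⟩
  · have : x ∈ (grow l M' ++ M).map fun x => ψ ∘ x := by rwa [List.map_append, gM, fM]
    obtain ⟨y, hy, rfl⟩ := List.mem_map.1 this
    exact a1 y hy
  · have : x ∈ (grow l D' ++ D).map fun x => ψ ∘ x := by rwa [List.map_append, gD, fD]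
    obtain ⟨y, hy, rfl⟩ := List.mem_map.1 this
    exact a2 y hy
  · have : x ∈ (M' ++ D').map fun x => ψ ∘ x := by rwa [List.map_append]
    obtain ⟨y, hy, rfl⟩ := List.mem_map.1 this
    have := a3 y hy
    rwa [iM, iD] at this
  · obtain ⟨y, hy, rfl⟩ := List.mem_map.1 hx
    have := a4 y hy
    have e : (((grow l)^[j] D').map fun y => π • y).map (fun x => ψ ∘ x) =
        ((grow l)^[j] (D'.map fun x => ψ ∘ x)).map fun y => π • y := by
      rw [← iD', List.map_map, List.map_map]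
      refine List.map_congr_left fun z hz => ?_
      have := s z hz
      rwa [fπ] at this
    rwa [e, iD] at this

variable {A : Type} [Rep A] {ι : A → Type} [∀ a, Rep (ι a)] [∀ a, Fintype (ι a)]
  [∀ a, DecidableEq (ι a)]

namespace LClBAux

theorem p1 {T : A → Type} [∀ a, Rep (T a)] : CS (fun p : Σ a, T a => p.1) := CS.sfst CS.id

theorem p2 {T : A → Type} [∀ a, Rep (T a)] : CS (fun p : Σ a, T a => p.2) := CS.ssnd CS.id

theorem s1 {T : A → Type} [∀ a, Rep (T a)] {Q : (Σ a, T a) → Prop} :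
    CS (fun p : {p : Σ a, T a // Q p} => p.1.1) := p1.comp (CS.val CS.id)

theorem s2 {T : A → Type} [∀ a, Rep (T a)] {Q : (Σ a, T a) → Prop} :
    CS (fun p : {p : Σ a, T a // Q p} => p.1.2) := p2.comp (CS.val CS.id)

section fam
variable {O K : A → Type} [∀ a, CommRing (O a)] [∀ a, Field (K a)]
  [∀ a, Algebra (O a) (K a)] [∀ a, Rep (K a)] {π : ∀ a, K a}
  {l : ∀ a, List (Matrix (ι a) (ι a) (K a))} {X M D M' D' : ∀ a, List (ι a → K a)} {j : A → ℕ}

omit [∀ a, Fintype (ι a)] [∀ a, DecidableEq (ι a)] in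
theorem allGen (hK : FK O K) (hι : CFin ι) (hX : CS X) (hM : CS M) (hD : CS D) :
    CS (fun a => ∀ x ∈ X a, x ∈ genMod (O a) (K a) (M a) (D a)) :=
  CS.allMem hX (CS.memGen (hK.comp p1) (hι.comp p1) (hM.comp p1) (hD.comp p1) p2)

omit [∀ a, DecidableEq (ι a)] in
theorem cs_mulVec (hK : FK O K) (hι : CFin ι) :
    CS (fun a => fun (φ : Matrix (ι a) (ι a) (K a)) (x : ι a → K a) => φ *ᵥ x) :=
  CS.lam (CS.lam (CS.mulVec (hι.comp (p1.comp p1)) (hK.add.comp (p1.comp p1))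
    (hK.zero.comp (p1.comp p1)) (hK.mul.comp (p1.comp p1)) (p2.comp p1) p2))

omit [∀ a, DecidableEq (ι a)] in
theorem cs_grow (hK : FK O K) (hι : CFin ι) (hl : CS l) : CS (fun a => grow (l a)) :=
  CS.lam (CS.append p2 (CS.prs ((cs_mulVec hK hι).comp p1) (hl.comp p1) p2))

omit [∀ a, DecidableEq (ι a)] in
theorem cs_clcert (hK : FK O K) (hι : CFin ι) (hπ : CS π) (hl : CS l) (hM : CS M) (hD : CS D)
    (hM' : CS M') (hD' : CS D') (hj : CS j) :
    CS (fun a => ClCert (O a) (π a) (l a) (M a) (D a) (M' a) (D' a) (j a)) := by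
  have hg := cs_grow hK hι hl
  have hs : CS (fun a => fun y : ι a → K a => π a • y) :=
    CS.lam (CS.smul (SMulF.pi (SMulF.self (hK.mul.comp p1))) (hπ.comp p1) p2)
  exact CS.and (allGen hK hι (CS.append (CS.app hg hM') hM) hM' hD')
    (CS.and (allGen hK hι (CS.append (CS.app hg hD') hD) CS.nil hD')
      (CS.and (allGen hK hι (CS.append hM' hD') (CS.iterate hg hj hM) (CS.iterate hg hj hD))
        (allGen hK hι hD' (CS.map hs (CS.iterate hg hj hD')) (CS.iterate hg hj hD))))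

omit [∀ a, DecidableEq (ι a)] in
theorem mv_clcert (hK : FK O K) (hι : CFin ι) (hd : Disc ι) (hπ : CS π) (hl : CS l) (hM : CS M)
    (hD : CS D) (hc : ∀ a M D, ∃ M' D' j, ClCert (O a) (π a) (l a) M D M' D' j) :
    MV (fun a (q : List (ι a → K a) × List (ι a → K a) × ℕ) =>
      ClCert (O a) (π a) (l a) (M a) (D a) q.1 q.2.1 q.2.2) := by
  have hE : EnumC (fun a => List (ι a → K a)) := EnumC.list (EnumC.pi hι hd (hK.enum.comp p1))
  refine MV.searchC (hE.prod (hE.prod Enum.nat.toC))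
    (cs_clcert (hK.comp p1) (hι.comp p1) (hπ.comp p1) (hl.comp p1) (hM.comp p1) (hD.comp p1)
      (CS.fst p2) (CS.fst (CS.snd p2)) (CS.snd (CS.snd p2))) (fun _ _ h => h) fun a ha => ?_
  obtain ⟨M', D', j, h⟩ := hc a (M a) (D a)
  obtain ⟨L, hL⟩ := hK.spec a
  have hi : ∀ i : ι a, Coded i := hι.enum.coded ha
  have hl' : ∀ φ ∈ l a, ∀ i j, Coded (φ i j) := fun φ hφ i j =>
    Coded.app (Coded.app (T := fun _ => ι a → K a) (coded_list.1 (hl.coded ha) φ hφ) (hi i)) (hi j)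
  have hv : ∀ {Y : List (ι a → K a)}, Coded Y → ∀ x ∈ Y, ∀ i, Coded (x i) := fun hY x hx =>
    (coded_vec_iff hι hd ha).1 (coded_list.1 hY x hx)
  have := hL.ne
  obtain ⟨ψ, h1, h2⟩ := ((hL.clcert (hπ.coded ha) hl' (hv (hM.coded ha)) (hv (hD.coded ha))
    h).and hL.coded).exists
  have hw : ∀ Y : List (ι a → K a), Coded (Y.map fun x => ψ ∘ x) := fun Y =>
    coded_list.2 fun x hx => by
      obtain ⟨y, -, rfl⟩ := List.mem_map.1 hx
      exact (coded_vec_iff hι hd ha).2 fun i => h2 _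
  exact ⟨(_, _, j), coded_prod.2 ⟨hw M', coded_prod.2 ⟨hw D', Tot.tot _⟩⟩, h1⟩

theorem cs_mc {l : ∀ a, List ((ι a → ℚ) →ₗ[ℚ] (ι a → ℚ))} (hK : FK O K) (hι : CFin ι)
    (hd : Disc ι) (hl : CS l) : CS (fun a => (l a).map (mc (K a))) := by
  have q1 : CS (fun p : Σ q : Σ r : Σ a, ((ι a → ℚ) →ₗ[ℚ] (ι a → ℚ)), ι r.1, ι q.1.1 =>
      p.1.1.1) := p1.comp (p1.comp p1)
  have h1 : CS (fun p : Σ q : Σ r : Σ a, ((ι a → ℚ) →ₗ[ℚ] (ι a → ℚ)), ι r.1, ι q.1.1 =>
      castV (K p.1.1.1) (p.1.1.2 (Pi.single p.2 1)) p.1.2) :=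
    CS.app (CS.castVec (hK.comp q1) (CS.linApp (p2.comp (p1.comp p1))
      (CS.piSingle (hd.comp q1) ((hι.haus hd).comp q1) ZeroF.rat p2 CS.const))) (p2.comp p1)
  exact CS.map (CS.lam (CS.matrixOf (CS.lam (CS.lam h1)))) hl

end fam

end LClBAux

theorem GenF.closure {O K : A → Type} [∀ a, CommRing (O a)] [∀ a, Field (K a)]
    [∀ a, Algebra (O a) (K a)] [∀ a, Rep (K a)] {N : ∀ a, Submodule (O a) (ι a → K a)}
    {π : ∀ a, K a} {l : ∀ a, List (Matrix (ι a) (ι a) (K a))} (h : GenF O K N) (hK : FK O K)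
    (hι : CFin ι) (hd : Disc ι) (hπ : CS π) (hl : CS l)
    (hs : ∀ a (c : K a), ∃ k : ℕ, IsI (O a) (π a ^ k * c))
    (hc : ∀ a M D, ∃ M' D' j, ClCert (O a) (π a) (l a) M D M' D' j) :
    GenF O K (fun a => clM (O a) (l a) (N a)) := by
  refine MV.bind h (MV.bind (LClBAux.mv_clcert (hK.comp LClBAux.s1) (hι.comp LClBAux.s1)
    (hd.comp LClBAux.s1) (hπ.comp LClBAux.s1) (hl.comp LClBAux.s1) (CS.fst LClBAux.s2)
    (CS.snd LClBAux.s2) fun p => hc p.1.1) ?_)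
  refine MV.of_cs (CS.pair (CS.fst LClBAux.s2) (CS.fst (CS.snd LClBAux.s2))) fun p _ => ?_
  have e := p.1.1.2
  dsimp only at e ⊢
  rw [e]
  exact clcert_sound (hs _) p.2

namespace LClBAux

theorem exists_den {κ : Type} [Fintype κ] (l : List (Matrix κ κ ℚ)) :
    ∃ e : ℕ, 0 < e ∧ ∀ φ ∈ l, ∀ i j, φ i j ∈ Zinv e := by
  refine ⟨(l.map fun φ => ∏ i, ∏ j, (φ i j).den).prod, List.prod_pos fun n hn => ?_,
    fun φ hφ i j p _ hp => ?_⟩
  · obtain ⟨φ, -, rfl⟩ := List.mem_map.1 hn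
    exact Finset.prod_pos fun i _ => Finset.prod_pos fun j _ => (φ i j).den_pos
  · exact hp.trans (((Finset.dvd_prod_of_mem (fun j => (φ i j).den) (Finset.mem_univ j)).trans
      (Finset.dvd_prod_of_mem (fun i => ∏ j, (φ i j).den) (Finset.mem_univ i))).trans
      (List.dvd_prod (List.mem_map.2 ⟨φ, hφ, rfl⟩)))

theorem padic_pow (p : Nat.Primes) (c : Qp p) :
    ∃ k : ℕ, IsI (Zp p) (((p.1 : ℕ) : Qp p) ^ k * c) := by
  have h0 : (0 : ℝ) < ‖c‖ + 1 := by positivity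
  obtain ⟨k, hk⟩ := exists_pow_lt_of_lt_one (inv_pos.2 h0) (Padic.norm_p_lt_one (p := p.1))
  refine ⟨k, isI_padic.2 ?_⟩
  rw [norm_mul, norm_pow]
  calc ‖((p.1 : ℕ) : Qp p)‖ ^ k * ‖c‖ ≤ (‖c‖ + 1)⁻¹ * (‖c‖ + 1) :=
        mul_le_mul hk.le (by linarith) (norm_nonneg _) (inv_pos.2 h0).le
    _ = 1 := inv_mul_cancel₀ h0.ne'

theorem clC0 {l : ∀ a, List ((ι a → ℚ) →ₗ[ℚ] (ι a → ℚ))} {Λ : ∀ a, AddSubgroup (ι a → ℚ)}
    (hι : CFin ι) (hd : Disc ι) (hl : CS l) (h : CS Λ) {e : A → ℕ} (he : CS e)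
    (he0 : ∀ a, 0 < e a) (hz : ∀ a, ∀ φ ∈ (l a).map (mc ℚ), ∀ i j, φ i j ∈ Zinv (e a)) :
    CS (fun a => cl (l a) (Λ a)) := by
  refine CS.assemble hι hd hι hd hι hd h h he he0
    (fun a m => clM (Zinv m) ((l a).map (mc ℚ)) (ext (Zinv m) ℚ (Λ a)))
    (fun a p => clM (Zp p) ((l a).map (mc (Qp p))) (ext (Zp p) (Qp p) (Λ a)))
    (fun a m hm x => ?_) (fun B _ g m hg hm h0 hdv h1 _ => ?_) ?_
  · rw [mem_iff_local _ hm, glob_eq, ext_cl, castK_rat]
    simp only [loc_eq, ext_cl]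
  · have hK := FK.zinv hm h0
    refine GenF.toCon (GenF.closure (π := fun _ => 0) h1 hK (hι.comp hg) (hd.comp hg) CS.const
      (cs_mc hK (hι.comp hg) (hd.comp hg) (hl.comp hg)) (fun b c => ⟨1, ?_⟩) fun b M D => ?_)
      hK (hι.comp hg) (hd.comp hg)
    · rw [pow_one, zero_mul]; exact isI_zero _
    · exact clcert_glob (nice_zinv (h0 b))
        (fun φ hφ i j => isI_zinv.2 (zinv_mono (hdv b) (hz _ φ hφ i j))) M D
  · have hp : CS (fun b : Σ _ : A, Nat.Primes => b.2) := p2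
    have hK := FK.padic hp
    exact GenF.toCon (GenF.closure (π := fun b : Σ _ : A, Nat.Primes => ((b.2.1 : ℕ) : Qp b.2))
      (GenF.atPrime (hι.comp p1) (hd.comp p1) hp (h.comp p1)) hK (hι.comp p1) (hd.comp p1)
      (CS.natCast hK.add hK.zero hK.one (CS.primeVal hp))
      (cs_mc hK (hι.comp p1) (hd.comp p1) (hl.comp p1)) (fun b c => padic_pow b.2 c)
      fun b M D => clcert_loc b.2 _ M D) hK (hι.comp p1) (hd.comp p1)

end LClBAux

theorem CS.clC {l : ∀ a, List ((ι a → ℚ) →ₗ[ℚ] (ι a → ℚ))} {Λ : ∀ a, AddSubgroup (ι a → ℚ)}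
    (hι : CFin ι) (hd : Disc ι) (hl : CS l) (h : CS Λ) : CS (fun a => cl (l a) (Λ a)) := by
  have hm : CS (fun a => (l a).map (mc ℚ)) :=
    LClBAux.cs_mc (FK.zinv (m := fun _ => 1) CS.const fun _ => one_pos) hι hd hl
  have hs : MV (fun a (e : ℕ) => 0 < e ∧ ∀ φ ∈ (l a).map (mc ℚ), ∀ i j, φ i j ∈ Zinv e) := by
    refine MV.search Enum.nat (CS.and ?_ (CS.allMem (hm.comp LClBAux.p1) ?_)) (fun _ _ h => h)
      fun a _ => LClBAux.exists_den _
    · exact CS.lt LtF.nat CS.const LClBAux.p2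
    · refine CS.all (hι.comp (LClBAux.p1.comp LClBAux.p1)) (CS.all
        (hι.comp (LClBAux.p1.comp (LClBAux.p1.comp LClBAux.p1))) (CS.memZinv
          (LClBAux.p2.comp (LClBAux.p1.comp (LClBAux.p1.comp LClBAux.p1))) ?_))
      exact CS.mapp (LClBAux.p2.comp (LClBAux.p1.comp LClBAux.p1)) (LClBAux.p2.comp LClBAux.p1)
        LClBAux.p2
  exact MV.elim hs (LClBAux.clC0 (hι.comp LClBAux.s1) (hd.comp LClBAux.s1) (hl.comp LClBAux.s1)
    (h.comp LClBAux.s1) LClBAux.s2 (fun p => p.2.1) fun p => p.2.2)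

end Pool.Agent.P.MP_257122_al
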