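import Pool.Agent.P.MP_257122_al.LBil
import Pool.Agent.P.MP_257122_al.LClB

/-!
# Computing with described subgroups of rational vector spaces

The interface of the chapter on described subgroups: this file and the files it imports
(`LDens`, `LEasy`, `LAsm`).
-/

namespace Pool.Agent.P.MP_257122_al

namespace LOpsAux

section pure
variable {V W X Y : Type} [AddCommGroup V] [Module ℚ V] [AddCommGroup W] [Module ℚ W]
  [AddCommGroup X] [Module ℚ X] [AddCommGroup Y] [Module ℚ Y]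

theorem mem_lcomap {φ : V →ₗ[ℚ] W} {Λ : AddSubgroup W} {x : V} : x ∈ lcomap φ Λ ↔ φ x ∈ Λ :=
  Iff.rfl

theorem mem_lmap {φ : V →ₗ[ℚ] W} {Λ : AddSubgroup V} {y : W} :
    y ∈ lmap φ Λ ↔ ∃ x ∈ Λ, φ x = y := Iff.rfl

theorem mem_scal {q : ℚ} {Λ : AddSubgroup V} {y : V} : y ∈ scal q Λ ↔ ∃ x ∈ Λ, q • x = y :=
  Iff.rfl

theorem mem_homLat {β : X →ₗ[ℚ] V →ₗ[ℚ] W} {Λ : AddSubgroup V} {M : AddSubgroup W} {ξ : X} :
    ξ ∈ homLat β Λ M ↔ ∀ v ∈ Λ, β ξ v ∈ M := Iff.rfl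

theorem bil_le {β : V →ₗ[ℚ] W →ₗ[ℚ] X} {Λ : AddSubgroup V} {M : AddSubgroup W}
    {P : AddSubgroup X} : bil β Λ M ≤ P ↔ ∀ x ∈ Λ, ∀ y ∈ M, β x y ∈ P := by
  rw [bil, AddSubgroup.closure_le]
  exact ⟨fun h x hx y hy => h ⟨x, hx, y, hy, rfl⟩, fun h _ ⟨x, hx, y, hy, e⟩ => e ▸ h x hx y hy⟩

theorem bil_right (β : V →ₗ[ℚ] W →ₗ[ℚ] X) (Λ : AddSubgroup V) (M : AddSubgroup W)
    {φ : X →ₗ[ℚ] Y} {ψ : Y →ₗ[ℚ] X} (h : ∀ x, ψ (φ x) = x) :
    lcomap φ (bil (β.compr₂ φ) Λ M) = bil β Λ M := by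
  refine le_antisymm (fun z hz => ?_) (bil_le.2 fun x hx y hy => bil_le.1 le_rfl x hx y hy)
  have : bil (β.compr₂ φ) Λ M ≤ lcomap ψ (bil β Λ M) := bil_le.2 fun x hx y hy => by
    rw [mem_lcomap, LinearMap.compr₂_apply, h]; exact bil_le.1 le_rfl x hx y hy
  exact h z ▸ mem_lcomap.1 (this (mem_lcomap.1 hz))

theorem bil_left (β : V →ₗ[ℚ] W →ₗ[ℚ] X) (Λ : AddSubgroup V) (M : AddSubgroup W)
    {φ : V →ₗ[ℚ] Y} {ψ : Y →ₗ[ℚ] V} (h : ∀ x, ψ (φ x) = x) :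
    bil (β ∘ₗ ψ) (lcomap ψ Λ) M = bil β Λ M := by
  refine le_antisymm (bil_le.2 fun x hx y hy =>
    bil_le.1 (le_refl (bil β Λ M)) (ψ x) (mem_lcomap.1 hx) y hy) (bil_le.2 fun x hx y hy => ?_)
  have := bil_le.1 (le_refl (bil (β ∘ₗ ψ) (lcomap ψ Λ) M)) (φ x) (by rwa [mem_lcomap, h]) y hy
  rwa [LinearMap.comp_apply, h] at this

theorem bil_flip (β : V →ₗ[ℚ] W →ₗ[ℚ] X) (Λ : AddSubgroup V) (M : AddSubgroup W) :
    bil β.flip M Λ = bil β Λ M :=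
  le_antisymm (bil_le.2 fun x hx y hy => bil_le.1 le_rfl y hy x hx)
    (bil_le.2 fun x hx y hy => bil_le.1 (le_refl (bil β.flip M Λ)) y hy x hx)

theorem hom_right (β : X →ₗ[ℚ] V →ₗ[ℚ] W) (Λ : AddSubgroup V) (M : AddSubgroup W)
    {φ : W →ₗ[ℚ] Y} {ψ : Y →ₗ[ℚ] W} (h : ∀ x, ψ (φ x) = x) :
    homLat (β.compr₂ φ) Λ (lcomap ψ M) = homLat β Λ M := by
  ext ξ; simp only [mem_homLat, mem_lcomap, LinearMap.compr₂_apply, h]

theorem hom_mid (β : X →ₗ[ℚ] V →ₗ[ℚ] W) (Λ : AddSubgroup V) (M : AddSubgroup W)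
    {φ : V →ₗ[ℚ] Y} {ψ : Y →ₗ[ℚ] V} (h : ∀ x, ψ (φ x) = x) :
    homLat (β.flip ∘ₗ ψ).flip (lcomap ψ Λ) M = homLat β Λ M := by
  ext ξ
  simp only [mem_homLat, mem_lcomap, LinearMap.flip_apply, LinearMap.comp_apply]
  exact ⟨fun k v hv => by simpa only [h] using k (φ v) (by rwa [h]), fun k v hv => k _ hv⟩

theorem hom_left (β : X →ₗ[ℚ] V →ₗ[ℚ] W) (Λ : AddSubgroup V) (M : AddSubgroup W)
    {φ : X →ₗ[ℚ] Y} {ψ : Y →ₗ[ℚ] X} (h : ∀ x, ψ (φ x) = x) :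
    lcomap φ (homLat (β ∘ₗ ψ) Λ M) = homLat β Λ M := by
  ext ξ; simp only [mem_homLat, mem_lcomap, LinearMap.comp_apply, h]

theorem cl_le {l : List (V →ₗ[ℚ] V)} {Λ P : AddSubgroup V} (h : Λ ≤ P)
    (h' : ∀ f ∈ l, ∀ x ∈ P, f x ∈ P) : cl l Λ ≤ P := sInf_le ⟨h, h'⟩

theorem le_cl (l : List (V →ₗ[ℚ] V)) (Λ : AddSubgroup V) : Λ ≤ cl l Λ := le_sInf fun _ h => h.1

theorem cl_map {l : List (V →ₗ[ℚ] V)} {Λ : AddSubgroup V} {f : V →ₗ[ℚ] V} (hf : f ∈ l) {x : V}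
    (hx : x ∈ cl l Λ) : f x ∈ cl l Λ :=
  AddSubgroup.mem_sInf.2 fun P hP => hP.2 f hf x (AddSubgroup.mem_sInf.1 hx P hP)

theorem cl_coord (l : List (V →ₗ[ℚ] V)) (Λ : AddSubgroup V) {φ : V →ₗ[ℚ] Y} {ψ : Y →ₗ[ℚ] V}
    (h : ∀ x, ψ (φ x) = x) :
    lcomap φ (cl (l.map fun f => φ ∘ₗ f ∘ₗ ψ) (lcomap ψ Λ)) = cl l Λ := by
  refine le_antisymm (fun z hz => ?_) (cl_le (fun x hx => mem_lcomap.2
    (le_cl _ _ (mem_lcomap.2 ((h x).symm ▸ hx)))) fun f hf x hx => ?_)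
  · have : cl (l.map fun f => φ ∘ₗ f ∘ₗ ψ) (lcomap ψ Λ) ≤ lcomap ψ (cl l Λ) :=
      cl_le (fun y hy => le_cl l Λ hy) fun g hg y hy => by
        obtain ⟨f, hf, rfl⟩ := List.mem_map.1 hg
        simpa only [mem_lcomap, LinearMap.comp_apply, h] using cl_map hf (mem_lcomap.1 hy)
    exact h z ▸ mem_lcomap.1 (this (mem_lcomap.1 hz))
  · simpa only [mem_lcomap, LinearMap.comp_apply, h] using
      cl_map (List.mem_map.2 ⟨f, hf, rfl⟩) (mem_lcomap.1 hx)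

theorem mem_zinv_one {q : ℚ} : q ∈ Zinv 1 ↔ ∃ z : ℤ, (z : ℚ) = q := by
  refine ⟨fun h => ⟨q.num, (Rat.den_eq_one_iff q).1 ?_⟩, ?_⟩
  · by_contra hq
    obtain ⟨p, hp, hd⟩ := Nat.exists_prime_and_dvd hq
    exact hp.ne_one (Nat.dvd_one.1 (h p hp hd))
  · rintro ⟨z, rfl⟩
    exact intCast_mem _ z

/-- Scalar multiplication as a bilinear map. -/
def sm (V : Type) [AddCommGroup V] [Module ℚ V] : (Unit → ℚ) →ₗ[ℚ] V →ₗ[ℚ] V :=
  LinearMap.lsmul ℚ V ∘ₗ LinearMap.proj ()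

theorem sm_apply (q : Unit → ℚ) (v : V) : sm V q v = q () • v := rfl

theorem lmap_eq (φ : V →ₗ[ℚ] W) (Λ : AddSubgroup V) :
    bil ((sm V).compr₂ φ) (zl Unit 1) Λ = lmap φ Λ := by
  refine le_antisymm (bil_le.2 fun q hq x hx => ?_) ?_
  · obtain ⟨z, hz⟩ := mem_zinv_one.1 (hq ())
    refine ⟨z • x, Λ.zsmul_mem hx z, ?_⟩
    rw [LinearMap.compr₂_apply, sm_apply, ← hz, Int.cast_smul_eq_zsmul]; rfl
  · rintro _ ⟨x, hx, rfl⟩
    have := bil_le.1 (le_refl (bil ((sm V).compr₂ φ) (zl Unit 1) Λ)) (fun _ => 1)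
      (fun _ => one_mem _) x hx
    rwa [LinearMap.compr₂_apply, sm_apply, one_smul] at this

omit [Module ℚ V] in
theorem mem_closure_list {l : List V} {x : V} : x ∈ AddSubgroup.closure {x | x ∈ l} ↔
    ∃ z : Fin l.length → ℤ, ∑ i, z i • l.get i = x := by
  rw [← Submodule.mem_span_range_iff_exists_fun, Set.range_list_get,
    ← Submodule.span_int_eq_addSubgroupClosure]
  rfl

theorem closure_eq (l : List V) : lmap (Fintype.linearCombination ℚ l.get) (zl (Fin l.length) 1) =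
    AddSubgroup.closure {x | x ∈ l} := by
  ext x
  rw [mem_closure_list, mem_lmap]
  constructor
  · rintro ⟨t, ht, rfl⟩
    choose z hz using fun i => mem_zinv_one.1 (ht i)
    exact ⟨z, by simp only [Fintype.linearCombination_apply, ← hz, Int.cast_smul_eq_zsmul]⟩
  · rintro ⟨z, rfl⟩
    exact ⟨fun i => z i, fun i => intCast_mem _ _, by
      simp only [Fintype.linearCombination_apply, Int.cast_smul_eq_zsmul]⟩

theorem sup_eq {ι : Type} (Λ Λ' : AddSubgroup V) {φ : V →ₗ[ℚ] (ι → ℚ)} {ψ : (ι → ℚ) →ₗ[ℚ] V}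
    (h : ∀ x, ψ (φ x) = x) :
    lmap (ψ ∘ₗ LinearMap.funLeft ℚ ℚ Sum.inl + ψ ∘ₗ LinearMap.funLeft ℚ ℚ Sum.inr)
      (lcomap (ψ ∘ₗ LinearMap.funLeft ℚ ℚ Sum.inl) Λ ⊓
        lcomap (ψ ∘ₗ LinearMap.funLeft ℚ ℚ Sum.inr) Λ') = Λ ⊔ Λ' := by
  ext x
  rw [AddSubgroup.mem_sup, mem_lmap]
  constructor
  · rintro ⟨t, ht, rfl⟩
    exact ⟨_, ht.1, _, ht.2, rfl⟩
  · rintro ⟨y, hy, z, hz, rfl⟩
    have e1 : (ψ ∘ₗ LinearMap.funLeft ℚ ℚ Sum.inl) (Sum.elim (φ y) (φ z)) = y := h y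
    have e2 : (ψ ∘ₗ LinearMap.funLeft ℚ ℚ Sum.inr) (Sum.elim (φ y) (φ z)) = z := h z
    exact ⟨Sum.elim (φ y) (φ z), ⟨mem_lcomap.2 (e1.symm ▸ hy), mem_lcomap.2 (e2.symm ▸ hz)⟩, by
      rw [LinearMap.add_apply, e1, e2]⟩

theorem qspan_eq (Λ : AddSubgroup V) {φ : V →ₗ[ℚ] Y} {ψ : Y →ₗ[ℚ] V} (h : ∀ x, ψ (φ x) = x)
    {m : ℕ} {M D : List Y} (e : glob m (lcomap ψ Λ) = genMod (Zinv m) ℚ M D) :
    (Submodule.span ℚ {x | x ∈ M ++ D}).map ψ = qspan Λ := by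
  have h1 : Submodule.span ℚ {x | x ∈ M ++ D} = qspan (lcomap ψ Λ) := by
    refine le_antisymm (Submodule.span_le.2 fun x hx => ?_) (Submodule.span_le.2 fun x hx => ?_)
    · have : x ∈ glob m (lcomap ψ Λ) := by
        rw [e]; exact (List.mem_append.1 hx).elim mem_gen_left mem_gen_right
      exact Submodule.span_le_restrictScalars (Zinv m) ℚ _ this
    · have : x ∈ genMod (Zinv m) ℚ M D := e ▸ Submodule.subset_span hx
      exact (genMod_le (N := (Submodule.span ℚ {x | x ∈ M ++ D}).restrictScalars (Zinv m))).2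
        ⟨fun y hy => Submodule.subset_span (List.mem_append_left _ hy), fun y hy c =>
          Submodule.smul_mem (Submodule.span ℚ {x | x ∈ M ++ D}) c
            (Submodule.subset_span (List.mem_append_right _ hy))⟩ this
  rw [h1, qspan, qspan, Submodule.map_span]
  congr 1
  ext x
  exact ⟨fun ⟨y, hy, e⟩ => e ▸ hy, fun hx => ⟨φ x, mem_lcomap.2 (by rwa [h]), h x⟩⟩

theorem cosets_spec {Λ : AddSubgroup V} {N : ℕ} (hN : 0 < N) {l : List V} (hl : ∀ x ∈ l, x ∈ Λ)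
    (h : Λ ≤ AddSubgroup.closure {x | x ∈ l} ⊔ scal N Λ) {L : List (Fin l.length → ℤ)}
    (hL : ∀ t, t ∈ L ↔ ∀ i, (t i).natAbs ≤ N) :
    (∀ x ∈ L.map fun t => ∑ i, t i • l.get i, x ∈ Λ) ∧
      ∀ x ∈ Λ, ∃ r ∈ L.map fun t => ∑ i, t i • l.get i, x - r ∈ scal N Λ := by
  have hs : ∀ t : Fin l.length → ℤ, ∑ i, t i • l.get i ∈ Λ := fun t =>
    sum_mem fun i _ => Λ.zsmul_mem (hl _ (List.get_mem l i)) _
  refine ⟨fun x hx => ?_, fun x hx => ?_⟩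
  · obtain ⟨t, -, rfl⟩ := List.mem_map.1 hx
    exact hs t
  · obtain ⟨y, hy, w, hw, rfl⟩ := AddSubgroup.mem_sup.1 (h hx)
    obtain ⟨z, rfl⟩ := mem_closure_list.1 hy
    refine ⟨_, List.mem_map.2 ⟨fun i => z i % N, (hL _).2 fun i => ?_, rfl⟩, ?_⟩
    · have h1 := Int.emod_nonneg (z i) (show (N : ℤ) ≠ 0 by omega)
      have h2 := Int.emod_lt_of_pos (z i) (show (0 : ℤ) < N by omega)
      omega
    · rw [add_sub_right_comm]
      refine add_mem (mem_scal.2 ⟨_, hs fun i => z i / N, ?_⟩) hw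
      rw [← Finset.sum_sub_distrib, Finset.smul_sum]
      refine Finset.sum_congr rfl fun i _ => ?_
      rw [← sub_smul, Nat.cast_smul_eq_nsmul, ← natCast_zsmul, smul_smul]
      congr 1
      exact eq_sub_of_add_eq (Int.mul_ediv_add_emod (z i) N)

end pure

variable {A : Type} [Rep A] {V W X Y : A → Type}
  [∀ a, Rep (V a)] [∀ a, AddCommGroup (V a)] [∀ a, Module ℚ (V a)]
  [∀ a, Rep (W a)] [∀ a, AddCommGroup (W a)] [∀ a, Module ℚ (W a)]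
  [∀ a, Rep (X a)] [∀ a, AddCommGroup (X a)] [∀ a, Module ℚ (X a)]
  [∀ a, Rep (Y a)] [∀ a, AddCommGroup (Y a)] [∀ a, Module ℚ (Y a)]

theorem s1 {T : A → Type} [∀ a, Rep (T a)] : CS (fun p : Σ a, T a => p.1) := CS.sfst CS.id

theorem s2 {T : A → Type} [∀ a, Rep (T a)] : CS (fun p : Σ a, T a => p.2) := CS.ssnd CS.id

theorem v1 {T : A → Type} [∀ a, Rep (T a)] {Q : (Σ a, T a) → Prop} :
    CS (fun p : Subtype Q => p.1.1) := CS.sfst (CS.val CS.id)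

theorem v2 {T : A → Type} [∀ a, Rep (T a)] {Q : (Σ a, T a) → Prop} :
    CS (fun p : Subtype Q => p.1.2) := CS.ssnd (CS.val CS.id)

theorem coord_elim {U : A → Type} [∀ a, Rep (U a)] {f : ∀ a, U a} (hV : CoordF V)
    (h : ∀ (B : Type) [Rep B] (g : B → A) (n : B → ℕ) (φ : ∀ b, V (g b) →ₗ[ℚ] (Fin (n b) → ℚ))
      (ψ : ∀ b, (Fin (n b) → ℚ) →ₗ[ℚ] V (g b)), CS g → CS n → CS φ → CS ψ →
      (∀ b x, ψ b (φ b x) = x) → (∀ b y, φ b (ψ b y) = y) → CS (fun b => f (g b))) : CS f :=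
  by
  refine MV.elim hV ?_
  exact h _ _ _ _ _ v1 (CS.sfst v2) (CS.fst (CS.ssnd v2)) (CS.snd (CS.ssnd v2))
    (fun p x => LinearMap.congr_fun p.2.1 x) (fun p x => LinearMap.congr_fun p.2.2 x)

theorem cs_compr {β : ∀ a, V a →ₗ[ℚ] W a →ₗ[ℚ] X a} {φ : ∀ a, X a →ₗ[ℚ] Y a} (hβ : CS β)
    (hφ : CS φ) : CS (fun a => (β a).compr₂ (φ a)) :=
  CS.linIntro (CS.linComp (hφ.comp s1)
    (CS.linApp (hβ.comp s1) s2))

theorem cs_sm (hV : CoordF V) : CS (fun a => sm (V a)) :=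
  CS.linIntro (CS.linIntro (CS.smul (hV.smul.comp (s1.comp s1))
    (CS.app (i := fun _ => ()) (s2.comp s1) CS.unit) s2))

theorem coord_unit : CoordF (fun _ : A => Unit → ℚ) := CoordF.pi CFin.unit Disc.unit

section idx
variable {ι κ : A → Type} [∀ a, Rep (ι a)] [∀ a, Fintype (ι a)] [∀ a, DecidableEq (ι a)]
  [∀ a, Rep (κ a)] [∀ a, Fintype (κ a)] [∀ a, DecidableEq (κ a)]

theorem bil1 {β : ∀ a, (ι a → ℚ) →ₗ[ℚ] (κ a → ℚ) →ₗ[ℚ] X a} {Λ : ∀ a, AddSubgroup (ι a → ℚ)}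
    {M : ∀ a, AddSubgroup (κ a → ℚ)} (hι : CFin ι) (hdι : Disc ι) (hκ : CFin κ) (hdκ : Disc κ)
    (hX : CoordF X) (hβ : CS β) (h : CS Λ) (h' : CS M) : CS (fun a => bil (β a) (Λ a) (M a)) :=
  coord_elim hX fun _ _ _ _ _ _ hg hn hφ _ e _ =>
    (CS.lcomap hφ (CS.bilC (hι.comp hg) (hdι.comp hg) (hκ.comp hg) (hdκ.comp hg) (CFin.fin hn)
      Disc.fin (cs_compr (hβ.comp hg) hφ) (h.comp hg) (h'.comp hg))).congr
      fun b _ => bil_right _ _ _ (e b)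

theorem bil2 {β : ∀ a, V a →ₗ[ℚ] (κ a → ℚ) →ₗ[ℚ] X a} {Λ : ∀ a, AddSubgroup (V a)}
    {M : ∀ a, AddSubgroup (κ a → ℚ)} (hV : CoordF V) (hκ : CFin κ) (hdκ : Disc κ)
    (hX : CoordF X) (hβ : CS β) (h : CS Λ) (h' : CS M) : CS (fun a => bil (β a) (Λ a) (M a)) :=
  coord_elim hV fun _ _ _ _ _ _ hg hn _ hψ e _ =>
    (bil1 (CFin.fin hn) Disc.fin (hκ.comp hg) (hdκ.comp hg) (hX.comp hg)
      (CS.linComp (hβ.comp hg) hψ) (CS.lcomap hψ (h.comp hg)) (h'.comp hg)).congr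
      fun b _ => bil_left _ _ _ (e b)

theorem hom1 {β : ∀ a, (ι a → ℚ) →ₗ[ℚ] (κ a → ℚ) →ₗ[ℚ] W a} {Λ : ∀ a, AddSubgroup (κ a → ℚ)}
    {M : ∀ a, AddSubgroup (W a)} (hι : CFin ι) (hdι : Disc ι) (hκ : CFin κ) (hdκ : Disc κ)
    (hW : CoordF W) (hβ : CS β) (h : CS Λ) (h' : CS M) :
    CS (fun a => homLat (β a) (Λ a) (M a)) :=
  coord_elim hW fun _ _ _ _ _ _ hg hn hφ hψ e _ =>
    (CS.homC (hι.comp hg) (hdι.comp hg) (hκ.comp hg) (hdκ.comp hg) (CFin.fin hn) Disc.fin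
      (cs_compr (hβ.comp hg) hφ) (h.comp hg) (CS.lcomap hψ (h'.comp hg))).congr
      fun b _ => hom_right _ _ _ (e b)

theorem hom2 {β : ∀ a, (ι a → ℚ) →ₗ[ℚ] V a →ₗ[ℚ] W a} {Λ : ∀ a, AddSubgroup (V a)}
    {M : ∀ a, AddSubgroup (W a)} (hι : CFin ι) (hdι : Disc ι) (hV : CoordF V)
    (hW : CoordF W) (hβ : CS β) (h : CS Λ) (h' : CS M) :
    CS (fun a => homLat (β a) (Λ a) (M a)) :=
  coord_elim hV fun _ _ _ _ _ _ hg hn _ hψ e _ =>
    (hom1 (hι.comp hg) (hdι.comp hg) (CFin.fin hn) Disc.fin (hW.comp hg)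
      (CS.linFlip (CS.linComp (CS.linFlip (hβ.comp hg)) hψ)) (CS.lcomap hψ (h.comp hg))
      (h'.comp hg)).congr fun b _ => hom_mid _ _ _ (e b)

end idx

end LOpsAux

open LOpsAux

variable {A : Type} [Rep A] {V W X : A → Type}
  [∀ a, Rep (V a)] [∀ a, AddCommGroup (V a)] [∀ a, Module ℚ (V a)]
  [∀ a, Rep (W a)] [∀ a, AddCommGroup (W a)] [∀ a, Module ℚ (W a)]
  [∀ a, Rep (X a)] [∀ a, AddCommGroup (X a)] [∀ a, Module ℚ (X a)]
  {Λ Λ' : ∀ a, AddSubgroup (V a)}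

@[aesop safe 50 apply (transparency := reducible) (rule_sets := [Restrict])]
theorem CS.bil {β : ∀ a, V a →ₗ[ℚ] W a →ₗ[ℚ] X a} {M : ∀ a, AddSubgroup (W a)}
    (hV : CoordF V) (hW : CoordF W) (hX : CoordF X) (hβ : CS β) (h : CS Λ) (h' : CS M) :
    CS (fun a => bil (β a) (Λ a) (M a)) :=
  coord_elim hV fun _ _ _ _ _ _ hg hn _ hψ e _ =>
    (bil2 (hW.comp hg) (CFin.fin hn) Disc.fin (hX.comp hg)
      (CS.linFlip (CS.linComp (hβ.comp hg) hψ)) (h'.comp hg) (CS.lcomap hψ (h.comp hg))).congr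
      fun b _ => (bil_flip _ _ _).trans (bil_left _ _ _ (e b))
@[aesop safe 50 apply (transparency := reducible) (rule_sets := [Restrict])]
theorem CS.homLat {β : ∀ a, X a →ₗ[ℚ] V a →ₗ[ℚ] W a} {M : ∀ a, AddSubgroup (W a)}
    (hV : CoordF V) (hW : CoordF W) (hX : CoordF X) (hβ : CS β) (h : CS Λ) (h' : CS M) :
    CS (fun a => homLat (β a) (Λ a) (M a)) :=
  coord_elim hX fun _ _ _ _ _ _ hg hn hφ hψ e _ =>
    (CS.lcomap hφ (hom2 (CFin.fin hn) Disc.fin (hV.comp hg) (hW.comp hg)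
      (CS.linComp (hβ.comp hg) hψ) (h.comp hg) (h'.comp hg))).congr
      fun b _ => hom_left _ _ _ (e b)
@[aesop safe 50 apply (transparency := reducible) (rule_sets := [Restrict])]
theorem CS.cl {l : ∀ a, List (V a →ₗ[ℚ] V a)} (hV : CoordF V) (hl : CS l) (h : CS Λ) :
    CS (fun a => cl (l a) (Λ a)) :=
  coord_elim hV fun _ _ _ _ _ _ hg hn hφ hψ e _ =>
    (CS.lcomap hφ (CS.clC (CFin.fin hn) Disc.fin
      (CS.map (CS.lam (CS.linComp (hφ.comp s1)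
        (CS.linComp s2 (hψ.comp s1)))) (hl.comp hg))
      (CS.lcomap hψ (h.comp hg)))).congr fun b _ => cl_coord _ _ (e b)
@[aesop safe 45 apply (transparency := reducible) (rule_sets := [Restrict])]
theorem CS.addLe (hV : CoordF V) (h : CS Λ) (h' : CS Λ') : CS (fun a => Λ a ≤ Λ' a) :=
  (CS.memAdd (x := fun _ _ => 1) (CS.homLat hV hV coord_unit (cs_sm hV) h h')
    (CS.lam CS.const)).of_iff fun a _ => by
      simp only [mem_homLat, sm_apply, one_smul]; rfl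
@[aesop safe 50 apply (transparency := reducible) (rule_sets := [Restrict])]
theorem Disc.addSubgroup (hV : CoordF V) : Disc (fun a => AddSubgroup (V a)) :=
  (CS.and (CS.addLe (hV.comp s1) (CS.fst s2) (CS.snd s2))
    (CS.addLe (hV.comp s1) (CS.snd s2) (CS.fst s2))).of_iff
    fun _ _ => le_antisymm_iff.symm
@[aesop safe 50 apply (transparency := reducible) (rule_sets := [Restrict])]
theorem CS.lmap {φ : ∀ a, V a →ₗ[ℚ] W a} (hV : CoordF V) (hW : CoordF W) (hφ : CS φ)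
    (h : CS Λ) : CS (fun a => lmap (φ a) (Λ a)) :=
  (CS.bil coord_unit hV hW (cs_compr (cs_sm hV) hφ)
    (CS.zlat CFin.unit CS.const fun _ => one_pos) h).congr fun _ _ => lmap_eq _ _
@[aesop safe 50 apply (transparency := reducible) (rule_sets := [Restrict])]
theorem CS.scal {q : A → ℚ} (hV : CoordF V) (hq : CS q) (h : CS Λ) :
    CS (fun a => scal (q a) (Λ a)) :=
  CS.lmap hV hV (CS.linIntro (CS.smul (hV.smul.comp s1) (hq.comp s1)
    s2)) h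
@[aesop safe 50 apply (transparency := reducible) (rule_sets := [Restrict])]
theorem CS.addSup (hV : CoordF V) (h : CS Λ) (h' : CS Λ') : CS (fun a => Λ a ⊔ Λ' a) :=
  coord_elim hV fun B _ _ n _ ψ hg hn _ hψ e _ => by
    have h1 : CS fun b : B => ψ b ∘ₗ LinearMap.funLeft ℚ ℚ (Sum.inl : _ → Fin (n b) ⊕ Fin (n b)) :=
      CS.linComp hψ (CS.linIntro (CS.fcomp (g := fun _ => Sum.inl) s2 (CS.lam (CS.inl s2))))
    have h2 : CS fun b : B => ψ b ∘ₗ LinearMap.funLeft ℚ ℚ (Sum.inr : _ → Fin (n b) ⊕ Fin (n b)) :=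
      CS.linComp hψ (CS.linIntro (CS.fcomp (g := fun _ => Sum.inr) s2 (CS.lam (CS.inr s2))))
    exact (CS.lmap (CoordF.pi (CFin.sum (CFin.fin hn) (CFin.fin hn)) (Disc.sum Disc.fin Disc.fin))
      (hV.comp hg) (CS.add (AddF.linearMap (hV.comp hg).add) h1 h2)
      (CS.addInf (CS.lcomap h1 (h.comp hg)) (CS.lcomap h2 (h'.comp hg)))).congr
      fun b _ => sup_eq _ _ (e b)
@[aesop safe 50 apply (transparency := reducible) (rule_sets := [Restrict])]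
theorem CS.addClosure {l : ∀ a, List (V a)} (hV : CoordF V) (h : CS l) :
    CS (fun a => AddSubgroup.closure {x | x ∈ l a}) := by
  have hι : CFin fun a => Fin (l a).length := CFin.fin (CS.length h)
  refine (CS.lmap (CoordF.pi hι Disc.fin) hV (CS.linIntro ?_)
    (CS.zlat hι CS.const fun _ => one_pos)).congr fun _ _ => closure_eq _
  simp only [Fintype.linearCombination_apply]
  exact CS.sum (hι.comp s1) (hV.add.comp s1)
    (hV.zero.comp s1) (CS.smul (hV.smul.comp (s1.comp s1))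
      (CS.app (s2.comp s1) s2)
      (CS.get (h.comp (s1.comp s1)) s2))
@[aesop safe 50 apply (transparency := reducible) (rule_sets := [Restrict])]
theorem CS.qspan (hV : CoordF V) (h : CS Λ) : CS (fun a => qspan (Λ a)) :=
  coord_elim hV fun _ _ _ _ _ _ hg hn _ hψ e _ =>
    MV.elim (MV.globGen (CFin.fin hn) Disc.fin (CS.lcomap hψ (h.comp hg)))
      ((CS.submoduleMap (hψ.comp v1) (CS.span (CS.append
        (CS.fst (CS.snd v2)) (CS.snd (CS.snd v2))))).congr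
        fun p _ => qspan_eq _ (e p.1.1) (p.2.2 _ p.2.1 dvd_rfl))

/-- Representatives of a described subgroup modulo a multiple. -/
theorem MV.cosets {N : A → ℕ} (hV : CoordF V) (h : CS Λ) (hN : CS N) (h0 : ∀ a, 0 < N a) :
    MV (fun a (l : List (V a)) => (∀ x ∈ l, x ∈ Λ a) ∧
      ∀ x ∈ Λ a, ∃ r ∈ l, x - r ∈ scal (N a) (Λ a)) := by
  have h1 : MV (fun a (l : List (V a)) => (∀ x ∈ l, x ∈ Λ a) ∧
      Λ a ≤ AddSubgroup.closure {x | x ∈ l} ⊔ scal (N a) (Λ a)) := by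
    have g1 : CS fun p : Σ a, List (V a) => p.1 := CS.sfst CS.id
    refine MV.search (Enum.list hV.enum) (CS.and (CS.allMem s2
      (CS.memAdd (h.comp (s1.comp s1)) s2))
      (CS.addLe (hV.comp g1) (h.comp g1) (CS.addSup (hV.comp g1)
        (CS.addClosure (hV.comp g1) s2) (CS.scal (hV.comp g1)
          (CS.natCast AddF.rat ZeroF.rat OneF.rat (hN.comp g1)) (h.comp g1)))))
      (fun _ _ k => k) fun a ha => ?_
    obtain ⟨q, -, e, -⟩ := MV.exists hV ha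
    have : Module.Finite ℚ (V a) := Module.Finite.of_injective q.2.1
      (Function.LeftInverse.injective (g := q.2.2) fun x => LinearMap.congr_fun e x)
    exact exists_le_closure_sup_scal _ (h0 a)
  have h2 : ∀ (B : Type) [Rep B] (g : B → A) (l : ∀ b, List (V (g b))), CS g → CS l →
      (∀ b, (∀ x ∈ l b, x ∈ Λ (g b)) ∧
        Λ (g b) ≤ AddSubgroup.closure {x | x ∈ l b} ⊔ scal (N (g b)) (Λ (g b))) →
      MV (fun b (l : List (V (g b))) => (∀ x ∈ l, x ∈ Λ (g b)) ∧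
        ∀ x ∈ Λ (g b), ∃ r ∈ l, x - r ∈ scal (N (g b)) (Λ (g b))) := by
    intro B _ g l hg hl e
    have hι := CFin.fin (CS.length hl)
    have k : CS fun (b : B) (t : Fin (l b).length → ℤ) => ∑ i, t i • (l b).get i :=
      CS.lam (CS.sum (hι.comp s1) (hV.add.comp (hg.comp s1)) (hV.zero.comp (hg.comp s1))
        (CS.smul ((SMulF.int hV.add hV.zero hV.neg).comp (hg.comp (s1.comp s1)))
          (CS.app (s2.comp s1) s2) (CS.get (hl.comp (s1.comp s1)) s2)))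
    exact (MV.box hι Disc.fin (hN.comp hg)).bind (MV.of_cs (CS.map (k.comp v1) v2)
      fun p _ => cosets_spec (h0 _) (e _).1 (e _).2 p.2)
  exact h1.bind (h2 _ _ _ v1 v2 fun p => p.2)

section coord
variable {ι : A → Type} [∀ a, Rep (ι a)] {Γ : ∀ a, AddSubgroup (ι a → ℚ)}

theorem CS.globInt {m : A → ℕ} (hι : CFin ι) (hd : Disc ι) (hm : CS m) (h : CS Γ) :
    CS (fun a => ∀ x ∈ Γ a, ∀ i, x i ∈ Zinv (m a)) := by
  refine (CS.or (CS.eq (g := fun _ => 0) Disc.nat hm CS.const) (CS.addLe (CoordF.pi hι hd) h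
    (CS.zlat hι (CS.natMax (n := fun _ => 1) hm CS.const) fun _ =>
      lt_max_of_lt_right one_pos))).of_iff fun a _ => ?_
  rcases Nat.eq_zero_or_pos (m a) with e | e
  · exact iff_of_true (Or.inl e) fun x _ i p _ _ => e ▸ dvd_zero p
  · rw [max_eq_left e, or_iff_right e.ne']; rfl

end coord

end Pool.Agent.P.MP_257122_al
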