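import Pool.Agent.P.MP_257122_al.BIso
import Pool.Agent.P.MP_257122_al.BSb
import Pool.Agent.P.MP_257122_al.LOps

/-!
# A criterion for a matrix to carry one described group into another

PLAN.  `hom_crit`: let `z = q φ x`; use `mem_iff_local`.  Away from `m`: the entries of `z` lie in
`Zinv m` and `π' z = z`, so `z = ∑ z j • π' e_j ∈ glob m Λ'`.  At `p`: `z = ∑ e' z + (π' - (∑ e') π') z`;
the last vector is a combination of the vectors in the last clause of `LocC`.  For a pair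
`(e, e')`: `e' φ = φ e = e' φ e`, so `e' z = e' y` with `y = q (e' φ) (e x)`; `N e x` is integral,
so `y = N • y'` with `y'` integral, and `e' y = ∑ y' j • N • e' e_j ∈ loc` (scalars in `Zp p`).
The other statements are instances: for `dl_crit` take `φ = δ - 1`, `φ = δ⁻¹ - 1`, `q = 1 / κ`;
for `hom_ht` take `q = B! N⁴` and `‖N² e‖ ≤ 1` (`LocC.norm_le`, from `e e_j = e (e e_j)`).
`eps_good`: `β e = e' β = e' e' β`, and `e' α e = e' (α β') β e = e' (α β') e' β = e' β`; the columns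
`N e e_j` lie in `loc p Λ`, `α` maps it into `loc p Λ'`, and `N e'` is integral there.  In the same
way `e β' = e α' e'`, using `α' = β' (β α')`.
-/

namespace Pool.Agent.P.MP_257122_al

open Matrix

variable {n r m N : ℕ} {Λ Λ' : AddSubgroup (Fin n → ℚ)}

namespace BHomAux

theorem mv_sum {K : Type} [Field K] (M : Mat n K) (y : Fin n → K) :
    M *ᵥ y = ∑ j, y j • (M *ᵥ Pi.single j 1) := by
  ext i
  simp [mulVec, dotProduct, Finset.sum_apply, mul_comm]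

theorem entry {K : Type} [Field K] (M : Mat n K) (i j : Fin n) :
    M i j = (M *ᵥ Pi.single j 1) i := by
  simp

variable {p : Nat.Primes}

theorem sum_le {f : Fin n → Qp p} (h : ∀ j, ‖f j‖ ≤ 1) : ‖∑ j, f j‖ ≤ 1 :=
  IsUltrametricDist.norm_sum_le_of_forall_le_of_nonneg zero_le_one fun j _ => h j

theorem mul_le {a b : Qp p} (ha : ‖a‖ ≤ 1) (hb : ‖b‖ ≤ 1) : ‖a * b‖ ≤ 1 := by
  rw [norm_mul]
  exact mul_le_one₀ ha (norm_nonneg _) hb

theorem smul_loc {c : Qp p} (hc : ‖c‖ ≤ 1) {v : Fin n → Qp p} (hv : v ∈ loc p Λ) :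
    c • v ∈ loc p Λ := IsI.smul_mem (isI_padic.2 hc) hv

variable {π : Mat n ℚ} {es : List (Mat n (Qp p))}

/-- Integral vectors are carried into the local module by `N e`. -/
theorem e_mem (h : LocC p Λ N π es) {e : Mat n (Qp p)} (he : e ∈ es) {y : Fin n → Qp p}
    (hy : ∀ j, ‖y j‖ ≤ 1) : (N : Qp p) • (e *ᵥ y) ∈ loc p Λ := by
  rw [mv_sum, Finset.smul_sum]
  refine Submodule.sum_mem _ fun j _ => ?_
  rw [smul_comm]
  exact smul_loc (hy j) ((h.1 e he).2.1 j)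

/-- The local module is carried to integral vectors by `N e`. -/
theorem e_int (h : LocC p Λ N π es) {e : Mat n (Qp p)} (he : e ∈ es) {y : Fin n → Qp p}
    (hy : y ∈ loc p Λ) (i : Fin n) : ‖(N : Qp p) * (e *ᵥ y) i‖ ≤ 1 := by
  have := (h.1 e he).2.2 i y hy
  rwa [smul_dotProduct, smul_eq_mul] at this

theorem rest_mem (h : LocC p Λ N π es) (y : Fin n → Qp p) :
    (castM (Qp p) π - es.sum * castM (Qp p) π) *ᵥ y ∈ loc p Λ := by
  rw [mv_sum]
  exact Submodule.sum_mem _ fun j _ => h.2 j (y j)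

theorem sum_mem {S : Submodule (Zp p) (Fin n → Qp p)} {y : Fin n → Qp p}
    (l : List (Mat n (Qp p))) (h : ∀ e ∈ l, e *ᵥ y ∈ S) : l.sum *ᵥ y ∈ S := by
  induction l with
  | nil => simp
  | cons e l ih =>
    rw [List.sum_cons, add_mulVec]
    exact S.add_mem (h e List.mem_cons_self) (ih fun e' he' => h e' (List.mem_cons_of_mem _ he'))

theorem sandwich {π' : Mat n ℚ} {es' : List (Mat n (Qp p))} (h : LocC p Λ N π es)
    (h' : LocC p Λ' N π' es') {e e' a : Mat n (Qp p)} (he : e ∈ es) (he' : e' ∈ es')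
    (ha : ∀ v ∈ loc p Λ, a *ᵥ v ∈ loc p Λ') (i j : Fin n) :
    ‖((N ^ 2 : ℕ) : Qp p) * (e' * a * e) i j‖ ≤ 1 := by
  have := e_int h' he' (ha _ ((h.1 e he).2.1 j)) i
  rwa [mulVec_smul, mulVec_smul, mulVec_mulVec, mulVec_mulVec, Pi.smul_apply, smul_eq_mul,
    ← entry, ← mul_assoc, ← sq, ← Nat.cast_pow] at this

theorem cmb_comm {K : Type} [Field K] [CharZero K] {Y Y' : Fin r → Mat n ℚ} {φ : Mat n ℚ}
    (hY : ∀ l, φ * Y l = Y' l * φ) (a : Fin r → K) :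
    castM K φ * cmb K a Y = cmb K a Y' * castM K φ := by
  simp only [cmb, Finset.mul_sum, Finset.sum_mul, Matrix.mul_smul, Matrix.smul_mul]
  exact Finset.sum_congr rfl fun l _ => by rw [← castM_mul, ← castM_mul, hY]

end BHomAux

open BHomAux

theorem mem_loc_of_homS {p : Nat.Primes} {x : Mat n ℚ} (hx : x ∈ HomS Λ Λ') {v : Fin n → Qp p}
    (hv : v ∈ loc p Λ) : castM (Qp p) x *ᵥ v ∈ loc p Λ' := by
  induction hv using Submodule.span_induction with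
  | mem v hv =>
    obtain ⟨w, hw, rfl⟩ := hv
    rw [castM_mulVec]
    exact Submodule.subset_span ⟨_, hx w hw, rfl⟩
  | zero => rw [mulVec_zero]; exact zero_mem _
  | add v w _ _ hv hw => rw [mulVec_add]; exact add_mem hv hw
  | smul c v _ hv => rw [mulVec_smul]; exact Submodule.smul_mem _ c hv

theorem LocC.norm_le {p : Nat.Primes} {π : Mat n ℚ} {es : List (Mat n (Qp p))}
    (h : LocC p Λ N π es) {e : Mat n (Qp p)} (he : e ∈ es) (i j : Fin n) :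
    ‖((N ^ 2 : ℕ) : Qp p) * e i j‖ ≤ 1 := by
  have := sandwich h h (a := 1) he he (fun v hv => by rwa [one_mulVec]) i j
  rwa [mul_one, (h.1 e he).1] at this

theorem hom_crit (hm : 0 < m) (hN : 0 < N) {π π' φ : Mat n ℚ} {q : ℚ} (hq : q ∈ Zinv m)
    (hφ : ZM m φ) (hg : GlobC m Λ π) (hg' : GlobC m Λ' π') (hπ : φ * π = π' * φ)
    (hp : ∀ p : Nat.Primes, p.1 ∣ m → ∃ es : List (Mat n (Qp p) × Mat n (Qp p)),
      LocC p Λ N π (es.map Prod.fst) ∧ LocC p Λ' N π' (es.map Prod.snd) ∧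
        ∀ e ∈ es, castM (Qp p) φ * e.1 = e.2 * castM (Qp p) φ ∧
          ∀ i j, ‖(q : Qp p) * (e.2 * castM (Qp p) φ) i j‖ ≤ ‖(N : Qp p)‖ ^ 2) :
    ∀ x ∈ Λ, q • (φ *ᵥ x) ∈ Λ' := by
  intro x hx
  have hz : π' *ᵥ (q • (φ *ᵥ x)) = q • (φ *ᵥ x) := by
    rw [mulVec_smul, mulVec_mulVec, ← hπ, ← mulVec_mulVec, hg.1 x hx]
  refine (mem_iff_local Λ' hm _).2 ⟨?_, fun p hpm => ?_⟩
  · rw [← hz, mv_sum]
    refine Submodule.sum_mem _ fun j _ => IsI.smul_mem (isI_zinv.2 ?_) (hg'.2.2 j)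
    exact mul_mem hq (sum_mem fun l _ => mul_mem (hφ j l) (hg.2.1 x hx l))
  obtain ⟨es, h, h', he⟩ := hp p hpm
  have hX : castV (Qp p) x ∈ loc p Λ := Submodule.subset_span ⟨x, hx, rfl⟩
  have hN' : (N : Qp p) ≠ 0 := Nat.cast_ne_zero.2 hN.ne'
  have h1 := rest_mem h' (castV (Qp p) (q • (φ *ᵥ x)))
  rw [sub_mulVec, ← mulVec_mulVec, castM_mulVec, hz] at h1
  refine (Submodule.sub_mem_iff_left _ (BHomAux.sum_mem _ fun e' he' => ?_)).1 h1
  obtain ⟨e, hee, rfl⟩ := List.mem_map.1 he'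
  have he1 : e.1 ∈ es.map Prod.fst := List.mem_map_of_mem hee
  have k := e_mem h' he' (y := (((N : Qp p) ^ 2)⁻¹ * q) • ((e.2 * castM (Qp p) φ) *ᵥ
    ((N : Qp p) • (e.1 *ᵥ castV (Qp p) x)))) fun i => by
      rw [← smul_mulVec]
      refine sum_le fun j => mul_le ?_ (e_int h he1 hX j)
      change ‖((N : Qp p) ^ 2)⁻¹ * q * (e.2 * castM (Qp p) φ) i j‖ ≤ 1
      rw [mul_assoc, norm_mul, norm_inv, norm_pow]
      exact inv_mul_le_one_of_le₀ ((he e hee).2 i j) (by positivity)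
  have e1 : e.2 * (e.2 * castM (Qp p) φ) * e.1 = e.2 * castM (Qp p) φ := by
    rw [← mul_assoc, (h'.1 _ he').1, mul_assoc, (he e hee).1, ← mul_assoc, (h'.1 _ he').1]
  have e2 : (N : Qp p) * (((N : Qp p) ^ 2)⁻¹ * q) * N = q := by field_simp
  rw [mulVec_smul, mulVec_smul, mulVec_smul, mulVec_mulVec, mulVec_mulVec, e1, smul_smul,
    smul_smul, e2] at k
  rwa [castV_smul', ← castM_mulVec, mulVec_smul, mulVec_mulVec]

theorem BHomAux.lat_crit (hm : 0 < m) (hN : 0 < N) {Y Y' : Fin r → Mat n ℚ} {d : LD r}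
    (h : LatO m N Y Λ d) (h' : LatO m N Y' Λ' d) {φ : Mat n ℚ} {q : ℚ} (hq : q ∈ Zinv m)
    (hz : ZM m φ) (hY : ∀ l, φ * Y l = Y' l * φ)
    (he : ∀ e ∈ d.2, ∀ a ∈ e.2, ∀ i j, ‖(q : Qp e.1) *
      (cmb (Qp e.1) a Y' * castM (Qp e.1) φ : Mat n (Qp e.1)) i j‖ ≤ ‖(N : Qp e.1)‖ ^ 2) :
    ∀ x ∈ Λ, q • (φ *ᵥ x) ∈ Λ' := by
  refine hom_crit hm hN hq hz h.1 h'.1 ?_ fun p hp => ?_
  · have := cmb_comm hY d.1
    rwa [castM_rat] at this
  obtain ⟨e, hed, hep⟩ := h.2.2 p.1 (Nat.le_of_dvd hm hp) p.2 hp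
  obtain rfl : e.1 = p := Subtype.ext hep
  refine ⟨e.2.map fun a => (cmb _ a Y, cmb _ a Y'), ?_, ?_, fun f hf => ?_⟩
  · rw [List.map_map]; exact h.2.1 e hed
  · rw [List.map_map]; exact h'.2.1 e hed
  · obtain ⟨a, ha, rfl⟩ := List.mem_map.1 hf
    exact ⟨cmb_comm hY a, he e hed a ha⟩

theorem BHomAux.dl_aux (hm : 0 < m) (hN : 0 < N) {κ : ℕ} (hκ : κ ∣ m) {Y : Fin r → Mat n ℚ}
    {d : LD r} (h : LatO m N Y Λ d) {δ : Mat n ℚ} (hz : ZM m δ) (hY : ∀ l, δ * Y l = Y l * δ)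
    (he : ∀ e ∈ d.2, ∀ a ∈ e.2, ∀ i j,
      ‖(cmb (Qp e.1) a Y * castM (Qp e.1) (δ - 1 : Mat n ℚ) : Mat n (Qp e.1)) i j‖ ≤
        ‖((κ * N ^ 2 : ℕ) : Qp e.1)‖) :
    δ ∈ HomS Λ Λ ∧ ∀ x ∈ Λ, δ *ᵥ x - x ∈ scal κ Λ := by
  have hκ0 : 0 < κ := Nat.pos_of_dvd_of_pos hκ hm
  have hq : (κ : ℚ)⁻¹ ∈ Zinv m := fun p _ hp => by
    rw [Rat.inv_natCast_den_of_pos hκ0] at hp
    exact hp.trans hκ
  have hz1 : ZM m (δ - 1) := fun i j => by
    rw [Matrix.sub_apply, Matrix.one_apply]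
    exact sub_mem (hz i j) (by split_ifs; exacts [one_mem _, zero_mem _])
  have k := BHomAux.lat_crit hm hN h h hq hz1
    (fun l => by rw [sub_mul, mul_sub, one_mul, mul_one, hY]) fun e hed a ha i j => by
      have h0 : 0 < ‖(κ : Qp e.1)‖ := norm_pos_iff.2 (Nat.cast_ne_zero.2 hκ0.ne')
      have := he e hed a ha i j
      rw [Nat.cast_mul, Nat.cast_pow, norm_mul, norm_pow] at this
      rwa [Rat.cast_inv, Rat.cast_natCast, norm_mul, norm_inv, inv_mul_le_iff₀ h0]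
  have e : ∀ x : Fin n → ℚ, (κ : ℚ) • (κ : ℚ)⁻¹ • ((δ - 1) *ᵥ x) = δ *ᵥ x - x := fun x => by
    rw [smul_inv_smul₀ (Nat.cast_ne_zero.2 hκ0.ne'), sub_mulVec, one_mulVec]
  refine ⟨fun x hx => ?_, fun x hx => mem_scal.2 ⟨_, k x hx, e x⟩⟩
  have := Λ.add_mem (Λ.nsmul_mem (k x hx) κ) hx
  rwa [← Nat.cast_smul_eq_nsmul ℚ, e, sub_add_cancel] at this

theorem dl_crit (hm : 0 < m) (hN : 0 < N) {κ : ℕ} (hκ : κ ∣ m) {Y : Fin r → Mat n ℚ} {d : LD r}
    (h : LatO m N Y Λ d) {δ : GL (Fin n) ℚ} (hz : ZM m δ.val) (hz' : ZM m δ.inv)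
    (hY : ∀ l, δ.val * Y l = Y l * δ.val)
    (he : ∀ e ∈ d.2, ∀ a ∈ e.2, ∀ i j,
      ‖(cmb (Qp e.1) a Y * castM (Qp e.1) (δ.val - 1 : Mat n ℚ) : Mat n (Qp e.1)) i j‖ ≤
        ‖((κ * N ^ 2 : ℕ) : Qp e.1)‖ ∧
      ‖(cmb (Qp e.1) a Y * castM (Qp e.1) (δ.inv - 1 : Mat n ℚ) : Mat n (Qp e.1)) i j‖ ≤
        ‖((κ * N ^ 2 : ℕ) : Qp e.1)‖) :
    lmap δ.val.mulVecLin Λ = Λ ∧ ∀ x ∈ Λ, δ.val *ᵥ x - x ∈ scal κ Λ := by
  have k := BHomAux.dl_aux hm hN hκ h hz hY fun e hed a ha i j => (he e hed a ha i j).1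
  have k' := BHomAux.dl_aux hm hN hκ h hz' (fun l => by
    calc δ.inv * Y l = δ.inv * (Y l * δ.val) * δ.inv := by
          rw [mul_assoc, mul_assoc, δ.val_inv, mul_one]
      _ = Y l * δ.inv := by rw [← hY, ← mul_assoc, δ.inv_val, one_mul])
    fun e hed a ha i j => (he e hed a ha i j).2
  exact ⟨lmap_eq_iff.2 ⟨k.1, k'.1⟩, k.2⟩

theorem hom_ht (hm : 0 < m) (hN : 0 < N) {B : ℕ} {Y Y' : Fin r → Mat n ℚ} {d : LD r}
    (h : LatO m N Y Λ d) (h' : LatO m N Y' Λ' d) {φ : Mat n ℚ} (hz : ZM m φ) (hB : HtM B φ)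
    (hY : ∀ l, φ * Y l = Y' l * φ) :
    ∀ x ∈ Λ, ((B.factorial * N ^ 4 : ℕ) : ℚ) • (φ *ᵥ x) ∈ Λ' := by
  refine BHomAux.lat_crit hm hN h h' (natCast_mem _ _) hz hY fun e hed a ha i j => ?_
  have e1 : (((B.factorial * N ^ 4 : ℕ) : ℚ) : Qp e.1) *
      (cmb (Qp e.1) a Y' * castM (Qp e.1) φ : Mat n (Qp e.1)) i j =
      (N : Qp e.1) ^ 2 * ∑ l, ((N ^ 2 : ℕ) : Qp e.1) * cmb (Qp e.1) a Y' i l *
        (((B.factorial : ℚ) * φ l j : ℚ) : Qp e.1) := by
    rw [Matrix.mul_apply, Finset.mul_sum, Finset.mul_sum]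
    refine Finset.sum_congr rfl fun l _ => ?_
    rw [castM_apply]
    push_cast
    ring
  rw [e1, norm_mul, norm_pow]
  refine mul_le_of_le_one_right (by positivity) (sum_le fun l => mul_le
    ((h'.2.1 e hed).norm_le (List.mem_map_of_mem ha) i l) ?_)
  obtain ⟨z, hz⟩ := hB.intM_factorial l j
  rw [hz, Rat.cast_intCast]
  exact Padic.norm_int_le_one z

theorem zm_of_full {π π' x : Mat n ℚ} (hg : GlobC m Λ π) (hg' : GlobC m Λ' π')
    (hf : qspan Λ = ⊤) (hx : x ∈ HomS Λ Λ') : ZM m x := by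
  intro i j
  have h1 : ∀ v ∈ qspan Λ, π *ᵥ v = v := fun v hv => by
    induction hv using Submodule.span_induction with
    | mem v hv => exact hg.1 v hv
    | zero => exact mulVec_zero _
    | add v w _ _ hv hw => rw [mulVec_add, hv, hw]
    | smul c v _ hv => rw [mulVec_smul, hv]
  have h2 : ∀ v ∈ glob m Λ, (x *ᵥ v) i ∈ Zinv m := fun v hv => by
    induction hv using Submodule.span_induction with
    | mem v hv => exact hg'.2.1 _ (hx v hv) i
    | zero => rw [mulVec_zero]; exact zero_mem _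
    | add v w _ _ hv hw => rw [mulVec_add]; exact add_mem hv hw
    | smul c v _ hv => rw [mulVec_smul]; exact mul_mem c.2 hv
  have h3 := hg.2.2 j
  rw [h1 _ (hf ▸ Submodule.mem_top)] at h3
  rw [entry x]
  exact h2 _ h3

theorem eps_good {p : Nat.Primes} {π π' α α' β β' : Mat n ℚ} {es es' : List (Mat n (Qp p))}
    (h : LocC p Λ N π es) (h' : LocC p Λ' N π' es') {e e' : Mat n (Qp p)} (he : e ∈ es)
    (he' : e' ∈ es') (hα : α ∈ HomS Λ Λ') (hα' : α' ∈ HomS Λ' Λ) (hβ : β * β' = 1)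
    (hc : castM (Qp p) β * e = e' * castM (Qp p) β)
    (hv : e' * castM (Qp p) (α * β' - 1) * e' = 0) (hv' : e' * castM (Qp p) (β * α' - 1) * e' = 0) :
    PGood (N ^ 2) β' β ⟨p, e⟩ := by
  have b1 : castM (Qp p) β * castM (Qp p) β' = 1 := by rw [← castM_mul, hβ, castM_one]
  have b2 : castM (Qp p) β' * castM (Qp p) β = 1 := mul_eq_one_comm.1 b1
  rw [castM_sub, castM_mul, castM_one, mul_sub, sub_mul, mul_one, (h'.1 e' he').1,
    sub_eq_zero] at hv hv'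
  have hc' : e * castM (Qp p) β' = castM (Qp p) β' * e' := by
    calc e * castM (Qp p) β' = castM (Qp p) β' * (castM (Qp p) β * e) * castM (Qp p) β' := by
          rw [← mul_assoc, b2, one_mul]
      _ = castM (Qp p) β' * e' := by rw [hc, mul_assoc, mul_assoc, b1, mul_one]
  have e1 : e' * castM (Qp p) α * e = castM (Qp p) β * e := by
    calc e' * castM (Qp p) α * e
        = e' * castM (Qp p) α * (castM (Qp p) β' * castM (Qp p) β) * e := by rw [b2, mul_one]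
      _ = e' * (castM (Qp p) α * castM (Qp p) β') * (castM (Qp p) β * e) := by
          simp only [mul_assoc]
      _ = castM (Qp p) β * e := by rw [hc, ← mul_assoc, hv]
  have e2 : e * castM (Qp p) α' * e' = e * castM (Qp p) β' := by
    calc e * castM (Qp p) α' * e'
        = e * (castM (Qp p) β' * castM (Qp p) β) * castM (Qp p) α' * e' := by rw [b2, mul_one]
      _ = e * castM (Qp p) β' * (castM (Qp p) β * castM (Qp p) α' * e') := by
          simp only [mul_assoc]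
      _ = castM (Qp p) β' * (e' * (castM (Qp p) β * castM (Qp p) α') * e') := by
          rw [hc']; simp only [mul_assoc]
      _ = e * castM (Qp p) β' := by rw [hv', hc']
  intro i j
  exact ⟨e1 ▸ sandwich h h' he he' (fun _ => mem_loc_of_homS hα) i j,
    e2 ▸ sandwich h' h he' he (fun _ => mem_loc_of_homS hα') i j⟩

end Pool.Agent.P.MP_257122_al
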