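import Pool.Agent.P.MP_257122_al.BPadA
import Pool.Agent.P.MP_257122_al.BHom

/-!
# The `p`-adic idempotents

PLAN.  `K = algebraicClosure ℚ (Qp p)`, `j : K →+* ℂ` from `IsAlgClosed.lift`, `i : K →+* Qp p` the
inclusion.  `V` = the `K`-span of the casts of the elements of `Λ`, `Dk` = the `K`-span of the lifts
of the members of `D`.  Facts: (a) `line_mem_gen`: if all multiples of `v` lie in `genMod M D` then `v`
is in the `Qp`-span of `D` (otherwise a linear form killing `D` is nonzero on `v` and bounded on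
the `Zp`-span of `M`).  (b) A matrix in `HomS Λ Λ'` carries `V` into `V'` and `Dk` into `Dk'`
(`mem_loc_of_homS`, (a), `mem_span_of_map i`); hence members of `CSpan (HomS Λ Λ')` carry `cx j V`
into `cx j V'` and `cx j Dk` into `cx j Dk'`, and members of the rational span act likewise.
(c) `Dk ≤ V`.  Apply `eps_field` and map the coefficients by `i`.  `LocC`: `e e_j` is in the
`Qp`-span of `loc`, so a positive integer multiple is in `loc`; a row of `e` kills `D` and is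
bounded on the finitely many members of `M`; `(π - (∑ e) π) e_j` is in the span of `D`.
-/

namespace Pool.Agent.P.MP_257122_al

open Matrix

variable {n r : ℕ}

theorem line_mem_gen {p : Nat.Primes} {M D : List (Fin n → Qp p)} {v : Fin n → Qp p}
    (h : ∀ c : Qp p, c • v ∈ genMod (Zp p) (Qp p) M D) :
    v ∈ Submodule.span (Qp p) {x | x ∈ D} := BPadAux.line h

theorem exists_eps {G : Subgroup (GL (Fin n) ℂ)} {β : GL (Fin n) ℂ} {Y Y' : Fin r → Mat n ℚ}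
    (hs : SemiS (vals G)) (hE : EOk G β Y Y') {w w' : Fin n → ℤ}
    (hgr : ∀ g ∈ G, Fil w w g.val) (hf : Fil w' w β.val) (hf' : Fil w w' β.inv)
    {Λ Λ' : AddSubgroup (Fin n → ℚ)} (hG : ∀ g ∈ G, g.val ∈ CSpan (HomS Λ Λ))
    (hβ : β.val ∈ CSpan (HomS Λ Λ')) (hβ' : β.inv ∈ CSpan (HomS Λ' Λ)) (p : Nat.Primes)
    {M D M' D' : List (Fin n → Qp p)} (hl : loc p Λ = genMod (Zp p) (Qp p) M D)
    (hl' : loc p Λ' = genMod (Zp p) (Qp p) M' D') (hD : ∀ x ∈ D, ∀ i, IsAlgebraic ℚ (x i))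
    (hD' : ∀ x ∈ D', ∀ i, IsAlgebraic ℚ (x i)) {π π' : Mat n ℚ} (hπ : ∀ x, π *ᵥ x ∈ qspan Λ)
    (hπ' : ∀ x, π' *ᵥ x ∈ qspan Λ') :
    ∃ (εs : List (Fin r → Qp p)) (N₀ : ℕ), 0 < N₀ ∧ (∀ a ∈ εs, ∀ l, IsAlgebraic ℚ (a l)) ∧
      (∀ N, N₀ ∣ N → LocC p Λ N π (εs.map fun a => cmb (Qp p) a Y) ∧
        LocC p Λ' N π' (εs.map fun a => cmb (Qp p) a Y')) ∧
      ∀ a ∈ εs, ∀ l : Mat n ℚ, Rais w' l → l ∈ Submodule.span ℚ (HomS Λ' Λ') →
        cmb (Qp p) a Y' * castM (Qp p) l * cmb (Qp p) a Y' = 0 := by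
  let i : algebraicClosure ℚ (Qp p) →+* Qp p := (algebraicClosure ℚ (Qp p)).val
  have : Algebra.IsAlgebraic ℚ (algebraicClosure ℚ (Qp p)) := algebraicClosure.isAlgebraic ℚ _
  let j : algebraicClosure ℚ (Qp p) →ₐ[ℚ] ℂ := IsAlgClosed.lift
  obtain ⟨εs, h1, ⟨N, hN, h2⟩, h3⟩ := BPadAux.eps i j hs hE hgr hf hf' hG hβ hβ' hl hl'
    (fun x hx t => ⟨⟨_, mem_algebraicClosure_iff.2 (hD x hx t)⟩, rfl⟩)
    (fun x hx t => ⟨⟨_, mem_algebraicClosure_iff.2 (hD' x hx t)⟩, rfl⟩) hπ hπ'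
  refine ⟨εs, N, hN, fun a ha l => ?_, h2, h3⟩
  obtain ⟨k, hk⟩ := h1 a ha l
  exact hk ▸ mem_algebraicClosure_iff.1 k.2

end Pool.Agent.P.MP_257122_al
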