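import Pool.Agent.P.MP_257122_al.BAdapt
import Pool.Agent.P.MP_257122_al.BPack
import Pool.Agent.P.MP_257122_al.BPad
import Pool.Agent.P.MP_257122_al.BAl

/-!
# Completeness of the certificate

PLAN.  `alg_gens`: `MV.locGen` on the base type `Nat.Primes × AddSubgroup (Fin n → ℚ)` (or on
`Unit` with `CS.constC`), `MV.exists`, `coded_prod`, `coded_list`, `coded_fun_fin`,
`coded_padic_iff`.  `cert_of_adapted`: `exists_levG`, `packets`, `exists_al`, a graded isomorphism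
`β₀`.  Every `g ∈ G` lies in `CSpan (HomS L.1 L.1)`: `β₀ g` is an isomorphism (`TIso.mul_aut`), use
`BTE` and `cspan_mul`.  Choose for every `L` the data of `exists_pi`; `m = κ ∏ m₀`; for every `L` and
every prime `p ≤ m` the data of `exists_eps`; `N` the product of all `N₀`; `s` larger than
everything.  It is convenient to prove first, by induction on a list: if for every member `x`
there are `d`, `N₀ > 0`, `s₀` with `P x d N s` for all `N₀ ∣ N`, `s₀ ≤ s`, then there are a list `ds`,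
`N₀ > 0`, `s₀` with `List.Forall₂ (fun x d => P x d N s)` for all such `N`, `s`.  The last clause: for an
isomorphism `α`, `β = gr α` is a graded isomorphism; `α β⁻¹ - 1` is filtered with graded part `0`
and lies in `CSpan (HomS L.2 L.2)` (`1` does, `cspan_mul`).
-/

set_option synthInstance.maxSize 2048

namespace Pool.Agent.P.MP_257122_al

open Matrix

namespace BCmpAux

theorem unif {α β : Type} (P : α → β → ℕ → ℕ → Prop) (l : List α)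
    (h : ∀ x ∈ l, ∃ d N₀ s₀, 0 < N₀ ∧ ∀ N s, N₀ ∣ N → s₀ ≤ s → P x d N s) :
    ∃ ds N₀ s₀, 0 < N₀ ∧ ∀ N s, N₀ ∣ N → s₀ ≤ s → List.Forall₂ (fun x d => P x d N s) l ds := by
  induction l with
  | nil => exact ⟨[], 1, 0, one_pos, fun _ _ _ _ => List.Forall₂.nil⟩
  | cons x l ih =>
    obtain ⟨d, N₀, s₀, h0, h1⟩ := h x List.mem_cons_self
    obtain ⟨ds, N₁, s₁, h2, h3⟩ := ih fun y hy => h y (List.mem_cons_of_mem _ hy)
    exact ⟨d :: ds, N₀ * N₁, s₀ + s₁, mul_pos h0 h2, fun N s hN hs => List.Forall₂.cons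
      (h1 N s (dvd_of_mul_right_dvd hN) (by omega)) (h3 N s (dvd_of_mul_left_dvd hN) (by omega))⟩

theorem left {α β : Type} {R : α → β → Prop} {l : List α} {m : List β} (h : List.Forall₂ R l m) :
    ∀ x ∈ l, ∃ y ∈ m, R x y := by
  induction h with
  | nil => intro x hx; cases hx
  | cons h _ ih =>
    intro x hx
    rcases List.mem_cons.1 hx with rfl | hx
    · exact ⟨_, List.mem_cons_self, h⟩
    · obtain ⟨y, hy, h'⟩ := ih x hx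
      exact ⟨y, List.mem_cons_of_mem _ hy, h'⟩

theorem right {α β : Type} {R : α → β → Prop} {l : List α} {m : List β} (h : List.Forall₂ R l m) :
    ∀ y ∈ m, ∃ x ∈ l, R x y := left h.flip

theorem unif0 {α : Type} (P : α → ℕ → ℕ → Prop) (l : List α)
    (h : ∀ x ∈ l, ∃ N₀ s₀, 0 < N₀ ∧ ∀ N s, N₀ ∣ N → s₀ ≤ s → P x N s) :
    ∃ N₀ s₀, 0 < N₀ ∧ ∀ N s, N₀ ∣ N → s₀ ≤ s → ∀ x ∈ l, P x N s := by
  obtain ⟨ds, N₀, s₀, h0, h1⟩ := unif (fun x (_ : Unit) => P x) l fun x hx => ⟨(), h x hx⟩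
  exact ⟨N₀, s₀, h0, fun N s hN hs x hx => (left (h1 N s hN hs) x hx).elim fun _ k => k.2⟩

theorem bdm {n : ℕ} (x : Mat n ℝ) : ∃ s₀ : ℕ, ∀ s, s₀ ≤ s → BdM s x := by
  refine ⟨∑ p : Fin n × Fin n, ⌈|x p.1 p.2|⌉₊, fun s hs i j => (Nat.le_ceil _).trans ?_⟩
  exact Nat.cast_le.2 ((Finset.single_le_sum (f := fun p : Fin n × Fin n => ⌈|x p.1 p.2|⌉₊)
    (fun _ _ => Nat.zero_le _) (Finset.mem_univ (i, j))).trans hs)

theorem primes {m : ℕ} (hm : 0 < m) :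
    ∃ ps : List Nat.Primes, ∀ p, p.Prime → p ∣ m → ∃ q ∈ ps, q.1 = p :=
  ⟨m.primeFactorsList.attach.map fun x => ⟨x.1, Nat.prime_of_mem_primeFactorsList x.2⟩,
    fun p hp hd => ⟨⟨p, hp⟩, List.mem_map.2
      ⟨⟨p, (Nat.mem_primeFactorsList hm.ne').2 ⟨hp, hd⟩⟩, List.mem_attach _ _, rfl⟩, rfl⟩⟩

theorem one_mem {n : ℕ} (Λ : AddSubgroup (Fin n → ℚ)) : (1 : Mat n ℂ) ∈ CSpan (HomS Λ Λ) :=
  Submodule.subset_span ⟨1, fun v hv => by rw [one_mulVec]; exact hv,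
    Matrix.map_one _ Rat.cast_zero Rat.cast_one⟩

theorem rais {n : ℕ} {w w' : Fin n → ℤ} {x y : Mat n ℂ} (hx : Fil w' w x) (hy : Fil w w' y)
    (h : grm w' w x * grm w w' y = 1) : Rais w' (x * y - 1) :=
  rais_iff.2 ⟨fun i j k => by rw [Matrix.sub_apply, hx.mul hy i j k, fil_one i j k, sub_zero],
    by rw [grm_sub, grm_mul hx hy, h, grm_one, sub_self]⟩

end BCmpAux

theorem alg_gens {n : ℕ} {Λ : AddSubgroup (Fin n → ℚ)} (h : Coded Λ) (p : Nat.Primes) :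
    ∃ M D : List (Fin n → Qp p), loc p Λ = genMod (Zp p) (Qp p) M D ∧
      ∀ x ∈ D, ∀ i, IsAlgebraic ℚ (x i) := by
  obtain ⟨q, hq, e⟩ := MV.exists (MV.locGen (A := Unit) (ι := fun _ => Fin n) (Γ := fun _ => Λ)
    (p := fun _ => p) (CFin.fin CS.const) Disc.fin CS.const (CS.constC h)) (Tot.tot ())
  exact ⟨q.1, q.2, e, fun x hx i => coded_padic_iff.1
    (coded_fun_fin.1 (coded_list.1 (coded_prod.1 hq).2 x hx) i)⟩

open BCmpAux in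
theorem cert_of_adapted {a : BTIn} (hc : ∀ L ∈ a.2.2.1, Coded L.1 ∧ Coded L.2) (hok : BTok a)
    (he : BTE a) {w w' : Fin a.1 → ℤ} (h : Adapted a.2.1 w w') :
    ∃ c : CD a.1, AlgCD c ∧ BCert a c := by
  obtain ⟨n, us, Ls, κ⟩ := a
  obtain ⟨hκ, hr, -⟩ := hok
  dsimp only at hc w w' h hκ hr ⊢
  replace he : ∀ α α' : Mat n ℂ, TIso ℂ us α α' →
    ∀ L ∈ Ls, α ∈ CSpan (HomS L.1 L.2) ∧ α' ∈ CSpan (HomS L.2 L.1) := he
  obtain ⟨G, hG, -⟩ := exists_levG us w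
  obtain ⟨pks, E, g, hAl, hg1, hg2, hU, hq, hE, hβ⟩ := packets h hG
  obtain ⟨al, hal, hal'⟩ := exists_al Ls w'
  obtain ⟨α₀, α₀', hα₀⟩ := h.1
  obtain ⟨β₀, hβ₀, -, -⟩ := exists_grIso h hα₀
  have hs : SemiS (vals G) := by
    have : vals G = {x | ∃ h : GL (Fin n) ℂ, LevP us w h ∧ h.val = x} :=
      Set.ext fun x => exists_congr fun k => and_congr_left' (hG k)
    rw [this]
    exact h.2.2
  have hEO := (hβ β₀ hβ₀).2.2
  have hGL : ∀ L ∈ Ls, ∀ k ∈ G, k.val ∈ CSpan (HomS L.1 L.1) := fun L hL k hk => by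
    have := cspan_mul (he _ _ hβ₀.1 L hL).2 (he _ _ (hβ₀.1.mul_aut ((hG k).1 hk).1) L hL).1
    rwa [← mul_assoc, hβ₀.1.2.1, one_mul] at this
  have hgr : ∀ k ∈ G, Fil w w k.val := fun k hk => ((hG k).1 hk).2.1 ▸ fil_grm k.val
  have hf : Fil w' w β₀.val := hβ₀.2.1 ▸ fil_grm β₀.val
  have hf' : Fil w w' β₀.inv := hβ₀.2.2 ▸ fil_grm β₀.inv
  generalize hY : (fun l => ofT (E.2.1.1 l)) = Y at hEO
  generalize hY' : (fun l => ofT (E.2.2.1 l)) = Y' at hEO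
  obtain ⟨m₀, s₀, hm₀, hm⟩ := unif0 (fun (L : LPair n) m _ => ∃ b : Fin E.1 → ℚ,
      (∀ x, cmb ℚ b Y *ᵥ x ∈ qspan L.1) ∧ (∀ x, cmb ℚ b Y' *ᵥ x ∈ qspan L.2) ∧
        GlobC m L.1 (cmb ℚ b Y) ∧ GlobC m L.2 (cmb ℚ b Y')) Ls fun L hL => by
    obtain ⟨b, m₀, k0, k1, k2, k3⟩ := exists_pi hs hEO (hGL L hL) (he _ _ hβ₀.1 L hL).1
      (he _ _ hβ₀.1 L hL).2 (hr L hL).1 (hr L hL).2
    exact ⟨m₀, 0, k0, fun m _ k _ => ⟨b, k1, k2, k3 m k⟩⟩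
  replace hm := hm (κ * m₀) s₀ (dvd_mul_left _ _) le_rfl
  have hm0 : 0 < κ * m₀ := mul_pos hκ hm₀
  have hκm : κ ∣ κ * m₀ := dvd_mul_right _ _
  generalize κ * m₀ = m at hm hm0 hκm
  obtain ⟨ps, hps⟩ := primes hm0
  obtain ⟨ld, N₁, s₁, hN₁, h₁⟩ := unif (fun (L : LPair n) (d : LD E.1) N s =>
      LatC s m N Y Y' al L d ∧ ∀ e ∈ d.2, ∀ b ∈ e.2, ∀ l, IsAlgebraic ℚ (b l)) Ls fun L hL => by
    obtain ⟨b, k1, k2, k3, k4⟩ := hm L hL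
    obtain ⟨es, N₀, s₀, k5, k6⟩ := unif
      (fun (p : Nat.Primes) (e : Σ p : Nat.Primes, List (Fin E.1 → Qp p)) N s => e.1 = p ∧
        (∀ b ∈ e.2, ∀ l, IsAlgebraic ℚ (b l)) ∧
        LocC e.1 L.1 N (cmb ℚ b Y) (e.2.map fun a => cmb (Qp e.1) a Y) ∧
        LocC e.1 L.2 N (cmb ℚ b Y') (e.2.map fun a => cmb (Qp e.1) a Y') ∧ e.2.length ≤ s ∧
        ∀ a ∈ e.2, ∀ l ∈ al, cmb (Qp e.1) a Y' * castM (Qp e.1) l.1 * cmb (Qp e.1) a Y' = 0)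
      ps fun p _ => by
        obtain ⟨M, D, j1, j2⟩ := alg_gens (hc L hL).1 p
        obtain ⟨M', D', j3, j4⟩ := alg_gens (hc L hL).2 p
        obtain ⟨εs, N₀, j5, j6, j7, j8⟩ := exists_eps hs hEO hgr hf hf' (hGL L hL)
          (he _ _ hβ₀.1 L hL).1 (he _ _ hβ₀.1 L hL).2 p j1 j3 j2 j4 k1 k2
        exact ⟨⟨p, εs⟩, N₀, εs.length, j5, fun N s hN hs => ⟨rfl, j6, (j7 N hN).1, (j7 N hN).2, hs,
          fun a ha l hl => j8 a ha l.1 (hal l hl).1 ((hal l hl).2 L hL)⟩⟩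
    refine ⟨(b, es), N₀, s₀ + es.length, k5, fun N s hN hs => ?_⟩
    have k7 := k6 N s hN (by omega)
    have k8 : ∀ p ≤ m, p.Prime → p ∣ m → ∃ e ∈ es, e.1.1 = p := fun p _ hp hd => by
      obtain ⟨q, j1, j2⟩ := hps p hp hd
      obtain ⟨e, j3, j4⟩ := left k7 q j1
      exact ⟨e, j3, by rw [j4.1, j2]⟩
    exact ⟨⟨⟨k3, fun e k => (right k7 e k).elim fun _ j => j.2.2.2.1, k8⟩,
      ⟨k4, fun e k => (right k7 e k).elim fun _ j => j.2.2.2.2.1, k8⟩, by dsimp only; omega,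
      fun e k => (right k7 e k).elim fun _ j => j.2.2.2.2.2⟩,
      fun e k => (right k7 e k).elim fun _ j => j.2.2.1⟩
  obtain ⟨N₂, s₂, hN₂, h₂⟩ := unif0 (fun (q : UPk n) N s => PkC s N g q.1 q.2.2) pks
    fun q k => pkC_of_pkQ (hq q k).2
  obtain ⟨N₃, s₃, hN₃, h₃⟩ := pkC_of_pkQ hE
  obtain ⟨t₁, b₁⟩ := bdm g.1.1
  obtain ⟨t₂, b₂⟩ := bdm g.1.2
  obtain ⟨t₃, b₃⟩ := bdm g.2.1
  obtain ⟨t₄, b₄⟩ := bdm g.2.2
  obtain ⟨N, hN, d₁, d₂, d₃⟩ : ∃ N, 0 < N ∧ N₁ ∣ N ∧ N₂ ∣ N ∧ N₃ ∣ N :=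
    ⟨N₁ * N₂ * N₃, by positivity, (dvd_mul_right _ _).mul_right _, (dvd_mul_left _ _).mul_right _,
      dvd_mul_left _ _⟩
  obtain ⟨s, hs⟩ : ∃ s, s = n + m + N + pks.length + ld.length + s₁ + s₂ + s₃ + t₁ + t₂ + t₃ + t₄ :=
    ⟨_, rfl⟩
  have h₄ := h₁ N s d₁ (by omega)
  subst hY hY'
  refine ⟨((s, m, N), (w, w'), pks, g, al, ⟨E, ld⟩),
    ⟨hAl, fun d k => (right h₄ d k).elim fun _ j => j.2.2⟩, ?_⟩
  change CertX us Ls κ s m N w w' pks g al E ld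
  refine ⟨⟨by omega, hm0, by omega, hκm, hN, by omega, by omega, by omega⟩,
    ⟨hU, fun q k => ⟨(hq q k).1, h₂ N s d₂ (by omega) q k⟩, h₃ N s d₃ (by omega)⟩,
    ⟨hg1, hg2, b₁ s (by omega), b₂ s (by omega), b₃ s (by omega), b₄ s (by omega)⟩,
    fun l k => (hal l k).1, h₄.imp fun _ _ k => k.1, fun α α' hα => ?_⟩
  obtain ⟨β, k1, k2, k3⟩ := exists_grIso h hα
  obtain ⟨k4, k5, k6⟩ := h.2.1 α α' hα
  have k7 := hβ β k1
  rw [k2, k3] at k7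
  refine ⟨k6, k7.1, k7.2.1, hal' _ (rais k4 (fil_grm _) ?_) fun L hL => sub_mem
      (cspan_mul (he _ _ hα L hL).1 (he _ _ k6 L hL).2) (one_mem _),
    hal' _ (rais (fil_grm _) k5 ?_) fun L hL => sub_mem
      (cspan_mul (he _ _ k6 L hL).1 (he _ _ hα L hL).2) (one_mem _)⟩
  · rw [grm_grm]; exact k6.1
  · rw [grm_grm]; exact k6.1

end Pool.Agent.P.MP_257122_al
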