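import Pool.Agent.P.MP_257122_al.LDefs

/-!
# Described groups of unipotent matrices: definitions
-/

namespace Pool.Agent.P.MP_257122_al

open scoped commutatorElement

/-- The exponential series cut off at degree `c`. -/
noncomputable def ex {R : Type} [Ring R] [Algebra ℚ R] (c : ℕ) (x : R) : R :=
  ∑ k ∈ Finset.range c, ((k.factorial : ℚ)⁻¹) • x ^ k

/-- The logarithm series cut off at degree `c`. -/
noncomputable def lg {R : Type} [Ring R] [Algebra ℚ R] (c : ℕ) (g : R) : R :=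
  ∑ k ∈ Finset.range c, ((-1 : ℚ) ^ k / ((k : ℚ) + 1)) • (g - 1) ^ (k + 1)

/-- Matrices that raise the weight by at least `j`. -/
def fil {ι : Type} (wt : ι → ℕ) (j : ℕ) : Submodule ℚ (Matrix ι ι ℚ) where
  carrier := {x | ∀ a b, wt a < wt b + j → x a b = 0}
  zero_mem' := fun _ _ _ => rfl
  add_mem' := fun {x y} hx hy a b h => by rw [Matrix.add_apply, hx a b h, hy a b h, add_zero]
  smul_mem' := fun q {x} hx a b h => by rw [Matrix.smul_apply, hx a b h, smul_zero]

/-- `g` is congruent to `1` modulo matrices that raise the weight. -/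
def IsUni {ι : Type} [Fintype ι] [DecidableEq ι] (wt : ι → ℕ) (g : GL ι ℚ) : Prop :=
  g.val - 1 ∈ fil wt 1

/-- `g` and its inverse respect the weight filtration. -/
def IsPar {ι : Type} [Fintype ι] [DecidableEq ι] (wt : ι → ℕ) (g : GL ι ℚ) : Prop :=
  g.val ∈ fil wt 0 ∧ g.inv ∈ fil wt 0

/-- Ambient data: dimension, weights, a bound for the weights, generators of a matrix group. -/
abbrev Amb : Type := Σ n : ℕ, (Fin n → ℕ) × ℕ × List (GL (Fin n) ℚ)

/-- The weights are below the bound and the generators respect the filtration. -/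
def Amb.ok (m : Amb) : Prop := (∀ i, m.2.1 i < m.2.2.1) ∧ ∀ x ∈ m.2.2.2, IsPar m.2.1 x

/-- The ambient group. -/
def Amb.P (m : Amb) : Subgroup (GL (Fin m.1) ℚ) := Subgroup.closure {x | x ∈ m.2.2.2}

/-- Unipotent normal subgroups of the ambient group. -/
def Amb.Nrm (m : Amb) (Y : Subgroup (GL (Fin m.1) ℚ)) : Prop :=
  Y ≤ m.P ∧ (∀ y ∈ Y, IsUni m.2.1 y) ∧ ∀ g ∈ m.P, ∀ y ∈ Y, g * y * g⁻¹ ∈ Y

/-- Normal closure in the ambient group. -/
def Amb.ncl (m : Amb) (s : Set (GL (Fin m.1) ℚ)) : Subgroup (GL (Fin m.1) ℚ) :=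
  Subgroup.closure {y | ∃ g ∈ m.P, ∃ x ∈ s, g * x * g⁻¹ = y}

/-- The additive span of the logarithms. -/
def logSpan {n : ℕ} (c : ℕ) (Y : Subgroup (GL (Fin n) ℚ)) :
    AddSubgroup (Matrix (Fin n) (Fin n) ℚ) :=
  AddSubgroup.closure {x | ∃ y ∈ Y, lg c y.val = x}

/-- The logarithms of `Y` form the union of the cosets `r + Λ`. -/
def Descr {n : ℕ} (c : ℕ)
    (d : AddSubgroup (Matrix (Fin n) (Fin n) ℚ) × List (Matrix (Fin n) (Fin n) ℚ))
    (Y : Subgroup (GL (Fin n) ℚ)) : Prop :=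
  ∀ x, (∃ y ∈ Y, lg c y.val = x) ↔ ∃ r ∈ d.2, x - r ∈ d.1

/-- Subgroups coded by a description of their logarithms. -/
def DG (m : Amb) : Type := Subgroup (GL (Fin m.1) ℚ)

noncomputable instance repDG (m : Amb) : Rep (DG m) :=
  ⟨fun c Y => ∃ d, Rep.R c d ∧ Descr m.2.2.1 d Y⟩

/-- A description of `Y a` can be computed. -/
def DS {A : Type} [Rep A] (m : A → Amb) (Y : ∀ a, Subgroup (GL (Fin (m a).1) ℚ)) : Prop :=
  CS (T := fun a => DG (m a)) Y

end Pool.Agent.P.MP_257122_al
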