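import Pool.Agent.P.MP_257122_al.BDefs
import Pool.Agent.P.MP_257122_al.CDefs

/-!
# The arithmetic core: working definitions
-/

namespace Pool.Agent.P.MP_257122_al

open Matrix

/-- Square matrices. -/
abbrev Mat (n : ℕ) (F : Type) : Type := Matrix (Fin n) (Fin n) F

section tensor
variable {κ ι ι' R : Type}

/-- The action on tensors of type `s` of a matrix `g` (vector slots) and `g'` (covector slots);
`act σ g g'` is `rho σ.get g g'` by definition. -/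
def rho [Fintype κ] [CommRing R] (s : κ → Bool) (g : Matrix ι' ι R) (g' : Matrix ι ι' R) :
    Matrix (κ → ι') (κ → ι) R :=
  Matrix.of fun I J => ∏ i, if s i = true then g (I i) (J i) else g' (J i) (I i)

/-- The infinitesimal action on tensors. -/
def drho [Fintype κ] [DecidableEq κ] [DecidableEq ι] [CommRing R] (s : κ → Bool)
    (ξ : Matrix ι ι R) : Matrix (κ → ι) (κ → ι) R :=
  Matrix.of fun I J => ∑ i, (if s i = true then ξ (I i) (J i) else -ξ (J i) (I i)) *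
    ∏ j, if j = i ∨ I j = J j then 1 else 0

/-- The dual type. -/
def du (s : κ → Bool) : κ → Bool := fun i => !(s i)

/-- The weight of a tensor index. -/
def tw [Fintype κ] (s : κ → Bool) (w : ι → ℤ) (I : κ → ι) : ℤ :=
  ∑ i, if s i = true then w (I i) else -w (I i)

/-- `x` does not lower weights. -/
def Fil [Zero R] (w' : ι' → ℤ) (w : ι → ℤ) (x : Matrix ι' ι R) : Prop :=
  ∀ i j, w' i < w j → x i j = 0

/-- `x` raises weights. -/
def Rais [Zero R] (w : ι → ℤ) (x : Matrix ι ι R) : Prop := ∀ i j, w i ≤ w j → x i j = 0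

/-- The weight-preserving part. -/
def grm [Zero R] (w' : ι' → ℤ) (w : ι → ℤ) (x : Matrix ι' ι R) : Matrix ι' ι R :=
  Matrix.of fun i j => if w' i = w j then x i j else 0

/-- The coordinates of weight below `d` vanish. -/
def VanB [Zero R] (w : ι → ℤ) (d : ℤ) (v : ι → R) : Prop := ∀ i, w i < d → v i = 0

/-- A rational matrix as a matrix over a field of characteristic zero. -/
def castM (F : Type) [DivisionRing F] (x : Matrix ι' ι ℚ) : Matrix ι' ι F :=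
  x.map fun q => (q : F)

/-- The standard pairing of matrices. -/
def mdot [Fintype ι] [Fintype ι'] [CommRing R] (c x : Matrix ι' ι R) : R :=
  ∑ i, ∑ j, c i j * x i j

/-- `M x` is integral. -/
def IntV (M : ℕ) (x : ι → ℚ) : Prop := ∀ i, ∃ z : ℤ, (M : ℚ) * x i = z

/-- `M x` is integral. -/
def IntM (M : ℕ) (x : Matrix ι' ι ℚ) : Prop := ∀ i j, ∃ z : ℤ, (M : ℚ) * x i j = z

/-- Bounded common denominator and bounded entries. -/
def HtM (B : ℕ) (x : Matrix ι' ι ℚ) : Prop :=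
  ∃ D : ℕ, 0 < D ∧ D ≤ B ∧ IntM D x ∧ ∀ i j, |x i j| ≤ B

/-- All entries are integral away from `m`. -/
def ZM (m : ℕ) (x : Matrix ι' ι ℚ) : Prop := ∀ i j, x i j ∈ Zinv m

/-- Bounded real entries. -/
def BdM (B : ℕ) (x : Matrix ι' ι ℝ) : Prop := ∀ i j, |x i j| ≤ B

/-- Every invariant subspace is the image of a projector commuting with `S`. -/
def SemiS {F : Type} [Field F] [Fintype ι] (S : Set (Matrix ι ι F)) : Prop :=
  ∀ M : Submodule F (ι → F), (∀ x ∈ S, ∀ v ∈ M, x *ᵥ v ∈ M) →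
    ∃ π : Matrix ι ι F, (∀ x ∈ S, π * x = x * π) ∧ (∀ v, π *ᵥ v ∈ M) ∧ ∀ v ∈ M, π *ᵥ v = v

/-- Subspaces stable under all automorphisms of the complex field. -/
def GalSub (W : Submodule ℂ (ι → ℂ)) : Prop :=
  ∀ τ : ℂ ≃+* ℂ, ∀ v ∈ W, (fun i => τ (v i)) ∈ W

/-- Extension of scalars of a subspace along `j`. -/
def cx {K F : Type} [Field K] [Field F] (j : K →+* F) (U : Submodule K (ι → K)) :
    Submodule F (ι → F) :=
  Submodule.span F ((fun v i => j (v i)) '' (U : Set (ι → K)))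

end tensor

variable {n : ℕ}

/-- Bounded height of an invertible matrix and its inverse. -/
def HtG (B : ℕ) (g : GL (Fin n) ℚ) : Prop := HtM B g.val ∧ HtM B g.inv

/-! Siegel sets -/

/-- The Schur complement of the first diagonal entry. -/
noncomputable def schur (P : Mat (n + 1) ℝ) : Mat n ℝ :=
  Matrix.of fun i j => P i.succ j.succ - P i.succ 0 * P 0 j.succ / P 0 0

/-- Reduced Gram matrices (an open condition). -/
def SRed : ∀ n : ℕ, Mat n ℝ → Prop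
  | 0, _ => True
  | n + 1, P => 0 < P 0 0 ∧ (∀ j : Fin n, |P 0 j.succ| < P 0 0) ∧
      (∀ j : Fin n, j.val = 0 → P 0 0 < 2 * schur P j j) ∧ SRed n (schur P)

/-- The constant of the Siegel sets. -/
def sgB (n : ℕ) : ℕ := 2 ^ n * (n + 1).factorial

/-- `x = k a N` lies in a Siegel set. -/
def Sg (x : Mat n ℝ) : Prop :=
  ∃ (k N N' : Mat n ℝ) (a : Fin n → ℝ), kᵀ * k = 1 ∧ x = k * diagonal a * N ∧ N * N' = 1 ∧
    (∀ i, 0 < a i) ∧ (∀ i j, i ≤ j → a i ≤ sgB n * a j) ∧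
    (∀ i j, j < i → N i j = 0 ∧ N' i j = 0) ∧ (∀ i, N i i = 1 ∧ N' i i = 1) ∧
    BdM (sgB n) N ∧ BdM (sgB n) N'

/-! Packets of tensors -/

/-- One tensor. -/
abbrev OT (n : ℕ) : Type := Σ σ : List Bool, Tn n σ ℚ

/-- A family of tensors of type `σ` and a family of tensors of the dual type. -/
abbrev OPk (n : ℕ) : Type := Σ σ : List Bool, Σ r : ℕ, (Fin r → Tn n σ ℚ) × (Fin r → Tn n σ ℚ)

/-- The same on both sides. -/
abbrev Pk (n : ℕ) (σ : List Bool) : Type :=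
  Σ r : ℕ, ((Fin r → Tn n σ ℚ) × (Fin r → Tn n σ ℚ)) × ((Fin r → Tn n σ ℚ) × (Fin r → Tn n σ ℚ))

/-- A `p`-adic matrix. -/
abbrev PMat (n : ℕ) : Type := Σ p : Nat.Primes, Mat n (Qp p)

/-- The two families are dual to each other. -/
def DualPk (q : OPk n) : Prop := ∀ i j, q.2.2.2 i ⬝ᵥ q.2.2.1 j = if i = j then 1 else 0

/-- Bounded denominators of the coordinates in the basis `b` with inverse `b'`. -/
def LPk (M : ℕ) (b b' : Mat n ℚ) (q : OPk n) : Prop :=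
  ∀ j, IntV M (rho q.1.get b' b *ᵥ q.2.2.1 j) ∧ IntV M (rho (du q.1.get) b' b *ᵥ q.2.2.2 j)

/-- Bounded coordinates in the basis `b` with inverse `b'`. -/
def BPk (C : ℕ) (b b' : Mat n ℚ) (q : OPk n) : Prop :=
  ∀ j I, |(rho q.1.get b' b *ᵥ q.2.2.1 j) I| ≤ C ∧ |(rho (du q.1.get) b' b *ᵥ q.2.2.2 j) I| ≤ C

/-- The first family in the real frame `g`. -/
noncomputable def fr1 (g g' : Mat n ℝ) (q : OPk n) (j : Fin q.2.1) : Tn n q.1 ℝ :=
  rho q.1.get g g' *ᵥ castV ℝ (q.2.2.1 j)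

/-- The second family in the real frame `g`. -/
noncomputable def fr2 (g g' : Mat n ℝ) (q : OPk n) (j : Fin q.2.1) : Tn n q.1 ℝ :=
  rho (du q.1.get) g g' *ᵥ castV ℝ (q.2.2.2 j)

/-- In the frame `g` the two families span the same space of arrays. -/
def ThEq (g g' : Mat n ℝ) (q : OPk n) : Prop :=
  (∀ j, fr1 g g' q j = ∑ l, (fr1 g g' q j ⬝ᵥ fr1 g g' q l) • fr2 g g' q l) ∧
    ∀ j, fr2 g g' q j = ∑ l, (fr2 g g' q j ⬝ᵥ fr2 g g' q l) • fr1 g g' q l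

/-- The same, with bounds. -/
def FPk (C : ℕ) (g g' : Mat n ℝ) (q : OPk n) : Prop :=
  ThEq g g' q ∧ ∀ j I, |fr1 g g' q j I| ≤ C ∧ |fr2 g g' q j I| ≤ C

/-- A `p`-adic matrix is bounded with respect to the basis `b`. -/
def PGood (N : ℕ) (b b' : Mat n ℚ) (e : PMat n) : Prop :=
  ∀ i j, ‖(N : Qp e.1) * (castM (Qp e.1) b' * e.2) i j‖ ≤ 1 ∧
    ‖(N : Qp e.1) * (e.2 * castM (Qp e.1) b) i j‖ ≤ 1

/-- Good bases. -/
def StG (m M C N : ℕ) (ys : List (OPk n)) (es : List (PMat n)) (b : GL (Fin n) ℚ) : Prop :=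
  ZM m b.val ∧ ZM m b.inv ∧ (∀ q ∈ ys, LPk M b.val b.inv q ∧ BPk C b.val b.inv q) ∧
    ∀ e ∈ es, PGood N b.val b.inv e

/-- Two bases give the same coordinates and `p`-adically close matrices. -/
def Near (K : ℕ) (ys : List (OPk n)) (es : List (PMat n)) (b c : GL (Fin n) ℚ) : Prop :=
  (∀ q ∈ ys, ∀ j, rho q.1.get b.inv b.val *ᵥ q.2.2.1 j = rho q.1.get c.inv c.val *ᵥ q.2.2.1 j) ∧
    ∀ e ∈ es, ∀ i j,
      ‖(castM (Qp e.1) b.inv * e.2 - castM (Qp e.1) c.inv * e.2) i j‖ ≤ ‖(K : Qp e.1)‖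

/-- The hypotheses at the two ends of a chain of bases from `1` to `η`. -/
def Ends (s m M N : ℕ) (ys : List (OPk n)) (es : List (PMat n)) (g₁ g₁' g₂ g₂' : Mat n ℝ)
    (η : GL (Fin n) ℚ) : Prop :=
  n ≤ s ∧ 0 < m ∧ m ≤ s ∧ 0 < M ∧ M ≤ s ∧ g₁ * g₁' = 1 ∧ g₂ * g₂' = 1 ∧
    BdM s g₁ ∧ BdM s g₁' ∧ BdM s g₂ ∧ BdM s g₂' ∧
    (∀ q ∈ ys, q.1.length ≤ s ∧ q.2.1 ≤ s ∧ DualPk q ∧ FPk s g₁ g₁' q ∧
      FPk s (g₂ * castM ℝ η.inv) (castM ℝ η.val * g₂') q) ∧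
    StG m M s N ys es 1 ∧ StG m M s N ys es η

/-! Endomorphisms as tensors -/

/-- The type of endomorphisms. -/
abbrev tE : List Bool := [true, false]

/-- A tensor as a matrix. -/
def ofT {F : Type} (y : Tn n tE F) : Mat n F :=
  Matrix.of fun i j => y fun k => if k.val = 0 then i else j

/-- A matrix as a tensor. -/
def toT {F : Type} (x : Mat n F) : Tn n tE F :=
  fun I => x (I ⟨0, by decide⟩) (I ⟨1, by decide⟩)

/-- A linear combination of rational matrices. -/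
def cmb (F : Type) [Field F] {r : ℕ} (a : Fin r → F) (Y : Fin r → Mat n ℚ) : Mat n F :=
  ∑ l, a l • castM F (Y l)

/-! Isomorphisms -/

/-- Matrices carrying `Λ` into `Λ'`. -/
def HomS (Λ Λ' : AddSubgroup (Fin n → ℚ)) : Set (Mat n ℚ) := {x | ∀ v ∈ Λ, x *ᵥ v ∈ Λ'}

/-- The complex span of a set of rational matrices. -/
def CSpan (S : Set (Mat n ℚ)) : Submodule ℂ (Mat n ℂ) := Submodule.span ℂ (castM ℂ '' S)

/-- `α` with inverse `α'` carries the first tensors to the second ones. -/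
def TIso (F : Type) [Field F] (us : List (TPair n)) (α α' : Mat n F) : Prop :=
  α * α' = 1 ∧ α' * α = 1 ∧ ∀ t ∈ us, act t.1 α α' *ᵥ castV F t.2.1 = castV F t.2.2

/-- Complex isomorphisms of the tensors are combinations of homomorphisms of the groups. -/
def BTE (a : BTIn) : Prop :=
  ∀ α α' : Mat a.1 ℂ, TIso ℂ a.2.1 α α' →
    ∀ L ∈ a.2.2.1, α ∈ CSpan (HomS L.1 L.2) ∧ α' ∈ CSpan (HomS L.2 L.1)

/-- Change of coordinates on tensors. -/
def trT (p p' : GL (Fin n) ℚ) (us : List (TPair n)) : List (TPair n) :=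
  us.map fun t => ⟨t.1, act t.1 p.inv p.val *ᵥ t.2.1, act t.1 p'.inv p'.val *ᵥ t.2.2⟩

/-- Change of coordinates on groups. -/
def trL (p p' : GL (Fin n) ℚ) (Ls : List (LPair n)) : List (LPair n) :=
  Ls.map fun L => (lmap p.inv.mulVecLin L.1, lmap p'.inv.mulVecLin L.2)

/-- Change of coordinates. -/
abbrev trIn (a : BTIn) (p p' : GL (Fin a.1) ℚ) : BTIn :=
  ⟨a.1, trT p p' a.2.1, trL p p' a.2.2.1, a.2.2.2⟩

/-- The first tensors. -/
def ts1 (us : List (TPair n)) : List (OT n) := us.map fun t => ⟨t.1, t.2.1⟩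

/-- The second tensors. -/
def ts2 (us : List (TPair n)) : List (OT n) := us.map fun t => ⟨t.1, t.2.2⟩

/-- Automorphisms congruent to the identity. -/
def DlP (ts : List (OT n)) (Λs : List (AddSubgroup (Fin n → ℚ))) (κ : ℕ) (δ : GL (Fin n) ℚ) :
    Prop :=
  (∀ t ∈ ts, act t.1 δ.val δ.inv *ᵥ t.2 = t.2) ∧
    ∀ Λ ∈ Λs, lmap δ.val.mulVecLin Λ = Λ ∧ ∀ x ∈ Λ, δ.val *ᵥ x - x ∈ scal κ Λ

/-- Covering lists given as pairs of matrices. -/
def CoverL (a : BTIn) (l : List (Mat a.1 ℚ × Mat a.1 ℚ)) : Prop :=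
  ∀ α, IsoL a.2.1 a.2.2.1 α → ∃ β : GL (Fin a.1) ℚ, (β.val, β.inv) ∈ l ∧ IsoL a.2.1 a.2.2.1 β ∧
    ∀ L ∈ a.2.2.1, ∀ x ∈ L.1, (β⁻¹ * α).val *ᵥ x - x ∈ scal a.2.2.2 L.1

/-- Raising matrices that kill the second tensors and almost preserve the second groups. -/
def XiP (us : List (TPair n)) (Ls : List (LPair n)) (w : Fin n → ℤ) (B : ℕ) (ξ : Mat n ℚ) :
    Prop :=
  Rais w ξ ∧ (∀ t ∈ us, drho t.1.get ξ *ᵥ t.2.2 = 0) ∧
    ∀ L ∈ Ls, ∀ x ∈ L.2, (B : ℚ) • (ξ *ᵥ x) ∈ L.2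

/-! Complex groups -/

/-- The matrices of a group. -/
def vals (G : Subgroup (GL (Fin n) ℂ)) : Set (Mat n ℂ) := {x | ∃ g ∈ G, g.val = x}

/-- Invariant tensors. -/
def Inva {κ : Type} [Fintype κ] [DecidableEq κ] (G : Subgroup (GL (Fin n) ℂ)) (s : κ → Bool)
    (w : (κ → Fin n) → ℂ) : Prop :=
  ∀ g ∈ G, rho s g.val g.inv *ᵥ w = w

/-- Groups stable under all automorphisms of the complex field. -/
def GalSt (G : Subgroup (GL (Fin n) ℂ)) : Prop :=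
  ∀ τ : ℂ ≃+* ℂ, ∀ g ∈ G, ∃ g₂ ∈ G, g₂.val = g.val.map τ

/-- In the frame `x` conjugation carries invariants to invariants of the dual type. -/
def ThS {κ : Type} [Fintype κ] [DecidableEq κ] (G : Subgroup (GL (Fin n) ℂ)) (s : κ → Bool)
    (x x' : Mat n ℂ) : Prop :=
  ∀ w, Inva G s w → ∃ w', Inva G (du s) w' ∧ star (rho s x x' *ᵥ w) = rho (du s) x x' *ᵥ w'

/-- Dual rational bases of the invariants of a type and of the dual type. -/
def SpanPk (G : Subgroup (GL (Fin n) ℂ)) (q : OPk n) : Prop :=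
  DualPk q ∧
    (∀ j, Inva G q.1.get (castV ℂ (q.2.2.1 j)) ∧ Inva G (du q.1.get) (castV ℂ (q.2.2.2 j))) ∧
    (∀ w, Inva G q.1.get w → w ∈ Submodule.span ℂ (Set.range fun j => castV ℂ (q.2.2.1 j))) ∧
    ∀ w, Inva G (du q.1.get) w → w ∈ Submodule.span ℂ (Set.range fun j => castV ℂ (q.2.2.2 j))

/-- Complex automorphisms of the first tensors. -/
def AutP (us : List (TPair n)) (h : GL (Fin n) ℂ) : Prop :=
  ∀ t ∈ us, act t.1 h.val h.inv *ᵥ castV ℂ t.2.1 = castV ℂ t.2.1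

/-- Graded complex automorphisms of the first tensors. -/
def LevP (us : List (TPair n)) (w : Fin n → ℤ) (h : GL (Fin n) ℂ) : Prop :=
  AutP us h ∧ grm w w h.val = h.val ∧ grm w w h.inv = h.inv

/-- Graded complex isomorphisms. -/
def GrIso (us : List (TPair n)) (w w' : Fin n → ℤ) (β : GL (Fin n) ℂ) : Prop :=
  TIso ℂ us β.val β.inv ∧ grm w' w β.val = β.val ∧ grm w w' β.inv = β.inv

/-- Coordinates adapted to a filtration with semisimple graded action. -/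
def PreAd (us : List (TPair n)) (w w' : Fin n → ℤ) : Prop :=
  (∃ α α', TIso ℂ us α α') ∧ (∀ α α', TIso ℂ us α α' → Fil w' w α ∧ Fil w w' α') ∧
    SemiS {x | ∃ h : GL (Fin n) ℂ, AutP us h ∧ grm w w h.val = x}

/-- Coordinates adapted to a Levi decomposition. -/
def Adapted (us : List (TPair n)) (w w' : Fin n → ℤ) : Prop :=
  (∃ α α', TIso ℂ us α α') ∧
    (∀ α α', TIso ℂ us α α' →
      Fil w' w α ∧ Fil w w' α' ∧ TIso ℂ us (grm w' w α) (grm w w' α')) ∧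
    SemiS {x | ∃ h : GL (Fin n) ℂ, LevP us w h ∧ h.val = x}

/-- `Y` spans the commutant of `G` and `β` carries `Y` to `Y'`. -/
def EOk {r : ℕ} (G : Subgroup (GL (Fin n) ℂ)) (β : GL (Fin n) ℂ) (Y Y' : Fin r → Mat n ℚ) :
    Prop :=
  (∀ l, (∀ g ∈ G, castM ℂ (Y l) * g.val = g.val * castM ℂ (Y l)) ∧
      β.val * castM ℂ (Y l) * β.inv = castM ℂ (Y' l)) ∧
    ∀ c : Mat n ℂ, (∀ g ∈ G, c * g.val = g.val * c) → ∃ a, c = cmb ℂ a Y

/-- Idempotents adding up to a projection of `V` along `D`. -/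
def EpsK {K : Type} [Field K] (V D : Submodule K (Fin n → K)) (es : List (Mat n K)) : Prop :=
  (∀ e ∈ es, e * e = e ∧ (∀ v, e *ᵥ v ∈ V) ∧ ∀ v ∈ D, e *ᵥ v = 0) ∧
    ∀ v ∈ V, v - es.sum *ᵥ v ∈ D

/-! The certificate -/

/-- The group away from `m`. -/
def GlobC (m : ℕ) (Λ : AddSubgroup (Fin n → ℚ)) (π : Mat n ℚ) : Prop :=
  (∀ x ∈ Λ, π *ᵥ x = x) ∧ (∀ x ∈ Λ, ∀ i, x i ∈ Zinv m) ∧ ∀ j, π *ᵥ Pi.single j 1 ∈ glob m Λ

/-- The group at `p`. -/
def LocC (p : Nat.Primes) (Λ : AddSubgroup (Fin n → ℚ)) (N : ℕ) (π : Mat n ℚ)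
    (es : List (Mat n (Qp p))) : Prop :=
  (∀ e ∈ es, e * e = e ∧ (∀ j, (N : Qp p) • (e *ᵥ Pi.single j 1) ∈ loc p Λ) ∧
      ∀ i, ∀ y ∈ loc p Λ, ‖((N : Qp p) • e i) ⬝ᵥ y‖ ≤ 1) ∧
    ∀ j, ∀ c : Qp p,
      c • ((castM (Qp p) π - es.sum * castM (Qp p) π) *ᵥ Pi.single j 1) ∈ loc p Λ

/-- Coefficients of a projector and of idempotents at several primes. -/
abbrev LD (r : ℕ) : Type := (Fin r → ℚ) × List (Σ p : Nat.Primes, List (Fin r → Qp p))

/-- The description of one group in terms of the matrices `Y`. -/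
def LatO {r : ℕ} (m N : ℕ) (Y : Fin r → Mat n ℚ) (Λ : AddSubgroup (Fin n → ℚ)) (d : LD r) :
    Prop :=
  GlobC m Λ (cmb ℚ d.1 Y) ∧
    (∀ e ∈ d.2, LocC e.1 Λ N (cmb ℚ d.1 Y) (e.2.map fun a => cmb (Qp e.1) a Y)) ∧
    ∀ p ≤ m, p.Prime → p ∣ m → ∃ e ∈ d.2, e.1.1 = p

/-- All idempotents. -/
noncomputable def epsL {r : ℕ} (Y : Fin r → Mat n ℚ) (ld : List (LD r)) : List (PMat n) :=
  ld.flatMap fun d => d.2.flatMap fun e => e.2.map fun a => ⟨e.1, cmb (Qp e.1) a Y⟩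

/-- The description of a pair of groups. -/
def LatC {r : ℕ} (s m N : ℕ) (Y Y' : Fin r → Mat n ℚ) (al : List (Mat n ℚ × Mat n ℚ))
    (L : LPair n) (d : LD r) : Prop :=
  LatO m N Y L.1 d ∧ LatO m N Y' L.2 d ∧ d.2.length ≤ s ∧
    ∀ e ∈ d.2, e.2.length ≤ s ∧ ∀ a ∈ e.2, ∀ l ∈ al,
      cmb (Qp e.1) a Y' * castM (Qp e.1) l.1 * cmb (Qp e.1) a Y' = 0

/-- Two real frames with their inverses. -/
abbrev Frames (n : ℕ) : Type := (Mat n ℝ × Mat n ℝ) × (Mat n ℝ × Mat n ℝ)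

/-- The qualitative conditions on a packet. -/
def PkQ (g : Frames n) (σ : List Bool) (q : Pk n σ) : Prop :=
  DualPk ⟨σ, q.1, q.2.1⟩ ∧ ThEq g.1.1 g.1.2 ⟨σ, q.1, q.2.1⟩ ∧ ThEq g.2.1 g.2.2 ⟨σ, q.1, q.2.2⟩

/-- The conditions on a packet. -/
def PkC (s N : ℕ) (g : Frames n) (σ : List Bool) (q : Pk n σ) : Prop :=
  σ.length ≤ s ∧ q.1 ≤ s ∧ DualPk ⟨σ, q.1, q.2.1⟩ ∧
    (LPk N 1 1 ⟨σ, q.1, q.2.1⟩ ∧ BPk s 1 1 ⟨σ, q.1, q.2.1⟩ ∧ FPk s g.1.1 g.1.2 ⟨σ, q.1, q.2.1⟩) ∧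
    LPk N 1 1 ⟨σ, q.1, q.2.2⟩ ∧ BPk s 1 1 ⟨σ, q.1, q.2.2⟩ ∧ FPk s g.2.1 g.2.2 ⟨σ, q.1, q.2.2⟩

/-- `β` carries the first half of a packet to the second half. -/
def PkT (F : Type) [Field F] (β β' : Mat n F) (σ : List Bool) (q : Pk n σ) : Prop :=
  ∀ j, rho σ.get β β' *ᵥ castV F (q.2.1.1 j) = castV F (q.2.2.1 j) ∧
    rho (du σ.get) β β' *ᵥ castV F (q.2.1.2 j) = castV F (q.2.2.2 j)

/-- `x` is the combination of the first members of `al` given by the second members. -/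
def InAl (F : Type) [Field F] (al : List (Mat n ℚ × Mat n ℚ)) (x : Mat n F) : Prop :=
  x = (al.map fun l => mdot (castM F l.2) x • castM F l.1).sum

/-- A tensor pair with its packet. -/
abbrev UPk (n : ℕ) : Type := Σ σ : List Bool, (Tn n σ ℚ × Tn n σ ℚ) × Pk n σ

/-- The first tensor is a combination of the first family. -/
def USp (q : UPk n) : Prop := q.2.1.1 = ∑ j, (q.2.2.2.1.2 j ⬝ᵥ q.2.1.1) • q.2.2.2.1.1 j

/-- Every tensor pair has a packet. -/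
def UCov (us : List (TPair n)) (pks : List (UPk n)) : Prop :=
  ∀ t ∈ us, t ∈ pks.map fun q => (⟨q.1, q.2.1⟩ : TPair n)

/-- What the certificate asserts about every isomorphism of the tensors. -/
def NSC (F : Type) [Field F] (us : List (TPair n)) (w w' : Fin n → ℤ) (pks : List (UPk n))
    (E : Pk n tE) (al : List (Mat n ℚ × Mat n ℚ)) (α α' : Mat n F) : Prop :=
  TIso F us (grm w' w α) (grm w w' α') ∧ PkT F (grm w' w α) (grm w w' α') tE E ∧
    (∀ q ∈ pks, PkT F (grm w' w α) (grm w w' α') q.1 q.2.2) ∧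
    InAl F al (α * grm w w' α' - 1) ∧ InAl F al (grm w' w α * α' - 1)

/-- Certificates: sizes `(s, m, N)`, weights, packets, frames, raising matrices, the packet of
endomorphisms with the descriptions of the groups. -/
abbrev CD (n : ℕ) : Type :=
  (ℕ × ℕ × ℕ) × ((Fin n → ℤ) × (Fin n → ℤ)) × List (UPk n) × Frames n ×
    List (Mat n ℚ × Mat n ℚ) × Σ E : Pk n tE, List (LD E.1)

/-- The conditions on a certificate, with all components named. -/
def CertX (us : List (TPair n)) (Ls : List (LPair n)) (κ s m N : ℕ) (w w' : Fin n → ℤ)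
    (pks : List (UPk n)) (g : Frames n) (al : List (Mat n ℚ × Mat n ℚ)) (E : Pk n tE)
    (ld : List (LD E.1)) : Prop :=
  (n ≤ s ∧ 0 < m ∧ m ≤ s ∧ κ ∣ m ∧ 0 < N ∧ N ≤ s ∧ pks.length ≤ s ∧ ld.length ≤ s) ∧
    (UCov us pks ∧ (∀ q ∈ pks, USp q ∧ PkC s N g q.1 q.2.2) ∧ PkC s N g tE E) ∧
    (g.1.1 * g.1.2 = 1 ∧ g.2.1 * g.2.2 = 1 ∧
      BdM s g.1.1 ∧ BdM s g.1.2 ∧ BdM s g.2.1 ∧ BdM s g.2.2) ∧
    (∀ l ∈ al, Rais w' l.1) ∧
    List.Forall₂ (LatC s m N (fun l => ofT (E.2.1.1 l)) (fun l => ofT (E.2.2.1 l)) al) Ls ld ∧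
    ∀ α α' : Mat n ℂ, TIso ℂ us α α' → NSC ℂ us w w' pks E al α α'

/-- The conditions on a certificate. -/
def BCert (a : BTIn) (c : CD a.1) : Prop :=
  CertX a.2.1 a.2.2.1 a.2.2.2 c.1.1 c.1.2.1 c.1.2.2 c.2.1.1 c.2.1.2 c.2.2.1 c.2.2.2.1
    c.2.2.2.2.1 c.2.2.2.2.2.1 c.2.2.2.2.2.2

/-- Algebraic frames. -/
def AlgFr (g : Frames n) : Prop :=
  ∀ i j, IsAlgebraic ℚ (g.1.1 i j) ∧ IsAlgebraic ℚ (g.1.2 i j) ∧ IsAlgebraic ℚ (g.2.1 i j) ∧
    IsAlgebraic ℚ (g.2.2 i j)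

/-- All real and `p`-adic numbers in the certificate are algebraic. -/
def AlgCD (c : CD n) : Prop :=
  AlgFr c.2.2.2.1 ∧
    ∀ d ∈ c.2.2.2.2.2.2, ∀ e ∈ d.2, ∀ a ∈ e.2, ∀ l, IsAlgebraic ℚ (a l)

/-! Adding the spaces of homomorphisms as a direct summand -/

/-- The inclusion of the first summand. -/
def eL (n d : ℕ) : Matrix (Fin (n + d)) (Fin n) ℚ :=
  Matrix.of fun I i => if I.val = i.val then 1 else 0

/-- The inclusion of the second summand. -/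
def eR (n d : ℕ) : Matrix (Fin (n + d)) (Fin d) ℚ :=
  Matrix.of fun I i => if I.val = n + i.val then 1 else 0

/-- Families of pairs of matrices. -/
abbrev XF (n d : ℕ) : Type := Fin d → Bool → Mat n ℚ

/-- The map from the second summand to the first one given by the `j`-th columns. -/
def iota {d : ℕ} (x : XF n d) (b : Bool) (j : Fin n) : Mat (n + d) ℚ :=
  eL n d * (Matrix.of fun i c => x c b i j : Matrix (Fin n) (Fin d) ℚ) * (eR n d)ᵀ

/-- Vectors integral away from `m`. -/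
def zlat (m n : ℕ) : AddSubgroup (Fin n → ℚ) where
  carrier := {x | ∀ i, x i ∈ Zinv m}
  zero_mem' := fun _ => zero_mem _
  add_mem' := fun hx hy i => add_mem (hx i) (hy i)
  neg_mem' := fun hx i => neg_mem (hx i)

/-- Matrices carrying all groups of side `b` into the groups of side `b'`. -/
def homA (Ls : List (LPair n)) (b b' : Bool) : AddSubgroup (Mat n ℚ) where
  carrier := {x | ∀ L ∈ Ls, ∀ v ∈ cond b L.2 L.1, x *ᵥ v ∈ cond b' L.2 L.1}
  zero_mem' := fun _ _ v _ => by rw [Matrix.zero_mulVec]; exact zero_mem _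
  add_mem' := fun hx hy L hL v hv => by
    rw [Matrix.add_mulVec]; exact add_mem (hx L hL v hv) (hy L hL v hv)
  neg_mem' := fun hx L hL v hv => by rw [Matrix.neg_mulVec]; exact neg_mem (hx L hL v hv)

/-- Pairs of quasi-homomorphisms into side `b'`. -/
def spA (Ls : List (LPair n)) (b' : Bool) : Submodule ℚ (Bool → Mat n ℚ) :=
  Submodule.pi Set.univ fun b => qspan (homA Ls b b')

/-- The extended input. -/
def extIn (a : BTIn) (d m : ℕ) (x x' : XF a.1 d) : BTIn :=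
  ⟨a.1 + d,
    ⟨tE, toT (eL a.1 d * (eL a.1 d)ᵀ), toT (eL a.1 d * (eL a.1 d)ᵀ)⟩ ::
      (([false, true].flatMap fun b => (List.finRange a.1).map fun j =>
          (⟨tE, toT (iota x b j), toT (iota x' b j)⟩ : TPair (a.1 + d))) ++
        a.2.1.map fun t => ⟨t.1, rho t.1.get (eL a.1 d) (eL a.1 d)ᵀ *ᵥ t.2.1,
          rho t.1.get (eL a.1 d) (eL a.1 d)ᵀ *ᵥ t.2.2⟩),
    (zlat m (a.1 + d), zlat m (a.1 + d)) ::
      a.2.2.1.map fun L => (lmap (eL a.1 d).mulVecLin L.1, lmap (eL a.1 d).mulVecLin L.2),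
    a.2.2.2⟩

/-- `x` is a basis of `W`, integral away from `m` together with a dual family. -/
def XBas {d : ℕ} (m : ℕ) (W : Submodule ℚ (Bool → Mat n ℚ)) (x : XF n d) : Prop :=
  Submodule.span ℚ (Set.range x) = W ∧ (∀ c b, ZM m (x c b)) ∧
    ∃ φ : XF n d, (∀ c b, ZM m (φ c b)) ∧
      ∀ c c', ∑ b, mdot (φ c b) (x c' b) = if c = c' then 1 else 0

/-- The data of the extension are admissible. -/
def ExtOk (a : BTIn) (d m : ℕ) (x x' : XF a.1 d) : Prop :=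
  0 < m ∧ XBas m (spA a.2.2.1 false) x ∧ XBas m (spA a.2.2.1 true) x' ∧
    ∃ L ∈ a.2.2.1, (∀ v ∈ L.1, ∀ i, v i ∈ Zinv m) ∧ (∀ v ∈ L.2, ∀ i, v i ∈ Zinv m) ∧
      ∀ j, (m : ℚ) • (Pi.single j 1 : Fin a.1 → ℚ) ∈ L.1 ∧
        (m : ℚ) • (Pi.single j 1 : Fin a.1 → ℚ) ∈ L.2

end Pool.Agent.P.MP_257122_al
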