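import Pool.Agent.P.MP_257122_al.LDefs

/-!
# The arithmetic core: definitions
-/

namespace Pool.Agent.P.MP_257122_al

open Matrix

/-- Tensors of type `σ`; `true` marks a vector slot and `false` a covector slot. -/
abbrev Tn (n : ℕ) (σ : List Bool) (R : Type) : Type := (Fin σ.length → Fin n) → R

/-- The action on tensors of a matrix `g` with inverse `g'`. -/
def act {n : ℕ} {R : Type} [CommRing R] (σ : List Bool) (g g' : Matrix (Fin n) (Fin n) R) :
    Matrix (Fin σ.length → Fin n) (Fin σ.length → Fin n) R :=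
  Matrix.of fun I J => ∏ s, if σ.get s = true then g (I s) (J s) else g' (J s) (I s)

/-- A pair of tensors of the same type. -/
abbrev TPair (n : ℕ) : Type := Σ σ : List Bool, Tn n σ ℚ × Tn n σ ℚ

/-- A pair of groups of vectors. -/
abbrev LPair (n : ℕ) : Type := AddSubgroup (Fin n → ℚ) × AddSubgroup (Fin n → ℚ)

/-- `α` carries the first tensors and groups to the second ones. -/
def IsoL {n : ℕ} (us : List (TPair n)) (Ls : List (LPair n)) (α : GL (Fin n) ℚ) : Prop :=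
  (∀ t ∈ us, act t.1 α.val α.inv *ᵥ t.2.1 = t.2.2) ∧
    ∀ L ∈ Ls, lmap α.val.mulVecLin L.1 = L.2

/-- The coordinates involve finitely many primes only. -/
def Red {n : ℕ} (Λ : AddSubgroup (Fin n → ℚ)) : Prop :=
  ∃ m, 0 < m ∧ ∀ x ∈ Λ, ∀ i, x i ∈ Zinv m

/-- Input of the arithmetic core: dimension, tensors, groups, level. -/
abbrev BTIn : Type := Σ n : ℕ, List (TPair n) × List (LPair n) × ℕ

/-- Admissible inputs. -/
def BTok (a : BTIn) : Prop :=
  0 < a.2.2.2 ∧ (∀ L ∈ a.2.2.1, Red L.1 ∧ Red L.2) ∧ ∃ L ∈ a.2.2.1, qspan L.1 = ⊤ ∧ qspan L.2 = ⊤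

/-- Every isomorphism is congruent to one in the list `R`. -/
def BTCover (a : BTIn) (R : List (GL (Fin a.1) ℚ)) : Prop :=
  ∀ α, IsoL a.2.1 a.2.2.1 α → ∃ β ∈ R, IsoL a.2.1 a.2.2.1 β ∧
    ∀ L ∈ a.2.2.1, ∀ x ∈ L.1, (β⁻¹ * α).val *ᵥ x - x ∈ scal a.2.2.2 L.1

end Pool.Agent.P.MP_257122_al
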