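import Pool.Agent.P.MP_257122_al.BGal
import Pool.Agent.P.MP_257122_al.BGr

/-!
# Invariant projectors over a subfield

PLAN.  `proj_field`: `SemiS` gives a complex projector `cmb ℂ a Y` onto `cx j U`; conjugating by
`β` gives `cmb ℂ a Y'`, a projector onto `cx j U'`.  Let `r` be a retraction (`exists_retr`) and
take the coefficients `r (a l)`: for a vector `v` over `K`,
`r ∘ (cmb ℂ a Y (j ∘ v)) = cmb K (r ∘ a) Y v`; use `lin_span`.
`cmb_mul`: the product of two combinations commutes with `G`, so it is a complex combination on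
both sides with the same coefficients; apply `r` entrywise.
`eps_field`: choose `lo ≤` all weights and `K₀` with all weights `< lo + K₀`; let `Wk` be the
subspace `VanB w (lo + k)`, `F k = D ⊔ (V ⊓ Wk)`, so `F 0 = V`, `F K₀ = D`; `cx j Wk` is the complex
subspace `VanB w (lo + k)`, so `cx j (F k)` is invariant (`cx_sup`, `cx_inf`, `Fil.vanB`) and is
carried by `β` to `cx j (F' k)` and back.  With projectors `π k` onto `F k` put `ψ 0 = π 0`,
`ψ (k+1) = π (k+1) ψ k` (a projector onto `F k`), `e k = ψ k - ψ (k+1)`, `k < K₀`.  Then `e k` maps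
into `F k`, kills `F (k+1)`, is idempotent, the sum telescopes, and a raising `l` preserving
`V'`, `D'` maps `F' k` into `F' (k+1)`.
-/

namespace Pool.Agent.P.MP_257122_al

open Matrix

variable {n r : ℕ} {K : Type} [Field K] [CharZero K] (j : K →+* ℂ)
  {G : Subgroup (GL (Fin n) ℂ)} {β : GL (Fin n) ℂ} {Y Y' : Fin r → Mat n ℚ}

namespace BEpsAux

theorem cmb_apply {F : Type} [Field F] (a : Fin r → F) (Y : Fin r → Mat n ℚ) (i k : Fin n) :
    cmb F a Y i k = ∑ l, a l * (Y l i k : F) := by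
  simp [cmb, castM, Matrix.sum_apply]

theorem cmb_map (a : Fin r → K) (Y : Fin r → Mat n ℚ) :
    (cmb K a Y).map j = cmb ℂ (fun l => j (a l)) Y := by
  ext i k
  simp [cmb_apply]

theorem cmb_sub {F : Type} [Field F] (a b : Fin r → F) (Y : Fin r → Mat n ℚ) :
    cmb F (a - b) Y = cmb F a Y - cmb F b Y := by
  simp [cmb, sub_smul]

theorem retr_entry {ρ : ℂ →+ K} (hr : ∀ z k, ρ (z * j k) = ρ z * k) (a : Fin r → ℂ)
    (Y : Fin r → Mat n ℚ) (i k : Fin n) : ρ (cmb ℂ a Y i k) = cmb K (fun l => ρ (a l)) Y i k := by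
  rw [cmb_apply, cmb_apply, map_sum]
  exact Finset.sum_congr rfl fun l _ => by rw [← map_ratCast j, hr]

theorem retr_vec {ρ : ℂ →+ K} (hr : ∀ z k, ρ (z * j k) = ρ z * k) (a : Fin r → ℂ)
    (Y : Fin r → Mat n ℚ) (v : Fin n → K) :
    (fun i => ρ ((cmb ℂ a Y *ᵥ fun k => j (v k)) i)) = cmb K (fun l => ρ (a l)) Y *ᵥ v := by
  funext i
  simp only [mulVec, dotProduct, map_sum, hr, retr_entry j hr]

theorem conj (hE : EOk G β Y Y') (a : Fin r → ℂ) : β.val * cmb ℂ a Y * β.inv = cmb ℂ a Y' := by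
  simp only [cmb, Finset.mul_sum, Finset.sum_mul, mul_smul_comm, smul_mul_assoc, (hE.1 _).2]

theorem comm (hE : EOk G β Y Y') (a : Fin r → ℂ) {g : GL (Fin n) ℂ} (hg : g ∈ G) :
    cmb ℂ a Y * g.val = g.val * cmb ℂ a Y := by
  simp only [cmb, Finset.mul_sum, Finset.sum_mul, mul_smul_comm, smul_mul_assoc, (hE.1 _).1 g hg]

theorem desc {ρ : ℂ →+ K} (h1 : ∀ k, ρ (j k) = k) (hr : ∀ z k, ρ (z * j k) = ρ z * k)
    {a : Fin r → ℂ} {U : Submodule K (Fin n → K)} (h2 : ∀ v, cmb ℂ a Y *ᵥ v ∈ cx j U)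
    (h3 : ∀ v ∈ cx j U, cmb ℂ a Y *ᵥ v = v) :
    (∀ v, cmb K (fun l => ρ (a l)) Y *ᵥ v ∈ U) ∧
      ∀ v ∈ U, cmb K (fun l => ρ (a l)) Y *ᵥ v = v := by
  refine ⟨fun v => ?_, fun v hv => ?_⟩
  · have := lin_span j ρ hr _ (h2 fun k => j (v k))
    rwa [retr_vec j hr, Submodule.span_eq] at this
  · rw [← retr_vec j hr, h3 _ ((mem_cx_iff j U v).2 hv)]
    exact funext fun i => h1 _

/-- vectors vanishing below the weight `d` -/
def W (F : Type) [Field F] (w : Fin n → ℤ) (d : ℤ) : Submodule F (Fin n → F) where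
  carrier := {v | VanB w d v}
  add_mem' hx hy i h := by rw [Pi.add_apply, hx i h, hy i h, add_zero]
  zero_mem' _ _ := rfl
  smul_mem' c _ hx i h := by rw [Pi.smul_apply, hx i h, smul_zero]

theorem cx_W (w : Fin n → ℤ) (d : ℤ) : cx j (W K w d) = W ℂ w d := by
  refine le_antisymm (Submodule.span_le.2 ?_) fun v hv => ?_
  · rintro _ ⟨x, hx, rfl⟩ i h
    exact (congrArg j (hx i h)).trans (map_zero j)
  · rw [pi_eq_sum_univ' v]
    refine Submodule.sum_mem _ fun i _ => ?_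
    by_cases h : w i < d
    · rw [hv i h, zero_smul]
      exact zero_mem _
    · refine Submodule.smul_mem _ _ (Submodule.subset_span ⟨Pi.single i 1, fun k hk => ?_, ?_⟩)
      · exact Pi.single_eq_of_ne (by rintro rfl; exact h hk) _
      · funext k
        by_cases hk : k = i <;> simp [hk]

theorem map_F {F : Type} [Field F] {x : Mat n F} {A B C A' B' C' : Submodule F (Fin n → F)}
    (h1 : ∀ v ∈ A, x *ᵥ v ∈ A') (h2 : ∀ v ∈ B, x *ᵥ v ∈ B') (h3 : ∀ v ∈ C, x *ᵥ v ∈ C') :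
    ∀ v ∈ A ⊔ B ⊓ C, x *ᵥ v ∈ A' ⊔ B' ⊓ C' := by
  intro v hv
  obtain ⟨a, ha, b, hb, rfl⟩ := Submodule.mem_sup.1 hv
  rw [mulVec_add]
  exact Submodule.add_mem_sup (h1 a ha) ⟨h2 b hb.1, h3 b hb.2⟩

theorem map_cx {x : Mat n ℂ} {w w' : Fin n → ℤ} (d : ℤ) {V D V' D' : Submodule K (Fin n → K)}
    (h1 : ∀ v ∈ cx j D, x *ᵥ v ∈ cx j D') (h2 : ∀ v ∈ cx j V, x *ᵥ v ∈ cx j V')
    (h3 : Fil w' w x) :
    ∀ v ∈ cx j (D ⊔ V ⊓ W K w d), x *ᵥ v ∈ cx j (D' ⊔ V' ⊓ W K w' d) := by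
  rw [cx_sup, cx_sup, cx_inf, cx_inf, cx_W, cx_W]
  exact map_F h1 h2 fun v hv => h3.vanB hv

/-- iterated projectors -/
def psi (π : ℕ → Mat n K) : ℕ → Mat n K
  | 0 => π 0
  | k + 1 => π (k + 1) * psi π k

omit [CharZero K] in
theorem psi_sum (π : ℕ → Mat n K) (m : ℕ) :
    ((List.range m).map fun k => psi π k - psi π (k + 1)).sum = psi π 0 - psi π m := by
  induction m with
  | zero => simp
  | succ m ih => rw [List.sum_range_succ, ih, sub_add_sub_cancel]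

omit [CharZero K] in
theorem psi_eps {π : ℕ → Mat n K} {V D : Submodule K (Fin n → K)} (hD : D ≤ V) {w : Fin n → ℤ}
    {lo : ℤ} {m : ℕ} (h0 : ∀ i, lo ≤ w i) (h1 : ∀ i, w i < lo + m)
    (h : ∀ k : ℕ, (∀ v, π k *ᵥ v ∈ D ⊔ V ⊓ W K w (lo + k)) ∧
      ∀ v ∈ D ⊔ V ⊓ W K w (lo + k), π k *ᵥ v = v) :
    EpsK V D ((List.range m).map fun k => psi π k - psi π (k + 1)) ∧
      ∀ k, ∀ l : Mat n K, Rais w l → (∀ v ∈ V, l *ᵥ v ∈ V) → (∀ v ∈ D, l *ᵥ v ∈ D) →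
        (psi π k - psi π (k + 1)) * l * (psi π k - psi π (k + 1)) = 0 := by
  have a0 : ∀ k : ℕ, D ⊔ V ⊓ W K w (lo + (k + 1 : ℕ)) ≤ D ⊔ V ⊓ W K w (lo + k) := fun k =>
    sup_le_sup_left (inf_le_inf_left _ fun v hv i hi => hv i (by push_cast; omega)) _
  have a1 : ∀ (k : ℕ) v, psi π k *ᵥ v ∈ D ⊔ V ⊓ W K w (lo + k) := fun k v => by
    cases k with
    | zero => exact (h 0).1 v
    | succ k => rw [psi, ← mulVec_mulVec]; exact (h _).1 _
  have a2 : ∀ k : ℕ, ∀ v ∈ D ⊔ V ⊓ W K w (lo + k), psi π k *ᵥ v = v := fun k => by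
    induction k with
    | zero => exact (h 0).2
    | succ k ih => exact fun v hv => by rw [psi, ← mulVec_mulVec, ih v (a0 k hv), (h _).2 v hv]
  have a3 : ∀ (k : ℕ) v, (psi π k - psi π (k + 1)) *ᵥ v ∈ D ⊔ V ⊓ W K w (lo + k) := fun k v => by
    rw [sub_mulVec]
    exact sub_mem (a1 k v) (a0 k (a1 _ v))
  have a4 : ∀ k : ℕ, ∀ v ∈ D ⊔ V ⊓ W K w (lo + (k + 1 : ℕ)),
      (psi π k - psi π (k + 1)) *ᵥ v = 0 := fun k v hv => by
    rw [sub_mulVec, a2 k v (a0 k hv), a2 _ v hv, sub_self]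
  refine ⟨⟨fun e he => ?_, fun v hv => ?_⟩, fun k l hl hV hD' => ?_⟩
  · obtain ⟨k, -, rfl⟩ := List.mem_map.1 he
    refine ⟨Matrix.mulVec_injective (funext fun v => ?_), fun v => sup_le hD inf_le_left (a3 k v),
      fun v hv => a4 k v (Submodule.mem_sup_left hv)⟩
    rw [← mulVec_mulVec]
    conv_lhs => rw [sub_mulVec _ _ v, mulVec_sub, a4 k _ (a1 (k + 1) v), sub_zero]
    rw [sub_mulVec, sub_mulVec, a2 k _ (a1 k v), psi, ← mulVec_mulVec, ← mulVec_mulVec,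
      a2 k _ (a1 k v)]
  · rw [psi_sum, sub_mulVec, a2 0 v (Submodule.mem_sup_right ⟨hv, fun i hi => by
      have := h0 i
      push_cast at hi
      omega⟩), sub_sub_cancel]
    obtain ⟨a, ha, b, hb, e⟩ := Submodule.mem_sup.1 (a1 m v)
    rw [← e, show b = 0 from funext fun i => hb.2 i (h1 i), add_zero]
    exact ha
  · refine Matrix.mulVec_injective (funext fun v => ?_)
    rw [← mulVec_mulVec, ← mulVec_mulVec, zero_mulVec]
    refine a4 k _ (map_F hD' hV (fun u hu => ?_) _ (a3 k v))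
    rw [Nat.cast_succ, ← add_assoc]
    exact hl.vanB hu

end BEpsAux

open BEpsAux

theorem proj_field (hs : SemiS (vals G)) (hE : EOk G β Y Y') {U U' : Submodule K (Fin n → K)}
    (hU : ∀ g ∈ G, ∀ v ∈ cx j U, g.val *ᵥ v ∈ cx j U)
    (hβ : ∀ v ∈ cx j U, β.val *ᵥ v ∈ cx j U') (hβ' : ∀ v ∈ cx j U', β.inv *ᵥ v ∈ cx j U) :
    ∃ a : Fin r → K, ((∀ v, cmb K a Y *ᵥ v ∈ U) ∧ ∀ v ∈ U, cmb K a Y *ᵥ v = v) ∧
      (∀ v, cmb K a Y' *ᵥ v ∈ U') ∧ ∀ v ∈ U', cmb K a Y' *ᵥ v = v := by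
  obtain ⟨π, h1, h2, h3⟩ := hs (cx j U) (by rintro _ ⟨g, hg, rfl⟩; exact hU g hg)
  obtain ⟨a, rfl⟩ := hE.2 π fun g hg => h1 _ ⟨g, hg, rfl⟩
  obtain ⟨ρ, r1, r2⟩ := exists_retr j
  refine ⟨_, desc j r1 r2 h2 h3, desc j r1 r2 (fun v => ?_) fun v hv => ?_⟩
  · rw [← conj hE, ← mulVec_mulVec, ← mulVec_mulVec]
    exact hβ _ (h2 _)
  · rw [← conj hE, ← mulVec_mulVec, ← mulVec_mulVec, h3 _ (hβ' v hv), mulVec_mulVec, β.val_inv,
      one_mulVec]

include j in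
theorem cmb_mul (hE : EOk G β Y Y') (a b : Fin r → K) :
    ∃ c : Fin r → K, cmb K a Y * cmb K b Y = cmb K c Y ∧ cmb K a Y' * cmb K b Y' = cmb K c Y' := by
  obtain ⟨c, hc⟩ := hE.2 (cmb ℂ (fun l => j (a l)) Y * cmb ℂ (fun l => j (b l)) Y) fun g hg => by
    rw [mul_assoc, comm hE _ hg, ← mul_assoc, comm hE _ hg, mul_assoc]
  have hc' : cmb ℂ (fun l => j (a l)) Y' * cmb ℂ (fun l => j (b l)) Y' = cmb ℂ c Y' := by
    rw [← conj hE, ← conj hE, ← conj hE, ← hc]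
    simp only [mul_assoc]
    rw [← mul_assoc β.inv, β.inv_val, one_mul]
  obtain ⟨ρ, r1, r2⟩ := exists_retr j
  rw [← cmb_map, ← cmb_map, ← Matrix.map_mul] at hc hc'
  refine ⟨fun l => ρ (c l), Matrix.ext fun i k => ?_, Matrix.ext fun i k => ?_⟩
  · rw [← retr_entry j r2, ← hc, Matrix.map_apply, r1]
  · rw [← retr_entry j r2, ← hc', Matrix.map_apply, r1]

theorem eps_field (hs : SemiS (vals G)) (hE : EOk G β Y Y') {w w' : Fin n → ℤ}
    (hgr : ∀ g ∈ G, Fil w w g.val) (hf : Fil w' w β.val) (hf' : Fil w w' β.inv)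
    {V D V' D' : Submodule K (Fin n → K)} (hD : D ≤ V) (hD' : D' ≤ V')
    (hGV : ∀ g ∈ G, ∀ v ∈ cx j V, g.val *ᵥ v ∈ cx j V)
    (hGD : ∀ g ∈ G, ∀ v ∈ cx j D, g.val *ᵥ v ∈ cx j D)
    (hV : ∀ v ∈ cx j V, β.val *ᵥ v ∈ cx j V') (hV' : ∀ v ∈ cx j V', β.inv *ᵥ v ∈ cx j V)
    (hβ : ∀ v ∈ cx j D, β.val *ᵥ v ∈ cx j D') (hβ' : ∀ v ∈ cx j D', β.inv *ᵥ v ∈ cx j D) :
    ∃ εs : List (Fin r → K), EpsK V D (εs.map fun a => cmb K a Y) ∧
      EpsK V' D' (εs.map fun a => cmb K a Y') ∧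
      ∀ a ∈ εs, ∀ l : Mat n K, Rais w' l → (∀ v ∈ V', l *ᵥ v ∈ V') → (∀ v ∈ D', l *ᵥ v ∈ D') →
        cmb K a Y' * l * cmb K a Y' = 0 := by
  obtain ⟨lo, hlo⟩ := ((Set.finite_range w).union (Set.finite_range w')).bddBelow
  obtain ⟨hi, hhi⟩ := ((Set.finite_range w).union (Set.finite_range w')).bddAbove
  choose a ha ha' using fun k : ℕ => proj_field j hs hE (U := D ⊔ V ⊓ W K w (lo + k))
    (U' := D' ⊔ V' ⊓ W K w' (lo + k)) (fun g hg => map_cx j _ (hGD g hg) (hGV g hg) (hgr g hg))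
    (map_cx j _ hβ hV hf) (map_cx j _ hβ' hV' hf')
  have b1 : ∀ k, ∃ c, psi (fun k => cmb K (a k) Y) k = cmb K c Y ∧
      psi (fun k => cmb K (a k) Y') k = cmb K c Y' := fun k => by
    induction k with
    | zero => exact ⟨a 0, rfl, rfl⟩
    | succ k ih =>
      obtain ⟨c, h1, h2⟩ := ih
      rw [psi, psi, h1, h2]
      exact cmb_mul j hE _ _
  choose c h1 h2 using b1
  obtain ⟨e1, -⟩ := psi_eps (m := (hi - lo + 1).toNat) hD (fun i => hlo (Or.inl ⟨i, rfl⟩))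
    (fun i => by have := hhi (Or.inl ⟨i, rfl⟩); omega) ha
  obtain ⟨e2, e3⟩ := psi_eps (m := (hi - lo + 1).toNat) hD' (fun i => hlo (Or.inr ⟨i, rfl⟩))
    (fun i => by have := hhi (Or.inr ⟨i, rfl⟩); omega) ha'
  simp only [h1, h2, ← cmb_sub] at e1 e2 e3
  refine ⟨(List.range (hi - lo + 1).toNat).map fun k => c k - c (k + 1), ?_, ?_, fun x hx => ?_⟩
  · rw [List.map_map]
    exact e1
  · rw [List.map_map]
    exact e2
  · obtain ⟨k, -, rfl⟩ := List.mem_map.1 hx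
    exact e3 k

end Pool.Agent.P.MP_257122_al
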