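import Pool.Agent.P.MP_257122_al.BLog

/-!
# The infinitesimal action and the exponential

PLAN.  Let `slot i x` be the matrix `I J ↦ x (I i) (J i) * ∏_{j ≠ i} [I j = J j]`; it is an algebra
homomorphism in `x`, `slot i x` and `slot j y` commute for `i ≠ j`, and for a finite set `S` of
slots the matrix `I J ↦ ∏_j (if j ∈ S then x j (I j) (J j) else [I j = J j])` is multiplied by
`slot i (x i)` when `i` is inserted (both are instances of `rho_mul` for the type `fun _ => true`
if one allows a different matrix in every slot: prove that version first).  With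
`x i = ξ` or `-ξᵀ`, induction on `S` with `IsNilpotent.exp_add_of_commute`, `map_exp` gives
`rho_exp` (transposition: `exp (xᵀ) = (exp x)ᵀ` from `exp_eq_sum`).
`exp_vanB`: `exp N - 1 = (1 + T) N` with `T` raising; the converse implication by induction on
the level, starting below all weights.
-/

namespace Pool.Agent.P.MP_257122_al

open Matrix

namespace BExpAux

variable {κ ι ι' ι'' F : Type} [Field F] [Fintype κ] [DecidableEq κ]

/-- the tensor product of matrices -/
def kr (x : κ → Matrix ι' ι F) : Matrix (κ → ι') (κ → ι) F :=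
  Matrix.of fun I J => ∏ j, x j (I j) (J j)

theorem kr_mul [Fintype ι'] (x : κ → Matrix ι'' ι' F) (y : κ → Matrix ι' ι F) :
    kr x * kr y = kr fun j => x j * y j := by
  ext I J
  simp only [kr, mul_apply, of_apply]
  rw [Finset.prod_univ_sum, Fintype.piFinset_univ]
  exact Finset.sum_congr rfl fun K _ => Finset.prod_mul_distrib.symm

omit [DecidableEq κ] in
theorem rho_eq (s : κ → Bool) (g : Matrix ι' ι F) (g' : Matrix ι ι' F) :
    rho s g g' = kr fun j => if s j = true then g else g'ᵀ := by
  ext I J
  simp only [kr, rho, of_apply]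
  refine Finset.prod_congr rfl fun j _ => ?_
  split_ifs <;> rfl

variable [DecidableEq ι]

omit [DecidableEq κ] in
theorem kr_one : kr (fun _ : κ => (1 : Matrix ι ι F)) = 1 := by
  ext I J
  simp only [kr, of_apply, one_apply]
  rw [Finset.prod_ite_zero, Finset.prod_const_one]
  simp only [Finset.mem_univ, true_imp_iff, funext_iff]

theorem kr_update (i : κ) (x : Matrix ι ι F) (I J : κ → ι) :
    kr (Function.update (fun _ => (1 : Matrix ι ι F)) i x) I J =
      x (I i) (J i) * ∏ j, if j = i ∨ I j = J j then 1 else 0 := by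
  simp only [kr, of_apply]
  rw [← Finset.mul_prod_erase _ _ (Finset.mem_univ i),
    ← Finset.mul_prod_erase _ _ (Finset.mem_univ i), Function.update_self, if_pos (Or.inl rfl),
    one_mul]
  congr 1
  refine Finset.prod_congr rfl fun j hj => ?_
  have := (Finset.mem_erase.1 hj).1
  rw [Function.update_of_ne this, one_apply]
  simp [this]

variable [Fintype ι]

/-- a matrix acting in one slot -/
def slot (i : κ) : Matrix ι ι F →+* Matrix (κ → ι) (κ → ι) F where
  toFun x := kr (Function.update (fun _ => (1 : Matrix ι ι F)) i x)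
  map_one' := by rw [Function.update_eq_self, kr_one]
  map_mul' x y := by
    rw [kr_mul]
    congr 1
    funext j
    by_cases h : j = i
    · subst h
      simp
    · simp [h]
  map_zero' := by
    ext I J
    rw [kr_update]
    simp
  map_add' x y := by
    ext I J
    rw [Matrix.add_apply, kr_update, kr_update, kr_update, Matrix.add_apply, add_mul]

theorem slot_apply (i : κ) (x : Matrix ι ι F) :
    slot i x = kr (Function.update (fun _ => (1 : Matrix ι ι F)) i x) := rfl

theorem slot_comm {i j : κ} (h : i ≠ j) (x y : Matrix ι ι F) : Commute (slot i x) (slot j y) := by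
  unfold Commute SemiconjBy
  rw [slot_apply, slot_apply, kr_mul, kr_mul]
  congr 1
  funext l
  by_cases h1 : l = i
  · subst h1
    simp [h]
  · simp [h1]

theorem drho_eq (s : κ → Bool) (ξ : Matrix ι ι F) :
    drho s ξ = ∑ i, slot i (if s i = true then ξ else -ξᵀ) := by
  ext I J
  rw [Matrix.sum_apply]
  refine Finset.sum_congr rfl fun i _ => ?_
  rw [slot_apply, kr_update]
  split_ifs <;> rfl

variable [Algebra ℚ F]

theorem exp_sum (x : κ → Matrix ι ι F) (hx : ∀ i, IsNilpotent (x i)) (S : Finset κ) :
    IsNilpotent (∑ i ∈ S, slot i (x i)) ∧ IsNilpotent.exp (∑ i ∈ S, slot i (x i)) =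
      kr fun j => if j ∈ S then IsNilpotent.exp (x j) else 1 := by
  induction S using Finset.induction_on with
  | empty => simp [kr_one]
  | insert a S ha ih =>
    have hc : Commute (slot a (x a)) (∑ i ∈ S, slot i (x i)) :=
      Commute.sum_right _ _ _ fun i hi => slot_comm (by rintro rfl; exact ha hi) _ _
    have hn : IsNilpotent (slot a (x a)) := (hx a).map _
    rw [Finset.sum_insert ha]
    refine ⟨hc.isNilpotent_add hn ih.1, ?_⟩
    rw [IsNilpotent.exp_add_of_commute hc hn ih.1, ih.2, ← (hx a).map_exp, slot_apply, kr_mul]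
    congr 1
    funext j
    by_cases h : j = a
    · subst h
      simp [ha]
    · simp [h]

theorem exp_transpose {x : Matrix ι ι F} (h : IsNilpotent x) :
    IsNilpotent.exp xᵀ = (IsNilpotent.exp x)ᵀ := by
  obtain ⟨k, hk⟩ := h
  have hk' : xᵀ ^ k = 0 := by rw [← transpose_pow, hk, transpose_zero]
  rw [IsNilpotent.exp_eq_sum hk, IsNilpotent.exp_eq_sum hk', transpose_sum]
  exact Finset.sum_congr rfl fun i _ => by rw [transpose_smul, transpose_pow]

theorem exp_eq {w : ι → ℤ} {N : Matrix ι ι F} (hN : Rais w N) :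
    ∃ T, Rais w T ∧ IsNilpotent.exp N = 1 + N + T * N := by
  have h0 : N ^ (Fintype.card ι + 1 + 1) = 0 := by
    rw [pow_succ, pow_succ, hN.pow_card, zero_mul, zero_mul]
  have h1 : ∀ i : ℕ, Rais w (N ^ (i + 1)) := fun i => by
    induction i with
    | zero => rwa [zero_add, pow_one]
    | succ i ih =>
      rw [pow_succ]
      exact ih.mul_fil (rais_iff.1 hN).1
  refine ⟨∑ i ∈ Finset.range (Fintype.card ι), (((i + 1 + 1).factorial : ℚ)⁻¹) • N ^ (i + 1),
    fun a b hab => ?_, ?_⟩
  · rw [Matrix.sum_apply]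
    exact Finset.sum_eq_zero fun i _ => by
      rw [Matrix.smul_apply, h1 i a b hab, Algebra.smul_def, mul_zero]
  · rw [IsNilpotent.exp_eq_sum h0, Finset.sum_range_succ', Finset.sum_range_succ', Finset.sum_mul]
    simp only [zero_add, Nat.factorial_one, Nat.factorial_zero, Nat.cast_one, inv_one, one_smul,
      pow_one, pow_zero, smul_mul_assoc, ← pow_succ]
    abel

end BExpAux

open BExpAux

variable {κ ι ι' F : Type} [Field F] [Fintype κ] [DecidableEq κ] [Fintype ι] [DecidableEq ι]

theorem drho_add (s : κ → Bool) (x y : Matrix ι ι F) : drho s (x + y) = drho s x + drho s y := by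
  ext I J
  simp only [drho, of_apply, Matrix.add_apply, ← Finset.sum_add_distrib]
  refine Finset.sum_congr rfl fun i _ => ?_
  split_ifs <;> ring
theorem drho_smul (s : κ → Bool) (c : F) (x : Matrix ι ι F) : drho s (c • x) = c • drho s x := by
  ext I J
  simp only [drho, of_apply, Matrix.smul_apply, smul_eq_mul, Finset.mul_sum]
  refine Finset.sum_congr rfl fun i _ => ?_
  split_ifs <;> ring
theorem drho_neg (s : κ → Bool) (x : Matrix ι ι F) : drho s (-x) = -drho s x := by
  rw [← neg_one_smul F x, drho_smul, neg_one_smul]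
theorem drho_zero (s : κ → Bool) : drho s (0 : Matrix ι ι F) = 0 := by
  rw [← zero_smul F (0 : Matrix ι ι F), drho_smul, zero_smul]

theorem drho_conj [Fintype ι'] [DecidableEq ι'] (s : κ → Bool) {g : Matrix ι' ι F}
    {g' : Matrix ι ι' F} (h : g * g' = 1) (h' : g' * g = 1) (ξ : Matrix ι ι F) :
    drho s (g * ξ * g') = rho s g g' * drho s ξ * rho s g' g := by
  rw [drho_eq, drho_eq, Matrix.mul_sum, Matrix.sum_mul, rho_eq, rho_eq]
  refine Finset.sum_congr rfl fun i _ => ?_
  rw [slot_apply, slot_apply, kr_mul, kr_mul]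
  congr 1
  funext j
  by_cases hj : j = i
  · subst hj
    rw [Function.update_self, Function.update_self]
    split_ifs
    · rfl
    · rw [transpose_mul, transpose_mul, Matrix.mul_neg, Matrix.neg_mul, Matrix.mul_assoc]
  · rw [Function.update_of_ne hj, Function.update_of_ne hj, Matrix.mul_one]
    split_ifs
    · exact h.symm
    · rw [← transpose_mul, h, transpose_one]

/-- Additive maps to `ℚ` that are `ℚ`-linear commute with the action on rational tensors. -/
theorem drho_retr [CharZero F] (r : F →+ ℚ) (hr : ∀ (z : F) (q : ℚ), r (z * q) = r z * q)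
    (s : κ → Bool) (ξ : Matrix ι ι F) (x : (κ → ι) → ℚ) :
    (fun I => r ((drho s ξ *ᵥ castV F x) I)) = drho s (ξ.map r) *ᵥ x := by
  funext I
  simp only [mulVec, dotProduct, castV, map_sum]
  refine Finset.sum_congr rfl fun J _ => ?_
  rw [hr]
  congr 1
  simp only [drho, of_apply, map_sum, map_apply]
  refine Finset.sum_congr rfl fun i _ => ?_
  have e : (∏ j, if j = i ∨ I j = J j then (1 : F) else 0) =
      ((∏ j, if j = i ∨ I j = J j then (1 : ℚ) else 0 : ℚ) : F) := by
    rw [Rat.cast_prod]
    refine Finset.prod_congr rfl fun j _ => ?_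
    split_ifs
    · exact Rat.cast_one.symm
    · exact Rat.cast_zero.symm
  rw [e, hr]
  split_ifs
  · rfl
  · rw [map_neg]

variable [Algebra ℚ F]

theorem rho_exp (s : κ → Bool) {ξ : Matrix ι ι F} (h : IsNilpotent ξ) :
    rho s (IsNilpotent.exp ξ) (IsNilpotent.exp (-ξ)) = IsNilpotent.exp (drho s ξ) := by
  have hx : ∀ i, IsNilpotent (if s i = true then ξ else -ξᵀ) := fun i => by
    split_ifs
    · exact h
    · exact (Matrix.isNilpotent_transpose_iff.2 h).neg
  rw [drho_eq, (exp_sum _ hx Finset.univ).2, rho_eq]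
  congr 1
  funext j
  rw [if_pos (Finset.mem_univ j)]
  split_ifs
  · rfl
  · rw [← exp_transpose h.neg, transpose_neg]

theorem exp_vanB {w : ι → ℤ} {N : Matrix ι ι F} (hN : Rais w N) (x : ι → F) (d : ℤ) :
    (VanB w d (N *ᵥ x) ↔ VanB w d (IsNilpotent.exp N *ᵥ x - x)) ∧
      (VanB w d (N *ᵥ x) → VanB w (d + 1) (IsNilpotent.exp N *ᵥ x - x - N *ᵥ x)) := by
  classical
  obtain ⟨T, hT, e⟩ := exp_eq hN
  have e1 : IsNilpotent.exp N *ᵥ x - x = N *ᵥ x + T *ᵥ (N *ᵥ x) := by
    rw [e, add_mulVec, add_mulVec, one_mulVec, mulVec_mulVec]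
    abel
  rw [e1, add_sub_cancel_left]
  refine ⟨⟨fun h i hi => ?_, fun h => ?_⟩, fun h => hT.vanB h⟩
  · rw [Pi.add_apply, h i hi, hT.vanB h i (by omega), add_zero]
  · by_contra hc
    have hne : (Finset.univ.filter fun i => (N *ᵥ x) i ≠ 0).Nonempty := by
      unfold VanB at hc
      push Not at hc
      obtain ⟨i, _, hi⟩ := hc
      exact ⟨i, by simpa using hi⟩
    obtain ⟨i, hi, hm⟩ := Finset.exists_min_image _ w hne
    have h1 : VanB w (w i) (N *ᵥ x) := fun j hj => by
      by_contra hj'
      exact absurd (hm j (by simpa using hj')) (not_le.2 hj)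
    refine hc fun j hj => ?_
    by_cases hij : w j < w i
    · exact h1 j hij
    · have h2 := h i (by omega)
      rw [Pi.add_apply, hT.vanB h1 i (by omega), add_zero] at h2
      exact absurd h2 (Finset.mem_filter.1 hi).2

/-- A raising matrix kills a tensor iff its exponential fixes it. -/
theorem drho_eq_zero_iff (s : κ → Bool) {w : ι → ℤ} {ξ : Matrix ι ι F} (h : Rais w ξ)
    (x : (κ → ι) → F) :
    drho s ξ *ᵥ x = 0 ↔ rho s (IsNilpotent.exp ξ) (IsNilpotent.exp (-ξ)) *ᵥ x = x := by
  rw [rho_exp s ⟨_, h.pow_card⟩, ← sub_eq_zero (b := x)]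
  have h1 := fun d => (exp_vanB (rais_drho s h) x d).1
  refine ⟨fun e => funext fun I => ?_, fun e => funext fun I => ?_⟩
  · exact (h1 (tw s w I + 1)).1 (fun J _ => congrFun e J) I (by omega)
  · exact (h1 (tw s w I + 1)).2 (fun J _ => congrFun e J) I (by omega)

end Pool.Agent.P.MP_257122_al
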