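import Pool.Agent.P.MP_257122_al.BIso
import Pool.Agent.P.MP_257122_al.BSb

/-!
# Adding the spaces of homomorphisms as a direct summand

PLAN.  Write `j = eL n d`, `k = eR n d`: `jᵀ j = 1`, `kᵀ k = 1`, `jᵀ k = 0`, `j jᵀ + k kᵀ = 1`.
BLOCK LEMMA over a field `F` of characteristic zero: if `A A' = 1` fix `toT (j jᵀ)` (`rho_toT`), then
`A` commutes with `j jᵀ`, so with `α = jᵀ A j`, `γ = kᵀ A k` one has `A = j α jᵀ + k γ kᵀ`, `A j = j α`,
`jᵀ A' = α' jᵀ`, `α α' = 1`; the tensors `iota` give `α x c b = ∑ c', γ c' c • x' c' b` and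
`α' x' c b = ∑ c', γ' c' c • x c' b`; the extended tensors give `TIso F us α α'` (`rho_mulVec`, and
`rho s jᵀ j` is a left inverse).  `ext_bte`: `Pi.single false 1 ∈ spA Ls false` is a combination of
the `x c`, so `α` is a complex combination of the `x' c false`; similarly `α'` with
`Pi.single true 1 ∈ spA Ls true`; `j y jᵀ` carries `j Λ` into `j Λ'`, matrices `k y kᵀ` kill `j Λ`; for
`zlat` all integer matrices are homomorphisms.  `ext_cover`: an isomorphism `α` maps `spA false`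
onto `spA true`; `γ c' c = ∑ b, mdot (φ' c' b) (α x c b)` and `γ'` are inverse to each other and
integral away from `m` (`α e_j = m⁻¹ α (m e_j)`), so `j α jᵀ + k γ kᵀ` is an isomorphism of the
extended input.  `ext_exists`: bases of the two spaces, extended coordinate functions, and `m`
a common multiple of all denominators, of the moduli of `Red` for a full pair and of integers
`c` with `c e_j` in both groups.
-/

namespace Pool.Agent.P.MP_257122_al

open Matrix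

namespace BExtAux

/-- A decomposition into two blocks. -/
structure Blk {F : Type} [Field F] {N n d : ℕ} (J : Matrix (Fin N) (Fin n) F)
    (K : Matrix (Fin N) (Fin d) F) : Prop where
  jj : Jᵀ * J = 1
  kk : Kᵀ * K = 1
  jk : Jᵀ * K = 0
  kj : Kᵀ * J = 0
  sum : J * Jᵀ + K * Kᵀ = 1

theorem blk_rat (n d : ℕ) : Blk (eL n d) (eR n d) := by
  have h : (eL n d)ᵀ * eR n d = 0 := by
    ext i j
    rw [mul_apply, Fin.sum_univ_add]
    simp [eL, eR, Fin.val_inj, show ∀ l : Fin n, ¬ l.val = n + j.val from fun l => by omega,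
      show ∀ l : Fin d, ¬ n + l.val = i.val from fun l => by omega]
  refine ⟨?_, ?_, h, ?_, ?_⟩
  · ext i j
    rw [mul_apply, Fin.sum_univ_add]
    simp [eL, Fin.val_inj, one_apply, eq_comm (a := i),
      show ∀ l : Fin d, ¬ n + l.val = i.val from fun l => by omega]
  · ext i j
    rw [mul_apply, Fin.sum_univ_add]
    simp [eR, Fin.val_inj, one_apply, eq_comm (a := i),
      show ∀ l : Fin n, ¬ l.val = n + j.val from fun l => by omega]
  · rw [← transpose_inj, transpose_mul, transpose_transpose, h, transpose_zero]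
  · ext I I'
    have k1 : ∀ (i : Fin n) (l : Fin d), ¬ i.val = n + l.val := fun i l => by omega
    have k2 : ∀ (i : Fin n) (l : Fin d), ¬ n + l.val = i.val := fun i l => by omega
    rw [Matrix.add_apply, mul_apply, mul_apply]
    refine Fin.addCases (fun i => ?_) (fun i => ?_) I <;>
      refine Fin.addCases (fun i' => ?_) (fun i' => ?_) I' <;>
      simp [eL, eR, one_apply, Fin.ext_iff, k1, k2] <;>
      simp [Fin.val_inj]

theorem blk (F : Type) [Field F] [CharZero F] (n d : ℕ) :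
    Blk (castM F (eL n d)) (castM F (eR n d)) := by
  obtain ⟨h1, h2, h3, h4, h5⟩ := blk_rat n d
  refine ⟨?_, ?_, ?_, ?_, ?_⟩ <;> simp only [← castM_transpose, ← castM_mul, ← castM_add]
  · rw [h1, castM_one]
  · rw [h2, castM_one]
  · rw [h3, castM_zero]
  · rw [h4, castM_zero]
  · rw [h5, castM_one]

section blocks
variable {F : Type} [Field F] {N n d : ℕ} {J : Matrix (Fin N) (Fin n) F}
  {K : Matrix (Fin N) (Fin d) F} {A A' : Mat N F}

theorem Blk.symm (h : Blk J K) : Blk K J := ⟨h.kk, h.jj, h.kj, h.jk, by rw [add_comm, h.sum]⟩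

theorem Blk.comm (h : Blk J K) (e : A * (J * Jᵀ) = J * Jᵀ * A) : A * (K * Kᵀ) = K * Kᵀ * A := by
  rw [show K * Kᵀ = 1 - J * Jᵀ from eq_sub_of_add_eq' h.sum, Matrix.mul_sub, Matrix.sub_mul, e,
    Matrix.mul_one, Matrix.one_mul]

theorem Blk.left (h : Blk J K) (e : A * (J * Jᵀ) = J * Jᵀ * A) : A * J = J * (Jᵀ * A * J) := by
  rw [← Matrix.mul_assoc, ← Matrix.mul_assoc, ← e, Matrix.mul_assoc, Matrix.mul_assoc, h.jj,
    Matrix.mul_one]

theorem Blk.right (h : Blk J K) (e : A * (J * Jᵀ) = J * Jᵀ * A) :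
    Jᵀ * A = Jᵀ * A * J * Jᵀ := by
  rw [Matrix.mul_assoc, Matrix.mul_assoc, e, ← Matrix.mul_assoc, ← Matrix.mul_assoc, h.jj,
    Matrix.one_mul]

theorem Blk.inv (h : Blk J K) (e : A' * (J * Jᵀ) = J * Jᵀ * A') (h1 : A * A' = 1) :
    Jᵀ * A * J * (Jᵀ * A' * J) = 1 := by
  rw [Matrix.mul_assoc, ← h.left e, Matrix.mul_assoc, ← Matrix.mul_assoc A, h1, Matrix.one_mul,
    h.jj]

theorem Blk.dec (h : Blk J K) (e : A * (J * Jᵀ) = J * Jᵀ * A) :
    A = J * (Jᵀ * A * J) * Jᵀ + K * (Kᵀ * A * K) * Kᵀ := by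
  rw [← h.left e, ← h.symm.left (h.comm e), Matrix.mul_assoc, Matrix.mul_assoc, ← Matrix.mul_add,
    h.sum, Matrix.mul_one]

theorem comm_of_fix {P : Mat N F} (h1 : A' * A = 1) (e : A * P * A' = P) :
    A * P = P * A ∧ A' * P = P * A' := by
  constructor
  · conv_rhs => rw [← e, Matrix.mul_assoc, h1, Matrix.mul_one]
  · conv_lhs => rw [← e, ← Matrix.mul_assoc, ← Matrix.mul_assoc, h1, Matrix.one_mul]

/-- The block diagonal matrix. -/
def bd (J : Matrix (Fin N) (Fin n) F) (K : Matrix (Fin N) (Fin d) F) (α : Mat n F) (γ : Mat d F) :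
    Mat N F := J * α * Jᵀ + K * γ * Kᵀ

variable {α α' : Mat n F} {γ γ' : Mat d F}

theorem Blk.bd_j (h : Blk J K) : bd J K α γ * J = J * α := by
  rw [bd, Matrix.add_mul, Matrix.mul_assoc, Matrix.mul_assoc (K * γ), h.jj, h.kj, Matrix.mul_one,
    Matrix.mul_zero, add_zero]
theorem Blk.j_bd (h : Blk J K) : Jᵀ * bd J K α γ = α * Jᵀ := by
  rw [bd, Matrix.mul_add]
  simp only [← Matrix.mul_assoc, h.jj, h.jk, Matrix.one_mul, Matrix.zero_mul, add_zero]
theorem bd_symm : bd J K α γ = bd K J γ α := add_comm _ _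
theorem Blk.bd_mul (h : Blk J K) (h1 : α * α' = 1) (h2 : γ * γ' = 1) :
    bd J K α γ * bd J K α' γ' = 1 := by
  conv_lhs => rw [bd, Matrix.add_mul, Matrix.mul_assoc, h.j_bd, Matrix.mul_assoc (K * γ), bd_symm,
    h.symm.j_bd]
  simp only [← Matrix.mul_assoc]
  rw [Matrix.mul_assoc J, Matrix.mul_assoc K, h1, h2, Matrix.mul_one, Matrix.mul_one, h.sum]

theorem Blk.rho_iff {κ : Type} [Fintype κ] [DecidableEq κ] (h : Blk J K) (e : A * J = J * α)
    (e' : Jᵀ * A' = α' * Jᵀ) (s : κ → Bool) (u v : (κ → Fin n) → F) :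
    rho s A A' *ᵥ (rho s J Jᵀ *ᵥ u) = rho s J Jᵀ *ᵥ v ↔ rho s α α' *ᵥ u = v := by
  rw [rho_mulVec, e, e', ← rho_mulVec]
  refine ⟨fun k => ?_, fun k => by rw [k]⟩
  have := congrArg (rho s Jᵀ J *ᵥ ·) k
  simpa only [rho_mulVec s Jᵀ J J Jᵀ, h.jj, rho_one, one_mulVec] using this
end blocks

variable {n d : ℕ}

/-- The matrix of the `j`-th columns. -/
def cols (x : XF n d) (b : Bool) (j : Fin n) : Matrix (Fin n) (Fin d) ℚ :=
  Matrix.of fun i c => x c b i j

theorem cols_iff (F : Type) [Field F] [CharZero F] (x x' : XF n d) (α : Mat n F) (γ : Mat d F) :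
    (∀ b j, α * castM F (cols x b j) = castM F (cols x' b j) * γ) ↔
      ∀ c b, α * castM F (x c b) = ∑ c', γ c' c • castM F (x' c' b) := by
  have e : ∀ b j i c, (castM F (cols x' b j) * γ) i c = (∑ c', γ c' c • castM F (x' c' b)) i j :=
    fun b j i c => by
      rw [mul_apply, Matrix.sum_apply]
      exact Finset.sum_congr rfl fun c' _ => mul_comm _ _
  exact ⟨fun h c b => Matrix.ext fun i j => (congrFun (congrFun (h b j) i) c).trans (e b j i c),
    fun h b j => Matrix.ext fun i c => (congrFun (congrFun (h c b) i) j).trans (e b j i c).symm⟩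

theorem toT_inj {F : Type} {y z : Mat n F} : toT y = toT z ↔ y = z :=
  ⟨fun h => by rw [← ofT_toT y, h, ofT_toT], congrArg _⟩

/-- The tensors of the extended input. -/
def extT (a : BTIn) (d : ℕ) (x x' : XF a.1 d) : List (TPair (a.1 + d)) :=
  (extIn a d 0 x x').2.1

theorem tiso_iff (F : Type) [Field F] [CharZero F] {a : BTIn} {x x' : XF a.1 d}
    {A A' : Mat (a.1 + d) F} {J : Matrix (Fin (a.1 + d)) (Fin a.1) F}
    {K : Matrix (Fin (a.1 + d)) (Fin d) F} (hJ : castM F (eL a.1 d) = J)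
    (hK : castM F (eR a.1 d) = K) :
    TIso F (extT a d x x') A A' ↔ A * A' = 1 ∧ A' * A = 1 ∧
      A * (J * Jᵀ) * A' = J * Jᵀ ∧
      (∀ b j, A * (J * castM F (cols x b j) * Kᵀ) * A' = J * castM F (cols x' b j) * Kᵀ) ∧
      ∀ t ∈ a.2.1, rho t.1.get A A' *ᵥ (rho t.1.get J Jᵀ *ᵥ castV F t.2.1) =
        rho t.1.get J Jᵀ *ᵥ castV F t.2.2 := by
  subst hJ hK
  refine and_congr_right fun _ => and_congr_right fun _ => ?_
  simp only [extT, extIn, List.forall_mem_cons, List.forall_mem_append, List.forall_mem_flatMap,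
    List.forall_mem_map, act_eq_rho, ← toT_castM, rho_toT, toT_inj, iota, castM_mul,
    castM_transpose, ← rho_castV, List.mem_finRange, forall_true_left, List.not_mem_nil,
    false_imp_iff, implies_true, and_true, Bool.forall_bool]
  rfl

/-- The block lemma. -/
theorem block (F : Type) [Field F] [CharZero F] {a : BTIn} {x x' : XF a.1 d}
    {A A' : Mat (a.1 + d) F} {J : Matrix (Fin (a.1 + d)) (Fin a.1) F}
    {K : Matrix (Fin (a.1 + d)) (Fin d) F} (hJ : castM F (eL a.1 d) = J)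
    (hK : castM F (eR a.1 d) = K) (h : TIso F (extT a d x x') A A') :
    (A * (J * Jᵀ) = J * Jᵀ * A ∧ A' * (J * Jᵀ) = J * Jᵀ * A') ∧
      TIso F a.2.1 (Jᵀ * A * J) (Jᵀ * A' * J) ∧
      (∀ c b, Jᵀ * A * J * castM F (x c b) = ∑ c', (Kᵀ * A * K) c' c • castM F (x' c' b)) ∧
      ∀ c b, Jᵀ * A' * J * castM F (x' c b) = ∑ c', (Kᵀ * A' * K) c' c • castM F (x c' b) := by
  obtain ⟨h1, h2, h3, h4, h5⟩ := (tiso_iff F hJ hK).mp h
  have B : Blk J K := hJ ▸ hK ▸ blk F a.1 d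
  obtain ⟨e, e'⟩ := comm_of_fix h2 h3
  have k : ∀ b j, Jᵀ * A * J * castM F (cols x b j) = castM F (cols x' b j) * (Kᵀ * A * K) :=
    fun b j => by
      have := congrArg (fun z => Jᵀ * z * (A * K)) (h4 b j)
      simp only [Matrix.mul_assoc, ← Matrix.mul_assoc A' A, h2, Matrix.one_mul, B.kk,
        Matrix.mul_one, ← Matrix.mul_assoc Jᵀ J, B.jj] at this
      simpa only [Matrix.mul_assoc] using this
  refine ⟨⟨e, e'⟩, ⟨B.inv e' h1, B.inv e h2, fun t ht =>
    (B.rho_iff (B.left e) (B.right e') _ _ _).mp (h5 t ht)⟩, (cols_iff F x x' _ _).mp k,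
    (cols_iff F x' x _ _).mp fun b j => ?_⟩
  rw [← Matrix.mul_one (_ * castM F (cols x' b j)), ← B.symm.inv (B.comm e') h1, Matrix.mul_assoc,
    ← Matrix.mul_assoc (castM F (cols x' b j)), ← k, Matrix.mul_assoc (Jᵀ * A * J),
    ← Matrix.mul_assoc (Jᵀ * A' * J), B.inv e h2, Matrix.one_mul]

theorem unblock {a : BTIn} {x x' : XF a.1 d} {α α' : Mat a.1 ℚ} {γ γ' : Mat d ℚ}
    (h : TIso ℚ a.2.1 α α') (h1 : γ * γ' = 1)
    (h2 : ∀ c b, α * x c b = ∑ c', γ c' c • x' c' b) :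
    TIso ℚ (extT a d x x') (bd (eL a.1 d) (eR a.1 d) α γ)
      (bd (eL a.1 d) (eR a.1 d) α' γ') := by
  have B := blk_rat a.1 d
  have k := (cols_iff ℚ x x' α γ).mpr (by simpa only [castM_rat] using h2)
  refine (tiso_iff ℚ (castM_rat _) (castM_rat _)).mpr ⟨B.bd_mul h.1 h1,
    B.bd_mul h.2.1 (mul_eq_one_comm.mp h1), ?_, fun b j => ?_, fun t ht =>
    (B.rho_iff B.bd_j B.j_bd _ _ _).mpr (h.2.2 t ht)⟩
  · rw [← Matrix.mul_assoc, B.bd_j, Matrix.mul_assoc, B.j_bd, Matrix.mul_assoc,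
      ← Matrix.mul_assoc α, h.1, Matrix.one_mul]
  · rw [← Matrix.mul_assoc, ← Matrix.mul_assoc, B.bd_j, Matrix.mul_assoc, bd_symm, B.symm.j_bd,
      Matrix.mul_assoc _ α, k, ← Matrix.mul_assoc, ← Matrix.mul_assoc, Matrix.mul_assoc _ γ,
      h1, Matrix.mul_one]

theorem isoL_iff {us : List (TPair n)} {Ls : List (LPair n)} {α : GL (Fin n) ℚ} :
    IsoL us Ls α ↔ TIso ℚ us α.val α.inv ∧
      ∀ L ∈ Ls, α.val ∈ HomS L.1 L.2 ∧ α.inv ∈ HomS L.2 L.1 := by
  simp only [IsoL, TIso, castV_rat', lmap_eq_iff, α.val_inv, α.inv_val, true_and]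

/-! Spans -/

theorem cspan_top {S : Set (Mat n ℚ)} (h : ∀ i j, single i j 1 ∈ S) (z : Mat n ℂ) :
    z ∈ CSpan S := by
  rw [matrix_eq_sum_single z]
  refine Submodule.sum_mem _ fun i _ => Submodule.sum_mem _ fun j _ => ?_
  have : single i j (z i j) = z i j • castM ℂ (single i j 1) := by
    ext i' j'
    simp only [castM_apply, Matrix.smul_apply, single_apply]
    split_ifs <;> simp
  rw [this]
  exact Submodule.smul_mem _ _ (Submodule.subset_span ⟨_, h i j, rfl⟩)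

theorem cspan_conj {N : ℕ} {S : Set (Mat n ℚ)} {T : Set (Mat N ℚ)} (p : Matrix (Fin N) (Fin n) ℚ)
    (h : ∀ y ∈ S, p * y * pᵀ ∈ T) {z : Mat n ℂ} (hz : z ∈ CSpan S) :
    castM ℂ p * z * (castM ℂ p)ᵀ ∈ CSpan T := by
  induction hz using Submodule.span_induction with
  | mem _ k =>
    obtain ⟨y, hy, rfl⟩ := k
    exact Submodule.subset_span ⟨_, h y hy, by rw [castM_mul, castM_mul, castM_transpose]⟩
  | zero => rw [Matrix.mul_zero, Matrix.zero_mul]; exact zero_mem _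
  | add y z _ _ hy hz => rw [Matrix.mul_add, Matrix.add_mul]; exact add_mem hy hz
  | smul c y _ hy => rw [Matrix.mul_smul, Matrix.smul_mul]; exact Submodule.smul_mem _ _ hy

theorem cspan_q {S : Set (Mat n ℚ)} {y : Mat n ℚ} (hy : y ∈ Submodule.span ℚ S) :
    castM ℂ y ∈ CSpan S := by
  induction hy using Submodule.span_induction with
  | mem y k => exact Submodule.subset_span ⟨y, k, rfl⟩
  | zero => rw [castM_zero]; exact zero_mem _
  | add y z _ _ hy hz => rw [castM_add]; exact add_mem hy hz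
  | smul c y _ hy => rw [castM_smul]; exact Submodule.smul_mem _ _ hy

theorem mem_cspan {Ls : List (LPair n)} {b b' : Bool} {x x' : XF n d}
    (hx : Submodule.span ℚ (Set.range x) = spA Ls b)
    (hx' : Submodule.span ℚ (Set.range x') = spA Ls b') {α : Mat n ℂ} {γ : Mat d ℂ}
    (h : ∀ c, α * castM ℂ (x c b) = ∑ c', γ c' c • castM ℂ (x' c' b)) {L : LPair n} (hL : L ∈ Ls) :
    α ∈ CSpan (HomS (cond b L.2 L.1) (cond b' L.2 L.1)) := by
  have h1 : (Pi.single b 1 : Bool → Mat n ℚ) ∈ spA Ls b := fun e _ => by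
    by_cases k : e = b
    · subst k
      rw [Pi.single_eq_same]
      exact Submodule.subset_span fun L _ v hv => by rwa [one_mulVec]
    · rw [Pi.single_eq_of_ne k]
      exact zero_mem _
  obtain ⟨q, hq⟩ := (Submodule.mem_span_range_iff_exists_fun ℚ).mp (hx ▸ h1)
  have h2 : ∑ c, (q c : ℂ) • castM ℂ (x c b) = 1 := by
    have := congrArg (castM ℂ) (congrFun hq b)
    rwa [Pi.single_eq_same, castM_one, Finset.sum_apply,
      show ∑ c, (q c • x c) b = cmb ℚ q (fun c => x c b) by simp only [cmb, castM_rat]; rfl,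
      castM_cmb] at this
  rw [← Matrix.mul_one α, ← h2, Matrix.mul_sum]
  refine Submodule.sum_mem _ fun c _ => ?_
  rw [Matrix.mul_smul, h]
  refine Submodule.smul_mem _ _ (Submodule.sum_mem _ fun c' _ => Submodule.smul_mem _ _ (cspan_q ?_))
  have h3 : x' c' ∈ spA Ls b' := hx' ▸ Submodule.subset_span ⟨c', rfl⟩
  exact Submodule.span_mono (s := (homA Ls b b' : Set (Mat n ℚ))) (fun y hy => hy L hL)
    (h3 b trivial)

theorem mul_spA {Ls : List (LPair n)} {b b' : Bool} {α : Mat n ℚ}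
    (h : ∀ L ∈ Ls, α ∈ HomS (cond b L.2 L.1) (cond b' L.2 L.1)) {f : Bool → Mat n ℚ}
    (hf : f ∈ spA Ls b) : (fun e => α * f e) ∈ spA Ls b' := by
  intro e _
  have k : f e ∈ Submodule.span ℚ (homA Ls e b : Set (Mat n ℚ)) := hf e trivial
  change α * f e ∈ qspan (homA Ls e b')
  generalize f e = y at k
  induction k using Submodule.span_induction with
  | mem y k =>
    refine Submodule.subset_span fun L hL v hv => ?_
    rw [← mulVec_mulVec]
    exact h L hL _ (k L hL v hv)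
  | zero => rw [Matrix.mul_zero]; exact zero_mem _
  | add y z _ _ hy hz => rw [Matrix.mul_add]; exact add_mem hy hz
  | smul c y _ hy => rw [Matrix.mul_smul]; exact Submodule.smul_mem _ _ hy

theorem rank_le {Ls : List (LPair n)} {b b' : Bool} {α α' : Mat n ℚ} (e : α' * α = 1)
    (h : ∀ L ∈ Ls, α ∈ HomS (cond b L.2 L.1) (cond b' L.2 L.1)) :
    Module.finrank ℚ (spA Ls b) ≤ Module.finrank ℚ (spA Ls b') :=
  LinearMap.finrank_le_finrank_of_injective (f := ((LinearMap.mulLeft ℚ α).compLeft Bool).restrict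
    (p := spA Ls b) (q := spA Ls b') fun _ hf => mul_spA h hf) fun f g k =>
    Subtype.ext (funext fun i => by
      have : α * f.1 i = α * g.1 i := congrFun (congrArg Subtype.val k) i
      rw [← Matrix.one_mul (f.1 i), ← e, Matrix.mul_assoc, this, ← Matrix.mul_assoc, e,
        Matrix.one_mul])

/-! Integrality -/

variable {m : ℕ}

theorem zm_vec {N : ℕ} {y : Matrix (Fin N) (Fin n) ℚ} (hy : ZM m y) {v : Fin n → ℚ}
    (hv : ∀ i, v i ∈ Zinv m) (i : Fin N) : (y *ᵥ v) i ∈ Zinv m :=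
  Subring.sum_mem _ fun k _ => mul_mem (hy i k) (hv k)

theorem zm_eL : ZM m (eL n d) := fun I i => by
  rw [eL, of_apply]; split_ifs; exacts [one_mem _, zero_mem _]
theorem zm_eR : ZM m (eR n d) := fun I i => by
  rw [eR, of_apply]; split_ifs; exacts [one_mem _, zero_mem _]
theorem zm_bd {α : Mat n ℚ} {γ : Mat d ℚ} (h : ZM m α) (h' : ZM m γ) :
    ZM m (bd (eL n d) (eR n d) α γ) := fun i j =>
  add_mem ((zm_eL.mul h).mul (y := (eL n d)ᵀ) (fun _ _ => zm_eL _ _) i j)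
    ((zm_eR.mul h').mul (y := (eR n d)ᵀ) (fun _ _ => zm_eR _ _) i j)

theorem zm_of_hom (hm : 0 < m) {Λ Λ' : AddSubgroup (Fin n → ℚ)} {α : Mat n ℚ}
    (h : α ∈ HomS Λ Λ') (h1 : ∀ v ∈ Λ', ∀ i, v i ∈ Zinv m)
    (h2 : ∀ j, (m : ℚ) • (Pi.single j 1 : Fin n → ℚ) ∈ Λ) : ZM m α := fun i j => by
  have k := h1 _ (h _ (h2 j)) i
  rw [mulVec_smul, mulVec_single_one] at k
  have k' : (m : ℚ)⁻¹ ∈ Zinv m := fun p _ hp => by rwa [Rat.inv_natCast_den_of_pos hm] at hp
  have := mul_mem k' k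
  rwa [Pi.smul_apply, smul_eq_mul, ← mul_assoc, inv_mul_cancel₀ (by exact_mod_cast hm.ne'),
    one_mul] at this

theorem dual_comb {x φ : XF n d}
    (h : ∀ c c', ∑ b, mdot (φ c b) (x c' b) = if c = c' then 1 else 0) (q : Fin d → ℚ)
    (c : Fin d) : ∑ b, mdot (φ c b) (∑ c', q c' • x c' b) = q c := by
  have e : ∀ b, mdot (φ c b) (∑ c', q c' • x c' b) = ∑ c', q c' * mdot (φ c b) (x c' b) :=
    fun b => by
      simp only [mdot, Matrix.sum_apply, Matrix.smul_apply, smul_eq_mul, Finset.mul_sum]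
      rw [Finset.sum_congr rfl fun i _ => Finset.sum_comm, Finset.sum_comm]
      exact Finset.sum_congr rfl fun c' _ => Finset.sum_congr rfl fun i _ =>
        Finset.sum_congr rfl fun j _ => mul_left_comm _ _ _
  simp only [e]
  rw [Finset.sum_comm]
  simp only [← Finset.mul_sum, h, mul_ite, mul_one, mul_zero, Finset.sum_ite_eq, Finset.mem_univ,
    if_true]

theorem exists_gam {Ls : List (LPair n)} {b b' : Bool} {x x' : XF n d}
    (hx : XBas m (spA Ls b) x) (hx' : XBas m (spA Ls b') x') {α : Mat n ℚ} (hα : ZM m α)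
    (h : ∀ L ∈ Ls, α ∈ HomS (cond b L.2 L.1) (cond b' L.2 L.1)) :
    ∃ γ : Mat d ℚ, ZM m γ ∧ ∀ c e, α * x c e = ∑ c', γ c' c • x' c' e := by
  have k : ∀ c, ∃ q : Fin d → ℚ, ∑ c', q c' • x' c' = fun e => α * x c e := fun c =>
    (Submodule.mem_span_range_iff_exists_fun ℚ).mp
      (hx'.1 ▸ mul_spA h (hx.1 ▸ Submodule.subset_span ⟨c, rfl⟩))
  choose q hq using k
  have k : ∀ c e, α * x c e = ∑ c', q c c' • x' c' e := fun c e =>
    (congrFun (hq c) e).symm.trans (Finset.sum_apply _ _ _)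
  obtain ⟨φ, h1, h2⟩ := hx'.2.2
  refine ⟨Matrix.of fun c' c => q c c', fun c' c => ?_, k⟩
  rw [of_apply, ← dual_comb h2 (q c) c']
  refine Subring.sum_mem _ fun e _ => ?_
  rw [← k]
  exact Subring.sum_mem _ fun i _ => Subring.sum_mem _ fun j _ =>
    mul_mem (h1 c' e i j) (hα.mul (hx.2.1 c e) i j)

theorem gam_inv {W : Submodule ℚ (Bool → Mat n ℚ)} {x x' : XF n d} (hx' : XBas m W x')
    {α α' : Mat n ℚ} {γ γ' : Mat d ℚ} (e : α * α' = 1)
    (h : ∀ c e, α * x c e = ∑ c', γ c' c • x' c' e)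
    (h' : ∀ c e, α' * x' c e = ∑ c', γ' c' c • x c' e) : γ * γ' = 1 := by
  obtain ⟨φ, -, h2⟩ := hx'.2.2
  ext c' c
  rw [one_apply, ← h2, ← dual_comb h2 (fun c' => (γ * γ') c' c) c']
  refine Finset.sum_congr rfl fun b _ => congrArg _ ?_
  rw [← Matrix.one_mul (x' c b), ← e, Matrix.mul_assoc, h', Matrix.mul_sum]
  simp only [Matrix.mul_smul, h, Finset.smul_sum, smul_smul, mul_apply, Finset.sum_smul]
  rw [Finset.sum_comm]
  exact Finset.sum_congr rfl fun _ _ => Finset.sum_congr rfl fun _ _ => by rw [mul_comm]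

theorem hom_iff {A : Mat (n + d) ℚ} {α : Mat n ℚ} (e : A * eL n d = eL n d * α)
    {Λ Λ' : AddSubgroup (Fin n → ℚ)} :
    A ∈ HomS (lmap (eL n d).mulVecLin Λ) (lmap (eL n d).mulVecLin Λ') ↔ α ∈ HomS Λ Λ' := by
  refine ⟨fun h v hv => ?_, fun h w hw => ?_⟩
  · obtain ⟨w, hw, k⟩ := mem_lmap.mp (h _ (mem_lmap.mpr ⟨v, hv, rfl⟩))
    have := congrArg ((eL n d)ᵀ *ᵥ ·) k
    simp only [mulVecLin_apply, mulVec_mulVec, e, ← Matrix.mul_assoc, (blk_rat n d).jj,
      Matrix.one_mul, one_mulVec] at this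
    exact this ▸ hw
  · obtain ⟨v, hv, rfl⟩ := mem_lmap.mp hw
    exact mem_lmap.mpr ⟨_, h v hv, by simp only [mulVecLin_apply, mulVec_mulVec, e]⟩

theorem cspan_ext {Λ Λ' : AddSubgroup (Fin n → ℚ)} {A : Mat (n + d) ℂ}
    (e : A * (castM ℂ (eL n d) * (castM ℂ (eL n d))ᵀ) = castM ℂ (eL n d) * (castM ℂ (eL n d))ᵀ * A)
    (h : (castM ℂ (eL n d))ᵀ * A * castM ℂ (eL n d) ∈ CSpan (HomS Λ Λ')) :
    A ∈ CSpan (HomS (lmap (eL n d).mulVecLin Λ) (lmap (eL n d).mulVecLin Λ')) := by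
  have B := blk_rat n d
  rw [(blk ℂ n d).dec e]
  refine add_mem (cspan_conj _ (fun y hy => (hom_iff ?_).mpr hy) h) (cspan_conj (S := Set.univ) _
    (fun y _ => (hom_iff (α := 0) ?_).mpr fun v _ => ?_) (cspan_top (fun _ _ => Set.mem_univ _) _))
  · rw [Matrix.mul_assoc, B.jj, Matrix.mul_one]
  · rw [Matrix.mul_assoc, B.kj, Matrix.mul_zero, Matrix.mul_zero]
  · rw [zero_mulVec]
    exact zero_mem _

/-- True for all multiples of some positive number. -/
def Ev (P : ℕ → Prop) : Prop := ∃ m, 0 < m ∧ ∀ m', m ∣ m' → P m'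

theorem Ev.and {P Q : ℕ → Prop} (h : Ev P) (h' : Ev Q) : Ev fun m => P m ∧ Q m := by
  obtain ⟨m, h1, h2⟩ := h
  obtain ⟨l, h3, h4⟩ := h'
  exact ⟨m * l, mul_pos h1 h3, fun _ k =>
    ⟨h2 _ ((dvd_mul_right _ _).trans k), h4 _ ((dvd_mul_left _ _).trans k)⟩⟩

theorem Ev.all {ι : Type} [Fintype ι] {P : ι → ℕ → Prop} (h : ∀ i, Ev (P i)) :
    Ev fun m => ∀ i, P i m := by
  choose m h1 h2 using h
  exact ⟨∏ i, m i, Finset.prod_pos fun i _ => h1 i, fun _ k i =>
    h2 i _ ((Finset.dvd_prod_of_mem m (Finset.mem_univ i)).trans k)⟩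

theorem ev_zm (x : XF n d) : Ev fun m => ∀ c b, ZM m (x c b) :=
  Ev.all fun c => Ev.all fun b => Ev.all fun i => Ev.all fun j =>
    ⟨(x c b i j).den, (x c b i j).den_pos, fun _ k _ _ hp => hp.trans k⟩

theorem ev_red {Λ : AddSubgroup (Fin n → ℚ)} (h : Red Λ) :
    Ev fun m => ∀ v ∈ Λ, ∀ i, v i ∈ Zinv m := by
  obtain ⟨m, h1, h2⟩ := h
  exact ⟨m, h1, fun _ k v hv i p hp hd => (h2 v hv i p hp hd).trans k⟩

theorem ev_span {Λ : AddSubgroup (Fin n → ℚ)} {v : Fin n → ℚ} (h : v ∈ qspan Λ) :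
    Ev fun m => (m : ℚ) • v ∈ Λ := by
  induction h using Submodule.span_induction with
  | mem y k =>
    exact ⟨1, one_pos, fun m _ => by simpa only [Nat.cast_smul_eq_nsmul] using nsmul_mem k m⟩
  | zero => exact ⟨1, one_pos, fun m _ => by simp only [smul_zero, zero_mem]⟩
  | add y z _ _ hy hz =>
    obtain ⟨m, h1, h2⟩ := hy.and hz
    exact ⟨m, h1, fun l k => by simpa only [smul_add] using add_mem (h2 l k).1 (h2 l k).2⟩
  | smul c y _ hy =>
    obtain ⟨m, h1, h2⟩ := hy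
    refine ⟨c.den * m, mul_pos c.den_pos h1, ?_⟩
    rintro _ ⟨l, rfl⟩
    have := zsmul_mem (h2 (m * l) (dvd_mul_right _ _)) c.num
    rw [← Int.cast_smul_eq_zsmul ℚ, smul_smul, ← Rat.den_mul_eq_num] at this
    rw [smul_smul]
    exact (congrArg (· • y ∈ Λ) (by push_cast; ring)).mp this

theorem exists_xbas (W : Submodule ℚ (Bool → Mat n ℚ)) (h : Module.finrank ℚ W = d) :
    ∃ x : XF n d, Ev fun m => XBas m W x := by
  let B := Module.finBasisOfFinrankEq ℚ W h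
  choose l hl using fun c => (B.coord c).exists_extend
  have e : ∀ c (y : Bool → Mat n ℚ),
      ∑ b, mdot (Matrix.of fun i j => l c (Pi.single b (single i j 1))) (y b) = l c y := by
    intro c y
    conv_rhs => rw [← Finset.univ_sum_single y, map_sum]
    refine Finset.sum_congr rfl fun b _ => ?_
    conv_rhs => rw [matrix_eq_sum_single (y b), ← LinearMap.coe_single ℚ]
    simp only [mdot, of_apply, map_sum, LinearMap.coe_single]
    refine Finset.sum_congr rfl fun i _ => Finset.sum_congr rfl fun j _ => ?_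
    rw [mul_comm, ← smul_eq_mul, ← map_smul, ← Pi.single_smul, smul_single, smul_eq_mul, mul_one]
  obtain ⟨m, h1, h2⟩ := (ev_zm fun c => (B c).1).and
    (ev_zm fun c b => Matrix.of fun i j => l c (Pi.single b (single i j 1)))
  refine ⟨fun c => (B c).1, m, h1, fun m' k => ⟨?_, (h2 m' k).1, _, (h2 m' k).2, fun c c' => ?_⟩⟩
  · rw [show (Set.range fun c => (B c).1) = W.subtype '' Set.range B from
      Set.range_comp W.subtype B, ← Submodule.map_span, B.span_eq, Submodule.map_subtype_top]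
  · rw [e, show l c (B c').1 = B.coord c (B c') from LinearMap.congr_fun (hl c) (B c'),
      B.coord_apply, B.repr_self, Finsupp.single_apply]
    exact if_congr eq_comm rfl rfl

end BExtAux

open BExtAux

variable {a : BTIn} {d m : ℕ} {x x' : XF a.1 d}

theorem ext_ok (h : BTok a) (he : ExtOk a d m x x') : BTok (extIn a d m x x') := by
  have k : ∀ Λ : AddSubgroup (Fin a.1 → ℚ), Red Λ → Red (lmap (eL a.1 d).mulVecLin Λ) := by
    rintro Λ ⟨l, h1, h2⟩
    refine ⟨l, h1, fun w hw => ?_⟩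
    obtain ⟨v, hv, rfl⟩ := mem_lmap.mp hw
    exact zm_vec zm_eL (h2 v hv)
  have t : qspan (zlat m (a.1 + d)) = ⊤ := by
    rw [eq_top_iff, ← (Pi.basisFun ℚ _).span_eq]
    refine Submodule.span_mono ?_
    rintro _ ⟨j, rfl⟩ i
    rw [Pi.basisFun_apply, Pi.single_apply]
    split_ifs
    exacts [one_mem _, zero_mem _]
  refine ⟨h.1, List.forall_mem_cons.mpr ⟨⟨⟨m, he.1, fun _ => id⟩, m, he.1, fun _ => id⟩,
    List.forall_mem_map.mpr fun L hL => ⟨k _ (h.2.1 L hL).1, k _ (h.2.1 L hL).2⟩⟩,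
    _, List.mem_cons_self, t, t⟩

theorem ext_bte (he : ExtOk a d m x x') : BTE (extIn a d m x x') := by
  intro A A' h
  obtain ⟨⟨e, e'⟩, -, h1, h2⟩ := block ℂ rfl rfl h
  have t : ∀ z, z ∈ CSpan (HomS (zlat m (a.1 + d)) (zlat m (a.1 + d))) :=
    cspan_top fun i j v hv => zm_vec (fun i' j' => by
      rw [single_apply]; split_ifs; exacts [one_mem _, zero_mem _]) hv
  exact List.forall_mem_cons.mpr ⟨⟨t _, t _⟩, List.forall_mem_map.mpr fun L hL =>
    ⟨cspan_ext e (mem_cspan he.2.1.1 he.2.2.1.1 (fun c => h1 c false) hL),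
      cspan_ext e' (mem_cspan he.2.2.1.1 he.2.1.1 (fun c => h2 c true) hL)⟩⟩

theorem ext_cover (he : ExtOk a d m x x') {R : List (GL (Fin (a.1 + d)) ℚ)}
    (h : BTCover (extIn a d m x x') R) :
    CoverL a (R.map fun β => ((eL a.1 d)ᵀ * β.val * eL a.1 d, (eL a.1 d)ᵀ * β.inv * eL a.1 d)) := by
  intro α hα
  have B := blk_rat a.1 d
  obtain ⟨h1, h2⟩ := isoL_iff.mp hα
  obtain ⟨hm, hx, hx', L, hL, l1, l2, l3⟩ := he
  have z := zm_of_hom hm (h2 L hL).1 l2 fun j => (l3 j).1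
  have z' := zm_of_hom hm (h2 L hL).2 l1 fun j => (l3 j).2
  obtain ⟨γ, g1, g2⟩ := exists_gam hx hx' z fun L hL => (h2 L hL).1
  obtain ⟨γ', g3, g4⟩ := exists_gam hx' hx z' fun L hL => (h2 L hL).2
  have h3 := unblock h1 (gam_inv hx' h1.1 g2 g4) g2
  obtain ⟨β : GL (Fin (a.1 + d)) ℚ, hR, hβ, hc⟩ := h ⟨_, _, h3.1, h3.2.1⟩ (isoL_iff.mpr ⟨h3, List.forall_mem_cons.mpr
    ⟨⟨fun _ hv => zm_vec (zm_bd z g1) hv, fun _ hv => zm_vec (zm_bd z' g3) hv⟩,
      List.forall_mem_map.mpr fun L hL =>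
        ⟨(hom_iff B.bd_j).mpr (h2 L hL).1, (hom_iff B.bd_j).mpr (h2 L hL).2⟩⟩⟩)
  obtain ⟨k1, k2⟩ := isoL_iff.mp hβ
  obtain ⟨⟨e, e'⟩, k3, -⟩ := block ℚ (castM_rat _) (castM_rat _) k1
  have k4 := List.forall_mem_map.mp (List.forall_mem_cons.mp k2).2
  refine ⟨⟨_, _, k3.1, k3.2.1⟩, List.mem_map.mpr ⟨β, hR, rfl⟩, isoL_iff.mpr ⟨k3, fun L hL =>
    ⟨(hom_iff (B.left e)).mp (k4 L hL).1, (hom_iff (B.left e')).mp (k4 L hL).2⟩⟩,
    fun L hL v hv => ?_⟩
  obtain ⟨_, hw', k5⟩ := mem_scal.mp (List.forall_mem_map.mp (List.forall_mem_cons.mp hc).2 L hL _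
    (mem_lmap.mpr ⟨v, hv, rfl⟩))
  obtain ⟨w, hw, rfl⟩ := mem_lmap.mp hw'
  refine mem_scal.mpr ⟨w, hw, ?_⟩
  have k6 : (eL a.1 d)ᵀ *ᵥ (a.2.2.2 : ℚ) • eL a.1 d *ᵥ w = (eL a.1 d)ᵀ *ᵥ
      ((β.inv * bd (eL a.1 d) (eR a.1 d) α.val γ) *ᵥ eL a.1 d *ᵥ v - eL a.1 d *ᵥ v) :=
    congrArg ((eL a.1 d)ᵀ *ᵥ ·) k5
  simp only [mulVec_smul, mulVec_sub, mulVec_mulVec, Matrix.mul_assoc, B.bd_j, B.jj,
    one_mulVec] at k6
  rw [k6]
  change _ = ((eL a.1 d)ᵀ * β.inv * eL a.1 d * α.val) *ᵥ v - v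
  simp only [Matrix.mul_assoc]

theorem ext_exists (h : BTok a)
    (hd : Module.finrank ℚ (spA a.2.2.1 false) = Module.finrank ℚ (spA a.2.2.1 true)) :
    ∃ (d m : ℕ) (x x' : XF a.1 d), ExtOk a d m x x' := by
  obtain ⟨x, h1⟩ := exists_xbas _ hd
  obtain ⟨x', h2⟩ := exists_xbas (spA a.2.2.1 true) rfl
  obtain ⟨L, hL, l1, l2⟩ := h.2.2
  obtain ⟨m, hm, k⟩ := h1.and (h2.and ((ev_red (h.2.1 L hL).1).and ((ev_red (h.2.1 L hL).2).and
    (Ev.all fun j => (ev_span (v := Pi.single j 1) (l1.symm ▸ Submodule.mem_top)).and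
      (ev_span (v := Pi.single j 1) (l2.symm ▸ Submodule.mem_top))))))
  obtain ⟨k1, k2, k3⟩ := k m dvd_rfl
  exact ⟨_, m, x, x', hm, k1, k2, L, hL, k3⟩

theorem ext_finrank {α : GL (Fin a.1) ℚ} (h : IsoL a.2.1 a.2.2.1 α) :
    Module.finrank ℚ (spA a.2.2.1 false) = Module.finrank ℚ (spA a.2.2.1 true) :=
  le_antisymm (rank_le α.inv_val fun L hL => ((isoL_iff.mp h).2 L hL).1)
    (rank_le α.val_inv fun L hL => ((isoL_iff.mp h).2 L hL).2)

end Pool.Agent.P.MP_257122_al
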