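import Pool.Agent.P.MP_257122_al.FMat

/-!
# Free groups, homomorphisms, recursively enumerable subgroups

PLAN.  Free groups: `MV.ofMap` to words; `FreeGroup.mul_mk`, `FreeGroup.inv_mk`,
`FreeGroup.lift_mk`; equality is decided by `FreeGroup.reduce` (a `foldr`, computable from
`Disc` and `Haus`), `FreeGroup.reduce.exact`, `FreeGroup.reduce.sound`.
Subgroups: membership in a closure is the existence of a list of elements of the set or their
inverses with the given product (`Subgroup.exists_list_of_mem_closure` style,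
`Subgroup.closure_toSubmonoid`).  Everything else reduces to `closure`; the series use
`CS.seq` or `CS.natRec`.
-/

namespace Pool.Agent.P.MP_257122_al

open scoped commutatorElement
open FOpsAux

variable {A : Type} [Rep A]

section hom
variable {G H K : A → Type} [∀ a, Rep (G a)] [∀ a, Rep (H a)] [∀ a, Rep (K a)]
  [∀ a, MulOneClass (G a)] [∀ a, MulOneClass (H a)] [∀ a, MulOneClass (K a)]
@[aesop safe 58 apply (transparency := reducible) (rule_sets := [Restrict])]
theorem CS.homApp {φ : ∀ a, G a →* H a} {g : ∀ a, G a} (h : CS φ) (hg : CS g) :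
    CS (fun a => φ a (g a)) := CS.app (f := fun a => (φ a : G a → H a)) h hg
@[aesop safe 58 apply (transparency := reducible) (rule_sets := [Restrict])]
theorem CS.homCoe {φ : ∀ a, G a →* H a} (h : CS φ) : CS (fun a => (φ a : G a → H a)) := h
theorem CS.homIntro {φ : ∀ a, G a →* H a} (h : CS (fun p : Σ a, G a => φ p.1 p.2)) : CS φ :=
  CS.lam (f := fun a => (φ a : G a → H a)) h
@[aesop safe 50 apply (transparency := reducible) (rule_sets := [Restrict])]
theorem CS.homComp {φ : ∀ a, H a →* K a} {ψ : ∀ a, G a →* H a} (h : CS φ)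
    (h' : CS ψ) : CS (fun a => (φ a).comp (ψ a)) :=
  CS.homIntro ((CS.homApp (h.comp s1) (CS.homApp (h'.comp s1) s2)).congr fun _ _ => rfl)
@[aesop safe 50 apply (transparency := reducible) (rule_sets := [Restrict])]
theorem CS.homId : CS (fun a => MonoidHom.id (G a)) := CS.homIntro s2
end hom

@[aesop safe 50 apply (transparency := reducible) (rule_sets := [Restrict])]
theorem CS.unitsCoeHom {M : A → Type} [∀ a, Rep (M a)] [∀ a, Monoid (M a)] :
    CS (fun a => Units.coeHom (M a)) := CS.homIntro (CS.unitsVal s2)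

section free
variable {ι κ : A → Type} [∀ a, Rep (ι a)] [∀ a, Rep (κ a)]

namespace FGrpAux

theorem mk {l : ∀ a, List (ι a × Bool)} (h : CS l) : CS (fun a => FreeGroup.mk (l a)) :=
  CS.toMap (fun _ l => FreeGroup.mk l) h

theorem word {w : ∀ a, FreeGroup (ι a)} (h : CS w) :
    MV (fun a (l : List (ι a × Bool)) => FreeGroup.mk l = w a) :=
  MV.ofMap (fun _ l => FreeGroup.mk l) h

theorem red_eq {α : Type} [DecidableEq α] (l : List (α × Bool)) : List.foldr (fun x r =>
    if 0 < r.length ∧ x.1 = (r.getD 0 x).1 ∧ x.2 = !(r.getD 0 x).2 then r.tail else x :: r) [] l =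
    FreeGroup.reduce l := by
  induction l with
  | nil => rfl
  | cons x l ih =>
    rw [List.foldr_cons, ih, FreeGroup.reduce.cons]
    cases FreeGroup.reduce l <;> simp

theorem red [∀ a, DecidableEq (ι a)] (h : Disc ι) (h' : Haus ι) {l : ∀ a, List (ι a × Bool)}
    (hl : CS l) : CS (fun a => FreeGroup.reduce (l a)) := by
  have g : CS (fun p : Σ a, (ι a × Bool) × List (ι a × Bool) => p.2.2.getD 0 p.2.1) :=
    CS.getD s2.snd CS.const s2.fst
  exact (CS.foldr (cur2 (CS.ite
    (CS.and (CS.lt LtF.nat CS.const s2.snd.length) (CS.and (CS.eq (h.comp s1) s2.fst.fst g.fst)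
      (CS.eq Disc.bool s2.fst.snd g.snd.bnot)))
    (CS.notAnd (CS.notLt LeF.nat CS.const s2.snd.length)
      (CS.notAnd (CS.notEq (h'.comp s1) s2.fst.fst g.fst)
        (CS.notEq Haus.bool s2.fst.snd g.snd.bnot)))
    s2.snd.tail (CS.cons s2.fst s2.snd))) CS.nil hl).congr fun a _ => red_eq (l a)

theorem toWord [∀ a, DecidableEq (ι a)] (h : Disc ι) (h' : Haus ι) {w : ∀ a, FreeGroup (ι a)}
    (hw : CS w) : CS (fun a => (w a).toWord) :=
  (word hw).elim ((red (h.comp v1) (h'.comp v1) v2).congr fun p _ => by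
    rw [← p.2, FreeGroup.toWord_mk])

theorem mem_closure {G : Type} [Group G] {s : Set G} {x : G} :
    (∃ l : List G, (∀ y ∈ l, y ∈ s ∨ y⁻¹ ∈ s) ∧ l.prod = x) ↔ x ∈ Subgroup.closure s := by
  constructor
  · rintro ⟨l, h, rfl⟩
    exact Subgroup.list_prod_mem _ fun y hy => (h y hy).elim (fun h => Subgroup.subset_closure h)
      fun h => (inv_mem_iff.1 (Subgroup.subset_closure h))
  · intro h
    rw [← Subgroup.mem_toSubmonoid, Subgroup.closure_toSubmonoid] at h
    exact Submonoid.exists_list_of_mem_closure h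

end FGrpAux

@[aesop safe 50 apply (transparency := reducible) (rule_sets := [Restrict])]
theorem OneF.free : OneF (fun a => FreeGroup (ι a)) := FGrpAux.mk CS.nil
@[aesop safe 50 apply (transparency := reducible) (rule_sets := [Restrict])]
theorem MulF.free : MulF (fun a => FreeGroup (ι a)) :=
  ((FGrpAux.word (s2.fst)).prod (FGrpAux.word (s2.snd))).elim
    ((FGrpAux.mk (CS.append v2.fst v2.snd)).congr fun p _ => by
      rw [← FreeGroup.mul_mk, p.2.1, p.2.2])
@[aesop safe 50 apply (transparency := reducible) (rule_sets := [Restrict])]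
theorem InvF.free : InvF (fun a => FreeGroup (ι a)) :=
  (FGrpAux.word s2).elim ((FGrpAux.mk (CS.reverse (CS.map
    (f := fun _ g => (g.1, !g.2)) (CS.lam (s2.fst.pair s2.snd.bnot)) v2))).congr fun p _ => by
      rw [← p.2, FreeGroup.inv_mk]; rfl)
@[aesop safe 50 apply (transparency := reducible) (rule_sets := [Restrict])]
theorem Enum.free (h : Enum ι) : Enum (fun a => FreeGroup (ι a)) :=
  Enum.ofMap (fun _ l => FreeGroup.mk l) (h.prod Enum.bool).list fun _ => Quot.mk_surjective
@[aesop safe 50 apply (transparency := reducible) (rule_sets := [Restrict])]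
theorem Disc.free (h : Disc ι) (h' : Haus ι) :
    Disc (fun a => FreeGroup (ι a)) := by
  classical
  exact (CS.eq (((h.prod Disc.bool).list).comp s1) (FGrpAux.toWord (h.comp s1) (h'.comp s1) s2.fst)
    (FGrpAux.toWord (h.comp s1) (h'.comp s1) s2.snd)).of_iff fun _ _ => FreeGroup.toWord_inj
@[aesop safe 50 apply (transparency := reducible) (rule_sets := [Restrict])]
theorem Haus.free (h : Disc ι) (h' : Haus ι) :
    Haus (fun a => FreeGroup (ι a)) := by
  classical
  exact (CS.ne (((h'.prod Haus.bool).list).comp s1) (FGrpAux.toWord (h.comp s1) (h'.comp s1) s2.fst)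
    (FGrpAux.toWord (h.comp s1) (h'.comp s1) s2.snd)).of_iff fun _ _ => FreeGroup.toWord_inj.not
@[aesop safe 50 apply (transparency := reducible) (rule_sets := [Restrict])]
theorem CS.freeOf {i : ∀ a, ι a} (h : CS i) :
    CS (fun a => FreeGroup.of (i a)) := FGrpAux.mk (CS.cons (h.pair CS.const) CS.nil)
@[aesop safe 50 apply (transparency := reducible) (rule_sets := [Restrict])]
theorem CS.freeMk {l : ∀ a, List (ι a × Bool)} (h : CS l) :
    CS (fun a => FreeGroup.mk (l a)) := FGrpAux.mk h
theorem MV.freeWord {w : ∀ a, FreeGroup (ι a)} (h : CS w) :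
    MV (fun a (l : List (ι a × Bool)) => FreeGroup.mk l = w a) := FGrpAux.word h
@[aesop safe 50 apply (transparency := reducible) (rule_sets := [Restrict])]
theorem CS.freeLift {G : A → Type} [∀ a, Rep (G a)] [∀ a, Group (G a)]
    {f : ∀ a, ι a → G a} (hm : MulF G) (hi : InvF G) (h1 : OneF G) (h : CS f) :
    CS (fun a => FreeGroup.lift (f a)) := by
  have k : CS (fun p : Σ a, ι a × Bool => f p.1 p.2.1) := CS.app (h.comp s1) s2.fst
  have k' : CS (fun a (x : ι a × Bool) => _root_.cond x.2 (f a x.1) (f a x.1)⁻¹) :=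
    CS.lam (CS.cond s2.snd k (CS.inv (hi.comp s1) k))
  exact CS.homIntro ((FGrpAux.word s2).elim ((CS.listProd (hm.comp (s1.comp v1))
    (h1.comp (s1.comp v1)) (CS.map (k'.comp (s1.comp v1)) v2)).congr fun p _ => by
      rw [← p.2, FreeGroup.lift_mk]))
@[aesop safe 50 apply (transparency := reducible) (rule_sets := [Restrict])]
theorem CS.freeMap {f : ∀ a, ι a → κ a} (h : CS f) :
    CS (fun a => FreeGroup.map (f a)) :=
  CS.homIntro ((FGrpAux.word s2).elim ((FGrpAux.mk
    (CS.map (f := fun p x => (f p.1.1.1 x.1, x.2))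
      (CS.lam ((CS.app (h.comp ((s1.comp v1).comp s1)) s2.fst).pair s2.snd)) v2)).congr
        fun p _ => by rw [← p.2, FreeGroup.map.mk]))
end free

section sub
variable {G H : A → Type} [∀ a, Rep (G a)] [∀ a, Rep (H a)] [∀ a, Group (G a)] [∀ a, Group (H a)]

/-- The family of groups is computable with r.e. equality. -/
structure GrpF (G : A → Type) [∀ a, Rep (G a)] [∀ a, Group (G a)] : Prop where
  enum : Enum G
  disc : Disc G
  one : OneF G
  mul : MulF G
  inv : InvF G

theorem GrpF.comp {B : Type} [Rep B] {g : B → A} (h : GrpF G) (hg : CS g) :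
    GrpF (fun b => G (g b)) :=
  ⟨h.enum.comp hg, h.disc.comp hg, h.one.comp hg, h.mul.comp hg, h.inv.comp hg⟩
@[aesop safe 50 apply (transparency := reducible) (rule_sets := [Restrict])]
theorem GrpF.free {ι : A → Type} [∀ a, Rep (ι a)] (h : Enum ι) (hd : Disc ι)
    (hh : Haus ι) : GrpF (fun a => FreeGroup (ι a)) :=
  ⟨h.free, hd.free hh, OneF.free, MulF.free, InvF.free⟩
@[aesop safe 50 apply (transparency := reducible) (rule_sets := [Restrict])]
theorem GrpF.gl {ι : A → Type} [∀ a, Rep (ι a)] [∀ a, Fintype (ι a)]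
    [∀ a, DecidableEq (ι a)] (h : CFin ι) (hd : Disc ι) : GrpF (fun a => GL (ι a) ℚ) :=
  have h1 := OneF.matrix hd (h.haus hd) ZeroF.rat OneF.rat
  have h2 := MulF.matrix h AddF.rat ZeroF.rat MulF.rat
  have h3 := Disc.matrix h h Disc.rat
  ⟨(Enum.matrix h hd h hd Enum.rat).units h3 h2 h1, h3.units, h1.units, h2.units, InvF.units⟩

variable {S T : ∀ a, Subgroup (G a)}
@[aesop safe 50 apply (transparency := reducible) (rule_sets := [Restrict])]
theorem CS.memSubgroup {g : ∀ a, G a} (h : CS S) (hg : CS g) :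
    CS (fun a => g a ∈ S a) := CS.memSet (S := fun a => (S a : Set (G a))) h hg
theorem CS.subgroupIntro (h : CS (fun p : Σ a, G a => p.2 ∈ S p.1)) : CS S :=
  CS.setIntro (S := fun a => (S a : Set (G a))) h
@[aesop safe 50 apply (transparency := reducible) (rule_sets := [Restrict])]
theorem CS.subgroupCoe (h : CS S) : CS (fun a => (S a : Set (G a))) := h
@[aesop safe 50 apply (transparency := reducible) (rule_sets := [Restrict])]
theorem CS.subgroupTop : CS (fun a => (⊤ : Subgroup (G a))) :=
  CS.subgroupIntro ((CS.const (x := True)).of_iff fun _ _ => by simp)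
@[aesop safe 50 apply (transparency := reducible) (rule_sets := [Restrict])]
theorem CS.subgroupBot (hG : GrpF G) : CS (fun a => (⊥ : Subgroup (G a))) :=
  CS.subgroupIntro ((CS.eq (hG.disc.comp s1) s2 (CS.one (hG.one.comp s1))).of_iff
    fun _ _ => Subgroup.mem_bot.symm)
@[aesop safe 50 apply (transparency := reducible) (rule_sets := [Restrict])]
theorem CS.closure {s : ∀ a, Set (G a)} (hG : GrpF G) (h : CS s) :
    CS (fun a => Subgroup.closure (s a)) :=
  CS.subgroupIntro ((CS.ex (P := fun (p : Σ a, G a) (l : List (G p.1)) =>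
      (∀ y ∈ l, y ∈ s p.1 ∨ y⁻¹ ∈ s p.1) ∧ l.prod = p.2) (hG.enum.list.comp s1)
    (CS.and (CS.allMem (P := fun (p : Σ p : (Σ a, G a), List (G p.1)) (y : G p.1.1) =>
      y ∈ s p.1.1 ∨ y⁻¹ ∈ s p.1.1) s2 (CS.or (CS.memSet (h.comp ((s1.comp s1).comp s1)) s2)
      (CS.memSet (h.comp ((s1.comp s1).comp s1)) (CS.inv (hG.inv.comp ((s1.comp s1).comp s1)) s2))))
      (CS.eq (hG.disc.comp (s1.comp s1))
        (CS.listProd (hG.mul.comp (s1.comp s1)) (hG.one.comp (s1.comp s1)) s2)
        (s2.comp s1)))).of_iff fun _ _ => FGrpAux.mem_closure)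
@[aesop safe 50 apply (transparency := reducible) (rule_sets := [Restrict])]
theorem CS.normalClosure {s : ∀ a, Set (G a)} (hG : GrpF G) (h : CS s) :
    CS (fun a => Subgroup.normalClosure (s a)) :=
  CS.closure hG (CS.setIntro ((CS.ex (P := fun p (q : G p.1 × G p.1) =>
      q.1 ∈ s p.1 ∧ q.2 * q.1 * q.2⁻¹ = p.2) ((hG.enum.prod hG.enum).comp s1)
    (CS.and (CS.memSet (h.comp (s1.comp s1)) s2.fst) (CS.eq (hG.disc.comp (s1.comp s1))
      (CS.mul (hG.mul.comp (s1.comp s1)) (CS.mul (hG.mul.comp (s1.comp s1)) s2.snd s2.fst)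
        (CS.inv (hG.inv.comp (s1.comp s1)) s2.snd)) (s2.comp s1)))).of_iff fun _ _ => by
      simp only [Group.mem_conjugatesOfSet_iff, isConj_iff, Prod.exists, exists_and_left]))
@[aesop safe 50 apply (transparency := reducible) (rule_sets := [Restrict])]
theorem CS.subgroupSup (hG : GrpF G) (h : CS S) (h' : CS T) :
    CS (fun a => S a ⊔ T a) :=
  (CS.closure hG (CS.union h.subgroupCoe h'.subgroupCoe)).congr fun _ _ =>
    (Subgroup.sup_eq_closure _ _).symm
@[aesop safe 50 apply (transparency := reducible) (rule_sets := [Restrict])]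
theorem CS.subgroupInf (h : CS S) (h' : CS T) : CS (fun a => S a ⊓ T a) :=
  CS.subgroupIntro ((CS.and (CS.memSubgroup (h.comp s1) s2)
    (CS.memSubgroup (h'.comp s1) s2)).of_iff fun _ _ => Subgroup.mem_inf.symm)
@[aesop safe 50 apply (transparency := reducible) (rule_sets := [Restrict])]
theorem CS.subgroupComm (hG : GrpF G) (h : CS S) (h' : CS T) :
    CS (fun a => ⁅S a, T a⁆) :=
  CS.closure hG (CS.setIntro ((CS.ex (P := fun p (q : G p.1 × G p.1) =>
      q.1 ∈ S p.1 ∧ q.2 ∈ T p.1 ∧ ⁅q.1, q.2⁆ = p.2) ((hG.enum.prod hG.enum).comp s1)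
    (CS.and (CS.memSubgroup (h.comp (s1.comp s1)) s2.fst)
      (CS.and (CS.memSubgroup (h'.comp (s1.comp s1)) s2.snd) (CS.eq (hG.disc.comp (s1.comp s1))
      (CS.commutator (hG.mul.comp (s1.comp s1)) (hG.inv.comp (s1.comp s1)) s2.fst s2.snd)
        (s2.comp s1))))).of_iff fun _ _ => by
      simp only [Set.mem_ofPred_eq, Prod.exists, exists_and_left]))
@[aesop safe 50 apply (transparency := reducible) (rule_sets := [Restrict])]
theorem CS.subgroupMap {φ : ∀ a, G a →* H a} (hG : Enum G) (hH : Disc H)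
    (hφ : CS φ) (h : CS S) : CS (fun a => (S a).map (φ a)) :=
  CS.subgroupIntro ((CS.ex (P := fun (p : Σ a, H a) (x : G p.1) => x ∈ S p.1 ∧ φ p.1 x = p.2)
    (hG.comp s1) (CS.and (CS.memSubgroup (h.comp (s1.comp s1)) s2) (CS.eq (hH.comp (s1.comp s1))
      (CS.homApp (hφ.comp (s1.comp s1)) s2) (s2.comp s1)))).of_iff fun _ _ => Iff.rfl)
@[aesop safe 50 apply (transparency := reducible) (rule_sets := [Restrict])]
theorem CS.subgroupComap {φ : ∀ a, H a →* G a} (hφ : CS φ) (h : CS S) :
    CS (fun a => (S a).comap (φ a)) :=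
  CS.subgroupIntro ((CS.memSubgroup (h.comp s1) (CS.homApp (hφ.comp s1) s2)).of_iff
    fun _ _ => Iff.rfl)
@[aesop safe 50 apply (transparency := reducible) (rule_sets := [Restrict])]
theorem CS.ker {φ : ∀ a, G a →* H a} (hH : Disc H) (h1 : OneF H) (hφ : CS φ) :
    CS (fun a => (φ a).ker) :=
  CS.subgroupIntro (CS.eq (hH.comp s1) (CS.homApp (hφ.comp s1) s2) (CS.one (h1.comp s1)))
@[aesop safe 50 apply (transparency := reducible) (rule_sets := [Restrict])]
theorem CS.derivedSeries {n : A → ℕ} (hG : GrpF G) (hn : CS n) :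
    CS (fun a => derivedSeries (G a) (n a)) :=
  (CS.natRec (s := fun _ _ K => ⁅K, K⁆) hn CS.subgroupTop
    (cur2 (CS.subgroupComm (hG.comp s1) s2.snd s2.snd))).congr fun a _ => by
      induction n a with
      | zero => rfl
      | succ k ih => exact congrArg (fun K => ⁅K, K⁆) ih
@[aesop safe 50 apply (transparency := reducible) (rule_sets := [Restrict])]
theorem CS.lowerCentralSeries {n : A → ℕ} (hG : GrpF G) (h : CS S)
    (hn : CS n) : CS (fun a => (S a).lowerCentralSeries (n a)) :=
  (CS.natRec (s := fun a _ K => ⁅K, S a⁆) hn h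
    (cur2 (CS.subgroupComm (hG.comp s1) s2.snd (h.comp s1)))).congr fun a _ => by
      induction n a with
      | zero => rfl
      | succ k ih => exact congrArg (fun K => ⁅K, S a⁆) ih
/-- A subgroup generated by a finite list lies in an r.e. subgroup. -/
@[aesop safe 40 apply (transparency := reducible) (rule_sets := [Restrict])]
theorem CS.closureLe {l : ∀ a, List (G a)} (hl : CS l) (h : CS S) :
    CS (fun a => Subgroup.closure {x | x ∈ l a} ≤ S a) :=
  (CS.allMem hl (CS.memSubgroup (h.comp s1) s2)).of_iff fun _ _ =>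
    (Subgroup.closure_le _).symm
end sub

end Pool.Agent.P.MP_257122_al
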