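import Pool.Agent.P.MP_257122_al.FMat

/-!
# Families coded by formal sums
-/

namespace Pool.Agent.P.MP_257122_al

namespace FPolyAux

open FOpsAux

variable {A : Type} [Rep A] {U T : A → Type} [∀ a, Rep (U a)] [∀ a, Rep (T a)]
  [∀ a, AddCommMonoid (T a)]

/-- The codes of `T a` are equivalent to codes of lists of terms. -/
structure FS (t : ∀ a, U a → T a) : Prop where
  mk' : CS (fun p : Σ a, List (U a) => (p.2.map (t p.1)).sum)
  out : MV (fun (p : Σ a, T a) (l : List (U p.1)) => (l.map (t p.1)).sum = p.2)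

variable {t : ∀ a, U a → T a}

theorem gr {V : A → Type} [∀ a, Rep (V a)] {f : ∀ a, V a} (hf : CS f) :
    CS (fun a => (⟨a, f a⟩ : Σ a, V a)) := CS.smk0 CS.id hf

theorem FS.comp {B : Type} [Rep B] {g : B → A} (h : FS t) (hg : CS g) :
    FS (U := fun b => U (g b)) (T := fun b => T (g b)) (fun b => t (g b)) :=
  ⟨h.mk'.comp (g := fun p : Σ b, List (U (g b)) => ⟨g p.1, p.2⟩) (CS.smk0 (hg.comp s1) s2),
    h.out.comp (g := fun p : Σ b, T (g b) => ⟨g p.1, p.2⟩) (CS.smk0 (hg.comp s1) s2)⟩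

theorem FS.sum (h : FS t) {l : ∀ a, List (U a)} (hl : CS l) :
    CS (fun a => ((l a).map (t a)).sum) := h.mk'.comp (gr hl)

theorem FS.get (h : FS t) {f : ∀ a, T a} (hf : CS f) :
    MV (fun a (l : List (U a)) => (l.map (t a)).sum = f a) := h.out.comp (gr hf)

theorem FS.single (h : FS t) {u : ∀ a, U a} (hu : CS u) : CS (fun a => t a (u a)) :=
  (h.sum (CS.cons hu CS.nil)).congr fun _ _ => by simp

theorem FS.zero (h : FS t) : ZeroF T := (h.sum CS.nil).congr fun _ _ => by simp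

theorem FS.add (h : FS t) : AddF T :=
  (((h.comp s1).get s2.fst).prod ((h.comp s1).get s2.snd)).elim
    (((h.comp (s1.comp v1)).sum (CS.append v2.fst v2.snd)).congr fun p _ => by
      rw [List.map_append, List.sum_append, p.2.1, p.2.2])

/-- Additive maps are computed term by term. -/
theorem FS.hom (h : FS t) {V : A → Type} [∀ a, Rep (V a)] [∀ a, AddCommMonoid (V a)]
    (φ : ∀ a, T a →+ V a) (ha : AddF V) (h0 : ZeroF V)
    (hφ : CS (fun p : Σ a, U a => φ p.1 (t p.1 p.2))) {f : ∀ a, T a} (hf : CS f) :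
    CS (fun a => φ a (f a)) :=
  (h.get hf).elim ((lsum (ha.comp v1) (h0.comp v1)
    (CS.map ((CS.lam (f := fun a u => φ a (t a u)) hφ).comp v1) v2)).congr fun p _ => by
      rw [← p.2, map_list_sum, List.map_map]
      rfl)

theorem sum_zero {α β γ κ : Type} [AddCommMonoid β] [AddCommMonoid γ] (t : α → β) (k : α → κ)
    (c : β →+ γ) (x : κ) (h0 : ∀ u, k u ≠ x → c (t u) = 0) (l : List α) (hl : ∀ u ∈ l, k u ≠ x) :
    c (l.map t).sum = 0 := by
  rw [map_list_sum, List.map_map]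
  refine List.sum_eq_zero fun y hy => ?_
  obtain ⟨u, hu, rfl⟩ := List.mem_map.1 hy
  exact h0 u (hl u hu)

/-- Equality is tested on the coefficients that occur. -/
theorem FS.disc (h : FS t) {K V : A → Type} [∀ a, Rep (V a)] [∀ a, AddCommMonoid (V a)]
    (k : ∀ a, U a → K a) (c : ∀ a, K a → T a →+ V a) (ha : AddF V) (h0 : ZeroF V) (hd : Disc V)
    (hext : ∀ a x y, (∀ κ, c a κ x = c a κ y) → x = y)
    (hz : ∀ a κ u, k a u ≠ κ → c a κ (t a u) = 0)
    (hc : CS (fun p : Σ q : (Σ a, U a), U q.1 => c p.1.1 (k p.1.1 p.1.2) (t p.1.1 p.2))) :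
    Disc T := by
  have key : CS (fun p : Σ q : (Σ a, U a), T q.1 => c p.1.1 (k p.1.1 p.1.2) p.2) :=
    (h.comp (s1.comp s1)).hom (fun p : Σ q : (Σ a, U a), T q.1 => c p.1.1 (k p.1.1 p.1.2))
      (ha.comp (s1.comp s1)) (h0.comp (s1.comp s1))
      (hc.comp (g := fun p : Σ p : (Σ q : (Σ a, U a), T q.1), U p.1.1 => ⟨p.1.1, p.2⟩)
        (CS.smk0 (s1.comp s1) s2)) s2
  refine (((h.comp s1).get s2.fst).prod ((h.comp s1).get s2.snd)).elimP
    (P' := fun p l => ∀ u ∈ l.1 ++ l.2, c p.1 (k p.1 u) p.2.1 = c p.1 (k p.1 u) p.2.2)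
    (CS.allMem (CS.append s2.fst s2.snd) (CS.eq (hd.comp (s1.comp (s1.comp s1)))
      (key.comp (g := fun p : Σ p : (Σ p : (Σ a, T a × T a), List (U p.1) × List (U p.1)),
        U p.1.1 => ⟨⟨p.1.1.1, p.2⟩, p.1.1.2.1⟩)
        (CS.smk0 (CS.smk0 (s1.comp (s1.comp s1)) s2) (s2.comp (s1.comp s1)).fst))
      (key.comp (g := fun p : Σ p : (Σ p : (Σ a, T a × T a), List (U p.1) × List (U p.1)),
        U p.1.1 => ⟨⟨p.1.1.1, p.2⟩, p.1.1.2.2⟩)
        (CS.smk0 (CS.smk0 (s1.comp (s1.comp s1)) s2) (s2.comp (s1.comp s1)).snd))))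
    fun p l _ _ hl => ⟨fun H => hext _ _ _ fun κ => ?_, fun H u _ => by rw [H]⟩
  by_cases hκ : ∃ u ∈ l.1 ++ l.2, k p.1 u = κ
  · obtain ⟨u, hu, rfl⟩ := hκ
    exact H u hu
  · rw [← hl.1, ← hl.2, sum_zero _ (k p.1) _ κ (hz _ κ) _ fun u hu e =>
      hκ ⟨u, List.mem_append_left _ hu, e⟩, sum_zero _ (k p.1) _ κ (hz _ κ) _ fun u hu e =>
      hκ ⟨u, List.mem_append_right _ hu, e⟩]

theorem surj {α β : Type} [AddMonoid β] (t : α → β) {x y : β} (hx : ∃ l : List α, (l.map t).sum = x)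
    (hy : ∃ l : List α, (l.map t).sum = y) : ∃ l : List α, (l.map t).sum = x + y := by
  obtain ⟨l, rfl⟩ := hx
  obtain ⟨l', rfl⟩ := hy
  exact ⟨l ++ l', by rw [List.map_append, List.sum_append]⟩

omit [∀ a, Rep (T a)] in
theorem ofMap (t : ∀ a, U a → T a) :
    @FS A _ U T _ (fun a => Rep.ofMap fun l : List (U a) => (l.map (t a)).sum) _ t :=
  letI : ∀ a, Rep (T a) := fun a => Rep.ofMap fun l : List (U a) => (l.map (t a)).sum
  ⟨CS.toMap (U := fun p : Σ a, List (U a) => List (U p.1)) (fun p l => (l.map (t p.1)).sum) s2,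
    MV.ofMap (U := fun p : Σ a, T a => List (U p.1)) (fun p l => (l.map (t p.1)).sum) s2⟩

section ring
variable {S : A → Type} [∀ a, Rep (S a)] [∀ a, Ring (S a)] {s : ∀ a, U a → S a}

theorem FS.neg (h : FS s) (hn : CS (fun p : Σ a, U a => -s p.1 p.2)) : NegF S :=
  (h.comp s1).hom (fun _ => negAddMonoidHom) (h.add.comp s1) (h.zero.comp s1)
    (hn.comp (g := fun p : Σ p : (Σ a, S a), U p.1 => ⟨p.1.1, p.2⟩) (CS.smk0 (s1.comp s1) s2)) s2

theorem FS.mul (h : FS s)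
    (hm : CS (fun p : Σ q : (Σ a, U a), U q.1 => s p.1.1 p.1.2 * s p.1.1 p.2)) : MulF S :=
  (h.comp s1).hom (fun p : Σ a, S a × S a => AddMonoidHom.mulRight p.2.2) (h.add.comp s1)
    (h.zero.comp s1) ((h.comp (s1.comp s1)).hom
      (fun p : Σ p : (Σ a, S a × S a), U p.1 => AddMonoidHom.mulLeft (s p.1.1 p.2))
      (h.add.comp (s1.comp s1)) (h.zero.comp (s1.comp s1))
      (hm.comp (g := fun p : Σ p : (Σ p : (Σ a, S a × S a), U p.1), U p.1.1 =>
        ⟨⟨p.1.1.1, p.1.2⟩, p.2⟩) (CS.smk0 (CS.smk0 (s1.comp (s1.comp s1)) (s2.comp s1)) s2))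
      (s2.comp s1).snd) s2.fst

end ring

end FPolyAux

end Pool.Agent.P.MP_257122_al
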