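import Pool.Agent.P.MP_257122_al.FMat
import Pool.Agent.P.MP_257122_al.FPolyA

/-!
# Polynomials and group algebras

PLAN.  `MV.ofMap` gives a list of monomials, `CS.toMap` builds the result: addition is
`append`, multiplication is `flatMap` of products.  Equality: reduce to `x - y = 0`, and a formal
sum vanishes iff for each exponent occurring in the list the sum of the coefficients with that
exponent vanishes (for several variables compare exponents by `List.count`, which is
computable from `Disc` and `Haus`; or normalise a monomial to the function counting letters).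
-/

namespace Pool.Agent.P.MP_257122_al

open Polynomial

variable {A : Type} [Rep A]

namespace FPolyAux

open FOpsAux

theorem fsP {R : A → Type} [∀ a, Rep (R a)] [∀ a, CommRing (R a)] :
    FS (U := fun a => R a × ℕ) (T := fun a => (R a)[X]) (fun _ p => monomial p.2 p.1) :=
  ofMap _

theorem fsM {σ : A → Type} [∀ a, Rep (σ a)] :
    FS (U := fun a => ℚ × List (σ a)) (T := fun a => MvPolynomial (σ a) ℚ)
      (fun _ p => MvPolynomial.C p.1 * (p.2.map MvPolynomial.X).prod) :=
  ofMap _

theorem fsG {G : A → Type} [∀ a, Rep (G a)] :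
    FS (U := fun a => ℚ × G a) (T := fun a => MonoidAlgebra ℚ (G a))
      (fun _ p => MonoidAlgebra.single p.2 p.1) :=
  ofMap _

theorem surjP {R : Type} [Semiring R] (f : R[X]) :
    ∃ l : List (R × ℕ), (l.map fun p => monomial p.2 p.1).sum = f :=
  f.induction_on' (fun _ _ => surj _) fun n r => ⟨[(r, n)], by simp⟩

theorem surjM {σ : Type} (f : MvPolynomial σ ℚ) : ∃ l : List (ℚ × List σ),
    (l.map fun p => MvPolynomial.C p.1 * (p.2.map MvPolynomial.X).prod).sum = f := by
  induction f using MvPolynomial.induction_on with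
  | C a => exact ⟨[(a, [])], by simp⟩
  | add p q hp hq => exact surj _ hp hq
  | mul_X p n hp =>
    obtain ⟨l, rfl⟩ := hp
    refine ⟨l.map fun p => (p.1, p.2 ++ [n]), ?_⟩
    rw [← List.sum_map_mul_right, List.map_map]
    congr 2
    funext p
    simp [mul_assoc]

theorem surjG {G : Type} (f : MonoidAlgebra ℚ G) :
    ∃ l : List (ℚ × G), (l.map fun p => MonoidAlgebra.single p.2 p.1).sum = f := by
  induction f using MonoidAlgebra.induction_linear with
  | zero => exact ⟨[], rfl⟩
  | add p q hp hq => exact surj _ hp hq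
  | single g r => exact ⟨[(r, g)], by simp⟩

theorem degP {R : Type} [Semiring R] (l : List (R × ℕ)) :
    (l.map fun p => monomial p.2 p.1).sum.natDegree ≤ (l.map Prod.snd).sum := by
  induction l with
  | nil => simp
  | cons p l ih =>
    rw [List.map_cons, List.sum_cons, List.map_cons, List.sum_cons]
    exact (natDegree_add_le _ _).trans (max_le ((natDegree_monomial_le _).trans
      (Nat.le_add_right _ _)) (ih.trans (Nat.le_add_left _ _)))

/-- The exponent vector of a word. -/
noncomputable def ex {σ : Type} (l : List σ) : σ →₀ ℕ := (l.map fun i => Finsupp.single i 1).sum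

theorem monoM {σ : Type} (q : ℚ) (l : List σ) :
    MvPolynomial.C q * (l.map MvPolynomial.X).prod = MvPolynomial.monomial (ex l) q := by
  induction l with
  | nil => simp [ex]
  | cons i l ih =>
    rw [List.map_cons, List.prod_cons, mul_left_comm, ih, MvPolynomial.X, MvPolynomial.monomial_mul,
      one_mul]
    simp [ex]

open Classical in
theorem ex_apply {σ : Type} (l : List σ) (x : σ) :
    ex l x = (l.map fun i => if i = x then 1 else 0).sum := by
  induction l with
  | nil => simp [ex]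
  | cons i l ih =>
    rw [List.map_cons, List.sum_cons, ← ih, ← Finsupp.single_apply]
    simp [ex]

theorem ex_iff {σ : Type} (l l' : List σ) :
    (∀ x ∈ l ++ l', ex l x = ex l' x) ↔ ex l = ex l' := by
  refine ⟨fun h => Finsupp.ext fun x => ?_, fun h x _ => by rw [h]⟩
  by_cases hx : x ∈ l ++ l'
  · exact h x hx
  · have key : ∀ m : List σ, x ∉ m → ex m x = 0 := fun m hm => by
      rw [ex_apply]
      refine List.sum_eq_zero fun y hy => ?_
      obtain ⟨i, hi, rfl⟩ := List.mem_map.1 hy
      exact if_neg fun e : i = x => hm (e ▸ hi)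
    rw [key l fun h1 => hx (List.mem_append_left _ h1),
      key l' fun h1 => hx (List.mem_append_right _ h1)]

section
variable {σ : A → Type} [∀ a, Rep (σ a)]

open Classical in
theorem cs_ex (h : Disc σ) (h' : Haus σ) {l : ∀ a, List (σ a)} {x : ∀ a, σ a} (hl : CS l)
    (hx : CS x) : CS (fun a => ex (l a) (x a)) :=
  (lsum AddF.nat ZeroF.nat (CS.map (f := fun a i => if i = x a then (1 : ℕ) else 0)
    (CS.lam (CS.ite (CS.eq (h.comp s1) s2 (hx.comp s1)) (CS.notEq (h'.comp s1) s2 (hx.comp s1))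
      CS.const CS.const)) hl)).congr fun _ _ => (ex_apply _ _).symm

theorem cs_exEq (h : Disc σ) (h' : Haus σ) {l l' : ∀ a, List (σ a)} (hl : CS l) (hl' : CS l') :
    CS (fun a => ex (l a) = ex (l' a)) :=
  (CS.allMem (CS.append hl hl') (CS.eq Disc.nat (cs_ex (h.comp s1) (h'.comp s1) (hl.comp s1) s2)
    (cs_ex (h.comp s1) (h'.comp s1) (hl'.comp s1) s2))).of_iff fun _ _ => ex_iff _ _

theorem cs_exNe (h : Disc σ) (h' : Haus σ) {l l' : ∀ a, List (σ a)} (hl : CS l) (hl' : CS l') :
    CS (fun a => ¬ ex (l a) = ex (l' a)) :=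
  (CS.notAllMem (P := fun a x => ex (l a) x = ex (l' a) x) (CS.append hl hl')
    (CS.notEq Haus.nat (cs_ex (h.comp s1) (h'.comp s1) (hl.comp s1) s2)
    (cs_ex (h.comp s1) (h'.comp s1) (hl'.comp s1) s2))).of_iff fun _ _ => (ex_iff _ _).not
end

section
variable {R : A → Type} [∀ a, Rep (R a)] [∀ a, CommRing (R a)]

theorem coeff' {f : ∀ a, (R a)[X]} {n : A → ℕ} (ha : AddF R) (h0 : ZeroF R)
    (h : CS f) (hn : CS n) : CS (fun a => (f a).coeff (n a)) :=
  fsP.hom (fun a => (lcoeff (R a) (n a)).toAddMonoidHom) ha h0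
    ((CS.ite (CS.eq Disc.nat s2.snd (hn.comp s1)) (CS.notEq Haus.nat s2.snd (hn.comp s1)) s2.fst
      (h0.comp s1)).congr fun _ _ => coeff_monomial.symm) h

theorem bound {f : ∀ a, (R a)[X]} (h : CS f) : MV (fun a (n : ℕ) => (f a).natDegree ≤ n) :=
  (fsP.get h).bind (MV.of_cs (lsum AddF.nat ZeroF.nat (CS.map (f := fun _ => Prod.snd)
    (CS.lam s2.snd) v2)) fun p _ => p.2 ▸ degP _)

theorem natDeg {f : ∀ a, (R a)[X]} (ha : AddF R) (h0 : ZeroF R) (hd : Disc R) (hh : Haus R)
    (h : CS f) : CS (fun a => (f a).natDegree) := by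
  refine (bound h).elim (MV.to_cs (MV.search (Q' := fun p n => (n = 0 ∨ (f p.1.1).coeff n ≠ 0) ∧
    ∀ m ≤ p.1.2, m ≤ n ∨ (f p.1.1).coeff m = 0) Enum.nat
    (((CS.eq Disc.nat s2 CS.const).or (CS.ne (hh.comp (v1.comp s1))
      (coeff' (ha.comp (v1.comp s1)) (h0.comp (v1.comp s1)) (h.comp (v1.comp s1)) s2)
      (h0.comp (v1.comp s1)))).and (CS.allLe (v2.comp s1) ((CS.le LeF.nat s2 (s2.comp s1)).or
      (CS.eq (hd.comp (v1.comp (s1.comp s1))) (coeff' (ha.comp (v1.comp (s1.comp s1)))
        (h0.comp (v1.comp (s1.comp s1))) (h.comp (v1.comp (s1.comp s1))) s2)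
        (h0.comp (v1.comp (s1.comp s1))))))) (fun p n H => le_antisymm ?_ ?_)
    fun p _ => ⟨(f p.1.1).natDegree, ?_, fun m _ => ?_⟩))
  · rcases H.1 with h1 | h1
    · exact h1.le.trans (Nat.zero_le _)
    · exact le_natDegree_of_ne_zero h1
  · refine natDegree_le_iff_coeff_eq_zero.2 fun m hm => ?_
    by_cases h1 : m ≤ p.1.2
    · exact (H.2 m h1).resolve_left (not_le.2 hm)
    · exact coeff_eq_zero_of_natDegree_lt (lt_of_le_of_lt p.2 (not_le.1 h1))
  · by_cases h1 : f p.1.1 = 0
    · exact Or.inl (by rw [h1, natDegree_zero])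
    · exact Or.inr (leadingCoeff_ne_zero.2 h1)
  · exact (le_or_gt m _).imp_right coeff_eq_zero_of_natDegree_lt

theorem aev {K : Type} [Rep K] [CommRing K] {S : A → Type} [∀ a, Rep (S a)] [∀ a, Ring (S a)]
    [∀ a, Algebra K (S a)] {f : A → K[X]} {x : ∀ a, S a} (ha : AddF S) (h0 : ZeroF S)
    (hm : MulF S) (h1 : OneF S) (hq : CS (fun p : Σ _ : A, K × ℕ => algebraMap K (S p.1) p.2.1))
    (hx : CS x) (h : CS f) : CS (fun a => aeval (x a) (f a)) :=
  (fsP (R := fun _ => K)).hom (fun a => (aeval (x a) : K[X] →ₐ[K] S a).toAddMonoidHom) ha h0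
    ((CS.mul (hm.comp s1) hq (CS.pow (hm.comp s1) (h1.comp s1) (hx.comp s1) s2.snd)).congr
      fun _ _ => (aeval_monomial _).symm) h
end

end FPolyAux

open FOpsAux FPolyAux

section poly
variable {R : A → Type} [∀ a, Rep (R a)] [∀ a, CommRing (R a)]
@[aesop safe 50 apply (transparency := reducible) (rule_sets := [Restrict])]
theorem ZeroF.poly : ZeroF (fun a => (R a)[X]) := fsP.zero
@[aesop safe 50 apply (transparency := reducible) (rule_sets := [Restrict])]
theorem OneF.poly (h : OneF R) : OneF (fun a => (R a)[X]) :=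
  fsP.single (CS.pair h (CS.const (x := 0)))
@[aesop safe 50 apply (transparency := reducible) (rule_sets := [Restrict])]
theorem AddF.poly : AddF (fun a => (R a)[X]) := fsP.add
@[aesop safe 50 apply (transparency := reducible) (rule_sets := [Restrict])]
theorem MulF.poly (h : MulF R) : MulF (fun a => (R a)[X]) :=
  fsP.mul (((fsP.comp (s1.comp s1)).single ((CS.mul (h.comp (s1.comp s1)) (s2.comp s1).fst
    s2.fst).pair (nadd (s2.comp s1).snd s2.snd))).congr
      fun _ _ => (monomial_mul_monomial _ _ _ _).symm)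
@[aesop safe 50 apply (transparency := reducible) (rule_sets := [Restrict])]
theorem NegF.poly (h : NegF R) : NegF (fun a => (R a)[X]) :=
  fsP.neg (((fsP.comp s1).single ((CS.neg (h.comp s1) s2.fst).pair s2.snd)).congr
    fun _ _ => monomial_neg _ _)
@[aesop safe 50 apply (transparency := reducible) (rule_sets := [Restrict])]
theorem Enum.poly (h : Enum R) : Enum (fun a => (R a)[X]) :=
  Enum.ofMap (U := fun a => List (R a × ℕ)) _ (h.prod Enum.nat).list fun _ => surjP
@[aesop safe 50 apply (transparency := reducible) (rule_sets := [Restrict])]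
theorem CS.polyX (h : OneF R) : CS (fun a => (X : (R a)[X])) :=
  fsP.single (CS.pair h (CS.const (x := 1)))
@[aesop safe 50 apply (transparency := reducible) (rule_sets := [Restrict])]
theorem CS.polyC {r : ∀ a, R a} (h : CS r) : CS (fun a => C (r a)) :=
  fsP.single (CS.pair h (CS.const (x := 0)))
@[aesop safe 50 apply (transparency := reducible) (rule_sets := [Restrict])]
theorem CS.monomial {r : ∀ a, R a} {n : A → ℕ} (hn : CS n) (h : CS r) :
    CS (fun a => monomial (n a) (r a)) := fsP.single (CS.pair h hn)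
@[aesop safe 50 apply (transparency := reducible) (rule_sets := [Restrict])]
theorem CS.coeff {f : ∀ a, (R a)[X]} {n : A → ℕ} (ha : AddF R) (h0 : ZeroF R)
    (h : CS f) (hn : CS n) : CS (fun a => (f a).coeff (n a)) := coeff' ha h0 h hn
@[aesop safe 50 apply (transparency := reducible) (rule_sets := [Restrict])]
theorem Disc.poly (ha : AddF R) (h0 : ZeroF R) (h : Disc R) :
    Disc (fun a => (R a)[X]) :=
  fsP.disc (K := fun _ => ℕ) (fun _ => Prod.snd) (fun a n => (lcoeff (R a) n).toAddMonoidHom) ha h0 h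
    (fun _ _ _ H => Polynomial.ext H) (fun _ _ _ H => coeff_monomial_of_ne _ (Ne.symm H))
    (coeff' (ha.comp (s1.comp s1)) (h0.comp (s1.comp s1)) ((fsP.comp (s1.comp s1)).single s2)
      (s2.comp s1).snd)
@[aesop safe 50 apply (transparency := reducible) (rule_sets := [Restrict])]
theorem Haus.poly (ha : AddF R) (h0 : ZeroF R) (h : Haus R) :
    Haus (fun a => (R a)[X]) :=
  (CS.ex (P := fun (p : Σ a, (R a)[X] × (R a)[X]) (n : ℕ) => p.2.1.coeff n ≠ p.2.2.coeff n) Enum.nat
    (CS.ne (h.comp (s1.comp s1))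
      (coeff' (ha.comp (s1.comp s1)) (h0.comp (s1.comp s1)) (s2.comp s1).fst s2)
      (coeff' (ha.comp (s1.comp s1)) (h0.comp (s1.comp s1)) (s2.comp s1).snd s2))).of_iff
    fun _ _ => by rw [Ne, Polynomial.ext_iff, not_forall]
theorem MV.degBound {f : ∀ a, (R a)[X]} (h : CS f) :
    MV (fun a (n : ℕ) => (f a).natDegree ≤ n) := bound h
@[aesop safe 50 apply (transparency := reducible) (rule_sets := [Restrict])]
theorem CS.natDegree {f : A → ℚ[X]} (h : CS f) :
    CS (fun a => (f a).natDegree) :=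
  natDeg (R := fun _ => ℚ) AddF.rat ZeroF.rat Disc.rat Haus.rat h
@[aesop safe 50 apply (transparency := reducible) (rule_sets := [Restrict])]
theorem CS.natDegreeInt {f : A → ℤ[X]} (h : CS f) :
    CS (fun a => (f a).natDegree) :=
  natDeg (R := fun _ => ℤ) AddF.int ZeroF.int Disc.int Haus.int h
@[aesop safe 50 apply (transparency := reducible) (rule_sets := [Restrict])]
theorem CS.aevalRat {S : A → Type} [∀ a, Rep (S a)] [∀ a, Ring (S a)]
    [∀ a, Algebra ℚ (S a)] {f : A → ℚ[X]} {x : ∀ a, S a} (ha : AddF S) (h0 : ZeroF S)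
    (hm : MulF S) (h1 : OneF S) (hq : RatF S) (hx : CS x) (h : CS f) :
    CS (fun a => aeval (x a) (f a)) :=
  aev ha h0 hm h1 (CS.algebraMap (hq.comp s1) s2.fst) hx h
@[aesop safe 50 apply (transparency := reducible) (rule_sets := [Restrict])]
theorem CS.aevalInt {S : A → Type} [∀ a, Rep (S a)] [∀ a, Ring (S a)]
    {f : A → ℤ[X]} {x : ∀ a, S a} (ha : AddF S) (h0 : ZeroF S) (hm : MulF S) (h1 : OneF S)
    (hn : NegF S) (hx : CS x) (h : CS f) : CS (fun a => aeval (x a) (f a)) :=
  aev ha h0 hm h1 ((CS.intCast (ha.comp s1) (h0.comp s1) (h1.comp s1) (hn.comp s1) s2.fst).congr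
    fun _ _ => (eq_intCast _ _).symm) hx h
@[aesop safe 50 apply (transparency := reducible) (rule_sets := [Restrict])]
theorem CS.polyComp {f g : A → ℚ[X]} (h : CS f) (h' : CS g) :
    CS (fun a => (f a).comp (g a)) :=
  (aev (S := fun _ => ℚ[X]) (AddF.poly (R := fun _ => ℚ)) (ZeroF.poly (R := fun _ => ℚ))
    (MulF.poly (R := fun _ => ℚ) MulF.rat) (OneF.poly (R := fun _ => ℚ) OneF.rat)
    (CS.polyC (R := fun _ => ℚ) s2.fst) h' h).congr fun _ _ => comp_eq_aeval.symm
@[aesop safe 50 apply (transparency := reducible) (rule_sets := [Restrict])]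
theorem CS.taylor {f : A → ℚ[X]} {r : A → ℚ} (hr : CS r) (h : CS f) :
    CS (fun a => taylor (r a) (f a)) :=
  CS.polyComp h (CS.add (AddF.poly (R := fun _ => ℚ)) (CS.polyX (R := fun _ => ℚ) OneF.rat)
    (CS.polyC (R := fun _ => ℚ) hr))
instance {R : Type} [CommRing R] [Rep R] [Tot R] : Tot R[X] := ⟨fun f => by
  obtain ⟨l, hl⟩ := surjP f
  obtain ⟨c, hc⟩ := Tot.tot l
  exact ⟨c, l, hc, hl⟩⟩
end poly

section mv
variable {σ : A → Type} [∀ a, Rep (σ a)]
@[aesop safe 50 apply (transparency := reducible) (rule_sets := [Restrict])]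
theorem ZeroF.mv : ZeroF (fun a => MvPolynomial (σ a) ℚ) := fsM.zero
@[aesop safe 50 apply (transparency := reducible) (rule_sets := [Restrict])]
theorem OneF.mv : OneF (fun a => MvPolynomial (σ a) ℚ) :=
  (fsM.single (CS.pair (CS.const (x := 1)) CS.nil)).congr fun _ _ => by simp
@[aesop safe 50 apply (transparency := reducible) (rule_sets := [Restrict])]
theorem AddF.mv : AddF (fun a => MvPolynomial (σ a) ℚ) := fsM.add
@[aesop safe 50 apply (transparency := reducible) (rule_sets := [Restrict])]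
theorem MulF.mv : MulF (fun a => MvPolynomial (σ a) ℚ) :=
  fsM.mul (((fsM.comp (s1.comp s1)).single ((CS.mul MulF.rat (s2.comp s1).fst s2.fst).pair
    (CS.append (s2.comp s1).snd s2.snd))).congr fun _ _ => by
      simp only [List.map_append, List.prod_append, map_mul]
      ring)
@[aesop safe 50 apply (transparency := reducible) (rule_sets := [Restrict])]
theorem NegF.mv : NegF (fun a => MvPolynomial (σ a) ℚ) :=
  fsM.neg (((fsM.comp s1).single ((CS.neg NegF.rat s2.fst).pair s2.snd)).congr
    fun _ _ => by simp)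
@[aesop safe 50 apply (transparency := reducible) (rule_sets := [Restrict])]
theorem RatF.mv : RatF (fun a => MvPolynomial (σ a) ℚ) :=
  ((fsM.comp s1).single (CS.pair s2 CS.nil)).congr fun _ _ => by simp
@[aesop safe 50 apply (transparency := reducible) (rule_sets := [Restrict])]
theorem Enum.mv (h : Enum σ) : Enum (fun a => MvPolynomial (σ a) ℚ) :=
  Enum.ofMap (U := fun a => List (ℚ × List (σ a))) _ (Enum.rat.prod h.list).list fun _ => surjM
@[aesop safe 50 apply (transparency := reducible) (rule_sets := [Restrict])]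
theorem CS.mvX {i : ∀ a, σ a} (h : CS i) :
    CS (fun a => (MvPolynomial.X (i a) : MvPolynomial (σ a) ℚ)) :=
  (fsM.single (CS.pair (CS.const (x := 1)) (CS.cons h CS.nil))).congr fun _ _ => by simp
@[aesop safe 50 apply (transparency := reducible) (rule_sets := [Restrict])]
theorem Disc.mv (h : Disc σ) (h' : Haus σ) :
    Disc (fun a => MvPolynomial (σ a) ℚ) := by
  classical
  refine fsM.disc (K := fun a => σ a →₀ ℕ) (V := fun _ => ℚ) (fun _ p => ex p.2)
    (fun _ m => MvPolynomial.coeffAddMonoidHom m) AddF.rat ZeroF.rat Disc.rat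
    (fun _ _ _ H => MvPolynomial.ext _ _ H) (fun _ _ _ H => ?_)
    ((CS.ite (cs_exEq (h.comp (s1.comp s1)) (h'.comp (s1.comp s1)) s2.snd (s2.comp s1).snd)
      (cs_exNe (h.comp (s1.comp s1)) (h'.comp (s1.comp s1)) s2.snd (s2.comp s1).snd) s2.fst
      (CS.const (x := 0))).congr fun _ _ => ?_)
  · rw [monoM]
    exact (MvPolynomial.coeff_monomial _ _ _).trans (if_neg H)
  · rw [monoM]
    exact (MvPolynomial.coeff_monomial _ _ _).symm
end mv

section ga
variable {G : A → Type} [∀ a, Rep (G a)] [∀ a, Group (G a)]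
@[aesop safe 50 apply (transparency := reducible) (rule_sets := [Restrict])]
theorem ZeroF.ga : ZeroF (fun a => MonoidAlgebra ℚ (G a)) := fsG.zero
@[aesop safe 50 apply (transparency := reducible) (rule_sets := [Restrict])]
theorem OneF.ga (h : OneF G) : OneF (fun a => MonoidAlgebra ℚ (G a)) :=
  fsG.single (CS.pair (CS.const (x := 1)) h)
@[aesop safe 50 apply (transparency := reducible) (rule_sets := [Restrict])]
theorem AddF.ga : AddF (fun a => MonoidAlgebra ℚ (G a)) := fsG.add
@[aesop safe 50 apply (transparency := reducible) (rule_sets := [Restrict])]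
theorem MulF.ga (h : MulF G) : MulF (fun a => MonoidAlgebra ℚ (G a)) :=
  fsG.mul (((fsG.comp (s1.comp s1)).single ((CS.mul MulF.rat (s2.comp s1).fst s2.fst).pair
    (CS.mul (h.comp (s1.comp s1)) (s2.comp s1).snd s2.snd))).congr
      fun _ _ => (MonoidAlgebra.single_mul_single _ _ _ _).symm)
@[aesop safe 50 apply (transparency := reducible) (rule_sets := [Restrict])]
theorem NegF.ga : NegF (fun a => MonoidAlgebra ℚ (G a)) :=
  fsG.neg (((fsG.comp s1).single ((CS.neg NegF.rat s2.fst).pair s2.snd)).congr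
    fun _ _ => MonoidAlgebra.single_neg _ _)
@[aesop safe 50 apply (transparency := reducible) (rule_sets := [Restrict])]
theorem SMulF.ga : SMulF (fun _ => ℚ) (fun a => MonoidAlgebra ℚ (G a)) :=
  (fsG.comp s1).hom (fun p : Σ a, ℚ × MonoidAlgebra ℚ (G a) => DistribSMul.toAddMonoidHom _ p.2.1)
    (fsG.add.comp s1) (fsG.zero.comp s1) (((fsG.comp (s1.comp s1)).single
      ((CS.mul MulF.rat (s2.comp s1).fst s2.fst).pair s2.snd)).congr
        fun _ _ => (MonoidAlgebra.smul_single' _ _ _).symm) s2.snd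
@[aesop safe 50 apply (transparency := reducible) (rule_sets := [Restrict])]
theorem Enum.ga (h : Enum G) : Enum (fun a => MonoidAlgebra ℚ (G a)) :=
  Enum.ofMap (U := fun a => List (ℚ × G a)) _ (Enum.rat.prod h).list fun _ => surjG
@[aesop safe 50 apply (transparency := reducible) (rule_sets := [Restrict])]
theorem Disc.ga (h : Disc G) (h' : Haus G) :
    Disc (fun a => MonoidAlgebra ℚ (G a)) := by
  classical
  exact fsG.disc (K := G) (V := fun _ => ℚ) (fun _ => Prod.snd)
    (fun a g => (Finsupp.applyAddHom g).comp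
      (MonoidAlgebra.coeffAddEquiv (R := ℚ) (M := G a)).toAddMonoidHom)
    AddF.rat ZeroF.rat Disc.rat (fun _ _ _ H => MonoidAlgebra.ext (Finsupp.ext H))
    (fun _ _ _ H => Finsupp.single_eq_of_ne (Ne.symm H))
    ((CS.ite (CS.eq (h.comp (s1.comp s1)) s2.snd (s2.comp s1).snd)
      (CS.notEq (h'.comp (s1.comp s1)) s2.snd (s2.comp s1).snd) s2.fst
      (CS.const (x := 0))).congr fun _ _ => Finsupp.single_apply.symm)
@[aesop safe 50 apply (transparency := reducible) (rule_sets := [Restrict])]
theorem CS.gaSingle {g : ∀ a, G a} {q : A → ℚ} (h : CS g) (hq : CS q) :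
    CS (fun a => MonoidAlgebra.single (g a) (q a)) := fsG.single (CS.pair hq h)
@[aesop safe 50 apply (transparency := reducible) (rule_sets := [Restrict])]
theorem CS.gaLift {S : A → Type} [∀ a, Rep (S a)] [∀ a, Ring (S a)]
    [∀ a, Algebra ℚ (S a)] {φ : ∀ a, G a →* S a} {x : ∀ a, MonoidAlgebra ℚ (G a)} (ha : AddF S)
    (h0 : ZeroF S) (hs : SMulF (fun _ => ℚ) S) (hφ : CS φ) (hx : CS x) :
    CS (fun a => MonoidAlgebra.lift ℚ (S a) (G a) (φ a) (x a)) :=
  fsG.hom (fun a => (MonoidAlgebra.lift ℚ (S a) (G a) (φ a)).toAddMonoidHom) ha h0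
    ((CS.smul (hs.comp s1) s2.fst (CS.app (((cs_pull_iff _).1 hφ).comp s1) s2.snd)).congr
      fun _ _ => (MonoidAlgebra.lift_single _ _ _).symm) hx
end ga

end Pool.Agent.P.MP_257122_al
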