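import Pool.Agent.P.MP_257122_al.LDefs
import Pool.Agent.P.MP_257122_al.FPoly

/-!
# Universal statements about complex points are r.e.

PLAN.  The family properties of `Cx` are those of `MvPolynomial`.  `CS.ns`: the realisers do not
see the point `x`, so from a code of `a` one obtains two lists of codes of polynomials that work
for every `x` (a code determines its polynomial by `Disc.unique` applied to `Disc.mv`).  The
implication holds for all `x` iff every polynomial `g` of the second list has a power in the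
ideal generated by the first list (`MvPolynomial.vanishingIdeal_zeroLocus_eq_radical` with
`k = ℚ`, `K = ℂ`; the variable type is finite by `CFin`), i.e. `g ^ N = ∑ h_i f_i` for some list
of `h_i`, which is r.e.  It is convenient to introduce the auxiliary family
`fun a => List (MvPolynomial (σ a) ℚ)` and first show
`MV (fun a l => ∀ x, P a x ↔ ∀ f ∈ l, aeval x f = 0)`.
-/

namespace Pool.Agent.P.MP_257122_al

variable {A : Type} [Rep A] {σ : A → Type} [∀ a, Rep (σ a)] {x : ∀ a, Gen (σ a)}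

open FOpsAux

namespace LNSAux

theorem mk {P : ∀ a, MvPolynomial (σ a) ℚ} (h : CS P) : CS (T := fun a => Cx (x a))
    (fun a => MvPolynomial.aeval (R := ℚ) (S₁ := ℂ) (fun i => x a i) (P a)) :=
  FCoreAux.same h fun _ a _ _ hd => ⟨P a, hd, rfl⟩

theorem el {f : ∀ a, Cx (x a)} (h : CS f) : MV (fun a (P : MvPolynomial (σ a) ℚ) =>
    (MvPolynomial.aeval (R := ℚ) (S₁ := ℂ) (fun i => x a i) P : Cx (x a)) = f a) :=
  FCoreAux.same (U := fun a => Sel (MvPolynomial (σ a) ℚ)) h fun _ _ _ _ ⟨P, h1, h2⟩ => ⟨P, h2, h1⟩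

theorem zmk {P : A → Prop} {l : ∀ a, List (Cx (x a))} (h : CS l)
    (e : ∀ a, Coded a → (P a ↔ ∀ z ∈ l a, z = 0)) : ZS x P :=
  FCoreAux.same (U := fun a => ZC (x a)) h fun c a _ hc hd => ⟨l a, hd, e a ⟨c, hc⟩⟩

theorem zel {P : A → Prop} (h : ZS x P) :
    MV (fun a (l : List (Cx (x a))) => P a ↔ ∀ z ∈ l, z = 0) :=
  FCoreAux.same (T := fun a => ZC (x a)) (U := fun a => Sel (List (Cx (x a)))) h
    fun _ _ _ _ ⟨l, h1, h2⟩ => ⟨l, h2, h1⟩

theorem fa2 {α β : Type} {p : α → Prop} {q : β → Prop} {l : List α} {L : List (List β)}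
    (h : List.Forall₂ (fun i M => p i ↔ ∀ z ∈ M, q z) l L) :
    (∀ i ∈ l, p i) ↔ ∀ z ∈ L.flatMap fun M => M, q z := by
  induction h with
  | nil => simp
  | cons h1 _ ih => rw [List.forall_mem_cons, List.flatMap_cons, List.forall_mem_append, h1, ih]

theorem zmem {T : A → Type} [∀ a, Rep (T a)] {P : ∀ a, T a → Prop} {l : ∀ a, List (T a)}
    (hl : CS l) (h : ZS (fun p : Σ a, T a => x p.1) (fun p => P p.1 p.2)) :
    ZS x (fun a => ∀ i ∈ l a, P a i) :=
  MV.elim (U := fun a => ZC (x a)) (MV.list (U := fun a => List (Cx (x a)))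
    (Q := fun a i M => P a i ↔ ∀ z ∈ M, z = 0) hl ((zel h).comp (CS.val CS.id)))
    (zmk (CS.flatMap (f := fun _ M => M) (CS.lam s2) v2) fun p _ => fa2 p.2)

theorem zall {T : A → Type} [∀ a, Rep (T a)] {P : ∀ a, T a → Prop} (hE : CFin T)
    (h : ZS (fun p : Σ a, T a => x p.1) (fun p => P p.1 p.2)) : ZS x (fun a => ∀ i, P a i) :=
  have k := zmem (A := {p : Σ a, List (T a) // p.2.Nodup ∧ ∀ i, i ∈ p.2}) (x := fun p => x p.1.1)
    (P := fun p i => P p.1.1 i) v2
    (CS.comp (T := fun p : Σ a, T a => ZC (x p.1)) h (CS.smk0 (v1.comp s1) s2))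
  MV.elim (U := fun a => ZC (x a)) hE (CS.congr k
    fun p _ => propext ⟨fun k i => k i (p.2.2 i), fun k i _ => k i⟩)

theorem lift {α : Type} [Rep α] {y : Gen α} {c : List ℕ} {l : List (Cx y)}
    (h : List.Forall₂ Rep.R c l) : ∃ L : List (MvPolynomial α ℚ), List.Forall₂ Rep.R c L ∧
      ((∀ z ∈ l, z = 0) ↔ ∀ f ∈ L, MvPolynomial.aeval (R := ℚ) (S₁ := ℂ) (fun i => y i) f = 0) := by
  induction h with
  | nil => exact ⟨[], List.Forall₂.nil, by simp⟩
  | cons h1 _ ih =>
    obtain ⟨P, p1, p2⟩ := h1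
    obtain ⟨L, l1, l2⟩ := ih
    refine ⟨P :: L, List.Forall₂.cons p1 l1, ?_⟩
    rw [List.forall_mem_cons, List.forall_mem_cons, l2, p2]
    rfl

theorem unif {P : ∀ a, Gen (σ a) → Prop} (hm : Disc fun a => MvPolynomial (σ a) ℚ)
    (hP : ZS (fun p : Σ a, Gen (σ a) => p.2) (fun p => P p.1 p.2)) :
    MV (fun a (l : List (MvPolynomial (σ a) ℚ)) => ∀ y, P a y ↔
      ∀ f ∈ l, MvPolynomial.aeval (R := ℚ) (S₁ := ℂ) (fun i => y i) f = 0) := by
  obtain ⟨F, hF, hf⟩ := hP
  refine ⟨fun c => F (Nat.pair c 0),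
    hF.comp (FCoreAux.c_pair.comp Computable.id (Computable.const 0)), fun c a hc => ?_⟩
  have key : ∀ y : Gen (σ a), ∃ d ∈ F (Nat.pair c 0), ∃ L : List (MvPolynomial (σ a) ℚ),
      Rep.R d L ∧ (P a y ↔
        ∀ f ∈ L, MvPolynomial.aeval (R := ℚ) (S₁ := ℂ) (fun i => y i) f = 0) := fun y => by
    obtain ⟨d, h1, l, h2, h3⟩ := hf _ ⟨a, y⟩ (FCoreAux.r_sigma hc trivial)
    obtain ⟨L, h4, h5⟩ := lift h2
    exact ⟨d, h1, L, h4, h3.trans h5⟩
  obtain ⟨d, h1, L, h2, -⟩ := key fun _ => 0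
  refine ⟨d, h1, L, fun y => ?_, h2⟩
  obtain ⟨d', h3, L', h4, h5⟩ := key y
  rw [Part.mem_unique h3 h1] at h4
  rwa [hm.list.unique ⟨c, hc⟩ h2 h4]

theorem span_iff {R : Type} [CommRing R] (l : List R) (y : R) :
    y ∈ Ideal.span {f | f ∈ l} ↔ ∃ h : List R, y = (List.zipWith (· * ·) h l).sum := by
  induction l generalizing y with
  | nil => simp
  | cons f l ih =>
    have e : {g | g ∈ f :: l} = insert f {g | g ∈ l} := by
      ext g
      simp
    rw [e, Ideal.mem_span_insert]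
    constructor
    · rintro ⟨a, z, hz, rfl⟩
      obtain ⟨h, rfl⟩ := (ih z).1 hz
      exact ⟨a :: h, by simp⟩
    · rintro ⟨_ | ⟨a, h⟩, rfl⟩
      · exact ⟨0, 0, zero_mem _, by simp⟩
      · exact ⟨a, _, (ih _).2 ⟨h, rfl⟩, by simp⟩

theorem null {α : Type} [Finite α] (l₁ l₂ : List (MvPolynomial α ℚ)) :
    (∀ g ∈ l₂, ∃ (N : ℕ) (h : List (MvPolynomial α ℚ)),
      g ^ N = (List.zipWith (· * ·) h l₁).sum) ↔ ∀ y : α → ℂ,
      (∀ f ∈ l₁, MvPolynomial.aeval (R := ℚ) y f = 0) →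
        ∀ f ∈ l₂, MvPolynomial.aeval (R := ℚ) y f = 0 := by
  have key : ∀ g : MvPolynomial α ℚ, (∃ (N : ℕ) (h : List (MvPolynomial α ℚ)),
      g ^ N = (List.zipWith (· * ·) h l₁).sum) ↔ ∀ y : α → ℂ,
      (∀ f ∈ l₁, MvPolynomial.aeval (R := ℚ) y f = 0) → MvPolynomial.aeval (R := ℚ) y g = 0 := by
    intro g
    simp only [← span_iff]
    rw [← Ideal.mem_radical_iff, ← MvPolynomial.vanishingIdeal_zeroLocus_eq_radical (K := ℂ),
      MvPolynomial.mem_vanishingIdeal_iff, MvPolynomial.zeroLocus_span]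
    rfl
  simp only [key]
  exact ⟨fun h y k f hf => h f hf y k, fun h f hf y k => h y k f hf⟩

end LNSAux

open LNSAux

@[aesop safe 50 apply (transparency := reducible) (rule_sets := [Restrict])]
theorem ZeroF.cx : ZeroF (fun a => Cx (x a)) := (mk ZeroF.mv).congr fun _ _ => map_zero _
@[aesop safe 50 apply (transparency := reducible) (rule_sets := [Restrict])]
theorem OneF.cx : OneF (fun a => Cx (x a)) := (mk OneF.mv).congr fun _ _ => map_one _
@[aesop safe 50 apply (transparency := reducible) (rule_sets := [Restrict])]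
theorem AddF.cx : AddF (fun a => Cx (x a)) :=
  ((el s2.fst).prod (el s2.snd)).elim ((mk (CS.add AddF.mv v2.fst v2.snd)).congr fun p _ => by
    rw [← p.2.1, ← p.2.2]; exact map_add _ _ _)
@[aesop safe 50 apply (transparency := reducible) (rule_sets := [Restrict])]
theorem MulF.cx : MulF (fun a => Cx (x a)) :=
  ((el s2.fst).prod (el s2.snd)).elim ((mk (CS.mul MulF.mv v2.fst v2.snd)).congr fun p _ => by
    rw [← p.2.1, ← p.2.2]; exact map_mul _ _ _)
@[aesop safe 50 apply (transparency := reducible) (rule_sets := [Restrict])]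
theorem NegF.cx : NegF (fun a => Cx (x a)) :=
  (el s2).elim ((mk (CS.neg NegF.mv v2)).congr fun p _ => by
    rw [← p.2]; exact map_neg (MvPolynomial.aeval (R := ℚ) (S₁ := ℂ) _) _)
@[aesop safe 50 apply (transparency := reducible) (rule_sets := [Restrict])]
theorem RatF.cx : RatF (fun a => Cx (x a)) :=
  (mk (x := fun p : Σ _ : A, ℚ => x p.1) RatF.mv).congr fun p _ =>
    (eq_ratCast ((MvPolynomial.aeval (R := ℚ) (S₁ := ℂ) fun i => x p.1 i).toRingHom.comp
      (algebraMap ℚ _)) p.2).trans (eq_ratCast (algebraMap ℚ (Cx (x p.1))) p.2).symm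
@[aesop safe 50 apply (transparency := reducible) (rule_sets := [Restrict])]
theorem CS.co {i : ∀ a, σ a} (h : CS i) : CS (fun a => Cx.co (x a) (i a)) :=
  (mk (CS.mvX h)).congr fun a _ => MvPolynomial.aeval_X (R := ℚ) (S₁ := ℂ) (fun j => x a j) (i a)

theorem ZS.comp {B : Type} [Rep B] {P : A → Prop} (h : ZS x P) {g : B → A} (hg : CS g) :
    ZS (fun b => x (g b)) (fun b => P (g b)) := CS.comp (T := fun a => ZC (x a)) h hg
theorem ZS.of_iff {P Q : A → Prop} (h : ZS x P) (e : ∀ a, P a ↔ Q a) : ZS x Q :=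
  CS.congr (T := fun a => ZC (x a)) h fun a _ => propext (e a)
@[aesop safe 50 apply (transparency := reducible) (rule_sets := [Restrict])]
theorem ZS.true : ZS x (fun _ => True) := zmk CS.nil fun _ _ => by simp
@[aesop safe 50 apply (transparency := reducible) (rule_sets := [Restrict])]
theorem ZS.false : ZS x (fun _ => False) := zmk (CS.cons OneF.cx CS.nil) fun _ _ => by simp
@[aesop safe 50 apply (transparency := reducible) (rule_sets := [Restrict])]
theorem ZS.eq {f g : ∀ a, Cx (x a)} (hf : CS f) (hg : CS g) : ZS x (fun a => f a = g a) :=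
  zmk (CS.cons (CS.sub AddF.cx NegF.cx hf hg) CS.nil) fun _ _ => by simp [sub_eq_zero]
@[aesop safe 50 apply (transparency := reducible) (rule_sets := [Restrict])]
theorem ZS.funEq {ι : A → Type} [∀ a, Rep (ι a)] {f g : ∀ a, ι a → Cx (x a)} (h : CFin ι)
    (hf : CS f) (hg : CS g) : ZS x (fun a => f a = g a) :=
  CS.congr (T := fun a => ZC (x a)) (zall (P := fun a i => f a i = g a i) h
    (ZS.eq (CS.app (hf.comp s1) s2) (CS.app (hg.comp s1) s2))) fun _ _ => propext funext_iff.symm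
@[aesop safe 50 apply (transparency := reducible) (rule_sets := [Restrict])]
theorem ZS.matEq {m n : A → Type} [∀ a, Rep (m a)] [∀ a, Rep (n a)]
    {f g : ∀ a, Matrix (m a) (n a) (Cx (x a))} (h : CFin m) (h' : CFin n) (hf : CS f)
    (hg : CS g) : ZS x (fun a => f a = g a) :=
  CS.congr (T := fun a => ZC (x a)) (zall (P := fun a (i : m a × n a) => f a i.1 i.2 = g a i.1 i.2)
    (h.prod h') (ZS.eq (CS.mapp (hf.comp s1) s2.fst s2.snd) (CS.mapp (hg.comp s1) s2.fst s2.snd)))
    fun _ _ => propext (Prod.forall.trans Matrix.ext_iff)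
@[aesop safe 50 apply (transparency := reducible) (rule_sets := [Restrict])]
theorem ZS.and {P Q : A → Prop} (h : ZS x P) (h' : ZS x Q) : ZS x (fun a => P a ∧ Q a) :=
  MV.elim (U := fun a => ZC (x a)) ((zel h).prod (zel h'))
    (zmk (CS.append v2.fst v2.snd) fun p _ => by rw [List.forall_mem_append, p.2.1, p.2.2])
@[aesop safe 52 apply (transparency := reducible) (rule_sets := [Restrict])]
theorem ZS.all {T : A → Type} [∀ a, Rep (T a)] {P : ∀ a, T a → Prop} (hE : CFin T)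
    (h : ZS (fun p : Σ a, T a => x p.1) (fun p => P p.1 p.2)) : ZS x (fun a => ∀ i, P a i) :=
  zall hE h
@[aesop safe 40 apply (transparency := reducible) (rule_sets := [Restrict])]
theorem ZS.allMem {T : A → Type} [∀ a, Rep (T a)] {P : ∀ a, T a → Prop} {l : ∀ a, List (T a)}
    (hl : CS l) (h : ZS (fun p : Σ a, T a => x p.1) (fun p => P p.1 p.2)) :
    ZS x (fun a => ∀ i ∈ l a, P a i) := zmem hl h

/-- The Nullstellensatz rule. -/
theorem CS.ns {P Q : ∀ a, Gen (σ a) → Prop} (h : CFin σ) (hd : Disc σ)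
    (hP : ZS (fun p : Σ a, Gen (σ a) => p.2) (fun p => P p.1 p.2))
    (hQ : ZS (fun p : Σ a, Gen (σ a) => p.2) (fun p => Q p.1 p.2)) :
    CS (fun a => ∀ x : Gen (σ a), P a x → Q a x) := by
  have hh := h.haus hd
  have hm := Disc.mv hd hh
  refine ((unif hm hP).prod (unif hm hQ)).elimP (P' := fun a l => ∀ g ∈ l.2,
    ∃ q : ℕ × List (MvPolynomial (σ a) ℚ), g ^ q.1 = (List.zipWith (· * ·) q.2 l.1).sum)
    (CS.allMem s2.snd (CS.ex (Enum.nat.prod (Enum.mv (h.enum.comp (s1.comp s1))).list)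
      (CS.eq (hm.comp ((s1.comp s1).comp s1)) (CS.pow MulF.mv OneF.mv (s2.comp s1) s2.fst)
        (CS.listSum AddF.mv ZeroF.mv
          (CS.zipWith (cur2 MulF.mv) s2.snd (s2.comp (s1.comp s1)).fst))))) ?_
  rintro a ⟨l₁, l₂⟩ ha - ⟨h1, h2⟩
  obtain ⟨L, -, -, hL⟩ := MV.exists h ha
  have : Finite (σ a) := Set.finite_univ_iff.1 (L.finite_toSet.subset fun i _ => hL i)
  simp only [h1, h2, Prod.exists]
  exact null l₁ l₂

end Pool.Agent.P.MP_257122_al
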