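import Pool.Agent.P.MP_257122_al.BRho
import Pool.Agent.P.MP_257122_al.LOps
import Pool.Agent.P.MP_257122_al.LNS
import Pool.Agent.P.MP_257122_al.FGrp

/-!
# Rules of the calculus for the definitions of the arithmetic core
-/

set_option synthInstance.maxSize 2048
set_option backward.isDefEq.respectTransparency.types true

namespace Pool.Agent.P.MP_257122_al.BReAux

open Matrix FOpsAux

section generic
variable {A : Type} [Rep A] {κ ι ι' R : A → Type} [∀ a, Rep (κ a)] [∀ a, Rep (ι a)]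
  [∀ a, Rep (ι' a)] [∀ a, Rep (R a)]

theorem c_rho [∀ a, Fintype (κ a)] [∀ a, CommRing (R a)] {s : ∀ a, κ a → Bool}
    {g : ∀ a, Matrix (ι' a) (ι a) (R a)} {g' : ∀ a, Matrix (ι a) (ι' a) (R a)} (hκ : CFin κ)
    (h1 : OneF R) (hm : MulF R) (hs : CS s) (hg : CS g) (hg' : CS g') :
    CS (fun a => rho (s a) (g a) (g' a)) := by
  refine CS.mlam ?_
  have b : CS (fun q : Σ p : (Σ a, (κ a → ι' a) × (κ a → ι a)), κ p.1 => q.1.1) := s1.comp s1
  have hI : CS (fun q : Σ p : (Σ a, (κ a → ι' a) × (κ a → ι a)), κ p.1 => q.1.2.1 q.2) :=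
    CS.app (s2.comp s1).fst s2
  have hJ : CS (fun q : Σ p : (Σ a, (κ a → ι' a) × (κ a → ι a)), κ p.1 => q.1.2.2 q.2) :=
    CS.app (s2.comp s1).snd s2
  have hb := CS.app (hs.comp b) s2
  exact CS.prod (hκ.comp s1) (hm.comp s1) (h1.comp s1)
    (CS.ite (CS.eq Disc.bool hb CS.const) (CS.notEq Haus.bool hb CS.const)
      (CS.mapp (hg.comp b) hI hJ) (CS.mapp (hg'.comp b) hJ hI))

theorem c_du {s : ∀ a, κ a → Bool} (hs : CS s) : CS (fun a => du (s a)) :=
  CS.lam (CS.bnot (CS.app (hs.comp s1) s2))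

theorem c_get {σ : A → List Bool} (hσ : CS σ) : CS (fun a => (σ a).get) :=
  CS.lam (CS.get (hσ.comp s1) s2)

theorem c_grm [∀ a, Zero (R a)] {w' : ∀ a, ι' a → ℤ} {w : ∀ a, ι a → ℤ}
    {x : ∀ a, Matrix (ι' a) (ι a) (R a)} (h0 : ZeroF R) (hw' : CS w') (hw : CS w) (hx : CS x) :
    CS (fun a => grm (w' a) (w a) (x a)) :=
  have h1 := CS.app (hw'.comp (s1 (β := fun a => ι' a × ι a))) s2.fst
  have h2 := CS.app (hw.comp (s1 (β := fun a => ι' a × ι a))) s2.snd
  CS.mlam (CS.ite (CS.eq Disc.int h1 h2) (CS.notEq Haus.int h1 h2)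
    (CS.mapp (hx.comp s1) s2.fst s2.snd) (CS.zero (h0.comp s1)))

theorem c_castM [∀ a, DivisionRing (R a)] [∀ a, CharZero (R a)] {x : ∀ a, Matrix (ι' a) (ι a) ℚ}
    (h : RatF R) (hx : CS x) : CS (fun a => castM (R a) (x a)) :=
  CS.mlam (CS.ratCast (h.comp s1) (CS.mapp (hx.comp s1) s2.fst s2.snd))

theorem c_castV [∀ a, DivisionRing (R a)] [∀ a, CharZero (R a)] {x : ∀ a, ι a → ℚ}
    (h : RatF R) (hx : CS x) : CS (fun a => castV (R a) (x a)) :=
  CS.lam (CS.ratCast (h.comp s1) (CS.app (hx.comp s1) s2))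

theorem c_mdot [∀ a, Fintype (ι a)] [∀ a, Fintype (ι' a)] [∀ a, CommRing (R a)]
    {c x : ∀ a, Matrix (ι' a) (ι a) (R a)} (h : CFin ι) (h' : CFin ι') (ha : AddF R) (h0 : ZeroF R)
    (hm : MulF R) (hc : CS c) (hx : CS x) : CS (fun a => mdot (c a) (x a)) :=
  have b : CS (fun q : Σ p : (Σ a, ι' a), ι p.1 => q.1.1) := s1.comp s1
  CS.sum h' ha h0 (CS.sum (h.comp s1) (ha.comp s1) (h0.comp s1)
    (CS.mul (hm.comp b) (CS.mapp (hc.comp b) (s2.comp s1) s2) (CS.mapp (hx.comp b) (s2.comp s1) s2)))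

theorem c_toT {n : A → ℕ} {x : ∀ a, Mat (n a) (R a)} (hx : CS x) : CS (fun a => toT (x a)) :=
  have h : ∀ k : Fin tE.length, CS (fun p : Σ a, (Fin tE.length → Fin (n a)) => p.2 k) :=
    fun _ => CS.app s2 CS.const
  have k := CS.mapp (hx.comp s1) (h ⟨0, by decide⟩) (h ⟨1, by decide⟩)
  CS.lam k

theorem c_ofT {n : A → ℕ} {y : ∀ a, Tn (n a) tE (R a)} (hy : CS y) : CS (fun a => ofT (y a)) :=
  have h : CS (fun (p : Σ a, Fin (n a) × Fin (n a)) (k : Fin tE.length) =>
      if k.val = 0 then p.2.1 else p.2.2) :=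
    CS.lam (CS.ite (CS.eq Disc.nat (CS.finVal s2) CS.const)
      (CS.notEq Haus.nat (CS.finVal s2) CS.const) (s2.comp s1).fst (s2.comp s1).snd)
  have k := CS.app (hy.comp s1) h
  CS.mlam k

theorem c_cmb {n r : A → ℕ} [∀ a, Field (R a)] [∀ a, CharZero (R a)] {c : ∀ a, Fin (r a) → R a}
    {Y : ∀ a, Fin (r a) → Mat (n a) ℚ} (hr : CS r) (ha : AddF R) (h0 : ZeroF R) (hm : MulF R)
    (h : RatF R) (hc : CS c) (hY : CS Y) : CS (fun a => cmb (R a) (c a) (Y a)) :=
  CS.sum (CFin.fin hr) (AddF.matrix ha) (ZeroF.matrix h0)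
    (CS.smul (SMulF.matrix (SMulF.self (hm.comp s1))) (CS.app (hc.comp s1) s2)
      (c_castM (h.comp s1) (CS.app (hY.comp s1) s2)))

theorem c_intV {M : A → ℕ} {x : ∀ a, ι a → ℚ} (h : CFin ι) (hM : CS M) (hx : CS x) :
    CS (fun a => IntV (M a) (x a)) :=
  CS.all h (CS.ex Enum.int (CS.eq Disc.rat (CS.mul MulF.rat
    (CS.natCast AddF.rat ZeroF.rat OneF.rat (hM.comp (s1.comp s1)))
    (CS.app (hx.comp (s1.comp s1)) (s2.comp s1)))
    (CS.intCast AddF.rat ZeroF.rat OneF.rat NegF.rat s2)))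

theorem c_bdM {B : A → ℕ} {x : ∀ a, Matrix (ι' a) (ι a) ℝ} (h : CFin ι) (h' : CFin ι') (hB : CS B)
    (hx : CS x) : CS (fun a => BdM (B a) (x a)) :=
  CS.all h' (CS.all (h.comp s1) (CS.le LeF.real
    (CS.realAbs (CS.mapp (hx.comp (s1.comp s1)) (s2.comp s1) s2))
    (CS.natCast AddF.real ZeroF.real OneF.real (hB.comp (s1.comp s1)))))

theorem c_zm {m : A → ℕ} {x : ∀ a, Matrix (ι' a) (ι a) ℚ} (h : CFin ι) (h' : CFin ι') (hm : CS m)
    (hx : CS x) : CS (fun a => ZM (m a) (x a)) :=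
  CS.all h' (CS.all (h.comp s1) (CS.memZinv (hm.comp (s1.comp s1))
    (CS.mapp (hx.comp (s1.comp s1)) (s2.comp s1) s2)))

theorem c_rais {w : ∀ a, ι a → ℤ} {x : ∀ a, Matrix (ι a) (ι a) ℚ} (h : CFin ι) (hw : CS w)
    (hx : CS x) : CS (fun a => Rais (w a) (x a)) :=
  CS.all h (CS.all (h.comp s1) (CS.imp
    (CS.notLe LtF.int (CS.app (hw.comp (s1.comp s1)) (s2.comp s1)) (CS.app (hw.comp (s1.comp s1)) s2))
    (CS.eq Disc.rat (CS.mapp (hx.comp (s1.comp s1)) (s2.comp s1) s2) CS.const)))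

theorem c_drho {n : A → ℕ} {σ : A → List Bool} {ξ : ∀ a, Mat (n a) ℚ} (hσ : CS σ) (hξ : CS ξ) :
    CS (fun a => drho (σ a).get (ξ a)) := by
  refine CS.mlam ?_
  have b : CS (fun q : Σ p : (Σ a, (Fin (σ a).length → Fin (n a)) × (Fin (σ a).length → Fin (n a))),
      Fin (σ p.1).length => q.1.1) := s1.comp s1
  have hI : CS (fun q : Σ p : (Σ a, (Fin (σ a).length → Fin (n a)) × (Fin (σ a).length → Fin (n a))),
      Fin (σ p.1).length => q.1.2) := s2.comp s1
  have hb := CS.get (hσ.comp b) s2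
  have e1 := CS.app (hI.comp (s1 (β := fun q => Fin (σ q.1.1).length))).fst s2
  have e2 := CS.app (hI.comp (s1 (β := fun q => Fin (σ q.1.1).length))).snd s2
  exact CS.sum (CFin.fin (CS.length (hσ.comp s1))) AddF.rat ZeroF.rat (CS.mul MulF.rat
    (CS.ite (CS.eq Disc.bool hb CS.const) (CS.notEq Haus.bool hb CS.const)
      (CS.mapp (hξ.comp b) (CS.app hI.fst s2) (CS.app hI.snd s2))
      (CS.neg NegF.rat (CS.mapp (hξ.comp b) (CS.app hI.snd s2) (CS.app hI.fst s2))))
    (CS.prod (CFin.fin (CS.length (hσ.comp b))) MulF.rat OneF.rat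
      (CS.ite (CS.or (CS.eq Disc.fin s2 (s2.comp s1)) (CS.eq Disc.fin e1 e2))
        (CS.notOr (CS.notEq Haus.fin s2 (s2.comp s1)) (CS.notEq Haus.fin e1 e2))
        CS.const CS.const)))

theorem c_sumV [∀ a, AddCommMonoid (R a)] [∀ a, Fintype (κ a)] {s : ∀ a, κ a → ι a → R a}
    (hκ : CFin κ) (ha : AddF R) (h0 : ZeroF R) (hs : CS (fun p : Σ a, κ a => s p.1 p.2)) :
    CS (fun a => ∑ j, s a j) := CS.sum hκ (AddF.pi ha) (ZeroF.pi h0) hs

theorem c_sumM [∀ a, AddCommMonoid (R a)] {l : ∀ a, List (Matrix (ι' a) (ι a) (R a))}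
    (ha : AddF R) (h0 : ZeroF R) (hl : CS l) : CS (fun a => (l a).sum) :=
  CS.listSum (AddF.matrix ha) (ZeroF.matrix h0) hl

end generic

attribute [local aesop safe 30 apply (transparency := reducible) (rule_sets := [Restrict])]
  c_rho c_du c_get c_grm c_castM c_castV c_mdot c_toT c_ofT c_cmb c_intV c_bdM c_zm c_rais c_drho
  c_sumV c_sumM

section packets
variable {A : Type} [Rep A] {n : A → ℕ}

theorem c_dual {q : ∀ a, OPk (n a)} (hn : CS n) (hq : CS q) : CS (fun a => DualPk (q a)) := by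
  have key : CS (fun u : Σ n : ℕ, OPk n => DualPk u.2) := by
    unfold DualPk
    aesop (config := { terminal := true, enableSimp := false, maxRuleApplications := 3000, maxRuleApplicationDepth := 70, assumptionTransparency := .reducible }) (rule_sets := [-default, -builtin, Restrict])
  exact key.comp (CS.smk0 hn hq)

theorem c_lpk {M : A → ℕ} {b b' : ∀ a, Mat (n a) ℚ} {q : ∀ a, OPk (n a)} (hn : CS n) (hM : CS M)
    (hb : CS b) (hb' : CS b') (hq : CS q) : CS (fun a => LPk (M a) (b a) (b' a) (q a)) := by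
  have key : CS (fun u : Σ n : ℕ, ℕ × Mat n ℚ × Mat n ℚ × OPk n =>
      LPk u.2.1 u.2.2.1 u.2.2.2.1 u.2.2.2.2) := by
    unfold LPk
    aesop (config := { terminal := true, enableSimp := false, maxRuleApplications := 3000, maxRuleApplicationDepth := 70, assumptionTransparency := .reducible }) (rule_sets := [-default, -builtin, Restrict])
  exact key.comp (CS.smk0 hn (hM.pair (hb.pair (hb'.pair hq))))

theorem c_bpk {M : A → ℕ} {b b' : ∀ a, Mat (n a) ℚ} {q : ∀ a, OPk (n a)} (hn : CS n) (hM : CS M)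
    (hb : CS b) (hb' : CS b') (hq : CS q) : CS (fun a => BPk (M a) (b a) (b' a) (q a)) := by
  have key : CS (fun u : Σ n : ℕ, ℕ × Mat n ℚ × Mat n ℚ × OPk n =>
      BPk u.2.1 u.2.2.1 u.2.2.2.1 u.2.2.2.2) := by
    unfold BPk
    aesop (config := { terminal := true, enableSimp := false, maxRuleApplications := 3000, maxRuleApplicationDepth := 70, assumptionTransparency := .reducible }) (rule_sets := [-default, -builtin, Restrict])
  exact key.comp (CS.smk0 hn (hM.pair (hb.pair (hb'.pair hq))))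

theorem c_fr1 {g g' : ∀ a, Mat (n a) ℝ} {q : ∀ a, OPk (n a)} {j : ∀ a, Fin (q a).2.1} (hn : CS n)
    (hg : CS g) (hg' : CS g') (hq : CS q) (hj : CS j) :
    CS (fun a => fr1 (g a) (g' a) (q a) (j a)) := by
  have key : CS (fun u : Σ n : ℕ, Mat n ℝ × Mat n ℝ × Σ q : OPk n, Fin q.2.1 =>
      fr1 u.2.1 u.2.2.1 u.2.2.2.1 u.2.2.2.2) := by
    unfold fr1
    aesop (config := { terminal := true, enableSimp := false, maxRuleApplications := 3000, maxRuleApplicationDepth := 70, assumptionTransparency := .reducible }) (rule_sets := [-default, -builtin, Restrict])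
  exact key.comp (CS.smk0 hn (hg.pair (hg'.pair (CS.smk q j hq hj))))

theorem c_fr2 {g g' : ∀ a, Mat (n a) ℝ} {q : ∀ a, OPk (n a)} {j : ∀ a, Fin (q a).2.1} (hn : CS n)
    (hg : CS g) (hg' : CS g') (hq : CS q) (hj : CS j) :
    CS (fun a => fr2 (g a) (g' a) (q a) (j a)) := by
  have key : CS (fun u : Σ n : ℕ, Mat n ℝ × Mat n ℝ × Σ q : OPk n, Fin q.2.1 =>
      fr2 u.2.1 u.2.2.1 u.2.2.2.1 u.2.2.2.2) := by
    unfold fr2
    aesop (config := { terminal := true, enableSimp := false, maxRuleApplications := 3000, maxRuleApplicationDepth := 70, assumptionTransparency := .reducible }) (rule_sets := [-default, -builtin, Restrict])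
  exact key.comp (CS.smk0 hn (hg.pair (hg'.pair (CS.smk q j hq hj))))

attribute [local aesop safe 30 apply (transparency := reducible) (rule_sets := [Restrict])]
  c_fr1 c_fr2

theorem c_thEq {g g' : ∀ a, Mat (n a) ℝ} {q : ∀ a, OPk (n a)} (hn : CS n)
    (hg : CS g) (hg' : CS g') (hq : CS q) : CS (fun a => ThEq (g a) (g' a) (q a)) := by
  have key : CS (fun u : Σ n : ℕ, Mat n ℝ × Mat n ℝ × OPk n => ThEq u.2.1 u.2.2.1 u.2.2.2) := by
    unfold ThEq
    aesop (config := { terminal := true, enableSimp := false, maxRuleApplications := 3000, maxRuleApplicationDepth := 70, assumptionTransparency := .reducible }) (rule_sets := [-default, -builtin, Restrict])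
  exact key.comp (CS.smk0 hn (hg.pair (hg'.pair hq)))

attribute [local aesop safe 30 apply (transparency := reducible) (rule_sets := [Restrict])] c_thEq

theorem c_fpk {M : A → ℕ} {g g' : ∀ a, Mat (n a) ℝ} {q : ∀ a, OPk (n a)} (hn : CS n) (hM : CS M)
    (hg : CS g) (hg' : CS g') (hq : CS q) : CS (fun a => FPk (M a) (g a) (g' a) (q a)) := by
  have key : CS (fun u : Σ n : ℕ, ℕ × Mat n ℝ × Mat n ℝ × OPk n =>
      FPk u.2.1 u.2.2.1 u.2.2.2.1 u.2.2.2.2) := by
    unfold FPk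
    aesop (config := { terminal := true, enableSimp := false, maxRuleApplications := 3000, maxRuleApplicationDepth := 70, assumptionTransparency := .reducible }) (rule_sets := [-default, -builtin, Restrict])
  exact key.comp (CS.smk0 hn (hM.pair (hg.pair (hg'.pair hq))))

theorem sn {α : A → Type} {β : ∀ a, α a → Type} [∀ a, Rep (α a)] [∀ a x, Rep (β a x)]
    {g : ∀ a, Σ x, β a x} (h : CS g) : CS (fun a => (g a).2) := h.ssnd

theorem c_pkC {s N : A → ℕ} {g : ∀ a, Frames (n a)} {σ : A → List Bool} {q : ∀ a, Pk (n a) (σ a)}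
    (hn : CS n) (hs : CS s) (hN : CS N) (hg : CS g) (hσ : CS σ) (hq : CS q) :
    CS (fun a => PkC (s a) (N a) (g a) (σ a) (q a)) := by
  have h1 : CS (fun a => (⟨σ a, (q a).1, (q a).2.1⟩ : OPk (n a))) :=
    CS.sigmaIntro hσ (CS.sigmaIntro hq.sfst (sn hq).fst)
  have h2 : CS (fun a => (⟨σ a, (q a).1, (q a).2.2⟩ : OPk (n a))) :=
    CS.sigmaIntro hσ (CS.sigmaIntro hq.sfst (sn hq).snd)
  have o : CS (fun a => (1 : Mat (n a) ℚ)) := OneF.matrix Disc.fin Haus.fin ZeroF.rat OneF.rat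
  exact (CS.le LeF.nat hσ.length hs).and ((CS.le LeF.nat hq.sfst hs).and ((c_dual hn h1).and
    (((c_lpk hn hN o o h1).and ((c_bpk hn hs o o h1).and (c_fpk hn hs hg.fst.fst hg.fst.snd h1))).and
      ((c_lpk hn hN o o h2).and ((c_bpk hn hs o o h2).and (c_fpk hn hs hg.snd.fst hg.snd.snd h2))))))

theorem c_usp {q : ∀ a, UPk (n a)} (hn : CS n) (hq : CS q) : CS (fun a => USp (q a)) := by
  have key : CS (fun u : Σ n : ℕ, UPk n => USp u.2) := by
    unfold USp
    aesop (config := { terminal := true, enableSimp := false, maxRuleApplications := 3000, maxRuleApplicationDepth := 70, assumptionTransparency := .reducible }) (rule_sets := [-default, -builtin, Restrict])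
  exact key.comp (CS.smk0 hn hq)

theorem d_tpair (hn : CS n) : Disc (fun a => TPair (n a)) := by
  have key : Disc (fun n : ℕ => TPair n) := by
    aesop (config := { terminal := true, enableSimp := false, maxRuleApplications := 3000, maxRuleApplicationDepth := 70, assumptionTransparency := .reducible }) (rule_sets := [-default, -builtin, Restrict])
  exact key.comp hn

theorem c_ucov {us : ∀ a, List (TPair (n a))} {pks : ∀ a, List (UPk (n a))} (hn : CS n)
    (hu : CS us) (hp : CS pks) : CS (fun a => UCov (us a) (pks a)) :=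
  have h0 := (sn (s2 (β := fun a => UPk (n a)))).fst
  have h : CS (fun p : Σ a, UPk (n a) => (⟨p.2.1, p.2.2.1⟩ : TPair (n p.1))) :=
    CS.sigmaIntro (s2 (β := fun a => UPk (n a))).sfst h0
  have k : CS (fun a => (pks a).map fun q => (⟨q.1, q.2.1⟩ : TPair (n a))) := CS.map (CS.lam h) hp
  CS.allMem hu (CS.memList (d_tpair (hn.comp s1)) s2 (k.comp s1))

theorem c_globC {m : A → ℕ} {Λ : ∀ a, AddSubgroup (Fin (n a) → ℚ)} {π : ∀ a, Mat (n a) ℚ}
    (hn : CS n) (hm : CS m) (hΛ : CS Λ) (hπ : CS π) : CS (fun a => GlobC (m a) (Λ a) (π a)) := by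
  have key : CS (fun u : Σ n : ℕ, AddSubgroup (Fin n → ℚ) × Mat n ℚ =>
      u.2.1 ≤ lcomap (u.2.2 - 1).mulVecLin ⊥) := by
    aesop (config := { terminal := true, enableSimp := false, maxRuleApplications := 3000, maxRuleApplicationDepth := 70, assumptionTransparency := .reducible }) (rule_sets := [-default, -builtin, Restrict])
  have key' : CS (fun u : Σ n : ℕ, ℕ × AddSubgroup (Fin n → ℚ) × Mat n ℚ =>
      ∀ j, u.2.2.2 *ᵥ Pi.single j 1 ∈ glob u.2.1 u.2.2.1) := by
    aesop (config := { terminal := true, enableSimp := false, maxRuleApplications := 3000, maxRuleApplicationDepth := 70, assumptionTransparency := .reducible }) (rule_sets := [-default, -builtin, Restrict])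
  refine CS.and ((key.comp (CS.smk0 hn (hΛ.pair hπ))).of_iff fun a _ => ?_)
    ((CS.globInt (CFin.fin hn) Disc.fin hm hΛ).and (key'.comp (CS.smk0 hn (hm.pair (hΛ.pair hπ)))))
  refine forall_congr' fun x => forall_congr' fun _ => ?_
  show (π a - 1) *ᵥ x ∈ (⊥ : AddSubgroup (Fin (n a) → ℚ)) ↔ _
  rw [AddSubgroup.mem_bot, Matrix.sub_mulVec, Matrix.one_mulVec, sub_eq_zero]

theorem c_locC {p : A → Nat.Primes} {Λ : ∀ a, AddSubgroup (Fin (n a) → ℚ)} {N : A → ℕ}
    {π : ∀ a, Mat (n a) ℚ} {es : ∀ a, List (Mat (n a) (Qp (p a)))} (hn : CS n) (hp : CS p)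
    (hΛ : CS Λ) (hN : CS N) (hπ : CS π) (he : CS es) :
    CS (fun a => LocC (p a) (Λ a) (N a) (π a) (es a)) := by
  have key : CS (fun u : Σ n : ℕ × Nat.Primes, AddSubgroup (Fin n.1 → ℚ) × ℕ × Mat n.1 ℚ ×
      List (Mat n.1 (Qp n.2)) => LocC u.1.2 u.2.1 u.2.2.1 u.2.2.2.1 u.2.2.2.2) := by
    unfold LocC
    aesop (config := { terminal := true, enableSimp := false, maxRuleApplications := 3000, maxRuleApplicationDepth := 70, assumptionTransparency := .reducible }) (rule_sets := [-default, -builtin, Restrict]) (add safe 30 (by with_reducible apply CS.lineLoc), safe 30 (by with_reducible apply CS.formLoc))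
  exact key.comp (CS.smk0 (hn.pair hp) (hΛ.pair (hN.pair (hπ.pair he))))

attribute [local aesop safe 30 apply (transparency := reducible) (rule_sets := [Restrict])]
  c_globC c_locC

theorem c_latO {r m N : A → ℕ} {Y : ∀ a, Fin (r a) → Mat (n a) ℚ}
    {Λ : ∀ a, AddSubgroup (Fin (n a) → ℚ)} {d : ∀ a, LD (r a)} (hn : CS n) (hr : CS r) (hm : CS m)
    (hN : CS N) (hY : CS Y) (hΛ : CS Λ) (hd : CS d) :
    CS (fun a => LatO (m a) (N a) (Y a) (Λ a) (d a)) := by
  have hπ : CS (fun a => cmb ℚ (d a).1 (Y a)) :=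
    c_cmb hr AddF.rat ZeroF.rat MulF.rat RatF.rat hd.fst hY
  have b : CS (fun q : Σ e : (Σ a, Σ p : Nat.Primes, List (Fin (r a) → Qp p)),
      Fin (r e.1) → Qp e.2.1 => q.1.1) := s1.comp s1
  have h0 := sn (s2 (β := fun a => Σ p : Nat.Primes, List (Fin (r a) → Qp p)))
  have he : CS (fun e : Σ a, Σ p : Nat.Primes, List (Fin (r a) → Qp p) =>
      e.2.2.map fun c => cmb (Qp e.2.1) c (Y e.1)) :=
    CS.map (CS.lam (c_cmb (hr.comp b) AddF.padic ZeroF.padic MulF.padic RatF.padic s2 (hY.comp b)))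
      h0
  exact (c_globC hn hm hΛ hπ).and ((CS.allMem hd.snd (c_locC (hn.comp s1) s2.sfst (hΛ.comp s1)
    (hN.comp s1) (hπ.comp s1) he)).and (CS.allLe hm (CS.imp (CS.notPrime s2)
      (CS.imp (CS.natNotDvd s2 (hm.comp s1)) (CS.exMem (hd.comp s1).snd
        (CS.eq Disc.nat (CS.primeVal s2.sfst) (s2.comp s1)))))))

attribute [local aesop safe 30 apply (transparency := reducible) (rule_sets := [Restrict])] c_latO

theorem c_latC {r s m N : A → ℕ} {Y Y' : ∀ a, Fin (r a) → Mat (n a) ℚ}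
    {al : ∀ a, List (Mat (n a) ℚ × Mat (n a) ℚ)} {L : ∀ a, LPair (n a)} {d : ∀ a, LD (r a)}
    (hn : CS n) (hr : CS r) (hs : CS s) (hm : CS m) (hN : CS N) (hY : CS Y) (hY' : CS Y')
    (hal : CS al) (hL : CS L) (hd : CS d) :
    CS (fun a => LatC (s a) (m a) (N a) (Y a) (Y' a) (al a) (L a) (d a)) := by
  have key : CS (fun u : Σ n : ℕ × ℕ, (ℕ × ℕ × ℕ) × ((Fin n.2 → Mat n.1 ℚ) × (Fin n.2 → Mat n.1 ℚ)) ×
      List (Mat n.1 ℚ × Mat n.1 ℚ) × LPair n.1 × LD n.2 =>
      LatC u.2.1.1 u.2.1.2.1 u.2.1.2.2 u.2.2.1.1 u.2.2.1.2 u.2.2.2.1 u.2.2.2.2.1 u.2.2.2.2.2) := by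
    unfold LatC
    aesop (config := { terminal := true, enableSimp := false, maxRuleApplications := 3000, maxRuleApplicationDepth := 70, assumptionTransparency := .reducible }) (rule_sets := [-default, -builtin, Restrict])
  exact key.comp (CS.smk0 (hn.pair hr)
    ((hs.pair (hm.pair hN)).pair ((hY.pair hY').pair (hal.pair (hL.pair hd)))))

end packets

end Pool.Agent.P.MP_257122_al.BReAux
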