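import Pool.Agent.P.MP_257122_al.BRho
import Pool.Agent.P.MP_257122_al.LOps
import Pool.Agent.P.MP_257122_al.LNS
import Pool.Agent.P.MP_257122_al.FGrp
import Pool.Agent.P.MP_257122_al.BReA

/-!
# The certificate is recursively enumerable

PLAN.  Section 0 of the blueprint.  Prove one rule per definition of `BD` for computable
families of arguments (`rho`, `du`, `drho`, `grm`, `castM`, `castV`, `mdot`, `cmb`, `ofT`, `toT`, `IntV`,
`BdM`, `Rais`, `DualPk`, `LPk`, `BPk`, `fr1`, `fr2`, `ThEq`, `FPk`, `PkC`, `USp`, `UCov`, `GlobC`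
(`CS.addLe` with `lcomap (π - 1).mulVecLin ⊥`, `CS.globInt`, `CS.memGlob`), `LocC` (`CS.memLoc`,
`CS.formLoc`, `CS.lineLoc`), `LatO`, `LatC`), generic in the family of fields where needed, so that
they also apply to `Cx x`.  The last clause of `CertX` and `empty_re` are instances of `CS.ns`
with `σ = Bool × Fin n × Fin n` and the matrices `Matrix.of fun i j => Cx.co x (b, i, j)`
(`ZS` rules for `TIso`, `PkT`, `InAl`, `NSC`), then `CS.of_iff`.
-/

set_option synthInstance.maxSize 2048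
set_option backward.isDefEq.respectTransparency.types true

namespace Pool.Agent.P.MP_257122_al

open Matrix FOpsAux BReAux

section rules
variable {A : Type} [Rep A] {κ ι ι' R : A → Type} [∀ a, Rep (κ a)] [∀ a, Rep (ι a)]
  [∀ a, Rep (ι' a)] [∀ a, Rep (R a)]

theorem CS.rho [∀ a, Fintype (κ a)] [∀ a, CommRing (R a)] {s : ∀ a, κ a → Bool}
    {g : ∀ a, Matrix (ι' a) (ι a) (R a)} {g' : ∀ a, Matrix (ι a) (ι' a) (R a)} (hκ : CFin κ)
    (h1 : OneF R) (hm : MulF R) (hs : CS s) (hg : CS g) (hg' : CS g') :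
    CS (fun a => rho (s a) (g a) (g' a)) := c_rho hκ h1 hm hs hg hg'

theorem CS.act {n : A → ℕ} [∀ a, CommRing (R a)] {σ : A → List Bool} {g g' : ∀ a, Mat (n a) (R a)}
    (h1 : OneF R) (hm : MulF R) (hσ : CS σ) (hg : CS g) (hg' : CS g') :
    CS (fun a => act (σ a) (g a) (g' a)) :=
  c_rho (CFin.fin hσ.length) h1 hm (c_get hσ) hg hg'

theorem CS.drho {n : A → ℕ} {σ : A → List Bool} {ξ : ∀ a, Mat (n a) ℚ} (hσ : CS σ) (hξ : CS ξ) :
    CS (fun a => drho (σ a).get (ξ a)) := c_drho hσ hξ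

theorem CS.toT {n : A → ℕ} {x : ∀ a, Mat (n a) (R a)} (hx : CS x) : CS (fun a => toT (x a)) :=
  c_toT hx

theorem CS.mdot {n : A → ℕ} {c x : ∀ a, Mat (n a) ℚ} (hn : CS n) (hc : CS c) (hx : CS x) :
    CS (fun a => mdot (c a) (x a)) :=
  c_mdot (CFin.fin hn) (CFin.fin hn) AddF.rat ZeroF.rat MulF.rat hc hx

theorem CS.zm {n m : A → ℕ} {x : ∀ a, Mat (n a) ℚ} (hn : CS n) (hm : CS m) (hx : CS x) :
    CS (fun a => ZM (m a) (x a)) := c_zm (CFin.fin hn) (CFin.fin hn) hm hx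

end rules

namespace BReAux

section zs
variable {A : Type} [Rep A] {n : A → ℕ} {τ : A → Type} [∀ a, Rep (τ a)] {x : ∀ a, Gen (τ a)}

theorem f_idx {σ : A → List Bool} (hn : CS n) (hσ : CS σ) :
    CFin (fun a => Fin (σ a).length → Fin (n a)) :=
  CFin.pi (CFin.fin hσ.length) Disc.fin (CFin.fin hn)

theorem x_one : CS (fun a => (1 : Mat (n a) (Cx (x a)))) :=
  OneF.matrix Disc.fin Haus.fin ZeroF.cx OneF.cx

theorem x_mul {α β : ∀ a, Mat (n a) (Cx (x a))} (hn : CS n) (h : CS α) (h' : CS β) :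
    CS (fun a => α a * β a) := CS.mmul (CFin.fin hn) AddF.cx ZeroF.cx MulF.cx h h'

theorem z_rho {σ : A → List Bool} {s : ∀ a, Fin (σ a).length → Bool}
    {α α' : ∀ a, Mat (n a) (Cx (x a))} {u v : ∀ a, Tn (n a) (σ a) ℚ} (hn : CS n) (hσ : CS σ)
    (hs : CS s) (h : CS α) (h' : CS α') (hu : CS u) (hv : CS v) :
    ZS x (fun a => rho (s a) (α a) (α' a) *ᵥ castV (Cx (x a)) (u a) = castV (Cx (x a)) (v a)) :=
  ZS.funEq (f_idx hn hσ) (CS.mulVec (f_idx hn hσ) AddF.cx ZeroF.cx MulF.cx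
    (c_rho (CFin.fin hσ.length) OneF.cx MulF.cx hs h h') (c_castV RatF.cx hu)) (c_castV RatF.cx hv)

theorem z_tiso {us : ∀ a, List (TPair (n a))} {α α' : ∀ a, Mat (n a) (Cx (x a))} (hn : CS n)
    (hu : CS us) (h : CS α) (h' : CS α') : ZS x (fun a => TIso (Cx (x a)) (us a) (α a) (α' a)) :=
  have h0 := sn (s2 (β := fun a => TPair (n a)))
  have h1 := (s2 (β := fun a => TPair (n a))).sfst
  have k := z_rho (x := fun p : Σ a, TPair (n a) => x p.1) (hn.comp s1) h1 (c_get h1) (h.comp s1)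
    (h'.comp s1) h0.fst h0.snd
  (ZS.matEq (CFin.fin hn) (CFin.fin hn) (x_mul hn h h') x_one).and
    ((ZS.matEq (CFin.fin hn) (CFin.fin hn) (x_mul hn h' h) x_one).and (ZS.allMem hu k))

theorem z_pkT {σ : A → List Bool} {q : ∀ a, Pk (n a) (σ a)} {α α' : ∀ a, Mat (n a) (Cx (x a))}
    (hn : CS n) (h : CS α) (h' : CS α') (hσ : CS σ) (hq : CS q) :
    ZS x (fun a => PkT (Cx (x a)) (α a) (α' a) (σ a) (q a)) :=
  have h0 := (sn hq).comp (s1 (β := fun a => Fin (q a).1))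
  have h1 := hσ.comp (s1 (β := fun a => Fin (q a).1))
  have k1 := z_rho (x := fun p : Σ a, Fin (q a).1 => x p.1) (hn.comp s1) h1 (c_get h1) (h.comp s1)
    (h'.comp s1) (CS.app h0.fst.fst s2) (CS.app h0.snd.fst s2)
  have k2 := z_rho (x := fun p : Σ a, Fin (q a).1 => x p.1) (hn.comp s1) h1 (c_du (c_get h1))
    (h.comp s1) (h'.comp s1) (CS.app h0.fst.snd s2) (CS.app h0.snd.snd s2)
  ZS.all (CFin.fin hq.sfst) (k1.and k2)

theorem z_inAl {al : ∀ a, List (Mat (n a) ℚ × Mat (n a) ℚ)} {α : ∀ a, Mat (n a) (Cx (x a))}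
    (hn : CS n) (hal : CS al) (h : CS α) : ZS x (fun a => InAl (Cx (x a)) (al a) (α a)) :=
  have k : CS (fun p : Σ a, Mat (n a) ℚ × Mat (n a) ℚ =>
      mdot (castM (Cx (x p.1)) p.2.2) (α p.1) • castM (Cx (x p.1)) p.2.1) :=
    CS.smul (SMulF.matrix (SMulF.self MulF.cx))
      (c_mdot (CFin.fin (hn.comp s1)) (CFin.fin (hn.comp s1)) AddF.cx ZeroF.cx MulF.cx
        (c_castM RatF.cx s2.snd) (h.comp s1)) (c_castM RatF.cx s2.fst)
  ZS.matEq (CFin.fin hn) (CFin.fin hn) h (c_sumM AddF.cx ZeroF.cx (CS.map (CS.lam k) hal))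

theorem z_nsc {us : ∀ a, List (TPair (n a))} {w w' : ∀ a, Fin (n a) → ℤ}
    {pks : ∀ a, List (UPk (n a))} {E : ∀ a, Pk (n a) tE}
    {al : ∀ a, List (Mat (n a) ℚ × Mat (n a) ℚ)} {α α' : ∀ a, Mat (n a) (Cx (x a))} (hn : CS n)
    (hu : CS us) (hw : CS w) (hw' : CS w') (hp : CS pks) (hE : CS E) (hal : CS al) (h : CS α)
    (h' : CS α') :
    ZS x (fun a => NSC (Cx (x a)) (us a) (w a) (w' a) (pks a) (E a) (al a) (α a) (α' a)) :=
  have g1 := c_grm ZeroF.cx hw' hw h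
  have g2 := c_grm ZeroF.cx hw hw' h'
  have h0 := (sn (s2 (β := fun a => UPk (n a)))).snd
  have k := z_pkT (x := fun p : Σ a, UPk (n a) => x p.1) (hn.comp s1) (g1.comp s1) (g2.comp s1)
    (s2 (β := fun a => UPk (n a))).sfst h0
  have ha : AddF (fun a => Mat (n a) (Cx (x a))) := AddF.matrix AddF.cx
  have hg : NegF (fun a => Mat (n a) (Cx (x a))) := NegF.matrix NegF.cx
  (z_tiso hn hu g1 g2).and ((z_pkT hn g1 g2 CS.const hE).and ((ZS.allMem hp k).and
    ((z_inAl hn hal (CS.sub ha hg (x_mul hn h g2) x_one)).and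
      (z_inAl hn hal (CS.sub ha hg (x_mul hn g1 h') x_one)))))

/-- A matrix of coordinates of a complex point. -/
def gm {n : ℕ} (y : Gen (Bool × Fin n × Fin n)) (b : Bool) : Mat n (Cx y) :=
  Matrix.of fun i j => Cx.co y (b, i, j)

theorem c_gm {y : ∀ a, Gen (Bool × Fin (n a) × Fin (n a))} (b : Bool) : CS (fun a => gm (y a) b) :=
  have k : CS (fun p : Σ a, Fin (n a) × Fin (n a) => Cx.co (y p.1) (b, p.2.1, p.2.2)) :=
    CS.co (CS.pair CS.const (CS.pair s2.fst s2.snd))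
  CS.mlam k

theorem c_ns {P Q : ∀ a, Mat (n a) ℂ → Mat (n a) ℂ → Prop} (hn : CS n)
    (hP : ZS (fun p : Σ a, Gen (Bool × Fin (n a) × Fin (n a)) => p.2)
      (fun p => P p.1 (gm p.2 false) (gm p.2 true)))
    (hQ : ZS (fun p : Σ a, Gen (Bool × Fin (n a) × Fin (n a)) => p.2)
      (fun p => Q p.1 (gm p.2 false) (gm p.2 true))) :
    CS (fun a => ∀ α α', P a α α' → Q a α α') :=
  (CS.ns (σ := fun a => Bool × Fin (n a) × Fin (n a))
    (P := fun a y => P a (gm y false) (gm y true)) (Q := fun a y => Q a (gm y false) (gm y true))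
    (CFin.bool.prod ((CFin.fin hn).prod (CFin.fin hn))) (Disc.bool.prod (Disc.fin.prod Disc.fin))
    hP hQ).of_iff fun _ _ => ⟨fun h α α' => h fun p => cond p.1 (α' p.2.1 p.2.2) (α p.2.1 p.2.2),
      fun h _ => h _ _⟩

theorem c_certX {us : ∀ a, List (TPair (n a))} {Ls : ∀ a, List (LPair (n a))} {κ s m N : A → ℕ}
    {w w' : ∀ a, Fin (n a) → ℤ} {pks : ∀ a, List (UPk (n a))} {g : ∀ a, Frames (n a)}
    {al : ∀ a, List (Mat (n a) ℚ × Mat (n a) ℚ)} {E : ∀ a, Pk (n a) tE}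
    {ld : ∀ a, List (LD (E a).1)} (hn : CS n) (hu : CS us) (hL : CS Ls) (hκ : CS κ) (hs : CS s)
    (hm : CS m) (hN : CS N) (hw : CS w) (hw' : CS w') (hp : CS pks) (hg : CS g) (hal : CS al)
    (hE : CS E) (hld : CS ld) : CS (fun a => CertX (us a) (Ls a) (κ a) (s a) (m a) (N a) (w a)
      (w' a) (pks a) (g a) (al a) (E a) (ld a)) := by
  have f := CFin.fin hn
  have o : CS (fun a => (1 : Mat (n a) ℝ)) := OneF.matrix Disc.fin Haus.fin ZeroF.real OneF.real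
  have h0 := (sn (s2 (β := fun a => UPk (n a)))).snd
  have y1 : CS (fun a l => ofT ((E a).2.1.1 l)) :=
    CS.lam (c_ofT (CS.app ((sn hE).fst.fst.comp s1) s2))
  have y2 : CS (fun a l => ofT ((E a).2.2.1 l)) :=
    CS.lam (c_ofT (CS.app ((sn hE).snd.fst.comp s1) s2))
  have b := s1 (β := fun a => LPair (n a) × LD (E a).1)
  have hc := c_latC (hn.comp b) (hE.sfst.comp b) (hs.comp b) (hm.comp b) (hN.comp b) (y1.comp b)
    (y2.comp b) (hal.comp b) s2.fst s2.snd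
  have b' := s1 (β := fun a => Gen (Bool × Fin (n a) × Fin (n a)))
  refine CS.and ?_ (CS.and ?_ (CS.and ?_ (CS.and ?_ (CS.and ?_ ?_))))
  · exact (CS.le LeF.nat hn hs).and ((CS.lt LtF.nat CS.const hm).and ((CS.le LeF.nat hm hs).and
      ((CS.natDvd hκ hm).and ((CS.lt LtF.nat CS.const hN).and ((CS.le LeF.nat hN hs).and
        ((CS.le LeF.nat hp.length hs).and (CS.le LeF.nat hld.length hs)))))))
  · exact (c_ucov hn hu hp).and ((CS.allMem hp ((c_usp (hn.comp s1) s2).and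
      (c_pkC (hn.comp s1) (hs.comp s1) (hN.comp s1) (hg.comp s1)
        (s2 (β := fun a => UPk (n a))).sfst h0))).and (c_pkC hn hs hN hg CS.const hE))
  · exact (CS.eq (Disc.matrix f f Disc.real)
      (CS.mmul f AddF.real ZeroF.real MulF.real hg.fst.fst hg.fst.snd) o).and
      ((CS.eq (Disc.matrix f f Disc.real)
        (CS.mmul f AddF.real ZeroF.real MulF.real hg.snd.fst hg.snd.snd) o).and
      ((c_bdM f f hs hg.fst.fst).and ((c_bdM f f hs hg.fst.snd).and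
        ((c_bdM f f hs hg.snd.fst).and (c_bdM f f hs hg.snd.snd)))))
  · exact CS.allMem hal (c_rais (f.comp s1) (hw'.comp s1) s2.fst)
  · exact CS.forall₂ (cur2 hc) hL hld
  · exact c_ns hn (z_tiso (hn.comp b') (hu.comp b') (c_gm false) (c_gm true))
      (z_nsc (hn.comp b') (hu.comp b') (hw.comp b') (hw'.comp b') (hp.comp b') (hE.comp b')
        (hal.comp b') (c_gm false) (c_gm true))

theorem e_tn {σ : A → List Bool} (hn : CS n) (hσ : CS σ) : Enum (fun a => Tn (n a) (σ a) ℚ) :=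
  Enum.pi (f_idx hn hσ) (Disc.pi (CFin.fin hσ.length) Disc.fin) Enum.rat

theorem e_pk {σ : A → List Bool} (hn : CS n) (hσ : CS σ) : Enum (fun a => Pk (n a) (σ a)) :=
  have b : CS (fun q : Σ p : (Σ _ : A, ℕ), Fin p.2 => q.1.1) := s1.comp s1
  have k : Enum (fun p : Σ _ : A, ℕ => Fin p.2 → Tn (n p.1) (σ p.1) ℚ) :=
    Enum.pi (CFin.fin s2) Disc.fin (e_tn (hn.comp b) (hσ.comp b))
  Enum.sigma Enum.nat ((k.prod k).prod (k.prod k))

theorem e_upk (hn : CS n) : Enum (fun a => UPk (n a)) :=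
  have k := e_tn (hn.comp (s1 (β := fun _ => List Bool))) s2
  Enum.sigma Enum.bool.list ((k.prod k).prod (e_pk (hn.comp s1) s2))

theorem e_mat (hn : CS n) : Enum (fun a => Mat (n a) ℚ) :=
  Enum.matrix (CFin.fin hn) Disc.fin (CFin.fin hn) Disc.fin Enum.rat

theorem e_ld (hn : CS n) : EnumC (fun a => LD (n a)) :=
  have k : EnumC (fun p : Σ _ : A, Nat.Primes => Fin (n p.1) → Qp p.2) :=
    EnumC.pi (CFin.fin (hn.comp s1)) Disc.fin (EnumC.padic (s2.comp s1))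
  (Enum.pi (CFin.fin hn) Disc.fin Enum.rat).toC.prod (EnumC.sigma Enum.primes.toC k.list).list

theorem c_trT {p p' : ∀ a, GL (Fin (n a)) ℚ} {us : ∀ a, List (TPair (n a))} (hn : CS n) (hp : CS p)
    (hp' : CS p') (hu : CS us) : CS (fun a => trT (p a) (p' a) (us a)) :=
  have b := s1 (β := fun a => TPair (n a))
  have h0 := sn (s2 (β := fun a => TPair (n a)))
  have h1 := (s2 (β := fun a => TPair (n a))).sfst
  have f := f_idx (hn.comp b) h1
  have k1 := CS.mulVec f AddF.rat ZeroF.rat MulF.rat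
    (CS.act OneF.rat MulF.rat h1 (hp.comp b).unitsInv (hp.comp b).unitsVal) h0.fst
  have k2 := CS.mulVec f AddF.rat ZeroF.rat MulF.rat
    (CS.act OneF.rat MulF.rat h1 (hp'.comp b).unitsInv (hp'.comp b).unitsVal) h0.snd
  have k : CS (fun t : Σ a, TPair (n a) => (⟨t.2.1, act t.2.1 (p t.1).inv (p t.1).val *ᵥ t.2.2.1,
      act t.2.1 (p' t.1).inv (p' t.1).val *ᵥ t.2.2.2⟩ : TPair (n t.1))) :=
    CS.sigmaIntro h1 (k1.pair k2)
  CS.map (CS.lam k) hu

theorem c_trL {p p' : ∀ a, GL (Fin (n a)) ℚ} {Ls : ∀ a, List (LPair (n a))} (hn : CS n) (hp : CS p)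
    (hp' : CS p') (hL : CS Ls) : CS (fun a => trL (p a) (p' a) (Ls a)) :=
  have b := s1 (β := fun a => LPair (n a))
  have f := CFin.fin (hn.comp b)
  have c := CoordF.pi f Disc.fin
  have k := (CS.lmap c c (CS.mulVecLin f AddF.rat ZeroF.rat MulF.rat (hp.comp b).unitsInv)
    s2.fst).pair (CS.lmap c c (CS.mulVecLin f AddF.rat ZeroF.rat MulF.rat (hp'.comp b).unitsInv)
      s2.snd)
  CS.map (CS.lam k) hL

end zs

end BReAux

theorem cert_re : CS (fun p : Σ a : BTIn, CD a.1 => BCert p.1 p.2) := by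
  have ha := sn (s1 (β := fun a : BTIn => CD a.1))
  have hc := s2 (β := fun a : BTIn => CD a.1)
  exact c_certX s1.sfst ha.fst ha.snd.fst ha.snd.snd hc.fst.fst hc.fst.snd.fst hc.fst.snd.snd
    hc.snd.fst.fst hc.snd.fst.snd hc.snd.snd.fst hc.snd.snd.snd.fst hc.snd.snd.snd.snd.fst
    hc.snd.snd.snd.snd.snd.sfst (sn hc.snd.snd.snd.snd.snd)

theorem empty_re : CS (fun a : BTIn => ∀ α α' : Mat a.1 ℂ, ¬ TIso ℂ a.2.1 α α') := by
  have ha := s1 (β := fun a : BTIn => Gen (Bool × Fin a.1 × Fin a.1))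
  exact c_ns (P := fun a : BTIn => TIso ℂ a.2.1) (Q := fun _ _ _ => False) CS.id.sfst
    (z_tiso ha.sfst (sn ha).fst (c_gm false) (c_gm true)) ZS.false

theorem enumC_cd : EnumC (fun n : ℕ => CD n) := by
  have f : CFin (fun n : ℕ => Fin n) := CFin.fin CS.id
  have w : Enum (fun n : ℕ => Fin n → ℤ) := Enum.pi f Disc.fin Enum.int
  have g : EnumC (fun n : ℕ => Mat n ℝ) := EnumC.matrix f Disc.fin f Disc.fin EnumC.real
  exact (Enum.nat.prod (Enum.nat.prod Enum.nat)).toC.prod ((w.prod w).toC.prod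
    ((e_upk CS.id).list.toC.prod (((g.prod g).prod (g.prod g)).prod
      (((e_mat CS.id).prod (e_mat CS.id)).list.toC.prod
        (EnumC.sigma (e_pk CS.id CS.const).toC (e_ld (s2 (β := fun n => Pk n tE)).sfst).list)))))

theorem coded_cd {n : ℕ} {c : CD n} (h : AlgCD c) : Coded c := by
  have hn : Coded n := Tot.tot n
  refine coded_prod.2 ⟨Tot.tot _, coded_prod.2 ⟨Tot.tot _, coded_prod.2
    ⟨(e_upk CS.id).list.coded hn _, coded_prod.2 ⟨?_, coded_prod.2 ⟨Tot.tot _,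
      coded_sigma.2 ⟨(e_pk (σ := fun _ => tE) CS.id CS.const).coded hn _, ?_⟩⟩⟩⟩⟩⟩
  · exact coded_prod.2 ⟨coded_prod.2 ⟨coded_matrix_fin.2 fun i j => coded_real_iff.2 (h.1 i j).1,
      coded_matrix_fin.2 fun i j => coded_real_iff.2 (h.1 i j).2.1⟩,
      coded_prod.2 ⟨coded_matrix_fin.2 fun i j => coded_real_iff.2 (h.1 i j).2.2.1,
      coded_matrix_fin.2 fun i j => coded_real_iff.2 (h.1 i j).2.2.2⟩⟩
  · exact coded_list.2 fun d hd => coded_prod.2 ⟨Tot.tot _, coded_list.2 fun e he =>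
      coded_sigma.2 ⟨Tot.tot _, coded_list.2 fun a ha => coded_fun_fin.2 fun l =>
        coded_padic_iff.2 (h.2 d hd e he a ha l)⟩⟩

theorem trIn_cs :
    CS (fun p : Σ a : BTIn, GL (Fin a.1) ℚ × GL (Fin a.1) ℚ => trIn p.1 p.2.1 p.2.2) := by
  have ha := s1 (β := fun a : BTIn => GL (Fin a.1) ℚ × GL (Fin a.1) ℚ)
  have hp := s2 (β := fun a : BTIn => GL (Fin a.1) ℚ × GL (Fin a.1) ℚ)
  exact CS.smk0 ha.sfst ((c_trT ha.sfst hp.fst hp.snd (sn ha).fst).pair
    ((c_trL ha.sfst hp.fst hp.snd (sn ha).snd.fst).pair (sn ha).snd.snd))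

end Pool.Agent.P.MP_257122_al
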