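import Pool.Agent.P.MP_257122_al.BSnd
import Pool.Agent.P.MP_257122_al.BCmp
import Pool.Agent.P.MP_257122_al.BRe

/-!
# From the certificate to the list of representatives

PLAN.  `MV.cover_of_coverL`: keep the pairs that are inverse to each other (`CS.flatMap`,
`CS.dite`, `CS.unitsMk`).  `xi_cs`: the subgroup is the intersection (a `foldr` of `⊓`,
`CS.foldr`, `CS.addInf`, `CS.addTop`) of kernels `lcomap φ ⊥` of the linear maps
`ξ ↦ Matrix.of fun i j => if w i ≤ w j then ξ i j else 0` and `ξ ↦ drho σ ξ *ᵥ u'`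
(`CS.linIntro`, `CoordF.pi`) and of `homLat (B • mulVec) L.2 L.2`.
`bt_cert`: `B = C s` from `snd`, `N₃ = C' (n + B + κ)` from `uni`, `rs` from `MV.cosets` for the
subgroup of `xi_cs` and `N₃`, `bx` from `MV.htBox`; output all pairs
`(ex n r * b, b' * ex n (-r))`, `r ∈ rs`, `b, b' ∈ bx` (`ex_eq_exp`, `Rais.pow_card`).  For an
isomorphism `α` take `δ`, `β`, `ξ`, then `r`, `ζ`, `u`; `α₁ = u⁻¹ α δ` is an isomorphism with value
`exp r * β`, and `α₁⁻¹ α = ((α δ)⁻¹ u (α δ)) δ⁻¹` is in the group of `exists_dl`.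
`bt_one`: `CS.cases`-like split through `MV.searchC` over `(p, p', c)` with the r.e. condition
`empty ∨ BCert (trIn a p p') c` (complete by `adapt`, `cert_of_adapted`, `BTok.tr`, `BTE.tr`,
`trIn_cs` and `CS.coded`, `coded_cd`); simplest: search over `Bool × _`, where the flag says which
alternative holds, then branch on the flag (`MV.bind`; `MV.of_cs` with `[]`, or `bt_cert`
composed with `trIn_cs`, and `cover_tr`).  A branching rule for `MV` is `CS.cases` applied to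
`T = fun a => Sel _`.
-/

set_option synthInstance.maxSize 2048

namespace Pool.Agent.P.MP_257122_al

open Matrix

namespace BFinAux

/-- The pairs of mutually inverse matrices in a list. -/
def keep {n : ℕ} (l : List (Mat n ℚ × Mat n ℚ)) : List (GL (Fin n) ℚ) :=
  l.flatMap fun x => if h : x.1 * x.2 = 1 ∧ x.2 * x.1 = 1 then [⟨x.1, x.2, h.1, h.2⟩] else []

theorem mem_keep {n : ℕ} {l : List (Mat n ℚ × Mat n ℚ)} {β : GL (Fin n) ℚ}
    (h : (β.val, β.inv) ∈ l) : β ∈ keep l := by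
  refine List.mem_flatMap.mpr ⟨_, h, ?_⟩
  rw [dif_pos ⟨β.val_inv, β.inv_val⟩]
  exact List.mem_singleton.mpr rfl

theorem coordM {A : Type} [Rep A] {n : A → ℕ} (hn : CS n) : CoordF (fun a => Mat (n a) ℚ) :=
  CoordF.matrix (CFin.fin hn) Disc.fin (CFin.fin hn) Disc.fin

theorem mulM {A : Type} [Rep A] {n : A → ℕ} (hn : CS n) : MulF (fun a => Mat (n a) ℚ) :=
  MulF.matrix (CFin.fin hn) AddF.rat ZeroF.rat MulF.rat

theorem oneM {A : Type} [Rep A] {n : A → ℕ} : OneF (fun a => Mat (n a) ℚ) :=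
  OneF.matrix Disc.fin Haus.fin ZeroF.rat OneF.rat

theorem sub0 {A α : Type} [Rep A] [Rep α] {P : α → Prop} {g : A → Subtype P}
    (h : CS (fun a => (g a).1)) : CS g := h

theorem cs_keep : CS (fun u : Σ n : ℕ, List (Mat n ℚ × Mat n ℚ) => keep u.2) := by
  have hn : CS (fun p : Σ u : (Σ n : ℕ, List (Mat n ℚ × Mat n ℚ)), Mat u.1 ℚ × Mat u.1 ℚ =>
      p.1.1) := CS.id.sfst.sfst
  have hx : CS (fun p : Σ u : (Σ n : ℕ, List (Mat n ℚ × Mat n ℚ)), Mat u.1 ℚ × Mat u.1 ℚ =>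
      p.2) := CS.id.ssnd
  have h12 := CS.mul (mulM hn) hx.fst hx.snd
  have h21 := CS.mul (mulM hn) hx.snd hx.fst
  refine CS.flatMap (CS.lam (CS.dite ?_ ?_ ?_ CS.nil)) CS.id.ssnd
  · exact CS.and (CS.eq (coordM hn).disc h12 oneM) (CS.eq (coordM hn).disc h21 oneM)
  · exact CS.notAnd (CS.notEq (coordM hn).haus h12 oneM) (CS.notEq (coordM hn).haus h21 oneM)
  · exact CS.cons (CS.unitsMk (hx.fst.comp CS.id.val) (hx.snd.comp CS.id.val)) CS.nil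

/-- The entries that a raising matrix must not have. -/
def rz {n : ℕ} (w : Fin n → ℤ) : Mat n ℚ →ₗ[ℚ] Mat n ℚ where
  toFun ξ := Matrix.of fun i j => if w i ≤ w j then ξ i j else 0
  map_add' x y := by
    ext i j
    simp only [Matrix.of_apply, Matrix.add_apply]
    split_ifs <;> simp
  map_smul' c x := by
    ext i j
    simp only [Matrix.of_apply, Matrix.smul_apply, RingHom.id_apply]
    split_ifs <;> simp

theorem rz_eq {n : ℕ} (w : Fin n → ℤ) (ξ : Mat n ℚ) : rz w ξ = 0 ↔ Rais w ξ := by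
  constructor
  · intro h i j hij
    have h1 : (if w i ≤ w j then ξ i j else 0) = 0 := congrFun (congrFun h i) j
    rwa [if_pos hij] at h1
  · intro h
    ext i j
    show (if w i ≤ w j then ξ i j else 0) = 0
    split_ifs with hij
    · exact h i j hij
    · rfl

/-- The infinitesimal action on the second tensor. -/
def dr {n : ℕ} (t : TPair n) : Mat n ℚ →ₗ[ℚ] Tn n t.1 ℚ where
  toFun ξ := drho t.1.get ξ *ᵥ t.2.2
  map_add' x y := by rw [drho_add, Matrix.add_mulVec]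
  map_smul' c x := by rw [drho_smul, Matrix.smul_mulVec, RingHom.id_apply]

/-- A multiple of the action on vectors. -/
def mv (n B : ℕ) : Mat n ℚ →ₗ[ℚ] (Fin n → ℚ) →ₗ[ℚ] (Fin n → ℚ) :=
  LinearMap.mk₂ ℚ (fun ξ x => (B : ℚ) • (ξ *ᵥ x))
    (fun _ _ _ => by rw [Matrix.add_mulVec, smul_add])
    (fun _ _ _ => by rw [Matrix.smul_mulVec, smul_comm])
    (fun _ _ _ => by rw [Matrix.mulVec_add, smul_add])
    (fun _ _ _ => by rw [Matrix.mulVec_smul, smul_comm])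

theorem cs_rz : CS (fun u : Σ n : ℕ, Fin n → ℤ => rz u.2) := by
  refine CS.linIntro ?_
  show CS (fun p : Σ u : (Σ n : ℕ, Fin n → ℤ), Mat u.1 ℚ =>
    (Matrix.of fun i j => if p.1.2 i ≤ p.1.2 j then p.2 i j else 0 : Mat p.1.1 ℚ))
  aesop (config := { terminal := true, enableSimp := false, maxRuleApplications := 3000, maxRuleApplicationDepth := 70, assumptionTransparency := .reducible }) (rule_sets := [-default, -builtin, Restrict])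

theorem cs_dr : CS (fun u : Σ n : ℕ, TPair n => dr u.2) := by
  refine CS.linIntro ?_
  have hn : CS (fun p : Σ u : (Σ n : ℕ, TPair n), Mat u.1 ℚ => p.1.1) := CS.id.sfst.sfst
  have ht : CS (fun p : Σ u : (Σ n : ℕ, TPair n), Mat u.1 ℚ => p.1.2) := CS.id.sfst.ssnd
  have hσ : CS (fun p : Σ u : (Σ n : ℕ, TPair n), Mat u.1 ℚ => p.1.2.1) := ht.sfst
  have hv : CS (fun p : Σ u : (Σ n : ℕ, TPair n), Mat u.1 ℚ => p.1.2.2) := ht.ssnd
  exact CS.mulVec (CFin.pi (CFin.fin hσ.length) Disc.fin (CFin.fin hn)) AddF.rat ZeroF.rat MulF.rat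
    (CS.drho hσ CS.id.ssnd) hv.snd

theorem cs_mv : CS (fun u : Σ _ : ℕ, ℕ => mv u.1 u.2) := by
  refine CS.linIntro (CS.linIntro ?_)
  show CS (fun p : Σ q : (Σ u : (Σ _ : ℕ, ℕ), Mat u.1 ℚ), Fin q.1.1 → ℚ =>
    (p.1.1.2 : ℚ) • (p.1.2 *ᵥ p.2))
  aesop (config := { terminal := true, enableSimp := false, maxRuleApplications := 3000, maxRuleApplicationDepth := 70, assumptionTransparency := .reducible }) (rule_sets := [-default, -builtin, Restrict]) (erase CS.mapp, CS.mlam, CS.mrow)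

theorem cs_ex : CS (fun u : Σ n : ℕ, Mat n ℚ => ex u.1 u.2) := by
  unfold ex
  aesop (config := { terminal := true, enableSimp := false, maxRuleApplications := 3000, maxRuleApplicationDepth := 70, assumptionTransparency := .reducible }) (rule_sets := [-default, -builtin, Restrict]) (erase CS.mapp, CS.mlam, CS.mrow)

/-- The candidates. -/
noncomputable def out {n : ℕ} (rs bx : List (Mat n ℚ)) : List (Mat n ℚ × Mat n ℚ) :=
  rs.flatMap fun r => bx.flatMap fun b => bx.map fun b' => (ex n r * b, b' * ex n (-r))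

theorem mem_out {n : ℕ} {rs bx : List (Mat n ℚ)} {r b b' : Mat n ℚ} (hr : r ∈ rs) (hb : b ∈ bx)
    (hb' : b' ∈ bx) : (ex n r * b, b' * ex n (-r)) ∈ out rs bx :=
  List.mem_flatMap.mpr ⟨r, hr, List.mem_flatMap.mpr ⟨b, hb, List.mem_map.mpr ⟨b', hb', rfl⟩⟩⟩

/-- The base of the innermost loop. -/
abbrev O3 : Type :=
  Σ q : (Σ p : (Σ u : (Σ n : ℕ, List (Mat n ℚ) × List (Mat n ℚ)), Mat u.1 ℚ), Mat p.1.1 ℚ),
    Mat q.1.1.1 ℚ

theorem cs_out : CS (fun u : Σ n : ℕ, List (Mat n ℚ) × List (Mat n ℚ) => out u.2.1 u.2.2) := by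
  have h0 : CS (fun u : Σ n : ℕ, List (Mat n ℚ) × List (Mat n ℚ) => u.2) := CS.id.ssnd
  have hn : CS (fun z : O3 => z.1.1.1.1) := CS.id.sfst.sfst.sfst.sfst
  have hr : CS (fun z : O3 => z.1.1.2) := CS.id.sfst.sfst.ssnd
  have hb : CS (fun z : O3 => z.1.2) := CS.id.sfst.ssnd
  have hb' : CS (fun z : O3 => z.2) := CS.id.ssnd
  have h1 : CS (fun z : O3 => ex z.1.1.1.1 z.1.1.2) := cs_ex.comp (CS.smk0 hn hr)
  have h2 : CS (fun z : O3 => ex z.1.1.1.1 (-z.1.1.2)) :=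
    cs_ex.comp (CS.smk0 hn (CS.neg (coordM hn).neg hr))
  refine CS.flatMap (CS.lam (CS.flatMap (CS.lam (CS.map (CS.lam ?_) ?_)) ?_)) h0.fst
  · exact CS.pair (CS.mul (mulM hn) h1 hb) (CS.mul (mulM hn) hb' h2)
  · exact h0.snd.comp CS.id.sfst.sfst
  · exact h0.snd.comp CS.id.sfst

theorem cs_tr : CS (fun u : Σ n : ℕ, (GL (Fin n) ℚ × GL (Fin n) ℚ) × List (GL (Fin n) ℚ) =>
    u.2.2.map fun β => u.2.1.2 * β * u.2.1.1⁻¹) := by
  have h0 : CS (fun u : Σ n : ℕ, (GL (Fin n) ℚ × GL (Fin n) ℚ) × List (GL (Fin n) ℚ) => u.2) :=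
    CS.id.ssnd
  have hn : CS (fun z : Σ u : (Σ n : ℕ, (GL (Fin n) ℚ × GL (Fin n) ℚ) × List (GL (Fin n) ℚ)),
      GL (Fin u.1) ℚ => z.1.1) := CS.id.sfst.sfst
  refine CS.map (CS.lam ?_) h0.snd
  exact CS.mul (MulF.units (mulM hn)) (CS.mul (MulF.units (mulM hn))
    (h0.fst.snd.comp CS.id.sfst) CS.id.ssnd) (CS.inv InvF.units (h0.fst.fst.comp CS.id.sfst))

theorem xi_nil {n B : ℕ} {us : List (TPair n)} {Ls : List (LPair n)} {w : Fin n → ℤ} {ξ : Mat n ℚ}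
    (h : XiP us Ls w B ξ) : ξ ^ n = 0 := by
  have := h.1.pow_card
  rwa [Fintype.card_fin] at this

theorem sound {n κ : ℕ} {us : List (TPair n)} {Ls : List (LPair n)} {α δ β u : GL (Fin n) ℚ}
    {ξ r : Mat n ℚ} (hα : IsoL us Ls α) (hδ : DlP (ts1 us) (Ls.map Prod.fst) κ δ)
    (hu : DlP (ts2 us) (Ls.map Prod.snd) κ u) (hξ : ξ ^ n = 0) (hr : r ^ n = 0)
    (he : (α * δ).val = IsNilpotent.exp ξ * β.val)
    (hu' : u.inv = IsNilpotent.exp r * IsNilpotent.exp (-ξ)) :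
    ∃ γ : GL (Fin n) ℚ, γ.val = ex n r * β.val ∧ γ.inv = β.inv * ex n (-r) ∧ IsoL us Ls γ ∧
      ∀ L ∈ Ls, ∀ x ∈ L.1, (γ⁻¹ * α).val *ᵥ x - x ∈ scal κ L.1 := by
  obtain ⟨Δ, hΔ⟩ := exists_dl (ts1 us) (Ls.map Prod.fst) κ
  obtain ⟨Δ', hΔ'⟩ := exists_dl (ts2 us) (Ls.map Prod.snd) κ
  obtain ⟨h3, h4⟩ := (hα.mul_dl hδ).dl_mul ((hΔ' _).mp (Δ'.inv_mem ((hΔ' u).mpr hu)))
  have nξ : IsNilpotent ξ := ⟨_, hξ⟩
  have nr : IsNilpotent r := ⟨_, hr⟩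
  have hr0 : (-r) ^ n = 0 := by rw [neg_pow, hr, mul_zero]
  have hv : (u⁻¹ * (α * δ)).val = ex n r * β.val := by
    rw [Units.val_mul, he, ex_eq_exp hr, show (u⁻¹).val = u.inv from rfl, hu',
      mul_assoc, ← mul_assoc (IsNilpotent.exp (-ξ)), nξ.exp_neg_mul_exp_self, one_mul]
  have hi : (u⁻¹ * (α * δ)).inv = β.inv * ex n (-r) := by
    refine Units.inv_eq_of_mul_eq_one_right (u := u⁻¹ * (α * δ)) ?_
    rw [hv, ex_eq_exp hr, ex_eq_exp hr0, mul_assoc, ← mul_assoc β.val, β.val_inv,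
      one_mul, nr.exp_mul_exp_neg_self]
  refine ⟨u⁻¹ * (α * δ), hv, hi, h3, fun L hL => ?_⟩
  have h5 := (hΔ _).mp (Δ.mul_mem (Δ.inv_mem ((hΔ _).mpr h4)) (Δ.inv_mem ((hΔ _).mpr hδ)))
  have e : ((α * δ)⁻¹ * u⁻¹ * (α * δ))⁻¹ * δ⁻¹ = (u⁻¹ * (α * δ))⁻¹ * α := by group
  rw [e] at h5
  exact (h5.2 L.1 (List.mem_map.mpr ⟨L, hL, rfl⟩)).2

end BFinAux

open BFinAux

theorem MV.cover_of_coverL {A : Type} [Rep A] {f : A → BTIn} (hf : CS f)
    (h : MV (fun a (l : List (Mat (f a).1 ℚ × Mat (f a).1 ℚ)) => CoverL (f a) l)) :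
    MV (fun a (R : List (GL (Fin (f a).1) ℚ)) => BTCover (f a) R) := by
  refine h.bind (MV.of_cs (f := fun p => keep p.1.2)
    (cs_keep.comp (CS.smk0 (hf.sfst.comp CS.id.val.sfst) CS.id.val.ssnd)) ?_)
  intro p _ α hα
  obtain ⟨β, hβ, h1⟩ := p.2 α hα
  exact ⟨β, mem_keep hβ, h1⟩

theorem xi_cs : ∃ Ξ : ∀ p : (Σ a : BTIn, (Fin a.1 → ℤ) × ℕ), AddSubgroup (Mat p.1.1 ℚ),
    CS Ξ ∧ ∀ p ξ, ξ ∈ Ξ p ↔ XiP p.1.2.1 p.1.2.2.1 p.2.1 p.2.2 ξ := by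
  refine ⟨fun p => lcomap (rz p.2.1) ⊥ ⊓ ((⨅ t ∈ p.1.2.1, lcomap (dr t) ⊥) ⊓
    ⨅ L ∈ p.1.2.2.1, homLat (mv p.1.1 p.2.2) L.2 L.2), ?_, ?_⟩
  · have hn : CS (fun p : Σ a : BTIn, (Fin a.1 → ℤ) × ℕ => p.1.1) := CS.id.sfst.sfst
    have h1 : CS (fun p : Σ a : BTIn, (Fin a.1 → ℤ) × ℕ => p.1.2) := CS.id.sfst.ssnd
    have h2 : CS (fun p : Σ a : BTIn, (Fin a.1 → ℤ) × ℕ => p.2) := CS.id.ssnd
    refine CS.addInf (CS.lcomap (cs_rz.comp (CS.smk0 hn h2.fst)) (CS.addBot (coordM hn)))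
      (CS.addInf (CS.infList h1.fst ?_) (CS.infList h1.snd.fst ?_))
    · have hn' : CS (fun q : Σ p : (Σ a : BTIn, (Fin a.1 → ℤ) × ℕ), TPair p.1.1 => q.1.1.1) :=
        hn.comp CS.id.sfst
      have ht : CS (fun q : Σ p : (Σ a : BTIn, (Fin a.1 → ℤ) × ℕ), TPair p.1.1 => q.2) :=
        CS.id.ssnd
      have hσ : CS (fun q : Σ p : (Σ a : BTIn, (Fin a.1 → ℤ) × ℕ), TPair p.1.1 => q.2.1) :=
        ht.sfst
      exact CS.lcomap (cs_dr.comp (CS.smk0 hn' ht)) (CS.addBot (CoordF.pi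
        (CFin.pi (CFin.fin hσ.length) Disc.fin (CFin.fin hn'))
        (Disc.pi (CFin.fin hσ.length) Disc.fin)))
    · have hn' : CS (fun q : Σ p : (Σ a : BTIn, (Fin a.1 → ℤ) × ℕ), LPair p.1.1 => q.1.1.1) :=
        hn.comp CS.id.sfst
      have hL : CS (fun q : Σ p : (Σ a : BTIn, (Fin a.1 → ℤ) × ℕ), LPair p.1.1 => q.2) :=
        CS.id.ssnd
      exact CS.homLat (CoordF.pi (CFin.fin hn') Disc.fin) (CoordF.pi (CFin.fin hn') Disc.fin)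
        (coordM hn') (cs_mv.comp (CS.smk0 hn' (h2.snd.comp CS.id.sfst))) hL.snd hL.snd
  · intro p ξ
    simp only [AddSubgroup.mem_inf, AddSubgroup.mem_iInf]
    exact and_congr (rz_eq _ _) Iff.rfl

theorem bt_cert : MV (fun (p : {p : Σ a : BTIn, CD a.1 // BTok p.1 ∧ BCert p.1 p.2})
    (R : List (GL (Fin p.1.1.1) ℚ)) => BTCover p.1.1 R) := by
  obtain ⟨C, hC, hC0, hsnd⟩ := snd
  obtain ⟨C', hC', hC0', huni⟩ := uni
  obtain ⟨Ξ, hΞ, hmem⟩ := xi_cs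
  have key : ∀ (a : BTIn) (c : CD a.1), BTok a → BCert a c → ∀ rs bx : List (Mat a.1 ℚ),
      (∀ x ∈ rs, x ∈ Ξ ⟨a, c.2.1.2, C c.1.1⟩) →
      (∀ x ∈ Ξ ⟨a, c.2.1.2, C c.1.1⟩, ∃ r ∈ rs,
        x - r ∈ scal (C' (a.1 + C c.1.1 + a.2.2.2) : ℕ) (Ξ ⟨a, c.2.1.2, C c.1.1⟩)) →
      (∀ x, HtM (C c.1.1) x → x ∈ bx) → CoverL a (out rs bx) := by
    intro a c hok hce rs bx hrs hrs' hbx α hα
    obtain ⟨δ, β, ξ, hδ, hβ, hξ, he⟩ := hsnd a c hok hce α hα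
    obtain ⟨r, hr, hr'⟩ := hrs' ξ ((hmem ⟨a, c.2.1.2, C c.1.1⟩ ξ).mpr hξ)
    obtain ⟨ζ, hζ, hζ'⟩ := mem_scal.mp hr'
    have hxr : XiP a.2.1 a.2.2.1 c.2.1.2 (C c.1.1) r :=
      (hmem ⟨a, c.2.1.2, C c.1.1⟩ r).mp (hrs r hr)
    obtain ⟨u, -, hu', hu⟩ := huni (a.1 + C c.1.1 + a.2.2.2) a.1 (C c.1.1) a.2.2.2 a.2.1 a.2.2.1
      c.2.1.2 ξ r ζ ((Nat.le_add_right _ _).trans (Nat.le_add_right _ _)) (hC0 _)
      ((Nat.le_add_left _ _).trans (Nat.le_add_right _ _)) hok.1 (Nat.le_add_left _ _) hξ hxr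
      ((hmem ⟨a, c.2.1.2, C c.1.1⟩ ζ).mp hζ) hζ'.symm
    obtain ⟨γ, e1, e2, h3, h4⟩ := sound hα hδ hu (xi_nil hξ) (xi_nil hxr) he hu'
    refine ⟨γ, ?_, h3, h4⟩
    rw [e1, e2]
    exact mem_out hr (hbx _ hβ.1) (hbx _ hβ.2)
  have ha : CS (fun p : {p : Σ a : BTIn, CD a.1 // BTok p.1 ∧ BCert p.1 p.2} => p.1.1) :=
    CS.id.val.sfst
  have hc : CS (fun p : {p : Σ a : BTIn, CD a.1 // BTok p.1 ∧ BCert p.1 p.2} => p.1.2) :=
    CS.id.val.ssnd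
  have hn : CS (fun p : {p : Σ a : BTIn, CD a.1 // BTok p.1 ∧ BCert p.1 p.2} => p.1.1.1) :=
    ha.sfst
  have ha2 : CS (fun p : {p : Σ a : BTIn, CD a.1 // BTok p.1 ∧ BCert p.1 p.2} => p.1.1.2) :=
    ha.ssnd
  have hB : CS (fun p : {p : Σ a : BTIn, CD a.1 // BTok p.1 ∧ BCert p.1 p.2} => C p.1.2.1.1) :=
    hC.comp hc.fst.fst
  have hN : CS (fun p : {p : Σ a : BTIn, CD a.1 // BTok p.1 ∧ BCert p.1 p.2} =>
      C' (p.1.1.1 + C p.1.2.1.1 + p.1.1.2.2.2)) :=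
    hC'.comp (CS.add AddF.nat (CS.add AddF.nat hn hB) ha2.snd.snd)
  have hX : CS (fun p : {p : Σ a : BTIn, CD a.1 // BTok p.1 ∧ BCert p.1 p.2} =>
      Ξ ⟨p.1.1, p.1.2.2.1.2, C p.1.2.1.1⟩) := hΞ.comp (CS.smk0 ha (hc.snd.fst.snd.pair hB))
  have h1 := MV.cosets (coordM hn) hX hN (fun _ => hC0' _)
  have h2 := MV.htBox hn hB
  refine MV.cover_of_coverL ha ((h1.prod h2).bind (MV.of_cs (f := fun q => out q.1.2.1 q.1.2.2)
    (cs_out.comp (CS.smk0 (hn.comp CS.id.val.sfst) CS.id.val.ssnd)) fun q _ => ?_))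
  exact key _ _ q.1.1.2.1 q.1.1.2.2 _ _ q.2.1.1 q.2.1.2 q.2.2

namespace BFinAux

/-- A change of coordinates and a certificate. -/
abbrev TC (n : ℕ) : Type := (GL (Fin n) ℚ × GL (Fin n) ℚ) × CD n

theorem enumC_tc : EnumC (fun n : ℕ => TC n) := by
  have hG : Enum (fun n : ℕ => GL (Fin n) ℚ) :=
    Enum.units (coordM CS.id).enum (coordM CS.id).disc (mulM CS.id) oneM
  exact EnumC.prod (hG.prod hG).toC enumC_cd

theorem cs_tc : CS (fun p : Σ a : BTIn, TC a.1 =>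
    (⟨trIn p.1 p.2.1.1 p.2.1.2, p.2.2⟩ : Σ a : BTIn, CD a.1)) := by
  have h2 : CS (fun p : Σ a : BTIn, TC a.1 => p.2) := CS.id.ssnd
  exact CS.smk0 (trIn_cs.comp (CS.smk0 CS.id.sfst h2.fst)) h2.snd

theorem bt_tr : MV (fun (p : {p : Σ a : BTIn, TC a.1 //
      BTok p.1 ∧ BCert (trIn p.1 p.2.1.1 p.2.1.2) p.2.2})
    (R : List (GL (Fin p.1.1.1) ℚ)) => BTCover p.1.1 R) := by
  have hg : CS (fun p : {p : Σ a : BTIn, TC a.1 //
      BTok p.1 ∧ BCert (trIn p.1 p.2.1.1 p.2.1.2) p.2.2} =>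
      (⟨⟨trIn p.1.1 p.1.2.1.1 p.1.2.1.2, p.1.2.2⟩, p.2.1.tr _ _, p.2.2⟩ :
        {p : Σ a : BTIn, CD a.1 // BTok p.1 ∧ BCert p.1 p.2})) :=
    sub0 (cs_tc.comp CS.id.val)
  have h := bt_cert.comp hg
  have h2 : CS (fun p : {p : Σ a : BTIn, TC a.1 //
      BTok p.1 ∧ BCert (trIn p.1 p.2.1.1 p.2.1.2) p.2.2} => p.1.2) := CS.id.val.ssnd
  refine h.bind (MV.of_cs
    (f := fun q => q.1.2.map fun β => q.1.1.1.2.1.2 * β * q.1.1.1.2.1.1⁻¹)
    (cs_tr.comp (CS.smk0 CS.id.val.sfst.val.sfst.sfst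
      ((h2.fst.comp CS.id.val.sfst).pair CS.id.val.ssnd))) ?_)
  intro q _
  exact cover_tr _ _ q.2

end BFinAux

theorem bt_one : MV (fun (a : {a : BTIn // BTok a ∧ BTE a}) (R : List (GL (Fin a.1.1) ℚ)) =>
    BTCover a.1 R) := by
  have ha : CS (fun a : {a : BTIn // BTok a ∧ BTE a} => a.1) := CS.id.val
  have hE : EnumC (fun a : {a : BTIn // BTok a ∧ BTE a} => TC a.1.1) := enumC_tc.comp ha.sfst
  have hQ : CS (fun p : Σ a : {a : BTIn // BTok a ∧ BTE a}, TC a.1.1 =>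
      BCert (trIn p.1.1 p.2.1.1 p.2.1.2) p.2.2) :=
    cert_re.comp (cs_tc.comp (CS.smk0 CS.id.sfst.val CS.id.ssnd))
  refine CS.cases (T := fun a : {a : BTIn // BTok a ∧ BTE a} => Sel (List (GL (Fin a.1.1) ℚ)))
    (empty_re.comp ha) (CS.exC (P := fun a x => BCert (trIn a.1 x.1.1 x.1.2) x.2) hE hQ) ?_ ?_ ?_
  · rintro ⟨a, hok, he⟩ hc
    by_cases h : ∃ α α', TIso ℂ a.2.1 α α'
    · obtain ⟨p, p', w, w', had⟩ := adapt h
      have hb : Coded (trIn a p p') :=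
        trIn_cs.coded (a := ⟨a, p, p'⟩) (coded_sigma.mpr ⟨coded_subtype.mp hc, Tot.tot _⟩)
      have hL := coded_list.mp (coded_prod.mp (coded_prod.mp (coded_sigma.mp hb).2).2).1
      obtain ⟨c, hc1, hc2⟩ := cert_of_adapted (a := trIn a p p')
        (fun L h => coded_prod.mp (hL L h)) (hok.tr p p') (he.tr p p') had
      exact Or.inr ⟨((p, p'), c), coded_prod.mpr ⟨Tot.tot _, coded_cd hc1⟩, hc2⟩
    · exact Or.inl fun α α' h' => h ⟨α, α', h'⟩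
  · exact MV.of_cs CS.nil fun p _ α hα => absurd hα.tiso (p.2 _ _)
  · have h : MV (fun (p : {a : {a : BTIn // BTok a ∧ BTE a} // ∃ x : TC a.1.1, Coded x ∧
        BCert (trIn a.1 x.1.1 x.1.2) x.2}) (x : TC p.1.1.1) =>
        BCert (trIn p.1.1 x.1.1 x.1.2) x.2) :=
      MV.searchC (hE.comp CS.id.val) (hQ.comp (CS.smk0 CS.id.sfst.val CS.id.ssnd))
        (fun _ _ h => h) (fun p _ => p.2)
    have hg : CS (fun q : {q : Σ p : {a : {a : BTIn // BTok a ∧ BTE a} // ∃ x : TC a.1.1, Coded x ∧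
        BCert (trIn a.1 x.1.1 x.1.2) x.2}, TC p.1.1.1 //
          BCert (trIn q.1.1.1 q.2.1.1 q.2.1.2) q.2.2} =>
        (⟨⟨q.1.1.1.1, q.1.2⟩, q.1.1.1.2.1, q.2⟩ : {p : Σ a : BTIn, TC a.1 //
          BTok p.1 ∧ BCert (trIn p.1 p.2.1.1 p.2.1.2) p.2.2})) :=
      sub0 (CS.smk0 CS.id.val.sfst.val.val CS.id.val.ssnd)
    exact h.bind (bt_tr.comp hg)

end Pool.Agent.P.MP_257122_al
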