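import Pool.Agent.P.MP_257122_al.BExt
import Pool.Agent.P.MP_257122_al.BFin

/-!
# The extension is computable

PLAN.  `homA` is a `foldr` of `⊓` over `homLat`; `spA` is the intersection over `b` of the
preimages of `qspan (homA b b')` under the projections (`CS.submoduleComap`, `CS.submoduleInf`;
`CoordF` for `Bool → Mat n ℚ` must be built by hand from `CoordF.pi` on `Bool × Fin n × Fin n`, or
replace the subspace by its transport).  The dimension of a computable subspace is computable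
(`MV.basis`, `MV.elim`, `finrank_span_eq_card`).  `zlat` is `Desc.sub` of the list of coordinate
forms (`CS.toMap`).  `bt_main`: if the two dimensions differ output `[]` (`ext_finrank`); otherwise
search `(d, m, x, x')` (`ext_exists`, `extOk_re`), run `bt_one` on the extended input (`MV.comp`,
`ext_ok`, `ext_bte`), `ext_cover`, `MV.cover_of_coverL`.  A branching rule for `MV` is `CS.cases`
applied to `T = fun a => Sel _`.
-/

set_option synthInstance.maxSize 2048

namespace Pool.Agent.P.MP_257122_al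

open Matrix

namespace BExtCAux

open FMatAux

variable {A : Type} [Rep A] {n d m : A → ℕ}

theorem p1 {T : A → Type} [∀ a, Rep (T a)] : CS (fun p : Σ a, T a => p.1) := FCoreAux.sig1
theorem p2 {T : A → Type} [∀ a, Rep (T a)] : CS (fun p : Σ a, T a => p.2) := FCoreAux.sig2

theorem cV (hn : CS n) : CoordF (fun a => Fin (n a) → ℚ) := CoordF.pi (CFin.fin hn) Disc.fin

theorem cM (hn : CS n) : CoordF (fun a => Mat (n a) ℚ) :=
  CoordF.matrix (CFin.fin hn) Disc.fin (CFin.fin hn) Disc.fin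

theorem cB (hn : CS n) : CoordF (fun a => Bool → Mat (n a) ℚ) := by
  refine MV.bind (CoordF.matrix (CFin.prod CFin.bool (CFin.fin hn)) (Disc.prod Disc.bool Disc.fin)
    (CFin.fin hn) Disc.fin) ?_
  refine MV.of_cs (f := fun q : Ext fun a => Matrix (Bool × Fin (n a)) (Fin (n a)) ℚ => ⟨q.1.2.1,
    (q.1.2.2.1 ∘ₗ ⟨⟨fun M p => M p.1 p.2, fun _ _ => rfl⟩, fun _ _ => rfl⟩,
      ⟨⟨fun f i j => f (i, j), fun _ _ => rfl⟩, fun _ _ => rfl⟩ ∘ₗ q.1.2.2.2)⟩)
    (CS.sigmaIntro e_n (CS.pair (CS.linComp e_f (CS.linIntro ?_)) (CS.linComp (CS.linIntro ?_) e_g)))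
    fun q _ => ⟨?_, ?_⟩
  · exact CS.lam (ap2 (p2 (T := fun q : Ext fun a => Matrix (Bool × Fin (n a)) (Fin (n a)) ℚ =>
      Bool → Fin (n q.1.1) → Fin (n q.1.1) → ℚ)))
  · exact lam2 (ap (p2 (T := fun q : Ext fun a => Matrix (Bool × Fin (n a)) (Fin (n a)) ℚ =>
      Bool × Fin (n q.1.1) → Fin (n q.1.1) → ℚ)))
  · exact LinearMap.ext fun M => funext fun i => funext fun j =>
      congrFun (e_gf q fun p => M p.1 p.2) (i, j)
  · exact LinearMap.ext fun v => e_fg q v

theorem cs_bil (hn : CS n) : CS (fun a => (Matrix.mulVecBilin ℚ ℚ :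
    Mat (n a) ℚ →ₗ[ℚ] (Fin (n a) → ℚ) →ₗ[ℚ] (Fin (n a) → ℚ))) :=
  CS.linIntro (CS.mulVecLin (CFin.fin (hn.comp p1)) AddF.rat ZeroF.rat MulF.rat p2)

theorem cs_homA {Ls : ∀ a, List (LPair (n a))} (hn : CS n) (h : CS Ls) (b b' : Bool) :
    CS (fun a => homA (Ls a) b b') := by
  have k := hn.comp (p1 (T := fun a => LPair (n a)))
  refine (CS.infList (F := fun a L => homLat (Matrix.mulVecBilin ℚ ℚ) (cond b L.2 L.1)
    (cond b' L.2 L.1)) h (CS.homLat (cV k) (cV k) (cM k) (cs_bil k)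
    (CS.cond (b := fun _ => b) CS.const p2.snd p2.fst)
    (CS.cond (b := fun _ => b') CS.const p2.snd p2.fst))).congr fun a _ => ?_
  ext x
  simp only [AddSubgroup.mem_iInf]
  rfl

theorem cs_spA {Ls : ∀ a, List (LPair (n a))} (hn : CS n) (h : CS Ls) (b : Bool) :
    CS (fun a => spA (Ls a) b) := by
  have k : ∀ c : Bool, CS (fun a => (qspan (homA (Ls a) c b)).comap
      (LinearMap.proj c : (Bool → Mat (n a) ℚ) →ₗ[ℚ] Mat (n a) ℚ)) := fun c =>
    CS.submoduleComap (cM hn) (cB hn) (CS.linIntro (CS.app (i := fun _ => c)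
      (p2 (T := fun a => Bool → Mat (n a) ℚ)) CS.const))
      (CS.qspan (cM hn) (cs_homA hn h c b))
  refine (CS.submoduleInf (cB hn) (k false) (k true)).congr fun a _ => ?_
  ext x
  simp [spA, Submodule.mem_pi]

theorem cs_finrank {V : A → Type} [∀ a, Rep (V a)] [∀ a, AddCommGroup (V a)] [∀ a, Module ℚ (V a)]
    {U : ∀ a, Submodule ℚ (V a)} (hV : CoordF V) (h : CS U) :
    CS (fun a => Module.finrank ℚ (U a)) := by
  refine (MV.basis hV h).elim ((CS.sfst (FOpsAux.v2 (β := fun a => Σ k : ℕ, Fin k → V a))).congr ?_)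
  rintro ⟨⟨a, k, v⟩, h1, h2⟩ -
  exact ((finrank_span_eq_card h1).trans (Fintype.card_fin k)).symm.trans
    (congrArg (fun S : Submodule ℚ (V a) => Module.finrank ℚ S) h2)

theorem cs_xbas {W : ∀ a, Submodule ℚ (Bool → Mat (n a) ℚ)} {x : ∀ a, XF (n a) (d a)} (hn : CS n)
    (hd : CS d) (hm : CS m) (hW : CS W) (hx : CS x) : CS (fun a => XBas (m a) (W a) (x a)) := by
  have key : CS (fun u : Σ n : ℕ, Σ d : ℕ, ℕ × XF n d => ∀ c b, ZM u.2.2.1 (u.2.2.2 c b)) := by
    aesop (config := { terminal := true, enableSimp := false, maxRuleApplications := 3000, maxRuleApplicationDepth := 70, assumptionTransparency := .reducible }) (rule_sets := [-default, -builtin, Restrict]) (erase CS.mapp, CS.mlam, CS.mrow) (add safe 5 (by with_reducible apply CS.zm))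
  have key' : CS (fun u : Σ n : ℕ, Σ d : ℕ, XF n d × XF n d =>
      ∀ c c', ∑ b, mdot (u.2.2.1 c b) (u.2.2.2 c' b) = if c = c' then 1 else 0) := by
    aesop (config := { terminal := true, enableSimp := false, maxRuleApplications := 3000, maxRuleApplicationDepth := 70, assumptionTransparency := .reducible }) (rule_sets := [-default, -builtin, Restrict]) (erase CS.mapp, CS.mlam, CS.mrow) (add safe 5 (by with_reducible apply CS.mdot))
  have k := p1 (T := fun a => XF (n a) (d a))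
  refine CS.and (CS.eq (Disc.submodule (cB hn)) ((CS.span (CS.ofFn hd hx)).congr fun a _ => ?_) hW)
    (CS.and (key.comp (CS.smk0 hn (CS.smk _ _ hd (hm.pair hx))))
      (CS.ex (Enum.pi (β := fun a _ => Bool → Mat (n a) ℚ) (CFin.fin hd) Disc.fin
        (cB (hn.comp p1)).enum) (CS.and
        (key.comp (CS.smk0 (hn.comp k) (CS.smk _ _ (hd.comp k) ((hm.comp k).pair p2))))
        (key'.comp (CS.smk0 (hn.comp k) (CS.smk _ _ (hd.comp k) (p2.pair (hx.comp k))))))))
  congr 1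
  ext y
  simp [List.mem_ofFn]

theorem cs_eL (hn : CS n) (hd : CS d) : CS (fun a => eL (n a) (d a)) := by
  have key : CS (fun u : ℕ × ℕ => eL u.1 u.2) := by
    unfold eL
    aesop (config := { terminal := true, enableSimp := false, maxRuleApplications := 3000, maxRuleApplicationDepth := 70, assumptionTransparency := .reducible }) (rule_sets := [-default, -builtin, Restrict]) (erase CS.mapp, CS.mlam, CS.mrow)
  exact key.comp (hn.pair hd)

theorem cs_eR (hn : CS n) (hd : CS d) : CS (fun a => eR (n a) (d a)) := by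
  have key : CS (fun u : ℕ × ℕ => eR u.1 u.2) := by
    unfold eR
    aesop (config := { terminal := true, enableSimp := false, maxRuleApplications := 3000, maxRuleApplicationDepth := 70, assumptionTransparency := .reducible }) (rule_sets := [-default, -builtin, Restrict]) (erase CS.mapp, CS.mlam, CS.mrow)
  exact key.comp (hn.pair hd)

theorem cs_zlat (hn : CS n) (hm : CS m) : CS (fun a => zlat (m a) (n a)) := by
  have v := CS.val (CS.id (A := {a // 0 < m a}))
  refine CS.cases (P := fun a => 0 < m a) (Q := fun a => m a = 0) (CS.lt LtF.nat CS.const hm)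
    (CS.eq Disc.nat hm CS.const) (fun a _ => (Nat.eq_zero_or_pos _).symm)
    (CS.zlat (CFin.fin (hn.comp v)) (hm.comp v) fun a => a.2) (CS.addTop.congr fun a _ => ?_)
  refine ((AddSubgroup.eq_top_iff' _).2 fun x => ?_).symm
  exact fun i p _ _ => (dvd_zero p).trans a.2.symm.dvd

theorem cs_iota {x : ∀ a, XF (n a) (d a)} {b : A → Bool} {j : ∀ a, Fin (n a)} (hn : CS n)
    (hd : CS d) (hx : CS x) (hb : CS b) (hj : CS j) : CS (fun a => iota (x a) (b a) (j a)) := by
  have k := p1 (T := fun a => Fin (n a) × Fin (d a))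
  have q := p2 (T := fun a => Fin (n a) × Fin (d a))
  have r := CS.mapp (CS.app (CS.app (hx.comp k) q.snd) (hb.comp k)) q.fst (hj.comp k)
  have key : CS (fun a => (Matrix.of fun i c => x a c (b a) i (j a) :
      Matrix (Fin (n a)) (Fin (d a)) ℚ)) := CS.mlam r
  exact CS.mmul (CFin.fin hd) AddF.rat ZeroF.rat MulF.rat
    (CS.mmul (CFin.fin hn) AddF.rat ZeroF.rat MulF.rat (cs_eL hn hd) key) (cs_eR hn hd).transpose

theorem cs_full {L : ∀ a, LPair (n a)} (hn : CS n) (hm : CS m) (h : CS L) :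
    CS (fun a => (∀ v ∈ (L a).1, ∀ i, v i ∈ Zinv (m a)) ∧ (∀ v ∈ (L a).2, ∀ i, v i ∈ Zinv (m a)) ∧
      ∀ j, (m a : ℚ) • (Pi.single j 1 : Fin (n a) → ℚ) ∈ (L a).1 ∧
        (m a : ℚ) • (Pi.single j 1 : Fin (n a) → ℚ) ∈ (L a).2) := by
  have k := p1 (T := fun a => Fin (n a))
  have e : CS (fun p : Σ a, Fin (n a) => (m p.1 : ℚ) • (Pi.single p.2 1 : Fin (n p.1) → ℚ)) :=
    CS.smul (cV (hn.comp k)).smul (CS.natCast AddF.rat ZeroF.rat OneF.rat (hm.comp k))
      (CS.piSingle Disc.fin Haus.fin ZeroF.rat p2 CS.const)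
  exact (CS.globInt (CFin.fin hn) Disc.fin hm h.fst).and
    ((CS.globInt (CFin.fin hn) Disc.fin hm h.snd).and (CS.all (CFin.fin hn)
      ((CS.memAdd (h.comp k).fst e).and (CS.memAdd (h.comp k).snd e))))

theorem cs_tE {x y : ∀ a, Mat (n a) ℚ} (hx : CS x) (hy : CS y) :
    CS (fun a => (⟨tE, toT (x a), toT (y a)⟩ : TPair (n a))) :=
  CS.smk (β := fun a σ => Tn (n a) σ ℚ × Tn (n a) σ ℚ) (fun _ => tE) _ CS.const
    (hx.toT.pair hy.toT)

theorem cs_up {t : ∀ a, TPair (n a)} (hn : CS n) (hd : CS d) (h : CS t) :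
    CS (fun a => (⟨(t a).1, rho (t a).1.get (eL (n a) (d a)) (eL (n a) (d a))ᵀ *ᵥ (t a).2.1,
      rho (t a).1.get (eL (n a) (d a)) (eL (n a) (d a))ᵀ *ᵥ (t a).2.2⟩ : TPair (n a + d a))) := by
  have hl := CFin.fin h.sfst.length
  have k := CS.rho hl OneF.rat MulF.rat (s := fun a => (t a).1.get)
    (CS.lam (CS.get (h.sfst.comp p1) p2)) (cs_eL hn hd) (cs_eL hn hd).transpose
  have c := CFin.pi hl Disc.fin (CFin.fin hn)
  exact CS.smk (β := fun a σ => Tn (n a + d a) σ ℚ × Tn (n a + d a) σ ℚ) (fun a => (t a).1) _ h.sfst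
    ((CS.mulVec c AddF.rat ZeroF.rat MulF.rat k h.ssnd.fst).pair
      (CS.mulVec c AddF.rat ZeroF.rat MulF.rat k h.ssnd.snd))

theorem cs_ext {a : A → BTIn} {x x' : ∀ b, XF (a b).1 (d b)} (ha : CS a) (hd : CS d) (hm : CS m)
    (hx : CS x) (hx' : CS x') : CS (fun b => extIn (a b) (d b) (m b) (x b) (x' b)) := by
  have hn := ha.sfst
  have hs := CS.add AddF.nat hn hd
  have e := CS.mmul (CFin.fin hn) AddF.rat ZeroF.rat MulF.rat (cs_eL hn hd) (cs_eL hn hd).transpose
  have k1 := p1 (T := fun _ : A => Bool)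
  have k2 := p1 (T := fun p : Σ _ : A, Bool => Fin (a p.1).1)
  have k3 := p1 (T := fun b => TPair (a b).1)
  have k4 := p1 (T := fun b => LPair (a b).1)
  have l := CS.mulVecLin (CFin.fin (hn.comp k4)) AddF.rat ZeroF.rat MulF.rat
    (cs_eL (hn.comp k4) (hd.comp k4))
  have t : CS (fun p : Σ _ : A, Bool => (List.finRange (a p.1).1).map fun j =>
      (⟨tE, toT (iota (x p.1) p.2 j), toT (iota (x' p.1) p.2 j)⟩ : TPair ((a p.1).1 + d p.1))) :=
    CS.map (CS.lam (cs_tE
      (cs_iota ((hn.comp k1).comp k2) ((hd.comp k1).comp k2) ((hx.comp k1).comp k2) (p2.comp k2) p2)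
      (cs_iota ((hn.comp k1).comp k2) ((hd.comp k1).comp k2) ((hx'.comp k1).comp k2) (p2.comp k2)
        p2))) (CS.finRange (hn.comp k1))
  exact CS.smk0 hs (((cs_tE e e).cons (CS.append (CS.flatMap (CS.lam t) CS.const)
    (CS.map (CS.lam (cs_up (hn.comp k3) (hd.comp k3) p2)) ha.ssnd.fst))).pair
    ((((cs_zlat hs hm).pair (cs_zlat hs hm)).cons (CS.map (CS.lam
      ((CS.lmap (cV (hn.comp k4)) (cV (hs.comp k4)) l p2.fst).pair
        (CS.lmap (cV (hn.comp k4)) (cV (hs.comp k4)) l p2.snd))) ha.ssnd.snd.fst)).pair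
      ha.ssnd.snd.snd))

theorem cs_down {R : ∀ a, List (GL (Fin (n a + d a)) ℚ)} (hn : CS n) (hd : CS d) (h : CS R) :
    CS (fun a => (R a).map fun β => ((eL (n a) (d a))ᵀ * β.val * eL (n a) (d a),
      (eL (n a) (d a))ᵀ * β.inv * eL (n a) (d a))) := by
  have k := p1 (T := fun a => GL (Fin (n a + d a)) ℚ)
  have c := CFin.fin ((CS.add AddF.nat hn hd).comp k)
  have e := (cs_eL hn hd).comp k
  exact CS.map (CS.lam ((CS.mmul c AddF.rat ZeroF.rat MulF.rat
    (CS.mmul c AddF.rat ZeroF.rat MulF.rat e.transpose p2.unitsVal) e).pair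
    (CS.mmul c AddF.rat ZeroF.rat MulF.rat
      (CS.mmul c AddF.rat ZeroF.rat MulF.rat e.transpose p2.unitsInv) e))) h

end BExtCAux

open BExtCAux

theorem finrank_spA_cs (b : Bool) : CS (fun a : BTIn => Module.finrank ℚ (spA a.2.2.1 b)) :=
  cs_finrank (cB p1) (cs_spA p1 p2.snd.fst b)

theorem extOk_re : CS (fun p : Σ a : BTIn, Σ d : ℕ, ℕ × XF a.1 d × XF a.1 d =>
    ExtOk p.1 p.2.1 p.2.2.1 p.2.2.2.1 p.2.2.2.2) := by
  have ha := p1 (T := fun a : BTIn => Σ d : ℕ, ℕ × XF a.1 d × XF a.1 d)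
  have hb := p2 (T := fun a : BTIn => Σ d : ℕ, ℕ × XF a.1 d × XF a.1 d)
  have hn := ha.sfst
  have hL := ha.ssnd.snd.fst
  have hm := hb.ssnd.fst
  exact (CS.lt LtF.nat CS.const hm).and
    ((cs_xbas hn hb.sfst hm (cs_spA hn hL false) hb.ssnd.snd.fst).and
      ((cs_xbas hn hb.sfst hm (cs_spA hn hL true) hb.ssnd.snd.snd).and
        (CS.exMem hL (cs_full (hn.comp p1) (hm.comp p1) p2))))

theorem extIn_cs : CS (fun p : Σ a : BTIn, Σ d : ℕ, ℕ × XF a.1 d × XF a.1 d =>
    extIn p.1 p.2.1 p.2.2.1 p.2.2.2.1 p.2.2.2.2) :=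
  cs_ext p1 p2.sfst p2.ssnd.fst p2.ssnd.snd.fst p2.ssnd.snd.snd

theorem bt_main :
    MV (fun (a : {a : BTIn // BTok a}) (R : List (GL (Fin a.1.1) ℚ)) => BTCover a.1 R) := by
  have v := CS.val (CS.id (A := {a : BTIn // BTok a}))
  have f0 := (finrank_spA_cs false).comp v
  have f1 := (finrank_spA_cs true).comp v
  refine CS.cases (T := fun a : {a : BTIn // BTok a} => Sel (List (GL (Fin a.1.1) ℚ)))
    (CS.eq Disc.nat f0 f1) (CS.ne Haus.nat f0 f1) (fun a _ => em _) ?_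
    (MV.of_cs CS.nil fun a _ α hα => (a.2 (ext_finrank hα)).elim)
  let B : Type := {a : {a : BTIn // BTok a} //
    Module.finrank ℚ (spA a.1.2.2.1 false) = Module.finrank ℚ (spA a.1.2.2.1 true)}
  have w : CS (fun b : B => b.1.1) := CS.id.val.val
  let T : B → Type := fun b => Σ d : ℕ, ℕ × XF b.1.1.1 d × XF b.1.1.1 d
  have hX : Enum (fun p : Σ _ : B, ℕ => XF p.1.1.1.1 p.2) :=
    Enum.pi (β := fun (p : Σ _ : B, ℕ) _ => Bool → Mat p.1.1.1.1 ℚ) (CFin.fin p2) Disc.fin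
      (cB ((w.sfst.comp p1).comp p1)).enum
  have hs : MV (fun (b : B) (t : T b) => ExtOk b.1.1 t.1 t.2.1 t.2.2.1 t.2.2.2) :=
    MV.search (Enum.sigma Enum.nat (Enum.nat.prod (hX.prod hX)))
      (extOk_re.comp (CS.smk0 (w.comp p1) p2)) (fun _ _ h => h) fun b _ => by
        obtain ⟨d, m, x, x', h⟩ := ext_exists b.1.2 b.2
        exact ⟨⟨d, m, x, x'⟩, h⟩
  refine hs.bind (Q' := fun (b : B) (R : List (GL (Fin b.1.1.1) ℚ)) => BTCover b.1.1 R) ?_
  let C : Type := {p : Σ b, T b // ExtOk p.1.1.1 p.2.1 p.2.2.1 p.2.2.2.1 p.2.2.2.2}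
  have u : CS (fun c : C => c.1.1.1.1) := w.comp FOpsAux.v1
  have t : CS (fun c : C => c.1.2) := FOpsAux.v2
  have h1 := bt_one.comp (CS.submk (h := fun c : C => ⟨ext_ok c.1.1.1.2 c.2, ext_bte c.2⟩)
    (extIn_cs.comp (CS.smk0 u t)))
  exact MV.cover_of_coverL u (h1.bind (MV.of_cs
    (cs_down (u.sfst.comp FOpsAux.v1) (t.sfst.comp FOpsAux.v1) FOpsAux.v2)
    fun q _ => ext_cover q.1.1.2 q.2))

end Pool.Agent.P.MP_257122_al
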