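import Pool.Agent.P.MP_257122_al.BRho

/-!
# Descent from the complex field

PLAN.  `rat_of_fixed`: let `K = algebraicClosure ℚ ℂ` and `B` a transcendence basis of `ℂ` over
`K`; an automorphism of the ring `MvPolynomial B K` extends to `ℂ` by `IsAlgClosure.equivOfEquiv`.
If `z` is algebraic and irrational, move it by an element of the Galois group of `K` acting on
coefficients (`IsGalois`, or `minpoly` and `Normal`); if `z` is transcendental take `B` containing
`z` and the automorphism `z ↦ -z` or `z ↦ z + 1`.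
`gal_descent`: induction on the number of nonzero coordinates of `v ∈ W`, or: take the basis of
`W` in reduced form (for a set `S` of coordinates such that restriction to `S` is a bijection
from `W`, the preimage of a unit vector is fixed by all automorphisms).
`lin_span`: `Submodule.span_induction` on the statement for all multiples `c • v`.
`cx_inf`: expand in a basis of `F` over `K` (`j.toAlgebra`, `Module.Basis.ofVectorSpace`) and
apply `lin_span` to the coordinate functions.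
-/

namespace Pool.Agent.P.MP_257122_al

open Matrix

namespace BGalAux

theorem extend {K : Type} [Field K] [Algebra K ℂ] {s : Set ℂ}
    (hs : IsTranscendenceBasis K ((↑) : s → ℂ)) (φ : MvPolynomial s K ≃+* MvPolynomial s K) :
    ∃ τ : ℂ ≃+* ℂ, ∀ p, τ (MvPolynomial.aeval ((↑) : s → ℂ) p) =
      MvPolynomial.aeval ((↑) : s → ℂ) (φ p) := by
  letI := IsAlgClosed.isAlgClosure_of_transcendence_basis _ hs
  let e := hs.1.aevalEquiv.toRingEquiv
  refine ⟨IsAlgClosure.equivOfEquiv ℂ ℂ ((e.symm.trans φ).trans e), fun p => ?_⟩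
  rw [← hs.1.algebraMap_aevalEquiv p, ← hs.1.algebraMap_aevalEquiv (φ p),
    IsAlgClosure.equivOfEquiv_algebraMap]
  have h1 : e.symm (hs.1.aevalEquiv p) = p := e.symm_apply_apply p
  rw [RingEquiv.trans_apply, RingEquiv.trans_apply, h1]
  rfl

theorem alg_of_fixed {z : ℂ} (h : ∀ τ : ℂ ≃+* ℂ, τ z = z) : IsAlgebraic ℚ z := by
  by_contra hz
  have h1 : AlgebraicIndepOn ℚ id ({z} : Set ℂ) := by
    refine algebraicIndependent_unique_type_iff.2 ?_
    exact hz
  obtain ⟨s, h2, hs⟩ := exists_isTranscendenceBasis_superset h1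
  have hzs : z ∈ s := h2 rfl
  let f : MvPolynomial s ℚ →ₐ[ℚ] MvPolynomial s ℚ := MvPolynomial.aeval fun i => -MvPolynomial.X i
  have hf : f.comp f = AlgHom.id ℚ _ := by
    ext i
    simp [f]
  obtain ⟨τ, hτ⟩ := extend hs (AlgEquiv.ofAlgHom f f hf hf).toRingEquiv
  have h3 := hτ (MvPolynomial.X ⟨z, hzs⟩)
  have h4 : (AlgEquiv.ofAlgHom f f hf hf).toRingEquiv (MvPolynomial.X ⟨z, hzs⟩) =
      -MvPolynomial.X ⟨z, hzs⟩ := by
    show f _ = _
    simp [f]
  rw [h4, map_neg, MvPolynomial.aeval_X, h τ] at h3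
  have h5 : z = 0 := by linear_combination (1 / 2 : ℂ) * h3
  exact hz (h5 ▸ isAlgebraic_zero)

end BGalAux

theorem rat_of_fixed {z : ℂ} (h : ∀ τ : ℂ ≃+* ℂ, τ z = z) : ∃ q : ℚ, (q : ℂ) = z := by
  have h1 : z ∈ algebraicClosure ℚ ℂ := mem_algebraicClosure_iff.2 (BGalAux.alg_of_fixed h)
  obtain ⟨s, hs⟩ := exists_isTranscendenceBasis (algebraicClosure ℚ ℂ) ℂ
  haveI : IsAlgClosure ℚ (algebraicClosure ℚ ℂ) := algebraicClosure.isAlgClosure ℚ ℂ
  haveI : IsGalois ℚ (algebraicClosure ℚ ℂ) := IsAlgClosure.isGalois ℚ _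
  have h2 : ∀ σ : algebraicClosure ℚ ℂ ≃ₐ[ℚ] algebraicClosure ℚ ℂ, σ ⟨z, h1⟩ = ⟨z, h1⟩ := by
    intro σ
    obtain ⟨τ, hτ⟩ := BGalAux.extend hs (MvPolynomial.mapEquiv s σ.toRingEquiv)
    have h3 := hτ (MvPolynomial.C ⟨z, h1⟩)
    rw [MvPolynomial.mapEquiv_apply, MvPolynomial.map_C, MvPolynomial.aeval_C,
      MvPolynomial.aeval_C] at h3
    refine Subtype.ext ?_
    exact h3.symm.trans (h τ)
  obtain ⟨q, hq⟩ := (InfiniteGalois.mem_range_algebraMap_iff_fixed _).2 h2
  exact ⟨q, by simpa using congrArg Subtype.val hq⟩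

theorem ratV_of_fixed {ι : Type} {v : ι → ℂ} (h : ∀ τ : ℂ ≃+* ℂ, (fun i => τ (v i)) = v) :
    ∃ x : ι → ℚ, castV ℂ x = v := by
  choose x hx using fun i => rat_of_fixed (z := v i) fun τ => congrFun (h τ) i
  exact ⟨x, funext hx⟩

namespace BGalAux

open Classical in
theorem small {ι : Type} [Fintype ι] {W : Submodule ℂ (ι → ℂ)} (h : GalSub W) (n : ℕ) :
    ∀ v ∈ W, v ≠ 0 → (Finset.univ.filter fun i => v i ≠ 0).card ≤ n →
      ∃ x : ι → ℚ, castV ℂ x ∈ W ∧ (∃ i, x i = 1) ∧ ∀ i, v i = 0 → x i = 0 := by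
  induction n with
  | zero =>
    intro v _ hne hc
    obtain ⟨i, hi⟩ := Function.ne_iff.1 hne
    have h1 : 0 < (Finset.univ.filter fun i => v i ≠ 0).card :=
      Finset.card_pos.2 ⟨i, Finset.mem_filter.2 ⟨Finset.mem_univ i, hi⟩⟩
    omega
  | succ n ih =>
    intro v hv hne hc
    obtain ⟨i, hi⟩ := Function.ne_iff.1 hne
    have hi' : v i ≠ 0 := hi
    have hu : (v i)⁻¹ • v ∈ W := W.smul_mem _ hv
    have hui : ((v i)⁻¹ • v) i = 1 := by simp [hi']
    have hu0 : ∀ k, v k = 0 → ((v i)⁻¹ • v) k = 0 := fun k hk => by simp [hk]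
    generalize (v i)⁻¹ • v = u at hu hui hu0
    by_cases hfix : ∀ τ : ℂ ≃+* ℂ, (fun k => τ (u k)) = u
    · obtain ⟨x, rfl⟩ := ratV_of_fixed hfix
      refine ⟨x, hu, ⟨i, ?_⟩, fun k hk => ?_⟩
      · have h1 : (x i : ℂ) = 1 := hui
        exact_mod_cast h1
      · have h1 : (x k : ℂ) = 0 := hu0 k hk
        exact_mod_cast h1
    · obtain ⟨τ, hτ⟩ := not_forall.1 hfix
      have h0 : ∀ k, v k = 0 → ((fun k => τ (u k)) - u) k = 0 := fun k hk => by
        simp [hu0 k hk]
      have h1 : (Finset.univ.filter fun k => ((fun k => τ (u k)) - u) k ≠ 0) ⊂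
          Finset.univ.filter fun k => v k ≠ 0 := by
        refine (Finset.ssubset_iff_of_subset fun k hk => ?_).2 ⟨i, ?_, ?_⟩
        · exact Finset.mem_filter.2 ⟨Finset.mem_univ k, mt (h0 k) (Finset.mem_filter.1 hk).2⟩
        · exact Finset.mem_filter.2 ⟨Finset.mem_univ i, hi'⟩
        · simp [hui]
      have h2 := Finset.card_lt_card h1
      obtain ⟨x, h3, h4, h5⟩ := ih _ (W.sub_mem (h τ u hu) hu) (sub_ne_zero.2 hτ) (by omega)
      exact ⟨x, h3, h4, fun k hk => h5 k (h0 k hk)⟩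

open Classical in
theorem desc {ι : Type} [Fintype ι] {W : Submodule ℂ (ι → ℂ)} (h : GalSub W) (n : ℕ) :
    ∀ v ∈ W, (Finset.univ.filter fun i => v i ≠ 0).card < n →
      v ∈ Submodule.span ℂ (castV ℂ '' {v | castV ℂ v ∈ W}) := by
  induction n with
  | zero =>
    intro v _ hc
    omega
  | succ n ih =>
    intro v hv hc
    by_cases hne : v = 0
    · rw [hne]
      exact zero_mem _
    obtain ⟨x, h1, ⟨i, hi⟩, h2⟩ := small h _ v hv hne le_rfl
    have h3 : (Finset.univ.filter fun k => (v - v i • castV ℂ x) k ≠ 0) ⊂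
        Finset.univ.filter fun k => v k ≠ 0 := by
      refine (Finset.ssubset_iff_of_subset fun k hk => ?_).2 ⟨i, ?_, ?_⟩
      · refine Finset.mem_filter.2 ⟨Finset.mem_univ k, fun hk0 => (Finset.mem_filter.1 hk).2 ?_⟩
        simp [castV, hk0, h2 k hk0]
      · refine Finset.mem_filter.2 ⟨Finset.mem_univ i, fun hk0 => ?_⟩
        rw [h2 i hk0] at hi
        exact zero_ne_one hi
      · simp [castV, hi]
    have h4 := Finset.card_lt_card h3
    have h5 := ih _ (W.sub_mem hv (W.smul_mem (v i) h1)) (by omega)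
    have h6 : v i • castV ℂ x ∈ Submodule.span ℂ (castV ℂ '' {v | castV ℂ v ∈ W}) :=
      Submodule.smul_mem _ _ (Submodule.subset_span ⟨x, h1, rfl⟩)
    have h7 := add_mem h5 h6
    rwa [sub_add_cancel] at h7

/-- arrays as matrices -/
def mat (n : ℕ) (F : Type) [Field F] : (Fin n × Fin n → F) →ₗ[F] Mat n F where
  toFun v := Matrix.of fun i k => v (i, k)
  map_add' _ _ := rfl
  map_smul' _ _ := rfl

end BGalAux

theorem gal_descent {ι : Type} [Fintype ι] {W : Submodule ℂ (ι → ℂ)} (h : GalSub W) :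
    W = Submodule.span ℂ (castV ℂ '' {v | castV ℂ v ∈ W}) := by
  refine le_antisymm (fun v hv => BGalAux.desc h _ v hv (Nat.lt_succ_self _)) ?_
  refine Submodule.span_le.2 ?_
  rintro _ ⟨x, hx, rfl⟩
  exact hx

theorem gal_descentM {n : ℕ} {W : Submodule ℂ (Mat n ℂ)}
    (h : ∀ τ : ℂ ≃+* ℂ, ∀ x ∈ W, x.map τ ∈ W) : W = CSpan {x | castM ℂ x ∈ W} := by
  refine le_antisymm (fun x hx => ?_) (Submodule.span_le.2 ?_)
  · have h1 : GalSub (W.comap (BGalAux.mat n ℂ)) := fun τ v hv => h τ _ hv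
    have h2 : (fun p : Fin n × Fin n => x p.1 p.2) ∈ W.comap (BGalAux.mat n ℂ) := hx
    rw [gal_descent h1] at h2
    have h3 := Submodule.mem_map_of_mem (f := BGalAux.mat n ℂ) h2
    rw [Submodule.map_span] at h3
    refine Submodule.span_mono ?_ h3
    rintro _ ⟨_, ⟨y, hy, rfl⟩, rfl⟩
    exact ⟨BGalAux.mat n ℚ y, hy, rfl⟩
  · rintro _ ⟨x, hx, rfl⟩
    exact hx

theorem cspan_map {n : ℕ} (S : Set (Mat n ℚ)) (τ : ℂ ≃+* ℂ) {x : Mat n ℂ} (hx : x ∈ CSpan S) :
    x.map τ ∈ CSpan S := by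
  induction hx using Submodule.span_induction with
  | mem y hy =>
    obtain ⟨y, hy, rfl⟩ := hy
    rw [map_castM]
    exact Submodule.subset_span ⟨y, hy, rfl⟩
  | zero =>
    rw [Matrix.map_zero _ (map_zero τ)]
    exact zero_mem _
  | add y z _ _ h1 h2 =>
    rw [Matrix.map_add _ (map_add τ)]
    exact add_mem h1 h2
  | smul c y _ h1 =>
    have h2 : (c • y).map τ = τ c • y.map τ := by
      ext i k
      simp
    rw [h2]
    exact Submodule.smul_mem _ _ h1

namespace BGalAux

variable {K F ι : Type} [Field K] [Field F] (j : K →+* F)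

theorem retr : ∃ r : F →+ K, (∀ k, r (j k) = k) ∧ ∀ z k, r (z * j k) = r z * k := by
  letI := j.toAlgebra
  obtain ⟨g, hg⟩ := (Algebra.linearMap K F).exists_leftInverse_of_injective
    (LinearMap.ker_eq_bot.2 j.injective)
  refine ⟨g.toAddMonoidHom, fun k => LinearMap.congr_fun hg k, fun z k => ?_⟩
  have h1 := g.map_smul k z
  rw [Algebra.smul_def, smul_eq_mul, mul_comm, mul_comm k] at h1
  exact h1

theorem lspan (r : F →+ K) (hr : ∀ z k, r (z * j k) = r z * k) (S : Set (ι → K)) {v : ι → F}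
    (hv : v ∈ Submodule.span F ((fun x i => j (x i)) '' S)) (c : F) :
    (fun i => r (c * v i)) ∈ Submodule.span K S := by
  induction hv using Submodule.span_induction generalizing c with
  | mem y hy =>
    obtain ⟨y, hy, rfl⟩ := hy
    have h1 : (fun i => r (c * j (y i))) = r c • y := funext fun i => hr c (y i)
    rw [h1]
    exact Submodule.smul_mem _ _ (Submodule.subset_span hy)
  | zero =>
    have h1 : (fun i => r (c * (0 : ι → F) i)) = 0 := funext fun i => by simp
    rw [h1]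
    exact zero_mem _
  | add y z _ _ h1 h2 =>
    have h3 : (fun i => r (c * (y + z) i)) = (fun i => r (c * y i)) + fun i => r (c * z i) :=
      funext fun i => by simp [mul_add]
    rw [h3]
    exact add_mem (h1 c) (h2 c)
  | smul d y _ h1 =>
    have h3 : (fun i => r (c * (d • y) i)) = fun i => r (c * d * y i) :=
      funext fun i => by simp [mul_assoc]
    rw [h3]
    exact h1 (c * d)

theorem of_map (S : Set (ι → K)) {x : ι → K}
    (hx : (fun i => j (x i)) ∈ Submodule.span F ((fun x i => j (x i)) '' S)) :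
    x ∈ Submodule.span K S := by
  obtain ⟨r, h1, h2⟩ := retr j
  have h3 := lspan j r h2 S hx 1
  simpa [h1] using h3

/-- matrices as arrays -/
def arr (n : ℕ) (F : Type) [Field F] : Mat n F →ₗ[F] (Fin n × Fin n → F) where
  toFun x p := x p.1 p.2
  map_add' _ _ := rfl
  map_smul' _ _ := rfl

end BGalAux

theorem mem_span_of_cspan {n : ℕ} {S : Set (Mat n ℚ)} {x : Mat n ℚ} (hx : castM ℂ x ∈ CSpan S) :
    x ∈ Submodule.span ℚ S := by
  have h1 := Submodule.mem_map_of_mem (f := BGalAux.arr n ℂ) hx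
  rw [CSpan, Submodule.map_span] at h1
  have h2 : BGalAux.arr n ℚ x ∈ Submodule.span ℚ (BGalAux.arr n ℚ '' S) := by
    refine BGalAux.of_map (Rat.castHom ℂ) _ (Submodule.span_mono ?_ h1)
    rintro _ ⟨_, ⟨y, hy, rfl⟩, rfl⟩
    exact ⟨_, ⟨y, hy, rfl⟩, rfl⟩
  have h3 := Submodule.mem_map_of_mem (f := BGalAux.mat n ℚ) h2
  rw [Submodule.map_span] at h3
  refine Submodule.span_mono ?_ h3
  rintro _ ⟨_, ⟨y, hy, rfl⟩, rfl⟩
  exact hy

theorem cspan_mul {n : ℕ} {Λ₁ Λ₂ Λ₃ : AddSubgroup (Fin n → ℚ)} {x y : Mat n ℂ}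
    (hx : x ∈ CSpan (HomS Λ₂ Λ₃)) (hy : y ∈ CSpan (HomS Λ₁ Λ₂)) : x * y ∈ CSpan (HomS Λ₁ Λ₃) := by
  have h1 := Submodule.mul_mem_mul hx hy
  rw [CSpan, CSpan, Submodule.span_mul_span] at h1
  refine Submodule.span_mono ?_ h1
  rintro _ ⟨_, ⟨a, ha, rfl⟩, _, ⟨b, hb, rfl⟩, rfl⟩
  refine ⟨a * b, fun v hv => ?_, castM_mul ℂ a b⟩
  rw [← Matrix.mulVec_mulVec]
  exact ha _ (hb v hv)

section
variable {K F ι : Type} [Field K] [Field F] (j : K →+* F)

theorem exists_retr : ∃ r : F →+ K, (∀ k, r (j k) = k) ∧ ∀ z k, r (z * j k) = r z * k :=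
  BGalAux.retr j

theorem lin_span (r : F →+ K) (hr : ∀ z k, r (z * j k) = r z * k) (S : Set (ι → K)) {v : ι → F}
    (hv : v ∈ Submodule.span F ((fun x i => j (x i)) '' S)) :
    (fun i => r (v i)) ∈ Submodule.span K S := by
  simpa using BGalAux.lspan j r hr S hv 1

theorem mem_span_of_map (S : Set (ι → K)) {x : ι → K}
    (hx : (fun i => j (x i)) ∈ Submodule.span F ((fun x i => j (x i)) '' S)) :
    x ∈ Submodule.span K S :=
  BGalAux.of_map j S hx

theorem mem_cx_iff (U : Submodule K (ι → K)) (x : ι → K) :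
    (fun i => j (x i)) ∈ cx j U ↔ x ∈ U := by
  refine ⟨fun h => ?_, fun h => Submodule.subset_span ⟨x, h, rfl⟩⟩
  have h1 := mem_span_of_map j _ h
  rwa [Submodule.span_eq] at h1

theorem cx_span (S : Set (ι → K)) :
    cx j (Submodule.span K S) = Submodule.span F ((fun x i => j (x i)) '' S) := by
  refine le_antisymm (Submodule.span_le.2 ?_)
    (Submodule.span_mono (Set.image_mono Submodule.subset_span))
  rintro _ ⟨x, hx, rfl⟩
  induction hx using Submodule.span_induction with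
  | mem y hy => exact Submodule.subset_span ⟨y, hy, rfl⟩
  | zero =>
    have h1 : (fun i => j ((0 : ι → K) i)) = 0 := funext fun i => by simp
    exact (congrArg (· ∈ Submodule.span F _) h1).mpr (zero_mem _)
  | add y z _ _ h1 h2 =>
    have h3 : (fun i => j ((y + z) i)) = (fun i => j (y i)) + fun i => j (z i) :=
      funext fun i => by simp
    exact (congrArg (· ∈ Submodule.span F _) h3).mpr (add_mem h1 h2)
  | smul d y _ h1 =>
    have h3 : (fun i => j ((d • y) i)) = j d • fun i => j (y i) := funext fun i => by simp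
    exact (congrArg (· ∈ Submodule.span F _) h3).mpr (Submodule.smul_mem _ _ h1)

theorem cx_sup (U U' : Submodule K (ι → K)) : cx j (U ⊔ U') = cx j U ⊔ cx j U' := by
  have h1 : U ⊔ U' = Submodule.span K ((U : Set (ι → K)) ∪ U') := by
    rw [Submodule.span_union, Submodule.span_eq, Submodule.span_eq]
  rw [h1, cx_span, Set.image_union, Submodule.span_union]
  rfl

theorem cx_inf [Fintype ι] (U U' : Submodule K (ι → K)) : cx j (U ⊓ U') = cx j U ⊓ cx j U' := by
  classical
  refine le_antisymm (le_inf (Submodule.span_mono (Set.image_mono fun _ h => h.1))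
    (Submodule.span_mono (Set.image_mono fun _ h => h.2))) fun v hv => ?_
  letI := j.toAlgebra
  let b := Module.Basis.ofVectorSpace K F
  have h1 : ∀ a, ∀ z k, (b.coord a).toAddMonoidHom (z * j k) = (b.coord a).toAddMonoidHom z * k := by
    intro a z k
    have h1 := (b.coord a).map_smul k z
    rw [Algebra.smul_def, smul_eq_mul, mul_comm, mul_comm k] at h1
    exact h1
  have h2 : ∀ a, (fun i => b.repr (v i) a) ∈ U ⊓ U' := fun a => by
    have h3 := lin_span j _ (h1 a) _ hv.1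
    have h4 := lin_span j _ (h1 a) _ hv.2
    rw [Submodule.span_eq] at h3 h4
    exact ⟨h3, h4⟩
  have h3 : v = ∑ a ∈ Finset.univ.biUnion fun i => (b.repr (v i)).support,
      b a • fun i => j (b.repr (v i) a) := by
    funext i
    rw [Finset.sum_apply]
    have h4 := b.linearCombination_repr (v i)
    rw [Finsupp.linearCombination_apply, Finsupp.sum_of_support_subset _
      (Finset.subset_biUnion_of_mem (fun i => (b.repr (v i)).support) (Finset.mem_univ i)) _
      (fun a _ => zero_smul K (b a))] at h4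
    refine h4.symm.trans (Finset.sum_congr rfl fun a _ => ?_)
    rw [Algebra.smul_def, mul_comm]
    rfl
  rw [h3]
  exact Submodule.sum_mem _ fun a _ =>
    Submodule.smul_mem _ _ (Submodule.subset_span ⟨_, h2 a, rfl⟩)

end

end Pool.Agent.P.MP_257122_al
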