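import Pool.Agent.P.MP_257122_al.BRho
import Pool.Agent.P.MP_257122_al.FMat

/-!
# Integral tensors have bounded coordinates in reduced bases

PLAN.  `g b = k a N`.  For a tensor `y` of type `t` (either `σ.get` or its dual) let
`z = rho t b' b y` (so `M z` is integral) and `u = rho t kᵀ k (rho t g g' y) = rho t (a N) (N' a⁻¹) z`,
which is bounded because `k` has entries at most `1`.  General bound: if `X`, `X'` have entries
at most `c ≥ 1` and `w` at most `c'`, then `rho t X X' w` has entries at most `(n c) ^ D c'`.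
(1) `rho t a a⁻¹ z = rho t (a N' a⁻¹) (a N a⁻¹) u` is bounded by `c₁`.  (2) With `λ I > 0` the
diagonal of `rho t a a⁻¹`: `z I ≠ 0` gives `λ I ≤ M c₁`, so `|λ I ^ 2 z I| ≤ M c₁²`.
(3) `rho t a a⁻¹ u = rho t (a² N a⁻²) (a² N' a⁻²) (rho t a² a⁻² z)` is bounded by `c₂`.
(4) `rho t kᵀ k = rho (du t) kᵀ k` and `rho t a⁻¹ a = rho (du t) a a⁻¹`; by `ThEq` the array `u j` is
a bounded combination of the arrays `u' l` of the dual family, so `rho t a⁻¹ a (u j)` is bounded
by (3) for the dual family.  (5) `z = rho t N' N (rho t a⁻¹ a u)`.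
-/

namespace Pool.Agent.P.MP_257122_al

open Matrix

namespace BHcAux

variable {κ : Type} [Fintype κ] [DecidableEq κ] {n : ℕ}

theorem rho_bd (t : κ → Bool) {X X' : Mat n ℝ} {E R c : ℝ}
    (hR : ((n : ℝ) * E) ^ Fintype.card κ ≤ R) (hX : ∀ i j, |X i j| ≤ E)
    (hX' : ∀ i j, |X' i j| ≤ E) {w : (κ → Fin n) → ℝ} (hw : ∀ I, |w I| ≤ c) (I : κ → Fin n) :
    |(rho t X X' *ᵥ w) I| ≤ R * c := by
  have hc : 0 ≤ c := (abs_nonneg _).trans (hw I)
  have h1 : ∀ J, |rho t X X' I J| ≤ E ^ Fintype.card κ := by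
    intro J
    simp only [rho, Matrix.of_apply, Finset.abs_prod]
    calc ∏ i, |if t i = true then X (I i) (J i) else X' (J i) (I i)| ≤ ∏ _i : κ, E := by
          refine Finset.prod_le_prod (fun i _ => abs_nonneg _) fun i _ => ?_
          split_ifs
          · exact hX _ _
          · exact hX' _ _
      _ = E ^ Fintype.card κ := by rw [Finset.prod_const, Finset.card_univ]
  calc |(rho t X X' *ᵥ w) I| = |∑ J, rho t X X' I J * w J| := rfl
    _ ≤ ∑ J, |rho t X X' I J * w J| := Finset.abs_sum_le_sum_abs _ _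
    _ ≤ ∑ _J : κ → Fin n, E ^ Fintype.card κ * c := by
        refine Finset.sum_le_sum fun J _ => ?_
        rw [abs_mul]
        exact mul_le_mul (h1 J) (hw J) (abs_nonneg _) ((abs_nonneg _).trans (h1 J))
    _ = ((n : ℝ) * E) ^ Fintype.card κ * c := by
        rw [Finset.sum_const, Finset.card_univ, Fintype.card_fun, Fintype.card_fin, nsmul_eq_mul,
          mul_pow]
        push_cast
        ring
    _ ≤ R * c := mul_le_mul_of_nonneg_right hR hc

theorem conj_bd {N : Mat n ℝ} {d : Fin n → ℝ} {G H : ℝ} (hG : 0 ≤ G) (hH : 0 ≤ H)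
    (hd : ∀ i, 0 < d i) (hm : ∀ i j, i ≤ j → d i ≤ H * d j) (hN0 : ∀ i j, j < i → N i j = 0)
    (hN : ∀ i j, |N i j| ≤ G) (i j : Fin n) :
    |(diagonal d * N * diagonal fun i => (d i)⁻¹) i j| ≤ H * G := by
  rw [Matrix.mul_diagonal, Matrix.diagonal_mul]
  rcases lt_or_ge j i with h | h
  · rw [hN0 i j h]; simpa using mul_nonneg hH hG
  · have h1 := hm i j h
    have h2 := hd i
    have h3 := hd j
    rw [abs_mul, abs_mul, abs_of_pos h2, abs_of_pos (inv_pos.mpr h3)]
    have h4 : d i * (d j)⁻¹ ≤ H := by rw [← div_eq_mul_inv, div_le_iff₀ h3]; exact h1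
    calc d i * |N i j| * (d j)⁻¹ = d i * (d j)⁻¹ * |N i j| := by ring
      _ ≤ H * G := mul_le_mul h4 (hN i j) (abs_nonneg _) hH

theorem dd {a : Fin n → ℝ} (ha : ∀ i, 0 < a i) :
    (diagonal fun i => (a i)⁻¹) * diagonal a = (1 : Mat n ℝ) := by
  rw [Matrix.diagonal_mul_diagonal, ← Matrix.diagonal_one]
  congr 1
  funext i
  exact inv_mul_cancel₀ (ha i).ne'

theorem step (t : κ → Bool) {N N' : Mat n ℝ} {a : Fin n → ℝ} {G R c M : ℝ} (hG : 1 ≤ G)
    (hR : ((n : ℝ) * G ^ 3) ^ Fintype.card κ ≤ R) (hNN : N * N' = 1) (ha : ∀ i, 0 < a i)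
    (hm : ∀ i j, i ≤ j → a i ≤ G * a j) (h0 : ∀ i j, j < i → N i j = 0 ∧ N' i j = 0)
    (hN : ∀ i j, |N i j| ≤ G) (hN' : ∀ i j, |N' i j| ≤ G) (hM : 0 < M)
    {z : (κ → Fin n) → ℝ} (hz : ∀ I, ∃ m : ℤ, M * z I = m)
    (hu : ∀ I, |(rho t (diagonal a * N) (N' * diagonal fun i => (a i)⁻¹) *ᵥ z) I| ≤ c)
    (I : κ → Fin n) :
    |(rho t (diagonal a) (diagonal fun i => (a i)⁻¹) *ᵥ
      (rho t (diagonal a * N) (N' * diagonal fun i => (a i)⁻¹) *ᵥ z)) I| ≤
        R * (M * (R * c) ^ 2) := by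
  have hG0 : 0 ≤ G := zero_le_one.trans hG
  have hN'N : N' * N = 1 := mul_eq_one_comm.mp hNN
  have hGG : G * G ≤ G ^ 3 := by nlinarith
  have hA := dd ha
  have e1 : rho t (diagonal a) (diagonal fun i => (a i)⁻¹) *ᵥ z =
      rho t (diagonal a * N' * diagonal fun i => (a i)⁻¹)
        (diagonal a * N * diagonal fun i => (a i)⁻¹) *ᵥ
        (rho t (diagonal a * N) (N' * diagonal fun i => (a i)⁻¹) *ᵥ z) := by
    rw [rho_mulVec]
    congr 2
    · simp only [Matrix.mul_assoc]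
      rw [← Matrix.mul_assoc _ (diagonal a) N, hA, Matrix.one_mul, hN'N, Matrix.mul_one]
    · simp only [Matrix.mul_assoc]
      rw [← Matrix.mul_assoc _ (diagonal a), hA, Matrix.one_mul, ← Matrix.mul_assoc, hN'N,
        Matrix.one_mul]
  have b1 : ∀ I, |(rho t (diagonal a) (diagonal fun i => (a i)⁻¹) *ᵥ z) I| ≤ R * c := by
    intro I
    rw [e1]
    exact rho_bd t hR
      (fun i j => (conj_bd hG0 hG0 ha hm (fun i j h => (h0 i j h).2) hN' i j).trans hGG)
      (fun i j => (conj_bd hG0 hG0 ha hm (fun i j h => (h0 i j h).1) hN i j).trans hGG) hu I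
  have ha2 : ∀ i, 0 < a i * a i := fun i => mul_pos (ha i) (ha i)
  have hm2 : ∀ i j, i ≤ j → a i * a i ≤ G * G * (a j * a j) := by
    intro i j h
    have h1 := hm i j h
    calc a i * a i ≤ (G * a j) * (G * a j) :=
          mul_le_mul h1 h1 (ha i).le (mul_nonneg hG0 (ha j).le)
      _ = G * G * (a j * a j) := by ring
  have b2 : ∀ I, |(rho t (diagonal fun i => a i * a i) (diagonal fun i => (a i * a i)⁻¹) *ᵥ z) I|
      ≤ M * (R * c) ^ 2 := by
    intro I
    have h1 := b1 I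
    rw [rho_diagonal, Matrix.mulVec_diagonal] at h1 ⊢
    have h2 : (∏ i, if t i = true then a (I i) * a (I i) else (a (I i) * a (I i))⁻¹) =
        (∏ i, if t i = true then a (I i) else (a (I i))⁻¹) *
          ∏ i, if t i = true then a (I i) else (a (I i))⁻¹ := by
      rw [← Finset.prod_mul_distrib]
      refine Finset.prod_congr rfl fun i _ => ?_
      split_ifs
      · rfl
      · rw [mul_inv]
    have h3 : 0 < ∏ i, if t i = true then a (I i) else (a (I i))⁻¹ := by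
      refine Finset.prod_pos fun i _ => ?_
      split_ifs
      · exact ha _
      · exact inv_pos.mpr (ha _)
    rw [h2]
    generalize (∏ i, if t i = true then a (I i) else (a (I i))⁻¹) = l at h1 h3
    obtain ⟨m, hm'⟩ := hz I
    have h4 : 0 ≤ R * c := (abs_nonneg _).trans h1
    rcases eq_or_ne m 0 with rfl | hm0
    · have : z I = 0 := by
        rcases mul_eq_zero.mp (hm'.trans Int.cast_zero) with h | h
        · exact absurd h hM.ne'
        · exact h
      rw [this, mul_zero, abs_zero]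
      positivity
    · have h5 : (1 : ℝ) ≤ M * |z I| := by
        have h6 : (1 : ℝ) ≤ |(m : ℝ)| := by exact_mod_cast Int.one_le_abs hm0
        rwa [← hm', abs_mul, abs_of_pos hM] at h6
      rw [abs_mul, abs_of_pos h3] at h1
      rw [abs_mul, abs_mul, abs_of_pos h3]
      have h7 : l ≤ M * (R * c) := by
        calc l = l * 1 := (mul_one l).symm
          _ ≤ l * (M * |z I|) := mul_le_mul_of_nonneg_left h5 h3.le
          _ = M * (l * |z I|) := by ring
          _ ≤ M * (R * c) := mul_le_mul_of_nonneg_left h1 hM.le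
      calc l * l * |z I| = l * (l * |z I|) := by ring
        _ ≤ (M * (R * c)) * (R * c) :=
          mul_le_mul h7 h1 (mul_nonneg h3.le (abs_nonneg _)) (mul_nonneg hM.le h4)
        _ = M * (R * c) ^ 2 := by ring
  have hA2 := dd ha2
  have hG3 : G * G * G ≤ G ^ 3 := le_of_eq (by ring)
  have e3 : rho t (diagonal a) (diagonal fun i => (a i)⁻¹) *ᵥ
      (rho t (diagonal a * N) (N' * diagonal fun i => (a i)⁻¹) *ᵥ z) =
      rho t ((diagonal fun i => a i * a i) * N * diagonal fun i => (a i * a i)⁻¹)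
        ((diagonal fun i => a i * a i) * N' * diagonal fun i => (a i * a i)⁻¹) *ᵥ
        (rho t (diagonal fun i => a i * a i) (diagonal fun i => (a i * a i)⁻¹) *ᵥ z) := by
    rw [rho_mulVec, rho_mulVec]
    congr 2
    · rw [Matrix.mul_assoc (_ * N), hA2, Matrix.mul_one, ← Matrix.mul_assoc,
        Matrix.diagonal_mul_diagonal]
    · rw [← Matrix.mul_assoc, ← Matrix.mul_assoc, hA2, Matrix.one_mul, Matrix.mul_assoc,
        Matrix.diagonal_mul_diagonal]
      simp only [mul_inv]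
  rw [e3]
  exact rho_bd t hR
    (fun i j => (conj_bd hG0 (mul_nonneg hG0 hG0) ha2 hm2 (fun i j h => (h0 i j h).1) hN i j).trans
      hG3)
    (fun i j => (conj_bd hG0 (mul_nonneg hG0 hG0) ha2 hm2 (fun i j h => (h0 i j h).2) hN' i j).trans
      hG3) b2 I

theorem orth_bd {k : Mat n ℝ} (hk : kᵀ * k = 1) (i j : Fin n) : |k i j| ≤ 1 := by
  have h1 : ∑ l, k l j * k l j = 1 := by
    have := congrFun (congrFun hk j) j
    simpa [Matrix.mul_apply] using this
  have h2 : k i j * k i j ≤ 1 := by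
    rw [← h1]
    exact Finset.single_le_sum (f := fun l => k l j * k l j) (fun l _ => mul_self_nonneg _)
      (Finset.mem_univ i)
  exact abs_le_one_iff_mul_self_le_one.mpr h2

/-- One half of the symmetric statement. -/
theorem half (t : κ → Bool) {r : ℕ} {k N N' : Mat n ℝ} {a : Fin n → ℝ} {G R s M : ℝ}
    (hG : 1 ≤ G) (hR : ((n : ℝ) * G ^ 3) ^ Fintype.card κ ≤ R) (hk : kᵀ * k = 1)
    (hNN : N * N' = 1) (ha : ∀ i, 0 < a i)
    (hm : ∀ i j, i ≤ j → a i ≤ G * a j) (h0 : ∀ i j, j < i → N i j = 0 ∧ N' i j = 0)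
    (hN : ∀ i j, |N i j| ≤ G) (hN' : ∀ i j, |N' i j| ≤ G) (hM : 0 < M) (hMs : M ≤ s)
    (hr : (r : ℝ) ≤ s) {f z : (κ → Fin n) → ℝ} {f' z' : Fin r → (κ → Fin n) → ℝ}
    {f₁ : Fin r → (κ → Fin n) → ℝ}
    (hz' : ∀ l I, ∃ m : ℤ, M * z' l I = m)
    (hf : rho t kᵀ k *ᵥ f = rho t (diagonal a * N) (N' * diagonal fun i => (a i)⁻¹) *ᵥ z)
    (hf' : ∀ l, rho (du t) kᵀ k *ᵥ f' l =
      rho (du t) (diagonal a * N) (N' * diagonal fun i => (a i)⁻¹) *ᵥ z' l)
    (hth : f = ∑ l, (f ⬝ᵥ f₁ l) • f' l) (bf : ∀ I, |f I| ≤ s) (bf₁ : ∀ l I, |f₁ l I| ≤ s)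
    (bf' : ∀ l I, |f' l I| ≤ s) (I : κ → Fin n) :
    |z I| ≤ R * (s * ((R * (s * s)) * (R * (s * (R * (R * s)) ^ 2)))) := by
  have hG0 : 0 ≤ G := zero_le_one.trans hG
  have hs0 : 0 ≤ s := hM.le.trans hMs
  have hG3 : G ≤ G ^ 3 := le_self_pow₀ hG (by norm_num)
  have hG1 : 1 ≤ G ^ 3 := hG.trans hG3
  have hR0 : 0 ≤ R := le_trans (by positivity) hR
  have hN'N : N' * N = 1 := mul_eq_one_comm.mp hNN
  have hA := dd ha
  have bk : ∀ i j, |k i j| ≤ G ^ 3 := fun i j => (orth_bd hk i j).trans hG1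
  have bu : ∀ l I, |(rho (du t) (diagonal a * N) (N' * diagonal fun i => (a i)⁻¹) *ᵥ z' l) I| ≤
      R * s := by
    intro l I
    rw [← hf' l]
    exact rho_bd _ hR (fun i j => bk j i) bk (bf' l) I
  have b3 : ∀ l I, |(rho (du t) (diagonal a) (diagonal fun i => (a i)⁻¹) *ᵥ
      (rho (du t) kᵀ k *ᵥ f' l)) I| ≤ R * (s * (R * (R * s)) ^ 2) := by
    intro l I
    rw [hf' l]
    refine (step (du t) hG hR hNN ha hm h0 hN hN' hM (hz' l) (bu l) I).trans ?_
    gcongr
  have bc : ∀ l, |f ⬝ᵥ f₁ l| ≤ R * (s * s) := by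
    intro l
    calc |f ⬝ᵥ f₁ l| = |∑ J, f J * f₁ l J| := rfl
      _ ≤ ∑ J, |f J * f₁ l J| := Finset.abs_sum_le_sum_abs _ _
      _ ≤ ∑ _J : κ → Fin n, s * s := by
          refine Finset.sum_le_sum fun J _ => ?_
          rw [abs_mul]
          exact mul_le_mul (bf J) (bf₁ l J) (abs_nonneg _) hs0
      _ = (n : ℝ) ^ Fintype.card κ * (s * s) := by
          rw [Finset.sum_const, Finset.card_univ, Fintype.card_fun, Fintype.card_fin,
            nsmul_eq_mul]
          push_cast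
          ring
      _ ≤ R * (s * s) := by
          refine mul_le_mul_of_nonneg_right (le_trans ?_ hR) (mul_nonneg hs0 hs0)
          refine pow_le_pow_left₀ (Nat.cast_nonneg n) ?_ _
          exact le_mul_of_one_le_right (Nat.cast_nonneg n) hG1
  have e4 : rho t (diagonal fun i => (a i)⁻¹) (diagonal a) *ᵥ (rho t kᵀ k *ᵥ f) =
      ∑ l, (f ⬝ᵥ f₁ l) • (rho (du t) (diagonal a) (diagonal fun i => (a i)⁻¹) *ᵥ
        (rho (du t) kᵀ k *ᵥ f' l)) := by
    conv_lhs => rw [hth]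
    rw [rho_du, rho_du, Matrix.diagonal_transpose, Matrix.diagonal_transpose,
      Matrix.transpose_transpose, Matrix.mulVec_sum, Matrix.mulVec_sum]
    refine Finset.sum_congr rfl fun l _ => ?_
    rw [Matrix.mulVec_smul, Matrix.mulVec_smul]
  have b4 : ∀ I, |(rho t (diagonal fun i => (a i)⁻¹) (diagonal a) *ᵥ (rho t kᵀ k *ᵥ f)) I| ≤
      s * ((R * (s * s)) * (R * (s * (R * (R * s)) ^ 2))) := by
    intro I
    rw [e4, Finset.sum_apply]
    refine (Finset.abs_sum_le_sum_abs _ _).trans ?_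
    refine (Finset.sum_le_sum (g := fun _ => (R * (s * s)) * (R * (s * (R * (R * s)) ^ 2)))
      fun l _ => ?_).trans ?_
    · rw [Pi.smul_apply, smul_eq_mul, abs_mul]
      exact mul_le_mul (bc l) (b3 l I) (abs_nonneg _) (by positivity)
    · rw [Finset.sum_const, Finset.card_univ, Fintype.card_fin, nsmul_eq_mul]
      exact mul_le_mul_of_nonneg_right hr (by positivity)
  have e5 : z = rho t N' N *ᵥ
      (rho t (diagonal fun i => (a i)⁻¹) (diagonal a) *ᵥ (rho t kᵀ k *ᵥ f)) := by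
    rw [hf, rho_mulVec t (diagonal fun i => (a i)⁻¹), ← Matrix.mul_assoc, hA, Matrix.one_mul,
      Matrix.mul_assoc, hA, Matrix.mul_one, rho_mulVec, hN'N, rho_one, Matrix.one_mulVec]
  rw [e5]
  exact rho_bd t hR (fun i j => (hN' i j).trans hG3) (fun i j => (hN i j).trans hG3) b4 I

theorem frame (t : κ → Bool) {g g' B B' k N N' : Mat n ℝ} {a : Fin n → ℝ} (hg : g * g' = 1)
    (hB : B * B' = 1) (hk : kᵀ * k = 1) (hNN : N * N' = 1) (ha : ∀ i, 0 < a i)
    (hx : g * B = k * diagonal a * N) (y : (κ → Fin n) → ℝ) :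
    rho t kᵀ k *ᵥ (rho t g g' *ᵥ y) =
      rho t (diagonal a * N) (N' * diagonal fun i => (a i)⁻¹) *ᵥ (rho t B' B *ᵥ y) := by
  have hB' : B' * B = 1 := mul_eq_one_comm.mp hB
  have hA : diagonal a * (diagonal fun i => (a i)⁻¹) = (1 : Mat n ℝ) :=
    mul_eq_one_comm.mp (dd ha)
  have e1 : kᵀ * g = diagonal a * N * B' := by
    calc kᵀ * g = kᵀ * (g * B) * B' := by
          rw [Matrix.mul_assoc, Matrix.mul_assoc, hB, Matrix.mul_one]
      _ = diagonal a * N * B' := by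
          rw [hx, Matrix.mul_assoc k, ← Matrix.mul_assoc kᵀ, hk, Matrix.one_mul]
  have e2 : g' * k = B * (N' * diagonal fun i => (a i)⁻¹) := by
    have h1 : (g' * k) * (kᵀ * g) = 1 := by
      refine mul_eq_one_comm.mp ?_
      rw [Matrix.mul_assoc, ← Matrix.mul_assoc g, hg, Matrix.one_mul, hk]
    have h2 : (kᵀ * g) * (B * (N' * diagonal fun i => (a i)⁻¹)) = 1 := by
      rw [e1, Matrix.mul_assoc, ← Matrix.mul_assoc B', hB', Matrix.one_mul, Matrix.mul_assoc,
        ← Matrix.mul_assoc N, hNN, Matrix.one_mul, hA]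
    rw [← Matrix.mul_one (g' * k), ← h2, ← Matrix.mul_assoc, h1, Matrix.one_mul]
  rw [rho_mulVec, rho_mulVec, e1, e2]

/-- The factor lost in one application of a bounded matrix. -/
def cR (s : ℕ) : ℕ := ((s + 1) * sgB (s + 1) ^ 3) ^ s

theorem sgB_pos (n : ℕ) : 1 ≤ sgB n := by
  unfold sgB
  exact Nat.mul_pos (Nat.pow_pos (by norm_num)) (Nat.factorial_pos _)

theorem cR_le {n D s : ℕ} (hn : n ≤ s) (hD : D ≤ s) : (n * sgB n ^ 3) ^ D ≤ cR s := by
  have hn' : n ≤ s + 1 := hn.trans (Nat.le_succ s)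
  have h1 : sgB n ≤ sgB (s + 1) := by
    unfold sgB
    exact Nat.mul_le_mul (Nat.pow_le_pow_right (by norm_num) hn')
      (Nat.factorial_le (Nat.succ_le_succ hn'))
  have h2 : n * sgB n ^ 3 ≤ (s + 1) * sgB (s + 1) ^ 3 :=
    Nat.mul_le_mul hn' (Nat.pow_le_pow_left h1 3)
  have h3 : 0 < (s + 1) * sgB (s + 1) ^ 3 :=
    Nat.mul_pos (Nat.succ_pos s) (Nat.pow_pos (sgB_pos _))
  exact (Nat.pow_le_pow_left h2 D).trans (Nat.pow_le_pow_right h3 hD)

theorem cs_cR : CS cR := by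
  unfold cR sgB
  aesop (config := { terminal := true, enableSimp := false, maxRuleApplications := 3000, maxRuleApplicationDepth := 70, assumptionTransparency := .reducible }) (rule_sets := [-default, -builtin, Restrict])

end BHcAux

open BHcAux in
theorem bhc : ∃ C : ℕ → ℕ, CS C ∧ ∀ (s n M : ℕ) (q : OPk n) (g g' : Mat n ℝ) (b b' : Mat n ℚ),
    n ≤ s → q.1.length ≤ s → q.2.1 ≤ s → 0 < M → M ≤ s → g * g' = 1 → b * b' = 1 →
      FPk s g g' q → LPk M b b' q → Sg (g * castM ℝ b) → BPk (C s) b b' q := by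
  refine ⟨fun s => cR s * (s * ((cR s * (s * s)) * (cR s * (s * (cR s * (cR s * s)) ^ 2)))),
    ?_, ?_⟩
  · have h := cs_cR
    aesop (config := { terminal := true, enableSimp := false, maxRuleApplications := 3000, maxRuleApplicationDepth := 70, assumptionTransparency := .reducible }) (rule_sets := [-default, -builtin, Restrict])
  intro s n M q g g' b b' hn hD hr hM hMs hg hb hF hL hS
  obtain ⟨k, N, N', a, hk, hx, hNN, ha, hm, h0, -, hN, hN'⟩ := hS
  obtain ⟨σ, r, y, y'⟩ := q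
  have hB : castM ℝ b * castM ℝ b' = 1 := by rw [← castM_mul, hb, castM_one]
  have hG : (1 : ℝ) ≤ sgB n := by exact_mod_cast sgB_pos n
  have hR : ((n : ℝ) * (sgB n : ℝ) ^ 3) ^ Fintype.card (Fin σ.length) ≤ (cR s : ℝ) := by
    rw [Fintype.card_fin]
    exact_mod_cast cR_le hn hD
  have hM' : (0 : ℝ) < M := by exact_mod_cast hM
  have hMs' : (M : ℝ) ≤ s := by exact_mod_cast hMs
  have hr' : (r : ℝ) ≤ s := by exact_mod_cast hr
  have hint : ∀ (t : Fin σ.length → Bool) (v : Tn n σ ℚ), IntV M (rho t b' b *ᵥ v) →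
      ∀ I, ∃ m : ℤ, (M : ℝ) * (rho t (castM ℝ b') (castM ℝ b) *ᵥ castV ℝ v) I = m := by
    intro t v hv I
    obtain ⟨m, hm⟩ := hv I
    refine ⟨m, ?_⟩
    rw [rho_castV]
    unfold castV
    exact_mod_cast hm
  have hfin : ∀ (t : Fin σ.length → Bool) (v : Tn n σ ℚ) (I) (C : ℕ),
      |(rho t (castM ℝ b') (castM ℝ b) *ᵥ castV ℝ v) I| ≤ C → |(rho t b' b *ᵥ v) I| ≤ C := by
    intro t v I C hv
    rw [rho_castV] at hv
    unfold castV at hv
    exact_mod_cast hv
  intro j I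
  constructor
  · refine hfin _ _ I _ ?_
    push_cast
    exact half σ.get hG hR hk hNN ha hm h0 hN hN' hM' hMs' hr'
      (fun l => hint _ _ (hL l).2) (frame _ hg hB hk hNN ha hx _)
      (fun l => frame _ hg hB hk hNN ha hx _) (hF.1.1 j) (fun I => (hF.2 j I).1)
      (fun l I => (hF.2 l I).1) (fun l I => (hF.2 l I).2) I
  · refine hfin _ _ I _ ?_
    push_cast
    refine half (du σ.get) hG hR hk hNN ha hm h0 hN hN' hM' hMs' hr'
      (fun l => hint _ _ (hL l).1) (frame _ hg hB hk hNN ha hx _)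
      (fun l => ?_) (hF.1.2 j) (fun I => (hF.2 j I).2)
      (fun l I => (hF.2 l I).2) (fun l I => (hF.2 l I).1) I
    rw [du_du]
    exact frame _ hg hB hk hNN ha hx _

end Pool.Agent.P.MP_257122_al
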