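import Pool.Agent.P.MP_257122_al.BKn1
import Pool.Agent.P.MP_257122_al.BBlk

/-!
# Semi-invariant tensors are semi-invariant under adjoints (Kempf-Ness)

PLAN.  `blocks` gives `p`, `q`; let `ι = Σ b, Fin (d b)`, `g_b` the blocks of `q g p`, so that
`q g p = blockDiagonal' g_b`, `z_b(g) = ‖det g_b‖ ^ (1 / d b) > 0`, `ĝ_b = z_b⁻¹ • g_b` (determinant of
norm `1`).  For `x` a family of blocks put `X = blockDiagonal' x`, `X' = blockDiagonal' (x b)⁻¹`.
Split each `rho s q p (w j)` into the components `w j π` supported on the indices `I` with block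
pattern `fun i => (I i).1` equal to `π`; block diagonal matrices respect the pattern and block
scalars act on each component by a positive scalar `μ`, so `ĝ` acts on `w j π` by a scalar
`χ' = χ / μ`.  For an array `u` let `f_u x = ∑ I, ‖(rho s X X' u) I‖ ^ 2`: continuous on the set,
invariant under unitary matrices, and `λ ^ t ≤ (1 - t) + t λ` gives convexity.
FIRST USE of `kn_min`, `u = w j π ≠ 0`, `Γ = {ĝ | ‖χ' g‖ ≤ 1}` (`χ' g * χ' g⁻¹ = 1`, so `g` or `g⁻¹`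
qualifies; a subspace containing its preimage under an invertible map is invariant under the
map and its inverse, by dimension): at the minimum `0 < f x₀ ≤ f (x₀ ĝ) = ‖χ'‖² f x₀`, so `‖χ'‖ ≥ 1`
for all `g`, hence `‖χ'‖ = 1`.  SECOND USE, `f = ∑ f_u`, `Γ` all `ĝ`: at the minimum `x₀` write
`h = x₀ ĝ x₀⁻¹ = k₁ e k₀`; `f (k₀ x₀) = f (e k₀ x₀) ≤ f (e ^ (1/2) k₀ x₀)` forces
`∑ c I (1 - sqrt (λ I)) ^ 2 ≤ 0`, so `e` fixes `rho k₀ (rho x₀ u)`; then `hᴴ h = k₀ᴴ e² k₀` fixes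
`ũ = rho x₀ u`, so `χ' • (rho h)ᴴ ũ = ũ`, `(rho h)ᴴ ũ = star χ' • ũ`; multiply by `μ` and add up the
components.  Finally reindex `ι ≃ Fin n` (the cardinalities agree since `p q = 1`, `q p = 1`:
compare traces) by a permutation matrix.
-/

namespace Pool.Agent.P.MP_257122_al

open Matrix

namespace BKnAux

/-- The squared norm. -/
noncomputable def nsq {K : Type} [Fintype K] (v : K → ℂ) : ℝ := ∑ I, ‖v I‖ ^ 2

section nsq
variable {K : Type} [Fintype K]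

theorem nsq_nonneg (v : K → ℂ) : 0 ≤ nsq v := Finset.sum_nonneg fun _ _ => sq_nonneg _

theorem nsq_eq (v : K → ℂ) : (nsq v : ℂ) = star v ⬝ᵥ v := by
  simp [nsq, dotProduct, Complex.conj_mul']

theorem nsq_smul (c : ℂ) (v : K → ℂ) : nsq (c • v) = ‖c‖ ^ 2 * nsq v := by
  simp [nsq, mul_pow, Finset.mul_sum]

theorem nsq_eq_zero {v : K → ℂ} (h : nsq v = 0) : v = 0 := funext fun I => by
  simpa using (Finset.sum_eq_zero_iff_of_nonneg fun _ _ => sq_nonneg _).1 h I (Finset.mem_univ I)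

theorem nsq_unit [DecidableEq K] {U : Matrix K K ℂ} (h : Uᴴ * U = 1) (v : K → ℂ) :
    nsq (U *ᵥ v) = nsq v := by
  refine Complex.ofReal_injective ?_
  rw [nsq_eq, nsq_eq, star_mulVec, ← dotProduct_mulVec, mulVec_mulVec, h, one_mulVec]

theorem nsq_diag [DecidableEq K] (l : K → ℝ) (v : K → ℂ) :
    nsq ((diagonal fun I => ((l I : ℝ) : ℂ)) *ᵥ v) = ∑ I, l I ^ 2 * ‖v I‖ ^ 2 := by
  simp [nsq, mulVec_diagonal, mul_pow]

end nsq

variable {B : Type} [Fintype B] [DecidableEq B] {d : B → ℕ}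

/-- Families of blocks. -/
abbrev Blk (d : B → ℕ) : Type := ∀ b, Mat (d b) ℂ

/-- Determinants of norm one. -/
def U1 (x : Blk d) : Prop := ∀ b, ‖(x b).det‖ = 1

/-- Real diagonal blocks. -/
noncomputable def dg (e : ∀ b, Fin (d b) → ℝ) : Blk d :=
  fun b => diagonal fun i => ((e b i : ℝ) : ℂ)

omit [Fintype B] [DecidableEq B] in
theorem U1.mul {x y : Blk d} (hx : U1 x) (hy : U1 y) : U1 (x * y) := fun b => by
  rw [Pi.mul_apply, det_mul, norm_mul, hx b, hy b, one_mul]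

omit [Fintype B] [DecidableEq B] in
theorem U1.unit {x : Blk d} (hx : U1 x) (b : B) : IsUnit (x b).det :=
  IsUnit.mk0 _ (norm_ne_zero_iff.1 (by rw [hx b]; exact one_ne_zero))

omit [Fintype B] [DecidableEq B] in
theorem U1.inv_mul {x : Blk d} (hx : U1 x) : x⁻¹ * x = 1 :=
  funext fun b => nonsing_inv_mul _ (hx.unit b)

omit [Fintype B] [DecidableEq B] in
theorem U1.mul_inv {x : Blk d} (hx : U1 x) : x * x⁻¹ = 1 :=
  funext fun b => mul_nonsing_inv _ (hx.unit b)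

omit [Fintype B] [DecidableEq B] in
theorem U1.of_mul {x y : Blk d} (hx : U1 x) (h : x * y = 1) : U1 y := fun b => by
  have := congrArg (fun z : Blk d => ‖(z b).det‖) h
  simpa [hx b] using this

omit [Fintype B] [DecidableEq B] in
theorem U1.of_unit {k : Blk d} (h : star k * k = 1) : U1 k := fun b => by
  have := congrArg (fun z : Blk d => ‖(z b).det‖) h
  simp only [Pi.mul_apply, Pi.star_apply, star_eq_conjTranspose, det_mul, det_conjTranspose,
    norm_mul, norm_star, Pi.one_apply, det_one, norm_one] at this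
  exact (mul_self_eq_one_iff.1 this).resolve_right (by linarith [norm_nonneg (k b).det])

omit [Fintype B] [DecidableEq B] in
theorem norm_det_dg {e : ∀ b, Fin (d b) → ℝ} (he : ∀ b i, 0 < e b i) (b : B) :
    ‖(dg e b).det‖ = ∏ i, e b i := by
  rw [dg, det_diagonal, norm_prod]
  exact Finset.prod_congr rfl fun i _ => Complex.norm_of_nonneg (he b i).le

/-- The properties of the tensor actions that are used. -/
structure IsRep {K : Type} [Fintype K] [DecidableEq K] (R : Blk d → Matrix K K ℂ) : Prop where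
  mul : ∀ x y, R (x * y) = R x * R y
  one : R 1 = 1
  adj : ∀ x, R (star x) = (R x)ᴴ
  cont : ContinuousOn R {x | U1 x}
  diag : ∀ e : ∀ b, Fin (d b) → ℝ, (∀ b i, 0 < e b i) → ∃ l : K → ℝ, (∀ I, 0 < l I) ∧
    ∀ t : ℝ, R (dg fun b i => e b i ^ t) = diagonal fun I => ((l I ^ t : ℝ) : ℂ)

section fam
variable {J : Type} [Fintype J] {K : J → Type} [∀ j, Fintype (K j)] [∀ j, DecidableEq (K j)]
  {R : ∀ j, Blk d → Matrix (K j) (K j) ℂ} {u : ∀ j, K j → ℂ}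

/-- The function that is minimised. -/
noncomputable def en (R : ∀ j, Blk d → Matrix (K j) (K j) ℂ) (u : ∀ j, K j → ℂ) (x : Blk d) : ℝ :=
  ∑ j, nsq (R j x *ᵥ u j)

omit [Fintype B] [DecidableEq B] in
theorem en_unit (h : ∀ j, IsRep (R j)) {k : Blk d} (hk : star k * k = 1) (x : Blk d) :
    en R u (k * x) = en R u x := Finset.sum_congr rfl fun j _ => by
  rw [(h j).mul, ← mulVec_mulVec, nsq_unit (by rw [← (h j).adj, ← (h j).mul, hk, (h j).one])]

omit [Fintype B] [DecidableEq B] in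
theorem en_le (h : ∀ j, IsRep (R j)) {y : Blk d}
    (hy : ∀ j, ∃ c : ℂ, ‖c‖ ≤ 1 ∧ R j y *ᵥ u j = c • u j) (x : Blk d) :
    en R u (x * y) ≤ en R u x := Finset.sum_le_sum fun j _ => by
  obtain ⟨c, hc, e⟩ := hy j
  rw [(h j).mul, ← mulVec_mulVec, e, mulVec_smul, nsq_smul]
  exact mul_le_of_le_one_left (nsq_nonneg _) (pow_le_one₀ (norm_nonneg c) hc)

omit [Fintype B] [DecidableEq B] in
theorem en_diag (h : ∀ j, IsRep (R j)) {e : ∀ b, Fin (d b) → ℝ} {l : ∀ j, K j → ℝ} {t : ℝ}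
    (hl : ∀ j, R j (dg fun b i => e b i ^ t) = diagonal fun I => ((l j I ^ t : ℝ) : ℂ))
    (x : Blk d) : en R u (dg (fun b i => e b i ^ t) * x) =
      ∑ j, ∑ I, (l j I ^ t) ^ 2 * ‖(R j x *ᵥ u j) I‖ ^ 2 := Finset.sum_congr rfl fun j _ => by
  rw [(h j).mul, ← mulVec_mulVec, hl, nsq_diag]

theorem en_min (h : ∀ j, IsRep (R j)) (Γ : Set (Blk d))
    (hΓ : ∀ y ∈ Γ, U1 y ∧ ∀ j, ∃ c : ℂ, ‖c‖ ≤ 1 ∧ R j y *ᵥ u j = c • u j)
    (hirr : ∀ (b : B) (W : Submodule ℂ (Fin (d b) → ℂ)),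
      (∀ g ∈ Γ, ∀ v, g b *ᵥ v ∈ W → v ∈ W) → W = ⊥ ∨ W = ⊤) :
    ∃ x₀, U1 x₀ ∧ ∀ x, U1 x → en R u x₀ ≤ en R u x := by
  refine kn_min d (en R u) Γ ?_ (fun x => Finset.sum_nonneg fun _ _ => nsq_nonneg _)
    (fun k x hk _ => en_unit h (funext hk) x) (fun e x t he _ _ t0 t1 => ?_)
    (fun g hg => ⟨(hΓ g hg).1, fun x _ => en_le h (hΓ g hg).2 x⟩) hirr
  · refine continuousOn_finsetSum _ fun j _ => ?_
    have : Continuous fun M : Matrix (K j) (K j) ℂ => nsq (M *ᵥ u j) := by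
      unfold nsq
      fun_prop
    exact this.comp_continuousOn (h j).cont
  · choose l hl hl' using fun j => (h j).diag e he
    have e1 := en_diag (u := u) h (fun j => hl' j 1) x
    simp only [Real.rpow_one] at e1
    have e2 : en R u (dg (fun b i => e b i ^ t) * x) ≤
        (1 - t) * en R u x + t * en R u (dg e * x) := by
      rw [en_diag h (fun j => hl' j t), e1, en, Finset.mul_sum, Finset.mul_sum,
        ← Finset.sum_add_distrib]
      refine Finset.sum_le_sum fun j _ => ?_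
      rw [nsq, Finset.mul_sum, Finset.mul_sum, ← Finset.sum_add_distrib]
      refine Finset.sum_le_sum fun I _ => ?_
      rw [← mul_assoc, ← add_mul]
      refine mul_le_mul_of_nonneg_right ?_ (sq_nonneg _)
      have := Real.geom_mean_le_arith_mean2_weighted (sub_nonneg.2 t1) t0 zero_le_one
        (sq_nonneg (l j I)) (sub_add_cancel 1 t)
      rwa [Real.one_rpow, one_mul, mul_one, sq, Real.mul_rpow (hl j I).le (hl j I).le, ← sq,
        ← sq] at this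
    refine e2.trans ?_
    have m1 := le_max_left (en R u x) (en R u (dg e * x))
    have m2 := le_max_right (en R u x) (en R u (dg e * x))
    show _ ≤ max (en R u x) (en R u (dg e * x))
    nlinarith

end fam

theorem inv_of_pre {N : ℕ} {y y' : Mat N ℂ} (h : y * y' = 1) {W : Submodule ℂ (Fin N → ℂ)}
    (hW : ∀ v, y *ᵥ v ∈ W → v ∈ W) : (∀ v ∈ W, y *ᵥ v ∈ W) ∧ ∀ v ∈ W, y' *ᵥ v ∈ W := by
  have e : ∀ v, y *ᵥ (y' *ᵥ v) = v := fun v => by rw [mulVec_mulVec, h, one_mulVec]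
  have h1 : ∀ v ∈ W, y'.mulVecLin v ∈ W := fun v hv => hW _ ((e v).symm ▸ hv)
  refine ⟨fun v hv => ?_, h1⟩
  obtain ⟨w, hw⟩ := LinearMap.surjective_of_injective (f := y'.mulVecLin.restrict h1)
    (fun a b k => Subtype.ext (by
      rw [← e a.1, ← e b.1]
      exact congrArg (fun z : W => y *ᵥ z.1) k)) ⟨v, hv⟩
  have hw' : y' *ᵥ w.1 = v := congrArg Subtype.val hw
  rw [← hw', e]
  exact w.2

theorem norm_chi {K : Type} [Fintype K] [DecidableEq K] {R : Blk d → Matrix K K ℂ} (h : IsRep R)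
    {u : K → ℂ} (hu : u ≠ 0) (Γ : Set (Blk d))
    (hΓ : ∀ y ∈ Γ, U1 y ∧ y⁻¹ ∈ Γ ∧ ∃ c : ℂ, R y *ᵥ u = c • u)
    (hirr : ∀ (b : B) (W : Submodule ℂ (Fin (d b) → ℂ)),
      (∀ g ∈ Γ, ∀ v ∈ W, g b *ᵥ v ∈ W) → W = ⊥ ∨ W = ⊤) {y : Blk d} (hy : y ∈ Γ) {c : ℂ}
    (hc : R y *ᵥ u = c • u) : ‖c‖ = 1 := by
  have h1 : ∀ y ∈ Γ, ∀ c c' : ℂ, R y *ᵥ u = c • u → R y⁻¹ *ᵥ u = c' • u → ‖c‖ * ‖c'‖ = 1 := by
    intro y hy c c' e e'
    have := congrArg (R y⁻¹ *ᵥ ·) e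
    simp only [mulVec_mulVec, ← h.mul, (hΓ y hy).1.inv_mul, h.one, one_mulVec, mulVec_smul, e',
      smul_smul] at this
    rw [← norm_mul, smul_left_injective ℂ hu (this.symm.trans (one_smul ℂ u).symm), norm_one]
  obtain ⟨x₀, h2, h3⟩ := en_min (J := Unit) (R := fun _ => R) (u := fun _ => u) (fun _ => h)
    {y | y ∈ Γ ∧ ∃ c : ℂ, ‖c‖ ≤ 1 ∧ R y *ᵥ u = c • u} (fun y k => ⟨(hΓ y k.1).1, fun _ => k.2⟩)
    fun b W hW => hirr b W fun g hg => by
      obtain ⟨g1, g2, c, e⟩ := hΓ g hg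
      obtain ⟨c', e'⟩ := (hΓ _ g2).2.2
      by_cases k : ‖c‖ ≤ 1
      · exact (inv_of_pre (congrFun g1.mul_inv b) (hW g ⟨hg, c, k, e⟩)).1
      · refine (inv_of_pre (congrFun g1.inv_mul b) (hW g⁻¹ ⟨g2, c', ?_, e'⟩)).2
        nlinarith [h1 g hg c c' e e', norm_nonneg c']
  have h4 : 0 < nsq (R x₀ *ᵥ u) := (nsq_nonneg _).lt_of_ne' fun k => hu (by
    have := congrArg (R x₀⁻¹ *ᵥ ·) (nsq_eq_zero k)
    simpa only [mulVec_mulVec, ← h.mul, h2.inv_mul, h.one, one_mulVec, mulVec_zero] using this)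
  have h5 : ∀ y ∈ Γ, ∀ c : ℂ, R y *ᵥ u = c • u → 1 ≤ ‖c‖ := fun y hy c e => by
    have := h3 _ (h2.mul (hΓ y hy).1)
    simp only [en, Finset.univ_unique, Finset.sum_singleton, h.mul, ← mulVec_mulVec, e,
      mulVec_smul, nsq_smul] at this
    exact (one_le_sq_iff₀ (norm_nonneg c)).1 ((le_mul_iff_one_le_left h4).1 this)
  obtain ⟨c', e'⟩ := (hΓ _ (hΓ y hy).2.1).2.2
  nlinarith [h1 y hy c c' hc e', h5 y hy c hc, h5 _ (hΓ y hy).2.1 c' e']

theorem kn_abs {J : Type} [Fintype J] {K : J → Type} [∀ j, Fintype (K j)] [∀ j, DecidableEq (K j)]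
    {R : ∀ j, Blk d → Matrix (K j) (K j) ℂ} (h : ∀ j, IsRep (R j)) (u : ∀ j, K j → ℂ)
    (Γ : Set (Blk d)) (hΓ : ∀ y ∈ Γ, U1 y ∧ y⁻¹ ∈ Γ ∧ ∀ j, ∃ c : ℂ, R j y *ᵥ u j = c • u j)
    (hirr : ∀ (b : B) (W : Submodule ℂ (Fin (d b) → ℂ)),
      (∀ g ∈ Γ, ∀ v ∈ W, g b *ᵥ v ∈ W) → W = ⊥ ∨ W = ⊤) :
    ∃ x₀, U1 x₀ ∧ ∀ y ∈ Γ, ∀ j (c : ℂ), R j y *ᵥ u j = c • u j →
      (R j (x₀ * y * x₀⁻¹))ᴴ *ᵥ (R j x₀ *ᵥ u j) = star c • (R j x₀ *ᵥ u j) := by
  have h1 : ∀ y ∈ Γ, ∀ j (c : ℂ), u j ≠ 0 → R j y *ᵥ u j = c • u j → ‖c‖ = 1 :=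
    fun y hy j c hu e => norm_chi (h j) hu Γ
      (fun y k => ⟨(hΓ y k).1, (hΓ y k).2.1, (hΓ y k).2.2 j⟩) hirr hy e
  have h2 : ∀ y ∈ Γ, ∀ j, ∃ c : ℂ, ‖c‖ ≤ 1 ∧ R j y *ᵥ u j = c • u j := fun y hy j => by
    by_cases hu : u j = 0
    · exact ⟨0, by simp, by simp [hu]⟩
    · obtain ⟨c, e⟩ := (hΓ y hy).2.2 j
      exact ⟨c, (h1 y hy j c hu e).le, e⟩
  obtain ⟨x₀, h3, h4⟩ := en_min h Γ (fun y hy => ⟨(hΓ y hy).1, h2 y hy⟩) fun b W hW =>
    hirr b W fun g hg => (inv_of_pre (congrFun (hΓ g hg).1.mul_inv b) (hW g hg)).1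
  refine ⟨x₀, h3, fun y hy j c hc => ?_⟩
  by_cases hu : u j = 0
  · simp [hu]
  have h5 : U1 (x₀ * y * x₀⁻¹) := (h3.mul (hΓ y hy).1).mul (h3.of_mul h3.mul_inv)
  choose k₀ k₁ e a0 a1 he hs using fun b => svd (congrFun h5.mul_inv b)
  have b0 : star k₀ * k₀ = 1 := funext a0
  have b1 : star k₁ * k₁ = 1 := funext a1
  have b2 : x₀ * y * x₀⁻¹ = k₁ * dg e * k₀ := funext hs
  have b3 : x₀ * y = k₁ * (dg e * (k₀ * x₀)) := by
    rw [← mul_assoc, ← mul_assoc, ← b2, mul_assoc _ x₀⁻¹, h3.inv_mul, mul_one]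
  have b4 : U1 (dg fun b i => e b i ^ (2⁻¹ : ℝ)) := fun b => by
    have := h5 b
    rw [b2, Pi.mul_apply, Pi.mul_apply, det_mul, det_mul, norm_mul, norm_mul, U1.of_unit b0 b,
      U1.of_unit b1 b, one_mul, mul_one, norm_det_dg he] at this
    rw [norm_det_dg fun b i => Real.rpow_pos_of_pos (he b i) _,
      Real.finsetProd_rpow _ _ fun i _ => (he b i).le, this, Real.one_rpow]
  choose l hl hl' using fun j => (h j).diag e he
  have c1 := en_diag (u := u) h (fun j => hl' j 1) (k₀ * x₀)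
  have c2 := en_diag (u := u) h (fun j => hl' j 2⁻¹) (k₀ * x₀)
  have c3 := h4 _ (b4.mul ((U1.of_unit b0).mul h3))
  have c4 := en_le h (h2 y hy) x₀
  have c5 := en_unit (u := u) h b0 x₀
  simp only [Real.rpow_one] at c1
  rw [b3, en_unit h b1, c1] at c4
  rw [c2] at c3
  have c6 : ∑ j, ∑ I, (1 - l j I) ^ 2 * ‖(R j (k₀ * x₀) *ᵥ u j) I‖ ^ 2 = en R u (k₀ * x₀) -
      2 * ∑ j, ∑ I, (l j I ^ (2⁻¹ : ℝ)) ^ 2 * ‖(R j (k₀ * x₀) *ᵥ u j) I‖ ^ 2 +
      ∑ j, ∑ I, l j I ^ 2 * ‖(R j (k₀ * x₀) *ᵥ u j) I‖ ^ 2 := by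
    simp only [en, nsq, Finset.mul_sum, ← Finset.sum_sub_distrib, ← Finset.sum_add_distrib]
    refine Finset.sum_congr rfl fun j _ => Finset.sum_congr rfl fun I _ => ?_
    have : (l j I ^ (2⁻¹ : ℝ)) ^ 2 = l j I := by
      exact_mod_cast Real.rpow_inv_natCast_pow (hl j I).le two_ne_zero
    rw [this]
    ring
  have nn : ∀ j I, 0 ≤ (1 - l j I) ^ 2 * ‖(R j (k₀ * x₀) *ᵥ u j) I‖ ^ 2 := fun j I => by positivity
  have c7 : R j (dg e) *ᵥ (R j (k₀ * x₀) *ᵥ u j) = R j (k₀ * x₀) *ᵥ u j := by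
    have e1 := hl' j 1
    simp only [Real.rpow_one] at e1
    rw [e1]
    funext I
    have z := (Finset.sum_eq_zero_iff_of_nonneg fun I _ => nn j I).1
      ((Finset.sum_eq_zero_iff_of_nonneg fun j _ => Finset.sum_nonneg fun I _ => nn j I).1
        (le_antisymm (by linarith) (Finset.sum_nonneg fun j _ => Finset.sum_nonneg fun I _ => nn j I))
        j (Finset.mem_univ j)) I (Finset.mem_univ I)
    rw [mulVec_diagonal]
    rcases mul_eq_zero.1 z with z | z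
    · rw [← sub_eq_zero.1 (pow_eq_zero_iff two_ne_zero |>.1 z), Complex.ofReal_one, one_mul]
    · rw [norm_eq_zero.1 (pow_eq_zero_iff two_ne_zero |>.1 z), mul_zero]
  have c8 : star (dg e) = dg e := funext fun b => by
    simp [dg, star_eq_conjTranspose, diagonal_conjTranspose, Pi.star_def]
  have c9 : c • (R j x₀ *ᵥ u j) = R j k₁ *ᵥ (R j (k₀ * x₀) *ᵥ u j) := by
    rw [← mulVec_smul, ← hc, mulVec_mulVec, ← (h j).mul, b3, (h j).mul, (h j).mul,
      ← mulVec_mulVec, ← mulVec_mulVec, c7]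
  have c10 : star c * c = 1 := by
    rw [Complex.star_def, Complex.conj_mul', h1 y hy j c hu hc]
    simp
  rw [← one_smul ℂ (_ *ᵥ _), ← c10, mul_smul, ← mulVec_smul, c9, ← (h j).adj, b2, star_mul, star_mul,
    c8, mulVec_mulVec, ← (h j).mul, mul_assoc, mul_assoc, b1, mul_one, (h j).mul, ← mulVec_mulVec,
    c7, mulVec_mulVec, ← (h j).mul, ← mul_assoc, b0, one_mul]

section tens
variable {κ : Type} [Fintype κ] [DecidableEq κ] (s : κ → Bool)

/-- The action of blocks on tensors. -/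
noncomputable def act' (x : Blk d) : Matrix (κ → Σ b, Fin (d b)) (κ → Σ b, Fin (d b)) ℂ :=
  rho s (blockDiagonal' x) (blockDiagonal' x⁻¹)

omit [Fintype B] [DecidableEq κ] in
theorem act_dg {e : ∀ b, Fin (d b) → ℝ} (he : ∀ b i, 0 < e b i) : act' s (dg e) = diagonal fun I =>
    ((∏ i, if s i = true then e (I i).1 (I i).2 else (e (I i).1 (I i).2)⁻¹ : ℝ) : ℂ) := by
  have e1 : (dg e)⁻¹ = dg fun b i => (e b i)⁻¹ := funext fun b => inv_eq_right_inv (by
    rw [dg, dg, diagonal_mul_diagonal, ← diagonal_one]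
    exact congrArg _ (funext fun i => by
      rw [← Complex.ofReal_mul, mul_inv_cancel₀ (he b i).ne', Complex.ofReal_one]))
  rw [act', e1]
  unfold dg
  rw [blockDiagonal'_diagonal, blockDiagonal'_diagonal, rho_diagonal]
  refine congrArg _ (funext fun I => ?_)
  rw [Complex.ofReal_prod]
  exact Finset.prod_congr rfl fun i _ => (apply_ite Complex.ofReal _ _ _).symm

theorem isRep_act : IsRep (act' (d := d) s) where
  mul x y := by
    have e : (x * y)⁻¹ = y⁻¹ * x⁻¹ := funext fun b => Matrix.mul_inv_rev _ _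
    rw [act', act', act', rho_mul, ← blockDiagonal'_mul, ← blockDiagonal'_mul, e]
    rfl
  one := by
    have e : (1 : Blk d)⁻¹ = 1 := funext fun b => inv_one
    rw [act', e, blockDiagonal'_one, rho_one]
  adj x := by
    have e : (star x)⁻¹ = star x⁻¹ := funext fun b => (conjTranspose_nonsing_inv _).symm
    rw [act', act', rho_conjTranspose, blockDiagonal'_conjTranspose, blockDiagonal'_conjTranspose, e]
    rfl
  cont := by
    have h1 : Continuous fun p : Blk d × Blk d =>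
        rho s (blockDiagonal' p.1) (blockDiagonal' p.2) := by
      refine continuous_matrix fun I I' => continuous_finsetProd _ fun i _ => ?_
      split_ifs
      · exact continuous_fst.matrix_blockDiagonal'.matrix_elem _ _
      · exact continuous_snd.matrix_blockDiagonal'.matrix_elem _ _
    refine h1.comp_continuousOn (f := fun x => (x, x⁻¹)) (continuousOn_id.prodMk
      (continuousOn_pi.2 fun b x hx => ContinuousAt.continuousWithinAt ?_))
    refine (continuousAt_matrix_inv (x b) ?_).comp (f := fun x : Blk d => x b)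
      (continuous_apply b).continuousAt
    rw [Ring.inverse_eq_inv']
    exact continuousAt_inv₀ (U1.unit hx b).ne_zero
  diag e he := by
    have p : ∀ (I : κ → Σ b, Fin (d b)) i,
        0 < if s i = true then e (I i).1 (I i).2 else (e (I i).1 (I i).2)⁻¹ := fun I i => by
      split_ifs
      exacts [he _ _, inv_pos.2 (he _ _)]
    refine ⟨_, fun I => Finset.prod_pos fun i (_ : i ∈ Finset.univ) => p I i, fun t => ?_⟩
    rw [act_dg s fun b i => Real.rpow_pos_of_pos (he b i) t]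
    refine congrArg _ (funext fun I => congrArg _ ?_)
    rw [← Real.finsetProd_rpow _ _ fun i _ => (p I i).le]
    refine Finset.prod_congr rfl fun i _ => ?_
    split_ifs
    exacts [rfl, (Real.inv_rpow (he _ _).le t).symm]

/-- The projection to the component with block pattern `π`. -/
noncomputable def pr (d : B → ℕ) (π : κ → B) :
    Matrix (κ → Σ b, Fin (d b)) (κ → Σ b, Fin (d b)) ℂ :=
  diagonal fun I => if (fun i => (I i).1) = π then 1 else 0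

theorem pr_comm (π : κ → B) (x : Blk d) : act' s x * pr d π = pr d π * act' s x := by
  ext I I'
  rw [pr, mul_diagonal, diagonal_mul, mul_comm]
  by_cases h : (fun i => (I i).1) = fun i => (I' i).1
  · rw [h]
  · obtain ⟨i, hi⟩ := Function.ne_iff.1 h
    have : act' s x I I' = 0 := Finset.prod_eq_zero (Finset.mem_univ i) (by
      split_ifs
      exacts [blockDiagonal'_apply_ne _ _ _ hi, blockDiagonal'_apply_ne _ _ _ hi.symm])
    rw [this, mul_zero, mul_zero]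

theorem sum_pr (v : (κ → Σ b, Fin (d b)) → ℂ) : ∑ π, pr d π *ᵥ v = v := by
  funext I
  simp [pr, mulVec_diagonal]

theorem sc_pr {c : B → ℝ} (hc : ∀ b, 0 < c b) (π : κ → B) : ∃ μ : ℝ, μ ≠ 0 ∧
    ∀ v, act' s (dg (d := d) fun b _ => c b) *ᵥ (pr d π *ᵥ v) = (μ : ℂ) • (pr d π *ᵥ v) := by
  refine ⟨∏ i, if s i = true then c (π i) else (c (π i))⁻¹, Finset.prod_ne_zero_iff.2 fun i _ => ?_,
    fun v => funext fun I => ?_⟩
  · split_ifs
    exacts [(hc _).ne', inv_ne_zero (hc _).ne']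
  · rw [act_dg s fun b _ => hc b, pr, mulVec_diagonal, Pi.smul_apply, mulVec_diagonal]
    by_cases h : (fun i => (I i).1) = π
    · subst h
      rfl
    · simp [h]

end tens

omit [Fintype B] [DecidableEq B] in
theorem sc_comm (c : B → ℝ) (x : Blk d) :
    x * dg (fun b _ => c b) = dg (fun b _ => c b) * x := funext fun b => by
  ext i j
  simp [dg, mul_comm]

theorem exists_sc {N : ℕ} {g : Mat N ℂ} (h : g.det ≠ 0) :
    ∃ z : ℝ, 0 < z ∧ ‖((diagonal fun _ => (z : ℂ)) * g).det‖ = 1 := by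
  have hp := inv_pos.2 (norm_pos_iff.2 h)
  refine ⟨‖g.det‖⁻¹ ^ (N⁻¹ : ℝ), Real.rpow_pos_of_pos hp _, ?_⟩
  rcases eq_or_ne N 0 with rfl | hN
  · simp
  · rw [det_mul, det_diagonal, Finset.prod_const, Finset.card_fin, norm_mul, norm_pow,
      Complex.norm_of_nonneg (Real.rpow_nonneg hp.le _), Real.rpow_inv_natCast_pow hp.le hN,
      inv_mul_cancel₀ (norm_ne_zero_iff.2 h)]

theorem kn_blk {J : Type} [Fintype J] (κ : J → Type) [∀ j, Fintype (κ j)] [∀ j, DecidableEq (κ j)]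
    (s : ∀ j, κ j → Bool) (w : ∀ j, (κ j → Σ b, Fin (d b)) → ℂ) (Γ : Set (Blk d))
    (hΓ : ∀ y ∈ Γ, (∃ y' ∈ Γ, y * y' = 1) ∧ ∀ j, ∃ c : ℂ, act' (s j) y *ᵥ w j = c • w j)
    (hirr : ∀ (b : B) (W : Submodule ℂ (Fin (d b) → ℂ)),
      (∀ g ∈ Γ, ∀ v ∈ W, g b *ᵥ v ∈ W) → W = ⊥ ∨ W = ⊤) :
    ∃ x₀, U1 x₀ ∧ ∀ y ∈ Γ, ∀ j (c : ℂ), act' (s j) y *ᵥ w j = c • w j →
      (act' (s j) (x₀ * y * x₀⁻¹))ᴴ *ᵥ (act' (s j) x₀ *ᵥ w j) =
        star c • (act' (s j) x₀ *ᵥ w j) := by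
  have h1 : ∀ y ∈ Γ, ∃ c : B → ℝ, (∀ b, 0 < c b) ∧ U1 (dg (fun b _ => c b) * y) := fun y hy => by
    obtain ⟨y', _, e⟩ := (hΓ y hy).1
    choose c hc hc' using fun b => exists_sc (det_ne_zero_of_right_inverse (congrFun e b))
    exact ⟨c, hc, hc'⟩
  have h2 : ∀ j π (x : Blk d) v, act' (s j) x *ᵥ (pr d π *ᵥ v) = pr d π *ᵥ (act' (s j) x *ᵥ v) :=
    fun j π x v => by rw [mulVec_mulVec, mulVec_mulVec, pr_comm]
  obtain ⟨x₀, h3, h4⟩ := kn_abs (J := Σ j, κ j → B) (fun a => isRep_act (d := d) (s a.1))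
    (fun a => pr d a.2 *ᵥ w a.1)
    {y | U1 y ∧ ∃ c : B → ℝ, (∀ b, 0 < c b) ∧ ∃ g ∈ Γ, y = dg (fun b _ => c b) * g}
    (by
      rintro _ ⟨hy, c, hc, g, hg, rfl⟩
      obtain ⟨⟨g', hg', e⟩, h5⟩ := hΓ g hg
      refine ⟨hy, ⟨hy.of_mul hy.mul_inv, fun b => (c b)⁻¹, fun b => inv_pos.2 (hc b), g', hg',
        funext fun b => inv_eq_right_inv (congrFun (?_ : _ * _ = (1 : Blk d)) b)⟩, fun a => ?_⟩
      · rw [← sc_comm _ g', mul_assoc, ← mul_assoc g, e, one_mul]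
        funext b
        rw [Pi.mul_apply, dg, dg, diagonal_mul_diagonal, Pi.one_apply, ← diagonal_one]
        exact congrArg _ (funext fun i => by
          rw [← Complex.ofReal_mul, mul_inv_cancel₀ (hc b).ne', Complex.ofReal_one])
      · obtain ⟨χ, hχ⟩ := h5 a.1
        obtain ⟨μ, _, hμ⟩ := sc_pr (d := d) (s a.1) hc a.2
        exact ⟨μ * χ, by rw [(isRep_act _).mul, ← mulVec_mulVec, h2, hμ, hχ, mulVec_smul, smul_smul]⟩)
    fun b W hW => hirr b W fun g hg v hv => by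
      obtain ⟨c, hc, hc'⟩ := h1 g hg
      have := hW _ ⟨hc', c, hc, g, hg, rfl⟩ v hv
      rw [Pi.mul_apply, ← mulVec_mulVec, dg, diagonal_const_mulVec] at this
      exact (W.smul_mem_iff (Complex.ofReal_ne_zero.2 (hc b).ne')).1 this
  refine ⟨x₀, h3, fun y hy j χ hχ => ?_⟩
  obtain ⟨c, hc, hc'⟩ := h1 y hy
  rw [← sum_pr (act' (s j) x₀ *ᵥ w j), mulVec_sum, Finset.smul_sum]
  refine Finset.sum_congr rfl fun π _ => ?_
  obtain ⟨μ, h5, hμ⟩ := sc_pr (d := d) (s j) hc π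
  have h6 := h4 _ ⟨hc', c, hc, y, hy, rfl⟩ ⟨j, π⟩ (μ * χ)
    (by rw [(isRep_act _).mul, ← mulVec_mulVec, h2, hμ, hχ, mulVec_smul, smul_smul])
  have c8 : star (dg (d := d) fun b _ => c b) = dg fun b _ => c b := funext fun b => by
    simp [dg, star_eq_conjTranspose, diagonal_conjTranspose, Pi.star_def]
  rw [← mul_assoc, sc_comm, mul_assoc, mul_assoc, ← mul_assoc x₀, (isRep_act _).mul,
    conjTranspose_mul, ← (isRep_act _).adj (dg _), c8, ← mulVec_mulVec, h2 j π x₀, hμ, mulVec_smul,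
    star_mul', Complex.star_def, Complex.conj_ofReal, mul_smul] at h6
  exact smul_right_injective _ (Complex.ofReal_ne_zero.2 h5) h6

end BKnAux

open BKnAux in
theorem kn {n : ℕ} (G : Subgroup (GL (Fin n) ℂ)) (h : SemiS (vals G)) {J : Type} [Fintype J]
    (κ : J → Type) [∀ j, Fintype (κ j)] [∀ j, DecidableEq (κ j)] (s : ∀ j, κ j → Bool)
    (w : ∀ j, (κ j → Fin n) → ℂ) (χ : J → GL (Fin n) ℂ → ℂ)
    (hw : ∀ j, ∀ g ∈ G, rho (s j) g.val g.inv *ᵥ w j = χ j g • w j) :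
    ∃ x x' : Mat n ℂ, x * x' = 1 ∧ ∀ j, ∀ g ∈ G,
      (rho (s j) (x * g.val * x') (x * g.inv * x'))ᴴ *ᵥ (rho (s j) x x' *ᵥ w j) =
        star (χ j g) • (rho (s j) x x' *ᵥ w j) := by
  obtain ⟨r, d, p, q, hpq, hqp, h1, h2⟩ := blocks h
  let bl : GL (Fin n) ℂ → Blk d := fun g b => of fun i j => (q * g.val * p) ⟨b, i⟩ ⟨b, j⟩
  have h3 : ∀ g ∈ G, blockDiagonal' (bl g) = q * g.val * p := fun g hg => by
    ext ⟨b, i⟩ ⟨b', i'⟩
    rcases eq_or_ne b b' with rfl | hb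
    · exact blockDiagonal'_apply_eq _ _ _ _
    · rw [blockDiagonal'_apply_ne _ _ _ hb, h1 _ ⟨g, hg, rfl⟩ _ _ hb]
  have h4 : ∀ g ∈ G, bl g * bl g⁻¹ = 1 := fun g hg => blockDiagonal'_injective (by
    refine (blockDiagonal'_mul _ _).trans ?_
    rw [h3 g hg, h3 _ (G.inv_mem hg), blockDiagonal'_one, Matrix.mul_assoc q _ p,
      Matrix.mul_assoc q _ p, Matrix.mul_assoc q, Matrix.mul_assoc _ p, ← Matrix.mul_assoc p, hpq,
      Matrix.one_mul, ← Matrix.mul_assoc g.val, Units.mul_inv, Matrix.one_mul, hqp])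
  have h5 : ∀ g ∈ G, blockDiagonal' (bl g)⁻¹ = q * g.inv * p := fun g hg => by
    rw [show (bl g)⁻¹ = bl g⁻¹ from funext fun b => inv_eq_right_inv (congrFun (h4 g hg) b)]
    exact h3 _ (G.inv_mem hg)
  have h6 : ∀ j, ∀ g ∈ G, act' (s j) (bl g) *ᵥ (rho (s j) q p *ᵥ w j) =
      χ j g • (rho (s j) q p *ᵥ w j) := fun j g hg => by
    rw [act', h3 g hg, h5 g hg, rho_mulVec, ← mulVec_smul, ← hw j g hg, rho_mulVec,
      Matrix.mul_assoc _ p, hpq, Matrix.mul_one, ← Matrix.mul_assoc p, ← Matrix.mul_assoc p, hpq,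
      Matrix.one_mul]
  obtain ⟨x₀, h7, h8⟩ := kn_blk κ s (fun j => rho (s j) q p *ᵥ w j) (bl '' G)
    (by
      rintro _ ⟨g, hg, rfl⟩
      exact ⟨⟨_, ⟨g⁻¹, G.inv_mem hg, rfl⟩, h4 g hg⟩, fun j => ⟨_, h6 j g hg⟩⟩)
    fun b W hW => h2 b W (by
      rintro _ ⟨g, hg, rfl⟩
      exact hW _ ⟨g, hg, rfl⟩)
  have hc : Fintype.card (Σ b, Fin (d b)) = Fintype.card (Fin n) := by
    have := trace_mul_comm q p
    rw [hpq, hqp, trace_one, trace_one] at this
    exact_mod_cast this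
  obtain ⟨E, e1, e2⟩ : ∃ E : Matrix (Fin n) (Σ b, Fin (d b)) ℂ, E * Eᴴ = 1 ∧ Eᴴ * E = 1 := by
    refine ⟨(1 : Mat n ℂ).submatrix (Equiv.refl _) (Fintype.equivOfCardEq hc), ?_, ?_⟩ <;>
      rw [conjTranspose_submatrix, conjTranspose_one, submatrix_mul_equiv, Matrix.mul_one,
        submatrix_one_equiv]
  have e3 : blockDiagonal' x₀ * blockDiagonal' x₀⁻¹ = 1 := by
    rw [← blockDiagonal'_mul, ← blockDiagonal'_one]
    exact congrArg _ h7.mul_inv
  refine ⟨E * blockDiagonal' x₀ * q, p * blockDiagonal' x₀⁻¹ * Eᴴ, ?_, fun j g hg => ?_⟩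
  · simp only [Matrix.mul_assoc]
    rw [← Matrix.mul_assoc q, hqp, Matrix.one_mul, ← Matrix.mul_assoc (blockDiagonal' x₀), e3,
      Matrix.one_mul, e1]
  · have a1 : rho (s j) (E * blockDiagonal' x₀ * q) (p * blockDiagonal' x₀⁻¹ * Eᴴ) *ᵥ w j =
        rho (s j) E Eᴴ *ᵥ (act' (s j) x₀ *ᵥ (rho (s j) q p *ᵥ w j)) := by
      rw [act', rho_mulVec, rho_mulVec, Matrix.mul_assoc p]
    have a2 : rho (s j) (E * blockDiagonal' x₀ * q * g.val * (p * blockDiagonal' x₀⁻¹ * Eᴴ))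
        (E * blockDiagonal' x₀ * q * g.inv * (p * blockDiagonal' x₀⁻¹ * Eᴴ)) =
        rho (s j) E Eᴴ * act' (s j) (x₀ * bl g * x₀⁻¹) * rho (s j) Eᴴ E := by
      have i2 : x₀⁻¹⁻¹ = x₀ := funext fun b => nonsing_inv_nonsing_inv _ (h7.unit b)
      rw [(isRep_act _).mul, (isRep_act _).mul, act', act', act', h3 g hg, h5 g hg, i2, rho_mul,
        rho_mul, rho_mul, rho_mul]
      simp only [Matrix.mul_assoc]
    rw [a1, a2, conjTranspose_mul, conjTranspose_mul, rho_conjTranspose _ E,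
      rho_conjTranspose _ Eᴴ, conjTranspose_conjTranspose, ← mulVec_mulVec, ← mulVec_mulVec,
      rho_mulVec _ Eᴴ, e2, rho_one, one_mulVec, h8 _ ⟨g, hg, rfl⟩ j _ (h6 j g hg), mulVec_smul]

end Pool.Agent.P.MP_257122_al
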