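import Pool.Agent.P.MP_257122_al.BSvd

/-!
# A convex invariant function attains its minimum

PLAN.  Let `S` be the closed set of `x` with `‖det (x b)‖ = 1`, `μ` the infimum of `f` on `S`,
`F x = ∑ b i j ‖x b i j‖ ^ 2`.  Suppose `μ` is not attained.  For every `k` the closed set
`C k = {x ∈ S | f x ≤ μ + 1/(k+1)}` is nonempty and `F` attains its minimum on it at some `x k`
(compact sublevel sets).  `F (x k) → ∞`, because `f` has a minimum `> μ` on each compact set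
`S ∩ {F ≤ c}`.  KEY INEQUALITY for `x = x k`, `g ∈ Γ`, `0 < t ≤ 1`, `δ = 2 ^ (-1/t)`: by `svd` in each
block, `x g x⁻¹ = k₁ d k₀` with `∏ d = 1`; put `z = k₀ x`, `p i` the squared norm of row `i` of `z`,
`e i = d i ^ 2`.  `d ^ t z ∈ C k`, so `∑ e i ^ t p i ≥ ∑ p i`; since `e ^ t - 1 ≤ t e` always and
`e ^ t - 1 ≤ -1/2` for `e < δ`, `∑_{e i < δ} p i ≤ 2 t ∑ e i p i = 2 t F (x g) ≤ 2 t c_g F x`.  Hence
`‖x_b v‖² = ∑ |(z v) i|² ≤ δ⁻¹ ‖x_b g_b v‖² + 2 t c_g F x ‖v‖²` (Cauchy-Schwarz on each row).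
Divide by `F x`, pass to a limit `y` of `x k / sqrt (F (x k))` (`F y = 1`); some block `y b ≠ 0`
has determinant `0`; its kernel `K` is proper, nonzero, and `g v ∈ K` gives
`‖y v‖² ≤ 2 t c_g ‖v‖²` for all `t`, so `v ∈ K`.
-/

namespace Pool.Agent.P.MP_257122_al

open Matrix

namespace BKn1Aux

variable {n : ℕ} {B : Type} [Fintype B] {d : B → ℕ}

/-- squared norm of a vector -/
noncomputable def N (v : Fin n → ℂ) : ℝ := ∑ i, ‖v i‖ ^ 2

/-- squared norm of a block matrix -/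
noncomputable def F (x : ∀ b, Mat (d b) ℂ) : ℝ := ∑ b, ∑ i, N (x b i)

theorem N0 (v : Fin n → ℂ) : 0 ≤ N v := Finset.sum_nonneg fun _ _ => sq_nonneg _

theorem N_eq {v : Fin n → ℂ} (h : N v ≤ 0) : v = 0 := funext fun i => by
  simpa using (Finset.sum_eq_zero_iff_of_nonneg fun _ _ => sq_nonneg _).1 (h.antisymm (N0 v)) i
    (Finset.mem_univ i)

theorem N_smul (r : ℝ) (v : Fin n → ℂ) : N ((r : ℂ) • v) = r ^ 2 * N v := by
  simp [N, mul_pow, Finset.mul_sum]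

theorem F_smul (r : ℝ) (x : ∀ b, Mat (d b) ℂ) : F ((r : ℂ) • x) = r ^ 2 * F x := by
  simp only [F, Finset.mul_sum, ← N_smul]
  rfl

theorem N_uni {k : Mat n ℂ} (h : kᴴ * k = 1) (v : Fin n → ℂ) : N (k *ᵥ v) = N v := by
  have e : ∀ v : Fin n → ℂ, (N v : ℂ) = star v ⬝ᵥ v := fun v => by
    simp [N, dotProduct, Complex.conj_mul']
  refine Complex.ofReal_injective ?_
  rw [e, e, star_mulVec, dotProduct_mulVec, vecMul_vecMul, h, vecMul_one]

theorem F_uni {k : ∀ b, Mat (d b) ℂ} (h : ∀ b, (k b)ᴴ * k b = 1) (x : ∀ b, Mat (d b) ℂ) :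
    F (k * x) = F x :=
  Finset.sum_congr rfl fun b _ => Finset.sum_comm.trans
    ((Finset.sum_congr rfl fun j _ => N_uni (h b) fun i => x b i j).trans Finset.sum_comm)

theorem F_diag (e : ∀ b, Fin (d b) → ℝ) (x : ∀ b, Mat (d b) ℂ) :
    F ((fun b => diagonal fun i => ((e b i : ℝ) : ℂ)) * x) = ∑ b, ∑ i, e b i ^ 2 * N (x b i) :=
  Finset.sum_congr rfl fun b _ => Finset.sum_congr rfl fun i _ => by
    rw [← N_smul]
    exact congrArg N (funext fun j => diagonal_mul _ _ _ _)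

theorem det_uni {k : Mat n ℂ} (h : kᴴ * k = 1) : ‖k.det‖ = 1 := by
  have := congrArg (fun x => ‖det x‖) h
  simp only [det_mul, det_conjTranspose, norm_mul, norm_star, det_one, norm_one] at this
  exact (mul_self_eq_one_iff.1 this).resolve_right (by linarith [norm_nonneg k.det])

theorem det_diag {e : Fin n → ℝ} (h : ∀ i, 0 < e i) :
    ‖(diagonal fun i => ((e i : ℝ) : ℂ)).det‖ = ∏ i, e i := by
  simp [det_diagonal, abs_of_pos (h _)]

theorem cs (u v : Fin n → ℂ) : ‖u ⬝ᵥ v‖ ^ 2 ≤ N u * N v :=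
  (pow_le_pow_left₀ (norm_nonneg _) ((norm_sum_le _ _).trans_eq (by simp)) 2).trans
    (Finset.sum_mul_sq_le_sq_mul_sq _ (fun i => ‖u i‖) fun i => ‖v i‖)

theorem pt {e a q : ℝ} (m : ℕ) (he : 0 < e) (ha : 0 ≤ a) (h : a ≤ q) :
    0 ≤ 1 - (e ^ (1 / (m + 1 : ℝ))) ^ 2 + 1 / (m + 1 : ℝ) * e ^ 2 ∧
    a ≤ 2 ^ (m + 1) * (e ^ 2 * a) +
      2 * q * (1 - (e ^ (1 / (m + 1 : ℝ))) ^ 2 + 1 / (m + 1 : ℝ) * e ^ 2) := by
  have t0 : (0 : ℝ) < 1 / (m + 1) := by positivity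
  have h1 := rpow_one_add_le_one_add_mul_self (s := e ^ 2 - 1) (by nlinarith) t0.le
    ((div_le_one (by positivity)).2 (by simp))
  rw [add_sub_cancel] at h1
  rw [← Real.rpow_natCast (e ^ _), ← Real.rpow_mul he.le, mul_comm _ ((2 : ℕ) : ℝ),
    Real.rpow_mul he.le, Real.rpow_natCast]
  have h2 : 0 ≤ 1 - (e ^ 2) ^ (1 / (m + 1 : ℝ)) + 1 / (m + 1 : ℝ) * e ^ 2 := by nlinarith
  refine ⟨h2, ?_⟩
  rcases le_total 1 (2 ^ (m + 1) * e ^ 2) with h3 | h3
  · nlinarith [mul_nonneg (ha.trans h) h2, mul_le_mul_of_nonneg_right h3 ha]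
  have h4 := Real.rpow_le_one (by positivity) h3 t0.le
  rw [Real.mul_rpow (by positivity) (by positivity), one_div, ← Nat.cast_succ,
    Real.pow_rpow_inv_natCast zero_le_two m.succ_ne_zero, Nat.cast_succ, ← one_div] at h4
  have : 0 ≤ 2 ^ (m + 1) * (e ^ 2 * a) := by positivity
  nlinarith [mul_nonneg (ha.trans h) (mul_pos t0 (pow_pos he 2)).le,
    mul_le_mul_of_nonneg_left h4 (ha.trans h)]

theorem cN : Continuous (N : (Fin n → ℂ) → ℝ) := by unfold N; fun_prop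

theorem cF : Continuous (F : (∀ b, Mat (d b) ℂ) → ℝ) :=
  continuous_finsetSum _ fun b _ => continuous_finsetSum _ fun i _ =>
    cN.comp ((continuous_apply i).comp (continuous_apply b))

theorem cpt (c : ℝ) : IsCompact {x : ∀ b, Mat (d b) ℂ | F x ≤ c} :=
  (isCompact_univ_pi fun b => isCompact_univ_pi fun _ : Fin (d b) => isCompact_univ_pi
    fun _ : Fin (d b) => isCompact_closedBall (0 : ℂ) √c).of_isClosed_subset
    (isClosed_le cF continuous_const) fun x hx b _ i _ j _ => mem_closedBall_zero_iff.2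
      (Real.le_sqrt_of_sq_le (((Finset.single_le_sum (f := fun j => ‖x b i j‖ ^ 2)
        (fun _ _ => sq_nonneg _) (Finset.mem_univ j)).trans ((Finset.single_le_sum
          (f := fun i => N (x b i)) (fun _ _ => N0 _) (Finset.mem_univ i)).trans
            (Finset.single_le_sum (f := fun b => ∑ i, N (x b i))
              (fun _ _ => Finset.sum_nonneg fun _ _ => N0 _) (Finset.mem_univ b)))).trans hx))

/-- the key inequality -/
def Ky (Γ : Set (∀ b, Mat (d b) ℂ)) (y : ∀ b, Mat (d b) ℂ) : Prop :=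
  ∀ g ∈ Γ, ∀ (m : ℕ) b v, N (y b *ᵥ v) ≤
    2 ^ (m + 1) * N (y b *ᵥ g b *ᵥ v) + 1 / (m + 1 : ℝ) * (2 * N v * F (y * g))

theorem bdd {Γ : Set (∀ b, Mat (d b) ℂ)} (hirr : ∀ (b : B) (K : Submodule ℂ (Fin (d b) → ℂ)),
      (∀ g ∈ Γ, ∀ v, g b *ᵥ v ∈ K → v ∈ K) → K = ⊥ ∨ K = ⊤) :
    ∃ c, ∀ x, (∀ b, ‖(x b).det‖ = 1) → Ky Γ x → F x ≤ c := by
  have h1 : IsClosed {y | Ky Γ y} := by
    simp only [Ky, Set.ofPred_forall]
    refine isClosed_iInter fun g => isClosed_iInter fun _ => isClosed_iInter fun m =>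
      isClosed_iInter fun b => isClosed_iInter fun v => isClosed_le
        (cN.comp ((continuous_apply b).matrix_mulVec continuous_const))
        ((continuous_const.mul (cN.comp ((continuous_apply b).matrix_mulVec continuous_const))).add
          (continuous_const.mul (continuous_const.mul (cF.comp (continuous_pi fun b =>
            (continuous_apply b).matrix_mul continuous_const)))))
  have h0 : Continuous fun y : ∀ b, Mat (d b) ℂ => ∑ b, if d b = 0 then (0 : ℝ) else ‖(y b).det‖ :=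
    continuous_finsetSum _ fun b _ => by
      split_ifs
      exacts [continuous_const, (continuous_apply b).matrix_det.norm]
  obtain ⟨ε, ε0, hε⟩ := (((cpt 1).inter_right (isClosed_le (continuous_const (y := 1)) cF)).inter_right
    h1).exists_forall_le' (a := 0) h0.continuousOn fun y ⟨⟨_, h2⟩, h3⟩ => by
      obtain ⟨b, hb⟩ : ∃ b, y b ≠ 0 := by
        by_contra! h
        have : (1 : ℝ) ≤ F y := h2
        simp [F, N, h] at this
        linarith
      refine Finset.sum_pos' (fun _ _ => by positivity) ⟨b, Finset.mem_univ b, ?_⟩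
      rw [if_neg fun e => hb (Matrix.ext fun i => (i.cast e).elim0), norm_pos_iff]
      rcases hirr b (LinearMap.ker (y b).mulVecLin) fun g hg v hv => N_eq (ge_of_tendsto'
        (zero_mul (2 * N v * F (y * g)) ▸ tendsto_one_div_add_atTop_nhds_zero_nat.mul_const _)
        fun m => by simpa [show y b *ᵥ g b *ᵥ v = 0 from hv, N] using h3 g hg m b v) with h | h
      · exact fun e => let ⟨v, a, c⟩ := exists_mulVec_eq_zero_iff.2 e
          a ((Submodule.eq_bot_iff _).1 h v c)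
      · exact absurd (toLin'.map_eq_zero_iff.1 (LinearMap.ker_eq_top.1 h)) hb
  refine ⟨max 1 ((Fintype.card B / ε) ^ 2), fun x hx h => le_max_iff.2 (or_iff_not_imp_left.2
    fun h2 => ?_)⟩
  have s1 : 1 < √(F x) := Real.lt_sqrt_of_sq_lt (by simpa using h2)
  have e : F ((((√(F x))⁻¹ : ℝ) : ℂ) • x) = 1 := by
    rw [F_smul, inv_pow, Real.sq_sqrt (by linarith), inv_mul_cancel₀ (by linarith)]
  have h3 := (hε _ ⟨⟨e.le, e.ge⟩, fun g hg m b v => by
    simp only [Pi.smul_apply, smul_mulVec, N_smul, smul_mul_assoc, F_smul]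
    nlinarith [mul_le_mul_of_nonneg_left (h g hg m b v) (sq_nonneg (√(F x))⁻¹)]⟩).trans
      (Finset.sum_le_card_nsmul _ _ (√(F x))⁻¹ fun b _ => by
        split_ifs with h0
        · positivity
        rw [Pi.smul_apply, det_smul, norm_mul, hx, mul_one, norm_pow, Complex.norm_real,
          Real.norm_of_nonneg (by positivity), Fintype.card_fin]
        exact pow_le_of_le_one (by positivity) (inv_le_one_of_one_le₀ s1.le) h0)
  rw [Finset.card_univ, nsmul_eq_mul, le_mul_inv_iff₀ (by linarith), ← le_div_iff₀' ε0] at h3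
  exact (Real.sqrt_le_left (by positivity)).1 h3

end BKn1Aux

open BKn1Aux

theorem kn_min {B : Type} [Fintype B] [DecidableEq B] (d : B → ℕ) (f : (∀ b, Mat (d b) ℂ) → ℝ)
    (Γ : Set (∀ b, Mat (d b) ℂ)) (hc : ContinuousOn f {x | ∀ b, ‖(x b).det‖ = 1})
    (h0 : ∀ x, 0 ≤ f x)
    (hu : ∀ k x : ∀ b, Mat (d b) ℂ, (∀ b, (k b)ᴴ * k b = 1) → (∀ b, ‖(x b).det‖ = 1) →
      f (k * x) = f x)
    (hd : ∀ (e : ∀ b, Fin (d b) → ℝ) (x : ∀ b, Mat (d b) ℂ) (t : ℝ), (∀ b i, 0 < e b i) →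
      (∀ b, ∏ i, e b i = 1) → (∀ b, ‖(x b).det‖ = 1) → 0 ≤ t → t ≤ 1 →
      f ((fun b => diagonal fun i => ((e b i ^ t : ℝ) : ℂ)) * x) ≤
        max (f x) (f ((fun b => diagonal fun i => ((e b i : ℝ) : ℂ)) * x)))
    (hΓ : ∀ g ∈ Γ, (∀ b, ‖(g b).det‖ = 1) ∧
      ∀ x : ∀ b, Mat (d b) ℂ, (∀ b, ‖(x b).det‖ = 1) → f (x * g) ≤ f x)
    (hirr : ∀ (b : B) (K : Submodule ℂ (Fin (d b) → ℂ)),
      (∀ g ∈ Γ, ∀ v, g b *ᵥ v ∈ K → v ∈ K) → K = ⊥ ∨ K = ⊤) :
    ∃ x₀ : ∀ b, Mat (d b) ℂ, (∀ b, ‖(x₀ b).det‖ = 1) ∧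
      ∀ x : ∀ b, Mat (d b) ℂ, (∀ b, ‖(x b).det‖ = 1) → f x₀ ≤ f x := by
  have hS : IsClosed {x : ∀ b, Mat (d b) ℂ | ∀ b, ‖(x b).det‖ = 1} := by
    simp only [Set.ofPred_forall]
    exact isClosed_iInter fun b => isClosed_eq (continuous_apply b).matrix_det.norm continuous_const
  obtain ⟨c, hb⟩ := bdd hirr
  have key : ∀ x₁ : ∀ b, Mat (d b) ℂ, (∀ b, ‖(x₁ b).det‖ = 1) →
      ∃ x ∈ {x | F x ≤ c} ∩ {x | ∀ b, ‖(x b).det‖ = 1}, f x ≤ f x₁ := fun x₁ h₁ => by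
    obtain ⟨x, ⟨hF, hx, hf⟩, hm⟩ := ((cpt (F x₁)).inter_right (hc.preimage_isClosed_of_isClosed hS
      (isClosed_Iic (a := f x₁)))).exists_isMinOn ⟨x₁, le_refl (F x₁), h₁, le_refl (f x₁)⟩
      cF.continuousOn
    refine ⟨x, ⟨hb x hx fun g hg m b v => ?_, hx⟩, hf⟩
    have u : ∀ {y : ∀ b, Mat (d b) ℂ}, (∀ b, ‖(y b).det‖ = 1) → ∀ b, IsUnit (y b).det :=
      fun h b => isUnit_iff_ne_zero.2 (norm_pos_iff.1 (h b ▸ one_pos))
    have i : ∀ b, ‖(x b * g b * (x b)⁻¹).det‖ = 1 := fun b => by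
      simp [det_mul, hx b, (hΓ g hg).1 b]
    choose k₀ k₁ e h1 h2 h3 h4 using fun b => svd (mul_nonsing_inv _ (u i b))
    have h5 : ∀ b, ∏ i, e b i = 1 := fun b => by
      rw [← i b, h4 b, det_mul, det_mul, norm_mul, norm_mul, det_uni (h1 b), det_uni (h2 b),
        one_mul, mul_one]
      exact (det_diag (h3 b)).symm
    have hz : ∀ b, ‖((k₀ * x) b).det‖ = 1 := fun b => by simp [det_mul, hx b, det_uni (h1 b)]
    have hD : ∀ e : ∀ b, Fin (d b) → ℝ, (∀ b i, 0 < e b i) → (∀ b, ∏ i, e b i = 1) → ∀ b,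
        ‖(((fun b => diagonal fun i => ((e b i : ℝ) : ℂ)) * (k₀ * x)) b).det‖ = 1 :=
      fun e a a' b => by rw [Pi.mul_apply, det_mul, norm_mul, det_diag (a b), a', hz, mul_one]
    have h6 : k₁ * ((fun b => diagonal fun i => ((e b i : ℝ) : ℂ)) * (k₀ * x)) = x * g :=
      funext fun b => by
        simp only [Pi.mul_apply, ← Matrix.mul_assoc]
        exact (congrArg (· * x b) (h4 b)).symm.trans (nonsing_inv_mul_cancel_right _ _ (u hx b))
    have t0 : (0 : ℝ) < 1 / (m + 1) := by positivity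
    have h7 := hd e _ _ h3 h5 hz t0.le ((div_le_one (by positivity)).2 (by simp))
    rw [hu _ _ h1 hx, ← hu k₁ _ h2 (hD e h3 h5), h6, max_eq_left ((hΓ g hg).2 x hx)] at h7
    have h8 : F x ≤ F ((fun b => diagonal fun i => ((e b i ^ (1 / (m + 1 : ℝ)) : ℝ) : ℂ)) *
        (k₀ * x)) := le_of_not_gt fun h => h.not_ge (hm ⟨h.le.trans hF, hD _
          (fun b i => Real.rpow_pos_of_pos (h3 b i) _) fun b => by
            rw [Real.finsetProd_rpow _ _ fun i _ => (h3 b i).le, h5, Real.one_rpow], h7.trans hf⟩)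
    rw [← F_uni h1 x, F_diag] at h8
    rw [mulVec_mulVec, show x b * g b = _ from congrFun h6.symm b, ← h6, F_uni h2, F_diag,
      Pi.mul_apply, ← mulVec_mulVec, N_uni (h2 b), ← N_uni (h1 b) (x b *ᵥ v), mulVec_mulVec,
      ← Pi.mul_apply k₀, Pi.mul_apply _ (k₀ * x), ← mulVec_mulVec]
    generalize k₀ * x = z at h8 ⊢
    have h9 := Finset.single_le_sum (f := fun b => ∑ i, (1 - (e b i ^ (1 / (m + 1 : ℝ))) ^ 2 +
      1 / (m + 1 : ℝ) * e b i ^ 2) * N (z b i)) (fun b _ => Finset.sum_nonneg fun i _ =>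
        mul_nonneg (pt m (h3 b i) le_rfl le_rfl).1 (N0 _)) (Finset.mem_univ b)
    have h10 : N (z b *ᵥ v) ≤ 2 ^ (m + 1) * N ((diagonal fun i => ((e b i : ℝ) : ℂ)) *ᵥ z b *ᵥ v) +
        2 * N v * ∑ i, (1 - (e b i ^ (1 / (m + 1 : ℝ))) ^ 2 + 1 / (m + 1 : ℝ) * e b i ^ 2) *
          N (z b i) := by
      rw [N, N, Finset.mul_sum, Finset.mul_sum, ← Finset.sum_add_distrib]
      refine Finset.sum_le_sum fun i _ => ((pt m (h3 b i) (sq_nonneg _) (cs (z b i) v)).2).trans_eq ?_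
      rw [mulVec_diagonal, norm_mul, mul_pow, Complex.norm_real, Real.norm_eq_abs, sq_abs]
      change _ = 2 ^ (m + 1) * (_ * ‖z b i ⬝ᵥ v‖ ^ 2) + _
      ring
    simp only [add_mul, sub_mul, one_mul, Finset.sum_add_distrib, Finset.sum_sub_distrib, mul_assoc,
      ← Finset.mul_sum] at h9 h10 ⊢
    rw [F] at h8
    nlinarith [mul_le_mul_of_nonneg_left h9 (N0 v), mul_le_mul_of_nonneg_left h8 (N0 v)]
  obtain ⟨x₁, h₁, -⟩ := key 1 (by simp)
  obtain ⟨x₀, h₀, hm⟩ := ((cpt c).inter_right hS).exists_isMinOn ⟨x₁, h₁⟩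
    (hc.mono Set.inter_subset_right)
  exact ⟨x₀, h₀.2, fun x hx => let ⟨_, a, b⟩ := key x hx; (hm a).trans b⟩

end Pool.Agent.P.MP_257122_al
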