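import Pool.Agent.P.MP_257122_al.BSmith
import Pool.Agent.P.MP_257122_al.BSb

/-!
# A path of lattices

PLAN.  `η = γ₁ t γ₂` (`smith`); `t i` and `(t i)⁻¹` are integral away from `m` (they are entries of
`γ₁⁻¹ η γ₂⁻¹` and its inverse), so their valuations vanish at primes not dividing `m`.  Take
`c` from `round_path`, `f 0 = 1`, `f (r+1) = γ₁ c_r` for `r ≤ T`, `f (T+2) = η`.  Consecutive `c`
differ by valuations in `{-1, 0, 1}` at primes dividing `m`.  Tensors: with `z` the coordinates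
in the basis `γ₁`, `M z I` and `M z I ∏ t ^ (∓1)` are integers (`LPk.mul_int`, `rho_diagonal`); for
integers `v_i`, `A ≥ 0`, `A + ∑ ± v_i ≥ 0`, `0 ≤ r ≤ T` one has `A + ∑ ± ⌊r v_i / T⌋ ≥ -D`, and
the sum vanishes if `p ∤ m`.  `p`-adic matrices: the valuation of `c r i` lies between `0` and
that of `t i`, so `‖c r i‖ ≤ max 1 ‖t i‖` and the same for the inverses.
-/

namespace Pool.Agent.P.MP_257122_al

open Matrix

namespace BLatAux

/-- An invertible diagonal matrix. -/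
def dg {n : ℕ} (c : Fin n → ℚ) (hc : ∀ i, 0 < c i) : GL (Fin n) ℚ :=
  ⟨diagonal c, diagonal fun i => (c i)⁻¹,
    by simp only [diagonal_mul_diagonal, mul_inv_cancel₀ (hc _).ne', diagonal_one],
    by simp only [diagonal_mul_diagonal, inv_mul_cancel₀ (hc _).ne', diagonal_one]⟩

theorem val_prod {κ : Type} (p : ℕ) [Fact p.Prime] (f : κ → ℚ) (hf : ∀ i, f i ≠ 0)
    (S : Finset κ) : padicValRat p (∏ i ∈ S, f i) = ∑ i ∈ S, padicValRat p (f i) := by
  classical
  induction S using Finset.induction_on with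
  | empty => simp
  | insert a S ha ih =>
    rw [Finset.prod_insert ha, Finset.sum_insert ha,
      padicValRat.mul (hf a) (Finset.prod_ne_zero_iff.2 fun i _ => hf i), ih]

theorem val_m {m p : ℕ} (hm : 0 < m) (hp : p.Prime) :
    0 ≤ padicValRat p (m : ℚ) ∧ (p ∣ m → 1 ≤ padicValRat p (m : ℚ)) := by
  have := Fact.mk hp
  rw [padicValRat.of_nat]
  exact ⟨Int.natCast_nonneg _, fun h => by exact_mod_cast one_le_padicValNat_of_dvd hm.ne' h⟩

theorem fl_lo {T : ℤ} (hT : 0 < T) (x : ℤ) : x - T ≤ T * (x / T) ∧ T * (x / T) ≤ x := by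
  have h1 := Int.mul_ediv_add_emod x T
  have h2 := Int.emod_nonneg x hT.ne'
  have h3 := Int.emod_lt_of_pos x hT
  omega

theorem fl_between {T r v : ℤ} (hT : 0 < T) (h0 : 0 ≤ r) (h1 : r ≤ T) :
    (0 ≤ r * v / T ∧ r * v / T ≤ v) ∨ (v ≤ r * v / T ∧ r * v / T ≤ 0) := by
  rcases le_total 0 v with h | h
  · exact Or.inl ⟨Int.ediv_nonneg (mul_nonneg h0 h) hT.le,
      Int.ediv_le_of_le_mul hT (by nlinarith)⟩
  · exact Or.inr ⟨Int.le_ediv_of_mul_le hT (by nlinarith),
      Int.ediv_le_of_le_mul hT (by nlinarith)⟩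

theorem fl_step {T r v : ℤ} (hT : 0 < T) (h : |v| ≤ T) :
    r * v / T ≤ (r + 1) * v / T + 1 ∧ (r + 1) * v / T ≤ r * v / T + 1 := by
  obtain ⟨h1, h2⟩ := abs_le.1 h
  rw [← Int.add_mul_ediv_right _ 1 hT.ne', ← Int.add_mul_ediv_right _ 1 hT.ne']
  exact ⟨Int.ediv_le_ediv hT (by linarith), Int.ediv_le_ediv hT (by linarith)⟩

theorem int_diag {n m : ℕ} {d : Fin n → ℚ} (h : ∀ i, ∃ z : ℤ, (m : ℚ) * d i = z) :
    IntM m (diagonal d) := by
  intro i j
  by_cases c : i = j
  · rw [c, diagonal_apply_eq]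
    exact h j
  · rw [diagonal_apply_ne _ c]
    exact ⟨0, by simp⟩

theorem zm_diag {n m : ℕ} {d : Fin n → ℚ} (h : ∀ i, d i ∈ Zinv m) : ZM m (diagonal d) := by
  intro i j
  by_cases c : i = j
  · rw [c, diagonal_apply_eq]
    exact h j
  · rw [diagonal_apply_ne _ c]
    exact zero_mem _

/-- Integrality is convex up to a bounded power of `m`. -/
theorem conv {n s m M T r : ℕ} {t c : Fin n → ℚ} (hm : 0 < m) (hT : 0 < T) (hr : r ≤ T)
    (ht : ∀ i, 0 < t i) (hc : ∀ i, 0 < c i)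
    (h0 : ∀ i, ∀ p : ℕ, p.Prime → ¬ p ∣ m → padicValRat p (t i) = 0)
    (hv : ∀ i, ∀ p : ℕ, p.Prime →
      padicValRat p (c i) = ((r : ℤ) * padicValRat p (t i)) / (T : ℤ))
    {κ : Type} [Fintype κ] [DecidableEq κ] (hκ : Fintype.card κ ≤ s) (σ : κ → Bool)
    {z : (κ → Fin n) → ℚ} (h1 : IntV M z)
    (h2 : IntV M (rho σ (diagonal fun i => (t i)⁻¹) (diagonal t) *ᵥ z)) :
    IntV (M * m ^ s) (rho σ (diagonal fun i => (c i)⁻¹) (diagonal c) *ᵥ z) := by
  intro I
  have a1 := h1 I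
  have a2 := h2 I
  rw [rho_diagonal, mulVec_diagonal] at a2 ⊢
  by_cases hz : (M : ℚ) * z I = 0
  · exact ⟨0, by push_cast; linear_combination (m : ℚ) ^ s *
      (∏ i, if σ i = true then (c (I i))⁻¹ else c (I i)) * hz⟩
  have ne : ∀ {d : Fin n → ℚ}, (∀ i, 0 < d i) →
      ∀ i, (if σ i = true then (d (I i))⁻¹ else d (I i)) ≠ 0 := fun hd i => by
    split_ifs
    · exact inv_ne_zero (hd _).ne'
    · exact (hd _).ne'
  have vl : ∀ p : ℕ, p.Prime → ∀ {d : Fin n → ℚ}, (∀ i, 0 < d i) →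
      padicValRat p (M * ((∏ i, if σ i = true then (d (I i))⁻¹ else d (I i)) * z I)) =
        padicValRat p (M * z I) + ∑ i, if σ i = true then -padicValRat p (d (I i))
          else padicValRat p (d (I i)) := fun p hp d hd => by
    have := Fact.mk hp
    rw [mul_left_comm, mul_comm, padicValRat.mul hz (Finset.prod_ne_zero_iff.2 fun i _ => ne hd i),
      val_prod p _ (ne hd)]
    refine congrArg _ (Finset.sum_congr rfl fun i _ => ?_)
    split_ifs
    · exact padicValRat.inv _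
    · rfl
  refine int_iff_val.2 fun p hp => ?_
  have := Fact.mk hp
  have b1 := int_iff_val.1 a1 p hp
  have b2 := int_iff_val.1 a2 p hp
  rw [vl p hp ht] at b2
  have hm' : (m : ℚ) ≠ 0 := by exact_mod_cast hm.ne'
  rw [Nat.cast_mul, Nat.cast_pow, mul_comm (M : ℚ), mul_assoc, padicValRat.mul (pow_ne_zero _ hm')
    (by
      rw [mul_left_comm]
      exact mul_ne_zero (Finset.prod_ne_zero_iff.2 fun i _ => ne hc i) hz),
    padicValRat.pow, vl p hp hc]
  simp only [hv _ p hp]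
  obtain ⟨b3, b4⟩ := val_m hm hp
  by_cases hpm : p ∣ m
  · have hT' : (0 : ℤ) < T := by exact_mod_cast hT
    have hr' : (r : ℤ) ≤ T := by exact_mod_cast hr
    have hs : (Fintype.card κ : ℤ) ≤ s := by exact_mod_cast hκ
    have b5 : ∑ i, ((r : ℤ) * (if σ i = true then -padicValRat p (t (I i))
        else padicValRat p (t (I i))) - T) ≤ ∑ i, (T : ℤ) * (if σ i = true then
          -((r : ℤ) * padicValRat p (t (I i)) / T) else (r : ℤ) * padicValRat p (t (I i)) / T) :=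
      Finset.sum_le_sum fun i _ => by
        have := fl_lo hT' ((r : ℤ) * padicValRat p (t (I i)))
        split_ifs <;> linarith
    rw [Finset.sum_sub_distrib, ← Finset.mul_sum, ← Finset.mul_sum, Finset.sum_const,
      Finset.card_univ, nsmul_eq_mul] at b5
    have b6 : (s : ℤ) ≤ s * padicValRat p (m : ℚ) :=
      le_mul_of_one_le_right (Int.natCast_nonneg _) (b4 hpm)
    refine nonneg_of_mul_nonneg_right (b := _) ?_ hT'
    have b7 := mul_nonneg (Int.natCast_nonneg r) b2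
    have b8 := mul_nonneg (sub_nonneg.2 hr') b1
    have b9 := mul_le_mul_of_nonneg_left (hs.trans b6) hT'.le
    nlinarith
  · simp only [h0 _ p hp hpm, mul_zero, Int.zero_ediv, neg_zero, ite_self, Finset.sum_const_zero]
    have := mul_nonneg (Int.natCast_nonneg s) b3
    linarith

theorem norm_conv (p : Nat.Primes) {a b : ℚ} {x : Qp p} (ha : 0 < a) (hb : 0 < b)
    (h : 0 ≤ padicValRat p.1 a ∨ padicValRat p.1 b ≤ padicValRat p.1 a) (h1 : ‖x‖ ≤ 1)
    (h2 : ‖x * b‖ ≤ 1) : ‖x * a‖ ≤ 1 := by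
  rw [norm_mul] at h2 ⊢
  rcases h with h | h
  · have := (norm_cast_le_iff p ha.ne' one_ne_zero).2 (by simpa using h)
    rw [Rat.cast_one, norm_one] at this
    exact mul_le_one₀ h1 (norm_nonneg _) this
  · exact (mul_le_mul_of_nonneg_left ((norm_cast_le_iff p ha.ne' hb.ne').2 h)
      (norm_nonneg _)).trans h2

theorem pgood {n N : ℕ} {t c : Fin n → ℚ} {b b' : Mat n ℚ} {e : PMat n} (ht : ∀ i, 0 < t i)
    (hc : ∀ i, 0 < c i)
    (hv : ∀ i, (0 ≤ padicValRat e.1.1 (c i) ∧ padicValRat e.1.1 (c i) ≤ padicValRat e.1.1 (t i)) ∨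
      (padicValRat e.1.1 (t i) ≤ padicValRat e.1.1 (c i) ∧ padicValRat e.1.1 (c i) ≤ 0))
    (h1 : PGood N b b' e) (h2 : PGood N (b * diagonal t) ((diagonal fun i => (t i)⁻¹) * b') e) :
    PGood N (b * diagonal c) ((diagonal fun i => (c i)⁻¹) * b') e := by
  have := Fact.mk e.1.2
  have e1 : ∀ (d : Fin n → ℚ) i j, (N : Qp e.1) * (castM (Qp e.1) (diagonal d * b') * e.2) i j =
      N * (castM (Qp e.1) b' * e.2) i j * d i := fun d i j => by
    rw [castM_mul, castM_diagonal, Matrix.mul_assoc, diagonal_mul]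
    ring
  have e2 : ∀ (d : Fin n → ℚ) i j, (N : Qp e.1) * (e.2 * castM (Qp e.1) (b * diagonal d)) i j =
      N * (e.2 * castM (Qp e.1) b) i j * d j := fun d i j => by
    rw [castM_mul, castM_diagonal, ← Matrix.mul_assoc, mul_diagonal]
    ring
  intro i j
  obtain ⟨a1, a2⟩ := h2 i j
  rw [e1] at a1 ⊢
  rw [e2] at a2 ⊢
  refine ⟨norm_conv e.1 (inv_pos.2 (hc i)) (inv_pos.2 (ht i)) ?_ (h1 i j).1 a1,
    norm_conv e.1 (hc j) (ht j) ((hv j).imp And.left And.left) (h1 i j).2 a2⟩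
  rw [padicValRat.inv, padicValRat.inv]
  have := hv i
  omega

end BLatAux

open BLatAux

theorem lat_path {n s m M N : ℕ} (ys : List (OPk n)) (es : List (PMat n)) (η : GL (Fin n) ℚ)
    (hm : 0 < m) (hη : ZM m η.val) (hη' : ZM m η.inv)
    (hy : ∀ q ∈ ys, q.1.length ≤ s ∧ LPk M 1 1 q ∧ LPk M η.val η.inv q)
    (he : ∀ e ∈ es, PGood N 1 1 e ∧ PGood N η.val η.inv e) :
    ∃ (T : ℕ) (f : ℕ → GL (Fin n) ℚ), f 0 = 1 ∧ f T = η ∧
      (∀ r ≤ T, ZM m (f r).val ∧ ZM m (f r).inv ∧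
        (∀ q ∈ ys, LPk (M * m ^ s) (f r).val (f r).inv q) ∧
        ∀ e ∈ es, PGood N (f r).val (f r).inv e) ∧
      ∀ r < T, IntM m ((f r)⁻¹ * f (r + 1)).val ∧ IntM m ((f r)⁻¹ * f (r + 1)).inv := by
  obtain ⟨γ₁, γ₂, t, g1, g2, g3, g4, ht, hs⟩ := smith η
  obtain ⟨T, c, hT, hc, hc0, hcT, hb, hv⟩ := round_path t ht
  have e1 : γ₁ * dg t ht = η * γ₂⁻¹ := by
    rw [eq_mul_inv_iff_mul_eq]
    exact Units.ext hs.symm
  have e2 : dg t ht = γ₁⁻¹ * (η * γ₂⁻¹) := by rw [← e1, inv_mul_cancel_left]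
  have z1 : ZM m (diagonal t) := by
    have : diagonal t = γ₁.inv * (η.val * γ₂.inv) := congrArg Units.val e2
    exact this ▸ (g2.zm m).mul (hη.mul (g4.zm m))
  have z2 : ZM m (diagonal fun i => (t i)⁻¹) := by
    have : (diagonal fun i => (t i)⁻¹) = γ₂.val * η.inv * γ₁.val := congrArg Units.inv e2
    exact this ▸ ((g3.zm m).mul hη').mul (g1.zm m)
  have h0 : ∀ i, ∀ p : ℕ, p.Prime → ¬ p ∣ m → padicValRat p (t i) = 0 := fun i p hp hpm => by
    have := Fact.mk hp
    have a1 := z1 i i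
    have a2 := z2 i i
    rw [diagonal_apply_eq] at a1 a2
    have a3 := zinv_iff_val.1 a1 p hp hpm
    have a4 := zinv_iff_val.1 a2 p hp hpm
    rw [padicValRat.inv] at a4
    omega
  have hc1 : ∀ r i, ∀ p : ℕ, p.Prime → ¬ p ∣ m → padicValRat p (c r i) = 0 :=
    fun r i p hp hpm => by rw [hv r i p hp, h0 i p hp hpm, mul_zero, Int.zero_ediv]
  have v1 : γ₁.val * diagonal t = η.val * γ₂.inv := congrArg Units.val e1
  have v2 : (diagonal fun i => (t i)⁻¹) * γ₁.inv = γ₂.val * η.inv := congrArg Units.inv e1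
  have hT' : (0 : ℤ) < T := by exact_mod_cast hT
  have hm' : (m : ℚ) ≠ 0 := by exact_mod_cast hm.ne'
  have mid : ∀ r ≤ T, ZM m (γ₁ * dg (c r) (hc r)).val ∧ ZM m (γ₁ * dg (c r) (hc r)).inv ∧
      (∀ q ∈ ys, LPk (M * m ^ s) (γ₁ * dg (c r) (hc r)).val (γ₁ * dg (c r) (hc r)).inv q) ∧
      ∀ e ∈ es, PGood N (γ₁ * dg (c r) (hc r)).val (γ₁ * dg (c r) (hc r)).inv e := by
    intro r hr
    refine ⟨(g1.zm m).mul (zm_diag fun i => zinv_iff_val.2 fun p hp hpm => (hc1 r i p hp hpm).ge),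
      (zm_diag fun i => zinv_iff_val.2 fun p hp hpm => ?_).mul (g2.zm m), fun q hq j => ?_,
      fun e hq => ?_⟩
    · have := Fact.mk hp
      rw [padicValRat.inv, hc1 r i p hp hpm, neg_zero]
    · obtain ⟨a0, a1, a2⟩ := hy q hq
      have a3 := a1.mul_int g1 g2 j
      have a4 := a2.mul_int g4 g3 j
      rw [Matrix.one_mul, Matrix.mul_one] at a3
      rw [← v1, ← v2, ← rho_mulVec, ← rho_mulVec] at a4
      have a5 : Fintype.card (Fin q.1.length) ≤ s := by rwa [Fintype.card_fin]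
      have a6 := conv hm hT hr ht (hc r) h0 (hv r) a5 _ a3.1 a4.1
      have a7 := conv hm hT hr ht (hc r) h0 (hv r) a5 _ a3.2 a4.2
      rw [rho_mulVec] at a6 a7
      exact ⟨a6, a7⟩
    · obtain ⟨a1, a2⟩ := he e hq
      have a3 := a1.mul_int g1 g2
      have a4 := a2.mul_int g4 g3
      rw [Matrix.one_mul, Matrix.mul_one] at a3
      rw [← v1, ← v2] at a4
      refine pgood ht (hc r) (fun i => ?_) a3 a4
      rw [hv r i _ e.1.2]
      exact fl_between hT' (Int.natCast_nonneg r) (by exact_mod_cast hr)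
  have ratio : ∀ {a b : ℚ}, 0 < a → 0 < b → (∀ p : ℕ, p.Prime → padicValRat p a ≤
      padicValRat p b + 1 ∧ (¬ p ∣ m → padicValRat p a = padicValRat p b)) →
      ∃ z : ℤ, (m : ℚ) * (a⁻¹ * b) = z := fun ha hb h => int_iff_val.2 fun p hp => by
    have := Fact.mk hp
    rw [padicValRat.mul hm' (mul_pos (inv_pos.2 ha) hb).ne', padicValRat.mul (inv_pos.2 ha).ne'
      hb.ne', padicValRat.inv]
    obtain ⟨a1, a2⟩ := val_m hm hp
    obtain ⟨a3, a4⟩ := h p hp
    by_cases hpm : p ∣ m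
    · have := a2 hpm
      omega
    · have := a4 hpm
      omega
  have dv : M ∣ M * m ^ s := dvd_mul_right _ _
  refine ⟨T + 2, fun r => if r = 0 then 1 else if r = T + 2 then η else
    γ₁ * dg (c (r - 1)) (hc _), if_pos rfl, by simp, fun r hr => ?_, fun r hr => ?_⟩
  · dsimp only
    split_ifs with d1 d2
    · exact ⟨intM_one.zm m, intM_one.zm m, fun q hq j =>
        ⟨((hy q hq).2.1 j).1.of_dvd dv, ((hy q hq).2.1 j).2.of_dvd dv⟩, fun e hq => (he e hq).1⟩
    · exact ⟨hη, hη', fun q hq j =>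
        ⟨((hy q hq).2.2 j).1.of_dvd dv, ((hy q hq).2.2 j).2.of_dvd dv⟩, fun e hq => (he e hq).2⟩
    · exact mid _ (by omega)
  · dsimp only
    rcases r with _ | r
    · have : dg (c 0) (hc 0) = 1 := Units.ext (by
        show diagonal (c 0) = 1
        rw [← diagonal_one]
        exact congrArg diagonal (funext hc0))
      rw [if_pos rfl, if_neg (by omega), if_neg (by omega), inv_one, one_mul, Nat.zero_add,
        Nat.sub_self, this, mul_one]
      exact ⟨g1.of_dvd (one_dvd m), g2.of_dvd (one_dvd m)⟩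
    · rw [if_neg (by omega), if_neg (by omega), if_neg (by omega)]
      by_cases d : r = T
      · subst d
        have : dg (c (r + 1 - 1)) (hc _) = dg t ht := Units.ext (congrArg diagonal hcT)
        rw [if_pos rfl, this, e1, _root_.mul_inv_rev, inv_inv, inv_mul_cancel_right]
        exact ⟨g3.of_dvd (one_dvd m), g4.of_dvd (one_dvd m)⟩
      · rw [if_neg (by omega), _root_.mul_inv_rev, mul_assoc, inv_mul_cancel_left]
        have st : ∀ i, ∀ p : ℕ, p.Prime →
            padicValRat p (c r i) ≤ padicValRat p (c (r + 1) i) + 1 ∧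
              padicValRat p (c (r + 1) i) ≤ padicValRat p (c r i) + 1 := fun i p hp => by
          rw [hv r i p hp, hv (r + 1) i p hp, Nat.cast_succ]
          exact fl_step hT' (hb i p hp)
        constructor
        · show IntM m ((diagonal fun i => (c r i)⁻¹) * diagonal (c (r + 1)))
          rw [diagonal_mul_diagonal]
          exact int_diag fun i => ratio (hc r i) (hc (r + 1) i) fun p hp =>
            ⟨(st i p hp).1, fun hpm => by rw [hc1 _ i p hp hpm, hc1 _ i p hp hpm]⟩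
        · show IntM m ((diagonal fun i => (c (r + 1) i)⁻¹) * diagonal (c r))
          rw [diagonal_mul_diagonal]
          exact int_diag fun i => ratio (hc (r + 1) i) (hc r i) fun p hp =>
            ⟨(st i p hp).2, fun hpm => by rw [hc1 _ i p hp hpm, hc1 _ i p hp hpm]⟩

end Pool.Agent.P.MP_257122_al
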