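import Pool.Agent.P.MP_257122_al.CAux

/-!
# Exponential and logarithm of unipotent matrices
-/

namespace Pool.Agent.P.MP_257122_al.C

open scoped commutatorElement

variable {n c : ℕ} {wt : Fin n → ℕ} {i j : ℕ} {x y : Matrix (Fin n) (Fin n) ℚ}
  {g a b : GL (Fin n) ℚ}

theorem fil_mul (hx : x ∈ fil wt i) (hy : y ∈ fil wt j) : x * y ∈ fil wt (i + j) := by
  intro p q h
  rw [Matrix.mul_apply]
  refine Finset.sum_eq_zero fun r _ => ?_
  by_cases h1 : wt p < wt r + i
  · rw [hx p r h1, zero_mul]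
  · rw [hy r q (by omega), mul_zero]

theorem fil_anti (h : i ≤ j) (hx : x ∈ fil wt j) : x ∈ fil wt i :=
  fun p q h' => hx p q (by omega)

theorem fil_zero (hc : ∀ i, wt i < c) (h : c ≤ j) (hx : x ∈ fil wt j) : x = 0 := by
  ext p q
  have := hc p
  exact hx p q (by omega)

theorem one_mem_fil : (1 : Matrix (Fin n) (Fin n) ℚ) ∈ fil wt 0 := by
  intro p q h
  exact Matrix.one_apply_ne (by rintro rfl; omega)

theorem fil_pow (hx : x ∈ fil wt 1) (k : ℕ) : x ^ k ∈ fil wt k := by
  induction k with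
  | zero => rw [pow_zero]; exact one_mem_fil
  | succ k ih => rw [pow_succ]; exact fil_mul ih hx

theorem map_ex {R S : Type} [Ring R] [Algebra ℚ R] [Ring S] [Algebra ℚ S] (φ : R →+* S) (x : R) :
    φ (ex c x) = ex c (φ x) := by
  simp only [ex, map_sum, map_rat_smul, map_pow]

theorem map_lg {R S : Type} [Ring R] [Algebra ℚ R] [Ring S] [Algebra ℚ S] (φ : R →+* S) (x : R) :
    φ (lg c x) = lg c (φ x) := by
  simp only [lg, map_sum, map_rat_smul, map_pow, map_sub, map_one]

theorem lg_one {R : Type} [Ring R] [Algebra ℚ R] : lg c (1 : R) = 0 := by simp [lg]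

namespace CBasAux
open Polynomial

theorem ode {d : ℕ} {G : ℚ[X]} (h : X ^ d ∣ (1 + X) * derivative G - G) (h0 : G.coeff 0 = 0) :
    X ^ (d + 1) ∣ G := by
  rw [X_pow_dvd_iff] at h ⊢
  intro k hk
  induction k with
  | zero => exact h0
  | succ k ih =>
    have h1 := h k (by omega)
    have h2 : (X * derivative G).coeff k = k * G.coeff k := by
      cases k with
      | zero => simp
      | succ k => rw [coeff_X_mul, coeff_derivative]; push_cast; ring
    rw [add_mul, one_mul, coeff_sub, coeff_add, h2, coeff_derivative, ih (by omega)] at h1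
    have h3 : ((k : ℚ) + 1) ≠ 0 := by positivity
    simpa [h3] using h1

theorem der_lg (c : ℕ) :
    (1 + X) * derivative (lg c (1 + X : ℚ[X])) = 1 - (-X) ^ c := by
  induction c with
  | zero => simp [lg]
  | succ c ih =>
    have h3 : ((c : ℚ) + 1) ≠ 0 := by positivity
    have e : derivative ((((-1 : ℚ) ^ c / ((c : ℚ) + 1)) • (1 + X - 1 : ℚ[X]) ^ (c + 1))) =
        (-X) ^ c := by
      rw [add_sub_cancel_left, derivative_smul, derivative_X_pow_succ, ← smul_eq_C_mul, smul_smul,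
        div_mul_cancel₀ _ h3, neg_pow (X : ℚ[X]), smul_eq_C_mul, map_pow, map_neg, map_one]
    rw [lg, Finset.sum_range_succ, map_add, mul_add, e]
    rw [lg] at ih
    rw [ih]
    ring

theorem der_ex (d : ℕ) (L : ℚ[X]) : derivative (ex (d + 1) L) = ex d L * derivative L := by
  induction d with
  | zero => simp [ex]
  | succ d ih =>
    have h3 : ((d : ℚ) + 1) ≠ 0 := by positivity
    have e : (((d + 1).factorial : ℚ)⁻¹) * ((d : ℚ) + 1) = (d.factorial : ℚ)⁻¹ := by
      rw [Nat.factorial_succ]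
      push_cast
      field_simp
    rw [ex, Finset.sum_range_succ, map_add]
    rw [ex] at ih
    rw [ih, derivative_smul, derivative_pow_succ, mul_assoc, ← smul_eq_C_mul, smul_smul, e]
    simp only [ex, Finset.sum_range_succ, add_mul, smul_mul_assoc]

theorem key (d : ℕ) : X ^ (d + 1) ∣ ex (d + 1) (lg (d + 1) (1 + X : ℚ[X])) - (1 + X) := by
  set L := lg (d + 1) (1 + X : ℚ[X]) with hL
  have h1 : X ∣ L := Finset.dvd_sum fun k _ => by
    rw [add_sub_cancel_left, smul_eq_C_mul]
    exact Dvd.dvd.mul_left (dvd_pow_self X (Nat.succ_ne_zero k)) _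
  refine ode ?_ ?_
  · have e : (1 + X) * derivative (ex (d + 1) L - (1 + X)) - (ex (d + 1) L - (1 + X)) =
        - ((-X) ^ (d + 1) * ex d L) - C ((d.factorial : ℚ)⁻¹) * L ^ d := by
      have e1 : ex (d + 1) L = ex d L + C ((d.factorial : ℚ)⁻¹) * L ^ d := by
        rw [ex, Finset.sum_range_succ, smul_eq_C_mul, ex]
      rw [map_sub, der_ex, map_add, derivative_one, derivative_X, e1]
      linear_combination (ex d L) * der_lg (d + 1)
    rw [e]
    refine dvd_sub (dvd_neg.2 (Dvd.dvd.mul_right ?_ _))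
      (Dvd.dvd.mul_left (pow_dvd_pow_of_dvd h1 d) _)
    rw [pow_succ]
    exact Dvd.dvd.mul_right (pow_dvd_pow_of_dvd (dvd_neg.2 dvd_rfl) d) _
  · rw [← X_dvd_iff, ex, Finset.sum_range_succ']
    have e : ∀ S : ℚ[X], S + (((0 : ℕ).factorial : ℚ)⁻¹) • L ^ 0 - (1 + X) = S - X := by
      intro S
      rw [pow_zero, Nat.factorial_zero, Nat.cast_one, inv_one, one_smul]
      ring
    rw [e]
    refine dvd_sub (Finset.dvd_sum fun k _ => ?_) dvd_rfl
    rw [smul_eq_C_mul]
    exact Dvd.dvd.mul_left (h1.trans (dvd_pow_self L (Nat.succ_ne_zero k))) _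

end CBasAux

/-- In any algebra the truncated series are inverse to each other on nilpotent elements. -/
theorem ex_lg' {R : Type} [Ring R] [Algebra ℚ R] {u : R} (h : (u - 1) ^ c = 0) :
    ex c (lg c u) = u := by
  cases c with
  | zero =>
    have : Subsingleton R := subsingleton_of_zero_eq_one (by simpa using h.symm)
    exact Subsingleton.elim _ _
  | succ d =>
    obtain ⟨q, hq⟩ := CBasAux.key d
    have h1 := congrArg (Polynomial.aeval (u - 1)).toRingHom hq
    rw [map_sub, map_ex, map_lg, map_mul, map_pow, map_add, map_one] at h1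
    simp only [AlgHom.toRingHom_eq_coe, RingHom.coe_coe, Polynomial.aeval_X, h, zero_mul,
      add_sub_cancel] at h1
    exact sub_eq_zero.1 h1

theorem ex_lg (hc : ∀ i, wt i < c) (hg : IsUni wt g) : ex c (lg c g.val) = g.val :=
  ex_lg' (fil_zero hc le_rfl (fil_pow hg c))

theorem lg_mem_fil (hg : IsUni wt g) : lg c g.val ∈ fil wt 1 :=
  Submodule.sum_mem _ fun k _ =>
    Submodule.smul_mem _ _ (fil_anti (by omega) (fil_pow hg (k + 1)))

namespace CBasAux

theorem pow_sub (hx : x ∈ fil wt 1) (hy : y ∈ fil wt 1) (h : x - y ∈ fil wt j) (k : ℕ) :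
    x ^ (k + 1) - y ^ (k + 1) ∈ fil wt (j + k) := by
  induction k with
  | zero => simpa using h
  | succ k ih =>
    have e : x ^ (k + 1 + 1) - y ^ (k + 1 + 1) =
        x * (x ^ (k + 1) - y ^ (k + 1)) + (x - y) * y ^ (k + 1) := by
      rw [pow_succ' x (k + 1), pow_succ' y (k + 1)]
      noncomm_ring
    rw [e]
    exact add_mem (fil_anti (by omega) (fil_mul hx ih)) (fil_mul h (fil_pow hy (k + 1)))

theorem ex_inj (hc : ∀ i, wt i < c) (hx : x ∈ fil wt 1) (hy : y ∈ fil wt 1)
    (h : ex c x = ex c y) : x = y := by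
  by_cases h1 : c ≤ 1
  · rw [fil_zero hc h1 hx, fil_zero hc h1 hy]
  obtain ⟨d, rfl⟩ : ∃ d, c = d + 1 + 1 := ⟨c - 2, by omega⟩
  have e : x - y = -∑ k ∈ Finset.range d,
      (((k + 1 + 1).factorial : ℚ)⁻¹) • (x ^ (k + 1 + 1) - y ^ (k + 1 + 1)) := by
    simp only [ex, Finset.sum_range_succ', zero_add, pow_zero, pow_one, Nat.factorial_one,
      Nat.cast_one, inv_one, one_smul, add_left_inj] at h
    simp only [smul_sub, Finset.sum_sub_distrib]
    rw [neg_sub, sub_eq_sub_iff_add_eq_add, add_comm x, h]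
  have h2 : ∀ j, x - y ∈ fil wt (j + 1) := by
    intro j
    induction j with
    | zero => exact sub_mem hx hy
    | succ j ih =>
      rw [e]
      exact neg_mem (Submodule.sum_mem _ fun k _ => Submodule.smul_mem _ _
        (fil_anti (by omega) (pow_sub hx hy ih (k + 1))))
  exact sub_eq_zero.1 (fil_zero hc (Nat.le_succ _) (h2 _))

theorem ex_mem (hc : ∀ i, wt i < c) (hx : x ∈ fil wt 1) : ex c x - 1 ∈ fil wt 1 := by
  cases c with
  | zero => exact fun p _ _ => absurd (hc p) (Nat.not_lt_zero _)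
  | succ d =>
    rw [ex, Finset.sum_range_succ', pow_zero, Nat.factorial_zero, Nat.cast_one, inv_one, one_smul,
      add_sub_cancel_right]
    exact Submodule.sum_mem _ fun k _ =>
      Submodule.smul_mem _ _ (fil_anti (by omega) (fil_pow hx (k + 1)))

theorem ex_eq (hc : ∀ i, wt i < c) (hx : x ∈ fil wt 1) : ex c x = IsNilpotent.exp x :=
  (IsNilpotent.exp_eq_sum (fil_zero hc le_rfl (fil_pow hx c))).symm

theorem nil (hc : ∀ i, wt i < c) (hx : x ∈ fil wt 1) : IsNilpotent x :=
  ⟨c, fil_zero hc le_rfl (fil_pow hx c)⟩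

theorem mem_zero (hx : x - 1 ∈ fil wt j) : x ∈ fil wt 0 := by
  have := add_mem (fil_anti (Nat.zero_le j) hx) (one_mem_fil (wt := wt))
  rwa [sub_add_cancel] at this

theorem mul_mem (hx : x - 1 ∈ fil wt j) (hy : y - 1 ∈ fil wt j) : x * y - 1 ∈ fil wt j := by
  have e : x * y - 1 = (x - 1) * y + (y - 1) := by noncomm_ring
  rw [e]
  exact add_mem (fil_mul hx (mem_zero hy)) hy

theorem pow_ex (hc : ∀ i, wt i < c) (ha : IsUni wt a) (k : ℕ) :
    (a ^ k).val = ex c (k • lg c a.val) := by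
  have h := lg_mem_fil (c := c) ha
  rw [ex_eq hc (nsmul_mem h k)]
  induction k with
  | zero => simp
  | succ k ih =>
    rw [pow_succ, Units.val_mul, ih, succ_nsmul, IsNilpotent.exp_add_of_commute
      ((Commute.refl _).smul_left k) (nil hc (nsmul_mem h k)) (nil hc h), ← ex_eq hc h, ex_lg hc ha]

theorem inv_pow_ex (hc : ∀ i, wt i < c) (ha : IsUni wt a) (k : ℕ) :
    ((a ^ k)⁻¹).val = ex c (k • -lg c a.val) := by
  have h := nsmul_mem (lg_mem_fil (c := c) ha) k
  refine Units.inv_eq_of_mul_eq_one_right ?_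
  rw [pow_ex hc ha, smul_neg, ex_eq hc h, ex_eq hc (neg_mem h)]
  exact IsNilpotent.exp_mul_exp_neg_self (nil hc h)

theorem inv_ex (hc : ∀ i, wt i < c) (ha : IsUni wt a) : (a⁻¹).val = ex c (-lg c a.val) := by
  simpa using inv_pow_ex hc ha 1

theorem inv_mem (hc : ∀ i, wt i < c) (ha : a.val - 1 ∈ fil wt (j + 1)) :
    (a⁻¹).val - 1 ∈ fil wt (j + 1) := by
  have h1 : IsUni wt a := fil_anti (by omega) ha
  have h2 : (a⁻¹).val ∈ fil wt 0 := by
    rw [inv_ex hc h1]
    exact mem_zero (ex_mem hc (neg_mem (lg_mem_fil h1)))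
  have e : (a⁻¹).val - 1 = -((a.val - 1) * (a⁻¹).val) := by
    rw [sub_mul, Units.mul_inv, one_mul, neg_sub]
  rw [e]
  exact neg_mem (fil_mul (j := 0) ha h2)

end CBasAux

theorem lg_ex (hc : ∀ i, wt i < c) (hx : x ∈ fil wt 1) : lg c (ex c x) = x := by
  have h := CBasAux.ex_mem hc hx
  refine CBasAux.ex_inj hc (Submodule.sum_mem _ fun k _ =>
    Submodule.smul_mem _ _ (fil_anti (by omega) (fil_pow h (k + 1)))) hx ?_
  exact ex_lg' (fil_zero hc le_rfl (fil_pow h c))

theorem lg_inj (hc : ∀ i, wt i < c) (ha : IsUni wt a) (hb : IsUni wt b)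
    (h : lg c a.val = lg c b.val) : a = b :=
  Units.ext (by rw [← ex_lg hc ha, h, ex_lg hc hb])

theorem uni_one : IsUni wt (1 : GL (Fin n) ℚ) := by
  rw [IsUni, Units.val_one, sub_self]
  exact zero_mem _
theorem uni_mul (ha : IsUni wt a) (hb : IsUni wt b) : IsUni wt (a * b) :=
  CBasAux.mul_mem ha hb
theorem uni_inv (hc : ∀ i, wt i < c) (ha : IsUni wt a) : IsUni wt a⁻¹ :=
  CBasAux.inv_mem (j := 0) hc ha
theorem uni_pow (ha : IsUni wt a) (k : ℕ) : IsUni wt (a ^ k) := by
  induction k with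
  | zero => rw [pow_zero]; exact uni_one
  | succ k ih => rw [pow_succ]; exact uni_mul ih ha
theorem uni_closure (hc : ∀ i, wt i < c) {s : Set (GL (Fin n) ℚ)} (hs : ∀ g ∈ s, IsUni wt g)
    (hg : g ∈ Subgroup.closure s) : IsUni wt g := by
  induction hg using Subgroup.closure_induction with
  | mem x h => exact hs x h
  | one => exact uni_one
  | mul x y _ _ hx hy => exact uni_mul hx hy
  | inv x _ hx => exact uni_inv hc hx
theorem par_closure {s : Set (GL (Fin n) ℚ)} (hs : ∀ g ∈ s, IsPar wt g)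
    (hg : g ∈ Subgroup.closure s) : IsPar wt g := by
  induction hg using Subgroup.closure_induction with
  | mem x h => exact hs x h
  | one => exact ⟨one_mem_fil, one_mem_fil⟩
  | mul x y _ _ hx hy => exact ⟨fil_mul hx.1 hy.1, fil_mul hy.2 hx.2⟩
  | inv x _ hx => exact ⟨hx.2, hx.1⟩
theorem uni_conj (hg : IsPar wt g) (ha : IsUni wt a) : IsUni wt (g * a * g⁻¹) := by
  have e : (g * a * g⁻¹).val - 1 = g.val * (a.val - 1) * (g⁻¹).val := by
    rw [mul_sub, sub_mul, mul_one, Units.mul_inv, Units.val_mul, Units.val_mul]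
  rw [IsUni, e]
  exact fil_mul (fil_mul hg.1 ha) hg.2

theorem pow_eq_ex (hc : ∀ i, wt i < c) (ha : IsUni wt a) (k : ℕ) :
    (a ^ k).val = ex c (k • lg c a.val) :=
  CBasAux.pow_ex hc ha k

theorem inv_pow_eq_ex (hc : ∀ i, wt i < c) (ha : IsUni wt a) (k : ℕ) :
    ((a ^ k)⁻¹).val = ex c (k • -lg c a.val) :=
  CBasAux.inv_pow_ex hc ha k

theorem lg_pow (hc : ∀ i, wt i < c) (ha : IsUni wt a) (k : ℕ) :
    lg c (a ^ k).val = k • lg c a.val := by
  rw [pow_eq_ex hc ha, lg_ex hc (nsmul_mem (lg_mem_fil ha) k)]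

theorem lg_inv (hc : ∀ i, wt i < c) (ha : IsUni wt a) : lg c (a⁻¹).val = -lg c a.val := by
  rw [CBasAux.inv_ex hc ha, lg_ex hc (neg_mem (lg_mem_fil ha))]

theorem lg_conj (g y : GL (Fin n) ℚ) : lg c (g * y * g⁻¹).val = adL g (lg c y.val) := by
  have e : (g * y * g⁻¹).val - 1 = g.val * (y.val - 1) * (g⁻¹).val := by
    rw [mul_sub, sub_mul, mul_one, Units.mul_inv, Units.val_mul, Units.val_mul]
  simp only [lg, map_sum, map_smul, e, adL_apply, Units.conj_pow]

theorem adL_one (x : Matrix (Fin n) (Fin n) ℚ) : adL 1 x = x := by simp [adL_apply]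

theorem adL_mul (a b : GL (Fin n) ℚ) (x : Matrix (Fin n) (Fin n) ℚ) :
    adL (a * b) x = adL a (adL b x) := by
  simp only [adL_apply, mul_inv_rev, Units.val_mul, mul_assoc]

theorem adL_br (g : GL (Fin n) ℚ) (x y : Matrix (Fin n) (Fin n) ℚ) :
    adL g (brL n x y) = brL n (adL g x) (adL g y) := by
  simp only [adL_apply, brL_apply, mul_sub, sub_mul, mul_assoc, Units.inv_mul_cancel_left]

theorem adL_sub_mem (hc : ∀ i, wt i < c) (hg : IsUni wt g) (hx : x ∈ fil wt j) :
    adL g x - x ∈ fil wt (j + 1) := by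
  have h := uni_inv hc hg
  have e : adL g x - x = (g.val - 1) * (x * (g⁻¹).val) + x * ((g⁻¹).val - 1) := by
    rw [adL_apply]
    noncomm_ring
  rw [e]
  exact add_mem (fil_anti (by omega) (fil_mul hg (fil_mul hx (CBasAux.mem_zero h))))
    (fil_mul hx h)

theorem comm_fil (hc : ∀ i, wt i < c) (ha : a.val - 1 ∈ fil wt (j + 1)) (hb : IsUni wt b) :
    (⁅a, b⁆ : GL (Fin n) ℚ).val - 1 ∈ fil wt (j + 2) := by
  have e : (⁅a, b⁆ : GL (Fin n) ℚ).val - 1 = ((a.val - 1) * (b.val - 1) -
      (b.val - 1) * (a.val - 1)) * ((a⁻¹).val * (b⁻¹).val) := by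
    have e1 : (a.val - 1) * (b.val - 1) - (b.val - 1) * (a.val - 1) =
        a.val * b.val - b.val * a.val := by noncomm_ring
    rw [e1, commutatorElement_def, sub_mul, mul_assoc b.val, Units.mul_inv_cancel_left,
      Units.mul_inv]
    simp only [Units.val_mul, mul_assoc]
  rw [e]
  exact fil_mul (j := 0) (sub_mem (fil_mul (j := 1) ha hb) (fil_anti (by omega) (fil_mul hb ha)))
    (fil_mul (CBasAux.mem_zero (CBasAux.inv_mem hc ha)) (CBasAux.mem_zero (uni_inv hc hb)))

/-- The elements congruent to one modulo a step of the filtration are closed under products and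
inverses. -/
theorem lev_closure (hc : ∀ i, wt i < c) {s : Set (GL (Fin n) ℚ)}
    (hs : ∀ g ∈ s, g.val - 1 ∈ fil wt (j + 1)) (hg : g ∈ Subgroup.closure s) :
    g.val - 1 ∈ fil wt (j + 1) := by
  induction hg using Subgroup.closure_induction with
  | mem x h => exact hs x h
  | one => rw [Units.val_one, sub_self]; exact zero_mem _
  | mul x y _ _ hx hy => exact CBasAux.mul_mem hx hy
  | inv x _ hx => exact CBasAux.inv_mem hc hx

end Pool.Agent.P.MP_257122_al.C
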