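import Pool.Agent.P.MP_257122_al.BGr
import Pool.Agent.P.MP_257122_al.CBas

/-!
# Logarithms of unipotent elements

PLAN.  `exp_lg`: either prove the identity `X ^ K ∣ (∑_{i<K} L ^ i / i!) - (1 + X)` in `ℚ[X]`
(`L` the truncated logarithm) through power series (`F = exp ∘ log` satisfies `(1 + X) F' = F`,
`PowerSeries.deriv_log`, `derivative_exp`, `derivative_subst`), or directly: with
`E = ∑_{i<K} L ^ i / i!` one has `(1 + X) E' - E ≡ 0` modulo `X ^ (K-1)`, which determines the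
coefficients of `E` below degree `K`.  Then apply `Polynomial.aeval y`.
-/

namespace Pool.Agent.P.MP_257122_al

open Matrix

theorem ex_eq_exp {R : Type} [Ring R] [Algebra ℚ R] {K : ℕ} {x : R} (h : x ^ K = 0) :
    ex K x = IsNilpotent.exp x := (IsNilpotent.exp_eq_sum h).symm

namespace BLogAux

theorem lg_pow {R : Type} [Ring R] [Algebra ℚ R] {K : ℕ} {y : R} (h : y ^ K = 0) :
    lg K (1 + y) ^ K = 0 := by
  have e : lg K (1 + y) =
      y * ∑ k ∈ Finset.range K, ((-1 : ℚ) ^ k / ((k : ℚ) + 1)) • y ^ k := by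
    rw [lg, add_sub_cancel_left, Finset.mul_sum]
    exact Finset.sum_congr rfl fun k _ => by rw [mul_smul_comm, pow_succ']
  have hc : Commute y (∑ k ∈ Finset.range K, ((-1 : ℚ) ^ k / ((k : ℚ) + 1)) • y ^ k) :=
    Commute.sum_right _ _ _ fun k _ => ((Commute.refl y).pow_right k).smul_right _
  rw [e, hc.mul_pow, h, zero_mul]

theorem pow_mem' {R : Type} [Ring R] (S : NonUnitalSubring R) {x : R} (h : x ∈ S) (k : ℕ) :
    x ^ (k + 1) ∈ S := by
  induction k with
  | zero => rwa [zero_add, pow_one]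
  | succ k ih => rw [pow_succ]; exact mul_mem ih h

variable {ι F : Type} [Field F] [Algebra ℚ F] [Fintype ι] [DecidableEq ι] {w : ι → ℤ}

omit [Algebra ℚ F] in
theorem rais_pow {x : Matrix ι ι F} (h : Rais w x) (k : ℕ) : Rais w (x ^ (k + 1)) := by
  induction k with
  | zero => rwa [zero_add, pow_one]
  | succ k ih =>
    rw [pow_succ]
    exact ih.mul_fil (rais_iff.1 h).1

theorem rais_sum {x : Matrix ι ι F} (h : Rais w x) (K : ℕ) (c : ℕ → ℚ) :
    Rais w (∑ k ∈ Finset.range K, c k • x ^ (k + 1)) := fun a b hab => by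
  rw [Matrix.sum_apply]
  exact Finset.sum_eq_zero fun i _ => by
    rw [Matrix.smul_apply, rais_pow h i a b hab, Algebra.smul_def, mul_zero]

end BLogAux

open BLogAux

theorem exp_lg {R : Type} [Ring R] [Algebra ℚ R] {K : ℕ} {y : R} (h : y ^ K = 0) :
    IsNilpotent.exp (lg K (1 + y)) = 1 + y := by
  rw [← ex_eq_exp (lg_pow h)]
  exact C.ex_lg' (by rwa [add_sub_cancel_left])

variable {ι F : Type} [Field F] [Algebra ℚ F] [Fintype ι] [DecidableEq ι] {w : ι → ℤ}

theorem Rais.lg {v : Matrix ι ι F} (hv : Rais w (v - 1)) (K : ℕ) : Rais w (lg K v) :=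
  rais_sum hv K _

theorem Rais.exp_sub_one {ξ : Matrix ι ι F} (h : Rais w ξ) :
    Rais w (IsNilpotent.exp ξ - 1) := by
  have h0 : ξ ^ (Fintype.card ι + 1) = 0 := by rw [pow_succ, h.pow_card, zero_mul]
  rw [IsNilpotent.exp_eq_sum h0, Finset.sum_range_succ', Nat.factorial_zero, Nat.cast_one, inv_one,
    one_smul, pow_zero, add_sub_cancel_right]
  exact rais_sum h _ _

theorem exists_log {v : Matrix ι ι F} (hv : Rais w (v - 1)) :
    ∃ ξ, Rais w ξ ∧ IsNilpotent.exp ξ = v := by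
  have := exp_lg hv.pow_card
  rw [add_sub_cancel] at this
  exact ⟨_, hv.lg _, this⟩

/-- Denominators of the logarithm. -/
theorem lg_mem {R : Type} [Ring R] [Algebra ℚ R] (S : NonUnitalSubring R) {K N : ℕ} {v : R}
    (h : (N : ℚ) • (v - 1) ∈ S) : ((K.factorial * N ^ K : ℕ) : ℚ) • lg K v ∈ S := by
  rw [lg, Finset.smul_sum]
  refine sum_mem fun k hk => ?_
  have hk' := Finset.mem_range.1 hk
  obtain ⟨d, hd⟩ := Nat.dvd_factorial (Nat.succ_pos k) hk'
  obtain ⟨j, rfl⟩ := Nat.exists_eq_add_of_le hk'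
  have h3 : ((k : ℚ) + 1) ≠ 0 := by positivity
  have e : (((k.succ + j).factorial * N ^ (k.succ + j) : ℕ) : ℚ) * ((-1 : ℚ) ^ k / ((k : ℚ) + 1)) =
      (((-1) ^ k * d * N ^ j : ℤ) : ℚ) * (N : ℚ) ^ (k + 1) := by
    rw [hd, Nat.succ_eq_add_one]
    push_cast
    field_simp
    ring
  rw [smul_smul, e, mul_smul, ← _root_.smul_pow, Int.cast_smul_eq_zsmul]
  exact zsmul_mem (pow_mem' S h k) _

end Pool.Agent.P.MP_257122_al
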