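import Pool.Agent.P.MP_257122_al.BEps

/-!
# The `p`-adic idempotents: auxiliary results
-/

namespace Pool.Agent.P.MP_257122_al.BPadAux

open Matrix

variable {n r : ℕ}

/-- `P` holds for all multiples of some positive number. -/
def Ev (P : ℕ → Prop) : Prop := ∃ N₀, 0 < N₀ ∧ ∀ N, N₀ ∣ N → P N

theorem Ev.of_all {P : ℕ → Prop} (h : ∀ N, P N) : Ev P := ⟨1, one_pos, fun N _ => h N⟩

theorem Ev.mono {P Q : ℕ → Prop} (h : Ev P) (k : ∀ N, P N → Q N) : Ev Q :=
  h.imp fun _ h => ⟨h.1, fun N hN => k N (h.2 N hN)⟩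

theorem Ev.and {P Q : ℕ → Prop} (h : Ev P) (k : Ev Q) : Ev fun N => P N ∧ Q N := by
  obtain ⟨a, ha, h⟩ := h
  obtain ⟨b, hb, k⟩ := k
  exact ⟨a * b, Nat.mul_pos ha hb, fun N hN =>
    ⟨h N ((dvd_mul_right a b).trans hN), k N ((dvd_mul_left b a).trans hN)⟩⟩

theorem Ev.list {α : Type} {P : α → ℕ → Prop} (l : List α) (h : ∀ x ∈ l, Ev (P x)) :
    Ev fun N => ∀ x ∈ l, P x N := by
  induction l with
  | nil => exact Ev.of_all fun _ _ h => absurd h List.not_mem_nil
  | cons x l ih =>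
    exact ((h x List.mem_cons_self).and (ih fun y hy => h y (List.mem_cons_of_mem _ hy))).mono
      fun N k => List.forall_mem_cons.2 k

theorem Ev.fin {P : Fin n → ℕ → Prop} (h : ∀ x, Ev (P x)) : Ev fun N => ∀ x, P x N :=
  (Ev.list (List.finRange n) fun x _ => h x).mono fun _ k x => k x (List.mem_finRange x)

section padic
variable {p : Nat.Primes}

theorem ev_norm (x : Qp p) : Ev fun N => ‖(N : Qp p) * x‖ ≤ 1 := by
  have h0 : 0 < ‖x‖ + 1 := by positivity
  obtain ⟨k, hk⟩ := exists_pow_lt_of_lt_one (inv_pos.2 h0) (Padic.norm_p_lt_one (p := p.1))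
  refine ⟨p.1 ^ k, pow_pos p.2.pos k, ?_⟩
  rintro _ ⟨t, rfl⟩
  rw [Nat.cast_mul, Nat.cast_pow, norm_mul, norm_mul, norm_pow]
  have h1 : ‖(t : Qp p)‖ ≤ 1 := IsUltrametricDist.norm_natCast_le_one _ t
  have h2 : ‖(p.1 : Qp p)‖ ^ k * (‖x‖ + 1) ≤ 1 := ((lt_inv_mul_iff₀' h0).1 (by rwa [mul_one])).le
  have h3 : 0 ≤ ‖(p.1 : Qp p)‖ ^ k := by positivity
  calc ‖(p.1 : Qp p)‖ ^ k * ‖(t : Qp p)‖ * ‖x‖ ≤ ‖(p.1 : Qp p)‖ ^ k * 1 * (‖x‖ + 1) := by
        gcongr
        exact (lt_add_one _).le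
    _ ≤ 1 := by rwa [mul_one]

theorem ev_span {L : Submodule (Zp p) (Fin n → Qp p)} {S : Set (Fin n → Qp p)} (hS : S ⊆ L)
    {y : Fin n → Qp p} (hy : y ∈ Submodule.span (Qp p) S) (c : Qp p) :
    Ev fun N => ((N : Qp p) * c) • y ∈ L := by
  induction hy using Submodule.span_induction generalizing c with
  | mem y hy => exact (ev_norm c).mono fun N h => L.smul_mem (⟨_, h⟩ : Zp p) (hS hy)
  | zero => exact Ev.of_all fun N => by rw [smul_zero]; exact L.zero_mem
  | add y z _ _ h1 h2 =>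
    exact ((h1 c).and (h2 c)).mono fun N h => by rw [smul_add]; exact L.add_mem h.1 h.2
  | smul d y _ h1 => exact (h1 (c * d)).mono fun N h => by rwa [smul_smul, mul_assoc]

theorem ev_form {M D : List (Fin n → Qp p)} (f : (Fin n → Qp p) →ₗ[Qp p] Qp p)
    (hf : ∀ y ∈ Submodule.span (Qp p) {x | x ∈ D}, f y = 0) :
    Ev fun N => ∀ y ∈ genMod (Zp p) (Qp p) M D, ‖(N : Qp p) * f y‖ ≤ 1 := by
  refine (Ev.list M fun x _ => ev_norm (f x)).mono fun N h y hy => ?_
  obtain ⟨u, hu, v, hv, rfl⟩ := Submodule.mem_sup.1 hy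
  rw [map_add, hf v hv, add_zero]
  clear hy
  induction hu using Submodule.span_induction with
  | mem y hy => exact h y hy
  | zero => simp
  | add y z _ _ h1 h2 =>
    rw [map_add, mul_add]
    exact (IsUltrametricDist.norm_add_le_max _ _).trans (max_le h1 h2)
  | smul d y _ h1 =>
    have e : f (d • y) = (d : Qp p) * f y := f.map_smul (d : Qp p) y
    rw [e, mul_left_comm, norm_mul]
    exact mul_le_one₀ d.2 (norm_nonneg _) h1

theorem line {M D : List (Fin n → Qp p)} {v : Fin n → Qp p}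
    (h : ∀ c : Qp p, c • v ∈ genMod (Zp p) (Qp p) M D) :
    v ∈ Submodule.span (Qp p) {x | x ∈ D} := by
  by_contra hv
  obtain ⟨f, h1, h2⟩ := Submodule.exists_dual_map_eq_bot_of_notMem hv inferInstance
  obtain ⟨N, hN, k⟩ := ev_form (M := M) f fun y hy =>
    (Submodule.mem_bot _).1 (h2 ▸ Submodule.mem_map_of_mem hy)
  have h3 : (N : Qp p) ≠ 0 := Nat.cast_ne_zero.2 hN.ne'
  have h4 := k N dvd_rfl _ (h ((p.1 : Qp p)⁻¹ / (N * f v)))
  rw [map_smul, smul_eq_mul, mul_left_comm, div_mul_cancel₀ _ (mul_ne_zero h3 h1), norm_inv,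
    Padic.norm_p, inv_inv] at h4
  exact absurd h4 (not_le.2 (by exact_mod_cast p.2.one_lt))

theorem loc_hom {Λ Λ' : AddSubgroup (Fin n → ℚ)} {x : Mat n ℚ} (hx : x ∈ HomS Λ Λ')
    {v : Fin n → Qp p} (hv : v ∈ loc p Λ) : castM (Qp p) x *ᵥ v ∈ loc p Λ' := by
  induction hv using Submodule.span_induction with
  | mem y hy =>
    obtain ⟨y, hy, rfl⟩ := hy
    rw [castM_mulVec]
    exact Submodule.subset_span ⟨_, hx y hy, rfl⟩
  | zero => rw [mulVec_zero]; exact zero_mem _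
  | add y z _ _ h1 h2 => rw [mulVec_add]; exact add_mem h1 h2
  | smul d y _ h1 => rw [mulVec_smul]; exact Submodule.smul_mem _ _ h1

end padic

section field
variable {K F : Type} [Field K] [Field F] (i : K →+* F)

theorem map_mulVec (x : Mat n K) (v : Fin n → K) :
    x.map i *ᵥ (fun t => i (v t)) = fun t => i ((x *ᵥ v) t) :=
  funext fun t => (RingHom.map_mulVec i x v t).symm

theorem cx_map {U U' : Submodule K (Fin n → K)} {x : Mat n K} (h : ∀ v ∈ U, x *ᵥ v ∈ U') :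
    ∀ v ∈ cx i U, x.map i *ᵥ v ∈ cx i U' := by
  intro v hv
  induction hv using Submodule.span_induction with
  | mem y hy =>
    obtain ⟨y, hy, rfl⟩ := hy
    rw [map_mulVec]
    exact (mem_cx_iff i _ _).2 (h y hy)
  | zero => rw [mulVec_zero]; exact zero_mem _
  | add y z _ _ h1 h2 => rw [mulVec_add]; exact add_mem h1 h2
  | smul d y _ h1 => rw [mulVec_smul]; exact Submodule.smul_mem _ _ h1

variable [CharZero K]

theorem cspan_map (j : K →+* ℂ) {U U' : Submodule K (Fin n → K)} {S : Set (Mat n ℚ)}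
    (h : ∀ x ∈ S, ∀ v ∈ U, castM K x *ᵥ v ∈ U') {x : Mat n ℂ} (hx : x ∈ CSpan S) :
    ∀ v ∈ cx j U, x *ᵥ v ∈ cx j U' := by
  intro v hv
  induction hx using Submodule.span_induction with
  | mem y hy =>
    obtain ⟨y, hy, rfl⟩ := hy
    rw [← map_castM K j]
    exact cx_map j (h y hy) v hv
  | zero => rw [zero_mulVec]; exact zero_mem _
  | add y z _ _ h1 h2 => rw [add_mulVec]; exact add_mem h1 h2
  | smul d y _ h1 => rw [smul_mulVec]; exact Submodule.smul_mem _ _ h1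

theorem qspan_map {U U' : Submodule K (Fin n → K)} {S : Set (Mat n ℚ)}
    (h : ∀ x ∈ S, ∀ v ∈ U, castM K x *ᵥ v ∈ U') {x : Mat n ℚ} (hx : x ∈ Submodule.span ℚ S) :
    ∀ v ∈ U, castM K x *ᵥ v ∈ U' := by
  intro v hv
  induction hx using Submodule.span_induction with
  | mem y hy => exact h y hy v hv
  | zero => rw [castM_zero, zero_mulVec]; exact zero_mem _
  | add y z _ _ h1 h2 => rw [castM_add, add_mulVec]; exact add_mem h1 h2
  | smul d y _ h1 => rw [castM_smul, smul_mulVec]; exact Submodule.smul_mem _ _ h1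

/-- The span of a group of rational vectors. -/
def sp (K : Type) [Field K] (Λ : AddSubgroup (Fin n → ℚ)) : Submodule K (Fin n → K) :=
  Submodule.span K (castV K '' (Λ : Set (Fin n → ℚ)))

theorem sp_hom {Λ Λ' : AddSubgroup (Fin n → ℚ)} :
    ∀ x ∈ HomS Λ Λ', ∀ v ∈ sp K Λ, castM K x *ᵥ v ∈ sp K Λ' := by
  intro x hx v hv
  induction hv using Submodule.span_induction with
  | mem y hy =>
    obtain ⟨y, hy, rfl⟩ := hy
    rw [castM_mulVec]
    exact Submodule.subset_span ⟨_, hx y hy, rfl⟩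
  | zero => rw [mulVec_zero]; exact zero_mem _
  | add y z _ _ h1 h2 => rw [mulVec_add]; exact add_mem h1 h2
  | smul d y _ h1 => rw [mulVec_smul]; exact Submodule.smul_mem _ _ h1

theorem cast_mem_sp {Λ : AddSubgroup (Fin n → ℚ)} {x : Fin n → ℚ} (hx : x ∈ qspan Λ) :
    castV K x ∈ sp K Λ := by
  induction hx using Submodule.span_induction with
  | mem y hy => exact Submodule.subset_span ⟨y, hy, rfl⟩
  | zero =>
    rw [show castV K (0 : Fin n → ℚ) = 0 from funext fun t => by simp [castV]]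
    exact zero_mem _
  | add y z _ _ h1 h2 =>
    rw [show castV K (y + z) = castV K y + castV K z from funext fun t => by simp [castV]]
    exact add_mem h1 h2
  | smul d y _ h1 =>
    rw [show castV K (d • y) = (d : K) • castV K y from funext fun t => by simp [castV]]
    exact Submodule.smul_mem _ _ h1

omit [CharZero K] in
theorem cx_sp (Λ : AddSubgroup (Fin n → ℚ)) : cx i (sp K Λ) = sp F Λ := by
  rw [sp, cx_span, ← Set.image_comp, sp]
  congr 2
  funext x t
  exact map_ratCast i (x t)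

omit [CharZero K] in
theorem cmb_map (a : Fin r → K) (Y : Fin r → Mat n ℚ) :
    (cmb K a Y).map i = cmb F (fun l => i (a l)) Y := by
  ext s t
  simp [cmb, castM, Matrix.sum_apply]

end field

section main
variable {p : Nat.Primes} {K : Type} [Field K] [CharZero K] (i : K →+* Qp p)

/-- The span of the lifts of the members of a list. -/
def lf (D : List (Fin n → Qp p)) : Submodule K (Fin n → K) :=
  Submodule.span K {x | (fun t => i (x t)) ∈ D}

omit [CharZero K] in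
theorem cx_lf {D : List (Fin n → Qp p)} (h : ∀ x ∈ D, ∀ t, ∃ k, i k = x t) :
    cx i (lf i D) = Submodule.span (Qp p) {x | x ∈ D} := by
  rw [lf, cx_span]
  congr 1
  refine Set.Subset.antisymm ?_ fun x hx => ?_
  · rintro _ ⟨y, hy, rfl⟩
    exact hy
  · choose y hy using h x hx
    obtain rfl : x = fun t => i (y t) := funext fun t => (hy t).symm
    exact ⟨y, hx, rfl⟩

variable {Λ Λ' : AddSubgroup (Fin n → ℚ)} {M D M' D' : List (Fin n → Qp p)}

theorem mem_loc (hl : loc p Λ = genMod (Zp p) (Qp p) M D) {y : Fin n → Qp p}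
    (hy : y ∈ Submodule.span (Qp p) {x | x ∈ D}) : y ∈ loc p Λ :=
  hl ▸ Submodule.mem_sup_right hy

omit [CharZero K] in
theorem lf_le (hl : loc p Λ = genMod (Zp p) (Qp p) M D) : lf i D ≤ sp K Λ := by
  refine Submodule.span_le.2 fun x hx => (mem_cx_iff i _ _).1 ?_
  rw [cx_sp]
  exact Submodule.span_le_restrictScalars (Zp p) (Qp p) _ (mem_loc hl (Submodule.subset_span hx))

theorem lf_hom (hl : loc p Λ = genMod (Zp p) (Qp p) M D)
    (hl' : loc p Λ' = genMod (Zp p) (Qp p) M' D') (hD : ∀ x ∈ D, ∀ t, ∃ k, i k = x t)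
    (hD' : ∀ x ∈ D', ∀ t, ∃ k, i k = x t) :
    ∀ x ∈ HomS Λ Λ', ∀ v ∈ lf i D, castM K x *ᵥ v ∈ lf i D' := by
  intro x hx v hv
  rw [← mem_cx_iff i, cx_lf i hD] at hv
  rw [← mem_cx_iff i, cx_lf i hD', ← map_mulVec, map_castM]
  refine line (M := M') fun c => ?_
  rw [← hl', ← mulVec_smul]
  exact loc_hom hx (mem_loc hl (Submodule.smul_mem _ c hv))

theorem ev_locC (hl : loc p Λ = genMod (Zp p) (Qp p) M D) (hD : ∀ x ∈ D, ∀ t, ∃ k, i k = x t)
    {π : Mat n ℚ} (hπ : ∀ x, π *ᵥ x ∈ qspan Λ) {es : List (Mat n K)}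
    (h : EpsK (sp K Λ) (lf i D) es) : Ev fun N => LocC p Λ N π (es.map fun e => e.map i) := by
  have h2 : ∀ j, ∀ c : Qp p, c • ((castM (Qp p) π - (es.map fun e => e.map i).sum *
      castM (Qp p) π) *ᵥ Pi.single j 1) ∈ loc p Λ := by
    intro j c
    refine mem_loc hl (Submodule.smul_mem _ c ?_)
    have e : (es.map fun e => e.map i).sum = es.sum.map i :=
      (map_list_sum i.mapMatrix es).symm
    have k := (mem_cx_iff i _ _).2 (h.2 _ (cast_mem_sp (hπ (Pi.single j 1))))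
    rw [cx_lf i hD, ← castM_mulVec, castV_single, mulVec_mulVec, ← sub_mulVec, ← map_mulVec,
      Matrix.map_sub _ (map_sub i), Matrix.map_mul, map_castM] at k
    rw [e]
    refine (congrArg (· ∈ _) (congrArg _ (funext fun t => ?_))).mp k
    simp [Pi.single_apply]
  refine (Ev.list _ fun e he => ?_).mono fun N k => ⟨k, h2⟩
  obtain ⟨e, he', rfl⟩ := List.mem_map.1 he
  obtain ⟨h3, h4, h5⟩ := h.1 e he'
  refine (Ev.of_all fun _ => by rw [← Matrix.map_mul, h3]).and ((Ev.fin fun j => ?_).and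
    (Ev.fin fun t => ?_))
  · have k := (mem_cx_iff i _ _).2 (h4 (Pi.single j 1))
    rw [cx_sp, ← map_mulVec,
      show (fun t => i (Pi.single (M := fun _ => K) j 1 t)) = Pi.single j 1 from
        funext fun t => by simp [Pi.single_apply]] at k
    exact (ev_span Submodule.subset_span k 1).mono fun N h => by rwa [mul_one] at h
  · refine (ev_form (M := M) (D := D) ((LinearMap.proj t).comp (e.map i).mulVecLin)
      fun y hy => ?_).mono fun N k y hy => ?_
    · rw [← cx_lf i hD] at hy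
      have k := cx_map i (U' := ⊥) (fun v hv => h5 v hv) y hy
      rw [← Submodule.span_empty, cx_span, Set.image_empty, Submodule.span_empty] at k
      exact congrFun ((Submodule.mem_bot _).1 k) t
    · rw [smul_dotProduct]
      exact k y (hl ▸ hy)

theorem eps {G : Subgroup (GL (Fin n) ℂ)} {β : GL (Fin n) ℂ} {Y Y' : Fin r → Mat n ℚ}
    (j : K →+* ℂ) (hs : SemiS (vals G)) (hE : EOk G β Y Y') {w w' : Fin n → ℤ}
    (hgr : ∀ g ∈ G, Fil w w g.val) (hf : Fil w' w β.val) (hf' : Fil w w' β.inv)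
    (hG : ∀ g ∈ G, g.val ∈ CSpan (HomS Λ Λ))
    (hβ : β.val ∈ CSpan (HomS Λ Λ')) (hβ' : β.inv ∈ CSpan (HomS Λ' Λ))
    (hl : loc p Λ = genMod (Zp p) (Qp p) M D) (hl' : loc p Λ' = genMod (Zp p) (Qp p) M' D')
    (hD : ∀ x ∈ D, ∀ t, ∃ k, i k = x t) (hD' : ∀ x ∈ D', ∀ t, ∃ k, i k = x t)
    {π π' : Mat n ℚ} (hπ : ∀ x, π *ᵥ x ∈ qspan Λ) (hπ' : ∀ x, π' *ᵥ x ∈ qspan Λ') :
    ∃ εs : List (Fin r → Qp p), (∀ a ∈ εs, ∀ l, ∃ k, i k = a l) ∧
      (Ev fun N => LocC p Λ N π (εs.map fun a => cmb (Qp p) a Y) ∧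
        LocC p Λ' N π' (εs.map fun a => cmb (Qp p) a Y')) ∧
      ∀ a ∈ εs, ∀ l : Mat n ℚ, Rais w' l → l ∈ Submodule.span ℚ (HomS Λ' Λ') →
        cmb (Qp p) a Y' * castM (Qp p) l * cmb (Qp p) a Y' = 0 := by
  obtain ⟨εs, h1, h2, h3⟩ := eps_field j hs hE hgr hf hf' (lf_le i hl) (lf_le i hl')
    (fun g hg => cspan_map j sp_hom (hG g hg))
    (fun g hg => cspan_map j (lf_hom i hl hl hD hD) (hG g hg))
    (cspan_map j sp_hom hβ) (cspan_map j sp_hom hβ')
    (cspan_map j (lf_hom i hl hl' hD hD') hβ) (cspan_map j (lf_hom i hl' hl hD' hD) hβ')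
  refine ⟨εs.map fun a l => i (a l), fun a ha l => ?_, ?_, fun a ha l k k' => ?_⟩
  · obtain ⟨a, -, rfl⟩ := List.mem_map.1 ha
    exact ⟨_, rfl⟩
  · have k1 := ev_locC i hl hD hπ h1
    have k2 := ev_locC i hl' hD' hπ' h2
    simp only [List.map_map, Function.comp_def, cmb_map] at k1 k2 ⊢
    exact k1.and k2
  · obtain ⟨a, ha', rfl⟩ := List.mem_map.1 ha
    have e := h3 a ha' (castM K l) (fun s t h => by rw [castM_apply, k s t h, Rat.cast_zero])
      (qspan_map sp_hom k') (qspan_map (lf_hom i hl' hl' hD' hD') k')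
    rw [← cmb_map, ← map_castM K i, ← Matrix.map_mul, ← Matrix.map_mul, e,
      Matrix.map_zero _ (map_zero i)]

end main

end Pool.Agent.P.MP_257122_al.BPadAux
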