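import Pool.Agent.P.MP_257122_al.BBlk
import Pool.Agent.P.MP_257122_al.BGr

/-!
# The radical filtration

PLAN.  `A = Algebra.adjoin ℂ (vals H)` is a finite-dimensional algebra, hence an Artinian ring;
`J = Ring.jacobson A` is nilpotent and `A ⧸ J` is semisimple (`IsSemiprimaryRing`).  Define
`W 0 = ⊤`, `W (k+1) = span {x *ᵥ v | x ∈ J, v ∈ W k}`; `W k` is killed by products of `K - k`
elements of `J`, or show `W k ≤ span {x *ᵥ v | x ∈ J ^ k}`.  An automorphism `τ` of `ℂ` acts
entrywise as a ring automorphism of `A` (`adjoin_induction`, `GalSt`), which preserves `J`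
(`Ring.map_jacobson_le` or `Ring.le_comap_jacobson` for a surjective map).  For an adapted `p`,
`a ↦ grm wt wt (p⁻¹ a p)` is an algebra homomorphism `φ` on `A` (`fil_of_vanB`, `grm_mul`; for
negative levels use `W 0 = ⊤`) that kills `J` (`rais_of_vanB`, `rais_iff`).  So `Fin n → ℂ` is a
module over `A ⧸ J` through `φ` (`Module.compHom` on a type synonym), it is semisimple, a subspace
invariant under the `φ h` is a submodule (`adjoin_induction`), and its complement is a complex
subspace; `semiS_of_compl`.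
-/

namespace Pool.Agent.P.MP_257122_al

open Matrix

namespace BRadAux

theorem compl {R V : Type} [Ring R] [IsSemisimpleRing R] [AddCommGroup V] [Module ℂ V]
    (ψ : R →+* Module.End ℂ V) (hc : ∀ c : ℂ, ∃ r, ∀ v, ψ r v = c • v) (M : Submodule ℂ V)
    (hM : ∀ r, ∀ v ∈ M, ψ r v ∈ M) :
    ∃ M' : Submodule ℂ V, IsCompl M M' ∧ ∀ r, ∀ v ∈ M', ψ r v ∈ M' := by
  let _ : Module R V := Module.compHom V ψ
  let N : Submodule R V :=
    { carrier := M
      add_mem' := M.add_mem
      zero_mem' := M.zero_mem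
      smul_mem' := fun r v hv => hM r v hv }
  obtain ⟨N', h1, h2⟩ := exists_isCompl N
  let M' : Submodule ℂ V :=
    { carrier := N'
      add_mem' := N'.add_mem
      zero_mem' := N'.zero_mem
      smul_mem' := fun c v hv => by
        obtain ⟨r, hr⟩ := hc c
        rw [← hr]
        exact N'.smul_mem r hv }
  refine ⟨M', ⟨Submodule.disjoint_def.2 fun v hv hv' => Submodule.disjoint_def.1 h1 v hv hv',
    codisjoint_iff.2 (Submodule.eq_top_iff'.2 fun v => ?_)⟩, fun r v hv => N'.smul_mem r hv⟩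
  obtain ⟨a, ha, b, hb, e⟩ :=
    Submodule.mem_sup.1 (Submodule.eq_top_iff'.1 (codisjoint_iff.1 h2) v)
  exact Submodule.mem_sup.2 ⟨a, ha, b, hb, e⟩

variable {n : ℕ} (A : Subalgebra ℂ (Mat n ℂ))

/-- the radical filtration -/
noncomputable def W : ℕ → Submodule ℂ (Fin n → ℂ)
  | 0 => ⊤
  | k + 1 => Submodule.span ℂ {y | ∃ x ∈ Ring.jacobson A, ∃ v ∈ W k, y = (x : Mat n ℂ) *ᵥ v}

theorem rais (k : ℕ) (x : A) (hx : x ∈ Ring.jacobson A) (v : Fin n → ℂ) (hv : v ∈ W A k) :
    (x : Mat n ℂ) *ᵥ v ∈ W A (k + 1) := Submodule.subset_span ⟨x, hx, v, hv, rfl⟩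

theorem inv (k : ℕ) (a : A) (v : Fin n → ℂ) (hv : v ∈ W A k) : (a : Mat n ℂ) *ᵥ v ∈ W A k := by
  rcases k with _ | k
  · trivial
  induction hv using Submodule.span_induction with
  | mem y hy =>
    obtain ⟨x, hx, u, hu, rfl⟩ := hy
    rw [mulVec_mulVec]
    exact rais A k (a * x) (Ideal.mul_mem_left _ a hx) u hu
  | zero => rw [mulVec_zero]; exact zero_mem _
  | add y z _ _ hy hz => rw [mulVec_add]; exact add_mem hy hz
  | smul c y _ hy => rw [mulVec_smul]; exact Submodule.smul_mem _ c hy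

theorem anti : Antitone (W A) := antitone_nat_of_succ_le fun k =>
  Submodule.span_le.2 (by rintro _ ⟨x, _, v, hv, rfl⟩; exact inv A k x v hv)

theorem kill (k : ℕ) : ∀ m : ℕ, Ring.jacobson A ^ (m + k) = 0 → ∀ x ∈ Ring.jacobson A ^ m,
    ∀ v ∈ W A k, (x : Mat n ℂ) *ᵥ v = 0 := by
  induction k with
  | zero =>
    intro m hm x hx v _
    rw [add_zero] at hm
    rw [hm] at hx
    have : x = 0 := hx
    rw [this]
    exact zero_mulVec v
  | succ k ih =>
    intro m hm x hx v hv
    induction hv using Submodule.span_induction with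
    | mem y hy =>
      obtain ⟨y, hy, u, hu, rfl⟩ := hy
      rw [mulVec_mulVec]
      refine ih (m + 1) (by rw [← hm, add_assoc, add_comm 1]) (x * y) ?_ u hu
      rw [Submodule.pow_succ]
      exact Submodule.mul_mem_mul hx hy
    | zero => exact mulVec_zero _
    | add y z _ _ hy hz => rw [mulVec_add, hy, hz, add_zero]
    | smul c y _ hy => rw [mulVec_smul, hy, smul_zero]

theorem gal (hA : ∀ τ : ℂ ≃+* ℂ, ∀ x ∈ A, x.map τ ∈ A) (k : ℕ) : GalSub (W A k) := by
  intro τ
  let f : A →+* A :=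
    ((τ : ℂ →+* ℂ).mapMatrix.comp A.val.toRingHom).codRestrict A fun x => hA τ x x.2
  have : RingHomSurjective f := ⟨fun y => ⟨⟨y.1.map τ.symm, hA _ _ y.2⟩, Subtype.ext (by
    ext i j
    exact τ.apply_symm_apply _)⟩⟩
  induction k with
  | zero => exact fun _ _ => trivial
  | succ k ih =>
    intro v hv
    induction hv using Submodule.span_induction with
    | mem y hy =>
      obtain ⟨x, hx, u, hu, rfl⟩ := hy
      have e : (fun i => τ (((x : Mat n ℂ) *ᵥ u) i)) = (f x : Mat n ℂ) *ᵥ fun i => τ (u i) :=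
        funext fun i => RingHom.map_mulVec (τ : ℂ →+* ℂ) (x : Mat n ℂ) u i
      rw [e]
      exact rais A k _ (Ring.le_comap_jacobson f hx) _ (ih u hu)
    | zero =>
      have e : (fun i => τ ((0 : Fin n → ℂ) i)) = 0 := funext fun _ => map_zero τ
      rw [e]
      exact zero_mem _
    | add y z _ _ hy hz =>
      have e : (fun i => τ ((y + z) i)) = (fun i => τ (y i)) + fun i => τ (z i) :=
        funext fun _ => map_add τ _ _
      rw [e]
      exact add_mem hy hz
    | smul c y _ hy =>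
      have e : (fun i => τ ((c • y) i)) = τ c • fun i => τ (y i) := funext fun _ => map_mul τ _ _
      rw [e]
      exact Submodule.smul_mem _ _ hy

theorem semi (p : GL (Fin n) ℂ) (wt : Fin n → ℤ)
    (hp : ∀ (k : ℕ) v, p.val *ᵥ v ∈ W A k ↔ VanB wt k v) :
    ∃ φ : A →+* Mat n ℂ, (∀ a, φ a = grm wt wt (p.inv * a.1 * p.val)) ∧
      (∀ c, φ (algebraMap ℂ A c) = c • 1) ∧ ∀ a ∈ Ring.jacobson A, φ a = 0 := by
  have h0 : ∀ d : ℤ, d ≤ 0 → ∀ v : Fin n → ℂ, VanB wt d v := fun d hd v i hi =>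
    (hp 0 v).1 trivial i (by omega)
  have e : ∀ (a : Mat n ℂ) v, p.val *ᵥ ((p.inv * a * p.val) *ᵥ v) = a *ᵥ (p.val *ᵥ v) :=
    fun a v => by
      rw [mulVec_mulVec, mulVec_mulVec, ← Matrix.mul_assoc, ← Matrix.mul_assoc, p.val_inv,
        Matrix.one_mul]
  have hf : ∀ a : A, Fil wt wt (p.inv * a.1 * p.val) := fun a => fil_of_vanB fun d v hv => by
    rcases le_or_gt d 0 with hd | hd
    · exact h0 d hd _
    · lift d to ℕ using hd.le
      rw [← hp] at hv ⊢
      rw [e]
      exact inv A d a _ hv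
  refine ⟨{ toFun := fun a => grm wt wt (p.inv * a.1 * p.val)
            map_one' := by rw [OneMemClass.coe_one, Matrix.mul_one, p.inv_val, grm_one]
            map_mul' := fun a b => by
              rw [← grm_mul (hf a) (hf b), MulMemClass.coe_mul]
              congr 1
              simp only [Matrix.mul_assoc]
              rw [← Matrix.mul_assoc p.val, p.val_inv, Matrix.one_mul]
            map_zero' := by
              ext i j
              simp [grm]
            map_add' := fun a b => by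
              rw [AddMemClass.coe_add, Matrix.mul_add, Matrix.add_mul, grm_add] },
    fun _ => rfl, fun c => ?_, fun a ha => (rais_iff.1 (rais_of_vanB fun d v hv => ?_)).2⟩
  · change grm wt wt (p.inv * algebraMap ℂ (Mat n ℂ) c * p.val) = _
    rw [Algebra.algebraMap_eq_smul_one, Matrix.mul_smul, Matrix.smul_mul, Matrix.mul_one,
      p.inv_val, grm_smul, grm_one]
  · rcases lt_or_ge d 0 with hd | hd
    · exact h0 _ (by omega) _
    · lift d to ℕ using hd
      rw [← hp] at hv
      rw [← Nat.cast_succ, ← hp, e]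
      exact rais A d a ha _ hv

end BRadAux

theorem radical {n : ℕ} (H : Subgroup (GL (Fin n) ℂ)) (hH : GalSt H) :
    ∃ (K : ℕ) (W : ℕ → Submodule ℂ (Fin n → ℂ)), Antitone W ∧ W 0 = ⊤ ∧ W K = ⊥ ∧
      (∀ k, GalSub (W k)) ∧ (∀ k, ∀ h ∈ H, ∀ v ∈ W k, h.val *ᵥ v ∈ W k) ∧
      ∀ (p : GL (Fin n) ℂ) (wt : Fin n → ℤ), (∀ (k : ℕ) v, p.val *ᵥ v ∈ W k ↔ VanB wt k v) →
        SemiS {x | ∃ h ∈ H, grm wt wt (p.inv * h.val * p.val) = x} := by
  let A := Algebra.adjoin ℂ (vals H)
  have : IsArtinianRing A := IsArtinianRing.of_finite ℂ A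
  obtain ⟨K, hK⟩ := IsSemiprimaryRing.isNilpotent (R := A)
  have hm : ∀ h ∈ H, h.val ∈ A := fun h hh => Algebra.subset_adjoin ⟨h, hh, rfl⟩
  refine ⟨K, BRadAux.W A, BRadAux.anti A, rfl, eq_bot_iff.2 fun v hv => ?_,
    BRadAux.gal A fun τ x hx => ?_, fun k h hh v hv => BRadAux.inv A k ⟨_, hm h hh⟩ v hv,
    fun p wt hp => semiS_of_compl fun M hM => ?_⟩
  · have := BRadAux.kill A K 0 (by rw [zero_add, hK]) 1
      (by rw [Submodule.pow_zero, Ideal.one_eq_top]; trivial) v hv
    rwa [OneMemClass.coe_one, one_mulVec] at this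
  · induction hx using Algebra.adjoin_induction with
    | mem x hx =>
      obtain ⟨g, hg, rfl⟩ := hx
      obtain ⟨g₂, h2, e⟩ := hH τ g hg
      rw [← e]
      exact hm g₂ h2
    | algebraMap c =>
      have e : (algebraMap ℂ (Mat n ℂ) c).map τ = algebraMap ℂ (Mat n ℂ) (τ c) := by
        ext i j
        simp [algebraMap_matrix_apply, apply_ite τ]
      rw [e]
      exact A.algebraMap_mem _
    | add x y _ _ hx hy => rw [Matrix.map_add _ (map_add τ)]; exact A.add_mem hx hy
    | mul x y _ _ hx hy => rw [Matrix.map_mul]; exact A.mul_mem hx hy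
  · obtain ⟨φ, h1, h2, h3⟩ := BRadAux.semi A p wt hp
    let ψ : A ⧸ Ring.jacobson A →+* Module.End ℂ (Fin n → ℂ) := Ideal.Quotient.lift _
      ((toLinAlgEquiv' : Mat n ℂ ≃ₐ[ℂ] _).toRingEquiv.toRingHom.comp φ) fun a ha => by
        rw [RingHom.comp_apply, h3 a ha, map_zero]
    have hψ : ∀ a v, ψ (Ideal.Quotient.mk _ a) v = φ a *ᵥ v := fun a v => rfl
    obtain ⟨M', hc, hM'⟩ := BRadAux.compl ψ (fun c => ⟨Ideal.Quotient.mk _ (algebraMap ℂ A c),
      fun v => by rw [hψ, h2, smul_mulVec, one_mulVec]⟩) M fun r => by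
        obtain ⟨⟨a, ha⟩, rfl⟩ := Ideal.Quotient.mk_surjective r
        simp only [hψ]
        induction ha using Algebra.adjoin_induction with
        | mem x hx =>
          obtain ⟨g, hg, rfl⟩ := hx
          exact hM _ ⟨g, hg, (h1 ⟨g.val, hm g hg⟩).symm⟩
        | algebraMap c =>
          intro v hv
          have e : φ ⟨algebraMap ℂ (Mat n ℂ) c, A.algebraMap_mem c⟩ = c • 1 := h2 c
          rw [e, smul_mulVec, one_mulVec]
          exact M.smul_mem c hv
        | add x y hx hy ix iy =>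
          intro v hv
          have e : φ ⟨x + y, A.add_mem hx hy⟩ = φ ⟨x, hx⟩ + φ ⟨y, hy⟩ := map_add φ ⟨x, hx⟩ ⟨y, hy⟩
          rw [e, add_mulVec]
          exact M.add_mem (ix v hv) (iy v hv)
        | mul x y hx hy ix iy =>
          intro v hv
          have e : φ ⟨x * y, A.mul_mem hx hy⟩ = φ ⟨x, hx⟩ * φ ⟨y, hy⟩ := map_mul φ ⟨x, hx⟩ ⟨y, hy⟩
          rw [e, ← mulVec_mulVec]
          exact ix _ (iy v hv)
    refine ⟨M', hc, ?_⟩
    rintro _ ⟨g, hg, rfl⟩ v hv
    have := hM' (Ideal.Quotient.mk _ ⟨_, hm g hg⟩) v hv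
    rwa [hψ, h1] at this

end Pool.Agent.P.MP_257122_al
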