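import Pool.Agent.P.MP_257122_al.BRho

/-!
# Reduced Gram matrices form an open set and lie in a Siegel set

PLAN.  Both by induction on `n`.  Openness: `schur` is continuous on `{P | 0 < P 0 0}`
(`ContinuousOn.isOpen_inter_preimage`).  Decomposition: for symmetric `P` with `SRed n P` there
are `N`, `N'`, `a` with `P = Nᵀ * diagonal (a ^ 2) * N`, `N * N' = 1`, unitriangular, entries of
`N` at most `1`, entries of `N'` at most `(n+1)!`, `a i ≤ 2 ^ n * a j` for `i ≤ j`, and
`(a 0) ^ 2 = P 0 0`: take `N` with first row `(1, P 0 j / P 0 0)` and lower block the `N` of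
`schur P`, `N'` with first row `(1, -(r N₁'))`.  Finally `k = x * N' * diagonal a⁻¹`.
-/

namespace Pool.Agent.P.MP_257122_al

open Matrix

namespace BS2Aux

/-- A block matrix with corner `1`, first row `r` and lower block `M`. -/
def blk {n : ℕ} (r : Fin n → ℝ) (M : Mat n ℝ) : Mat (n + 1) ℝ :=
  Matrix.of (Fin.cons (Fin.cons 1 r) fun i => Fin.cons 0 (M i))

@[simp] theorem blk_zz {n : ℕ} (r : Fin n → ℝ) (M : Mat n ℝ) : blk r M 0 0 = 1 := rfl

@[simp] theorem blk_zs {n : ℕ} (r : Fin n → ℝ) (M : Mat n ℝ) (j : Fin n) :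
    blk r M 0 j.succ = r j := rfl

@[simp] theorem blk_sz {n : ℕ} (r : Fin n → ℝ) (M : Mat n ℝ) (i : Fin n) :
    blk r M i.succ 0 = 0 := rfl

@[simp] theorem blk_ss {n : ℕ} (r : Fin n → ℝ) (M : Mat n ℝ) (i j : Fin n) :
    blk r M i.succ j.succ = M i j := rfl

theorem blk_bd {n : ℕ} {r : Fin n → ℝ} {M : Mat n ℝ} {B : ℝ} (h1 : 1 ≤ B) (h2 : ∀ j, |r j| ≤ B)
    (h3 : ∀ i j, |M i j| ≤ B) (i j : Fin (n + 1)) : |blk r M i j| ≤ B := by
  refine Fin.cases (Fin.cases ?_ (fun j => ?_) j) (fun i => Fin.cases ?_ (fun j => ?_) j) i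
  · simpa using h1
  · exact h2 j
  · simpa using zero_le_one.trans h1
  · exact h3 i j

theorem blk_tri {n : ℕ} {r : Fin n → ℝ} {M : Mat n ℝ} (h : ∀ i j, j < i → M i j = 0)
    (i j : Fin (n + 1)) : j < i → blk r M i j = 0 := by
  refine Fin.cases (fun c => (Fin.not_lt_zero j c).elim)
    (fun i => Fin.cases (fun _ => rfl) (fun j c => ?_) j) i
  exact h i j (Fin.succ_lt_succ_iff.1 c)

theorem blk_diag {n : ℕ} {r : Fin n → ℝ} {M : Mat n ℝ} (h : ∀ i, M i i = 1) (i : Fin (n + 1)) :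
    blk r M i i = 1 := Fin.cases rfl (fun i => h i) i

theorem blk_inv {n : ℕ} (r : Fin n → ℝ) {M M' : Mat n ℝ} (h : M * M' = 1) :
    blk r M * blk (fun j => -∑ k, r k * M' k j) M' = 1 := by
  ext i j
  rw [mul_apply, Fin.sum_univ_succ]
  refine Fin.cases (Fin.cases ?_ (fun j => ?_) j) (fun i => Fin.cases ?_ (fun j => ?_) j) i
  · simp
  · simp [one_apply_ne (Fin.succ_ne_zero j).symm]
  · simp [one_apply_ne (Fin.succ_ne_zero i)]
  · have := congrFun (congrFun h i) j
    rw [mul_apply] at this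
    simp [this, one_apply]

theorem decomp : ∀ (n : ℕ) (P : Mat n ℝ), (∀ i j, P i j = P j i) → SRed n P →
    ∃ (N N' : Mat n ℝ) (d : Fin n → ℝ), (∀ i j, P i j = ∑ k, N k i * d k * N k j) ∧ N * N' = 1 ∧
      (∀ i, 0 < d i) ∧ (∀ i j, i ≤ j → d i ≤ 2 ^ n * d j) ∧ (∀ j, j.val = 0 → d j = P j j) ∧
      (∀ i j, j < i → N i j = 0) ∧ (∀ i j, j < i → N' i j = 0) ∧ (∀ i, N i i = 1) ∧
      (∀ i, N' i i = 1) ∧ (∀ i j, |N i j| ≤ 1) ∧ ∀ i j, |N' i j| ≤ n.factorial
  | 0, P, _, _ => ⟨1, 1, fun _ => 1, fun i => i.elim0, by simp, fun i => i.elim0, fun i => i.elim0,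
      fun i => i.elim0, fun i => i.elim0, fun i => i.elim0, fun i => i.elim0, fun i => i.elim0,
      fun i => i.elim0, fun i => i.elim0⟩
  | n + 1, P, hs, ⟨h0, h1, h2, h3⟩ => by
    obtain ⟨N, N', d, c1, c2, c3, c4, c5, c6, c7, c8, c9, c10, c11⟩ := decomp n (schur P)
      (fun i j => by
        simp only [schur, of_apply]
        rw [hs i.succ j.succ, hs i.succ 0, hs 0 j.succ, mul_comm]) h3
    have hr : ∀ j : Fin n, |P 0 j.succ / P 0 0| ≤ 1 := fun j => by
      rw [abs_div, abs_of_pos h0, div_le_one h0]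
      exact (h1 j).le
    have hf : (n.factorial : ℝ) ≤ (n + 1).factorial := by
      exact_mod_cast Nat.factorial_le (Nat.le_succ n)
    have hp : (1 : ℝ) ≤ 2 ^ (n + 1) := one_le_pow₀ one_le_two
    refine ⟨blk (fun j => P 0 j.succ / P 0 0) N,
      blk (fun j => -∑ k : Fin n, P 0 k.succ / P 0 0 * N' k j) N', Fin.cons (P 0 0) d,
      fun i j => ?_, blk_inv _ c2, Fin.cases h0 c3, fun i j => ?_, fun j hj => ?_, blk_tri c6,
      blk_tri c7, blk_diag c8, blk_diag c9, blk_bd le_rfl hr c10,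
      blk_bd (by exact_mod_cast Nat.factorial_pos (n + 1)) (fun j => ?_)
        fun i j => (c11 i j).trans hf⟩
    · rw [Fin.sum_univ_succ]
      refine Fin.cases (Fin.cases ?_ (fun j => ?_) j) (fun i => Fin.cases ?_ (fun j => ?_) j) i
      · simp
      · simp [mul_div_cancel₀ _ h0.ne']
      · simp [div_mul_cancel₀ _ h0.ne', hs i.succ 0]
      · have := c1 i j
        simp only [schur, of_apply] at this
        simp only [blk_zs, blk_ss, Fin.cons_zero, Fin.cons_succ, ← this, hs i.succ 0]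
        field_simp
        ring
    · refine Fin.cases (Fin.cases (fun _ => ?_) (fun j _ => ?_) j)
        (fun i => Fin.cases (fun c => ?_) (fun j c => ?_) j) i
      · simp only [Fin.cons_zero]
        exact le_mul_of_one_le_left h0.le hp
      · simp only [Fin.cons_zero, Fin.cons_succ]
        have a1 := h2 ⟨0, j.pos⟩ rfl
        have a2 := c4 ⟨0, j.pos⟩ j (Nat.zero_le _)
        rw [← c5 _ rfl] at a1
        rw [pow_succ]
        linarith
      · exact absurd c (not_le.2 (Fin.succ_pos i))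
      · simp only [Fin.cons_succ]
        have a1 := c4 i j (Fin.succ_le_succ_iff.1 c)
        have a2 : 0 < 2 ^ n * d j := mul_pos (by positivity) (c3 j)
        rw [pow_succ]
        linarith
    · rw [show j = 0 from Fin.ext hj]
      rfl
    · rw [abs_neg]
      refine (Finset.abs_sum_le_sum_abs _ _).trans ((Finset.sum_le_card_nsmul _ _
        (n.factorial : ℝ) fun k _ => ?_).trans ?_)
      · rw [abs_mul]
        exact (mul_le_of_le_one_left (abs_nonneg _) (hr k)).trans (c11 k j)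
      · rw [Finset.card_univ, Fintype.card_fin, nsmul_eq_mul, Nat.factorial_succ]
        push_cast
        have : (0 : ℝ) ≤ n.factorial := Nat.cast_nonneg _
        linarith

end BS2Aux

open BS2Aux

theorem isOpen_sred (n : ℕ) : IsOpen {P : Mat n ℝ | SRed n P} := by
  induction n with
  | zero => exact isOpen_univ
  | succ n ih =>
    have e : ∀ i j, Continuous fun P : Mat (n + 1) ℝ => P i j := fun i j =>
      continuous_id.matrix_elem i j
    have h0 : IsOpen {P : Mat (n + 1) ℝ | 0 < P 0 0} := isOpen_lt continuous_const (e 0 0)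
    have h1 : ContinuousOn schur {P : Mat (n + 1) ℝ | 0 < P 0 0} :=
      continuousOn_pi.2 fun i => continuousOn_pi.2 fun j => (e _ _).continuousOn.sub
        (((e _ _).mul (e _ _)).continuousOn.div (e 0 0).continuousOn fun P hP => ne_of_gt hP)
    have h2 : IsOpen {P : Mat (n + 1) ℝ | ∀ j : Fin n, |P 0 j.succ| < P 0 0} := by
      rw [Set.ofPred_forall]
      exact isOpen_iInter_of_finite fun j => isOpen_lt (e _ _).abs (e 0 0)
    have h3 : IsOpen {q : ℝ × Mat n ℝ | ∀ j : Fin n, j.val = 0 → q.1 < 2 * q.2 j j} := by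
      rw [Set.ofPred_forall]
      refine isOpen_iInter_of_finite fun j => ?_
      rw [Set.ofPred_forall]
      exact isOpen_iInter_of_finite fun _ => isOpen_lt continuous_fst
        (continuous_const.mul (continuous_snd.matrix_elem j j))
    have h4 := ((e 0 0).continuousOn.prodMk h1).isOpen_inter_preimage h0 h3
    have h5 := h1.isOpen_inter_preimage h0 ih
    have h6 := h2.inter (h4.inter h5)
    refine (congrArg IsOpen (Set.ext fun P => ?_)).mp h6
    exact ⟨fun h => ⟨h.2.1.1, h.1, h.2.1.2, h.2.2.2⟩,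
      fun h => ⟨h.2.1, ⟨h.1, h.2.2.1⟩, h.1, h.2.2.2⟩⟩

theorem sg_of_sred {n : ℕ} {x : Mat n ℝ} (h : SRed n (xᵀ * x)) : Sg x := by
  obtain ⟨N, N', d, c1, c2, c3, c4, -, c6, c7, c8, c9, c10, c11⟩ := decomp n (xᵀ * x)
    (fun i j => by simp only [mul_apply, transpose_apply, mul_comm]) h
  have ha : ∀ i, 0 < √(d i) := fun i => Real.sqrt_pos.2 (c3 i)
  have h1 : xᵀ * x = Nᵀ * diagonal d * N := by
    ext i j
    rw [c1, mul_apply]
    simp only [mul_diagonal, transpose_apply]
  have h2 : (1 : ℝ) ≤ 2 ^ n := one_le_pow₀ one_le_two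
  have h3 : (1 : ℝ) ≤ (n + 1).factorial := by exact_mod_cast Nat.factorial_pos (n + 1)
  have h4 : (sgB n : ℝ) = 2 ^ n * (n + 1).factorial := by simp [sgB]
  have h5 : (2 : ℝ) ^ n ≤ sgB n := h4 ▸ le_mul_of_one_le_right (by positivity) h3
  have h6 : (n.factorial : ℝ) ≤ sgB n := by
    have : (n.factorial : ℝ) ≤ (n + 1).factorial := by
      exact_mod_cast Nat.factorial_le (Nat.le_succ n)
    exact this.trans (h4 ▸ le_mul_of_one_le_left (by positivity) h2)
  refine ⟨x * N' * diagonal fun i => (√(d i))⁻¹, N, N', fun i => √(d i), ?_, ?_, c2, ha,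
    fun i j hij => ?_, fun i j hij => ⟨c6 i j hij, c7 i j hij⟩, fun i => ⟨c8 i, c9 i⟩,
    fun i j => (c10 i j).trans (h2.trans h5), fun i j => (c11 i j).trans h6⟩
  · have e1 : N'ᵀ * (xᵀ * x) * N' = diagonal d := by
      rw [h1, ← Matrix.mul_assoc, ← Matrix.mul_assoc, ← transpose_mul, c2, transpose_one,
        Matrix.one_mul, Matrix.mul_assoc, c2, Matrix.mul_one]
    have e2 : (x * N' * diagonal fun i => (√(d i))⁻¹)ᵀ * (x * N' * diagonal fun i => (√(d i))⁻¹) =
        (diagonal fun i => (√(d i))⁻¹) * (N'ᵀ * (xᵀ * x) * N') * diagonal fun i => (√(d i))⁻¹ := by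
      simp only [transpose_mul, diagonal_transpose, Matrix.mul_assoc]
    rw [e2, e1, diagonal_mul_diagonal, diagonal_mul_diagonal, ← diagonal_one]
    refine congrArg diagonal (funext fun i => ?_)
    have := Real.mul_self_sqrt (c3 i).le
    have := (ha i).ne'
    field_simp
    linarith
  · rw [Matrix.mul_assoc (x * N'), diagonal_mul_diagonal]
    simp only [inv_mul_cancel₀ (ha _).ne', diagonal_one, Matrix.mul_one]
    rw [Matrix.mul_assoc, mul_eq_one_comm.1 c2, Matrix.mul_one]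
  · refine Real.sqrt_le_iff.2 ⟨(mul_pos (by linarith) (ha j)).le, ?_⟩
    rw [mul_pow, Real.sq_sqrt (c3 j).le]
    refine (c4 i j hij).trans (mul_le_mul_of_nonneg_right ?_ (c3 j).le)
    nlinarith

end Pool.Agent.P.MP_257122_al
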