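import Pool.Agent.P.MP_257122_al.BRho
import Pool.Agent.P.MP_257122_al.FMat

/-!
# Finitely many states; short cuts

PLAN.  `shortcut`: induction along the chain with the invariant: there is a list `l` of
transitions with `b * l.prod⁻¹ ∈ Δ`, such that the cosets `Δ (l.take i).prod` (`i ≤ l.length`) are
pairwise distinct and each contains a good element.  If the next coset already occurs, cut the
list, otherwise append.  Distinct cosets have distinct states, so `l.length < card S`.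
`states`: record for every packet, index and tensor position the integer `M z I + M s` in
`Fin (2 s s + 1)`, and for every `e` and entry a residue: for `x : Qp p` with `‖x‖ ≤ 1` and `L > 0`
there is a natural number `r < L` with `‖x - r‖ ≤ ‖L‖` (`PadicInt.appr` at the exponent
`padicValNat p L`); use `x = N (b' e) i j`, `L = N K`.  The index set
`(Σ i : Fin ys.length, Fin r × (Fin D → Fin n)) ⊕ (Fin es.length × Fin n × Fin n)` has at most
`s s s^s + s³` elements (if `s = 0` everything is empty).  Embed the finite type of records in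
`Fin (C s)` (`Function.Embedding.nonempty_of_card_le`).
-/

namespace Pool.Agent.P.MP_257122_al

open Matrix

namespace BShortAux

section walk
variable {G : Type} [Group G] {Δ : Subgroup G} {Tr Good : G → Prop}

/-- `c` is reached after `k` transitions, up to `Δ`. -/
def Wk (Δ : Subgroup G) (Tr Good : G → Prop) : ℕ → G → Prop
  | 0, c => Good c ∧ c ∈ Δ
  | k + 1, c => Good c ∧ ∃ b γ, Wk Δ Tr Good k b ∧ Tr γ ∧ c * (b * γ)⁻¹ ∈ Δ

theorem good {k : ℕ} {c : G} (h : Wk Δ Tr Good k c) : Good c := by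
  cases k <;> exact h.1

theorem sat {k : ℕ} {b c : G} (h : Wk Δ Tr Good k b) (hc : Good c) (e : c * b⁻¹ ∈ Δ) :
    Wk Δ Tr Good k c := by
  cases k with
  | zero => exact ⟨hc, by simpa using Δ.mul_mem e h.2⟩
  | succ k =>
    obtain ⟨-, a, γ, h1, h2, h3⟩ := h
    exact ⟨hc, a, γ, h1, h2, by simpa [mul_assoc] using Δ.mul_mem e h3⟩

theorem lst {k : ℕ} {c : G} (h : Wk Δ Tr Good k c) :
    ∃ l : List G, l.length = k ∧ (∀ γ ∈ l, Tr γ) ∧ c * l.prod⁻¹ ∈ Δ := by
  induction k generalizing c with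
  | zero => exact ⟨[], rfl, by simp, by simpa using h.2⟩
  | succ k ih =>
    obtain ⟨-, b, γ, h1, h2, h3⟩ := h
    obtain ⟨l, h4, h5, h6⟩ := ih h1
    refine ⟨l ++ [γ], by simp [h4], fun δ hδ => ?_, by simpa [mul_assoc] using Δ.mul_mem h3 h6⟩
    rcases List.mem_append.1 hδ with h7 | h7
    · exact h5 δ h7
    · rwa [List.mem_singleton.1 h7]

theorem down (k : ℕ) (c : G) (h : Wk Δ Tr Good k c) (hm : ∀ j < k, ¬ Wk Δ Tr Good j c) (j : ℕ)
    (hj : j ≤ k) : ∃ b, Wk Δ Tr Good j b ∧ ∀ i < j, ¬ Wk Δ Tr Good i b := by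
  induction k generalizing c with
  | zero => exact ⟨c, Nat.le_zero.1 hj ▸ h, fun i hi => absurd (hi.trans_le hj) i.not_lt_zero⟩
  | succ k ih =>
    rcases hj.eq_or_lt with rfl | hj'
    · exact ⟨c, h, hm⟩
    · obtain ⟨h0, b, γ, h1, h2, h3⟩ := h
      exact ih b h1 (fun i hi hb => hm (i + 1) (Nat.succ_lt_succ hi) ⟨h0, b, γ, hb, h2, h3⟩)
        (Nat.lt_succ_iff.1 hj')

end walk

theorem enc {X I : Type} [Fintype I] {B C : ℕ} (hB : 0 < B) (hC : B ^ Fintype.card I ≤ C)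
    (Gd : X → Prop) (R : I → X → X → Prop) (h : ∀ i, ∃ f : X → ℕ, (∀ x, Gd x → f x < B) ∧
      ∀ x y, Gd x → Gd y → f x = f y → R i x y) :
    ∃ st : X → Fin C, ∀ x y, Gd x → Gd y → st x = st y → ∀ i, R i x y := by
  classical
  choose f h1 h2 using h
  obtain ⟨e⟩ := Function.Embedding.nonempty_of_card_le (α := I → Fin B) (β := Fin C) (by simpa)
  refine ⟨fun x => e fun i => ⟨f i x % B, Nat.mod_lt _ hB⟩, fun x y hx hy hxy i => ?_⟩
  have h3 := congrArg Fin.val (congrFun (e.injective hxy) i)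
  simp only [Nat.mod_eq_of_lt (h1 i x hx), Nat.mod_eq_of_lt (h1 i y hy)] at h3
  exact h2 i x y hx hy h3

theorem encQ {X : Type} {M s : ℕ} (hM : 0 < M) (hs : M ≤ s) (Gd : X → Prop) (z : X → ℚ)
    (h : ∀ x, Gd x → (∃ k : ℤ, (M : ℚ) * z x = k) ∧ |z x| ≤ s) :
    ∃ f : X → ℕ, (∀ x, Gd x → f x < 2 * (s * s) + 1) ∧
      ∀ x y, Gd x → Gd y → f x = f y → z x = z y := by
  have h1 : ∀ x, Gd x → (⌊(M : ℚ) * z x⌋ : ℚ) = M * z x ∧ |⌊(M : ℚ) * z x⌋| ≤ (s * s : ℕ) := by
    intro x hx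
    obtain ⟨⟨k, hk⟩, h2⟩ := h x hx
    have h3 : |(M : ℚ) * z x| ≤ s * s := by
      rw [abs_mul, Nat.abs_cast]
      exact mul_le_mul (by exact_mod_cast hs) h2 (abs_nonneg _) (Nat.cast_nonneg _)
    rw [hk] at h3 ⊢
    rw [Int.floor_intCast]
    exact ⟨rfl, by exact_mod_cast h3⟩
  refine ⟨fun x => (⌊(M : ℚ) * z x⌋ + (s * s : ℕ)).toNat, fun x hx => ?_, fun x y hx hy e => ?_⟩
  · have := abs_le.1 (h1 x hx).2
    simp only
    omega
  · have h2 := abs_le.1 (h1 x hx).2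
    have h3 := abs_le.1 (h1 y hy).2
    have h4 : ⌊(M : ℚ) * z x⌋ = ⌊(M : ℚ) * z y⌋ := by
      simp only at e
      omega
    have h5 : (M : ℚ) ≠ 0 := by exact_mod_cast hM.ne'
    exact mul_left_cancel₀ h5 (by rw [← (h1 x hx).1, h4, (h1 y hy).1])

theorem resid {p : ℕ} [Fact p.Prime] {L : ℕ} (hL : 0 < L) (x : ℚ_[p]) (hx : ‖x‖ ≤ 1) :
    ∃ r : ℕ, r < L ∧ ‖x - r‖ ≤ ‖(L : ℚ_[p])‖ := by
  have h0 : 0 < ‖(L : ℚ_[p])‖ := norm_pos_iff.2 (by exact_mod_cast hL.ne')
  obtain ⟨k, hk⟩ := PadicInt.denseRange_natCast.exists_dist_lt (⟨x, hx⟩ : ℤ_[p]) h0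
  have h1 : ‖x - k‖ < ‖(L : ℚ_[p])‖ := by
    rw [dist_eq_norm, PadicInt.norm_def] at hk
    simpa using hk
  refine ⟨k % L, Nat.mod_lt _ hL, ?_⟩
  have h2 : x - (k % L : ℕ) = (x - k) + L * (k / L : ℕ) := by
    have h3 : (k : ℚ_[p]) = (k % L : ℕ) + L * (k / L : ℕ) := by
      exact_mod_cast (Nat.mod_add_div k L).symm
    linear_combination h3
  rw [h2]
  refine (Padic.nonarchimedean _ _).trans (max_le h1.le ?_)
  rw [norm_mul]
  exact mul_le_of_le_one_right h0.le (IsUltrametricDist.norm_natCast_le_one _ _)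

theorem encP {X : Type} {p : ℕ} [Fact p.Prime] {N K : ℕ} (hN : 0 < N) (hK : 0 < K)
    (Gd : X → Prop) (w : X → ℚ_[p]) (h : ∀ x, Gd x → ‖(N : ℚ_[p]) * w x‖ ≤ 1) :
    ∃ f : X → ℕ, (∀ x, Gd x → f x < N * K) ∧
      ∀ x y, Gd x → Gd y → f x = f y → ‖w x - w y‖ ≤ ‖(K : ℚ_[p])‖ := by
  have h0 : 0 < ‖(N : ℚ_[p])‖ := norm_pos_iff.2 (by exact_mod_cast hN.ne')
  choose! f h1 h2 using fun x hx => resid (mul_pos hN hK) _ (h x hx)
  refine ⟨f, h1, fun x y hx hy e => le_of_mul_le_mul_left ?_ h0⟩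
  rw [← norm_mul, ← norm_mul, ← Nat.cast_mul, show (N : ℚ_[p]) * (w x - w y) =
    (N * w x - f x) + -(N * w y - f y) by rw [e]; ring]
  exact (Padic.nonarchimedean _ _).trans (max_le (h2 x hx) (by rw [norm_neg]; exact h2 y hy))

end BShortAux

theorem shortcut {G S : Type} [Group G] [Fintype S] (Δ : Subgroup G) (Tr Good : G → Prop)
    (st : G → S) (h : ∀ b c, Good b → Good c → st b = st c → c * b⁻¹ ∈ Δ) (h1 : Good 1) {η : G}
    (hη : Relation.ReflTransGen (fun b c => Good c ∧ Tr (b⁻¹ * c)) 1 η) :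
    ∃ l : List G, l.length ≤ Fintype.card S ∧ (∀ γ ∈ l, Tr γ) ∧ η * l.prod⁻¹ ∈ Δ := by
  classical
  have h2 : ∃ k, BShortAux.Wk Δ Tr Good k η := by
    induction hη with
    | refl => exact ⟨0, h1, Δ.one_mem⟩
    | tail _ hc ih =>
      obtain ⟨k, hk⟩ := ih
      exact ⟨k + 1, hc.1, _, _, hk, hc.2, by simp⟩
  obtain ⟨l, h3, h4, h5⟩ := BShortAux.lst (Nat.find_spec h2)
  refine ⟨l, ?_, h4, h5⟩
  choose f hf using fun j : Fin (Nat.find h2 + 1) =>
    BShortAux.down (Nat.find h2) η (Nat.find_spec h2) (fun j hj => Nat.find_min h2 hj) j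
      (Nat.lt_succ_iff.1 j.2)
  have h6 : ∀ i j, st (f i) = st (f j) → ¬ i < j := fun i j e hij =>
    (hf j).2 i hij (BShortAux.sat (hf i).1 (BShortAux.good (hf j).1)
      (h _ _ (BShortAux.good (hf i).1) (BShortAux.good (hf j).1) e))
  have h7 := Fintype.card_le_of_injective (fun j => st (f j)) fun i j e =>
    le_antisymm (not_lt.1 (h6 j i e.symm)) (not_lt.1 (h6 i j e))
  rw [Fintype.card_fin] at h7
  omega

theorem states : ∃ C : ℕ → ℕ, CS C ∧ ∀ (s n m M N K : ℕ) (ys : List (OPk n)) (es : List (PMat n)),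
    n ≤ s → 0 < M → M ≤ s → 0 < N → N ≤ s → 0 < K → K ≤ s → ys.length ≤ s → es.length ≤ s →
    (∀ q ∈ ys, q.1.length ≤ s ∧ q.2.1 ≤ s) →
      ∃ st : GL (Fin n) ℚ → Fin (C s), ∀ b c, StG m M s N ys es b → StG m M s N ys es c →
        st b = st c → Near K ys es b c := by
  refine ⟨fun s => (2 * (s * s) + 1) ^ (s * (s * s ^ s) + s * (s * s)), ?_, ?_⟩
  · aesop (config := { terminal := true, enableSimp := false, maxRuleApplications := 3000, maxRuleApplicationDepth := 70, assumptionTransparency := .reducible }) (rule_sets := [-default, -builtin, Restrict])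
  intro s n m M N K ys es hn hM hMs hN hNs hK hKs hy he hq
  obtain ⟨st, hst⟩ := BShortAux.enc
    (I := (Σ i : Fin ys.length, Fin (ys.get i).2.1 × (Fin (ys.get i).1.length → Fin n)) ⊕
      (Fin es.length × Fin n × Fin n)) (B := 2 * (s * s) + 1)
    (C := (2 * (s * s) + 1) ^ (s * (s * s ^ s) + s * (s * s))) (Nat.succ_pos _) (by
      refine Nat.pow_le_pow_right (Nat.succ_pos _) ?_
      rw [Fintype.card_sum]
      refine add_le_add ?_ ?_
      · rw [Fintype.card_sigma]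
        refine (Finset.sum_le_card_nsmul _ _ (s * s ^ s) fun i _ => ?_).trans ?_
        · obtain ⟨h1, h2⟩ := hq _ (List.get_mem ys i)
          simp only [Fintype.card_prod, Fintype.card_fin, Fintype.card_fun]
          exact Nat.mul_le_mul h2 ((Nat.pow_le_pow_left hn _).trans
            (Nat.pow_le_pow_right (by omega) h1))
        · simpa using Nat.mul_le_mul_right _ hy
      · simp only [Fintype.card_prod, Fintype.card_fin]
        exact Nat.mul_le_mul he (Nat.mul_le_mul hn hn))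
    (StG m M s N ys es)
    (Sum.elim (fun i b c => (rho (ys.get i.1).1.get b.inv b.val *ᵥ (ys.get i.1).2.2.1 i.2.1) i.2.2 =
        (rho (ys.get i.1).1.get c.inv c.val *ᵥ (ys.get i.1).2.2.1 i.2.1) i.2.2)
      fun i b c => ‖(castM (Qp (es.get i.1).1) b.inv * (es.get i.1).2) i.2.1 i.2.2 -
        (castM (Qp (es.get i.1).1) c.inv * (es.get i.1).2) i.2.1 i.2.2‖ ≤
          ‖(K : Qp (es.get i.1).1)‖) (by
      rintro (⟨i, j, I⟩ | ⟨i, j, k⟩)
      · exact BShortAux.encQ hM hMs _ _ fun b hb =>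
          ⟨((hb.2.2.1 _ (List.get_mem ys i)).1 j).1 I, ((hb.2.2.1 _ (List.get_mem ys i)).2 j I).1⟩
      · obtain ⟨f, h1, h2⟩ := BShortAux.encP hN hK (StG m M s N ys es)
          (fun b => (castM (Qp (es.get i).1) b.inv * (es.get i).2) j k)
          fun b hb => (hb.2.2.2 _ (List.get_mem es i) j k).1
        refine ⟨f, fun b hb => (h1 b hb).trans_le ?_, h2⟩
        have := Nat.mul_le_mul hNs hKs
        omega)
  refine ⟨st, fun b c hb hc e => ⟨fun q hq' j => funext fun I => ?_, fun e' he' j k => ?_⟩⟩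
  · obtain ⟨i, rfl⟩ := List.get_of_mem hq'
    exact hst b c hb hc e (.inl ⟨i, j, I⟩)
  · obtain ⟨i, rfl⟩ := List.get_of_mem he'
    exact hst b c hb hc e (.inr ⟨i, j, k⟩)

end Pool.Agent.P.MP_257122_al
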