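import Pool.Agent.P.MP_257122_al.BRho
import Pool.Agent.P.MP_257122_al.FMat

/-!
# The Siegel property with an explicit bound

PLAN.  `x = k a N`, `x γ = k' a' N₂`.  Put `G = kᵀ k'` (orthogonal, entries at most `1`), so
`N γ N₂' = a⁻¹ G a'`.  (1) `a γ a'⁻¹ = (a N' a⁻¹) G (a' N₂ a'⁻¹)` has entries at most
`c = n² b⁴` (`b = sgB n`), so `γ i j ≠ 0` gives `a i ≤ M c a' j`; the same for `γ'` with the roles
exchanged.  (2) For every `l` some `γ i j ≠ 0` with `j ≤ l ≤ i` (otherwise `l + 1` independent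
columns lie in a space of dimension `l`; or use a permutation with nonzero product in
`Matrix.det_apply` and the pigeonhole principle), so `a l ≤ c₁ a' l` and `a' l ≤ c₁ a l`.
(3) If `a (l+1) > c₂ a l` (`c₂` explicit) then `γ i j = 0` for `j ≤ l < i`, so `γ`, `N γ N₂'` and `G`
are block triangular for the map `i ↦ decide (l < i)`; the inverse `Gᵀ` of `G` is block
triangular too (`Matrix.blockTriangular_inv_of_blockTriangular`), so `G i j = 0` for `i ≤ l < j`.
(4) Hence `|(a i)⁻¹ G i j a' j|` is bounded: for `j ≤ i` by almost monotonicity, for `i < j`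
either no gap lies between (`a j ≤ c₂ ^ n a i`) or the entry vanishes.  `γ = N' (…) N₂`.
Prove the real bound first with explicit constants in `n`, `M`; then take `C s` explicit and
monotone (`CS C` by the aesop call of the blueprint after unfolding `sgB`).
-/

namespace Pool.Agent.P.MP_257122_al

open Matrix

namespace BSpAux

variable {n : ℕ} {b : ℝ} {a a' : Fin n → ℝ} {N N' N₂ N₂' G γ γ' : Mat n ℝ}

/-- The triangular part of a point of a Siegel set. -/
structure Dat (b : ℝ) (a : Fin n → ℝ) (N N' : Mat n ℝ) : Prop where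
  pos : ∀ i, 0 < a i
  mono : ∀ i j, i ≤ j → a i ≤ b * a j
  inv : N * N' = 1
  tri : ∀ i j, j < i → N i j = 0 ∧ N' i j = 0
  bd : ∀ i j, |N i j| ≤ b
  bd' : ∀ i j, |N' i j| ≤ b

/-- Two points of a Siegel set related by `γ`. -/
structure Cf (b : ℝ) (a a' : Fin n → ℝ) (N N' N₂ N₂' G γ γ' : Mat n ℝ) : Prop where
  hb : 1 ≤ b
  hn : (n : ℝ) ≤ b
  d : Dat b a N N'
  d' : Dat b a' N₂ N₂'
  orth : Gᵀ * G = 1
  inv : γ * γ' = 1
  eq : diagonal a * N * γ = G * diagonal a' * N₂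
  big : ∀ i j, γ i j ≠ 0 → 1 ≤ b * |γ i j|
  big' : ∀ i j, γ' i j ≠ 0 → 1 ≤ b * |γ' i j|

theorem Cf.symm (h : Cf b a a' N N' N₂ N₂' G γ γ') : Cf b a' a N₂ N₂' N N' Gᵀ γ' γ := by
  refine ⟨h.hb, h.hn, h.d', h.d, ?_, mul_eq_one_comm.1 h.inv, ?_, h.big', h.big⟩
  · rw [transpose_transpose]
    exact mul_eq_one_comm.1 h.orth
  · calc diagonal a' * N₂ * γ' = Gᵀ * (G * diagonal a' * N₂) * γ' := by
          rw [Matrix.mul_assoc G, ← Matrix.mul_assoc Gᵀ, h.orth, Matrix.one_mul]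
      _ = Gᵀ * diagonal a * N := by
          rw [← h.eq, Matrix.mul_assoc, Matrix.mul_assoc _ γ, h.inv, Matrix.mul_one,
            Matrix.mul_assoc]

theorem orth_le (h : Gᵀ * G = 1) (i j : Fin n) : |G i j| ≤ 1 := by
  have h1 : ∑ p, G p j * G p j = 1 := by
    have := congrFun (congrFun h j) j
    rwa [Matrix.mul_apply, Matrix.one_apply_eq] at this
  have h2 : G i j * G i j ≤ ∑ p, G p j * G p j :=
    Finset.single_le_sum (f := fun p => G p j * G p j) (fun p _ => mul_self_nonneg _)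
      (Finset.mem_univ i)
  exact abs_le_one_iff_mul_self_le_one.2 (h1 ▸ h2)

theorem mul3_le {X Y Z : Mat n ℝ} {c : ℝ} {i j : Fin n}
    (h : ∀ p q, |X i p * Y p q * Z q j| ≤ c) : |(X * Y * Z) i j| ≤ n * (n * c) := by
  rw [Matrix.mul_apply]
  refine (Finset.abs_sum_le_sum_abs _ _).trans ?_
  refine (Finset.sum_le_card_nsmul _ _ (n * c) fun q _ => ?_).trans (by simp)
  rw [Matrix.mul_apply, Finset.sum_mul]
  refine (Finset.abs_sum_le_sum_abs _ _).trans ?_
  exact (Finset.sum_le_card_nsmul _ _ c fun p _ => h p q).trans (by simp)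

/-- The middle factor. -/
noncomputable def mid (a a' : Fin n → ℝ) (G : Mat n ℝ) : Mat n ℝ :=
  diagonal (fun i => (a i)⁻¹) * G * diagonal a'

theorem mid_apply (a a' : Fin n → ℝ) (G : Mat n ℝ) (i j : Fin n) :
    mid a a' G i j = (a i)⁻¹ * G i j * a' j := by
  simp [mid]

theorem Cf.mid_eq (h : Cf b a a' N N' N₂ N₂' G γ γ') : N * γ = mid a a' G * N₂ := by
  have h1 : diagonal (fun i => (a i)⁻¹) * diagonal a = 1 := by
    rw [diagonal_mul_diagonal, ← diagonal_one]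
    exact congrArg diagonal (funext fun i => inv_mul_cancel₀ (h.d.pos i).ne')
  calc N * γ = diagonal (fun i => (a i)⁻¹) * (diagonal a * N * γ) := by
        rw [Matrix.mul_assoc, ← Matrix.mul_assoc, h1, Matrix.one_mul]
    _ = mid a a' G * N₂ := by
        rw [h.eq, mid]
        simp only [Matrix.mul_assoc]

theorem Cf.gam_eq (h : Cf b a a' N N' N₂ N₂' G γ γ') : γ = N' * mid a a' G * N₂ := by
  rw [Matrix.mul_assoc, ← h.mid_eq, ← Matrix.mul_assoc, mul_eq_one_comm.1 h.d.inv, Matrix.one_mul]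

theorem Cf.mid_le (h : Cf b a a' N N' N₂ N₂' G γ γ') (p q : Fin n) :
    |mid a a' G p q| ≤ a' q / a p := by
  have h1 := h.d.pos p
  have h2 := h.d'.pos q
  rw [mid_apply, abs_mul, abs_mul, abs_of_pos h2, abs_of_pos (inv_pos.2 h1), div_eq_inv_mul]
  exact mul_le_mul_of_nonneg_right
    (mul_le_of_le_one_right (inv_pos.2 h1).le (orth_le h.orth p q)) h2.le

theorem Cf.gam_le (h : Cf b a a' N N' N₂ N₂' G γ γ') {c : ℝ} {i j : Fin n} (hc : 0 ≤ c)
    (hm : ∀ p q, i ≤ p → q ≤ j → |mid a a' G p q| ≤ c) : |γ i j| ≤ b ^ 4 * c := by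
  have hb : 0 ≤ b := zero_le_one.trans h.hb
  have h1 : |(N' * mid a a' G * N₂) i j| ≤ n * (n * (b * c * b)) := mul3_le fun p q => by
    by_cases hp : i ≤ p
    · by_cases hq : q ≤ j
      · rw [abs_mul, abs_mul]
        exact mul_le_mul (mul_le_mul (h.d.bd' i p) (hm p q hp hq) (abs_nonneg _) hb)
          (h.d'.bd q j) (abs_nonneg _) (by positivity)
      · rw [(h.d'.tri q j (not_le.1 hq)).1, mul_zero, abs_zero]
        positivity
    · rw [(h.d.tri i p (not_le.1 hp)).2, zero_mul, zero_mul, abs_zero]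
      positivity
  rw [← h.gam_eq] at h1
  calc |γ i j| ≤ n * (n * (b * c * b)) := h1
    _ ≤ b * (b * (b * c * b)) := by
        have := h.hn
        gcongr
    _ = b ^ 4 * c := by ring

theorem Cf.step1 (h : Cf b a a' N N' N₂ N₂' G γ γ') {i j : Fin n} (hg : γ i j ≠ 0) :
    a i ≤ b ^ 7 * a' j := by
  have hb : 0 ≤ b := zero_le_one.trans h.hb
  have hi := h.d.pos i
  have hj := h.d'.pos j
  have h1 : |γ i j| ≤ b ^ 4 * (b ^ 2 * a' j / a i) := h.gam_le (by positivity) fun p q hp hq => by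
    refine (h.mid_le p q).trans ?_
    rw [div_le_div_iff₀ (h.d.pos p) hi]
    calc a' q * a i ≤ (b * a' j) * (b * a p) :=
          mul_le_mul (h.d'.mono q j hq) (h.d.mono i p hp) hi.le (by positivity)
      _ = b ^ 2 * a' j * a p := by ring
  have h2 : 1 ≤ b ^ 7 * a' j / a i :=
    calc 1 ≤ b * |γ i j| := h.big i j hg
      _ ≤ b * (b ^ 4 * (b ^ 2 * a' j / a i)) := mul_le_mul_of_nonneg_left h1 hb
      _ = b ^ 7 * a' j / a i := by ring
  rwa [le_div_iff₀ hi, one_mul] at h2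

theorem exists_entry (h : γ * γ' = 1) (l : Fin n) : ∃ i j, j ≤ l ∧ l ≤ i ∧ γ i j ≠ 0 := by
  have h1 : γ.det ≠ 0 := fun e => by
    have := congrArg det h
    rw [det_mul, e, zero_mul, det_one] at this
    exact zero_ne_one this
  rw [det_apply] at h1
  obtain ⟨σ, -, h2⟩ := Finset.exists_ne_zero_of_sum_ne_zero h1
  have h3 : ∀ j, γ (σ j) j ≠ 0 := fun j e =>
    h2 (by rw [Finset.prod_eq_zero (f := fun i => γ (σ i) i) (Finset.mem_univ j) e, smul_zero])
  by_contra hc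
  have h4 : ∀ j ∈ Finset.Iic l, σ j ∈ Finset.Iio l := fun j hj => by
    rw [Finset.mem_Iio]
    by_contra h5
    exact hc ⟨σ j, j, Finset.mem_Iic.1 hj, not_lt.1 h5, h3 j⟩
  have h5 := Finset.card_le_card_of_injOn σ h4 σ.injective.injOn
  rw [Fin.card_Iic, Fin.card_Iio] at h5
  omega

theorem Cf.cross (h : Cf b a a' N N' N₂ N₂' G γ γ') {i j l m : Fin n} (hg : γ i j ≠ 0)
    (hm : m ≤ i) (hl : j ≤ l) : a m ≤ b ^ 9 * a' l := by
  have hb : 0 ≤ b := zero_le_one.trans h.hb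
  calc a m ≤ b * a i := h.d.mono m i hm
    _ ≤ b * (b ^ 7 * a' j) := mul_le_mul_of_nonneg_left (h.step1 hg) hb
    _ ≤ b * (b ^ 7 * (b * a' l)) := by
        have := h.d'.mono j l hl
        gcongr
    _ = b ^ 9 * a' l := by ring

theorem Cf.step2 (h : Cf b a a' N N' N₂ N₂' G γ γ') (l : Fin n) : a l ≤ b ^ 9 * a' l := by
  obtain ⟨i, j, h1, h2, h3⟩ := exists_entry h.inv l
  exact h.cross h3 h2 h1

theorem Cf.step3 (h : Cf b a a' N N' N₂ N₂' G γ γ') {l : Fin n}
    (hz : ∀ p q, q ≤ l → l < p → γ p q = 0) {i j : Fin n} (hi : i ≤ l) (hj : l < j) :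
    G i j = 0 := by
  have key : ∀ p q : Fin n, decide (l < q) < decide (l < p) ↔ q ≤ l ∧ l < p := fun p q => by
    rw [Bool.lt_iff, decide_eq_false_iff_not, decide_eq_true_iff, not_lt]
  have t1 : ∀ X : Mat n ℝ, (∀ p q, q < p → X p q = 0) →
      BlockTriangular X fun p => decide (l < p) := fun X hX p q e =>
    hX p q (lt_of_le_of_lt ((key p q).1 e).1 ((key p q).1 e).2)
  have t2 : BlockTriangular γ fun p => decide (l < p) := fun p q e =>
    hz p q ((key p q).1 e).1 ((key p q).1 e).2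
  have t3 : BlockTriangular (mid a a' G) fun p => decide (l < p) := by
    have e : mid a a' G = N * γ * N₂' := by
      rw [h.mid_eq, Matrix.mul_assoc, h.d'.inv, Matrix.mul_one]
    rw [e]
    exact ((t1 N fun p q e => (h.d.tri p q e).1).mul t2).mul
      (t1 N₂' fun p q e => (h.d'.tri p q e).2)
  have t4 : BlockTriangular G fun p => decide (l < p) := fun p q e => by
    have := t3 e
    rw [mid_apply] at this
    exact (mul_eq_zero.1 ((mul_eq_zero.1 this).resolve_right (h.d'.pos q).ne')).resolve_left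
      (inv_pos.2 (h.d.pos p)).ne'
  let _ : Invertible G := invertibleOfLeftInverse G Gᵀ h.orth
  have t5 := blockTriangular_inv_of_blockTriangular t4
  rw [inv_eq_left_inv h.orth] at t5
  exact t5 ((key j i).2 ⟨hi, hj⟩)

theorem Cf.step4 (h : Cf b a a' N N' N₂ N₂' G γ γ') {i j : Fin n} (hG : G i j ≠ 0) (d : ℕ) :
    ∀ m : Fin n, m.val = i.val + d → m ≤ j → a m ≤ (b ^ 18) ^ d * a i := by
  have hb : 0 ≤ b := zero_le_one.trans h.hb
  induction d with
  | zero =>
    intro m hm _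
    rw [Fin.ext (hm : m.val = i.val), pow_zero, one_mul]
  | succ d ih =>
    intro m hm hj
    have hl : i.val + d < n := by omega
    have h1 := ih ⟨i.val + d, hl⟩ rfl (Fin.le_def.2 (by have := Fin.le_def.1 hj; simp only; omega))
    have h2 : ∃ p q, q ≤ (⟨i.val + d, hl⟩ : Fin n) ∧ (⟨i.val + d, hl⟩ : Fin n) < p ∧
        γ p q ≠ 0 := by
      by_contra hc
      refine hG (h.step3 (l := ⟨i.val + d, hl⟩) (fun p q h3 h4 => ?_)
        (Fin.le_def.2 (by simp only; omega))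
        (Fin.lt_def.2 (by have := Fin.le_def.1 hj; simp only; omega)))
      by_contra h5
      exact hc ⟨p, q, h3, h4, h5⟩
    obtain ⟨p, q, h3, h4, h5⟩ := h2
    have h6 := h.symm.step2 ⟨i.val + d, hl⟩
    calc a m ≤ b ^ 9 * a' ⟨i.val + d, hl⟩ :=
          h.cross h5 (Fin.le_def.2 (by have := Fin.lt_def.1 h4; simp only at this; omega)) h3
      _ ≤ b ^ 9 * (b ^ 9 * ((b ^ 18) ^ d * a i)) := by
          have := h6.trans (mul_le_mul_of_nonneg_left h1 (by positivity))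
          gcongr
      _ = (b ^ 18) ^ (d + 1) * a i := by ring

theorem Cf.mid_bd (h : Cf b a a' N N' N₂ N₂' G γ γ') (i j : Fin n) :
    |mid a a' G i j| ≤ b ^ (10 + 18 * n) := by
  have hb : 0 ≤ b := zero_le_one.trans h.hb
  have hi := h.d.pos i
  by_cases hG : G i j = 0
  · rw [mid_apply, hG, mul_zero, zero_mul, abs_zero]
    positivity
  refine (h.mid_le i j).trans ((div_le_iff₀ hi).2 ?_)
  rcases le_total j i with e | e
  · calc a' j ≤ b * a' i := h.d'.mono j i e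
      _ ≤ b * (b ^ 9 * a i) := mul_le_mul_of_nonneg_left (h.symm.step2 i) hb
      _ = b ^ 10 * a i := by ring
      _ ≤ b ^ (10 + 18 * n) * a i :=
          mul_le_mul_of_nonneg_right (pow_le_pow_right₀ h.hb (by omega)) hi.le
  · have e' := Fin.le_def.1 e
    calc a' j ≤ b ^ 9 * a j := h.symm.step2 j
      _ ≤ b ^ 9 * ((b ^ 18) ^ (j.val - i.val) * a i) :=
          mul_le_mul_of_nonneg_left (h.step4 hG _ j (by omega) le_rfl) (by positivity)
      _ = b ^ (9 + 18 * (j.val - i.val)) * a i := by ring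
      _ ≤ b ^ (10 + 18 * n) * a i :=
          mul_le_mul_of_nonneg_right (pow_le_pow_right₀ h.hb (by omega)) hi.le

theorem Cf.bound (h : Cf b a a' N N' N₂ N₂' G γ γ') (i j : Fin n) :
    |γ i j| ≤ b ^ (14 + 18 * n) := by
  have hb : 0 ≤ b := zero_le_one.trans h.hb
  refine (h.gam_le (by positivity) fun p q _ _ => h.mid_bd p q).trans_eq ?_
  ring

theorem Dat.of_sg {x : Mat n ℝ} (h : Sg x) (hb : (sgB n : ℝ) ≤ b) :
    ∃ k a N N', kᵀ * k = 1 ∧ x = k * diagonal a * N ∧ Dat b a N N' := by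
  obtain ⟨k, N, N', a, h1, h2, h3, h4, h5, h6, -, h7, h8⟩ := h
  exact ⟨k, a, N, N', h1, h2, h4, fun i j e => (h5 i j e).trans
    (mul_le_mul_of_nonneg_right hb (h4 j).le), h3, h6, fun i j => (h7 i j).trans hb,
    fun i j => (h8 i j).trans hb⟩

theorem big_of_int {M : ℕ} {y : Mat n ℚ} (h : IntM M y) (h0 : 0 < M) (hb : (M : ℝ) ≤ b)
    (i j : Fin n) (hy : castM ℝ y i j ≠ 0) : 1 ≤ b * |castM ℝ y i j| := by
  obtain ⟨z, hz⟩ := h i j
  have h1 : (M : ℝ) * castM ℝ y i j = z := by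
    change (M : ℝ) * ((y i j : ℚ) : ℝ) = z
    exact_mod_cast hz
  have h2 : z ≠ 0 := fun e => by
    rw [e, Int.cast_zero] at h1
    exact mul_ne_zero (Nat.cast_pos.2 h0).ne' hy h1
  calc (1 : ℝ) ≤ |(z : ℝ)| := by exact_mod_cast Int.one_le_abs h2
    _ = M * |castM ℝ y i j| := by rw [← h1, abs_mul, Nat.abs_cast]
    _ ≤ b * |castM ℝ y i j| := mul_le_mul_of_nonneg_right hb (abs_nonneg _)

theorem base_le {n s : ℕ} (h : n ≤ s) :
    sgB n ≤ (s + 2) ^ s * (s + 1) ^ (s + 1) ∧ s + 1 ≤ (s + 2) ^ s * (s + 1) ^ (s + 1) := by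
  refine ⟨Nat.mul_le_mul
    ((Nat.pow_le_pow_right (by omega) h).trans (Nat.pow_le_pow_left (by omega) _))
    ((Nat.factorial_le (by omega)).trans (Nat.factorial_le_pow _)), ?_⟩
  exact (Nat.le_self_pow (by omega) _).trans (Nat.le_mul_of_pos_left _ (by positivity))

end BSpAux

open BSpAux in
theorem siegel_prop : ∃ C : ℕ → ℕ, CS C ∧ ∀ (s n M : ℕ) (x : Mat n ℝ) (γ : GL (Fin n) ℚ),
    n ≤ s → 0 < M → M ≤ s → IntM M γ.val → IntM M γ.inv → Sg x → Sg (x * castM ℝ γ.val) →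
      HtG (C s) γ := by
  refine ⟨fun s => ((s + 2) ^ s * (s + 1) ^ (s + 1)) ^ (14 + s * 18), ?_, ?_⟩
  · aesop (config := { terminal := true, enableSimp := false, maxRuleApplications := 3000, maxRuleApplicationDepth := 70, assumptionTransparency := .reducible }) (rule_sets := [-default, -builtin, Restrict])
  intro s n M x γ hn h0 hM h1 h2 hx hy
  obtain ⟨b1, b2⟩ := base_le hn
  dsimp only
  generalize (s + 2) ^ s * (s + 1) ^ (s + 1) = b at b1 b2 ⊢
  obtain ⟨k, a, N, N', k1, k2, k3⟩ := Dat.of_sg (b := b) hx (Nat.cast_le.2 b1)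
  obtain ⟨k', a', N₂, N₂', l1, l2, l3⟩ := Dat.of_sg (b := b) hy (Nat.cast_le.2 b1)
  have hMb : (M : ℝ) ≤ b := Nat.cast_le.2 (by omega)
  have h : Cf (b : ℝ) a a' N N' N₂ N₂' (kᵀ * k') (castM ℝ γ.val) (castM ℝ γ.inv) := by
    refine ⟨Nat.one_le_cast.2 (by omega), Nat.cast_le.2 (by omega), k3, l3, ?_, ?_, ?_,
      big_of_int h1 h0 hMb, big_of_int h2 h0 hMb⟩
    · rw [transpose_mul, transpose_transpose, Matrix.mul_assoc, ← Matrix.mul_assoc k,
        mul_eq_one_comm.1 k1, Matrix.one_mul, l1]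
    · rw [← castM_mul, γ.val_inv, castM_one]
    · rw [Matrix.mul_assoc kᵀ, Matrix.mul_assoc kᵀ, ← l2, k2, Matrix.mul_assoc k,
        Matrix.mul_assoc k, ← Matrix.mul_assoc kᵀ, k1, Matrix.one_mul]
  have hp : b ^ (14 + 18 * n) ≤ b ^ (14 + s * 18) := Nat.pow_le_pow_right (by omega) (by omega)
  have hD : M ≤ b ^ (14 + s * 18) := (by omega : M ≤ b).trans (Nat.le_self_pow (by omega) _)
  have fin : ∀ y : ℚ, |(y : ℝ)| ≤ (b : ℝ) ^ (14 + 18 * n) →
      |y| ≤ ((b ^ (14 + s * 18) : ℕ) : ℚ) := fun y e => by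
    have e1 : |y| ≤ ((b ^ (14 + 18 * n) : ℕ) : ℚ) := by exact_mod_cast e
    exact e1.trans (Nat.cast_le.2 hp)
  exact ⟨⟨M, h0, hD, h1, fun i j => fin _ (h.bound i j)⟩,
    ⟨M, h0, hD, h2, fun i j => fin _ (h.symm.bound i j)⟩⟩

end Pool.Agent.P.MP_257122_al
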