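import Pool.Agent.P.MP_257122_al.BS1
import Pool.Agent.P.MP_257122_al.BS2
import Pool.Agent.P.MP_257122_al.BSp
import Pool.Agent.P.MP_257122_al.BHc
import Pool.Agent.P.MP_257122_al.BGeo
import Pool.Agent.P.MP_257122_al.BLat
import Pool.Agent.P.MP_257122_al.BShort

/-!
# Chains of good bases

PLAN.  `reach`: let `s₁ = s + s * s ^ s + C_geo s` and `C s` the sum of `s` and all constants at
`s₁`.  Call `b` admissible if it satisfies the lattice conditions (`ZM`, `LPk (M m^s)`, `PGood`;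
they are stable under right multiplication by invertible integer matrices).  An admissible `b`
with `SRed ((x b)ᵀ (x b))` for a frame `x` with `FPk s₁` is good (`sg_of_sred`, `bhc`).
(1) `lat_path` gives `f r`; `exists_sred` for `g₁ f r` gives `b r = f r γ r`.  Step `1 → b 0` by
`siegel_bd`, steps `b r → b (r+1)` by `siegel_prop` with `x = g₁ b r`.  (2) `geo_path` from `g₁`
to `g₂ η⁻¹`.  The set of `t ∈ [0,1]` such that some reachable `η γ` (`γ` integral) is reduced for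
`x t` is open and closed in `[0,1]`: near `t₀` a basis reduced for `x t₀` stays reduced
(`isOpen_sred`), and two bases reduced for the same frame differ by a bounded transition
(`siegel_prop`); use `isPreconnected_Icc` (`IsPreconnected.subset_of_…`, or
`IsPreconnected.induction₂'`).  (3) At `t = 1` the Gram matrix is that of `g₂ γ`, so `γ` is
bounded by `siegel_bd`, which gives the last step `η γ → η`.
`chain_short`: `reach`, `states` at the size `s + s * s ^ s + C s`, `shortcut`, `htG_prod`.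
-/

namespace Pool.Agent.P.MP_257122_al

open Matrix

theorem StG.mono {n m M M' C C' N : ℕ} {ys : List (OPk n)} {es : List (PMat n)}
    {b : GL (Fin n) ℚ} (h : StG m M C N ys es b) (hM : M ∣ M') (hC : C ≤ C') :
    StG m M' C' N ys es b := by
  have hC' : (C : ℚ) ≤ C' := by exact_mod_cast hC
  refine ⟨h.1, h.2.1, fun q hq => ⟨fun j => ?_, fun j I => ?_⟩, h.2.2.2⟩
  · exact ⟨((h.2.2.1 q hq).1 j).1.of_dvd hM, ((h.2.2.1 q hq).1 j).2.of_dvd hM⟩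
  · exact ⟨((h.2.2.1 q hq).2 j I).1.trans hC', ((h.2.2.1 q hq).2 j I).2.trans hC'⟩

namespace BReachAux

variable {n : ℕ}

theorem fpk_mono {C C' : ℕ} {g g' : Mat n ℝ} {q : OPk n} (h : FPk C g g' q) (hC : C ≤ C') :
    FPk C' g g' q := by
  have hC' : (C : ℝ) ≤ C' := by exact_mod_cast hC
  exact ⟨h.1, fun j I => ⟨(h.2 j I).1.trans hC', (h.2 j I).2.trans hC'⟩⟩

/-- Bases satisfying the lattice conditions. -/
def Adm (m L N : ℕ) (ys : List (OPk n)) (es : List (PMat n)) (b : GL (Fin n) ℚ) : Prop :=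
  ZM m b.val ∧ ZM m b.inv ∧ (∀ q ∈ ys, LPk L b.val b.inv q) ∧ ∀ e ∈ es, PGood N b.val b.inv e

theorem Adm.mul_int {m L N : ℕ} {ys : List (OPk n)} {es : List (PMat n)} {b γ : GL (Fin n) ℚ}
    (h : Adm m L N ys es b) (h1 : IntM 1 γ.val) (h2 : IntM 1 γ.inv) : Adm m L N ys es (b * γ) :=
  ⟨h.1.mul (h1.zm m), (h2.zm m).mul h.2.1, fun q hq => (h.2.2.1 q hq).mul_int h1 h2,
    fun e he => (h.2.2.2 e he).mul_int h1 h2⟩

/-- The basis `b` is reduced for the frame `x`. -/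
def Rd (x : Mat n ℝ) (b : GL (Fin n) ℚ) : Prop :=
  SRed n ((x * castM ℝ b.val)ᵀ * (x * castM ℝ b.val))

theorem Rd.congr {x y : Mat n ℝ} {b : GL (Fin n) ℚ} (h : Rd x b) (e : xᵀ * x = yᵀ * y) :
    Rd y b := by
  have key : ∀ z : Mat n ℝ, (z * castM ℝ b.val)ᵀ * (z * castM ℝ b.val) =
      (castM ℝ b.val)ᵀ * (zᵀ * z) * castM ℝ b.val := fun z => by
    rw [transpose_mul]
    simp only [Matrix.mul_assoc]
  unfold Rd at *
  rwa [key, ← e, ← key]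

theorem rd_mul {x : Mat n ℝ} {b γ : GL (Fin n) ℚ} :
    Rd x (b * γ) ↔ Rd (x * castM ℝ b.val) γ := by
  unfold Rd
  rw [Units.val_mul, castM_mul, Matrix.mul_assoc x]

theorem Rd.sg {x : Mat n ℝ} {b : GL (Fin n) ℚ} (h : Rd x b) : Sg (x * castM ℝ b.val) :=
  sg_of_sred h

theorem cast_vi (b : GL (Fin n) ℚ) : castM ℝ b.val * castM ℝ b.inv = 1 := by
  rw [← castM_mul, b.val_inv, castM_one]

theorem cast_iv (b : GL (Fin n) ℚ) : castM ℝ b.inv * castM ℝ b.val = 1 := by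
  rw [← castM_mul, b.inv_val, castM_one]

theorem exists_rd {x x' : Mat n ℝ} (h : x * x' = 1) (b : GL (Fin n) ℚ) :
    ∃ γ : GL (Fin n) ℚ, IntM 1 γ.val ∧ IntM 1 γ.inv ∧ Rd x (b * γ) := by
  obtain ⟨γ, h1, h2, h3⟩ := exists_sred (x := x * castM ℝ b.val) (x' := castM ℝ b.inv * x') (by
    rw [Matrix.mul_assoc, ← Matrix.mul_assoc (castM ℝ b.val), cast_vi, Matrix.one_mul, h])
  exact ⟨γ, h1, h2, rd_mul.2 h3⟩

theorem isOpen_rd {x : ℝ → Mat n ℝ} (hx : Continuous x) (b : GL (Fin n) ℚ) :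
    IsOpen {t | Rd (x t) b} :=
  (isOpen_sred n).preimage ((hx.matrix_mul continuous_const).matrix_transpose.matrix_mul
    (hx.matrix_mul continuous_const))

theorem int_conj {M : ℕ} {x y z : Mat n ℚ} (hx : IntM 1 x) (hy : IntM M y) (hz : IntM 1 z) :
    IntM M (x * (y * z)) := by
  have := hx.mul (hy.mul hz)
  rwa [Nat.one_mul, Nat.mul_one] at this

/-- The chain, from three abstract properties of reduced bases. -/
theorem chain {m L N : ℕ} {ys : List (OPk n)} {es : List (PMat n)}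
    {Good Tr : GL (Fin n) ℚ → Prop} {Fr : Mat n ℝ → Prop}
    (good : ∀ x b, Fr x → Adm m L N ys es b → Rd x b → Good b)
    (tr : ∀ x b c, IntM m (b⁻¹ * c).val → IntM m (b⁻¹ * c).inv → Rd x b → Rd x c → Tr (b⁻¹ * c))
    (inv : ∀ x, Fr x → ∃ x', x * x' = 1) {g₁ g₂ : Mat n ℝ} {η : GL (Fin n) ℚ} (h1 : Fr g₁)
    (e1 : ∀ γ : GL (Fin n) ℚ, IntM 1 γ.val → IntM 1 γ.inv → Rd g₁ γ → Tr γ)
    (e2 : ∀ γ : GL (Fin n) ℚ, IntM 1 γ.val → IntM 1 γ.inv → Rd g₂ γ → Tr γ⁻¹) (hη : Good η)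
    {T : ℕ} {f : ℕ → GL (Fin n) ℚ} (f0 : f 0 = 1) (fT : f T = η)
    (fa : ∀ r ≤ T, Adm m L N ys es (f r))
    (fs : ∀ r < T, IntM m ((f r)⁻¹ * f (r + 1)).val ∧ IntM m ((f r)⁻¹ * f (r + 1)).inv)
    {x : ℝ → Mat n ℝ} (hx : Continuous x) (x0 : (x 0)ᵀ * x 0 = g₁ᵀ * g₁)
    (x1 : (x 1)ᵀ * x 1 = (g₂ * castM ℝ η.inv)ᵀ * (g₂ * castM ℝ η.inv))
    (xF : ∀ t ∈ Set.Icc (0 : ℝ) 1, Fr (x t)) :
    Relation.ReflTransGen (fun b c => Good c ∧ Tr (b⁻¹ * c)) 1 η := by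
  set Rc := Relation.ReflTransGen (fun b c : GL (Fin n) ℚ => Good c ∧ Tr (b⁻¹ * c)) 1 with hRc
  obtain ⟨g₁', hg⟩ := inv g₁ h1
  choose γ γ1 γ2 γ3 using fun r => exists_rd hg (f r)
  have lat : ∀ r ≤ T, Rc (f r * γ r) := by
    intro r
    induction r with
    | zero =>
      intro h
      refine Relation.ReflTransGen.single ⟨good g₁ _ h1 ((fa 0 h).mul_int (γ1 0) (γ2 0)) (γ3 0), ?_⟩
      have := γ3 0
      rw [f0, one_mul] at this
      rw [f0, inv_one, one_mul, one_mul]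
      exact e1 _ (γ1 0) (γ2 0) this
    | succ r ih =>
      intro h
      have e : (f r * γ r)⁻¹ * (f (r + 1) * γ (r + 1)) =
          (γ r)⁻¹ * (((f r)⁻¹ * f (r + 1)) * γ (r + 1)) := by group
      refine (ih (Nat.le_of_succ_le h)).tail
        ⟨good g₁ _ h1 ((fa _ h).mul_int (γ1 _) (γ2 _)) (γ3 _), tr g₁ _ _ ?_ ?_ (γ3 _) (γ3 _)⟩
      · rw [e]
        exact int_conj (γ2 r) (fs r h).1 (γ1 _)
      · rw [e]
        have := int_conj (γ2 (r + 1)) (fs r h).2 (γ1 r)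
        rwa [← Matrix.mul_assoc] at this
  have aη : Adm m L N ys es η := fT ▸ fa T le_rfl
  let P : ℝ → Prop := fun t =>
    ∃ δ : GL (Fin n) ℚ, IntM 1 δ.val ∧ IntM 1 δ.inv ∧ Rc (η * δ) ∧ Rd (x t) (η * δ)
  have P0 : P 0 := ⟨γ T, γ1 T, γ2 T, fT ▸ lat T le_rfl, fT ▸ (γ3 T).congr x0.symm⟩
  have move : ∀ t ∈ Set.Icc (0 : ℝ) 1, ∀ (u : ℝ) (δ : GL (Fin n) ℚ), IntM 1 δ.val →
      IntM 1 δ.inv → Rd (x t) (η * δ) → Rd (x u) (η * δ) → P t → P u := by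
    rintro t ht u δ d1 d2 d3 d4 ⟨ε, c1, c2, c3, c4⟩
    have e : (η * ε)⁻¹ * (η * δ) = ε⁻¹ * δ := by group
    refine ⟨δ, d1, d2, c3.tail ⟨good _ _ (xF t ht) (aη.mul_int d1 d2) d3,
      tr (x t) _ _ ?_ ?_ c4 d3⟩, d4⟩
    · rw [e]
      exact (c2.mul d1).of_dvd (one_dvd m)
    · rw [e]
      exact (d2.mul c1).of_dvd (one_dvd m)
  have P1 : P 1 := by
    refine isPreconnected_Icc.induction₂' (fun t u => P t → P u) (fun t ht => ?_)
      (fun _ _ _ _ _ _ a b => b ∘ a) (Set.left_mem_Icc.2 zero_le_one)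
      (Set.right_mem_Icc.2 zero_le_one) P0
    obtain ⟨x', hx'⟩ := inv _ (xF t ht)
    obtain ⟨δ, d1, d2, d3⟩ := exists_rd hx' η
    filter_upwards [mem_nhdsWithin_of_mem_nhds ((isOpen_rd hx (η * δ)).mem_nhds d3),
      self_mem_nhdsWithin] with u hu hu'
    exact ⟨move t ht u δ d1 d2 d3 hu, move u hu' t δ d1 d2 hu d3⟩
  obtain ⟨δ, d1, d2, d3, d4⟩ := P1
  have d5 := rd_mul.1 (d4.congr x1)
  rw [Matrix.mul_assoc, cast_iv, Matrix.mul_one] at d5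
  refine d3.tail ⟨hη, ?_⟩
  rw [show (η * δ)⁻¹ * η = δ⁻¹ by group]
  exact e2 δ d1 d2 d5

theorem cs_add {f g : ℕ → ℕ} (hf : CS f) (hg : CS g) : CS (fun s => f s + g s) :=
  CS.add AddF.nat hf hg

theorem cs_sz : CS (fun s : ℕ => s + s * s ^ s) :=
  cs_add CS.id (CS.mul MulF.nat CS.id (CS.pow MulF.nat OneF.nat CS.id CS.id))

theorem sz_le {s m M : ℕ} (hm : m ≤ s) (hM : M ≤ s) : M * m ^ s ≤ s * s ^ s :=
  Nat.mul_le_mul hM (Nat.pow_le_pow_left hm s)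

end BReachAux

open BReachAux

theorem reach : ∃ C : ℕ → ℕ, CS C ∧ (∀ s, s ≤ C s) ∧
    ∀ (s n m M N : ℕ) (ys : List (OPk n)) (es : List (PMat n)) (g₁ g₁' g₂ g₂' : Mat n ℝ)
      (η : GL (Fin n) ℚ), Ends s m M N ys es g₁ g₁' g₂ g₂' η →
      Relation.ReflTransGen
        (fun b c => StG m (M * m ^ s) (C s) N ys es c ∧ HtG (C s) (b⁻¹ * c)) 1 η := by
  obtain ⟨Cg, cg, hg⟩ := geo_path
  obtain ⟨Cb, cb, hb⟩ := bhc
  obtain ⟨Cp, cp, hp⟩ := siegel_prop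
  obtain ⟨Cd, cd, hd⟩ := siegel_bd
  have c1 : CS (fun s : ℕ => s + s * s ^ s + Cg s) := cs_add cs_sz cg
  refine ⟨fun s => s + Cb (s + s * s ^ s + Cg s) + Cp s + Cd s,
    cs_add (cs_add (cs_add CS.id (cb.comp c1)) cp) cd, fun s => by beta_reduce; omega, ?_⟩
  rintro s n m M N ys es g₁ g₁' g₂ g₂' η
    ⟨hn, hm, hms, hM, hMs, i1, i2, b1, b1', b2, b2', hy, s1, sη⟩
  beta_reduce
  have hL := sz_le hms hMs
  have hL0 : 0 < M * m ^ s := Nat.mul_pos hM (Nat.pow_pos hm)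
  obtain ⟨T, f, f0, fT, fa, fs⟩ := lat_path (s := s) (M := M) (N := N) ys es η hm sη.1 sη.2.1
    (fun q hq => ⟨(hy q hq).1, (s1.2.2.1 q hq).1, (sη.2.2.1 q hq).1⟩)
    fun e he => ⟨s1.2.2.2 e he, sη.2.2.2 e he⟩
  obtain ⟨x, x', hx, x0, x1, xF⟩ := hg s n ys g₁ g₁' (g₂ * castM ℝ η.inv) (castM ℝ η.val * g₂') hn
    i1 (by rw [Matrix.mul_assoc, ← Matrix.mul_assoc (castM ℝ η.inv), cast_iv, Matrix.one_mul, i2])
    fun q hq => ⟨(hy q hq).1, (hy q hq).2.2⟩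
  refine chain (L := M * m ^ s) (N := N) (ys := ys) (es := es)
    (Fr := fun x => ∃ x', x * x' = 1 ∧ ∀ q ∈ ys, FPk (s + s * s ^ s + Cg s) x x' q)
    (g₁ := g₁) (g₂ := g₂) ?_ ?_ (fun x h => h.imp fun _ k => k.1)
    ⟨g₁', i1, fun q hq => fpk_mono (hy q hq).2.2.2.1 (by omega)⟩ ?_ ?_
    (sη.mono (Dvd.intro _ rfl) (by omega)) f0 fT fa fs hx x0 x1
    fun t ht => ⟨x' t, (xF t ht).1, fun q hq => fpk_mono ((xF t ht).2 q hq) (by omega)⟩
  · rintro y b ⟨y', hy', hF⟩ ha hr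
    have key : StG m (M * m ^ s) (Cb (s + s * s ^ s + Cg s)) N ys es b :=
      ⟨ha.1, ha.2.1, fun q hq => ⟨ha.2.2.1 q hq, hb _ n (M * m ^ s) q y y' b.val b.inv (by omega)
        ((hy q hq).1.trans (by omega)) ((hy q hq).2.1.trans (by omega)) hL0 (by omega) hy'
        b.val_inv (hF q hq) (ha.2.2.1 q hq) hr.sg⟩, ha.2.2.2⟩
    exact key.mono dvd_rfl (by omega)
  · intro y b c k1 k2 rb rc
    refine (hp s n m (y * castM ℝ b.val) (b⁻¹ * c) hn hm hms k1 k2 rb.sg ?_).mono (by omega)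
    refine (rd_mul.1 ?_).sg
    rwa [mul_inv_cancel_left]
  · intro γ k1 k2 r
    exact (hd s n g₁ g₁' γ hn i1 b1 b1' k1 k2 r.sg).mono (by omega)
  · intro γ k1 k2 r
    exact (hd s n g₂ g₂' γ hn i2 b2 b2' k1 k2 r.sg).inv.mono (by omega)

theorem chain_short : ∃ C : ℕ → ℕ, CS C ∧
    ∀ (s n m M N K : ℕ) (ys : List (OPk n)) (es : List (PMat n)) (g₁ g₁' g₂ g₂' : Mat n ℝ)
      (η : GL (Fin n) ℚ) (Δ : Subgroup (GL (Fin n) ℚ)), Ends s m M N ys es g₁ g₁' g₂ g₂' η →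
      0 < N → N ≤ s → 0 < K → K ≤ s → ys.length ≤ s → es.length ≤ s →
      (∀ b c : GL (Fin n) ℚ, ZM m b.val → ZM m b.inv → ZM m c.val → ZM m c.inv →
        (∀ e ∈ es, PGood N b.val b.inv e ∧ PGood N c.val c.inv e) → Near K ys es b c →
          c * b⁻¹ ∈ Δ) →
      ∃ β : GL (Fin n) ℚ, HtG (C s) β ∧ η * β⁻¹ ∈ Δ := by
  obtain ⟨Cr, cr, hr0, hr⟩ := reach
  obtain ⟨Cs, cs, hs⟩ := states
  obtain ⟨Cp, cp, hp⟩ := htG_prod
  have c1 : CS (fun s : ℕ => s + s * s ^ s + Cr s) := cs_add cs_sz cr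
  refine ⟨fun s => Cp (s + s * s ^ s + Cr s + Cs (s + s * s ^ s + Cr s)),
    cp.comp (cs_add c1 (cs.comp c1)), ?_⟩
  intro s n m M N K ys es g₁ g₁' g₂ g₂' η Δ hE hN hNs hK hKs hys hes hΔ
  have hc := hr s n m M N ys es g₁ g₁' g₂ g₂' η hE
  obtain ⟨hn, hm, hms, hM, hMs, -, -, -, -, -, -, hy, s1, -⟩ := hE
  have hL := sz_le hms hMs
  obtain ⟨st, hst⟩ := hs (s + s * s ^ s + Cr s) n m (M * m ^ s) N K ys es (by omega)
    (Nat.mul_pos hM (Nat.pow_pos hm)) (by omega) hN (by omega) hK (by omega) (by omega) (by omega)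
    fun q hq => ⟨(hy q hq).1.trans (by omega), (hy q hq).2.1.trans (by omega)⟩
  obtain ⟨l, l1, l2, l3⟩ := shortcut Δ (HtG (Cr s)) (StG m (M * m ^ s) (Cr s) N ys es) st
    (fun b c hb hc e => hΔ b c hb.1 hb.2.1 hc.1 hc.2.1
      (fun e he => ⟨hb.2.2.2 e he, hc.2.2.2 e he⟩)
      (hst b c (hb.mono dvd_rfl (by omega)) (hc.mono dvd_rfl (by omega)) e))
    (s1.mono (Dvd.intro _ rfl) (hr0 s)) hc
  rw [Fintype.card_fin] at l1
  exact ⟨l.prod, hp _ n l (by omega) (by omega) fun γ h => (l2 γ h).mono (by omega), l3⟩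

end Pool.Agent.P.MP_257122_al
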