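import Pool.Agent.P.MP_257122_al.BKn

/-!
# A real frame in which invariants are stable under duality

PLAN.  (1) `ths_complex`: apply `kn` (`χ = 1`) to finite spanning families of the spaces of
invariants of all types `σ.get`, `du σ.get`.  For `ω = rho s x x' w`, taking `star` in
`(rho s h h')ᴴ ω = ω` gives `rho (du s) h' h (star ω) = star ω`; so `w' = rho (du s) x' x (star ω)` is
invariant.  (2) The entrywise conjugate `x̄` works as well (`hc`).  `svd` for `x̄ x' = k₁ d k₀`;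
`z = k₀ x`, `y = d ^ (1/2) z`; `ThS` is unchanged by unitary factors on the left
(`star_rho_unitary`) and `theta_geo` gives `ThS` for `y`.  (3) `M = yᴴ y = zᴴ d z` is real: with
`P₀ = zᴴ z`, `P₁ = zᴴ d² z = conj P₀` one has `M P₀⁻¹ M = P₁`; conjugating, `Y = z⁻ᴴ (conj M) z⁻¹` is
positive definite with `Y d⁻² Y = 1`, so `Y² = d²` and `Y = d` (uniqueness of positive square
roots).  (4) `Re M` is a real positive definite matrix, `= gᵀ g` (`CFC.sqrt`, or the spectral
theorem); `g y⁻¹` is unitary.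
-/

namespace Pool.Agent.P.MP_257122_al

open Matrix

namespace BRealAux

variable {n : ℕ} {κ : Type} [Fintype κ] [DecidableEq κ] {G : Subgroup (GL (Fin n) ℂ)}
  {s : κ → Bool}

/-- The space of invariants. -/
def invS (G : Subgroup (GL (Fin n) ℂ)) (s : κ → Bool) : Submodule ℂ ((κ → Fin n) → ℂ) where
  carrier := {w | Inva G s w}
  add_mem' := fun ha hb g hg => by rw [mulVec_add, ha g hg, hb g hg]
  zero_mem' := fun _ _ => mulVec_zero _
  smul_mem' := fun c _ ha g hg => by rw [mulVec_smul, ha g hg]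

/-- The entrywise conjugate. -/
abbrev cj (a : Mat n ℂ) : Mat n ℂ := a.map (starRingEnd ℂ)

theorem cj_mul (a b : Mat n ℂ) : cj (a * b) = cj a * cj b := Matrix.map_mul

theorem cj_one : cj (1 : Mat n ℂ) = 1 := Matrix.map_one _ (map_zero _) (map_one _)

theorem cj_cj (a : Mat n ℂ) : cj (cj a) = a := by ext; simp

theorem cj_real (d : Fin n → ℝ) :
    cj (diagonal fun i => (d i : ℂ)) = diagonal fun i => (d i : ℂ) := by
  rw [cj, diagonal_map (map_zero _)]; simp

theorem ct_real (d : Fin n → ℝ) :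
    (diagonal fun i => (d i : ℂ))ᴴ = diagonal fun i => (d i : ℂ) := by
  rw [diagonal_conjTranspose]; congr 1; funext i; simp

theorem star_mv {ι : Type} [Fintype ι] (A : Matrix ι ι ℂ) (w : ι → ℂ) :
    star (A *ᵥ w) = A.map (starRingEnd ℂ) *ᵥ star w :=
  funext fun i => RingHom.map_mulVec (starRingEnd ℂ) A w i

theorem star_rho (s : κ → Bool) (a a' : Mat n ℂ) (w : (κ → Fin n) → ℂ) :
    star (rho s a a' *ᵥ w) = rho s (cj a) (cj a') *ᵥ star w := by
  rw [star_mv, rho_map]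

theorem ths_of_adj {x x' : Mat n ℂ} (h : x * x' = 1) (H : ∀ w ∈ invS G s, ∀ g ∈ G,
    (rho s (x * g.val * x') (x * g.inv * x'))ᴴ *ᵥ (rho s x x' *ᵥ w) = rho s x x' *ᵥ w) :
    ThS G s x x' := fun w hw => by
  have h' := mul_eq_one_comm.1 h
  refine ⟨rho (du s) x' x *ᵥ star (rho s x x' *ᵥ w), fun g hg => ?_,
    by rw [rho_mulVec, h, rho_one, one_mulVec]⟩
  have e := congrArg star (H w hw g⁻¹ (inv_mem hg))
  have e' : ∀ A : Matrix (κ → Fin n) (κ → Fin n) ℂ, Aᴴ.map (starRingEnd ℂ) = Aᵀ := fun A => by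
    ext; simp
  rw [star_mv, e', rho_transpose, ← rho_du] at e
  conv_rhs => rw [← e]
  rw [rho_mulVec, rho_mulVec, ← mul_assoc, ← mul_assoc, h', one_mul, mul_assoc _ x', h', mul_one]
  rfl

theorem inva_star (hc : GalSt G) {w : (κ → Fin n) → ℂ} (hw : Inva G s w) : Inva G s (star w) :=
  fun g hg => by
    obtain ⟨g₂, h1, h2⟩ := hc starRingAut g hg
    have h3 : g₂.val = cj g.val := h2
    have h4 : g₂.inv = cj g.inv := right_inv_eq_right_inv g₂.val_inv (by
      rw [h3, ← cj_mul, g.val_inv, cj_one])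
    have := congrArg star (hw g₂ h1)
    rwa [star_rho, h3, h4, cj_cj, cj_cj] at this

theorem ths_cj (hc : GalSt G) {x x' : Mat n ℂ} (h : ThS G s x x') : ThS G s (cj x) (cj x') :=
  fun w hw => by
    obtain ⟨v, h1, h2⟩ := h _ (inva_star hc hw)
    refine ⟨star v, inva_star hc h1, ?_⟩
    rw [star_rho, cj_cj, cj_cj, ← star_rho, ← h2, star_star]

theorem ths_mul {x x' : Mat n ℂ} (h : ThS G s x x') (k : Mat n ℂ) : ThS G s (k * x) (x' * kᴴ) :=
  fun w hw => by
    obtain ⟨v, h1, h2⟩ := h w hw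
    exact ⟨v, h1, by rw [← rho_mulVec, star_rho_unitary, h2, rho_mulVec]⟩

theorem ths_gram {y y' a a' : Mat n ℂ} (h : ThS G s y y') (hy : y * y' = 1) (ha : a * a' = 1)
    (e : aᴴ * a = yᴴ * y) : ThS G s a a' := by
  have h1 : a * y' * y = a := by rw [mul_assoc, mul_eq_one_comm.1 hy, mul_one]
  have h2 : (a * y')ᴴ * (a * y') = 1 := by
    rw [conjTranspose_mul, mul_assoc, ← mul_assoc aᴴ, e, mul_assoc, hy, mul_one,
      ← conjTranspose_mul, hy, conjTranspose_one]
  have h3 : y' * (a * y')ᴴ = a' :=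
    right_inv_eq_right_inv (by rw [← mul_assoc, mul_eq_one_comm.1 h2]) ha
  have := ths_mul h (a * y')
  rwa [h1, h3] at this

theorem ths_geo {z z' : Mat n ℂ} {d : Fin n → ℝ} (hd : ∀ i, 0 < d i) (h0 : ThS G s z z')
    (h0' : ThS G (du s) z z') (h1 : ThS G s ((diagonal fun i => (d i : ℂ)) * z)
      (z' * diagonal fun i => (((d i)⁻¹ : ℝ) : ℂ))) (t : ℝ) :
    ThS G s ((diagonal fun i => ((d i ^ t : ℝ) : ℂ)) * z)
      (z' * diagonal fun i => (((d i ^ t)⁻¹ : ℝ) : ℂ)) := fun w hw => by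
  obtain ⟨_, ⟨v, h2, rfl⟩, h3⟩ := theta_geo (𝕜 := ℂ) s ((invS G s).map (rho s z z').mulVecLin)
    ((invS G (du s)).map (rho (du s) z z').mulVecLin) d hd
    (by
      rintro _ ⟨w, hw, rfl⟩
      obtain ⟨v, h2, h3⟩ := h0 w hw
      exact ⟨v, h2, h3.symm⟩)
    (by
      rintro _ ⟨w, hw, rfl⟩
      obtain ⟨v, h2, h3⟩ := h0' w hw
      rw [du_du] at h2 h3
      exact ⟨v, h2, h3.symm⟩)
    (by
      rintro _ ⟨w, hw, rfl⟩
      obtain ⟨v, h2, h3⟩ := h1 w hw
      rw [← rho_mulVec, ← rho_mulVec] at h3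
      exact ⟨_, ⟨v, h2, rfl⟩, h3⟩) t _ ⟨w, hw, rfl⟩
  exact ⟨v, h2, by rw [← rho_mulVec, ← rho_mulVec]; exact h3⟩

theorem gram_real {z z' u : Mat n ℂ} {d : Fin n → ℝ} (hd : ∀ i, 0 < d i) (hz : z * z' = 1)
    (hu : uᴴ * u = 1) (h : cj z = u * (diagonal fun i => (d i : ℂ)) * z) :
    cj (zᴴ * (diagonal fun i => (d i : ℂ)) * z) = zᴴ * (diagonal fun i => (d i : ℂ)) * z := by
  obtain ⟨D, hD⟩ : ∃ D, D = diagonal fun i => (d i : ℂ) := ⟨_, rfl⟩
  rw [← hD] at h ⊢
  have c1 : cj D = D := hD ▸ cj_real d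
  have c2 : Dᴴ = D := hD ▸ ct_real d
  have h1 : cj u * (D * u * D) = 1 := by
    have := congrArg (fun a => cj a * z') h
    simp only [cj_cj, cj_mul] at this
    rw [c1, h, hz, mul_assoc, mul_assoc (u * D), hz, mul_one] at this
    rw [this]; simp only [mul_assoc]
  have h2 : cj u * uᵀ = 1 := by
    have : cj uᴴ = uᵀ := by ext; simp
    rw [← this, ← cj_mul, mul_eq_one_comm.1 hu, cj_one]
  have h3 : ∀ i j, (d i : ℂ) * u i j * d j = u j i := fun i j => by
    have := congrFun (congrFun (right_inv_eq_right_inv h1 h2) i) j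
    rwa [hD, mul_diagonal, diagonal_mul] at this
  have h4 : D * u * D = u := by
    ext i j
    rw [hD, mul_diagonal, diagonal_mul]
    have h5 : (1 + d i * d j : ℂ) ≠ 0 := by
      exact_mod_cast (add_pos one_pos (mul_pos (hd i) (hd j))).ne'
    refine mul_left_cancel₀ h5 ?_
    linear_combination (d i * d j : ℂ) * h3 i j + h3 j i
  have h6 : cj zᴴ = (cj z)ᴴ := by ext; simp
  rw [cj_mul, cj_mul, c1, h6, h, conjTranspose_mul, conjTranspose_mul, c2]
  calc _ = zᴴ * D * (uᴴ * (D * u * D)) * z := by simp only [mul_assoc]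
    _ = _ := by rw [h4, hu, mul_one]

open scoped MatrixOrder in
theorem real_root {y y' : Mat n ℂ} (hy : y * y' = 1) (h : cj (yᴴ * y) = yᴴ * y) :
    ∃ g g' : Mat n ℝ, g * g' = 1 ∧ (g.map Complex.ofReal)ᴴ * g.map Complex.ofReal = yᴴ * y := by
  obtain ⟨g, hg⟩ := CStarAlgebra.nonneg_iff_eq_star_mul_self.1
    ((posSemidef_conjTranspose_mul_self (y.map Complex.re)).add
      (posSemidef_conjTranspose_mul_self (y.map Complex.im))).nonneg
  have e : (g.map Complex.ofReal)ᴴ * g.map Complex.ofReal = yᴴ * y := by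
    ext i j
    rw [← Complex.conj_eq_iff_re.1 (congrFun (congrFun h i) j)]
    have := congrFun (congrFun hg i) j
    simp only [Matrix.add_apply, mul_apply, conjTranspose_apply, map_apply, star_trivial,
      star_apply, ← Finset.sum_add_distrib] at this
    simpa [mul_apply] using congrArg Complex.ofReal this.symm
  have h1 : g.det ≠ 0 := fun h0 => by
    have h2 : (g.map Complex.ofReal).det = 0 := by
      rw [← Complex.ofReal_zero, ← h0]; exact (Complex.ofRealHom.map_det g).symm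
    have h3 := congrArg det e
    rw [det_mul, h2, mul_zero, det_mul, det_conjTranspose, eq_comm, mul_eq_zero, star_eq_zero,
      or_self] at h3
    exact det_ne_zero_of_right_inverse hy h3
  exact ⟨g, g⁻¹, mul_nonsing_inv g h1.isUnit, e⟩

end BRealAux

open BRealAux

theorem ths_complex {n : ℕ} (G : Subgroup (GL (Fin n) ℂ)) (h : SemiS (vals G))
    (Sg : List (List Bool)) :
    ∃ x x' : Mat n ℂ, x * x' = 1 ∧ ∀ σ ∈ Sg, ThS G σ.get x x' ∧ ThS G (du σ.get) x x' := by
  let s : ∀ a : Fin Sg.length × Bool, Fin (Sg.get a.1).length → Bool := fun a =>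
    cond a.2 (du (Sg.get a.1).get) (Sg.get a.1).get
  obtain ⟨x, x', h1, h2⟩ := kn G h (J := Σ a, Fin (Module.finrank ℂ (invS G (s a)))) _
    (fun j => s j.1) (fun j => Module.finBasis ℂ (invS G (s j.1)) j.2) (fun _ _ => 1)
    fun j g hg => by rw [one_smul]; exact (Module.finBasis ℂ (invS G (s j.1)) j.2).2 g hg
  have h3 : ∀ a, ThS G (s a) x x' := fun a => ths_of_adj h1 fun w hw g hg => by
    have := congrArg Subtype.val ((Module.finBasis ℂ (invS G (s a))).sum_repr ⟨w, hw⟩)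
    simp only [Submodule.coe_sum, Submodule.coe_smul] at this
    rw [← this, mulVec_sum, mulVec_sum]
    refine Finset.sum_congr rfl fun j _ => ?_
    rw [mulVec_smul, mulVec_smul, h2 ⟨a, j⟩ g hg, star_one, one_smul]
  refine ⟨x, x', h1, fun σ hσ => ?_⟩
  obtain ⟨i, rfl⟩ := List.mem_iff_get.1 hσ
  exact ⟨h3 (i, false), h3 (i, true)⟩

theorem real_form {n : ℕ} (G : Subgroup (GL (Fin n) ℂ)) (h : SemiS (vals G)) (hc : GalSt G)
    (Sg : List (List Bool)) :
    ∃ g g' : Mat n ℝ, g * g' = 1 ∧ ∀ σ ∈ Sg,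
      ThS G σ.get (g.map Complex.ofReal) (g'.map Complex.ofReal) ∧
        ThS G (du σ.get) (g.map Complex.ofReal) (g'.map Complex.ofReal) := by
  obtain ⟨x, x', hx, H⟩ := ths_complex G h Sg
  have hx' := mul_eq_one_comm.1 hx
  have hx2 : cj x * cj x' = 1 := by rw [← cj_mul, hx, cj_one]
  obtain ⟨k₀, k₁, d, u0, u1, hd, e⟩ := svd (𝕜 := ℂ) (y := cj x * x') (y' := x * cj x')
    (by rw [mul_assoc, ← mul_assoc x', hx', one_mul, hx2])
  have e1 : cj x = k₁ * ((diagonal fun i => (d i : ℂ)) * (k₀ * x)) := by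
    rw [← mul_assoc, ← mul_assoc]
    exact ((congrArg (· * x) e.symm).trans (by rw [mul_assoc, hx', mul_one])).symm
  have hz : k₀ * x * (x' * k₀ᴴ) = 1 := by
    rw [mul_assoc, ← mul_assoc x, hx, one_mul, mul_eq_one_comm.1 u0]
  have hD : ∀ c : Fin n → ℝ, (∀ i, 0 < c i) → (diagonal fun i => (c i : ℂ)) * (k₀ * x) *
      (x' * k₀ᴴ * diagonal fun i => (((c i)⁻¹ : ℝ) : ℂ)) = 1 := fun c hc => by
    rw [mul_assoc, ← mul_assoc (k₀ * x), hz, one_mul, diagonal_mul_diagonal, ← diagonal_one]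
    refine congrArg _ (funext fun i => ?_)
    rw [← Complex.ofReal_mul, mul_inv_cancel₀ (hc i).ne', Complex.ofReal_one]
  have hy := hD (fun i => d i ^ (1 / 2 : ℝ)) fun i => Real.rpow_pos_of_pos (hd i) _
  have e2 : ((diagonal fun i => ((d i ^ (1 / 2 : ℝ) : ℝ) : ℂ)) * (k₀ * x))ᴴ *
      ((diagonal fun i => ((d i ^ (1 / 2 : ℝ) : ℝ) : ℂ)) * (k₀ * x)) =
      (k₀ * x)ᴴ * (diagonal fun i => (d i : ℂ)) * (k₀ * x) := by
    rw [conjTranspose_mul, ct_real, mul_assoc, ← mul_assoc (diagonal _), diagonal_mul_diagonal,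
      mul_assoc _ (diagonal _)]
    refine congrArg (fun c => (k₀ * x)ᴴ * (diagonal c * (k₀ * x))) (funext fun i => ?_)
    rw [← Complex.ofReal_mul, ← Real.rpow_add (hd i), add_halves, Real.rpow_one]
  obtain ⟨g, g', hg, e3⟩ := real_root hy (by
    rw [e2]
    refine gram_real (u := cj k₀ * k₁) hd hz ?_ (by rw [cj_mul, e1]; simp only [mul_assoc])
    have : (cj k₀)ᴴ = cj k₀ᴴ := by ext; simp
    rw [conjTranspose_mul, this, mul_assoc, ← mul_assoc (cj _), ← cj_mul, u0, cj_one, one_mul, u1])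
  have hg' : g.map Complex.ofReal * g'.map Complex.ofReal = 1 := by
    have := congrArg Complex.ofRealHom.mapMatrix hg
    rwa [map_mul, map_one] at this
  have key : ∀ {D : ℕ} (s : Fin D → Bool), ThS G s x x' → ThS G (du s) x x' →
      ThS G s (g.map Complex.ofReal) (g'.map Complex.ofReal) := fun s a b =>
    ths_gram (ths_geo hd (ths_mul a k₀) (ths_mul b k₀) (ths_gram (ths_cj hc a) hx2 (hD d hd) (by
      rw [e1, conjTranspose_mul k₁, mul_assoc _ k₁ᴴ, ← mul_assoc k₁ᴴ, u1, one_mul])) _) hy hg' e3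
  exact ⟨g, g', hg, fun σ hσ => ⟨key _ (H σ hσ).1 (H σ hσ).2,
    key _ (H σ hσ).2 (by rw [du_du]; exact (H σ hσ).1)⟩⟩

end Pool.Agent.P.MP_257122_al
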