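import Pool.Agent.P.MP_257122_al.BD

/-!
# Algebra of the tensor action

PLAN.  `rho_mul`: `Finset.prod_univ_sum` (`Fintype.piFinset_univ`) and `Finset.prod_mul_distrib`.
The rest is entrywise.
-/

set_option linter.unusedSectionVars false

namespace Pool.Agent.P.MP_257122_al

open Matrix

section
variable {κ ι ι' ι'' R : Type} [Fintype κ] [CommRing R]

theorem act_eq_rho {n : ℕ} (σ : List Bool) (g g' : Mat n R) : act σ g g' = rho σ.get g g' :=
  rfl

theorem du_du (s : κ → Bool) : du (du s) = s := by
  funext i; simp [du]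

theorem rho_mul [DecidableEq κ] [Fintype ι'] (s : κ → Bool) (g : Matrix ι'' ι' R)
    (g' : Matrix ι' ι'' R) (h : Matrix ι' ι R) (h' : Matrix ι ι' R) :
    rho s g g' * rho s h h' = rho s (g * h) (h' * g') := by
  ext I J
  simp only [rho, Matrix.mul_apply, Matrix.of_apply, ← Finset.prod_mul_distrib]
  rw [← Fintype.piFinset_univ, ← Finset.prod_univ_sum (fun _ => (Finset.univ : Finset ι'))
    (fun i j => (if s i = true then g (I i) j else g' j (I i)) *
      (if s i = true then h j (J i) else h' (J i) j))]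
  refine Finset.prod_congr rfl fun i _ => ?_
  by_cases hs : s i = true
  · simp [hs]
  · simp [hs, mul_comm]

theorem rho_mulVec [DecidableEq κ] [Fintype ι] [Fintype ι'] (s : κ → Bool) (g : Matrix ι'' ι' R)
    (g' : Matrix ι' ι'' R) (h : Matrix ι' ι R) (h' : Matrix ι ι' R) (w : (κ → ι) → R) :
    rho s g g' *ᵥ (rho s h h' *ᵥ w) = rho s (g * h) (h' * g') *ᵥ w := by
  rw [Matrix.mulVec_mulVec, rho_mul]

theorem rho_one [DecidableEq ι] (s : κ → Bool) : rho s (1 : Matrix ι ι R) 1 = 1 := by
  ext I J
  simp only [rho, Matrix.of_apply, Matrix.one_apply]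
  by_cases h : I = J
  · subst h; simp
  · obtain ⟨i, hi⟩ := Function.ne_iff.1 h
    rw [if_neg h]
    exact Finset.prod_eq_zero (Finset.mem_univ i) (by simp [hi, Ne.symm hi])

theorem rho_du (s : κ → Bool) (g : Matrix ι' ι R) (g' : Matrix ι ι' R) :
    rho (du s) g g' = rho s g'ᵀ gᵀ := by
  ext I J
  simp only [rho, Matrix.of_apply, Matrix.transpose_apply]
  refine Finset.prod_congr rfl fun i _ => ?_
  by_cases h : s i = true <;> simp [du, h]

theorem rho_transpose (s : κ → Bool) (g : Matrix ι' ι R) (g' : Matrix ι ι' R) :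
    (rho s g g')ᵀ = rho s gᵀ g'ᵀ := by
  ext I J; simp [rho]

theorem rho_conjTranspose [StarRing R] (s : κ → Bool) (g : Matrix ι' ι R) (g' : Matrix ι ι' R) :
    (rho s g g')ᴴ = rho s gᴴ g'ᴴ := by
  ext I J
  simp only [rho, Matrix.conjTranspose_apply, Matrix.of_apply, star_prod]
  refine Finset.prod_congr rfl fun i _ => ?_
  cases s i <;> simp

theorem rho_map {S F : Type} [CommRing S] [FunLike F R S] [RingHomClass F R S] (φ : F)
    (s : κ → Bool) (g : Matrix ι' ι R) (g' : Matrix ι ι' R) :
    (rho s g g').map φ = rho s (g.map φ) (g'.map φ) := by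
  ext I J
  simp only [rho, Matrix.map_apply, Matrix.of_apply, map_prod]
  refine Finset.prod_congr rfl fun i _ => ?_
  cases s i <;> simp

theorem rho_diagonal [DecidableEq ι] (s : κ → Bool) (d d' : ι → R) :
    rho s (diagonal d) (diagonal d') =
      diagonal fun I => ∏ i, if s i = true then d (I i) else d' (I i) := by
  ext I J
  simp only [rho, Matrix.of_apply, Matrix.diagonal_apply]
  by_cases h : I = J
  · subst h; simp
  · obtain ⟨i, hi⟩ := Function.ne_iff.1 h
    rw [if_neg h]
    exact Finset.prod_eq_zero (Finset.mem_univ i) (by simp [hi, Ne.symm hi])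

/-- The pairing of a type with its dual type is invariant. -/
theorem dot_rho [DecidableEq κ] [Fintype ι] [Fintype ι'] [DecidableEq ι] (s : κ → Bool)
    {g : Matrix ι' ι R} {g' : Matrix ι ι' R} (h : g' * g = 1) (y z : (κ → ι) → R) :
    (rho (du s) g g' *ᵥ z) ⬝ᵥ (rho s g g' *ᵥ y) = z ⬝ᵥ y := by
  rw [Matrix.dotProduct_mulVec, ← Matrix.mulVec_transpose, Matrix.mulVec_mulVec, rho_du,
    rho_transpose, rho_mul, ← Matrix.transpose_mul, h,
    Matrix.transpose_one, rho_one, Matrix.one_mulVec]

end

section cast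
variable {l ι ι' κ : Type} (F : Type) [Field F] [CharZero F]

theorem castM_apply (x : Matrix ι' ι ℚ) (i : ι') (j : ι) : castM F x i j = (x i j : F) :=
  rfl
theorem castM_rat (x : Matrix ι' ι ℚ) : castM ℚ x = x := by
  ext i j; simp [castM]
theorem castV_rat' (x : ι → ℚ) : castV ℚ x = x := by
  ext i; simp [castV]
theorem castM_injective : Function.Injective (castM F : Matrix ι' ι ℚ → Matrix ι' ι F) := fun x y h => by
  ext i j
  have := congrFun (congrFun h i) j
  simpa [castM] using this
theorem castV_injective : Function.Injective (castV F : (ι → ℚ) → ι → F) := fun x y h => by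
  ext i
  have := congrFun h i
  simpa [castV] using this
theorem castM_mul [Fintype ι'] (x : Matrix l ι' ℚ) (y : Matrix ι' ι ℚ) :
    castM F (x * y) = castM F x * castM F y := by
  ext i j; simp [castM, Matrix.mul_apply]
theorem castM_one [DecidableEq ι] : castM F (1 : Matrix ι ι ℚ) = 1 := by
  ext i j; by_cases h : i = j <;> simp [castM, Matrix.one_apply, h]
theorem castM_zero : castM F (0 : Matrix ι' ι ℚ) = 0 := by
  ext i j; simp [castM]
theorem castM_add (x y : Matrix ι' ι ℚ) : castM F (x + y) = castM F x + castM F y := by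
  ext i j; simp [castM]
theorem castM_sub (x y : Matrix ι' ι ℚ) : castM F (x - y) = castM F x - castM F y := by
  ext i j; simp [castM]
theorem castM_smul (q : ℚ) (x : Matrix ι' ι ℚ) : castM F (q • x) = (q : F) • castM F x := by
  ext i j; simp [castM]
theorem castM_transpose (x : Matrix ι' ι ℚ) : castM F xᵀ = (castM F x)ᵀ :=
  rfl
theorem castM_diagonal [DecidableEq ι] (d : ι → ℚ) :
    castM F (diagonal d) = diagonal fun i => (d i : F) := by
  ext i j; by_cases h : i = j <;> simp [castM, Matrix.diagonal_apply, h]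
theorem castM_grm (w' : ι' → ℤ) (w : ι → ℤ) (x : Matrix ι' ι ℚ) :
    castM F (grm w' w x) = grm w' w (castM F x) := by
  ext i j; by_cases h : w' i = w j <;> simp [castM, grm, h]
theorem castM_mulVec [Fintype ι] (x : Matrix ι' ι ℚ) (v : ι → ℚ) :
    castM F x *ᵥ castV F v = castV F (x *ᵥ v) := by
  ext i; simp [castM, castV, Matrix.mulVec, dotProduct]
theorem castV_add' (x y : ι → ℚ) : castV F (x + y) = castV F x + castV F y := by
  ext i; simp [castV]
theorem castV_sub (x y : ι → ℚ) : castV F (x - y) = castV F x - castV F y := by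
  ext i; simp [castV]
theorem castV_smul' (q : ℚ) (x : ι → ℚ) : castV F (q • x) = (q : F) • castV F x := by
  ext i; simp [castV]
theorem castV_single [DecidableEq ι] (j : ι) : castV F (Pi.single j 1) = Pi.single j 1 := by
  ext i; by_cases h : i = j <;> simp [castV, Pi.single_apply, h]
theorem castV_dot [Fintype ι] (x y : ι → ℚ) : castV F x ⬝ᵥ castV F y = ((x ⬝ᵥ y : ℚ) : F) := by
  simp [castV, dotProduct]
theorem mdot_cast [Fintype ι] [Fintype ι'] (c x : Matrix ι' ι ℚ) :
    mdot (castM F c) (castM F x) = ((mdot c x : ℚ) : F) := by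
  simp [castM, mdot]
theorem castM_rho [Fintype κ] (s : κ → Bool) (g : Matrix ι' ι ℚ) (g' : Matrix ι ι' ℚ) :
    castM F (rho s g g') = rho s (castM F g) (castM F g') :=
  rho_map (Rat.castHom F) s g g'
theorem rho_castV [Fintype κ] [DecidableEq κ] [Fintype ι] (s : κ → Bool) (g : Matrix ι' ι ℚ)
    (g' : Matrix ι ι' ℚ) (w : (κ → ι) → ℚ) :
    rho s (castM F g) (castM F g') *ᵥ castV F w = castV F (rho s g g' *ᵥ w) := by
  rw [← castM_rho, castM_mulVec]
theorem castM_drho [Fintype κ] [DecidableEq κ] [DecidableEq ι] (s : κ → Bool) (ξ : Matrix ι ι ℚ) :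
    castM F (drho s ξ) = drho s (castM F ξ) := by
  ext I J
  simp only [castM, drho, Matrix.map_apply, Matrix.of_apply, Rat.cast_sum, Rat.cast_mul,
    Rat.cast_prod]
  refine Finset.sum_congr rfl fun i _ => ?_
  congr 1
  · cases s i <;> simp
  · refine Finset.prod_congr rfl fun j _ => ?_
    split_ifs <;> simp
theorem castM_cmb {n r : ℕ} (a : Fin r → ℚ) (Y : Fin r → Mat n ℚ) :
    castM F (cmb ℚ a Y) = cmb F (fun l => (a l : F)) Y := by
  ext i j; simp [castM, cmb, Matrix.sum_apply]
theorem map_castM {K G : Type} [Field K] [CharZero K] [FunLike G F K] [RingHomClass G F K] (φ : G)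
    (x : Matrix ι' ι ℚ) : (castM F x).map φ = castM K x := by
  ext i j; simp [castM]

theorem castV_rat (x : ι → ℚ) : castV ℚ x = x := castV_rat' x
theorem castV_add (x y : ι → ℚ) : castV F (x + y) = castV F x + castV F y := castV_add' F x y
theorem castV_smul (q : ℚ) (x : ι → ℚ) : castV F (q • x) = (q : F) • castV F x :=
  castV_smul' F q x

end cast

section endo
variable {n n' : ℕ} {R : Type}

theorem ofT_toT (x : Mat n R) : ofT (toT x) = x := by
  ext i j; rfl
theorem toT_ofT (y : Tn n tE R) : toT (ofT y) = y := by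
  ext I
  simp only [toT, ofT, Matrix.of_apply]
  congr 1
  funext k
  fin_cases k <;> rfl
theorem rho_toT [CommRing R] (g : Matrix (Fin n') (Fin n) R) (g' : Matrix (Fin n) (Fin n') R)
    (x : Mat n R) : rho tE.get g g' *ᵥ toT x = toT (g * x * g') := by
  ext I
  have e : ∀ f : (Fin tE.length → Fin n) → R,
      ∑ J, f J = ∑ a, ∑ b, f fun k => if k.val = 0 then a else b := by
    intro f
    rw [← Fintype.sum_prod_type']
    refine (Fintype.sum_equiv (finTwoArrowEquiv (Fin n)) _ _ fun J => ?_)
    congr 1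
    funext k
    fin_cases k <;> rfl
  simp only [Matrix.mulVec, dotProduct, e, toT, Matrix.mul_apply, Finset.sum_mul]
  rw [Finset.sum_comm]
  refine Finset.sum_congr rfl fun b _ => Finset.sum_congr rfl fun a _ => ?_
  have : rho tE.get g g' I (fun k => if k.val = 0 then a else b) =
      g (I ⟨0, by decide⟩) a * g' b (I ⟨1, by decide⟩) := by
    simp only [rho, Matrix.of_apply]
    exact Fin.prod_univ_two _
  rw [this]
  simp only [if_true, one_ne_zero, if_false]
  ring
theorem ofT_rho [CommRing R] (g : Matrix (Fin n') (Fin n) R) (g' : Matrix (Fin n) (Fin n') R)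
    (y : Tn n tE R) : ofT (rho tE.get g g' *ᵥ y) = g * ofT y * g' := by
  rw [← toT_ofT y, rho_toT, ofT_toT, ofT_toT]
theorem ofT_castV (F : Type) [Field F] (y : Tn n tE ℚ) : ofT (castV F y) = castM F (ofT y) :=
  rfl
theorem toT_castM (F : Type) [Field F] (x : Mat n ℚ) : toT (castM F x) = castV F (toT x) :=
  rfl

end endo

end Pool.Agent.P.MP_257122_al
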