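import Pool.Agent.P.MP_257122_al.BRho

/-!
# Existence of reduced bases

PLAN.  First for a positive definite `P`, by induction on `n`.  The values `(γᵀ P γ) 0 0` over
invertible integer `γ` are bounded below by a positive constant (`P - c` is positive
semidefinite for some `c > 0`, or compactness of the sphere, and a nonzero integer vector has
norm at least `1`); let `μ > 0` be their infimum and choose `γ₀` with `P₁ 0 0 < 8 μ / 7`,
`P₁ = γ₀ᵀ P γ₀`.  `schur P₁` is positive definite (evaluate `P₁` at `(-r·x / P₁ 0 0, x)`); the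
induction gives `γ₁`.  Let `γ₂` have first column `e₀`, first row `(1, t)` and lower block `γ₁`
(`Matrix.of (Fin.cons …)`, entries by `Fin.cases`); then `schur (γ₂ᵀ P₁ γ₂) = γ₁ᵀ (schur P₁) γ₁`,
the corner is unchanged, and `t = -round ((r γ₁) j / P₁ 0 0)` makes the first row at most half
the corner.  Swapping the first two basis vectors shows `P₂ 1 1 ≥ μ > 7/8 P₂ 0 0`, and
`P₂ 1 1 = schur P₂ 0 0 + (P₂ 0 1)² / P₂ 0 0`.
-/

namespace Pool.Agent.P.MP_257122_al

open Matrix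

namespace BS1Aux

variable {n : ℕ}

/-- The Gram matrix in an integral basis. -/
noncomputable def gram (P : Mat n ℝ) (γ : Mat n ℤ) : Mat n ℝ :=
  (γ.map (Int.castRingHom ℝ))ᵀ * P * γ.map (Int.castRingHom ℝ)

/-- A column as a real vector. -/
def colR (γ : Mat n ℤ) (j : Fin n) : Fin n → ℝ := fun k => (γ k j : ℝ)

/-- Positive definite forms. -/
def PD (P : Mat n ℝ) : Prop := ∀ v : Fin n → ℝ, v ≠ 0 → 0 < v ⬝ᵥ P *ᵥ v

theorem gram_apply (P : Mat n ℝ) (γ : Mat n ℤ) (i j : Fin n) :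
    gram P γ i j = colR γ i ⬝ᵥ P *ᵥ colR γ j := by
  simp only [gram, colR, Matrix.mul_apply, dotProduct, mulVec, transpose_apply, map_apply,
    eq_intCast, Finset.sum_mul, Finset.mul_sum]
  rw [Finset.sum_comm]
  refine Finset.sum_congr rfl fun a _ => Finset.sum_congr rfl fun b _ => by ring

theorem gram_mul (P : Mat n ℝ) (γ δ : Mat n ℤ) : gram P (γ * δ) = gram (gram P γ) δ := by
  simp only [gram, Matrix.map_mul, transpose_mul, Matrix.mul_assoc]

theorem gram_symm {P : Mat n ℝ} (h : Pᵀ = P) (γ : Mat n ℤ) : (gram P γ)ᵀ = gram P γ := by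
  simp only [gram, transpose_mul, transpose_transpose, h, Matrix.mul_assoc]

theorem exists_inv {γ : Mat n ℤ} (h : IsUnit γ.det) : ∃ δ : Mat n ℤ, γ * δ = 1 ∧ δ * γ = 1 := by
  obtain ⟨u, hu⟩ := (Matrix.isUnit_iff_isUnit_det γ).2 h
  exact ⟨u.inv, hu ▸ u.val_inv, hu ▸ u.inv_val⟩

theorem gram_pd {P : Mat n ℝ} (h : PD P) {γ : Mat n ℤ} (hγ : IsUnit γ.det) : PD (gram P γ) := by
  intro v hv
  obtain ⟨δ, -, hδ⟩ := exists_inv hγ
  have h1 : γ.map (Int.castRingHom ℝ) *ᵥ v ≠ 0 := by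
    intro h0
    apply hv
    have h2 : δ.map (Int.castRingHom ℝ) *ᵥ (γ.map (Int.castRingHom ℝ) *ᵥ v) = v := by
      rw [mulVec_mulVec, ← Matrix.map_mul, hδ, Matrix.map_one _ (map_zero _) (map_one _),
        one_mulVec]
    rw [← h2, h0, mulVec_zero]
  have h3 := h _ h1
  rw [gram, Matrix.mul_assoc, ← mulVec_mulVec, dotProduct_mulVec, vecMul_transpose,
    ← mulVec_mulVec]
  exact h3

theorem diag_pos {P : Mat n ℝ} (h : PD P) (i : Fin n) : 0 < P i i := by
  have h1 := h (Pi.single i 1) (by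
    intro h0
    have := congrFun h0 i
    simp at this)
  simpa using h1

/-- Splitting off the first coordinate. -/
theorem split (P : Mat (n + 1) ℝ) (h0 : P 0 0 ≠ 0) (v w : Fin (n + 1) → ℝ) :
    v ⬝ᵥ P *ᵥ w = (∑ i, v i * P i 0) * (∑ j, P 0 j * w j) / P 0 0 +
      (fun i : Fin n => v i.succ) ⬝ᵥ schur P *ᵥ fun j : Fin n => w j.succ := by
  have e1 : (fun i : Fin n => v i.succ) ⬝ᵥ schur P *ᵥ (fun j : Fin n => w j.succ) =
      (∑ i : Fin n, ∑ j : Fin n, v i.succ * P i.succ j.succ * w j.succ) -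
        (∑ i : Fin n, v i.succ * P i.succ 0) * (∑ j : Fin n, P 0 j.succ * w j.succ) / P 0 0 := by
    rw [Finset.sum_mul_sum, Finset.sum_div, ← Finset.sum_sub_distrib]
    simp only [dotProduct, mulVec, schur, of_apply, Finset.mul_sum, Finset.sum_div,
      ← Finset.sum_sub_distrib]
    refine Finset.sum_congr rfl fun a _ => Finset.sum_congr rfl fun b _ => by ring
  have e2 : v ⬝ᵥ P *ᵥ w = v 0 * P 0 0 * w 0 + v 0 * (∑ j : Fin n, P 0 j.succ * w j.succ) +
      (∑ i : Fin n, v i.succ * P i.succ 0) * w 0 +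
      ∑ i : Fin n, ∑ j : Fin n, v i.succ * P i.succ j.succ * w j.succ := by
    simp only [dotProduct, mulVec, Fin.sum_univ_succ, mul_add, Finset.sum_add_distrib,
      Finset.mul_sum, Finset.sum_mul, mul_assoc, add_assoc]
    rw [add_left_comm (∑ i : Fin n, v i.succ * (P i.succ 0 * w 0))]
  rw [e1, e2, Fin.sum_univ_succ, Fin.sum_univ_succ]
  field_simp
  ring

theorem split_sq {P : Mat (n + 1) ℝ} (hs : Pᵀ = P) (h0 : P 0 0 ≠ 0) (v : Fin (n + 1) → ℝ) :
    v ⬝ᵥ P *ᵥ v = (∑ j, P 0 j * v j) ^ 2 / P 0 0 +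
      (fun i : Fin n => v i.succ) ⬝ᵥ schur P *ᵥ fun j : Fin n => v j.succ := by
  rw [split P h0, sq]
  congr 3
  refine Finset.sum_congr rfl fun i _ => ?_
  rw [mul_comm, ← hs, transpose_apply, hs]

theorem schur_symm {P : Mat (n + 1) ℝ} (hs : Pᵀ = P) : (schur P)ᵀ = schur P := by
  have h : ∀ i j, P i j = P j i := fun i j => by rw [← hs, transpose_apply, hs]
  ext i j
  simp only [transpose_apply, schur, of_apply]
  rw [h j.succ i.succ, h j.succ 0, h 0 i.succ, mul_comm]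

theorem schur_pd {P : Mat (n + 1) ℝ} (hs : Pᵀ = P) (h : PD P) : PD (schur P) := by
  intro x hx
  have h0 := diag_pos h 0
  have h1 := h (Fin.cons (-(∑ j : Fin n, P 0 j.succ * x j) / P 0 0) x) (by
    intro h2
    apply hx
    funext i
    simpa using congrFun h2 i.succ)
  rw [split_sq hs h0.ne', Fin.sum_univ_succ] at h1
  simp only [Fin.cons_zero, Fin.cons_succ] at h1
  rw [mul_div_cancel₀ _ h0.ne', neg_add_cancel] at h1
  simpa using h1

/-- A positive definite form is bounded below on nonzero integral vectors. -/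
theorem exists_lb : ∀ (n : ℕ) (P : Mat n ℝ), Pᵀ = P → PD P →
    ∃ c : ℝ, 0 < c ∧ ∀ v : Fin n → ℤ, v ≠ 0 →
      c ≤ (fun i => (v i : ℝ)) ⬝ᵥ P *ᵥ fun i => (v i : ℝ)
  | 0, _, _, _ => ⟨1, one_pos, fun v hv => absurd (Subsingleton.elim _ _) hv⟩
  | n + 1, P, hs, h => by
    obtain ⟨c, hc, hv⟩ := exists_lb n (schur P) (schur_symm hs) (schur_pd hs h)
    have h0 := diag_pos h 0
    refine ⟨min c (P 0 0), lt_min hc h0, fun v hv0 => ?_⟩
    rw [split_sq hs h0.ne']
    by_cases ht : (fun i : Fin n => v i.succ) = 0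
    · have hz : ∀ i : Fin n, v i.succ = 0 := fun i => congrFun ht i
      have h1 : v 0 ≠ 0 := by
        intro h2
        apply hv0
        funext i
        refine Fin.cases h2 hz i
      have h2 : (1 : ℝ) ≤ (v 0 : ℝ) ^ 2 := by
        have h3 : (1 : ℤ) ≤ v 0 ^ 2 := by
          have := sq_pos_of_ne_zero h1
          omega
        exact_mod_cast h3
      have h3 : (P 0 0 * (v 0 : ℝ)) ^ 2 / P 0 0 = P 0 0 * (v 0 : ℝ) ^ 2 := by
        field_simp
      simp only [Fin.sum_univ_succ, hz, Int.cast_zero, mul_zero, Finset.sum_const_zero, add_zero,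
        dotProduct, zero_mul, h3]
      exact (min_le_right _ _).trans (le_mul_of_one_le_right h0.le h2)
    · have h1 := hv _ ht
      have h2 : 0 ≤ (∑ j, P 0 j * (v j : ℝ)) ^ 2 / P 0 0 := by positivity
      exact (min_le_left _ _).trans (h1.trans (le_add_of_nonneg_left h2))

/-- Block matrices with first column `e₀`. -/
def blk (t : Fin n → ℤ) (γ : Mat n ℤ) : Mat (n + 1) ℤ :=
  Matrix.of (Fin.cons (Fin.cons 1 t) fun i => Fin.cons 0 (γ i))

theorem det_blk (t : Fin n → ℤ) (γ : Mat n ℤ) : (blk t γ).det = γ.det := by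
  rw [Matrix.det_succ_column_zero, Fin.sum_univ_succ]
  simp only [blk, of_apply, Fin.cons_zero, Fin.cons_succ, Fin.val_zero, pow_zero, mul_one, one_mul,
    mul_zero, zero_mul, Finset.sum_const_zero, add_zero]
  congr 1

theorem colR_blk_zero (t : Fin n → ℤ) (γ : Mat n ℤ) : colR (blk t γ) 0 = Pi.single 0 1 := by
  funext i
  refine Fin.cases ?_ (fun i => ?_) i <;> simp [colR, blk]

theorem gram_blk_zero (P : Mat (n + 1) ℝ) (t : Fin n → ℤ) (γ : Mat n ℤ) (j : Fin (n + 1)) :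
    gram P (blk t γ) 0 j = ∑ k, P 0 k * colR (blk t γ) j k := by
  rw [gram_apply, colR_blk_zero, single_one_dotProduct]
  rfl

theorem gram_blk_zero' (P : Mat (n + 1) ℝ) (t : Fin n → ℤ) (γ : Mat n ℤ) (i : Fin (n + 1)) :
    gram P (blk t γ) i 0 = ∑ k, colR (blk t γ) i k * P k 0 := by
  rw [gram_apply, colR_blk_zero, mulVec_single_one]
  rfl

theorem gram_blk_00 (P : Mat (n + 1) ℝ) (t : Fin n → ℤ) (γ : Mat n ℤ) :
    gram P (blk t γ) 0 0 = P 0 0 := by
  rw [gram_apply, colR_blk_zero, single_one_dotProduct, mulVec_single_one]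
  rfl

theorem schur_blk {P : Mat (n + 1) ℝ} (h0 : P 0 0 ≠ 0) (t : Fin n → ℤ) (γ : Mat n ℤ) :
    schur (gram P (blk t γ)) = gram (schur P) γ := by
  ext i j
  rw [schur, of_apply, gram_blk_00, gram_blk_zero, gram_blk_zero', gram_apply, split P h0,
    gram_apply, add_sub_cancel_left]
  rfl

theorem main : ∀ (n : ℕ) (P : Mat n ℝ), Pᵀ = P → PD P →
    ∃ γ : Mat n ℤ, IsUnit γ.det ∧ SRed n (gram P γ)
  | 0, _, _, _ => ⟨1, by simp, trivial⟩
  | n + 1, P, hs, h => by
    obtain ⟨c, hc, hv⟩ := exists_lb _ P hs h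
    set S : Set ℝ := {r | ∃ γ : Mat (n + 1) ℤ, IsUnit γ.det ∧ gram P γ 0 0 = r} with hS
    have hne : S.Nonempty := ⟨_, 1, by simp, rfl⟩
    have hlb : ∀ r ∈ S, c ≤ r := by
      rintro _ ⟨γ, hγ, rfl⟩
      rw [gram_apply]
      refine hv (fun k => γ k 0) fun h0 => ?_
      rw [Matrix.det_eq_zero_of_column_eq_zero 0 fun k => congrFun h0 k] at hγ
      exact not_isUnit_zero hγ
    have hμ : 0 < sInf S := hc.trans_le (le_csInf hne hlb)
    have hle : ∀ γ : Mat (n + 1) ℤ, IsUnit γ.det → ∀ i, sInf S ≤ gram P γ i i := by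
      intro γ hγ i
      refine csInf_le ⟨c, hlb⟩ ⟨γ.submatrix id (Equiv.swap 0 i), ?_, ?_⟩
      · rw [Matrix.det_permute']
        exact (Units.isUnit _).mul hγ
      · rw [gram_apply, gram_apply]
        have e : colR (γ.submatrix id (Equiv.swap 0 i)) 0 = colR γ i := by
          funext k
          simp [colR]
        rw [e]
    obtain ⟨_, ⟨γ₀, h₀, rfl⟩, hlt⟩ :=
      exists_lt_of_csInf_lt hne (show sInf S < 8 / 7 * sInf S by linarith)
    have hs1 := gram_symm hs γ₀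
    have hp1 := gram_pd h h₀
    have h00 := diag_pos hp1 0
    obtain ⟨γ₁, h₁, hr⟩ := main n _ (schur_symm hs1) (schur_pd hs1 hp1)
    set P₁ := gram P γ₀ with hP₁
    set u : Fin n → ℝ := fun j => ∑ k : Fin n, P₁ 0 k.succ * (γ₁ k j : ℝ) with hu
    set t : Fin n → ℤ := fun j => -round (u j / P₁ 0 0) with ht
    have hdet : IsUnit (γ₀ * blk t γ₁).det := by
      rw [Matrix.det_mul, det_blk]
      exact h₀.mul h₁
    have hrow : ∀ j : Fin n, |gram P₁ (blk t γ₁) 0 j.succ| ≤ P₁ 0 0 / 2 := by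
      intro j
      have e : gram P₁ (blk t γ₁) 0 j.succ =
          P₁ 0 0 * (u j / P₁ 0 0 - round (u j / P₁ 0 0)) := by
        rw [gram_blk_zero, Fin.sum_univ_succ, mul_sub, mul_div_cancel₀ _ h00.ne']
        simp only [colR, blk, of_apply, Fin.cons_zero, Fin.cons_succ, ht, hu, Int.cast_neg]
        ring
      rw [e, abs_mul, abs_of_pos h00]
      have := mul_le_mul_of_nonneg_left (abs_sub_round (u j / P₁ 0 0)) h00.le
      linarith
    refine ⟨γ₀ * blk t γ₁, hdet, ?_⟩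
    have hd := hle _ hdet
    rw [gram_mul, ← hP₁] at hd ⊢
    have hsQ := gram_symm hs1 (blk t γ₁)
    refine ⟨?_, fun j => ?_, fun j _ => ?_, ?_⟩
    · rw [gram_blk_00]
      exact h00
    · rw [gram_blk_00]
      linarith [hrow j]
    · have h1 := hd j.succ
      have h2 := hrow j
      have h3 : gram P₁ (blk t γ₁) j.succ 0 = gram P₁ (blk t γ₁) 0 j.succ := by
        rw [← hsQ, transpose_apply, hsQ]
      rw [schur, of_apply, gram_blk_00, h3]
      have h4 : gram P₁ (blk t γ₁) 0 j.succ * gram P₁ (blk t γ₁) 0 j.succ / P₁ 0 0 ≤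
          P₁ 0 0 / 4 := by
        rw [div_le_iff₀ h00, ← abs_mul_abs_self]
        have := mul_self_le_mul_self (abs_nonneg _) h2
        linarith
      linarith
    · rw [schur_blk h00.ne']
      exact hr

end BS1Aux

open BS1Aux in
theorem exists_sred {n : ℕ} {x x' : Mat n ℝ} (h : x * x' = 1) :
    ∃ γ : GL (Fin n) ℚ, IntM 1 γ.val ∧ IntM 1 γ.inv ∧
      SRed n ((x * castM ℝ γ.val)ᵀ * (x * castM ℝ γ.val)) := by
  have h' : x' * x = 1 := mul_eq_one_comm.1 h
  have hp : PD (xᵀ * x) := by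
    intro v hv
    have h1 : x *ᵥ v ≠ 0 := by
      intro h0
      apply hv
      rw [← one_mulVec v, ← h', ← mulVec_mulVec, h0, mulVec_zero]
    rw [← mulVec_mulVec, dotProduct_mulVec, vecMul_transpose]
    exact lt_of_le_of_ne (Finset.sum_nonneg fun i _ => mul_self_nonneg _)
      fun h0 => h1 (dotProduct_self_eq_zero.1 h0.symm)
  obtain ⟨γ, hγ, hr⟩ := main n (xᵀ * x) (by rw [transpose_mul, transpose_transpose]) hp
  obtain ⟨δ, h1, h2⟩ := exists_inv hγ
  refine ⟨⟨γ.map (Int.castRingHom ℚ), δ.map (Int.castRingHom ℚ), ?_, ?_⟩,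
    fun i j => ⟨γ i j, by simp⟩, fun i j => ⟨δ i j, by simp⟩, ?_⟩
  · rw [← Matrix.map_mul, h1, Matrix.map_one _ (map_zero _) (map_one _)]
  · rw [← Matrix.map_mul, h2, Matrix.map_one _ (map_zero _) (map_one _)]
  · have e : castM ℝ (γ.map (Int.castRingHom ℚ)) = γ.map (Int.castRingHom ℝ) := by
      ext i j
      simp [castM]
    have e2 : (x * castM ℝ (γ.map (Int.castRingHom ℚ)))ᵀ * (x * castM ℝ (γ.map (Int.castRingHom ℚ)))
        = BS1Aux.gram (xᵀ * x) γ := by
      rw [e, BS1Aux.gram, transpose_mul]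
      simp only [Matrix.mul_assoc]
    exact e2 ▸ hr

end Pool.Agent.P.MP_257122_al
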