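import Pool.Agent.P.MP_257122_al.BRho

/-!
# Smith normal form and rounding of valuations

PLAN.  `smith`: clear denominators, `D η` is an integer matrix `B` with nonzero determinant;
`Submodule.exists_smith_normal_form_of_rank_eq` (or `smithNormalFormTopBasis`, `…BotBasis`,
`…Coeffs`) for the range of `B` in `Fin n → ℤ`; `γ₁` has the top basis as columns, `γ₂` expresses
the columns of `B` in the bottom basis; move the signs into `γ₂`.
`round_path`: `c r i` is the product over the primes dividing some numerator or denominator of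
`p ^ (r v / T)`; a positive rational is determined by its valuations.
-/

namespace Pool.Agent.P.MP_257122_al

open Matrix

namespace BSmithAux

theorem smithZ {n : ℕ} (B : Mat n ℤ) (hB : B.det ≠ 0) : ∃ (U U' V V' : Mat n ℤ) (a : Fin n → ℤ),
    U * U' = 1 ∧ V * V' = 1 ∧ B = U * diagonal a * V := by
  let e := LinearEquiv.ofInjective B.mulVecLin (mulVec_injective_of_det_ne_zero hB)
  obtain ⟨b, a, c, h⟩ := Submodule.exists_smith_normal_form_of_rank_eq (Pi.basisFun ℤ (Fin n))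
    e.finrank_eq.symm
  let d := (Pi.basisFun ℤ (Fin n)).map e
  refine ⟨_, _, _, _, a, (Pi.basisFun ℤ (Fin n)).toMatrix_mul_toMatrix_flip b,
    c.toMatrix_mul_toMatrix_flip d, Matrix.ext fun i j => ?_⟩
  have := congrArg (fun x : LinearMap.range B.mulVecLin => x.1 i) (c.sum_toMatrix_smul_self d j)
  simp only [Submodule.coe_sum, Submodule.coe_smul, h, Finset.sum_apply, Pi.smul_apply,
    smul_eq_mul] at this
  rw [mul_apply, show B i j = (d j).1 i from (by simp : _ = (B *ᵥ Pi.basisFun ℤ _ j) i), ← this]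
  refine Finset.sum_congr rfl fun k _ => ?_
  rw [mul_diagonal, Module.Basis.toMatrix_apply (Pi.basisFun ℤ (Fin n)), Pi.basisFun_repr]
  ring

theorem den_iff {p : ℕ} (hp : p.Prime) (q : ℚ) : 0 ≤ padicValRat p q ↔ ¬ p ∣ q.den := by
  have := Fact.mk hp
  refine ⟨fun h e => ?_, fun h => by simp [padicValRat, padicValNat.eq_zero_of_not_dvd h]⟩
  have h1 : padicValInt p q.num = 0 := padicValNat.eq_zero_of_not_dvd fun d =>
    hp.ne_one (Nat.eq_one_of_dvd_coprimes q.reduced d e)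
  have := one_le_padicValNat_of_dvd q.den_nz e
  rw [padicValRat, h1] at h
  omega

theorem val_prod (S : Finset ℕ) (hS : ∀ p ∈ S, p.Prime) (e : ℕ → ℤ) {q : ℕ} (hq : q.Prime) :
    padicValRat q (∏ p ∈ S, (p : ℚ) ^ e p) = if q ∈ S then e q else 0 := by
  have := Fact.mk hq
  induction S using Finset.cons_induction with
  | empty => simp
  | cons p S h ih =>
    rw [Finset.forall_mem_cons] at hS
    have := Fact.mk hS.1
    rw [Finset.prod_cons, padicValRat.mul (zpow_ne_zero _ (Nat.cast_ne_zero.2 hS.1.ne_zero))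
      (Finset.prod_ne_zero_iff.2 fun p m => zpow_ne_zero _ (Nat.cast_ne_zero.2 (hS.2 p m).ne_zero)),
      ih hS.2, padicValRat.zpow, padicValRat.of_nat]
    by_cases a : q = p
    · simp [a, h]
    · simp [a, padicValNat_primes a]

theorem int_iff {q : ℚ} : (∃ z : ℤ, q = z) ↔ ∀ p : ℕ, p.Prime → 0 ≤ padicValRat p q :=
  ⟨fun ⟨z, e⟩ p _ => by simp [e], fun h => ⟨q.num, (Rat.coe_int_num_of_den_eq_one
    (Nat.eq_one_iff_not_exists_prime_dvd.2 fun p hp => (den_iff hp q).1 (h p hp))).symm⟩⟩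

theorem ext {a b : ℚ} (ha : 0 < a) (hb : 0 < b)
    (h : ∀ p : ℕ, p.Prime → padicValRat p a = padicValRat p b) : a = b := by
  have k : ∀ {a b : ℚ}, 0 < a → 0 < b → (∀ p : ℕ, p.Prime → padicValRat p a = padicValRat p b) →
      b ≤ a := fun {a b} ha hb h => by
    obtain ⟨z, e⟩ := (int_iff (q := a / b)).2 fun p hp => by
      have := Fact.mk hp
      rw [padicValRat.div ha.ne' hb.ne', h p hp, sub_self]
    rw [← one_le_div hb, e]
    exact_mod_cast (by exact_mod_cast e ▸ div_pos ha hb : 0 < z)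
  exact le_antisymm (k hb ha fun p hp => (h p hp).symm) (k ha hb h)

end BSmithAux

open BSmithAux

theorem smith {n : ℕ} (η : GL (Fin n) ℚ) :
    ∃ (γ₁ γ₂ : GL (Fin n) ℚ) (t : Fin n → ℚ), IntM 1 γ₁.val ∧ IntM 1 γ₁.inv ∧ IntM 1 γ₂.val ∧
      IntM 1 γ₂.inv ∧ (∀ i, 0 < t i) ∧ η.val = γ₁.val * diagonal t * γ₂.val := by
  obtain ⟨D, hD⟩ := IsLocalization.exist_integer_multiples_of_finite (nonZeroDivisors ℤ)
    fun x : Fin n × Fin n => η.val x.1 x.2
  choose B hB using hD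
  have D0 : ((D : ℤ) : ℚ) ≠ 0 := Int.cast_ne_zero.2 (nonZeroDivisors.coe_ne_zero D)
  let φ := (Int.castRingHom ℚ).mapMatrix (m := Fin n)
  have e : φ (of fun i j => B (i, j)) = ((D : ℤ) : ℚ) • η.val :=
    Matrix.ext fun i j => by simpa [φ] using hB (i, j)
  have h0 : (of fun i j => B (i, j)).det ≠ 0 := fun h => by
    have := congrArg det e
    rw [← RingHom.map_det, h, det_smul, map_zero] at this
    exact mul_ne_zero (pow_ne_zero _ D0) η.det_ne_zero this.symm
  obtain ⟨U, U', V, V', a, h1, h2, h3⟩ := smithZ _ h0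
  have a0 : ∀ i, (a i : ℚ) / (D : ℤ) ≠ 0 := fun i => div_ne_zero (Int.cast_ne_zero.2 fun h => h0 (by
    rw [h3, det_mul, det_mul, det_diagonal, Finset.prod_eq_zero (Finset.mem_univ i) h]; simp)) D0
  let s : Fin n → ℤ := fun i => if (a i : ℚ) / (D : ℤ) < 0 then -1 else 1
  have h4 : diagonal s * V * (V' * diagonal s) = 1 := by
    rw [Matrix.mul_assoc, ← Matrix.mul_assoc V, h2, Matrix.one_mul, diagonal_mul_diagonal,
      ← diagonal_one]
    exact congrArg diagonal (funext fun i => by simp only [s]; split_ifs <;> rfl)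
  have k : ∀ {X Y : Mat n ℤ}, X * Y = 1 → φ X * φ Y = 1 := fun h => by rw [← map_mul, h, map_one]
  have i : ∀ X : Mat n ℤ, IntM 1 (φ X) := fun X i j => ⟨X i j, by simp [φ]⟩
  refine ⟨⟨_, _, k h1, k (mul_eq_one_comm.1 h1)⟩, ⟨_, _, k h4, k (mul_eq_one_comm.1 h4)⟩,
    fun i => |(a i : ℚ) / (D : ℤ)|, i _, i _, i _, i _, fun i => abs_pos.2 (a0 i), ?_⟩
  have h5 : diagonal (fun i => |(a i : ℚ) / (D : ℤ)|) * φ (diagonal s) =
      ((D : ℤ) : ℚ)⁻¹ • φ (diagonal a) := by
    simp only [φ, RingHom.mapMatrix_apply, diagonal_map (map_zero _), diagonal_mul_diagonal,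
      ← diagonal_smul]
    refine congrArg diagonal (funext fun i => ?_)
    simp only [s, Pi.smul_apply, smul_eq_mul, eq_intCast, inv_mul_eq_div]
    split_ifs with h
    · simp [abs_of_neg h]
    · simp [abs_of_nonneg (not_lt.1 h)]
  simp only [map_mul]
  rw [Matrix.mul_assoc, ← Matrix.mul_assoc (diagonal _), h5, Matrix.smul_mul, Matrix.mul_smul,
    ← Matrix.mul_assoc, ← map_mul, ← map_mul, ← h3, e, inv_smul_smul₀ D0]

theorem round_path {ι : Type} [Fintype ι] (t : ι → ℚ) (ht : ∀ i, 0 < t i) :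
    ∃ (T : ℕ) (c : ℕ → ι → ℚ), 0 < T ∧ (∀ r i, 0 < c r i) ∧ (∀ i, c 0 i = 1) ∧ c T = t ∧
      (∀ i, ∀ p : ℕ, p.Prime → |padicValRat p (t i)| ≤ T) ∧
      ∀ r i, ∀ p : ℕ, p.Prime →
        padicValRat p (c r i) = ((r : ℤ) * padicValRat p (t i)) / (T : ℤ) := by
  let S := Finset.univ.biUnion fun i => ((t i).num.natAbs * (t i).den).primeFactors
  have hS : ∀ p ∈ S, p.Prime := fun p h =>
    let ⟨_, _, h⟩ := Finset.mem_biUnion.1 h; Nat.prime_of_mem_primeFactors h
  have h0 : ∀ i, ∀ p : ℕ, p.Prime → p ∉ S → padicValRat p (t i) = 0 := fun i p hp h => by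
    have : ¬ p ∣ (t i).num.natAbs * (t i).den := fun d => h (Finset.mem_biUnion.2 ⟨i, by simp,
      Nat.mem_primeFactors.2 ⟨hp, d, by simp [(ht i).ne']⟩⟩)
    simp [padicValRat, padicValInt, padicValNat.eq_zero_of_not_dvd (mt (·.mul_right _) this),
      padicValNat.eq_zero_of_not_dvd (mt (·.mul_left _) this)]
  obtain ⟨T, T0, hT⟩ : ∃ T : ℕ, 0 < T ∧ ∀ i, ∀ p ∈ S, (padicValRat p (t i)).natAbs ≤ T :=
    ⟨1 + (Finset.univ ×ˢ S).sup fun x => (padicValRat x.2 (t x.1)).natAbs, by omega, fun i p h =>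
      le_add_left (Finset.le_sup (f := fun x : ι × ℕ => (padicValRat x.2 (t x.1)).natAbs)
        (b := (i, p)) (by simp [h]))⟩
  have p0 : ∀ (r : ℕ) i, 0 < ∏ p ∈ S, (p : ℚ) ^ ((r : ℤ) * padicValRat p (t i) / (T : ℤ)) :=
    fun r i => Finset.prod_pos fun p h => zpow_pos (Nat.cast_pos.2 (hS p h).pos) _
  have v : ∀ (r : ℕ) i, ∀ q : ℕ, q.Prime → padicValRat q (∏ p ∈ S, (p : ℚ) ^ ((r : ℤ) *
      padicValRat p (t i) / (T : ℤ))) = r * padicValRat q (t i) / T := fun r i q hq => by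
    rw [val_prod S hS _ hq]
    split_ifs with h
    exacts [rfl, by simp [h0 i q hq h]]
  refine ⟨T, _, T0, p0, by simp, funext fun i => ext (p0 T i) (ht i) fun p hp => ?_,
    fun i p hp => ?_, v⟩
  · rw [v T i p hp, Int.mul_ediv_cancel_left _ (by omega)]
  · by_cases h : p ∈ S
    · rw [Int.abs_eq_natAbs]; exact_mod_cast hT i p h
    · simp [h0 i p hp h]

theorem int_iff_val {q : ℚ} : (∃ z : ℤ, q = z) ↔ ∀ p : ℕ, p.Prime → 0 ≤ padicValRat p q := int_iff

theorem zinv_iff_val {m : ℕ} {q : ℚ} :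
    q ∈ Zinv m ↔ ∀ p : ℕ, p.Prime → ¬ p ∣ m → 0 ≤ padicValRat p q :=
  forall₂_congr fun p hp => by rw [den_iff hp, not_imp_not]

theorem norm_cast_le_iff (p : Nat.Primes) {q q' : ℚ} (hq : q ≠ 0) (hq' : q' ≠ 0) :
    ‖(q : Qp p)‖ ≤ ‖(q' : Qp p)‖ ↔ padicValRat p.1 q' ≤ padicValRat p.1 q := by
  rw [Padic.norm_eq_zpow_neg_valuation (Rat.cast_ne_zero.2 hq),
    Padic.norm_eq_zpow_neg_valuation (Rat.cast_ne_zero.2 hq'), Padic.valuation_ratCast,
    Padic.valuation_ratCast, zpow_le_zpow_iff_right₀ (Nat.one_lt_cast.2 p.2.one_lt), neg_le_neg_iff]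

end Pool.Agent.P.MP_257122_al
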