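import Pool.Agent.P.MP_257122_al.BIso
import Pool.Agent.P.MP_257122_al.BExp
import Pool.Agent.P.MP_257122_al.FMat

/-!
# The unipotent part

PLAN.  Let `O` be the subring of matrices carrying every `L.2` into itself.  `uni`: take
`C s = s! (s! (s!) ^ s) ^ 2`; `B ^ k (ξ ^ k - ξ' ^ k) ∈ C s • O` by induction on `k`
(`ξ ^ (k+1) - ξ' ^ (k+1) = ξ (ξ ^ k - ξ' ^ k) + (ξ - ξ') ξ' ^ k`), so with `A = n! B ^ n` both
`A (exp ξ - exp ξ') ∈ C s • O` and `A exp (-ξ') ∈ O` (`exp_eq_sum`, `Rais.pow_card`); hence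
`w - 1 ∈ κ • O`, and the same for the inverse `exp ξ' exp (-ξ)`.  Tensors: `drho_eq_zero_iff`.
`uni_log`: `ξ = lg n v` (`exp_lg`, `Rais.lg`, `lg_mem` for `O`, `drho_eq_zero_iff`; the inverse of
`exp ξ` is `exp (-ξ)`).
-/

namespace Pool.Agent.P.MP_257122_al

open Matrix

namespace BUniAux

section ring
variable {R : Type} [Ring R] [Algebra ℚ R] (O : Subring R)

theorem pow_cong {x y z : R} {C : ℚ} (hx : x ∈ O) (hy : y ∈ O) (hz : z ∈ O) (h : x - y = C • z)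
    (k : ℕ) : ∃ t ∈ O, x ^ k - y ^ k = C • t := by
  induction k with
  | zero => exact ⟨0, zero_mem _, by simp⟩
  | succ k ih =>
    obtain ⟨t, ht, e⟩ := ih
    refine ⟨x * t + z * y ^ k, add_mem (mul_mem hx ht) (mul_mem hz (pow_mem hy k)), ?_⟩
    rw [smul_add, ← mul_smul_comm, ← smul_mul_assoc, ← e, ← h, pow_succ', pow_succ']
    noncomm_ring

theorem exp_int (n B : ℕ) {ξ : R} (h : ξ ^ n = 0) :
    ((n.factorial * B ^ n : ℕ) : ℚ) • IsNilpotent.exp ξ = ∑ k ∈ Finset.range n,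
      (n.factorial / k.factorial * B ^ (n - k)) • ((B : ℚ) • ξ) ^ k := by
  rw [IsNilpotent.exp_eq_sum h, Finset.smul_sum]
  refine Finset.sum_congr rfl fun k hk => ?_
  have hk' := (Finset.mem_range.1 hk).le
  have h1 : (k.factorial : ℚ) ≠ 0 := Nat.cast_ne_zero.2 k.factorial_ne_zero
  rw [← Nat.cast_smul_eq_nsmul ℚ, smul_pow, smul_smul, smul_smul, Nat.cast_mul, Nat.cast_mul,
    Nat.cast_div (Nat.factorial_dvd_factorial hk') h1, Nat.cast_pow, Nat.cast_pow, mul_assoc,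
    mul_assoc, ← pow_add, Nat.sub_add_cancel hk']
  congr 1
  ring

theorem cong {n B κ D : ℕ} (hB : 0 < B) {ξ η ζ : R} (h1 : ξ ^ n = 0) (h2 : η ^ n = 0)
    (hx : (B : ℚ) • ξ ∈ O) (hy : (B : ℚ) • η ∈ O) (hz : (B : ℚ) • ζ ∈ O)
    (h : ξ - η = ((κ * (n.factorial * B ^ n) ^ 2 * D : ℕ) : ℚ) • ζ) :
    ∃ t ∈ O, IsNilpotent.exp ξ * IsNilpotent.exp (-η) = 1 + (κ : ℚ) • t := by
  set A := n.factorial * B ^ n with hA
  have hA0 : (A : ℚ) ≠ 0 := Nat.cast_ne_zero.2 (by positivity)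
  choose t ht e using pow_cong O hx hy hz (C := (κ * A ^ 2 * D : ℕ))
    (by rw [← smul_sub, h, smul_comm])
  have h3 : (A : ℚ) • IsNilpotent.exp (-η) ∈ O := by
    rw [exp_int n B (by rw [neg_pow, h2, mul_zero])]
    exact sum_mem fun k _ => nsmul_mem (pow_mem (by rw [smul_neg]; exact neg_mem hy) k) _
  have h4 : (A : ℚ) • (IsNilpotent.exp ξ - IsNilpotent.exp η) = ((κ * A ^ 2 * D : ℕ) : ℚ) •
      ∑ k ∈ Finset.range n, (n.factorial / k.factorial * B ^ (n - k)) • t k := by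
    rw [smul_sub, exp_int n B h1, exp_int n B h2, ← Finset.sum_sub_distrib, Finset.smul_sum]
    exact Finset.sum_congr rfl fun k _ => by rw [← smul_sub, e, smul_comm]
  refine ⟨D • (_ * _), nsmul_mem (mul_mem (sum_mem fun k _ => nsmul_mem (ht k) _ :
    ∑ k ∈ Finset.range n, (n.factorial / k.factorial * B ^ (n - k)) • t k ∈ O) h3) D, ?_⟩
  rw [← IsNilpotent.exp_mul_exp_neg_self ⟨n, h2⟩, ← sub_eq_iff_eq_add', ← sub_mul,
    (eq_inv_smul_iff₀ hA0).2 h4, ← Nat.cast_smul_eq_nsmul ℚ D, mul_smul_comm]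
  simp only [smul_mul_assoc, smul_smul]
  congr 1
  push_cast
  field_simp

end ring

/-- Matrices preserving all second groups. -/
def ord {n : ℕ} (Ls : List (LPair n)) : Subring (Mat n ℚ) where
  carrier := {x | ∀ L ∈ Ls, ∀ v ∈ L.2, x *ᵥ v ∈ L.2}
  zero_mem' := fun _ _ v _ => by rw [Matrix.zero_mulVec]; exact zero_mem _
  one_mem' := fun _ _ v hv => by rwa [Matrix.one_mulVec]
  add_mem' := fun hx hy L hL v hv => by
    rw [Matrix.add_mulVec]; exact add_mem (hx L hL v hv) (hy L hL v hv)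
  neg_mem' := fun hx L hL v hv => by rw [Matrix.neg_mulVec]; exact neg_mem (hx L hL v hv)
  mul_mem' := fun hx hy L hL v hv => by
    rw [← Matrix.mulVec_mulVec]; exact hx L hL _ (hy L hL v hv)

theorem smul_mem {n : ℕ} {Ls : List (LPair n)} {q : ℚ} {x : Mat n ℚ} :
    q • x ∈ ord Ls ↔ ∀ L ∈ Ls, ∀ v ∈ L.2, q • (x *ᵥ v) ∈ L.2 := by
  simp only [← Matrix.smul_mulVec]
  rfl

theorem pow_n {n : ℕ} {w : Fin n → ℤ} {ξ : Mat n ℚ} (h : Rais w ξ) : ξ ^ n = 0 := by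
  simpa using h.pow_card

end BUniAux

open BUniAux

theorem XiP.of_dvd {n B B' : ℕ} {us : List (TPair n)} {Ls : List (LPair n)} {w : Fin n → ℤ}
    {ξ : Mat n ℚ} (h : XiP us Ls w B ξ) (hB : B ∣ B') : XiP us Ls w B' ξ := by
  obtain ⟨c, rfl⟩ := hB
  refine ⟨h.1, h.2.1, fun L hL x hx => ?_⟩
  rw [Nat.cast_mul, mul_comm, mul_smul, Nat.cast_smul_eq_nsmul]
  exact nsmul_mem (h.2.2 L hL x hx) c

theorem uni : ∃ C : ℕ → ℕ, CS C ∧ (∀ s, 0 < C s) ∧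
    ∀ (s n B κ : ℕ) (us : List (TPair n)) (Ls : List (LPair n)) (w : Fin n → ℤ) (ξ ξ' ζ : Mat n ℚ),
      n ≤ s → 0 < B → B ≤ s → 0 < κ → κ ≤ s → XiP us Ls w B ξ → XiP us Ls w B ξ' →
      XiP us Ls w B ζ → ξ - ξ' = (C s : ℚ) • ζ →
        ∃ u : GL (Fin n) ℚ, u.val = IsNilpotent.exp ξ * IsNilpotent.exp (-ξ') ∧
          u.inv = IsNilpotent.exp ξ' * IsNilpotent.exp (-ξ) ∧
          DlP (ts2 us) (Ls.map Prod.snd) κ u := by
  refine ⟨fun s => s.factorial * (s.factorial * s.factorial ^ s) ^ 2, ?_, fun s => by positivity,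
    ?_⟩
  · have hf : CS Nat.factorial := CS.factorial CS.id
    aesop (config := { terminal := true, enableSimp := false, maxRuleApplications := 3000, maxRuleApplicationDepth := 70, assumptionTransparency := .reducible }) (rule_sets := [-default, -builtin, Restrict])
  intro s n B κ us Ls w ξ ξ' ζ hn hB hBs hκ hκs h1 h2 h3 h
  obtain ⟨D, hD⟩ : κ * (n.factorial * B ^ n) ^ 2 ∣
      s.factorial * (s.factorial * s.factorial ^ s) ^ 2 :=
    mul_dvd_mul (Nat.dvd_factorial hκ hκs) (pow_dvd_pow_of_dvd (mul_dvd_mul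
      (Nat.factorial_dvd_factorial hn) ((pow_dvd_pow_of_dvd (Nat.dvd_factorial hB hBs) n).trans
        (pow_dvd_pow _ hn))) 2)
  simp only [hD] at h
  have p1 := pow_n h1.1
  have p2 := pow_n h2.1
  obtain ⟨t, ht, e⟩ := cong (ord Ls) hB p1 p2 (smul_mem.2 h1.2.2) (smul_mem.2 h2.2.2)
    (smul_mem.2 h3.2.2) h
  obtain ⟨t', ht', e'⟩ := cong (ord Ls) (ζ := -ζ) hB p2 p1 (smul_mem.2 h2.2.2) (smul_mem.2 h1.2.2)
    (by rw [smul_neg]; exact neg_mem (smul_mem.2 h3.2.2)) (by rw [smul_neg, ← h, neg_sub])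
  have key : ∀ x y : Mat n ℚ, x ^ n = 0 → y ^ n = 0 → IsNilpotent.exp x * IsNilpotent.exp (-y) *
      (IsNilpotent.exp y * IsNilpotent.exp (-x)) = 1 := fun x y hx hy => by
    rw [mul_assoc, ← mul_assoc _ (IsNilpotent.exp y), IsNilpotent.exp_neg_mul_exp_self ⟨n, hy⟩,
      one_mul, IsNilpotent.exp_mul_exp_neg_self ⟨n, hx⟩]
  have mem : ∀ t ∈ ord Ls, 1 + (κ : ℚ) • t ∈ ord Ls := fun t ht =>
    add_mem (one_mem _) (by rw [Nat.cast_smul_eq_nsmul]; exact nsmul_mem ht κ)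
  refine ⟨⟨_, _, key ξ ξ' p1 p2, key ξ' ξ p2 p1⟩, rfl, rfl, fun t ht => ?_, fun Λ hΛ => ?_⟩
  · obtain ⟨t, hu, rfl⟩ := List.mem_map.1 ht
    have k1 := (drho_eq_zero_iff t.1.get h1.1 t.2.2).1 (h1.2.1 t hu)
    have k2 := (drho_eq_zero_iff t.1.get h2.1.neg t.2.2).1
      (by rw [drho_neg, neg_mulVec, h2.2.1 t hu, neg_zero])
    rw [neg_neg] at k2
    simp only [act_eq_rho]
    rw [← rho_mulVec, k2, k1]
  · obtain ⟨L, hL, rfl⟩ := List.mem_map.1 hΛ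
    refine ⟨lmap_eq_iff.2 ⟨?_, ?_⟩, fun x hx => mem_scal.2 ⟨_, ht L hL x hx, ?_⟩⟩
    · exact (e ▸ mem t ht) L hL
    · exact (e' ▸ mem t' ht') L hL
    · simp only [e, add_mulVec, one_mulVec, smul_mulVec, add_sub_cancel_left]

theorem uni_log {n B : ℕ} {us : List (TPair n)} {Ls : List (LPair n)} {w : Fin n → ℤ}
    {v : GL (Fin n) ℚ} (hv : Rais w (v.val - 1))
    (ht : ∀ t ∈ us, act t.1 v.val v.inv *ᵥ t.2.2 = t.2.2)
    (hL : ∀ L ∈ Ls, ∀ x ∈ L.2, (B : ℚ) • (v.val *ᵥ x) ∈ L.2) :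
    ∃ ξ, XiP us Ls w (n.factorial * B ^ n) ξ ∧ IsNilpotent.exp ξ = v.val := by
  have h1 := exp_lg (pow_n hv)
  rw [add_sub_cancel] at h1
  have h2 := hv.lg n
  have h3 : IsNilpotent.exp (-lg n v.val) = v.inv := by
    rw [← one_mul (IsNilpotent.exp _), ← v.inv_val, mul_assoc]
    nth_rewrite 1 [← h1]
    rw [IsNilpotent.exp_mul_exp_neg_self ⟨n, pow_n h2⟩, mul_one]
  refine ⟨lg n v.val, ⟨h2, fun t h => (drho_eq_zero_iff _ h2 _).2 ?_, smul_mem.1 ?_⟩, h1⟩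
  · rw [h1, h3, ← act_eq_rho]
    exact ht t h
  · refine lg_mem (ord Ls).toNonUnitalSubring ?_
    rw [smul_sub]
    refine sub_mem (smul_mem.2 hL) ?_
    rw [Nat.cast_smul_eq_nsmul]
    exact nsmul_mem (ord Ls).one_mem B

end Pool.Agent.P.MP_257122_al
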