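import Pool.Agent.P.MP_257122_al.BReach
import Pool.Agent.P.MP_257122_al.BHom
import Pool.Agent.P.MP_257122_al.BUni

/-!
# Soundness of the certificate

PLAN.  Apply the last clause of `CertX` to `IsoL.tiso` and pull everything back to `ℚ`
(`nsc_cast`).  Let `β` be the unit with `β.val = grm w' w α.val`, `β.inv = grm w w' α.inv`, and
`η = β⁻¹`.  `ys` = the first halves `⟨σ, r, q.2.1⟩` of `E` and of all packets, `es = epsL Y ld`,
`Y l = ofT (E.2.1.1 l)`, `M = N`, the `p`-adic constant is `N ^ 2`, `K = κ N ^ 4`, the size is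
`s₁ = s + 1 + s ^ 5 + s ^ 3`, `Δ` from `exists_dl` for the first side.
`Ends`: `ZM m α` by `zm_of_full`, the entries of `β` are entries of `α` or `0`; the conditions at
`η` are those of the second halves at `1` (`PkT`, `rho_mulVec`, `rho_one`); `PGood` by
`LocC.norm_le` and `eps_good` (`β Y l = Y' l β` by `ofT_rho`; the elements of `al` are killed
between idempotents, so are `α β⁻¹ - 1` and `β α⁻¹ - 1` by `InAl`).
`Near → Δ` for `δ = c b⁻¹`: `δ` fixes the first families, hence the first tensors (`UCov`, `USp`)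
and commutes with `Y l`; `e (δ - 1) = e (δ - 1) e = (e c) (b⁻¹ e - c⁻¹ e)` has norm at most
`‖K‖ / ‖N ^ 2‖` (ultrametric inequality), the same for `δ⁻¹`; `dl_crit`.
`chain_short` gives `β₁`; put `δ = η β₁⁻¹`, `β₀ = β₁⁻¹`, `v = α η = α δ β₁`.  `β₁ = δ⁻¹ η` intertwines
`Y'` with `Y`, so `hom_ht` and `IsoL.mul_dl` give `B! N ^ 4 • v x ∈ L.2`; `v - 1` is raising (`InAl`),
`v` fixes the second tensors; `uni_log`, `XiP.of_dvd`.  Take
`C s = C₁ s₁ ! * s ! * (C₁ s₁ ! * (s !) ^ 4) ^ s` or similar.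
-/

namespace Pool.Agent.P.MP_257122_al

open Matrix

namespace BSndAux

variable {n : ℕ}

theorem cv_rat {ι : Type} (x : ι → ℚ) : castV ℚ x = x := by
  ext i
  simp [castV]

theorem pkT_cast {β β' : Mat n ℚ} {σ : List Bool} {q : Pk n σ}
    (h : PkT ℂ (castM ℂ β) (castM ℂ β') σ q) : PkT ℚ β β' σ q := by
  intro j
  have := h j
  rw [rho_castV, rho_castV] at this
  simp only [cv_rat]
  exact ⟨castV_injective ℂ this.1, castV_injective ℂ this.2⟩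

theorem inAl_cast {al : List (Mat n ℚ × Mat n ℚ)} {x : Mat n ℚ} (h : InAl ℂ al (castM ℂ x)) :
    InAl ℚ al x := by
  have e : ∀ l : List (Mat n ℚ × Mat n ℚ),
      castM ℂ (l.map fun l => mdot (castM ℚ l.2) x • castM ℚ l.1).sum =
        (l.map fun l => mdot (castM ℂ l.2) (castM ℂ x) • castM ℂ l.1).sum := by
    intro l
    induction l with
    | nil => exact castM_zero ℂ
    | cons a l ih =>
      rw [List.map_cons, List.map_cons, List.sum_cons, List.sum_cons, castM_add, ih, castM_smul,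
        mdot_cast, castM_rat, castM_rat]
  exact castM_injective ℂ (h.trans (e al).symm)

theorem inAl_ind {al : List (Mat n ℚ × Mat n ℚ)} {x : Mat n ℚ} (h : InAl ℚ al x)
    (P : Mat n ℚ → Prop) (h0 : P 0) (ha : ∀ x y, P x → P y → P (x + y))
    (hs : ∀ (q : ℚ) x, P x → P (q • x)) (hl : ∀ l ∈ al, P l.1) : P x := by
  rw [h]
  refine List.sum_induction P ha h0 fun y hy => ?_
  obtain ⟨l, hl', rfl⟩ := List.mem_map.1 hy
  rw [castM_rat, castM_rat]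
  exact hs _ _ (hl l hl')

theorem inAl_kill {F : Type} [Field F] [CharZero F] {al : List (Mat n ℚ × Mat n ℚ)} {x : Mat n ℚ}
    (h : InAl ℚ al x) {e : Mat n F} (hl : ∀ l ∈ al, e * castM F l.1 * e = 0) :
    e * castM F x * e = 0 :=
  inAl_ind h (fun x => e * castM F x * e = 0) (by rw [castM_zero]; simp)
    (fun x y hx hy => by rw [castM_add, Matrix.mul_add, Matrix.add_mul, hx, hy, add_zero])
    (fun q x hx => by rw [castM_smul, Matrix.mul_smul, Matrix.smul_mul, hx, smul_zero]) hl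

theorem inAl_rais {al : List (Mat n ℚ × Mat n ℚ)} {x : Mat n ℚ} (h : InAl ℚ al x) {w : Fin n → ℤ}
    (hl : ∀ l ∈ al, Rais w l.1) : Rais w x :=
  inAl_ind h (Rais w) (fun _ _ _ => rfl) (fun _ _ => Rais.add) (fun q _ => Rais.smul q) hl

theorem f2_left {α β : Type} {R : α → β → Prop} {l : List α} {l' : List β}
    (h : List.Forall₂ R l l') : ∀ x ∈ l, ∃ y ∈ l', R x y := by
  induction h with
  | nil => simp
  | cons h _ ih =>
    intro x hx
    rcases List.mem_cons.1 hx with rfl | hx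
    · exact ⟨_, List.mem_cons_self, h⟩
    · obtain ⟨y, hy, e⟩ := ih x hx
      exact ⟨y, List.mem_cons_of_mem _ hy, e⟩

theorem len_flat {α β : Type} (l : List α) (f : α → List β) (k : ℕ)
    (h : ∀ x ∈ l, (f x).length ≤ k) : (l.flatMap f).length ≤ l.length * k := by
  induction l with
  | nil => simp
  | cons a l ih =>
    rw [List.flatMap_cons, List.length_append, List.length_cons, Nat.succ_mul, add_comm]
    exact Nat.add_le_add (ih fun x hx => h x (List.mem_cons_of_mem _ hx))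
      (h a List.mem_cons_self)

theorem mem_epsL {r : ℕ} {Y : Fin r → Mat n ℚ} {ld : List (LD r)} {e : PMat n} :
    e ∈ epsL Y ld ↔ ∃ d ∈ ld, ∃ f ∈ d.2, ∃ a ∈ f.2, (⟨f.1, cmb (Qp f.1) a Y⟩ : PMat n) = e := by
  simp only [epsL, List.mem_flatMap, List.mem_map]

theorem cmb_comm {F : Type} [Field F] [CharZero F] {r : ℕ} {Y Y' : Fin r → Mat n ℚ} {φ : Mat n ℚ}
    (h : ∀ l, φ * Y l = Y' l * φ) (a : Fin r → F) :
    castM F φ * cmb F a Y = cmb F a Y' * castM F φ := by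
  unfold cmb
  rw [Finset.mul_sum, Finset.sum_mul]
  refine Finset.sum_congr rfl fun l _ => ?_
  rw [Matrix.mul_smul, Matrix.smul_mul, ← castM_mul, ← castM_mul, h]

theorem intw {β β' : Mat n ℚ} (h : β' * β = 1) {y y' : Tn n tE ℚ}
    (e : rho tE.get β β' *ᵥ y = y') : β * ofT y = ofT y' * β := by
  rw [← e, ofT_rho, Matrix.mul_assoc, h, Matrix.mul_one]

theorem zm_grm {m : ℕ} {x : Mat n ℚ} (h : ZM m x) (w w' : Fin n → ℤ) : ZM m (grm w' w x) := by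
  intro i j
  show (if w' i = w j then x i j else 0) ∈ Zinv m
  split_ifs
  · exact h i j
  · exact zero_mem _

theorem bd_mono {s s' : ℕ} {x : Mat n ℝ} (h : BdM s x) (e : s ≤ s') : BdM s' x :=
  fun i j => (h i j).trans (by exact_mod_cast e)

theorem bpk_mono {s s' : ℕ} {b b' : Mat n ℚ} {q : OPk n} (h : BPk s b b' q) (e : s ≤ s') :
    BPk s' b b' q :=
  fun j I => ⟨(h j I).1.trans (by exact_mod_cast e), (h j I).2.trans (by exact_mod_cast e)⟩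

theorem fpk_tr {C : ℕ} {β β' : Mat n ℚ} {g g' : Mat n ℝ} {σ : List Bool} {q : Pk n σ}
    (h : PkT ℚ β β' σ q) (hf : FPk C g g' ⟨σ, q.1, q.2.2⟩) :
    FPk C (g * castM ℝ β) (castM ℝ β' * g') ⟨σ, q.1, q.2.1⟩ := by
  have e1 : fr1 (g * castM ℝ β) (castM ℝ β' * g') ⟨σ, q.1, q.2.1⟩ = fr1 g g' ⟨σ, q.1, q.2.2⟩ := by
    funext j
    have := (h j).1
    simp only [cv_rat] at this
    show rho σ.get _ _ *ᵥ castV ℝ (q.2.1.1 j) = rho σ.get _ _ *ᵥ castV ℝ (q.2.2.1 j)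
    rw [← rho_mulVec, rho_castV, this]
  have e2 : fr2 (g * castM ℝ β) (castM ℝ β' * g') ⟨σ, q.1, q.2.1⟩ = fr2 g g' ⟨σ, q.1, q.2.2⟩ := by
    funext j
    have := (h j).2
    simp only [cv_rat] at this
    show rho (du σ.get) _ _ *ᵥ castV ℝ (q.2.1.2 j) = rho (du σ.get) _ _ *ᵥ castV ℝ (q.2.2.2 j)
    rw [← rho_mulVec, rho_castV, this]
  unfold FPk ThEq
  rw [e1, e2]
  exact hf

theorem lb_tr {M C : ℕ} {β β' : Mat n ℚ} {σ : List Bool} {q : Pk n σ}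
    (h : PkT ℚ β β' σ q) (hl : LPk M 1 1 ⟨σ, q.1, q.2.2⟩) (hb : BPk C 1 1 ⟨σ, q.1, q.2.2⟩) :
    LPk M β' β ⟨σ, q.1, q.2.1⟩ ∧ BPk C β' β ⟨σ, q.1, q.2.1⟩ := by
  have e : ∀ j, rho σ.get β β' *ᵥ q.2.1.1 j = rho σ.get (1 : Mat n ℚ) 1 *ᵥ q.2.2.1 j ∧
      rho (du σ.get) β β' *ᵥ q.2.1.2 j = rho (du σ.get) (1 : Mat n ℚ) 1 *ᵥ q.2.2.2 j := by
    intro j
    have := h j
    simp only [cv_rat] at this
    rw [rho_one, rho_one, one_mulVec, one_mulVec]
    exact this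
  refine ⟨fun j => ?_, fun j I => ?_⟩
  · have := hl j
    rw [← (e j).1, ← (e j).2] at this
    exact this
  · have := hb j I
    rw [← (e j).1, ← (e j).2] at this
    exact this

theorem fix_of {b c : GL (Fin n) ℚ} {σ : List Bool} {x : Tn n σ ℚ}
    (h : rho σ.get b.inv b.val *ᵥ x = rho σ.get c.inv c.val *ᵥ x) :
    rho σ.get (c * b⁻¹).val (c * b⁻¹).inv *ᵥ x = x := by
  show rho σ.get (c.val * b.inv) (b.val * c.inv) *ᵥ x = x
  rw [← rho_mulVec, h, rho_mulVec, c.val_inv, rho_one, one_mulVec]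

theorem close {p : Nat.Primes} {N κ : ℕ} (hN : 0 < N) {e : Mat n (Qp p)} {b c : GL (Fin n) ℚ}
    (he : e * e = e) (hc : castM (Qp p) (c * b⁻¹).val * e = e * castM (Qp p) (c * b⁻¹).val)
    (hg : PGood (N ^ 2) c.val c.inv ⟨p, e⟩)
    (hn : ∀ i j, ‖(castM (Qp p) b.inv * e - castM (Qp p) c.inv * e) i j‖ ≤
      ‖((κ * N ^ 4 : ℕ) : Qp p)‖) (i j : Fin n) :
    ‖(e * castM (Qp p) ((c * b⁻¹).val - 1 : Mat n ℚ) : Mat n (Qp p)) i j‖ ≤
      ‖((κ * N ^ 2 : ℕ) : Qp p)‖ := by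
  have e1 : (e * castM (Qp p) ((c * b⁻¹).val - 1 : Mat n ℚ) : Mat n (Qp p)) =
      e * castM (Qp p) c.val * (castM (Qp p) b.inv * e - castM (Qp p) c.inv * e) := by
    have h1 : castM (Qp p) c.val * castM (Qp p) c.inv = 1 := by
      rw [← castM_mul, c.val_inv, castM_one]
    have h2 : castM (Qp p) c.val * castM (Qp p) b.inv = castM (Qp p) (c * b⁻¹).val :=
      (castM_mul _ _ _).symm
    rw [Matrix.mul_sub, Matrix.mul_assoc, Matrix.mul_assoc, ← Matrix.mul_assoc (castM _ c.val),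
      ← Matrix.mul_assoc (castM _ c.val), h1, h2, hc, Matrix.one_mul, ← Matrix.mul_assoc, he,
      castM_sub, castM_one, Matrix.mul_sub, Matrix.mul_one]
  rw [e1, Matrix.mul_apply]
  refine IsUltrametricDist.norm_sum_le_of_forall_le_of_nonneg (norm_nonneg _) fun k _ => ?_
  have h0 : 0 < ‖((N ^ 2 : ℕ) : Qp p)‖ := norm_pos_iff.2 (Nat.cast_ne_zero.2 (by positivity))
  refine le_of_mul_le_mul_left ?_ h0
  have e2 : κ * N ^ 4 = N ^ 2 * (κ * N ^ 2) := by ring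
  have h3 := hn k j
  rw [e2, Nat.cast_mul, norm_mul] at h3
  rw [norm_mul, ← mul_assoc, ← norm_mul]
  exact (mul_le_of_le_one_left (norm_nonneg _) (hg i k).2).trans h3

theorem close2 {p : Nat.Primes} {N κ : ℕ} (hN : 0 < N) {e : Mat n (Qp p)} {b c : GL (Fin n) ℚ}
    (he : e * e = e) (hc : castM (Qp p) (c * b⁻¹).val * e = e * castM (Qp p) (c * b⁻¹).val)
    (hc' : castM (Qp p) (b * c⁻¹).val * e = e * castM (Qp p) (b * c⁻¹).val)
    (hb : PGood (N ^ 2) b.val b.inv ⟨p, e⟩) (hg : PGood (N ^ 2) c.val c.inv ⟨p, e⟩)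
    {ys : List (OPk n)} {es : List (PMat n)} (hn : Near (κ * N ^ 4) ys es b c)
    (hm : (⟨p, e⟩ : PMat n) ∈ es) (i j : Fin n) :
    ‖(e * castM (Qp p) ((c * b⁻¹).val - 1 : Mat n ℚ) : Mat n (Qp p)) i j‖ ≤
      ‖((κ * N ^ 2 : ℕ) : Qp p)‖ ∧
    ‖(e * castM (Qp p) ((c * b⁻¹).inv - 1 : Mat n ℚ) : Mat n (Qp p)) i j‖ ≤
      ‖((κ * N ^ 2 : ℕ) : Qp p)‖ := by
  have h := hn.2 _ hm
  dsimp only at h
  have h1 := close (κ := κ) hN he hc hg (fun i j => h i j) i j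
  have h2 := close (κ := κ) hN he hc' hb (fun i j => by
    have := h i j
    rw [Matrix.sub_apply, norm_sub_rev] at this
    rw [Matrix.sub_apply]
    exact this) i j
  exact ⟨h1, h2⟩

theorem pgood_one {p : Nat.Primes} {N : ℕ} {e : Mat n (Qp p)}
    (h : ∀ i j, ‖(N : Qp p) * e i j‖ ≤ 1) : PGood N 1 1 ⟨p, e⟩ := by
  intro i j
  dsimp only
  rw [castM_one, Matrix.one_mul, Matrix.mul_one]
  exact ⟨h i j, h i j⟩

theorem cs_c {C : ℕ → ℕ} (h : CS C) : CS (fun s : ℕ => (C (s + 1 + s ^ 5 + s ^ 3)).factorial *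
    (s.factorial * ((C (s + 1 + s ^ 5 + s ^ 3)).factorial * s.factorial ^ 4) ^ s)) := by
  have p : ∀ {f g : ℕ → ℕ}, CS f → CS g → CS (fun s => f s ^ g s) :=
    fun hf hg => CS.pow MulF.nat OneF.nat hf hg
  have k : ∀ k : ℕ, CS (fun _ : ℕ => k) := fun k => CS.constC ⟨k, rfl⟩
  have h1 := CS.factorial (h.comp (CS.add AddF.nat (CS.add AddF.nat
    (CS.add AddF.nat CS.id (k 1)) (p CS.id (k 5))) (p CS.id (k 3))))
  exact CS.mul MulF.nat h1 (CS.mul MulF.nat (CS.factorial CS.id)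
    (p (CS.mul MulF.nat h1 (p (CS.factorial CS.id) (k 4))) CS.id))

end BSndAux

open BSndAux

theorem nsc_cast {n : ℕ} {us : List (TPair n)} {w w' : Fin n → ℤ} {pks : List (UPk n)}
    {E : Pk n tE} {al : List (Mat n ℚ × Mat n ℚ)} {α α' : Mat n ℚ}
    (h : NSC ℂ us w w' pks E al (castM ℂ α) (castM ℂ α')) : NSC ℚ us w w' pks E al α α' := by
  unfold NSC at h ⊢
  rw [← castM_grm, ← castM_grm, ← castM_mul, ← castM_mul, ← castM_one ℂ, ← castM_sub,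
    ← castM_sub] at h
  obtain ⟨h1, h2, h3, h4, h5⟩ := h
  obtain ⟨k1, k2, k3⟩ := (tiso_cast_iff ℂ).1 h1
  exact ⟨⟨k1, k2, fun t ht => by rw [cv_rat, cv_rat]; exact k3 t ht⟩, pkT_cast h2,
    fun q hq => pkT_cast (h3 q hq), inAl_cast h4, inAl_cast h5⟩

theorem snd : ∃ C : ℕ → ℕ, CS C ∧ (∀ s, 0 < C s) ∧
    ∀ (a : BTIn) (c : CD a.1), BTok a → BCert a c → ∀ α, IsoL a.2.1 a.2.2.1 α →
      ∃ (δ β : GL (Fin a.1) ℚ) (ξ : Mat a.1 ℚ),
        DlP (ts1 a.2.1) (a.2.2.1.map Prod.fst) a.2.2.2 δ ∧ HtG (C c.1.1) β ∧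
          XiP a.2.1 a.2.2.1 c.2.1.2 (C c.1.1) ξ ∧
          (α * δ).val = IsNilpotent.exp ξ * β.val := by
  obtain ⟨C, hC, chain⟩ := chain_short
  refine ⟨_, cs_c hC, fun s => by positivity, ?_⟩
  rintro ⟨n, us, Ls, κ⟩ ⟨⟨s, m, N⟩, ⟨w, w'⟩, pks, g, al, E, ld⟩ ⟨hκ, -, L₀, hL₀, f1, f2⟩
    ⟨⟨hn, hm, hms, hκm, hN, hNs, hpl, hll⟩, ⟨hcov, hpk, hE⟩, ⟨i1, i2, b1, b1', b2, b2'⟩, hal, hlat,
      hns⟩ α hα
  dsimp only at *
  obtain ⟨⟨t1, t2, t3⟩, pE, pP, a1, a2⟩ := nsc_cast (hns _ _ hα.tiso)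
  simp only [cv_rat] at t3
  set Y : Fin E.1 → Mat n ℚ := fun l => ofT (E.2.1.1 l) with hY
  set Y' : Fin E.1 → Mat n ℚ := fun l => ofT (E.2.2.1 l) with hY'
  let β : GL (Fin n) ℚ := ⟨grm w' w α.val, grm w w' α.inv, t1, t2⟩
  have hβY : ∀ l, β.val * Y l = Y' l * β.val := fun l =>
    intw t2 (by simpa only [cv_rat] using (pE l).1)
  have hom : ∀ L ∈ Ls, α.val ∈ HomS L.1 L.2 ∧ α.inv ∈ HomS L.2 L.1 :=
    fun L hL => lmap_eq_iff.1 (hα.2 L hL)
  obtain ⟨d₀, -, hd₀, hd₀', -⟩ := f2_left hlat L₀ hL₀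
  have zβ : ZM m β.val := zm_grm (zm_of_full hd₀.1 hd₀'.1 f1 (hom L₀ hL₀).1) _ _
  have zβ' : ZM m β.inv := zm_grm (zm_of_full hd₀'.1 hd₀.1 f2 (hom L₀ hL₀).2) _ _
  have hs1 : 1 ≤ s := hN.trans_le hNs
  have hs : s ≤ s + 1 + s ^ 5 + s ^ 3 := by omega
  have hys : ∀ q ∈ (⟨tE, E.1, E.2.1⟩ :: pks.map fun q => ⟨q.1, q.2.2.1, q.2.2.2.1⟩ : List (OPk n)),
      ∃ σ, ∃ k : Pk n σ, q = ⟨σ, k.1, k.2.1⟩ ∧ PkC s N g σ k ∧ PkT ℚ β.val β.inv σ k := by
    intro q hq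
    rcases List.mem_cons.1 hq with rfl | hq
    · exact ⟨tE, E, rfl, hE, pE⟩
    · obtain ⟨q', hq', rfl⟩ := List.mem_map.1 hq
      exact ⟨q'.1, q'.2.2, rfl, (hpk q' hq').2, pP q' hq'⟩
  have z1 : ZM m (1 : Mat n ℚ) := intM_one.zm m
  have hE1 : Ends (s + 1 + s ^ 5 + s ^ 3) m N (N ^ 2)
      (⟨tE, E.1, E.2.1⟩ :: pks.map fun q => ⟨q.1, q.2.2.1, q.2.2.2.1⟩) (epsL Y ld)
      g.1.1 g.1.2 g.2.1 g.2.2 β⁻¹ := by
    refine ⟨hn.trans hs, hm, hms.trans hs, hN, hNs.trans hs, i1, i2, bd_mono b1 hs, bd_mono b1' hs,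
      bd_mono b2 hs, bd_mono b2' hs, fun q hq => ?_, ⟨z1, z1, fun q hq => ?_, fun e he => ?_⟩,
      zβ', zβ, fun q hq => ?_, fun e he => ?_⟩
    · obtain ⟨σ, k, rfl, ⟨c1, c2, c3, c4, c5⟩, ht⟩ := hys q hq
      exact ⟨c1.trans hs, c2.trans hs, c3, BReachAux.fpk_mono c4.2.2 hs,
        BReachAux.fpk_mono (fpk_tr ht c5.2.2) hs⟩
    · obtain ⟨σ, k, rfl, ⟨c1, c2, c3, c4, c5⟩, ht⟩ := hys q hq
      exact ⟨c4.1, bpk_mono c4.2.1 hs⟩
    · obtain ⟨d, hd, f, hf, a, ha, rfl⟩ := mem_epsL.1 he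
      obtain ⟨L, -, hL⟩ := f2_left hlat.flip d hd
      exact pgood_one ((hL.1.2.1 f hf).norm_le (List.mem_map_of_mem ha))
    · obtain ⟨σ, k, rfl, ⟨c1, c2, c3, c4, c5⟩, ht⟩ := hys q hq
      exact (lb_tr ht c5.1 c5.2.1).imp id fun h => bpk_mono h hs
    · obtain ⟨d, hd, f, hf, a, ha, rfl⟩ := mem_epsL.1 he
      obtain ⟨L, hL', hL⟩ := f2_left hlat.flip d hd
      have hk := (hL.2.2.2 f hf).2 a ha
      exact eps_good (hL.1.2.1 f hf) (hL.2.1.2.1 f hf) (List.mem_map_of_mem ha)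
        (List.mem_map_of_mem ha) (hom L hL').1 (hom L hL').2 t1 (cmb_comm hβY a)
        (inAl_kill a1 hk) (inAl_kill a2 hk)
  obtain ⟨Δ, hΔ⟩ := exists_dl (ts1 us ++ List.ofFn fun l => ⟨tE, E.2.1.1 l⟩) (Ls.map Prod.fst) κ
  have hκs : κ ≤ s := (Nat.le_of_dvd hm hκm).trans hms
  obtain ⟨β₁, hβ₁, hδ⟩ := chain _ n m N (N ^ 2) (κ * N ^ 4) _ _ _ _ _ _ _ Δ hE1 (by positivity)
    (by
      have : N ^ 2 ≤ s ^ 3 := (Nat.pow_le_pow_left hNs 2).trans (Nat.pow_le_pow_right hs1 (by omega))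
      omega)
    (by positivity)
    (by
      have : κ * N ^ 4 ≤ s ^ 5 := by
        rw [pow_succ' s 4]
        exact Nat.mul_le_mul hκs (Nat.pow_le_pow_left hNs 4)
      omega)
    (by rw [List.length_cons, List.length_map]; omega)
    (by
      have : (epsL Y ld).length ≤ ld.length * (s * s) := by
        refine len_flat _ _ _ fun d hd => ?_
        obtain ⟨L, -, hL⟩ := f2_left hlat.flip d hd
        refine (len_flat _ _ s fun f hf => ?_).trans (Nat.mul_le_mul_right _ hL.2.2.1)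
        rw [List.length_map]
        exact (hL.2.2.2 f hf).1
      have h2 : ld.length * (s * s) ≤ s ^ 3 := by
        rw [show s ^ 3 = s * (s * s) by ring]
        exact Nat.mul_le_mul_right _ hll
      omega)
    (by
      intro b c zb zb' zc zc' hg hnear
      have hfE := fun l => fix_of (hnear.1 _ List.mem_cons_self l)
      have hcY : ∀ l, (c * b⁻¹).val * Y l = Y l * (c * b⁻¹).val :=
        fun l => intw (c * b⁻¹).inv_val (hfE l)
      have hcY' : ∀ l, (b * c⁻¹).val * Y l = Y l * (b * c⁻¹).val :=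
        fun l => intw (b * c⁻¹).inv_val (fix_of (hnear.1 _ List.mem_cons_self l).symm)
      refine (hΔ _).2 ⟨fun t ht => ?_, fun Λ hΛ => ?_⟩
      · rcases List.mem_append.1 ht with ht | ht
        · obtain ⟨t', ht', rfl⟩ := List.mem_map.1 ht
          obtain ⟨q, hq, rfl⟩ := List.mem_map.1 (hcov t' ht')
          show rho q.1.get _ _ *ᵥ q.2.1.1 = q.2.1.1
          have e := (hpk q hq).1
          unfold USp at e
          conv_lhs => rw [e]
          conv_rhs => rw [e]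
          rw [mulVec_sum]
          refine Finset.sum_congr rfl fun j _ => ?_
          rw [mulVec_smul, fix_of (hnear.1 _ (List.mem_cons_of_mem _ (List.mem_map_of_mem hq)) j)]
        · obtain ⟨l, rfl⟩ := List.mem_ofFn.1 ht
          exact hfE l
      · obtain ⟨L, hL, rfl⟩ := List.mem_map.1 hΛ
        obtain ⟨d, hd, hc⟩ := f2_left hlat L hL
        refine dl_crit hm hN hκm hc.1 (zc.mul zb') (zb.mul zc') hcY fun f hf a ha i j => ?_
        have he : (⟨f.1, cmb (Qp f.1) a Y⟩ : PMat n) ∈ epsL Y ld :=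
          mem_epsL.2 ⟨d, hd, f, hf, a, ha, rfl⟩
        have hi := ((hc.1.2.1 f hf).1 _ (List.mem_map_of_mem ha)).1
        exact close2 hN hi (cmb_comm hcY a) (cmb_comm hcY' a) (hg _ he).1 (hg _ he).2 hnear he i j)
  have hδ' := (hΔ _).1 hδ
  have hD : DlP (ts1 us) (Ls.map Prod.fst) κ (β⁻¹ * β₁⁻¹) :=
    ⟨fun t ht => hδ'.1 t (List.mem_append_left _ ht), hδ'.2⟩
  have e1 : β₁ = (β⁻¹ * β₁⁻¹)⁻¹ * β⁻¹ := by group
  have hi := (hΔ _).1 (Δ.inv_mem hδ)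
  have z2 : ZM m β₁.val := by
    rw [e1]
    exact (zm_of_full hd₀.1 hd₀.1 f1
      (lmap_eq_iff.1 (hi.2 _ (List.mem_map_of_mem hL₀)).1).1).mul zβ'
  have hY1 : ∀ l, β₁.val * Y' l = Y l * β₁.val := by
    intro l
    have h1 : (β⁻¹ * β₁⁻¹)⁻¹.val * Y l = Y l * (β⁻¹ * β₁⁻¹)⁻¹.val :=
      intw (Units.inv_val _) (hi.1 ⟨tE, E.2.1.1 l⟩
        (List.mem_append_right _ (List.mem_ofFn.2 ⟨l, rfl⟩)))
    have h2 : β⁻¹.val * Y' l = Y l * β⁻¹.val := by
      rw [Units.inv_mul_eq_iff_eq_mul, ← mul_assoc, hβY, Units.mul_inv_cancel_right]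
    rw [e1, Units.val_mul, mul_assoc, h2, ← mul_assoc, h1, mul_assoc]
  have hiso := hα.mul_dl hD
  obtain ⟨ξ, hξ, hexp⟩ := uni_log (us := us) (Ls := Ls) (w := w') (v := α * β⁻¹)
    (B := (C (s + 1 + s ^ 5 + s ^ 3)).factorial * N ^ 4) (inAl_rais a1 hal)
    (fun t ht => by
      show rho t.1.get (α.val * β.inv) (β.val * α.inv) *ᵥ t.2.2 = t.2.2
      have h1 : rho t.1.get β.val β.inv *ᵥ t.2.1 = t.2.2 := t3 t ht
      have h2 : rho t.1.get α.val α.inv *ᵥ t.2.1 = t.2.2 := hα.1 t ht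
      conv_lhs => rw [← h1]
      rw [rho_mulVec, Matrix.mul_assoc, ← Matrix.mul_assoc β.inv β.val α.inv, β.inv_val,
        Matrix.mul_one, Matrix.one_mul, h2])
    (fun L hL x hx => by
      obtain ⟨d, -, hc⟩ := f2_left hlat L hL
      have h1 := (lmap_eq_iff.1 (hiso.2 L hL)).1 _ (hom_ht hm hN hc.2.1 hc.1 z2 hβ₁.1 hY1 x hx)
      rw [mulVec_smul, mulVec_mulVec, ← Units.val_mul,
        show α * (β⁻¹ * β₁⁻¹) * β₁ = α * β⁻¹ by group] at h1
      exact h1)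
  refine ⟨β⁻¹ * β₁⁻¹, β₁⁻¹, ξ, hD, hβ₁.inv.mono ?_, hξ.of_dvd ?_, ?_⟩
  · exact (Nat.self_le_factorial _).trans (Nat.le_mul_of_pos_right _ (by positivity))
  · refine Dvd.dvd.mul_left (mul_dvd_mul (Nat.factorial_dvd_factorial hn) ?_) _
    exact (pow_dvd_pow_of_dvd (mul_dvd_mul_left _
      (pow_dvd_pow_of_dvd (Nat.dvd_factorial hN hNs) 4)) n).trans (pow_dvd_pow _ hn)
  · rw [hexp, ← Units.val_mul, mul_assoc]

end Pool.Agent.P.MP_257122_al
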