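import Pool.Agent.P.MP_257122_al.BRho

/-!
# Singular values; functions of a diagonal matrix; geodesics of frames

PLAN.  `svd`: spectral theorem for `yᴴ y` (`Matrix.IsHermitian.spectral_theorem`), `d` the square
roots of the eigenvalues, `k₁ = y k₀ᴴ d⁻¹`.  `diag_stable`: `U` is stable under polynomials in
the diagonal matrix; interpolate (`Lagrange.interpolate` on the image of `μ`).
`theta_geo`: with `λ I` the positive diagonal entry of `rho s d d⁻¹`, the hypotheses give that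
`U'` is stable under multiplication by `λ ^ 2`, hence (`diag_stable`) by `λ ^ (2 t)`.
-/

namespace Pool.Agent.P.MP_257122_al

open Matrix

variable {𝕜 ι J : Type} [RCLike 𝕜] [Fintype ι] [DecidableEq ι]

open scoped ComplexOrder in
theorem svd {y y' : Matrix ι ι 𝕜} (h : y * y' = 1) :
    ∃ (k₀ k₁ : Matrix ι ι 𝕜) (d : ι → ℝ), k₀ᴴ * k₀ = 1 ∧ k₁ᴴ * k₁ = 1 ∧ (∀ i, 0 < d i) ∧
      y = k₁ * diagonal (fun i => ((d i : ℝ) : 𝕜)) * k₀ := by
  have hp : (yᴴ * y).PosDef := PosDef.conjTranspose_mul_self y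
    (mulVec_injective_of_isUnit (IsUnit.of_mul_eq_one y' h))
  have hs := hp.1.spectral_theorem
  have hv := hp.eigenvalues_pos
  rw [Unitary.conjStarAlgAut_apply] at hs
  obtain ⟨u, hu⟩ : ∃ u, u = hp.1.eigenvectorUnitary := ⟨_, rfl⟩
  obtain ⟨e, he⟩ : ∃ e, e = hp.1.eigenvalues := ⟨_, rfl⟩
  rw [← hu, ← he] at hs
  rw [← he] at hv
  have u1 : (u : Matrix ι ι 𝕜)ᴴ * u = 1 := u.2.1
  have u2 : (u : Matrix ι ι 𝕜) * (u : Matrix ι ι 𝕜)ᴴ = 1 := u.2.2
  have hd : ∀ i, ((√(e i) : ℝ) : 𝕜) ≠ 0 := fun i =>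
    RCLike.ofReal_ne_zero.2 (Real.sqrt_pos.2 (hv i)).ne'
  refine ⟨(u : Matrix ι ι 𝕜)ᴴ, y * u * diagonal fun i => ((√(e i) : ℝ) : 𝕜)⁻¹, fun i => √(e i),
    by rw [conjTranspose_conjTranspose, u2], ?_, fun i => Real.sqrt_pos.2 (hv i), ?_⟩
  · rw [conjTranspose_mul, conjTranspose_mul, mul_assoc, mul_assoc, mul_assoc y, ← mul_assoc yᴴ, hs,
      star_eq_conjTranspose, mul_assoc _ _ (u.1 * _), ← mul_assoc _ u.1, u1, one_mul, mul_assoc u.1,
      ← mul_assoc _ u.1, u1, one_mul, diagonal_conjTranspose, diagonal_mul_diagonal,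
      diagonal_mul_diagonal, ← diagonal_one]
    refine congrArg _ (funext fun i => ?_)
    have := hd i
    simp only [Pi.star_apply, Function.comp_apply, star_inv₀, RCLike.star_def, RCLike.conj_ofReal]
    field_simp
    rw [← RCLike.ofReal_pow, Real.sq_sqrt (hv i).le]
  · rw [mul_assoc (y * u.1), diagonal_mul_diagonal, show (fun i => ((√(e i) : ℝ) : 𝕜)⁻¹ *
      ((√(e i) : ℝ) : 𝕜)) = fun _ => 1 from funext fun i => inv_mul_cancel₀ (hd i), diagonal_one,
      mul_one, mul_assoc, u2, mul_one]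

theorem diag_stable {F : Type} [Field F] [Fintype J] (U : Submodule F (J → F)) (μ : J → F)
    (h : ∀ v ∈ U, (fun i => μ i * v i) ∈ U) (φ : F → F) :
    ∀ v ∈ U, (fun i => φ (μ i) * v i) ∈ U := by
  classical
  have k : ∀ p : Polynomial F, ∀ v ∈ U, (fun i => p.eval (μ i) * v i) ∈ U := fun p => by
    induction p using Polynomial.induction_on with
    | C a => exact fun v hv => by simpa [Pi.smul_def] using U.smul_mem a hv
    | add p q hp hq => exact fun v hv => by simpa [add_mul, Pi.add_def] using U.add_mem (hp v hv) (hq v hv)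
    | monomial n a ih =>
      exact fun v hv => by simpa [pow_succ, mul_assoc] using ih _ (h v hv)
  intro v hv
  have := k (Lagrange.interpolate (Finset.univ.image μ) id φ) v hv
  refine Eq.subst (motive := (· ∈ U)) (funext fun i => ?_) this
  exact congrArg (· * v i) (Lagrange.eval_interpolate_at_node (v := id) φ
    (Function.injective_id.injOn) (Finset.mem_image_of_mem μ (Finset.mem_univ i)))

/-- Unitary matrices act in the same way on conjugate arrays of the dual type. -/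
theorem star_rho_unitary {κ : Type} [Fintype κ] [DecidableEq κ] (s : κ → Bool)
    (k : Matrix ι ι 𝕜) (w : (κ → ι) → 𝕜) :
    star (rho s k kᴴ *ᵥ w) = rho (du s) k kᴴ *ᵥ star w := by
  funext I
  simp only [Pi.star_apply, mulVec, dotProduct, star_sum, star_mul', rho, of_apply, star_prod]
  refine Finset.sum_congr rfl fun J _ => congrArg (· * _) (Finset.prod_congr rfl fun i _ => ?_)
  cases h : s i <;> simp [du, h]

/-- Stability under conjugation at both ends of a geodesic gives stability along it. -/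
theorem theta_geo {κ : Type} [Fintype κ] [DecidableEq κ] (s : κ → Bool)
    (U U' : Submodule 𝕜 ((κ → ι) → 𝕜)) (d : ι → ℝ) (hd : ∀ i, 0 < d i)
    (h0 : ∀ w ∈ U, star w ∈ U') (h0' : ∀ w ∈ U', star w ∈ U)
    (h1 : ∀ w ∈ U, ∃ w' ∈ U',
      star (rho s (diagonal fun i => ((d i : ℝ) : 𝕜)) (diagonal fun i => (((d i)⁻¹ : ℝ) : 𝕜)) *ᵥ w) =
        rho (du s) (diagonal fun i => ((d i : ℝ) : 𝕜)) (diagonal fun i => (((d i)⁻¹ : ℝ) : 𝕜)) *ᵥ w')
    (t : ℝ) : ∀ w ∈ U, ∃ w' ∈ U',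
      star (rho s (diagonal fun i => ((d i ^ t : ℝ) : 𝕜))
          (diagonal fun i => (((d i ^ t)⁻¹ : ℝ) : 𝕜)) *ᵥ w) =
        rho (du s) (diagonal fun i => ((d i ^ t : ℝ) : 𝕜))
          (diagonal fun i => (((d i ^ t)⁻¹ : ℝ) : 𝕜)) *ᵥ w' := by
  obtain ⟨l, hl⟩ : ∃ l : (κ → ι) → ℝ, l = fun I =>
    ∏ i, if s i = true then d (I i) else (d (I i))⁻¹ := ⟨_, rfl⟩
  have p : ∀ (I : κ → ι) i, 0 < if s i = true then d (I i) else (d (I i))⁻¹ := fun I i => by
    split_ifs
    exacts [hd _, inv_pos.2 (hd _)]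
  have p' : ∀ I, 0 < l I := fun I => hl ▸ Finset.prod_pos fun i _ => p I i
  have e1 : ∀ u : ℝ, rho s (diagonal fun i => ((d i ^ u : ℝ) : 𝕜))
      (diagonal fun i => (((d i ^ u)⁻¹ : ℝ) : 𝕜)) = diagonal fun I => ((l I ^ u : ℝ) : 𝕜) := fun u => by
    rw [rho_diagonal, hl]
    refine congrArg _ (funext fun I => ?_)
    rw [← Real.finsetProd_rpow _ _ fun i _ => (p I i).le, RCLike.ofReal_prod]
    refine Finset.prod_congr rfl fun i _ => ?_
    split_ifs
    exacts [rfl, by rw [Real.inv_rpow (hd _).le]]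
  have e2 : ∀ u : ℝ, rho (du s) (diagonal fun i => ((d i ^ u : ℝ) : 𝕜))
      (diagonal fun i => (((d i ^ u)⁻¹ : ℝ) : 𝕜)) =
      diagonal fun I => ((l I ^ u : ℝ) : 𝕜)⁻¹ := fun u => by
    rw [rho_diagonal, hl]
    refine congrArg _ (funext fun I => ?_)
    rw [← Real.finsetProd_rpow _ _ fun i _ => (p I i).le, RCLike.ofReal_prod,
      ← Finset.prod_inv_distrib]
    refine Finset.prod_congr rfl fun i _ => ?_
    cases h : s i <;> simp [du, h, Real.inv_rpow (hd _).le]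
  have p2 : ∀ (u : ℝ) I, ((l I ^ u : ℝ) : 𝕜) ≠ 0 := fun u I =>
    RCLike.ofReal_ne_zero.2 (Real.rpow_pos_of_pos (p' I) u).ne'
  have a1 : ∀ v ∈ U', (fun I => ((l I ^ 2 : ℝ) : 𝕜) * v I) ∈ U' := fun v hv => by
    obtain ⟨w, w1, w2⟩ := h1 _ (h0' v hv)
    have b1 := e1 1
    have b2 := e2 1
    simp only [Real.rpow_one] at b1 b2
    rw [b1, b2] at w2
    refine Eq.subst (motive := (· ∈ U')) (funext fun I => ?_) w1
    have b3 := congrFun w2 I
    have b4 := p2 1 I
    simp only [Pi.star_apply, mulVec_diagonal, star_mul', star_star, RCLike.star_def,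
      RCLike.conj_ofReal, Real.rpow_one, RCLike.conj_conj] at b3 b4
    rw [RCLike.ofReal_pow, sq, mul_assoc, b3, mul_inv_cancel_left₀ b4]
  intro w hw
  refine ⟨_, diag_stable U' _ a1 (fun z => ((RCLike.re z ^ t : ℝ) : 𝕜)) _ (h0 w hw), ?_⟩
  rw [e1, e2]
  funext I
  simp only [Pi.star_apply, mulVec_diagonal, star_mul', RCLike.star_def, RCLike.conj_ofReal,
    RCLike.ofReal_re]
  rw [sq, Real.mul_rpow (p' I).le (p' I).le, RCLike.ofReal_mul, mul_assoc,
    inv_mul_cancel_left₀ (p2 t I)]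

end Pool.Agent.P.MP_257122_al
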