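import Pool.Agent.P.MP_257122_al.BDefs
import Pool.Agent.P.MP_257122_al.LOps
import Pool.Agent.P.MP_257122_al.LNS
import Pool.Agent.P.MP_257122_al.FGrp
import Pool.Agent.P.MP_257122_al.BExtC

/-!
# The arithmetic core

A finite list of representatives of the isomorphisms modulo congruence can be computed.
-/

namespace Pool.Agent.P.MP_257122_al

theorem bt : MV (fun (a : {a : BTIn // BTok a}) (R : List (GL (Fin a.1.1) ℚ)) => BTCover a.1 R) :=
  bt_main

end Pool.Agent.P.MP_257122_al
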