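import Pool.Agent.P.MP_257122_al.CDefs

/-!
# Described groups of unipotent matrices: auxiliary definitions
-/

namespace Pool.Agent.P.MP_257122_al.C

open scoped commutatorElement

/-- The subgroup generated by the `k`-th powers. -/
def pw {G : Type} [Group G] (k : ℕ) (Y : Subgroup G) : Subgroup G :=
  Subgroup.closure {g | ∃ y ∈ Y, y ^ k = g}

/-- `R` is a normal subgroup of `Y`. -/
def NIn {G : Type} [Group G] (R Y : Subgroup G) : Prop :=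
  R ≤ Y ∧ ∀ g ∈ Y, ∀ r ∈ R, g * r * g⁻¹ ∈ R

/-- The elements whose `N`-fold multiple lies in `J`. -/
def dv {V : Type} [AddCommGroup V] (N : ℕ) (J : AddSubgroup V) : AddSubgroup V :=
  J.comap (nsmulAddMonoidHom N)

theorem mem_dv {V : Type} [AddCommGroup V] {N : ℕ} {J : AddSubgroup V} {x : V} :
    x ∈ dv N J ↔ N • x ∈ J := Iff.rfl

/-- Conjugation as a linear map. -/
noncomputable def adL {n : ℕ} (g : GL (Fin n) ℚ) :
    Matrix (Fin n) (Fin n) ℚ →ₗ[ℚ] Matrix (Fin n) (Fin n) ℚ :=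
  LinearMap.mulRight ℚ (g⁻¹).val ∘ₗ LinearMap.mulLeft ℚ g.val

theorem adL_apply {n : ℕ} (g : GL (Fin n) ℚ) (x : Matrix (Fin n) (Fin n) ℚ) :
    adL g x = g.val * x * (g⁻¹).val := rfl

/-- The commutator bracket as a bilinear map. -/
noncomputable def brL (n : ℕ) : Matrix (Fin n) (Fin n) ℚ →ₗ[ℚ] Matrix (Fin n) (Fin n) ℚ →ₗ[ℚ]
    Matrix (Fin n) (Fin n) ℚ :=
  LinearMap.mul ℚ _ - (LinearMap.mul ℚ _).flip

theorem brL_apply {n : ℕ} (x y : Matrix (Fin n) (Fin n) ℚ) : brL n x y = x * y - y * x := rfl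

/-- Consequences of the fact that logarithms of products of powers are polynomials in the
exponent. -/
structure PL (c D : ℕ) : Prop where
  pos : 0 < D
  lin : ∀ {n : ℕ} {wt : Fin n → ℕ}, (∀ i, wt i < c) → ∀ {a b : GL (Fin n) ℚ}, IsUni wt a →
    IsUni wt b → ∀ {M : AddSubgroup (Matrix (Fin n) (Fin n) ℚ)} {z : Matrix (Fin n) (Fin n) ℚ},
    (∀ k : ℕ, lg c (a ^ k * b ^ k).val - k • z ∈ M) → D • (lg c a.val + lg c b.val - z) ∈ M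
  dvd : ∀ {n : ℕ} {wt : Fin n → ℕ}, (∀ i, wt i < c) → ∀ {g a b : GL (Fin n) ℚ}, IsUni wt g →
    IsUni wt a → IsUni wt b →
    ∀ {M : AddSubgroup (Matrix (Fin n) (Fin n) ℚ)} {z : Matrix (Fin n) (Fin n) ℚ},
    (∀ k : ℕ, lg c (g * a ^ k * b ^ k).val - lg c g.val - k • z ∈ M) → ∀ k : ℕ, ∃ v ∈ M,
      lg c (g * a ^ (D * k) * b ^ (D * k)).val - lg c g.val - (D * k) • z = k • v
  br : ∀ {n : ℕ} {wt : Fin n → ℕ}, (∀ i, wt i < c) → ∀ {a : GL (Fin n) ℚ}, IsUni wt a →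
    ∀ {M : AddSubgroup (Matrix (Fin n) (Fin n) ℚ)} {y : Matrix (Fin n) (Fin n) ℚ},
    (∀ k : ℕ, adL (a ^ k) y - y ∈ M) → D • brL n (lg c a.val) y ∈ M
  ad : ∀ {n : ℕ} {wt : Fin n → ℕ}, (∀ i, wt i < c) → ∀ {a : GL (Fin n) ℚ}, IsUni wt a →
    ∀ {L M : AddSubgroup (Matrix (Fin n) (Fin n) ℚ)} {y : Matrix (Fin n) (Fin n) ℚ},
    (∀ k : ℕ, adL (a ^ k) y ∈ L) → (∀ v ∈ L, brL n (lg c a.val) v ∈ M) → D • (adL a y - y) ∈ M

/-- An explicit constant for `PL`. -/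
def dn (c : ℕ) : ℕ := ((2 ^ (2 * c * c + 2)).factorial) ^ (2 * c * c + 3)

/-- The facts on logarithms of unipotent groups used by the algorithms. -/
structure Cst (c D : ℕ) : Prop extends PL c D where
  kap : ∀ {n : ℕ} {wt : Fin n → ℕ}, (∀ i, wt i < c) → ∀ {Y : Subgroup (GL (Fin n) ℚ)},
    (∀ y ∈ Y, IsUni wt y) → ∀ k : ℕ, ∀ y ∈ Y, ∀ x ∈ logSpan c Y,
    ∃ e ∈ pw k Y, lg c (y * e).val = lg c y.val + (D * k) • x
  shift : ∀ {n : ℕ} {wt : Fin n → ℕ}, (∀ i, wt i < c) → ∀ {Y : Subgroup (GL (Fin n) ℚ)},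
    (∀ y ∈ Y, IsUni wt y) → ∀ k : ℕ, ∀ y ∈ Y, ∀ e ∈ pw (D * k) Y,
    ∃ v ∈ logSpan c Y, lg c (y * e).val = lg c y.val + k • v
  up : ∀ {n : ℕ} {wt : Fin n → ℕ}, (∀ i, wt i < c) → ∀ {Y : Subgroup (GL (Fin n) ℚ)},
    (∀ y ∈ Y, IsUni wt y) → ∀ {G : Set (GL (Fin n) ℚ)}, NIn (Subgroup.closure G) Y →
    ∀ {M : AddSubgroup (Matrix (Fin n) (Fin n) ℚ)}, (∀ y ∈ Y, ∀ x ∈ M, adL y x ∈ M) →
    (∀ r ∈ G, ∃ g ∈ Y, lg c (g * r).val - lg c g.val ∈ M) →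
    ∀ x ∈ logSpan c (Subgroup.closure G), D • x ∈ M
  two : ∀ {n : ℕ} {wt : Fin n → ℕ}, (∀ i, wt i < c) → ∀ {Y : Subgroup (GL (Fin n) ℚ)},
    (∀ y ∈ Y, IsUni wt y) → ∀ {a b : GL (Fin n) ℚ}, IsUni wt a → IsUni wt b →
    (∀ k : ℕ, a ^ k * b ^ k ∈ Y) → ∀ k : ℕ, a ^ (D * k) * b ^ (D * k) ∈ pw k Y

/-- An explicit constant for `Cst`. -/
def dc (c : ℕ) : ℕ := dn c ^ ((c + 1) * (c + 1) * (c + 1))

/-- The conjugations by the ambient generators and their inverses. -/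
noncomputable def adList (m : Amb) :
    List (Matrix (Fin m.1) (Fin m.1) ℚ →ₗ[ℚ] Matrix (Fin m.1) (Fin m.1) ℚ) :=
  m.2.2.2.map adL ++ m.2.2.2.map fun x => adL x⁻¹

/-- `g` lies in one of the cosets `t E`. -/
def InC {G : Type} [Group G] (T : List G) (E : Subgroup G) (g : G) : Prop :=
  ∃ t ∈ T, t⁻¹ * g ∈ E

/-- The cosets `t E` form a subgroup containing `W` and normalised by `X`. -/
def Cert {G : Type} [Group G] (X W T : List G) (E : Subgroup G) : Prop :=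
  InC T E 1 ∧ (∀ w ∈ W, InC T E w) ∧ ∀ t ∈ T, InC T E t⁻¹ ∧ (∀ t' ∈ T, InC T E (t * t')) ∧
    ∀ x ∈ X, InC T E (x * t * x⁻¹) ∧ InC T E (x⁻¹ * t * x)

end Pool.Agent.P.MP_257122_al.C
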