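import Pool.Agent.P.MP_257122_al.CSer
import Pool.Agent.P.MP_257122_al.LOps
import Pool.Agent.P.MP_257122_al.FGrp

/-!
# Described groups: the basic computable operations
-/

namespace Pool.Agent.P.MP_257122_al.C

open scoped commutatorElement

variable {A : Type} [Rep A] {n c : A → ℕ}

theorem cs_dc : CS dc := by
  have h1 : CS fun c : ℕ => 2 * c * c := CS.mul MulF.nat (CS.mul MulF.nat CS.const CS.id) CS.id
  have h2 : CS fun c : ℕ => c + 1 := CS.add AddF.nat CS.id CS.const
  exact CS.pow MulF.nat OneF.nat (CS.pow MulF.nat OneF.nat (CS.factorial (CS.pow MulF.nat OneF.nat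
    CS.const (CS.add AddF.nat h1 CS.const))) (CS.add AddF.nat h1 CS.const))
    (CS.mul MulF.nat (CS.mul MulF.nat h2 h2) h2)

theorem p1 {T : A → Type} [∀ a, Rep (T a)] : CS (fun p : Σ a, T a => p.1) := FCoreAux.sig1
theorem p2 {T : A → Type} [∀ a, Rep (T a)] : CS (fun p : Σ a, T a => p.2) := FCoreAux.sig2

theorem q0 {p : A → Prop} : CS (fun x : Subtype p => x.1) := CS.val CS.id
theorem q1 {T : A → Type} [∀ a, Rep (T a)] {Q : (Σ a, T a) → Prop} :
    CS (fun p : Subtype Q => p.1.1) := p1.comp q0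
theorem q2 {T : A → Type} [∀ a, Rep (T a)] {Q : (Σ a, T a) → Prop} :
    CS (fun p : Subtype Q => p.1.2) := p2.comp q0

theorem coordM (hn : CS n) : CoordF (fun a => Matrix (Fin (n a)) (Fin (n a)) ℚ) :=
  CoordF.matrix (CFin.fin hn) Disc.fin (CFin.fin hn) Disc.fin

theorem grpGL (hn : CS n) : GrpF (fun a => GL (Fin (n a)) ℚ) := GrpF.gl (CFin.fin hn) Disc.fin

theorem cs_lg {x : ∀ a, Matrix (Fin (n a)) (Fin (n a)) ℚ} (hn : CS n) (hc : CS c) (hx : CS x) :
    CS (fun a => lg (c a) (x a)) := by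
  have key : CS (fun u : Σ n : ℕ, ℕ × Matrix (Fin n) (Fin n) ℚ => lg u.2.1 u.2.2) := by
    unfold lg
    aesop (config := { terminal := true, enableSimp := false, maxRuleApplications := 3000, maxRuleApplicationDepth := 70, assumptionTransparency := .reducible }) (rule_sets := [-default, -builtin, Restrict]) (erase CS.mapp, CS.mlam, CS.mrow)
  exact key.comp (CS.smk0 hn (hc.pair hx))

theorem cs_adL {g : ∀ a, GL (Fin (n a)) ℚ} (hn : CS n) (hg : CS g) : CS (fun a => adL (g a)) := by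
  have key : CS (fun u : Σ n : ℕ, GL (Fin n) ℚ => adL u.2) := by
    refine CS.linIntro ?_
    simp only [adL_apply]
    aesop (config := { terminal := true, enableSimp := false, maxRuleApplications := 3000, maxRuleApplicationDepth := 70, assumptionTransparency := .reducible }) (rule_sets := [-default, -builtin, Restrict]) (erase CS.mapp, CS.mlam, CS.mrow)
  exact key.comp (CS.smk0 hn hg)

theorem cs_brL (hn : CS n) : CS (fun a => brL (n a)) := by
  have key : CS (fun n : ℕ => brL n) := by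
    refine CS.linIntro (CS.linIntro ?_)
    simp only [brL_apply]
    aesop (config := { terminal := true, enableSimp := false, maxRuleApplications := 3000, maxRuleApplicationDepth := 70, assumptionTransparency := .reducible }) (rule_sets := [-default, -builtin, Restrict]) (erase CS.mapp, CS.mlam, CS.mrow)
  exact key.comp hn

theorem cs_uni {wt : ∀ a, Fin (n a) → ℕ} {g : ∀ a, GL (Fin (n a)) ℚ} (hn : CS n) (hw : CS wt)
    (hg : CS g) : CS (fun a => IsUni (wt a) (g a)) ∧ CS (fun a => ¬IsUni (wt a) (g a)) := by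
  have key : CS (fun u : Σ n : ℕ, (Fin n → ℕ) × (Fin n → Fin n → ℚ) =>
      ∀ a b, u.2.1 a < u.2.1 b + 1 → u.2.2 a b = 0) := by
    aesop (config := { terminal := true, enableSimp := false, maxRuleApplications := 3000, maxRuleApplicationDepth := 70, assumptionTransparency := .reducible }) (rule_sets := [-default, -builtin, Restrict]) (erase CS.mapp, CS.mlam, CS.mrow)
  have key' : CS (fun u : Σ n : ℕ, (Fin n → ℕ) × (Fin n → Fin n → ℚ) =>
      ¬∀ a b, u.2.1 a < u.2.1 b + 1 → u.2.2 a b = 0) := by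
    aesop (config := { terminal := true, enableSimp := false, maxRuleApplications := 3000, maxRuleApplicationDepth := 70, assumptionTransparency := .reducible }) (rule_sets := [-default, -builtin, Restrict]) (erase CS.mapp, CS.mlam, CS.mrow)
  have hx : CS (fun a => (g a).val - 1) := CS.sub (coordM hn).add (coordM hn).neg hg.unitsVal
    (OneF.matrix Disc.fin Haus.fin ZeroF.rat OneF.rat)
  exact ⟨key.comp (CS.smk0 hn (hw.pair hx)), key'.comp (CS.smk0 hn (hw.pair hx))⟩

theorem cs_pw {k : A → ℕ} {Y : ∀ a, Subgroup (GL (Fin (n a)) ℚ)} (hn : CS n) (hk : CS k)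
    (hY : CS Y) : CS (fun a => pw (k a) (Y a)) := by
  have key : CS (fun u : Σ n : ℕ, ℕ × Subgroup (GL (Fin n) ℚ) => pw u.2.1 u.2.2) := by
    unfold pw
    aesop (config := { terminal := true, enableSimp := false, maxRuleApplications := 3000, maxRuleApplicationDepth := 70, assumptionTransparency := .reducible }) (rule_sets := [-default, -builtin, Restrict]) (erase CS.mapp, CS.mlam, CS.mrow)
  exact key.comp (CS.smk0 hn (hk.pair hY))

theorem cs_inC {T : ∀ a, List (GL (Fin (n a)) ℚ)} {E : ∀ a, Subgroup (GL (Fin (n a)) ℚ)}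
    {g : ∀ a, GL (Fin (n a)) ℚ} (hn : CS n) (hT : CS T) (hE : CS E) (hg : CS g) :
    CS (fun a => InC (T a) (E a) (g a)) := by
  have key : CS (fun u : Σ n : ℕ, List (GL (Fin n) ℚ) × Subgroup (GL (Fin n) ℚ) × GL (Fin n) ℚ =>
      InC u.2.1 u.2.2.1 u.2.2.2) := by
    unfold InC
    aesop (config := { terminal := true, enableSimp := false, maxRuleApplications := 3000, maxRuleApplicationDepth := 70, assumptionTransparency := .reducible }) (rule_sets := [-default, -builtin, Restrict]) (erase CS.mapp, CS.mlam, CS.mrow)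
  exact key.comp (CS.smk0 hn (hT.pair (hE.pair hg)))

theorem cs_cert {X W T : ∀ a, List (GL (Fin (n a)) ℚ)} {E : ∀ a, Subgroup (GL (Fin (n a)) ℚ)}
    (hn : CS n) (hX : CS X) (hW : CS W) (hT : CS T) (hE : CS E) :
    CS (fun a => Cert (X a) (W a) (T a) (E a)) := by
  have key : CS (fun u : Σ n : ℕ, List (GL (Fin n) ℚ) × List (GL (Fin n) ℚ) ×
      List (GL (Fin n) ℚ) × Subgroup (GL (Fin n) ℚ) =>
      Cert u.2.1 u.2.2.1 u.2.2.2.1 u.2.2.2.2) := by
    unfold Cert
    aesop (config := { terminal := true, enableSimp := false, maxRuleApplications := 3000, maxRuleApplicationDepth := 70, assumptionTransparency := .reducible }) (rule_sets := [-default, -builtin, Restrict]) (erase CS.mapp, CS.mlam, CS.mrow) (add safe 5 (by with_reducible apply cs_inC))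
  exact key.comp (CS.smk0 hn (hX.pair (hW.pair (hT.pair hE))))

variable {m : A → Amb}

theorem cs_n (hm : CS m) : CS (fun a => (m a).1) := hm.sfst
theorem cs_wt (hm : CS m) : CS (fun a => (m a).2.1) := hm.ssnd.fst
theorem cs_c (hm : CS m) : CS (fun a => (m a).2.2.1) := hm.ssnd.snd.fst
theorem cs_X (hm : CS m) : CS (fun a => (m a).2.2.2) := hm.ssnd.snd.snd

theorem cs_P (hm : CS m) : CS (fun a => (m a).P) := by
  have key : CS (fun m : Amb => m.P) := by
    unfold Amb.P
    aesop (config := { terminal := true, enableSimp := false, maxRuleApplications := 3000, maxRuleApplicationDepth := 70, assumptionTransparency := .reducible }) (rule_sets := [-default, -builtin, Restrict]) (erase CS.mapp, CS.mlam, CS.mrow)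
  exact key.comp hm

theorem cs_ncl {s : ∀ a, Set (GL (Fin (m a).1) ℚ)} (hm : CS m) (hs : CS s) :
    CS (fun a => (m a).ncl (s a)) := by
  have key : CS (fun u : Σ m : Amb, Set (GL (Fin m.1) ℚ) => u.1.ncl u.2) := by
    unfold Amb.ncl
    aesop (config := { terminal := true, enableSimp := false, maxRuleApplications := 3000, maxRuleApplicationDepth := 70, assumptionTransparency := .reducible }) (rule_sets := [-default, -builtin, Restrict]) (erase CS.mapp, CS.mlam, CS.mrow) (add safe 5 (by with_reducible apply cs_P))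
  exact key.comp (CS.smk0 hm hs)

theorem cs_adList (hm : CS m) : CS (fun a => adList (m a)) :=
  CS.append (CS.map (CS.lam (cs_adL ((cs_n hm).comp p1) p2)) (cs_X hm))
    (CS.map (CS.lam (cs_adL ((cs_n hm).comp p1) (CS.inv InvF.units p2))) (cs_X hm))

variable {Y Y' : ∀ a, Subgroup (GL (Fin (m a).1) ℚ)}

theorem ds_iff : DS m Y ↔ MV (fun a (d : AddSubgroup (Matrix (Fin (m a).1) (Fin (m a).1) ℚ) ×
    List (Matrix (Fin (m a).1) (Fin (m a).1) ℚ)) => Descr (m a).2.2.1 d (Y a)) :=
  ⟨fun h => FCoreAux.same (T := fun a => DG (m a)) h fun _ _ _ _ ⟨d, h1, h2⟩ => ⟨d, h2, h1⟩,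
    fun h => FCoreAux.same (U := fun a => DG (m a)) h fun _ _ _ _ ⟨d, h1, h2⟩ => ⟨d, h2, h1⟩⟩

theorem ds_comp {B : Type} [Rep B] (h : DS m Y) {g : B → A} (hg : CS g) :
    DS (fun b => m (g b)) (fun b => Y (g b)) := CS.comp (T := fun a => DG (m a)) h hg

theorem ds_log {x : ∀ a, Matrix (Fin (m a).1) (Fin (m a).1) ℚ} (hm : CS m) (h : DS m Y)
    (hx : CS x) : CS (fun a => ∃ y ∈ Y a, lg (m a).2.2.1 y.val = x a) ∧
      CS (fun a => ¬∃ y ∈ Y a, lg (m a).2.2.1 y.val = x a) := by
  have key : CS (fun u : Σ n : ℕ, Matrix (Fin n) (Fin n) ℚ ×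
      AddSubgroup (Matrix (Fin n) (Fin n) ℚ) × List (Matrix (Fin n) (Fin n) ℚ) =>
      ∃ r ∈ u.2.2.2, u.2.1 - r ∈ u.2.2.1) := by
    aesop (config := { terminal := true, enableSimp := false, maxRuleApplications := 3000, maxRuleApplicationDepth := 70, assumptionTransparency := .reducible }) (rule_sets := [-default, -builtin, Restrict]) (erase CS.mapp, CS.mlam, CS.mrow)
  have key' : CS (fun u : Σ n : ℕ, Matrix (Fin n) (Fin n) ℚ ×
      AddSubgroup (Matrix (Fin n) (Fin n) ℚ) × List (Matrix (Fin n) (Fin n) ℚ) =>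
      ¬∃ r ∈ u.2.2.2, u.2.1 - r ∈ u.2.2.1) := by
    aesop (config := { terminal := true, enableSimp := false, maxRuleApplications := 3000, maxRuleApplicationDepth := 70, assumptionTransparency := .reducible }) (rule_sets := [-default, -builtin, Restrict]) (erase CS.mapp, CS.mlam, CS.mrow)
  exact ⟨(ds_iff.1 h).elimP (key.comp (CS.smk0 ((cs_n hm).comp p1) ((hx.comp p1).pair p2)))
      fun a d _ _ hd => (hd _).symm,
    (ds_iff.1 h).elimP (key'.comp (CS.smk0 ((cs_n hm).comp p1) ((hx.comp p1).pair p2)))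
      fun a d _ _ hd => not_congr (hd _).symm⟩

theorem descr_span {n c : ℕ} {Y : Subgroup (GL (Fin n) ℚ)}
    {d : AddSubgroup (Matrix (Fin n) (Fin n) ℚ) × List (Matrix (Fin n) (Fin n) ℚ)}
    (h : Descr c d Y) : AddSubgroup.closure {x | x ∈ d.2} ⊔ d.1 = logSpan c Y := by
  have k : ∀ x, (∃ r ∈ d.2, x - r ∈ d.1) → x ∈ logSpan c Y := fun x hx =>
    AddSubgroup.subset_closure ((h x).2 hx)
  refine le_antisymm (sup_le ((AddSubgroup.closure_le _).2 fun x hx => k x ⟨x, hx, by simp⟩)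
    fun x hx => ?_) (span_le fun y hy => ?_)
  · obtain ⟨r, h1, h2⟩ := (h 0).1 ⟨1, one_mem _, lg_one⟩
    exact k x ⟨r, h1, by simpa [sub_eq_add_neg] using add_mem hx h2⟩
  · obtain ⟨r, h1, h2⟩ := (h _).1 ⟨y, hy, rfl⟩
    simpa using AddSubgroup.add_mem_sup (AddSubgroup.subset_closure (k := {x | x ∈ d.2}) h1) h2

theorem ds_span (hm : CS m) (h : DS m Y) : CS (fun a => logSpan (m a).2.2.1 (Y a)) := by
  have key : CS (fun u : Σ n : ℕ,
      AddSubgroup (Matrix (Fin n) (Fin n) ℚ) × List (Matrix (Fin n) (Fin n) ℚ) =>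
      AddSubgroup.closure {x | x ∈ u.2.2} ⊔ u.2.1) :=
    CS.addSup (coordM p1) (CS.addClosure (coordM p1) p2.snd) p2.fst
  refine MV.to_cs ((ds_iff.1 h).bind (MV.of_cs
    ((key.comp (CS.smk0 ((cs_n hm).comp p1) p2)).comp (CS.val CS.id)) fun p _ => ?_))
  exact descr_span p.2

theorem mem_iff_log {n c : ℕ} {wt : Fin n → ℕ} (hc : ∀ i, wt i < c) {Y : Subgroup (GL (Fin n) ℚ)}
    (hY : ∀ y ∈ Y, IsUni wt y) {g : GL (Fin n) ℚ} :
    (IsUni wt g ∧ ∃ y ∈ Y, lg c y.val = lg c g.val) ↔ g ∈ Y :=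
  ⟨fun ⟨h1, y, h2, h3⟩ => lg_inj hc (hY y h2) h1 h3 ▸ h2, fun h => ⟨hY g h, g, h, rfl⟩⟩

theorem ds_mem {g : ∀ a, GL (Fin (m a).1) ℚ} (hm : CS m) (hok : ∀ a, (m a).ok) (h : DS m Y)
    (hN : ∀ a, (m a).Nrm (Y a)) (hg : CS g) :
    CS (fun a => g a ∈ Y a) ∧ CS (fun a => ¬g a ∈ Y a) := by
  have h1 := cs_uni (cs_n hm) (cs_wt hm) hg
  have h2 := ds_log hm h (cs_lg (cs_n hm) (cs_c hm) hg.unitsVal)
  exact ⟨(h1.1.and h2.1).of_iff fun a _ => mem_iff_log (hok a).1 (hN a).2.1,
    (h1.2.notAnd h2.2).of_iff fun a _ => not_congr (mem_iff_log (hok a).1 (hN a).2.1)⟩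

theorem ds_re (hm : CS m) (hok : ∀ a, (m a).ok) (h : DS m Y) (hN : ∀ a, (m a).Nrm (Y a)) : CS Y :=
  CS.subgroupIntro (ds_mem (hm.comp p1) (fun _ => hok _) (ds_comp h p1) (fun _ => hN _) p2).1

end Pool.Agent.P.MP_257122_al.C
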