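import Pool.Agent.P.MP_257122_al.GDefs

/-!
# Elementary facts: finite rank, virtually abelian quotients, products of powers, compatible pairs
-/

namespace Pool.Agent.P.MP_257122_al

open scoped commutatorElement

variable {G H : Type} [Group G] [Group H]

/-- Generators of the image of a subgroup can be lifted. -/
theorem gb_lift (f : G →* H) (K : Subgroup G) (s : Finset H)
    (hs : Subgroup.closure (s : Set H) = K.map f) :
    ∃ u : Finset G, u.card ≤ s.card ∧ (∀ x ∈ u, x ∈ K) ∧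
      ∀ x ∈ K, ∃ l ∈ Subgroup.closure (u : Set G), f l = f x := by
  classical
  have h : ∀ y : s, ∃ x ∈ K, f x = y := fun y =>
    Subgroup.mem_map.1 (hs ▸ Subgroup.subset_closure y.2)
  choose g hg hg' using h
  refine ⟨Finset.univ.image g, Finset.card_image_le.trans (by simp), fun x hx => ?_, fun x hx => ?_⟩
  · obtain ⟨y, _, rfl⟩ := Finset.mem_image.1 hx
    exact hg y
  · have : Subgroup.closure (s : Set H) ≤
        (Subgroup.closure ((Finset.univ.image g : Finset G) : Set G)).map f :=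
      (Subgroup.closure_le _).2 fun y hy => ⟨g ⟨y, hy⟩, Subgroup.subset_closure
        (Finset.mem_coe.2 (Finset.mem_image_of_mem g (Finset.mem_univ _))), hg' ⟨y, hy⟩⟩
    exact this (hs ▸ Subgroup.mem_map_of_mem f hx)

theorem gb_fg_map (f : G →* H) {K : Subgroup G} (h : K.FG) : (K.map f).FG := by
  classical
  obtain ⟨s, rfl⟩ := h
  exact ⟨s.image f, by rw [Finset.coe_image, MonoidHom.map_closure]⟩

theorem FinRank.of_surjective (h : FinRank G) (f : G →* H) (hf : Function.Surjective f) :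
    FinRank H := by
  classical
  obtain ⟨r, hr⟩ := h
  refine ⟨r, fun K ⟨s, hs⟩ => ?_⟩
  obtain ⟨u, _, h1, h2⟩ := gb_lift f (K.comap f) s (by rw [Subgroup.map_comap_eq_self_of_surjective hf, hs])
  obtain ⟨t, ht, ht'⟩ := hr (Subgroup.closure (u : Set G)) ⟨u, rfl⟩
  refine ⟨t.image f, Finset.card_image_le.trans ht, ?_⟩
  rw [Finset.coe_image, ← MonoidHom.map_closure, ht']
  refine le_antisymm (Subgroup.map_le_iff_le_comap.2 ((Subgroup.closure_le _).2 h1)) fun y hy => ?_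
  obtain ⟨x, rfl⟩ := hf y
  exact h2 x hy

theorem FinRank.of_injective (h : FinRank H) (f : G →* H) (hf : Function.Injective f) :
    FinRank G := by
  obtain ⟨r, hr⟩ := h
  refine ⟨r, fun K hK => ?_⟩
  obtain ⟨s, hs, hs'⟩ := hr _ (gb_fg_map f hK)
  obtain ⟨u, h0, h1, h2⟩ := gb_lift f K s hs'
  refine ⟨u, h0.trans hs, le_antisymm ((Subgroup.closure_le _).2 h1) fun x hx => ?_⟩
  obtain ⟨l, hl, e⟩ := h2 x hx
  exact hf e ▸ hl

/-- Extensions of groups of finite rank have finite rank. -/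
theorem FinRank.extension (N : Subgroup G) [N.Normal] (h : FinRank N) (h' : FinRank (G ⧸ N)) :
    FinRank G := by
  classical
  obtain ⟨r, hr⟩ := h
  obtain ⟨r', hr'⟩ := h'
  refine ⟨r + r', fun K hK => ?_⟩
  obtain ⟨s, hs, hs'⟩ := hr' _ (gb_fg_map (QuotientGroup.mk' N) hK)
  obtain ⟨u, h0, h1, h2⟩ := gb_lift _ K s hs'
  obtain ⟨w, hw⟩ := hK
  have h3 : ∀ x : w, ∃ n : N, (n : G) ∈ K ∧ ∃ l ∈ Subgroup.closure (u : Set G), (x : G) = l * n := by
    intro x
    have hx : (x : G) ∈ K := hw ▸ Subgroup.subset_closure x.2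
    obtain ⟨l, hl, e⟩ := h2 x hx
    exact ⟨⟨l⁻¹ * x, QuotientGroup.eq.1 e⟩,
      K.mul_mem (K.inv_mem ((Subgroup.closure_le K).2 h1 hl)) hx, l, hl, by simp⟩
  choose n hn l hl e using h3
  obtain ⟨t, ht, ht'⟩ := hr (Subgroup.closure ((Finset.univ.image n : Finset N) : Set N)) ⟨_, rfl⟩
  have h4 : Subgroup.closure (t : Set N) ≤ K.comap N.subtype := by
    rw [ht']
    refine (Subgroup.closure_le _).2 fun y hy => ?_
    obtain ⟨x, _, rfl⟩ := Finset.mem_image.1 hy
    exact hn x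
  refine ⟨t.image N.subtype ∪ u, (Finset.card_union_le _ _).trans
    (add_le_add (Finset.card_image_le.trans ht) (h0.trans hs)), ?_⟩
  rw [Finset.coe_union, Subgroup.closure_union, Finset.coe_image, ← MonoidHom.map_closure]
  refine le_antisymm (sup_le (Subgroup.map_le_iff_le_comap.2 h4) ((Subgroup.closure_le K).2 h1)) ?_
  rw [← hw]
  refine (Subgroup.closure_le _).2 fun x hx => ?_
  have e' : x = l ⟨x, hx⟩ * n ⟨x, hx⟩ := e ⟨x, hx⟩
  rw [e']
  refine Subgroup.mul_mem _ (Subgroup.mem_sup_right (hl _)) (Subgroup.mem_sup_left ⟨n ⟨x, hx⟩, ?_, rfl⟩)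
  rw [ht']
  exact Subgroup.subset_closure (Finset.mem_coe.2 (Finset.mem_image_of_mem n (Finset.mem_univ _)))

theorem FinRank.prod (h : FinRank G) (h' : FinRank H) : FinRank (G × H) := by
  refine FinRank.extension (MonoidHom.snd G H).ker ?_ ?_
  · refine h.of_injective ((MonoidHom.fst G H).comp (Subgroup.subtype _)) fun x y e => ?_
    exact Subtype.ext (Prod.ext e ((MonoidHom.mem_ker.1 x.2).trans (MonoidHom.mem_ker.1 y.2).symm))
  · exact h'.of_injective _ (QuotientGroup.kerLift_injective (MonoidHom.snd G H))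

theorem FinRank.quot_mono {S S' : Subgroup G} [S.Normal] [S'.Normal] (h : FinRank (G ⧸ S))
    (hS : S ≤ S') : FinRank (G ⧸ S') := by
  refine h.of_surjective (QuotientGroup.map S S' (MonoidHom.id G) hS) fun y => ?_
  obtain ⟨x, rfl⟩ := QuotientGroup.mk_surjective y
  exact ⟨x, rfl⟩

theorem FinRank.quot_inf {S S' : Subgroup G} [S.Normal] [S'.Normal] (h : FinRank (G ⧸ S))
    (h' : FinRank (G ⧸ S')) : FinRank (G ⧸ (S ⊓ S')) := by
  refine (h.prod h').of_injective ((QuotientGroup.map _ S (MonoidHom.id G) inf_le_left).prod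
    (QuotientGroup.map _ S' (MonoidHom.id G) inf_le_right)) ?_
  refine (injective_iff_map_eq_one _).2 fun y hy => ?_
  obtain ⟨x, rfl⟩ := QuotientGroup.mk_surjective y
  exact (QuotientGroup.eq_one_iff x).2 ⟨(QuotientGroup.eq_one_iff x).1 (congrArg Prod.fst hy),
    (QuotientGroup.eq_one_iff x).1 (congrArg Prod.snd hy)⟩

theorem NilMod.inf {N S S' : Subgroup G} (h : NilMod N S) (h' : NilMod N S') :
    NilMod N (S ⊓ S') := by
  obtain ⟨c, hc⟩ := h
  obtain ⟨c', hc'⟩ := h'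
  exact ⟨max c c', le_inf ((N.lowerCentralSeries_antitone (le_max_left _ _)).trans hc)
    ((N.lowerCentralSeries_antitone (le_max_right _ _)).trans hc')⟩

theorem gb_comm_comap (f : G →* H) (A B : Subgroup H) :
    ⁅A.comap f, B.comap f⁆ ≤ (⁅A, B⁆).comap f :=
  Subgroup.commutator_le.2 fun x hx y hy => by
    rw [Subgroup.mem_comap, map_commutatorElement]
    exact Subgroup.commutator_mem_commutator hx hy

theorem NilMod.comap {N S : Subgroup H} (h : NilMod N S) (f : G →* H) :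
    NilMod (N.comap f) (S.comap f) := by
  obtain ⟨c, hc⟩ := h
  refine ⟨c, le_trans ?_ (Subgroup.comap_mono hc)⟩
  clear hc
  induction c with
  | zero => exact le_rfl
  | succ c ih => exact (Subgroup.commutator_mono ih le_rfl).trans (gb_comm_comap f _ _)

theorem VAb.comap {N : Subgroup H} (h : VAb N) (f : G →* H) : VAb (N.comap f) := by
  obtain ⟨T, h1, h2, h3, h4⟩ := h
  refine ⟨T.comap f, inferInstance, ⟨?_⟩, Subgroup.comap_mono h3,
    (gb_comm_comap f _ _).trans (Subgroup.comap_mono h4)⟩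
  rw [Subgroup.index_comap]
  exact Subgroup.FiniteIndex.index_ne_zero (H := T.subgroupOf f.range)

/-- The abelian quotient `T / N`. -/
theorem gb_quot {T N : Subgroup G} [N.Normal] (hT : ⁅T, T⁆ ≤ N) :
    ∃ (A : Type) (_ : CommGroup A) (π : T →* A), Function.Surjective π ∧
      ∀ x, π x = 1 ↔ (x : G) ∈ N := by
  refine ⟨T ⧸ N.subgroupOf T, { (inferInstance : Group (T ⧸ N.subgroupOf T)) with mul_comm := ?_ },
    QuotientGroup.mk' _, QuotientGroup.mk'_surjective _, fun x => QuotientGroup.eq_one_iff x⟩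
  intro a b
  obtain ⟨a, rfl⟩ := QuotientGroup.mk_surjective a
  obtain ⟨b, rfl⟩ := QuotientGroup.mk_surjective b
  refine commutatorElement_eq_one_iff_mul_comm.1 ((QuotientGroup.eq_one_iff ⁅a, b⁆).2 ?_)
  exact hT (Subgroup.commutator_mem_commutator a.2 b.2)

theorem gb_fg {A : Type} [CommGroup A] [Group.FG A] (K : Subgroup A) : K.FG := by
  have : Module.Finite ℤ (Additive A) := Module.Finite.iff_addGroup_fg.2 inferInstance
  exact (Subgroup.fg_iff_add_fg K).2 ((Submodule.fg_iff_addSubgroup_fg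
    (AddSubgroup.toIntSubmodule (Subgroup.toAddSubgroup K))).1 (IsNoetherian.noetherian _))

theorem gb_noeth {T N : Subgroup G} [Group.FG T] [N.Normal] (hT : ⁅T, T⁆ ≤ N) (K : Subgroup G) :
    ∃ Z : List G, (∀ z ∈ Z, z ∈ K) ∧
      ∀ x ∈ K, x ∈ T → ∃ l ∈ Subgroup.closure {z | z ∈ Z}, x * l⁻¹ ∈ N := by
  obtain ⟨A, _, π, h1, h2⟩ := gb_quot hT
  have : Group.FG A := Group.fg_of_surjective h1
  obtain ⟨s, hs⟩ := gb_fg ((K.subgroupOf T).map π)
  obtain ⟨u, _, h3, h4⟩ := gb_lift π _ s hs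
  refine ⟨u.toList.map T.subtype, fun z hz => ?_, fun x hx hxT => ?_⟩
  · obtain ⟨y, hy, rfl⟩ := List.mem_map.1 hz
    exact h3 y (Finset.mem_toList.1 hy)
  · obtain ⟨l, hl, e⟩ := h4 ⟨x, hxT⟩ hx
    refine ⟨l, ?_, (h2 (⟨x, hxT⟩ * l⁻¹)).1 (by rw [map_mul, map_inv, e, mul_inv_cancel])⟩
    refine ((Subgroup.closure_le ((Subgroup.closure _).comap T.subtype)).2 fun y hy => ?_) hl
    exact Subgroup.subset_closure (List.mem_map.2 ⟨y, Finset.mem_toList.2 hy, rfl⟩)

/-- Subgroups are finitely generated modulo `N`. -/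
theorem VAb.noeth [Group.FG G] {N : Subgroup G} [N.Normal] (h : VAb N) (K : Subgroup G) :
    ∃ Z : List G, (∀ z ∈ Z, z ∈ K) ∧
      ∀ x ∈ K, ∃ l ∈ Subgroup.closure {z | z ∈ Z}, x * l⁻¹ ∈ N := by
  obtain ⟨T, h1, h2, _, h4⟩ := h
  obtain ⟨Z, hZ, hZ'⟩ := gb_noeth h4 K
  obtain ⟨s, hs⟩ : (K.map (QuotientGroup.mk' T)).FG := (Group.fg_iff_subgroup_fg _).1 inferInstance
  obtain ⟨u, _, h5, h6⟩ := gb_lift _ K s hs
  refine ⟨Z ++ u.toList, fun z hz => ?_, fun x hx => ?_⟩
  · exact (List.mem_append.1 hz).elim (hZ z) fun k => h5 z (Finset.mem_toList.1 k)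
  · obtain ⟨l, hl, e⟩ := h6 x hx
    have hlK : l ∈ K := (Subgroup.closure_le K).2 h5 hl
    obtain ⟨l', hl', e'⟩ := hZ' (x * l⁻¹) (K.mul_mem hx (K.inv_mem hlK))
      (div_eq_mul_inv x l ▸ QuotientGroup.eq_iff_div_mem.1 e.symm)
    refine ⟨l' * l, Subgroup.mul_mem _ (Subgroup.closure_mono (fun z hz => ?_) hl')
      (Subgroup.closure_mono (fun z hz => ?_) hl), by rwa [mul_inv_rev, ← mul_assoc]⟩
    · exact List.mem_append_left _ hz
    · exact List.mem_append_right _ (Finset.mem_toList.2 hz)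

theorem gb_comm_le {K : Subgroup G} [K.Normal] {E : Set G} (h : ∀ a ∈ E, ∀ a' ∈ E, ⁅a, a'⁆ ∈ K) :
    ⁅Subgroup.closure E, Subgroup.closure E⁆ ≤ K := by
  have key : ∀ x y : G, ⁅x, y⁆ ∈ K ↔ Commute (QuotientGroup.mk' K x) (QuotientGroup.mk' K y) :=
    fun x y => by
      rw [← commutatorElement_eq_one_iff_commute, ← map_commutatorElement]
      exact (QuotientGroup.eq_one_iff _).symm
  refine Subgroup.commutator_le.2 fun x hx y hy => (key x y).2 ?_
  induction hx, hy using Subgroup.closure_induction₂ with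
  | mem x y hx hy => exact (key x y).1 (h x hx y hy)
  | one_left => rw [map_one]; exact Commute.one_left _
  | one_right => rw [map_one]; exact Commute.one_right _
  | mul_left x y z _ _ _ h1 h2 => rw [map_mul]; exact h1.mul_left h2
  | mul_right x y z _ _ _ h1 h2 => rw [map_mul]; exact h1.mul_right h2
  | inv_left x y _ _ h1 => rw [map_inv]; exact h1.inv_left
  | inv_right x y _ _ h1 => rw [map_inv]; exact h1.inv_right

/-- `N` is finitely generated as a normal subgroup. -/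
theorem VAb.exists_ncl [Group.FG G] {N : Subgroup G} [N.Normal] (h : VAb N) :
    ∃ Y : List G, N = Subgroup.normalClosure {y | y ∈ Y} := by
  obtain ⟨T, h1, h2, h3, h4⟩ := h
  obtain ⟨Z, hZ, hZ'⟩ := gb_noeth (le_refl ⁅T, T⁆) N
  obtain ⟨s, hs⟩ : T.FG := (Group.fg_iff_subgroup_fg _).1 inferInstance
  have hsT : ∀ a ∈ s, a ∈ T := fun a ha => hs ▸ Subgroup.subset_closure ha
  refine ⟨Z ++ (s ×ˢ s).toList.map fun p => ⁅p.1, p.2⁆, le_antisymm (fun x hx => ?_)
    (Subgroup.normalClosure_le_normal fun y hy => ?_)⟩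
  · obtain ⟨l, hl, e⟩ := hZ' x hx (h3 hx)
    rw [← inv_mul_cancel_right x l]
    refine Subgroup.mul_mem _ ?_ ((Subgroup.closure_le _).2 (fun z hz => ?_) hl)
    · rw [← hs] at e
      refine gb_comm_le (fun a ha a' ha' => Subgroup.subset_normalClosure ?_) e
      exact List.mem_append_right _ (List.mem_map.2 ⟨(a, a'),
        Finset.mem_toList.2 (Finset.mem_product.2 ⟨ha, ha'⟩), rfl⟩)
    · exact Subgroup.subset_normalClosure (List.mem_append_left _ hz)
  · rcases List.mem_append.1 hy with hy | hy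
    · exact hZ y hy
    · obtain ⟨p, hp, rfl⟩ := List.mem_map.1 hy
      have hp' := Finset.mem_product.1 (Finset.mem_toList.1 hp)
      exact h4 (Subgroup.commutator_mem_commutator (hsT _ hp'.1) (hsT _ hp'.2))

theorem gb_map_zp {k : ℕ} (f : G →* H) (τ : Fin k → G) (t : Fin k → ℤ) :
    f (zp τ t) = zp (fun j => f (τ j)) t := by
  simp only [zp, map_list_prod, List.map_ofFn, Function.comp_def, map_zpow]

theorem exists_isMark [Group.FG G] {T N : Subgroup G} [T.FiniteIndex] [N.Normal] (hN : N ≤ T)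
    (hT : ⁅T, T⁆ ≤ N) (htf : ∀ g ∈ T, ∀ m, 0 < m → g ^ m ∈ N → g ∈ N) :
    ∃ (k : ℕ) (τ : Fin k → G), IsMark T N τ := by
  obtain ⟨A, _, π, h1, h2⟩ := gb_quot hT
  have : Group.FG A := Group.fg_of_surjective h1
  have : Module.Finite ℤ (Additive A) := Module.Finite.iff_addGroup_fg.2 inferInstance
  have : IsMulTorsionFree A := IsMulTorsionFree.of_not_isOfFinOrder fun a ha hf => by
    obtain ⟨x, rfl⟩ := h1 a
    obtain ⟨m, hm, e⟩ := isOfFinOrder_iff_pow_eq_one.1 hf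
    exact ha ((h2 x).2 (htf x x.2 m hm ((h2 (x ^ m)).1 ((map_pow π x m).trans e))))
  let b := Module.finBasis ℤ (Additive A)
  choose τ hτ using fun j => h1 (b j).toMul
  have key : ∀ t, Additive.ofMul (π (zp τ t)) = b.equivFun.symm t := by
    intro t
    rw [gb_map_zp, Module.Basis.equivFun_symm_apply]
    simp only [zp, List.prod_ofFn, hτ, ofMul_prod, ofMul_zpow, ofMul_toMul]
  have e : ∀ t, ((zp τ t : T) : G) = zp (fun j => (τ j : G)) t := gb_map_zp T.subtype τ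
  refine ⟨_, fun j => τ j, hN, hT, fun j => (τ j).2, fun g hg => ?_, fun t ht => ?_⟩
  · refine ⟨b.equivFun (Additive.ofMul (π ⟨g, hg⟩)), ?_⟩
    rw [← e]
    refine (h2 (⟨g, hg⟩ * (zp τ _)⁻¹)).1 ?_
    rw [map_mul, map_inv, mul_inv_eq_one]
    exact Additive.ofMul.injective (by rw [key, LinearEquiv.symm_apply_apply])
  · rw [← e, ← h2] at ht
    have := key t
    rw [ht, ofMul_one] at this
    exact b.equivFun.symm.map_eq_zero_iff.1 this.symm

section zp
variable {k : ℕ}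

theorem map_zp (f : G →* H) (τ : Fin k → G) (t : Fin k → ℤ) :
    f (zp τ t) = zp (fun j => f (τ j)) t := gb_map_zp f τ t

theorem zp_mem {T : Subgroup G} {τ : Fin k → G} (h : ∀ j, τ j ∈ T) (t : Fin k → ℤ) :
    zp τ t ∈ T := by
  refine Subgroup.list_prod_mem _ fun x hx => ?_
  obtain ⟨j, rfl⟩ := (List.mem_ofFn' _ _).1 hx
  exact T.zpow_mem (h j) _

theorem zp_zero (τ : Fin k → G) : zp τ 0 = 1 := by
  refine List.prod_eq_one fun x hx => ?_
  obtain ⟨j, rfl⟩ := (List.mem_ofFn' _ _).1 hx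
  exact zpow_zero _

theorem gb_zp_succ (τ : Fin (k + 1) → G) (t : Fin (k + 1) → ℤ) :
    zp τ t = τ 0 ^ t 0 * zp (fun j => τ j.succ) fun j => t j.succ := by
  simp only [zp, List.ofFn_succ, List.prod_cons]

theorem zp_single (τ : Fin k → G) (j : Fin k) : zp τ (Pi.single j 1) = τ j := by
  induction k with
  | zero => exact j.elim0
  | succ k ih =>
    rw [gb_zp_succ]
    refine Fin.cases ?_ (fun j => ?_) j
    · have e : (fun j : Fin k => (Pi.single 0 1 : Fin (k + 1) → ℤ) j.succ) = 0 := by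
        funext i
        simp
      rw [e, zp_zero]
      simp
    · have e : (fun i : Fin k => (Pi.single j.succ 1 : Fin (k + 1) → ℤ) i.succ) =
          Pi.single j 1 := by
        funext i
        simp [Pi.single_apply]
      rw [e, ih]
      simp

theorem zp_add {τ : Fin k → G} (h : ∀ i j, τ i * τ j = τ j * τ i) (s t : Fin k → ℤ) :
    zp τ (s + t) = zp τ s * zp τ t := by
  induction k with
  | zero => simp [zp]
  | succ k ih =>
    have hc : Commute (τ 0 ^ t 0) (zp (fun j => τ j.succ) fun j => s j.succ) := by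
      refine Commute.list_prod_right _ _ fun x hx => ?_
      obtain ⟨j, rfl⟩ := (List.mem_ofFn' _ _).1 hx
      exact Commute.zpow_zpow (h 0 j.succ) _ _
    have e := ih (τ := fun j => τ j.succ) (fun i j => h _ _) (fun j => s j.succ) fun j => t j.succ
    rw [gb_zp_succ, gb_zp_succ τ s, gb_zp_succ τ t, mul_assoc, ← mul_assoc (zp _ _), ← hc.eq,
      mul_assoc, ← e, ← mul_assoc, ← zpow_add]
    rfl

theorem zp_neg {τ : Fin k → G} (h : ∀ i j, τ i * τ j = τ j * τ i) (t : Fin k → ℤ) :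
    zp τ (-t) = (zp τ t)⁻¹ :=
  eq_inv_of_mul_eq_one_left (by rw [← zp_add h, neg_add_cancel, zp_zero])

theorem zp_smul {τ : Fin k → G} (h : ∀ i j, τ i * τ j = τ j * τ i) (n : ℤ) (t : Fin k → ℤ) :
    zp τ (n • t) = zp τ t ^ n :=
  map_zpow (MonoidHom.mk' (fun s : Multiplicative (Fin k → ℤ) => zp τ s.toAdd)
    fun a b => zp_add h a.toAdd b.toAdd) (Multiplicative.ofAdd t) n

/-- Non-membership in a marked subgroup. -/
theorem IsMark.notMem_iff {T N : Subgroup G} {τ : Fin k → G} (h : IsMark T N τ) (w : G) :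
    ¬ w ∈ N ↔ ¬ w ∈ T ∨ ∃ t, t ≠ 0 ∧ w * (zp τ t)⁻¹ ∈ N := by
  obtain ⟨h1, _, _, h4, h5⟩ := h
  constructor
  · intro hw
    refine or_iff_not_imp_left.2 fun hT => ?_
    obtain ⟨t, ht⟩ := h4 w (not_not.1 hT)
    refine ⟨t, ?_, ht⟩
    rintro rfl
    rw [zp_zero, inv_one, mul_one] at ht
    exact hw ht
  · rintro (hT | ⟨t, ht, e⟩) hw
    · exact hT (h1 hw)
    · exact ht (h5 t (N.inv_mem_iff.1 ((N.mul_mem_cancel_left hw).1 e)))

end zp

theorem gb_eq {S : Subgroup G} [S.Normal] {x y : G} : x * y⁻¹ ∈ S ↔ (x : G ⧸ S) = y := by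
  rw [QuotientGroup.eq_iff_div_mem, div_eq_mul_inv]

theorem Compat.iso {S : Subgroup G} {S' : Subgroup H} [S.Normal] [S'.Normal] {u : G →* H}
    {v : H →* G} (h : Compat S S' u v) : Nonempty ((G ⧸ S) ≃* (H ⧸ S')) := by
  refine ⟨MonoidHom.toMulEquiv (QuotientGroup.map S S' u h.1) (QuotientGroup.map S' S v h.2.1)
    (MonoidHom.ext fun y => ?_) (MonoidHom.ext fun y => ?_)⟩
  · obtain ⟨x, rfl⟩ := QuotientGroup.mk_surjective y
    exact gb_eq.1 (h.2.2.1 x)
  · obtain ⟨x, rfl⟩ := QuotientGroup.mk_surjective y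
    exact gb_eq.1 (h.2.2.2 x)

theorem gb_free_lift {b : ℕ} {S : Subgroup G} [S.Normal] (f : Fr b →* G ⧸ S) :
    ∃ u : Fr b →* G, ∀ g, (u g : G ⧸ S) = f g := by
  refine ⟨FreeGroup.lift fun x => (f (FreeGroup.of x)).out, fun g => ?_⟩
  have : (QuotientGroup.mk' S).comp (FreeGroup.lift fun x => (f (FreeGroup.of x)).out) = f :=
    FreeGroup.ext_hom _ _ fun x => by simp
  exact DFunLike.congr_fun this g

/-- An isomorphism between quotients of free groups lifts to a compatible pair. -/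
theorem exists_compat {b b' : ℕ} {S : Subgroup (Fr b)} {S' : Subgroup (Fr b')} [S.Normal]
    [S'.Normal] (φ : (Fr b ⧸ S) ≃* (Fr b' ⧸ S')) :
    ∃ (u : Fr b →* Fr b') (v : Fr b' →* Fr b), Compat S S' u v ∧
      (∀ g, (u g : Fr b' ⧸ S') = φ (g : Fr b ⧸ S)) ∧
        ∀ h, (v h : Fr b ⧸ S) = φ.symm (h : Fr b' ⧸ S') := by
  obtain ⟨u, hu⟩ := gb_free_lift (φ.toMonoidHom.comp (QuotientGroup.mk' S))
  obtain ⟨v, hv⟩ := gb_free_lift (φ.symm.toMonoidHom.comp (QuotientGroup.mk' S'))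
  have hu' : ∀ g, (u g : Fr b' ⧸ S') = φ (g : Fr b ⧸ S) := hu
  have hv' : ∀ h, (v h : Fr b ⧸ S) = φ.symm (h : Fr b' ⧸ S') := hv
  refine ⟨u, v, ⟨fun y hy => ?_, fun y hy => ?_, fun g => ?_, fun g => ?_⟩, hu', hv'⟩
  · rw [← QuotientGroup.eq_one_iff] at hy ⊢
    rw [hu', hy, map_one]
  · rw [← QuotientGroup.eq_one_iff] at hy ⊢
    rw [hv', hy, map_one]
  · rw [gb_eq, hv', hu', MulEquiv.symm_apply_apply]
  · rw [gb_eq, hu', hv', MulEquiv.apply_symm_apply]

theorem gb_gens {b : ℕ} {S : Subgroup (Fr b)} [S.Normal] (f : Fr b →* Fr b)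
    (h : ∀ x, f (FreeGroup.of x) * (FreeGroup.of x)⁻¹ ∈ S) (g : Fr b) : f g * g⁻¹ ∈ S := by
  have : (QuotientGroup.mk' S).comp f = QuotientGroup.mk' S :=
    FreeGroup.ext_hom _ _ fun x => gb_eq.1 (h x)
  exact gb_eq.2 (DFunLike.congr_fun this g)

/-- Compatibility can be tested on generators. -/
theorem compat_iff_gens {b b' : ℕ} (Y : List (Fr b)) (Y' : List (Fr b')) (u : Fr b →* Fr b')
    (v : Fr b' →* Fr b) :
    Compat (Subgroup.normalClosure {y | y ∈ Y}) (Subgroup.normalClosure {y | y ∈ Y'}) u v ↔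
      (∀ y ∈ Y, u y ∈ Subgroup.normalClosure {y | y ∈ Y'}) ∧
      (∀ y ∈ Y', v y ∈ Subgroup.normalClosure {y | y ∈ Y}) ∧
      (∀ x, v (u (FreeGroup.of x)) * (FreeGroup.of x)⁻¹ ∈ Subgroup.normalClosure {y | y ∈ Y}) ∧
      ∀ x, u (v (FreeGroup.of x)) * (FreeGroup.of x)⁻¹ ∈ Subgroup.normalClosure {y | y ∈ Y'} :=
  ⟨fun h => ⟨fun y hy => h.1 y (Subgroup.subset_normalClosure hy),
      fun y hy => h.2.1 y (Subgroup.subset_normalClosure hy), fun _ => h.2.2.1 _, fun _ => h.2.2.2 _⟩,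
    fun h => ⟨fun _ hy => Subgroup.normalClosure_le_normal
        (N := (Subgroup.normalClosure {y | y ∈ Y'}).comap u) (fun y k => h.1 y k) hy,
      fun _ hy => Subgroup.normalClosure_le_normal
        (N := (Subgroup.normalClosure {y | y ∈ Y}).comap v) (fun y k => h.2.1 y k) hy,
      gb_gens (v.comp u) h.2.2.1, gb_gens (u.comp v) h.2.2.2⟩⟩

instance Pres.solvable (p : Pres) : Group.IsSolvable p.G := by
  refine ⟨p.2.1, ?_⟩
  rw [← map_derivedSeries_eq (QuotientGroup.mk'_surjective p.S), Subgroup.map_eq_bot_iff,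
    QuotientGroup.ker_mk']
  exact le_sup_right

theorem gb_der_succ (P : Subgroup G) (j : ℕ) : der P (j + 1) = ⁅der P j, der P j⁆ :=
  Function.iterate_succ_apply' (fun H : Subgroup G => ⁅H, H⁆) j P

theorem map_der (f : G →* H) (P : Subgroup G) (j : ℕ) : (der P j).map f = der (P.map f) j := by
  induction j with
  | zero => rfl
  | succ j ih => rw [gb_der_succ, gb_der_succ, Subgroup.map_commutator, ih]

theorem der_top (j : ℕ) : der (⊤ : Subgroup G) j = derivedSeries G j := by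
  induction j with
  | zero => rfl
  | succ j ih => rw [gb_der_succ, ih, derivedSeries_succ]

section par
variable {n : ℕ} {wt : Fin n → ℕ}

theorem fil_mul' {i j : ℕ} {x y : Matrix (Fin n) (Fin n) ℚ} (hx : x ∈ fil wt i)
    (hy : y ∈ fil wt j) : x * y ∈ fil wt (i + j) := by
  intro a b h
  rw [Matrix.mul_apply]
  refine Finset.sum_eq_zero fun c _ => ?_
  by_cases hc : wt a < wt c + i
  · rw [hx a c hc, zero_mul]
  · rw [hy c b (by omega), mul_zero]

theorem gb_one : (1 : Matrix (Fin n) (Fin n) ℚ) ∈ fil wt 0 := fun a b h =>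
  Matrix.one_apply_ne fun e => by subst e; omega

theorem gb_par {x : Matrix (Fin n) (Fin n) ℚ} (hx : x - 1 ∈ fil wt 1) : x ∈ fil wt 0 := by
  rw [← sub_add_cancel x 1]
  exact Submodule.add_mem _ (fun a b h => hx a b (by omega)) gb_one

theorem gb_inv {g : GL (Fin n) ℚ} (hg : IsUni wt g) : (g⁻¹).val ∈ fil wt 0 := by
  have e : (g⁻¹).val = 1 - (g.val - 1) * (g⁻¹).val := by
    rw [sub_mul, Units.mul_inv, one_mul, sub_sub_cancel]
  have key : ∀ j, ∃ p ∈ fil wt 0, ∃ q ∈ fil wt j, (g⁻¹).val = p + q * (g⁻¹).val := by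
    intro j
    induction j with
    | zero => exact ⟨0, Submodule.zero_mem _, 1, gb_one, by rw [zero_add, one_mul]⟩
    | succ j ih =>
      obtain ⟨p, hp, q, hq, h⟩ := ih
      refine ⟨p + q, Submodule.add_mem _ hp fun a b k => hq a b (by omega), -(q * (g.val - 1)),
        Submodule.neg_mem _ (fil_mul' hq hg), ?_⟩
      rw [neg_mul, mul_assoc, add_assoc, ← sub_eq_add_neg, ← mul_one_sub, ← e]
      exact h
  obtain ⟨p, hp, q, hq, h⟩ := key (Finset.univ.sup wt + 1)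
  have : q = 0 := Matrix.ext fun a b => hq a b (by
    have := Finset.le_sup (f := wt) (Finset.mem_univ a)
    omega)
  rwa [h, this, zero_mul, add_zero]

theorem IsPar.one : IsPar wt 1 := ⟨gb_one, gb_one⟩
theorem IsPar.mul {g h : GL (Fin n) ℚ} (hg : IsPar wt g) (hh : IsPar wt h) : IsPar wt (g * h) :=
  ⟨fil_mul' hg.1 hh.1, fil_mul' hh.2 hg.2⟩
theorem IsPar.inv {g : GL (Fin n) ℚ} (hg : IsPar wt g) : IsPar wt g⁻¹ := ⟨hg.2, hg.1⟩
theorem IsUni.one : IsUni wt 1 := by
  show (1 : Matrix (Fin n) (Fin n) ℚ) - 1 ∈ _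
  rw [sub_self]
  exact Submodule.zero_mem _
theorem IsUni.mul {g h : GL (Fin n) ℚ} (hg : IsUni wt g) (hh : IsUni wt h) : IsUni wt (g * h) := by
  show g.val * h.val - 1 ∈ _
  rw [← sub_add_sub_cancel _ h.val, ← sub_one_mul]
  exact Submodule.add_mem _ (fil_mul' hg (gb_par hh)) hh
theorem IsUni.inv {g : GL (Fin n) ℚ} (hg : IsUni wt g) : IsUni wt g⁻¹ := by
  have e : (g⁻¹).val - 1 = -((g.val - 1) * (g⁻¹).val) := by
    rw [sub_mul, Units.mul_inv, one_mul, neg_sub]
  show (g⁻¹).val - 1 ∈ _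
  rw [e]
  exact Submodule.neg_mem _ (fil_mul' hg (gb_inv hg))
theorem IsUni.isPar {g : GL (Fin n) ℚ} (hg : IsUni wt g) : IsPar wt g := ⟨gb_par hg, gb_inv hg⟩
theorem IsUni.conj {g y : GL (Fin n) ℚ} (hg : IsPar wt g) (hy : IsUni wt y) :
    IsUni wt (g * y * g⁻¹) := by
  have e : g.val * y.val * (g⁻¹).val - 1 = g.val * (y.val - 1) * (g⁻¹).val := by
    rw [mul_sub, sub_mul, mul_one, Units.mul_inv]
  show g.val * y.val * (g⁻¹).val - 1 ∈ _
  rw [e]
  exact fil_mul' (fil_mul' hg.1 hy) hg.2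
theorem isPar_lift {b : ℕ} {g : Fin b → GL (Fin n) ℚ} (h : ∀ x, IsPar wt (g x)) (w : Fr b) :
    IsPar wt (FreeGroup.lift g w) := by
  induction w using FreeGroup.induction_on with
  | C1 => rw [map_one]; exact IsPar.one
  | of x => rw [FreeGroup.lift_apply_of]; exact h x
  | inv_of x hx => rw [map_inv]; exact hx.inv
  | mul x y hx hy => rw [map_mul]; exact hx.mul hy
theorem isUni_ncl {σ : G →* GL (Fin n) ℚ} (h : ∀ g, IsPar wt (σ g)) {s : Set G}
    (hs : ∀ y ∈ s, IsUni wt (σ y)) : ∀ y ∈ Subgroup.normalClosure s, IsUni wt (σ y) := by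
  let U : Subgroup G :=
    { carrier := {y | IsUni wt (σ y)}
      one_mem' := by rw [Set.mem_ofPred_eq, map_one]; exact IsUni.one
      mul_mem' := fun ha hb => by rw [Set.mem_ofPred_eq, map_mul]; exact IsUni.mul ha hb
      inv_mem' := fun ha => by rw [Set.mem_ofPred_eq, map_inv]; exact IsUni.inv ha }
  have : U.Normal := ⟨fun y hy g => by
    show IsUni wt (σ _)
    rw [map_mul, map_mul, map_inv]
    exact IsUni.conj (h g) hy⟩
  exact fun y hy => Subgroup.normalClosure_le_normal (N := U) hs hy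

variable {b c : ℕ} {g : Fin b → GL (Fin n) ℚ}

theorem ambOf_P : (ambOf wt c g).P = (FreeGroup.lift g).range := by
  rw [FreeGroup.range_lift_eq_closure]
  exact congrArg Subgroup.closure (Set.ext fun x => List.mem_ofFn' g x)
theorem ambOf_ok {N : Subgroup (Fr b)} (h : Adapt wt c (FreeGroup.lift g) N) :
    (ambOf wt c g).ok := by
  refine ⟨h.1, fun x hx => ?_⟩
  obtain ⟨j, rfl⟩ := (List.mem_ofFn' g x).1 hx
  have := h.2.1 (FreeGroup.of j)
  rwa [FreeGroup.lift_apply_of] at this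
theorem ambOf_noeth {N : Subgroup (Fr b)} [N.Normal] (h : Adapt wt c (FreeGroup.lift g) N)
    (hN : VAb N) : (ambOf wt c g).Noeth := by
  intro K hK
  rw [ambOf_P] at hK
  obtain ⟨Z, h1, h2⟩ := hN.noeth (K.comap (FreeGroup.lift g))
  refine ⟨Z.map (FreeGroup.lift g), fun z hz => ?_, fun y hy => ?_⟩
  · obtain ⟨x, hx, rfl⟩ := List.mem_map.1 hz
    exact h1 x hx
  · obtain ⟨x, rfl⟩ := hK hy
    obtain ⟨l, hl, e⟩ := h2 x hy
    refine ⟨FreeGroup.lift g l, ?_, ?_⟩
    · refine ((Subgroup.closure_le ((Subgroup.closure _).comap (FreeGroup.lift g))).2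
        fun y hy => ?_) hl
      exact Subgroup.subset_closure (List.mem_map.2 ⟨y, hy, rfl⟩)
    · have := h.2.2 _ e
      rwa [map_mul, map_inv] at this
theorem ambOf_nrm {N S : Subgroup (Fr b)} [S.Normal] (h : Adapt wt c (FreeGroup.lift g) N)
    (hS : S ≤ N) : (ambOf wt c g).Nrm (S.map (FreeGroup.lift g)) := by
  refine ⟨?_, ?_, ?_⟩
  · rw [ambOf_P]
    exact Subgroup.map_le_range _ _
  · rintro _ ⟨y, hy, rfl⟩
    exact h.2.2 y (hS hy)
  · rw [ambOf_P]
    rintro _ ⟨x, rfl⟩ _ ⟨y, hy, rfl⟩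
    exact ⟨x * y * x⁻¹, Subgroup.Normal.conj_mem inferInstance y hy x, by
      rw [map_mul, map_mul, map_inv]; rfl⟩
theorem ambOf_ncl (s : Set (Fr b)) : (ambOf wt c g).ncl (FreeGroup.lift g '' s) =
    (Subgroup.normalClosure s).map (FreeGroup.lift g) := by
  rw [Subgroup.normalClosure, MonoidHom.map_closure, Amb.ncl, ambOf_P]
  refine congrArg Subgroup.closure (Set.ext fun y => ⟨?_, ?_⟩)
  · rintro ⟨_, ⟨x, rfl⟩, _, ⟨a, ha, rfl⟩, rfl⟩
    exact ⟨x * a * x⁻¹, Group.mem_conjugatesOfSet_iff.2 ⟨a, ha, isConj_iff.2 ⟨x, rfl⟩⟩, by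
      rw [map_mul, map_mul, map_inv]; rfl⟩
  · rintro ⟨z, hz, rfl⟩
    obtain ⟨a, ha, hc⟩ := Group.mem_conjugatesOfSet_iff.1 hz
    obtain ⟨x, rfl⟩ := isConj_iff.1 hc
    exact ⟨_, ⟨x, rfl⟩, _, ⟨a, ha, rfl⟩, by rw [map_mul, map_mul, map_inv]; rfl⟩

end par

end Pool.Agent.P.MP_257122_al
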