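import Pool.Agent.P.MP_257122_al.CGrp
import Pool.Agent.P.MP_257122_al.GBasic

/-!
# The derived series of a matrix group that is Noetherian modulo unipotent elements

PLAN.  `MV.der` by `MV.iter`.  Start: `Z` = generators, `Y = ncl []`.  Step: from
`P_j = closure Z ⊔ Y` search lists `Z'`, `W` inside `⁅P_j, P_j⁆` (test: inside the r.e. group
`ncl {⁅z, z'⁆}`), `W` unipotent, such that `⁅z, z'⁆` and `x z' x⁻¹`, `x⁻¹ z' x` (`x` ambient
generator) lie in `closure Z' ⊔ ncl W`; they exist by `Noeth` applied to `ncl {⁅z, z'⁆}`.  Put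
`Y' = ncl W ⊔ ncl ⁅Z, Y⁆ ⊔ ⁅Y, Y⁆` (`DS.ncl`, `DS.commList`, `DS.comm`, `DS.sup`).
-/

namespace Pool.Agent.P.MP_257122_al

open scoped commutatorElement
open FOpsAux

variable {A : Type} [Rep A]

@[aesop safe 50 apply (transparency := reducible) (rule_sets := [Restrict])]
theorem CS.memFil {n j : A → ℕ} {wt : ∀ a, Fin (n a) → ℕ}
    {x : ∀ a, Matrix (Fin (n a)) (Fin (n a)) ℚ} (hn : CS n) (hw : CS wt) (hj : CS j) (hx : CS x) :
    CS (fun a => x a ∈ fil (wt a) (j a)) := by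
  have h : CS (fun a => ∀ p : Fin (n a) × Fin (n a),
      wt a p.1 < wt a p.2 + j a → x a p.1 p.2 = 0) :=
    CS.all ((CFin.fin hn).prod (CFin.fin hn)) (CS.imp
      (CS.notLt LeF.nat (CS.app (hw.comp s1) s2.fst)
        (CS.add AddF.nat (CS.app (hw.comp s1) s2.snd) (hj.comp s1)))
      (CS.eq Disc.rat (CS.mapp (hx.comp s1) s2.fst s2.snd) CS.const))
  exact h.of_iff fun _ _ => Prod.forall
@[aesop safe 50 apply (transparency := reducible) (rule_sets := [Restrict])]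
theorem CS.isUni {n : A → ℕ} {wt : ∀ a, Fin (n a) → ℕ} {g : ∀ a, GL (Fin (n a)) ℚ} (hn : CS n)
    (hw : CS wt) (hg : CS g) : CS (fun a => IsUni (wt a) (g a)) :=
  CS.memFil hn hw CS.const (CS.sub (AddF.matrix AddF.rat) (NegF.matrix NegF.rat) hg.unitsVal
    (CS.one (OneF.matrix Disc.fin Haus.fin ZeroF.rat OneF.rat)))
@[aesop safe 50 apply (transparency := reducible) (rule_sets := [Restrict])]
theorem CS.isPar {n : A → ℕ} {wt : ∀ a, Fin (n a) → ℕ} {g : ∀ a, GL (Fin (n a)) ℚ} (hn : CS n)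
    (hw : CS wt) (hg : CS g) : CS (fun a => IsPar (wt a) (g a)) :=
  (CS.memFil hn hw CS.const hg.unitsVal).and (CS.memFil hn hw CS.const hg.unitsInv)
@[aesop safe 50 apply (transparency := reducible) (rule_sets := [Restrict])]
theorem CS.ambOf {b n c : A → ℕ} {wt : ∀ a, Fin (n a) → ℕ}
    {g : ∀ a, Fin (b a) → GL (Fin (n a)) ℚ} (hb : CS b) (hn : CS n) (hw : CS wt) (hc : CS c)
    (hg : CS g) : CS (fun a => ambOf (wt a) (c a) (g a)) :=
  CS.smk (β := fun _ n => (Fin n → ℕ) × ℕ × List (GL (Fin n) ℚ)) n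
    (fun a => (wt a, c a, List.ofFn (g a))) hn (hw.pair (hc.pair (CS.ofFn hb hg)))

namespace CDerAux

section pure
variable {m : Amb}

/-- `D` is a normal subgroup of the ambient group. -/
def Nor (m : Amb) (D : Subgroup (GL (Fin m.1) ℚ)) : Prop :=
  D ≤ m.P ∧ ∀ g ∈ m.P, ∀ y ∈ D, g * y * g⁻¹ ∈ D

theorem conj_closure {G : Type} [Group G] {s : Set G} {D : Subgroup G} {g : G}
    (h : ∀ y ∈ s, g * y * g⁻¹ ∈ D) : ∀ y ∈ Subgroup.closure s, g * y * g⁻¹ ∈ D := by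
  intro y hy
  have : Subgroup.closure s ≤ D.comap (MulAut.conj g).toMonoidHom :=
    (Subgroup.closure_le _).2 h
  exact this hy

theorem nor_P : Nor m m.P :=
  ⟨le_rfl, fun _ hg _ hy => mul_mem (mul_mem hg hy) (inv_mem hg)⟩

theorem Nor.comm {D E : Subgroup (GL (Fin m.1) ℚ)} (h : Nor m D) (h' : Nor m E) :
    Nor m ⁅D, E⁆ := by
  refine ⟨Subgroup.commutator_le.2 fun x hx y hy => ?_, fun g hg => conj_closure ?_⟩
  · rw [commutatorElement_def]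
    exact mul_mem (mul_mem (mul_mem (h.1 hx) (h'.1 hy)) (inv_mem (h.1 hx))) (inv_mem (h'.1 hy))
  · rintro _ ⟨x, hx, y, hy, rfl⟩
    rw [conjugate_commutatorElement]
    exact Subgroup.commutator_mem_commutator (h.2 g hg x hx) (h'.2 g hg y hy)

theorem Nor.sup {D E : Subgroup (GL (Fin m.1) ℚ)} (h : Nor m D) (h' : Nor m E) :
    Nor m (D ⊔ E) := by
  refine ⟨sup_le h.1 h'.1, fun g hg => ?_⟩
  rw [Subgroup.sup_eq_closure]
  refine conj_closure ?_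
  rintro y (hy | hy)
  · exact Subgroup.subset_closure (Or.inl (h.2 g hg y hy))
  · exact Subgroup.subset_closure (Or.inr (h'.2 g hg y hy))

theorem der_succ {G : Type} [Group G] (P : Subgroup G) (j : ℕ) :
    der P (j + 1) = ⁅der P j, der P j⁆ := Function.iterate_succ_apply' _ _ _

theorem nor_der (j : ℕ) : Nor m (der m.P j) := by
  induction j with
  | zero => exact nor_P
  | succ j ih => rw [der_succ]; exact ih.comm ih

theorem sub_ncl {s : Set (GL (Fin m.1) ℚ)} {x : GL (Fin m.1) ℚ} (hx : x ∈ s) : x ∈ m.ncl s :=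
  Subgroup.subset_closure ⟨1, one_mem _, x, hx, by simp⟩

theorem Nor.ncl_le {D : Subgroup (GL (Fin m.1) ℚ)} (h : Nor m D) {s : Set (GL (Fin m.1) ℚ)}
    (hs : ∀ x ∈ s, x ∈ D) : m.ncl s ≤ D := (Subgroup.closure_le _).2 (by
  rintro _ ⟨g, hg, x, hx, rfl⟩
  exact h.2 g hg x (hs x hx))

theorem nor_ncl {s : Set (GL (Fin m.1) ℚ)} (hs : ∀ x ∈ s, x ∈ m.P) : Nor m (m.ncl s) := by
  refine ⟨nor_P.ncl_le hs, fun g hg => conj_closure ?_⟩
  rintro _ ⟨g', hg', x, hx, rfl⟩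
  exact Subgroup.subset_closure ⟨g * g', mul_mem hg hg', x, hx, by group⟩

theorem par_of_mem (hok : m.ok) {g : GL (Fin m.1) ℚ} (hg : g ∈ m.P) : IsPar m.2.1 g := by
  induction hg using Subgroup.closure_induction with
  | mem x hx => exact hok.2 x hx
  | one => exact IsPar.one
  | mul x y _ _ hx hy => exact hx.mul hy
  | inv x _ hx => exact hx.inv

/-- The unipotent elements of the ambient group. -/
def U (m : Amb) : Subgroup (GL (Fin m.1) ℚ) where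
  carrier := {y | y ∈ m.P ∧ IsUni m.2.1 y}
  one_mem' := ⟨one_mem _, IsUni.one⟩
  mul_mem' := fun hx hy => ⟨mul_mem hx.1 hy.1, hx.2.mul hy.2⟩
  inv_mem' := fun hx => ⟨inv_mem hx.1, hx.2.inv⟩

theorem nor_U (hok : m.ok) : Nor m (U m) :=
  ⟨fun _ hy => hy.1, fun g hg y hy => ⟨nor_P.2 g hg y hy.1, IsUni.conj (par_of_mem hok hg) hy.2⟩⟩

theorem nrm_iff {Y : Subgroup (GL (Fin m.1) ℚ)} : m.Nrm Y ↔ Nor m Y ∧ Y ≤ U m :=
  ⟨fun h => ⟨⟨h.1, h.2.2⟩, fun y hy => ⟨h.1 hy, h.2.1 y hy⟩⟩,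
    fun h => ⟨h.1.1, fun _ hy => (h.2 hy).2, h.1.2⟩⟩

theorem nrm_ncl (hok : m.ok) {s : Set (GL (Fin m.1) ℚ)}
    (hs : ∀ x ∈ s, x ∈ m.P ∧ IsUni m.2.1 x) : m.Nrm (m.ncl s) :=
  nrm_iff.2 ⟨nor_ncl fun x hx => (hs x hx).1, (nor_U hok).ncl_le hs⟩

theorem nrm_sup {Y Y' : Subgroup (GL (Fin m.1) ℚ)} (h : m.Nrm Y) (h' : m.Nrm Y') :
    m.Nrm (Y ⊔ Y') :=
  nrm_iff.2 ⟨(nrm_iff.1 h).1.sup (nrm_iff.1 h').1, sup_le (nrm_iff.1 h).2 (nrm_iff.1 h').2⟩

theorem comm_mem {Y : Subgroup (GL (Fin m.1) ℚ)} (h : Nor m Y) {z y : GL (Fin m.1) ℚ}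
    (hz : z ∈ m.P) (hy : y ∈ Y) : ⁅z, y⁆ ∈ Y := by
  rw [commutatorElement_def]
  exact mul_mem (h.2 z hz y hy) (inv_mem hy)

theorem nrm_comm {Y : Subgroup (GL (Fin m.1) ℚ)} (h : m.Nrm Y) : m.Nrm ⁅Y, Y⁆ :=
  nrm_iff.2 ⟨(nrm_iff.1 h).1.comm (nrm_iff.1 h).1,
    (Subgroup.commutator_le.2 fun _ hx _ hy => comm_mem (nrm_iff.1 h).1 (h.1 hx) hy).trans
      (nrm_iff.1 h).2⟩

theorem nrm_commList (hok : m.ok) {Y : Subgroup (GL (Fin m.1) ℚ)} (h : m.Nrm Y)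
    {Z : List (GL (Fin m.1) ℚ)} (hZ : ∀ z ∈ Z, z ∈ m.P) :
    m.Nrm (m.ncl {w | ∃ z ∈ Z, ∃ y ∈ Y, ⁅z, y⁆ = w}) := nrm_ncl hok (by
  rintro _ ⟨z, hz, y, hy, rfl⟩
  exact (nrm_iff.1 h).2 (comm_mem (nrm_iff.1 h).1 (hZ z hz) hy))

theorem nor_of_gens {D : Subgroup (GL (Fin m.1) ℚ)} (hD : D ≤ m.P)
    (h : ∀ x ∈ m.2.2.2, (∀ y ∈ D, x * y * x⁻¹ ∈ D) ∧ ∀ y ∈ D, x⁻¹ * y * x⁻¹⁻¹ ∈ D) :
    Nor m D := by
  refine ⟨hD, fun g hg => ?_⟩
  have key : (∀ y ∈ D, g * y * g⁻¹ ∈ D) ∧ ∀ y ∈ D, g⁻¹ * y * g⁻¹⁻¹ ∈ D := by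
    induction hg using Subgroup.closure_induction with
    | mem x hx => exact h x hx
    | one => simp
    | mul a b _ _ ha hb =>
      refine ⟨fun y hy => ?_, fun y hy => ?_⟩
      · have := ha.1 _ (hb.1 y hy)
        rwa [show a * (b * y * b⁻¹) * a⁻¹ = a * b * y * (a * b)⁻¹ by group] at this
      · have := hb.2 _ (ha.2 y hy)
        rwa [show b⁻¹ * (a⁻¹ * y * a⁻¹⁻¹) * b⁻¹⁻¹ = (a * b)⁻¹ * y * (a * b)⁻¹⁻¹ by group] at this
    | inv a _ ha => exact ⟨ha.2, by simpa using ha.1⟩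
  exact key.1

/-- The normal closure of the commutators of a list. -/
def K (m : Amb) (Z : List (GL (Fin m.1) ℚ)) : Subgroup (GL (Fin m.1) ℚ) :=
  m.ncl {y | ∃ z ∈ Z, ∃ z' ∈ Z, ⁅z, z'⁆ = y}

/-- Its description by generators and normal generators. -/
def K' (m : Amb) (r : List (GL (Fin m.1) ℚ) × List (GL (Fin m.1) ℚ)) :
    Subgroup (GL (Fin m.1) ℚ) := Subgroup.closure {z | z ∈ r.1} ⊔ m.ncl {w | w ∈ r.2}

/-- The certificate of one step. -/
def Cert (m : Amb) (Z : List (GL (Fin m.1) ℚ))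
    (r : List (GL (Fin m.1) ℚ) × List (GL (Fin m.1) ℚ)) : Prop :=
  (∀ z ∈ r.1, z ∈ K m Z) ∧ (∀ w ∈ r.2, w ∈ K m Z ∧ IsUni m.2.1 w) ∧
    (∀ z ∈ Z, ∀ z' ∈ Z, ⁅z, z'⁆ ∈ K' m r) ∧
    ∀ x ∈ m.2.2.2, ∀ z ∈ r.1, x * z * x⁻¹ ∈ K' m r ∧ x⁻¹ * z * x⁻¹⁻¹ ∈ K' m r

theorem nor_K {Z : List (GL (Fin m.1) ℚ)} (hZ : ∀ z ∈ Z, z ∈ m.P) : Nor m (K m Z) :=
  nor_ncl (by
    rintro _ ⟨z, hz, z', hz', rfl⟩
    exact comm_mem nor_P (hZ z hz) (hZ z' hz'))

theorem Cert.eq {Z : List (GL (Fin m.1) ℚ)} (hZ : ∀ z ∈ Z, z ∈ m.P) {r} (h : Cert m Z r) :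
    K m Z = K' m r := by
  have h1 : K' m r ≤ K m Z := sup_le ((Subgroup.closure_le _).2 h.1)
    ((nor_K hZ).ncl_le fun w hw => (h.2.1 w hw).1)
  have hW : Nor m (m.ncl {w | w ∈ r.2}) := nor_ncl fun w hw => (nor_K hZ).1 (h.2.1 w hw).1
  have key : ∀ g ∈ m.P, (∀ z ∈ r.1, g * z * g⁻¹ ∈ K' m r) → ∀ y ∈ K' m r,
      g * y * g⁻¹ ∈ K' m r := fun g hg hz y hy => by
    rw [K', Subgroup.sup_eq_closure] at hy
    refine conj_closure ?_ y hy
    rintro y (hy | hy)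
    · exact conj_closure hz y hy
    · exact Subgroup.mem_sup_right (hW.2 g hg y hy)
  have h2 : Nor m (K' m r) := nor_of_gens (h1.trans (nor_K hZ).1) fun x hx =>
    ⟨key x (Subgroup.subset_closure hx) fun z hz => (h.2.2.2 x hx z hz).1,
      key x⁻¹ (inv_mem (Subgroup.subset_closure hx)) fun z hz => (h.2.2.2 x hx z hz).2⟩
  refine le_antisymm (h2.ncl_le ?_) h1
  rintro _ ⟨z, hz, z', hz', rfl⟩
  exact h.2.2.1 z hz z' hz'

theorem exists_cert (hN : m.Noeth) {Z : List (GL (Fin m.1) ℚ)} (hZ : ∀ z ∈ Z, z ∈ m.P) :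
    ∃ r, Cert m Z r := by
  obtain ⟨Z', h1, h2⟩ := hN (K m Z) (nor_K hZ).1
  have h3 : ∀ S : List (GL (Fin m.1) ℚ), (∀ s ∈ S, s ∈ K m Z) →
      ∃ W : List (GL (Fin m.1) ℚ), (∀ w ∈ W, w ∈ K m Z ∧ IsUni m.2.1 w) ∧
        ∀ s ∈ S, s ∈ K' m (Z', W) := by
    intro S hS
    choose! l hl hl' using h2
    have hK : Subgroup.closure {z | z ∈ Z'} ≤ K m Z := (Subgroup.closure_le _).2 h1
    refine ⟨S.map fun s => s * (l s)⁻¹, fun w hw => ?_, fun s hs => ?_⟩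
    · obtain ⟨s, hs, rfl⟩ := List.mem_map.1 hw
      exact ⟨mul_mem (hS s hs) (inv_mem (hK (hl s (hS s hs)))), hl' s (hS s hs)⟩
    · have e : s = s * (l s)⁻¹ * l s := by group
      rw [e]
      exact mul_mem (Subgroup.mem_sup_right (sub_ncl (List.mem_map.2 ⟨s, hs, rfl⟩)))
        (Subgroup.mem_sup_left (hl s (hS s hs)))
  obtain ⟨W, h4, h5⟩ := h3 ((Z.flatMap fun z => Z.map fun z' => ⁅z, z'⁆) ++
      m.2.2.2.flatMap fun x => Z'.flatMap fun z => [x * z * x⁻¹, x⁻¹ * z * x⁻¹⁻¹]) (by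
    intro s hs
    simp only [List.mem_append, List.mem_flatMap, List.mem_map, List.mem_cons, List.not_mem_nil,
      or_false] at hs
    rcases hs with ⟨z, hz, z', hz', rfl⟩ | ⟨x, hx, z, hz, rfl | rfl⟩
    · exact sub_ncl ⟨z, hz, z', hz', rfl⟩
    · exact (nor_K hZ).2 x (Subgroup.subset_closure hx) z (h1 z hz)
    · exact (nor_K hZ).2 x⁻¹ (inv_mem (Subgroup.subset_closure hx)) z (h1 z hz))
  simp only [List.mem_append, List.mem_flatMap, List.mem_map, List.mem_cons, List.not_mem_nil,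
    or_false] at h5
  exact ⟨(Z', W), h1, h4, fun z hz z' hz' => h5 _ (Or.inl ⟨z, hz, z', hz', rfl⟩),
    fun x hx z hz => ⟨h5 _ (Or.inr ⟨x, hx, z, hz, Or.inl rfl⟩),
      h5 _ (Or.inr ⟨x, hx, z, hz, Or.inr rfl⟩)⟩⟩

theorem comm_closure_le {G : Type} [Group G] {s : Set G} {L : Subgroup G}
    (hL : ∀ g ∈ Subgroup.closure s, ∀ y ∈ L, g * y * g⁻¹ ∈ L)
    (h : ∀ x ∈ s, ∀ y ∈ s, ⁅x, y⁆ ∈ L) : ⁅Subgroup.closure s, Subgroup.closure s⁆ ≤ L := by
  have step : ∀ y, (∀ x ∈ s, ⁅x, y⁆ ∈ L) → ∀ x ∈ Subgroup.closure s, ⁅x, y⁆ ∈ L := by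
    intro y hy x hx
    induction hx using Subgroup.closure_induction with
    | mem x hx => exact hy x hx
    | one => simp
    | mul a b ha _ h1 h2 =>
      rw [show ⁅a * b, y⁆ = a * ⁅b, y⁆ * a⁻¹ * ⁅a, y⁆ by simp only [commutatorElement_def]; group]
      exact mul_mem (hL a ha _ h2) h1
    | inv a ha h1 =>
      rw [show ⁅a⁻¹, y⁆ = a⁻¹ * ⁅a, y⁆⁻¹ * a⁻¹⁻¹ by simp only [commutatorElement_def]; group]
      exact hL _ (inv_mem ha) _ (inv_mem h1)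
  refine Subgroup.commutator_le.2 fun x hx y hy => step y (fun z hz => ?_) x hx
  rw [← commutatorElement_inv]
  exact inv_mem (step z (fun w hw => h w hw z hz) y hy)

theorem comm_eq {Z : List (GL (Fin m.1) ℚ)} {Y : Subgroup (GL (Fin m.1) ℚ)} (hY : Nor m Y)
    (hD : Nor m (Subgroup.closure {z | z ∈ Z} ⊔ Y)) :
    ⁅Subgroup.closure {z | z ∈ Z} ⊔ Y, Subgroup.closure {z | z ∈ Z} ⊔ Y⁆ =
      K m Z ⊔ (m.ncl {w | ∃ z ∈ Z, ∃ y ∈ Y, ⁅z, y⁆ = w} ⊔ ⁅Y, Y⁆) := by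
  have hZ' : ∀ z ∈ Z, z ∈ Subgroup.closure {z | z ∈ Z} ⊔ Y := fun z hz =>
    Subgroup.mem_sup_left (Subgroup.subset_closure hz)
  have hZ : ∀ z ∈ Z, z ∈ m.P := fun z hz => hD.1 (hZ' z hz)
  refine le_antisymm ?_ (sup_le ((hD.comm hD).ncl_le ?_) (sup_le ((hD.comm hD).ncl_le ?_)
    (Subgroup.commutator_mono le_sup_right le_sup_right)))
  · have e : Subgroup.closure {z | z ∈ Z} ⊔ Y = Subgroup.closure ({z | z ∈ Z} ∪ Y) := by
      rw [Subgroup.closure_union, Subgroup.closure_eq]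
    have hL := (nor_K hZ).sup ((nor_ncl (m := m) (s := {w | ∃ z ∈ Z, ∃ y ∈ Y, ⁅z, y⁆ = w}) (by
      rintro _ ⟨z, hz, y, hy, rfl⟩
      exact comm_mem nor_P (hZ z hz) (hY.1 hy))).sup (hY.comm hY))
    rw [e] at hD ⊢
    refine comm_closure_le (fun g hg => hL.2 g (hD.1 hg)) ?_
    rintro x (hx | hx) y (hy | hy)
    · exact Subgroup.mem_sup_left (sub_ncl ⟨x, hx, y, hy, rfl⟩)
    · exact Subgroup.mem_sup_right (Subgroup.mem_sup_left (sub_ncl ⟨x, hx, y, hy, rfl⟩))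
    · rw [← commutatorElement_inv]
      exact inv_mem (Subgroup.mem_sup_right (Subgroup.mem_sup_left (sub_ncl ⟨y, hy, x, hx, rfl⟩)))
    · exact Subgroup.mem_sup_right (Subgroup.mem_sup_right
        (Subgroup.commutator_mem_commutator hx hy))
  · rintro _ ⟨z, hz, z', hz', rfl⟩
    exact Subgroup.commutator_mem_commutator (hZ' z hz) (hZ' z' hz')
  · rintro _ ⟨z, hz, y, hy, rfl⟩
    exact Subgroup.commutator_mem_commutator (hZ' z hz) (Subgroup.mem_sup_right hy)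

theorem ncl_sup_eq {Z : List (GL (Fin m.1) ℚ)} {D Y : Subgroup (GL (Fin m.1) ℚ)} (hD : Nor m D)
    (e : D = Subgroup.closure {z | z ∈ Z} ⊔ Y) : m.ncl {z | z ∈ Z} ⊔ Y = D :=
  le_antisymm (sup_le (hD.ncl_le fun _ hz => e.ge
      (Subgroup.mem_sup_left (Subgroup.subset_closure hz))) (le_sup_right.trans e.ge))
    (e.le.trans (sup_le_sup_right ((Subgroup.closure_le _).2 fun _ hz => sub_ncl hz) _))

theorem der_ambOf {b n c : ℕ} (wt : Fin n → ℕ) (g : Fin b → GL (Fin n) ℚ) (d : ℕ) :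
    der (ambOf wt c g).P d = (derivedSeries (Fr b) d).map (FreeGroup.lift g) := by
  rw [← der_top, map_der, ambOf_P, MonoidHom.range_eq_map]
  rfl

theorem nrm_bot : m.Nrm ⊥ :=
  ⟨bot_le, fun y hy => by rw [Subgroup.mem_bot.1 hy]; exact IsUni.one,
    fun g _ y hy => by rw [Subgroup.mem_bot.1 hy]; simp⟩

theorem ncl_nil : m.ncl {w | w ∈ ([] : List (GL (Fin m.1) ℚ))} = ⊥ :=
  le_bot_iff.1 ((nrm_iff.1 nrm_bot).1.ncl_le fun _ hx => absurd hx List.not_mem_nil)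

end pure

section comp
variable {m : A → Amb}

theorem cn (hm : CS m) : CS (fun a => (m a).1) := hm.sfst

theorem c2 (hm : CS m) : CS (fun a => (m a).2) := FEnumAux.s2 hm

theorem grp (hm : CS m) : GrpF (fun a => GL (Fin (m a).1) ℚ) :=
  GrpF.gl (CFin.fin (cn hm)) Disc.fin

theorem cset {l : ∀ a, List (GL (Fin (m a).1) ℚ)} (hm : CS m) (hl : CS l) :
    CS (fun a => {x | x ∈ l a}) :=
  CS.setOf (CS.memList ((grp hm).disc.comp s1) s2 (hl.comp s1))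

theorem cP (hm : CS m) : CS (fun a => (m a).P) := CS.closure (grp hm) (cset hm (c2 hm).snd.snd)

theorem cncl {s : ∀ a, Set (GL (Fin (m a).1) ℚ)} (hm : CS m) (hs : CS s) :
    CS (fun a => (m a).ncl (s a)) :=
  have hG := (grp hm).comp (s1.comp (s1 (β := fun p : Σ a, GL (Fin (m a).1) ℚ =>
    GL (Fin (m p.1).1) ℚ × GL (Fin (m p.1).1) ℚ)))
  CS.closure (grp hm) (CS.setIntro ((CS.ex
    (P := fun p (q : GL (Fin (m p.1).1) ℚ × GL (Fin (m p.1).1) ℚ) =>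
      q.1 ∈ (m p.1).P ∧ q.2 ∈ s p.1 ∧ q.1 * q.2 * q.1⁻¹ = p.2)
    (((grp hm).enum.prod (grp hm).enum).comp s1)
    (CS.and (CS.memSubgroup ((cP hm).comp (s1.comp s1)) s2.fst)
      (CS.and (CS.memSet (hs.comp (s1.comp s1)) s2.snd) (CS.eq hG.disc
        (CS.mul hG.mul (CS.mul hG.mul s2.fst s2.snd) (CS.inv hG.inv s2.fst))
        (s2.comp s1))))).of_iff fun _ _ => by
      simp only [Set.mem_ofPred_eq, Prod.exists, exists_and_left]))

variable {Z : ∀ a, List (GL (Fin (m a).1) ℚ)}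
  {r : ∀ a, List (GL (Fin (m a).1) ℚ) × List (GL (Fin (m a).1) ℚ)}

theorem cK (hm : CS m) (hZ : CS Z) : CS (fun a => K (m a) (Z a)) :=
  cncl hm (CS.setOf (CS.exMem (hZ.comp s1) (CS.exMem (hZ.comp (s1.comp s1))
    (CS.eq ((grp hm).disc.comp ((s1.comp s1).comp s1))
      (CS.commutator ((grp hm).mul.comp ((s1.comp s1).comp s1))
        ((grp hm).inv.comp ((s1.comp s1).comp s1)) (s2.comp s1) s2) ((s2.comp s1).comp s1)))))

theorem cK' (hm : CS m) (hr : CS r) : CS (fun a => K' (m a) (r a)) :=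
  CS.subgroupSup (grp hm) (CS.closure (grp hm) (cset hm hr.fst)) (cncl hm (cset hm hr.snd))

theorem cCert (hm : CS m) (hZ : CS Z) (hr : CS r) : CS (fun a => Cert (m a) (Z a) (r a)) := by
  have hG := (grp hm).comp (s1.comp (s1 (β := fun p : Σ a, GL (Fin (m a).1) ℚ =>
    GL (Fin (m p.1).1) ℚ)))
  have hK := (cK' hm hr).comp (s1.comp (s1 (β := fun p : Σ a, GL (Fin (m a).1) ℚ =>
    GL (Fin (m p.1).1) ℚ)))
  refine CS.and (CS.allMem hr.fst (CS.memSubgroup ((cK hm hZ).comp s1) s2))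
    (CS.and (CS.allMem hr.snd (CS.and (CS.memSubgroup ((cK hm hZ).comp s1) s2)
      (CS.isUni ((cn hm).comp s1) ((c2 hm).fst.comp s1) s2))) (CS.and ?_ ?_))
  · exact CS.allMem hZ (CS.allMem (hZ.comp s1)
      (CS.memSubgroup hK (CS.commutator hG.mul hG.inv (s2.comp s1) s2)))
  · exact CS.allMem (c2 hm).snd.snd (CS.allMem (hr.fst.comp s1) (CS.and
      (CS.memSubgroup hK (CS.mul hG.mul (CS.mul hG.mul (s2.comp s1) s2)
        (CS.inv hG.inv (s2.comp s1))))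
      (CS.memSubgroup hK (CS.mul hG.mul (CS.mul hG.mul (CS.inv hG.inv (s2.comp s1)) s2)
        (CS.inv hG.inv (CS.inv hG.inv (s2.comp s1)))))))

variable {Y : ∀ a, Subgroup (GL (Fin (m a).1) ℚ)}

theorem step2 (hm : CS m) (hok : ∀ a, (m a).ok) (hZ : CS Z) (hY : DS m Y)
    (hYN : ∀ a, (m a).Nrm (Y a))
    (hD : ∀ a, Nor (m a) (Subgroup.closure {z | z ∈ Z a} ⊔ Y a)) (hr : CS r)
    (hc : ∀ a, Cert (m a) (Z a) (r a)) :
    MV (fun a (q : List (GL (Fin (m a).1) ℚ) × DG (m a)) => (m a).Nrm q.2 ∧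
      ⁅Subgroup.closure {z | z ∈ Z a} ⊔ Y a, Subgroup.closure {z | z ∈ Z a} ⊔ Y a⁆ =
        Subgroup.closure {z | z ∈ q.1} ⊔ (show Subgroup _ from q.2)) := by
  have hZP : ∀ a, ∀ z ∈ Z a, z ∈ (m a).P := fun a z hz =>
    (hD a).1 (Subgroup.mem_sup_left (Subgroup.subset_closure hz))
  have hW : ∀ a, ∀ w ∈ (r a).2, w ∈ (m a).P ∧ IsUni (m a).2.1 w := fun a w hw =>
    ⟨(nor_K (hZP a)).1 ((hc a).2.1 w hw).1, ((hc a).2.1 w hw).2⟩
  have n1 := fun a => nrm_ncl (hok a) (hW a)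
  have n2 := fun a => nrm_commList (hok a) (hYN a) (hZP a)
  have n3 := fun a => nrm_comm (hYN a)
  have h := DS.sup hm hok (DS.ncl hm hok hr.snd hW) (DS.sup hm hok
    (DS.commList hm hok hZ hZP hY hYN) (DS.comm hm hok hY hY hYN hYN) n2 n3) n1
    fun a => nrm_sup (n2 a) (n3 a)
  refine MV.of_cs (CS.pair (β := fun a => DG (m a)) hr.fst h) fun a _ =>
    ⟨nrm_sup (n1 a) (nrm_sup (n2 a) (n3 a)), ?_⟩
  rw [comm_eq (nrm_iff.1 (hYN a)).1 (hD a), (hc a).eq (hZP a), K', sup_assoc]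

theorem step (hm : CS m) (hok : ∀ a, (m a).ok) (hN : ∀ a, (m a).Noeth) (hZ : CS Z) (hY : DS m Y)
    (hYN : ∀ a, (m a).Nrm (Y a))
    (hD : ∀ a, Nor (m a) (Subgroup.closure {z | z ∈ Z a} ⊔ Y a)) :
    MV (fun a (q : List (GL (Fin (m a).1) ℚ) × DG (m a)) => (m a).Nrm q.2 ∧
      ⁅Subgroup.closure {z | z ∈ Z a} ⊔ Y a, Subgroup.closure {z | z ∈ Z a} ⊔ Y a⁆ =
        Subgroup.closure {z | z ∈ q.1} ⊔ (show Subgroup _ from q.2)) := by
  have h : MV (fun a r => Cert (m a) (Z a) r) :=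
    MV.search ((grp hm).enum.list.prod (grp hm).enum.list) (cCert (hm.comp s1) (hZ.comp s1) s2)
      (fun _ _ h => h) fun a _ => exists_cert (hN a) fun z hz =>
        (hD a).1 (Subgroup.mem_sup_left (Subgroup.subset_closure hz))
  exact h.bind (step2 (hm.comp v1) (fun p => hok _) (hZ.comp v1) (hY.comp v1) (fun p => hYN _)
    (fun p => hD _) v2 fun p => p.2)

theorem allY (hm : CS m) (hok : ∀ a, (m a).ok) (hZ : CS Z) (hY : DS m Y)
    (hYN : ∀ a, (m a).Nrm (Y a)) : CS (fun a => ∀ z ∈ Z a, z ∈ Y a) :=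
  CS.allMem hZ (DS.mem (hm.comp s1) (fun _ => hok _) (hY.comp s1) (fun _ => hYN _) s2)

theorem dbot (hm : CS m) (hok : ∀ a, (m a).ok) : DS m (fun _ => ⊥) :=
  CS.congr (T := fun a => DG (m a))
    (DS.ncl (W := fun _ => []) hm hok CS.nil fun _ _ hw => absurd hw List.not_mem_nil)
    fun _ _ => ncl_nil

end comp

end CDerAux

open CDerAux

section amb
variable {m : A → Amb} {j : A → ℕ}

theorem MV.der (hm : CS m) (hok : ∀ a, (m a).ok) (hN : ∀ a, (m a).Noeth) (hj : CS j) :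
    MV (fun a (r : List (GL (Fin (m a).1) ℚ) × DG (m a)) => (m a).Nrm r.2 ∧
      der (m a).P (j a) = Subgroup.closure {z | z ∈ r.1} ⊔ (show Subgroup _ from r.2)) := by
  refine MV.iter (T := fun a _ => List (GL (Fin (m a).1) ℚ) × DG (m a))
    (P := fun a j r => (m a).Nrm r.2 ∧
      MP_257122_al.der (m a).P j = Subgroup.closure {z | z ∈ r.1} ⊔ (show Subgroup _ from r.2)) ?_ ?_ hj
  · exact MV.of_cs (CS.pair (β := fun a => DG (m a)) (c2 hm).snd.snd (dbot hm hok)) fun a _ =>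
      ⟨nrm_bot, (sup_bot_eq _).symm⟩
  · have h2 := FEnumAux.s2 (v2 (A := A)
      (β := fun a => Σ _ : ℕ, List (GL (Fin (m a).1) ℚ) × DG (m a))
      (Q := fun p => (m p.1).Nrm p.2.2.2 ∧ MP_257122_al.der (m p.1).P p.2.1 =
        Subgroup.closure {z | z ∈ p.2.2.1} ⊔ (show Subgroup _ from p.2.2.2)))
    refine (step (hm.comp v1) (fun p => hok _) (fun p => hN _) h2.fst h2.snd (fun p => p.2.1)
      fun p => ?_).mono fun p q _ _ h => ⟨h.1, ?_⟩
    · rw [← p.2.2]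
      exact nor_der _
    · rw [der_succ, p.2.2]
      exact h.2

theorem CS.derLe {Y : ∀ a, Subgroup (GL (Fin (m a).1) ℚ)} (hm : CS m) (hok : ∀ a, (m a).ok)
    (hN : ∀ a, (m a).Noeth) (hj : CS j) (h : DS m Y) (hY : ∀ a, (m a).Nrm (Y a)) :
    CS (fun a => der (m a).P (j a) ≤ Y a) := by
  refine (MV.der hm hok hN hj).elim (CS.of_iff (CS.and
    (allY (hm.comp v1) (fun p => hok _) v2.fst (h.comp v1) fun p => hY _)
    (DS.le (hm.comp v1) (fun p => hok _) v2.snd (h.comp v1) (fun p => p.2.1) fun p => hY _))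
    fun p _ => ?_)
  rw [p.2.2, sup_le_iff, Subgroup.closure_le]
  rfl

theorem DS.der (hm : CS m) (hok : ∀ a, (m a).ok) (hN : ∀ a, (m a).Noeth) (hj : CS j)
    (hU : ∀ a, ∀ y ∈ der (m a).P (j a), IsUni (m a).2.1 y) :
    DS m (fun a => der (m a).P (j a)) := by
  have hZ : ∀ p : {p : Σ a, List (GL (Fin (m a).1) ℚ) × DG (m a) // (m p.1).Nrm p.2.2 ∧
      MP_257122_al.der (m p.1).P (j p.1) =
        Subgroup.closure {z | z ∈ p.2.1} ⊔ (show Subgroup _ from p.2.2)},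
      ∀ z ∈ p.1.2.1, z ∈ MP_257122_al.der (m p.1.1).P (j p.1.1) := fun p z hz => by
    rw [p.2.2]
    exact Subgroup.mem_sup_left (Subgroup.subset_closure hz)
  have hW := fun p z hz => And.intro ((nor_der _).1 (hZ p z hz)) (hU _ z (hZ p z hz))
  refine (MV.der hm hok hN hj).elim (U := fun a => DG (m a)) (CS.congr
    (DS.sup (hm.comp v1) (fun p => hok _) (DS.ncl (hm.comp v1) (fun p => hok _) v2.fst hW) v2.snd
      (fun p => nrm_ncl (hok _) (hW p)) fun p => p.2.1) fun p _ => ?_)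
  exact ncl_sup_eq (nor_der _) p.2.2

end amb

section rep
variable {b n c d : A → ℕ} {wt : ∀ a, Fin (n a) → ℕ} {g : ∀ a, Fin (b a) → GL (Fin (n a)) ℚ}
  {W : ∀ a, List (Fr (b a))} {N : ∀ a, Subgroup (Fr (b a))}

/-- The image of a normal closure. -/
theorem DS.mapNcl (hb : CS b) (hn : CS n) (hw : CS wt) (hc : CS c) (hg : CS g) (hW : CS W)
    (hA : ∀ a, Adapt (wt a) (c a) (FreeGroup.lift (g a)) (Subgroup.normalClosure {w | w ∈ W a})) :
    DS (fun a => ambOf (wt a) (c a) (g a))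
      (fun a => (Subgroup.normalClosure {w | w ∈ W a}).map (FreeGroup.lift (g a))) := by
  have hG : GrpF (fun a => GL (Fin (n a)) ℚ) := GrpF.gl (CFin.fin hn) Disc.fin
  have hl : CS (fun a => (W a).map (FreeGroup.lift (g a))) :=
    CS.map (CS.freeLift hG.mul hG.inv hG.one hg).homCoe hW
  refine CS.congr (T := fun a => DG (ambOf (wt a) (c a) (g a)))
    (DS.ncl (W := fun a => (W a).map (FreeGroup.lift (g a))) (CS.ambOf hb hn hw hc hg)
      (fun a => ambOf_ok (hA a)) hl fun a w hw => ?_) fun a _ => ?_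
  · obtain ⟨x, hx, rfl⟩ := List.mem_map.1 hw
    refine ⟨?_, (hA a).2.2 x (Subgroup.subset_normalClosure hx)⟩
    rw [ambOf_P]
    exact ⟨x, rfl⟩
  · refine Eq.trans (congrArg (ambOf (wt a) (c a) (g a)).ncl ?_) (ambOf_ncl {w | w ∈ W a})
    exact Set.ext fun y => List.mem_map

/-- The image of the subgroup of relations. -/
theorem DS.mapRel (hb : CS b) (hn : CS n) (hw : CS wt) (hc : CS c) (hg : CS g) (hd : CS d)
    (hW : CS W) (hA : ∀ a, Adapt (wt a) (c a) (FreeGroup.lift (g a)) (N a))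
    (hN : ∀ a, (N a).Normal ∧ VAb (N a)) (hS : ∀ a, relS (d a) (W a) ≤ N a) :
    DS (fun a => ambOf (wt a) (c a) (g a))
      (fun a => (relS (d a) (W a)).map (FreeGroup.lift (g a))) := by
  have e := fun a => der_ambOf (c := c a) (wt a) (g a) (d a)
  have h1 : ∀ a, Subgroup.normalClosure {w | w ∈ W a} ≤ N a := fun a => le_sup_left.trans (hS a)
  have h2 : ∀ a, derivedSeries (Fr (b a)) (d a) ≤ N a := fun a => le_sup_right.trans (hS a)
  have hm := CS.ambOf hb hn hw hc hg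
  have hok := fun a => ambOf_ok (hA a)
  refine CS.congr (T := fun a => DG (ambOf (wt a) (c a) (g a))) (DS.sup hm hok
    (DS.mapNcl hb hn hw hc hg hW fun a => ⟨(hA a).1, (hA a).2.1, fun y hy => (hA a).2.2 y (h1 a hy)⟩)
    (DS.der hm hok (fun a => have := (hN a).1; ambOf_noeth (hA a) (hN a).2) hd fun a y hy => ?_)
    (fun a => ambOf_nrm (hA a) (h1 a)) fun a => ?_) fun a _ => ?_
  · rw [e] at hy
    obtain ⟨x, hx, rfl⟩ := hy
    exact (hA a).2.2 x (h2 a hx)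
  · rw [e]
    exact ambOf_nrm (hA a) (h2 a)
  · rw [e]
    exact (Subgroup.map_sup _ _ _).symm

/-- It is r.e. that a representation kills all relations. -/
theorem CS.relLeKerGL (hb : CS b) (hn : CS n) (hw : CS wt) (hc : CS c) (hg : CS g) (hd : CS d)
    (hW : CS W) (hA : ∀ a, Adapt (wt a) (c a) (FreeGroup.lift (g a)) (N a))
    (hN : ∀ a, (N a).Normal ∧ VAb (N a)) :
    CS (fun a => relS (d a) (W a) ≤ (FreeGroup.lift (g a)).ker) := by
  have hG : GrpF (fun a => GL (Fin (n a)) ℚ) := GrpF.gl (CFin.fin hn) Disc.fin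
  have hm := CS.ambOf hb hn hw hc hg
  have hok := fun a => ambOf_ok (hA a)
  have h1 : CS (fun a => ∀ w ∈ W a, w ∈ (FreeGroup.lift (g a)).ker) :=
    CS.allMem hW (CS.memSubgroup
      ((CS.ker hG.disc hG.one (CS.freeLift hG.mul hG.inv hG.one hg)).comp s1) s2)
  refine (CS.and h1
    (CS.derLe hm hok (fun a => have := (hN a).1; ambOf_noeth (hA a) (hN a).2) hd (dbot hm hok)
      fun _ => nrm_bot)).of_iff fun a _ => ?_
  rw [der_ambOf, relS, sup_le_iff]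
  exact and_congr ⟨fun h => Subgroup.normalClosure_le_normal h,
    fun h w hw => h (Subgroup.subset_normalClosure hw)⟩
    (le_bot_iff.trans (Subgroup.map_eq_bot_iff (f := FreeGroup.lift (g a)) _))

end rep

end Pool.Agent.P.MP_257122_al
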