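import Pool.Agent.P.MP_257122_al.CComp

/-!
# Described groups: coset representatives and the general construction
-/

namespace Pool.Agent.P.MP_257122_al.C

open scoped commutatorElement

theorem mem_scal {V : Type} [AddCommGroup V] [Module ℚ V] {Λ : AddSubgroup V} {k : ℕ} {x : V} :
    x ∈ scal k Λ ↔ ∃ v ∈ Λ, k • v = x := by
  simp [scal, lmap, Nat.cast_smul_eq_nsmul]

theorem reps_closure {V : Type} [AddCommGroup V] {N : ℕ} (hN : 0 < N) (l : List V) :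
    ∃ R : List V, ∀ x ∈ AddSubgroup.closure {x | x ∈ l}, ∃ r ∈ R,
      ∃ v ∈ AddSubgroup.closure {x | x ∈ l}, x - r = N • v := by
  induction l with
  | nil => exact ⟨[0], fun x hx => ⟨0, by simp, 0, zero_mem _, by simpa using hx⟩⟩
  | cons a l ih =>
    obtain ⟨R, hR⟩ := ih
    refine ⟨(List.range N).flatMap fun s => R.map (s • a + ·), fun x hx => ?_⟩
    have e : {x | x ∈ a :: l} = {a} ∪ {x | x ∈ l} := by ext; simp
    rw [e, AddSubgroup.closure_union] at hx ⊢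
    obtain ⟨y, hy, z, hz, rfl⟩ := AddSubgroup.mem_sup.1 hx
    obtain ⟨q, rfl⟩ := AddSubgroup.mem_closure_singleton.1 hy
    obtain ⟨r, h1, v, h2, h3⟩ := hR z hz
    have p1 : 0 ≤ q % N := Int.emod_nonneg _ (by omega)
    have p2 : q % N < N := Int.emod_lt_of_pos _ (by omega)
    refine ⟨(q % N).toNat • a + r, List.mem_flatMap.2 ⟨_, List.mem_range.2 (by omega),
      List.mem_map.2 ⟨r, h1, rfl⟩⟩, (q / N) • a + v, AddSubgroup.add_mem_sup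
        (AddSubgroup.mem_closure_singleton.2 ⟨_, rfl⟩) h2, ?_⟩
    rw [add_sub_add_comm, h3, smul_add, ← natCast_zsmul a, Int.toNat_of_nonneg p1, ← sub_smul,
      ← natCast_zsmul (_ • a), smul_smul, Int.emod_def, sub_sub_cancel]

theorem exists_reps {V : Type} [AddCommGroup V] [Module ℚ V] [Module.Finite ℚ V]
    (Λ : AddSubgroup V) {N : ℕ} (hN : 0 < N) :
    ∃ R : List V, ∀ x ∈ Λ, ∃ r ∈ R, ∃ v ∈ Λ, x - r = N • v := by
  obtain ⟨l, h1, h2⟩ := exists_le_closure_sup_scal Λ hN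
  obtain ⟨R, hR⟩ := reps_closure hN l
  refine ⟨R, fun x hx => ?_⟩
  obtain ⟨y, hy, z, hz, rfl⟩ := AddSubgroup.mem_sup.1 (h2 hx)
  obtain ⟨w, hw, rfl⟩ := mem_scal.1 hz
  obtain ⟨r, h3, v, h4, h5⟩ := hR y hy
  exact ⟨r, h3, v + w, add_mem ((AddSubgroup.closure_le Λ).2 h1 h4) hw, by
    rw [add_sub_right_comm, h5, smul_add]⟩

section grp
variable {G : Type} [Group G] {X W T : List G} {E Y : Subgroup G}

theorem cert_sound (hE : ∀ g ∈ Subgroup.closure {x | x ∈ X}, ∀ e ∈ E, g * e * g⁻¹ ∈ E)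
    (hT : ∀ t ∈ T, t ∈ Subgroup.closure {x | x ∈ X}) (h : Cert X W T E) {y : G}
    (hy : y ∈ Subgroup.closure {y | ∃ g ∈ Subgroup.closure {x | x ∈ X}, ∃ x ∈ {w | w ∈ W},
      g * x * g⁻¹ = y} ⊔ E) : InC T E y := by
  obtain ⟨h1, h2, h3⟩ := h
  let S : Subgroup G :=
    { carrier := {g | InC T E g}
      one_mem' := h1
      mul_mem' := fun {a b} ⟨t, ht, p⟩ ⟨t', ht', q⟩ => by
        obtain ⟨u, hu, r⟩ := (h3 t ht).2.1 t' ht'
        refine ⟨u, hu, ?_⟩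
        convert mul_mem (mul_mem r (hE _ (inv_mem (hT t' ht')) _ p)) q using 1
        group
      inv_mem' := fun {a} ⟨t, ht, p⟩ => by
        obtain ⟨u, hu, r⟩ := (h3 t ht).1
        refine ⟨u, hu, ?_⟩
        convert mul_mem r (hE _ (hT t ht) _ (inv_mem p)) using 1
        group }
  have hc : ∀ g ∈ Subgroup.closure {x | x ∈ X}, ∀ s ∈ S, g * s * g⁻¹ ∈ S ∧ g⁻¹ * s * g ∈ S := by
    intro g hg
    induction hg using Subgroup.closure_induction with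
    | mem x hx =>
      rintro s ⟨t, ht, p⟩
      obtain ⟨⟨u, hu, r⟩, u', hu', r'⟩ := (h3 t ht).2.2 x hx
      have hx' : x ∈ Subgroup.closure {x | x ∈ X} := Subgroup.subset_closure hx
      refine ⟨⟨u, hu, ?_⟩, u', hu', ?_⟩
      · convert mul_mem r (hE _ hx' _ p) using 1
        group
      · convert mul_mem r' (hE _ (inv_mem hx') _ p) using 1
        group
    | one => exact fun s hs => by simpa using hs
    | mul a b _ _ p q =>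
      exact fun s hs => ⟨by simpa [mul_assoc] using (p _ (q s hs).1).1,
        by simpa [mul_assoc] using (q _ (p s hs).2).2⟩
    | inv a _ p => exact fun s hs => by simpa using (p s hs).symm
  refine (sup_le ((Subgroup.closure_le S).2 ?_) fun e he => ?_ : _ ≤ S) hy
  · rintro _ ⟨g, hg, w, hw, rfl⟩
    exact (hc g hg w (h2 w hw)).1
  · obtain ⟨t, ht, p⟩ := h1
    exact ⟨t, ht, by simpa using mul_mem p he⟩

theorem cert_complete (hY : ∀ g ∈ Subgroup.closure {x | x ∈ X}, ∀ y ∈ Y, g * y * g⁻¹ ∈ Y)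
    (hW : ∀ w ∈ W, w ∈ Y) (hT : ∀ t ∈ T, t ∈ Y) (h : ∀ y ∈ Y, InC T E y) : Cert X W T E :=
  ⟨h _ (one_mem _), fun w hw => h _ (hW w hw), fun t ht => ⟨h _ (inv_mem (hT t ht)),
    fun t' ht' => h _ (mul_mem (hT t ht) (hT t' ht')), fun x hx =>
      ⟨h _ (hY x (Subgroup.subset_closure hx) t (hT t ht)), h _ (by
        simpa using hY _ (inv_mem (Subgroup.subset_closure hx)) t (hT t ht))⟩⟩⟩

end grp

section pure
variable {n c D : ℕ} {wt : Fin n → ℕ} {Y : Subgroup (GL (Fin n) ℚ)} (h : Cst c D)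
  (hc : ∀ i, wt i < c) (hY : ∀ y ∈ Y, IsUni wt y)
include h hc hY

theorem pw_of_log {k : ℕ} {t y : GL (Fin n) ℚ} (ht : t ∈ Y) (hy : y ∈ Y)
    {v : Matrix (Fin n) (Fin n) ℚ} (hv : v ∈ logSpan c Y)
    (e : lg c y.val = lg c t.val + (D * k) • v) : t⁻¹ * y ∈ pw k Y := by
  obtain ⟨u, h1, h2⟩ := h.kap hc hY k t ht v hv
  rw [lg_inj hc (hY y hy) (hY _ (mul_mem ht (pw_le _ _ h1))) (e.trans h2.symm)]
  simpa using h1

theorem log_sub {k : ℕ} {y : GL (Fin n) ℚ} (hy : y ∈ Y) {r v : Matrix (Fin n) (Fin n) ℚ}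
    (hv : v ∈ logSpan c Y) (e : (D * k) • v = lg c y.val - r) : ∃ y' ∈ Y, lg c y'.val = r := by
  obtain ⟨u, h1, h2⟩ := h.kap hc hY k y hy _ (neg_mem hv)
  exact ⟨_, mul_mem hy (pw_le _ _ h1), by rw [h2, smul_neg, e]; abel⟩

theorem fin_idx {k : ℕ} (hk : 0 < k) :
    ∃ T : List (GL (Fin n) ℚ), (∀ t ∈ T, t ∈ Y) ∧ ∀ y ∈ Y, InC T (pw k Y) y := by
  obtain ⟨R, hR⟩ := exists_reps (logSpan c Y) (Nat.mul_pos h.pos hk)
  have : ∀ r : Matrix (Fin n) (Fin n) ℚ, ∃ t ∈ Y, (∃ y ∈ Y, lg c y.val = r) → lg c t.val = r :=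
    fun r => (em (∃ y ∈ Y, lg c y.val = r)).elim (fun ⟨y, hy, e⟩ => ⟨y, hy, fun _ => e⟩)
      fun e => ⟨1, one_mem _, fun e' => absurd e' e⟩
  choose t h1 h2 using this
  refine ⟨R.map t, fun u hu => ?_, fun y hy => ?_⟩
  · obtain ⟨r, -, rfl⟩ := List.mem_map.1 hu
    exact h1 r
  · obtain ⟨r, h3, v, h4, h5⟩ := hR _ (lg_mem_span hy)
    exact ⟨t r, List.mem_map_of_mem h3, pw_of_log h hc hY (h1 r) hy h4 (by
      rw [h2 r (log_sub h hc hY hy h4 h5.symm), ← h5]; abel)⟩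

theorem descr_of {N : ℕ} {M : AddSubgroup (Matrix (Fin n) (Fin n) ℚ)}
    (lo : ∀ x ∈ M, N • x ∈ logSpan c Y) (up : ∀ x ∈ logSpan c Y, N • x ∈ M)
    {T : List (GL (Fin n) ℚ)} (h1 : ∀ t ∈ T, t ∈ Y)
    (h2 : ∀ y ∈ Y, InC T (pw (D * (D * N * N)) Y) y) :
    Descr c (scal ((D * N : ℕ) : ℚ) M, T.map fun t => lg c t.val) Y := by
  refine fun x => ⟨?_, ?_⟩
  · rintro ⟨y, hy, rfl⟩
    obtain ⟨t, ht, e⟩ := h2 y hy
    obtain ⟨v, hv, e⟩ := h.shift hc hY _ t (h1 t ht) _ e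
    refine ⟨_, List.mem_map_of_mem ht, mem_scal.2 ⟨_, up v hv, ?_⟩⟩
    rw [mul_inv_cancel_left] at e
    rw [e, ← mul_nsmul', add_sub_cancel_left]
  · rintro ⟨r, hr, e⟩
    obtain ⟨t, ht, rfl⟩ := List.mem_map.1 hr
    obtain ⟨w, hw, e⟩ := mem_scal.1 e
    exact log_sub h hc hY (k := 1) (h1 t ht) (neg_mem (lo w hw)) (by
      rw [mul_one, smul_neg, ← mul_nsmul', e, neg_sub])

end pure

variable {A : Type} [Rep A] {m : A → Amb} {Y Y' : ∀ a, Subgroup (GL (Fin (m a).1) ℚ)}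

theorem ds_gen (hm : CS m) (hok : ∀ a, (m a).ok) (hN : ∀ a, (m a).Nrm (Y a)) (hY : CS Y)
    {M : ∀ a, AddSubgroup (Matrix (Fin (m a).1) (Fin (m a).1) ℚ)} (hM : CS M) {N : A → ℕ}
    (hN' : CS N) (h0 : ∀ a, 0 < N a) (lo : ∀ a, ∀ x ∈ M a, N a • x ∈ logSpan (m a).2.2.1 (Y a))
    (up : ∀ a, ∀ x ∈ logSpan (m a).2.2.1 (Y a), N a • x ∈ M a)
    (hW : ∀ K : A → ℕ, CS K → (∀ a, 0 < K a) → MV (fun a (W : List (GL (Fin (m a).1) ℚ)) =>
      (∀ w ∈ W, w ∈ Y a) ∧ Y a ≤ (m a).ncl {w | w ∈ W} ⊔ pw (K a) (Y a))) : DS m Y := by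
  have hD : CS fun a => dc (m a).2.2.1 := cs_dc.comp (cs_c hm)
  have hDN := CS.mul MulF.nat hD hN'
  have hK := CS.mul MulF.nat hD (CS.mul MulF.nat hDN hN')
  have K0 : ∀ a, 0 < dc (m a).2.2.1 * (dc (m a).2.2.1 * N a * N a) := fun a => by
    have := (cst_dc (m a).2.2.1).pos
    have := h0 a
    positivity
  have key : MV (fun a (T : List (GL (Fin (m a).1) ℚ)) => (∀ t ∈ T, t ∈ Y a) ∧ ∀ y ∈ Y a,
      InC T (pw (dc (m a).2.2.1 * (dc (m a).2.2.1 * N a * N a)) (Y a)) y) := by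
    refine (hW _ hK K0).bind (MV.search (Q' := fun p T => (∀ t ∈ T, t ∈ Y p.1.1) ∧
      Cert (m p.1.1).2.2.2 p.1.2 T (pw (dc (m p.1.1).2.2.1 *
        (dc (m p.1.1).2.2.1 * N p.1.1 * N p.1.1)) (Y p.1.1)))
      (Enum.list (grpGL ((cs_n hm).comp q1)).enum) (CS.and ?_ ?_) ?_ ?_)
    · exact CS.allMem p2 (CS.memSubgroup (hY.comp (q1.comp (p1.comp p1))) p2)
    · exact cs_cert ((cs_n hm).comp (q1.comp p1)) ((cs_X hm).comp (q1.comp p1))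
        (q2.comp p1) p2 ((cs_pw (cs_n hm) hK hY).comp (q1.comp p1))
    · rintro ⟨⟨a, W⟩, h1, h2⟩ T ⟨h3, h4⟩
      exact ⟨h3, fun y hy => cert_sound (fun g hg e he => conj_pw ((hN a).2.2 g hg) he)
        (fun t ht => (hN a).1 (h3 t ht)) h4 (h2 hy)⟩
    · rintro ⟨⟨a, W⟩, h1, h2⟩ -
      obtain ⟨T, h3, h4⟩ := fin_idx (cst_dc _) (hok a).1 (hN a).2.1 (K0 a)
      exact ⟨T, h3, cert_complete (hN a).2.2 h1 h3 h4⟩
  refine ds_iff.2 (key.bind (MV.of_cs (f := fun p =>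
    (scal ((dc (m p.1.1).2.2.1 * N p.1.1 : ℕ) : ℚ) (M p.1.1),
      p.1.2.map fun t => lg (m p.1.1).2.2.1 t.val)) (CS.pair ?_ ?_) ?_))
  · exact (CS.scal (coordM (cs_n hm)) (CS.natCast AddF.rat ZeroF.rat OneF.rat hDN) hM).comp
      q1
  · exact CS.map (CS.lam (cs_lg ((cs_n hm).comp (q1.comp p1)) ((cs_c hm).comp (q1.comp p1))
      p2.unitsVal)) q2
  · rintro ⟨⟨a, T⟩, h1, h2⟩ -
    exact descr_of (cst_dc _) (hok a).1 (hN a).2.1 (lo a) (up a) h1 h2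

theorem ds_cosets (hm : CS m) (h : DS m Y) {K : A → ℕ} (hK : CS K) (K0 : ∀ a, 0 < K a) :
    MV (fun a (l : List (Matrix (Fin (m a).1) (Fin (m a).1) ℚ)) => ∀ y ∈ Y a, ∃ r ∈ l,
      ∃ v ∈ logSpan (m a).2.2.1 (Y a), (dc (m a).2.2.1 * K a) • v = lg (m a).2.2.1 y.val - r) :=
  (MV.cosets (coordM (cs_n hm)) (ds_span hm h) (CS.mul MulF.nat (cs_dc.comp (cs_c hm)) hK)
    fun a => Nat.mul_pos (cst_dc _).pos (K0 a)).mono fun _ _ _ _ hl _ hy =>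
      let ⟨r, h1, h2⟩ := hl.2 _ (lg_mem_span hy); ⟨r, h1, mem_scal.1 h2⟩

theorem ds_reps (hm : CS m) (hok : ∀ a, (m a).ok) (h : DS m Y) (hN : ∀ a, (m a).Nrm (Y a))
    {K : A → ℕ} (hK : CS K) (K0 : ∀ a, 0 < K a) :
    MV (fun a (T : List (GL (Fin (m a).1) ℚ)) => (∀ t ∈ T, t ∈ Y a) ∧
      ∀ y ∈ Y a, InC T (pw (K a) (Y a)) y) := by
  refine (ds_cosets hm h hK K0).bind (MV.search (Q' := fun p T => (∀ t ∈ T, t ∈ Y p.1.1) ∧
    ∀ r ∈ p.1.2, (¬∃ y ∈ Y p.1.1, lg (m p.1.1).2.2.1 y.val = r) ∨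
      ∃ t ∈ T, lg (m p.1.1).2.2.1 t.val = r)
    (Enum.list (grpGL ((cs_n hm).comp q1)).enum) (CS.and ?_ ?_) ?_ ?_)
  · exact CS.allMem p2 (CS.memSubgroup ((ds_re hm hok h hN).comp (q1.comp (p1.comp p1))) p2)
  · refine CS.allMem (q2.comp p1) (CS.or (ds_log (hm.comp (q1.comp (p1.comp p1)))
      (ds_comp h (q1.comp (p1.comp p1))) p2).2 (CS.exMem (p2.comp p1) ?_))
    exact CS.eq (coordM ((cs_n hm).comp (q1.comp (p1.comp (p1.comp p1))))).disc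
      (cs_lg ((cs_n hm).comp (q1.comp (p1.comp (p1.comp p1))))
        ((cs_c hm).comp (q1.comp (p1.comp (p1.comp p1)))) p2.unitsVal) (p2.comp p1)
  · rintro ⟨⟨a, l⟩, h1⟩ T ⟨h3, h4⟩
    refine ⟨h3, fun y hy => ?_⟩
    obtain ⟨r, h5, v, h6, h7⟩ := h1 y hy
    obtain ⟨t, h8, h9⟩ := (h4 r h5).resolve_left fun e =>
      e (log_sub (cst_dc _) (hok a).1 (hN a).2.1 hy h6 h7)
    exact ⟨t, h8, pw_of_log (cst_dc _) (hok a).1 (hN a).2.1 (h3 t h8) hy h6 (by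
      rw [h7, h9]; abel)⟩
  · rintro ⟨⟨a, l⟩, h1⟩ -
    have : ∀ r, ∃ t ∈ Y a, (¬∃ y ∈ Y a, lg (m a).2.2.1 y.val = r) ∨ lg (m a).2.2.1 t.val = r :=
      fun r => (em (∃ y ∈ Y a, lg (m a).2.2.1 y.val = r)).elim
        (fun ⟨y, hy, e⟩ => ⟨y, hy, Or.inr e⟩) fun e => ⟨1, one_mem _, Or.inl e⟩
    choose t h2 h3 using this
    refine ⟨l.map t, fun u hu => ?_, fun r hr =>
      (h3 r).imp_right fun e => ⟨_, List.mem_map_of_mem hr, e⟩⟩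
    obtain ⟨r, -, rfl⟩ := List.mem_map.1 hu
    exact h2 r

theorem ds_le (hm : CS m) (hok : ∀ a, (m a).ok) (h : DS m Y) (h' : DS m Y')
    (hN : ∀ a, (m a).Nrm (Y a)) (hN' : ∀ a, (m a).Nrm (Y' a)) : CS (fun a => Y a ≤ Y' a) := by
  refine (ds_cosets hm h (K := fun _ => 1) CS.const fun _ => one_pos).elimP
    (P' := fun a l => logSpan (m a).2.2.1 (Y a) ≤ logSpan (m a).2.2.1 (Y' a) ∧ ∀ r ∈ l,
      (¬∃ y ∈ Y a, lg (m a).2.2.1 y.val = r) ∨ ∃ y ∈ Y' a, lg (m a).2.2.1 y.val = r)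
    (CS.and ((CS.addLe (coordM (cs_n hm)) (ds_span hm h) (ds_span hm h')).comp p1)
      (CS.allMem p2 (CS.or (ds_log (hm.comp (p1.comp p1)) (ds_comp h (p1.comp p1)) p2).2
        (ds_log (hm.comp (p1.comp p1)) (ds_comp h' (p1.comp p1)) p2).1))) fun a l _ _ hl => ?_
  refine ⟨fun ⟨h1, h2⟩ y hy => ?_, fun e => ⟨span_mono e, fun r _ =>
    (em _).symm.imp_right fun ⟨y, hy, e'⟩ => ⟨y, e hy, e'⟩⟩⟩
  obtain ⟨r, h5, v, h6, h7⟩ := hl y hy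
  obtain ⟨t, h8, h9⟩ := (h2 r h5).resolve_left fun e =>
    e (log_sub (cst_dc _) (hok a).1 (hN a).2.1 hy h6 h7)
  exact (mem_iff_log (hok a).1 (hN' a).2.1).1 ⟨(hN a).2.1 y hy,
    log_sub (cst_dc _) (hok a).1 (hN' a).2.1 (k := 1) h8 (neg_mem (h1 h6)) (by
      rw [smul_neg, h7, h9, neg_sub])⟩

end Pool.Agent.P.MP_257122_al.C
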