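import Pool.Agent.P.MP_257122_al.COps

/-!
# Computing with described groups of unipotent matrices

The interface of the chapter on described groups.
-/

namespace Pool.Agent.P.MP_257122_al

open scoped commutatorElement

section pure
variable {n c : ℕ} {wt : Fin n → ℕ}

theorem fil_mul {i j : ℕ} {x y : Matrix (Fin n) (Fin n) ℚ} (hx : x ∈ fil wt i)
    (hy : y ∈ fil wt j) : x * y ∈ fil wt (i + j) := C.fil_mul hx hy

theorem ex_lg (hc : ∀ i, wt i < c) {g : GL (Fin n) ℚ} (hg : IsUni wt g) :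
    ex c (lg c g.val) = g.val := C.ex_lg hc hg

theorem lg_mem_fil {g : GL (Fin n) ℚ} (hg : IsUni wt g) : lg c g.val ∈ fil wt 1 := C.lg_mem_fil hg

theorem lg_conj (g y : GL (Fin n) ℚ) :
    lg c (g * y * g⁻¹).val = g.val * lg c y.val * (g⁻¹).val := C.lg_conj g y

/-- If the logarithm of a conjugate of `y` is the logarithm of a unipotent `y'`, they agree. -/
theorem eq_of_lg_conj (hc : ∀ i, wt i < c) {g y y' : GL (Fin n) ℚ} (hy : IsUni wt y)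
    (hy' : IsUni wt y') (h : g.val * lg c y.val * (g⁻¹).val = lg c y'.val) :
    g * y * g⁻¹ = y' := by
  have e : lg c (g * y * g⁻¹).val = lg c y'.val := (lg_conj g y).trans h
  have h0 : (y.val - 1) ^ c = 0 := C.fil_zero hc le_rfl (C.fil_pow hy c)
  have h1 : ((g * y * g⁻¹).val - 1) ^ c = 0 := by
    have : (g * y * g⁻¹).val - 1 = g.val * (y.val - 1) * (g⁻¹).val := by
      simp [mul_sub, sub_mul]
    rw [this, Units.conj_pow, h0]
    simp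
  exact Units.ext (by rw [← C.ex_lg' h1, e, ex_lg hc hy'])

/-- The logarithms of a unipotent group are stable under adding a fixed multiple of their
span; the multiple is a computable function of the nilpotency bound. -/
theorem exists_kap : ∃ κ : ℕ → ℕ, CS κ ∧ (∀ c, 0 < κ c) ∧
    ∀ (n c : ℕ) (wt : Fin n → ℕ) (Y : Subgroup (GL (Fin n) ℚ)), (∀ i, wt i < c) →
      (∀ y ∈ Y, IsUni wt y) → ∀ y ∈ Y, ∀ x ∈ scal (κ c) (logSpan c Y),
        ∃ y' ∈ Y, lg c y'.val = lg c y.val + x :=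
  ⟨C.dc, C.cs_dc, fun c => (C.cst_dc c).pos, fun n c wt Y hc hY y hy x hx => by
    obtain ⟨v, hv, rfl⟩ := C.mem_scal.1 hx
    obtain ⟨e, h1, h2⟩ := (C.cst_dc c).kap hc hY 1 y hy v hv
    exact ⟨_, mul_mem hy (C.pw_le _ _ h1), by rw [h2, mul_one]⟩⟩

end pure

variable {A : Type} [Rep A] {m : A → Amb} {Y Y' : ∀ a, Subgroup (GL (Fin (m a).1) ℚ)}

theorem DS.comp {B : Type} [Rep B] (h : DS m Y) {g : B → A} (hg : CS g) :
    DS (fun b => m (g b)) (fun b => Y (g b)) := C.ds_comp h hg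

theorem DS.ncl {W : ∀ a, List (GL (Fin (m a).1) ℚ)} (hm : CS m) (hok : ∀ a, (m a).ok)
    (hW : CS W) (hWP : ∀ a, ∀ w ∈ W a, w ∈ (m a).P ∧ IsUni (m a).2.1 w) :
    DS m (fun a => (m a).ncl {w | w ∈ W a}) :=
  C.ds_ncl hm hok hW hWP

theorem DS.sup (hm : CS m) (hok : ∀ a, (m a).ok) (h : DS m Y) (h' : DS m Y')
    (hN : ∀ a, (m a).Nrm (Y a)) (hN' : ∀ a, (m a).Nrm (Y' a)) :
    DS m (fun a => Y a ⊔ Y' a) := C.ds_sup hm hok h h' hN hN'

theorem DS.comm (hm : CS m) (hok : ∀ a, (m a).ok) (h : DS m Y) (h' : DS m Y')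
    (hN : ∀ a, (m a).Nrm (Y a)) (hN' : ∀ a, (m a).Nrm (Y' a)) :
    DS m (fun a => ⁅Y a, Y' a⁆) := C.ds_comm hm hok h h' hN hN'

theorem DS.commList {Z : ∀ a, List (GL (Fin (m a).1) ℚ)} (hm : CS m) (hok : ∀ a, (m a).ok)
    (hZ : CS Z) (hZP : ∀ a, ∀ z ∈ Z a, z ∈ (m a).P) (h : DS m Y) (hN : ∀ a, (m a).Nrm (Y a)) :
    DS m (fun a => (m a).ncl {w | ∃ z ∈ Z a, ∃ y ∈ Y a, ⁅z, y⁆ = w}) :=
  C.ds_commList hm hok hZ hZP h hN

theorem DS.mem {g : ∀ a, GL (Fin (m a).1) ℚ} (hm : CS m) (hok : ∀ a, (m a).ok) (h : DS m Y)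
    (hN : ∀ a, (m a).Nrm (Y a)) (hg : CS g) : CS (fun a => g a ∈ Y a) :=
  (C.ds_mem hm hok h hN hg).1

theorem DS.notMem {g : ∀ a, GL (Fin (m a).1) ℚ} (hm : CS m) (hok : ∀ a, (m a).ok) (h : DS m Y)
    (hN : ∀ a, (m a).Nrm (Y a)) (hg : CS g) : CS (fun a => ¬ g a ∈ Y a) :=
  (C.ds_mem hm hok h hN hg).2

theorem DS.le (hm : CS m) (hok : ∀ a, (m a).ok) (h : DS m Y) (h' : DS m Y')
    (hN : ∀ a, (m a).Nrm (Y a)) (hN' : ∀ a, (m a).Nrm (Y' a)) : CS (fun a => Y a ≤ Y' a) :=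
  C.ds_le hm hok h h' hN hN'

theorem DS.logSpan (hm : CS m) (h : DS m Y) :
    CS (fun a => logSpan (m a).2.2.1 (Y a)) := C.ds_span hm h

end Pool.Agent.P.MP_257122_al
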