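import Pool.Agent.P.MP_257122_al.CGen

/-!
# Described groups: normal closures, joins and commutators
-/

namespace Pool.Agent.P.MP_257122_al.C

open scoped commutatorElement

section cl
variable {V : Type} [AddCommGroup V] [Module ℚ V] {l : List (V →ₗ[ℚ] V)} {Λ J : AddSubgroup V}

theorem le_cl : Λ ≤ cl l Λ := le_sInf fun _ h => h.1

theorem cl_map {φ : V →ₗ[ℚ] V} (h : φ ∈ l) {x : V} (hx : x ∈ cl l Λ) : φ x ∈ cl l Λ :=
  AddSubgroup.mem_sInf.2 fun M hM => hM.2 φ h x (AddSubgroup.mem_sInf.1 hx M hM)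

theorem cl_le (h : Λ ≤ J) (h' : ∀ φ ∈ l, ∀ x ∈ J, φ x ∈ J) : cl l Λ ≤ J := sInf_le ⟨h, h'⟩

end cl

/-- The sum of the images of `L` under the maps `Ad z - 1`. -/
noncomputable def sumL {n : ℕ} (Z : List (GL (Fin n) ℚ))
    (L : AddSubgroup (Matrix (Fin n) (Fin n) ℚ)) : AddSubgroup (Matrix (Fin n) (Fin n) ℚ) :=
  Z.foldr (fun z S => lmap (adL z - LinearMap.id) L ⊔ S) ⊥

theorem sumL_le_iff {n : ℕ} {Z : List (GL (Fin n) ℚ)}
    {L J : AddSubgroup (Matrix (Fin n) (Fin n) ℚ)} :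
    sumL Z L ≤ J ↔ ∀ z ∈ Z, ∀ x ∈ L, adL z x - x ∈ J := by
  induction Z with
  | nil => simp [sumL]
  | cons z Z ih =>
    rw [sumL, List.foldr_cons, sup_le_iff, List.forall_mem_cons, ← ih]
    exact and_congr_left' AddSubgroup.map_le_iff_le_comap

section pure
variable {m : Amb} {Y Y' : Subgroup (GL (Fin m.1) ℚ)} {g z : GL (Fin m.1) ℚ}
  {x : Matrix (Fin m.1) (Fin m.1) ℚ} {Λ : AddSubgroup (Matrix (Fin m.1) (Fin m.1) ℚ)} {D : ℕ}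
  {s : Set (GL (Fin m.1) ℚ)}

theorem nrm_ad (hN : m.Nrm Y) (hg : g ∈ m.P) (hx : x ∈ logSpan m.2.2.1 Y) :
    adL g x ∈ logSpan m.2.2.1 Y :=
  span_le (J := lcomap (adL g) (logSpan m.2.2.1 Y)) (fun y hy =>
    show adL g _ ∈ _ from lg_conj g y ▸ lg_mem_span (hN.2.2 g hg y hy)) hx

theorem cl_ad (hg : g ∈ m.P) : ∀ x ∈ cl (adList m) Λ,
    adL g x ∈ cl (adList m) Λ ∧ adL g⁻¹ x ∈ cl (adList m) Λ := by
  induction hg using Subgroup.closure_induction with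
  | mem y hy =>
    exact fun x hx => ⟨cl_map (List.mem_append_left _ (List.mem_map_of_mem hy)) hx,
      cl_map (List.mem_append_right _ (List.mem_map_of_mem (f := fun x => adL x⁻¹) hy)) hx⟩
  | one => exact fun x hx => by simpa [adL_one] using hx
  | mul a b _ _ p q =>
    exact fun x hx => ⟨by rw [adL_mul]; exact (p _ (q x hx).1).1,
      by rw [mul_inv_rev, adL_mul]; exact (q _ (p x hx).2).2⟩
  | inv a _ p => exact fun x hx => by simpa using (p x hx).symm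

theorem cl_le_dv (hN : m.Nrm Y) {N : ℕ} (h : Λ ≤ dv N (logSpan m.2.2.1 Y)) :
    cl (adList m) Λ ≤ dv N (logSpan m.2.2.1 Y) := by
  refine cl_le h fun φ hφ x hx => ?_
  obtain ⟨g, hg, rfl⟩ : ∃ g ∈ m.P, adL g = φ := by
    rcases List.mem_append.1 hφ with e | e <;> obtain ⟨y, hy, rfl⟩ := List.mem_map.1 e
    exacts [⟨y, Subgroup.subset_closure hy, rfl⟩, ⟨_, inv_mem (Subgroup.subset_closure hy), rfl⟩]
  rw [mem_dv, ← map_nsmul]
  exact nrm_ad hN hg hx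

theorem mem_ncl (h : g ∈ s) : g ∈ m.ncl s :=
  Subgroup.subset_closure ⟨1, one_mem _, g, h, by simp⟩

theorem ncl_conj (hg : g ∈ m.P) (h : z ∈ m.ncl s) : g * z * g⁻¹ ∈ m.ncl s := by
  refine conj_closure ?_ h
  rintro _ ⟨a, ha, y, hy, rfl⟩
  exact Subgroup.subset_closure ⟨g * a, mul_mem hg ha, y, hy, by group⟩

theorem ncl_le (hY : ∀ g ∈ m.P, ∀ y ∈ Y, g * y * g⁻¹ ∈ Y) (h : ∀ w ∈ s, w ∈ Y) : m.ncl s ≤ Y :=
  (Subgroup.closure_le _).2 fun _ ⟨g, hg, y, hy, e⟩ => e ▸ hY g hg y (h y hy)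

theorem ncl_nrm (hok : m.ok) (h : ∀ w ∈ s, w ∈ m.P ∧ IsUni m.2.1 w) : m.Nrm (m.ncl s) :=
  ⟨ncl_le (nin_self _).2 fun w hw => (h w hw).1, fun _ hy => uni_closure hok.1 (by
    rintro _ ⟨_, hg, w, hw, rfl⟩
    exact uni_conj (par_closure hok.2 hg) (h w hw).2) hy, fun _ hg _ hy => ncl_conj hg hy⟩

theorem sup_conj {A B : Subgroup (GL (Fin m.1) ℚ)} (hA : ∀ a ∈ A, g * a * g⁻¹ ∈ A)
    (hB : ∀ b ∈ B, g * b * g⁻¹ ∈ B) (h : z ∈ A ⊔ B) : g * z * g⁻¹ ∈ A ⊔ B := by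
  rw [Subgroup.sup_eq_closure] at h ⊢
  exact conj_closure (fun y hy => Subgroup.subset_closure (hy.imp (hA y) (hB y))) h

theorem sup_nrm (hok : m.ok) (hN : m.Nrm Y) (hN' : m.Nrm Y') : m.Nrm (Y ⊔ Y') :=
  ⟨sup_le hN.1 hN'.1, fun _ hy => uni_closure hok.1 (fun g hg => hg.elim (hN.2.1 g) (hN'.2.1 g))
    (Subgroup.sup_eq_closure Y Y' ▸ hy),
    fun g hg _ hy => sup_conj (hN.2.2 g hg) (hN'.2.2 g hg) hy⟩

theorem sup_reps {K : ℕ} {T T' : List (GL (Fin m.1) ℚ)} (h1 : ∀ t ∈ T, t ∈ Y)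
    (h2 : ∀ y ∈ Y, InC T (pw K Y) y) (h3 : ∀ t ∈ T', t ∈ Y') (h4 : ∀ y ∈ Y', InC T' (pw K Y') y) :
    (∀ w ∈ T ++ T', w ∈ Y ⊔ Y') ∧ Y ⊔ Y' ≤ m.ncl {w | w ∈ T ++ T'} ⊔ pw K (Y ⊔ Y') := by
  refine ⟨fun w hw => (List.mem_append.1 hw).elim (fun e => Subgroup.mem_sup_left (h1 w e))
    fun e => Subgroup.mem_sup_right (h3 w e), sup_le (fun y hy => ?_) fun y hy => ?_⟩
  · obtain ⟨t, ht, e⟩ := h2 y hy
    rw [← mul_inv_cancel_left t y]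
    exact Subgroup.mul_mem_sup (mem_ncl (List.mem_append_left _ ht)) (pw_mono _ le_sup_left e)
  · obtain ⟨t, ht, e⟩ := h4 y hy
    rw [← mul_inv_cancel_left t y]
    exact Subgroup.mul_mem_sup (mem_ncl (List.mem_append_right _ ht)) (pw_mono _ le_sup_right e)

theorem mem_comms {G : Type} [Group G] {T T' : List G} {w : G} :
    w ∈ (T.flatMap fun s => T'.map fun t => ⁅s, t⁆) ↔ ∃ s ∈ T, ∃ t ∈ T', ⁅s, t⁆ = w := by simp

theorem comm_mem (hN : m.Nrm Y) (hz : z ∈ m.P) (hg : g ∈ Y) : ⁅z, g⁆ ∈ Y :=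
  mul_mem (hN.2.2 z hz g hg) (inv_mem hg)

theorem comm_nrm (hN : m.Nrm Y) (hN' : m.Nrm Y') : m.Nrm ⁅Y, Y'⁆ := by
  have : ⁅Y, Y'⁆ ≤ Y' := Subgroup.commutator_le.2 fun a ha b hb => comm_mem hN' (hN.1 ha) hb
  exact ⟨this.trans hN'.1, fun y hy => hN'.2.1 y (this hy),
    fun g hg _ hy => conj_comm (hN.2.2 g hg) (hN'.2.2 g hg) hy⟩

theorem comm_pow (z g : GL (Fin m.1) ℚ) (k : ℕ) : (z * g * z⁻¹) ^ k * g⁻¹ ^ k = ⁅z, g ^ k⁆ := by
  rw [conj_pow, inv_pow, commutatorElement_def]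

theorem up_wit (hok : m.ok) (hN : m.Nrm Y) (hg : g ∈ m.P) (hz : z ∈ m.P) {y : GL (Fin m.1) ℚ}
    (hy : y ∈ Y) : ∃ g' ∈ Y, lg m.2.2.1 (g' * (g * ⁅z, y⁆ * g⁻¹)).val - lg m.2.2.1 g'.val =
      adL g (adL z (lg m.2.2.1 y.val) - lg m.2.2.1 y.val) := by
  refine ⟨g * (z * y⁻¹ * z⁻¹) * g⁻¹, hN.2.2 g hg _ (hN.2.2 z hz _ (inv_mem hy)), ?_⟩
  rw [show g * (z * y⁻¹ * z⁻¹) * g⁻¹ * (g * ⁅z, y⁆ * g⁻¹) = g * y⁻¹ * g⁻¹ by
    rw [commutatorElement_def]; group, lg_conj, lg_conj, lg_conj, lg_inv hok.1 (hN.2.1 y hy)]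
  simp only [map_neg, map_sub]
  abel

variable (h : Cst m.2.2.1 D) (hok : m.ok) (hN : m.Nrm Y) (hN' : m.Nrm Y')
include h hok hN

theorem lo_ad (hz : z ∈ m.P) (H : ∀ y ∈ Y, ⁅z, y⁆ ∈ Y') (hx : x ∈ logSpan m.2.2.1 Y) :
    D • (adL z x - x) ∈ logSpan m.2.2.1 Y' := by
  refine span_le (J := lcomap (adL z - LinearMap.id) (dv D (logSpan m.2.2.1 Y'))) (fun y hy => ?_) hx
  have := h.lin hok.1 (hN.2.1 _ (hN.2.2 z hz y hy)) (hN.2.1 _ (inv_mem hy))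
    (M := logSpan m.2.2.1 Y') (z := 0) fun k => by
      rw [comm_pow, smul_zero, sub_zero]
      exact lg_mem_span (H _ (pow_mem hy k))
  rwa [lg_conj, lg_inv hok.1 (hN.2.1 y hy), sub_zero, ← sub_eq_add_neg] at this

include hN'

theorem comm_reps (hz : z ∈ m.P) (H : ∀ y ∈ Y, ⁅z, y⁆ ∈ Y') {K : ℕ} {T : List (GL (Fin m.1) ℚ)}
    (h1 : ∀ t ∈ T, t ∈ Y) (h2 : ∀ y ∈ Y, InC T (pw (D * K) Y) y) {S : Subgroup (GL (Fin m.1) ℚ)}
    (hS : pw K Y' ≤ S) (h3 : ∀ t ∈ T, ⁅z, t⁆ ∈ S) (hg : g ∈ Y) : ⁅z, g⁆ ∈ S := by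
  have c : ∀ a ∈ Y, ∀ e ∈ pw K Y', a * e * a⁻¹ ∈ pw K Y' := fun a ha e he =>
    conj_pw (hN'.2.2 a (hN.1 ha)) he
  have k : ∀ e ∈ pw (D * K) Y, ⁅z, e⁆ ∈ pw K Y' := fun e he => by
    induction he using Subgroup.closure_induction with
    | mem x hx =>
      obtain ⟨y, hy, rfl⟩ := hx
      rw [← comm_pow]
      exact h.two hok.1 hN'.2.1 (hN.2.1 _ (hN.2.2 z hz y hy)) (hN.2.1 _ (inv_mem hy))
        (fun k => comm_pow z y k ▸ H _ (pow_mem hy k)) K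
    | one => simp
    | mul a b ha _ p q =>
      convert mul_mem p (c a (pw_le _ _ ha) _ q) using 1
      simp only [commutatorElement_def]
      group
    | inv a ha p =>
      convert c _ (inv_mem (pw_le _ _ ha)) _ (inv_mem p) using 1
      simp only [commutatorElement_def]
      group
  obtain ⟨t, ht, e⟩ := h2 g hg
  convert mul_mem (h3 t ht) (hS (c t (h1 t ht) _ (k _ e))) using 1
  simp only [commutatorElement_def]
  group

theorem comm_lo (hx : x ∈ bil (brL m.1) (logSpan m.2.2.1 Y) (logSpan m.2.2.1 Y')) :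
    (D * D) • x ∈ logSpan m.2.2.1 ⁅Y, Y'⁆ := by
  refine (AddSubgroup.closure_le (dv (D * D) (logSpan m.2.2.1 ⁅Y, Y'⁆))).2 ?_ hx
  rintro _ ⟨u, hu, v, hv, rfl⟩
  refine span_le (J := lcomap ((brL m.1).flip v) (dv (D * D) (logSpan m.2.2.1 ⁅Y, Y'⁆)))
    (fun a ha => ?_) hu
  have := h.br hok.1 (hN.2.1 a ha) (M := dv D (logSpan m.2.2.1 ⁅Y, Y'⁆)) (y := v) fun k =>
    lo_ad h hok hN' (hN.1 (pow_mem ha k))
      (fun y hy => Subgroup.commutator_mem_commutator (pow_mem ha k) hy) hv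
  rw [mem_dv, ← mul_nsmul'] at this
  exact this

theorem comm_up (hx : x ∈ logSpan m.2.2.1 ⁅Y, Y'⁆) :
    (D * D) • x ∈ bil (brL m.1) (logSpan m.2.2.1 Y) (logSpan m.2.2.1 Y') := by
  have hC := comm_nrm hN hN'
  rw [mul_nsmul']
  refine mem_dv.1 (h.up hok.1 hN'.2.1 (G := {g | ∃ a ∈ Y, ∃ b ∈ Y', ⁅a, b⁆ = g})
    ⟨Subgroup.commutator_le.2 fun a ha b hb => comm_mem hN' (hN.1 ha) hb,
      fun g hg => hC.2.2 g (hN'.1 hg)⟩ (fun y hy u hu => ?_) ?_ x hx)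
  · rw [mem_dv, ← map_nsmul]
    refine (AddSubgroup.closure_le (lcomap (adL y) (bil _ _ _))).2 ?_ (mem_dv.1 hu)
    rintro _ ⟨p, hp, q, hq, rfl⟩
    exact AddSubgroup.subset_closure ⟨_, nrm_ad hN (hN'.1 hy) hp, _, nrm_ad hN' (hN'.1 hy) hq,
      (adL_br y p q).symm⟩
  · rintro _ ⟨a, ha, b, hb, rfl⟩
    obtain ⟨g, hg, e⟩ := up_wit hok hN' (one_mem _) (hN.1 ha) hb
    rw [one_mul, inv_one, mul_one, adL_one] at e
    refine ⟨g, hg, e ▸ mem_dv.2 (h.ad hok.1 (hN.2.1 a ha) (L := logSpan m.2.2.1 Y')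
      (fun k => nrm_ad hN' (hN.1 (pow_mem ha k)) (lg_mem_span hb)) fun v hv => ?_)⟩
    exact AddSubgroup.subset_closure ⟨_, lg_mem_span ha, v, hv, rfl⟩

theorem comm_gen {K : ℕ} {T T' : List (GL (Fin m.1) ℚ)} (h1 : ∀ t ∈ T, t ∈ Y)
    (h2 : ∀ y ∈ Y, InC T (pw (D * K) Y) y) (h3 : ∀ t ∈ T', t ∈ Y')
    (h4 : ∀ y ∈ Y', InC T' (pw (D * K) Y') y) :
    (∀ w ∈ (T.flatMap fun s => T'.map fun t => ⁅s, t⁆), w ∈ ⁅Y, Y'⁆) ∧
      ⁅Y, Y'⁆ ≤ m.ncl {w | w ∈ T.flatMap fun s => T'.map fun t => ⁅s, t⁆} ⊔ pw K ⁅Y, Y'⁆ := by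
  have hS := comm_nrm hN hN'
  refine ⟨fun w hw => ?_, Subgroup.commutator_le.2 fun p hp q hq => ?_⟩
  · obtain ⟨s, hs, t, ht, rfl⟩ := mem_comms.1 hw
    exact Subgroup.commutator_mem_commutator (h1 s hs) (h3 t ht)
  · rw [← commutatorElement_inv q p]
    refine inv_mem (comm_reps h hok hN hS (hN'.1 hq) (fun y hy => ?_)
      h1 h2 le_sup_right (fun s hs => ?_) hp)
    · rw [← commutatorElement_inv y q]
      exact inv_mem (Subgroup.commutator_mem_commutator hy hq)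
    · rw [← commutatorElement_inv s q]
      exact inv_mem (comm_reps h hok hN' hS (hN.1 (h1 s hs))
        (fun y hy => Subgroup.commutator_mem_commutator (h1 s hs) hy) h3 h4 le_sup_right
        (fun t ht => Subgroup.mem_sup_left (mem_ncl (mem_comms.2 ⟨s, hs, t, ht, rfl⟩))) hq)

end pure

variable {A : Type} [Rep A] {m : A → Amb} {Y Y' : ∀ a, Subgroup (GL (Fin (m a).1) ℚ)}

theorem cs_listSet {T : A → Type} [∀ a, Rep (T a)] {l : ∀ a, List (T a)} (hd : Disc T)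
    (hl : CS l) : CS (fun a => {x | x ∈ l a}) :=
  CS.setOf (CS.memList (hd.comp p1) p2 (hl.comp p1))

theorem ds_ncl {W : ∀ a, List (GL (Fin (m a).1) ℚ)} (hm : CS m) (hok : ∀ a, (m a).ok)
    (hW : CS W) (hWP : ∀ a, ∀ w ∈ W a, w ∈ (m a).P ∧ IsUni (m a).2.1 w) :
    DS m (fun a => (m a).ncl {w | w ∈ W a}) := by
  have hN := fun a => ncl_nrm (s := {w | w ∈ W a}) (hok a) (hWP a)
  have k1 : CS fun a => (m a).ncl {w | w ∈ W a} :=
    cs_ncl hm (cs_listSet (grpGL (cs_n hm)).disc hW)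
  have k2 : CS fun a => (W a).map fun w => lg (m a).2.2.1 w.val :=
    CS.map (CS.lam (cs_lg ((cs_n hm).comp p1) ((cs_c hm).comp p1) p2.unitsVal)) hW
  have k3 := CS.cl (coordM (cs_n hm)) (cs_adList hm) (CS.addClosure (coordM (cs_n hm)) k2)
  refine ds_gen hm hok hN k1 k3 (cs_dc.comp (cs_c hm)) (fun a => (cst_dc _).pos)
    (fun a x hx => mem_dv.1 (cl_le_dv (hN a) ?_ hx))
    (fun a x hx => (cst_dc _).up (hok a).1 (hN a).2.1 (nin_self _)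
      (fun y hy u hu => (cl_ad ((hN a).1 hy) u hu).1) ?_ x hx)
    fun K _ _ => MV.of_cs hW fun a _ => ⟨fun w hw => mem_ncl hw, le_sup_left⟩
  · refine (AddSubgroup.closure_le _).2 fun x hx => ?_
    obtain ⟨w, hw, rfl⟩ := List.mem_map.1 hx
    exact nsmul_mem (lg_mem_span (mem_ncl hw)) _
  · rintro _ ⟨g, hg, w, hw, rfl⟩
    refine ⟨1, one_mem _, ?_⟩
    rw [one_mul, Units.val_one, lg_one, sub_zero, lg_conj]
    refine (cl_ad hg _ (le_cl (AddSubgroup.subset_closure ?_))).1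
    exact List.mem_map.2 ⟨w, hw, rfl⟩

theorem ds_sup (hm : CS m) (hok : ∀ a, (m a).ok) (h : DS m Y) (h' : DS m Y')
    (hN : ∀ a, (m a).Nrm (Y a)) (hN' : ∀ a, (m a).Nrm (Y' a)) : DS m (fun a => Y a ⊔ Y' a) := by
  have hS := fun a => sup_nrm (hok a) (hN a) (hN' a)
  refine ds_gen hm hok hS (CS.subgroupSup (grpGL (cs_n hm)) (ds_re hm hok h hN)
    (ds_re hm hok h' hN')) (CS.addSup (coordM (cs_n hm)) (ds_span hm h) (ds_span hm h'))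
    (cs_dc.comp (cs_c hm)) (fun a => (cst_dc _).pos) (fun a x hx => nsmul_mem
      (sup_le (span_mono le_sup_left) (span_mono le_sup_right) hx) _) (fun a x hx => ?_)
    fun K hK K0 => ((ds_reps hm hok h hN hK K0).prod (ds_reps hm hok h' hN' hK K0)).bind
      (MV.of_cs (CS.append q2.fst q2.snd) ?_)
  · rw [Subgroup.sup_eq_closure] at hx
    refine (cst_dc _).up (hok a).1 (hS a).2.1 (Subgroup.sup_eq_closure (Y a) (Y' a) ▸ nin_self _)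
      (fun y hy u hu => ?_) (fun r hr => ⟨1, one_mem _, ?_⟩) x hx
    · obtain ⟨p, hp, q, hq, rfl⟩ := AddSubgroup.mem_sup.1 hu
      rw [map_add]
      exact AddSubgroup.add_mem_sup (nrm_ad (hN a) ((hS a).1 hy) hp)
        (nrm_ad (hN' a) ((hS a).1 hy) hq)
    · rw [one_mul, Units.val_one, lg_one, sub_zero]
      exact hr.elim (fun e => AddSubgroup.mem_sup_left (lg_mem_span e))
        fun e => AddSubgroup.mem_sup_right (lg_mem_span e)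
  · rintro ⟨⟨a, T, T'⟩, ⟨h1, h2⟩, h3, h4⟩ -
    exact sup_reps h1 h2 h3 h4

theorem cs_comms {n : A → ℕ} {T T' : ∀ a, List (GL (Fin (n a)) ℚ)} (hn : CS n) (hT : CS T)
    (hT' : CS T') : CS (fun a => (T a).flatMap fun s => (T' a).map fun t => ⁅s, t⁆) :=
  CS.flatMap (CS.lam (CS.map (CS.lam (CS.commutator (grpGL (hn.comp (p1.comp p1))).mul InvF.units
    (p2.comp p1) p2)) (hT'.comp p1))) hT

theorem ds_comm (hm : CS m) (hok : ∀ a, (m a).ok) (h : DS m Y) (h' : DS m Y')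
    (hN : ∀ a, (m a).Nrm (Y a)) (hN' : ∀ a, (m a).Nrm (Y' a)) : DS m (fun a => ⁅Y a, Y' a⁆) := by
  have hS := fun a => comm_nrm (hN a) (hN' a)
  have hD : CS fun a => dc (m a).2.2.1 := cs_dc.comp (cs_c hm)
  have hV := coordM (cs_n hm)
  refine ds_gen hm hok hS (CS.subgroupComm (grpGL (cs_n hm)) (ds_re hm hok h hN)
    (ds_re hm hok h' hN')) (CS.bil hV hV hV (cs_brL (cs_n hm)) (ds_span hm h) (ds_span hm h'))
    (CS.mul MulF.nat hD hD) (fun a => Nat.mul_pos (cst_dc _).pos (cst_dc _).pos)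
    (fun a x hx => comm_lo (cst_dc _) (hok a) (hN a) (hN' a) hx)
    (fun a x hx => comm_up (cst_dc _) (hok a) (hN a) (hN' a) hx) fun K hK K0 => ?_
  have K1 := fun a => Nat.mul_pos (cst_dc (m a).2.2.1).pos (K0 a)
  refine ((ds_reps hm hok h hN (CS.mul MulF.nat hD hK) K1).prod
    (ds_reps hm hok h' hN' (CS.mul MulF.nat hD hK) K1)).bind
      (MV.of_cs (cs_comms ((cs_n hm).comp q1) q2.fst q2.snd) ?_)
  rintro ⟨⟨a, T, T'⟩, ⟨h1, h2⟩, h3, h4⟩ -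
  exact comm_gen (cst_dc _) (hok a) (hN a) (hN' a) h1 h2 h3 h4

theorem ds_commList {Z : ∀ a, List (GL (Fin (m a).1) ℚ)} (hm : CS m) (hok : ∀ a, (m a).ok)
    (hZ : CS Z) (hZP : ∀ a, ∀ z ∈ Z a, z ∈ (m a).P) (h : DS m Y) (hN : ∀ a, (m a).Nrm (Y a)) :
    DS m (fun a => (m a).ncl {w | ∃ z ∈ Z a, ∃ y ∈ Y a, ⁅z, y⁆ = w}) := by
  have hs : ∀ a, ∀ w ∈ {w | ∃ z ∈ Z a, ∃ y ∈ Y a, ⁅z, y⁆ = w}, w ∈ Y a :=
    fun a _ ⟨z, hz, y, hy, e⟩ => e ▸ comm_mem (hN a) (hZP a z hz) hy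
  have hS := fun a => ncl_nrm (hok a) fun w hw => ⟨(hN a).1 (hs a w hw), (hN a).2.1 w (hs a w hw)⟩
  have hD : CS fun a => dc (m a).2.2.1 := cs_dc.comp (cs_c hm)
  have hV := coordM (cs_n hm)
  have k1 : CS (fun u : Σ n : ℕ, List (GL (Fin n) ℚ) × Subgroup (GL (Fin n) ℚ) =>
      {w | ∃ z ∈ u.2.1, ∃ y ∈ u.2.2, ⁅z, y⁆ = w}) := by
    aesop (config := { terminal := true, enableSimp := false, maxRuleApplications := 3000, maxRuleApplicationDepth := 70, assumptionTransparency := .reducible }) (rule_sets := [-default, -builtin, Restrict]) (erase CS.mapp, CS.mlam, CS.mrow)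
  have k2 : CS fun a => sumL (Z a) (logSpan (m a).2.2.1 (Y a)) := by
    have hV' := hV.comp (p1.comp (p1 (A := Σ a, GL (Fin (m a).1) ℚ)
      (T := fun p => AddSubgroup (Matrix (Fin (m p.1).1) (Fin (m p.1).1) ℚ))))
    refine CS.foldr (CS.lam (CS.lam (CS.addSup hV' (CS.lmap hV' hV' (CS.linIntro ?_)
      ((ds_span hm h).comp (p1.comp p1))) p2))) (CS.addBot hV) hZ
    exact CS.sub (hV'.comp p1).add (hV'.comp p1).neg (CS.linApp
      (cs_adL ((cs_n hm).comp (p1.comp (p1.comp p1))) (p2.comp (p1.comp p1))) p2) p2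
  refine ds_gen hm hok hS (cs_ncl hm (k1.comp (CS.smk0 (cs_n hm) (hZ.pair (ds_re hm hok h hN)))))
    (CS.cl hV (cs_adList hm) k2) hD (fun a => (cst_dc _).pos)
    (fun a x hx => mem_dv.1 (cl_le_dv (hS a) (sumL_le_iff.2 fun z hz u hu => mem_dv.2
      (lo_ad (cst_dc _) (hok a) (hN a) (hZP a z hz) (fun y hy => mem_ncl ⟨z, hz, y, hy, rfl⟩) hu))
      hx))
    (fun a x hx => (cst_dc _).up (hok a).1 (hN a).2.1
      ⟨ncl_le (hN a).2.2 (hs a), fun g hg => (hS a).2.2 g ((hN a).1 hg)⟩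
      (fun y hy u hu => (cl_ad ((hN a).1 hy) u hu).1) ?_ x hx) fun K hK K0 => ?_
  · rintro _ ⟨g, hg, _, ⟨z, hz, y, hy, rfl⟩, rfl⟩
    obtain ⟨g', h1, e⟩ := up_wit (hok a) (hN a) hg (hZP a z hz) hy
    exact ⟨g', h1, e ▸ (cl_ad hg _ (le_cl (sumL_le_iff.1 le_rfl z hz _ (lg_mem_span hy)))).1⟩
  refine (ds_reps hm hok h hN (CS.mul MulF.nat hD hK)
    fun a => Nat.mul_pos (cst_dc (m a).2.2.1).pos (K0 a)).bind
      (MV.of_cs (cs_comms ((cs_n hm).comp q1) (hZ.comp q1) q2) ?_)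
  rintro ⟨⟨a, T⟩, h1, h2⟩ -
  refine ⟨fun w hw => ?_, ncl_le (fun g hg y hy => sup_conj (fun _ => ncl_conj hg)
    (fun _ => conj_pw ((hS a).2.2 g hg)) hy) ?_⟩
  · obtain ⟨z, hz, t, ht, rfl⟩ := mem_comms.1 hw
    exact mem_ncl ⟨z, hz, t, h1 t ht, rfl⟩
  · rintro _ ⟨z, hz, y, hy, rfl⟩
    exact comm_reps (cst_dc _) (hok a) (hN a) (hS a) (hZP a z hz)
      (fun y hy => mem_ncl ⟨z, hz, y, hy, rfl⟩) h1 h2 le_sup_right
      (fun t ht => Subgroup.mem_sup_left (mem_ncl (mem_comms.2 ⟨z, hz, t, ht, rfl⟩))) hy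

end Pool.Agent.P.MP_257122_al.C
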