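import Pool.Agent.P.MP_257122_al.CBas

/-!
# Polynomial functions with values in an additive subgroup
-/

namespace Pool.Agent.P.MP_257122_al.C

open Polynomial Finset

namespace Pol

theorem p0 {V : Type} [AddCommGroup V] (M : AddSubgroup V) (d e : ℕ) (he : e ≤ d) (a : ℕ → V)
    (h : ∀ k : ℕ, ∑ i ∈ range e, k ^ i • a i ∈ M) :
    ∀ i < e, (2 ^ d).factorial ^ e • a i ∈ M := by
  induction e generalizing a with
  | zero => intro i hi; omega
  | succ e ih =>
    have h1 : ∀ k : ℕ, ∑ i ∈ range e, k ^ i • ((2 ^ e - 2 ^ i) • a i) ∈ M := by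
      intro k
      have h2 := M.sub_mem (M.nsmul_mem (h k) (2 ^ e)) (h (2 * k))
      rw [smul_sum, ← sum_sub_distrib, sum_range_succ, mul_pow, mul_smul, sub_self,
        add_zero] at h2
      refine (congrArg (· ∈ M) (sum_congr rfl fun i hi => ?_)).mp h2
      have h3 : 2 ^ i ≤ 2 ^ e := Nat.pow_le_pow_right (by norm_num) (mem_range.mp hi).le
      rw [sub_eq_iff_eq_add, mul_pow, mul_comm, mul_smul, ← smul_add, ← add_smul,
        Nat.sub_add_cancel h3, smul_comm]
    have h4 : ∀ i < e, (2 ^ d).factorial ^ (e + 1) • a i ∈ M := by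
      intro i hi
      have h5 : 2 ^ i < 2 ^ e := Nat.pow_lt_pow_right (by norm_num) hi
      have h6 : 2 ^ e ≤ 2 ^ d := Nat.pow_le_pow_right (by norm_num) (by omega)
      obtain ⟨q, hq⟩ : 2 ^ e - 2 ^ i ∣ (2 ^ d).factorial :=
        Nat.dvd_factorial (Nat.sub_pos_of_lt h5) ((Nat.sub_le _ _).trans h6)
      have h7 := M.nsmul_mem (ih (by omega) _ h1 i hi) q
      rw [smul_smul, smul_smul, mul_comm q, mul_assoc, mul_comm q, ← hq] at h7
      rwa [pow_succ]
    intro i hi
    rcases Nat.lt_succ_iff_lt_or_eq.mp hi with hi | rfl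
    · exact h4 i hi
    · have h8 := M.sub_mem (M.nsmul_mem (h 1) ((2 ^ d).factorial ^ (i + 1)))
        (M.sum_mem fun j (hj : j ∈ range i) => h4 j (mem_range.mp hj))
      simp only [one_pow, one_smul] at h8
      rwa [sum_range_succ, smul_add, smul_sum, add_sub_cancel_left] at h8

variable {R : Type} [Ring R]

/-- evaluation at a natural number -/
noncomputable def ev (k : ℕ) : R[X] →+* R :=
  eval₂RingHom' (RingHom.id R) (k : R) fun a => (Nat.cast_commute k a).symm

theorem ev_C (k : ℕ) (x : R) : ev k (C x) = x := eval₂_C _ _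
theorem ev_CX (k : ℕ) (x : R) : ev k (C x * X) = k • x := by
  have : ev k (X : R[X]) = k := eval₂_X _ _
  rw [map_mul, ev_C, this, nsmul_eq_mul']
theorem ev_sum {P : R[X]} {e : ℕ} (h : P.natDegree < e) (k : ℕ) :
    ev k P = ∑ i ∈ range e, k ^ i • P.coeff i := by
  refine (eval_eq_sum_range' h (k : R)).trans (sum_congr rfl fun i _ => ?_)
  rw [nsmul_eq_mul', Nat.cast_pow]

theorem p1 (M : AddSubgroup R) {d : ℕ} {P : R[X]} (hP : P.natDegree < d)
    (h : ∀ k : ℕ, ev k P ∈ M) (i : ℕ) : (2 ^ d).factorial ^ d • P.coeff i ∈ M := by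
  by_cases hi : i < d
  · exact p0 M d d le_rfl _ (fun k => ev_sum hP k ▸ h k) i hi
  · rw [coeff_eq_zero_of_natDegree_lt (by omega), smul_zero]
    exact M.zero_mem

theorem p2 (M : AddSubgroup R) {d : ℕ} {P : R[X]} (hP : P.natDegree < d)
    (h : ∀ k : ℕ, ev k P ∈ M) (i : ℕ) : (2 ^ d).factorial ^ (d + 1) • P.coeff i ∈ M := by
  rw [pow_succ', mul_smul]
  exact M.nsmul_mem (p1 M hP h i) _

theorem deg_CX (x : R) : (C x * X).natDegree ≤ 1 :=
  (natDegree_C_mul_le _ _).trans natDegree_X_le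

variable [Algebra ℚ R]

/-- the exponential of `x X` -/
noncomputable def E (c : ℕ) (x : R) : R[X] := ex c (C x * X)

theorem ev_E (c k : ℕ) (x : R) : ev k (E c x) = ex c (k • x) := by
  rw [E, map_ex, ev_CX]

theorem deg_E (c : ℕ) (x : R) : (E c x).natDegree ≤ c := by
  unfold E ex
  refine natDegree_sum_le_of_forall_le _ _ fun k hk => (natDegree_smul_le _ _).trans ?_
  refine natDegree_pow_le.trans ((Nat.mul_le_mul_left k (deg_CX x)).trans ?_)
  have := mem_range.mp hk
  omega

theorem deg_lg (c : ℕ) (P : R[X]) : (lg c P).natDegree ≤ c * P.natDegree := by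
  refine natDegree_sum_le_of_forall_le _ _ fun k hk => (natDegree_smul_le _ _).trans ?_
  refine natDegree_pow_le.trans (Nat.mul_le_mul (mem_range.mp hk) ?_)
  exact (natDegree_sub_le _ _).trans (by simp)

theorem coeff_E {c : ℕ} {x : R} (h : x ^ c = 0) (i : ℕ) :
    (E c x).coeff i = ((i.factorial : ℚ)⁻¹) • x ^ i := by
  have e : ∀ k : ℕ, (C x * X) ^ k = C (x ^ k) * X ^ k := fun k => by
    rw [(commute_X (C x)).symm.mul_pow, C_pow]
  simp only [E, ex, finsetSum_coeff, coeff_smul, e, coeff_C_mul_X_pow, smul_ite, smul_zero,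
    sum_ite_eq, mem_range]
  split_ifs with hi
  · rfl
  · rw [pow_eq_zero_of_le (not_lt.mp hi) h, smul_zero]

theorem coeff_E0 {c : ℕ} {x : R} (h : x ^ c = 0) : (E c x).coeff 0 = 1 := by simp [coeff_E h]
theorem coeff_E1 {c : ℕ} {x : R} (h : x ^ c = 0) : (E c x).coeff 1 = x := by simp [coeff_E h]

theorem coeff_der {c : ℕ} {x : R} (h : x ^ c = 0) (i : ℕ) :
    (derivative (E c x)).coeff i = ((i.factorial : ℚ)⁻¹) • x ^ (i + 1) := by
  have e : ((i : R) + 1) = ((i + 1 : ℕ) : R) := by push_cast; rfl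
  rw [coeff_derivative, coeff_E h, e, ← nsmul_eq_mul', ← Nat.cast_smul_eq_nsmul ℚ, smul_smul,
    Nat.factorial_succ, Nat.cast_mul, mul_inv, ← mul_assoc,
    mul_inv_cancel₀ (Nat.cast_ne_zero.mpr i.succ_ne_zero), one_mul]

theorem der_l {c : ℕ} {x : R} (h : x ^ c = 0) : derivative (E c x) = C x * E c x := by
  ext i
  rw [coeff_der h, coeff_C_mul, coeff_E h, mul_smul_comm, pow_succ']
theorem der_r {c : ℕ} {x : R} (h : x ^ c = 0) : derivative (E c x) = E c x * C x := by
  ext i
  rw [coeff_der h, coeff_mul_C, coeff_E h, smul_mul_assoc, pow_succ]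

theorem coeff_lg {c : ℕ} {x y : R} (hx : x ^ c = 0) (hy : y ^ c = 0) :
    (lg c (E c x * E c y)).coeff 1 = x + y := by
  have u0 : (E c x * E c y - 1).coeff 0 = 0 := by
    rw [coeff_sub, mul_coeff_zero, coeff_E0 hx, coeff_E0 hy, coeff_one_zero, one_mul, sub_self]
  have u1 : (E c x * E c y - 1).coeff 1 = x + y := by
    rw [coeff_sub, mul_coeff_one, coeff_E0 hx, coeff_E0 hy, coeff_E1 hx, coeff_E1 hy, coeff_one,
      if_neg one_ne_zero, one_mul, mul_one, sub_zero, add_comm]
  have u2 : ∀ k : ℕ, ((E c x * E c y - 1) ^ (k + 1 + 1)).coeff 1 = 0 := fun k => by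
    rw [pow_succ, mul_coeff_one, u0, pow_succ, mul_coeff_zero, u0, mul_zero, zero_mul, mul_zero,
      add_zero]
  rcases c with _ | c
  · have : Subsingleton R := subsingleton_of_zero_eq_one (by rw [← hx, pow_zero])
    exact Subsingleton.elim _ _
  · rw [lg, finsetSum_coeff, sum_range_succ', sum_eq_zero fun k _ => by
      rw [coeff_smul, u2, smul_zero]]
    simp [u1]

/-- the conjugation polynomial -/
noncomputable def A (c : ℕ) (x y : R) : R[X] := E c x * C y * E c (-x)

theorem deg_A (c : ℕ) (x y : R) : (A c x y).natDegree < 2 * c * c + 2 := by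
  have h1 := (natDegree_mul_C_le (E c x) y).trans (deg_E c x)
  have h2 := (natDegree_mul_le (p := E c x * C y) (q := E c (-x))).trans
    (add_le_add h1 (deg_E c (-x)))
  have h3 : c ≤ c * c := Nat.le_mul_self c
  rw [mul_assoc]
  exact h2.trans_lt (by omega)

theorem coeff_A0 {c : ℕ} {x : R} (h : x ^ c = 0) (y : R) : (A c x y).coeff 0 = y := by
  have h' : (-x) ^ c = 0 := by rw [neg_pow, h, mul_zero]
  rw [A, mul_coeff_zero, coeff_mul_C, coeff_E0 h, coeff_E0 h', one_mul, mul_one]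

theorem coeff_A {c : ℕ} {x : R} (h : x ^ c = 0) (y : R) (i : ℕ) :
    (i + 1) • (A c x y).coeff (i + 1) = x * (A c x y).coeff i - (A c x y).coeff i * x := by
  have h' : (-x) ^ c = 0 := by rw [neg_pow, h, mul_zero]
  have e : derivative (A c x y) = C x * A c x y - A c x y * C x := by
    rw [A, derivative_mul, derivative_mul, derivative_C, der_l h, der_r h', C_neg]
    noncomm_ring
  rw [← coeff_C_mul, ← coeff_mul_C, ← coeff_sub, ← e, coeff_derivative, nsmul_eq_mul']
  push_cast
  rfl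

theorem deg_Q (c : ℕ) (g x y u z : R) :
    (lg c (C g * E c x * E c y) - C u - C z * X).natDegree < 2 * c * c + 2 := by
  have h1 := (natDegree_C_mul_le g (E c x)).trans (deg_E c x)
  have h2 := (natDegree_mul_le (p := C g * E c x) (q := E c y)).trans (add_le_add h1 (deg_E c y))
  have h3 := (deg_lg c _).trans (Nat.mul_le_mul_left c h2)
  have h4 := natDegree_sub_le (lg c (C g * E c x * E c y) - C u) (C z * X)
  rw [natDegree_sub_C] at h4
  have h5 : c * (c + c) = 2 * c * c := by ring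
  have h6 := deg_CX z
  omega

variable {n c : ℕ} {wt : Fin n → ℕ}

theorem nil (hc : ∀ i, wt i < c) {a : GL (Fin n) ℚ} (ha : IsUni wt a) : lg c a.val ^ c = 0 :=
  fil_zero hc le_rfl (fil_pow (lg_mem_fil ha) c)

theorem ev_A (hc : ∀ i, wt i < c) {a : GL (Fin n) ℚ} (ha : IsUni wt a)
    (y : Matrix (Fin n) (Fin n) ℚ) (k : ℕ) : ev k (A c (lg c a.val) y) = adL (a ^ k) y := by
  rw [A, map_mul, map_mul, ev_E, ev_E, ev_C, adL_apply, pow_eq_ex hc ha, inv_pow_eq_ex hc ha]

theorem ev_Q (hc : ∀ i, wt i < c) {a b : GL (Fin n) ℚ} (ha : IsUni wt a) (hb : IsUni wt b)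
    (g : GL (Fin n) ℚ) (u z : Matrix (Fin n) (Fin n) ℚ) (k : ℕ) :
    ev k (lg c (C g.val * E c (lg c a.val) * E c (lg c b.val)) - C u - C z * X) =
      lg c (g * a ^ k * b ^ k).val - u - k • z := by
  rw [map_sub, map_sub, ev_CX, ev_C, map_lg, map_mul, map_mul, ev_E, ev_E, ev_C, Units.val_mul,
    Units.val_mul, pow_eq_ex hc ha, pow_eq_ex hc hb]

end Pol

open Pol in
theorem pl_dn (c : ℕ) : PL c (dn c) where
  pos := pow_pos (Nat.factorial_pos _) _
  lin {n wt} hc {a b} ha hb {M z} h := by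
    have h1 := p2 M (deg_Q c (1 : GL (Fin n) ℚ).val (lg c a.val) (lg c b.val) 0 z)
      (fun k => by rw [ev_Q hc ha hb, one_mul, sub_zero]; exact h k) 1
    rwa [Units.val_one, C_1, one_mul, C_0, sub_zero, coeff_sub, coeff_lg (nil hc ha) (nil hc hb),
      coeff_C_mul_X, if_pos rfl] at h1
  dvd {n wt} hc {g a b} hg ha hb {M z} h k := by
    have h0 := deg_Q c g.val (lg c a.val) (lg c b.val) (lg c g.val) z
    have h1 := p2 M h0 fun k => by rw [ev_Q hc ha hb]; exact h k
    have h2 := ev_sum h0 0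
    rw [ev_Q hc ha hb, sum_range_succ', sum_eq_zero fun i _ => by
      rw [pow_succ, mul_zero, zero_smul]] at h2
    simp only [pow_zero, mul_one, sub_self, zero_smul, one_smul, zero_add] at h2
    refine ⟨_, M.sum_mem fun i (_ : i ∈ range (2 * c * c + 1)) =>
      M.nsmul_mem (h1 (i + 1)) ((dn c * k) ^ i), ?_⟩
    rw [← ev_Q hc ha hb, ev_sum h0, sum_range_succ', ← h2, smul_zero, add_zero, smul_sum]
    refine sum_congr rfl fun i _ => ?_
    rw [smul_smul, smul_smul]
    exact congrArg (· • _) (by rw [pow_succ, dn]; ring)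
  br {n wt} hc {a} ha {M y} h := by
    have h0 : (A c (lg c a.val) y - C y).natDegree < 2 * c * c + 2 := by
      rw [natDegree_sub_C]
      exact deg_A _ _ _
    have h1 := p2 M h0 (fun k => by rw [map_sub, ev_A hc ha, ev_C]; exact h k) 1
    have h2 := coeff_A (nil hc ha) y 0
    rw [zero_add, one_smul, coeff_A0 (nil hc ha)] at h2
    rwa [coeff_sub, coeff_C, if_neg one_ne_zero, sub_zero, h2] at h1
  ad {n wt} hc {a} ha {L M y} h hL := by
    have h0 := deg_A c (lg c a.val) y
    have h1 := p1 L h0 fun k => by rw [ev_A hc ha]; exact h k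
    have h2 := ev_sum h0 1
    rw [ev_A hc ha, pow_one, sum_range_succ', coeff_A0 (nil hc ha), pow_zero, one_smul,
      ← sub_eq_iff_eq_add] at h2
    rw [h2, smul_sum]
    refine M.sum_mem fun i hi => ?_
    have h3 := hL _ (h1 i)
    rw [map_nsmul, brL_apply, ← coeff_A (nil hc ha), smul_smul] at h3
    obtain ⟨q, hq⟩ : i + 1 ∣ (2 ^ (2 * c * c + 2)).factorial := by
      have h4 := mem_range.mp hi
      have h5 : 2 * c * c + 2 < 2 ^ (2 * c * c + 2) := Nat.lt_two_pow_self
      exact Nat.dvd_factorial (by omega) (by omega)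
    have h6 := M.nsmul_mem h3 q
    rw [smul_smul, mul_comm q, mul_assoc, ← hq, ← pow_succ] at h6
    rwa [one_pow, one_smul]

end Pool.Agent.P.MP_257122_al.C
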