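import Pool.Agent.P.MP_257122_al.CPol

/-!
# Logarithms of unipotent groups along iterated commutator subgroups
-/

namespace Pool.Agent.P.MP_257122_al.C

open scoped commutatorElement

section grp
variable {G : Type} [Group G] {R Y : Subgroup G}

theorem conj_closure {s : Set G} {g x : G} (h : ∀ y ∈ s, g * y * g⁻¹ ∈ Subgroup.closure s)
    (hx : x ∈ Subgroup.closure s) : g * x * g⁻¹ ∈ Subgroup.closure s := by
  induction hx using Subgroup.closure_induction with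
  | mem y hy => exact h y hy
  | one => simp
  | mul y z _ _ h1 h2 => simpa [mul_assoc] using mul_mem h1 h2
  | inv y _ h1 => simpa [mul_assoc] using inv_mem h1

theorem conj_comm {A B : Subgroup G} {g x : G} (hA : ∀ a ∈ A, g * a * g⁻¹ ∈ A)
    (hB : ∀ b ∈ B, g * b * g⁻¹ ∈ B) (hx : x ∈ ⁅A, B⁆) : g * x * g⁻¹ ∈ ⁅A, B⁆ := by
  refine conj_closure ?_ hx
  rintro _ ⟨a, ha, b, hb, rfl⟩
  rw [conjugate_commutatorElement]
  exact Subgroup.commutator_mem_commutator (hA a ha) (hB b hb)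

theorem NIn.comm_le (h : NIn R Y) : ⁅R, Y⁆ ≤ R := Subgroup.commutator_le.2 fun r hr y hy => by
  have := mul_mem hr (h.2 y hy _ (inv_mem hr))
  simpa [commutatorElement_def, mul_assoc] using this

theorem NIn.comm (h : NIn R Y) : NIn ⁅R, Y⁆ Y :=
  ⟨h.comm_le.trans h.1, fun g hg _ hx =>
    conj_comm (h.2 g hg) (fun _ hb => mul_mem (mul_mem hg hb) (inv_mem hg)) hx⟩

theorem nin_self (Y : Subgroup G) : NIn Y Y :=
  ⟨le_rfl, fun _ hg _ hb => mul_mem (mul_mem hg hb) (inv_mem hg)⟩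

theorem NIn.mul_pow (h : NIn R Y) {g r : G} (hg : g ∈ Y) (hr : r ∈ R) (k : ℕ) :
    ∃ r' ∈ ⁅R, Y⁆, (g * r) ^ k = g ^ k * r ^ k * r' := by
  induction k with
  | zero => exact ⟨1, one_mem _, by simp⟩
  | succ k ih =>
    obtain ⟨r', h1, h2⟩ := ih
    refine ⟨r⁻¹ * (⁅(r ^ k)⁻¹, g⁻¹⁆ * (g⁻¹ * r' * g⁻¹⁻¹)) * r⁻¹⁻¹, h.comm.2 _ (inv_mem (h.1 hr)) _
      (mul_mem (Subgroup.commutator_mem_commutator (inv_mem (pow_mem hr k)) (inv_mem hg))
        (h.comm.2 _ (inv_mem hg) _ h1)), ?_⟩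
    rw [pow_succ, h2, pow_succ g, pow_succ r, commutatorElement_def]
    group

theorem pow_mem_pw {k : ℕ} {y : G} (hy : y ∈ Y) (l : ℕ) (h : k ∣ l) : y ^ l ∈ pw k Y := by
  obtain ⟨j, rfl⟩ := h
  exact Subgroup.subset_closure ⟨y ^ j, pow_mem hy j, by rw [← pow_mul, mul_comm]⟩

theorem pw_le (k : ℕ) (Y : Subgroup G) : pw k Y ≤ Y :=
  (Subgroup.closure_le _).2 fun _ ⟨_, hy, e⟩ => e ▸ pow_mem hy k

theorem pw_mono (k : ℕ) (h : R ≤ Y) : pw k R ≤ pw k Y :=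
  Subgroup.closure_mono fun _ ⟨y, hy, e⟩ => ⟨y, h hy, e⟩

theorem pw_dvd {k l : ℕ} (h : k ∣ l) : pw l Y ≤ pw k Y :=
  (Subgroup.closure_le _).2 fun _ ⟨_, hy, e⟩ => e ▸ pow_mem_pw hy l h

theorem conj_pw {k : ℕ} {g x : G} (h : ∀ y ∈ Y, g * y * g⁻¹ ∈ Y) (hx : x ∈ pw k Y) :
    g * x * g⁻¹ ∈ pw k Y := by
  refine conj_closure ?_ hx
  rintro _ ⟨y, hy, rfl⟩
  exact Subgroup.subset_closure ⟨_, h y hy, conj_pow⟩

end grp

variable {n c D : ℕ} {wt : Fin n → ℕ} {R Y : Subgroup (GL (Fin n) ℚ)}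
  {J M : AddSubgroup (Matrix (Fin n) (Fin n) ℚ)} {g r : GL (Fin n) ℚ}

theorem lg_mem_span (hg : g ∈ Y) : lg c g.val ∈ logSpan c Y :=
  AddSubgroup.subset_closure ⟨g, hg, rfl⟩

theorem span_le (h : ∀ y ∈ Y, lg c y.val ∈ J) : logSpan c Y ≤ J :=
  (AddSubgroup.closure_le _).2 fun _ ⟨y, hy, e⟩ => e ▸ h y hy

theorem span_mono (h : R ≤ Y) : logSpan c R ≤ logSpan c Y :=
  span_le fun _ hy => lg_mem_span (h hy)

theorem nsmul_dvd {V : Type} [AddCommGroup V] {J : AddSubgroup V} {k l : ℕ} {x : V} (h : k ∣ l)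
    (hx : k • x ∈ J) : l • x ∈ J := by
  obtain ⟨j, rfl⟩ := h
  rw [mul_nsmul]
  exact nsmul_mem hx j

/-- The differences of logarithms along `R`. -/
def dl (c : ℕ) (Y R : Subgroup (GL (Fin n) ℚ)) : AddSubgroup (Matrix (Fin n) (Fin n) ℚ) :=
  AddSubgroup.closure {x | ∃ g ∈ Y, ∃ r ∈ R, lg c (g * r).val - lg c g.val = x}

theorem mem_dl (hg : g ∈ Y) (hr : r ∈ R) : lg c (g * r).val - lg c g.val ∈ dl c Y R :=
  AddSubgroup.subset_closure ⟨g, hg, r, hr, rfl⟩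

theorem dl_le (h : ∀ g ∈ Y, ∀ r ∈ R, lg c (g * r).val - lg c g.val ∈ J) : dl c Y R ≤ J :=
  (AddSubgroup.closure_le _).2 fun _ ⟨g, hg, r, hr, e⟩ => e ▸ h g hg r hr

/-- All elements of `R` are congruent to one modulo the step `s + 1`. -/
def Lev (wt : Fin n → ℕ) (s : ℕ) (R : Subgroup (GL (Fin n) ℚ)) : Prop :=
  ∀ r ∈ R, r.val - 1 ∈ fil wt (s + 1)

theorem Lev.comm (hc : ∀ i, wt i < c) (hY : ∀ y ∈ Y, IsUni wt y) {s : ℕ} (h : Lev wt s R) :
    Lev wt (s + 1) ⁅R, Y⁆ := fun _ hr => lev_closure hc (by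
  rintro _ ⟨a, ha, b, hb, rfl⟩
  exact comm_fil hc (h a ha) (hY b hb)) hr

theorem Lev.eq_one (hc : ∀ i, wt i < c) {s : ℕ} (h : Lev wt s R) (hs : c ≤ s) (hr : r ∈ R) :
    r = 1 := Units.ext (sub_eq_zero.1 (fil_zero hc (by omega) (h r hr)))

theorem Lev.dl_eq (hc : ∀ i, wt i < c) {s : ℕ} (h : Lev wt s R) (hs : c ≤ s)
    {x : Matrix (Fin n) (Fin n) ℚ} (hx : x ∈ dl c Y R) : x = 0 :=
  AddSubgroup.mem_bot.1 (dl_le (J := ⊥) (fun g _ r hr => by simp [h.eq_one hc hs hr]) hx)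

theorem add_gen (hc : ∀ i, wt i < c) (hY : ∀ y ∈ Y, IsUni wt y) {G : Set (GL (Fin n) ℚ)}
    (hG : Subgroup.closure G ≤ Y) {N : ℕ} (h1 : ∀ g ∈ Y, ∀ r ∈ Subgroup.closure G,
      N • (lg c (g * r).val - lg c g.val - lg c r.val) ∈ J)
    (h2 : ∀ r ∈ G, ∃ g ∈ Y, N • (lg c (g * r).val - lg c g.val) ∈ J)
    (hr : r ∈ Subgroup.closure G) : N • lg c r.val ∈ J := by
  induction hr using Subgroup.closure_induction with
  | mem y hy =>
    obtain ⟨g, hg, h⟩ := h2 y hy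
    convert sub_mem h (h1 g hg y (Subgroup.subset_closure hy)) using 1
    module
  | one => simp [lg_one]
  | mul y z hy hz a b =>
    convert add_mem (add_mem a b) (h1 y (hG hy) z hz) using 1
    module
  | inv y hy a =>
    rw [lg_inv hc (hY y (hG hy)), smul_neg]
    exact neg_mem a

section
variable (h : PL c D) (hc : ∀ i, wt i < c) (hY : ∀ y ∈ Y, IsUni wt y)
include h hc hY

theorem s1 (hR : NIn R Y) (hg : g ∈ Y) (hr : r ∈ R) :
    D • (lg c (g * r).val - lg c g.val - lg c r.val) ∈ dl c Y ⁅R, Y⁆ := by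
  have := h.lin hc (hY g hg) (hY r (hR.1 hr)) (M := dl c Y ⁅R, Y⁆) (z := lg c (g * r).val)
    fun k => by
      obtain ⟨r', h1, h2⟩ := hR.mul_pow hg hr k
      rw [← lg_pow hc (hY _ (mul_mem hg (hR.1 hr))), h2, ← neg_sub]
      exact neg_mem (mem_dl (mul_mem (pow_mem hg k) (pow_mem (hR.1 hr) k)) h1)
  convert neg_mem this using 1
  module

theorem s1' (hR : NIn R Y) {x : Matrix (Fin n) (Fin n) ℚ} (hx : x ∈ dl c Y R) :
    ∃ ρ ∈ R, D • (x - lg c ρ.val) ∈ dl c Y ⁅R, Y⁆ := by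
  induction hx using AddSubgroup.closure_induction with
  | mem x hx =>
    obtain ⟨g, hg, r, hr, rfl⟩ := hx
    exact ⟨r, hr, s1 h hc hY hR hg hr⟩
  | zero => exact ⟨1, one_mem _, by simp [lg_one]⟩
  | add x y _ _ a b =>
    obtain ⟨p, hp, a⟩ := a
    obtain ⟨q, hq, b⟩ := b
    refine ⟨p * q, mul_mem hp hq, ?_⟩
    convert sub_mem (add_mem a b) (s1 h hc hY hR (hR.1 hp) hq) using 1
    module
  | neg x _ a =>
    obtain ⟨p, hp, a⟩ := a
    refine ⟨p⁻¹, inv_mem hp, ?_⟩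
    rw [lg_inv hc (hY p (hR.1 hp))]
    convert neg_mem a using 1
    module

theorem s2 (j : ℕ) : ∀ (R : Subgroup (GL (Fin n) ℚ)) (s : ℕ), NIn R Y → Lev wt s R → c ≤ s + j →
    ∀ x ∈ dl c Y R, D ^ j • x ∈ logSpan c R := by
  induction j with
  | zero => exact fun R s _ hl hs x hx => by simp [hl.dl_eq hc hs hx]
  | succ j ih =>
    intro R s hR hl hs x hx
    obtain ⟨ρ, h1, h2⟩ := s1' h hc hY hR hx
    have := span_mono hR.comm_le (ih _ _ hR.comm (hl.comm hc hY) (by omega) _ h2)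
    convert add_mem this (nsmul_mem (lg_mem_span h1) (D ^ (j + 1))) using 1
    rw [pow_succ]
    module

theorem s3 (hR : NIn R Y) (hg : g ∈ Y) (hr : r ∈ R) :
    D ^ (c + 1) • (lg c (g * r).val - lg c g.val - lg c r.val) ∈ logSpan c ⁅R, Y⁆ := by
  rw [pow_succ, mul_nsmul']
  exact s2 h hc hY c _ 0 hR.comm (fun r hr => hY r (hR.comm.1 hr)) (by omega) _
    (s1 h hc hY hR hg hr)

theorem s4 (j : ℕ) : ∀ (R : Subgroup (GL (Fin n) ℚ)) (s : ℕ), NIn R Y → Lev wt s R → c ≤ s + j →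
    (∀ r ∈ R, ∀ y ∈ Y, adL y (lg c r.val) - lg c r.val ∈ J) →
    logSpan c ⁅R, Y⁆ ≤ dv ((D ^ (c + 1)) ^ j) J := by
  induction j with
  | zero =>
    exact fun R s hR hl hs _ => span_le fun y hy => by
      simp [hl.eq_one hc hs (hR.comm_le hy), lg_one]
  | succ j ih =>
    intro R s hR hl hs hJ
    have i := ih _ _ hR.comm (hl.comm hc hY) (by omega) fun r hr => hJ r (hR.comm_le hr)
    refine span_le fun y hy => add_gen hc hY hR.comm.1 (fun g hg r hr => ?_) ?_ hy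
    · rw [pow_succ, mul_nsmul']
      exact i (s3 h hc hY hR.comm hg hr)
    · rintro _ ⟨r, hr, y, hy, rfl⟩
      refine ⟨r⁻¹, inv_mem (hR.1 hr), nsmul_mem ?_ _⟩
      rw [show r⁻¹ * ⁅r, y⁆ = y * r⁻¹ * y⁻¹ by rw [commutatorElement_def]; group, lg_conj]
      exact hJ _ (inv_mem hr) y hy

theorem s5 {G : Set (GL (Fin n) ℚ)} (hR : NIn (Subgroup.closure G) Y)
    (hM : ∀ y ∈ Y, ∀ x ∈ M, adL y x ∈ M)
    (hG : ∀ r ∈ G, ∃ g ∈ Y, lg c (g * r).val - lg c g.val ∈ M) (j : ℕ) :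
    ∀ r ∈ Subgroup.closure G,
      ((D ^ (c + 1)) ^ (c + 1)) ^ j • lg c r.val ∈ M ⊔ (fil wt (j + 1)).toAddSubgroup := by
  induction j with
  | zero => exact fun r hr => AddSubgroup.mem_sup_right (by simpa using lg_mem_fil (hY r (hR.1 hr)))
  | succ j ih =>
    intro r hr
    have i := s4 h hc hY (J := dv (((D ^ (c + 1)) ^ (c + 1)) ^ j)
      (M ⊔ (fil wt (j + 1 + 1)).toAddSubgroup)) c _ 0 hR (fun r hr => hY r (hR.1 hr)) (by omega)
      fun r hr y hy => by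
        obtain ⟨p, hp, q, hq, e⟩ := AddSubgroup.mem_sup.1 (ih r hr)
        rw [mem_dv, smul_sub, ← map_nsmul, ← e, map_add, add_sub_add_comm]
        exact AddSubgroup.add_mem_sup (sub_mem (hM y hy p hp) hp) (adL_sub_mem hc (hY y hy) hq)
    rw [pow_succ, mul_nsmul']
    refine mem_dv.1 (add_gen hc hY hR.1 (fun g hg r hr => ?_) (fun r hr => ?_) hr)
    · rw [pow_succ, mul_nsmul']
      exact i (s3 h hc hY hR hg hr)
    · obtain ⟨g, hg, e⟩ := hG r hr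
      exact ⟨g, hg, nsmul_mem (nsmul_mem (AddSubgroup.mem_sup_left e) _) _⟩

theorem s6 (k j : ℕ) : ∀ (R : Subgroup (GL (Fin n) ℚ)) (s : ℕ), NIn R Y → Lev wt s R →
    c ≤ s + j → ∀ y ∈ Y, ∀ x ∈ dl c Y R,
      ∃ e ∈ pw k Y, lg c (y * e).val = lg c y.val + (D ^ (2 * j) * k) • x := by
  induction j with
  | zero => exact fun R s _ hl hs y _ x hx => ⟨1, one_mem _, by simp [hl.dl_eq hc hs hx]⟩
  | succ j ih =>
    intro R s hR hl hs y hy x hx
    obtain ⟨ρ, h1, h2⟩ := s1' h hc hY hR hx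
    obtain ⟨v, hv, e⟩ := h.dvd hc (hY y hy) (hY ρ (hR.1 h1)) uni_one (M := dv D (dl c Y ⁅R, Y⁆))
      (z := lg c ρ.val) (fun l => by
        rw [one_pow, mul_one, ← lg_pow hc (hY ρ (hR.1 h1))]
        exact s1 h hc hY hR hy (pow_mem h1 l)) (D * (D ^ (2 * j) * k))
    rw [one_pow, mul_one] at e
    obtain ⟨e', h3, h4⟩ := ih _ _ hR.comm (hl.comm hc hY) (by omega) _
      (mul_mem hy (pow_mem (hR.1 h1) (D * (D * (D ^ (2 * j) * k))))) _
      (sub_mem (nsmul_mem h2 D) (mem_dv.1 hv))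
    refine ⟨_, mul_mem (pow_mem_pw (hR.1 h1) (D * (D * (D ^ (2 * j) * k)))
      (((dvd_mul_left _ _).mul_left _).mul_left _)) h3, ?_⟩
    rw [← mul_assoc, h4, eq_add_of_sub_eq (eq_add_of_sub_eq e), mul_add 2, mul_one, pow_add]
    module

theorem s7 (k : ℕ) {e : GL (Fin n) ℚ} (he : e ∈ pw (D * k) Y) : ∀ y ∈ Y,
    ∃ v ∈ logSpan c Y, lg c (y * e).val = lg c y.val + k • v := by
  induction he using Subgroup.closure_induction with
  | mem x hx =>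
    obtain ⟨a, ha, rfl⟩ := hx
    intro y hy
    obtain ⟨v, hv, e⟩ := h.dvd hc (hY y hy) (hY a ha) uni_one (M := logSpan c Y) (z := 0)
      (fun l => by
        rw [one_pow, mul_one, smul_zero, sub_zero]
        exact sub_mem (lg_mem_span (mul_mem hy (pow_mem ha l))) (lg_mem_span hy)) k
    rw [one_pow, mul_one, smul_zero, sub_zero] at e
    exact ⟨v, hv, eq_add_of_sub_eq' e⟩
  | one => exact fun y _ => ⟨0, zero_mem _, by simp⟩
  | mul a b ha _ p q =>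
    intro y hy
    obtain ⟨v, hv, p⟩ := p y hy
    obtain ⟨w, hw, q⟩ := q _ (mul_mem hy (pw_le _ _ ha))
    exact ⟨v + w, add_mem hv hw, by rw [← mul_assoc, q, p, smul_add, add_assoc]⟩
  | inv a ha p =>
    intro y hy
    obtain ⟨v, hv, p⟩ := p _ (mul_mem hy (inv_mem (pw_le _ _ ha)))
    rw [inv_mul_cancel_right] at p
    exact ⟨-v, neg_mem hv, by rw [p]; simp⟩

theorem s8 (k : ℕ) {y : GL (Fin n) ℚ} (hy : y ∈ Y) {x : Matrix (Fin n) (Fin n) ℚ}
    (hx : x ∈ logSpan c Y) :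
    ∃ e ∈ pw k Y, lg c (y * e).val = lg c y.val + (D ^ (2 * c) * k) • x :=
  s6 h hc hY k c Y 0 (nin_self Y) hY (by omega) y hy x (span_le (fun r hr => by
    simpa [lg_one] using mem_dl (c := c) (one_mem Y) hr) hx)

end

theorem PL.mono {D' : ℕ} (h : PL c D) (hd : D ∣ D') (h0 : 0 < D') : PL c D' where
  pos := h0
  lin := fun hc _ _ ha hb _ _ H => nsmul_dvd hd (h.lin hc ha hb H)
  dvd := fun hc _ _ _ hg ha hb _ _ H k => by
    obtain ⟨j, rfl⟩ := hd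
    obtain ⟨v, hv, e⟩ := h.dvd hc hg ha hb H (j * k)
    exact ⟨j • v, nsmul_mem hv j, by rw [mul_assoc D, e, mul_nsmul]⟩
  br := fun hc _ ha _ _ H => nsmul_dvd hd (h.br hc ha H)
  ad := fun hc _ ha _ _ _ H H' => nsmul_dvd hd (h.ad hc ha H H')

theorem PL.cst (h : PL c D) : Cst c (D ^ ((c + 1) * (c + 1) * (c + 1))) := by
  have d : ∀ j, j ≤ 2 * c + 1 → D ^ j ∣ D ^ ((c + 1) * (c + 1) * (c + 1)) := fun j hj =>
    pow_dvd_pow _ (by nlinarith [Nat.zero_le (c * c), Nat.zero_le (c * c * c)])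
  have d1 : D ∣ D ^ ((c + 1) * (c + 1) * (c + 1)) := dvd_pow_self _ (by positivity)
  refine { h.mono d1 (pow_pos h.pos _) with
    kap := fun hc Y hY k y hy x hx => ?_
    shift := fun hc Y hY k y hy e he => ?_
    up := fun {n wt} hc Y hY G hR M hM hG x hx => ?_
    two := fun hc Y hY a b ha hb H k => ?_ }
  · obtain ⟨j, hj⟩ := d (2 * c) (by omega)
    obtain ⟨e, h1, h2⟩ := s8 h hc hY k hy (nsmul_mem hx j)
    exact ⟨e, h1, by rw [h2, hj]; module⟩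
  · exact s7 h hc hY k (pw_dvd (Nat.mul_dvd_mul_right d1 k) he) y hy
  · refine span_le (J := dv _ M) (fun r hr => ?_) hx
    obtain ⟨p, hp, q, hq, e⟩ := AddSubgroup.mem_sup.1 (s5 h hc hY hR hM hG (c + 1) r hr)
    rw [fil_zero hc (by omega) hq, add_zero, ← pow_mul, ← pow_mul, ← mul_assoc] at e
    exact mem_dv.2 (e ▸ hp)
  · obtain ⟨j, hj⟩ := d (2 * c + 1) le_rfl
    obtain ⟨v, hv, e⟩ := h.dvd hc uni_one ha hb (M := logSpan c Y) (z := 0) (fun l => by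
      simpa [lg_one] using lg_mem_span (c := c) (H l)) (D ^ (2 * c) * (j * k))
    obtain ⟨e', h1, h2⟩ := s8 h hc hY (j * k) (one_mem Y) hv
    rw [show D * (D ^ (2 * c) * (j * k)) = D ^ ((c + 1) * (c + 1) * (c + 1)) * k by
      rw [hj]; ring] at e
    simp only [one_mul, Units.val_one, lg_one, smul_zero, sub_zero, zero_add] at e h2
    rw [lg_inj hc (hY _ (H _)) (hY _ (pw_le _ _ h1)) (e.trans h2.symm)]
    exact pw_dvd (dvd_mul_left _ _) h1

theorem cst_dc (c : ℕ) : Cst c (dc c) := (pl_dn c).cst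

end Pool.Agent.P.MP_257122_al.C
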