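import Pool.Agent.P.MP_257122_al.FEnum

/-!
# Recursively enumerable predicates between two bounds

PLAN.  First prove `btw_iff`; all rules are then closure properties of `REPred` (see `cs_prop_iff`,
`CS.ex`, `CS.allMemD` for models).  `Btw.bind` is an instance of `MV.bind`.
-/

namespace Pool.Agent.P.MP_257122_al

open FCoreAux hiding unif
open FPropAux

variable {A : Type} [Rep A]

/-- An r.e. predicate between `Lo` and `Hi` can be computed. -/
def Btw (Lo Hi : A → Prop) : Prop :=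
  MV (fun a (p : Prop) => (Lo a → p) ∧ (p → Hi a))

variable {Lo Hi Lo' Hi' : A → Prop}

theorem btw_iff : Btw Lo Hi ↔ ∃ Q : ℕ → Prop, REPred Q ∧
    ∀ c a, Rep.R c a → (Lo a → Q c) ∧ (Q c → Hi a) := by
  constructor
  · rintro ⟨F, hF, hf⟩
    refine ⟨fun c => ((F c).bind fun d => ev d 0).Dom, (hF.bind (g := fun _ d => ev d 0)
      (ev_partrec.comp Computable.snd (Computable.const 0))).dom_re, fun c a hc => ?_⟩
    obtain ⟨d, hd, p, hp, hd'⟩ := hf c a hc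
    have e : ((F c).bind fun d => ev d 0) = ev d 0 := by
      rw [Part.eq_some_iff.2 hd, Part.bind_some]
    have e' := (iff_of_eq (congrArg Part.Dom e)).trans hd'
    exact ⟨fun h => e'.2 (hp.1 h), fun h => hp.2 (e'.1 h)⟩
  · rintro ⟨Q, hQ, h⟩
    obtain ⟨s, hs, hs'⟩ := smn
      (F := fun c _ => (Part.assert (Q c) fun _ => Part.some ()).map fun _ => 0)
      ((Partrec.map hQ (Computable.const 0).to₂).comp Computable.fst)
    refine tot (U := fun _ => Sel Prop) hs fun c a hc => ⟨Q c, h c a hc, ?_⟩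
    show (ev (s c) 0).Dom ↔ Q c
    rw [hs']
    exact ⟨fun h => h.1, fun h => ⟨h, trivial⟩⟩

theorem Btw.of_cs {P : A → Prop} (h : CS P) (lo : ∀ a, Coded a → Lo a → P a)
    (hi : ∀ a, Coded a → P a → Hi a) : Btw Lo Hi :=
  MV.of_cs h fun a ha => ⟨lo a ha, hi a ha⟩

theorem Btw.to_cs {P : A → Prop} (h : Btw P P) : CS P :=
  MV.to_cs (MV.mono h fun _ _ _ _ k => propext ⟨k.2, k.1⟩)

theorem Btw.mono (h : Btw Lo Hi) (lo : ∀ a, Coded a → Lo' a → Lo a)
    (hi : ∀ a, Coded a → Hi a → Hi' a) : Btw Lo' Hi' :=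
  MV.mono h fun a _ ha _ k => ⟨fun x => k.1 (lo a ha x), fun x => hi a ha (k.2 x)⟩

theorem Btw.comp {B : Type} [Rep B] (h : Btw Lo Hi) {g : B → A} (hg : CS g) :
    Btw (fun b => Lo (g b)) (fun b => Hi (g b)) := MV.comp h hg

theorem Btw.or (h : Btw Lo Hi) (h' : Btw Lo' Hi') :
    Btw (fun a => Lo a ∨ Lo' a) (fun a => Hi a ∨ Hi' a) := by
  obtain ⟨Q, h1, h2⟩ := btw_iff.1 h
  obtain ⟨Q', h3, h4⟩ := btw_iff.1 h'
  exact btw_iff.2 ⟨_, re_or h1 h3, fun c a hc =>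
    ⟨Or.imp (h2 c a hc).1 (h4 c a hc).1, Or.imp (h2 c a hc).2 (h4 c a hc).2⟩⟩

theorem Btw.and (h : Btw Lo Hi) (h' : Btw Lo' Hi') :
    Btw (fun a => Lo a ∧ Lo' a) (fun a => Hi a ∧ Hi' a) := by
  obtain ⟨Q, h1, h2⟩ := btw_iff.1 h
  obtain ⟨Q', h3, h4⟩ := btw_iff.1 h'
  exact btw_iff.2 ⟨_, re_and h1 h3, fun c a hc =>
    ⟨And.imp (h2 c a hc).1 (h4 c a hc).1, And.imp (h2 c a hc).2 (h4 c a hc).2⟩⟩

theorem Btw.ex {T : A → Type} [∀ a, Rep (T a)] {L H : ∀ a, T a → Prop} (hE : Enum T)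
    (h : Btw (fun p : Σ a, T a => L p.1 p.2) (fun p => H p.1 p.2)) :
    Btw (fun a => ∃ x, L a x) (fun a => ∃ x, H a x) := by
  obtain ⟨E, h1, h2⟩ := hE
  obtain ⟨Q, h3, h4⟩ := btw_iff.1 h
  refine btw_iff.2 ⟨_, re_ex (re_and h1 (re_pair h3)), fun c a hc => ⟨?_, ?_⟩⟩
  · rintro ⟨x, hx⟩
    obtain ⟨d, d1, d2⟩ := (h2 c a hc).2 x
    exact ⟨d, d1, (h4 _ ⟨a, x⟩ (r_sigma hc d2)).1 hx⟩
  · rintro ⟨d, d1, d2⟩
    obtain ⟨x, hx⟩ := (h2 c a hc).1 d d1
    exact ⟨x, (h4 _ ⟨a, x⟩ (r_sigma hc hx)).2 d2⟩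

theorem Btw.sub {P : A → Prop} (hP : CS P) {L H : {a // P a} → Prop} (h : Btw L H) :
    Btw (fun a => ∃ hp : P a, L ⟨a, hp⟩) (fun a => ∃ hp : P a, H ⟨a, hp⟩) := by
  obtain ⟨E, h1, h2⟩ := cs_prop_iff.1 hP
  obtain ⟨Q, h3, h4⟩ := btw_iff.1 h
  exact btw_iff.2 ⟨_, re_and h1 h3, fun c a hc =>
    ⟨fun ⟨hp, k⟩ => ⟨(h2 c a hc).2 hp, (h4 c ⟨a, hp⟩ hc).1 k⟩,
      fun ⟨hp, k⟩ => ⟨(h2 c a hc).1 hp, (h4 c ⟨a, _⟩ hc).2 k⟩⟩⟩

theorem Btw.bind {T : A → Type} [∀ a, Rep (T a)] {Q : ∀ a, T a → Prop} (h : MV Q)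
    (h' : Btw (fun p : {p : Σ a, T a // Q p.1 p.2} => Lo p.1.1) (fun p => Hi p.1.1)) :
    Btw Lo Hi := MV.bind (U := fun _ => Prop) h h'

theorem Btw.allMem {T : A → Type} [∀ a, Rep (T a)] {L H : ∀ a, T a → Prop}
    {l : ∀ a, List (T a)} (hl : CS l)
    (h : Btw (fun p : {p : Σ a, T a // p.2 ∈ l p.1} => L p.1.1 p.1.2) (fun p => H p.1.1 p.1.2)) :
    Btw (fun a => ∀ x ∈ l a, L a x) (fun a => ∀ x ∈ l a, H a x) :=
  Btw.bind (MV.list (U := fun _ => Prop) (Q := fun a x p => (L a x → p) ∧ (p → H a x)) hl h)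
    (Btw.of_cs (CS.allMem (P := fun _ (q : Prop) => q)
      ((s2 (T := fun _ : A => List Prop)).comp (CS.val CS.id)) s2)
      (fun p _ k q hq => by
        obtain ⟨x, x1, x2⟩ := f2_right p.2 q hq
        exact x2.1 (k x x1))
      fun p _ k x hx => by
        obtain ⟨q, q1, q2⟩ := f2_left p.2 x hx
        exact q2.2 (k q q1))

/-- A predicate that is r.e. and co-r.e. on codes is decided by a partial recursive function. -/
theorem exists_decider {P : A → Prop} (h : CS P) (h' : CS (fun a => ¬ P a)) :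
    ∃ f : ℕ →. Bool, Partrec f ∧ ∀ c a, Rep.R c a → ∃ r ∈ f c, (r = true ↔ P a) := by
  classical
  obtain ⟨F, hF, hf⟩ := CS.decide h h'
  refine ⟨fun c => (F c).map fun d => decide (d = 1), hF.map
    ((Primrec.eq.decide.comp Primrec.snd (Primrec.const 1)).to_comp).to₂, fun c a hc => ?_⟩
  obtain ⟨d, d1, d2⟩ := hf c a hc
  refine ⟨_, Part.mem_map _ d1, ?_⟩
  have e : d = (decide (P a)).toNat := d2
  by_cases k : P a <;> simp [e, k]

section fin
variable {m n : A → ℕ}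
@[aesop safe 50 apply (transparency := reducible) (rule_sets := [Restrict])]
theorem CS.finCastAdd {i : ∀ a, Fin (m a)} (h : CS i) :
    CS (fun a => Fin.castAdd (n a) (i a)) := same h fun _ _ _ _ k => k
@[aesop safe 50 apply (transparency := reducible) (rule_sets := [Restrict])]
theorem CS.finNatAdd {i : ∀ a, Fin (n a)} (hm : CS m) (h : CS i) :
    CS (fun a => Fin.natAdd (m a) (i a)) :=
  bin' hm h Primrec.nat_add.to_comp fun _ _ _ k k' => congrArg₂ (· + ·) k k'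
@[aesop safe 50 apply (transparency := reducible) (rule_sets := [Restrict])]
theorem CS.finCastAddF : CS (fun a => (Fin.castAdd (n a) : Fin (m a) → Fin (m a + n a))) :=
  CS.lam (CS.finCastAdd s2)
@[aesop safe 50 apply (transparency := reducible) (rule_sets := [Restrict])]
theorem CS.finNatAddF (hm : CS m) :
    CS (fun a => (Fin.natAdd (m a) : Fin (n a) → Fin (m a + n a))) :=
  CS.lam (CS.finNatAdd (hm.comp s1) s2)
@[aesop safe 50 apply (transparency := reducible) (rule_sets := [Restrict])]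
theorem CS.finAppend {T : A → Type} [∀ a, Rep (T a)] {f : ∀ a, Fin (m a) → T a}
    {g : ∀ a, Fin (n a) → T a} (hm : CS m) (hf : CS f) (hg : CS g) :
    CS (fun a => Fin.append (f a) (g a)) := by
  have e : CS (fun p : Σ a, Fin (m a + n a) => p.2.val) := 
    CS.finVal (s2 (T := fun a => Fin (m a + n a)))
  refine CS.lam ((CS.dite (P := fun p : Σ a, Fin (m a + n a) => p.2.val < m p.1)
    (f := fun p k => f p.1 ⟨p.2.val, k⟩)
    (g := fun p k => g p.1 ⟨p.2.val - m p.1, by have := p.2.2; omega⟩)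
    (CS.lt LtF.nat e (hm.comp s1)) (CS.notLt LeF.nat e (hm.comp s1))
    (CS.app (hf.comp (s1.comp (CS.val CS.id))) (CS.finMk (e.comp (CS.val CS.id))))
    (CS.app (hg.comp (s1.comp (CS.val CS.id))) (CS.finMk (CS.natSub
      (e.comp (CS.val CS.id)) (hm.comp (s1.comp (CS.val CS.id))))))).congr ?_)
  rintro ⟨a, i⟩ -
  dsimp only
  refine Fin.addCases (fun j => ?_) (fun j => ?_) i
  · simp
  · simp
end fin

end Pool.Agent.P.MP_257122_al
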