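import Pool.Agent.P.MP_257122_al.Rep

/-!
# Core rules of the calculus of computable families

PLAN.  All proofs are direct manipulations of `Partrec`.  Tools: `Nat.Partrec.Code.exists_code`,
`Nat.Partrec.Code.eval_part`, `Nat.Partrec.Code.curry` (s-m-n: `eval_curry`, `primrec₂_curry`),
`evaln` with `evaln_sound`, `evaln_complete`, `evaln_mono`, `primrec_evaln` for dovetailing,
`Partrec.rfind`, `Partrec.fix` or `Computable.nat_rec`, `Partrec.merge'`.
First prove `cs_prop_iff`; every rule about `Prop` then becomes a closure property of `REPred`.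
`CS.lam`: realise `a` by the code of the program `d ↦ F (pair c d)`.
`MV.search`: dovetail over pairs `(d, k)`, running both semi-decisions for `k` steps.
`MV.iter`: recursion on the number, `Partrec.nat_rec`.
-/

namespace Pool.Agent.P.MP_257122_al

namespace FCoreAux

open Nat.Partrec (Code)

theorem ev_partrec : Partrec₂ ev :=
  Code.eval_part.comp ((Computable.ofNat Code).comp Computable.fst) Computable.snd

/-- The s-m-n theorem. -/
theorem smn {F : ℕ → ℕ →. ℕ} (hF : Partrec₂ F) :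
    ∃ s : ℕ → ℕ, Computable s ∧ ∀ c d, ev (s c) d = F c d := by
  obtain ⟨c0, hc0⟩ := Code.exists_code.1 (Partrec₂.unpaired'.2 hF)
  refine ⟨fun c => Encodable.encode (Code.curry c0 c), Computable.encode.comp
    (Code.primrec₂_curry.to_comp.comp (Computable.const c0) Computable.id), fun c d => ?_⟩
  simp [ev, Code.eval_curry, hc0, Nat.unpaired]

/-- Uniformisation of the domain of a computable function. -/
theorem unif {G : ℕ → ℕ →. ℕ} (hG : Partrec₂ G) :
    ∃ F : ℕ →. ℕ, Partrec F ∧ ∀ c d, (G c d).Dom → ∃ e ∈ F c, (G c e).Dom := by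
  obtain ⟨c0, hc0⟩ := Code.exists_code.1 (Partrec₂.unpaired'.2 hG)
  have hG' : ∀ c d, G c d = Code.eval c0 (Nat.pair c d) := fun c d => by
    simp [hc0, Nat.unpaired]
  refine ⟨fun c => Nat.rfindOpt fun k =>
    (Code.evaln k.unpair.2 c0 (Nat.pair c k.unpair.1)).map fun _ => k.unpair.1, ?_, ?_⟩
  · apply Partrec.rfindOpt
    have h1 : Primrec fun p : ℕ × ℕ => p.2.unpair.1 :=
      Primrec.fst.comp (Primrec.unpair.comp Primrec.snd)
    have h2 : Primrec fun p : ℕ × ℕ => p.2.unpair.2 :=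
      Primrec.snd.comp (Primrec.unpair.comp Primrec.snd)
    exact (Primrec.option_map (Code.primrec_evaln.comp ((h2.pair (Primrec.const c0)).pair
      (Primrec₂.natPair.comp Primrec.fst h1))) (h1.comp Primrec.fst).to₂).to_comp
  · intro c d hd
    rw [hG'] at hd
    obtain ⟨k, hk⟩ := Code.evaln_complete.1 (Part.get_mem hd)
    have hdom : (Nat.rfindOpt fun k =>
        (Code.evaln k.unpair.2 c0 (Nat.pair c k.unpair.1)).map fun _ => k.unpair.1).Dom := by
      refine Nat.rfindOpt_dom.2 ⟨Nat.pair d k, d, ?_⟩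
      simp only [Nat.unpair_pair, Option.mem_def, Option.map_eq_some_iff]
      exact ⟨_, hk, trivial⟩
    refine ⟨_, Part.get_mem hdom, ?_⟩
    obtain ⟨n, hn⟩ := Nat.rfindOpt_spec (Part.get_mem hdom)
    simp only [Option.mem_def, Option.map_eq_some_iff] at hn
    obtain ⟨x, hx, hn⟩ := hn
    rw [← hn, hG']
    exact Part.dom_iff_mem.2 ⟨x, Code.evaln_sound hx⟩

theorem c_fst : Computable fun c : ℕ => c.unpair.1 := Computable.fst.comp Computable.unpair

theorem c_snd : Computable fun c : ℕ => c.unpair.2 := Computable.snd.comp Computable.unpair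

theorem c_pair : Computable₂ Nat.pair := Primrec₂.natPair.to_comp

variable {A : Type} [Rep A]

/-- Compute a code of `g a` first and continue. -/
theorem un {T U : A → Type} [∀ a, Rep (T a)] [∀ a, Rep (U a)] {g : ∀ a, T a} {f : ∀ a, U a}
    (h : CS g) {F : ℕ → ℕ →. ℕ} (hF : Partrec₂ F)
    (H : ∀ c a d, Rep.R c a → Rep.R d (g a) → ∃ e ∈ F c d, Rep.R e (f a)) : CS f := by
  obtain ⟨G, hG, hg⟩ := h
  refine ⟨fun c => (G c).bind (F c), hG.bind hF, fun c a hc => ?_⟩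
  obtain ⟨d, hd, hd'⟩ := hg c a hc
  obtain ⟨e, he, he'⟩ := H c a d hc hd'
  exact ⟨e, Part.mem_bind hd he, he'⟩

theorem un' {T U : A → Type} [∀ a, Rep (T a)] [∀ a, Rep (U a)] {g : ∀ a, T a} {f : ∀ a, U a}
    (h : CS g) {F : ℕ → ℕ} (hF : Computable F)
    (H : ∀ a d, Rep.R d (g a) → Rep.R (F d) (f a)) : CS f :=
  un h (F := fun _ d => Part.some (F d)) (hF.comp Computable.snd).partrec
    fun _ a d _ hd => ⟨F d, Part.mem_some _, H a d hd⟩

theorem same {T U : A → Type} [∀ a, Rep (T a)] [∀ a, Rep (U a)] {g : ∀ a, T a} {f : ∀ a, U a}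
    (h : CS g) (H : ∀ c a d, Rep.R c a → Rep.R d (g a) → Rep.R d (f a)) : CS f := by
  obtain ⟨G, hG, hg⟩ := h
  refine ⟨G, hG, fun c a hc => ?_⟩
  obtain ⟨d, hd, hd'⟩ := hg c a hc
  exact ⟨d, hd, H c a d hc hd'⟩

theorem bin {T T' U : A → Type} [∀ a, Rep (T a)] [∀ a, Rep (T' a)] [∀ a, Rep (U a)]
    {g : ∀ a, T a} {g' : ∀ a, T' a} {f : ∀ a, U a} (h : CS g) (h' : CS g')
    {F : ℕ → ℕ →. ℕ} (hF : Partrec₂ F)
    (H : ∀ a d d', Rep.R d (g a) → Rep.R d' (g' a) → ∃ e ∈ F d d', Rep.R e (f a)) : CS f := by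
  obtain ⟨G, hG, hg⟩ := h'
  refine un h (F := fun c d => (G c).bind (F d)) ((hG.comp Computable.fst).bind
    (hF.comp (Computable.snd.comp Computable.fst) Computable.snd)) fun c a d hc hd => ?_
  obtain ⟨d', hd1, hd2⟩ := hg c a hc
  obtain ⟨e, he, he'⟩ := H a d d' hd hd2
  exact ⟨e, Part.mem_bind hd1 he, he'⟩

theorem bin' {T T' U : A → Type} [∀ a, Rep (T a)] [∀ a, Rep (T' a)] [∀ a, Rep (U a)]
    {g : ∀ a, T a} {g' : ∀ a, T' a} {f : ∀ a, U a} (h : CS g) (h' : CS g')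
    {F : ℕ → ℕ → ℕ} (hF : Computable₂ F)
    (H : ∀ a d d', Rep.R d (g a) → Rep.R d' (g' a) → Rep.R (F d d') (f a)) : CS f :=
  bin h h' hF.partrec₂ fun a d d' hd hd' => ⟨F d d', Part.mem_some _, H a d d' hd hd'⟩

theorem tot {U : A → Type} [∀ a, Rep (U a)] {f : ∀ a, U a} {F : ℕ → ℕ} (hF : Computable F)
    (H : ∀ c a, Rep.R c a → Rep.R (F c) (f a)) : CS f :=
  ⟨fun c => Part.some (F c), hF.partrec, fun c a hc => ⟨F c, Part.mem_some _, H c a hc⟩⟩

theorem r_sigma {α : Type} {β : α → Type} [Rep α] [∀ a, Rep (β a)] {c d : ℕ} {a : α} {b : β a}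
    (hc : Rep.R c a) (hd : Rep.R d b) : Rep.R (Nat.pair c d) (⟨a, b⟩ : Σ a, β a) := by
  refine ⟨?_, ?_⟩
  · rw [Nat.unpair_pair]; exact hc
  · rw [Nat.unpair_pair]; exact hd

theorem r_prod {α β : Type} [Rep α] [Rep β] {c d : ℕ} {a : α} {b : β}
    (hc : Rep.R c a) (hd : Rep.R d b) : Rep.R (Nat.pair c d) (a, b) := by
  refine ⟨?_, ?_⟩
  · rw [Nat.unpair_pair]; exact hc
  · rw [Nat.unpair_pair]; exact hd

theorem sig1 {T : A → Type} [∀ a, Rep (T a)] : CS (fun p : Σ a, T a => p.1) :=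
  tot c_fst fun _ _ h => h.1

theorem sig2 {T : A → Type} [∀ a, Rep (T a)] : CS (fun p : Σ a, T a => p.2) :=
  tot c_snd fun _ _ h => h.2

theorem dapp {ι : A → Type} {T : ∀ a, ι a → Type} [∀ a, Rep (ι a)] [∀ a i, Rep (T a i)]
    {f : ∀ a i, T a i} {i : ∀ a, ι a} (h : CS f) (hi : CS i) : CS (fun a => f a (i a)) :=
  bin h hi ev_partrec fun a _ d' hd hd' => hd d' (i a) hd'

theorem lam {ι : A → Type} {T : ∀ a, ι a → Type} [∀ a, Rep (ι a)] [∀ a i, Rep (T a i)]
    {f : ∀ a i, T a i} (h : CS (fun p : Σ a, ι a => f p.1 p.2)) : CS f := by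
  obtain ⟨F, hF, hf⟩ := h
  obtain ⟨s, hs, hs'⟩ := smn (F := fun c d => F (Nat.pair c d)) (hF.comp c_pair)
  refine tot hs fun c a hc d i hd => ?_
  rw [hs']
  exact hf _ ⟨a, i⟩ (r_sigma hc hd)

/-- Continue on the base extended by a chosen witness. -/
theorem elim {T U : A → Type} [∀ a, Rep (T a)] [∀ a, Rep (U a)] {Q : ∀ a, T a → Prop}
    (h : MV Q) {f : ∀ a, U a}
    (hf : CS (fun p : {p : Σ a, T a // Q p.1 p.2} => f p.1.1)) : CS f := by
  obtain ⟨F, hF, hf⟩ := hf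
  refine un h (F := fun c d => F (Nat.pair c d)) (hF.comp c_pair) ?_
  rintro c a d hc ⟨x, hx, hd⟩
  exact hf _ ⟨⟨a, x⟩, hx⟩ (r_sigma hc hd)

theorem cases {T : A → Type} [∀ a, Rep (T a)] {P Q : A → Prop} {f : ∀ a, T a}
    {P' Q' : ℕ → Prop} (hP : REPred P') (hQ : REPred Q')
    (eP : ∀ c a, Rep.R c a → (P' c ↔ P a)) (eQ : ∀ c a, Rep.R c a → (Q' c ↔ Q a))
    (hc : ∀ a, Coded a → P a ∨ Q a) (hf : CS (fun p : {a // P a} => f p.1))
    (hg : CS (fun p : {a // Q a} => f p.1)) : CS f := by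
  obtain ⟨F, hF, hf⟩ := hf
  obtain ⟨G, hG, hg⟩ := hg
  obtain ⟨k, hk, hk'⟩ := Partrec.merge' (Partrec.map hP (Computable.const true).to₂)
    (Partrec.map hQ (Computable.const false).to₂)
  refine ⟨fun c => (k c).bind fun b => cond b (F c) (G c), hk.bind
    (Partrec.cond Computable.snd (hF.comp Computable.fst) (hG.comp Computable.fst)),
    fun c a ha => ?_⟩
  have hd : (k c).Dom := by
    refine (hk' c).2.2 ((hc a ⟨c, ha⟩).imp (fun h => ?_) fun h => ?_)
    · exact ⟨(eP c a ha).2 h, trivial⟩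
    · exact ⟨(eQ c a ha).2 h, trivial⟩
  have hm := Part.get_mem hd
  rcases (hk' c).1 _ hm with h | h
  · obtain ⟨u, hu, e⟩ := (Part.mem_map_iff _).1 h
    obtain ⟨d, hd1, hd2⟩ := hf c ⟨a, (eP c a ha).1 (Part.mem_assert_iff.1 hu).1⟩ ha
    exact ⟨d, Part.mem_bind hm (by rw [← e]; exact hd1), hd2⟩
  · obtain ⟨u, hu, e⟩ := (Part.mem_map_iff _).1 h
    obtain ⟨d, hd1, hd2⟩ := hg c ⟨a, (eQ c a ha).1 (Part.mem_assert_iff.1 hu).1⟩ ha
    exact ⟨d, Part.mem_bind hm (by rw [← e]; exact hd1), hd2⟩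

end FCoreAux

open FCoreAux

variable {A : Type} [Rep A]

theorem cs_prop_iff {P : A → Prop} :
    CS P ↔ ∃ Q : ℕ → Prop, REPred Q ∧ ∀ c a, Rep.R c a → (Q c ↔ P a) := by
  constructor
  · rintro ⟨F, hF, hf⟩
    refine ⟨fun c => ((F c).bind fun d => ev d 0).Dom, (hF.bind (g := fun _ d => ev d 0)
      (ev_partrec.comp Computable.snd (Computable.const 0))).dom_re, fun c a hc => ?_⟩
    obtain ⟨d, hd, hd'⟩ := hf c a hc
    have e : ((F c).bind fun d => ev d 0) = ev d 0 := by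
      rw [Part.eq_some_iff.2 hd, Part.bind_some]
    exact (iff_of_eq (congrArg Part.Dom e)).trans hd'
  · rintro ⟨Q, hQ, h⟩
    obtain ⟨s, hs, hs'⟩ := smn
      (F := fun c _ => (Part.assert (Q c) fun _ => Part.some ()).map fun _ => 0)
      ((Partrec.map hQ (Computable.const 0).to₂).comp Computable.fst)
    refine tot hs fun c a hc => ?_
    show (ev (s c) 0).Dom ↔ P a
    rw [hs', ← h c a hc]
    exact ⟨fun h => h.1, fun h => ⟨h, trivial⟩⟩

theorem FCoreAux.searchC {T : A → Type} [∀ a, Rep (T a)] {Q Q' : ∀ a, T a → Prop} (hE : EnumC T)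
    (hQ : CS (fun p : Σ a, T a => Q' p.1 p.2)) (hs : ∀ a x, Q' a x → Q a x)
    (hc : ∀ a, Coded a → ∃ x, Coded x ∧ Q' a x) : MV Q := by
  obtain ⟨E, hE, h⟩ := hE
  obtain ⟨W, hW, hw⟩ := cs_prop_iff.1 hQ
  obtain ⟨F, hF, hf⟩ := unif (G := fun c d => (Part.assert (E (c, d)) fun _ => Part.some ()).bind
      fun _ => (Part.assert (W (Nat.pair c d)) fun _ => Part.some ()).map fun _ => 0)
    (Partrec.bind hE (((Partrec.map hW (Computable.const 0).to₂).comp c_pair).comp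
      Computable.fst).to₂)
  refine ⟨F, hF, fun c a ha => ?_⟩
  obtain ⟨x, hx, hx'⟩ := hc a ⟨c, ha⟩
  obtain ⟨d, hd, hd'⟩ := (h c a ha).2 x hx
  obtain ⟨e, he, ⟨h1, -⟩, h2, -⟩ := hf c d
    ⟨⟨hd, trivial⟩, (hw _ ⟨a, x⟩ (r_sigma ha hd')).2 hx', trivial⟩
  obtain ⟨y, hy⟩ := (h c a ha).1 e h1
  exact ⟨e, he, y, hs a y ((hw _ ⟨a, y⟩ (r_sigma ha hy)).1 h2), hy⟩

theorem FCoreAux.cases' {T : A → Type} [∀ a, Rep (T a)] {P Q : A → Prop} {f : ∀ a, T a}
    (hP : CS P) (hQ : CS Q) (hc : ∀ a, Coded a → P a ∨ Q a)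
    (hf : CS (fun p : {a // P a} => f p.1)) (hg : CS (fun p : {a // Q a} => f p.1)) : CS f := by
  obtain ⟨P', h1, h2⟩ := cs_prop_iff.1 hP
  obtain ⟨Q', h3, h4⟩ := cs_prop_iff.1 hQ
  exact FCoreAux.cases h1 h3 h2 h4 hc hf hg

theorem CS.coded {T : A → Type} [∀ a, Rep (T a)] {f : ∀ a, T a} (h : CS f) {a : A}
    (ha : Coded a) : Coded (f a) := by
  obtain ⟨F, -, hf⟩ := h
  obtain ⟨c, hc⟩ := ha
  obtain ⟨d, -, hd⟩ := hf c a hc
  exact ⟨d, hd⟩

theorem CS.comp {B : Type} [Rep B] {T : A → Type} [∀ a, Rep (T a)] {f : ∀ a, T a} (h : CS f)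
    {g : B → A} (hg : CS g) : CS (fun b => f (g b)) := by
  obtain ⟨F, hF, hf⟩ := h
  exact un hg (F := fun _ d => F d) (hF.comp Computable.snd) fun _ b d _ hd => hf d (g b) hd

theorem CS.congr {T : A → Type} [∀ a, Rep (T a)] {f g : ∀ a, T a} (h : CS f)
    (e : ∀ a, Coded a → f a = g a) : CS g :=
  same h fun c a _ hc hd => e a ⟨c, hc⟩ ▸ hd

theorem CS.of_iff {P Q : A → Prop} (h : CS P) (e : ∀ a, Coded a → (P a ↔ Q a)) : CS Q :=
  h.congr fun a ha => propext (e a ha)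

theorem CS.of_computable {f : ℕ → ℕ} (hf : Computable f) {g : A → ℕ} (hg : CS g) :
    CS (fun a => f (g a)) :=
  un' hg hf fun _ _ hd => congrArg f hd

@[aesop safe 1 apply (transparency := reducible) (rule_sets := [Restrict])]
theorem CS.id : CS (fun a : A => a) := tot Computable.id fun _ _ h => h

theorem CS.constC {T : Type} [Rep T] {x : T} (h : Coded x) : CS (fun _ : A => x) := by
  obtain ⟨c, hc⟩ := h
  exact tot (Computable.const c) fun _ _ _ => hc

@[aesop safe 2 apply (transparency := reducible) (rule_sets := [Restrict])]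
theorem CS.const {T : Type} [Rep T] [Tot T] {x : T} : CS (fun _ : A => x) :=
  CS.constC (Tot.tot x)

@[aesop safe 3 apply (transparency := reducible) (rule_sets := [Restrict])]
theorem CS.fst {α β : A → Type} [∀ a, Rep (α a)] [∀ a, Rep (β a)] {g : ∀ a, α a × β a}
    (h : CS g) : CS (fun a => (g a).1) := un' h c_fst fun _ _ h => h.1

@[aesop safe 3 apply (transparency := reducible) (rule_sets := [Restrict])]
theorem CS.snd {α β : A → Type} [∀ a, Rep (α a)] [∀ a, Rep (β a)] {g : ∀ a, α a × β a}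
    (h : CS g) : CS (fun a => (g a).2) := un' h c_snd fun _ _ h => h.2

@[aesop safe 3 apply (transparency := reducible) (rule_sets := [Restrict])]
theorem CS.sfst {α : A → Type} {β : ∀ a, α a → Type} [∀ a, Rep (α a)] [∀ a x, Rep (β a x)]
    {g : ∀ a, Σ x, β a x} (h : CS g) : CS (fun a => (g a).1) :=
  un' h c_fst fun _ _ h => h.1

@[aesop safe 3 apply (transparency := reducible) (rule_sets := [Restrict])]
theorem CS.ssnd {α : A → Type} {β : ∀ a, α a → Type} [∀ a, Rep (α a)] [i : ∀ a x, Rep (β a x)]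
    {g : ∀ a, Σ x, β a x} {j : ∀ a, Rep (β a (g a).1)} [∀ a, RepEq (j a) (i a (g a).1)]
    (h : CS g) : @CS A _ _ (fun a => (j a).w) (fun a => (g a).2) := by
  obtain rfl : j = fun a => i a (g a).1 := funext fun a => RepEq.eq
  exact un' h c_snd fun _ _ h => h.2

@[aesop safe 3 apply (transparency := reducible) (rule_sets := [Restrict])]
theorem CS.val {α : A → Type} {p : ∀ a, α a → Prop} [∀ a, Rep (α a)]
    {g : ∀ a, Subtype (p a)} (h : CS g) : CS (fun a => (g a).1) := same h fun _ _ _ _ h => h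

@[aesop safe 50 apply (transparency := reducible) (rule_sets := [Restrict])]
theorem CS.pair {α β : A → Type} [∀ a, Rep (α a)] [∀ a, Rep (β a)] {f : ∀ a, α a} {g : ∀ a, β a}
    (hf : CS f) (hg : CS g) : CS (fun a => (f a, g a)) :=
  bin' hf hg c_pair fun _ _ _ => r_prod

theorem CS.smk {α : A → Type} {β : ∀ a, α a → Type} [∀ a, Rep (α a)] [∀ a x, Rep (β a x)]
    (f : ∀ a, α a) (g : ∀ a, β a (f a)) (hf : CS f) (hg : CS g) :
    CS (fun a => (⟨f a, g a⟩ : Σ x, β a x)) := bin' hf hg c_pair fun _ _ _ => r_sigma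

/-- Use as `refine CS.sigmaIntro ?_ ?_ <;> dsimp only`. -/
theorem CS.sigmaIntro {α : A → Type} {β : ∀ a, α a → Type} [∀ a, Rep (α a)] [∀ a x, Rep (β a x)]
    {s : ∀ a, Σ x, β a x} (hf : CS (fun a => (s a).1)) (hg : CS (fun a => (s a).2)) : CS s :=
  CS.smk _ _ hf hg

@[aesop safe 50 apply (transparency := reducible) (rule_sets := [Restrict])]
theorem CS.smk0 {α : Type} {β : α → Type} [Rep α] [∀ x, Rep (β x)]
    {f : A → α} {g : ∀ a, β (f a)} (hf : CS f) (hg : CS g) :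
    CS (fun a => (⟨f a, g a⟩ : Sigma β)) := bin' hf hg c_pair fun _ _ _ => r_sigma

@[aesop safe 50 apply (transparency := reducible) (rule_sets := [Restrict])]
theorem CS.submk {α : A → Type} {p : ∀ a, α a → Prop} [∀ a, Rep (α a)] {f : ∀ a, α a}
    {h : ∀ a, p a (f a)} (hf : CS f) : CS (fun a => (⟨f a, h a⟩ : Subtype (p a))) :=
  same hf fun _ _ _ _ h => h

@[aesop safe 50 apply (transparency := reducible) (rule_sets := [Restrict])]
theorem CS.unit : CS (fun _ : A => ()) := tot Computable.id fun _ _ _ => trivial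

@[aesop safe 50 apply (transparency := reducible) (rule_sets := [Restrict])]
theorem CS.inl {α β : A → Type} [∀ a, Rep (α a)] [∀ a, Rep (β a)] {f : ∀ a, α a} (hf : CS f) :
    CS (fun a => (Sum.inl (f a) : α a ⊕ β a)) := by
  refine un' hf (c_pair.comp (Computable.const 0) Computable.id) fun a d hd => ?_
  show (Nat.pair 0 d).unpair.1 = 0 ∧ Rep.R (Nat.pair 0 d).unpair.2 (f a)
  rw [Nat.unpair_pair]
  exact ⟨rfl, hd⟩

@[aesop safe 50 apply (transparency := reducible) (rule_sets := [Restrict])]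
theorem CS.inr {α β : A → Type} [∀ a, Rep (α a)] [∀ a, Rep (β a)] {f : ∀ a, β a} (hf : CS f) :
    CS (fun a => (Sum.inr (f a) : α a ⊕ β a)) := by
  refine un' hf (c_pair.comp (Computable.const 1) Computable.id) fun a d hd => ?_
  show (Nat.pair 1 d).unpair.1 = 1 ∧ Rep.R (Nat.pair 1 d).unpair.2 (f a)
  rw [Nat.unpair_pair]
  exact ⟨rfl, hd⟩

@[aesop safe 50 apply (transparency := reducible) (rule_sets := [Restrict])]
theorem CS.sumElim {α β T : A → Type} [∀ a, Rep (α a)] [∀ a, Rep (β a)] [∀ a, Rep (T a)]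
    {f : ∀ a, α a → T a} {g : ∀ a, β a → T a} (hf : CS f) (hg : CS g) :
    CS (fun a => Sum.elim (f a) (g a)) := by
  have h1 : Primrec fun p : ℕ × ℕ =>
      if p.2.unpair.1 = 0 then p.1.unpair.1 else p.1.unpair.2 :=
    Primrec.ite (Primrec.eq.comp (Primrec.fst.comp (Primrec.unpair.comp Primrec.snd))
      (Primrec.const 0)) (Primrec.fst.comp (Primrec.unpair.comp Primrec.fst))
      (Primrec.snd.comp (Primrec.unpair.comp Primrec.fst))
  obtain ⟨s, hs, hs'⟩ := smn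
    (F := fun c d => ev (if d.unpair.1 = 0 then c.unpair.1 else c.unpair.2) d.unpair.2)
    (ev_partrec.comp h1.to_comp (c_snd.comp Computable.snd))
  refine un' (hf.pair hg) hs fun a c hc d i hd => ?_
  rw [hs']
  rcases i with x | y
  · rw [if_pos hd.1]
    exact hc.1 _ x hd.2
  · rw [if_neg (by rw [hd.1]; exact one_ne_zero)]
    exact hc.2 _ y hd.2

@[aesop safe 61 apply (transparency := reducible) (rule_sets := [Restrict])]
theorem CS.app {ι T : A → Type} [∀ a, Rep (ι a)] [∀ a, Rep (T a)]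
    {f : ∀ a, ι a → T a} {i : ∀ a, ι a} (h : CS f) (hi : CS i) : CS (fun a => f a (i a)) :=
  FCoreAux.dapp (T := fun a _ => T a) h hi

@[aesop safe 62 apply (transparency := reducible) (rule_sets := [Restrict])]
theorem CS.dapp {ι : A → Type} {T : ∀ a, ι a → Type} [∀ a, Rep (ι a)] [k : ∀ a i, Rep (T a i)]
    {f : ∀ a i, T a i} {i : ∀ a, ι a} {j : ∀ a, Rep (T a (i a))} [∀ a, RepEq (j a) (k a (i a))]
    (h : CS f) (hi : CS i) : @CS A _ _ (fun a => (j a).w) (fun a => f a (i a)) := by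
  obtain rfl : j = fun a => k a (i a) := funext fun a => RepEq.eq
  exact FCoreAux.dapp h hi

@[aesop safe 55 apply (transparency := reducible) (rule_sets := [Restrict])]
theorem CS.fcomp {α β γ : A → Type} [∀ a, Rep (α a)] [∀ a, Rep (β a)] [∀ a, Rep (γ a)]
    {f : ∀ a, β a → γ a} {g : ∀ a, α a → β a} (hf : CS f) (hg : CS g) :
    CS (fun a => f a ∘ g a) :=
  FCoreAux.lam (T := fun a _ => γ a) ((hf.comp sig1).app ((hg.comp sig1).app sig2))

@[aesop safe 70 apply (transparency := reducible) (rule_sets := [Restrict])]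
theorem CS.lam {ι : A → Type} {T : ∀ a, ι a → Type} [∀ a, Rep (ι a)] [∀ a i, Rep (T a i)]
    {f : ∀ a i, T a i} (h : CS (fun p : Σ a, ι a => f p.1 p.2)) : CS f := FCoreAux.lam h

theorem CS.eqRec {ι : A → Type} {T : ∀ a, ι a → Type} [∀ a i, Rep (T a i)] {i j : ∀ a, ι a}
    (e : ∀ a, i a = j a) {x : ∀ a, T a (i a)} (h : CS x) :
    CS (fun a => (e a ▸ x a : T a (j a))) := by
  have key : ∀ (a) (i j : ι a) (e : i = j) (x : T a i) (d : ℕ), Rep.R d x →
      Rep.R d (e ▸ x : T a j) := by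
    intro a i j e x d h
    subst e
    exact h
  exact same h fun _ a d _ hd => key a _ _ (e a) _ d hd

theorem CS.toMap {U T : A → Type} [∀ a, Rep (U a)] (φ : ∀ a, U a → T a) {g : ∀ a, U a}
    (hg : CS g) : @CS A _ T (fun a => Rep.ofMap (φ a)) (fun a => φ a (g a)) :=
  @same A _ U T _ (fun a => Rep.ofMap (φ a)) _ _ hg fun _ a _ _ hd => ⟨g a, hd, rfl⟩

theorem MV.ofMap {U T : A → Type} [∀ a, Rep (U a)] (φ : ∀ a, U a → T a) {f : ∀ a, T a}
    (hf : @CS A _ T (fun a => Rep.ofMap (φ a)) f) : MV (fun a (u : U a) => φ a u = f a) :=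
  @same A _ T (fun a => Sel (U a)) (fun a => Rep.ofMap (φ a)) _ _ _ hf
    fun _ _ _ _ ⟨u, hu, e⟩ => ⟨u, e, hu⟩

theorem cs_pull_iff {U T : A → Type} [∀ a, Rep (U a)] (ψ : ∀ a, T a → U a) {f : ∀ a, T a} :
    @CS A _ T (fun a => Rep.ofPull (ψ a)) f ↔ CS (fun a => ψ a (f a)) := Iff.rfl

/-! Multi-valued functions -/

theorem MV.of_cs {T : A → Type} [∀ a, Rep (T a)] {Q : ∀ a, T a → Prop} {f : ∀ a, T a}
    (hf : CS f) (h : ∀ a, Coded a → Q a (f a)) : MV Q :=
  same hf fun c a _ hc hd => ⟨f a, h a ⟨c, hc⟩, hd⟩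

theorem MV.to_cs {T : A → Type} [∀ a, Rep (T a)] {f : ∀ a, T a}
    (h : MV (fun a x => x = f a)) : CS f :=
  same h fun _ _ _ _ ⟨_, e, hd⟩ => e ▸ hd

theorem MV.mono {T : A → Type} [∀ a, Rep (T a)] {Q Q' : ∀ a, T a → Prop} (h : MV Q)
    (e : ∀ a x, Coded a → Coded x → Q a x → Q' a x) : MV Q' :=
  same h fun c a d hc ⟨x, hx, hd⟩ => ⟨x, e a x ⟨c, hc⟩ ⟨d, hd⟩ hx, hd⟩

theorem MV.comp {B : Type} [Rep B] {T : A → Type} [∀ a, Rep (T a)] {Q : ∀ a, T a → Prop}
    (h : MV Q) {g : B → A} (hg : CS g) : MV (fun b (x : T (g b)) => Q (g b) x) :=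
  CS.comp (T := fun a => Sel (T a)) h hg

theorem MV.exists {T : A → Type} [∀ a, Rep (T a)] {Q : ∀ a, T a → Prop} (h : MV Q) {a : A}
    (ha : Coded a) : ∃ x, Coded x ∧ Q a x := by
  obtain ⟨d, x, hx, hd⟩ := CS.coded (T := fun a => Sel (T a)) h ha
  exact ⟨x, ⟨d, hd⟩, hx⟩

/-- Use a multi-valued function to compute something that does not depend on the choice. -/
theorem MV.elim {T U : A → Type} [∀ a, Rep (T a)] [∀ a, Rep (U a)] {Q : ∀ a, T a → Prop}
    (h : MV Q) {f : ∀ a, U a}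
    (hf : CS (fun p : {p : Σ a, T a // Q p.1 p.2} => f p.1.1)) : CS f := FCoreAux.elim h hf

theorem MV.bind {T U : A → Type} [∀ a, Rep (T a)] [∀ a, Rep (U a)] {Q : ∀ a, T a → Prop}
    (h : MV Q) {Q' : ∀ a, U a → Prop}
    (hf : MV (fun (p : {p : Σ a, T a // Q p.1 p.2}) (u : U p.1.1) => Q' p.1.1 u)) : MV Q' :=
  FCoreAux.elim (U := fun a => Sel (U a)) h hf

/-- A predicate that is equivalent to an r.e. one once a witness is chosen. -/
theorem MV.elimP {T : A → Type} [∀ a, Rep (T a)] {Q : ∀ a, T a → Prop} (h : MV Q)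
    {P : A → Prop} {P' : ∀ a, T a → Prop} (hP : CS (fun p : Σ a, T a => P' p.1 p.2))
    (e : ∀ a x, Coded a → Coded x → Q a x → (P' a x ↔ P a)) : CS P := by
  refine h.elim ((hP.comp (CS.val CS.id)).of_iff ?_)
  rintro ⟨⟨a, x⟩, hx⟩ ⟨c, hc⟩
  exact e a x ⟨_, hc.1⟩ ⟨_, hc.2⟩ hx

theorem MV.search {T : A → Type} [∀ a, Rep (T a)] {Q Q' : ∀ a, T a → Prop} (hE : Enum T)
    (hQ : CS (fun p : Σ a, T a => Q' p.1 p.2)) (hs : ∀ a x, Q' a x → Q a x)
    (hc : ∀ a, Coded a → ∃ x, Q' a x) : MV Q := by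
  obtain ⟨E, hE, h⟩ := hE
  refine FCoreAux.searchC ⟨E, hE, fun c a hc => ⟨(h c a hc).1, fun x _ => (h c a hc).2 x⟩⟩
    hQ hs ?_
  rintro a ⟨c, hc'⟩
  obtain ⟨x, hx⟩ := hc a ⟨c, hc'⟩
  obtain ⟨d, -, hd⟩ := (h c a hc').2 x
  exact ⟨x, ⟨d, hd⟩, hx⟩

theorem MV.searchC {T : A → Type} [∀ a, Rep (T a)] {Q Q' : ∀ a, T a → Prop} (hE : EnumC T)
    (hQ : CS (fun p : Σ a, T a => Q' p.1 p.2)) (hs : ∀ a x, Q' a x → Q a x)
    (hc : ∀ a, Coded a → ∃ x, Coded x ∧ Q' a x) : MV Q := FCoreAux.searchC hE hQ hs hc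

theorem MV.prod {T U : A → Type} [∀ a, Rep (T a)] [∀ a, Rep (U a)] {Q : ∀ a, T a → Prop}
    {Q' : ∀ a, U a → Prop} (h : MV Q) (h' : MV Q') :
    MV (fun a (x : T a × U a) => Q a x.1 ∧ Q' a x.2) := by
  refine bin' h h' c_pair ?_
  rintro a d d' ⟨x, hx, hd⟩ ⟨y, hy, hd'⟩
  exact ⟨(x, y), ⟨hx, hy⟩, r_prod hd hd'⟩

/-- Iteration along an invariant. -/
theorem MV.iter {T : A → ℕ → Type} [∀ a j, Rep (T a j)] {P : ∀ a j, T a j → Prop}
    (h0 : MV (fun a (x : T a 0) => P a 0 x))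
    (hs : MV (fun (p : {p : Σ a, Σ j, T a j // P p.1 p.2.1 p.2.2})
      (y : T p.1.1 (p.1.2.1 + 1)) => P p.1.1 (p.1.2.1 + 1) y))
    {n : A → ℕ} (hn : CS n) : MV (fun a (x : T a (n a)) => P a (n a) x) := by
  obtain ⟨F, hF, hf⟩ := h0
  obtain ⟨G, hG, hg⟩ := hs
  let H : ℕ → ℕ →. ℕ := fun c m => Nat.rec (motive := fun _ => Part ℕ) (F c)
    (fun y IH => IH.bind fun i => G (Nat.pair c (Nat.pair y i))) m
  have hp : Partrec₂ H :=
    Partrec.nat_rec (h := fun (p : ℕ × ℕ) (q : ℕ × ℕ) => G (Nat.pair p.1 (Nat.pair q.1 q.2)))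
      Computable.snd (hF.comp Computable.fst)
      (hG.comp (c_pair.comp (Computable.fst.comp Computable.fst)
        (c_pair.comp (Computable.fst.comp Computable.snd) (Computable.snd.comp Computable.snd))))
  have key : ∀ c a, Rep.R c a → ∀ m, ∃ e ∈ H c m, ∃ x : T a m, P a m x ∧ Rep.R e x := by
    intro c a hc m
    induction m with
    | zero => exact hf c a hc
    | succ m ih =>
      obtain ⟨e, he, x, hx, hex⟩ := ih
      obtain ⟨e', he', h'⟩ := hg (Nat.pair c (Nat.pair m e)) ⟨⟨a, m, x⟩, hx⟩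
        (r_sigma hc (r_sigma rfl hex))
      exact ⟨e', Part.mem_bind he he', h'⟩
  refine un hn hp ?_
  rintro c a _ hc rfl
  exact key c a hc (n a)

/-- A sequence each of whose terms is computable from the previous one. -/
theorem CS.seq {T : A → ℕ → Type} [∀ a j, Rep (T a j)] {Y : ∀ a j, T a j}
    (h0 : CS (fun a => Y a 0))
    (hs : CS (fun p : {p : Σ a, Σ j, T a j // p.2.2 = Y p.1 p.2.1} => Y p.1.1 (p.1.2.1 + 1)))
    {n : A → ℕ} (hn : CS n) : CS (fun a => Y a (n a)) :=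
  MV.to_cs (MV.iter (P := fun a j x => x = Y a j) (MV.of_cs h0 fun _ _ => rfl)
    (MV.of_cs hs fun _ _ => rfl) hn)

@[aesop safe 50 apply (transparency := reducible) (rule_sets := [Restrict])]
theorem CS.natRec {T : A → Type} [∀ a, Rep (T a)] {z : ∀ a, T a} {s : ∀ a, ℕ → T a → T a}
    {n : A → ℕ} (hn : CS n) (hz : CS z) (hs : CS s) :
    CS (fun a => (Nat.rec (z a) (s a) (n a) : T a)) := by
  refine CS.seq (T := fun a _ => T a) (Y := fun a j => (Nat.rec (z a) (s a) j : T a)) hz ?_ hn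
  have h1 : CS (fun p : Σ a, Σ _ : ℕ, T a => s p.1 p.2.1 p.2.2) :=
    ((hs.comp sig1).app (CS.sfst sig2)).app (un' sig2 c_snd fun _ _ h => h.2)
  refine (h1.comp (CS.val CS.id)).congr ?_
  rintro ⟨⟨a, j, x⟩, hx⟩ -
  exact congrArg (s a j) hx

@[aesop safe 50 apply (transparency := reducible) (rule_sets := [Restrict])]
theorem CS.iterate {T : A → Type} [∀ a, Rep (T a)] {s : ∀ a, T a → T a} {n : A → ℕ}
    {z : ∀ a, T a} (hs : CS s) (hn : CS n) (hz : CS z) :
    CS (fun a => (s a)^[n a] (z a)) := by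
  refine (CS.natRec (s := fun a _ x => s a x) hn hz (FCoreAux.lam (hs.comp sig1))).congr ?_
  intro a _
  induction n a with
  | zero => rfl
  | succ m ih => rw [Function.iterate_succ_apply', ← ih]

/-! Case distinctions -/

@[aesop safe 50 apply (transparency := reducible) (rule_sets := [Restrict])]
theorem CS.ite {T : A → Type} [∀ a, Rep (T a)] {P : A → Prop} [∀ a, Decidable (P a)]
    {f g : ∀ a, T a} (hP : CS P) (hN : CS (fun a => ¬ P a)) (hf : CS f) (hg : CS g) :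
    CS (fun a => if P a then f a else g a) :=
  FCoreAux.cases' hP hN (fun a _ => em (P a))
    ((hf.comp (CS.val CS.id)).congr fun p _ => (if_pos p.2).symm)
    ((hg.comp (CS.val CS.id)).congr fun p _ => (if_neg p.2).symm)

@[aesop safe 50 apply (transparency := reducible) (rule_sets := [Restrict])]
theorem CS.dite {T : A → Type} [∀ a, Rep (T a)] {P : A → Prop} [∀ a, Decidable (P a)]
    {f : ∀ a, P a → T a} {g : ∀ a, ¬ P a → T a} (hP : CS P) (hN : CS (fun a => ¬ P a))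
    (hf : CS (fun p : {a // P a} => f p.1 p.2)) (hg : CS (fun p : {a // ¬ P a} => g p.1 p.2)) :
    CS (fun a => if h : P a then f a h else g a h) :=
  FCoreAux.cases' hP hN (fun a _ => em (P a)) (hf.congr fun p _ => (dif_pos p.2).symm)
    (hg.congr fun p _ => (dif_neg p.2).symm)

@[aesop safe 50 apply (transparency := reducible) (rule_sets := [Restrict])]
theorem CS.cond {T : A → Type} [∀ a, Rep (T a)] {b : A → Bool} {f g : ∀ a, T a} (hb : CS b)
    (hf : CS f) (hg : CS g) : CS (fun a => cond (b a) (f a) (g a)) := by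
  obtain ⟨F, hF, hf⟩ := hf
  obtain ⟨G, hG, hg⟩ := hg
  refine un hb (F := fun c d => _root_.cond (decide (d = 1)) (F c) (G c))
    (Partrec.cond (Primrec.eq.comp Primrec.snd (Primrec.const 1)).decide.to_comp
      (hF.comp Computable.fst) (hG.comp Computable.fst)) ?_
  rintro c a _ hc rfl
  cases b a
  · exact hg c a hc
  · exact hf c a hc

/-- Case distinction between two r.e. alternatives that cover everything. -/
theorem CS.cases {T : A → Type} [∀ a, Rep (T a)] {P Q : A → Prop} {f : ∀ a, T a} (hP : CS P)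
    (hQ : CS Q) (hc : ∀ a, Coded a → P a ∨ Q a) (hf : CS (fun p : {a // P a} => f p.1))
    (hg : CS (fun p : {a // Q a} => f p.1)) : CS f := FCoreAux.cases' hP hQ hc hf hg

end Pool.Agent.P.MP_257122_al
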