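import Pool.Agent.P.MP_257122_al.FEnumC

/-!
# Enumerable, finite and discrete families

PLAN.  `Enum` and `EnumC` of products, sums, lists: decode the candidate code and semi-decide
the components.  Functions on a finite discrete type: a candidate is a list of codes of values,
one for each member of the list given by `CFin`; turn it into the code of the program that, on
input `d`, searches the position whose code denotes the same element as `d` (`Disc`) and
returns the value; the set of such program codes is r.e. as the image of an r.e. set under a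
computable map.  (To run the multi-valued `CFin` inside an r.e. relation use that its realiser
is a deterministic `Partrec` function.)  `CFin.pi`: list all choice functions by recursion on
the list of the domain (functions built with `if` on `Disc`/`Haus`), or build the list of
lists and use `List.Nodup.map`.
-/

namespace Pool.Agent.P.MP_257122_al

open FEnumAux

variable {A : Type} [Rep A]
variable {T U : A → Type} [∀ a, Rep (T a)] [∀ a, Rep (U a)]

@[aesop safe 60 apply (transparency := reducible) (rule_sets := [Restrict])]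
theorem Enum.toC (h : Enum T) : EnumC T :=
  enum_toC h
theorem Enum.coded (h : Enum T) {a : A} (ha : Coded a) (x : T a) : Coded x :=
  enum_coded h ha x
theorem CFin.enum (h : CFin T) : Enum T :=
  fin_enum h
theorem CFin.haus (h : CFin T) (h' : Disc T) : Haus T :=
  cfin_haus h h'
theorem Disc.unique (h : Disc T) {a : A} (ha : Coded a) {c : ℕ} {x y : T a} (hx : Rep.R c x)
    (hy : Rep.R c y) : x = y := by
  obtain ⟨Q, -, hQ⟩ := cs_prop_iff.1 h
  obtain ⟨e, he⟩ := ha
  exact (hQ _ _ (r_sig (T := fun a => T a × T a) he (r_prod hx hy))).1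
    ((hQ _ _ (r_sig (T := fun a => T a × T a) he (r_prod hx hx))).2 rfl)

@[aesop safe 50 apply (transparency := reducible) (rule_sets := [Restrict])]
theorem CFin.fin {n : A → ℕ} (h : CS n) : CFin (fun a => Fin (n a)) :=
  cfin_fin h
@[aesop safe 50 apply (transparency := reducible) (rule_sets := [Restrict])]
theorem CFin.bool : CFin (fun _ : A => Bool) :=
  MV.of_cs (CS.const (x := [true, false])) fun _ _ =>
    ⟨by simp, by simp⟩
@[aesop safe 50 apply (transparency := reducible) (rule_sets := [Restrict])]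
theorem CFin.unit : CFin (fun _ : A => Unit) :=
  MV.of_cs (CS.const (x := [()])) fun _ _ =>
    ⟨by simp, by simp⟩
@[aesop safe 50 apply (transparency := reducible) (rule_sets := [Restrict])]
theorem CFin.prod (h : CFin T) (h' : CFin U) : CFin (fun a => T a × U a) :=
  cfin_image (U := fun a => Σ _ : T a, U a) (cfin_sigma h (h'.comp p1))
    (f := fun _ s => (s.1, s.2)) (CS.pair (CS.sfst p2) (s2 (β := fun (p : Σ a, Σ _ : T a, U a) _ => U p.1) p2))
    fun a => (Equiv.sigmaEquivProd (T a) (U a)).bijective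
@[aesop safe 50 apply (transparency := reducible) (rule_sets := [Restrict])]
theorem CFin.sum (h : CFin T) (h' : CFin U) : CFin (fun a => T a ⊕ U a) :=
  cfin_sum h h'
@[aesop safe 50 apply (transparency := reducible) (rule_sets := [Restrict])]
theorem CFin.sigma {β : ∀ a, T a → Type} [∀ a x, Rep (β a x)] (h : CFin T)
    (h' : CFin (fun p : Σ a, T a => β p.1 p.2)) : CFin (fun a => Σ x, β a x) :=
  cfin_sigma h h'
@[aesop safe 50 apply (transparency := reducible) (rule_sets := [Restrict])]
theorem CFin.subtype {p : ∀ a, T a → Prop} (h : CFin T)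
    (hp : CS (fun q : Σ a, T a => p q.1 q.2)) (hn : CS (fun q : Σ a, T a => ¬ p q.1 q.2)) :
    CFin (fun a => Subtype (p a)) :=
  cfin_subtype h hp hn
@[aesop safe 55 apply (transparency := reducible) (rule_sets := [Restrict])]
theorem CFin.pi (h : CFin T) (hd : Disc T) (h' : CFin U) : CFin (fun a => T a → U a) := by
  refine MV.bind (equivFin h hd) ?_
  have k := s2 ((p2 (T := fun a => Σ n : ℕ, (T a → Fin n) × (Fin n → T a))).comp
    (v1 (p := fun q => Function.LeftInverse q.2.2.2 q.2.2.1 ∧
      Function.RightInverse q.2.2.2 q.2.2.1)))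
  exact cfin_image (cfin_funFin (h'.comp (p1.comp v1)) (CS.sfst (p2.comp v1)))
    (f := fun q g => g ∘ q.1.2.2.1) (CS.fcomp p2 (CS.fst (k.comp p1)))
    fun q => Function.Bijective.comp_right ⟨q.2.1.injective, q.2.2.surjective⟩

@[aesop safe 50 apply (transparency := reducible) (rule_sets := [Restrict])]
theorem Enum.fin {n : A → ℕ} (h : CS n) : Enum (fun a => Fin (n a)) :=
  fin_enum (cfin_fin h)
@[aesop safe 50 apply (transparency := reducible) (rule_sets := [Restrict])]
theorem Enum.bool : Enum (fun _ : A => Bool) :=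
  fin_enum CFin.bool
@[aesop safe 50 apply (transparency := reducible) (rule_sets := [Restrict])]
theorem Enum.unit : Enum (fun _ : A => Unit) :=
  fin_enum CFin.unit
@[aesop safe 50 apply (transparency := reducible) (rule_sets := [Restrict])]
theorem Enum.prod (h : Enum T) (h' : Enum U) : Enum (fun a => T a × U a) :=
  enum_of (enumC_prod h.toC h'.toC) fun _ ha _ =>
    coded_prod.2 ⟨h.coded ha _, h'.coded ha _⟩
@[aesop safe 50 apply (transparency := reducible) (rule_sets := [Restrict])]
theorem Enum.sum (h : Enum T) (h' : Enum U) : Enum (fun a => T a ⊕ U a) :=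
  enum_of (enumC_sum h.toC h'.toC) fun _ ha x => by
    rcases x with x | x
    · obtain ⟨d, hd⟩ := h.coded ha x
      refine ⟨Nat.pair 0 d, ?_, ?_⟩ <;> rw [Nat.unpair_pair]
      exact hd
    · obtain ⟨d, hd⟩ := h'.coded ha x
      refine ⟨Nat.pair 1 d, ?_, ?_⟩ <;> rw [Nat.unpair_pair]
      exact hd
@[aesop safe 50 apply (transparency := reducible) (rule_sets := [Restrict])]
theorem Enum.sigma {β : ∀ a, T a → Type} [∀ a x, Rep (β a x)] (h : Enum T)
    (h' : Enum (fun p : Σ a, T a => β p.1 p.2)) : Enum (fun a => Σ x, β a x) :=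
  enum_of (enumC_sigma h.toC h'.toC) fun a ha x => coded_sigma.2 ⟨h.coded ha _,
    h'.coded (a := ⟨a, x.1⟩) (coded_sigma.2 ⟨ha, h.coded ha _⟩) _⟩
@[aesop safe 50 apply (transparency := reducible) (rule_sets := [Restrict])]
theorem Enum.subtype {p : ∀ a, T a → Prop} (h : Enum T)
    (hp : CS (fun q : Σ a, T a => p q.1 q.2)) : Enum (fun a => Subtype (p a)) :=
  enum_of (enumC_subtype h.toC hp) fun _ ha x => h.coded ha x.1
@[aesop safe 50 apply (transparency := reducible) (rule_sets := [Restrict])]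
theorem Enum.list (h : Enum T) : Enum (fun a => List (T a)) :=
  enum_of (enumC_list h.toC) fun _ ha _ => coded_list.2 fun x _ => h.coded ha x
@[aesop safe 55 apply (transparency := reducible) (rule_sets := [Restrict])]
theorem Enum.pi {β : ∀ a, T a → Type} [∀ a x, Rep (β a x)] (h : CFin T) (hd : Disc T)
    (h' : Enum (fun p : Σ a, T a => β p.1 p.2)) : Enum (fun a => ∀ x, β a x) :=
  enum_of (enumC_pi h hd h'.toC) fun a ha _ => coded_pi h hd ha fun x =>
    h'.coded (a := ⟨a, x⟩) (coded_sigma.2 ⟨ha, h.enum.coded ha _⟩) _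
theorem Enum.ofMap {W : A → Type} (φ : ∀ a, U a → W a) (h : Enum U)
    (hφ : ∀ a, Function.Surjective (φ a)) : @Enum A _ W (fun a => Rep.ofMap (φ a)) := by
  obtain ⟨E, hE, h⟩ := h
  refine ⟨E, hE, fun c a ha => ⟨fun d hd => ?_, fun x => ?_⟩⟩
  · obtain ⟨u, hu⟩ := (h c a ha).1 d hd
    exact ⟨_, u, hu, rfl⟩
  · obtain ⟨u, rfl⟩ := hφ a x
    obtain ⟨d, hd, hu⟩ := (h c a ha).2 u
    exact ⟨d, hd, u, hu, rfl⟩

@[aesop safe 50 apply (transparency := reducible) (rule_sets := [Restrict])]
theorem EnumC.prod (h : EnumC T) (h' : EnumC U) :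
    EnumC (fun a => T a × U a) :=
  enumC_prod h h'
@[aesop safe 50 apply (transparency := reducible) (rule_sets := [Restrict])]
theorem EnumC.sigma {β : ∀ a, T a → Type} [∀ a x, Rep (β a x)] (h : EnumC T)
    (h' : EnumC (fun p : Σ a, T a => β p.1 p.2)) : EnumC (fun a => Σ x, β a x) :=
  enumC_sigma h h'
@[aesop safe 50 apply (transparency := reducible) (rule_sets := [Restrict])]
theorem EnumC.subtype {p : ∀ a, T a → Prop} (h : EnumC T)
    (hp : CS (fun q : Σ a, T a => p q.1 q.2)) : EnumC (fun a => Subtype (p a)) :=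
  enumC_subtype h hp
@[aesop safe 50 apply (transparency := reducible) (rule_sets := [Restrict])]
theorem EnumC.list (h : EnumC T) : EnumC (fun a => List (T a)) :=
  enumC_list h
@[aesop safe 55 apply (transparency := reducible) (rule_sets := [Restrict])]
theorem EnumC.pi {β : ∀ a, T a → Type} [∀ a x, Rep (β a x)] (h : CFin T) (hd : Disc T)
    (h' : EnumC (fun p : Σ a, T a => β p.1 p.2)) : EnumC (fun a => ∀ x, β a x) :=
  enumC_pi h hd h'
theorem EnumC.ofMap {W : A → Type} (φ : ∀ a, U a → W a) (h : EnumC U) :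
    @EnumC A _ W (fun a => Rep.ofMap (φ a)) := by
  obtain ⟨E, hE, h⟩ := h
  refine ⟨E, hE, fun c a ha => ⟨fun d hd => ?_, ?_⟩⟩
  · obtain ⟨u, hu⟩ := (h c a ha).1 d hd
    exact ⟨_, u, hu, rfl⟩
  · rintro _ ⟨e, u, hu, rfl⟩
    obtain ⟨d, hd, hu⟩ := (h c a ha).2 u ⟨e, hu⟩
    exact ⟨d, hd, u, hu, rfl⟩

@[aesop safe 50 apply (transparency := reducible) (rule_sets := [Restrict])]
theorem Disc.prod (h : Disc T) (h' : Disc U) : Disc (fun a => T a × U a) :=
  (CS.and (CS.eq (h.comp p1) (CS.fst (CS.fst p2)) (CS.fst (CS.snd p2)))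
    (CS.eq (h'.comp p1) (CS.snd (CS.fst p2)) (CS.snd (CS.snd p2)))).of_iff
    fun _ _ => Prod.ext_iff.symm
@[aesop safe 50 apply (transparency := reducible) (rule_sets := [Restrict])]
theorem Haus.prod (h : Haus T) (h' : Haus U) : Haus (fun a => T a × U a) :=
  (CS.or (CS.ne (h.comp p1) (CS.fst (CS.fst p2)) (CS.fst (CS.snd p2)))
    (CS.ne (h'.comp p1) (CS.snd (CS.fst p2)) (CS.snd (CS.snd p2)))).of_iff
    fun _ _ => by rw [Ne, Ne, Ne, Prod.ext_iff, not_and_or]
@[aesop safe 50 apply (transparency := reducible) (rule_sets := [Restrict])]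
theorem Disc.sum (h : Disc T) (h' : Disc U) : Disc (fun a => T a ⊕ U a) :=
  (cs_sum2 (P := fun _ x y => x = y) (Q := fun _ x y => x = y) (b := False) h h').of_iff
    fun ⟨_, s, t⟩ _ => by cases s <;> cases t <;> simp
@[aesop safe 50 apply (transparency := reducible) (rule_sets := [Restrict])]
theorem Haus.sum (h : Haus T) (h' : Haus U) : Haus (fun a => T a ⊕ U a) :=
  (cs_sum2 (P := fun _ x y => x ≠ y) (Q := fun _ x y => x ≠ y) (b := True) h h').of_iff
    fun ⟨_, s, t⟩ _ => by cases s <;> cases t <;> simp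
@[aesop safe 50 apply (transparency := reducible) (rule_sets := [Restrict])]
theorem Disc.sigma {β : ∀ a, T a → Type} [∀ a x, Rep (β a x)] (h : Disc T)
    (h' : Disc (fun p : Σ a, T a => β p.1 p.2)) : Disc (fun a => Σ x, β a x) :=
  (cs_sig2 (P := fun _ _ y z => y = z) h h').of_iff fun ⟨_, ⟨x, y⟩, ⟨x', y'⟩⟩ _ =>
    ⟨fun ⟨e, k⟩ => by cases e; cases k; rfl, fun e => by cases e; exact ⟨rfl, rfl⟩⟩
@[aesop safe 50 apply (transparency := reducible) (rule_sets := [Restrict])]
theorem Haus.sigma {β : ∀ a, T a → Type} [∀ a x, Rep (β a x)] (h : Disc T)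
    (k : Haus T) (h' : Haus (fun p : Σ a, T a => β p.1 p.2)) : Haus (fun a => Σ x, β a x) :=
  (CS.or (CS.ne (k.comp p1) (CS.sfst (CS.fst p2)) (CS.sfst (CS.snd p2)))
    (cs_sig2 (P := fun _ _ y z => y ≠ z) h h')).of_iff fun ⟨_, ⟨x, y⟩, ⟨x', y'⟩⟩ _ => by
    by_cases e : x = x'
    · cases e
      simp
    · simp [e]
@[aesop safe 50 apply (transparency := reducible) (rule_sets := [Restrict])]
theorem Disc.subtype {p : ∀ a, T a → Prop} (h : Disc T) :
    Disc (fun a => Subtype (p a)) :=
  (CS.eq (h.comp p1) (CS.val (CS.fst p2)) (CS.val (CS.snd p2))).of_iff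
    fun _ _ => Subtype.ext_iff.symm
@[aesop safe 50 apply (transparency := reducible) (rule_sets := [Restrict])]
theorem Haus.subtype {p : ∀ a, T a → Prop} (h : Haus T) :
    Haus (fun a => Subtype (p a)) :=
  (CS.ne (h.comp p1) (CS.val (CS.fst p2)) (CS.val (CS.snd p2))).of_iff
    fun _ _ => Subtype.ext_iff.symm.ne
@[aesop safe 55 apply (transparency := reducible) (rule_sets := [Restrict])]
theorem Disc.pi {β : ∀ a, T a → Type} [∀ a x, Rep (β a x)] (h : CFin T)
    (h' : Disc (fun p : Σ a, T a => β p.1 p.2)) : Disc (fun a => ∀ x, β a x) :=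
  (CS.all (h.comp p1) (cs_pi2 (P := fun _ _ y z => y = z) h')).of_iff
    fun _ _ => funext_iff.symm
@[aesop safe 55 apply (transparency := reducible) (rule_sets := [Restrict])]
theorem Haus.pi {β : ∀ a, T a → Type} [∀ a x, Rep (β a x)] (h : CFin T)
    (h' : Haus (fun p : Σ a, T a => β p.1 p.2)) : Haus (fun a => ∀ x, β a x) :=
  (CS.ex (h.enum.comp p1) (cs_pi2 (P := fun _ _ y z => y ≠ z) h')).of_iff
    fun _ _ => Function.ne_iff.symm

/-- Finite choice. -/
theorem MV.pi {β : ∀ a, T a → Type} [∀ a x, Rep (β a x)] {Q : ∀ a x, β a x → Prop} (h : CFin T)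
    (hd : Disc T) (hQ : MV (fun (p : Σ a, T a) (y : β p.1 p.2) => Q p.1 p.2 y)) :
    MV (fun a (f : ∀ x, β a x) => ∀ x, Q a x (f x)) :=
  mv_pi h hd hQ

/-- A function on a finite discrete type with coded values is coded. -/
theorem coded_pi {β : ∀ a, T a → Type} [∀ a x, Rep (β a x)] (h : CFin T) (hd : Disc T) {a : A}
    (ha : Coded a) {f : ∀ x, β a x} (hf : ∀ x, Coded (f x)) : Coded f :=
  FEnumAux.coded_pi h hd ha hf

theorem coded_fun_fin {n : ℕ} {β : Fin n → Type} [∀ i, Rep (β i)] {f : ∀ i, β i} :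
    Coded f ↔ ∀ i, Coded (f i) :=
  ⟨fun h i => h.app (Tot.tot i), fun h => coded_pi (A := Unit) (T := fun _ => Fin n)
    (β := fun _ => β) (CFin.fin CS.const) Disc.fin (Tot.tot ()) h⟩

theorem coded_matrix_fin {m n : ℕ} {R : Type} [Rep R] {M : Matrix (Fin m) (Fin n) R} :
    Coded M ↔ ∀ i j, Coded (M i j) :=
  (coded_fun_fin (β := fun _ => Fin n → R)).trans
    (forall_congr' fun _ => coded_fun_fin)

/-- A computable bijection of a finite discrete family with `Fin`. -/
theorem CFin.equivFin (h : CFin T) (hd : Disc T) :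
    MV (fun a (q : Σ n : ℕ, (T a → Fin n) × (Fin n → T a)) =>
      Function.LeftInverse q.2.2 q.2.1 ∧ Function.RightInverse q.2.2 q.2.1) :=
  FEnumAux.equivFin h hd

/-- All lists of length at most `n` over a finite family. -/
theorem MV.listsLe (h : CFin T) {n : A → ℕ} (hn : CS n) :
    MV (fun a (L : List (List (T a))) => ∀ l : List (T a), l.length ≤ n a → l ∈ L) := by
  refine MV.bind h (MV.of_cs (f := fun q => (List.range (n q.1.1 + 1)).flatMap
    fun j => vecs q.1.2 j) (CS.flatMap (CS.lam (cs_vecs (p2.comp (v1.comp p1)) p2))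
      (CS.range (CS.succ (hn.comp (p1.comp v1))))) fun q _ l hl => ?_)
  exact List.mem_flatMap.2 ⟨_, List.mem_range.2 (Nat.lt_succ_of_le hl),
    ((vecs_spec q.2 _).2 l).2 rfl⟩

end Pool.Agent.P.MP_257122_al
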