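import Pool.Agent.P.MP_257122_al.FList

/-!
# Enumerable, finite and discrete families: auxiliary facts
-/

namespace Pool.Agent.P.MP_257122_al.FEnumAux

variable {A : Type} [Rep A]
variable {T U W : A → Type} [∀ a, Rep (T a)] [∀ a, Rep (U a)] [∀ a, Rep (W a)]

theorem p1 : CS (fun p : Σ a, T a => p.1) := CS.sfst (α := fun _ => A) (β := fun _ => T) CS.id

theorem s2 {α : A → Type} {β : ∀ a, α a → Type} [∀ a, Rep (α a)] [∀ a x, Rep (β a x)]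
    {g : ∀ a, Σ x, β a x} (h : CS g) : CS (fun a => (g a).2) := CS.ssnd h

theorem p2 : CS (fun p : Σ a, T a => p.2) := s2 (α := fun _ => A) (β := fun _ => T) CS.id

theorem v1 {p : A → Prop} : CS (fun x : Subtype p => x.1) :=
  CS.val (α := fun _ => A) (p := fun _ => p) CS.id

theorem dapp {ι : A → Type} {T : ∀ a, ι a → Type} [∀ a, Rep (ι a)] [∀ a i, Rep (T a i)]
    {f : ∀ a i, T a i} {i : ∀ a, ι a} (h : CS f) (hi : CS i) : CS (fun a => f a (i a)) :=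
  CS.dapp h hi

theorem of_same {B : Type} [Rep B] {f : A → B} (h : ∀ c a, Rep.R c a → Rep.R c (f a)) : CS f :=
  ⟨fun c => Part.some c, Computable.id, fun c a hc => ⟨c, Part.mem_some c, h c a hc⟩⟩

theorem cs_unpair : CS (fun n : ℕ => n.unpair) :=
  of_same fun c a (h : c = a) => by subst h; exact ⟨rfl, rfl⟩

theorem cs_pair : CS (fun p : ℕ × ℕ => Nat.pair p.1 p.2) :=
  of_same fun c a (h : c.unpair.1 = a.1 ∧ c.unpair.2 = a.2) => by
    change c = _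
    rw [← h.1, ← h.2, Nat.pair_unpair]

theorem cs_ofNat : CS (fun n : ℕ => Denumerable.ofNat (List ℕ) n) :=
  of_same fun c a (h : c = a) => by
    subst h
    exact List.forall₂_same.2 fun _ _ => rfl

theorem re_iff {E : ℕ × ℕ → Prop} : REPred E ↔ CS E := by
  rw [cs_prop_iff]
  constructor
  · intro h
    refine ⟨fun c => E c.unpair, Partrec.comp h Computable.unpair, ?_⟩
    rintro c ⟨x, y⟩ ⟨(h1 : c.unpair.1 = x), (h2 : c.unpair.2 = y)⟩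
    rw [← h1, ← h2]
  · rintro ⟨Q, hQ, h⟩
    have h1 : REPred fun p : ℕ × ℕ => Q (Nat.pair p.1 p.2) :=
      Partrec.comp hQ (Primrec₂.natPair.to_comp.comp Computable.fst Computable.snd)
    refine h1.of_eq fun p => h _ p ⟨?_, ?_⟩
    · exact (Nat.unpair_pair _ _ ▸ rfl : (Nat.pair p.1 p.2).unpair.1 = p.1)
    · exact (Nat.unpair_pair _ _ ▸ rfl : (Nat.pair p.1 p.2).unpair.2 = p.2)

theorem cs_graph {F : ℕ →. ℕ} (hF : Partrec F) : CS (fun p : ℕ × ℕ => p.2 ∈ F p.1) := by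
  rw [← re_iff]
  have h1 : REPred fun q : (ℕ × ℕ) × ℕ => q.1.2 = q.2 :=
    (Primrec.eq.comp (Primrec.snd.comp Primrec.fst) Primrec.snd).computablePred.to_re
  have h2 := ((hF.comp Computable.fst).bind (Partrec.to₂ h1)).dom_re
  refine h2.of_eq fun p => ?_
  simp only [Part.dom_iff_mem, Part.mem_bind_iff, Part.mem_assert_iff, Part.mem_some_iff]
  exact ⟨fun ⟨_, e, he, h, _⟩ => h ▸ he, fun h => ⟨(), _, h, rfl, trivial⟩⟩

theorem cs_mem {F : ℕ →. ℕ} (hF : Partrec F) {f g : A → ℕ} (hf : CS f) (hg : CS g) :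
    CS (fun a => g a ∈ F (f a)) := (cs_graph hF).comp (CS.pair hf hg)

theorem cs_pr {f g : A → ℕ} (hf : CS f) (hg : CS g) : CS (fun a => Nat.pair (f a) (g a)) :=
  cs_pair.comp (CS.pair hf hg)

theorem r_sig {c d : ℕ} {a : A} {x : T a} (hc : Rep.R c a) (hd : Rep.R d x) :
    Rep.R (Nat.pair c d) (⟨a, x⟩ : Σ a, T a) := by
  refine ⟨?_, ?_⟩ <;> rw [Nat.unpair_pair] <;> assumption

theorem r_prod {α β : Type} [Rep α] [Rep β] {c d : ℕ} {x : α} {y : β} (hc : Rep.R c x)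
    (hd : Rep.R d y) : Rep.R (Nat.pair c d) (x, y) := by
  refine ⟨?_, ?_⟩ <;> rw [Nat.unpair_pair] <;> assumption

theorem f2_left {α β : Type} {R : α → β → Prop} {l : List α} {m : List β}
    (h : List.Forall₂ R l m) {x : α} (hx : x ∈ l) : ∃ y ∈ m, R x y := by
  induction h with
  | nil => cases hx
  | cons h _ ih =>
    rcases List.mem_cons.1 hx with rfl | hx
    · exact ⟨_, List.mem_cons_self, h⟩
    · obtain ⟨y, hy, e⟩ := ih hx
      exact ⟨y, List.mem_cons_of_mem _ hy, e⟩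

theorem f2_right {α β : Type} {R : α → β → Prop} {l : List α} {m : List β}
    (h : List.Forall₂ R l m) {y : β} (hy : y ∈ m) : ∃ x ∈ l, R x y :=
  f2_left (R := flip R) h.flip hy

theorem f2_exists {α β : Type} {R : α → β → Prop} {l : List α} (h : ∀ x ∈ l, ∃ y, R x y) :
    ∃ m, List.Forall₂ R l m := by
  induction l with
  | nil => exact ⟨[], .nil⟩
  | cons x l ih =>
    obtain ⟨y, hy⟩ := h x List.mem_cons_self
    obtain ⟨m, hm⟩ := ih fun z hz => h z (List.mem_cons_of_mem _ hz)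
    exact ⟨y :: m, .cons hy hm⟩

theorem enum_of (h : EnumC T) (hc : ∀ a, Coded a → ∀ x : T a, Coded x) : Enum T := by
  obtain ⟨E, hE, h⟩ := h
  exact ⟨E, hE, fun c a ha => ⟨(h c a ha).1, fun x => (h c a ha).2 x (hc a ⟨c, ha⟩ x)⟩⟩

theorem enum_toC (h : Enum T) : EnumC T := by
  obtain ⟨E, hE, h⟩ := h
  exact ⟨E, hE, fun c a ha => ⟨(h c a ha).1, fun x _ => (h c a ha).2 x⟩⟩

theorem enum_coded (h : Enum T) {a : A} (ha : Coded a) (x : T a) : Coded x := by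
  obtain ⟨E, -, h⟩ := h
  obtain ⟨c, hc⟩ := ha
  obtain ⟨d, -, hd⟩ := (h c a hc).2 x
  exact ⟨d, hd⟩

theorem fin_enum (h : CFin T) : Enum T := by
  obtain ⟨F, hF, h⟩ := h
  refine ⟨fun p => ∃ e, e ∈ F p.1 ∧ p.2 ∈ Denumerable.ofNat (List ℕ) e, re_iff.2 ?_,
    fun c a ha => ?_⟩
  · exact CS.ex Enum.nat (CS.and (cs_mem hF (CS.fst p1) p2)
      (CS.memList Disc.nat (CS.snd p1) (cs_ofNat.comp p2)))
  · obtain ⟨e, he, l, ⟨-, hl⟩, hr⟩ := h c a ha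
    refine ⟨?_, fun x => ?_⟩
    · rintro d ⟨e', he', hd⟩
      rw [Part.mem_unique he' he] at hd
      obtain ⟨y, -, hy⟩ := f2_left hr hd
      exact ⟨y, hy⟩
    · obtain ⟨d, hd, hx⟩ := f2_right hr (hl x)
      exact ⟨d, ⟨e, he, hd⟩, hx⟩

theorem enumC_image (h : EnumC U) {f : ∀ a, U a → T a} (hf : CS (fun p : Σ a, U a => f p.1 p.2))
    (hs : ∀ a y, Coded a → Coded y → ∃ x, Coded x ∧ f a x = y) : EnumC T := by
  obtain ⟨E, hE, h⟩ := h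
  obtain ⟨F, hF, hf⟩ := hf
  refine ⟨fun p => ∃ d, E (p.1, d) ∧ p.2 ∈ F (Nat.pair p.1 d), re_iff.2 ?_, fun c a ha => ⟨?_, ?_⟩⟩
  · exact CS.ex Enum.nat (CS.and ((re_iff.1 hE).comp (CS.pair (CS.fst p1) p2))
      (cs_mem hF (cs_pr (CS.fst p1) p2) (CS.snd p1)))
  · rintro e ⟨d, hd, he⟩
    obtain ⟨x, hx⟩ := (h c a ha).1 d hd
    obtain ⟨e', he', hr⟩ := hf _ _ (r_sig ha hx)
    exact ⟨_, Part.mem_unique he' he ▸ hr⟩
  · intro y hy
    obtain ⟨x, hx, rfl⟩ := hs a y ⟨c, ha⟩ hy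
    obtain ⟨d, hd, hx⟩ := (h c a ha).2 x hx
    obtain ⟨e, he, hr⟩ := hf _ _ (r_sig ha hx)
    exact ⟨e, ⟨d, hd, he⟩, hr⟩

theorem enumC_sigma {β : ∀ a, T a → Type} [∀ a x, Rep (β a x)] (h : EnumC T)
    (h' : EnumC (fun p : Σ a, T a => β p.1 p.2)) : EnumC (fun a => Σ x, β a x) := by
  obtain ⟨E, hE, h⟩ := h
  obtain ⟨E', hE', h'⟩ := h'
  have u : CS (fun p : ℕ × ℕ => p.2.unpair) := cs_unpair.comp (CS.snd CS.id)
  refine ⟨fun p => E (p.1, p.2.unpair.1) ∧ E' (Nat.pair p.1 p.2.unpair.1, p.2.unpair.2),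
    re_iff.2 ?_, fun c a ha => ⟨?_, ?_⟩⟩
  · exact CS.and ((re_iff.1 hE).comp (CS.pair (CS.fst CS.id) (CS.fst u)))
      ((re_iff.1 hE').comp (CS.pair (cs_pr (CS.fst CS.id) (CS.fst u)) (CS.snd u)))
  · rintro e ⟨h1, h2⟩
    obtain ⟨x, hx⟩ := (h c a ha).1 _ h1
    obtain ⟨y, hy⟩ := (h' _ _ (r_sig ha hx)).1 _ h2
    exact ⟨⟨x, y⟩, hx, hy⟩
  · rintro ⟨x, y⟩ hs
    obtain ⟨d, hd, hx⟩ := (h c a ha).2 x (coded_sigma.1 hs).1
    obtain ⟨e, he, hy⟩ := (h' _ _ (r_sig ha hx)).2 y (coded_sigma.1 hs).2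
    exact ⟨Nat.pair d e, by simpa only [Nat.unpair_pair] using ⟨hd, he⟩, r_sig hx hy⟩

theorem enumC_sum (h : EnumC T) (h' : EnumC U) : EnumC (fun a => T a ⊕ U a) := by
  obtain ⟨E, hE, h⟩ := h
  obtain ⟨E', hE', h'⟩ := h'
  have u : CS (fun p : ℕ × ℕ => p.2.unpair) := cs_unpair.comp (CS.snd CS.id)
  refine ⟨fun p => (p.2.unpair.1 = 0 ∧ E (p.1, p.2.unpair.2)) ∨
    (p.2.unpair.1 = 1 ∧ E' (p.1, p.2.unpair.2)), re_iff.2 ?_, fun c a ha => ⟨?_, ?_⟩⟩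
  · exact CS.or (CS.and (CS.eq Disc.nat (CS.fst u) CS.const)
      ((re_iff.1 hE).comp (CS.pair (CS.fst CS.id) (CS.snd u))))
      (CS.and (CS.eq Disc.nat (CS.fst u) CS.const)
      ((re_iff.1 hE').comp (CS.pair (CS.fst CS.id) (CS.snd u))))
  · rintro e (⟨h1, h2⟩ | ⟨h1, h2⟩)
    · obtain ⟨x, hx⟩ := (h c a ha).1 _ h2
      exact ⟨.inl x, h1, hx⟩
    · obtain ⟨x, hx⟩ := (h' c a ha).1 _ h2
      exact ⟨.inr x, h1, hx⟩
  · rintro (x | x) ⟨e, -, he⟩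
    · obtain ⟨d, hd, hx⟩ := (h c a ha).2 x ⟨_, he⟩
      refine ⟨Nat.pair 0 d, Or.inl ?_, ?_, ?_⟩ <;> simp only [Nat.unpair_pair]
      exacts [⟨trivial, hd⟩, hx]
    · obtain ⟨d, hd, hx⟩ := (h' c a ha).2 x ⟨_, he⟩
      refine ⟨Nat.pair 1 d, Or.inr ?_, ?_, ?_⟩ <;> simp only [Nat.unpair_pair]
      exacts [⟨trivial, hd⟩, hx]

theorem enumC_subtype {p : ∀ a, T a → Prop} (h : EnumC T)
    (hp : CS (fun q : Σ a, T a => p q.1 q.2)) : EnumC (fun a => Subtype (p a)) := by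
  obtain ⟨E, hE, h⟩ := h
  obtain ⟨Q, hQ, hp⟩ := cs_prop_iff.1 hp
  refine ⟨fun p => E p ∧ Q (Nat.pair p.1 p.2), re_iff.2 (CS.and (re_iff.1 hE) (re_iff.1 ?_)),
    fun c a ha => ⟨?_, ?_⟩⟩
  · exact Partrec.comp hQ (Primrec₂.natPair.to_comp.comp Computable.fst Computable.snd)
  · rintro d ⟨h1, h2⟩
    obtain ⟨x, hx⟩ := (h c a ha).1 _ h1
    exact ⟨⟨x, (hp _ _ (r_sig ha hx)).1 h2⟩, hx⟩
  · rintro ⟨x, hx⟩ hs
    obtain ⟨d, hd, hr⟩ := (h c a ha).2 x hs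
    exact ⟨d, ⟨hd, (hp _ _ (r_sig ha hr)).2 hx⟩, hr⟩

theorem enumC_list (h : EnumC T) : EnumC (fun a => List (T a)) := by
  obtain ⟨E, hE, h⟩ := h
  refine ⟨fun p => ∀ d ∈ Denumerable.ofNat (List ℕ) p.2, E (p.1, d), re_iff.2 ?_,
    fun c a ha => ⟨fun e he => f2_exists fun d hd => (h c a ha).1 d (he d hd), fun l hl => ?_⟩⟩
  · exact CS.allMem (cs_ofNat.comp (CS.snd CS.id)) ((re_iff.1 hE).comp (CS.pair (CS.fst p1) p2))
  · obtain ⟨m, hm⟩ := f2_exists (R := fun (x : T a) d => E (c, d) ∧ Rep.R d x) (l := l)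
      fun x hx => (h c a ha).2 x (coded_list.1 hl x hx)
    refine ⟨Encodable.encode m, fun d hd => ?_, ?_⟩
    · rw [Denumerable.ofNat_encode] at hd
      obtain ⟨x, -, hx⟩ := f2_right hm hd
      exact hx.1
    · change List.Forall₂ _ _ _
      rw [Denumerable.ofNat_encode]
      exact (hm.imp fun _ _ h => h.2).flip

end Pool.Agent.P.MP_257122_al.FEnumAux
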