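import Pool.Agent.P.MP_257122_al.FEnumA

/-!
# Finite families: auxiliary facts
-/

namespace Pool.Agent.P.MP_257122_al.FEnumAux

variable {A : Type} [Rep A]
variable {T U W : A → Type} [∀ a, Rep (T a)] [∀ a, Rep (U a)] [∀ a, Rep (W a)]

theorem flat_key {α β : Type} {key : β → α} {l : List α} {Ls : List (List β)}
    (h : List.Forall₂ (fun x L => L.Nodup ∧ ∀ s, s ∈ L ↔ key s = x) l Ls) (hl : l.Nodup) :
    (Ls.flatMap fun L => L).Nodup ∧ ∀ s, s ∈ (Ls.flatMap fun L => L) ↔ key s ∈ l := by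
  induction h with
  | nil => simp
  | cons h _ ih =>
    obtain ⟨h1, h2⟩ := List.nodup_cons.1 hl
    obtain ⟨i1, i2⟩ := ih h2
    rw [List.flatMap_cons]
    refine ⟨List.nodup_append.2 ⟨h.1, i1, ?_⟩, fun s => ?_⟩
    · rintro s hs _ hs' rfl
      exact h1 ((h.2 s).1 hs ▸ (i2 s).1 hs')
    · rw [List.mem_append, h.2, i2, List.mem_cons]

/-- A point of the base with a complete list. -/
abbrev LB (T : A → Type) : Type := {p : Σ a, List (T a) // p.2.Nodup ∧ ∀ x, x ∈ p.2}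

theorem cfin_fiber (h : CFin T) (key : ∀ a, W a → T a)
    (hk : MV (fun (p : Σ a, T a) (L : List (W p.1)) => L.Nodup ∧ ∀ s, s ∈ L ↔ key p.1 s = p.2)) :
    CFin W := by
  refine MV.bind h ?_
  have hl := MV.list (A := LB T)
    (T := fun p => T p.1.1) (U := fun p => List (W p.1.1))
    (Q := fun p x L => L.Nodup ∧ ∀ s, s ∈ L ↔ key p.1.1 s = x) (l := fun p => p.1.2)
    (p2.comp v1) (hk.comp (g := fun q : {p : Σ p : LB T, T p.1.1 // p.2 ∈ p.1.1.2} =>
      ⟨q.1.1.1.1, q.1.2⟩) (CS.smk0 (p1.comp (v1.comp (p1.comp v1))) (p2.comp v1)))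
  refine MV.bind hl (MV.of_cs (f := fun q => q.1.2.flatMap fun L => L)
    (CS.flatMap (CS.lam p2) (p2.comp v1)) fun q _ => ?_)
  obtain ⟨h1, h2⟩ := flat_key q.2 q.1.1.2.1
  exact ⟨h1, fun s => (h2 s).2 (q.1.1.2.2 _)⟩

theorem cfin_image (h : CFin U) {f : ∀ a, U a → T a} (hf : CS (fun p : Σ a, U a => f p.1 p.2))
    (hb : ∀ a, Function.Bijective (f a)) : CFin T := by
  refine MV.bind h (MV.of_cs (f := fun q => q.1.2.map (f q.1.1))
    (CS.map ((CS.lam hf).comp (p1.comp v1)) (p2.comp v1)) fun q _ => ⟨q.2.1.map (hb _).1, fun x => ?_⟩)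
  obtain ⟨y, rfl⟩ := (hb _).2 x
  exact List.mem_map_of_mem (q.2.2 y)

theorem cfin_sigma {β : ∀ a, T a → Type} [∀ a x, Rep (β a x)] (h : CFin T)
    (h' : CFin (fun p : Σ a, T a => β p.1 p.2)) : CFin (fun a => Σ x, β a x) := by
  refine cfin_fiber h (fun _ s => s.1) (MV.bind h' (MV.of_cs
    (f := fun q => q.1.2.map fun y => (⟨q.1.1.2, y⟩ : Σ x, β q.1.1.1 x))
    (CS.map (CS.lam (CS.smk _ _ (p2.comp (p1.comp (v1.comp p1))) p2)) (p2.comp v1))
    fun q _ => ⟨q.2.1.map sigma_mk_injective, fun s => ⟨?_, ?_⟩⟩))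
  · intro hs
    obtain ⟨y, -, rfl⟩ := List.mem_map.1 hs
    rfl
  · obtain ⟨⟨⟨a, x⟩, l⟩, hl⟩ := q
    obtain ⟨x', y⟩ := s
    intro e
    dsimp only at e x' y hl ⊢
    subst e
    exact List.mem_map_of_mem (hl.2 y)

theorem cfin_subtype {p : ∀ a, T a → Prop} (h : CFin T)
    (hp : CS (fun q : Σ a, T a => p q.1 q.2)) (hn : CS (fun q : Σ a, T a => ¬ p q.1 q.2)) :
    CFin (fun a => Subtype (p a)) := by
  classical
  refine cfin_fiber h (fun _ s => s.1) (MV.of_cs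
    (f := fun q => if k : p q.1 q.2 then [(⟨q.2, k⟩ : Subtype (p q.1))] else [])
    (CS.dite hp hn (CS.cons (CS.submk (p2.comp v1)) CS.nil) CS.nil) fun q _ => ?_)
  split_ifs with k
  · exact ⟨List.nodup_singleton _, fun s => by rw [List.mem_singleton, Subtype.ext_iff]⟩
  · exact ⟨List.nodup_nil, fun s => ⟨fun h => absurd h List.not_mem_nil, fun e => (k (e ▸ s.2)).elim⟩⟩

theorem cfin_sum (h : CFin T) (h' : CFin U) : CFin (fun a => T a ⊕ U a) := by
  refine MV.bind (MV.prod h h') (MV.of_cs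
    (f := fun q => q.1.2.1.map (fun x => Sum.inl x) ++ q.1.2.2.map (fun x => Sum.inr x))
    (CS.append (CS.map (CS.lam (CS.inl p2)) (CS.fst (p2.comp v1)))
      (CS.map (CS.lam (CS.inr p2)) (CS.snd (p2.comp v1)))) fun q _ => ⟨?_, ?_⟩)
  · refine List.nodup_append.2 ⟨q.2.1.1.map Sum.inl_injective, q.2.2.1.map Sum.inr_injective, ?_⟩
    intro s hs t ht e
    obtain ⟨x, -, rfl⟩ := List.mem_map.1 hs
    obtain ⟨y, -, rfl⟩ := List.mem_map.1 ht
    cases e
  · rintro (x | x)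
    · exact List.mem_append_left _ (List.mem_map_of_mem (q.2.1.2 x))
    · exact List.mem_append_right _ (List.mem_map_of_mem (q.2.2.2 x))

theorem cfin_fin {n : A → ℕ} (h : CS n) : CFin (fun a => Fin (n a)) :=
  MV.of_cs (CS.finRange h) fun _ _ => ⟨List.nodup_finRange _, List.mem_finRange⟩

theorem mv_index {l : ∀ a, List (T a)} {P : ∀ a, T a → Prop} (hl : CS l)
    (hP : CS (fun p : Σ a, T a => P p.1 p.2)) (hc : ∀ a, Coded a → ∃ x ∈ l a, P a x) :
    MV (fun a (i : Fin (l a).length) => P a ((l a).get i)) := by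
  refine MV.search (fin_enum (cfin_fin (CS.length hl)))
    (hP.comp (g := fun q : Σ a, Fin (l a).length => ⟨q.1, (l q.1).get q.2⟩)
      (CS.smk0 p1 (CS.get (hl.comp p1) p2))) (fun _ _ h => h) fun a ha => ?_
  obtain ⟨x, hx, h⟩ := hc a ha
  obtain ⟨i, rfl⟩ := List.get_of_mem hx
  exact ⟨i, h⟩

theorem equivFin (h : CFin T) (hd : Disc T) :
    MV (fun a (q : Σ n : ℕ, (T a → Fin n) × (Fin n → T a)) =>
      Function.LeftInverse q.2.2 q.2.1 ∧ Function.RightInverse q.2.2 q.2.1) := by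
  classical
  refine MV.bind h (MV.of_cs (f := fun q => ⟨q.1.2.length,
    fun x => (List.Nodup.getEquivOfForallMemList q.1.2 q.2.1 q.2.2).symm x, fun i => q.1.2.get i⟩)
    (CS.smk (β := fun (q : LB T) n => (T q.1.1 → Fin n) × (Fin n → T q.1.1)) _ _
      (CS.length (p2.comp v1))
      (CS.pair (CS.lam (MV.to_cs ?_)) (CS.lam (CS.get (p2.comp (v1.comp p1)) p2)))) fun q _ =>
    ⟨(List.Nodup.getEquivOfForallMemList q.1.2 q.2.1 q.2.2).right_inv,
      (List.Nodup.getEquivOfForallMemList q.1.2 q.2.1 q.2.2).left_inv⟩)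
  refine (mv_index (A := Σ p : LB T, T p.1.1) (T := fun r => T r.1.1.1) (l := fun r => r.1.1.2)
    (P := fun r x => x = r.2) (p2.comp (v1.comp p1))
    (CS.eq (hd.comp (p1.comp (v1.comp (p1.comp p1)))) p2 (p2.comp p1))
    fun r _ => ⟨r.2, r.1.2.2 _, rfl⟩).mono fun r i _ _ e => ?_
  rw [Equiv.eq_symm_apply]
  exact e

theorem cs_of_graph {β : ∀ a, T a → Type} [∀ a x, Rep (β a x)] (hd : Disc T)
    {l : ∀ a, List (Σ x, β a x)} {f : ∀ a x, β a x} (hl : CS l)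
    (h1 : ∀ a, ∀ s ∈ l a, f a s.1 = s.2) (h2 : ∀ a x, x ∈ (l a).map Sigma.fst) : CS f := by
  have hm := mv_index (A := Σ a, T a) (T := fun p => Σ x, β p.1 x) (l := fun p => l p.1)
    (P := fun p s => s.1 = p.2) (hl.comp p1)
    (CS.eq (hd.comp (p1.comp p1)) (CS.sfst p2) (p2.comp p1)) fun p _ => List.mem_map.1 (h2 _ _)
  refine CS.lam (MV.elim hm ?_)
  refine (CS.eqRec (T := fun (q : {q : Σ p : (Σ a, T a), Fin (l p.1).length //
    ((l q.1.1).get q.2).1 = q.1.2}) x => β q.1.1.1 x) (fun q => q.2)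
    (s2 (CS.get (hl.comp (p1.comp (p1.comp v1))) (p2.comp v1)))).congr fun q _ => ?_
  obtain ⟨⟨⟨a, x⟩, i⟩, e⟩ := q
  dsimp only at a x i e ⊢
  subst e
  exact (h1 a _ (List.get_mem (l a) i)).symm

/-- Lists that are graphs of functions. -/
def Gr {α : Type} {β : α → Type} (l : List (Σ x, β x)) : Prop :=
  (l.map Sigma.fst).Nodup ∧ ∀ x, x ∈ l.map Sigma.fst

theorem Gr.ex {α : Type} {β : α → Type} {l : List (Σ x, β x)} (h : Gr l) :
    ∃ f : ∀ x, β x, ∀ s ∈ l, f s.1 = s.2 := by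
  have : ∀ x, ∃ y : β x, (⟨x, y⟩ : Σ x, β x) ∈ l := fun x => by
    obtain ⟨s, hs, rfl⟩ := List.mem_map.1 (h.2 x)
    exact ⟨s.2, hs⟩
  choose f hf using this
  exact ⟨f, fun s hs => List.NodupKeys.eq_of_mk_mem h.1 (hf s.1) hs⟩

theorem gr_map {α : Type} {β : α → Type} {L : List α} (h : L.Nodup ∧ ∀ x, x ∈ L) (f : ∀ x, β x) :
    Gr (L.map fun x => (⟨x, f x⟩ : Σ x, β x)) := by
  unfold Gr
  rw [List.map_map]
  exact (List.map_id L).symm ▸ h

theorem cs_gr {β : ∀ a, T a → Type} [∀ a x, Rep (β a x)] (hd : Disc T) :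
    CS (fun p : Σ a, {l : List (Σ x, β a x) // Gr l} => p.2.2.ex.choose) :=
  cs_of_graph (hd.comp p1) (CS.val p2) (fun p => p.2.2.ex.choose_spec) fun p => p.2.2.2

theorem gr_surj {β : ∀ a, T a → Type} [∀ a x, Rep (β a x)] (h : CFin T) {a : A}
    (ha : Coded a) {f : ∀ x, β a x} (hf : ∀ x, Coded (f x)) :
    ∃ l : {l : List (Σ x, β a x) // Gr l}, Coded l ∧ l.2.ex.choose = f := by
  obtain ⟨L, -, hL⟩ := MV.exists h ha
  refine ⟨⟨_, gr_map hL f⟩, coded_subtype.2 (coded_list.2 fun s hs => ?_), funext fun x => ?_⟩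
  · obtain ⟨x, -, rfl⟩ := List.mem_map.1 hs
    exact coded_sigma.2 ⟨enum_coded (fin_enum h) ha x, hf x⟩
  · exact (gr_map hL f).ex.choose_spec ⟨x, f x⟩ (List.mem_map_of_mem (hL.2 x))

theorem cfin_haus (h : CFin T) (h' : Disc T) : Haus T :=
  have k := s2 (p2 (A := Σ a, T a × T a)
    (T := fun a => Σ n : ℕ, (T a.1 → Fin n) × (Fin n → T a.1)))
  MV.elimP ((equivFin h h').comp p1) (P' := fun p q => q.2.1 p.2.1 ≠ q.2.1 p.2.2)
    (CS.ne Haus.fin (CS.app (CS.fst k) (CS.fst (p2.comp p1)))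
      (CS.app (CS.fst k) (CS.snd (p2.comp p1))))
    fun _ _ _ _ e => e.1.injective.ne_iff

/-- All lists of length `j` with entries in `L`. -/
def vecs {α : Type} (L : List α) (j : ℕ) : List (List α) :=
  Nat.rec [[]] (fun _ V => L.flatMap fun x => V.map fun l => x :: l) j

theorem vecs_spec {α : Type} {L : List α} (h : L.Nodup ∧ ∀ x, x ∈ L) (j : ℕ) :
    (vecs L j).Nodup ∧ ∀ l, l ∈ vecs L j ↔ l.length = j := by
  induction j with
  | zero => exact ⟨List.nodup_singleton _, fun l => by simp [vecs]⟩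
  | succ j ih =>
    have e : vecs L (j + 1) = (L ×ˢ vecs L j).map fun p => p.1 :: p.2 := by
      change (L.flatMap fun x => (vecs L j).map fun l => x :: l) = _
      simp [SProd.sprod, List.product, List.map_flatMap, Function.comp_def]
    rw [e]
    refine ⟨(h.1.product ih.1).map fun p q e => Prod.ext (List.cons.inj e).1 (List.cons.inj e).2,
      fun l => ⟨fun hl => ?_, fun hl => ?_⟩⟩
    · obtain ⟨⟨x, m⟩, hp, rfl⟩ := List.mem_map.1 hl
      simp [(ih.2 m).1 (List.mem_product.1 hp).2]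
    · obtain _ | ⟨x, m⟩ := l
      · cases hl
      · exact List.mem_map.2 ⟨(x, m), List.mem_product.2 ⟨h.2 x, (ih.2 m).2 (Nat.succ.inj hl)⟩, rfl⟩

theorem cs_vecs {L : ∀ a, List (T a)} {n : A → ℕ} (hL : CS L) (hn : CS n) :
    CS (fun a => vecs (L a) (n a)) :=
  CS.natRec hn (CS.cons CS.nil CS.nil) (CS.lam (CS.lam (CS.flatMap (CS.lam (CS.map
    (CS.lam (CS.cons (p2.comp p1) p2)) (p2.comp p1))) (hL.comp (p1.comp p1)))))

theorem cfin_vec (h : CFin U) {n : A → ℕ} (hn : CS n) :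
    CFin (fun a => {l : List (U a) // l.length = n a}) := by
  refine MV.bind h (MV.of_cs (f := fun q => (vecs q.1.2 (n q.1.1)).attach.map
    fun v => ⟨v.1, ((vecs_spec q.2 _).2 _).1 v.2⟩)
    (CS.map (CS.lam ?_)
      (CS.attach (cs_vecs (p2.comp v1) (hn.comp (p1.comp v1))))) fun q _ => ⟨?_, fun l => ?_⟩)
  · exact CS.submk (p := fun (r : Σ q : LB U, {x // x ∈ vecs q.1.2 (n q.1.1)}) l =>
      l.length = n r.1.1.1) (CS.val p2)
  · exact (List.nodup_attach.2 (vecs_spec q.2 _).1).map fun v w e =>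
      Subtype.ext (Subtype.mk.inj e)
  · exact List.mem_map.2 ⟨⟨l.1, ((vecs_spec q.2 _).2 _).2 l.2⟩, List.mem_attach _ _, rfl⟩

theorem cfin_funFin (h : CFin U) {n : A → ℕ} (hn : CS n) : CFin (fun a => Fin (n a) → U a) := by
  refine cfin_image (cfin_vec h hn) (f := fun a l i => l.1.get ⟨i.1, l.2.symm ▸ i.2⟩)
    (CS.lam (CS.get (CS.val (p2.comp p1)) (CS.finMk (CS.finVal p2)))) fun a => ⟨?_, ?_⟩
  · intro l m e
    refine Subtype.ext (List.ext_get (l.2.trans m.2.symm) fun i h1 h2 => ?_)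
    exact congrFun e ⟨i, l.2 ▸ h1⟩
  · intro f
    exact ⟨⟨List.ofFn f, List.length_ofFn⟩, funext fun i => by simp⟩

end Pool.Agent.P.MP_257122_al.FEnumAux
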