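import Pool.Agent.P.MP_257122_al.FEnumB

/-!
# Functions on finite families, equality tests: auxiliary facts
-/

namespace Pool.Agent.P.MP_257122_al.FEnumAux

variable {A : Type} [Rep A]
variable {T U W : A → Type} [∀ a, Rep (T a)] [∀ a, Rep (U a)] [∀ a, Rep (W a)]

theorem enumC_prod (h : EnumC T) (h' : EnumC U) : EnumC (fun a => T a × U a) :=
  enumC_image (U := fun a => Σ _ : T a, U a) (enumC_sigma h (h'.comp p1))
    (f := fun _ s => (s.1, s.2)) (CS.pair (CS.sfst p2) (s2 (β := fun (p : Σ a, Σ _ : T a, U a) _ => U p.1) p2))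
    fun _ y _ hy => ⟨⟨y.1, y.2⟩, coded_sigma.2 (coded_prod.1 hy), rfl⟩

theorem coded_pi {β : ∀ a, T a → Type} [∀ a x, Rep (β a x)] (h : CFin T) (hd : Disc T) {a : A}
    (ha : Coded a) {f : ∀ x, β a x} (hf : ∀ x, Coded (f x)) : Coded f := by
  obtain ⟨l, hl, rfl⟩ := gr_surj h ha hf
  exact (cs_gr hd).coded (a := ⟨a, l⟩) (coded_sigma.2 ⟨ha, hl⟩)

theorem enumC_pi {β : ∀ a, T a → Type} [∀ a x, Rep (β a x)] (h : CFin T) (hd : Disc T)
    (h' : EnumC (fun p : Σ a, T a => β p.1 p.2)) : EnumC (fun a => ∀ x, β a x) := by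
  have k : CS (fun q : Σ a, List (Σ x, β a x) => q.2.map Sigma.fst) :=
    CS.map (CS.lam (CS.sfst p2)) p2
  refine enumC_image (enumC_subtype (p := fun _ l => Gr l)
    (enumC_list (enumC_sigma (enum_toC (fin_enum h)) h')) (CS.and
      (CS.nodup ((cfin_haus h hd).comp p1) k)
      (CS.all (h.comp p1) (CS.memList (hd.comp (p1.comp p1)) p2 (k.comp p1))))) (cs_gr hd)
    fun a f ha hf => gr_surj h ha fun x => hf.app (enum_coded (fin_enum h) ha x)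

theorem f2_map {α β : Type} {g : β → α} {l : List α} {m : List β}
    (h : List.Forall₂ (fun x s => g s = x) l m) : m.map g = l := by
  induction h with
  | nil => rfl
  | cons h _ ih => rw [List.map_cons, h, ih]

theorem mv_pi {β : ∀ a, T a → Type} [∀ a x, Rep (β a x)] {Q : ∀ a x, β a x → Prop} (h : CFin T)
    (hd : Disc T) (hQ : MV (fun (p : Σ a, T a) (y : β p.1 p.2) => Q p.1 p.2 y)) :
    MV (fun a (f : ∀ x, β a x) => ∀ x, Q a x (f x)) := by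
  have h1 : MV (fun (p : Σ a, T a) (s : Σ x, β p.1 x) => s.1 = p.2 ∧ Q p.1 s.1 s.2) :=
    MV.bind hQ (MV.of_cs (f := fun q => ⟨q.1.1.2, q.1.2⟩)
      (CS.smk _ _ (p2.comp (p1.comp v1)) (p2.comp v1)) fun q _ => ⟨rfl, q.2⟩)
  have h2 := MV.list (A := LB T) (T := fun p => T p.1.1) (U := fun p => Σ x, β p.1.1 x)
    (Q := fun p x s => s.1 = x ∧ Q p.1.1 s.1 s.2) (l := fun p => p.1.2)
    (p2.comp v1) (h1.comp (g := fun q : {p : Σ p : LB T, T p.1.1 // p.2 ∈ p.1.1.2} =>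
      ⟨q.1.1.1.1, q.1.2⟩) (CS.smk0 (p1.comp (v1.comp (p1.comp v1))) (p2.comp v1)))
  have h3 : MV (fun a (l : List (Σ x, β a x)) => Gr l ∧ ∀ s ∈ l, Q a s.1 s.2) := by
    refine MV.bind h (h2.mono fun p l _ _ e => ⟨?_, fun s hs => ?_⟩)
    · unfold Gr
      rw [f2_map (e.imp fun _ _ k => k.1)]
      exact p.2
    · obtain ⟨x, -, k⟩ := f2_right e hs
      exact k.2
  refine MV.bind h3 (MV.of_cs (f := fun q => q.2.1.ex.choose)
    (cs_of_graph (hd.comp (p1.comp v1)) (p2.comp v1) (fun q => q.2.1.ex.choose_spec)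
      fun q => q.2.1.2) fun q _ x => ?_)
  obtain ⟨s, hs, rfl⟩ := List.mem_map.1 (q.2.1.2 x)
  rw [q.2.1.ex.choose_spec s hs]
  exact q.2.2 s hs

theorem cs_sum2 {P : ∀ a, T a → T a → Prop} {Q : ∀ a, U a → U a → Prop} {b : Prop}
    (h : CS (fun p : Σ a, T a × T a => P p.1 p.2.1 p.2.2))
    (h' : CS (fun p : Σ a, U a × U a => Q p.1 p.2.1 p.2.2)) :
    CS (fun p : Σ a, (T a ⊕ U a) × (T a ⊕ U a) =>
      Sum.elim (fun x => Sum.elim (fun y => P p.1 x y) (fun _ => b) p.2.2)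
        (fun x => Sum.elim (fun _ => b) (fun y => Q p.1 x y) p.2.2) p.2.1) := by
  refine CS.app (CS.sumElim (CS.lam (CS.app (CS.sumElim (CS.lam ?_) (CS.lam CS.const))
    (CS.snd (p2.comp p1)))) (CS.lam (CS.app (CS.sumElim (CS.lam CS.const) (CS.lam ?_))
    (CS.snd (p2.comp p1))))) (CS.fst p2)
  · exact h.comp (g := fun r : Σ q : (Σ p : (Σ a, (T a ⊕ U a) × (T a ⊕ U a)), T p.1), T q.1.1 =>
      ⟨r.1.1.1, r.1.2, r.2⟩) (CS.smk0 (p1.comp (p1.comp p1)) (CS.pair (p2.comp p1) p2))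
  · exact h'.comp (g := fun r : Σ q : (Σ p : (Σ a, (T a ⊕ U a) × (T a ⊕ U a)), U p.1), U q.1.1 =>
      ⟨r.1.1.1, r.1.2, r.2⟩) (CS.smk0 (p1.comp (p1.comp p1)) (CS.pair (p2.comp p1) p2))

theorem cs_sig2 {β : ∀ a, T a → Type} [∀ a x, Rep (β a x)] {P : ∀ a x, β a x → β a x → Prop}
    (h : Disc T) (h' : CS (fun p : Σ q : (Σ a, T a), β q.1 q.2 × β q.1 q.2 =>
      P p.1.1 p.1.2 p.2.1 p.2.2)) :
    CS (fun p : Σ a, (Σ x, β a x) × (Σ x, β a x) =>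
      ∃ e : p.2.1.1 = p.2.2.1, P p.1 p.2.2.1 (e ▸ p.2.1.2) p.2.2.2) := by
  refine CS.exD (CS.eq (h.comp p1) (CS.sfst (CS.fst p2)) (CS.sfst (CS.snd p2))) ?_
  exact h'.comp (g := fun q : {p : Σ a, (Σ x, β a x) × (Σ x, β a x) // p.2.1.1 = p.2.2.1} =>
    ⟨⟨q.1.1, q.1.2.2.1⟩, q.2 ▸ q.1.2.1.2, q.1.2.2.2⟩)
    (CS.smk0 (CS.smk0 (p1.comp v1) (CS.sfst (CS.snd (p2.comp v1))))
      (CS.pair (CS.eqRec (T := fun (q : {p : Σ a, (Σ x, β a x) × (Σ x, β a x) //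
        p.2.1.1 = p.2.2.1}) x => β q.1.1 x) (fun q => q.2) (s2 (CS.fst (p2.comp v1))))
        (s2 (CS.snd (p2.comp v1)))))

theorem cs_pi2 {β : ∀ a, T a → Type} [∀ a x, Rep (β a x)] {P : ∀ a x, β a x → β a x → Prop}
    (h' : CS (fun p : Σ q : (Σ a, T a), β q.1 q.2 × β q.1 q.2 => P p.1.1 p.1.2 p.2.1 p.2.2)) :
    CS (fun r : Σ p : (Σ a, (∀ x, β a x) × (∀ x, β a x)), T p.1 =>
      P r.1.1 r.2 (r.1.2.1 r.2) (r.1.2.2 r.2)) :=
  h'.comp (g := fun r : Σ p : (Σ a, (∀ x, β a x) × (∀ x, β a x)), T p.1 =>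
    ⟨⟨r.1.1, r.2⟩, r.1.2.1 r.2, r.1.2.2 r.2⟩)
    (CS.smk0 (CS.smk0 (p1.comp p1) p2)
      (CS.pair (dapp (CS.fst (p2.comp p1)) p2) (dapp (CS.snd (p2.comp p1)) p2)))

end Pool.Agent.P.MP_257122_al.FEnumAux
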