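import Pool.Agent.P.MP_257122_al.FListA

/-!
# Lists on codes
-/

namespace Pool.Agent.P.MP_257122_al
namespace FListAux

open Denumerable Encodable

variable {A : Type} [Rep A]
variable {T U V : A → Type} [∀ a, Rep (T a)] [∀ a, Rep (U a)] [∀ a, Rep (V a)]

theorem nil : CS (fun a => ([] : List (T a))) :=
  code₀ (encode ([] : List ℕ)) fun _ => rep_enc.2 List.Forall₂.nil

theorem cons {x : ∀ a, T a} {l : ∀ a, List (T a)} (hx : CS x) (hl : CS l) :
    CS (fun a => x a :: l a) :=
  lcode₂ hx hl (F := fun c d => c :: dec d)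
    (Primrec.list_cons.comp₂ Primrec₂.left (primrec_dec.comp₂ Primrec₂.right))
    fun _ _ _ h h' => List.Forall₂.cons h h'

theorem append {l l' : ∀ a, List (T a)} (hl : CS l) (hl' : CS l') :
    CS (fun a => l a ++ l' a) :=
  lcode₂ hl hl' (F := fun c d => dec c ++ dec d)
    (Primrec.list_append.comp₂ (primrec_dec.comp₂ Primrec₂.left)
      (primrec_dec.comp₂ Primrec₂.right))
    fun _ _ _ h h' => List.rel_append h h'

theorem length {l : ∀ a, List (T a)} (hl : CS l) : CS (fun a => (l a).length) :=
  code hl (F := fun c => (dec c).length) (Primrec.list_length.comp primrec_dec)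
    fun _ _ h => List.Forall₂.length_eq h

theorem reverse {l : ∀ a, List (T a)} (hl : CS l) : CS (fun a => (l a).reverse) :=
  lcode hl (F := fun c => (dec c).reverse) (Primrec.list_reverse.comp primrec_dec)
    fun _ _ h => List.rel_reverse h

theorem forall₂_tail {α β : Type} {R : α → β → Prop} {l : List α} {l' : List β}
    (h : List.Forall₂ R l l') : List.Forall₂ R l.tail l'.tail := by
  cases h with
  | nil => exact List.Forall₂.nil
  | cons _ h => exact h

theorem tail {l : ∀ a, List (T a)} (hl : CS l) : CS (fun a => (l a).tail) :=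
  lcode hl (F := fun c => (dec c).tail) (Primrec.list_tail.comp primrec_dec)
    fun _ _ h => forall₂_tail h

theorem forall₂_getD {α β : Type} {R : α → β → Prop} {l : List α} {l' : List β}
    (h : List.Forall₂ R l l') {x : α} {y : β} (hxy : R x y) (n : ℕ) :
    R (l.getD n x) (l'.getD n y) := by
  induction h generalizing n with
  | nil => exact hxy
  | cons h _ ih =>
    cases n with
    | zero => exact h
    | succ n => exact ih n

theorem getD {l : ∀ a, List (T a)} {n : A → ℕ} {z : ∀ a, T a} (hl : CS l)
    (hn : CS n) (hz : CS z) : CS (fun a => (l a).getD (n a) (z a)) := by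
  refine code₂ (hl.pair hn) hz (F := fun c d => ((dec c.unpair.1)[c.unpair.2]?).getD d) ?_ ?_
  · exact Primrec.option_getD.comp₂ ((Primrec.list_getElem?.comp
      (primrec_dec.comp (Primrec.fst.comp Primrec.unpair))
      (Primrec.snd.comp Primrec.unpair)).comp₂ Primrec₂.left) Primrec₂.right
  · intro c d a hc hd
    have e : c.unpair.2 = n a := hc.2
    rw [e, ← List.getD_eq_getElem?_getD]
    exact forall₂_getD hc.1 hd _

theorem forall₂_get {α β : Type} {R : α → β → Prop} {l : List α} {l' : List β}
    (h : List.Forall₂ R l l') (x : α) (i : Fin l'.length) : R (l.getD i x) (l'.get i) := by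
  have hi : i.1 < l.length := by rw [h.length_eq]; exact i.2
  rw [List.getD_eq_getElem _ _ hi]
  exact h.get hi i.2

theorem get {l : ∀ a, List (T a)} {i : ∀ a, Fin (l a).length} (hl : CS l)
    (hi : CS i) : CS (fun a => (l a).get (i a)) := by
  refine code₂ hl hi (F := fun c d => (dec c).getD d 0)
    ((Primrec.list_getD 0).comp₂ (primrec_dec.comp₂ Primrec₂.left) Primrec₂.right) ?_
  intro c d a hc hd
  have e : d = (i a).1 := hd
  rw [e]
  exact forall₂_get hc 0 (i a)

theorem forall₂_refl_map {β : Type} (v : β → ℕ) {R : ℕ → β → Prop} (h : ∀ x, R (v x) x)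
    (l : List β) : List.Forall₂ R (l.map v) l := by
  induction l with
  | nil => exact List.Forall₂.nil
  | cons x l ih => exact List.Forall₂.cons (h x) ih

theorem range {n : A → ℕ} (hn : CS n) : CS (fun a => List.range (n a)) := by
  refine lcode hn (F := List.range) Primrec.list_range fun c a h => ?_
  have e : c = n a := h
  rw [e]
  simpa using forall₂_refl_map (R := Rep.R) (fun x : ℕ => x) (fun _ => rfl) (List.range (n a))

theorem finRange {n : A → ℕ} (hn : CS n) : CS (fun a => List.finRange (n a)) := by
  refine lcode hn (F := List.range) Primrec.list_range fun c a h => ?_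
  have e : c = n a := h
  rw [e, ← List.map_coe_finRange_eq_range]
  exact forall₂_refl_map (R := Rep.R) (fun x : Fin (n a) => x.1) (fun _ => rfl) _

theorem attach {l : ∀ a, List (T a)} (hl : CS l) : CS (fun a => (l a).attach) := by
  refine code hl (F := fun c => c) Primrec.id fun c a h => ?_
  have h' : List.Forall₂ Rep.R (dec c) ((l a).attach.map Subtype.val) := by
    rw [List.attach_map_subtype_val]; exact h
  have h'' := List.forall₂_map_right_iff.1 h'
  exact h''

theorem zip_eq (l l' : List ℕ) : List.zipWith Nat.pair l l' =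
    (List.range (min l.length l'.length)).map fun i => Nat.pair (l.getD i 0) (l'.getD i 0) := by
  apply List.ext_getElem
  · simp
  · intro i h1 h2
    have h3 : i < l.length ∧ i < l'.length := by simpa using h1
    simp [h3.1, h3.2]

theorem forall₂_zip {α β : Type} [Rep α] [Rep β] {c d : List ℕ} {l : List α} {l' : List β}
    (h : List.Forall₂ Rep.R c l) (h' : List.Forall₂ Rep.R d l') :
    List.Forall₂ Rep.R (List.zipWith Nat.pair c d) (l.zip l') := by
  induction h generalizing d l' with
  | nil => simp
  | cons h _ ih =>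
    cases h' with
    | nil => simp
    | cons k h' =>
      refine List.Forall₂.cons ⟨?_, ?_⟩ (ih h')
      · rw [Nat.unpair_pair]; exact h
      · rw [Nat.unpair_pair]; exact k

theorem zip {l : ∀ a, List (T a)} {l' : ∀ a, List (U a)} (hl : CS l)
    (hl' : CS l') : CS (fun a => (l a).zip (l' a)) := by
  refine lcode₂ hl hl' (F := fun c d => List.zipWith Nat.pair (dec c) (dec d)) ?_
    fun c d a h h' => forall₂_zip h h'
  have h1 : Primrec fun p : ℕ × ℕ => dec p.1 := primrec_dec.comp Primrec.fst
  have h2 : Primrec fun p : ℕ × ℕ => dec p.2 := primrec_dec.comp Primrec.snd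
  have h3 : Primrec fun p : ℕ × ℕ =>
      (List.range (min (dec p.1).length (dec p.2).length)).map
        fun i => Nat.pair ((dec p.1).getD i 0) ((dec p.2).getD i 0) :=
    Primrec.list_map (Primrec.list_range.comp (Primrec.nat_min.comp
      (Primrec.list_length.comp h1) (Primrec.list_length.comp h2)))
      (Primrec₂.natPair.comp ((Primrec.list_getD 0).comp (h1.comp Primrec.fst) Primrec.snd)
        ((Primrec.list_getD 0).comp (h2.comp Primrec.fst) Primrec.snd)).to₂
  exact h3.of_eq fun p => (zip_eq _ _).symm

theorem foldl_eq {α β : Type} (f : β → α → β) (z : β) (l : List α) (n : ℕ) :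
    (Nat.rec z (fun k y => if h : k < l.length then f y (l.get ⟨k, h⟩) else y) n : β) =
      List.foldl f z (l.take n) := by
  induction n with
  | zero => rfl
  | succ n ih =>
    simp only [ih]
    split_ifs with h
    · rw [List.take_add_one, List.getElem?_eq_getElem h, List.foldl_append]
      rfl
    · rw [List.take_of_length_le (by omega), List.take_of_length_le (by omega)]

theorem finMk {m n : A → ℕ} {h : ∀ a, m a < n a} (hm : CS m) :
    CS (fun a => (⟨m a, h a⟩ : Fin (n a))) :=
  code hm (F := fun c => c) Primrec.id fun _ _ h => h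

theorem finVal {n : A → ℕ} {i : ∀ a, Fin (n a)} (h : CS i) : CS (fun a => (i a).val) :=
  code h (F := fun c => c) Primrec.id fun _ _ h => h

theorem foldl {f : ∀ a, U a → T a → U a} {z : ∀ a, U a}
    {l : ∀ a, List (T a)} (hf : CS f) (hz : CS z) (hl : CS l) :
    CS (fun a => List.foldl (f a) (z a) (l a)) := by
  have h : CS (fun a => (Nat.rec (z a) (fun k y => if h : k < (l a).length then
      f a y ((l a).get ⟨k, h⟩) else y) (l a).length : U a)) := by
    refine CS.natRec (length hl) hz (CS.lam (CS.lam ?_))
    have b0 : CS (fun p : Σ q : (Σ _ : A, ℕ), U q.1 => p.1.1) := base.comp base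
    have b1 : CS (fun p : Σ q : (Σ _ : A, ℕ), U q.1 => p.1.2) := arg.comp base
    have b2 : CS (fun p : Σ q : (Σ _ : A, ℕ), U q.1 => p.2) := arg
    have b3 : CS (fun p : Σ q : (Σ _ : A, ℕ), U q.1 => (l p.1.1).length) :=
      length (hl.comp b0)
    refine CS.dite (rel Primrec.nat_lt b1 b3) (rel Primrec.nat_lt.not b1 b3) ?_
      (b2.comp (CS.val CS.id))
    have v : CS (fun p : {p : Σ q : (Σ _ : A, ℕ), U q.1 // p.1.2 < (l p.1.1).length} => p.1) :=
      CS.val CS.id
    exact CS.app (CS.app (hf.comp (b0.comp v)) (b2.comp v))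
      (get (hl.comp (b0.comp v)) (finMk (b1.comp v)))
  refine h.congr fun a _ => ?_
  rw [foldl_eq, List.take_length]

theorem foldr {f : ∀ a, T a → U a → U a} {z : ∀ a, U a}
    {l : ∀ a, List (T a)} (hf : CS f) (hz : CS z) (hl : CS l) :
    CS (fun a => List.foldr (f a) (z a) (l a)) := by
  have h : CS (fun a (y : U a) (x : T a) => f a x y) := by
    refine CS.lam (CS.lam ?_)
    have b0 : CS (fun p : Σ q : (Σ a : A, U a), T q.1 => p.1.1) := base.comp base
    have b1 : CS (fun p : Σ q : (Σ a : A, U a), T q.1 => p.1.2) := arg.comp base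
    have b2 : CS (fun p : Σ q : (Σ a : A, U a), T q.1 => p.2) := arg
    exact CS.app (CS.app (hf.comp b0) b2) b1
  exact (foldl h hz (reverse hl)).congr fun a _ => by rw [List.foldl_reverse]

theorem map {f : ∀ a, T a → U a} {l : ∀ a, List (T a)} (hf : CS f)
    (hl : CS l) : CS (fun a => List.map (f a) (l a)) := by
  have h : CS (fun a (x : T a) (y : List (U a)) => f a x :: y) := by
    refine CS.lam (CS.lam ?_)
    have b0 : CS (fun p : Σ q : (Σ a : A, T a), List (U q.1) => p.1.1) := base.comp base
    have b1 : CS (fun p : Σ q : (Σ a : A, T a), List (U q.1) => p.1.2) := arg.comp base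
    have b2 : CS (fun p : Σ q : (Σ a : A, T a), List (U q.1) => p.2) := arg
    exact cons (CS.app (hf.comp b0) b1) b2
  refine (foldr h nil hl).congr fun a _ => ?_
  induction l a with
  | nil => rfl
  | cons x l ih => rw [List.foldr_cons, ih, List.map_cons]

theorem flatMap {f : ∀ a, T a → List (U a)} {l : ∀ a, List (T a)}
    (hf : CS f) (hl : CS l) : CS (fun a => List.flatMap (f a) (l a)) := by
  have h : CS (fun a (x : T a) (y : List (U a)) => f a x ++ y) := by
    refine CS.lam (CS.lam ?_)
    have b0 : CS (fun p : Σ q : (Σ a : A, T a), List (U q.1) => p.1.1) := base.comp base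
    have b1 : CS (fun p : Σ q : (Σ a : A, T a), List (U q.1) => p.1.2) := arg.comp base
    have b2 : CS (fun p : Σ q : (Σ a : A, T a), List (U q.1) => p.2) := arg
    exact append (CS.app (hf.comp b0) b1) b2
  refine (foldr h nil hl).congr fun a _ => ?_
  induction l a with
  | nil => rfl
  | cons x l ih => rw [List.foldr_cons, ih, List.flatMap_cons]

theorem filter {f : ∀ a, T a → Bool} {l : ∀ a, List (T a)} (hf : CS f)
    (hl : CS l) : CS (fun a => List.filter (f a) (l a)) := by
  have h : CS (fun a (x : T a) (y : List (T a)) => cond (f a x) (x :: y) y) := by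
    refine CS.lam (CS.lam ?_)
    have b0 : CS (fun p : Σ q : (Σ a : A, T a), List (T q.1) => p.1.1) := base.comp base
    have b1 : CS (fun p : Σ q : (Σ a : A, T a), List (T q.1) => p.1.2) := arg.comp base
    have b2 : CS (fun p : Σ q : (Σ a : A, T a), List (T q.1) => p.2) := arg
    exact CS.cond (CS.app (hf.comp b0) b1) (cons b1 b2) b2
  refine (foldr h nil hl).congr fun a _ => ?_
  induction l a with
  | nil => rfl
  | cons x l ih =>
    rw [List.foldr_cons, ih, List.filter_cons]
    cases f a x <;> rfl

theorem zipWith {f : ∀ a, T a → U a → V a} {l : ∀ a, List (T a)}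
    {l' : ∀ a, List (U a)} (hf : CS f) (hl : CS l) (hl' : CS l') :
    CS (fun a => List.zipWith (f a) (l a) (l' a)) := by
  have h : CS (fun a (x : T a × U a) => f a x.1 x.2) := by
    refine CS.lam ?_
    have b0 : CS (fun p : Σ a : A, T a × U a => p.1) := base
    have b1 : CS (fun p : Σ a : A, T a × U a => p.2) := arg
    exact CS.app (CS.app (hf.comp b0) b1.fst) b1.snd
  refine (map h (zip hl hl')).congr fun a _ => ?_
  rw [List.zip_eq_zipWith, List.map_zipWith]

theorem replicate {n : A → ℕ} {x : ∀ a, T a} (hn : CS n) (hx : CS x) :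
    CS (fun a => List.replicate (n a) (x a)) := by
  have h : CS (fun a (_ : ℕ) => x a) := CS.lam (hx.comp base)
  refine (map h (range hn)).congr fun a _ => ?_
  simp

theorem ofFn {n : A → ℕ} {f : ∀ a, Fin (n a) → T a} (hn : CS n)
    (hf : CS f) : CS (fun a => List.ofFn (f a)) :=
  (map hf (finRange hn)).congr fun _ _ => List.ofFn_eq_map.symm

theorem memList {x : ∀ a, T a} {l : ∀ a, List (T a)} (hE : Disc T)
    (hx : CS x) (hl : CS l) : CS (fun a => x a ∈ l a) := by
  have h : CS (fun a => ∃ y ∈ l a, x a = y) :=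
    CS.exMem hl (CS.eq (hE.comp base) (hx.comp base) arg)
  exact h.of_iff fun a _ => by simp

theorem notMemList {x : ∀ a, T a} {l : ∀ a, List (T a)} (hE : Haus T)
    (hx : CS x) (hl : CS l) : CS (fun a => ¬ x a ∈ l a) := by
  have h : CS (fun a => ∀ y ∈ l a, x a ≠ y) :=
    CS.allMem hl (CS.ne (hE.comp base) (hx.comp base) arg)
  exact h.of_iff fun a _ => ⟨fun k m => k _ m rfl, fun k y m e => k (e ▸ m)⟩

theorem forall₂ {P : ∀ a, T a → U a → Prop} {l : ∀ a, List (T a)}
    {l' : ∀ a, List (U a)} (hP : CS P) (hl : CS l) (hl' : CS l') :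
    CS (fun a => List.Forall₂ (P a) (l a) (l' a)) := by
  have b0 : CS (fun p : Σ a : A, T a × U a => p.1) := base
  have b1 : CS (fun p : Σ a : A, T a × U a => p.2) := arg
  have h : CS (fun a => (l a).length = (l' a).length ∧ ∀ y ∈ (l a).zip (l' a), P a y.1 y.2) :=
    CS.and (rel Primrec.eq (length hl) (length hl'))
      (CS.allMem (zip hl hl') (CS.app (CS.app (hP.comp b0) b1.fst) b1.snd))
  refine h.of_iff fun a _ => ?_
  rw [List.forall₂_iff_zip]
  exact and_congr Iff.rfl ⟨fun k _ _ m => k _ m, fun k _ m => k m⟩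

theorem nodup {l : ∀ a, List (T a)} (hE : Haus T) (hl : CS l) :
    CS (fun a => (l a).Nodup) := by
  have h : CS (fun a => ∀ i ∈ List.finRange (l a).length, ∀ j ∈ List.finRange (l a).length,
      i.1 = j.1 ∨ (l a).get i ≠ (l a).get j) := by
    refine CS.allMem (finRange (length hl)) (CS.allMem (finRange (length (hl.comp base))) ?_)
    have b0 : CS (fun p : Σ q : (Σ a : A, Fin (l a).length), Fin (l q.1).length => p.1.1) :=
      base.comp base
    have b1 : CS (fun p : Σ q : (Σ a : A, Fin (l a).length), Fin (l q.1).length => p.1.2) :=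
      arg.comp base
    have b2 : CS (fun p : Σ q : (Σ a : A, Fin (l a).length), Fin (l q.1).length => p.2) := arg
    exact CS.or (rel Primrec.eq (finVal b1) (finVal b2))
      (CS.ne (hE.comp b0) (get (hl.comp b0) b1) (get (hl.comp b0) b2))
  refine h.of_iff fun a _ => ?_
  rw [List.nodup_iff_injective_get]
  constructor
  · intro k i j e
    exact Fin.ext ((k i (List.mem_finRange i) j (List.mem_finRange j)).resolve_right
      (not_not.2 e))
  · intro k i _ j _
    by_cases e : (l a).get i = (l a).get j
    · exact Or.inl (congrArg Fin.val (k e))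
    · exact Or.inr e

theorem discList (h : Disc T) : Disc (fun a => List (T a)) := by
  have b0 : CS (fun p : Σ a : A, List (T a) × List (T a) => p.1) := base
  have e : CS (fun a (x y : T a) => x = y) :=
    CS.lam (CS.lam (CS.eq (h.comp (base.comp base)) (arg.comp base) arg))
  exact (forall₂ (e.comp b0) left right).of_iff fun _ _ => by rw [List.forall₂_eq_eq_eq]

theorem hausList (h : Haus T) : Haus (fun a => List (T a)) := by
  have b0 : CS (fun p : Σ a : A, List (T a) × List (T a) => p.1) := base
  have b1 : CS (fun p : Σ a : A, List (T a) × List (T a) => p.2.1) := left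
  have b2 : CS (fun p : Σ a : A, List (T a) × List (T a) => p.2.2) := right
  have k : CS (fun p : Σ a : A, List (T a) × List (T a) =>
      ¬ p.2.1.length = p.2.2.length ∨ ∃ y ∈ p.2.1.zip p.2.2, y.1 ≠ y.2) :=
    CS.or (rel Primrec.eq.not (length b1) (length b2))
      (CS.exMem (zip b1 b2) (CS.ne (h.comp (b0.comp base)) arg.fst arg.snd))
  refine k.of_iff fun p _ => ?_
  rw [ne_eq p.2.1, ← List.forall₂_eq_eq_eq, List.forall₂_iff_zip, not_and_or]
  refine or_congr Iff.rfl ⟨fun ⟨y, m, e⟩ k => e (k m), fun k => ?_⟩
  by_contra k'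
  exact k fun m => not_not.1 fun e => k' ⟨_, m, e⟩

/-- A predicate read as a set of admissible choices. -/
def toSel {β : Type} (S : β → Prop) : Sel β := S

theorem sel_list {α β : Type} [Rep β] {Q : α → β → Prop} {c : List ℕ} {l : List α}
    (h : List.Forall₂ Rep.R c (l.map fun x => toSel (Q x))) :
    ∃ l' : List β, List.Forall₂ Q l l' ∧ List.Forall₂ Rep.R c l' := by
  induction l generalizing c with
  | nil =>
    cases h
    exact ⟨[], List.Forall₂.nil, List.Forall₂.nil⟩
  | cons x l ih =>
    cases h with
    | cons h h' =>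
      obtain ⟨y, hy, hr⟩ := h
      obtain ⟨l', h1, h2⟩ := ih h'
      exact ⟨y :: l', List.Forall₂.cons hy h1, List.Forall₂.cons hr h2⟩

theorem mvList {Q : ∀ a, T a → U a → Prop} {l : ∀ a, List (T a)} (hl : CS l)
    (h : MV (fun (p : {p : Σ a, T a // p.2 ∈ l p.1}) (u : U p.1.1) => Q p.1.1 p.1.2 u)) :
    MV (fun a (l' : List (U a)) => List.Forall₂ (Q a) (l a) l') := by
  have g : CS (fun p : Σ a, {x // x ∈ l a} =>
      (⟨⟨p.1, p.2.1⟩, p.2.2⟩ : {p : Σ a, T a // p.2 ∈ l p.1})) :=
    code CS.id (F := fun c => c) Primrec.id fun _ _ h => h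
  have h' : CS (fun p : {p : Σ a, T a // p.2 ∈ l p.1} => toSel (Q p.1.1 p.1.2)) := h
  have f : CS (fun a (x : {x // x ∈ l a}) => toSel (Q a x.1)) := CS.lam (h'.comp g)
  have k := map f (attach hl)
  have r : CS (fun a => toSel fun l' : List (U a) => List.Forall₂ (Q a) (l a) l') := by
    refine code k (F := fun c => c) Primrec.id fun c a hc => ?_
    have e : ((l a).attach.map fun x => toSel (Q a x.1)) =
        (l a).map fun x => toSel (Q a x) := by simp
    have hc' : List.Forall₂ Rep.R (dec c) ((l a).map fun x => toSel (Q a x)) := by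
      rw [← e]; exact hc
    exact sel_list hc'
  exact r

end FListAux
end Pool.Agent.P.MP_257122_al
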