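import Pool.Agent.P.MP_257122_al.FProp
import Pool.Agent.P.MP_257122_al.FListB

/-!
# Natural numbers, booleans and lists

PLAN.  `CS.of_computable` with `Nat.pair` handles numeric functions; the list constructors and
`foldr` come from the primitive recursive structure of `Denumerable.ofNat (List ℕ)`
(`Primrec.ofNat`, `Primrec.list_cons`, `Computable.list_length`, recursion on the length with
`Partrec.nat_rec`).  Everything after `CS.foldr` is derived: rewrite the function as a `foldr`
or a `Nat.rec` (`CS.congr`) and apply the rules.
-/

namespace Pool.Agent.P.MP_257122_al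

variable {A : Type} [Rep A]

@[aesop safe 50 apply (transparency := reducible) (rule_sets := [Restrict])]
theorem AddF.nat : AddF (fun _ : A => ℕ) :=
  FListAux.bin Primrec.nat_add FListAux.left FListAux.right
@[aesop safe 50 apply (transparency := reducible) (rule_sets := [Restrict])]
theorem MulF.nat : MulF (fun _ : A => ℕ) :=
  FListAux.bin Primrec.nat_mul FListAux.left FListAux.right
@[aesop safe 50 apply (transparency := reducible) (rule_sets := [Restrict])]
theorem ZeroF.nat : ZeroF (fun _ : A => ℕ) :=
  FListAux.code₀ 0 fun _ => rfl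
@[aesop safe 50 apply (transparency := reducible) (rule_sets := [Restrict])]
theorem OneF.nat : OneF (fun _ : A => ℕ) :=
  FListAux.code₀ 1 fun _ => rfl
@[aesop safe 50 apply (transparency := reducible) (rule_sets := [Restrict])]
theorem Disc.nat : Disc (fun _ : A => ℕ) :=
  FListAux.rel Primrec.eq FListAux.left FListAux.right
@[aesop safe 50 apply (transparency := reducible) (rule_sets := [Restrict])]
theorem Haus.nat : Haus (fun _ : A => ℕ) :=
  FListAux.rel Primrec.eq.not FListAux.left FListAux.right
@[aesop safe 50 apply (transparency := reducible) (rule_sets := [Restrict])]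
theorem LeF.nat : LeF (fun _ : A => ℕ) :=
  FListAux.rel Primrec.nat_le FListAux.left FListAux.right
@[aesop safe 50 apply (transparency := reducible) (rule_sets := [Restrict])]
theorem LtF.nat : LtF (fun _ : A => ℕ) :=
  FListAux.rel Primrec.nat_lt FListAux.left FListAux.right
@[aesop safe 50 apply (transparency := reducible) (rule_sets := [Restrict])]
theorem Enum.nat : Enum (fun _ : A => ℕ) :=
  ⟨fun _ => True, (Primrec.eq.comp (Primrec.const 0) (Primrec.const 0)).computablePred.to_re.of_eq
    (fun _ => by simp), fun _ _ _ => ⟨fun d _ => ⟨d, rfl⟩, fun x => ⟨x, trivial, rfl⟩⟩⟩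
@[aesop safe 50 apply (transparency := reducible) (rule_sets := [Restrict])]
theorem Disc.bool : Disc (fun _ : A => Bool) :=
  FListAux.pred₂ FListAux.left FListAux.right Primrec.eq fun _ _ p h h' => by
    cases h; cases h'; cases p.2.1 <;> cases p.2.2 <;> simp
@[aesop safe 50 apply (transparency := reducible) (rule_sets := [Restrict])]
theorem Haus.bool : Haus (fun _ : A => Bool) :=
  FListAux.pred₂ FListAux.left FListAux.right Primrec.eq.not fun _ _ p h h' => by
    cases h; cases h'; cases p.2.1 <;> cases p.2.2 <;> simp
@[aesop safe 50 apply (transparency := reducible) (rule_sets := [Restrict])]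
theorem Disc.unit : Disc (fun _ : A => Unit) :=
  (CS.const (x := True)).of_iff fun _ _ => by simp
@[aesop safe 50 apply (transparency := reducible) (rule_sets := [Restrict])]
theorem Haus.unit : Haus (fun _ : A => Unit) :=
  (CS.const (x := False)).of_iff fun _ _ => by simp
@[aesop safe 50 apply (transparency := reducible) (rule_sets := [Restrict])]
theorem Disc.primes : Disc (fun _ : A => Nat.Primes) :=
  FListAux.pred₂ FListAux.left FListAux.right Primrec.eq fun _ _ _ h h' => by
    cases h; cases h'; exact Subtype.ext_iff.symm
@[aesop safe 50 apply (transparency := reducible) (rule_sets := [Restrict])]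
theorem Haus.primes : Haus (fun _ : A => Nat.Primes) :=
  FListAux.pred₂ FListAux.left FListAux.right Primrec.eq.not fun _ _ _ h h' => by
    cases h; cases h'; exact not_congr Subtype.ext_iff.symm
@[aesop safe 50 apply (transparency := reducible) (rule_sets := [Restrict])]
theorem Enum.primes : Enum (fun _ : A => Nat.Primes) :=
  ⟨fun q => q.2.Prime, (FListAux.primrec_prime.comp Primrec.snd).computablePred.to_re,
    fun _ _ _ => ⟨fun d h => ⟨⟨d, h⟩, rfl⟩, fun x => ⟨x.1, x.2, rfl⟩⟩⟩
@[aesop safe 50 apply (transparency := reducible) (rule_sets := [Restrict])]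
theorem Disc.fin {n : A → ℕ} : Disc (fun a => Fin (n a)) :=
  FListAux.pred₂ FListAux.left FListAux.right Primrec.eq fun _ _ _ h h' => by
    cases h; cases h'; exact Fin.ext_iff.symm
@[aesop safe 50 apply (transparency := reducible) (rule_sets := [Restrict])]
theorem Haus.fin {n : A → ℕ} : Haus (fun a => Fin (n a)) :=
  FListAux.pred₂ FListAux.left FListAux.right Primrec.eq.not fun _ _ _ h h' => by
    cases h; cases h'; exact not_congr Fin.ext_iff.symm
@[aesop safe 50 apply (transparency := reducible) (rule_sets := [Restrict])]
theorem LeF.fin {n : A → ℕ} : LeF (fun a => Fin (n a)) :=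
  FListAux.pred₂ FListAux.left FListAux.right Primrec.nat_le fun _ _ _ h h' => by
    cases h; cases h'; exact Iff.rfl
@[aesop safe 50 apply (transparency := reducible) (rule_sets := [Restrict])]
theorem LtF.fin {n : A → ℕ} : LtF (fun a => Fin (n a)) :=
  FListAux.pred₂ FListAux.left FListAux.right Primrec.nat_lt fun _ _ _ h h' => by
    cases h; cases h'; exact Iff.rfl

section nat
variable {m n : A → ℕ}
@[aesop safe 40 apply (transparency := reducible) (rule_sets := [Restrict])]
theorem CS.natSub (hm : CS m) (hn : CS n) : CS (fun a => m a - n a) :=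
  FListAux.bin Primrec.nat_sub hm hn
@[aesop safe 40 apply (transparency := reducible) (rule_sets := [Restrict])]
theorem CS.natDiv (hm : CS m) (hn : CS n) : CS (fun a => m a / n a) :=
  FListAux.bin Primrec.nat_div hm hn
@[aesop safe 50 apply (transparency := reducible) (rule_sets := [Restrict])]
theorem CS.natMod (hm : CS m) (hn : CS n) : CS (fun a => m a % n a) :=
  FListAux.bin Primrec.nat_mod hm hn
@[aesop safe 50 apply (transparency := reducible) (rule_sets := [Restrict])]
theorem CS.succ (hm : CS m) : CS (fun a => (m a).succ) :=
  CS.of_computable Computable.succ hm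
@[aesop safe 50 apply (transparency := reducible) (rule_sets := [Restrict])]
theorem CS.factorial (hm : CS m) : CS (fun a => (m a).factorial) :=
  CS.of_computable FListAux.primrec_factorial.to_comp hm
@[aesop safe 50 apply (transparency := reducible) (rule_sets := [Restrict])]
theorem CS.choose (hm : CS m) (hn : CS n) : CS (fun a => (m a).choose (n a)) :=
  FListAux.bin FListAux.primrec_choose hm hn
@[aesop safe 50 apply (transparency := reducible) (rule_sets := [Restrict])]
theorem CS.natMax (hm : CS m) (hn : CS n) : CS (fun a => max (m a) (n a)) :=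
  FListAux.bin Primrec.nat_max hm hn
@[aesop safe 50 apply (transparency := reducible) (rule_sets := [Restrict])]
theorem CS.natMin (hm : CS m) (hn : CS n) : CS (fun a => min (m a) (n a)) :=
  FListAux.bin Primrec.nat_min hm hn
@[aesop safe 50 apply (transparency := reducible) (rule_sets := [Restrict])]
theorem CS.natDvd (hm : CS m) (hn : CS n) : CS (fun a => m a ∣ n a) :=
  FListAux.rel FListAux.primrec_dvd hm hn
@[aesop safe 50 apply (transparency := reducible) (rule_sets := [Restrict])]
theorem CS.natNotDvd (hm : CS m) (hn : CS n) : CS (fun a => ¬ m a ∣ n a) :=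
  FListAux.rel FListAux.primrec_dvd.not hm hn
@[aesop safe 50 apply (transparency := reducible) (rule_sets := [Restrict])]
theorem CS.prime (hm : CS m) : CS (fun a => (m a).Prime) :=
  FListAux.pred hm FListAux.primrec_prime fun _ _ h => by cases h; rfl
@[aesop safe 50 apply (transparency := reducible) (rule_sets := [Restrict])]
theorem CS.notPrime (hm : CS m) : CS (fun a => ¬ (m a).Prime) :=
  FListAux.pred hm FListAux.primrec_prime.not fun _ _ h => by cases h; rfl
@[aesop safe 3 apply (transparency := reducible) (rule_sets := [Restrict])]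
theorem CS.finVal {i : ∀ a, Fin (n a)} (h : CS i) : CS (fun a => (i a).val) :=
  FListAux.finVal h
@[aesop safe 50 apply (transparency := reducible) (rule_sets := [Restrict])]
theorem CS.finMk {h : ∀ a, m a < n a} (hm : CS m) :
    CS (fun a => (⟨m a, h a⟩ : Fin (n a))) :=
  FListAux.finMk hm
@[aesop safe 50 apply (transparency := reducible) (rule_sets := [Restrict])]
theorem CS.finSucc {i : ∀ a, Fin (n a)} (h : CS i) :
    CS (fun a => (i a).succ) :=
  FListAux.code h Primrec.succ fun _ _ h => by cases h; rfl
@[aesop safe 50 apply (transparency := reducible) (rule_sets := [Restrict])]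
theorem CS.finCastSucc {i : ∀ a, Fin (n a)} (h : CS i) :
    CS (fun a => (i a).castSucc) :=
  FListAux.code h Primrec.id fun _ _ h => h
@[aesop safe 50 apply (transparency := reducible) (rule_sets := [Restrict])]
theorem CS.finZero : CS (fun a => (0 : Fin (n a + 1))) :=
  FListAux.code₀ 0 fun _ => rfl
@[aesop safe 3 apply (transparency := reducible) (rule_sets := [Restrict])]
theorem CS.primeVal {p : A → Nat.Primes} (h : CS p) : CS (fun a => (p a).1) :=
  FListAux.code h Primrec.id fun _ _ h => h
@[aesop safe 50 apply (transparency := reducible) (rule_sets := [Restrict])]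
theorem CS.primeMk {h : ∀ a, (m a).Prime} (hm : CS m) :
    CS (T := fun _ => Nat.Primes) (fun a => ⟨m a, h a⟩) :=
  FListAux.code hm Primrec.id fun _ _ h => h
@[aesop safe 50 apply (transparency := reducible) (rule_sets := [Restrict])]
theorem CS.bnot {b : A → Bool} (h : CS b) : CS (fun a => !(b a)) :=
  FListAux.code h (Primrec.nat_sub.comp (Primrec.const 1) Primrec.id) fun _ a h => by
    cases h; cases b a <;> rfl
end nat

section list
variable {T U V : A → Type} [∀ a, Rep (T a)] [∀ a, Rep (U a)] [∀ a, Rep (V a)]
@[aesop safe 50 apply (transparency := reducible) (rule_sets := [Restrict])]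
theorem CS.nil : CS (fun a => ([] : List (T a))) :=
  FListAux.nil
@[aesop safe 50 apply (transparency := reducible) (rule_sets := [Restrict])]
theorem CS.cons {x : ∀ a, T a} {l : ∀ a, List (T a)} (hx : CS x) (hl : CS l) :
    CS (fun a => x a :: l a) :=
  FListAux.cons hx hl
@[aesop safe 50 apply (transparency := reducible) (rule_sets := [Restrict])]
theorem CS.foldr {f : ∀ a, T a → U a → U a} {z : ∀ a, U a}
    {l : ∀ a, List (T a)} (hf : CS f) (hz : CS z) (hl : CS l) :
    CS (fun a => List.foldr (f a) (z a) (l a)) :=
  FListAux.foldr hf hz hl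
@[aesop safe 50 apply (transparency := reducible) (rule_sets := [Restrict])]
theorem CS.foldl {f : ∀ a, U a → T a → U a} {z : ∀ a, U a}
    {l : ∀ a, List (T a)} (hf : CS f) (hz : CS z) (hl : CS l) :
    CS (fun a => List.foldl (f a) (z a) (l a)) :=
  FListAux.foldl hf hz hl
@[aesop safe 50 apply (transparency := reducible) (rule_sets := [Restrict])]
theorem CS.map {f : ∀ a, T a → U a} {l : ∀ a, List (T a)} (hf : CS f)
    (hl : CS l) : CS (fun a => List.map (f a) (l a)) :=
  FListAux.map hf hl
@[aesop safe 50 apply (transparency := reducible) (rule_sets := [Restrict])]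
theorem CS.flatMap {f : ∀ a, T a → List (U a)} {l : ∀ a, List (T a)}
    (hf : CS f) (hl : CS l) : CS (fun a => List.flatMap (f a) (l a)) :=
  FListAux.flatMap hf hl
@[aesop safe 50 apply (transparency := reducible) (rule_sets := [Restrict])]
theorem CS.append {l l' : ∀ a, List (T a)} (hl : CS l) (hl' : CS l') :
    CS (fun a => l a ++ l' a) :=
  FListAux.append hl hl'
@[aesop safe 50 apply (transparency := reducible) (rule_sets := [Restrict])]
theorem CS.length {l : ∀ a, List (T a)} (hl : CS l) :
    CS (fun a => (l a).length) :=
  FListAux.length hl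
@[aesop safe 50 apply (transparency := reducible) (rule_sets := [Restrict])]
theorem CS.reverse {l : ∀ a, List (T a)} (hl : CS l) :
    CS (fun a => (l a).reverse) :=
  FListAux.reverse hl
@[aesop safe 50 apply (transparency := reducible) (rule_sets := [Restrict])]
theorem CS.tail {l : ∀ a, List (T a)} (hl : CS l) :
    CS (fun a => (l a).tail) :=
  FListAux.tail hl
@[aesop safe 50 apply (transparency := reducible) (rule_sets := [Restrict])]
theorem CS.getD {l : ∀ a, List (T a)} {n : A → ℕ} {z : ∀ a, T a} (hl : CS l)
    (hn : CS n) (hz : CS z) : CS (fun a => (l a).getD (n a) (z a)) :=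
  FListAux.getD hl hn hz
@[aesop safe 50 apply (transparency := reducible) (rule_sets := [Restrict])]
theorem CS.get {l : ∀ a, List (T a)} {i : ∀ a, Fin (l a).length} (hl : CS l)
    (hi : CS i) : CS (fun a => (l a).get (i a)) :=
  FListAux.get hl hi
@[aesop safe 50 apply (transparency := reducible) (rule_sets := [Restrict])]
theorem CS.zip {l : ∀ a, List (T a)} {l' : ∀ a, List (U a)} (hl : CS l)
    (hl' : CS l') : CS (fun a => (l a).zip (l' a)) :=
  FListAux.zip hl hl'
@[aesop safe 50 apply (transparency := reducible) (rule_sets := [Restrict])]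
theorem CS.zipWith {f : ∀ a, T a → U a → V a} {l : ∀ a, List (T a)}
    {l' : ∀ a, List (U a)} (hf : CS f) (hl : CS l) (hl' : CS l') :
    CS (fun a => List.zipWith (f a) (l a) (l' a)) :=
  FListAux.zipWith hf hl hl'
@[aesop safe 50 apply (transparency := reducible) (rule_sets := [Restrict])]
theorem CS.filter {f : ∀ a, T a → Bool} {l : ∀ a, List (T a)} (hf : CS f)
    (hl : CS l) : CS (fun a => List.filter (f a) (l a)) :=
  FListAux.filter hf hl
@[aesop safe 50 apply (transparency := reducible) (rule_sets := [Restrict])]
theorem CS.replicate {n : A → ℕ} {x : ∀ a, T a} (hn : CS n) (hx : CS x) :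
    CS (fun a => List.replicate (n a) (x a)) :=
  FListAux.replicate hn hx
@[aesop safe 50 apply (transparency := reducible) (rule_sets := [Restrict])]
theorem CS.range {n : A → ℕ} (hn : CS n) : CS (fun a => List.range (n a)) :=
  FListAux.range hn
@[aesop safe 50 apply (transparency := reducible) (rule_sets := [Restrict])]
theorem CS.finRange {n : A → ℕ} (hn : CS n) :
    CS (fun a => List.finRange (n a)) :=
  FListAux.finRange hn
@[aesop safe 50 apply (transparency := reducible) (rule_sets := [Restrict])]
theorem CS.ofFn {n : A → ℕ} {f : ∀ a, Fin (n a) → T a} (hn : CS n)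
    (hf : CS f) : CS (fun a => List.ofFn (f a)) :=
  FListAux.ofFn hn hf
@[aesop safe 50 apply (transparency := reducible) (rule_sets := [Restrict])]
theorem CS.attach {l : ∀ a, List (T a)} (hl : CS l) :
    CS (fun a => (l a).attach) :=
  FListAux.attach hl
@[aesop safe 50 apply (transparency := reducible) (rule_sets := [Restrict])]
theorem CS.memList {x : ∀ a, T a} {l : ∀ a, List (T a)} (hE : Disc T)
    (hx : CS x) (hl : CS l) : CS (fun a => x a ∈ l a) :=
  FListAux.memList hE hx hl
@[aesop safe 50 apply (transparency := reducible) (rule_sets := [Restrict])]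
theorem CS.notMemList {x : ∀ a, T a} {l : ∀ a, List (T a)} (hE : Haus T)
    (hx : CS x) (hl : CS l) : CS (fun a => ¬ x a ∈ l a) :=
  FListAux.notMemList hE hx hl
@[aesop safe 50 apply (transparency := reducible) (rule_sets := [Restrict])]
theorem CS.forall₂ {P : ∀ a, T a → U a → Prop} {l : ∀ a, List (T a)}
    {l' : ∀ a, List (U a)} (hP : CS P) (hl : CS l) (hl' : CS l') :
    CS (fun a => List.Forall₂ (P a) (l a) (l' a)) :=
  FListAux.forall₂ hP hl hl'
@[aesop safe 50 apply (transparency := reducible) (rule_sets := [Restrict])]
theorem CS.nodup {l : ∀ a, List (T a)} (hE : Haus T) (hl : CS l) :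
    CS (fun a => (l a).Nodup) :=
  FListAux.nodup hE hl
@[aesop safe 50 apply (transparency := reducible) (rule_sets := [Restrict])]
theorem Disc.list (h : Disc T) : Disc (fun a => List (T a)) :=
  FListAux.discList h
@[aesop safe 50 apply (transparency := reducible) (rule_sets := [Restrict])]
theorem Haus.list (h : Haus T) : Haus (fun a => List (T a)) :=
  FListAux.hausList h
/-- Choice along a list. -/
theorem MV.list {Q : ∀ a, T a → U a → Prop} {l : ∀ a, List (T a)} (hl : CS l)
    (h : MV (fun (p : {p : Σ a, T a // p.2 ∈ l p.1}) (u : U p.1.1) => Q p.1.1 p.1.2 u)) :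
    MV (fun a (l' : List (U a)) => List.Forall₂ (Q a) (l a) l') :=
  FListAux.mvList hl h
end list

end Pool.Agent.P.MP_257122_al
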