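import Pool.Agent.P.MP_257122_al.FProp

/-!
# Auxiliary lemmas for numbers and lists on codes
-/

namespace Pool.Agent.P.MP_257122_al
namespace FListAux

open Denumerable Encodable

variable {A : Type} [Rep A]

theorem code {T U : A → Type} [∀ a, Rep (T a)] [∀ a, Rep (U a)] {f : ∀ a, T a} {g : ∀ a, U a}
    (hf : CS f) {F : ℕ → ℕ} (hF : Primrec F)
    (h : ∀ c a, Rep.R c (f a) → Rep.R (F c) (g a)) : CS g := by
  obtain ⟨G, hG, hs⟩ := hf
  refine ⟨fun c => (G c).map F, hG.map (hF.to_comp.comp Computable.snd).to₂, fun c a hc => ?_⟩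
  obtain ⟨d, hd, hr⟩ := hs c a hc
  exact ⟨F d, Part.mem_map F hd, h d a hr⟩

theorem code₂ {T U V : A → Type} [∀ a, Rep (T a)] [∀ a, Rep (U a)] [∀ a, Rep (V a)]
    {f : ∀ a, T a} {g : ∀ a, U a} {k : ∀ a, V a}
    (hf : CS f) (hg : CS g) {F : ℕ → ℕ → ℕ} (hF : Primrec₂ F)
    (h : ∀ c d a, Rep.R c (f a) → Rep.R d (g a) → Rep.R (F c d) (k a)) : CS k :=
  code (hf.pair hg) (F := fun c => F c.unpair.1 c.unpair.2)
    (hF.comp (Primrec.fst.comp Primrec.unpair) (Primrec.snd.comp Primrec.unpair))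
    fun _ a hc => h _ _ a hc.1 hc.2

theorem code₀ {T : A → Type} [∀ a, Rep (T a)] {f : ∀ a, T a} (n : ℕ)
    (h : ∀ a, Rep.R n (f a)) : CS f :=
  ⟨fun _ => Part.some n, (Computable.const n).partrec, fun _ a _ => ⟨n, Part.mem_some n, h a⟩⟩

theorem pred {T : A → Type} [∀ a, Rep (T a)] {f : ∀ a, T a} (hf : CS f) {Q : ℕ → Prop}
    (hQ : PrimrecPred Q) {P : A → Prop} (h : ∀ c a, Rep.R c (f a) → (Q c ↔ P a)) : CS P := by
  obtain ⟨G, hG, hs⟩ := hf
  have hQ' : REPred Q := hQ.computablePred.to_re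
  refine cs_prop_iff.2 ⟨fun c => ((G c).bind
    (fun d => Part.assert (Q d) fun _ => Part.some ())).Dom, ?_, fun c a hc => ?_⟩
  · exact Partrec.dom_re (hG.bind (Partrec.comp hQ' Computable.snd).to₂)
  · obtain ⟨d, hd, hr⟩ := hs c a hc
    have e : G c = Part.some d := Part.eq_some_iff.2 hd
    rw [← h d a hr]
    change ((G c).bind fun d => Part.assert (Q d) fun _ => Part.some ()).Dom ↔ Q d
    rw [e, Part.bind_some]
    exact ⟨fun h => h.1, fun h => ⟨h, trivial⟩⟩

theorem pred₂ {T U : A → Type} [∀ a, Rep (T a)] [∀ a, Rep (U a)] {f : ∀ a, T a} {g : ∀ a, U a}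
    (hf : CS f) (hg : CS g) {Q : ℕ → ℕ → Prop} (hQ : PrimrecRel Q) {P : A → Prop}
    (h : ∀ c d a, Rep.R c (f a) → Rep.R d (g a) → (Q c d ↔ P a)) : CS P :=
  pred (hf.pair hg) (Q := fun c => Q c.unpair.1 c.unpair.2)
    (hQ.comp (Primrec.fst.comp Primrec.unpair) (Primrec.snd.comp Primrec.unpair))
    fun _ a hc => h _ _ a hc.1 hc.2

theorem left {T : A → Type} [∀ a, Rep (T a)] : CS (fun p : Σ a, T a × T a => p.2.1) :=
  code CS.id (F := fun c => c.unpair.2.unpair.1)
    (Primrec.fst.comp (Primrec.unpair.comp (Primrec.snd.comp Primrec.unpair))) fun _ _ h => h.2.1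

theorem right {T : A → Type} [∀ a, Rep (T a)] : CS (fun p : Σ a, T a × T a => p.2.2) :=
  code CS.id (F := fun c => c.unpair.2.unpair.2)
    (Primrec.snd.comp (Primrec.unpair.comp (Primrec.snd.comp Primrec.unpair))) fun _ _ h => h.2.2

theorem base {T : A → Type} [∀ a, Rep (T a)] : CS (fun p : Σ a, T a => p.1) :=
  code CS.id (F := fun c => c.unpair.1) (Primrec.fst.comp Primrec.unpair) fun _ _ h => h.1

theorem arg {T : A → Type} [∀ a, Rep (T a)] : CS (fun p : Σ a, T a => p.2) :=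
  code CS.id (F := fun c => c.unpair.2) (Primrec.snd.comp Primrec.unpair) fun _ _ h => h.2

theorem bin {F : ℕ → ℕ → ℕ} (hF : Primrec₂ F) {m n : A → ℕ} (hm : CS m) (hn : CS n) :
    CS (fun a => F (m a) (n a)) :=
  code₂ hm hn hF fun _ _ _ h h' => by cases h; cases h'; rfl

theorem rel {Q : ℕ → ℕ → Prop} (hQ : PrimrecRel Q) {m n : A → ℕ} (hm : CS m) (hn : CS n) :
    CS (fun a => Q (m a) (n a)) :=
  pred₂ hm hn hQ fun _ _ _ h h' => by cases h; cases h'; rfl

theorem primrec_factorial : Primrec Nat.factorial := by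
  have h : Primrec (Nat.rec 1 (fun n x => (n + 1) * x) : ℕ → ℕ) :=
    Primrec.nat_rec₁ 1 (Primrec.nat_mul.comp (Primrec.succ.comp Primrec.fst) Primrec.snd).to₂
  refine h.of_eq fun n => ?_
  induction n with
  | zero => rfl
  | succ n ih => simp only [Nat.factorial_succ, ← ih]

theorem primrec_descFactorial : Primrec₂ Nat.descFactorial := by
  have h : Primrec₂ (fun (n k : ℕ) =>
      (Nat.rec 1 (fun k x => (fun (n : ℕ) (p : ℕ × ℕ) => (n - p.1) * p.2) n (k, x)) k : ℕ)) :=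
    Primrec.nat_rec (Primrec.const 1) (Primrec.nat_mul.comp
      (Primrec.nat_sub.comp Primrec.fst (Primrec.fst.comp Primrec.snd))
      (Primrec.snd.comp Primrec.snd)).to₂
  refine h.of_eq fun n k => ?_
  induction k with
  | zero => rfl
  | succ k ih => simp only [Nat.descFactorial_succ, ← ih]

theorem primrec_choose : Primrec₂ Nat.choose :=
  (Primrec.nat_div.comp₂ primrec_descFactorial
    (primrec_factorial.comp₂ Primrec₂.right)).of_eq fun n k =>
      (Nat.choose_eq_descFactorial_div_factorial n k).symm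

theorem primrec_dvd : PrimrecRel (fun m n : ℕ => m ∣ n) :=
  (Primrec.eq.comp (Primrec.nat_mod.comp Primrec.snd Primrec.fst) (Primrec.const 0)).of_eq
    fun _ => Nat.dvd_iff_mod_eq_zero.symm

theorem primrec_prime : PrimrecPred Nat.Prime := by
  have h1 : PrimrecRel (fun m n : ℕ => ¬ m ∣ n ∨ m = 1) :=
    PrimrecPred.or (PrimrecPred.not primrec_dvd) (Primrec.eq.comp Primrec.fst (Primrec.const 1))
  have h2 : PrimrecPred (fun n : ℕ => 2 ≤ n ∧ ∀ m < n, ¬ m ∣ n ∨ m = 1) :=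
    PrimrecPred.and (Primrec.nat_le.comp (Primrec.const 2) Primrec.id)
      (h1.forall_lt.comp Primrec.id Primrec.id)
  refine h2.of_eq fun n => ?_
  simp only [Nat.prime_def_lt, imp_iff_not_or]

/-- Decoding of list codes. -/
abbrev dec (c : ℕ) : List ℕ := ofNat (List ℕ) c

theorem primrec_dec : Primrec dec := Primrec.ofNat (List ℕ)

theorem rep_enc {α : Type} [Rep α] {l : List ℕ} {x : List α} :
    Rep.R (encode l) x ↔ List.Forall₂ Rep.R l x := by
  change List.Forall₂ Rep.R (ofNat (List ℕ) (encode l)) x ↔ _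
  rw [ofNat_encode]

theorem lcode {T U : A → Type} [∀ a, Rep (T a)] [∀ a, Rep (U a)] {f : ∀ a, T a}
    {g : ∀ a, List (U a)} (hf : CS f) {F : ℕ → List ℕ} (hF : Primrec F)
    (h : ∀ c a, Rep.R c (f a) → List.Forall₂ Rep.R (F c) (g a)) : CS g :=
  code hf (F := fun c => encode (F c)) (Primrec.encode.comp hF) fun c a hc => rep_enc.2 (h c a hc)

theorem lcode₂ {T U V : A → Type} [∀ a, Rep (T a)] [∀ a, Rep (U a)] [∀ a, Rep (V a)]
    {f : ∀ a, T a} {g : ∀ a, U a} {k : ∀ a, List (V a)}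
    (hf : CS f) (hg : CS g) {F : ℕ → ℕ → List ℕ} (hF : Primrec₂ F)
    (h : ∀ c d a, Rep.R c (f a) → Rep.R d (g a) → List.Forall₂ Rep.R (F c d) (k a)) : CS k :=
  code₂ hf hg (F := fun c d => encode (F c d)) (Primrec.encode.comp₂ hF)
    fun c d a hc hd => rep_enc.2 (h c d a hc hd)

end FListAux
end Pool.Agent.P.MP_257122_al
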