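import Pool.Agent.P.MP_257122_al.FEnum

/-!
# Algebraic operations, integers, rationals, functions, matrices, units

PLAN.  The rules `CS.add` and so on are `CS.comp` of the family property along
`fun a => ⟨a, f a, g a⟩`.  Powers, casts, sums: `CS.natRec`, `CS.foldr`; a sum over
`Finset.univ` is the sum over the list given by `CFin` (`MV.elim`, `Finset.sum_toList` or
`List.sum_toFinset`).  Integers and rationals: `MV.ofMap`, `CS.toMap` and the rules for `ℕ`.
-/

namespace Pool.Agent.P.MP_257122_al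

open scoped commutatorElement

variable {A : Type} [Rep A]

namespace FOpsAux

theorem s1 {β : A → Type} [∀ a, Rep (β a)] : CS (fun p : Σ a, β a => p.1) :=
  CS.sfst (α := fun _ => A) (β := fun _ a => β a) CS.id

theorem s2 {β : A → Type} [i : ∀ a, Rep (β a)] : CS (fun p : Σ a, β a => p.2) :=
  CS.ssnd (α := fun _ => A) (β := fun _ a => β a) (j := fun p => i p.1) CS.id

theorem v1 {β : A → Type} [∀ a, Rep (β a)] {Q : (Σ a, β a) → Prop} :
    CS (fun p : Subtype Q => p.1.1) := s1.comp (CS.val CS.id)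

theorem v2 {β : A → Type} [∀ a, Rep (β a)] {Q : (Σ a, β a) → Prop} :
    CS (fun p : Subtype Q => p.1.2) := s2.comp (CS.val CS.id)

theorem mk2 {T U : A → Type} [∀ a, Rep (T a)] [∀ a, Rep (U a)] {f : ∀ a, T a} {g : ∀ a, U a}
    (hf : CS f) (hg : CS g) : CS (fun a => (⟨a, f a, g a⟩ : Σ a, T a × U a)) :=
  CS.smk0 CS.id (hf.pair hg)

theorem cur2 {T U V : A → Type} [∀ a, Rep (T a)] [∀ a, Rep (U a)] [∀ a, Rep (V a)]
    {F : ∀ a, T a → U a → V a} (h : CS (fun p : Σ a, T a × U a => F p.1 p.2.1 p.2.2)) : CS F :=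
  CS.lam (CS.lam (h.comp (g := fun q : Σ p : (Σ a, T a), U p.1 => ⟨q.1.1, q.1.2, q.2⟩)
    (CS.smk0 (s1.comp s1) ((s2.comp s1).pair s2))))

variable {T : A → Type} [∀ a, Rep (T a)]

theorem lsum [∀ a, AddMonoid (T a)] {l : ∀ a, List (T a)} (h : AddF T) (h0 : ZeroF T) (hl : CS l) :
    CS (fun a => (l a).sum) :=
  (CS.foldr (f := fun _ x y => x + y) (cur2 h) h0 hl).congr fun _ _ => List.sum_eq_foldr.symm

theorem lprod [∀ a, Monoid (T a)] {l : ∀ a, List (T a)} (h : MulF T) (h0 : OneF T) (hl : CS l) :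
    CS (fun a => (l a).prod) :=
  (CS.foldr (f := fun _ x y => x * y) (cur2 h) h0 hl).congr fun _ _ => List.prod_eq_foldr.symm

theorem nsm [∀ a, AddMonoid (T a)] {n : A → ℕ} {f : ∀ a, T a} (h : AddF T) (h0 : ZeroF T)
    (hn : CS n) (hf : CS f) : CS (fun a => n a • f a) :=
  (lsum h h0 (CS.replicate hn hf)).congr fun _ _ => List.sum_replicate _ _

theorem pos {z : A → ℤ} (h : CS z) : CS (fun a => (z a).toNat) :=
  (MV.ofMap (U := fun _ => ℕ × ℕ) (fun _ p => (p.1 : ℤ) - p.2) h).elim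
    ((CS.natSub v2.fst v2.snd).congr fun p _ => by have := p.2; omega)

theorem neg {z : A → ℤ} (h : CS z) : CS (fun a => (-z a).toNat) :=
  (MV.ofMap (U := fun _ => ℕ × ℕ) (fun _ p => (p.1 : ℤ) - p.2) h).elim
    ((CS.natSub v2.snd v2.fst).congr fun p _ => by have := p.2; omega)

theorem mkI {m n : A → ℕ} (hm : CS m) (hn : CS n) : CS (fun a => (m a : ℤ) - n a) :=
  CS.toMap (U := fun _ => ℕ × ℕ) (fun _ p => (p.1 : ℤ) - p.2) (hm.pair hn)

theorem nadd {m n : A → ℕ} (hm : CS m) (hn : CS n) : CS (fun a => m a + n a) :=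
  CS.comp AddF.nat (mk2 hm hn)

theorem nmul {m n : A → ℕ} (hm : CS m) (hn : CS n) : CS (fun a => m a * n a) :=
  CS.comp MulF.nat (mk2 hm hn)

theorem ofN {m : A → ℕ} (hm : CS m) : CS (fun a => (m a : ℤ)) :=
  (mkI hm (CS.const (x := 0))).congr fun _ _ => by simp

theorem mkQ {z : A → ℤ} {m : A → ℕ} (hz : CS z) (hm : CS m) :
    CS (fun a => (z a : ℚ) / (((m a - 1 : ℕ) : ℚ) + 1)) :=
  CS.toMap (U := fun _ => ℤ × ℕ) (fun _ p => (p.1 : ℚ) / ((p.2 : ℚ) + 1))
    (hz.pair (CS.natSub hm CS.const))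

theorem mkQ' {z : A → ℤ} {m : A → ℕ} (hz : CS z) (hm : CS m) (h0 : ∀ a, m a ≠ 0) :
    CS (fun a => (z a : ℚ) / m a) :=
  (mkQ hz hm).congr fun a _ => by rw [Nat.cast_pred (Nat.pos_of_ne_zero (h0 a)), sub_add_cancel]

theorem gcd {m n : A → ℕ} (hm : CS m) (hn : CS n) : CS (fun a => (m a + 1).gcd (n a)) := by
  have h1 : CS fun a => m a + 1 := nadd hm CS.const
  refine MV.to_cs (MV.search (Q' := fun a g => g ∣ m a + 1 ∧ g ∣ n a ∧
    ∀ y ≤ m a + 1, ¬ y ∣ m a + 1 ∨ ¬ y ∣ n a ∨ y ∣ g) Enum.nat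
    ((CS.natDvd s2 (h1.comp s1)).and ((CS.natDvd s2 (hn.comp s1)).and (CS.allLe (h1.comp s1)
      ((CS.natNotDvd s2 (h1.comp (s1.comp s1))).or ((CS.natNotDvd s2 (hn.comp (s1.comp s1))).or
        (CS.natDvd s2 (s2.comp s1))))))) (fun a g h => ?_) fun a _ => ⟨_, Nat.gcd_dvd_left _ _,
          Nat.gcd_dvd_right _ _, fun y _ => ?_⟩)
  · refine Nat.dvd_antisymm (Nat.dvd_gcd h.1 h.2.1) ?_
    have := h.2.2 _ (Nat.gcd_le_left (n a) (Nat.succ_pos _))
    simpa [Nat.gcd_dvd_left, Nat.gcd_dvd_right] using this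
  · rw [Nat.dvd_gcd_iff]; tauto

theorem nabs {z : A → ℤ} (h : CS z) : CS (fun a => (z a).natAbs) :=
  (nadd (pos h) (neg h)).congr fun _ _ => by omega

theorem iE (x y : ℤ) : (x.toNat = y.toNat ∧ (-x).toNat = (-y).toNat) ↔ x = y := by omega

theorem iN (x y : ℤ) : (x.toNat ≠ y.toNat ∨ (-x).toNat ≠ (-y).toNat) ↔ x ≠ y := by omega

theorem iLe (x y : ℤ) : x.toNat + (-y).toNat ≤ y.toNat + (-x).toNat ↔ x ≤ y := by omega

theorem iLt (x y : ℤ) : x.toNat + (-y).toNat < y.toNat + (-x).toNat ↔ x < y := by omega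

theorem qE (x y : ℚ) : (x.num = y.num ∧ x.den = y.den) ↔ x = y :=
  ⟨fun h => Rat.ext h.1 h.2, fun h => h ▸ ⟨rfl, rfl⟩⟩

theorem eq_mk (z : ℤ) (d : ℕ) : (z : ℚ) / ((d : ℚ) + 1) = mkRat z (d + 1) := by
  rw [Rat.mkRat_eq_div]; push_cast; rfl

theorem den {q : A → ℚ} (h : CS q) : CS (fun a => (q a).den) :=
  (MV.ofMap (U := fun _ => ℤ × ℕ) (fun _ p => (p.1 : ℚ) / ((p.2 : ℚ) + 1)) h).elim
    ((CS.natDiv (nadd v2.snd (CS.const (x := 1))) (gcd v2.snd (nabs v2.fst))).congr fun p _ => by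
      rw [← p.2, eq_mk, Rat.den_mkRat, if_neg (Nat.succ_ne_zero _)])

theorem num {q : A → ℚ} (h : CS q) : CS (fun a => (q a).num) :=
  (MV.ofMap (U := fun _ => ℤ × ℕ) (fun _ p => (p.1 : ℚ) / ((p.2 : ℚ) + 1)) h).elim
    ((mkI (CS.natDiv (pos v2.fst) (gcd v2.snd (nabs v2.fst)))
      (CS.natDiv (neg v2.fst) (gcd v2.snd (nabs v2.fst)))).congr fun p _ => by
      rw [← p.2, eq_mk, Rat.num_mkRat, if_neg (Nat.succ_ne_zero _)]
      have hd : (((p.1.2.2 + 1).gcd p.1.2.1.natAbs : ℕ) : ℤ) ∣ p.1.2.1 :=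
        Int.natCast_dvd.2 (Nat.gcd_dvd_right _ _)
      rcases le_total 0 p.1.2.1 with h0 | h0
      · rw [Int.toNat_eq_zero.2 (neg_nonpos.2 h0), Int.natCast_div, Int.toNat_of_nonneg h0]; simp
      · rw [Int.toNat_eq_zero.2 h0, Int.natCast_div (-p.1.2.1).toNat,
          Int.toNat_of_nonneg (neg_nonneg.2 h0), Int.neg_ediv_of_dvd hd]; simp)

end FOpsAux

open FOpsAux

section generic
variable {T : A → Type} [∀ a, Rep (T a)] {f g : ∀ a, T a}
@[aesop safe 50 apply (transparency := reducible) (rule_sets := [Restrict])]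
theorem CS.zero [∀ a, Zero (T a)] (h : ZeroF T) : CS (fun a => (0 : T a)) := h
@[aesop safe 50 apply (transparency := reducible) (rule_sets := [Restrict])]
theorem CS.one [∀ a, One (T a)] (h : OneF T) : CS (fun a => (1 : T a)) := h
@[aesop safe 50 apply (transparency := reducible) (rule_sets := [Restrict])]
theorem CS.add [∀ a, Add (T a)] (h : AddF T) (hf : CS f) (hg : CS g) :
    CS (fun a => f a + g a) := CS.comp h (mk2 hf hg)
@[aesop safe 50 apply (transparency := reducible) (rule_sets := [Restrict])]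
theorem CS.mul [∀ a, Mul (T a)] (h : MulF T) (hf : CS f) (hg : CS g) :
    CS (fun a => f a * g a) := CS.comp h (mk2 hf hg)
@[aesop safe 50 apply (transparency := reducible) (rule_sets := [Restrict])]
theorem CS.neg [∀ a, Neg (T a)] (h : NegF T) (hf : CS f) :
    CS (fun a => - f a) := CS.comp h (CS.smk0 CS.id hf)
@[aesop safe 50 apply (transparency := reducible) (rule_sets := [Restrict])]
theorem CS.inv [∀ a, Inv (T a)] (h : InvF T) (hf : CS f) :
    CS (fun a => (f a)⁻¹) := CS.comp h (CS.smk0 CS.id hf)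
@[aesop safe 50 apply (transparency := reducible) (rule_sets := [Restrict])]
theorem CS.sub [∀ a, SubNegMonoid (T a)] (h : AddF T) (h' : NegF T)
    (hf : CS f) (hg : CS g) : CS (fun a => f a - g a) :=
  (CS.add h hf (CS.neg h' hg)).congr fun _ _ => (sub_eq_add_neg _ _).symm
@[aesop safe 50 apply (transparency := reducible) (rule_sets := [Restrict])]
theorem CS.div [∀ a, DivInvMonoid (T a)] (h : MulF T) (h' : InvF T)
    (hf : CS f) (hg : CS g) : CS (fun a => f a / g a) :=
  (CS.mul h hf (CS.inv h' hg)).congr fun _ _ => (div_eq_mul_inv _ _).symm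
@[aesop safe 50 apply (transparency := reducible) (rule_sets := [Restrict])]
theorem CS.pow [∀ a, Monoid (T a)] {n : A → ℕ} (h : MulF T) (h' : OneF T)
    (hf : CS f) (hn : CS n) : CS (fun a => f a ^ n a) :=
  (lprod h h' (CS.replicate hn hf)).congr fun _ _ => List.prod_replicate _ _
@[aesop safe 50 apply (transparency := reducible) (rule_sets := [Restrict])]
theorem CS.zpow [∀ a, DivInvMonoid (T a)] {n : A → ℤ} (h : MulF T)
    (h' : OneF T) (h'' : InvF T) (hf : CS f) (hn : CS n) : CS (fun a => f a ^ n a) :=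
  (CS.ite (CS.eq Disc.nat (FOpsAux.neg hn) (CS.const (x := 0)))
    (CS.notEq Haus.nat (FOpsAux.neg hn) CS.const) (CS.pow h h' hf (pos hn))
    (CS.inv h'' (CS.pow h h' hf (FOpsAux.neg hn)))).congr fun a _ => by
      rcases n a with m | m <;> simp
@[aesop safe 50 apply (transparency := reducible) (rule_sets := [Restrict])]
theorem CS.smul {M : A → Type} [∀ a, Rep (M a)] [∀ a, SMul (M a) (T a)]
    {m : ∀ a, M a} (h : SMulF M T) (hm : CS m) (hf : CS f) : CS (fun a => m a • f a) :=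
  CS.comp h (mk2 hm hf)
@[aesop safe 50 apply (transparency := reducible) (rule_sets := [Restrict])]
theorem CS.commutator [∀ a, Group (T a)] (h : MulF T) (h' : InvF T)
    (hf : CS f) (hg : CS g) : CS (fun a => ⁅f a, g a⁆) :=
  CS.mul h (CS.mul h (CS.mul h hf hg) (CS.inv h' hf)) (CS.inv h' hg)
@[aesop safe 50 apply (transparency := reducible) (rule_sets := [Restrict])]
theorem CS.natCast [∀ a, AddMonoidWithOne (T a)] {n : A → ℕ} (h : AddF T)
    (h0 : ZeroF T) (h1 : OneF T) (hn : CS n) : CS (fun a => ((n a : ℕ) : T a)) :=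
  (nsm h h0 hn h1).congr fun _ _ => nsmul_one _
@[aesop safe 50 apply (transparency := reducible) (rule_sets := [Restrict])]
theorem CS.ofNat [∀ a, AddMonoidWithOne (T a)] {n : ℕ} [n.AtLeastTwo]
    (h : AddF T) (h0 : ZeroF T) (h1 : OneF T) : CS (fun a => (OfNat.ofNat n : T a)) :=
  CS.natCast (n := fun _ => n) h h0 h1 CS.const
@[aesop safe 50 apply (transparency := reducible) (rule_sets := [Restrict])]
theorem CS.intCast [∀ a, AddGroupWithOne (T a)] {n : A → ℤ} (h : AddF T)
    (h0 : ZeroF T) (h1 : OneF T) (h2 : NegF T) (hn : CS n) :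
    CS (fun a => ((n a : ℤ) : T a)) :=
  (CS.sub h h2 (CS.natCast h h0 h1 (pos hn)) (CS.natCast h h0 h1 (FOpsAux.neg hn))).congr
    fun a _ => by
      rw [← Int.cast_natCast, ← Int.cast_natCast (-n a).toNat, ← Int.cast_sub,
        Int.toNat_sub_toNat_neg]
@[aesop safe 50 apply (transparency := reducible) (rule_sets := [Restrict])]
theorem CS.algebraMap [∀ a, Semiring (T a)] [∀ a, Algebra ℚ (T a)] {q : A → ℚ}
    (h : RatF T) (hq : CS q) : CS (fun a => algebraMap ℚ (T a) (q a)) :=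
  CS.comp h (CS.smk0 (β := fun _ => ℚ) CS.id hq)
@[aesop safe 50 apply (transparency := reducible) (rule_sets := [Restrict])]
theorem CS.ratCast [∀ a, DivisionRing (T a)] [∀ a, CharZero (T a)] {q : A → ℚ}
    (h : RatF T) (hq : CS q) : CS (fun a => ((q a : ℚ) : T a)) :=
  (CS.algebraMap h hq).congr fun _ _ => eq_ratCast _ _
@[aesop safe 50 apply (transparency := reducible) (rule_sets := [Restrict])]
theorem CS.listSum [∀ a, AddMonoid (T a)] {l : ∀ a, List (T a)} (h : AddF T)
    (h0 : ZeroF T) (hl : CS l) : CS (fun a => (l a).sum) := lsum h h0 hl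
@[aesop safe 50 apply (transparency := reducible) (rule_sets := [Restrict])]
theorem CS.listProd [∀ a, Monoid (T a)] {l : ∀ a, List (T a)} (h : MulF T)
    (h0 : OneF T) (hl : CS l) : CS (fun a => (l a).prod) := lprod h h0 hl
@[aesop safe 50 apply (transparency := reducible) (rule_sets := [Restrict])]
theorem CS.sum [∀ a, AddCommMonoid (T a)] {ι : A → Type} [∀ a, Rep (ι a)]
    [∀ a, Fintype (ι a)] {s : ∀ a, ι a → T a} (hι : CFin ι) (h : AddF T) (h0 : ZeroF T)
    (hs : CS (fun p : Σ a, ι a => s p.1 p.2)) : CS (fun a => ∑ i, s a i) :=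
  MV.elim hι ((lsum (h.comp v1) (h0.comp v1) (CS.map ((CS.lam hs).comp v1) v2)).congr
    fun p _ => by
      classical
      rw [← List.sum_toFinset _ p.2.1, Finset.eq_univ_of_forall (s := p.1.2.toFinset)
        fun x => List.mem_toFinset.2 (p.2.2 x)])
@[aesop safe 50 apply (transparency := reducible) (rule_sets := [Restrict])]
theorem CS.prod [∀ a, CommMonoid (T a)] {ι : A → Type} [∀ a, Rep (ι a)]
    [∀ a, Fintype (ι a)] {s : ∀ a, ι a → T a} (hι : CFin ι) (h : MulF T) (h0 : OneF T)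
    (hs : CS (fun p : Σ a, ι a => s p.1 p.2)) : CS (fun a => ∏ i, s a i) :=
  MV.elim hι ((lprod (h.comp v1) (h0.comp v1) (CS.map ((CS.lam hs).comp v1) v2)).congr
    fun p _ => by
      classical
      rw [← List.prod_toFinset _ p.2.1, Finset.eq_univ_of_forall (s := p.1.2.toFinset)
        fun x => List.mem_toFinset.2 (p.2.2 x)])
@[aesop safe 50 apply (transparency := reducible) (rule_sets := [Restrict])]
theorem CS.sumRange [∀ a, AddCommMonoid (T a)] {n : A → ℕ}
    {s : ∀ a, ℕ → T a} (hn : CS n) (h : AddF T) (h0 : ZeroF T)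
    (hs : CS (fun p : Σ _ : A, ℕ => s p.1 p.2)) :
    CS (fun a => ∑ i ∈ Finset.range (n a), s a i) :=
  (lsum h h0 (CS.map (CS.lam hs) (CS.range hn))).congr fun _ _ => by
    simp [Finset.sum, Finset.range, Multiset.range]
@[aesop safe 50 apply (transparency := reducible) (rule_sets := [Restrict])]
theorem CS.prodRange [∀ a, CommMonoid (T a)] {n : A → ℕ}
    {s : ∀ a, ℕ → T a} (hn : CS n) (h : MulF T) (h0 : OneF T)
    (hs : CS (fun p : Σ _ : A, ℕ => s p.1 p.2)) :
    CS (fun a => ∏ i ∈ Finset.range (n a), s a i) :=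
  (lprod h h0 (CS.map (CS.lam hs) (CS.range hn))).congr fun _ _ => by
    simp [Finset.prod, Finset.range, Multiset.range]
@[aesop safe 50 apply (transparency := reducible) (rule_sets := [Restrict])]
theorem CS.card {ι : A → Type} [∀ a, Rep (ι a)] [∀ a, Fintype (ι a)]
    (hι : CFin ι) : CS (fun a => Fintype.card (ι a)) :=
  MV.elim hι ((CS.length v2).congr fun p _ => by
    classical
    rw [← List.toFinset_card_of_nodup p.2.1, Finset.eq_univ_of_forall (s := p.1.2.toFinset)
      fun x => List.mem_toFinset.2 (p.2.2 x), Finset.card_univ])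
@[aesop safe 56 apply (transparency := reducible) (rule_sets := [Restrict])]
theorem SMulF.nat [∀ a, AddMonoid (T a)] (h : AddF T) (h0 : ZeroF T) :
    SMulF (fun _ => ℕ) T := nsm (h.comp s1) (h0.comp s1) s2.fst s2.snd
@[aesop safe 56 apply (transparency := reducible) (rule_sets := [Restrict])]
theorem SMulF.int [∀ a, SubNegMonoid (T a)] (h : AddF T) (h0 : ZeroF T) (h1 : NegF T) :
    SMulF (fun _ => ℤ) T :=
  (CS.ite (CS.eq Disc.nat (FOpsAux.neg s2.fst) (CS.const (x := 0)))
    (CS.notEq Haus.nat (FOpsAux.neg s2.fst) CS.const)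
    (nsm (h.comp s1) (h0.comp s1) (pos s2.fst) s2.snd)
    (CS.neg (h1.comp s1) (nsm (h.comp s1) (h0.comp s1) (FOpsAux.neg s2.fst) s2.snd))).congr
    fun p _ => by rcases p.2.1 with m | m <;> simp
@[aesop safe 57 apply (transparency := reducible) (rule_sets := [Restrict])]
theorem SMulF.self [∀ a, Mul (T a)] (h : MulF T) : SMulF T T := h
@[aesop safe 58 apply (transparency := reducible) (rule_sets := [Restrict])]
theorem SMulF.rat [∀ a, Semiring (T a)] [∀ a, Algebra ℚ (T a)] (h : MulF T) (h' : RatF T) :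
    SMulF (fun _ => ℚ) T :=
  (CS.mul (h.comp s1) (CS.algebraMap (h'.comp s1) s2.fst) s2.snd).congr
    fun _ _ => (Algebra.smul_def _ _).symm
end generic

@[aesop safe 50 apply (transparency := reducible) (rule_sets := [Restrict])]
theorem AddF.int : AddF (fun _ : A => ℤ) :=
  (mkI (nadd (pos s2.fst) (pos s2.snd)) (nadd (FOpsAux.neg s2.fst) (FOpsAux.neg s2.snd))).congr
    fun _ _ => by omega
@[aesop safe 50 apply (transparency := reducible) (rule_sets := [Restrict])]
theorem MulF.int : MulF (fun _ : A => ℤ) :=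
  (mkI (nadd (nmul (pos s2.fst) (pos s2.snd)) (nmul (FOpsAux.neg s2.fst) (FOpsAux.neg s2.snd)))
    (nadd (nmul (pos s2.fst) (FOpsAux.neg s2.snd)) (nmul (FOpsAux.neg s2.fst) (pos s2.snd)))).congr
    fun p _ => by
      conv_rhs => rw [← Int.toNat_sub_toNat_neg p.2.1, ← Int.toNat_sub_toNat_neg p.2.2]
      simp only [Nat.cast_add, Nat.cast_mul]
      ring
@[aesop safe 50 apply (transparency := reducible) (rule_sets := [Restrict])]
theorem NegF.int : NegF (fun _ : A => ℤ) :=
  (mkI (FOpsAux.neg s2) (pos s2)).congr fun _ _ => by omega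
@[aesop safe 50 apply (transparency := reducible) (rule_sets := [Restrict])]
theorem ZeroF.int : ZeroF (fun _ : A => ℤ) := CS.const
@[aesop safe 50 apply (transparency := reducible) (rule_sets := [Restrict])]
theorem OneF.int : OneF (fun _ : A => ℤ) := CS.const
@[aesop safe 50 apply (transparency := reducible) (rule_sets := [Restrict])]
theorem Disc.int : Disc (fun _ : A => ℤ) :=
  ((CS.eq Disc.nat (pos s2.fst) (pos s2.snd)).and
    (CS.eq Disc.nat (FOpsAux.neg s2.fst) (FOpsAux.neg s2.snd))).of_iff fun _ _ => iE _ _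
@[aesop safe 50 apply (transparency := reducible) (rule_sets := [Restrict])]
theorem Haus.int : Haus (fun _ : A => ℤ) :=
  ((CS.ne Haus.nat (pos s2.fst) (pos s2.snd)).or
    (CS.ne Haus.nat (FOpsAux.neg s2.fst) (FOpsAux.neg s2.snd))).of_iff fun _ _ => iN _ _
@[aesop safe 50 apply (transparency := reducible) (rule_sets := [Restrict])]
theorem LeF.int : LeF (fun _ : A => ℤ) :=
  (CS.le LeF.nat (nadd (pos s2.fst) (FOpsAux.neg s2.snd))
    (nadd (pos s2.snd) (FOpsAux.neg s2.fst))).of_iff fun _ _ => iLe _ _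
@[aesop safe 50 apply (transparency := reducible) (rule_sets := [Restrict])]
theorem LtF.int : LtF (fun _ : A => ℤ) :=
  (CS.lt LtF.nat (nadd (pos s2.fst) (FOpsAux.neg s2.snd))
    (nadd (pos s2.snd) (FOpsAux.neg s2.fst))).of_iff fun _ _ => iLt _ _
@[aesop safe 50 apply (transparency := reducible) (rule_sets := [Restrict])]
theorem Enum.int : Enum (fun _ : A => ℤ) :=
  Enum.ofMap (U := fun _ => ℕ × ℕ) (fun _ p => (p.1 : ℤ) - p.2) (Enum.nat.prod Enum.nat)
    fun _ z => ⟨(z.toNat, (-z).toNat), Int.toNat_sub_toNat_neg z⟩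
@[aesop safe 50 apply (transparency := reducible) (rule_sets := [Restrict])]
theorem CS.natAbs {z : A → ℤ} (h : CS z) : CS (fun a => (z a).natAbs) := nabs h
@[aesop safe 50 apply (transparency := reducible) (rule_sets := [Restrict])]
theorem CS.toNat {z : A → ℤ} (h : CS z) : CS (fun a => (z a).toNat) := pos h
@[aesop safe 50 apply (transparency := reducible) (rule_sets := [Restrict])]
theorem CS.intAbs {z : A → ℤ} (h : CS z) : CS (fun a => |z a|) :=
  (ofN (nabs h)).congr fun _ _ => Int.natCast_natAbs _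
@[aesop safe 50 apply (transparency := reducible) (rule_sets := [Restrict])]
theorem CS.intDvd {y z : A → ℤ} (h : CS y) (h' : CS z) :
    CS (fun a => y a ∣ z a) :=
  (CS.natDvd (nabs h) (nabs h')).of_iff fun _ _ => Int.natAbs_dvd_natAbs
@[aesop safe 50 apply (transparency := reducible) (rule_sets := [Restrict])]
theorem CS.intNotDvd {y z : A → ℤ} (h : CS y) (h' : CS z) :
    CS (fun a => ¬ y a ∣ z a) :=
  (CS.natNotDvd (nabs h) (nabs h')).of_iff fun _ _ => Int.natAbs_dvd_natAbs.not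
@[aesop safe 50 apply (transparency := reducible) (rule_sets := [Restrict])]
theorem AddF.rat : AddF (fun _ : A => ℚ) :=
  (mkQ' (CS.add AddF.int (CS.mul MulF.int (num s2.fst) (ofN (den s2.snd)))
    (CS.mul MulF.int (num s2.snd) (ofN (den s2.fst)))) (nmul (den s2.fst) (den s2.snd))
    fun _ => mul_ne_zero (Rat.den_ne_zero _) (Rat.den_ne_zero _)).congr fun p _ => by
      conv_rhs => rw [← Rat.num_div_den p.2.1, ← Rat.num_div_den p.2.2]
      push_cast
      field_simp
@[aesop safe 50 apply (transparency := reducible) (rule_sets := [Restrict])]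
theorem MulF.rat : MulF (fun _ : A => ℚ) :=
  (mkQ' (CS.mul MulF.int (num s2.fst) (num s2.snd)) (nmul (den s2.fst) (den s2.snd))
    fun _ => mul_ne_zero (Rat.den_ne_zero _) (Rat.den_ne_zero _)).congr fun p _ => by
      conv_rhs => rw [← Rat.num_div_den p.2.1, ← Rat.num_div_den p.2.2]
      push_cast
      field_simp
@[aesop safe 50 apply (transparency := reducible) (rule_sets := [Restrict])]
theorem NegF.rat : NegF (fun _ : A => ℚ) :=
  (mkQ' (CS.neg NegF.int (num s2)) (den s2) fun _ => Rat.den_ne_zero _).congr fun p _ => by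
    rw [Int.cast_neg, neg_div, Rat.num_div_den]
@[aesop safe 50 apply (transparency := reducible) (rule_sets := [Restrict])]
theorem InvF.rat : InvF (fun _ : A => ℚ) :=
  (mkQ (CS.mul MulF.int (num s2) (ofN (den s2))) (nmul (nabs (num s2)) (nabs (num s2)))).congr
    fun p _ => by
      rcases eq_or_ne p.2 0 with h | h
      · simp [h]
      · have h1 : p.2.num ≠ 0 := Rat.num_ne_zero.2 h
        have h2 : (p.2.num : ℚ) ≠ 0 := Int.cast_ne_zero.2 h1
        rw [Nat.cast_pred (Nat.mul_pos (Int.natAbs_pos.2 h1) (Int.natAbs_pos.2 h1)), sub_add_cancel,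
          ← Int.cast_natCast (p.2.num.natAbs * _), Int.natAbs_mul_self]
        conv_rhs => rw [← Rat.num_div_den p.2]
        push_cast
        field_simp
@[aesop safe 50 apply (transparency := reducible) (rule_sets := [Restrict])]
theorem ZeroF.rat : ZeroF (fun _ : A => ℚ) := CS.const
@[aesop safe 50 apply (transparency := reducible) (rule_sets := [Restrict])]
theorem OneF.rat : OneF (fun _ : A => ℚ) := CS.const
@[aesop safe 50 apply (transparency := reducible) (rule_sets := [Restrict])]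
theorem RatF.rat : RatF (fun _ : A => ℚ) := s2.congr fun _ _ => by simp
@[aesop safe 50 apply (transparency := reducible) (rule_sets := [Restrict])]
theorem Disc.rat : Disc (fun _ : A => ℚ) :=
  ((CS.eq Disc.int (num s2.fst) (num s2.snd)).and
    (CS.eq Disc.nat (den s2.fst) (den s2.snd))).of_iff fun _ _ => qE _ _
@[aesop safe 50 apply (transparency := reducible) (rule_sets := [Restrict])]
theorem Haus.rat : Haus (fun _ : A => ℚ) :=
  ((CS.notEq Haus.int (num s2.fst) (num s2.snd)).or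
    (CS.notEq Haus.nat (den s2.fst) (den s2.snd))).of_iff fun _ _ =>
      not_and_or.symm.trans (qE _ _).not
@[aesop safe 50 apply (transparency := reducible) (rule_sets := [Restrict])]
theorem LeF.rat : LeF (fun _ : A => ℚ) :=
  (CS.le LeF.int (CS.mul MulF.int (num s2.fst) (ofN (den s2.snd)))
    (CS.mul MulF.int (num s2.snd) (ofN (den s2.fst)))).of_iff fun _ _ => (Rat.le_iff _ _).symm
@[aesop safe 50 apply (transparency := reducible) (rule_sets := [Restrict])]
theorem LtF.rat : LtF (fun _ : A => ℚ) :=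
  (CS.lt LtF.int (CS.mul MulF.int (num s2.fst) (ofN (den s2.snd)))
    (CS.mul MulF.int (num s2.snd) (ofN (den s2.fst)))).of_iff fun _ _ => (Rat.lt_iff _ _).symm
@[aesop safe 50 apply (transparency := reducible) (rule_sets := [Restrict])]
theorem Enum.rat : Enum (fun _ : A => ℚ) :=
  Enum.ofMap (U := fun _ => ℤ × ℕ) (fun _ p => (p.1 : ℚ) / ((p.2 : ℚ) + 1))
    (Enum.int.prod Enum.nat) fun _ q => ⟨(q.num, q.den - 1), by
      simp only [Nat.cast_pred q.den_pos, sub_add_cancel, Rat.num_div_den]⟩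
@[aesop safe 50 apply (transparency := reducible) (rule_sets := [Restrict])]
theorem CS.ratAbs {q : A → ℚ} (h : CS q) : CS (fun a => |q a|) :=
  (CS.ite (CS.le LeF.rat (CS.const (x := 0)) h) (CS.notLe LtF.rat CS.const h) h
    (CS.neg NegF.rat h)).congr fun a _ => by
      split_ifs with h0
      exacts [(abs_of_nonneg h0).symm, (abs_of_neg (not_le.1 h0)).symm]
@[aesop safe 50 apply (transparency := reducible) (rule_sets := [Restrict])]
theorem CS.den {q : A → ℚ} (h : CS q) : CS (fun a => (q a).den) := FOpsAux.den h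
@[aesop safe 50 apply (transparency := reducible) (rule_sets := [Restrict])]
theorem CS.num {q : A → ℚ} (h : CS q) : CS (fun a => (q a).num) := FOpsAux.num h

theorem FOpsAux.box {ι : A → Type} [∀ a, Rep (ι a)] {B : A → ℕ} (hι : CFin ι) (hd : Disc ι)
    (hB : CS B) :
    MV (fun a (L : List (ι a → ℤ)) => ∀ t, t ∈ L ↔ ∀ i, (t i).natAbs ≤ B a) := by
  have F : CS (fun a (f : ι a → Fin (B a + B a + 1)) (i : ι a) => ((f i).val : ℤ) - B a) :=
    CS.lam (CS.lam (mkI (CS.finVal (CS.app (s2.comp s1) s2)) (hB.comp (s1.comp s1))))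
  refine MV.bind (hι.pi hd (CFin.fin (nadd (nadd hB hB) (CS.const (x := 1)))))
    (MV.of_cs (CS.map (F.comp v1) v2) fun p _ t => ?_)
  rw [List.mem_map]
  constructor
  · rintro ⟨f, -, rfl⟩ i
    have := (f i).2
    simp only
    omega
  · intro h
    refine ⟨fun i => ⟨(t i + B p.1.1).toNat, by have := h i; omega⟩, p.2.2 _, funext fun i => ?_⟩
    have := h i
    simp only
    omega

/-- Bounded quantifier over integer vectors in a box. -/
theorem CS.allBox {ι : A → Type} [∀ a, Rep (ι a)] {B : A → ℕ} {P : ∀ a, (ι a → ℤ) → Prop}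
    (hι : CFin ι) (hd : Disc ι) (hB : CS B) (h : CS (fun p : Σ a, (ι a → ℤ) => P p.1 p.2)) :
    CS (fun a => ∀ t : ι a → ℤ, (∀ i, (t i).natAbs ≤ B a) → P a t) :=
  (FOpsAux.box hι hd hB).elimP (P' := fun a L => ∀ t ∈ L, P a t)
    (CS.allMem s2 (h.comp (g := fun q : Σ p : (Σ a, List (ι a → ℤ)), (ι p.1 → ℤ) => ⟨q.1.1, q.2⟩)
      (CS.smk0 (s1.comp s1) s2))) fun _ _ _ _ e => forall_congr' fun t => by rw [e]

theorem MV.box {ι : A → Type} [∀ a, Rep (ι a)] {B : A → ℕ} (hι : CFin ι) (hd : Disc ι)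
    (hB : CS B) :
    MV (fun a (L : List (ι a → ℤ)) => ∀ t, t ∈ L ↔ ∀ i, (t i).natAbs ≤ B a) :=
  FOpsAux.box hι hd hB

end Pool.Agent.P.MP_257122_al
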