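import Pool.Agent.P.MP_257122_al.FPropA

/-!
# Rules for predicates and for the family properties

PLAN.  Use `cs_prop_iff` and the rules of `FCore`.  Quantifiers over lists of codes: an r.e.
predicate holds on all members of a list of codes iff it holds on all of them within `k` steps
for some `k`.  `CS.imp`: `P → Q` is `¬ P ∨ Q`; in `CS.impD` the semi-decision of `Q` is sound
whenever `P` holds and harmless otherwise.  The `comp` lemmas are `CS.comp` along
`fun p => ⟨g p.1, p.2⟩`.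
-/

namespace Pool.Agent.P.MP_257122_al

open FPropAux

variable {A : Type} [Rep A]

instance : Tot ℕ := ⟨fun n => ⟨n, rfl⟩⟩
instance : Tot Unit := ⟨fun _ => ⟨0, trivial⟩⟩
instance : Tot Bool := ⟨fun b => ⟨b.toNat, rfl⟩⟩
instance : Tot Prop := ⟨fun p => by
  by_cases h : p
  · refine ⟨Encodable.encode Nat.Partrec.Code.zero, ?_⟩
    change (ev _ 0).Dom ↔ p
    rw [ev, Denumerable.ofNat_encode]
    exact iff_of_true trivial h
  · obtain ⟨c, hc⟩ := Nat.Partrec.Code.exists_code.1 Nat.Partrec.none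
    refine ⟨Encodable.encode c, ?_⟩
    change (ev _ 0).Dom ↔ p
    rw [ev, Denumerable.ofNat_encode, hc]
    exact iff_of_false id h⟩
instance : Tot ℤ := ⟨fun x => ⟨Nat.pair x.toNat (-x).toNat, (x.toNat, (-x).toNat),
  ⟨by simp [Rep.R], by simp [Rep.R]⟩, Int.toNat_sub_toNat_neg x⟩⟩
instance : Tot ℚ := ⟨fun x => by
  obtain ⟨c, hc⟩ := Tot.tot x.num
  refine ⟨Nat.pair c (x.den - 1), (x.num, x.den - 1), ⟨by simpa using hc, by simp [Rep.R]⟩, ?_⟩
  have h : ((x.den - 1 : ℕ) : ℚ) + 1 = x.den := by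
    exact_mod_cast Nat.sub_add_cancel x.pos
  simp only [h]
  exact Rat.num_div_den x⟩
instance : Tot Nat.Primes := ⟨fun p => ⟨p.1, rfl⟩⟩
instance {n : ℕ} : Tot (Fin n) := ⟨fun i => ⟨i.1, rfl⟩⟩
instance {α β : Type} [Rep α] [Rep β] [Tot α] [Tot β] : Tot (α × β) := ⟨fun p => by
  obtain ⟨c, hc⟩ := Tot.tot p.1
  obtain ⟨d, hd⟩ := Tot.tot p.2
  exact ⟨Nat.pair c d, by simpa using hc, by simpa using hd⟩⟩
instance {α β : Type} [Rep α] [Rep β] [Tot α] [Tot β] : Tot (α ⊕ β) := ⟨fun s => by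
  rcases s with x | x
  · obtain ⟨c, hc⟩ := Tot.tot x
    exact ⟨Nat.pair 0 c, by simp, by simpa using hc⟩
  · obtain ⟨c, hc⟩ := Tot.tot x
    exact ⟨Nat.pair 1 c, by simp, by simpa using hc⟩⟩
instance {α : Type} {β : α → Type} [Rep α] [∀ a, Rep (β a)] [Tot α] [∀ a, Tot (β a)] :
    Tot (Σ a, β a) := ⟨fun p => by
  obtain ⟨c, hc⟩ := Tot.tot p.1
  obtain ⟨d, hd⟩ := Tot.tot p.2
  exact ⟨Nat.pair c d, by simpa using hc, by simpa using hd⟩⟩
instance {α : Type} {p : α → Prop} [Rep α] [Tot α] : Tot (Subtype p) := ⟨fun x => Tot.tot x.1⟩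
instance {α : Type} [Rep α] [Tot α] : Tot (List α) := ⟨fun l => by
  obtain ⟨m, hm⟩ := f2_exists (R := (Rep.R : ℕ → α → Prop)) l fun x _ => Tot.tot x
  refine ⟨Encodable.encode m, ?_⟩
  change List.Forall₂ _ _ _
  rwa [Denumerable.ofNat_encode]⟩
instance {ι : Type} [Rep ι] [Tot ι] : Tot (FreeGroup ι) := ⟨fun x => by
  obtain ⟨l, rfl⟩ : ∃ l, FreeGroup.mk l = x := Quot.exists_rep x
  obtain ⟨c, hc⟩ := Tot.tot l
  exact ⟨c, l, hc, rfl⟩⟩

theorem coded_prod {α β : Type} [Rep α] [Rep β] {p : α × β} :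
    Coded p ↔ Coded p.1 ∧ Coded p.2 := ⟨fun ⟨_, h⟩ => ⟨⟨_, h.1⟩, _, h.2⟩,
  fun ⟨⟨c, hc⟩, d, hd⟩ => ⟨Nat.pair c d, by simpa using hc, by simpa using hd⟩⟩
theorem coded_sigma {α : Type} {β : α → Type} [Rep α] [∀ a, Rep (β a)] {p : Σ a, β a} :
    Coded p ↔ Coded p.1 ∧ Coded p.2 := ⟨fun ⟨_, h⟩ => ⟨⟨_, h.1⟩, _, h.2⟩,
  fun ⟨⟨c, hc⟩, d, hd⟩ => ⟨Nat.pair c d, by simpa using hc, by simpa using hd⟩⟩
theorem coded_subtype {α : Type} {p : α → Prop} [Rep α] {x : Subtype p} :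
    Coded x ↔ Coded x.1 :=
  Iff.rfl
theorem coded_list {α : Type} [Rep α] {l : List α} : Coded l ↔ ∀ x ∈ l, Coded x := by
  refine ⟨fun ⟨c, hc⟩ x hx => ?_, fun h => ?_⟩
  · obtain ⟨d, -, hd⟩ := f2_right hc x hx
    exact ⟨d, hd⟩
  · obtain ⟨m, hm⟩ := f2_exists (R := (Rep.R : ℕ → α → Prop)) l h
    refine ⟨Encodable.encode m, ?_⟩
    change List.Forall₂ _ _ _
    rwa [Denumerable.ofNat_encode]
theorem coded_units {M : Type} [Monoid M] [Rep M] {u : Mˣ} :
    Coded u ↔ Coded u.val ∧ Coded u.inv :=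
  coded_prod (p := (u.val, u.inv))
theorem Coded.app {ι : Type} {T : ι → Type} [Rep ι] [∀ i, Rep (T i)] {f : ∀ i, T i}
    (hf : Coded f) {i : ι} (hi : Coded i) : Coded (f i) := by
  obtain ⟨c, hc⟩ := hf
  obtain ⟨d, hd⟩ := hi
  obtain ⟨e, -, he⟩ := hc d i hd
  exact ⟨e, he⟩

private theorem allMemD' {T : A → Type} [∀ a, Rep (T a)] {P : ∀ a, T a → Prop}
    {l : ∀ a, List (T a)} (hl : CS l)
    (h : CS (fun p : {p : Σ a, T a // p.2 ∈ l p.1} => P p.1.1 p.1.2)) :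
    CS (fun a => ∀ x ∈ l a, P a x) := by
  obtain ⟨q, hq, eq⟩ := cs_prop_iff.1 h
  have key : CS (fun p : {p : Σ a, List (T a) // p.2 = l p.1} => ∀ x ∈ l p.1.1, P p.1.1 x) := by
    refine cs_prop_iff.2 ⟨_, re_all (re_pair' hq) ((Primrec.ofNat (List ℕ)).comp
      (Primrec.snd.comp Primrec.unpair)), ?_⟩
    rintro c ⟨⟨a, m⟩, hm⟩ ⟨r1, r2⟩
    have hm' : m = l a := hm
    subst hm'
    constructor
    · intro k x hx
      obtain ⟨d, hd, e⟩ := f2_right r2 x hx
      exact (eq _ ⟨⟨a, x⟩, hx⟩ ⟨by simpa using r1, by simpa using e⟩).1 (k d hd)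
    · intro k d hd
      obtain ⟨x, hx, e⟩ := f2_left r2 d hd
      exact (eq _ ⟨⟨a, x⟩, hx⟩ ⟨by simpa using r1, by simpa using e⟩).2 (k x hx)
  exact key.comp (graph hl)

@[aesop safe 50 apply (transparency := reducible) (rule_sets := [Restrict])]
theorem CS.and {P Q : A → Prop} (h : CS P) (h' : CS Q) : CS (fun a => P a ∧ Q a) := by
  obtain ⟨p, hp, ep⟩ := cs_prop_iff.1 h
  obtain ⟨q, hq, eq⟩ := cs_prop_iff.1 h'
  exact cs_prop_iff.2 ⟨_, re_and hp hq, fun c a r => and_congr (ep c a r) (eq c a r)⟩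
@[aesop safe 50 apply (transparency := reducible) (rule_sets := [Restrict])]
theorem CS.or {P Q : A → Prop} (h : CS P) (h' : CS Q) : CS (fun a => P a ∨ Q a) := by
  obtain ⟨p, hp, ep⟩ := cs_prop_iff.1 h
  obtain ⟨q, hq, eq⟩ := cs_prop_iff.1 h'
  exact cs_prop_iff.2 ⟨_, re_or hp hq, fun c a r => or_congr (ep c a r) (eq c a r)⟩
@[aesop safe 53 apply (transparency := reducible) (rule_sets := [Restrict])]
theorem CS.imp {P Q : A → Prop} (h : CS (fun a => ¬ P a)) (h' : CS Q) :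
    CS (fun a => P a → Q a) :=
  (h.or h').of_iff fun _ _ => imp_iff_not_or.symm
@[aesop safe 54 apply (transparency := reducible) (rule_sets := [Restrict])]
theorem CS.impD {P : A → Prop} {Q : ∀ a, P a → Prop} (h : CS (fun a => ¬ P a))
    (h' : CS (fun p : {a // P a} => Q p.1 p.2)) : CS (fun a => ∀ h : P a, Q a h) := by
  obtain ⟨p, hp, ep⟩ := cs_prop_iff.1 h
  obtain ⟨q, hq, eq⟩ := cs_prop_iff.1 h'
  refine cs_prop_iff.2 ⟨_, re_or hp hq, fun c a r => ⟨fun k ha => ?_, fun k => ?_⟩⟩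
  · rcases k with k | k
    · exact absurd ha ((ep c a r).1 k)
    · exact (eq c ⟨a, ha⟩ r).1 k
  · by_cases ha : P a
    · exact Or.inr ((eq c ⟨a, ha⟩ r).2 (k ha))
    · exact Or.inl ((ep c a r).2 ha)
@[aesop safe 50 apply (transparency := reducible) (rule_sets := [Restrict])]
theorem CS.iff {P Q : A → Prop} (h : CS P) (h' : CS Q) (k : CS (fun a => ¬ P a))
    (k' : CS (fun a => ¬ Q a)) : CS (fun a => P a ↔ Q a) :=
  ((k.imp h').and (k'.imp h)).of_iff fun _ _ => iff_iff_implies_and_implies.symm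
@[aesop safe 52 apply (transparency := reducible) (rule_sets := [Restrict])]
theorem CS.ex {T : A → Type} [∀ a, Rep (T a)] {P : ∀ a, T a → Prop} (hE : Enum T)
    (h : CS (fun p : Σ a, T a => P p.1 p.2)) : CS (fun a => ∃ x, P a x) := by
  obtain ⟨E, hE, eE⟩ := hE
  obtain ⟨q, hq, eq⟩ := cs_prop_iff.1 h
  refine cs_prop_iff.2 ⟨_, re_ex (re_and hE (re_pair hq)), fun c a r => ⟨?_, ?_⟩⟩
  · rintro ⟨d, h1, h2⟩
    obtain ⟨x, hx⟩ := (eE c a r).1 d h1
    exact ⟨x, (eq _ ⟨a, x⟩ ⟨by simpa using r, by simpa using hx⟩).1 h2⟩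
  · rintro ⟨x, hx⟩
    obtain ⟨d, h1, h2⟩ := (eE c a r).2 x
    exact ⟨d, h1, (eq _ ⟨a, x⟩ ⟨by simpa using r, by simpa using h2⟩).2 hx⟩
@[aesop safe 40 apply (transparency := reducible) (rule_sets := [Restrict])]
theorem CS.exC {T : A → Type} [∀ a, Rep (T a)] {P : ∀ a, T a → Prop} (hE : EnumC T)
    (h : CS (fun p : Σ a, T a => P p.1 p.2)) : CS (fun a => ∃ x, Coded x ∧ P a x) := by
  obtain ⟨E, hE, eE⟩ := hE
  obtain ⟨q, hq, eq⟩ := cs_prop_iff.1 h
  refine cs_prop_iff.2 ⟨_, re_ex (re_and hE (re_pair hq)), fun c a r => ⟨?_, ?_⟩⟩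
  · rintro ⟨d, h1, h2⟩
    obtain ⟨x, hx⟩ := (eE c a r).1 d h1
    exact ⟨x, ⟨d, hx⟩, (eq _ ⟨a, x⟩ ⟨by simpa using r, by simpa using hx⟩).1 h2⟩
  · rintro ⟨x, hc, hx⟩
    obtain ⟨d, h1, h2⟩ := (eE c a r).2 x hc
    exact ⟨d, h1, (eq _ ⟨a, x⟩ ⟨by simpa using r, by simpa using h2⟩).2 hx⟩
@[aesop safe 41 apply (transparency := reducible) (rule_sets := [Restrict])]
theorem CS.exD {P : A → Prop} {Q : ∀ a, P a → Prop} (h : CS P)
    (h' : CS (fun p : {a // P a} => Q p.1 p.2)) : CS (fun a => ∃ h : P a, Q a h) := by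
  obtain ⟨p, hp, ep⟩ := cs_prop_iff.1 h
  obtain ⟨q, hq, eq⟩ := cs_prop_iff.1 h'
  refine cs_prop_iff.2 ⟨_, re_and hp hq, fun c a r => ⟨fun ⟨h1, h2⟩ => ?_, fun ⟨ha, k⟩ => ?_⟩⟩
  · exact ⟨(ep c a r).1 h1, (eq c ⟨a, (ep c a r).1 h1⟩ r).1 h2⟩
  · exact ⟨(ep c a r).2 ha, (eq c ⟨a, ha⟩ r).2 k⟩
@[aesop safe 52 apply (transparency := reducible) (rule_sets := [Restrict])]
theorem CS.all {T : A → Type} [∀ a, Rep (T a)] {P : ∀ a, T a → Prop} (hE : CFin T)
    (h : CS (fun p : Σ a, T a => P p.1 p.2)) : CS (fun a => ∀ x, P a x) :=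
  MV.elimP hE (P' := fun a l => ∀ x ∈ l, P a x)
    (allMemD' (T := fun p : Σ a, List (T a) => T p.1) (P := fun p x => P p.1 x) s2
      ((h.comp (base (T := T) (s1 (T := fun a => List (T a))))).comp (CS.val CS.id)))
    fun _ _ _ _ hl => ⟨fun k x => k x (hl.2 x), fun k x _ => k x⟩
@[aesop safe 40 apply (transparency := reducible) (rule_sets := [Restrict])]
theorem CS.allMem {T : A → Type} [∀ a, Rep (T a)] {P : ∀ a, T a → Prop} {l : ∀ a, List (T a)}
    (hl : CS l) (h : CS (fun p : Σ a, T a => P p.1 p.2)) :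
    CS (fun a => ∀ x ∈ l a, P a x) :=
  allMemD' hl (h.comp (CS.val CS.id))
@[aesop safe 40 apply (transparency := reducible) (rule_sets := [Restrict])]
theorem CS.exMem {T : A → Type} [∀ a, Rep (T a)] {P : ∀ a, T a → Prop} {l : ∀ a, List (T a)}
    (hl : CS l) (h : CS (fun p : Σ a, T a => P p.1 p.2)) :
    CS (fun a => ∃ x ∈ l a, P a x) := by
  obtain ⟨q, hq, eq⟩ := cs_prop_iff.1 h
  have key : CS (fun p : {p : Σ a, List (T a) // p.2 = l p.1} => ∃ x ∈ l p.1.1, P p.1.1 x) := by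
    refine cs_prop_iff.2 ⟨_, re_exMem (re_pair' hq) ((Primrec.ofNat (List ℕ)).comp
      (Primrec.snd.comp Primrec.unpair)), ?_⟩
    rintro c ⟨⟨a, m⟩, hm⟩ ⟨r1, r2⟩
    have hm' : m = l a := hm
    subst hm'
    constructor
    · rintro ⟨d, hd, k⟩
      obtain ⟨x, hx, e⟩ := f2_left r2 d hd
      exact ⟨x, hx, (eq _ ⟨a, x⟩ ⟨by simpa using r1, by simpa using e⟩).1 k⟩
    · rintro ⟨x, hx, k⟩
      obtain ⟨d, hd, e⟩ := f2_right r2 x hx
      exact ⟨d, hd, (eq _ ⟨a, x⟩ ⟨by simpa using r1, by simpa using e⟩).2 k⟩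
  exact key.comp (graph hl)
/-- Bounded quantifier whose body is only known to be r.e. on members of the list. -/
theorem CS.allMemD {T : A → Type} [∀ a, Rep (T a)] {P : ∀ a, T a → Prop} {l : ∀ a, List (T a)}
    (hl : CS l) (h : CS (fun p : {p : Σ a, T a // p.2 ∈ l p.1} => P p.1.1 p.1.2)) :
    CS (fun a => ∀ x ∈ l a, P a x) :=
  allMemD' hl h
@[aesop safe 40 apply (transparency := reducible) (rule_sets := [Restrict])]
theorem CS.allLt {P : A → ℕ → Prop} {n : A → ℕ} (hn : CS n)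
    (h : CS (fun p : Σ _ : A, ℕ => P p.1 p.2)) : CS (fun a => ∀ x < n a, P a x) := by
  obtain ⟨q, hq, eq⟩ := cs_prop_iff.1 h
  have key : CS (fun p : Σ _ : A, ℕ => ∀ x < p.2, P p.1 x) := by
    refine cs_prop_iff.2 ⟨_, re_all (re_pair' hq) (Primrec.list_range.comp
      (Primrec.snd.comp Primrec.unpair)), ?_⟩
    rintro c ⟨a, m⟩ ⟨r1, r2⟩
    have r3 : c.unpair.2 = m := r2
    simp only [List.mem_range, r3]
    exact forall₂_congr fun x _ => eq _ ⟨a, x⟩ ⟨by simpa using r1, by simp [Rep.R]⟩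
  exact key.comp (g := fun a => ⟨a, n a⟩) (CS.smk0 CS.id hn)
@[aesop safe 40 apply (transparency := reducible) (rule_sets := [Restrict])]
theorem CS.allLe {P : A → ℕ → Prop} {n : A → ℕ} (hn : CS n)
    (h : CS (fun p : Σ _ : A, ℕ => P p.1 p.2)) : CS (fun a => ∀ x ≤ n a, P a x) :=
  (CS.allLt (CS.of_computable Computable.succ hn) h).of_iff fun _ _ =>
    forall_congr' fun _ => by rw [Nat.lt_succ_iff]

@[aesop safe 50 apply (transparency := reducible) (rule_sets := [Restrict])]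
theorem CS.notAnd {P Q : A → Prop} (h : CS (fun a => ¬ P a)) (h' : CS (fun a => ¬ Q a)) :
    CS (fun a => ¬ (P a ∧ Q a)) :=
  (h.or h').of_iff fun _ _ => not_and_or.symm
@[aesop safe 50 apply (transparency := reducible) (rule_sets := [Restrict])]
theorem CS.notOr {P Q : A → Prop} (h : CS (fun a => ¬ P a)) (h' : CS (fun a => ¬ Q a)) :
    CS (fun a => ¬ (P a ∨ Q a)) :=
  (h.and h').of_iff fun _ _ => not_or.symm
@[aesop safe 50 apply (transparency := reducible) (rule_sets := [Restrict])]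
theorem CS.notNot {P : A → Prop} (h : CS P) : CS (fun a => ¬ ¬ P a) :=
  h.of_iff fun _ _ => not_not.symm
@[aesop safe 50 apply (transparency := reducible) (rule_sets := [Restrict])]
theorem CS.notImp {P Q : A → Prop} (h : CS P) (h' : CS (fun a => ¬ Q a)) :
    CS (fun a => ¬ (P a → Q a)) :=
  (h.and h').of_iff fun _ _ => Classical.not_imp.symm
@[aesop safe 50 apply (transparency := reducible) (rule_sets := [Restrict])]
theorem CS.notIff {P Q : A → Prop} (h : CS P) (h' : CS Q) (k : CS (fun a => ¬ P a))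
    (k' : CS (fun a => ¬ Q a)) : CS (fun a => ¬ (P a ↔ Q a)) :=
  ((h.and k').or (k.and h')).of_iff fun _ _ => by tauto
@[aesop safe 52 apply (transparency := reducible) (rule_sets := [Restrict])]
theorem CS.notEx {T : A → Type} [∀ a, Rep (T a)] {P : ∀ a, T a → Prop} (hE : CFin T)
    (h : CS (fun p : Σ a, T a => ¬ P p.1 p.2)) : CS (fun a => ¬ ∃ x, P a x) :=
  (CS.all (P := fun a x => ¬ P a x) hE h).of_iff fun _ _ => not_exists.symm
@[aesop safe 52 apply (transparency := reducible) (rule_sets := [Restrict])]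
theorem CS.notAll {T : A → Type} [∀ a, Rep (T a)] {P : ∀ a, T a → Prop} (hE : Enum T)
    (h : CS (fun p : Σ a, T a => ¬ P p.1 p.2)) : CS (fun a => ¬ ∀ x, P a x) :=
  (CS.ex (P := fun a x => ¬ P a x) hE h).of_iff fun _ _ => not_forall.symm
@[aesop safe 40 apply (transparency := reducible) (rule_sets := [Restrict])]
theorem CS.notAllMem {T : A → Type} [∀ a, Rep (T a)] {P : ∀ a, T a → Prop}
    {l : ∀ a, List (T a)} (hl : CS l) (h : CS (fun p : Σ a, T a => ¬ P p.1 p.2)) :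
    CS (fun a => ¬ ∀ x ∈ l a, P a x) :=
  (CS.exMem (P := fun a x => ¬ P a x) hl h).of_iff fun _ _ => by simp
@[aesop safe 40 apply (transparency := reducible) (rule_sets := [Restrict])]
theorem CS.notExMem {T : A → Type} [∀ a, Rep (T a)] {P : ∀ a, T a → Prop}
    {l : ∀ a, List (T a)} (hl : CS l) (h : CS (fun p : Σ a, T a => ¬ P p.1 p.2)) :
    CS (fun a => ¬ ∃ x ∈ l a, P a x) :=
  (CS.allMem (P := fun a x => ¬ P a x) hl h).of_iff fun _ _ => by simp

@[aesop safe 50 apply (transparency := reducible) (rule_sets := [Restrict])]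
theorem CS.eq {T : A → Type} [∀ a, Rep (T a)] {f g : ∀ a, T a} (hE : Disc T) (h : CS f)
    (h' : CS g) : CS (fun a => f a = g a) :=
  CS.comp hE (g := fun a => ⟨a, (f a, g a)⟩) (CS.smk0 CS.id (h.pair h'))
@[aesop safe 50 apply (transparency := reducible) (rule_sets := [Restrict])]
theorem CS.ne {T : A → Type} [∀ a, Rep (T a)] {f g : ∀ a, T a} (hE : Haus T) (h : CS f)
    (h' : CS g) : CS (fun a => f a ≠ g a) :=
  CS.comp hE (g := fun a => ⟨a, (f a, g a)⟩) (CS.smk0 CS.id (h.pair h'))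
@[aesop safe 50 apply (transparency := reducible) (rule_sets := [Restrict])]
theorem CS.notEq {T : A → Type} [∀ a, Rep (T a)] {f g : ∀ a, T a} (hE : Haus T) (h : CS f)
    (h' : CS g) : CS (fun a => ¬ f a = g a) :=
  CS.ne hE h h'
@[aesop safe 49 apply (transparency := reducible) (rule_sets := [Restrict])]
theorem CS.notNe {T : A → Type} [∀ a, Rep (T a)] {f g : ∀ a, T a} (hE : Disc T) (h : CS f)
    (h' : CS g) : CS (fun a => ¬ f a ≠ g a) :=
  (CS.eq hE h h').notNot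
@[aesop safe 50 apply (transparency := reducible) (rule_sets := [Restrict])]
theorem CS.le {T : A → Type} [∀ a, Rep (T a)] [∀ a, LE (T a)] {f g : ∀ a, T a} (hE : LeF T)
    (h : CS f) (h' : CS g) : CS (fun a => f a ≤ g a) :=
  CS.comp hE (g := fun a => ⟨a, (f a, g a)⟩) (CS.smk0 CS.id (h.pair h'))
@[aesop safe 50 apply (transparency := reducible) (rule_sets := [Restrict])]
theorem CS.lt {T : A → Type} [∀ a, Rep (T a)] [∀ a, LT (T a)] {f g : ∀ a, T a} (hE : LtF T)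
    (h : CS f) (h' : CS g) : CS (fun a => f a < g a) :=
  CS.comp hE (g := fun a => ⟨a, (f a, g a)⟩) (CS.smk0 CS.id (h.pair h'))
@[aesop safe 50 apply (transparency := reducible) (rule_sets := [Restrict])]
theorem CS.notLe {T : A → Type} [∀ a, Rep (T a)] [∀ a, LinearOrder (T a)] {f g : ∀ a, T a}
    (hE : LtF T) (h : CS f) (h' : CS g) : CS (fun a => ¬ f a ≤ g a) :=
  (CS.lt hE h' h).of_iff fun _ _ => not_le.symm
@[aesop safe 50 apply (transparency := reducible) (rule_sets := [Restrict])]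
theorem CS.notLt {T : A → Type} [∀ a, Rep (T a)] [∀ a, LinearOrder (T a)] {f g : ∀ a, T a}
    (hE : LeF T) (h : CS f) (h' : CS g) : CS (fun a => ¬ f a < g a) :=
  (CS.le hE h' h).of_iff fun _ _ => not_lt.symm
@[aesop safe 50 apply (transparency := reducible) (rule_sets := [Restrict])]
theorem CS.memSet {T : A → Type} [∀ a, Rep (T a)] {S : ∀ a, Set (T a)} {x : ∀ a, T a}
    (h : CS S) (h' : CS x) : CS (fun a => x a ∈ S a) :=
  CS.app (ι := T) (T := fun _ => Prop) (f := fun a y => y ∈ S a) h h'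
@[aesop safe 50 apply (transparency := reducible) (rule_sets := [Restrict])]
theorem CS.setOf {T : A → Type} [∀ a, Rep (T a)] {P : ∀ a, T a → Prop}
    (h : CS (fun p : Σ a, T a => P p.1 p.2)) : CS (fun a => {x | P a x}) :=
  CS.lam (ι := T) (T := fun _ _ => Prop) (f := P) h
theorem CS.setIntro {T : A → Type} [∀ a, Rep (T a)] {S : ∀ a, Set (T a)}
    (h : CS (fun p : Σ a, T a => p.2 ∈ S p.1)) : CS S :=
  CS.lam (ι := T) (T := fun _ _ => Prop) (f := fun a y => y ∈ S a) h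
@[aesop safe 50 apply (transparency := reducible) (rule_sets := [Restrict])]
theorem CS.union {T : A → Type} [∀ a, Rep (T a)] {S S' : ∀ a, Set (T a)} (h : CS S)
    (h' : CS S') : CS (fun a => S a ∪ S' a) :=
  CS.setIntro ((CS.memSet (h.comp s1) s2).or (CS.memSet (h'.comp s1) s2))
@[aesop safe 50 apply (transparency := reducible) (rule_sets := [Restrict])]
theorem CS.decide {P : A → Prop} [∀ a, Decidable (P a)] (h : CS P) (h' : CS (fun a => ¬ P a)) :
    CS (fun a => decide (P a)) :=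
  (CS.ite (f := fun _ => true) (g := fun _ => false) h h' CS.const CS.const).congr
    fun a _ => by by_cases k : P a <;> simp [k]

section comp
variable {B : Type} [Rep B] {g : B → A} {T : A → Type} [∀ a, Rep (T a)]
theorem Enum.comp (h : Enum T) (hg : CS g) : Enum (fun b => T (g b)) := by
  obtain ⟨E, hE, eE⟩ := h
  obtain ⟨G, hG, eG⟩ := hg
  refine ⟨_, re_bind hG hE, fun c b r => ?_⟩
  obtain ⟨e, he, re⟩ := eG c b r
  refine ⟨fun d ⟨e', he', k⟩ => (eE e _ re).1 d (Part.mem_unique he' he ▸ k), fun x => ?_⟩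
  obtain ⟨d, h1, h2⟩ := (eE e _ re).2 x
  exact ⟨d, ⟨e, he, h1⟩, h2⟩
theorem EnumC.comp (h : EnumC T) (hg : CS g) : EnumC (fun b => T (g b)) := by
  obtain ⟨E, hE, eE⟩ := h
  obtain ⟨G, hG, eG⟩ := hg
  refine ⟨_, re_bind hG hE, fun c b r => ?_⟩
  obtain ⟨e, he, re⟩ := eG c b r
  refine ⟨fun d ⟨e', he', k⟩ => (eE e _ re).1 d (Part.mem_unique he' he ▸ k), fun x hx => ?_⟩
  obtain ⟨d, h1, h2⟩ := (eE e _ re).2 x hx
  exact ⟨d, ⟨e, he, h1⟩, h2⟩
theorem CFin.comp (h : CFin T) (hg : CS g) : CFin (fun b => T (g b)) :=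
  MV.comp h hg
theorem Disc.comp (h : Disc T) (hg : CS g) : Disc (fun b => T (g b)) :=
  CS.comp h (base (T := fun a => T a × T a) hg)
theorem Haus.comp (h : Haus T) (hg : CS g) : Haus (fun b => T (g b)) :=
  CS.comp h (base (T := fun a => T a × T a) hg)
theorem LeF.comp [∀ a, LE (T a)] (h : LeF T) (hg : CS g) : LeF (fun b => T (g b)) :=
  CS.comp h (base (T := fun a => T a × T a) hg)
theorem LtF.comp [∀ a, LT (T a)] (h : LtF T) (hg : CS g) : LtF (fun b => T (g b)) :=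
  CS.comp h (base (T := fun a => T a × T a) hg)
theorem ZeroF.comp [∀ a, Zero (T a)] (h : ZeroF T) (hg : CS g) : ZeroF (fun b => T (g b)) :=
  CS.comp h hg
theorem OneF.comp [∀ a, One (T a)] (h : OneF T) (hg : CS g) : OneF (fun b => T (g b)) :=
  CS.comp h hg
theorem AddF.comp [∀ a, Add (T a)] (h : AddF T) (hg : CS g) : AddF (fun b => T (g b)) :=
  CS.comp h (base (T := fun a => T a × T a) hg)
theorem MulF.comp [∀ a, Mul (T a)] (h : MulF T) (hg : CS g) : MulF (fun b => T (g b)) :=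
  CS.comp h (base (T := fun a => T a × T a) hg)
theorem NegF.comp [∀ a, Neg (T a)] (h : NegF T) (hg : CS g) : NegF (fun b => T (g b)) :=
  CS.comp h (base (T := T) hg)
theorem InvF.comp [∀ a, Inv (T a)] (h : InvF T) (hg : CS g) : InvF (fun b => T (g b)) :=
  CS.comp h (base (T := T) hg)
theorem SMulF.comp {M : A → Type} [∀ a, Rep (M a)] [∀ a, SMul (M a) (T a)] (h : SMulF M T)
    (hg : CS g) : SMulF (fun b => M (g b)) (fun b => T (g b)) :=
  CS.comp h (base (T := fun a => M a × T a) hg)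
theorem RatF.comp [∀ a, Semiring (T a)] [∀ a, Algebra ℚ (T a)] (h : RatF T) (hg : CS g) :
    RatF (fun b => T (g b)) :=
  CS.comp h (base (T := fun _ => ℚ) hg)
theorem CoordF.comp [∀ a, AddCommGroup (T a)] [∀ a, Module ℚ (T a)] (h : CoordF T)
    (hg : CS g) : CoordF (fun b => T (g b)) :=
  MV.comp h hg
end comp

end Pool.Agent.P.MP_257122_al
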