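import Pool.Agent.P.MP_257122_al.FCore

/-!
# Closure properties of recursively enumerable predicates
-/

namespace Pool.Agent.P.MP_257122_al.FPropAux

open Nat.Partrec (Code)
open Nat.Partrec.Code

variable {α β : Type} [Primcodable α] [Primcodable β]

theorem re_nf {p : α → Prop} (hp : REPred p) : ∃ R : α → ℕ → Prop, PrimrecRel R ∧
    (∀ a k k', k ≤ k' → R a k → R a k') ∧ ∀ a, p a ↔ ∃ k, R a k := by
  obtain ⟨c, hc⟩ := exists_code.1 hp
  refine ⟨fun a k => (evaln k c (Encodable.encode a)).isSome = true, ?_, ?_, ?_⟩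
  · exact PrimrecRel.comp Primrec.eq (Primrec.option_isSome.comp (primrec_evaln.comp
      ((Primrec.snd.pair (Primrec.const c)).pair (Primrec.encode.comp Primrec.fst))))
      (Primrec.const true)
  · intro a k k' hk h
    obtain ⟨x, hx⟩ := Option.isSome_iff_exists.1 h
    exact Option.isSome_iff_exists.2 ⟨x, evaln_mono hk hx⟩
  · intro a
    have h1 : (∃ x, x ∈ eval c (Encodable.encode a)) ↔ p a := by
      rw [hc]; simp [Part.mem_assert_iff]
    rw [← h1]
    constructor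
    · rintro ⟨x, hx⟩
      obtain ⟨k, hk⟩ := evaln_complete.1 hx
      exact ⟨k, Option.isSome_iff_exists.2 ⟨x, hk⟩⟩
    · rintro ⟨k, hk⟩
      obtain ⟨x, hx⟩ := Option.isSome_iff_exists.1 hk
      exact ⟨x, evaln_sound hx⟩

theorem re_of_ex {R : α → ℕ → Prop} (hR : PrimrecRel R) : REPred fun a => ∃ k, R a k := by
  classical
  have h1 : Partrec fun a => Nat.rfind fun k => (Part.some (decide (R a k)) : Part Bool) :=
    Partrec.rfind (hR.decide.to_comp.partrec₂)
  refine h1.dom_re.of_eq fun a => ?_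
  rw [Nat.rfind_dom]
  simp

theorem re_comp {p : α → Prop} (hp : REPred p) {g : β → α} (hg : Computable g) :
    REPred fun b => p (g b) := Partrec.comp hp hg

theorem re_and {p q : α → Prop} (hp : REPred p) (hq : REPred q) : REPred fun a => p a ∧ q a := by
  obtain ⟨R, hR, mR, eR⟩ := re_nf hp
  obtain ⟨S, hS, mS, eS⟩ := re_nf hq
  refine (re_of_ex (R := fun a k => R a k ∧ S a k) (PrimrecPred.and hR hS)).of_eq fun a => ?_
  rw [eR, eS]
  exact ⟨fun ⟨k, h1, h2⟩ => ⟨⟨k, h1⟩, k, h2⟩, fun ⟨⟨k, h1⟩, k', h2⟩ =>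
    ⟨max k k', mR _ _ _ (le_max_left _ _) h1, mS _ _ _ (le_max_right _ _) h2⟩⟩

theorem re_or {p q : α → Prop} (hp : REPred p) (hq : REPred q) : REPred fun a => p a ∨ q a := by
  obtain ⟨R, hR, -, eR⟩ := re_nf hp
  obtain ⟨S, hS, -, eS⟩ := re_nf hq
  refine (re_of_ex (R := fun a k => R a k ∨ S a k) (PrimrecPred.or hR hS)).of_eq fun a => ?_
  rw [eR, eS, exists_or]

theorem re_ex {p : α × ℕ → Prop} (hp : REPred p) : REPred fun a => ∃ d, p (a, d) := by
  obtain ⟨R, hR, -, eR⟩ := re_nf hp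
  refine (re_of_ex (R := fun a k => R (a, k.unpair.1) k.unpair.2) (PrimrecRel.comp hR
    (Primrec.fst.pair (Primrec.fst.comp (Primrec.unpair.comp Primrec.snd)))
    (Primrec.snd.comp (Primrec.unpair.comp Primrec.snd)))).of_eq fun a => ?_
  constructor
  · rintro ⟨k, hk⟩
    exact ⟨_, (eR _).2 ⟨_, hk⟩⟩
  · rintro ⟨d, hd⟩
    obtain ⟨k, hk⟩ := (eR _).1 hd
    exact ⟨Nat.pair d k, by simpa using hk⟩

theorem unif {R : ℕ → ℕ → Prop} (hm : ∀ d k k', k ≤ k' → R d k → R d k') (l : List ℕ)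
    (h : ∀ d ∈ l, ∃ k, R d k) : ∃ k, ∀ d ∈ l, R d k := by
  induction l with
  | nil => exact ⟨0, by simp⟩
  | cons x l ih =>
    obtain ⟨k, hk⟩ := ih fun d hd => h d (List.mem_cons_of_mem _ hd)
    obtain ⟨k', hk'⟩ := h x List.mem_cons_self
    refine ⟨max k k', fun d hd => ?_⟩
    rcases List.mem_cons.1 hd with rfl | hd
    · exact hm _ _ _ (le_max_right _ _) hk'
    · exact hm _ _ _ (le_max_left _ _) (hk d hd)

theorem re_all {p : α × ℕ → Prop} (hp : REPred p) {l : α → List ℕ} (hl : Primrec l) :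
    REPred fun a => ∀ d ∈ l a, p (a, d) := by
  obtain ⟨R, hR, mR, eR⟩ := re_nf hp
  have h1 : PrimrecRel fun (d : ℕ) (q : α × ℕ) => R (q.1, d) q.2 :=
    PrimrecRel.comp hR ((Primrec.fst.comp Primrec.snd).pair Primrec.fst)
      (Primrec.snd.comp Primrec.snd)
  refine (re_of_ex (R := fun a k => ∀ d ∈ l a, R (a, d) k)
    (PrimrecRel.comp h1.forall_mem_list (hl.comp Primrec.fst) Primrec.id)).of_eq fun a => ?_
  constructor
  · rintro ⟨k, hk⟩ d hd
    exact (eR _).2 ⟨k, hk d hd⟩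
  · intro h
    exact unif (R := fun d k => R (a, d) k) (fun d k k' => mR _ k k') _
      fun d hd => (eR _).1 (h d hd)

theorem re_exMem {p : α × ℕ → Prop} (hp : REPred p) {l : α → List ℕ} (hl : Primrec l) :
    REPred fun a => ∃ d ∈ l a, p (a, d) := by
  obtain ⟨R, hR, -, eR⟩ := re_nf hp
  have h1 : PrimrecRel fun (d : ℕ) (q : α × ℕ) => R (q.1, d) q.2 :=
    PrimrecRel.comp hR ((Primrec.fst.comp Primrec.snd).pair Primrec.fst)
      (Primrec.snd.comp Primrec.snd)
  refine (re_of_ex (R := fun a k => ∃ d ∈ l a, R (a, d) k)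
    (PrimrecRel.comp h1.exists_mem_list (hl.comp Primrec.fst) Primrec.id)).of_eq fun a => ?_
  constructor
  · rintro ⟨k, d, hd, hk⟩
    exact ⟨d, hd, (eR _).2 ⟨k, hk⟩⟩
  · rintro ⟨d, hd, h⟩
    obtain ⟨k, hk⟩ := (eR _).1 h
    exact ⟨k, d, hd, hk⟩

theorem re_bind {G : ℕ →. ℕ} (hG : Partrec G) {p : ℕ × ℕ → Prop} (hp : REPred p) :
    REPred fun q : ℕ × ℕ => ∃ e ∈ G q.1, p (e, q.2) := by
  have h1 : Partrec fun q : ℕ × ℕ => (G q.1).bind fun e =>
      Part.assert (p (e, q.2)) fun _ => Part.some () :=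
    (hG.comp Computable.fst).bind
      (Partrec.comp hp (Computable.snd.pair (Computable.snd.comp Computable.fst))).to₂
  refine h1.dom_re.of_eq fun q => ?_
  simp [Part.dom_iff_mem, Part.mem_assert_iff]

theorem re_pair {Q : ℕ → Prop} (hQ : REPred Q) :
    REPred fun q : ℕ × ℕ => Q (Nat.pair q.1 q.2) :=
  re_comp hQ (Primrec₂.natPair.to_comp.comp Computable.fst Computable.snd)

theorem re_pair' {Q : ℕ → Prop} (hQ : REPred Q) :
    REPred fun q : ℕ × ℕ => Q (Nat.pair q.1.unpair.1 q.2) :=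
  re_comp hQ (Primrec₂.natPair.to_comp.comp
    (Computable.fst.comp (Computable.unpair.comp Computable.fst)) Computable.snd)

theorem f2_left {γ δ : Type} {R : γ → δ → Prop} {l : List γ} {m : List δ}
    (h : List.Forall₂ R l m) : ∀ x ∈ l, ∃ y ∈ m, R x y := by
  induction h with
  | nil => simp
  | cons h _ ih =>
    intro x hx
    rcases List.mem_cons.1 hx with rfl | hx
    · exact ⟨_, List.mem_cons_self, h⟩
    · obtain ⟨y, hy, e⟩ := ih x hx
      exact ⟨y, List.mem_cons_of_mem _ hy, e⟩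

theorem f2_right {γ δ : Type} {R : γ → δ → Prop} {l : List γ} {m : List δ}
    (h : List.Forall₂ R l m) : ∀ y ∈ m, ∃ x ∈ l, R x y :=
  f2_left h.flip

theorem f2_exists {γ δ : Type} {R : γ → δ → Prop} (m : List δ) (h : ∀ y ∈ m, ∃ x, R x y) :
    ∃ l, List.Forall₂ R l m := by
  induction m with
  | nil => exact ⟨[], .nil⟩
  | cons y m ih =>
    obtain ⟨l, hl⟩ := ih fun z hz => h z (List.mem_cons_of_mem _ hz)
    obtain ⟨x, hx⟩ := h y List.mem_cons_self
    exact ⟨x :: l, .cons hx hl⟩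

variable {A : Type} [Rep A]

theorem s1 {T : A → Type} [∀ a, Rep (T a)] : CS (fun p : Σ a, T a => p.1) :=
  CS.sfst (α := fun _ => A) (β := fun _ a => T a) CS.id

theorem s2 {T : A → Type} [∀ a, Rep (T a)] : CS (fun p : Σ a, T a => p.2) :=
  CS.ssnd (α := fun _ => A) (β := fun _ a => T a) CS.id

/-- The graph of a computable section. -/
theorem graph {T : A → Type} [∀ a, Rep (T a)] {l : ∀ a, T a} (hl : CS l) :
    CS (fun a => (⟨⟨a, l a⟩, rfl⟩ : {p : Σ a, T a // p.2 = l p.1})) :=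
  CS.submk (α := fun _ => Σ a, T a) (p := fun _ p => p.2 = l p.1) (CS.smk0 CS.id hl)

/-- Change of base in a total space. -/
theorem base {B : Type} [Rep B] {g : B → A} (hg : CS g) {T : A → Type} [∀ a, Rep (T a)] :
    CS (fun p : Σ b, T (g b) => (⟨g p.1, p.2⟩ : Σ a, T a)) :=
  CS.smk0 (hg.comp s1) s2

end Pool.Agent.P.MP_257122_al.FPropAux
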