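import Mathlib

/-!
# Augmentation ideals and dimension subgroups
-/

namespace Pool.Agent.P.MP_257122_al

open MonoidAlgebra

section defs
variable (R : Type) [CommRing R] {G H : Type} [Group G] [Group H]

/-- The span of the elements `n - 1`, `n ∈ N`. -/
noncomputable def aug (N : Subgroup G) : Submodule R (MonoidAlgebra R G) :=
  Submodule.span R {x | ∃ n ∈ N, of R G n - 1 = x}

/-- The span of the elements of `N`. -/
noncomputable def zs (N : Subgroup G) : Submodule R (MonoidAlgebra R G) :=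
  Submodule.span R {x | ∃ n ∈ N, of R G n = x}

/-- The algebra homomorphism induced by a group homomorphism. -/
noncomputable abbrev gmap (f : G →* H) : MonoidAlgebra R G →ₐ[R] MonoidAlgebra R H :=
  MonoidAlgebra.mapDomainAlgHom R R f

end defs

variable {G H : Type} [Group G] [Group H]

/-- The dimension subgroup number `k + 1` of `N` modulo `S` is trivial. -/
def Dim (N S : Subgroup G) (k : ℕ) : Prop :=
  ∀ g ∈ N, of ℤ G g - 1 ∈ aug ℤ N ^ (k + 1) ⊔ ⊤ * aug ℤ S → g ∈ S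

/-- Some dimension subgroup of `N` modulo `S` is trivial. -/
def DimMod (N S : Subgroup G) : Prop := ∃ k, Dim N S k

section basic
variable {R : Type} [CommRing R] {N N' : Subgroup G}

theorem sub_mem_aug {n : G} (h : n ∈ N) : of R G n - 1 ∈ aug R N :=
  Submodule.subset_span ⟨n, h, rfl⟩

theorem of_mem_zs {n : G} (h : n ∈ N) : of R G n ∈ zs R N := Submodule.subset_span ⟨n, h, rfl⟩

theorem one_mem_zs : (1 : MonoidAlgebra R G) ∈ zs R N := by
  rw [← map_one (of R G)]; exact of_mem_zs N.one_mem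

theorem aug_mono (h : N ≤ N') : aug R N ≤ aug R N' :=
  Submodule.span_mono fun _ ⟨n, hn, e⟩ => ⟨n, h hn, e⟩

theorem zs_mono (h : N ≤ N') : zs R N ≤ zs R N' :=
  Submodule.span_mono fun _ ⟨n, hn, e⟩ => ⟨n, h hn, e⟩

theorem aug_le_zs : aug R N ≤ zs R N :=
  Submodule.span_le.2 fun _ ⟨_, hn, e⟩ => e ▸ sub_mem (of_mem_zs hn) one_mem_zs

theorem zs_mul_zs : zs R N * zs R N ≤ zs R N := by
  rw [zs, Submodule.span_mul_span, Submodule.span_le]
  rintro _ ⟨_, ⟨a, ha, rfl⟩, _, ⟨b, hb, rfl⟩, rfl⟩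
  exact Submodule.subset_span ⟨a * b, N.mul_mem ha hb, map_mul _ _ _⟩

theorem zs_top : zs R (⊤ : Subgroup G) = ⊤ := by
  refine top_unique fun x _ => ?_
  induction x using MonoidAlgebra.induction_on with
  | of m => exact of_mem_zs trivial
  | add f g hf hg => exact add_mem (hf trivial) (hg trivial)
  | smul r f hf => exact Submodule.smul_mem _ _ (hf trivial)

theorem zs_mul_aug : zs R N * aug R N ≤ aug R N := by
  rw [zs, aug, Submodule.span_mul_span, Submodule.span_le]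
  rintro _ ⟨_, ⟨a, ha, rfl⟩, _, ⟨b, hb, rfl⟩, rfl⟩
  have : (fun x y => x * y) (of R G a) (of R G b - 1) = (of R G (a * b) - 1) - (of R G a - 1) := by
    rw [map_mul]; dsimp only; noncomm_ring
  exact this.symm ▸ (sub_mem (sub_mem_aug (N.mul_mem ha hb)) (sub_mem_aug ha) :
    (of R G (a * b) - 1) - (of R G a - 1) ∈ aug R N)

theorem aug_mul_zs : aug R N * zs R N ≤ aug R N := by
  rw [zs, aug, Submodule.span_mul_span, Submodule.span_le]
  rintro _ ⟨_, ⟨a, ha, rfl⟩, _, ⟨b, hb, rfl⟩, rfl⟩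
  have : (fun x y => x * y) (of R G a - 1) (of R G b) = (of R G (a * b) - 1) - (of R G b - 1) := by
    rw [map_mul]; dsimp only; noncomm_ring
  exact this.symm ▸ (sub_mem (sub_mem_aug (N.mul_mem ha hb)) (sub_mem_aug hb) :
    (of R G (a * b) - 1) - (of R G b - 1) ∈ aug R N)

theorem aug_pow_succ_le (k : ℕ) : aug R N ^ (k + 2) ≤ aug R N ^ (k + 1) := by
  rw [pow_succ, pow_succ, mul_assoc]
  exact mul_le_mul_right ((mul_le_mul_left aug_le_zs _).trans zs_mul_aug) _

theorem aug_pow_anti {j k : ℕ} (h : j ≤ k) : aug R N ^ (k + 1) ≤ aug R N ^ (j + 1) := by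
  induction h with
  | refl => exact le_rfl
  | step _ ih => exact (aug_pow_succ_le _).trans ih

theorem aug_bot : aug R (⊥ : Subgroup G) = ⊥ := by
  rw [aug, Submodule.span_eq_bot]
  rintro _ ⟨n, hn, rfl⟩
  rw [Subgroup.mem_bot.1 hn, map_one, sub_self]

theorem gmap_of (f : G →* H) (g : G) : gmap R f (of R G g) = of R H (f g) := by
  simp

theorem map_aug (f : G →* H) : (aug R N).map (gmap R f).toLinearMap = aug R (N.map f) := by
  rw [aug, aug, Submodule.map_span]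
  congr 1
  ext x
  constructor
  · rintro ⟨_, ⟨n, hn, rfl⟩, rfl⟩
    exact ⟨f n, ⟨n, hn, rfl⟩, by rw [AlgHom.toLinearMap_apply, map_sub, map_one, gmap_of]⟩
  · rintro ⟨_, ⟨n, hn, rfl⟩, rfl⟩
    exact ⟨_, ⟨n, hn, rfl⟩, by rw [AlgHom.toLinearMap_apply, map_sub, map_one, gmap_of]⟩

theorem gmap_aug_pow (f : G →* H) (k : ℕ) {x : MonoidAlgebra R G} (hx : x ∈ aug R N ^ k) :
    gmap R f x ∈ aug R (N.map f) ^ k := by
  rw [← map_aug, ← Submodule.map_pow]
  exact ⟨x, hx, rfl⟩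

theorem gmap_top_aug (f : G →* H) {x : MonoidAlgebra R G} (hx : x ∈ ⊤ * aug R N) :
    gmap R f x ∈ ⊤ * aug R (N.map f) := by
  have : gmap R f x ∈ (⊤ * aug R N).map (gmap R f).toLinearMap := ⟨x, hx, rfl⟩
  rw [Submodule.map_mul, map_aug] at this
  exact (mul_le_mul_left le_top _ : _ ≤ ⊤ * aug R (N.map f)) this

end basic

theorem Dim.mono {N S : Subgroup G} {j k : ℕ} (h : Dim N S j) (hjk : j ≤ k) : Dim N S k :=
  fun g hg hx => h g hg ((sup_le_sup (aug_pow_anti hjk) le_rfl :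
    _ ≤ aug ℤ N ^ (j + 1) ⊔ ⊤ * aug ℤ S) hx)

theorem Dim.comap {N S : Subgroup H} {k : ℕ} (h : Dim N S k) (f : G →* H) :
    Dim (N.comap f) (S.comap f) k := by
  intro g hg hx
  refine h (f g) hg ?_
  obtain ⟨a, ha, b, hb, e⟩ := Submodule.mem_sup.1 hx
  have e' := congrArg (gmap ℤ f) e
  rw [map_add, map_sub, map_one, gmap_of] at e'
  rw [← e']
  exact add_mem (Submodule.mem_sup_left (pow_le_pow_left' (aug_mono (Subgroup.map_comap_le f N)) _
    (gmap_aug_pow f _ ha))) (Submodule.mem_sup_right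
      (mul_le_mul_right (aug_mono (Subgroup.map_comap_le f S)) _ (gmap_top_aug f hb)))

theorem Dim.anti {N N' S : Subgroup G} {k : ℕ} (h : Dim N S k) (hN : N' ≤ N) : Dim N' S k :=
  fun g hg hx => h g (hN hg) ((sup_le_sup (pow_le_pow_left' (aug_mono hN) _) le_rfl :
    _ ≤ aug ℤ N ^ (k + 1) ⊔ ⊤ * aug ℤ S) hx)

theorem Dim.inf {N S S' : Subgroup G} {k : ℕ} (h : Dim N S k) (h' : Dim N S' k) :
    Dim N (S ⊓ S') k := fun g hg hx =>
  ⟨h g hg ((sup_le_sup le_rfl (mul_le_mul_right (aug_mono inf_le_left) _) :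
      _ ≤ aug ℤ N ^ (k + 1) ⊔ ⊤ * aug ℤ S) hx),
    h' g hg ((sup_le_sup le_rfl (mul_le_mul_right (aug_mono inf_le_right) _) :
      _ ≤ aug ℤ N ^ (k + 1) ⊔ ⊤ * aug ℤ S') hx)⟩

theorem DimMod.inf {N S S' : Subgroup G} (h : DimMod N S) (h' : DimMod N S') :
    DimMod N (S ⊓ S') := by
  obtain ⟨j, hj⟩ := h
  obtain ⟨k, hk⟩ := h'
  exact ⟨max j k, (hj.mono (le_max_left _ _)).inf (hk.mono (le_max_right _ _))⟩

theorem DimMod.comap {N S : Subgroup H} (h : DimMod N S) (f : G →* H) :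
    DimMod (N.comap f) (S.comap f) := by
  obtain ⟨k, hk⟩ := h
  exact ⟨k, hk.comap f⟩

end Pool.Agent.P.MP_257122_al
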