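import Pool.Agent.P.MP_257122_al.CDefs
import Pool.Agent.P.MP_257122_al.BDefs
import Pool.Agent.P.MP_257122_al.KDefs0

/-!
# The group layer: definitions
-/

namespace Pool.Agent.P.MP_257122_al

open scoped commutatorElement
open Matrix

/-- Every finitely generated subgroup can be generated by at most `r` elements, for some `r`. -/
def FinRank (G : Type) [Group G] : Prop :=
  ∃ r : ℕ, ∀ H : Subgroup G, H.FG →
    ∃ s : Finset G, s.card ≤ r ∧ Subgroup.closure (s : Set G) = H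

/-- The free group of rank `b`. -/
abbrev Fr (b : ℕ) : Type := FreeGroup (Fin b)

/-- The normal subgroup generated by the words `W` and the `d`-th derived subgroup. -/
def relS {b : ℕ} (d : ℕ) (W : List (Fr b)) : Subgroup (Fr b) :=
  Subgroup.normalClosure {w | w ∈ W} ⊔ derivedSeries (Fr b) d

instance relS_normal {b : ℕ} (d : ℕ) (W : List (Fr b)) : (relS d W).Normal :=
  inferInstanceAs (Subgroup.normalClosure {w | w ∈ W} ⊔ derivedSeries (Fr b) d).Normal

/-- Presentations relative to a soluble variety: rank, derived length, relators. -/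
abbrev Pres : Type := Σ b : ℕ, ℕ × List (Fr b)

/-- The subgroup of all relations. -/
abbrev Pres.S (p : Pres) : Subgroup (Fr p.1) := relS p.2.1 p.2.2

/-- The group described by a presentation. -/
abbrev Pres.G (p : Pres) : Type := Fr p.1 ⧸ p.S

/-- The canonical projection. -/
abbrev Pres.q (p : Pres) : Fr p.1 →* p.G := QuotientGroup.mk' p.S

section grp
variable {G : Type} [Group G]

/-- The intersection of the kernels of all actions on `e` points. -/
def res (e : ℕ) (G : Type) [Group G] : Subgroup G := ⨅ π : G →* Equiv.Perm (Fin e), π.ker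

instance res_normal (e : ℕ) : (res e G).Normal :=
  Subgroup.normal_iInf_normal fun _ => inferInstance

/-- The derived subgroup of `res e G`. -/
def dres (e : ℕ) (G : Type) [Group G] : Subgroup G := ⁅res e G, res e G⁆

instance dres_normal (e : ℕ) : (dres e G).Normal :=
  inferInstanceAs (⁅res e G, res e G⁆).Normal

/-- The intersection of two of the subgroups `res`. -/
def res₂ (e₁ e₂ : ℕ) (G : Type) [Group G] : Subgroup G := res e₁ G ⊓ res e₂ G

instance res₂_normal (e₁ e₂ : ℕ) : (res₂ e₁ e₂ G).Normal :=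
  inferInstanceAs (res e₁ G ⊓ res e₂ G).Normal

/-- `G / N` has an abelian normal subgroup of finite index. -/
def VAb (N : Subgroup G) : Prop :=
  ∃ T : Subgroup G, T.Normal ∧ T.FiniteIndex ∧ N ≤ T ∧ ⁅T, T⁆ ≤ N

/-- `N` is nilpotent modulo `S`. -/
def NilMod (N S : Subgroup G) : Prop := ∃ c, N.lowerCentralSeries c ≤ S

/-- The iterated commutator `⁅g, ⁅g, ..., c⁆⁆`. -/
def itc (g c : G) : ℕ → G := fun k => (fun x => ⁅g, x⁆)^[k] c

/-- `g` acts unipotently on the abelianisation of `D` modulo torsion. -/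
def Unip (D : Subgroup G) (g : G) : Prop :=
  ∃ k, ∀ c ∈ D, ∃ m, 0 < m ∧ itc g c k ^ m ∈ ⁅D, D⁆

/-- The canonical normal subgroup. -/
def Ncan (e₁ e₂ : ℕ) (G : Type) [Group G] : Subgroup G :=
  Subgroup.closure {g | g ∈ res₂ e₁ e₂ G ∧ Unip (dres e₁ G) g}

/-- The parameters are large enough for `G`. -/
def GoodPar (e₁ e₂ : ℕ) (G : Type) [Group G] : Prop :=
  NilMod (Ncan e₁ e₂ G) ⊥ ∧
    ∀ g ∈ res₂ e₁ e₂ G, ∀ m, 0 < m → g ^ m ∈ Ncan e₁ e₂ G → g ∈ Ncan e₁ e₂ G

/-- The polynomial with the list of coefficients `l`. -/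
noncomputable def lp (l : List ℤ) : Polynomial ℤ :=
  l.foldr (fun a q => Polynomial.C a + Polynomial.X * q) 0

/-- The word for `lp l` in the conjugation action of `g`, applied to `c`. -/
def pv (g c : G) (l : List ℤ) : G := l.foldr (fun a x => c ^ a * (g * x * g⁻¹)) 1

/-- `lp l` annihilates the action of `g` on the abelianisation of `D` modulo torsion. -/
def Ann (D : Subgroup G) (g : G) (l : List ℤ) : Prop :=
  ∀ c ∈ D, ∃ m, 0 < m ∧ pv g c l ^ m ∈ ⁅D, D⁆

/-- `δ` is additive on `D` and equivariant for the action `act`. -/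
def IsSec {V : Type} [AddCommGroup V] [Module ℚ V] (D : Subgroup G)
    (act : G →* Module.End ℚ V) (δ : G → V) : Prop :=
  (∀ c ∈ D, ∀ c' ∈ D, δ (c * c') = δ c + δ c') ∧ ∀ g, ∀ c ∈ D, δ (g * c * g⁻¹) = act g (δ c)

/-- The ordered product of powers. -/
def zp {k : ℕ} (τ : Fin k → G) (t : Fin k → ℤ) : G := (List.ofFn fun j => τ j ^ t j).prod

/-- `T / N` is free abelian with basis `τ`. -/
def IsMark {k : ℕ} (T N : Subgroup G) (τ : Fin k → G) : Prop :=
  N ≤ T ∧ ⁅T, T⁆ ≤ N ∧ (∀ j, τ j ∈ T) ∧ (∀ g ∈ T, ∃ t, g * (zp τ t)⁻¹ ∈ N) ∧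
    ∀ t, zp τ t ∈ N → t = 0

/-- A representation that respects a weight filtration and makes `N` unipotent. -/
def Adapt {n : ℕ} (wt : Fin n → ℕ) (c : ℕ) (σ : G →* GL (Fin n) ℚ) (N : Subgroup G) : Prop :=
  (∀ i, wt i < c) ∧ (∀ g, IsPar wt (σ g)) ∧ ∀ y ∈ N, IsUni wt (σ y)

/-- The derived series of a subgroup. -/
def der (P : Subgroup G) : ℕ → Subgroup G := fun j => (fun H => ⁅H, H⁆)^[j] P

/-- `u` and `v` induce mutually inverse isomorphisms modulo `N` and `N'`. -/
def Compat {H : Type} [Group H] (N : Subgroup G) (N' : Subgroup H) (u : G →* H) (v : H →* G) :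
    Prop :=
  (∀ y ∈ N, u y ∈ N') ∧ (∀ y ∈ N', v y ∈ N) ∧ (∀ g, v (u g) * g⁻¹ ∈ N) ∧ ∀ h, u (v h) * h⁻¹ ∈ N'

end grp

/-- Every subgroup of the ambient group is finitely generated modulo unipotent elements. -/
def Amb.Noeth (m : Amb) : Prop :=
  ∀ H ≤ m.P, ∃ Z : List (GL (Fin m.1) ℚ), (∀ z ∈ Z, z ∈ H) ∧
    ∀ h ∈ H, ∃ l ∈ Subgroup.closure {z | z ∈ Z}, IsUni m.2.1 (h * l⁻¹)

/-- The ambient data of a representation of a free group. -/
def ambOf {b n : ℕ} (wt : Fin n → ℕ) (c : ℕ) (g : Fin b → GL (Fin n) ℚ) : Amb :=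
  ⟨n, wt, c, List.ofFn g⟩

/-! Markings -/

/-- Marking data: a basis and normal generators. -/
abbrev Mk (b : ℕ) : Type := Σ k : ℕ, (Fin k → Fr b) × List (Fr b)

/-- The preimage of `res₂` in the free group. -/
def Pres.T (p : Pres) (e₁ e₂ : ℕ) : Subgroup (Fr p.1) := (res₂ e₁ e₂ p.G).comap p.q

/-- The preimage of the canonical subgroup in the free group. -/
def Pres.N (p : Pres) (e₁ e₂ : ℕ) : Subgroup (Fr p.1) := (Ncan e₁ e₂ p.G).comap p.q

/-- The data `x` describe the canonical subgroup. -/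
def Pres.Mark (p : Pres) (e₁ e₂ : ℕ) (x : Mk p.1) : Prop :=
  p.N e₁ e₂ = Subgroup.normalClosure {y | y ∈ x.2.2} ∧ IsMark (p.T e₁ e₂) (p.N e₁ e₂) x.2.1

/-- The commuting matrices `A` detect the action of `τ` on the abelianisation of `D`. -/
def Sees {G : Type} [Group G] {k n : ℕ} (D N : Subgroup G) (τ : Fin k → G)
    (A : Fin k → GL (Fin n) ℚ) : Prop :=
  (∀ i j, A i * A j = A j * A i) ∧
    ∀ g t l, g * (zp τ t)⁻¹ ∈ N → Ann D g l → IsNilpotent (Polynomial.aeval (zp A t).val (lp l))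

/-- No nontrivial product of powers is unipotent. -/
def Faith {k n : ℕ} (A : Fin k → GL (Fin n) ℚ) : Prop :=
  ∀ t, IsNilpotent ((zp A t).val - 1) → t = 0

/-! Models -/

/-- The rational group algebra of a free group. -/
abbrev QF (b : ℕ) : Type := MonoidAlgebra ℚ (Fr b)

/-- The algebra homomorphism given by matrices for the generators. -/
noncomputable def algOf {b n : ℕ} (g : Fin b → GL (Fin n) ℚ) :
    QF b →ₐ[ℚ] Matrix (Fin n) (Fin n) ℚ :=
  MonoidAlgebra.lift ℚ _ _ ((Units.coeHom _).comp (FreeGroup.lift g))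

/-- Its kernel. -/
noncomputable def kerI {b n : ℕ} (g : Fin b → GL (Fin n) ℚ) : Submodule ℚ (QF b) :=
  LinearMap.ker (algOf g).toLinearMap

/-- Dimension, weights, generators, unit vector, left multiplications. -/
abbrev Model (b : ℕ) : Type :=
  Σ n : ℕ, (Fin n → ℕ) × (Fin b → GL (Fin n) ℚ) × (Fin n → ℚ) × (Fin n → Matrix (Fin n) (Fin n) ℚ)

/-- `M` is the left regular representation of the quotient by `J ^ (e + 1)`. -/
def Model.ok {b : ℕ} (J : Submodule ℚ (QF b)) (e : ℕ) (M : Model b) : Prop :=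
  (∀ i, M.2.1 i < e + 1) ∧ (∀ x, IsPar M.2.1 (M.2.2.1 x)) ∧
    (∀ a ∈ J, algOf M.2.2.1 a ∈ fil M.2.1 1) ∧
    (∀ a, algOf M.2.2.1 a *ᵥ M.2.2.2.1 = 0 ↔ a ∈ J ^ (e + 1)) ∧
    ∀ i, ∃ a, algOf M.2.2.1 a = M.2.2.2.2 i ∧ M.2.2.2.2 i *ᵥ M.2.2.2.1 = Pi.single i 1

/-- Input of the core: two presentations on the same generators and normal generators of `N`. -/
abbrev CoreIn : Type := Σ b : ℕ, (ℕ × List (Fr b)) × (ℕ × List (Fr b)) × List (Fr b)

/-- The first relation subgroup. -/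
abbrev CoreIn.S (a : CoreIn) : Subgroup (Fr a.1) := relS a.2.1.1 a.2.1.2

/-- The second relation subgroup. -/
abbrev CoreIn.S' (a : CoreIn) : Subgroup (Fr a.1) := relS a.2.2.1.1 a.2.2.1.2

/-- The common normal subgroup. -/
abbrev CoreIn.N (a : CoreIn) : Subgroup (Fr a.1) := Subgroup.normalClosure {y | y ∈ a.2.2.2}

/-- Admissible inputs of the core. -/
def CoreIn.ok (a : CoreIn) : Prop := a.S ≤ a.N ∧ a.S' ≤ a.N ∧ VAb a.N

/-- The two groups have finite rank, `N` is nilpotent in both, and they are not isomorphic. -/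
def CoreIn.Lo (a : CoreIn) : Prop :=
  FinRank (Fr a.1 ⧸ a.S) ∧ FinRank (Fr a.1 ⧸ a.S') ∧ NilMod a.N a.S ∧ NilMod a.N a.S' ∧
    ¬ Nonempty ((Fr a.1 ⧸ a.S) ≃* (Fr a.1 ⧸ a.S'))

/-- No automorphism congruent to the identity carries `S` to `S'`. -/
def CoreIn.Hi (a : CoreIn) : Prop :=
  ¬ ∃ α : Fr a.1 ≃* Fr a.1, a.S.map α.toMonoidHom = a.S' ∧ ∀ g, α g * g⁻¹ ∈ a.N

end Pool.Agent.P.MP_257122_al
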