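import Pool.Agent.P.MP_257122_al.GDefs

/-!
# The canonical subgroups: pure facts

PLAN.  `exists_sec`: `V = ℚ ⊗[ℤ] Additive (Abelianization D)` (or `LocalizedModule`), action by
`MulAut.conjNormal`, `δ c = 1 ⊗ class of c` for `c ∈ D` and `0` otherwise.
Everything about `Ann`, `Unip`, `Ncan` is translated by `IsSec.pv`, `IsSec.itc` into the
endomorphism ring of `V`: `Ann D g l ↔ aeval (act g) (lp l) = 0`,
`Unip D g ↔ IsNilpotent (act g - 1)`.  For `D = ⁅T, T⁆` the elements of `D` act trivially and the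
elements of `T` commute on `V`; `V` is spanned by the `T`-translates of `δ ⁅a, a'⁆`.
-/

namespace Pool.Agent.P.MP_257122_al

open scoped commutatorElement

variable {G H : Type} [Group G] [Group H]

section sec
variable {V : Type} [AddCommGroup V] [Module ℚ V] {D : Subgroup G}
  {act : G →* Module.End ℚ V} {δ : G → V}

/-- The action of `g` on the abelianisation of `D`. -/
noncomputable def abAct (D : Subgroup G) [D.Normal] (g : G) :
    Additive (Abelianization D) →ₗ[ℤ] Additive (Abelianization D) :=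
  (MonoidHom.toAdditive
    (Abelianization.map (MulAut.conjNormal (H := D) g).toMonoidHom)).toIntLinearMap

theorem abAct_of (D : Subgroup G) [D.Normal] (g : G) (c : D) :
    abAct D g (Additive.ofMul (Abelianization.of c)) =
      Additive.ofMul (Abelianization.of (MulAut.conjNormal g c)) := rfl

theorem ab_surj (D : Subgroup G) (a : Additive (Abelianization D)) :
    ∃ c : D, Additive.ofMul (Abelianization.of c) = a := by
  obtain ⟨c, hc⟩ := QuotientGroup.mk_surjective (s := commutator D) a.toMul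
  exact ⟨c, congrArg Additive.ofMul hc⟩

/-- The action as a homomorphism. -/
noncomputable def abHom (D : Subgroup G) [D.Normal] :
    G →* Module.End ℤ (Additive (Abelianization D)) where
  toFun := abAct D
  map_one' := by
    refine LinearMap.ext fun a => ?_
    obtain ⟨c, rfl⟩ := ab_surj D a
    rw [abAct_of, map_one]
    rfl
  map_mul' g h := by
    refine LinearMap.ext fun a => ?_
    obtain ⟨c, rfl⟩ := ab_surj D a
    rw [Module.End.mul_apply, abAct_of, abAct_of, abAct_of, map_mul]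
    rfl

theorem mem_comm_iff (D : Subgroup G) (c : D) : (c : G) ∈ ⁅D, D⁆ ↔ c ∈ commutator D := by
  rw [← Subgroup.map_subtype_commutator]
  exact Subgroup.mem_map_iff_mem D.subtype_injective

theorem exists_sec (D : Subgroup G) [D.Normal] :
    ∃ (V : Type) (_ : AddCommGroup V) (_ : Module ℚ V) (act : G →* Module.End ℚ V) (δ : G → V),
      IsSec D act δ ∧ (∀ c ∈ D, δ c = 0 ↔ ∃ m, 0 < m ∧ c ^ m ∈ ⁅D, D⁆) ∧
        Submodule.span ℚ (δ '' (D : Set G)) = ⊤ := by
  classical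
  let ι : Additive (Abelianization D) →ₗ[ℤ] TensorProduct ℤ ℚ (Additive (Abelianization D)) :=
    TensorProduct.mk ℤ ℚ _ 1
  let δ : G → TensorProduct ℤ ℚ (Additive (Abelianization D)) := fun c =>
    if h : c ∈ D then ι (Additive.ofMul (Abelianization.of ⟨c, h⟩)) else 0
  have hδ : ∀ c (h : c ∈ D), δ c = ι (Additive.ofMul (Abelianization.of ⟨c, h⟩)) :=
    fun c h => dif_pos h
  refine ⟨TensorProduct ℤ ℚ (Additive (Abelianization D)), inferInstance, inferInstance,
    (Module.End.baseChangeHom ℤ ℚ _).toMonoidHom.comp (abHom D), δ, ⟨?_, ?_⟩, ?_, ?_⟩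
  · intro c hc c' hc'
    rw [hδ c hc, hδ c' hc', hδ _ (D.mul_mem hc hc'), ← map_add, ← ofMul_mul, ← map_mul]
    rfl
  · intro g c hc
    rw [hδ c hc, hδ _ (Subgroup.Normal.conj_mem inferInstance c hc g)]
    rfl
  · intro c hc
    have : IsLocalizedModule (nonZeroDivisors ℤ) ι :=
      IsLocalization.tensorProduct_isLocalizedModule _ _
    rw [hδ c hc, IsLocalizedModule.eq_zero_iff (nonZeroDivisors ℤ) ι]
    have key : ∀ m : ℕ, c ^ m ∈ ⁅D, D⁆ ↔
        m • Additive.ofMul (Abelianization.of (⟨c, hc⟩ : D)) = 0 := by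
      intro m
      rw [← ofMul_pow, ← map_pow, ofMul_eq_zero]
      exact (mem_comm_iff D ((⟨c, hc⟩ : D) ^ m)).trans (QuotientGroup.eq_one_iff _).symm
    constructor
    · rintro ⟨⟨s, hs⟩, h⟩
      refine ⟨s.natAbs, Int.natAbs_pos.2 (nonZeroDivisors.ne_zero hs), (key _).2 ?_⟩
      exact natAbs_nsmul_eq_zero.2 h
    · rintro ⟨m, hm, h⟩
      refine ⟨⟨(m : ℤ), mem_nonZeroDivisors_of_ne_zero (by exact_mod_cast hm.ne')⟩, ?_⟩
      exact (natCast_zsmul _ m).trans ((key m).1 h)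
  · refine eq_top_iff.2 fun x _ => ?_
    induction x using TensorProduct.induction_on with
    | zero => exact Submodule.zero_mem _
    | add x y hx hy => exact Submodule.add_mem _ (hx trivial) (hy trivial)
    | tmul q a =>
      obtain ⟨c, rfl⟩ := ab_surj D a
      have e : q ⊗ₜ[ℤ] Additive.ofMul (Abelianization.of c) = q • δ c := by
        rw [hδ c c.2]
        show _ = q • ((1 : ℚ) ⊗ₜ[ℤ] _)
        rw [TensorProduct.smul_tmul', smul_eq_mul, mul_one]
      rw [e]
      exact Submodule.smul_mem _ _ (Submodule.subset_span ⟨c, c.2, rfl⟩)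

/-- The restriction of `δ` to `D` as a homomorphism. -/
def IsSec.hom (h : IsSec D act δ) : D →* Multiplicative V :=
  MonoidHom.mk' (fun c => Multiplicative.ofAdd (δ c)) fun a b =>
    congrArg Multiplicative.ofAdd (h.1 a a.2 b b.2)

theorem IsSec.one (h : IsSec D act δ) : δ 1 = 0 := congrArg Multiplicative.toAdd h.hom.map_one

theorem IsSec.inv (h : IsSec D act δ) {c : G} (hc : c ∈ D) : δ c⁻¹ = -δ c :=
  congrArg Multiplicative.toAdd (h.hom.map_inv ⟨c, hc⟩)

theorem IsSec.zpow (h : IsSec D act δ) {c : G} (hc : c ∈ D) (a : ℤ) : δ (c ^ a) = a • δ c :=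
  congrArg Multiplicative.toAdd (h.hom.map_zpow ⟨c, hc⟩ a)

theorem IsSec.pow (h : IsSec D act δ) {c : G} (hc : c ∈ D) (a : ℕ) : δ (c ^ a) = a • δ c :=
  congrArg Multiplicative.toAdd (h.hom.map_pow ⟨c, hc⟩ a)

theorem IsSec.comm (h : IsSec D act δ) {c : G} (hc : c ∈ ⁅D, D⁆) : δ c = 0 := by
  have hc' : c ∈ D := Subgroup.commutator_le_self D hc
  exact congrArg Multiplicative.toAdd
    (Abelianization.commutator_subset_ker h.hom ((mem_comm_iff D ⟨c, hc'⟩).1 hc))

theorem IsSec.eq_zero (h : IsSec D act δ) {c : G} (hc : c ∈ D) {m : ℕ} (hm : 0 < m)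
    (hcm : c ^ m ∈ ⁅D, D⁆) : δ c = 0 := by
  have e := h.comm hcm
  rw [h.pow hc, ← Nat.cast_smul_eq_nsmul ℚ] at e
  exact (smul_eq_zero.1 e).resolve_left (by exact_mod_cast hm.ne')

theorem IsSec.act_mem [D.Normal] (h : IsSec D act δ) {c d : G} (hc : c ∈ D) (hd : d ∈ D) :
    act d (δ c) = δ c := by
  rw [← h.2 d c hc, h.1 _ (D.mul_mem hd hc) _ (D.inv_mem hd), h.1 _ hd _ hc, h.inv hd]
  abel

theorem pv_mem [D.Normal] (g : G) {c : G} (hc : c ∈ D) (l : List ℤ) : pv g c l ∈ D := by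
  induction l with
  | nil => exact D.one_mem
  | cons a l ih =>
    exact D.mul_mem (D.zpow_mem hc a) (Subgroup.Normal.conj_mem inferInstance _ ih g)

theorem itc_succ (g c : G) (k : ℕ) :
    itc g c (k + 1) = g * itc g c k * g⁻¹ * (itc g c k)⁻¹ :=
  Function.iterate_succ_apply' (fun x => ⁅g, x⁆) k c

theorem itc_mem [D.Normal] (g : G) {c : G} (hc : c ∈ D) (k : ℕ) : itc g c k ∈ D := by
  induction k with
  | zero => exact hc
  | succ k ih =>
    rw [itc_succ]
    exact D.mul_mem (Subgroup.Normal.conj_mem inferInstance _ ih g) (D.inv_mem ih)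

theorem IsSec.pv [D.Normal] (h : IsSec D act δ) (g : G) {c : G} (hc : c ∈ D) (l : List ℤ) :
    δ (pv g c l) = Polynomial.aeval (act g) (lp l) (δ c) := by
  induction l with
  | nil =>
    show δ 1 = Polynomial.aeval (act g) (0 : Polynomial ℤ) (δ c)
    rw [map_zero, h.one]
    rfl
  | cons a l ih =>
    have h1 := pv_mem (D := D) g hc l
    show δ (c ^ a * (g * MP_257122_al.pv g c l * g⁻¹)) =
      Polynomial.aeval (act g) (Polynomial.C a + Polynomial.X * lp l) (δ c)
    rw [h.1 _ (D.zpow_mem hc a) _ (Subgroup.Normal.conj_mem inferInstance _ h1 g), h.zpow hc,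
      h.2 g _ h1, ih, map_add, map_mul, Polynomial.aeval_C, Polynomial.aeval_X,
      LinearMap.add_apply, Module.End.mul_apply, algebraMap_int_eq, eq_intCast,
      Module.End.intCast_apply]

theorem IsSec.itc [D.Normal] (h : IsSec D act δ) (g : G) {c : G} (hc : c ∈ D) (k : ℕ) :
    δ (itc g c k) = ((act g - 1) ^ k) (δ c) := by
  induction k with
  | zero => rfl
  | succ k ih =>
    have h1 := itc_mem (D := D) g hc k
    rw [itc_succ, h.1 _ (Subgroup.Normal.conj_mem inferInstance _ h1 g) _ (D.inv_mem h1),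
      h.inv h1, h.2 g _ h1, ih, pow_succ', Module.End.mul_apply, LinearMap.sub_apply,
      Module.End.one_apply, ← sub_eq_add_neg]

/-- In a group of finite rank the values of `δ` span a finite-dimensional space. -/
theorem IsSec.finite (h : IsSec D act δ) (hG : FinRank G) :
    Module.Finite ℚ (Submodule.span ℚ (δ '' (D : Set G))) := by
  classical
  obtain ⟨r, hr⟩ := hG
  obtain ⟨b, hb, hs, hi⟩ := exists_linearIndependent ℚ (δ '' (D : Set G))
  rw [← hs]
  refine Module.Finite.span_of_finite ℚ (Set.not_infinite.1 fun hinf => ?_)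
  obtain ⟨t, ht, htc⟩ := hinf.exists_subset_card_eq (r + 1)
  obtain ⟨u, hu, hut⟩ := Finset.subset_set_image_iff.1 (ht.trans hb)
  obtain ⟨s, hsr, hsu⟩ := hr (Subgroup.closure (u : Set G)) ⟨u, rfl⟩
  have hD : Subgroup.closure (s : Set G) ≤ D := hsu ▸ (Subgroup.closure_le D).2 hu
  have key : ∀ x ∈ Subgroup.closure (s : Set G),
      δ x ∈ Submodule.span ℚ ((s.image δ : Finset V) : Set V) := by
    intro x hx
    induction hx using Subgroup.closure_induction with
    | mem x hx => exact Submodule.subset_span (Finset.mem_coe.2 (Finset.mem_image_of_mem δ hx))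
    | one => rw [h.one]; exact Submodule.zero_mem _
    | mul x y hx hy ix iy => rw [h.1 x (hD hx) y (hD hy)]; exact Submodule.add_mem _ ix iy
    | inv x hx ix => rw [h.inv (hD hx)]; exact Submodule.neg_mem _ ix
  have hle := linearIndependent_le_span_aux' (fun i : t => (i : V)) (LinearIndepOn.mono (v := id) hi ht)
    ((s.image δ : Finset V) : Set V) (by
      rintro _ ⟨⟨x, hx⟩, rfl⟩
      rw [← hut] at hx
      obtain ⟨y, hy, rfl⟩ := Finset.mem_image.1 hx
      exact key y (hsu ▸ Subgroup.subset_closure hy))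
  have h2 := Finset.card_image_le (s := s) (f := δ)
  simp only [Finset.coe_sort_coe, Fintype.card_coe] at hle
  omega

/-- A section with the two extra properties. -/
def Full (D : Subgroup G) (act : G →* Module.End ℚ V) (δ : G → V) : Prop :=
  IsSec D act δ ∧ (∀ c ∈ D, δ c = 0 ↔ ∃ m, 0 < m ∧ c ^ m ∈ ⁅D, D⁆) ∧
    Submodule.span ℚ (δ '' (D : Set G)) = ⊤

theorem Full.zero_iff (h : Full D act δ) (φ : Module.End ℚ V) :
    φ = 0 ↔ ∀ c ∈ D, φ (δ c) = 0 :=
  ⟨fun e _ _ => by rw [e]; rfl, fun e => LinearMap.ext_on h.2.2 (by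
    rintro _ ⟨c, hc, rfl⟩
    exact e c hc)⟩

theorem Full.ann [D.Normal] (h : Full D act δ) (g : G) (l : List ℤ) :
    Ann D g l ↔ Polynomial.aeval (act g) (lp l) = 0 := by
  rw [h.zero_iff]
  refine forall₂_congr fun c hc => ?_
  rw [← h.1.pv g hc, h.2.1 _ (pv_mem g hc l)]

theorem Full.unip [D.Normal] (h : Full D act δ) (g : G) :
    Unip D g ↔ IsNilpotent (act g - 1) := by
  refine exists_congr fun k => ?_
  rw [h.zero_iff]
  refine forall₂_congr fun c hc => ?_
  rw [← h.1.itc g hc, h.2.1 _ (itc_mem g hc k)]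

theorem Full.act_eq_one [D.Normal] (h : Full D act δ) {d : G} (hd : d ∈ D) : act d = 1 :=
  sub_eq_zero.1 ((h.zero_iff _).2 fun _ hc => by
    rw [LinearMap.sub_apply, h.1.act_mem hc hd, Module.End.one_apply, sub_self])

theorem Full.commute {T : Subgroup G} [T.Normal] (h : Full ⁅T, T⁆ act δ) {x y : G} (hx : x ∈ T)
    (hy : y ∈ T) : Commute (act x) (act y) := by
  have e : x * y = ⁅x, y⁆ * (y * x) := by rw [commutatorElement_def]; group
  show act x * act y = act y * act x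
  rw [← map_mul, e, map_mul, h.act_eq_one (Subgroup.commutator_mem_commutator hx hy), one_mul,
    map_mul]

theorem comm_le_of_gens {T K : Subgroup G} {E : Set G} (hE : Subgroup.closure E = T)
    (hK : ∀ t ∈ T, ∀ k ∈ K, t * k * t⁻¹ ∈ K) (h : ∀ a ∈ E, ∀ a' ∈ E, ⁅a, a'⁆ ∈ K) :
    ⁅T, T⁆ ≤ K := by
  subst hE
  have key : ∀ z, (∀ a ∈ E, ⁅a, z⁆ ∈ K) → ∀ x ∈ Subgroup.closure E, ⁅x, z⁆ ∈ K := by
    intro z hz x hx
    induction hx using Subgroup.closure_induction with
    | mem x hx => exact hz x hx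
    | one => rw [commutatorElement_one_left]; exact K.one_mem
    | mul x y hx _ ix iy =>
      have e : ⁅x * y, z⁆ = x * ⁅y, z⁆ * x⁻¹ * ⁅x, z⁆ := by
        simp only [commutatorElement_def]; group
      rw [e]
      exact K.mul_mem (hK x hx _ iy) ix
    | inv x hx ix =>
      have e : ⁅x⁻¹, z⁆ = x⁻¹ * ⁅x, z⁆⁻¹ * x⁻¹⁻¹ := by
        simp only [commutatorElement_def]; group
      rw [e]
      exact hK _ (inv_mem hx) _ (K.inv_mem ix)
  refine Subgroup.commutator_le.2 fun x hx y hy => key y (fun a ha => ?_) x hx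
  rw [← commutatorElement_inv]
  exact K.inv_mem (key a (fun a' ha' => h a' ha' a ha) y hy)

theorem Full.zero_iff_gens {T : Subgroup G} [T.Normal] (h : Full ⁅T, T⁆ act δ) {E : List G}
    (hE : Subgroup.closure {x | x ∈ E} = T) {φ : Module.End ℚ V}
    (hφ : ∀ t ∈ T, Commute (act t) φ) :
    φ = 0 ↔ ∀ a ∈ E, ∀ a' ∈ E, φ (δ ⁅a, a'⁆) = 0 := by
  refine ⟨fun e _ _ _ _ => by rw [e]; rfl, fun e => (h.zero_iff φ).2 fun c hc => ?_⟩
  have hT : ∀ a ∈ E, a ∈ T := fun a ha => hE ▸ Subgroup.subset_closure ha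
  let K : Subgroup G :=
    { carrier := {c | c ∈ ⁅T, T⁆ ∧ φ (δ c) = 0}
      one_mem' := ⟨one_mem _, by rw [h.1.one, map_zero]⟩
      mul_mem' := fun {a b} ha hb => ⟨mul_mem ha.1 hb.1, by
        rw [h.1.1 a ha.1 b hb.1, map_add, ha.2, hb.2, add_zero]⟩
      inv_mem' := fun {a} ha => ⟨inv_mem ha.1, by rw [h.1.inv ha.1, map_neg, ha.2, neg_zero]⟩ }
  refine (comm_le_of_gens (K := K) hE (fun t ht k hk => ⟨?_, ?_⟩)
    (fun a ha a' ha' => ⟨Subgroup.commutator_mem_commutator (hT a ha) (hT a' ha'),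
      e a ha a' ha'⟩) hc).2
  · exact Subgroup.Normal.conj_mem inferInstance _ hk.1 t
  · rw [h.1.2 t k hk.1, ← Module.End.mul_apply, ← (hφ t ht).eq, Module.End.mul_apply, hk.2,
      map_zero]

theorem commute_aeval {A : Type} [Ring A] {x y : A} (h : Commute x y) (l : List ℤ) :
    Commute x (Polynomial.aeval y (lp l)) := by
  induction l with
  | nil =>
    show Commute x (Polynomial.aeval y (0 : Polynomial ℤ))
    rw [map_zero]
    exact Commute.zero_right x
  | cons a l ih =>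
    show Commute x (Polynomial.aeval y (Polynomial.C a + Polynomial.X * lp l))
    rw [map_add, map_mul, Polynomial.aeval_C, Polynomial.aeval_X]
    exact (Algebra.commute_algebraMap_right a x).add_right (h.mul_right ih)

end sec

theorem lp_surjective (f : Polynomial ℤ) : ∃ l, lp l = f := by
  induction f using Polynomial.recOnHorner with
  | M0 => exact ⟨[], rfl⟩
  | MC p a _ _ ih =>
    obtain ⟨l, rfl⟩ := ih
    cases l with
    | nil => exact ⟨[a], by simp [lp]⟩
    | cons b l => exact ⟨(b + a) :: l, by simp only [lp, List.foldr_cons, map_add]; ring⟩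
  | MX p _ ih =>
    obtain ⟨l, rfl⟩ := ih
    exact ⟨0 :: l, by simp only [lp, List.foldr_cons, map_zero]; ring⟩

theorem unip_iff_ann (D : Subgroup G) [D.Normal] (g : G) :
    Unip D g ↔ ∃ k l, lp l = (Polynomial.X - 1) ^ k ∧ Ann D g l := by
  obtain ⟨V, _, _, act, δ, h⟩ := exists_sec D
  have h' : Full D act δ := h
  rw [h'.unip]
  refine exists_congr fun k => ⟨fun e => ?_, ?_⟩
  · obtain ⟨l, hl⟩ := lp_surjective ((Polynomial.X - 1) ^ k)
    refine ⟨l, hl, (h'.ann g l).2 ?_⟩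
    rw [hl, map_pow, map_sub, Polynomial.aeval_X, map_one, e]
  · rintro ⟨l, hl, e⟩
    rwa [h'.ann, hl, map_pow, map_sub, Polynomial.aeval_X, map_one] at e

theorem exists_ann (hG : FinRank G) (D : Subgroup G) [D.Normal] (g : G) :
    ∃ l, lp l ≠ 0 ∧ Ann D g l := by
  obtain ⟨V, _, _, act, δ, h⟩ := exists_sec D
  have h' : Full D act δ := h
  have hf := h.1.finite hG
  rw [h.2.2] at hf
  have : Module.Finite ℚ V := Module.Finite.equiv Submodule.topEquiv
  obtain ⟨p, hp, hp'⟩ := (LinearMap.isIntegral (act g)).isAlgebraic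
  obtain ⟨l, hl⟩ := lp_surjective (IsLocalization.integerNormalization (nonZeroDivisors ℤ) p)
  obtain ⟨b, _, hb⟩ := IsLocalization.integerNormalization_spec (nonZeroDivisors ℤ) p
  refine ⟨l, ?_, (h'.ann g l).2 ?_⟩
  · rw [hl]
    exact mt IsFractionRing.integerNormalization_eq_zero_iff.1 hp
  · rw [hl, ← Polynomial.aeval_map_algebraMap ℚ, hb, map_zsmul, hp', smul_zero]

/-- It suffices to test the commutators of generators. -/
theorem ann_iff_gens {T : Subgroup G} [T.Normal] {E : List G}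
    (hE : Subgroup.closure {x | x ∈ E} = T) {g : G} (hg : g ∈ T) (l : List ℤ) :
    Ann ⁅T, T⁆ g l ↔ ∀ a ∈ E, ∀ a' ∈ E, ∃ m, 0 < m ∧ pv g ⁅a, a'⁆ l ^ m ∈ ⁅⁅T, T⁆, ⁅T, T⁆⁆ := by
  obtain ⟨V, _, _, act, δ, h⟩ := exists_sec ⁅T, T⁆
  have h' : Full ⁅T, T⁆ act δ := h
  have hT : ∀ a ∈ E, a ∈ T := fun a ha => hE ▸ Subgroup.subset_closure ha
  rw [h'.ann, h'.zero_iff_gens hE fun t ht => commute_aeval (h'.commute ht hg) l]
  refine forall₂_congr fun a ha => forall₂_congr fun a' ha' => ?_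
  have hc := Subgroup.commutator_mem_commutator (hT a ha) (hT a' ha')
  rw [← h.1.pv g hc, h.2.1 _ (pv_mem g hc l)]

theorem unip_iff_gens {T : Subgroup G} [T.Normal] {E : List G}
    (hE : Subgroup.closure {x | x ∈ E} = T) {g : G} (hg : g ∈ T) :
    Unip ⁅T, T⁆ g ↔
      ∃ k, ∀ a ∈ E, ∀ a' ∈ E, ∃ m, 0 < m ∧ itc g ⁅a, a'⁆ k ^ m ∈ ⁅⁅T, T⁆, ⁅T, T⁆⁆ := by
  obtain ⟨V, _, _, act, δ, h⟩ := exists_sec ⁅T, T⁆
  have h' : Full ⁅T, T⁆ act δ := h
  have hT : ∀ a ∈ E, a ∈ T := fun a ha => hE ▸ Subgroup.subset_closure ha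
  rw [h'.unip]
  refine exists_congr fun k => ?_
  rw [h'.zero_iff_gens hE fun t ht =>
    ((h'.commute ht hg).sub_right (Commute.one_right _)).pow_right k]
  refine forall₂_congr fun a ha => forall₂_congr fun a' ha' => ?_
  have hc := Subgroup.commutator_mem_commutator (hT a ha) (hT a' ha')
  rw [← h.1.itc g hc, h.2.1 _ (itc_mem g hc k)]

theorem mem_Ncan {e₁ e₂ : ℕ} {g : G} :
    g ∈ Ncan e₁ e₂ G ↔ g ∈ res₂ e₁ e₂ G ∧ Unip (dres e₁ G) g := by
  refine ⟨fun hg => ?_, fun hg => Subgroup.subset_closure hg⟩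
  obtain ⟨V, _, _, act, δ, h⟩ := exists_sec ⁅res e₁ G, res e₁ G⁆
  have h' : Full ⁅res e₁ G, res e₁ G⁆ act δ := h
  have hu : ∀ x, Unip (dres e₁ G) x ↔ IsNilpotent (act x - 1) := h'.unip
  induction hg using Subgroup.closure_induction with
  | mem x hx => exact hx
  | one => exact ⟨one_mem _, (hu _).2 (by rw [map_one, sub_self]; exact IsNilpotent.zero)⟩
  | mul x y _ _ hx hy =>
    refine ⟨mul_mem hx.1 hy.1, (hu _).2 ?_⟩
    have c := h'.commute hx.1.1 hy.1.1
    have c1 : Commute (act x - 1) (act y) := c.sub_left (Commute.one_left _)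
    have e : act (x * y) - 1 = (act x - 1) * act y + (act y - 1) := by
      rw [map_mul, sub_mul, one_mul, sub_add_sub_cancel]
    rw [e]
    refine Commute.isNilpotent_add ?_ (c1.isNilpotent_mul_right ((hu _).1 hx.2)) ((hu _).1 hy.2)
    exact (c1.mul_left (Commute.refl _)).sub_right (Commute.one_right _)
  | inv x _ hx =>
    refine ⟨inv_mem hx.1, (hu _).2 ?_⟩
    have c := h'.commute hx.1.1 (inv_mem hx.1.1)
    have c1 : Commute (act x - 1) (act x⁻¹) := c.sub_left (Commute.one_left _)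
    have e : act x⁻¹ - 1 = -((act x - 1) * act x⁻¹) := by
      rw [sub_mul, ← map_mul, mul_inv_cancel, map_one, one_mul, neg_sub]
    rw [e]
    exact (c1.isNilpotent_mul_right ((hu _).1 hx.2)).neg

theorem res_map (φ : G →* H) {e : ℕ} {g : G} (h : g ∈ res e G) : φ g ∈ res e H :=
  Subgroup.mem_iInf.2 fun π => Subgroup.mem_iInf.1 h (π.comp φ)

theorem comm_map (φ : G →* H) {A : Subgroup G} {B : Subgroup H} (h : ∀ g ∈ A, φ g ∈ B) :
    ∀ g ∈ ⁅A, A⁆, φ g ∈ ⁅B, B⁆ := by
  have h' : A.map φ ≤ B := Subgroup.map_le_iff_le_comap.2 h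
  have : (⁅A, A⁆).map φ ≤ ⁅B, B⁆ := by
    rw [Subgroup.map_commutator]
    exact Subgroup.commutator_mono h' h'
  exact Subgroup.map_le_iff_le_comap.1 this

theorem dres_map (φ : G →* H) {e : ℕ} {g : G} (h : g ∈ dres e G) : φ g ∈ dres e H :=
  comm_map φ (fun _ => res_map φ) g h

theorem itc_map (φ : G →* H) (g c : G) (k : ℕ) : φ (itc g c k) = itc (φ g) (φ c) k := by
  induction k with
  | zero => rfl
  | succ k ih => simp only [itc_succ, map_mul, map_inv, ih]

theorem pv_map (φ : G →* H) (g c : G) (l : List ℤ) : φ (pv g c l) = pv (φ g) (φ c) l := by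
  induction l with
  | nil => exact map_one φ
  | cons a l ih =>
    show φ (c ^ a * (g * pv g c l * g⁻¹)) = φ c ^ a * (φ g * pv (φ g) (φ c) l * (φ g)⁻¹)
    simp only [map_mul, map_inv, map_zpow, ih]

theorem Ncan_map (φ : G ≃* H) {e₁ e₂ : ℕ} {g : G} (h : g ∈ Ncan e₁ e₂ G) :
    φ g ∈ Ncan e₁ e₂ H := by
  obtain ⟨h1, k, h2⟩ := mem_Ncan.1 h
  refine mem_Ncan.2 ⟨⟨res_map φ.toMonoidHom h1.1, res_map φ.toMonoidHom h1.2⟩, k, fun c hc => ?_⟩
  obtain ⟨m, hm, h3⟩ := h2 _ (dres_map φ.symm.toMonoidHom hc)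
  refine ⟨m, hm, ?_⟩
  have h4 := comm_map φ.toMonoidHom (fun _ => dres_map φ.toMonoidHom) _ h3
  rw [map_pow, itc_map] at h4
  simpa using h4

instance Ncan_normal (e₁ e₂ : ℕ) : (Ncan e₁ e₂ G).Normal :=
  ⟨fun _ h g => Ncan_map (MulAut.conj g) h⟩

theorem comm_res₂_le (e₁ e₂ : ℕ) : ⁅res₂ e₁ e₂ G, res₂ e₁ e₂ G⁆ ≤ Ncan e₁ e₂ G := by
  intro g hg
  refine mem_Ncan.2 ⟨Subgroup.commutator_le_self _ hg, 1, fun c hc => ⟨1, one_pos, ?_⟩⟩
  rw [pow_one]
  exact Subgroup.commutator_mem_commutator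
    (Subgroup.commutator_mono inf_le_left inf_le_left hg) hc

theorem res_finiteIndex [Group.FG G] (e : ℕ) : (res e G).FiniteIndex := by
  obtain ⟨s, hs⟩ := Group.fg_def.1 (inferInstance : Group.FG G)
  have : Finite (G →* Equiv.Perm (Fin e)) :=
    Finite.of_injective (fun π (x : s) => π x) fun π π' h =>
      MonoidHom.eq_of_eqOn_dense hs fun x hx => congrFun h ⟨x, hx⟩
  exact Subgroup.finiteIndex_iInf fun π => inferInstance

theorem res₂_finiteIndex [Group.FG G] (e₁ e₂ : ℕ) : (res₂ e₁ e₂ G).FiniteIndex := by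
  have := res_finiteIndex (G := G) e₁
  have := res_finiteIndex (G := G) e₂
  exact inferInstanceAs (res e₁ G ⊓ res e₂ G).FiniteIndex

theorem res_le_ker {α : Type} {e : ℕ} (ι : α ↪ Fin e) (π : G →* Equiv.Perm α) :
    res e G ≤ π.ker := fun _ h =>
  (injective_iff_map_eq_one _).1 (Equiv.Perm.viaEmbeddingHom_injective ι) _
    (Subgroup.mem_iInf.1 h ((Equiv.Perm.viaEmbeddingHom ι).comp π))

theorem res_anti {e e' : ℕ} (h : e ≤ e') : res e' G ≤ res e G :=
  le_iInf fun π => res_le_ker (Fin.castLEEmb h) π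

theorem res_le_of_index {T : Subgroup G} [T.FiniteIndex] {e : ℕ} (h : T.index ≤ e) :
    res e G ≤ T := by
  have ι : G ⧸ T ↪ Fin e := (Finite.equivFin _).toEmbedding.trans (Fin.castLEEmb h)
  refine (res_le_ker ι (MulAction.toPermHom G (G ⧸ T))).trans ?_
  rw [← Subgroup.normalCore_eq_ker]
  exact T.normalCore_le

theorem mem_res_equiv (φ : G ≃* H) {e : ℕ} {g : G} : φ g ∈ res e H ↔ g ∈ res e G :=
  ⟨fun h => by simpa using res_map φ.symm.toMonoidHom h, res_map φ.toMonoidHom⟩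

theorem mem_res₂_equiv (φ : G ≃* H) {e₁ e₂ : ℕ} {g : G} :
    φ g ∈ res₂ e₁ e₂ H ↔ g ∈ res₂ e₁ e₂ G :=
  and_congr (mem_res_equiv φ) (mem_res_equiv φ)

theorem mem_dres_equiv (φ : G ≃* H) {e : ℕ} {g : G} : φ g ∈ dres e H ↔ g ∈ dres e G :=
  ⟨fun h => by simpa using dres_map φ.symm.toMonoidHom h, dres_map φ.toMonoidHom⟩

theorem mem_Ncan_equiv (φ : G ≃* H) {e₁ e₂ : ℕ} {g : G} :
    φ g ∈ Ncan e₁ e₂ H ↔ g ∈ Ncan e₁ e₂ G :=
  ⟨fun h => by simpa using Ncan_map φ.symm h, Ncan_map φ⟩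

theorem Ann.equiv (φ : G ≃* H) {e : ℕ} {g : G} {l : List ℤ} (h : Ann (dres e G) g l) :
    Ann (dres e H) (φ g) l := by
  intro c hc
  obtain ⟨m, hm, h3⟩ := h _ (dres_map φ.symm.toMonoidHom hc)
  refine ⟨m, hm, ?_⟩
  have h4 := comm_map φ.toMonoidHom (fun _ => dres_map φ.toMonoidHom) _ h3
  rw [map_pow, pv_map] at h4
  simpa using h4

end Pool.Agent.P.MP_257122_al
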