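import Pool.Agent.P.MP_257122_al.FGrp
import Pool.Agent.P.MP_257122_al.FBtw
import Pool.Agent.P.MP_257122_al.MSec
import Pool.Agent.P.MP_257122_al.FPoly

/-!
# Finite permutation quotients, subgroups of finite index, words

PLAN.  `CS.derLeKer`: the derived subgroup number `j` lies in the kernel iff there are lists
`L 0, ..., L j` of elements of the finite group, each closed under products and inverses and
containing `1`, the generators in `L 0`, commutators of `L i` in `L (i+1)`, and `L j ⊆ {1}`.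
`w ∈ comap q (res e G)` iff every `π : Fin b → Perm (Fin e)` that kills the relations kills `w`.
`MV.gens`: search `E ⊆ T` and a list `r` of elements outside `T` such that every
`s * x^(±1)` (`s ∈ 1 :: r`) lies in `closure E * s'` for some `s' ∈ 1 :: r`.
-/

namespace Pool.Agent.P.MP_257122_al

open scoped commutatorElement
open FOpsAux

instance repPerm {α : Type} [Rep α] : Rep (Equiv.Perm α) :=
  Rep.ofPull (fun σ => ((σ : α → α), (σ.symm : α → α)))

variable {A : Type} [Rep A]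

section perm
variable {ι : A → Type} [∀ a, Rep (ι a)]

namespace GResAux

theorem permApp {σ : ∀ a, Equiv.Perm (ι a)} {x : ∀ a, ι a} (h : CS σ) (hx : CS x) :
    CS (fun a => σ a (x a)) :=
  CS.app (f := fun a => (σ a : ι a → ι a))
    (CS.fst (g := fun a => ((σ a : ι a → ι a), ((σ a).symm : ι a → ι a))) h) hx

theorem permSymm {σ : ∀ a, Equiv.Perm (ι a)} {x : ∀ a, ι a} (h : CS σ) (hx : CS x) :
    CS (fun a => (σ a).symm (x a)) :=
  CS.app (f := fun a => ((σ a).symm : ι a → ι a))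
    (CS.snd (g := fun a => ((σ a : ι a → ι a), ((σ a).symm : ι a → ι a))) h) hx

theorem permIntro {σ : ∀ a, Equiv.Perm (ι a)} (h : CS (fun p : Σ a, ι a => σ p.1 p.2))
    (h' : CS (fun p : Σ a, ι a => (σ p.1).symm p.2)) : CS σ :=
  CS.pair (f := fun a => (σ a : ι a → ι a)) (g := fun a => ((σ a).symm : ι a → ι a))
    (CS.lam h) (CS.lam h')

/-- Pairs of mutually inverse maps. -/
def InvP {α : Type} (q : (α → α) × (α → α)) : Prop :=
  (∀ x, q.2 (q.1 x) = x) ∧ ∀ x, q.1 (q.2 x) = x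

/-- The permutation given by such a pair. -/
def ofInvP {α : Type} (q : Subtype (InvP (α := α))) : Equiv.Perm α := ⟨q.1.1, q.1.2, q.2.1, q.2.2⟩

theorem ofInvP_bij {α : Type} : Function.Bijective (ofInvP (α := α)) := by
  constructor
  · rintro ⟨⟨f, g⟩, h⟩ ⟨⟨f', g'⟩, h'⟩ e
    have e1 : f = f' := congrArg Equiv.toFun e
    have e2 : g = g' := congrArg Equiv.invFun e
    subst e1 e2
    rfl
  · intro σ
    exact ⟨⟨(σ, σ.symm), σ.symm_apply_apply, σ.apply_symm_apply⟩, rfl⟩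

theorem cfin_perm (h : CFin ι) (hd : Disc ι) : CFin (fun a => Equiv.Perm (ι a)) := by
  have k1 : CS (fun r : Σ q : (Σ a, (ι a → ι a) × (ι a → ι a)), ι q.1 => r.1.2.2 (r.1.2.1 r.2)) :=
    CS.app (s2.comp s1).snd (CS.app (s2.comp s1).fst s2)
  have k2 : CS (fun r : Σ q : (Σ a, (ι a → ι a) × (ι a → ι a)), ι q.1 => r.1.2.1 (r.1.2.2 r.2)) :=
    CS.app (s2.comp s1).fst (CS.app (s2.comp s1).snd s2)
  have hh := h.haus hd
  refine FEnumAux.cfin_image (U := fun a => Subtype (InvP (α := ι a))) (f := fun _ => ofInvP)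
    (CFin.subtype ((CFin.pi h hd h).prod (CFin.pi h hd h)) ?_ ?_) ?_ fun _ => ofInvP_bij
  · exact CS.and (CS.all (h.comp s1) (CS.eq (hd.comp (s1.comp s1)) k1 s2))
      (CS.all (h.comp s1) (CS.eq (hd.comp (s1.comp s1)) k2 s2))
  · exact CS.notAnd (CS.notAll (h.enum.comp s1) (CS.notEq (hh.comp (s1.comp s1)) k1 s2))
      (CS.notAll (h.enum.comp s1) (CS.notEq (hh.comp (s1.comp s1)) k2 s2))
  · exact CS.pair (CS.val s2).fst (CS.val s2).snd

theorem disc_perm (h : CFin ι) (hd : Disc ι) : Disc (fun a => Equiv.Perm (ι a)) :=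
  (CS.all (P := fun (p : Σ a, Equiv.Perm (ι a) × Equiv.Perm (ι a)) (x : ι p.1) =>
      p.2.1 x = p.2.2 x) (h.comp s1)
    (CS.eq (hd.comp (s1.comp s1)) (permApp (s2.comp s1).fst s2)
      (permApp (s2.comp s1).snd s2))).of_iff fun _ _ => Equiv.ext_iff.symm

end GResAux
open GResAux

@[aesop safe 50 apply (transparency := reducible) (rule_sets := [Restrict])]
theorem CFin.perm (h : CFin ι) (hd : Disc ι) : CFin (fun a => Equiv.Perm (ι a)) :=
  cfin_perm h hd
@[aesop safe 50 apply (transparency := reducible) (rule_sets := [Restrict])]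
theorem Disc.perm (h : CFin ι) (hd : Disc ι) : Disc (fun a => Equiv.Perm (ι a)) :=
  disc_perm h hd
@[aesop safe 50 apply (transparency := reducible) (rule_sets := [Restrict])]
theorem Haus.perm (h : CFin ι) (hd : Disc ι) : Haus (fun a => Equiv.Perm (ι a)) :=
  (cfin_perm h hd).haus (disc_perm h hd)
@[aesop safe 50 apply (transparency := reducible) (rule_sets := [Restrict])]
theorem OneF.perm : OneF (fun a => Equiv.Perm (ι a)) := permIntro s2 s2
@[aesop safe 50 apply (transparency := reducible) (rule_sets := [Restrict])]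
theorem MulF.perm : MulF (fun a => Equiv.Perm (ι a)) :=
  permIntro ((permApp (s2.comp s1).fst (permApp (s2.comp s1).snd s2)).congr fun _ _ => rfl)
    ((permSymm (s2.comp s1).snd (permSymm (s2.comp s1).fst s2)).congr fun _ _ => rfl)
@[aesop safe 50 apply (transparency := reducible) (rule_sets := [Restrict])]
theorem InvF.perm : InvF (fun a => Equiv.Perm (ι a)) :=
  permIntro (permSymm (s2.comp s1) s2) (permApp (s2.comp s1) s2)
end perm

section words
variable {G : A → Type} [∀ a, Rep (G a)] [∀ a, Group (G a)]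
@[aesop safe 50 apply (transparency := reducible) (rule_sets := [Restrict])]
theorem CS.zp {k : A → ℕ} {τ : ∀ a, Fin (k a) → G a} {t : ∀ a, Fin (k a) → ℤ} (hm : MulF G)
    (hi : InvF G) (h1 : OneF G) (hk : CS k) (hτ : CS τ) (ht : CS t) :
    CS (fun a => zp (τ a) (t a)) :=
  CS.listProd hm h1 (CS.ofFn hk (CS.lam (CS.zpow (hm.comp s1) (h1.comp s1) (hi.comp s1)
    (CS.app (hτ.comp s1) s2) (CS.app (ht.comp s1) s2))))
@[aesop safe 50 apply (transparency := reducible) (rule_sets := [Restrict])]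
theorem CS.pv {g c : ∀ a, G a} {l : A → List ℤ} (hm : MulF G) (hi : InvF G) (h1 : OneF G)
    (hg : CS g) (hc : CS c) (hl : CS l) : CS (fun a => pv (g a) (c a) (l a)) :=
  CS.foldr (cur2 (CS.mul (hm.comp s1)
    (CS.zpow (hm.comp s1) (h1.comp s1) (hi.comp s1) (hc.comp s1) s2.fst)
    (CS.mul (hm.comp s1) (CS.mul (hm.comp s1) (hg.comp s1) s2.snd)
      (CS.inv (hi.comp s1) (hg.comp s1))))) h1 hl
@[aesop safe 50 apply (transparency := reducible) (rule_sets := [Restrict])]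
theorem CS.itc {g c : ∀ a, G a} {k : A → ℕ} (hm : MulF G) (hi : InvF G)
    (hg : CS g) (hc : CS c) (hk : CS k) : CS (fun a => itc (g a) (c a) (k a)) :=
  CS.iterate (CS.lam (CS.commutator (hm.comp s1) (hi.comp s1) (hg.comp s1) s2)) hk hc
@[aesop safe 50 apply (transparency := reducible) (rule_sets := [Restrict])]
theorem CS.lp {l : A → List ℤ} (hl : CS l) : CS (fun a => lp (l a)) :=
  CS.foldr (cur2 (CS.add AddF.poly (CS.polyC s2.fst)
    (CS.mul (MulF.poly MulF.int) (CS.polyX OneF.int) s2.snd))) ZeroF.poly hl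

namespace GResAux

theorem coClosure_iff {G : Type} [Group G] (hf : ∃ l : List G, ∀ x, x ∈ l) {s : Set G} {x : G} :
    (∃ L : List G, (1 ∈ L ∧ ∀ y ∈ L, ∀ z ∈ L, y * z⁻¹ ∈ L) ∧ (∀ y, y ∈ sᶜ ∨ y ∈ L) ∧ ¬ x ∈ L) ↔
      x ∈ (Subgroup.closure s : Set G)ᶜ := by
  classical
  constructor
  · rintro ⟨L, ⟨h1, h2⟩, h3, h4⟩ hx
    have : Subgroup.closure s ≤ Subgroup.ofDiv {y | y ∈ L} ⟨1, h1⟩ (fun y hy z hz => h2 y hy z hz) :=
      (Subgroup.closure_le _).2 fun y hy => (h3 y).resolve_left fun h => h hy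
    exact h4 (this hx)
  · intro hx
    obtain ⟨l, hl⟩ := hf
    have hm : ∀ y, y ∈ l.filter (fun y => y ∈ Subgroup.closure s) ↔ y ∈ Subgroup.closure s :=
      fun y => by simp [hl y]
    refine ⟨l.filter (fun y => y ∈ Subgroup.closure s), ⟨(hm _).2 (one_mem _), fun y hy z hz =>
      (hm _).2 (mul_mem ((hm _).1 hy) (inv_mem ((hm _).1 hz)))⟩, fun y => ?_,
      fun h => hx ((hm _).1 h)⟩
    exact (em (y ∈ s)).symm.imp id fun h => (hm _).2 (Subgroup.subset_closure h)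

theorem coClosure (hG : GrpF G) (hf : CFin G) {s : ∀ a, Set (G a)} (h : CS (fun a => (s a)ᶜ)) :
    CS (fun a => (Subgroup.closure (s a) : Set (G a))ᶜ) := by
  have hh := hf.haus hG.disc
  have t2 : CS (fun q : Σ p : (Σ a, G a), List (G p.1) => q.1.1) := s1.comp s1
  refine CS.setIntro ((CS.ex (P := fun (p : Σ a, G a) (L : List (G p.1)) =>
    (1 ∈ L ∧ ∀ y ∈ L, ∀ z ∈ L, y * z⁻¹ ∈ L) ∧ (∀ y, y ∈ (s p.1)ᶜ ∨ y ∈ L) ∧ ¬ p.2 ∈ L)
    (hG.enum.list.comp s1) (CS.and (CS.and ?_ ?_) (CS.and ?_ ?_))).of_iff fun p hp => ?_)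
  · exact CS.memList (hG.disc.comp t2) (hG.one.comp t2) s2
  · have t4 := (t2.comp (s1 (β := fun q => G q.1.1))).comp (s1 (β := fun q => G q.1.1.1))
    exact CS.allMem s2 (CS.allMem (s2.comp s1) (CS.memList (hG.disc.comp t4)
      (CS.mul (hG.mul.comp t4) (s2.comp s1) (CS.inv (hG.inv.comp t4) s2)) ((s2.comp s1).comp s1)))
  · exact CS.all (hf.comp t2) (CS.or (CS.memSet (h.comp (t2.comp s1)) s2)
      (CS.memList (hG.disc.comp (t2.comp s1)) s2 (s2.comp s1)))
  · exact CS.notMemList (hh.comp t2) (s2.comp s1) s2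
  · obtain ⟨l, -, -, hl⟩ := MV.exists hf (coded_sigma.1 hp).1
    exact coClosure_iff ⟨l, hl⟩

theorem coComm (hG : GrpF G) (hf : CFin G) {K : ∀ a, Subgroup (G a)}
    (h : CS (fun a => (K a : Set (G a))ᶜ)) :
    CS (fun a => ((⁅K a, K a⁆ : Subgroup (G a)) : Set (G a))ᶜ) := by
  have hh := hf.haus hG.disc
  have t2 : CS (fun q : Σ p : (Σ a, G a), G p.1 × G p.1 => q.1.1) := s1.comp s1
  refine coClosure hG hf (CS.setIntro ((CS.all (P := fun (p : Σ a, G a) (q : G p.1 × G p.1) =>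
    q.1 ∈ (K p.1 : Set (G p.1))ᶜ ∨ q.2 ∈ (K p.1 : Set (G p.1))ᶜ ∨ ¬ ⁅q.1, q.2⁆ = p.2)
    ((hf.prod hf).comp s1) (CS.or (CS.memSet (h.comp t2) s2.fst)
      (CS.or (CS.memSet (h.comp t2) s2.snd) (CS.notEq (hh.comp t2)
        (CS.commutator (hG.mul.comp t2) (hG.inv.comp t2) s2.fst s2.snd) (s2.comp s1))))).of_iff
    fun p _ => ?_))
  constructor
  · rintro k ⟨x, hx, y, hy, e⟩
    rcases k (x, y) with k | k | k
    exacts [k hx, k hy, k e]
  · intro k q
    by_contra c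
    simp only [not_or, Set.mem_compl_iff, not_not] at c
    exact k ⟨q.1, c.1, q.2, c.2.1, c.2.2⟩

end GResAux
open GResAux

theorem CS.derLeKer {b j : A → ℕ} {g : ∀ a, Fin (b a) → G a} (hG : GrpF G) (hf : CFin G)
    (hb : CS b) (hj : CS j) (hg : CS g) :
    CS (fun a => _root_.derivedSeries (Fr (b a)) (j a) ≤ (FreeGroup.lift (g a)).ker) := by
  have h0 : CS (fun a => (Set.range (g a))ᶜ) :=
    CS.setIntro ((CS.all (P := fun (p : Σ a, G a) (i : Fin (b p.1)) => ¬ g p.1 i = p.2)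
      (CFin.fin (hb.comp s1)) (CS.notEq ((hf.haus hG.disc).comp (s1.comp s1))
        (CS.app (hg.comp (s1.comp s1)) s2) (s2.comp s1))).of_iff fun _ _ => not_exists.symm)
  have k2 : CS (fun p : Σ a, Σ _ : ℕ, Set (G a) => p.2.2) :=
    FEnumAux.s2 (β := fun (p : Σ a, Σ _ : ℕ, Set (G a)) (_ : ℕ) => Set (G p.1)) s2
  have k : CS (fun a => (((_root_.derivedSeries (Fr (b a)) (j a)).map
      (FreeGroup.lift (g a)) : Subgroup (G a)) : Set (G a))ᶜ) := by
    refine CS.seq (T := fun a _ => Set (G a)) (Y := fun a i =>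
      (((_root_.derivedSeries (Fr (b a)) i).map (FreeGroup.lift (g a)) : Subgroup (G a)) :
        Set (G a))ᶜ) ((coClosure hG hf h0).congr fun a _ => ?_) ?_ hj
    · rw [derivedSeries_zero, ← MonoidHom.range_eq_map, FreeGroup.range_lift_eq_closure]
    · refine (coComm (K := fun p => (_root_.derivedSeries (Fr (b p.1.1)) p.1.2.1).map
        (FreeGroup.lift (g p.1.1))) (hG.comp v1) (hf.comp v1)
        ((k2.comp (CS.val CS.id)).congr fun p _ => p.2)).congr fun p _ => ?_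
      rw [derivedSeries_succ, Subgroup.map_commutator]
  refine (CS.all (P := fun a x => x ∈ (((_root_.derivedSeries (Fr (b a)) (j a)).map
      (FreeGroup.lift (g a)) : Subgroup (G a)) : Set (G a))ᶜ ∨ x = 1) hf
    (CS.or (CS.memSet (k.comp s1) s2)
    (CS.eq (hG.disc.comp s1) s2 (hG.one.comp s1)))).of_iff fun a _ => ?_
  rw [← Subgroup.map_eq_bot_iff, Subgroup.eq_bot_iff_forall]
  exact forall_congr' fun x => imp_iff_not_or.symm
end words

@[aesop safe 50 apply (transparency := reducible) (rule_sets := [Restrict])]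
theorem CS.relS {b d : A → ℕ} {W : ∀ a, List (Fr (b a))} (hb : CS b) (hd : CS d) (hW : CS W) :
    CS (fun a => relS (d a) (W a)) :=
  have hF : GrpF (fun a => Fr (b a)) := GrpF.free (Enum.fin hb) Disc.fin Haus.fin
  CS.subgroupSup hF (CS.normalClosure hF (CS.setOf (CS.memList (hF.disc.comp s1) s2 (hW.comp s1))))
    (CS.derivedSeries hF hd)

namespace GResAux

theorem grpFr {b : A → ℕ} (hb : CS b) : GrpF (fun a => Fr (b a)) :=
  GrpF.free (Enum.fin hb) Disc.fin Haus.fin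

theorem grpPerm {e : A → ℕ} (he : CS e) : GrpF (fun a => Equiv.Perm (Fin (e a))) :=
  ⟨(CFin.perm (CFin.fin he) Disc.fin).enum, Disc.perm (CFin.fin he) Disc.fin, OneF.perm,
    MulF.perm, InvF.perm⟩

theorem mem_res_comap {ι : Type} {S : Subgroup (FreeGroup ι)} [S.Normal] {e : ℕ}
    {w : FreeGroup ι} : (∀ g : ι → Equiv.Perm (Fin e), S ≤ (FreeGroup.lift g).ker →
      FreeGroup.lift g w = 1) ↔ w ∈ (res e (FreeGroup ι ⧸ S)).comap (QuotientGroup.mk' S) := by
  rw [Subgroup.mem_comap, res, Subgroup.mem_iInf]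
  constructor
  · intro h π
    have e : FreeGroup.lift (fun i => π (QuotientGroup.mk' S (FreeGroup.of i))) =
        π.comp (QuotientGroup.mk' S) := FreeGroup.ext_hom _ _ fun i => FreeGroup.lift_apply_of
    have := h (fun i => π (QuotientGroup.mk' S (FreeGroup.of i))) (by
      rw [e]
      intro s hs
      rw [MonoidHom.mem_ker, MonoidHom.comp_apply, QuotientGroup.mk'_apply,
        (QuotientGroup.eq_one_iff s).2 hs, map_one])
    rw [e] at this
    exact this
  · intro h g hg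
    exact h (QuotientGroup.lift S (FreeGroup.lift g) hg)

section
variable {G : A → Type} [∀ a, Rep (G a)] [∀ a, Group (G a)] {b d : A → ℕ}
  {W : ∀ a, List (Fr (b a))} {g : ∀ a, Fin (b a) → G a}

theorem relLe (hG : GrpF G) (hf : CFin G) (hb : CS b) (hd : CS d) (hW : CS W) (hg : CS g) :
    CS (fun a => relS (d a) (W a) ≤ (FreeGroup.lift (g a)).ker) := by
  refine (CS.and (CS.allMem (P := fun a w => w ∈ (FreeGroup.lift (g a)).ker) hW
    (CS.memSubgroup ((CS.ker hG.disc hG.one (CS.freeLift hG.mul hG.inv hG.one hg)).comp s1) s2))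
    (CS.derLeKer hG hf hb hd hg)).of_iff fun a _ => ?_
  rw [relS, sup_le_iff, Subgroup.normalClosure_subset_iff.symm]
  rfl

theorem relNotLe (hG : GrpF G) (hf : CFin G) (hb : CS b) (hd : CS d) (hW : CS W) (hg : CS g) :
    CS (fun a => ¬ relS (d a) (W a) ≤ (FreeGroup.lift (g a)).ker) := by
  refine (CS.ex (P := fun a w => w ∈ relS (d a) (W a) ∧ ¬ FreeGroup.lift (g a) w = 1)
    (grpFr hb).enum (CS.and (CS.memSubgroup ((CS.relS hb hd hW).comp s1) s2)
      (CS.notEq ((hf.haus hG.disc).comp s1)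
        (CS.homApp ((CS.freeLift hG.mul hG.inv hG.one hg).comp s1) s2)
        (hG.one.comp s1)))).of_iff fun a _ => ?_
  rw [SetLike.not_le_iff_exists]
  rfl

end

/-- The certificate for generators of a subgroup of finite index. -/
def Cert {ι : Type} (T : Subgroup (FreeGroup ι)) (E r : List (FreeGroup ι)) : Prop :=
  (1 ∈ r ∧ ∀ s ∈ r, s ∈ Subgroup.closure {x | x ∈ E} ∨ ¬ s ∈ T) ∧ ∀ s ∈ r, ∀ i,
    (∃ s' ∈ r, s * FreeGroup.of i * s'⁻¹ ∈ Subgroup.closure {x | x ∈ E}) ∧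
      ∃ s' ∈ r, s * (FreeGroup.of i)⁻¹ * s'⁻¹ ∈ Subgroup.closure {x | x ∈ E}

theorem Cert.sound {ι : Type} {T : Subgroup (FreeGroup ι)} {E r : List (FreeGroup ι)}
    (h : Cert T E r) (hE : Subgroup.closure {x | x ∈ E} ≤ T) :
    Subgroup.closure {x | x ∈ E} = T := by
  have key : ∀ w : FreeGroup ι, ∀ s ∈ r, ∃ s' ∈ r,
      s * w * s'⁻¹ ∈ Subgroup.closure {x | x ∈ E} := by
    intro w
    induction w using FreeGroup.induction_on with
    | C1 => exact fun s hs => ⟨s, hs, by simp⟩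
    | of i => exact fun s hs => (h.2 s hs i).1
    | inv_of i _ => exact fun s hs => (h.2 s hs i).2
    | mul x y hx hy =>
      intro s hs
      obtain ⟨s', hs', h1⟩ := hx s hs
      obtain ⟨s'', hs'', h2⟩ := hy s' hs'
      refine ⟨s'', hs'', ?_⟩
      have := mul_mem h1 h2
      rwa [show s * x * s'⁻¹ * (s' * y * s''⁻¹) = s * (x * y) * s''⁻¹ by group] at this
  refine le_antisymm hE fun t ht => ?_
  obtain ⟨s, hs, h1⟩ := key t 1 h.1.1
  rw [one_mul] at h1
  have h2 : s ∈ T := by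
    have := mul_mem (inv_mem (hE h1)) ht
    rwa [show (t * s⁻¹)⁻¹ * t = s by group] at this
  have := mul_mem h1 ((h.1.2 s hs).resolve_right fun k => k h2)
  rwa [inv_mul_cancel_right] at this

theorem Cert.complete {ι : Type} [Finite ι] (T : Subgroup (FreeGroup ι)) [T.FiniteIndex] :
    ∃ E, Subgroup.closure {x | x ∈ E} ≤ T ∧ ∃ r, Cert T E r := by
  classical
  obtain ⟨S, hS⟩ : T.FG := (Group.fg_iff_subgroup_fg T).1 inferInstance
  have hE : Subgroup.closure {x | x ∈ S.toList} = T := by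
    rw [← hS]
    congr 1
    ext x
    simp
  have := Fintype.ofFinite (FreeGroup ι ⧸ T)
  let r : List (FreeGroup ι) :=
    1 :: (Finset.univ : Finset (FreeGroup ι ⧸ T)).toList.map fun c => c.out⁻¹
  have key : ∀ w : FreeGroup ι, ∃ s' ∈ r, w * s'⁻¹ ∈ T := fun w => by
    refine ⟨(QuotientGroup.mk w⁻¹ : FreeGroup ι ⧸ T).out⁻¹,
      List.mem_cons_of_mem _ (List.mem_map.2 ⟨_, by simp, rfl⟩), ?_⟩
    have := QuotientGroup.eq.1 (QuotientGroup.out_eq' (QuotientGroup.mk w⁻¹ : FreeGroup ι ⧸ T)).symm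
    rwa [inv_inv, ← inv_inv (Quotient.out _)] at this
  refine ⟨S.toList, hE.le, r, ⟨List.mem_cons_self, fun s _ => ?_⟩, fun s _ i => ?_⟩
  · rw [hE]
    exact em _
  · rw [hE]
    exact ⟨key _, key _⟩

theorem cs_cert {b : A → ℕ} {T : ∀ a, Subgroup (Fr (b a))} {E r : ∀ a, List (Fr (b a))}
    (hb : CS b) (hT' : CS (fun x : Σ a, Fr (b a) => ¬ x.2 ∈ T x.1)) (hE : CS E) (hr : CS r) :
    CS (fun a => Cert (T a) (E a) (r a)) := by
  have hF := grpFr hb
  have hK : CS (fun a => Subgroup.closure {x | x ∈ E a}) :=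
    CS.closure hF (CS.setOf (CS.memList (hF.disc.comp s1) s2 (hE.comp s1)))
  have t2 : CS (fun q : Σ p : (Σ a, Fr (b a)), Fin (b p.1) => q.1.1) := s1.comp s1
  have t3 := t2.comp (s1 (β := fun q => Fr (b q.1.1)))
  refine CS.and (CS.and (CS.memList hF.disc hF.one hr)
    (CS.allMem hr (CS.or (CS.memSubgroup (hK.comp s1) s2) hT')))
    (CS.allMem hr (CS.all (CFin.fin (hb.comp s1)) (CS.and ?_ ?_)))
  · exact CS.exMem (hr.comp t2) (CS.memSubgroup (hK.comp t3) (CS.mul MulF.free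
      (CS.mul MulF.free ((s2.comp s1).comp s1) (CS.freeOf (s2.comp s1))) (CS.inv InvF.free s2)))
  · exact CS.exMem (hr.comp t2) (CS.memSubgroup (hK.comp t3) (CS.mul MulF.free
      (CS.mul MulF.free ((s2.comp s1).comp s1) (CS.inv InvF.free (CS.freeOf (s2.comp s1))))
      (CS.inv InvF.free s2)))

theorem comap_comm {G H : Type} [Group G] [Group H] {φ : G →* H} (hφ : Function.Surjective φ)
    (R : Subgroup H) : ⁅⁅R.comap φ, R.comap φ⁆, ⁅R.comap φ, R.comap φ⁆⁆ ⊔ φ.ker =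
      ⁅⁅R, R⁆, ⁅R, R⁆⁆.comap φ := by
  rw [← Subgroup.comap_map_eq, Subgroup.map_commutator, Subgroup.map_commutator,
    Subgroup.map_comap_eq_self_of_surjective hφ]

theorem map_gens {G H : Type} [Group G] [Group H] {φ : G →* H} (hφ : Function.Surjective φ)
    {R : Subgroup H} {E : List G} (h : Subgroup.closure {x | x ∈ E} = R.comap φ) :
    Subgroup.closure {x | x ∈ E.map φ} = R := by
  rw [← Subgroup.map_comap_eq_self_of_surjective hφ R, ← h, MonoidHom.map_closure]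
  congr 1
  ext x
  simp

theorem pull_unip {G H : Type} [Group G] [Group H] {φ : G →* H} (hφ : Function.Surjective φ)
    {R : Subgroup H} [R.Normal] {E : List G} (h : Subgroup.closure {x | x ∈ E} = R.comap φ)
    {w : G} (hw : φ w ∈ R) : (∃ k, ∀ y ∈ E, ∀ z ∈ E, ∃ m, 0 < m ∧
      itc w ⁅y, z⁆ k ^ m ∈ ⁅⁅R, R⁆, ⁅R, R⁆⁆.comap φ) ↔ Unip ⁅R, R⁆ (φ w) := by
  rw [unip_iff_gens (map_gens hφ h) hw]
  simp only [List.forall_mem_map, Subgroup.mem_comap, map_pow, itc_map, map_commutatorElement]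

theorem pull_ann {G H : Type} [Group G] [Group H] {φ : G →* H} (hφ : Function.Surjective φ)
    {R : Subgroup H} [R.Normal] {E : List G} (h : Subgroup.closure {x | x ∈ E} = R.comap φ)
    {w : G} (hw : φ w ∈ R) (l : List ℤ) : (∀ y ∈ E, ∀ z ∈ E, ∃ m, 0 < m ∧
      pv w ⁅y, z⁆ l ^ m ∈ ⁅⁅R, R⁆, ⁅R, R⁆⁆.comap φ) ↔ Ann ⁅R, R⁆ (φ w) l := by
  rw [ann_iff_gens (map_gens hφ h) hw]
  simp only [List.forall_mem_map, Subgroup.mem_comap, map_pow, pv_map, map_commutatorElement]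

theorem fin_comap (p : Pres) (R : Subgroup p.G) [R.FiniteIndex] : (R.comap p.q).FiniteIndex :=
  ⟨by rw [Subgroup.index_comap_of_surjective _ (QuotientGroup.mk'_surjective _)]
      exact Subgroup.FiniteIndex.index_ne_zero⟩

theorem pb {p : A → Pres} (hp : CS p) : CS (fun a => (p a).1) := hp.sfst

theorem pd {p : A → Pres} (hp : CS p) : CS (fun a => (p a).2.1) := (FEnumAux.s2 hp).fst

theorem pW {p : A → Pres} (hp : CS p) : CS (fun a => (p a).2.2) := (FEnumAux.s2 hp).snd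

end GResAux
open GResAux

section pres
variable {p : A → Pres} {e e₁ e₂ : A → ℕ}

theorem CS.presRes (hp : CS p) (he : CS e) :
    CS (fun a => (res (e a) (p a).G).comap (p a).q) := by
  have t2 : CS (fun q : Σ x : (Σ a, Fr (p a).1), (Fin (p x.1).1 → Equiv.Perm (Fin (e x.1))) =>
    q.1.1) := s1.comp s1
  have hG := grpPerm (he.comp t2)
  exact CS.subgroupIntro ((CS.all (P := fun (x : Σ a, Fr (p a).1)
      (g : Fin (p x.1).1 → Equiv.Perm (Fin (e x.1))) =>
      (p x.1).S ≤ (FreeGroup.lift g).ker → FreeGroup.lift g x.2 = 1)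
    (CFin.pi (CFin.fin (pb (hp.comp s1))) Disc.fin (CFin.perm (CFin.fin (he.comp s1)) Disc.fin))
    (CS.imp (relNotLe hG (CFin.perm (CFin.fin (he.comp t2)) Disc.fin) (pb (hp.comp t2))
        (pd (hp.comp t2)) (pW (hp.comp t2)) s2)
      (CS.eq hG.disc (CS.homApp (CS.freeLift hG.mul hG.inv hG.one s2) (s2.comp s1))
        hG.one))).of_iff fun _ _ => mem_res_comap)
theorem CS.presNotRes {w : ∀ a, Fr (p a).1} (hp : CS p) (he : CS e) (hw : CS w) :
    CS (fun a => ¬ w a ∈ (res (e a) (p a).G).comap (p a).q) := by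
  have t1 : CS (fun q : Σ a, (Fin (p a).1 → Equiv.Perm (Fin (e a))) => q.1) := s1
  have hG := grpPerm (he.comp t1)
  have hf := CFin.perm (CFin.fin (he.comp t1)) Disc.fin
  exact (CS.notAll (P := fun a (g : Fin (p a).1 → Equiv.Perm (Fin (e a))) =>
      (p a).S ≤ (FreeGroup.lift g).ker → FreeGroup.lift g (w a) = 1)
    (CFin.pi (CFin.fin (pb hp)) Disc.fin (CFin.perm (CFin.fin he) Disc.fin)).enum
    (CS.notImp (relLe hG hf (pb (hp.comp t1)) (pd (hp.comp t1)) (pW (hp.comp t1)) s2)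
      (CS.notEq (hf.haus hG.disc) (CS.homApp (CS.freeLift hG.mul hG.inv hG.one s2) (hw.comp s1))
        hG.one))).of_iff fun _ _ => mem_res_comap.not
theorem CS.presT (hp : CS p) (h1 : CS e₁) (h2 : CS e₂) : CS (fun a => (p a).T (e₁ a) (e₂ a)) :=
  CS.subgroupInf (CS.presRes hp h1) (CS.presRes hp h2)
theorem CS.presNotT {w : ∀ a, Fr (p a).1} (hp : CS p) (h1 : CS e₁) (h2 : CS e₂) (hw : CS w) :
    CS (fun a => ¬ w a ∈ (p a).T (e₁ a) (e₂ a)) :=
  CS.notAnd (CS.presNotRes hp h1 hw) (CS.presNotRes hp h2 hw)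

/-- Generators of a decidable subgroup of finite index. -/
theorem MV.gens {b : A → ℕ} {T : ∀ a, Subgroup (Fr (b a))} (hb : CS b) (hT : CS T)
    (hT' : CS (fun x : Σ a, Fr (b a) => ¬ x.2 ∈ T x.1)) (hf : ∀ a, (T a).FiniteIndex) :
    MV (fun a (E : List (Fr (b a))) => Subgroup.closure {x | x ∈ E} = T a) :=
  have hF := grpFr hb
  MV.search (Q' := fun a E => Subgroup.closure {x | x ∈ E} ≤ T a ∧ ∃ r, Cert (T a) E r)
    hF.enum.list (CS.and (CS.closureLe s2 (hT.comp s1)) (CS.ex (hF.enum.list.comp s1)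
      (cs_cert (hb.comp (s1.comp s1))
        (hT'.comp (CS.smk0 ((s1.comp s1).comp s1) s2)) (s2.comp s1) s2)))
    (fun _ _ ⟨h, _, k⟩ => k.sound h) fun a _ => haveI := hf a; Cert.complete (T a)

theorem MV.gensRes (hp : CS p) (he : CS e) : MV (fun a (E : List (Fr (p a).1)) =>
    Subgroup.closure {x | x ∈ E} = (res (e a) (p a).G).comap (p a).q) :=
  MV.gens (pb hp) (CS.presRes hp he) (CS.presNotRes (hp.comp s1) (he.comp s1) s2)
    fun a => haveI := res_finiteIndex (G := (p a).G) (e a); fin_comap _ _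
theorem MV.gensT (hp : CS p) (h1 : CS e₁) (h2 : CS e₂) : MV (fun a (E : List (Fr (p a).1)) =>
    Subgroup.closure {x | x ∈ E} = (p a).T (e₁ a) (e₂ a)) :=
  MV.gens (pb hp) (CS.presT hp h1 h2) (CS.presNotT (hp.comp s1) (h1.comp s1) (h2.comp s1) s2)
    fun a => haveI := res₂_finiteIndex (G := (p a).G) (e₁ a) (e₂ a); fin_comap _ _

theorem GResAux.cs_dd (hp : CS p) (he : CS e) :
    CS (fun a => ⁅dres (e a) (p a).G, dres (e a) (p a).G⁆.comap (p a).q) := by
  have hF := grpFr (pb hp)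
  have h1 := CS.subgroupComm hF (CS.presRes hp he) (CS.presRes hp he)
  refine (CS.subgroupSup hF (CS.subgroupComm hF h1 h1)
    (CS.relS (pb hp) (pd hp) (pW hp))).congr fun a _ => ?_
  rw [dres, ← comap_comm (QuotientGroup.mk'_surjective _), QuotientGroup.ker_mk']

/-- The quantifier pattern shared by unipotence and annihilation. -/
theorem GResAux.cs_pat {b : A → ℕ} {E : ∀ a, List (Fr (b a))} {D : ∀ a, Subgroup (Fr (b a))}
    {f : ∀ a, Fr (b a) → Fr (b a)} (hE : CS E) (hD : CS D) (hf : CS f) :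
    CS (fun a => ∀ x ∈ E a, ∀ y ∈ E a, ∃ m, 0 < m ∧ f a ⁅x, y⁆ ^ m ∈ D a) := by
  have t2 : CS (fun q : Σ p : (Σ a, Fr (b a)), Fr (b p.1) => q.1.1) := s1.comp s1
  have t3 := t2.comp (s1 (β := fun _ => ℕ))
  exact CS.allMem hE (CS.allMem (hE.comp s1) (CS.ex Enum.nat
    (CS.and (CS.lt LtF.nat CS.const s2) (CS.memSubgroup (hD.comp t3)
      (CS.pow MulF.free OneF.free (CS.app (hf.comp t3)
        (CS.commutator MulF.free InvF.free ((s2.comp s1).comp s1) (s2.comp s1))) s2)))))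

theorem GResAux.cs_unip {b : A → ℕ} {T D : ∀ a, Subgroup (Fr (b a))} (hT : CS T) (hD : CS D) :
    CS (fun q : Σ x : (Σ a, Fr (b a)), List (Fr (b x.1)) => q.1.2 ∈ T q.1.1 ∧
      ∃ k, ∀ y ∈ q.2, ∀ z ∈ q.2, ∃ m, 0 < m ∧ itc q.1.2 ⁅y, z⁆ k ^ m ∈ D q.1.1) := by
  have t2 : CS (fun q : Σ x : (Σ a, Fr (b a)), List (Fr (b x.1)) => q.1.1) := s1.comp s1
  have t3 := t2.comp (s1 (β := fun _ => ℕ))
  exact CS.and (CS.memSubgroup (hT.comp t2) (s2.comp s1)) (CS.ex Enum.nat
    (cs_pat (f := fun q c => itc q.1.1.2 c q.2) (s2.comp s1) (hD.comp t3)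
      (CS.lam (CS.itc MulF.free InvF.free (((s2.comp s1).comp s1).comp s1) s2 (s2.comp s1)))))

theorem GResAux.cs_ann {b : A → ℕ} {w : ∀ a, Fr (b a)} {l : A → List ℤ}
    {D : ∀ a, Subgroup (Fr (b a))} (hw : CS w) (hl : CS l) (hD : CS D) :
    CS (fun q : Σ a, List (Fr (b a)) =>
      ∀ y ∈ q.2, ∀ z ∈ q.2, ∃ m, 0 < m ∧ pv (w q.1) ⁅y, z⁆ (l q.1) ^ m ∈ D q.1) := by
  have t2 : CS (fun r : Σ q : (Σ a, List (Fr (b a))), Fr (b q.1) => r.1.1) := s1.comp s1
  have k1 := hw.comp t2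
  have k2 := hl.comp t2
  have k : CS (fun r : Σ q : (Σ a, List (Fr (b a))), Fr (b q.1) => pv (w r.1.1) r.2 (l r.1.1)) :=
    CS.pv MulF.free InvF.free OneF.free k1 s2 k2
  exact cs_pat (f := fun q c => pv (w q.1) c (l q.1)) s2 (hD.comp s1) (CS.lam k)

/-- The canonical subgroup is r.e. -/
theorem CS.presN (hp : CS p) (h1 : CS e₁) (h2 : CS e₂) : CS (fun a => (p a).N (e₁ a) (e₂ a)) := by
  have hD := cs_dd hp h1
  have hT := CS.presT hp h1 h2
  refine CS.subgroupIntro ((MV.gensRes (hp.comp s1) (h1.comp s1)).elimP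
    (P' := fun x E => x.2 ∈ (p x.1).T (e₁ x.1) (e₂ x.1) ∧ ∃ k, ∀ y ∈ E, ∀ z ∈ E, ∃ m, 0 < m ∧
      MP_257122_al.itc x.2 ⁅y, z⁆ k ^ m ∈
        ⁅dres (e₁ x.1) (p x.1).G, dres (e₁ x.1) (p x.1).G⁆.comap (p x.1).q)
    (cs_unip hT hD) fun x E _ _ hE => ?_)
  rw [Pres.N, Subgroup.mem_comap (K := Ncan _ _ _), mem_Ncan]
  exact and_congr_right fun hx => pull_unip (QuotientGroup.mk'_surjective _) hE hx.1
/-- Annihilation is r.e. -/
theorem CS.presAnn {w : ∀ a, Fr (p a).1} {l : A → List ℤ} (hp : CS p) (he : CS e) (hw : CS w)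
    (hl : CS l) (hm : ∀ a, (p a).q (w a) ∈ res (e a) (p a).G) :
    CS (fun a => Ann (dres (e a) (p a).G) ((p a).q (w a)) (l a)) :=
  (MV.gensRes hp he).elimP (P' := fun a E => ∀ y ∈ E, ∀ z ∈ E, ∃ m, 0 < m ∧
      MP_257122_al.pv (w a) ⁅y, z⁆ (l a) ^ m ∈
        ⁅dres (e a) (p a).G, dres (e a) (p a).G⁆.comap (p a).q)
    (cs_ann hw hl (cs_dd hp he)) fun a _ _ _ hE =>
    pull_ann (QuotientGroup.mk'_surjective _) hE (hm a) (l a)

end pres

end Pool.Agent.P.MP_257122_al
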