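import Pool.Agent.P.MP_257122_al.KAr
import Pool.Agent.P.MP_257122_al.MSec
import Pool.Agent.P.MP_257122_al.GBasic

/-!
# Affine representations that see an abelian section

PLAN.  In `G = F / R` the image `D` of `N` is abelian; `exists_sec D` gives `V, act, δ` with `V`
finite-dimensional (`IsSec.finite`).  Let `Q = F / N`, `s : Q → F` a section with `s 1 = 1`,
`X = Q → V` with `(g • φ) q = φ (q * g)` and `Δ g q = δ (s q * g * (s (q * g))⁻¹)`.  Then
`Δ (g h) = Δ g + g • Δ h`, `N` acts trivially on `X`, and for `y ∈ N`, `Δ y q = act (s q) (δ y)`, so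
`Δ y = 0 ↔ δ y = 0`.  `Ψ` = the span of the translates of the `Δ (of i)`, `C` = the span of `Δ N`
(the image of `V`); `exists_cofinite` gives `U`; `F` acts on `(Ψ / U) × ℚ` by
`(a, t) ↦ (g a + t Δ g, t)`; choose a basis, weight `1` on `Ψ / U` and `0` on the last coordinate.
-/

namespace Pool.Agent.P.MP_257122_al

namespace KAffAux

variable {G : Type} [Group G]

theorem sec (N R : Subgroup G) [N.Normal] [R.Normal] (h1 : ⁅N, N⁆ ≤ R) (hR : FinRank (G ⧸ R)) :
    ∃ (V : Type) (_ : AddCommGroup V) (_ : Module ℚ V) (_ : Module.Finite ℚ V)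
      (act : G →* Module.End ℚ V) (δ : G → V),
      IsSec N act δ ∧ ∀ y ∈ N, δ y = 0 ↔ ∃ m, 0 < m ∧ y ^ m ∈ R := by
  have : (N.map (QuotientGroup.mk' R)).Normal :=
    Subgroup.Normal.map inferInstance _ (QuotientGroup.mk'_surjective R)
  obtain ⟨V, i1, i2, act, δ, hs, h0, hsp⟩ := exists_sec (N.map (QuotientGroup.mk' R))
  have hf := hs.finite hR
  rw [hsp] at hf
  have hV : Module.Finite ℚ V := Module.Finite.equiv (Submodule.topEquiv (R := ℚ) (M := V))
  have hb : ⁅N.map (QuotientGroup.mk' R), N.map (QuotientGroup.mk' R)⁆ = ⊥ := by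
    rw [← Subgroup.map_commutator, Subgroup.map_eq_bot_iff, QuotientGroup.ker_mk']
    exact h1
  refine ⟨V, i1, i2, hV, act.comp (QuotientGroup.mk' R), fun g => δ (QuotientGroup.mk' R g),
    ⟨fun c hc c' hc' => ?_, fun g c hc => ?_⟩, fun y hy => ?_⟩
  · simp only [map_mul]
    exact hs.1 _ (Subgroup.mem_map_of_mem _ hc) _ (Subgroup.mem_map_of_mem _ hc')
  · simp only [map_mul, map_inv]
    exact hs.2 _ _ (Subgroup.mem_map_of_mem _ hc)
  · rw [h0 _ (Subgroup.mem_map_of_mem _ hy), hb]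
    refine exists_congr fun m => and_congr_right fun _ => ?_
    rw [Subgroup.mem_bot, ← map_pow, ← MonoidHom.mem_ker, QuotientGroup.ker_mk']

/-- Right translation of functions on a quotient. -/
def tr (N : Subgroup G) [N.Normal] (V : Type) [AddCommGroup V] [Module ℚ V] :
    G →* Module.End ℚ (G ⧸ N → V) where
  toFun g := LinearMap.funLeft ℚ V fun q => q * (g : G ⧸ N)
  map_one' := by
    ext φ q
    simp [LinearMap.funLeft]
  map_mul' g h := by
    ext φ q
    simp [LinearMap.funLeft, mul_assoc]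

theorem tr_apply (N : Subgroup G) [N.Normal] {V : Type} [AddCommGroup V] [Module ℚ V] (g : G)
    (φ : G ⧸ N → V) (q : G ⧸ N) : tr N V g φ q = φ (q * (g : G ⧸ N)) := rfl

theorem coind (N : Subgroup G) [N.Normal] {V : Type} [AddCommGroup V] [Module ℚ V]
    {act : G →* Module.End ℚ V} {δ : G → V} (h : IsSec N act δ) :
    ∃ (Δ : G → (G ⧸ N → V)) (L : V →ₗ[ℚ] (G ⧸ N → V)),
      (∀ g g', Δ (g * g') = Δ g + tr N V g (Δ g')) ∧ Function.Injective L ∧
        ∀ y ∈ N, Δ y = L (δ y) := by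
  have hm : ∀ (q : G ⧸ N) (g : G), q.out * g * ((q * (g : G ⧸ N)).out)⁻¹ ∈ N := fun q g => by
    rw [← QuotientGroup.eq_one_iff]
    simp
  refine ⟨fun g q => δ (q.out * g * ((q * (g : G ⧸ N)).out)⁻¹),
    LinearMap.pi fun q => act q.out, fun g g' => ?_, ?_, fun y hy => ?_⟩
  · funext q
    rw [Pi.add_apply, tr_apply, ← h.1 _ (hm q g) _ (hm _ g')]
    beta_reduce
    congr 1
    rw [QuotientGroup.mk_mul, mul_assoc q]
    group
  · rw [injective_iff_map_eq_zero]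
    intro v hv
    have h1 : act (1 : G ⧸ N).out v = 0 := congrFun hv 1
    have h2 : (act ((1 : G ⧸ N).out)⁻¹ * act (1 : G ⧸ N).out) v = 0 := by
      rw [Module.End.mul_apply, h1, map_zero]
    rwa [← map_mul, inv_mul_cancel, map_one] at h2
  · funext q
    have e : (y : G ⧸ N) = 1 := (QuotientGroup.eq_one_iff y).2 hy
    simp only [e, mul_one, LinearMap.pi_apply]
    exact h.2 _ _ hy

section coc
variable {X : Type} [AddCommGroup X] [Module ℚ X] {ρ : G →* Module.End ℚ X} {Δ : G → X}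

theorem coc_one (h : ∀ g g', Δ (g * g') = Δ g + ρ g (Δ g')) : Δ 1 = 0 := by
  have := h 1 1
  simpa using this

theorem coc_conj (h : ∀ g g', Δ (g * g') = Δ g + ρ g (Δ g')) (g : G) {y : G} (hy : ρ y = 1) :
    Δ (g * y * g⁻¹) = ρ g (Δ y) := by
  have h0 := h g g⁻¹
  rw [mul_inv_cancel, coc_one h] at h0
  rw [h, h, map_mul, hy, mul_one, add_right_comm, ← h0, zero_add]

/-- Passing to the span of the values of a cocycle. -/
theorem restrict (h : ∀ g g', Δ (g * g') = Δ g + ρ g (Δ g')) :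
    ∃ (Ψ : Submodule ℚ X) (ρ' : G →* Module.End ℚ Ψ) (Δ' : G → Ψ),
      (∀ g, (Δ' g : X) = Δ g) ∧ (∀ g x, (ρ' g x : X) = ρ g x) ∧
        Submodule.span ℚ (Set.range Δ') = ⊤ := by
  let Ψ := Submodule.span ℚ (Set.range Δ)
  have hΨ : ∀ g, ∀ x ∈ Ψ, ρ g x ∈ Ψ := fun g x hx => by
    have : Ψ ≤ Ψ.comap (ρ g) := Submodule.span_le.2 (by
      rintro _ ⟨g', rfl⟩
      have e : ρ g (Δ g') = Δ (g * g') - Δ g := by rw [h]; abel
      change ρ g (Δ g') ∈ Ψ
      rw [e]
      exact Ψ.sub_mem (Submodule.subset_span ⟨_, rfl⟩) (Submodule.subset_span ⟨_, rfl⟩))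
    exact this hx
  refine ⟨Ψ, ⟨⟨fun g => (ρ g).restrict (hΨ g), ?_⟩, fun g g' => ?_⟩,
    fun g => ⟨Δ g, Submodule.subset_span ⟨g, rfl⟩⟩, fun _ => rfl, fun _ _ => rfl, ?_⟩
  · ext x
    simp
  · ext x
    simp
  · apply Submodule.map_injective_of_injective Ψ.injective_subtype
    rw [Submodule.map_span, Submodule.map_top, Submodule.range_subtype, ← Set.range_comp]
    rfl

theorem gens [Group.FG G] (h : ∀ g g', Δ (g * g') = Δ g + ρ g (Δ g'))
    (hs : Submodule.span ℚ (Set.range Δ) = ⊤) :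
    ∃ s : Finset X, Submodule.span ℚ {x | ∃ g, ∃ y ∈ s, ρ g y = x} = ⊤ := by
  classical
  obtain ⟨t, ht⟩ := Group.fg_def.1 (inferInstance : Group.FG G)
  refine ⟨t.image Δ, ?_⟩
  set P := Submodule.span ℚ {x | ∃ g, ∃ y ∈ t.image Δ, ρ g y = x} with hP
  have key : ∀ a ∈ Subgroup.closure (t : Set G), ∀ g, ρ g (Δ a) ∈ P := fun a ha => by
    induction ha using Subgroup.closure_induction with
    | mem a ha => exact fun g => Submodule.subset_span ⟨g, Δ a, Finset.mem_image_of_mem _ ha, rfl⟩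
    | one => intro g; rw [coc_one h, map_zero]; exact P.zero_mem
    | mul a a' _ _ h1 h2 =>
      intro g
      rw [h, map_add, ← Module.End.mul_apply, ← map_mul]
      exact P.add_mem (h1 g) (h2 _)
    | inv a _ h1 =>
      intro g
      have h0 := h a⁻¹ a
      rw [inv_mul_cancel, coc_one h] at h0
      rw [eq_neg_of_add_eq_zero_left h0.symm, map_neg, ← Module.End.mul_apply, ← map_mul]
      exact P.neg_mem (h1 _)
  rw [eq_top_iff, ← hs, Submodule.span_le]
  rintro _ ⟨a, rfl⟩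
  simpa using key a (ht ▸ Subgroup.mem_top a) 1

/-- Passing to a quotient by an invariant submodule. -/
theorem quot (ρ : G →* Module.End ℚ X) (U : Submodule ℚ X) (hU : ∀ g, ∀ x ∈ U, ρ g x ∈ U) :
    ∃ ρ' : G →* Module.End ℚ (X ⧸ U), ∀ g x, ρ' g (U.mkQ x) = U.mkQ (ρ g x) := by
  refine ⟨⟨⟨fun g => U.mapQ U (ρ g) (hU g), ?_⟩, fun g g' => ?_⟩, fun _ _ => rfl⟩
  · ext x
    simp
  · ext x
    simp

/-- The affine matrix representation of a cocycle. -/
theorem aff [Module.Finite ℚ X] (h : ∀ g g', Δ (g * g') = Δ g + ρ g (Δ g')) (N : Subgroup G)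
    (hN : ∀ y ∈ N, ρ y = 1) :
    ∃ (n : ℕ) (wt : Fin n → ℕ) (σ : G →* GL (Fin n) ℚ), Adapt wt 2 σ N ∧
      ∀ y ∈ N, σ y = 1 ↔ Δ y = 0 := by
  classical
  let B := Module.finBasis ℚ X
  let m := Module.finrank ℚ X
  let A : G → Matrix (Fin m ⊕ Unit) (Fin m ⊕ Unit) ℚ := fun g =>
    Matrix.fromBlocks (LinearMap.toMatrix B B (ρ g)) (Matrix.of fun i _ => B.repr (Δ g) i) 0 1
  have hA1 : ∀ y, ρ y = 1 → (A y = 1 ↔ Δ y = 0) := fun y hy => by
    simp only [A, hy, LinearMap.toMatrix_one]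
    rw [← Matrix.fromBlocks_one, Matrix.fromBlocks_inj]
    constructor
    · rintro ⟨-, h2, -⟩
      rw [← B.repr.map_eq_zero_iff]
      ext i
      exact congrFun (congrFun h2 i) ()
    · intro h0
      refine ⟨rfl, ?_, rfl, rfl⟩
      ext i j
      simp [h0]
  have hAm : ∀ g g', A (g * g') = A g * A g' := fun g g' => by
    simp only [A]
    rw [Matrix.fromBlocks_multiply, map_mul, LinearMap.toMatrix_mul]
    simp only [Matrix.mul_zero, Matrix.zero_mul, Matrix.mul_one, add_zero, zero_add]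
    congr 1
    ext i j
    have e := congrFun (LinearMap.toMatrix_mulVec_repr B B (ρ g) (Δ g')) i
    rw [Matrix.add_apply, Matrix.of_apply, Matrix.of_apply, h, map_add, Finsupp.add_apply, ← e,
      add_comm]
    rfl
  let A' : G →* Matrix (Fin m ⊕ Unit) (Fin m ⊕ Unit) ℚ :=
    ⟨⟨A, (hA1 1 (map_one ρ)).2 (coc_one h)⟩, hAm⟩
  let e := Fintype.equivFin (Fin m ⊕ Unit)
  let σ0 := ((Matrix.reindexAlgEquiv ℚ ℚ e).toMulEquiv.toMonoidHom).comp A'
  let w : Fin m ⊕ Unit → ℕ := Sum.elim (fun _ => 1) fun _ => 0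
  have hσ : ∀ g a b, σ0 g a b = A g (e.symm a) (e.symm b) := fun _ _ _ => rfl
  have hf : ∀ g, σ0 g ∈ fil (fun a => w (e.symm a)) 0 := fun g a b hab => by
    rw [hσ]
    beta_reduce at hab
    revert hab
    rcases e.symm a with i | i <;> rcases e.symm b with j | j <;> simp [w, A]
  refine ⟨_, fun a => w (e.symm a), σ0.toHomUnits, ⟨fun a => ?_, fun g => ⟨hf g, hf g⁻¹⟩,
    fun y hy a b hab => ?_⟩, fun y hy => ?_⟩
  · beta_reduce
    rcases e.symm a with i | i <;> simp [w]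
  · have e1 : (1 : Matrix _ _ ℚ) a b = (1 : Matrix _ _ ℚ) (e.symm a) (e.symm b) := by
      simp [Matrix.one_apply]
    rw [Matrix.sub_apply, MonoidHom.coe_toHomUnits, hσ, e1]
    beta_reduce at hab
    revert hab
    rcases e.symm a with i | i <;> rcases e.symm b with j | j <;>
      simp [w, A, hN y hy, Matrix.one_apply]
  · rw [← hA1 y (hN y hy), ← Units.val_eq_one, MonoidHom.coe_toHomUnits]
    exact (Matrix.reindexAlgEquiv ℚ ℚ e).map_eq_one_iff

end coc

end KAffAux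

theorem exists_aff' {b : ℕ} (N R : Subgroup (Fr b)) [N.Normal] [R.Normal] (hN : VAb N)
    (h1 : ⁅N, N⁆ ≤ R) (h2 : R ≤ N) (hR : FinRank (Fr b ⧸ R)) :
    ∃ (n : ℕ) (wt : Fin n → ℕ) (σ : Fr b →* GL (Fin n) ℚ), Adapt wt 2 σ N ∧
      ∀ y ∈ N, σ y = 1 ↔ ∃ m, 0 < m ∧ y ^ m ∈ R := by
  have _ := h2
  obtain ⟨V, i1, i2, i3, act, δ, hs, h0⟩ := KAffAux.sec N R h1 hR
  obtain ⟨Δ, L, hc, hL, hΔ⟩ := KAffAux.coind N hs
  obtain ⟨Ψ, ρ, Δ', e1, e2, hsp⟩ := KAffAux.restrict hc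
  have hc' : ∀ g g', Δ' (g * g') = Δ' g + ρ g (Δ' g') := fun g g' =>
    Subtype.ext (by rw [Submodule.coe_add, e2, e1, e1, e1, hc])
  have hρ : ∀ y ∈ N, ρ y = 1 := fun y hy => by
    refine LinearMap.ext fun x => Subtype.ext ?_
    rw [e2]
    funext q
    rw [KAffAux.tr_apply, (QuotientGroup.eq_one_iff y).2 hy, mul_one]
    rfl
  obtain ⟨s, hs'⟩ := KAffAux.gens hc' hsp
  obtain ⟨T, t1, t2, -, t4⟩ := hN
  let C : Submodule ℚ Ψ := Submodule.span ℚ (Δ' '' (N : Set (Fr b)))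
  have hCle : C ≤ (LinearMap.range L).comap Ψ.subtype := Submodule.span_le.2 (by
    rintro _ ⟨y, hy, rfl⟩
    exact ⟨δ y, by rw [← hΔ y hy, ← e1]; rfl⟩)
  have : Module.Finite ℚ C := by
    let f : C →ₗ[ℚ] LinearMap.range L :=
      (Ψ.subtype ∘ₗ C.subtype).codRestrict _ fun x => hCle x.2
    refine Module.Finite.of_injective f fun x y hxy => ?_
    have e := congrArg Subtype.val hxy
    exact Subtype.ext (Subtype.ext e)
  have hC : ∀ g, ∀ x ∈ C, ρ g x ∈ C := fun g x hx => by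
    have : C ≤ C.comap (ρ g) := Submodule.span_le.2 (by
      rintro _ ⟨y, hy, rfl⟩
      change ρ g (Δ' y) ∈ C
      rw [← KAffAux.coc_conj hc' g (hρ y hy)]
      exact Submodule.subset_span ⟨_, Subgroup.Normal.conj_mem inferInstance y hy g, rfl⟩)
    exact this hx
  have hT : ∀ a ∈ T, ∀ a' ∈ T, ρ a * ρ a' = ρ a' * ρ a := fun a ha a' ha' => by
    have h3 := hρ _ (t4 (Subgroup.commutator_mem_commutator ha ha'))
    have h4 : a * a' = a * a' * a⁻¹ * a'⁻¹ * (a' * a) := by group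
    rw [← map_mul, ← map_mul, h4, map_mul]
    rw [commutatorElement_def] at h3
    rw [h3, one_mul]
  obtain ⟨U, hU, hf, hUC⟩ := exists_cofinite ρ T hT s hs' C hC
  obtain ⟨ρ', hρ'⟩ := KAffAux.quot ρ U hU
  obtain ⟨n, wt, σ, a1, a2⟩ := KAffAux.aff (ρ := ρ') (Δ := fun g => U.mkQ (Δ' g))
    (fun g g' => by rw [hc', map_add, hρ']) N fun y hy => by
      refine LinearMap.ext fun x => ?_
      obtain ⟨x, rfl⟩ := U.mkQ_surjective x
      rw [hρ', hρ y hy]
      rfl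
  refine ⟨n, wt, σ, a1, fun y hy => ?_⟩
  rw [a2 y hy, ← h0 y hy, ← map_eq_zero_iff L hL, ← hΔ y hy, ← e1, Submodule.coe_eq_zero,
    Submodule.mkQ_apply, Submodule.Quotient.mk_eq_zero]
  refine ⟨fun h => ?_, fun h => h ▸ U.zero_mem⟩
  have : Δ' y ∈ U ⊓ C := ⟨h, Submodule.subset_span ⟨y, hy, rfl⟩⟩
  rwa [hUC, Submodule.mem_bot] at this

end Pool.Agent.P.MP_257122_al
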