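import Pool.Agent.P.MP_257122_al.GDefs

/-!
# Finite-dimensional quotients by the lemma of Artin and Rees

PLAN.  `R = Algebra.adjoin ℚ (act '' T)` is commutative and of finite type (`T` is finitely
generated, include inverses), so Noetherian; `Ψ` is a finite `R`-module (transversal of `T`);
`J` = the annihilator of `C` in `R` has finite codimension (`R / J` embeds in `End C`);
`Ideal.exists_pow_inf_eq_pow_smul` gives `k` with `J ^ (k+1) • ⊤ ⊓ C ≤ J • C = ⊥`.  Conjugation by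
`act g` preserves `R` and `J`, so `J ^ n • ⊤` is invariant; finite codimension by induction on `n`.
-/

namespace Pool.Agent.P.MP_257122_al

namespace KArAux

theorem key (R Ψ : Type) [CommRing R] [Algebra ℚ R] [Algebra.FiniteType ℚ R] [AddCommGroup Ψ]
    [Module ℚ Ψ] [Module R Ψ] [IsScalarTower ℚ R Ψ] [Module.Finite R Ψ] (C : Submodule R Ψ)
    [Module.Finite ℚ C] : ∃ U : Submodule R Ψ, Module.Finite ℚ (Ψ ⧸ U) ∧ U ⊓ C = ⊥ := by
  have : IsNoetherianRing R := Algebra.FiniteType.isNoetherianRing ℚ R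
  let φ : R →ₐ[ℚ] Module.End ℚ C := Algebra.lsmul ℚ ℚ C
  let J : Ideal R := RingHom.ker φ
  obtain ⟨k, hk⟩ := J.exists_pow_inf_eq_pow_smul C
  refine ⟨J ^ (k + 1) • ⊤, ?_, ?_⟩
  · have : Algebra.IsIntegral ℚ (R ⧸ J ^ (k + 1)) := ⟨fun x => by
      obtain ⟨r, rfl⟩ := Ideal.Quotient.mk_surjective x
      obtain ⟨p, hp, h0⟩ := (Algebra.IsIntegral.isIntegral (R := ℚ) (φ r))
      refine ⟨p ^ (k + 1), hp.pow _, ?_⟩
      have h1 : Polynomial.aeval r p ∈ J := by
        change φ (Polynomial.aeval r p) = 0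
        rw [← Polynomial.aeval_algHom_apply]
        exact h0
      have h2 : Polynomial.aeval (Ideal.Quotient.mkₐ ℚ (J ^ (k + 1)) r) (p ^ (k + 1)) = 0 := by
        rw [Polynomial.aeval_algHom_apply, map_pow]
        exact Ideal.Quotient.eq_zero_iff_mem.2 (Ideal.pow_mem_pow h1 _)
      exact h2⟩
    have : Module.Finite ℚ (R ⧸ J ^ (k + 1)) := Algebra.IsIntegral.finite
    exact Module.Finite.trans (R ⧸ J ^ (k + 1)) _
  · rw [hk (k + 1) (by omega), Nat.add_sub_cancel_left, pow_one, eq_bot_iff]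
    refine Submodule.smul_le.2 fun r hr x hx => ?_
    have h : φ r ⟨x, hx.2⟩ = 0 := by
      rw [show φ r = 0 from hr]; rfl
    exact congrArg Subtype.val h

theorem step {G Ψ : Type} [Group G] [Group.FG G] [AddCommGroup Ψ] [Module ℚ Ψ]
    (act : G →* Module.End ℚ Ψ) (T : Subgroup G) [T.Normal] [T.FiniteIndex]
    (hc : ∀ a ∈ T, ∀ b ∈ T, act a * act b = act b * act a) (s : Finset Ψ)
    (hs : Submodule.span ℚ {x | ∃ g, ∃ y ∈ s, act g y = x} = ⊤) (C : Submodule ℚ Ψ)
    [Module.Finite ℚ C] (hC : ∀ g, ∀ x ∈ C, act g x ∈ C) :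
    ∃ U : Submodule ℚ Ψ, (∀ g ∈ T, ∀ x ∈ U, act g x ∈ U) ∧ Module.Finite ℚ (Ψ ⧸ U) ∧
      U ⊓ C = ⊥ := by
  classical
  obtain ⟨S, hS⟩ : T.toSubmonoid.FG :=
    (Subgroup.fg_iff_submonoid_fg T).1 ((Group.fg_iff_subgroup_fg T).1 inferInstance)
  have hST : ∀ g ∈ S, g ∈ T := fun g hg => by
    have : g ∈ T.toSubmonoid := hS ▸ Submonoid.subset_closure hg
    exact this
  let R : Subalgebra ℚ (Module.End ℚ Ψ) := Algebra.adjoin ℚ (S.image act : Set (Module.End ℚ Ψ))
  have hmem : ∀ g ∈ T, act g ∈ R := fun g hg => by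
    have hg' : g ∈ Submonoid.closure (S : Set G) := by rw [hS]; exact hg
    clear hg
    induction hg' using Submonoid.closure_induction with
    | mem x hx => exact Algebra.subset_adjoin (Finset.mem_coe.2 (Finset.mem_image_of_mem _ hx))
    | one => rw [map_one]; exact R.one_mem
    | mul x y _ _ hx hy => rw [map_mul]; exact R.mul_mem hx hy
  have hcomm : IsMulCommutative R := Algebra.isMulCommutative_adjoin ℚ fun x hx y hy => by
    obtain ⟨a, ha, rfl⟩ := Finset.mem_image.1 (Finset.mem_coe.1 hx)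
    obtain ⟨b, hb, rfl⟩ := Finset.mem_image.1 (Finset.mem_coe.1 hy)
    exact hc a (hST a ha) b (hST b hb)
  let : CommRing R := { (inferInstance : Ring R) with mul_comm := hcomm.is_comm.comm }
  have : Algebra.FiniteType ℚ R :=
    (Subalgebra.fg_iff_finiteType R).1 (Subalgebra.fg_adjoin_finset _)
  have : Module.Finite R Ψ := by
    have : Fintype (G ⧸ T) := Fintype.ofFinite _
    refine ⟨⟨(Finset.univ ×ˢ s).image fun x : (G ⧸ T) × Ψ => act x.1.out x.2, ?_⟩⟩
    rw [eq_top_iff]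
    intro x _
    have hx : x ∈ Submodule.span ℚ {x | ∃ g, ∃ y ∈ s, act g y = x} := by rw [hs]; trivial
    induction hx using Submodule.span_induction with
    | mem x hx =>
      obtain ⟨g, y, hy, rfl⟩ := hx
      obtain ⟨t, ht⟩ := QuotientGroup.mk_out_eq_mul T g
      have h1 : g * (t : G)⁻¹ * g⁻¹ ∈ T := Subgroup.Normal.conj_mem inferInstance _ (inv_mem t.2) g
      have h2 : act g y = (⟨_, hmem _ h1⟩ : R) • act (QuotientGroup.mk g : G ⧸ T).out y := by
        change act g y = (act _ * act _) y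
        rw [← map_mul, ht]
        congr 2
        group
      rw [h2]
      refine Submodule.smul_mem _ _ (Submodule.subset_span ?_)
      exact Finset.mem_coe.2 (Finset.mem_image.2 ⟨(QuotientGroup.mk g, y),
        Finset.mem_product.2 ⟨Finset.mem_univ _, hy⟩, rfl⟩)
    | zero => exact Submodule.zero_mem _
    | add x y _ _ hx hy => exact Submodule.add_mem _ (hx trivial) (hy trivial)
    | smul a x _ hx => exact Submodule.smul_of_tower_mem _ a (hx trivial)
  have hRC : ∀ r ∈ R, ∀ x ∈ C, r x ∈ C := fun r hr => by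
    induction hr using Algebra.adjoin_induction with
    | mem x hx =>
      obtain ⟨a, _, rfl⟩ := Finset.mem_image.1 (Finset.mem_coe.1 hx)
      exact hC a
    | algebraMap a => exact fun x hx => C.smul_mem a hx
    | add x y _ _ hx hy => exact fun z hz => C.add_mem (hx z hz) (hy z hz)
    | mul x y _ _ hx hy => exact fun z hz => hx _ (hy z hz)
  let C' : Submodule R Ψ :=
    { C.toAddSubmonoid with smul_mem' := fun r x hx => hRC r.1 r.2 x hx }
  have : Module.Finite ℚ C' := inferInstanceAs (Module.Finite ℚ C)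
  obtain ⟨U, hU, hUC⟩ := key R Ψ C'
  refine ⟨U.restrictScalars ℚ, fun g hg x hx => U.smul_mem (⟨_, hmem g hg⟩ : R) hx,
    Module.Finite.equiv (Submodule.Quotient.restrictScalarsEquiv ℚ U).symm, ?_⟩
  rw [eq_bot_iff]
  intro x hx
  have : x ∈ U ⊓ C' := ⟨hx.1, hx.2⟩
  rw [hUC] at this
  exact this

end KArAux

theorem exists_cofinite {G Ψ : Type} [Group G] [Group.FG G] [AddCommGroup Ψ] [Module ℚ Ψ]
    (act : G →* Module.End ℚ Ψ) (T : Subgroup G) [T.Normal] [T.FiniteIndex]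
    (hc : ∀ a ∈ T, ∀ b ∈ T, act a * act b = act b * act a) (s : Finset Ψ)
    (hs : Submodule.span ℚ {x | ∃ g, ∃ y ∈ s, act g y = x} = ⊤) (C : Submodule ℚ Ψ)
    [Module.Finite ℚ C] (hC : ∀ g, ∀ x ∈ C, act g x ∈ C) :
    ∃ U : Submodule ℚ Ψ, (∀ g, ∀ x ∈ U, act g x ∈ U) ∧ Module.Finite ℚ (Ψ ⧸ U) ∧ U ⊓ C = ⊥ := by
  obtain ⟨U, hT, hU, hUC⟩ := KArAux.step act T hc s hs C hC
  let f : Ψ →ₗ[ℚ] (G ⧸ T → Ψ ⧸ U) := LinearMap.pi fun q => U.mkQ ∘ₗ act q.out
  have hf : ∀ x, x ∈ LinearMap.ker f ↔ ∀ g, act g x ∈ U := fun x => by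
    have h0 : x ∈ LinearMap.ker f ↔ ∀ q : G ⧸ T, act q.out x ∈ U := by
      rw [LinearMap.mem_ker, funext_iff]
      exact forall_congr' fun q => Submodule.Quotient.mk_eq_zero U
    rw [h0]
    refine ⟨fun h g => ?_, fun h q => h _⟩
    obtain ⟨t, ht⟩ := QuotientGroup.mk_out_eq_mul T g
    have h1 : g * (t : G)⁻¹ * g⁻¹ ∈ T := Subgroup.Normal.conj_mem inferInstance _ (inv_mem t.2) g
    have h2 := hT _ h1 _ (h (QuotientGroup.mk g))
    have h3 : act g x = act (g * (t : G)⁻¹ * g⁻¹) (act (QuotientGroup.mk g : G ⧸ T).out x) := by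
      change act g x = (act _ * act _) x
      rw [← map_mul, ht]
      congr 2
      group
    rwa [h3]
  refine ⟨LinearMap.ker f, fun g x hx => (hf _).2 fun h => ?_,
    Module.Finite.equiv (LinearMap.quotKerEquivRange f).symm, ?_⟩
  · have := (hf x).1 hx (h * g)
    rwa [map_mul] at this
  · rw [eq_bot_iff, ← hUC]
    refine inf_le_inf_right _ fun x hx => ?_
    simpa using (hf x).1 hx 1

end Pool.Agent.P.MP_257122_al
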