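import Pool.Agent.P.MP_257122_al.KLau

/-!
# The basic left ideal

PLAN.  `IsMark` gives a homomorphism `ν : T →* Zr r` with kernel `N` and `ν (zp τ t) = t`.  For a coset
`c : G ⧸ T` with representative `c.out` let `Ψ c : R[G] → R[Zr r]` be the linear map with
`Ψ c (of g) = of (ν (c.out⁻¹ * g))` if `g ∈ c`, and `0` otherwise; `Ψ c (x * of t) = Ψ c x * of (ν t)` for `t ∈ T`.
Let `σ c : R[Zr r] → R[G]` be linear with `σ c (of a) = of (c.out * zp τ a)`.  Modulo `⊤ * aug R N` we have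
`σ c (y * of (ν t)) = σ c y * of t` and `x = ∑ σ c (Ψ c x)` (sum over any finite set of cosets that covers the support).
Hence `lid_iff : x ∈ Lid R N τ f ↔ ∀ c, Ψ c x ∈ lauI R f`, and the three statements follow from `KLau`.
-/

namespace Pool.Agent.P.MP_257122_al.K

open Polynomial MonoidAlgebra C
open scoped commutatorElement Matrix

variable {G : Type} [Group G] {T N : Subgroup G} [N.Normal] {r : ℕ} {τ : Fin r → G}
  {f : Fin r → ℤ[X]}

namespace KLidAux

theorem exists_nu (hM : IsMark T N τ) : ∃ (Z : Zr r →* G ⧸ N) (ν : G → Zr r),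
    Function.Injective Z ∧ (∀ a, Z a = ((zp τ a.toAdd : G) : G ⧸ N)) ∧
      ∀ t ∈ T, Z (ν t) = (t : G ⧸ N) := by
  obtain ⟨_, h2, h3, h4, h5⟩ := hM
  have hc : ∀ i j, (QuotientGroup.mk' N (τ i)) * QuotientGroup.mk' N (τ j) =
      QuotientGroup.mk' N (τ j) * QuotientGroup.mk' N (τ i) := by
    intro i j
    rw [← commutatorElement_eq_one_iff_mul_comm, ← map_commutatorElement]
    exact (QuotientGroup.eq_one_iff _).2
      (h2 (Subgroup.commutator_mem_commutator (h3 i) (h3 j)))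
  let Z : Zr r →* G ⧸ N := MonoidHom.mk'
    (fun s => zp (fun j => QuotientGroup.mk' N (τ j)) s.toAdd) fun a b => zp_add hc a.toAdd b.toAdd
  have hZ : ∀ a, Z a = ((zp τ a.toAdd : G) : G ⧸ N) := fun a =>
    (map_zp (QuotientGroup.mk' N) τ a.toAdd).symm
  have hν : ∀ t : G, ∃ a : Zr r, t ∈ T → Z a = (t : G ⧸ N) := by
    intro t
    by_cases ht : t ∈ T
    · obtain ⟨a, ha⟩ := h4 t ht
      refine ⟨Multiplicative.ofAdd a, fun _ => ?_⟩
      rw [hZ]
      have := (QuotientGroup.eq_one_iff _).2 ha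
      rw [QuotientGroup.mk_mul, QuotientGroup.mk_inv, mul_inv_eq_one] at this
      exact this.symm
    · exact ⟨1, fun h => (ht h).elim⟩
  choose ν hν using hν
  refine ⟨Z, ν, (injective_iff_map_eq_one Z).2 fun a ha => ?_, hZ, hν⟩
  rw [hZ] at ha
  exact Multiplicative.toAdd.injective (h5 _ ((QuotientGroup.eq_one_iff _).1 ha))

variable {R : Type} [CommRing R]

open Classical in
/-- The component of an element of the group ring at a coset. -/
noncomputable def Psi (R : Type) [CommRing R] (T : Subgroup G) (ν : G → Zr r) (c : G ⧸ T) :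
    MonoidAlgebra R G →ₗ[R] MonoidAlgebra R (Zr r) :=
  (MonoidAlgebra.basis G R).constr R fun g =>
    if (g : G ⧸ T) = c then of R (Zr r) (ν (c.out⁻¹ * g)) else 0

/-- The section at a coset. -/
noncomputable def sg (R : Type) [CommRing R] (T : Subgroup G) (τ : Fin r → G) (c : G ⧸ T) :
    MonoidAlgebra R (Zr r) →ₗ[R] MonoidAlgebra R G :=
  (MonoidAlgebra.basis (Zr r) R).constr R fun a => of R G (c.out * zp τ a.toAdd)

open Classical in
theorem Psi_of (ν : G → Zr r) (c : G ⧸ T) (g : G) : Psi R T ν c (of R G g) =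
    if (g : G ⧸ T) = c then of R (Zr r) (ν (c.out⁻¹ * g)) else 0 :=
  (MonoidAlgebra.basis G R).constr_basis R _ g

theorem sg_of (c : G ⧸ T) (a : Zr r) :
    sg R T τ c (of R (Zr r) a) = of R G (c.out * zp τ a.toAdd) :=
  (MonoidAlgebra.basis (Zr r) R).constr_basis R _ a

theorem out_mem {c : G ⧸ T} {g : G} (h : (g : G ⧸ T) = c) : c.out⁻¹ * g ∈ T :=
  QuotientGroup.eq.1 (by rw [QuotientGroup.out_eq', h])

omit [N.Normal] in
theorem mul_mem_lid (x : MonoidAlgebra R G) {y : MonoidAlgebra R G} (hy : y ∈ lgen R N τ f) :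
    x * y ∈ Lid R N τ f := Submodule.mul_mem_mul trivial hy

omit [N.Normal] in
theorem of_sub_mem {g g' : G} (h : (g : G ⧸ N) = g') : of R G g - of R G g' ∈ Lid R N τ f := by
  have e : of R G g - of R G g' = of R G g' * (of R G (g'⁻¹ * g) - 1) := by
    rw [mul_sub, ← map_mul, mul_inv_cancel_left, mul_one]
  rw [e]
  exact mul_mem_lid _ (Submodule.mem_sup_left (sub_mem_aug (QuotientGroup.eq.1 h.symm)))

theorem pev_mono {A : Type} [Ring A] (x : A) (n : ℕ) (a : ℤ) :
    pev x (monomial n a) = a • x ^ n := by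
  rw [aeval_monomial, Algebra.smul_def]

section
variable {Z : Zr r →* G ⧸ N} {ν : G → Zr r}

theorem nu_mul (hZ : Function.Injective Z) (hν : ∀ t ∈ T, Z (ν t) = (t : G ⧸ N)) {s t : G}
    (hs : s ∈ T) (ht : t ∈ T) : ν (s * t) = ν s * ν t :=
  hZ (by rw [map_mul, hν _ (T.mul_mem hs ht), hν s hs, hν t ht, QuotientGroup.mk_mul])

theorem Psi_mul (hZ : Function.Injective Z) (hν : ∀ t ∈ T, Z (ν t) = (t : G ⧸ N)) (c : G ⧸ T)
    {t : G} (ht : t ∈ T) (x : MonoidAlgebra R G) :
    Psi R T ν c (x * of R G t) = Psi R T ν c x * of R (Zr r) (ν t) := by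
  induction x using MonoidAlgebra.induction_on with
  | of g =>
    rw [← map_mul, Psi_of, Psi_of, QuotientGroup.mk_mul_of_mem g ht]
    split_ifs with h
    · rw [← map_mul, ← mul_assoc, nu_mul hZ hν (out_mem h) ht]
    · rw [zero_mul]
  | add x y hx hy => rw [add_mul, map_add, map_add, hx, hy, add_mul]
  | smul a x hx => rw [smul_mul_assoc, map_smul, map_smul, hx, smul_mul_assoc]

theorem Psi_pev (hZ : Function.Injective Z) (hν : ∀ t ∈ T, Z (ν t) = (t : G ⧸ N)) (c : G ⧸ T)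
    {t : G} (ht : t ∈ T) (x : MonoidAlgebra R G) (p : ℤ[X]) :
    Psi R T ν c (x * pev (of R G t) p) = Psi R T ν c x * pev (of R (Zr r) (ν t)) p := by
  induction p using Polynomial.induction_on' with
  | add p q hp hq => rw [map_add, map_add, mul_add, mul_add, map_add, hp, hq]
  | monomial n a =>
    rw [pev_mono, pev_mono, mul_smul_comm, mul_smul_comm, map_zsmul]
    congr 1
    induction n with
    | zero => rw [pow_zero, pow_zero, mul_one, mul_one]
    | succ n ih => rw [pow_succ, pow_succ, ← mul_assoc, ← mul_assoc, Psi_mul hZ hν c ht, ih]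

theorem Psi_mem (hM : IsMark T N τ) (hZ : Function.Injective Z)
    (hZ' : ∀ a, Z a = ((zp τ a.toAdd : G) : G ⧸ N)) (hν : ∀ t ∈ T, Z (ν t) = (t : G ⧸ N))
    (c : G ⧸ T) {x : MonoidAlgebra R G} (hx : x ∈ Lid R N τ f) : Psi R T ν c x ∈ lauI R f := by
  let P : Submodule R (MonoidAlgebra R G) :=
    { carrier := {y | ∀ x, Psi R T ν c (x * y) ∈ lauI R f}
      zero_mem' := fun x => by rw [mul_zero, map_zero]; exact zero_mem _
      add_mem' := fun hy hz x => by rw [mul_add, map_add]; exact add_mem (hy x) (hz x)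
      smul_mem' := fun a y hy x => by rw [mul_smul_comm, ← smul_mul_assoc]; exact hy _ }
  have hP : lgen R N τ f ≤ P := by
    refine sup_le (Submodule.span_le.2 ?_) (Submodule.span_le.2 ?_)
    · rintro _ ⟨n, hn, rfl⟩ x
      have e : ν n = 1 := hZ (by
        rw [hν n (hM.1 hn), map_one]; exact (QuotientGroup.eq_one_iff _).2 hn)
      rw [mul_sub, mul_one, map_sub, Psi_mul hZ hν c (hM.1 hn), e, map_one, mul_one, sub_self]
      exact zero_mem _
    · rintro _ ⟨i, rfl⟩ x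
      have e : ν (τ i) = Multiplicative.ofAdd (Pi.single i 1) := hZ (by
        rw [hν _ (hM.2.2.1 i), hZ', toAdd_ofAdd, zp_single])
      rw [Psi_pev hZ hν c (hM.2.2.1 i), e]
      exact Ideal.mul_mem_left _ _ (Ideal.subset_span ⟨i, rfl⟩)
  refine Submodule.mul_induction_on hx (fun x _ y hy => hP hy x) fun x y hx hy => ?_
  rw [map_add]
  exact add_mem hx hy

theorem sg_pev (hZ' : ∀ a, Z a = ((zp τ a.toAdd : G) : G ⧸ N)) (c : G ⧸ T) (i : Fin r)
    (b : MonoidAlgebra R (Zr r)) (p : ℤ[X]) :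
    sg R T τ c (b * pev (of R (Zr r) (Multiplicative.ofAdd (Pi.single i 1))) p) -
      sg R T τ c b * pev (of R G (τ i)) p ∈ Lid R N τ f := by
  induction p using Polynomial.induction_on' with
  | add p q hp hq =>
    rw [map_add, map_add, mul_add, mul_add, map_add, add_sub_add_comm]
    exact add_mem hp hq
  | monomial n a =>
    rw [pev_mono, pev_mono, mul_smul_comm, mul_smul_comm, map_zsmul, ← smul_sub]
    refine zsmul_mem ?_ a
    induction b using MonoidAlgebra.induction_on with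
    | of g =>
      rw [← map_pow (of R (Zr r)), ← map_pow (of R G), ← map_mul, sg_of, sg_of, ← map_mul]
      refine of_sub_mem ?_
      rw [QuotientGroup.mk_mul, QuotientGroup.mk_mul, QuotientGroup.mk_mul, ← hZ', ← hZ', map_mul,
        map_pow, hZ' (Multiplicative.ofAdd _), toAdd_ofAdd, zp_single, QuotientGroup.mk_pow,
        mul_assoc]
    | add x y hx hy =>
      rw [add_mul, map_add, map_add, add_mul, add_sub_add_comm]
      exact add_mem hx hy
    | smul a x hx =>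
      rw [smul_mul_assoc, map_smul, map_smul, smul_mul_assoc, ← smul_sub]
      exact Submodule.smul_mem _ _ hx

theorem sg_mem (hZ' : ∀ a, Z a = ((zp τ a.toAdd : G) : G ⧸ N)) (c : G ⧸ T)
    {y : MonoidAlgebra R (Zr r)} (hy : y ∈ lauI R f) : sg R T τ c y ∈ Lid R N τ f := by
  have key : ∀ b, sg R T τ c (b * y) ∈ Lid R N τ f := by
    induction hy using Submodule.span_induction with
    | mem y hy =>
      obtain ⟨i, rfl⟩ := hy
      intro b
      have h1 := sg_pev (R := R) (T := T) (f := f) hZ' c i b (f i)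
      have h2 : sg R T τ c b * pev (of R G (τ i)) (f i) ∈ Lid R N τ f :=
        mul_mem_lid _ (Submodule.mem_sup_right (Submodule.subset_span ⟨i, rfl⟩))
      have h3 := add_mem h1 h2
      rwa [sub_add_cancel] at h3
    | zero => intro b; rw [mul_zero, map_zero]; exact zero_mem _
    | add x y _ _ hx hy => intro b; rw [mul_add, map_add]; exact add_mem (hx b) (hy b)
    | smul a x _ hx => intro b; rw [smul_eq_mul, ← mul_assoc]; exact hx _
  have := key 1
  rwa [one_mul] at this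

theorem decomp (hZ' : ∀ a, Z a = ((zp τ a.toAdd : G) : G ⧸ N))
    (hν : ∀ t ∈ T, Z (ν t) = (t : G ⧸ N)) (x : MonoidAlgebra R G) :
    ∃ s : Finset (G ⧸ T), ∀ s', s ⊆ s' →
      x - ∑ c ∈ s', sg R T τ c (Psi R T ν c x) ∈ Lid R N τ f := by
  classical
  induction x using MonoidAlgebra.induction_on with
  | of g =>
    refine ⟨{(g : G ⧸ T)}, fun s' hs => ?_⟩
    rw [Finset.sum_eq_single_of_mem (g : G ⧸ T) (hs (Finset.mem_singleton_self _))
      fun c _ hc => by rw [Psi_of, if_neg hc.symm, map_zero], Psi_of, if_pos rfl, sg_of]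
    refine of_sub_mem ?_
    rw [QuotientGroup.mk_mul, ← hZ', hν _ (out_mem rfl), ← QuotientGroup.mk_mul,
      mul_inv_cancel_left]
  | add x y hx hy =>
    obtain ⟨s, hs⟩ := hx
    obtain ⟨t, ht⟩ := hy
    refine ⟨s ∪ t, fun s' h => ?_⟩
    simp only [map_add, Finset.sum_add_distrib]
    rw [add_sub_add_comm]
    exact add_mem (hs s' (Finset.subset_union_left.trans h))
      (ht s' (Finset.subset_union_right.trans h))
  | smul a x hx =>
    obtain ⟨s, hs⟩ := hx
    refine ⟨s, fun s' h => ?_⟩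
    simp only [map_smul]
    rw [← Finset.smul_sum, ← smul_sub]
    exact Submodule.smul_mem _ _ (hs s' h)

end

end KLidAux

open KLidAux

theorem lid_pure (hM : IsMark T N τ) (hf : ∀ i, Prim (f i)) : Pure (Lid ℤ N τ f) := by
  obtain ⟨Z, ν, hZ, hZ', hν⟩ := exists_nu hM
  intro m x hm hx
  obtain ⟨s, hs⟩ := decomp (R := ℤ) (T := T) (f := f) hZ' hν x
  have h1 : ∑ c ∈ s, sg ℤ T τ c (Psi ℤ T ν c x) ∈ Lid ℤ N τ f := by
    refine Submodule.sum_mem _ fun c _ => sg_mem hZ' c (lau_pure hf m _ hm ?_)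
    rw [← map_nsmul]
    exact Psi_mem hM hZ hZ' hν c hx
  have h2 := add_mem (hs s subset_rfl) h1
  rwa [sub_add_cancel] at h2

theorem lid_fin [T.FiniteIndex] (hM : IsMark T N τ) (hf : ∀ i, f i ≠ 0) :
    ∃ U : Submodule ℚ (MonoidAlgebra ℚ G), U.FG ∧ U ⊔ Lid ℚ N τ f = ⊤ := by
  classical
  obtain ⟨Z, ν, hZ, hZ', hν⟩ := exists_nu hM
  have hfin := lau_fin hf
  obtain ⟨s, hs⟩ := Module.Finite.fg_top (R := ℚ) (M := MonoidAlgebra ℚ (Zr r) ⧸ lauI ℚ f)
  let π : MonoidAlgebra ℚ (Zr r) →ₗ[ℚ] MonoidAlgebra ℚ (Zr r) ⧸ lauI ℚ f :=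
    (Ideal.Quotient.mkₐ ℚ (lauI ℚ f)).toLinearMap
  choose ρ hρ using Ideal.Quotient.mk_surjective (I := lauI ℚ f)
  let W : Submodule ℚ (MonoidAlgebra ℚ (Zr r)) := Submodule.span ℚ (ρ '' (s : Set _))
  have hW : W.FG := Submodule.fg_span (s.finite_toSet.image ρ)
  have hW' : ∀ y, ∃ w ∈ W, y - w ∈ lauI ℚ f := by
    intro y
    have h1 : (⊤ : Submodule ℚ _) ≤ W.map π := by
      rw [← hs]
      exact Submodule.span_le.2 fun q hq =>
        ⟨ρ q, Submodule.subset_span ⟨q, hq, rfl⟩, hρ q⟩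
    obtain ⟨w, hw, e⟩ := h1 (Submodule.mem_top (x := π y))
    exact ⟨w, hw, Ideal.Quotient.eq.1 e.symm⟩
  have := Fintype.ofFinite (G ⧸ T)
  refine ⟨⨆ c : G ⧸ T, W.map (sg ℚ T τ c), Submodule.fg_iSup _ fun c => hW.map _,
    top_unique fun x _ => ?_⟩
  obtain ⟨t, ht⟩ := decomp (R := ℚ) (T := T) (f := f) hZ' hν x
  have h1 : ∑ c, sg ℚ T τ c (Psi ℚ T ν c x) ∈
      (⨆ c : G ⧸ T, W.map (sg ℚ T τ c)) ⊔ Lid ℚ N τ f := by
    refine Submodule.sum_mem _ fun c _ => ?_
    obtain ⟨w, hw, e⟩ := hW' (Psi ℚ T ν c x)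
    have h2 := add_mem (Submodule.mem_sup_right (S := ⨆ c : G ⧸ T, W.map (sg ℚ T τ c))
      (sg_mem hZ' c e)) (Submodule.mem_sup_left (Submodule.mem_iSup_of_mem c ⟨w, hw, rfl⟩))
    rwa [map_sub, sub_add_cancel] at h2
  have h2 := add_mem (Submodule.mem_sup_right (ht Finset.univ (Finset.subset_univ _))) h1
  rwa [sub_add_cancel] at h2

theorem lid_mem (hM : IsMark T N τ) (hf : ∀ i, ∃ c, f i = (X - 1) ^ 2 * c) {g : G}
    (h : of ℚ G g - 1 ∈ Lid ℚ N τ f) : g ∈ N := by
  classical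
  obtain ⟨Z, ν, hZ, hZ', hν⟩ := exists_nu hM
  have h1 := Psi_mem hM hZ hZ' hν ((1 : G) : G ⧸ T) h
  rw [map_sub, ← map_one (of ℚ G), Psi_of, Psi_of, if_pos rfl] at h1
  split_ifs at h1 with hg
  · have h2 := congrArg Z (lau_inj hf h1)
    rw [hν _ (out_mem hg), hν _ (out_mem rfl), QuotientGroup.mk_mul, QuotientGroup.mk_mul,
      mul_right_inj] at h2
    exact (QuotientGroup.eq_one_iff _).1 h2
  · rw [zero_sub, neg_mem_iff] at h1
    exact (lau_one hf _ h1).elim

end Pool.Agent.P.MP_257122_al.K
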