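import Pool.Agent.P.MP_257122_al.NDefs
import Pool.Agent.P.MP_257122_al.GBasic

/-!
# Finite-dimensional models of the group algebra: pure part

PLAN.  `exists_model`: `J = kerI γ` is a two-sided ideal of finite codimension, generated as a left
ideal by a finite list (`kerI_gens`), so `J ^ i / J ^ (i+1)` is finite-dimensional by induction
(`J ^ (i+1) = ∑ J ^ i r` and `J ^ i = ∑ QF s`).  Choose a basis of `QF / J ^ (e+1)` adapted to the
flag of the images of the `J ^ i` (induction on the flag, or `Module.Basis.flag`-free: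
complements `C i` with `F i = C i ⊕ F (i+1)`), reindex to `Fin n`, take matrices of left
multiplications.
`span_mod_of_rel`: induction on words.
-/

namespace Pool.Agent.P.MP_257122_al

open Matrix

variable {b m : ℕ}

theorem algOf_of {n : ℕ} (g : Fin b → GL (Fin n) ℚ) (w : Fr b) :
    algOf g (MonoidAlgebra.of ℚ (Fr b) w) = (FreeGroup.lift g w).val := by
  simp [algOf]

theorem mem_kerI {γ : Fin b → GL (Fin m) ℚ} {a : QF b} : a ∈ kerI γ ↔ algOf γ a = 0 := Iff.rfl

theorem top_mul_kerI (γ : Fin b → GL (Fin m) ℚ) : ⊤ * kerI γ = kerI γ :=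
  le_antisymm (Submodule.mul_le.2 fun x _ a ha => by rw [mem_kerI, map_mul, mem_kerI.1 ha, mul_zero])
    fun a ha => one_mul a ▸ Submodule.mul_mem_mul trivial ha

theorem kerI_mul_top (γ : Fin b → GL (Fin m) ℚ) : kerI γ * ⊤ = kerI γ :=
  le_antisymm (Submodule.mul_le.2 fun a ha x _ => by rw [mem_kerI, map_mul, mem_kerI.1 ha, zero_mul])
    fun a ha => mul_one a ▸ Submodule.mul_mem_mul ha trivial

theorem top_mul_kerI_pow (γ : Fin b → GL (Fin m) ℚ) (e : ℕ) :
    ⊤ * kerI γ ^ (e + 1) = kerI γ ^ (e + 1) := by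
  rw [pow_succ', ← mul_assoc, top_mul_kerI]

theorem nm_ext {A : Type} [Ring A] [Algebra ℚ A] {f g : QF b →ₐ[ℚ] A}
    (h : ∀ w, f (MonoidAlgebra.of ℚ _ w) = g (MonoidAlgebra.of ℚ _ w)) : f = g :=
  MonoidAlgebra.algHom_ext h (Subsingleton.elim _ _)

theorem nm_left {S : Submodule ℚ (QF b)} (x : QF b) {y : QF b} (hy : y ∈ ⊤ * S) :
    x * y ∈ ⊤ * S :=
  Submodule.mul_induction_on hy (fun a _ c hc => mul_assoc x a c ▸ Submodule.mul_mem_mul trivial hc)
    fun a c ha hc => mul_add x a c ▸ add_mem ha hc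

theorem kerI_pow_mul_left (γ : Fin b → GL (Fin m) ℚ) (e : ℕ) (x : QF b) {a : QF b}
    (ha : a ∈ kerI γ ^ (e + 1)) : x * a ∈ kerI γ ^ (e + 1) :=
  top_mul_kerI_pow γ e ▸ Submodule.mul_mem_mul trivial ha

theorem kerI_pow_mul_right (γ : Fin b → GL (Fin m) ℚ) (e : ℕ) (x : QF b) {a : QF b}
    (ha : a ∈ kerI γ ^ (e + 1)) : a * x ∈ kerI γ ^ (e + 1) := by
  rw [pow_succ, ← kerI_mul_top, ← mul_assoc, kerI_mul_top, ← pow_succ]
  exact Submodule.mul_mem_mul ha trivial

theorem mem_kerI_pow (γ : Fin b → GL (Fin m) ℚ) (e : ℕ) (a : QF b) :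
    a ∈ kerI γ ^ (e + 1) ↔ ∃ l : List (List (QF b)),
      (∀ s ∈ l, s.length = e + 1 ∧ ∀ x ∈ s, algOf γ x = 0) ∧ (l.map List.prod).sum = a := by
  constructor
  · intro h
    induction e generalizing a with
    | zero => exact ⟨[[a]], by simpa [mem_kerI] using h, by simp⟩
    | succ e ih =>
      rw [pow_succ] at h
      refine Submodule.mul_induction_on h (fun x hx y hy => ?_) fun x y hx hy => ?_
      · obtain ⟨l, h1, rfl⟩ := ih x hx
        refine ⟨l.map (· ++ [y]), fun s hs => ?_, by simp [Function.comp_def, List.sum_map_mul_right]⟩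
        obtain ⟨t, ht, rfl⟩ := List.mem_map.1 hs
        refine ⟨by simp [(h1 t ht).1], fun z hz => (List.mem_append.1 hz).elim ((h1 t ht).2 z) ?_⟩
        intro hz
        rwa [List.mem_singleton.1 hz]
      · obtain ⟨l, h1, rfl⟩ := hx
        obtain ⟨l', h2, rfl⟩ := hy
        exact ⟨l ++ l', fun s hs => (List.mem_append.1 hs).elim (h1 s) (h2 s), by simp⟩
  · rintro ⟨l, h, rfl⟩
    have key : ∀ s : List (QF b), (∀ x ∈ s, algOf γ x = 0) → s.prod ∈ kerI γ ^ s.length := by
      intro s hs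
      induction s with
      | nil => exact Submodule.one_le.1 le_rfl
      | cons x s ih =>
        rw [List.length_cons, pow_succ', List.prod_cons]
        exact Submodule.mul_mem_mul (hs x (by simp)) (ih fun y hy => hs y (by simp [hy]))
    refine list_sum_mem fun x hx => ?_
    obtain ⟨s, hs, rfl⟩ := List.mem_map.1 hx
    exact (h s hs).1 ▸ key s (h s hs).2

/-- If `I` is a left ideal and the span of the `h i` contains `1` and is stable under the
generators modulo `I`, then everything lies in this span modulo `I`, with coefficients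
given by the orbit of `e`. -/
theorem span_mod_of_rel {n : ℕ} {I : Submodule ℚ (QF b)} (hI : ∀ x, ∀ a ∈ I, x * a ∈ I)
    (g : Fin b → GL (Fin n) ℚ) (e : Fin n → ℚ) (h : Fin n → QF b)
    (h1 : 1 - ∑ j, e j • h j ∈ I)
    (h2 : ∀ x i, MonoidAlgebra.of ℚ (Fr b) (FreeGroup.of x) * h i - ∑ j, (g x).val j i • h j ∈ I)
    (h3 : ∀ x i, MonoidAlgebra.of ℚ (Fr b) (FreeGroup.of x)⁻¹ * h i - ∑ j, (g x).inv j i • h j ∈ I)
    (a : QF b) : a - ∑ j, (algOf g a *ᵥ e) j • h j ∈ I := by
  let H := Fintype.linearCombination ℚ h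
  have gen : ∀ (y : QF b) (A : Matrix (Fin n) (Fin n) ℚ), (∀ i, y * h i - ∑ j, A j i • h j ∈ I) →
      ∀ c, y * H c - H (A *ᵥ c) ∈ I := fun y A hA c => by
    have e : y * H c - H (A *ᵥ c) = ∑ i, c i • (y * h i - ∑ j, A j i • h j) := by
      simp only [H, Fintype.linearCombination_apply, mulVec, dotProduct, Finset.mul_sum, smul_sub,
        Finset.sum_sub_distrib, Finset.smul_sum, Finset.sum_smul, mul_smul_comm, smul_smul,
        mul_comm (c _)]
      rw [Finset.sum_comm]
    exact e ▸ I.sum_mem fun i _ => I.smul_mem _ (hA i)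
  have key : ∀ (w : Fr b) c, MonoidAlgebra.of ℚ (Fr b) w * H c -
      H ((FreeGroup.lift g w).val *ᵥ c) ∈ I := fun w => by
    induction w using FreeGroup.induction_on with
    | C1 => simp only [map_one, one_mul, Units.val_one, one_mulVec, sub_self, zero_mem, implies_true]
    | of x => simpa only [FreeGroup.lift_apply_of] using gen _ _ (h2 x)
    | inv_of x _ => rw [(FreeGroup.lift g).map_inv, FreeGroup.lift_apply_of]; exact gen _ _ (h3 x)
    | mul w w' ih ih' =>
      intro c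
      have := I.add_mem (hI (MonoidAlgebra.of ℚ (Fr b) w) _ (ih' c)) (ih ((FreeGroup.lift g w').val *ᵥ c))
      rwa [mul_sub, sub_add_sub_cancel, ← mul_assoc, ← map_mul, mulVec_mulVec, ← Units.val_mul,
        ← map_mul] at this
  show a - H (algOf g a *ᵥ e) ∈ I
  induction a using MonoidAlgebra.induction_on with
  | of w =>
    have := I.add_mem (hI (MonoidAlgebra.of ℚ (Fr b) w) (1 - H e) h1) (key w e)
    rwa [mul_sub, mul_one, sub_add_sub_cancel, ← algOf_of] at this
  | add x y hx hy =>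
    rw [map_add, add_mulVec, map_add, add_sub_add_comm]
    exact I.add_mem hx hy
  | smul r x hx =>
    rw [map_smul, smul_mulVec, map_smul, ← smul_sub]
    exact I.smul_mem r hx

theorem nm_flag {V : Type} [AddCommGroup V] [Module ℚ V] (c : ℕ) (F : ℕ → Submodule ℚ V)
    (hF : Antitone F) (h0 : F c = ⊥) : ∃ (s : Set V) (wt : V → ℕ), LinearIndepOn ℚ id s ∧
      (∀ x ∈ s, wt x < c) ∧ ∀ j, Submodule.span ℚ {x ∈ s | j ≤ wt x} = F j := by
  classical
  induction c generalizing F with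
  | zero => exact ⟨∅, 0, by simp, by simp, fun j => by
      simpa using (le_bot_iff.1 (h0 ▸ hF (Nat.zero_le j))).symm⟩
  | succ c ih =>
    obtain ⟨s, wt, h1, h2, h3⟩ := ih (fun j => F (j + 1)) (fun i j h => hF (by omega)) h0
    obtain ⟨t, k1, k2, k3, k4⟩ := exists_linearIndepOn_id_extension h1 (t := F 0) fun x hx =>
      hF (Nat.zero_le 1) (h3 0 ▸ Submodule.subset_span ⟨hx, Nat.zero_le _⟩)
    refine ⟨t, fun x => if x ∈ s then wt x + 1 else 0, k4, fun x _ => ?_, fun j => ?_⟩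
    · dsimp only
      split_ifs with h
      · exact Nat.succ_lt_succ (h2 x h)
      · omega
    · rcases j with _ | j
      · simpa using le_antisymm (Submodule.span_le.2 k1) k3
      · rw [← h3 j]
        congr 1
        ext x
        by_cases h : x ∈ s <;> simp [h, k2 (a := x)]

theorem nm_gens (γ : Fin b → GL (Fin m) ℚ) : ∃ W R : Submodule ℚ (QF b), W.FG ∧ R.FG ∧
    W ⊔ kerI γ = ⊤ ∧ ⊤ * R = kerI γ := by
  obtain ⟨C, hC⟩ := (kerI γ).exists_isCompl
  have : Module.Finite ℚ C := Module.Finite.of_injective ((algOf γ).toLinearMap.domRestrict C)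
    (LinearMap.injective_domRestrict_iff.2 hC.symm.disjoint)
  let S : Set (QF b) := insert 1 (Set.range (fun x => MonoidAlgebra.of ℚ _ (FreeGroup.of x)) ∪
    Set.range fun x => MonoidAlgebra.of ℚ _ (FreeGroup.of x)⁻¹)
  have hW : (1 ⊔ C).FG := Submodule.FG.sup
    (by rw [Submodule.one_eq_span]; exact Submodule.fg_span_singleton 1) (Module.Finite.iff_fg.1 this)
  have hT : 1 ⊔ C ⊔ kerI γ = ⊤ := by rw [sup_assoc, hC.symm.sup_eq_top, sup_top_eq]
  have h1 : (1 : QF b) ∈ 1 ⊔ C := Submodule.mem_sup_left (Submodule.one_le.1 le_rfl)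
  generalize 1 ⊔ C = W at hW hT h1
  have hS : (Submodule.span ℚ S * W).FG := (Submodule.fg_span (Set.toFinite S)).mul hW
  have hle : W ≤ Submodule.span ℚ S * W := fun w hw => one_mul w ▸
    Submodule.mul_mem_mul (Submodule.subset_span (Set.mem_insert ..)) hw
  set R := Submodule.span ℚ S * W ⊓ kerI γ
  have hR : ∀ r ∈ R, r ∈ ⊤ * R := fun r hr => one_mul r ▸ Submodule.mul_mem_mul trivial hr
  have hR' : ⊤ * R ≤ kerI γ := (mul_le_mul_right inf_le_right _).trans (top_mul_kerI γ).le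
  have gen : ∀ s ∈ S, ∀ x ∈ W ⊔ ⊤ * R, s * x ∈ W ⊔ ⊤ * R := fun s hs x hx => by
    obtain ⟨w, hw, y, hy, rfl⟩ := Submodule.mem_sup.1 hx
    obtain ⟨w', hw', j, hj, e⟩ := Submodule.mem_sup.1 (hT.ge (trivial : s * w ∈ ⊤))
    rw [mul_add, ← e]
    refine add_mem (Submodule.add_mem_sup hw' (hR j ⟨?_, hj⟩)) (Submodule.mem_sup_right ?_)
    · rw [eq_sub_of_add_eq' e]
      exact sub_mem (Submodule.mul_mem_mul (Submodule.subset_span hs) hw) (hle hw')
    · exact nm_left s hy
  have key : ∀ w : Fr b, ∀ x ∈ W ⊔ ⊤ * R, MonoidAlgebra.of ℚ _ w * x ∈ W ⊔ ⊤ * R := fun w => by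
    induction w using FreeGroup.induction_on with
    | C1 => simp only [map_one, one_mul, imp_self, implies_true]
    | of x => exact gen _ (Or.inr (Or.inl ⟨x, rfl⟩))
    | inv_of x _ => exact gen _ (Or.inr (Or.inr ⟨x, rfl⟩))
    | mul w w' ih ih' => exact fun x hx => by rw [map_mul, mul_assoc]; exact ih _ (ih' x hx)
  refine ⟨W, R, hW, hS.of_le inf_le_left, hT, le_antisymm hR' fun a ha => ?_⟩
  have h2 : a ∈ W ⊔ ⊤ * R := by
    clear ha
    induction a using MonoidAlgebra.induction_on with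
    | of w => simpa only [mul_one] using key w 1 (Submodule.mem_sup_left h1)
    | add x y hx hy => exact add_mem hx hy
    | smul r x hx => exact Submodule.smul_mem _ r hx
  obtain ⟨w, hw, y, hy, rfl⟩ := Submodule.mem_sup.1 h2
  exact add_mem (hR w ⟨hle hw, by simpa using sub_mem ha (hR' hy)⟩) hy

theorem nm_codim (γ : Fin b → GL (Fin m) ℚ) (i : ℕ) :
    ∃ U : Submodule ℚ (QF b), U.FG ∧ U ⊔ ⊤ * kerI γ ^ i = ⊤ := by
  obtain ⟨W, R, hW, hR, h1, h2⟩ := nm_gens γ
  have h3 : ∀ i, ⊤ * kerI γ ^ i = ⊤ * R ^ i → ⊤ * kerI γ ^ (i + 1) = kerI γ * R ^ i := fun i h => by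
    rw [top_mul_kerI_pow, pow_succ', ← kerI_mul_top, mul_assoc, mul_assoc, kerI_mul_top, h]
  have h4 : ∀ i, ⊤ * kerI γ ^ i = ⊤ * R ^ i := fun i => by
    induction i with
    | zero => simp only [pow_zero]
    | succ i ih => rw [h3 i ih, pow_succ', ← mul_assoc, h2]
  induction i with
  | zero => exact ⟨⊥, Submodule.fg_bot, by simp⟩
  | succ i ih =>
    obtain ⟨U, h5, h6⟩ := ih
    exact ⟨U ⊔ W * R ^ i, h5.sup (hW.mul (hR.pow i)), by
      rw [h3 i (h4 i), sup_assoc, ← Submodule.sup_mul, h1, ← h4, h6]⟩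

theorem exists_model (γ : Fin b → GL (Fin m) ℚ) (e : ℕ) : ∃ M : Model b, M.ok (kerI γ) e := by
  let I : Submodule (QF b) (QF b) :=
    { (kerI γ ^ (e + 1)).toAddSubmonoid with smul_mem' := fun x _ h => kerI_pow_mul_left γ e x h }
  let π : QF b →ₗ[ℚ] QF b ⧸ I := I.mkQ.restrictScalars ℚ
  have hπ : ∀ a, π a = 0 ↔ a ∈ kerI γ ^ (e + 1) := fun a => Submodule.Quotient.mk_eq_zero I
  have hs : Function.Surjective π := I.mkQ_surjective
  have h0 : (⊤ * kerI γ ^ (e + 1)).map π = ⊥ := by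
    rw [top_mul_kerI_pow, eq_bot_iff]
    rintro _ ⟨a, ha, rfl⟩
    exact (hπ a).2 ha
  have : Module.Finite ℚ (QF b ⧸ I) := by
    obtain ⟨U, h1, h2⟩ := nm_codim γ (e + 1)
    refine ⟨?_⟩
    rw [← LinearMap.range_eq_top.2 hs, ← Submodule.map_top, ← h2, Submodule.map_sup, h0, sup_bot_eq]
    exact h1.map π
  obtain ⟨s, wt, h1, h2, h3⟩ := nm_flag (e + 1) (fun j => (⊤ * kerI γ ^ j).map π)
    (antitone_nat_of_succ_le fun j => Submodule.map_mono (by
      rw [pow_succ', ← mul_assoc]; exact mul_le_mul_left le_top _)) h0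
  have h4 : ⊤ ≤ Submodule.span ℚ (Set.range (Subtype.val : s → _)) := by
    simpa [LinearMap.range_eq_top.2 hs] using (h3 0).ge
  have := LinearIndependent.finite h1
  have := Fintype.ofFinite s
  let v := (Module.Basis.mk h1 h4).reindex (Fintype.equivFin s)
  have hv : ∀ i, v i = ((Fintype.equivFin s).symm i).1 := fun i => by simp [v]
  have h5 : ∀ j, v '' {i | j ≤ wt (v i)} = {x ∈ s | j ≤ wt x} := fun j => by
    ext x
    refine ⟨?_, fun h => ⟨Fintype.equivFin s ⟨x, h.1⟩, by simpa [hv] using h.2, by simp [hv]⟩⟩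
    rintro ⟨i, hi, rfl⟩
    exact ⟨hv i ▸ Subtype.prop _, hi⟩
  let ρ : QF b →ₐ[ℚ] Matrix _ _ ℚ :=
    (LinearMap.toMatrixAlgEquiv v).toAlgHom.comp (Algebra.lsmul ℚ ℚ (QF b ⧸ I))
  have hρ : ∀ a x, ρ a *ᵥ v.repr (π x) = v.repr (π (a * x)) := fun a x =>
    LinearMap.toMatrix_mulVec_repr v v _ _
  let u := (ρ.toMonoidHom.comp (MonoidAlgebra.of ℚ (Fr b))).toHomUnits
  have hu : algOf (fun x => u (FreeGroup.of x)) = ρ := nm_ext fun w => by
    have : FreeGroup.lift (fun x => u (FreeGroup.of x)) = u := FreeGroup.ext_hom _ _ (by simp)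
    exact (algOf_of _ w).trans (by rw [this]; rfl)
  have hf : ∀ a k, (∀ j, ∀ x ∈ ⊤ * kerI γ ^ j, a * x ∈ ⊤ * kerI γ ^ (j + k)) →
      ρ a ∈ fil (fun i => wt (v i)) k := fun a k h r t hr => by
    obtain ⟨x, hx, e⟩ := (h3 (wt (v t))).le (Submodule.subset_span ((h5 _).le ⟨t, le_refl (wt (v t)), rfl⟩))
    have h6 := (h3 _).ge (Submodule.mem_map_of_mem (f := π) (h _ x hx))
    rw [← h5, Module.Basis.mem_span_image] at h6
    have h7 := congrFun (hρ a x) r
    rw [e, v.repr_self, Finsupp.single_eq_pi_single, mulVec_single_one] at h7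
    exact h7.trans (by_contra fun h8 => absurd (h6 (Finsupp.mem_support_iff.2 h8)) (not_le.2 hr))
  have hf0 : ∀ a, ρ a ∈ fil (fun i => wt (v i)) 0 := fun a => hf a 0 fun j x hx => nm_left a hx
  choose a ha using fun i => hs (v i)
  refine ⟨⟨_, fun i => wt (v i), fun x => u (FreeGroup.of x), v.repr (π 1), fun i => ρ (a i)⟩,
    fun i => h2 _ (hv i ▸ Subtype.prop _), fun x => ⟨hf0 _, hf0 _⟩, fun x hx => ?_, fun x => ?_,
    fun i => ⟨a i, by rw [hu], ?_⟩⟩
  · rw [hu]
    refine hf x 1 fun j y hy => ?_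
    rw [top_mul_kerI_pow, pow_succ', ← kerI_mul_top, mul_assoc, kerI_mul_top]
    exact Submodule.mul_mem_mul hx hy
  · dsimp only
    rw [hu, hρ, mul_one, ← hπ, Finsupp.coe_eq_zero, map_eq_zero_iff _ v.repr.injective]
  · dsimp only
    rw [hρ, mul_one, ha, v.repr_self, Finsupp.single_eq_pi_single]

variable {γ : Fin b → GL (Fin m) ℚ} {e : ℕ} {M : Model b}

theorem Model.ok.surj {J : Submodule ℚ (QF b)} (h : M.ok J e) (v : Fin M.1 → ℚ) :
    ∃ a, algOf M.2.2.1 a *ᵥ M.2.2.2.1 = v := by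
  choose a h1 h2 using h.2.2.2.2
  refine ⟨∑ i, v i • a i, ?_⟩
  simp only [map_sum, map_smul, sum_mulVec, smul_mulVec, h1, h2]
  exact (pi_eq_sum_univ' v).symm

theorem Model.ok.eq_zero (h : M.ok (kerI γ) e) {a : QF b}
    (ha : algOf M.2.2.1 a *ᵥ M.2.2.2.1 = 0) : algOf M.2.2.1 a = 0 := by
  refine Matrix.ext_of_mulVec_single fun i => ?_
  obtain ⟨x, hx⟩ := h.surj (Pi.single i 1)
  rw [← hx, zero_mulVec, mulVec_mulVec, ← map_mul, h.2.2.2.1]
  exact kerI_pow_mul_right γ e x ((h.2.2.2.1 a).1 ha)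

theorem Model.ok.eq_sum (h : M.ok (kerI γ) e) (a : QF b) :
    algOf M.2.2.1 a = ∑ i, (algOf M.2.2.1 a *ᵥ M.2.2.2.1) i • M.2.2.2.2 i := by
  choose x h1 h2 using h.2.2.2.2
  have := h.eq_zero (a := a - ∑ i, (algOf M.2.2.1 a *ᵥ M.2.2.2.1) i • x i) (by
    simp only [map_sub, map_sum, map_smul, sub_mulVec, sum_mulVec, smul_mulVec, h1, h2]
    exact sub_eq_zero.2 (pi_eq_sum_univ' _))
  simpa only [map_sub, map_sum, map_smul, h1, sub_eq_zero] using this

theorem Model.ok.adapt (h : M.ok (kerI γ) e) {N : Subgroup (Fr b)}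
    (hN : N ≤ (FreeGroup.lift γ).ker) : Adapt M.2.1 (e + 1) M.rho N := by
  refine ⟨h.1, isPar_lift h.2.1, fun y hy => ?_⟩
  have := h.2.2.1 (MonoidAlgebra.of ℚ _ y - 1) (by
    rw [mem_kerI, map_sub, algOf_of, MonoidHom.mem_ker.1 (hN hy), map_one, Units.val_one, sub_self])
  rwa [map_sub, algOf_of, map_one] at this

/-- Endomorphisms of the free group that do not change `γ` act on the model. -/
theorem Model.ok.endo (h : M.ok (kerI γ) e) (φ : Fr b →* Fr b)
    (hφ : ∀ w, FreeGroup.lift γ (φ w) = FreeGroup.lift γ w) :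
    ∃ α : Matrix (Fin M.1) (Fin M.1) ℚ, ∀ a, α *ᵥ (algOf M.2.2.1 a *ᵥ M.2.2.2.1) =
      algOf M.2.2.1 (MonoidAlgebra.mapDomain φ a) *ᵥ M.2.2.2.1 := by
  choose x h1 h2 using h.2.2.2.2
  let f := MonoidAlgebra.mapDomainAlgHom ℚ ℚ φ
  have hf : (algOf γ).comp f = algOf γ := nm_ext fun w => by
    simpa [f] using (algOf_of γ (φ w)).trans ((congrArg Units.val (hφ w)).trans (algOf_of γ w).symm)
  have hJ : (kerI γ ^ (e + 1)).map f.toLinearMap ≤ kerI γ ^ (e + 1) := by
    rw [Submodule.map_pow]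
    refine pow_le_pow_left' ?_ _
    rintro _ ⟨a, ha, rfl⟩
    exact (DFunLike.congr_fun hf a).trans ha
  refine ⟨Matrix.of fun r i => (algOf M.2.2.1 (f (x i)) *ᵥ M.2.2.2.1) r, fun a => ?_⟩
  have h3 := (h.2.2.2.1 _).2 (hJ (Submodule.mem_map_of_mem ((h.2.2.2.1
    (a - ∑ i, (algOf M.2.2.1 a *ᵥ M.2.2.2.1) i • x i)).1 (by
      simp only [map_sub, map_sum, map_smul, h1, ← h.eq_sum a, sub_self, zero_mulVec]))))
  simp only [AlgHom.toLinearMap_apply, map_sub, map_sum, map_smul, sub_mulVec, sum_mulVec,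
    smul_mulVec, sub_eq_zero] at h3
  refine Eq.trans (funext fun r => ?_) h3.symm
  simp only [mulVec, dotProduct, Finset.sum_apply, of_apply, Pi.smul_apply, smul_eq_mul]
  exact Finset.sum_congr rfl fun i _ => mul_comm _ _

/-- A matrix fixes the structure tensor iff it intertwines the left multiplications. -/
theorem act_mulT {n : ℕ} (L : Fin n → Matrix (Fin n) (Fin n) ℚ) (β : GL (Fin n) ℚ) :
    act (mulT L).1 β.val β.inv *ᵥ (mulT L).2.1 = (mulT L).2.2 ↔
      ∀ v : Fin n → ℚ, β.val * (∑ i, v i • L i) * β.inv = ∑ i, (β.val *ᵥ v) i • L i := by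
  have key : ∀ I : Fin 3 → Fin n, (act (mulT L).1 β.val β.inv *ᵥ (mulT L).2.1) I =
      (β.val * (∑ i, β.inv i (I 1) • L i) * β.inv) (I 0) (I 2) := fun I => by
    let q : Fin n × Fin n × Fin n ≃ (Fin 3 → Fin n) := ⟨fun p => ![p.2.2, p.2.1, p.1],
      fun J => (J 2, J 1, J 0), fun _ => rfl, fun J => funext fun i => by fin_cases i <;> rfl⟩
    refine (q.sum_comp _).symm.trans ?_
    simp only [Fintype.sum_prod_type, mul_apply, Finset.sum_mul, Finset.mul_sum, Matrix.sum_apply]
    refine Finset.sum_congr rfl fun i _ => Finset.sum_congr rfl fun k _ =>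
      Finset.sum_congr rfl fun j _ => ?_
    refine (congrArg (· * L k j i) (Fin.prod_univ_three fun s =>
      if [true, false, false].get s = true then β.val (I s) (q (i, k, j) s)
      else β.inv (q (i, k, j) s) (I s))).trans ?_
    show β.val (I 0) j * β.inv k (I 1) * β.inv i (I 2) * L k j i =
      β.val (I 0) j * (β.inv k (I 1) * L k j i) * β.inv i (I 2)
    ring
  constructor
  · intro h v
    have h1 : ∀ k, β.val * (∑ i, β.inv i k • L i) * β.inv = L k := fun k =>
      Matrix.ext fun i j => (key ![i, k, j]).symm.trans (congrFun h ![i, k, j])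
    have h2 : ∀ i, v i = ∑ k, (β.val *ᵥ v) k * β.inv i k := fun i => by
      simpa only [mul_comm, mulVec, dotProduct] using congrFun (show v = β.inv *ᵥ β.val *ᵥ v by
        rw [mulVec_mulVec, β.inv_val, one_mulVec]) i
    rw [Finset.sum_congr rfl fun k _ => congrArg ((β.val *ᵥ v) k • ·) (h1 k).symm,
      Finset.sum_congr rfl fun i _ => congrArg (· • L i) (h2 i)]
    simp only [Finset.sum_smul]
    rw [Finset.sum_comm]
    simp only [Finset.mul_sum, Finset.sum_mul, Finset.smul_sum, mul_smul, mul_smul_comm,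
      smul_mul_assoc]
  · intro h
    funext I
    refine (key I).trans ?_
    have h1 : β.val *ᵥ (fun i => β.inv i (I (1 : Fin 3))) = Pi.single (I (1 : Fin 3)) 1 :=
      funext fun i => (congrFun (congrFun β.val_inv i) _).trans (by rw [one_apply, Pi.single_apply])
    rw [h, h1, Fintype.sum_single_smul, one_smul]
    rfl

theorem act_vecT {n : ℕ} (v : Fin n → ℚ) (β : GL (Fin n) ℚ) :
    act (vecT v).1 β.val β.inv *ᵥ (vecT v).2.1 = (vecT v).2.2 ↔ β.val *ᵥ v = v := by
  have key : ∀ I : Fin 1 → Fin n, (act (vecT v).1 β.val β.inv *ᵥ (vecT v).2.1) I =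
      (β.val *ᵥ v) (I 0) := fun I =>
    ((Equiv.funUnique (Fin 1) (Fin n)).symm.sum_comp _).symm.trans
      (Finset.sum_congr rfl fun i _ => congrArg (· * v i) (Fin.prod_univ_one fun s => β.val (I s) i))
  exact ⟨fun h => funext fun i => (key fun _ => i).symm.trans (congrFun h fun _ => i),
    fun h => funext fun I => (key I).trans (congrFun h _)⟩

theorem orbL_eq {n : ℕ} (g : Fin b → GL (Fin n) ℚ) (v : Fin n → ℚ) :
    orbL g v = AddSubgroup.closure {x | ∃ w, (FreeGroup.lift g w).val *ᵥ v = x} := by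
  refine le_antisymm (sInf_le ⟨AddSubgroup.closure_mono fun x hx => ⟨1, by simp_all⟩, ?_⟩)
    (le_sInf fun N hN => (AddSubgroup.closure_le _).2 ?_)
  · have key : ∀ u : Fr b, ∀ x ∈ AddSubgroup.closure {x | ∃ w, (FreeGroup.lift g w).val *ᵥ v = x},
        (FreeGroup.lift g u).val.mulVecLin x ∈
          AddSubgroup.closure {x | ∃ w, (FreeGroup.lift g w).val *ᵥ v = x} := fun u x hx => by
      induction hx using AddSubgroup.closure_induction with
      | mem x hx =>
        obtain ⟨w, rfl⟩ := hx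
        exact AddSubgroup.subset_closure ⟨u * w, by simp⟩
      | zero => rw [map_zero]; exact zero_mem _
      | add x y _ _ hx hy => rw [map_add]; exact add_mem hx hy
      | neg x _ hx => rw [map_neg]; exact neg_mem hx
    intro φ hφ
    rcases List.mem_append.1 hφ with h | h <;> obtain ⟨x, rfl⟩ := (List.mem_ofFn' _ _).1 h
    · simpa only [FreeGroup.lift_apply_of] using key (FreeGroup.of x)
    · have := key (FreeGroup.of x)⁻¹
      rwa [map_inv, FreeGroup.lift_apply_of] at this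
  · have key : ∀ w : Fr b, ∀ x ∈ N, (FreeGroup.lift g w).val *ᵥ x ∈ N := fun w => by
      induction w using FreeGroup.induction_on with
      | C1 => simp
      | of x =>
        rw [FreeGroup.lift_apply_of]
        exact hN.2 _ (List.mem_append_left _ ((List.mem_ofFn' _ _).2 ⟨x, rfl⟩))
      | inv_of x _ =>
        rw [map_inv, FreeGroup.lift_apply_of]
        exact hN.2 _ (List.mem_append_right _ ((List.mem_ofFn' _ _).2 ⟨x, rfl⟩))
      | mul w w' ih ih' =>
        intro x hx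
        rw [map_mul, Units.val_mul, ← mulVec_mulVec]
        exact ih _ (ih' x hx)
    rintro _ ⟨w, rfl⟩
    exact key w v (hN.1 (AddSubgroup.subset_closure (by simp)))

theorem comap_fold_ncl (Y : List (Fr b)) :
    (Subgroup.normalClosure {y | y ∈ Y}).comap (fold b) =
      Subgroup.normalClosure {y | y ∈ Y.map (inlF b b) ++ tieR FreeGroup.of} := by
  have h1 : ∀ y, fold b (inlF b b y) = y := fun y =>
    DFunLike.congr_fun (FreeGroup.ext_hom ((fold b).comp (inlF b b)) (MonoidHom.id _) fun x => by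
      simp [fold, inlF]) y
  refine le_antisymm (fun w hw => ?_) (Subgroup.normalClosure_le_normal fun y hy => ?_)
  · set K := Subgroup.normalClosure {y | y ∈ Y.map (inlF b b) ++ tieR FreeGroup.of}
    have h2 : inlF b b (fold b w) ∈ K := Subgroup.normalClosure_le_normal (N := K.comap (inlF b b))
      (fun y hy => Subgroup.subset_normalClosure
        (List.mem_append_left _ (List.mem_map_of_mem hy))) hw
    have h3 := gb_gens (S := K) ((inlF b b).comp (fold b)) (fun x => by
      induction x using Fin.addCases with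
      | left x => simp [fold, inlF]
      | right x =>
        simpa [fold, -Fin.natAdd_eq_addNat] using (inferInstance : K.Normal).mem_comm (Subgroup.subset_normalClosure
          (List.mem_append_right _ ((List.mem_ofFn' _ _).2 ⟨x, rfl⟩)))) w
    simpa using K.mul_mem (K.inv_mem h3) h2
  · rcases List.mem_append.1 hy with h | h
    · obtain ⟨z, hz, rfl⟩ := List.mem_map.1 h
      rw [SetLike.mem_coe, Subgroup.mem_comap, h1]
      exact Subgroup.subset_normalClosure hz
    · obtain ⟨z, rfl⟩ := (List.mem_ofFn' _ _).1 h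
      rw [SetLike.mem_coe, Subgroup.mem_comap, map_mul, h1]
      simp [fold, -Fin.natAdd_eq_addNat]

theorem lift_append_self {G : Type} [Group G] (γ : Fin b → G) (w : Fr (b + b)) :
    FreeGroup.lift (Fin.append γ γ) w = FreeGroup.lift γ (fold b w) :=
  DFunLike.congr_fun (FreeGroup.ext_hom _ ((FreeGroup.lift γ).comp (fold b)) fun x => by
    induction x using Fin.addCases <;> simp [fold, -Fin.natAdd_eq_addNat]) w

theorem lift_inlF {G : Type} [Group G] {b' : ℕ} (g : Fin (b + b') → G) (w : Fr b) :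
    FreeGroup.lift g (inlF b b' w) = FreeGroup.lift (fun x => g (Fin.castAdd b' x)) w :=
  DFunLike.congr_fun (FreeGroup.ext_hom ((FreeGroup.lift g).comp (inlF b b')) _ fun x => by
    simp [inlF]) w

end Pool.Agent.P.MP_257122_al
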