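import Pool.Agent.P.MP_257122_al.KPure
import Pool.Agent.P.MP_257122_al.NModP

/-!
# From rational to integral group rings

PLAN.  Let `ι : ℤ[G] → ℚ[G]` be the injective ring homomorphism (`MonoidAlgebra.mapRingHom`), and for a
submodule `I` of `ℤ[G]` let `rat I` be the `ℚ`-submodule of all `y` with `m • y = ι x` for some `m ≠ 0`,
`x ∈ I`.  Then `rat ⊤ = ⊤`, `rat I * rat J ≤ rat (I * J)`, `ι x ∈ rat I → x ∈ I` for pure `I`,
`aug ℚ N ≤ rat (aug ℤ N)`, `Lid ℚ N τ f ≤ rat (Lid ℤ N τ f)`, `core (rat I) ≤ rat (core I)` for pure `I`, and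
`core I` is pure; use `two_core`, `top_mul_top_mul`, `pure_pow`.  The ideal `aug ℤ ⊤` is the kernel of the
augmentation, so it is pure.  `exists_w0`: `exists_model` for the trivial representation
`γ : Fin b → GL (Fin 1) ℚ`, `kerI γ = aug ℚ ⊤`, `Model.ok.adapt`, `algOf_of`.
-/

namespace Pool.Agent.P.MP_257122_al.K

open Polynomial MonoidAlgebra C
open scoped commutatorElement Matrix

namespace KRat

variable {G : Type} [Group G]

/-- The augmentation. -/
noncomputable def eps (R G : Type) [CommRing R] [Group G] : MonoidAlgebra R G →ₐ[R] R :=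
  MonoidAlgebra.lift R R G 1

theorem eps_of (R : Type) [CommRing R] (g : G) : eps R G (of R G g) = 1 := by simp [eps]

theorem sub_eps {R : Type} [CommRing R] (x : MonoidAlgebra R G) :
    x - eps R G x • 1 ∈ aug R (⊤ : Subgroup G) := by
  induction x using MonoidAlgebra.induction_on with
  | of g => rw [eps_of, one_smul]; exact sub_mem_aug trivial
  | add f g hf hg =>
    rw [map_add, add_smul, add_sub_add_comm]
    exact add_mem hf hg
  | smul r f hf =>
    rw [map_smul, smul_assoc, ← smul_sub]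
    exact Submodule.smul_mem _ _ hf

theorem mem_aug_top {R : Type} [CommRing R] {x : MonoidAlgebra R G} :
    x ∈ aug R (⊤ : Subgroup G) ↔ eps R G x = 0 := by
  refine ⟨fun h => ?_, fun h => by simpa [h] using sub_eps x⟩
  have : aug R (⊤ : Subgroup G) ≤ LinearMap.ker (eps R G).toLinearMap := Submodule.span_le.2 (by
    rintro _ ⟨n, -, rfl⟩
    change eps R G _ = 0
    rw [map_sub, eps_of, map_one, sub_self])
  exact this h

theorem pure_aug : Pure (aug ℤ (⊤ : Subgroup G)) := fun m x hm h => by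
  rw [mem_aug_top, map_nsmul, nsmul_eq_mul, mul_eq_zero] at h
  exact mem_aug_top.2 (h.resolve_left (Nat.cast_ne_zero.2 hm))

theorem two_aug {R : Type} [CommRing R] : Two (aug R (⊤ : Subgroup G)) :=
  ⟨zs_top (R := R) (G := G) ▸ zs_mul_aug, zs_top (R := R) (G := G) ▸ aug_mul_zs⟩

/-- The inclusion of the integral group ring. -/
noncomputable def io (G : Type) [Group G] : MonoidAlgebra ℤ G →+* MonoidAlgebra ℚ G :=
  MonoidAlgebra.mapRingHom G (Int.castRingHom ℚ)

theorem io_inj : Function.Injective (io G) :=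
  MonoidAlgebra.map_injective _ (Int.castRingHom ℚ).injective_int

theorem io_of (g : G) : io G (of ℤ G g) = of ℚ G g := by simp [io]

theorem io_sub (g : G) : io G (of ℤ G g - 1) = of ℚ G g - 1 := by rw [map_sub, map_one, io_of]

theorem io_pev (g : G) (f : ℤ[X]) : io G (pev (of ℤ G g) f) = pev (of ℚ G g) f := by
  rw [← io_of]
  exact (Polynomial.aeval_algHom_apply (io G).toIntAlgHom (of ℤ G g) f).symm

/-- The rational span. -/
noncomputable def rat (I : Submodule ℤ (MonoidAlgebra ℤ G)) : Submodule ℚ (MonoidAlgebra ℚ G) where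
  carrier := {y | ∃ m : ℕ, m ≠ 0 ∧ ∃ x ∈ I, m • y = io G x}
  zero_mem' := ⟨1, one_ne_zero, 0, zero_mem _, by simp⟩
  add_mem' := by
    rintro y y' ⟨m, hm, x, hx, e⟩ ⟨m', hm', x', hx', e'⟩
    refine ⟨m * m', mul_ne_zero hm hm', m' • x + m • x',
      add_mem (nsmul_mem hx _) (nsmul_mem hx' _), ?_⟩
    rw [map_add, map_nsmul, map_nsmul, ← e, ← e', smul_add, smul_smul, smul_smul, mul_comm m']
  smul_mem' := by
    rintro q y ⟨m, hm, x, hx, e⟩
    refine ⟨q.den * m, mul_ne_zero q.den_nz hm, q.num • x, zsmul_mem hx _, ?_⟩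
    rw [map_zsmul, ← e, mul_smul, smul_comm m q, ← Nat.cast_smul_eq_nsmul ℚ q.den, smul_smul,
      Rat.den_mul_eq_num, Int.cast_smul_eq_zsmul]

variable {I J : Submodule ℤ (MonoidAlgebra ℤ G)}

theorem io_mem {x : MonoidAlgebra ℤ G} (h : x ∈ I) : io G x ∈ rat I :=
  ⟨1, one_ne_zero, x, h, one_smul _ _⟩

theorem mem_top (y : MonoidAlgebra ℚ G) : y ∈ rat (⊤ : Submodule ℤ (MonoidAlgebra ℤ G)) := by
  induction y using MonoidAlgebra.induction_on with
  | of g => exact io_of g ▸ io_mem trivial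
  | add f g hf hg => exact add_mem hf hg
  | smul r f hf => exact Submodule.smul_mem _ _ hf

theorem rat_mono (h : I ≤ J) : rat I ≤ rat J := fun _ ⟨m, hm, x, hx, e⟩ => ⟨m, hm, x, h hx, e⟩

theorem rat_mul : rat I * rat J ≤ rat (I * J) := Submodule.mul_le.2 <| by
  rintro y ⟨m, hm, x, hx, e⟩ y' ⟨m', hm', x', hx', e'⟩
  exact ⟨m * m', mul_ne_zero hm hm', x * x', Submodule.mul_mem_mul hx hx', by
    rw [map_mul, ← e, ← e', smul_mul_smul_comm]⟩

theorem rat_pow {L : Submodule ℚ (MonoidAlgebra ℚ G)} (h : L ≤ rat I) (k : ℕ) :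
    L ^ (k + 1) ≤ rat (I ^ (k + 1)) := by
  induction k with
  | zero => rwa [zero_add, pow_one, pow_one]
  | succ k ih => rw [pow_succ, pow_succ I]; exact (mul_le_mul' ih h).trans rat_mul

theorem of_rat (hI : Pure I) {x : MonoidAlgebra ℤ G} (h : io G x ∈ rat I) : x ∈ I := by
  obtain ⟨m, hm, x', hx, e⟩ := h
  rw [← map_nsmul] at e
  exact hI m x hm (io_inj e ▸ hx)

theorem aug_le (N : Subgroup G) : aug ℚ N ≤ rat (aug ℤ N) := Submodule.span_le.2 <| by
  rintro _ ⟨n, hn, rfl⟩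
  exact io_sub n ▸ io_mem (sub_mem_aug hn)

theorem Lid_le {r : ℕ} (N : Subgroup G) (τ : Fin r → G) (f : Fin r → ℤ[X]) :
    Lid ℚ N τ f ≤ rat (Lid ℤ N τ f) := by
  refine (mul_le_mul' (fun y _ => mem_top y) (sup_le ((aug_le N).trans (rat_mono le_sup_left))
    (Submodule.span_le.2 ?_))).trans rat_mul
  rintro _ ⟨i, rfl⟩
  have := io_mem (I := lgen ℤ N τ f) (Submodule.mem_sup_right (Submodule.subset_span ⟨i, rfl⟩))
  rwa [io_pev] at this

theorem core_le_rat (hI : Pure I) {L : Submodule ℚ (MonoidAlgebra ℚ G)} (h : L ≤ rat I) :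
    core L ≤ rat (core I) := fun y hy => by
  obtain ⟨m, hm, x, -, e⟩ := mem_top y
  refine ⟨m, hm, x, fun z => of_rat hI ?_, e⟩
  rw [map_mul, ← e, smul_mul_assoc]
  exact nsmul_mem (h (hy _)) _

theorem pure_core (hI : Pure I) : Pure (core I) := fun m x hm h z =>
  hI m _ hm (smul_mul_assoc m x z ▸ h z)

end KRat

open KRat

theorem rat_core {b r k : ℕ} {N : Subgroup (Fr b)} {τ : Fin r → Fr b} {f : Fin r → ℤ[X]}
    (hp : Pure (Lid ℤ N τ f)) {g : Fr b} (h : of ℚ _ g - 1 ∈ core (Lid ℚ N τ f) ^ (k + 1)) :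
    of ℤ _ g - 1 ∈ core (Lid ℤ N τ f) ^ (k + 1) :=
  of_rat (pure_pow (two_core (top_mul_top_mul _)) (pure_core hp) k)
    (io_sub g ▸ rat_pow (core_le_rat hp (Lid_le N τ f)) k h)

theorem rat_aug {b k : ℕ} {g : Fr b} (h : of ℚ _ g - 1 ∈ aug ℚ (⊤ : Subgroup (Fr b)) ^ (k + 1)) :
    of ℤ _ g - 1 ∈ aug ℤ (⊤ : Subgroup (Fr b)) ^ (k + 1) :=
  of_rat (pure_pow two_aug pure_aug k) (io_sub g ▸ rat_pow (aug_le ⊤) k h)

theorem exists_w0 (b c : ℕ) : ∃ (n : ℕ) (wt : Fin n → ℕ) (ρ : Fr b →* GL (Fin n) ℚ),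
    Adapt wt (c + 1) ρ ⊤ ∧
      ∀ x, ρ x = 1 → of ℤ _ x - 1 ∈ aug ℤ (⊤ : Subgroup (Fr b)) ^ (c + 1) := by
  let γ : Fin b → GL (Fin 1) ℚ := fun _ => 1
  have h1 : FreeGroup.lift γ = 1 := FreeGroup.ext_hom _ _ fun x => by simp [γ]
  have h2 : aug ℚ (⊤ : Subgroup (Fr b)) ≤ kerI γ := Submodule.span_le.2 <| by
    rintro _ ⟨n, -, rfl⟩
    refine mem_kerI.2 ?_
    rw [map_sub, map_one, algOf_of, h1, MonoidHom.one_apply, Units.val_one, sub_self]
  have h3 : kerI γ ≤ aug ℚ (⊤ : Subgroup (Fr b)) := fun a ha => by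
    have h := mem_kerI.1 (h2 (sub_eps a))
    rw [map_sub, mem_kerI.1 ha, map_smul, map_one, zero_sub, neg_eq_zero, smul_eq_zero] at h
    exact mem_aug_top.2 (h.resolve_right one_ne_zero)
  obtain ⟨M, hM⟩ := exists_model γ c
  refine ⟨M.1, M.2.1, M.rho, hM.adapt (by rw [h1]; exact fun _ _ => rfl), fun x hx =>
    rat_aug (pow_le_pow_left' h3 _ ((hM.2.2.2.1 _).1 ?_))⟩
  rw [map_sub, map_one, algOf_of]
  change ((M.rho x).val - 1) *ᵥ _ = 0
  rw [hx, Units.val_one, sub_self, Matrix.zero_mulVec]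

end Pool.Agent.P.MP_257122_al.K
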