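import Pool.Agent.P.MP_257122_al.KDefs
import Pool.Agent.P.MP_257122_al.NModP

/-!
# Matrices for cyclic modules with a flag

PLAN.  `exists_flagRep`: copy the proof of `exists_model` (`NModP`, uses `nm_flag`) with the flag of the images of
the `I j` in `QF b ⧸ I c`.  `exists_cyc`: the case `c = 1` (`I 0 = ⊤`, `I j = I` for `j > 0`).
`CycC.ker_le`: `span_mod_of_rel`.
-/

namespace Pool.Agent.P.MP_257122_al.K

open Polynomial MonoidAlgebra C
open scoped commutatorElement Matrix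

variable {b : ℕ}

theorem exists_flagRep (c : ℕ) (I : ℕ → Submodule ℚ (QF b)) (hl : ∀ j, ⊤ * I j ≤ I j)
    (ha : Antitone I) (h0 : I 0 = ⊤) (hf : ∃ U : Submodule ℚ (QF b), U.FG ∧ U ⊔ I c = ⊤) :
    ∃ (n : ℕ) (wt : Fin n → ℕ) (g : Fin b → GL (Fin n) ℚ) (u : Fin n → ℚ), (∀ i, wt i < c) ∧
      (∀ x, IsPar wt (g x)) ∧
      (∀ a, (∀ j < c, ∀ y ∈ I j, a * y ∈ I (j + 1)) → algOf g a ∈ fil wt 1) ∧
      (∀ a, algOf g a *ᵥ u = 0 ↔ a ∈ I c) ∧ ∀ v, ∃ a, algOf g a *ᵥ u = v := by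
  have hm : ∀ j x, ∀ y ∈ I j, x * y ∈ I j := fun j x y hy =>
    hl j (Submodule.mul_mem_mul trivial hy)
  let J : Submodule (QF b) (QF b) :=
    { (I c).toAddSubmonoid with smul_mem' := fun x y h => hm c x y h }
  let π : QF b →ₗ[ℚ] QF b ⧸ J := J.mkQ.restrictScalars ℚ
  have hπ : ∀ a, π a = 0 ↔ a ∈ I c := fun a => Submodule.Quotient.mk_eq_zero J
  have hs : Function.Surjective π := J.mkQ_surjective
  have hc : (I c).map π = ⊥ := by
    rw [eq_bot_iff]
    rintro _ ⟨a, ha, rfl⟩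
    exact (hπ a).2 ha
  have : Module.Finite ℚ (QF b ⧸ J) := by
    obtain ⟨U, h1, h2⟩ := hf
    refine ⟨?_⟩
    rw [← LinearMap.range_eq_top.2 hs, ← Submodule.map_top, ← h2, Submodule.map_sup, hc, sup_bot_eq]
    exact h1.map π
  obtain ⟨s, wt, h1, h2, h3⟩ := nm_flag c (fun j => (I j).map π)
    (fun _ _ h => Submodule.map_mono (ha h)) hc
  have h4 : ⊤ ≤ Submodule.span ℚ (Set.range (Subtype.val : s → _)) := by
    simpa [LinearMap.range_eq_top.2 hs, h0] using (h3 0).ge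
  have := LinearIndependent.finite h1
  have := Fintype.ofFinite s
  let v := (Module.Basis.mk h1 h4).reindex (Fintype.equivFin s)
  have hv : ∀ i, v i = ((Fintype.equivFin s).symm i).1 := fun i => by simp [v]
  have hw : ∀ i, wt (v i) < c := fun i => h2 _ (hv i ▸ Subtype.prop _)
  have h5 : ∀ j, v '' {i | j ≤ wt (v i)} = {x ∈ s | j ≤ wt x} := fun j => by
    ext x
    refine ⟨?_, fun h => ⟨Fintype.equivFin s ⟨x, h.1⟩, by simpa [hv] using h.2, by simp [hv]⟩⟩
    rintro ⟨i, hi, rfl⟩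
    exact ⟨hv i ▸ Subtype.prop _, hi⟩
  let ρ : QF b →ₐ[ℚ] Matrix _ _ ℚ :=
    (LinearMap.toMatrixAlgEquiv v).toAlgHom.comp (Algebra.lsmul ℚ ℚ (QF b ⧸ J))
  have hρ : ∀ a x, ρ a *ᵥ v.repr (π x) = v.repr (π (a * x)) := fun a x =>
    LinearMap.toMatrix_mulVec_repr v v _ _
  let u := (ρ.toMonoidHom.comp (MonoidAlgebra.of ℚ (Fr b))).toHomUnits
  have hu : algOf (fun x => u (FreeGroup.of x)) = ρ := nm_ext fun w => by
    have : FreeGroup.lift (fun x => u (FreeGroup.of x)) = u := FreeGroup.ext_hom _ _ (by simp)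
    exact (algOf_of _ w).trans (by rw [this]; rfl)
  have hg : ∀ a k, (∀ j < c, ∀ x ∈ I j, a * x ∈ I (j + k)) →
      ρ a ∈ fil (fun i => wt (v i)) k := fun a k h r t hr => by
    obtain ⟨x, hx, e⟩ := (h3 (wt (v t))).le
      (Submodule.subset_span ((h5 _).le ⟨t, le_refl (wt (v t)), rfl⟩))
    have h6 := (h3 _).ge (Submodule.mem_map_of_mem (f := π) (h _ (hw t) x hx))
    rw [← h5, Module.Basis.mem_span_image] at h6
    have h7 := congrFun (hρ a x) r
    rw [e, v.repr_self, Finsupp.single_eq_pi_single, Matrix.mulVec_single_one] at h7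
    exact h7.trans (by_contra fun h8 => absurd (h6 (Finsupp.mem_support_iff.2 h8)) (not_le.2 hr))
  have hg0 : ∀ a, ρ a ∈ fil (fun i => wt (v i)) 0 := fun a => hg a 0 fun j _ x hx => hm j a x hx
  refine ⟨_, fun i => wt (v i), fun x => u (FreeGroup.of x), v.repr (π 1), hw,
    fun x => ⟨hg0 _, hg0 _⟩, fun x hx => ?_, fun x => ?_, fun w => ?_⟩
  · rw [hu]
    exact hg x 1 hx
  · rw [hu, hρ, mul_one, ← hπ, Finsupp.coe_eq_zero, map_eq_zero_iff _ v.repr.injective]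
  · obtain ⟨a, ha⟩ := hs (v.equivFun.symm w)
    refine ⟨a, ?_⟩
    rw [hu, hρ, mul_one, ha, ← Module.Basis.equivFun_apply, LinearEquiv.apply_symm_apply]

theorem exists_cyc (I : Submodule ℚ (QF b)) (hl : ⊤ * I ≤ I)
    (hf : ∃ U : Submodule ℚ (QF b), U.FG ∧ U ⊔ I = ⊤) :
    ∃ (n : ℕ) (g : Fin b → GL (Fin n) ℚ), CycC I g ∧ core I ≤ kerI g := by
  obtain ⟨n, -, g, u, -, -, -, h1, h2⟩ := exists_flagRep 1 (fun j => if j = 0 then ⊤ else I)
    (fun j => by split_ifs; exacts [le_top, hl])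
    (antitone_nat_of_succ_le fun j => by
      rw [if_neg j.succ_ne_zero]
      split_ifs
      exacts [le_top, le_rfl]) (if_pos rfl) (by simpa using hf)
  simp only [one_ne_zero, if_false] at h1
  choose h hh using fun i => h2 (Pi.single i 1)
  have key : ∀ a, a - ∑ j, (algOf g a *ᵥ u) j • h j ∈ I := fun a => (h1 _).1 (by
    simp only [map_sub, map_sum, map_smul, Matrix.sub_mulVec, Matrix.sum_mulVec,
      Matrix.smul_mulVec, hh]
    exact sub_eq_zero.2 (pi_eq_sum_univ' _))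
  have key2 : ∀ (w : Fr b) i, of ℚ (Fr b) w * h i -
      ∑ j, (FreeGroup.lift g w).val j i • h j ∈ I := fun w i => by
    have := key (of ℚ (Fr b) w * h i)
    rwa [map_mul, ← Matrix.mulVec_mulVec, hh, Matrix.mulVec_single_one, algOf_of] at this
  refine ⟨n, g, ⟨u, h, by simpa using key 1, fun x i => ⟨?_, ?_⟩⟩, fun a ha => ?_⟩
  · simpa only [FreeGroup.lift_apply_of] using key2 (FreeGroup.of x) i
  · have := key2 (FreeGroup.of x)⁻¹ i
    rwa [(FreeGroup.lift g).map_inv, FreeGroup.lift_apply_of] at this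
  · refine mem_kerI.2 (Matrix.ext_of_mulVec_single fun i => ?_)
    rw [← hh, Matrix.zero_mulVec, Matrix.mulVec_mulVec, ← map_mul, h1]
    exact ha _

theorem CycC.ker_le {n : ℕ} {I : Submodule ℚ (QF b)} {g : Fin b → GL (Fin n) ℚ} (h : CycC I g)
    (hl : ⊤ * I ≤ I) : kerI g ≤ core I := by
  obtain ⟨u, h, h1, h2⟩ := h
  intro a ha y
  have := span_mod_of_rel (fun x a ha => hl (Submodule.mul_mem_mul trivial ha)) g u h h1
    (fun x i => (h2 x i).1) (fun x i => (h2 x i).2) (a * y)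
  simpa [mem_kerI.1 ha] using this

end Pool.Agent.P.MP_257122_al.K
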