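import Pool.Agent.P.MP_257122_al.KStep
import Pool.Agent.P.MP_257122_al.KLid
import Pool.Agent.P.MP_257122_al.KRat
import Pool.Agent.P.MP_257122_al.KReg

/-!
# Covers given by group rings
-/

namespace Pool.Agent.P.MP_257122_al.K

open Polynomial MonoidAlgebra C
open scoped commutatorElement Matrix

variable {b m k : ℕ} {T N S : Subgroup (Fr b)} [N.Normal] {γ : Fin b → GL (Fin m) ℚ}

theorem CovG.sound (h : CovG T N S k γ) {M : Model b} (hM : M.ok (kerI γ) k)
    {S' : Subgroup (Fr b)} [S'.Normal] (hS : S ≤ S') {g : Fr b} (hg : M.rho g = 1) :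
    g ∈ N ∧ of ℤ _ (QuotientGroup.mk' S' g) - 1 ∈
      aug ℤ (N.map (QuotientGroup.mk' S')) ^ (k + 1) := by
  obtain ⟨r, τ, l, f, h1, h2, h3, h4, -⟩ := h
  have h5 : of ℚ _ g - 1 ∈ kerI γ ^ (k + 1) := by
    refine (hM.2.2.2.1 _).1 ?_
    rw [map_sub, map_one, algOf_of, show FreeGroup.lift M.2.2.1 g = 1 from hg, Units.val_one,
      sub_self, Matrix.zero_mulVec]
  have h6 : of ℚ _ g - 1 ∈ core (Lid ℚ N τ f) ^ (k + 1) :=
    pow_le_pow_left' (h4.ker_le (top_mul_top_mul _)) _ h5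
  have h7 : core (Lid ℚ N τ f) ^ (k + 1) ≤ core (Lid ℚ N τ f) := by
    rw [pow_succ]
    exact (mul_le_mul_left le_top _).trans (two_core (top_mul_top_mul _)).1
  have hN : g ∈ N := lid_mem h1 (fun i => (h3 i).2.2) (core_le _ (h7 h6))
  refine ⟨hN, ?_⟩
  have h8 := step_quot (S := S' ⊓ N) inf_le_right h1 (fun i => ((h2 i).mono hS).inf)
    (fun i => (h3 i).2.1) (Submodule.mem_sup_left (rat_core (lid_pure h1 fun i => (h3 i).1) h6))
    (aug_le_zs (sub_mem_aug hN))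
  have h9 := gmap_aug_pow (QuotientGroup.map (S' ⊓ N) S' (MonoidHom.id _) inf_le_left) _ h8
  rw [map_sub, map_one, gmap_of, map_sub, map_one, gmap_of, Subgroup.map_map] at h9
  exact h9

theorem exists_covG [S.Normal] (hT : Top T N) (hi : ∀ g ∈ T, ∀ j, 0 < j → g ^ j ∈ N → g ∈ N)
    (hG : FinRank (Fr b ⧸ S)) (k : ℕ) :
    ∃ (m : ℕ) (γ : Fin b → GL (Fin m) ℚ), CovG T N S k γ := by
  have := hT.2.1
  have : Group.FG (Fr b) := (mgen_gensL b).fg
  obtain ⟨r, τ, hM⟩ := exists_isMark hT.2.2.1 hT.2.2.2 hi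
  choose l hl hl' using fun i => exists_kill hT hG (hM.2.2.1 i)
  choose f hf using fun i => exists_good (hl i) k
  have h0 : ∀ i, f i ≠ 0 := fun i e => by
    obtain ⟨u, n, h⟩ := (hf i).1
    simp [e] at h
  obtain ⟨n, γ, h1, h2⟩ := exists_cyc (Lid ℚ N τ f) (top_mul_top_mul _) (lid_fin hM h0)
  refine ⟨n, γ, r, τ, l, f, hM, hl', hf, h1, fun y hy => ?_⟩
  have h3 : of ℚ _ y - 1 ∈ core (Lid ℚ N τ f) := fun z => by
    induction z using MonoidAlgebra.induction_on with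
    | of g =>
      have e : (of ℚ _ y - 1) * of ℚ _ g = of ℚ _ g * (of ℚ _ (g⁻¹ * y * g⁻¹⁻¹) - 1) := by
        rw [mul_sub, sub_mul, ← map_mul, ← map_mul, one_mul, mul_one, inv_inv, ← mul_assoc,
          ← mul_assoc, mul_inv_cancel, one_mul]
      rw [e]
      exact Submodule.mul_mem_mul trivial
        (Submodule.mem_sup_left (sub_mem_aug (‹N.Normal›.conj_mem y hy g⁻¹)))
    | add u v hu hv => rw [mul_add]; exact add_mem hu hv
    | smul c u hu => rw [mul_smul_comm]; exact Submodule.smul_mem _ _ hu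
  have h4 := mem_kerI.1 (h2 h3)
  rw [map_sub, map_one, algOf_of, sub_eq_zero] at h4
  exact Units.ext h4

end Pool.Agent.P.MP_257122_al.K
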