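import Pool.Agent.P.MP_257122_al.SDefs

/-!
# Lower central factors

`lcs_mtyp`: the lower central factors of the derived subgroup of a finitely generated normal
subgroup of a group of finite rank are finitely generated after inverting one integer.
`hall_nil`: the nilpotency criterion of P. Hall.
-/

namespace Pool.Agent.P.MP_257122_al

open scoped commutatorElement

variable {G : Type} [Group G]

namespace STenAux

theorem mem_q {K R : Subgroup G} [K.Normal] (hR : K ≤ R) {x : G} :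
    QuotientGroup.mk' K x ∈ R.map (QuotientGroup.mk' K) ↔ x ∈ R := by
  rw [← Subgroup.mem_comap, Subgroup.comap_map_eq, QuotientGroup.ker_mk', sup_eq_left.2 hR]

theorem commute_q {K : Subgroup G} [K.Normal] {x y : G} (h : ⁅x, y⁆ ∈ K) :
    Commute (QuotientGroup.mk' K x) (QuotientGroup.mk' K y) := by
  rw [← commutatorElement_eq_one_iff_commute, ← map_commutatorElement, ← MonoidHom.mem_ker,
    QuotientGroup.ker_mk']
  exact h

/-- The three subgroups lemma modulo a normal subgroup. -/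
theorem three {A B C M : Subgroup G} [M.Normal] (h1 : ⁅⁅B, C⁆, A⁆ ≤ M) (h2 : ⁅⁅C, A⁆, B⁆ ≤ M) :
    ⁅⁅A, B⁆, C⁆ ≤ M := by
  have key : ∀ X Y Z : Subgroup G, ⁅⁅X, Y⁆, Z⁆ ≤ M ↔
      ⁅⁅X.map (QuotientGroup.mk' M), Y.map (QuotientGroup.mk' M)⁆,
        Z.map (QuotientGroup.mk' M)⁆ = ⊥ := fun X Y Z => by
    rw [← Subgroup.map_commutator, ← Subgroup.map_commutator, Subgroup.map_eq_bot_iff,
      QuotientGroup.ker_mk']
  exact (key _ _ _).2
    (Subgroup.commutator_commutator_eq_bot_of_rotate ((key _ _ _).1 h1) ((key _ _ _).1 h2))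

theorem comm_der {U D : Subgroup G} [U.Normal] [D.Normal] : ⁅U, ⁅D, D⁆⁆ ≤ ⁅⁅U, D⁆, D⁆ := by
  rw [Subgroup.commutator_comm U ⁅D, D⁆]
  refine three ?_ le_rfl
  rw [Subgroup.commutator_comm D U]

/-- The elements that centralise `N` modulo `M`. -/
def cen (N M : Subgroup G) [M.Normal] : Subgroup G where
  carrier := {g | ∀ n ∈ N, ⁅g, n⁆ ∈ M}
  one_mem' := fun n _ => by rw [commutatorElement_one_left]; exact M.one_mem
  mul_mem' := fun {x y} hx hy n hn => by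
    have e : ⁅x * y, n⁆ = x * ⁅y, n⁆ * x⁻¹ * ⁅x, n⁆ := by
      simp only [commutatorElement_def]; group
    rw [e]
    exact M.mul_mem (Subgroup.Normal.conj_mem inferInstance _ (hy n hn) x) (hx n hn)
  inv_mem' := fun {x} hx n hn => by
    have e : ⁅x⁻¹, n⁆ = x⁻¹ * ⁅x, n⁆⁻¹ * x⁻¹⁻¹ := by
      simp only [commutatorElement_def]; group
    rw [e]
    exact Subgroup.Normal.conj_mem inferInstance _ (M.inv_mem (hx n hn)) _

theorem cen_normal (N M : Subgroup G) [N.Normal] [M.Normal] : (cen N M).Normal :=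
  ⟨fun g hg x n hn => by
    have e : ⁅x * g * x⁻¹, n⁆ = x * ⁅g, x⁻¹ * n * x⁻¹⁻¹⁆ * x⁻¹ := by
      simp only [commutatorElement_def]; group
    rw [e]
    exact Subgroup.Normal.conj_mem inferInstance _
      (hg _ (Subgroup.Normal.conj_mem inferInstance _ hn _)) x⟩

theorem le_cen {H N M : Subgroup G} [M.Normal] : H ≤ cen N M ↔ ⁅H, N⁆ ≤ M :=
  ⟨fun h => Subgroup.commutator_le.2 fun _ hx y hy => h hx y hy,
    fun h _ hx _ hy => h (Subgroup.commutator_mem_commutator hx hy)⟩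

theorem it_succ (N H : Subgroup G) (k : ℕ) :
    (fun H => ⁅H, N⁆)^[k + 1] H = ⁅(fun H => ⁅H, N⁆)^[k] H, N⁆ :=
  Function.iterate_succ_apply' _ _ _

theorem it_mono (N : Subgroup G) (k : ℕ) : Monotone (fun H : Subgroup G => ⁅H, N⁆)^[k] :=
  Monotone.iterate (f := fun H : Subgroup G => ⁅H, N⁆)
    (fun _ _ h => Subgroup.commutator_mono h le_rfl) k

theorem it_normal (N H : Subgroup G) [N.Normal] [H.Normal] (k : ℕ) :
    ((fun H => ⁅H, N⁆)^[k] H).Normal := by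
  induction k with
  | zero => assumption
  | succ k ih => rw [it_succ]; infer_instance

theorem it_anti (N H : Subgroup G) [N.Normal] [H.Normal] :
    Antitone fun k => (fun H => ⁅H, N⁆)^[k] H :=
  antitone_nat_of_succ_le fun k => by
    have := it_normal N H k
    show (fun H => ⁅H, N⁆)^[k + 1] H ≤ _
    rw [it_succ]
    exact Subgroup.commutator_le_left _ _

theorem it_comm (N U D : Subgroup G) (s : ℕ) : ∀ (M : Subgroup G) [M.Normal] [N.Normal],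
    (∀ a b, a + b = s → ⁅(fun H => ⁅H, N⁆)^[a] U, (fun H => ⁅H, N⁆)^[b] D⁆ ≤ M) →
      (fun H => ⁅H, N⁆)^[s] ⁅U, D⁆ ≤ M := by
  induction s with
  | zero => exact fun M _ _ h => h 0 0 rfl
  | succ s ih =>
    intro M _ _ h
    have := cen_normal N M
    rw [it_succ, ← le_cen]
    refine ih _ fun a b hab => le_cen.2 (three ?_ ?_)
    · rw [Subgroup.commutator_comm, ← it_succ]
      exact h a (b + 1) (by omega)
    · rw [Subgroup.commutator_comm N, ← it_succ]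
      exact h (a + 1) b (by omega)

theorem hall_step {N U D : Subgroup G} [N.Normal] [U.Normal] [D.Normal] {k l : ℕ}
    (hk : (fun H => ⁅H, N⁆)^[k] U ≤ ⁅U, D⁆) (hl : (fun H => ⁅H, N⁆)^[l] D ≤ ⁅D, D⁆) :
    (fun H => ⁅H, N⁆)^[k + l] ⁅U, D⁆ ≤ ⁅⁅U, D⁆, D⁆ := by
  refine it_comm N U D _ _ fun a b hab => ?_
  have hU : (fun H => ⁅H, N⁆)^[a] U ≤ U := it_anti N U (Nat.zero_le a)
  rcases le_total k a with h | h
  · exact Subgroup.commutator_mono ((it_anti N U h).trans hk) (it_anti N D (Nat.zero_le b))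
  · exact (Subgroup.commutator_mono hU
      ((it_anti N D (show l ≤ b by omega)).trans hl)).trans comm_der

/-! Roots -/

theorem mul_pow_mem {W L : Subgroup G} [W.Normal] (hL : ⁅W, W⁆ ≤ L) {x y : G} (hx : x ∈ W)
    (hy : y ∈ W) {n : ℕ} (h1 : x ^ n ∈ L) (h2 : y ^ n ∈ L) : (x * y) ^ n ∈ L := by
  rw [← mem_q hL, map_pow, map_mul,
    (commute_q (Subgroup.commutator_mem_commutator hx hy)).mul_pow, ← map_pow, ← map_pow,
    ← map_mul, mem_q hL]
  exact L.mul_mem h1 h2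

/-- The elements of `W` with an `m ^ j`-th power in `L`. -/
def rt (m : ℕ) {W L : Subgroup G} [W.Normal] (hL : ⁅W, W⁆ ≤ L) : Subgroup G where
  carrier := {x | x ∈ W ∧ ∃ j, x ^ m ^ j ∈ L}
  one_mem' := ⟨W.one_mem, 0, by simp⟩
  mul_mem' := fun {x y} ⟨hx, i, hi⟩ ⟨hy, j, hj⟩ => ⟨W.mul_mem hx hy, i + j, by
    refine mul_pow_mem hL hx hy ?_ ?_
    · rw [pow_add, pow_mul]; exact L.pow_mem hi _
    · rw [pow_add, mul_comm, pow_mul]; exact L.pow_mem hj _⟩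
  inv_mem' := fun {x} ⟨hx, i, hi⟩ => ⟨W.inv_mem hx, i, by rw [inv_pow]; exact L.inv_mem hi⟩

theorem rt_root {m : ℕ} {W L : Subgroup G} [W.Normal] {hL : ⁅W, W⁆ ≤ L} {x : G} (hx : x ∈ W)
    {j : ℕ} (h : x ^ m ^ j ∈ rt m hL) : x ∈ rt m hL := by
  obtain ⟨_, i, hi⟩ := h
  exact ⟨hx, j + i, by rwa [pow_add, pow_mul]⟩

theorem mem_rt {m : ℕ} {W L : Subgroup G} [W.Normal] {hL : ⁅W, W⁆ ≤ L} {x : G} (hx : x ∈ W)
    (h : x ∈ L) : x ∈ rt m hL := ⟨hx, 0, by simpa using h⟩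

theorem exists_full (hG : FinRank G) (D : Subgroup G) [D.Normal] :
    ∃ u : Finset G, (∀ x ∈ u, x ∈ D) ∧
      ∀ x ∈ D, ∃ n, 0 < n ∧ x ^ n ∈ Subgroup.closure (u : Set G) ⊔ ⁅D, D⁆ := by
  obtain ⟨V, _, _, act, δ, h, h0, -⟩ := exists_sec D
  obtain ⟨t, ht, hs⟩ := (Submodule.fg_span_iff_fg_span_finset_subset _).1
    (Module.Finite.iff_fg.1 (h.finite hG))
  classical
  obtain ⟨u, hu, rfl⟩ := Finset.subset_set_image_iff.1 ht
  have hD : Subgroup.closure (u : Set G) ≤ D := (Subgroup.closure_le D).2 hu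
  refine ⟨u, fun x hx => hu hx, fun x hx => ?_⟩
  have hx' : δ x ∈ Submodule.span ℚ ((u.image δ : Finset V) : Set V) :=
    hs ▸ Submodule.subset_span ⟨x, hx, rfl⟩
  have key : ∃ n : ℕ, 0 < n ∧ ∃ y ∈ Subgroup.closure (u : Set G), δ y = n • δ x := by
    refine Submodule.span_induction
      (p := fun v _ => ∃ n : ℕ, 0 < n ∧ ∃ y ∈ Subgroup.closure (u : Set G), δ y = n • v)
      ?_ ⟨1, one_pos, 1, one_mem _, by rw [h.one, smul_zero]⟩ ?_ ?_ hx'
    · intro v hv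
      obtain ⟨y, hy, rfl⟩ := Finset.mem_image.1 (Finset.mem_coe.1 hv)
      exact ⟨1, one_pos, y, Subgroup.subset_closure hy, (one_smul _ _).symm⟩
    · rintro v w _ _ ⟨n, hn, y, hy, e⟩ ⟨n', hn', y', hy', e'⟩
      refine ⟨n * n', mul_pos hn hn', y ^ n' * y' ^ n, mul_mem (pow_mem hy _) (pow_mem hy' _), ?_⟩
      rw [h.1 _ (pow_mem (hD hy) _) _ (pow_mem (hD hy') _), h.pow (hD hy), h.pow (hD hy'), e, e',
        smul_add, smul_smul, smul_smul, mul_comm n' n]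
    · rintro a v _ ⟨n, hn, y, hy, e⟩
      refine ⟨n * a.den, mul_pos hn a.den_pos, y ^ a.num, zpow_mem hy _, ?_⟩
      rw [h.zpow (hD hy), e, ← Nat.cast_smul_eq_nsmul ℚ, ← Nat.cast_smul_eq_nsmul ℚ,
        ← Int.cast_smul_eq_zsmul ℚ, smul_smul, smul_smul, ← Rat.mul_den_eq_num]
      congr 1
      push_cast
      ring
  obtain ⟨n, hn, y, hy, e⟩ := key
  have hz : x ^ n * y⁻¹ ∈ D := mul_mem (pow_mem hx _) (inv_mem (hD hy))
  obtain ⟨k, hk, hk'⟩ := (h0 _ hz).1 (by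
    rw [h.1 _ (pow_mem hx _) _ (inv_mem (hD hy)), h.pow hx, h.inv (hD hy), e, add_neg_cancel])
  refine ⟨n * k, mul_pos hn hk, ?_⟩
  have := mul_pow_mem (L := Subgroup.closure (u : Set G) ⊔ ⁅D, D⁆) le_sup_right hz (hD hy)
    (Subgroup.mem_sup_right hk') (Subgroup.mem_sup_left (pow_mem hy k))
  rwa [inv_mul_cancel_right, ← pow_mul] at this

theorem exists_exp {L : Subgroup G} (F : Finset G) (h : ∀ x ∈ F, ∃ n, 0 < n ∧ x ^ n ∈ L) :
    ∃ m, 0 < m ∧ ∀ x ∈ F, x ^ m ∈ L := by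
  classical
  choose! n hn using h
  refine ⟨∏ x ∈ F, n x, Finset.prod_pos fun x hx => (hn x hx).1, fun x hx => ?_⟩
  obtain ⟨c, hc⟩ := Finset.dvd_prod_of_mem n hx
  rw [hc, pow_mul]
  exact L.pow_mem (hn x hx).2 _

theorem base (hG : FinRank G) (T : Subgroup G) [T.Normal] (hT : T.FG) :
    ∃ m, 0 < m ∧ ∃ s : Finset G, (∀ x ∈ s, x ∈ ⁅T, T⁆) ∧
      ∀ x ∈ ⁅T, T⁆, ∃ j, x ^ m ^ j ∈ Subgroup.closure (s : Set G) ⊔ ⁅⁅T, T⁆, ⁅T, T⁆⁆ := by
  classical
  obtain ⟨E, hE⟩ := hT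
  obtain ⟨u, hu, hu'⟩ := exists_full hG ⁅T, T⁆
  have hET : ∀ a ∈ E, a ∈ T := fun a ha => hE ▸ Subgroup.subset_closure ha
  obtain ⟨s, hs, hus, hEs⟩ : ∃ s : Finset G, (∀ x ∈ s, x ∈ ⁅T, T⁆) ∧ u ⊆ s ∧
      ∀ a ∈ E, ∀ a' ∈ E, ⁅a, a'⁆ ∈ s := by
    refine ⟨u ∪ Finset.image₂ (fun a b => ⁅a, b⁆) E E, fun x hx => ?_, Finset.subset_union_left,
      fun a ha a' ha' => Finset.mem_union_right _ (Finset.mem_image₂_of_mem ha ha')⟩
    rcases Finset.mem_union.1 hx with h | h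
    · exact hu x h
    · obtain ⟨a, ha, b, hb, rfl⟩ := Finset.mem_image₂.1 h
      exact Subgroup.commutator_mem_commutator (hET a ha) (hET b hb)
  obtain ⟨m, hm, hm'⟩ := exists_exp (L := Subgroup.closure (s : Set G) ⊔ ⁅⁅T, T⁆, ⁅T, T⁆⁆)
    (Finset.image₂ (fun t y => t * y * t⁻¹) (E ∪ E.image fun t => t⁻¹) s) (fun x hx => by
      obtain ⟨t, _, y, hy, rfl⟩ := Finset.mem_image₂.1 hx
      obtain ⟨n, hn, h⟩ := hu' _ (Subgroup.Normal.conj_mem inferInstance _ (hs y hy) t)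
      exact ⟨n, hn, sup_le_sup_right (Subgroup.closure_mono (Finset.coe_subset.2 hus)) _ h⟩)
  have hL : ⁅⁅T, T⁆, ⁅T, T⁆⁆ ≤ Subgroup.closure (s : Set G) ⊔ ⁅⁅T, T⁆, ⁅T, T⁆⁆ := le_sup_right
  refine ⟨m, hm, s, hs, fun x hx => ?_⟩
  have gen : ∀ t ∈ E ∪ E.image fun t => t⁻¹, ∀ k ∈ rt m hL, t * k * t⁻¹ ∈ rt m hL := by
    rintro t ht k ⟨hk, j, hj⟩
    have h1 : Subgroup.closure (s : Set G) ⊔ ⁅⁅T, T⁆, ⁅T, T⁆⁆ ≤
        (rt m hL).comap (MulAut.conj t).toMonoidHom := by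
      refine sup_le ((Subgroup.closure_le _).2 fun y hy => ?_) fun y hy => ?_
      · exact ⟨Subgroup.Normal.conj_mem inferInstance _ (hs y hy) t, 1, by
          rw [pow_one]; exact hm' _ (Finset.mem_image₂_of_mem ht hy)⟩
      · have := Subgroup.Normal.conj_mem inferInstance _ hy t
        exact mem_rt (hL := hL) (Subgroup.commutator_le_left _ _ this) (hL this)
    refine rt_root (Subgroup.Normal.conj_mem inferInstance _ hk t) (j := j) ?_
    rw [conj_pow]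
    exact h1 hj
  refine (comm_le_of_gens (K := rt m hL) hE (fun t ht => ?_) (fun a ha a' ha' => ?_) hx).2
  · rw [← hE] at ht
    induction ht using Subgroup.closure_induction'' with
    | mem t ht => exact gen t (Finset.mem_union_left _ ht)
    | inv_mem t ht => exact gen _ (Finset.mem_union_right _ (Finset.mem_image_of_mem _ ht))
    | one => intro k hk; simpa using hk
    | mul a b _ _ ia ib =>
      intro k hk
      have e : a * b * k * (a * b)⁻¹ = a * (b * k * b⁻¹) * a⁻¹ := by group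
      rw [e]
      exact ia _ (ib k hk)
  · exact mem_rt (hs _ (hEs a ha a' ha'))
      (Subgroup.mem_sup_left (Subgroup.subset_closure (hEs a ha a' ha')))

section bil
variable {U D : Subgroup G} [U.Normal] [D.Normal]

theorem conj_q {z d : G} (hz : z ∈ ⁅U, D⁆) (hd : d ∈ D) :
    QuotientGroup.mk' ⁅⁅U, D⁆, D⁆ (d * z * d⁻¹) = QuotientGroup.mk' ⁅⁅U, D⁆, D⁆ z := by
  rw [map_mul, map_mul, map_inv, ← (commute_q (Subgroup.commutator_mem_commutator hz hd)).eq,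
    mul_inv_cancel_right]

/-- The commutator as a homomorphism in the left argument. -/
def cL (hU : U ≤ D) {y : G} (hy : y ∈ D) : U →* G ⧸ ⁅⁅U, D⁆, D⁆ :=
  MonoidHom.mk' (fun x => QuotientGroup.mk' ⁅⁅U, D⁆, D⁆ ⁅(x : G), y⁆) fun a b => by
    have e : ⁅((a * b : U) : G), y⁆ = a * ⁅(b : G), y⁆ * (a : G)⁻¹ * ⁅(a : G), y⁆ := by
      simp only [commutatorElement_def, Subgroup.coe_mul]; group
    have hb := Subgroup.commutator_mem_commutator b.2 hy
    rw [e, map_mul, conj_q hb (hU a.2)]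
    exact (commute_q (Subgroup.commutator_mem_commutator hb (Subgroup.commutator_le_right _ _
      (Subgroup.commutator_mem_commutator a.2 hy)))).eq

/-- The commutator as a homomorphism in the right argument. -/
def cR {x : G} (hx : x ∈ U) : D →* G ⧸ ⁅⁅U, D⁆, D⁆ :=
  MonoidHom.mk' (fun y => QuotientGroup.mk' ⁅⁅U, D⁆, D⁆ ⁅x, (y : G)⁆) fun a b => by
    have e : ⁅x, ((a * b : D) : G)⁆ = ⁅x, (a : G)⁆ * (a * ⁅x, (b : G)⁆ * (a : G)⁻¹) := by
      simp only [commutatorElement_def, Subgroup.coe_mul]; group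
    rw [e, map_mul, conj_q (Subgroup.commutator_mem_commutator hx b.2) a.2]

/-- Transfer of roots along a homomorphism given by a function. -/
theorem transfer {K R A B : Subgroup G} [K.Normal] (hR : K ≤ R) (f : A →* G ⧸ K) (φ : G → G)
    (hf : ∀ x : A, f x = QuotientGroup.mk' K (φ x)) {s : Set G} (hs : ∀ x ∈ s, x ∈ A ∧ φ x ∈ R)
    (hB : ∀ x ∈ B, x ∈ A ∧ φ x ∈ R) {x : G} (hx : x ∈ A) {n : ℕ}
    (h : x ^ n ∈ Subgroup.closure s ⊔ B) : φ x ^ n ∈ R := by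
  have key : ∀ z, z ∈ A ∧ φ z ∈ R →
      z ∈ ((R.map (QuotientGroup.mk' K)).comap f).map A.subtype := fun z hz =>
    ⟨⟨z, hz.1⟩, by
      show f ⟨z, hz.1⟩ ∈ R.map (QuotientGroup.mk' K)
      rw [hf]
      exact (mem_q hR).2 hz.2, rfl⟩
  obtain ⟨z, hz, e⟩ := (sup_le ((Subgroup.closure_le _).2 fun z hz => key z (hs z hz))
    fun z hz => key z (hB z hz)) h
  have e' : z = ⟨x, hx⟩ ^ n := Subtype.ext e
  have hz' : f z ∈ R.map (QuotientGroup.mk' K) := hz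
  rwa [e', map_pow, hf, ← map_pow, mem_q hR] at hz'

theorem step (hU : U ≤ D) {m : ℕ} {s t : Finset G} (hs : ∀ x ∈ s, x ∈ U) (ht : ∀ x ∈ t, x ∈ D)
    (hs' : ∀ x ∈ U, ∃ j, x ^ m ^ j ∈ Subgroup.closure (s : Set G) ⊔ ⁅U, D⁆)
    (ht' : ∀ x ∈ D, ∃ j, x ^ m ^ j ∈ Subgroup.closure (t : Set G) ⊔ ⁅D, D⁆) :
    ∃ r : Finset G, (∀ x ∈ r, x ∈ ⁅U, D⁆) ∧
      ∀ x ∈ ⁅U, D⁆, ∃ j, x ^ m ^ j ∈ Subgroup.closure (r : Set G) ⊔ ⁅⁅U, D⁆, D⁆ := by
  classical
  refine ⟨Finset.image₂ (fun a b => ⁅a, b⁆) s t, fun x hx => ?_, fun x hx => ?_⟩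
  · obtain ⟨a, ha, b, hb, rfl⟩ := Finset.mem_image₂.1 hx
    exact Subgroup.commutator_mem_commutator (hs a ha) (ht b hb)
  have hL : ⁅⁅U, D⁆, ⁅U, D⁆⁆ ≤ Subgroup.closure
      ((Finset.image₂ (fun a b => ⁅a, b⁆) s t : Finset G) : Set G) ⊔ ⁅⁅U, D⁆, D⁆ :=
    le_sup_of_le_right (Subgroup.commutator_mono le_rfl (Subgroup.commutator_le_right _ _))
  have hK : ⁅⁅U, D⁆, D⁆ ≤ rt m hL := fun z hz =>
    mem_rt (Subgroup.commutator_le_left _ _ hz) (Subgroup.mem_sup_right hz)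
  have h1 : ∀ a ∈ s, ∀ y ∈ D, ⁅a, y⁆ ∈ rt m hL := fun a ha y hy => by
    obtain ⟨j, hj⟩ := ht' y hy
    refine rt_root (Subgroup.commutator_mem_commutator (hs a ha) hy) (j := j)
      (transfer hK (cR (hs a ha)) (fun y => ⁅a, y⁆) (fun _ => rfl) (fun b hb => ⟨ht b hb, ?_⟩)
        (fun z hz => ⟨Subgroup.commutator_le_left _ _ hz, ?_⟩) hy hj)
    · exact mem_rt (Subgroup.commutator_mem_commutator (hs a ha) (ht b hb))
        (Subgroup.mem_sup_left (Subgroup.subset_closure (Finset.mem_image₂_of_mem ha hb)))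
    · exact hK (comm_der (Subgroup.commutator_mem_commutator (hs a ha) hz))
  refine (Subgroup.commutator_le (H₃ := rt m hL).2 (fun a ha y hy => ?_) hx).2
  obtain ⟨j, hj⟩ := hs' a ha
  exact rt_root (Subgroup.commutator_mem_commutator ha hy) (j := j)
    (transfer hK (cL hU hy) (fun a => ⁅a, y⁆) (fun _ => rfl) (fun b hb => ⟨hs b hb, h1 b hb y hy⟩)
      (fun z hz => ⟨Subgroup.commutator_le_left _ _ hz,
        hK (Subgroup.commutator_mem_commutator hz hy)⟩) ha hj)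

end bil

end STenAux

theorem lcs_mtyp (hG : FinRank G) (T : Subgroup G) [T.Normal] (hT : T.FG) :
    ∃ m, 0 < m ∧ ∀ i, ∃ s : Finset G, (∀ x ∈ s, x ∈ (⁅T, T⁆).lowerCentralSeries i) ∧
      ∀ x ∈ (⁅T, T⁆).lowerCentralSeries i, ∃ j,
        x ^ m ^ j ∈ Subgroup.closure (s : Set G) ⊔ (⁅T, T⁆).lowerCentralSeries (i + 1) := by
  obtain ⟨m, hm, t, ht, ht'⟩ := STenAux.base hG T hT
  refine ⟨m, hm, fun i => ?_⟩
  induction i with
  | zero => exact ⟨t, ht, ht'⟩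
  | succ i ih =>
    obtain ⟨s, hs, hs'⟩ := ih
    exact STenAux.step ((⁅T, T⁆).lowerCentralSeries_antitone (Nat.zero_le i)) hs ht hs' ht'

/-- The criterion of P. Hall. -/
theorem hall_nil {D N : Subgroup G} [D.Normal] [N.Normal] (hD : NilMod D ⊥)
    (h : ∃ k, (fun H => ⁅H, N⁆)^[k] D ≤ ⁅D, D⁆) : ∃ k, (fun H => ⁅H, N⁆)^[k] D = ⊥ := by
  obtain ⟨l, hl⟩ := h
  obtain ⟨c, hc⟩ := hD
  have h1 : ∀ i, ∃ k, (fun H => ⁅H, N⁆)^[k] (D.lowerCentralSeries i) ≤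
      D.lowerCentralSeries (i + 1) := by
    intro i
    induction i with
    | zero => exact ⟨l, hl⟩
    | succ i ih =>
      obtain ⟨k, hk⟩ := ih
      exact ⟨k + l, STenAux.hall_step hk hl⟩
  have h2 : ∀ i, ∃ k, (fun H => ⁅H, N⁆)^[k] D ≤ D.lowerCentralSeries i := by
    intro i
    induction i with
    | zero => exact ⟨0, le_rfl⟩
    | succ i ih =>
      obtain ⟨k, hk⟩ := ih
      obtain ⟨k', hk'⟩ := h1 i
      refine ⟨k' + k, ?_⟩
      rw [Function.iterate_add_apply]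
      exact (STenAux.it_mono N k' hk).trans hk'
  obtain ⟨k, hk⟩ := h2 c
  exact ⟨k, eq_bot_iff.2 (hk.trans hc)⟩

end Pool.Agent.P.MP_257122_al
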