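import Pool.Agent.P.MP_257122_al.KComm
import Pool.Agent.P.MP_257122_al.STen

/-!
# The nilpotency criterion of P. Hall
-/

namespace Pool.Agent.P.MP_257122_al.K

open Polynomial MonoidAlgebra C
open scoped commutatorElement Matrix

theorem hall {G : Type} [Group G] {D H : Subgroup G} [D.Normal] [H.Normal] (h : D ≤ H)
    (hD : NilMod D ⊥) (hH : NilMod H ⁅D, D⁆) : NilMod H ⊥ := by
  obtain ⟨c, hc⟩ := hH
  have h1 : itB D H c ≤ ⁅D, D⁆ := ((itB_mono h le_rfl c).trans (itB_self H c).le).trans hc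
  obtain ⟨k, hk⟩ := hall_nil (N := H) hD ⟨c, h1⟩
  refine ⟨c + k, ?_⟩
  rw [lcs_add]
  exact (itB_mono (hc.trans (Subgroup.commutator_le_left _ _)) le_rfl k).trans (le_of_eq hk)

end Pool.Agent.P.MP_257122_al.K
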