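import Pool.Agent.P.MP_257122_al.KDefs

/-!
# Abelian normal subgroups of metabelian groups as Noetherian modules

PLAN.  Let `A = Additive M` (commutative group structure from `h3`; or use
`Additive (Abelianization M)` with `abHom` of `MSec`, and `mem_comm_iff`).  `T` acts by commuting
automorphisms.  With generators `t₁, ..., tₛ` of `T` as a monoid (`exists_mgen`), make `A` a module over
`R = MvPolynomial (Fin s) ℤ` (`MvPolynomial.aeval` into the commutative algebra
`Algebra.adjoin ℤ {act t}`, `Module.compHom`), or over `R = Algebra.adjoin ℤ {act t}` itself (finite type,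
so Noetherian).  `A` is a finite `R`-module: `VAb.exists_ncl` in the group `T` for `M.subgroupOf T`.
`noe_tors`: the torsion elements form a finitely generated submodule.
`noe_inter`: for a maximal ideal `𝔪` the field `R ⧸ 𝔪` is finite over `ℤ`
(`finite_of_finite_type_of_isJacobsonRing`), so it has positive characteristic `p`, and `x ∈ p ^ k A ≤ 𝔪 ^ k A`
for all `k`.  Krull (`Ideal.mem_iInf_smul_pow_eq_bot_iff`) gives `r ∈ 𝔪` with `r • x = x`, so the annihilator of
`x` lies in no maximal ideal.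
-/

namespace Pool.Agent.P.MP_257122_al.K

open Polynomial MonoidAlgebra C
open scoped commutatorElement Matrix

namespace Noe

/-- The torsion of a Noetherian module has finite exponent. -/
theorem tors {R A : Type} [CommRing R] [AddCommGroup A] [Module R A] [IsNoetherianRing R]
    [Module.Finite R A] : ∃ n : ℕ, 0 < n ∧ ∀ a : A, (∃ j : ℕ, 0 < j ∧ j • a = 0) → n • a = 0 := by
  let K : ℕ → Submodule R A := fun n =>
    { carrier := {a | n • a = 0}
      zero_mem' := smul_zero n
      add_mem' := fun {a b} ha hb => by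
        have ha' : n • a = 0 := ha
        have hb' : n • b = 0 := hb
        show n • (a + b) = 0
        rw [smul_add, ha', hb', add_zero]
      smul_mem' := fun r a ha => by
        have ha' : n • a = 0 := ha
        show n • r • a = 0
        rw [smul_comm, ha', smul_zero] }
  have hK : ∀ m n : ℕ, m ∣ n → K m ≤ K n := by
    rintro m _ ⟨c, rfl⟩ a ha
    have ha' : m • a = 0 := ha
    show (m * c) • a = 0
    rw [mul_comm, mul_smul, ha', smul_zero]
  let f : ℕ →o Submodule R A :=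
    ⟨fun n => K n.factorial, fun m n h => hK _ _ (Nat.factorial_dvd_factorial h)⟩
  obtain ⟨n, hn⟩ := monotone_stabilizes_iff_noetherian.2 (inferInstance : IsNoetherian R A) f
  refine ⟨n.factorial, n.factorial_pos, fun a ⟨j, hj, ha⟩ => ?_⟩
  have h1 : a ∈ f (max n j) := hK j _ (Nat.dvd_factorial hj (le_max_right _ _)) ha
  rw [← hn _ (le_max_left _ _)] at h1
  exact h1

theorem jac : IsJacobsonRing ℤ := by
  rw [isJacobsonRing_iff_prime_eq]
  intro P hP
  by_cases h : P = ⊥
  · subst h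
    rw [eq_bot_iff]
    intro x hx
    by_contra hx0
    have hx0 : x ≠ 0 := hx0
    obtain ⟨p, hp1, hp⟩ := Nat.exists_infinite_primes (x.natAbs + 1)
    have hmax : (Ideal.span {(p : ℤ)}).IsMaximal :=
      PrincipalIdealRing.isMaximal_of_irreducible (Nat.prime_iff_prime_int.1 hp).irreducible
    have h1 : x ∈ Ideal.span {(p : ℤ)} := Ideal.mem_sInf.1 hx ⟨bot_le, hmax⟩
    have h2 := Int.natAbs_le_of_dvd_ne_zero (Ideal.mem_span_singleton.1 h1) hx0
    simp only [Int.natAbs_natCast] at h2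
    omega
  · have := IsPrime.to_maximal_ideal h
    exact Ideal.jacobson_eq_self_of_isMaximal

/-- A maximal ideal of a finitely generated ring contains a positive integer. -/
theorem exists_nat {R : Type} [CommRing R] [Algebra.FiniteType ℤ R] (m : Ideal R)
    [m.IsMaximal] : ∃ p : ℕ, 0 < p ∧ (p : R) ∈ m := by
  have := jac
  let := Ideal.Quotient.field m
  have hf := finite_of_finite_type_of_isJacobsonRing ℤ (R ⧸ m)
  by_contra hc
  have hi : Function.Injective (algebraMap ℤ (R ⧸ m)) := by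
    refine (injective_iff_map_eq_zero _).2 fun z hz => ?_
    by_contra h0
    refine hc ⟨z.natAbs, Int.natAbs_pos.2 h0, Ideal.Quotient.eq_zero_iff_mem.1 ?_⟩
    rw [map_natCast]
    have hz' : (z : R ⧸ m) = 0 := hz
    rcases Int.natAbs_eq z with e | e
    · rw [e, Int.cast_natCast] at hz'
      exact hz'
    · rw [e, Int.cast_neg, Int.cast_natCast, neg_eq_zero] at hz'
      exact hz'
  exact Int.not_isField (isField_of_isIntegral_of_isField hi (Field.toIsField _))

/-- A finite module over a finitely generated ring has no divisible elements. -/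
theorem inter {R A : Type} [CommRing R] [AddCommGroup A] [Module R A] [Algebra.FiniteType ℤ R]
    [Module.Finite R A] {x : A} (hx : ∀ n : ℕ, 0 < n → ∃ y, n • y = x) : x = 0 := by
  have := Algebra.FiniteType.isNoetherianRing ℤ R
  by_contra h0
  have hne : Ideal.torsionOf R A x ≠ ⊤ := fun h => h0 (by
    have : (1 : R) ∈ Ideal.torsionOf R A x := h ▸ trivial
    simpa using this)
  obtain ⟨m, hm, hle⟩ := Ideal.exists_le_maximal _ hne
  obtain ⟨p, hp, hpm⟩ := exists_nat m
  have h1 : x ∈ (⨅ i : ℕ, m ^ i • ⊤ : Submodule R A) := by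
    refine Submodule.mem_iInf _ |>.2 fun i => ?_
    obtain ⟨y, rfl⟩ := hx (p ^ i) (pow_pos hp i)
    rw [← Nat.cast_smul_eq_nsmul R, Nat.cast_pow]
    exact Submodule.smul_mem_smul (Ideal.pow_mem_pow hpm i) trivial
  obtain ⟨r, hr⟩ := (m.mem_iInf_smul_pow_eq_bot_iff x).1 h1
  have h2 : (1 - r : R) ∈ m := hle (by
    rw [Ideal.mem_torsionOf_iff, sub_smul, one_smul, hr, sub_self])
  have h3 := m.add_mem h2 r.2
  rw [sub_add_cancel] at h3
  exact hm.ne_top ((Ideal.eq_top_iff_one _).2 h3)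

/-- The module structure given by commuting endomorphisms. -/
theorem abstr {A : Type} [AddCommGroup A] {s : Set (Module.End ℤ A)} (hs : s.Finite)
    (hc : ∀ a ∈ s, ∀ b ∈ s, a * b = b * a) {Y : Set A} (hY : Y.Finite)
    (h : ∀ P : AddSubgroup A, (∀ y ∈ Y, y ∈ P) →
      (∀ f ∈ Algebra.adjoin ℤ s, ∀ a ∈ P, f a ∈ P) → ∀ a, a ∈ P) :
    ∃ (R : Type) (_ : CommRing R) (_ : Module R A),
      Algebra.FiniteType ℤ R ∧ Module.Finite R A := by
  have hc' := Algebra.isMulCommutative_adjoin ℤ hc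
  have hft : Algebra.FiniteType ℤ (Algebra.adjoin ℤ s) :=
    ⟨(Subalgebra.fg_top _).2 (Subalgebra.fg_def.2 ⟨s, hs, rfl⟩)⟩
  have hfin : Module.Finite (Algebra.adjoin ℤ s) A :=
    ⟨Submodule.fg_def.2 ⟨Y, hY, top_unique fun a _ =>
      h (Submodule.span (Algebra.adjoin ℤ s) Y).toAddSubgroup
        (fun _ hy => Submodule.subset_span hy)
        (fun f hf _ ha => (Submodule.span (Algebra.adjoin ℤ s) Y).smul_mem ⟨f, hf⟩ ha) a⟩⟩
  have e : (Algebra.adjoin ℤ s).algebra = Ring.toIntAlgebra _ := Subsingleton.elim _ _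
  rw [e] at hft
  exact ⟨Algebra.adjoin ℤ s, { (inferInstance : Ring (Algebra.adjoin ℤ s)) with
    mul_comm := hc'.is_comm.comm }, (inferInstance : Module (Algebra.adjoin ℤ s) A), hft, hfin⟩

/-- The module structure. -/
theorem struct {G : Type} [Group G] {T M : Subgroup G} [Group.FG T] [M.Normal] (h1 : M ≤ T)
    (h2 : ⁅T, T⁆ ≤ M) : ∃ (R : Type) (_ : CommRing R) (_ : Module R (Additive (Abelianization M))),
      Algebra.FiniteType ℤ R ∧ Module.Finite R (Additive (Abelianization M)) := by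
  classical
  obtain ⟨X, hX⟩ := exists_mgen (G := T)
  have hv : VAb (M.subgroupOf T) :=
    ⟨⊤, inferInstance, inferInstance, le_top, Subgroup.commutator_le.2 fun a _ b _ =>
      h2 (Subgroup.commutator_mem_commutator a.2 b.2)⟩
  obtain ⟨Y, hY⟩ := hv.exists_ncl
  have htriv : ∀ m ∈ M, abHom M m = 1 := fun m hm => by
    refine LinearMap.ext fun a => ?_
    obtain ⟨c, rfl⟩ := ab_surj M a
    have : MulAut.conjNormal m c = ⟨m, hm⟩ * c * (⟨m, hm⟩ : M)⁻¹ := rfl
    have h3 : Abelianization.of (MulAut.conjNormal m c) = Abelianization.of c := by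
      rw [this, map_mul, map_mul, map_inv, mul_inv_cancel_comm]
    exact (abAct_of M m c).trans (congrArg Additive.ofMul h3)
  have hcomm : ∀ a b : T, abHom M a * abHom M b = abHom M b * abHom M a := fun a b => by
    have := htriv _ (h2 (Subgroup.commutator_mem_commutator a.2 b.2))
    have e : (a * b : G) = ⁅(a : G), (b : G)⁆ * (b * a) := by
      rw [commutatorElement_def]
      group
    rw [← map_mul, e, map_mul, this, one_mul, map_mul]
  let cl : T → Additive (Abelianization M) := fun y =>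
    if h : (y : G) ∈ M then Additive.ofMul (Abelianization.of ⟨y, h⟩) else 0
  have hcl : ∀ (y : T) (h : (y : G) ∈ M), cl y = Additive.ofMul (Abelianization.of ⟨y, h⟩) :=
    fun y h => dif_pos h
  refine abstr (s := (fun t : T => abHom M t) '' {x | x ∈ X}) ((List.finite_toSet X).image _) ?_
    ((List.finite_toSet Y).image cl) fun P hP hP' a => ?_
  · rintro _ ⟨a, _, rfl⟩ _ ⟨b, _, rfl⟩
    exact hcomm a b
  have hall : ∀ t : T,
      abHom M t ∈ Algebra.adjoin ℤ ((fun t : T => abHom M t) '' {x | x ∈ X}) := fun t => by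
    have : t ∈ Submonoid.closure {x | x ∈ X} := hX ▸ trivial
    induction this using Submonoid.closure_induction with
    | mem x hx => exact Algebra.subset_adjoin ⟨x, hx, rfl⟩
    | one => rw [Subgroup.coe_one, map_one]; exact one_mem _
    | mul a b _ _ ha hb => rw [Subgroup.coe_mul, map_mul]; exact mul_mem ha hb
  let K : Subgroup T :=
    { carrier := {y | ∃ h : (y : G) ∈ M, Additive.ofMul (Abelianization.of ⟨y, h⟩) ∈ P}
      one_mem' := ⟨M.one_mem, P.zero_mem⟩
      mul_mem' := fun ⟨ha, ha'⟩ ⟨hb, hb'⟩ => ⟨M.mul_mem ha hb, P.add_mem ha' hb'⟩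
      inv_mem' := fun ⟨ha, ha'⟩ => ⟨M.inv_mem ha, P.neg_mem ha'⟩ }
  have hK : K.Normal := ⟨fun y ⟨hy, hy'⟩ t =>
    ⟨Subgroup.Normal.conj_mem inferInstance _ hy _, hP' _ (hall t) _ hy'⟩⟩
  have hle : M.subgroupOf T ≤ K := by
    rw [hY]
    refine Subgroup.normalClosure_le_normal fun y hy => ?_
    have hy' : y ∈ M.subgroupOf T := hY ▸ Subgroup.subset_normalClosure hy
    refine ⟨hy', ?_⟩
    rw [← hcl y hy']
    exact hP _ ⟨y, hy, rfl⟩
  obtain ⟨c, rfl⟩ := ab_surj M a
  obtain ⟨_, h⟩ := hle (x := ⟨c, h1 c.2⟩) c.2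
  exact h

theorem eq_one {G : Type} [Group G] {M : Subgroup G} (h3 : ⁅M, M⁆ = ⊥) (c : M)
    (h : Abelianization.of c = 1) : (c : G) = 1 := by
  have : c ∈ commutator M := by
    rw [← Abelianization.ker_of]
    exact h
  rw [← mem_comm_iff, h3] at this
  exact this

end Noe

variable {G : Type} [Group G] {T M : Subgroup G} [Group.FG T] [M.Normal]

theorem noe_tors (h1 : M ≤ T) (h2 : ⁅T, T⁆ ≤ M) (h3 : ⁅M, M⁆ = ⊥) :
    ∃ n, 0 < n ∧ ∀ x ∈ M, (∃ j, 0 < j ∧ x ^ j = 1) → x ^ n = 1 := by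
  obtain ⟨R, _, _, hft, hfin⟩ := Noe.struct h1 h2
  have := Algebra.FiniteType.isNoetherianRing ℤ R
  obtain ⟨n, hn, h⟩ := Noe.tors (R := R) (A := Additive (Abelianization M))
  refine ⟨n, hn, fun x hx ⟨j, hj, e⟩ => Noe.eq_one h3 (⟨x, hx⟩ ^ n) ?_⟩
  rw [map_pow]
  refine h (Additive.ofMul (Abelianization.of ⟨x, hx⟩)) ⟨j, hj, ?_⟩
  have : (⟨x, hx⟩ ^ j : M) = 1 := Subtype.ext e
  show Abelianization.of (⟨x, hx⟩ : M) ^ j = 1
  rw [← map_pow, this, map_one]

theorem noe_inter (h1 : M ≤ T) (h2 : ⁅T, T⁆ ≤ M) (h3 : ⁅M, M⁆ = ⊥) {x : G}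
    (hx : ∀ n, 0 < n → x ∈ pw n M) : x = 1 := by
  obtain ⟨R, _, _, hft, hfin⟩ := Noe.struct h1 h2
  have hM : x ∈ M := pwLe 1 M (hx 1 one_pos)
  refine Noe.eq_one h3 ⟨x, hM⟩ (Noe.inter (R := R) (A := Additive (Abelianization M))
    (x := Additive.ofMul (Abelianization.of ⟨x, hM⟩)) fun n hn => ?_)
  let K : Subgroup G :=
    { carrier := {y | ∃ h : y ∈ M, ∃ a : Abelianization M, a ^ n = Abelianization.of ⟨y, h⟩}
      one_mem' := ⟨M.one_mem, 1, one_pow n⟩
      mul_mem' := fun ⟨ha, a, ha'⟩ ⟨hb, b, hb'⟩ =>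
        ⟨M.mul_mem ha hb, a * b, by rw [mul_pow, ha', hb']; rfl⟩
      inv_mem' := fun ⟨ha, a, ha'⟩ => ⟨M.inv_mem ha, a⁻¹, by rw [inv_pow, ha']; rfl⟩ }
  have hle : pw n M ≤ K := pwLeIff.2 fun y hy =>
    ⟨pow_mem hy n, Abelianization.of ⟨y, hy⟩, (map_pow _ _ _).symm⟩
  obtain ⟨_, a, ha⟩ := hle (hx n hn)
  exact ⟨Additive.ofMul a, ha⟩

end Pool.Agent.P.MP_257122_al.K
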