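import Pool.Agent.P.MP_257122_al.KDefs

/-!
# Finite-by-abelian groups are virtually free abelian

PLAN.  Let `T₀` come from `VAb N₀` and let `P` be its image in `G ⧸ N`; it is finitely generated
(`Subgroup.fg_of_index_ne_zero`) and its commutators lie in the finite image of `N₀`, so its centre `Z`
has finite index (`Subgroup.finiteIndex_center`) and is a finitely generated abelian group.  If `n`
kills the (finitely generated, `gb_fg`) torsion subgroup of `Z`, the `n`-th powers form a torsion free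
subgroup of finite index (`Subgroup.finiteIndex_range_powMonoidHom_of_fg` or similar).  Take the
preimage in `G` and its `normalCore`.
-/

namespace Pool.Agent.P.MP_257122_al.K

open Polynomial MonoidAlgebra C
open scoped commutatorElement Matrix

theorem vtf_ab {A : Type} [CommGroup A] [Group.FG A] :
    ∃ W : Subgroup A, W.FiniteIndex ∧ ∀ w ∈ W, ∀ m, 0 < m → w ^ m = 1 → w = 1 := by
  have h1 : Group.FG (CommGroup.torsion A) := (Group.fg_iff_subgroup_fg _).2 (gb_fg _)
  have h2 : Finite (CommGroup.torsion A) :=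
    CommGroup.finite_of_fg_isMulTorsion _ (CommMonoid.torsion.isMulTorsion (G := A))
  have hn : Nat.card (CommGroup.torsion A) ≠ 0 := Nat.card_pos.ne'
  refine ⟨(powMonoidHom (Nat.card (CommGroup.torsion A))).range,
    Subgroup.finiteIndex_range_powMonoidHom_of_fg A hn, ?_⟩
  rintro _ ⟨a, rfl⟩ m hm h
  rw [powMonoidHom_apply] at h ⊢
  rw [← pow_mul] at h
  have ha : a ∈ CommGroup.torsion A :=
    isOfFinOrder_iff_pow_eq_one.2 ⟨_, Nat.mul_pos (Nat.pos_of_ne_zero hn) hm, h⟩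
  exact congrArg Subtype.val (pow_card_eq_one' (x := (⟨a, ha⟩ : CommGroup.torsion A)))

open scoped IsMulCommutative in
theorem vtf_grp {P : Type} [Group P] [Group.FG P] [Finite (commutatorSet P)] :
    ∃ W : Subgroup P, W.FiniteIndex ∧ (∀ x ∈ W, ∀ y ∈ W, ⁅x, y⁆ = 1) ∧
      ∀ w ∈ W, ∀ m, 0 < m → w ^ m = 1 → w = 1 := by
  obtain ⟨W, h1, h2⟩ := vtf_ab (A := Subgroup.center P)
  refine ⟨W.map (Subgroup.center P).subtype, ⟨?_⟩, ?_, ?_⟩
  · rw [Subgroup.index_map_subtype]
    exact mul_ne_zero h1.1 Subgroup.FiniteIndex.index_ne_zero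
  · rintro x - _ ⟨y, -, rfl⟩
    exact commutatorElement_eq_one_iff_mul_comm.2 (Subgroup.mem_center_iff.1 y.2 x)
  · rintro _ ⟨w, hw, rfl⟩ m hm h
    exact congrArg Subtype.val (h2 w hw m hm (Subtype.ext h))

theorem vtf {G : Type} [Group G] [Group.FG G] {N₀ N : Subgroup G} [N₀.Normal] [N.Normal]
    (h : VAb N₀) (hN : N ≤ N₀) (hf : N.relIndex N₀ ≠ 0) :
    ∃ T, Top T N ∧ ∀ g ∈ T, ∀ m, 0 < m → g ^ m ∈ N → g ∈ N := by
  obtain ⟨T₀, -, hfi, h0, hc⟩ := h
  let φ : T₀ →* G ⧸ N := (QuotientGroup.mk' N).comp T₀.subtype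
  have hone : ∀ x : T₀, φ.rangeRestrict x = 1 ↔ (x : G) ∈ N := fun x =>
    Subtype.ext_iff.trans (QuotientGroup.eq_one_iff _)
  have hfin : Finite (N₀.map (QuotientGroup.mk' N)) := by
    refine Nat.finite_of_card_ne_zero ?_
    rwa [← Subgroup.relIndex_ker, QuotientGroup.ker_mk']
  have hcs : Finite (commutatorSet φ.range) := by
    have hm : ∀ z : commutatorSet φ.range, z.1.1 ∈ N₀.map (QuotientGroup.mk' N) := by
      rintro ⟨_, ⟨_, x, rfl⟩, ⟨_, y, rfl⟩, rfl⟩
      exact ⟨⁅(x : G), (y : G)⁆, hc (Subgroup.commutator_mem_commutator x.2 y.2), rfl⟩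
    exact Finite.of_injective (fun z => (⟨z.1.1, hm z⟩ : N₀.map (QuotientGroup.mk' N)))
      fun z z' e => Subtype.ext (Subtype.ext (Subtype.mk.inj e))
  obtain ⟨W, w1, w2, w3⟩ := vtf_grp (P := φ.range)
  let U := (W.comap φ.rangeRestrict).map T₀.subtype
  have hU : U.FiniteIndex := ⟨by
    rw [Subgroup.index_map_subtype,
      Subgroup.index_comap_of_surjective _ φ.rangeRestrict_surjective]
    exact mul_ne_zero w1.1 hfi.1⟩
  refine ⟨U.normalCore, ⟨inferInstance, inferInstance, Subgroup.normal_le_normalCore.2 ?_,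
    Subgroup.commutator_le.2 fun x hx y hy => ?_⟩, fun g hg m hm hgm => ?_⟩
  · intro n hn
    refine ⟨⟨n, h0 (hN hn)⟩, ?_, rfl⟩
    show φ.rangeRestrict _ ∈ W
    rw [(hone _).2 hn]
    exact W.one_mem
  · obtain ⟨x, hx', rfl⟩ := U.normalCore_le hx
    obtain ⟨y, hy', rfl⟩ := U.normalCore_le hy
    exact (hone ⁅x, y⁆).1 (by rw [map_commutatorElement]; exact w2 _ hx' _ hy')
  · obtain ⟨x, hx, rfl⟩ := U.normalCore_le hg
    exact (hone x).1 (w3 _ hx m hm (by rw [← map_pow]; exact (hone _).2 hgm))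

end Pool.Agent.P.MP_257122_al.K
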