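import Pool.Agent.P.MP_257122_al.KRank
import Pool.Agent.P.MP_257122_al.KVtf
import Pool.Agent.P.MP_257122_al.KNoe

/-!
# Residual finiteness

PLAN.  First for `g ∈ M`: if `g ∉ ⁅M, M⁆`, `noe_inter` in `G ⧸ ⁅M, M⁆` gives `n` with
`g ∉ N = pw n M ⊔ ⁅M, M⁆` (`pwMap`, `mem_quot`); `relIndex_pw` and `vtf` give `T ≥ N` of finite index, so
`g ∈ T`, `g ^ n ∈ N`, hence `g ∈ N`.  In general, with `T` from `VAb M`: `g ∈ T`, the first case for `T` in
place of `M` gives `g ∈ ⁅T, T⁆ ≤ M`.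
-/

namespace Pool.Agent.P.MP_257122_al.K

open Polynomial MonoidAlgebra C
open scoped commutatorElement Matrix

theorem resFin_aux {G : Type} [Group G] [Group.FG G] {M : Subgroup G} [M.Normal] (hG : FinRank G)
    (h : VAb M) {g : G} (hM : g ∈ M)
    (hg : ∀ H : Subgroup G, H.FiniteIndex → ⁅M, M⁆ ≤ H → g ∈ H) : g ∈ ⁅M, M⁆ := by
  have key : ∀ n, 0 < n → g ∈ pw n M ⊔ ⁅M, M⁆ := fun n hn => by
    obtain ⟨T, hT, h'⟩ := vtf (N := pw n M ⊔ ⁅M, M⁆) h
      (sup_le (pwLe n M) (Subgroup.commutator_le_left _ _))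
      (relIndex_pw (finRank_quot hG _) ⟨1, le_rfl⟩ hn)
    exact h' g (hg T hT.2.1 (le_sup_right.trans hT.2.2.1)) n hn
      (Subgroup.mem_sup_left (pwMem hM))
  have hs := QuotientGroup.mk'_surjective ⁅M, M⁆
  obtain ⟨T, h1, h2, h3, h4⟩ := vab_map h (QuotientGroup.mk' ⁅M, M⁆) hs
  have := Subgroup.Normal.map (inferInstance : M.Normal) _ hs
  have e : QuotientGroup.mk' ⁅M, M⁆ g = 1 := noe_inter h3 h4 (by
    rw [← Subgroup.map_commutator, Subgroup.map_eq_bot_iff, QuotientGroup.ker_mk']) fun n hn => by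
      rw [← pwMap, mem_quot]
      exact key n hn
  exact (QuotientGroup.eq_one_iff g).1 e

theorem resFin {G : Type} [Group G] [Group.FG G] {M : Subgroup G} [M.Normal] (hG : FinRank G)
    (h : VAb M) {g : G} (hg : ∀ H : Subgroup G, H.FiniteIndex → ⁅M, M⁆ ≤ H → g ∈ H) :
    g ∈ ⁅M, M⁆ := by
  refine resFin_aux hG h ?_ hg
  obtain ⟨T, h1, h2, h3, h4⟩ := h
  refine h4 (resFin_aux hG ⟨T, h1, h2, le_rfl, Subgroup.commutator_le_left _ _⟩
    (hg T h2 ((Subgroup.commutator_le_left _ _).trans h3)) fun H hH hT => hg H hH ?_)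
  exact (Subgroup.commutator_mono h3 h3).trans hT

end Pool.Agent.P.MP_257122_al.K
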