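import Pool.Agent.P.MP_257122_al.SModB
import Pool.Agent.P.MP_257122_al.STen

/-!
# Finitely generated soluble groups of finite rank are virtually nilpotent-by-abelian

PLAN.  `exists_secZ`: `M = Additive (Abelianization A)`.  With `D = dres f G` show by induction on
`i` that some `γ_c D ≤ derivedSeries G i`: in the section `M` of `A = derivedSeries G i` the image of
`γ_(j+1) D` is `brk` of the image of `γ_j D` (`j ≥ c`); after `r` steps it is torsion
(`brk_torsion`); `lcs_mtyp` gives `MTyp`; `brk_nil`.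
-/

namespace Pool.Agent.P.MP_257122_al

variable {G : Type} [Group G]

namespace SNilAux

open scoped commutatorElement

variable {M : Type} [AddCommGroup M] {A : Subgroup G} {δ : G → M}

/-- The restriction of `δ` to `A` as a homomorphism. -/
def hom (h : ∀ c ∈ A, ∀ c' ∈ A, δ (c * c') = δ c + δ c') : A →* Multiplicative M :=
  MonoidHom.mk' (fun c => Multiplicative.ofAdd (δ c)) fun a b =>
    congrArg Multiplicative.ofAdd (h a a.2 b b.2)

variable (h : ∀ c ∈ A, ∀ c' ∈ A, δ (c * c') = δ c + δ c')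
include h

theorem one : δ 1 = 0 := congrArg Multiplicative.toAdd (hom h).map_one

theorem inv {c : G} (hc : c ∈ A) : δ c⁻¹ = -δ c :=
  congrArg Multiplicative.toAdd ((hom h).map_inv ⟨c, hc⟩)

theorem zpow {c : G} (hc : c ∈ A) (a : ℤ) : δ (c ^ a) = a • δ c :=
  congrArg Multiplicative.toAdd ((hom h).map_zpow ⟨c, hc⟩ a)

theorem pow {c : G} (hc : c ∈ A) (a : ℕ) : δ (c ^ a) = a • δ c :=
  congrArg Multiplicative.toAdd ((hom h).map_pow ⟨c, hc⟩ a)

/-- The preimage of a submodule. -/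
def pre (U : Submodule ℤ M) : Subgroup G where
  carrier := {x | x ∈ A ∧ δ x ∈ U}
  one_mem' := ⟨A.one_mem, by rw [one h]; exact U.zero_mem⟩
  mul_mem' := fun hx hy => ⟨A.mul_mem hx.1 hy.1, by
    rw [h _ hx.1 _ hy.1]; exact U.add_mem hx.2 hy.2⟩
  inv_mem' := fun hx => ⟨A.inv_mem hx.1, by rw [inv h hx.1]; exact U.neg_mem hx.2⟩

theorem mem_span {K : Subgroup G} (hK : K ≤ A) {w : M}
    (hw : w ∈ Submodule.span ℤ (δ '' (K : Set G))) : ∃ x ∈ K, δ x = w := by
  induction hw using Submodule.span_induction with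
  | mem x hx => exact hx
  | zero => exact ⟨1, K.one_mem, one h⟩
  | add x y _ _ hx hy =>
    obtain ⟨x, hx, rfl⟩ := hx
    obtain ⟨y, hy, rfl⟩ := hy
    exact ⟨x * y, K.mul_mem hx hy, h _ (hK hx) _ (hK hy)⟩
  | smul a x _ hx =>
    obtain ⟨x, hx, rfl⟩ := hx
    exact ⟨x ^ a, K.zpow_mem hx a, zpow h (hK hx) a⟩

theorem span_closure {S : Set G} (hS : ∀ x ∈ S, x ∈ A) :
    Submodule.span ℤ (δ '' (Subgroup.closure S : Set G)) = Submodule.span ℤ (δ '' S) := by
  refine le_antisymm (Submodule.span_le.2 ?_)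
    (Submodule.span_mono (Set.image_mono Subgroup.subset_closure))
  rintro _ ⟨x, hx, rfl⟩
  exact ((Subgroup.closure_le (pre h (Submodule.span ℤ (δ '' S)))).2
    (fun y hy => ⟨hS y hy, Submodule.subset_span ⟨y, hy, rfl⟩⟩) hx).2

theorem rk (h4 : ∀ x, ∃ c ∈ A, δ c = x) {r : ℕ} (hr : ∀ H : Subgroup G, H.FG →
    ∃ s : Finset G, s.card ≤ r ∧ Subgroup.closure (s : Set G) = H) : RkLe M r := by
  classical
  rintro _ ⟨t, rfl⟩
  choose σ h1 h2 using h4
  obtain ⟨s, hs, e⟩ := hr _ ⟨t.image σ, rfl⟩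
  have h3 : ∀ x ∈ (t.image σ : Set G), x ∈ A := fun x hx => by
    obtain ⟨y, -, rfl⟩ := Finset.mem_image.1 hx
    exact h1 y
  refine ⟨s.image δ, Finset.card_image_le.trans hs, ?_⟩
  rw [Finset.coe_image, ← span_closure h fun x hx => (Subgroup.closure_le A).2 h3
    (e ▸ Subgroup.subset_closure hx), e, span_closure h h3, Finset.coe_image, Set.image_image]
  simp [h2]

variable {act : G →* Module.End ℤ M} (h2 : ∀ g, ∀ c ∈ A, δ (g * c * g⁻¹) = act g (δ c))
include h2

theorem span_comm [A.Normal] {K : Subgroup G} (hK : K ≤ A) (D : Subgroup G) :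
    Submodule.span ℤ (δ '' ((⁅K, D⁆ : Subgroup G) : Set G)) =
      brk act D (Submodule.span ℤ (δ '' (K : Set G))) := by
  have e : ∀ x ∈ K, ∀ d, ⁅x, d⁆ ∈ A ∧ δ ⁅x, d⁆ = -(act d (δ x) - δ x) := fun x hx d => by
    have e1 : ⁅x, d⁆ = x * (d * x⁻¹ * d⁻¹) := by simp only [commutatorElement_def, mul_assoc]
    have e2 := Subgroup.Normal.conj_mem inferInstance _ (A.inv_mem (hK hx)) d
    rw [e1, h _ (hK hx) _ e2, h2 _ _ (A.inv_mem (hK hx)), inv h (hK hx), map_neg]
    exact ⟨A.mul_mem (hK hx) e2, by abel⟩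
  refine le_antisymm (Submodule.span_le.2 ?_) (Submodule.span_le.2 ?_)
  · rintro _ ⟨x, hx, rfl⟩
    refine ((Subgroup.commutator_le (H₃ := pre h _)).2 (fun y hy d hd => ⟨(e y hy d).1, ?_⟩) hx).2
    rw [(e y hy d).2]
    exact Submodule.neg_mem _
      (Submodule.subset_span ⟨d, hd, _, Submodule.subset_span ⟨y, hy, rfl⟩, rfl⟩)
  · rintro _ ⟨d, hd, u, hu, rfl⟩
    obtain ⟨x, hx, rfl⟩ := mem_span h hK hu
    rw [← neg_neg (_ - _), ← (e x hx d).2]
    exact Submodule.neg_mem _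
      (Submodule.subset_span ⟨_, Subgroup.commutator_mem_commutator hx hd, rfl⟩)

theorem span_lcs [A.Normal] {D : Subgroup G} {c : ℕ} (hc : D.lowerCentralSeries c ≤ A) (j : ℕ) :
    Submodule.span ℤ (δ '' (D.lowerCentralSeries (c + j) : Set G)) =
      (brk act D)^[j] (Submodule.span ℤ (δ '' (D.lowerCentralSeries c : Set G))) := by
  induction j with
  | zero => rfl
  | succ j ih =>
    rw [Function.iterate_succ_apply', ← ih, ← span_comm h h2
      ((D.lowerCentralSeries_antitone (Nat.le_add_right c j)).trans hc)]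
    rfl

end SNilAux

theorem exists_secZ (A : Subgroup G) [A.Normal] :
    ∃ (M : Type) (_ : AddCommGroup M) (act : G →* Module.End ℤ M) (δ : G → M),
      (∀ c ∈ A, ∀ c' ∈ A, δ (c * c') = δ c + δ c') ∧
      (∀ g, ∀ c ∈ A, δ (g * c * g⁻¹) = act g (δ c)) ∧ (∀ c ∈ A, δ c = 0 ↔ c ∈ ⁅A, A⁆) ∧
      (∀ x, ∃ c ∈ A, δ c = x) ∧ (FinRank G → ∃ r, RkLe M r) ∧
      ∀ r, (∀ H : Subgroup G, H.FG → ∃ s : Finset G, s.card ≤ r ∧
        Subgroup.closure (s : Set G) = H) → RkLe M r := by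
  classical
  let δ : G → Additive (Abelianization A) := fun c =>
    if h : c ∈ A then Additive.ofMul (Abelianization.of ⟨c, h⟩) else 0
  have hδ : ∀ c (h : c ∈ A), δ c = Additive.ofMul (Abelianization.of ⟨c, h⟩) :=
    fun c h => dif_pos h
  have h1 : ∀ c ∈ A, ∀ c' ∈ A, δ (c * c') = δ c + δ c' := fun c hc c' hc' => by
    rw [hδ c hc, hδ c' hc', hδ _ (A.mul_mem hc hc'), ← ofMul_mul, ← map_mul]
    rfl
  have h4 : ∀ x, ∃ c ∈ A, δ c = x := fun x => by
    obtain ⟨c, rfl⟩ := ab_surj A x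
    exact ⟨c, c.2, hδ c c.2⟩
  refine ⟨_, inferInstance, abHom A, δ, h1, fun g c hc => ?_, fun c hc => ?_, h4,
    fun ⟨r, hr⟩ => ⟨r, SNilAux.rk h1 h4 hr⟩, fun r hr => SNilAux.rk h1 h4 hr⟩
  · rw [hδ c hc, hδ _ (Subgroup.Normal.conj_mem inferInstance c hc g)]
    rfl
  · rw [hδ c hc, ofMul_eq_zero]
    exact ((mem_comm_iff A ⟨c, hc⟩).trans (QuotientGroup.eq_one_iff _).symm).symm

theorem exists_nil_dres (G : Type) [Group G] [Group.FG G] [Group.IsSolvable G] (h : FinRank G) :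
    ∃ e, ∀ e₁, e ≤ e₁ → NilMod (dres e₁ G) ⊥ := by
  classical
  obtain ⟨d, hd⟩ := Group.IsSolvable.solvable (G := G)
  obtain ⟨r, hr⟩ := id h
  obtain ⟨f, hf⟩ := exists_malOk r d
  have := res_finiteIndex (G := G) f
  obtain ⟨m, hm, hm'⟩ := lcs_mtyp h (res f G) ((Group.fg_iff_subgroup_fg _).1 inferInstance)
  have key : ∀ i, NilMod (dres f G) (derivedSeries G i) := fun i => by
    induction i with
    | zero => exact ⟨0, le_top⟩
    | succ i ih =>
      obtain ⟨c, hc⟩ := ih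
      obtain ⟨M, _, act, δ, h1, h2, h3, -, -, h6⟩ := exists_secZ (derivedSeries G i)
      have ha : ∀ g ∈ derivedSeries G d, act g = 1 := fun g hg => by
        rw [hd, Subgroup.mem_bot] at hg
        rw [hg, map_one]
      have hle : ∀ j, (dres f G).lowerCentralSeries (c + j) ≤ derivedSeries G i := fun j =>
        ((dres f G).lowerCentralSeries_antitone (Nat.le_add_right c j)).trans hc
      obtain ⟨k, hk⟩ := brk_nil hf (h6 r hr) ha
        (W := Submodule.span ℤ (δ '' ((dres f G).lowerCentralSeries (c + r) : Set G)))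
        (fun g u hu => by
          obtain ⟨x, hx, rfl⟩ := SNilAux.mem_span h1 (hle r) hu
          rw [← h2 g x (hle r hx)]
          exact Submodule.subset_span ⟨_, Subgroup.Normal.conj_mem inferInstance x hx g, rfl⟩)
        (by
          rw [SNilAux.span_lcs h1 h2 hc]
          exact (brk_mono.iterate r le_top).trans (brk_torsion hf (h6 r hr) ha)) hm
        (by
          obtain ⟨s, hs, hs'⟩ := hm' (c + r)
          refine ⟨s.image δ, fun x hx => ?_, fun w hw => ?_⟩
          · obtain ⟨y, hy, rfl⟩ := Finset.mem_image.1 hx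
            exact Submodule.subset_span ⟨y, hs y hy, rfl⟩
          · obtain ⟨x, hx, rfl⟩ := SNilAux.mem_span h1 (hle r) hw
            obtain ⟨j, hj⟩ := hs' x hx
            refine ⟨j, ?_⟩
            rw [← SNilAux.pow h1 (hle r hx), ← SNilAux.span_comm h1 h2 (hle r)]
            refine ((sup_le (c := SNilAux.pre h1 _) ((Subgroup.closure_le _).2 fun y hy => ?_)
              fun y hy => ?_) hj).2
            · exact ⟨hle r (hs y hy), Submodule.mem_sup_left
                (Submodule.subset_span (Finset.mem_coe.2 (Finset.mem_image_of_mem δ hy)))⟩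
            · exact ⟨hle (r + 1) hy, Submodule.mem_sup_right (Submodule.subset_span ⟨y, hy, rfl⟩)⟩)
      rw [← SNilAux.span_lcs h1 h2 (hle r)] at hk
      refine ⟨c + r + k, fun x hx => (h3 x (hle (r + k) (add_assoc c r k ▸ hx))).1 ?_⟩
      exact (Submodule.mem_bot ℤ).1 (hk ▸ Submodule.subset_span ⟨x, hx, rfl⟩)
  obtain ⟨c, hc⟩ := key d
  exact ⟨f, fun e he => ⟨c, (Subgroup.lowerCentralSeries_mono c
    (Subgroup.commutator_mono (res_anti he) (res_anti he))).trans (hd ▸ hc)⟩⟩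

end Pool.Agent.P.MP_257122_al
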