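import Pool.Agent.P.MP_257122_al.KFrat
import Pool.Agent.P.MP_257122_al.SNil

/-!
# The derived group of a subgroup of finite index is nilpotent
-/

namespace Pool.Agent.P.MP_257122_al.K

theorem exists_nilDres (G : Type) [Group G] [Group.FG G] [Group.IsSolvable G] (h : FinRank G) :
    ∃ e, NilMod (dres e G) ⊥ := by
  obtain ⟨e, he⟩ := exists_nil_dres G h
  exact ⟨e, he e le_rfl⟩

end Pool.Agent.P.MP_257122_al.K
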