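import Pool.Agent.P.MP_257122_al.KFin
import Pool.Agent.P.MP_257122_al.KRes
import Pool.Agent.P.MP_257122_al.KS1
import Pool.Agent.P.MP_257122_al.KHall
import Pool.Agent.P.MP_257122_al.GRes

/-!
# Nilpotency of a normal closure is recursively enumerable

PLAN.  `nil_sound`: work in `Γ = G ⧸ S` with `N` the image of `ncl Y`, `N* = dres e Γ` nilpotent
(`exists_nilDres`), `M = N ⊓ N*` (`vab_map`, `vab_inf`, `vab_dres`).  For `H` of finite index in `Γ` apply
`fin_nil` in `Γ ⧸ H.normalCore` (`FratC.frat`, `Frat.map`, `lcs_gen_le`, `lcs_quot`): the image of `N` is the image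
of `gen Y`, which has class at most `c` (if `X = []` then `G` is trivial), so `N.lcs c ≤ H`.  `resFin` gives
`N.lcs c ≤ ⁅M, M⁆`, and `hall` for `M ≤ N` finishes.
`nil_complete`: `exists_fratC`, `comms_mem`, monotony of the lower central series.
`cs_nil`: `∃ Y' m c, (∀ y ∈ Y', y ∈ ncl Y) ∧ (∀ y ∈ Y, y ∈ ncl Y') ∧ CertA (gensL b) Y' m c S`.
-/

namespace Pool.Agent.P.MP_257122_al.K

open Polynomial MonoidAlgebra C FOpsAux GResAux
open scoped commutatorElement Matrix

section pure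
variable {G : Type} [Group G] {X : List G} {S : Subgroup G} [S.Normal]

theorem KNilAux.fin_lcs (hX : MGen X) {x₀ : G} (h0 : x₀ ∈ X) {Y : List G} {m c : ℕ}
    (h : CertA X Y m c S) {Q : Type} [Group Q] [Finite Q] [Group.IsSolvable Q] (f : G →* Q)
    (hf : Function.Surjective f) (hS : S.map f = ⊥) :
    ((ncl Y).lowerCentralSeries c).map f = ⊥ := by
  have k : ∀ x ∈ X, ((gen (Y ++ Y.map fun y => x * y * x⁻¹)).map f).lowerCentralSeries c = ⊥ :=
    fun x hx => by
      rw [← Subgroup.map_lowerCentralSeries, ← le_bot_iff, ← hS]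
      exact Subgroup.map_mono (lcs_gen_le (h.2 x hx))
  have hF := (h.1.frat hX).map f hS.le
  rw [gen_map, ncl_map f hf] at hF
  have := fin_nil (hX.map f hf) hF fun x' hx' => by
    obtain ⟨x, hx, rfl⟩ := List.mem_map.1 hx'
    refine (Subgroup.isNilpotent_iff_lowerCentralSeries _).2 ⟨c, ?_⟩
    have := k x hx
    rw [gen_map, List.map_append, List.map_map] at this
    rw [List.map_map, ← this]
    congr 4
    funext y
    simp
  rw [← gen_map, ← ncl_map f hf] at this
  rw [Subgroup.map_lowerCentralSeries, ← le_bot_iff, ← k x₀ h0]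
  exact Subgroup.lowerCentralSeries_mono c (this.trans (Subgroup.map_mono
    (Subgroup.closure_mono fun y hy => List.mem_append_left _ hy)))

theorem nil_sound [Group.IsSolvable (G ⧸ S)] (hX : MGen X) (hG : FinRank (G ⧸ S)) {Y : List G}
    (hV : VAb (ncl Y ⊔ S)) {m c : ℕ} (h : CertA X Y m c S) : NilMod (ncl Y) S := by
  rcases X with _ | ⟨x₀, X'⟩
  · refine ⟨0, fun g _ => ?_⟩
    have hg : g ∈ Submonoid.closure {x | x ∈ ([] : List G)} := hX ▸ trivial
    have : g = 1 := by simpa using hg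
    exact this ▸ S.one_mem
  have hq := QuotientGroup.mk'_surjective S
  have : Group.FG (G ⧸ S) := (hX.map _ hq).fg
  obtain ⟨e, he⟩ := exists_nilDres (G ⧸ S) hG
  have hN : VAb ((ncl Y).map (QuotientGroup.mk' S)) := by
    have := vab_map hV _ hq
    rwa [Subgroup.map_sup, KCommAux.le_quot.2 le_rfl, sup_bot_eq] at this
  have : ((ncl Y).map (QuotientGroup.mk' S)).Normal := Subgroup.Normal.map inferInstance _ hq
  refine nilMod_quot.1 (hall (D := (ncl Y).map (QuotientGroup.mk' S) ⊓ dres e (G ⧸ S)) inf_le_left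
    (nilMod_mono he inf_le_right le_rfl) ⟨c, fun g hg => ?_⟩)
  refine resFin hG (vab_inf hN (vab_dres e)) fun H hH _ => H.normalCore_le ?_
  have hf := (QuotientGroup.mk'_surjective H.normalCore).comp hq
  rw [← MonoidHom.coe_comp] at hf
  have := KNilAux.fin_lcs hX (List.mem_cons_self ..) h _ hf (by
    rw [← Subgroup.map_map, KCommAux.le_quot.2 le_rfl, Subgroup.map_bot])
  rw [← Subgroup.map_map, KCommAux.le_quot, Subgroup.map_lowerCentralSeries] at this
  exact this hg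

theorem nil_complete (hX : MGen X) (hG : FinRank (G ⧸ S)) {Y₀ : List G}
    (h : NilMod (ncl Y₀) S) : ∃ Y m c, ncl Y = ncl Y₀ ∧ CertA X Y m c S := by
  obtain ⟨Y, m, -, e, hF⟩ := exists_fratC hX hG Y₀
  obtain ⟨c, hc⟩ := h
  refine ⟨Y, m, c, e, hF, fun x _ z hz => hc (Subgroup.lowerCentralSeries_mono c ?_
    (comms_mem _ c z hz))⟩
  rw [← e]
  refine (Subgroup.closure_le _).2 fun y hy => ?_
  rcases List.mem_append.1 hy with hy | hy
  · exact Subgroup.subset_normalClosure hy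
  · obtain ⟨w, hw, rfl⟩ := List.mem_map.1 hy
    exact Subgroup.Normal.conj_mem inferInstance w (Subgroup.subset_normalClosure hw) x

end pure

variable {A : Type} [Rep A]

section
variable {G : A → Type} [∀ a, Rep (G a)] [∀ a, Group (G a)]

@[aesop safe 50 apply (transparency := reducible) (rule_sets := [Restrict])]
theorem cs_pw {k : A → ℕ} {Y : ∀ a, Subgroup (G a)} (hG : GrpF G) (hk : CS k) (hY : CS Y) :
    CS (fun a => pw (k a) (Y a)) :=
  have t : CS (fun q : Σ p : (Σ a, G a), G p.1 => q.1.1) := s1.comp s1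
  CS.closure hG (CS.setOf (CS.ex (P := fun (p : Σ a, G a) (y : G p.1) =>
    y ∈ Y p.1 ∧ y ^ k p.1 = p.2) (hG.enum.comp s1) (CS.and (CS.memSubgroup (hY.comp t) s2)
      (CS.eq (hG.disc.comp t) (CS.pow (hG.mul.comp t) (hG.one.comp t) s2 (hk.comp t))
        (s2.comp s1)))))

@[aesop safe 50 apply (transparency := reducible) (rule_sets := [Restrict])]
theorem cs_comms {c : A → ℕ} {Y : ∀ a, List (G a)} (hm : MulF G) (hi : InvF G) (hY : CS Y)
    (hc : CS c) : CS (fun a => comms (Y a) (c a)) :=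
  have t : CS (fun q : Σ p : (Σ a, List (G a)), G p.1 => q.1.1) := s1.comp s1
  have t' : CS (fun r : Σ q : (Σ p : (Σ a, List (G a)), G p.1), G q.1.1 => r.1.1.1) := t.comp s1
  have k1 : CS (fun (q : Σ p : (Σ a, List (G a)), G p.1) (y : G q.1.1) => ⁅q.2, y⁆) :=
    CS.lam (CS.commutator (hm.comp t') (hi.comp t') (s2.comp s1) s2)
  have k2 : CS (fun (p : Σ a, List (G a)) (z : G p.1) => (Y p.1).map fun y => ⁅z, y⁆) :=
    CS.lam (CS.map k1 (hY.comp t))
  have k3 : CS (fun a (Z : List (G a)) => Z.flatMap fun z => (Y a).map fun y => ⁅z, y⁆) :=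
    CS.lam (CS.flatMap k2 s2)
  (CS.iterate k3 hc hY).congr fun _ _ => rfl

end

@[aesop safe 50 apply (transparency := reducible) (rule_sets := [Restrict])]
theorem cs_gensL {b : A → ℕ} (hb : CS b) : CS (fun a => gensL (b a)) :=
  CS.append (CS.ofFn hb (CS.lam (CS.freeOf s2)))
    (CS.ofFn hb (CS.lam (CS.inv InvF.free (CS.freeOf s2))))

theorem KNilAux.cs_ncl {b : A → ℕ} {Y : ∀ a, List (Fr (b a))} (hb : CS b) (hY : CS Y) :
    CS (fun a => ncl (Y a)) :=
  CS.normalClosure (grpFr hb) (CS.setOf (CS.memList (grpFr (hb.comp s1)).disc s2 (hY.comp s1)))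

theorem KNilAux.cs_cert {b m c : A → ℕ} {X Y : ∀ a, List (Fr (b a))}
    {S : ∀ a, Subgroup (Fr (b a))} (hb : CS b) (hX : CS X) (hY : CS Y) (hm : CS m) (hc : CS c)
    (hS : CS S) : CS (fun a => CertA (X a) (Y a) (m a) (c a) (S a)) := by
  have hF := grpFr hb
  have hN := KNilAux.cs_ncl hb hY
  have hL : CS (fun a => gen (Y a) ⊔ ⁅ncl (Y a), ncl (Y a)⁆) := CS.subgroupSup hF
    (CS.closure hF (CS.setOf (CS.memList (grpFr (hb.comp s1)).disc s2 (hY.comp s1))))
    (CS.subgroupComm hF hN hN)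
  have t : CS (fun q : Σ p : (Σ a, Fr (b a)), Fr (b p.1) => q.1.1) := s1.comp s1
  have k : CS (fun q : Σ p : (Σ a, Fr (b a)), Fr (b p.1) => q.1.2 * q.2 * q.1.2⁻¹) :=
    CS.mul MulF.free (CS.mul MulF.free (s2.comp s1) s2) (CS.inv InvF.free (s2.comp s1))
  exact CS.and (CS.and (CS.lt LtF.nat CS.const hm) (CS.allMem hX (CS.allMem (hY.comp s1) (CS.and
      (CS.memSubgroup ((CS.subgroupSup hF hL hS).comp t)
        (CS.pow MulF.free OneF.free k (hm.comp t)))
      (CS.memSubgroup ((CS.subgroupSup hF (CS.subgroupSup hF hL (cs_pw hF hm hN)) hS).comp t)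
        k)))))
    (CS.allMem hX (CS.allMem (cs_comms MulF.free InvF.free
      (CS.append (hY.comp s1) (CS.map (CS.lam k) (hY.comp s1))) (hc.comp s1))
      (CS.memSubgroup (hS.comp t) s2)))

theorem cs_nil {p : A → Pres} {Y : ∀ a, List (Fr (p a).1)} (hp : CS p) (hY : CS Y)
    (hG : ∀ a, FinRank (p a).G) (hV : ∀ a, VAb (ncl (Y a) ⊔ (p a).S)) :
    CS (fun a => NilMod (ncl (Y a)) (p a).S) := by
  have t : CS (fun q : Σ a, List (Fr (p a).1) × ℕ × ℕ => q.1) := s1
  have hb := (pb hp).comp t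
  refine (CS.ex (P := fun a (x : List (Fr (p a).1) × ℕ × ℕ) => (∀ y ∈ x.1, y ∈ ncl (Y a)) ∧
      (∀ y ∈ Y a, y ∈ ncl x.1) ∧ CertA (gensL (p a).1) x.1 x.2.1 x.2.2 (p a).S)
    ((grpFr (pb hp)).enum.list.prod (Enum.nat.prod Enum.nat))
    (CS.and (CS.allMem s2.fst (CS.memSubgroup ((KNilAux.cs_ncl hb (hY.comp t)).comp s1) s2))
      (CS.and (CS.allMem (hY.comp t) (CS.memSubgroup ((KNilAux.cs_ncl hb s2.fst).comp s1) s2))
        (KNilAux.cs_cert hb (cs_gensL hb) s2.fst s2.snd.fst s2.snd.snd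
          ((CS.relS (pb hp) (pd hp) (pW hp)).comp t))))).of_iff fun a _ => ⟨?_, fun h => ?_⟩
  · rintro ⟨x, h1, h2, h3⟩
    have e : ncl x.1 = ncl (Y a) :=
      le_antisymm (Subgroup.normalClosure_le_normal h1) (Subgroup.normalClosure_le_normal h2)
    exact e ▸ nil_sound (mgen_gensL _) (hG a) (e ▸ hV a) h3
  · obtain ⟨Y', m, c, e, k⟩ := nil_complete (mgen_gensL _) (hG a) h
    exact ⟨(Y', m, c), fun y hy => e ▸ Subgroup.subset_normalClosure hy,
      fun y hy => e.symm ▸ Subgroup.subset_normalClosure hy, k⟩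

end Pool.Agent.P.MP_257122_al.K
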