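import Pool.Agent.P.MP_257122_al.KDefs
import Pool.Agent.P.MP_257122_al.CDer

/-!
# The lower central series of a described matrix group

PLAN.  Imitate `MV.der` in `CDer` (namespace `CDerAux`).  By `MV.iter` compute pairs `(Z', Y')` with
`Nrm Y'` and `U.lcs j = gen Z' ⊔ Y'`, where `U = gen Z ⊔ Y`.  Step: `⁅gen Z' ⊔ Y', gen Z ⊔ Y⁆` is the join of
`ncl {⁅z', z⁆}`, `ncl ⁅Z', Y⁆`, `ncl ⁅Z, Y'⁆` (`DS.commList`) and `⁅Y', Y⁆` (`DS.comm`); the first group is written as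
`gen Z'' ⊔ ncl W` with `W` unipotent by a search (as `Cert`, `exists_cert`, for the list of the `⁅z', z⁆`).
-/

namespace Pool.Agent.P.MP_257122_al.K

open Polynomial MonoidAlgebra C
open scoped commutatorElement Matrix

variable {A : Type} [Rep A] {m : A → Amb} {j : A → ℕ} {Z : ∀ a, List (GL (Fin (m a).1) ℚ)}
  {Y R : ∀ a, Subgroup (GL (Fin (m a).1) ℚ)}

namespace PairAux

open CDerAux FOpsAux

theorem key {G : Type} [Group G] {s : Set G} {L : Subgroup G}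
    (hL : ∀ g ∈ Subgroup.closure s, ∀ y ∈ L, g * y * g⁻¹ ∈ L) {y : G} (hy : ∀ x ∈ s, ⁅x, y⁆ ∈ L) :
    ∀ x ∈ Subgroup.closure s, ⁅x, y⁆ ∈ L := by
  intro x hx
  induction hx using Subgroup.closure_induction with
  | mem x hx => exact hy x hx
  | one => simp
  | mul a b ha _ h1 h2 =>
    rw [show ⁅a * b, y⁆ = a * ⁅b, y⁆ * a⁻¹ * ⁅a, y⁆ by simp only [commutatorElement_def]; group]
    exact mul_mem (hL a ha _ h2) h1
  | inv a ha h1 =>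
    rw [show ⁅a⁻¹, y⁆ = a⁻¹ * ⁅a, y⁆⁻¹ * a⁻¹⁻¹ by simp only [commutatorElement_def]; group]
    exact hL _ (inv_mem ha) _ (inv_mem h1)

theorem flip {G : Type} [Group G] {L : Subgroup G} {x y : G} (h : ⁅x, y⁆ ∈ L) : ⁅y, x⁆ ∈ L := by
  rw [← commutatorElement_inv]
  exact inv_mem h

theorem nrm_comm2 {m : Amb} {Y Y' : Subgroup (GL (Fin m.1) ℚ)} (h : m.Nrm Y) (h' : m.Nrm Y') :
    m.Nrm ⁅Y, Y'⁆ :=
  nrm_iff.2 ⟨(nrm_iff.1 h).1.comm (nrm_iff.1 h').1,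
    (Subgroup.commutator_le.2 fun _ hx _ hy => comm_mem (nrm_iff.1 h').1 (h.1 hx) hy).trans
      (nrm_iff.1 h').2⟩

theorem comm_eq2 {m : Amb} {S Z : List (GL (Fin m.1) ℚ)} {Y Y' : Subgroup (GL (Fin m.1) ℚ)}
    (hS : ∀ s ∈ S, s ∈ m.P) (hY : Nor m Y) (hY' : Nor m Y') (hU : Nor m (gen Z ⊔ Y)) :
    ⁅m.ncl {s | s ∈ S} ⊔ Y', gen Z ⊔ Y⁆ =
      m.ncl {w | w ∈ S.flatMap fun s => Z.map fun z => ⁅s, z⁆} ⊔
        (m.ncl {w | ∃ s ∈ S, ∃ y ∈ Y, ⁅s, y⁆ = w} ⊔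
          (m.ncl {w | ∃ z ∈ Z, ∃ y ∈ Y', ⁅z, y⁆ = w} ⊔ ⁅Y', Y⁆)) := by
  have hZ' : ∀ z ∈ Z, z ∈ gen Z ⊔ Y := fun z hz =>
    Subgroup.mem_sup_left (Subgroup.subset_closure hz)
  have hS' : ∀ s ∈ S, s ∈ m.ncl {s | s ∈ S} ⊔ Y' := fun s hs =>
    Subgroup.mem_sup_left (sub_ncl hs)
  have hD : Nor m (m.ncl {s | s ∈ S} ⊔ Y') := (nor_ncl hS).sup hY'
  have hC := hD.comm hU
  have a1 : ∀ w ∈ {w | w ∈ S.flatMap fun s => Z.map fun z => ⁅s, z⁆},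
      w ∈ ⁅m.ncl {s | s ∈ S} ⊔ Y', gen Z ⊔ Y⁆ := fun w hw => by
    obtain ⟨s, hs, hw⟩ := List.mem_flatMap.1 hw
    obtain ⟨z, hz, rfl⟩ := List.mem_map.1 hw
    exact Subgroup.commutator_mem_commutator (hS' s hs) (hZ' z hz)
  have a2 : ∀ w ∈ {w | ∃ s ∈ S, ∃ y ∈ Y, ⁅s, y⁆ = w},
      w ∈ ⁅m.ncl {s | s ∈ S} ⊔ Y', gen Z ⊔ Y⁆ := by
    rintro _ ⟨s, hs, y, hy, rfl⟩
    exact Subgroup.commutator_mem_commutator (hS' s hs) (Subgroup.mem_sup_right hy)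
  have a3 : ∀ w ∈ {w | ∃ z ∈ Z, ∃ y ∈ Y', ⁅z, y⁆ = w},
      w ∈ ⁅m.ncl {s | s ∈ S} ⊔ Y', gen Z ⊔ Y⁆ := by
    rintro _ ⟨z, hz, y, hy, rfl⟩
    exact flip (Subgroup.commutator_mem_commutator (Subgroup.mem_sup_right hy) (hZ' z hz))
  refine le_antisymm ?_ (sup_le (hC.ncl_le a1) (sup_le (hC.ncl_le a2) (sup_le (hC.ncl_le a3)
    (Subgroup.commutator_mono le_sup_right le_sup_right))))
  have hL := (nor_ncl fun w hw => hC.1 (a1 w hw)).sup ((nor_ncl fun w hw => hC.1 (a2 w hw)).sup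
    ((nor_ncl fun w hw => hC.1 (a3 w hw)).sup (hY'.comm hY)))
  have e : gen Z ⊔ Y = Subgroup.closure ({z | z ∈ Z} ∪ Y) := by
    rw [Subgroup.closure_union, Subgroup.closure_eq]
  have e' : m.ncl {s | s ∈ S} ⊔ Y' =
      Subgroup.closure ({y | ∃ g ∈ m.P, ∃ x ∈ {s | s ∈ S}, g * x * g⁻¹ = y} ∪ Y') := by
    rw [Subgroup.closure_union, Subgroup.closure_eq, Amb.ncl]
  refine Subgroup.commutator_le.2 fun x hx u hu =>
    key (fun g hg => hL.2 g (hD.1 (e'.ge hg))) ?_ x (e'.le hx)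
  rintro t (⟨g, hg, s, hs, rfl⟩ | ht)
  · rw [show ⁅g * s * g⁻¹, u⁆ = g * ⁅s, g⁻¹ * u * g⁻¹⁻¹⁆ * g⁻¹ by
      simp only [commutatorElement_def]; group]
    refine hL.2 g hg _ (flip (key (fun g hg => hL.2 g (hU.1 (e.ge hg))) ?_ _
      (e.le (hU.2 _ (inv_mem hg) u hu))))
    rintro z (hz | hz)
    · exact flip (Subgroup.mem_sup_left (sub_ncl
        (List.mem_flatMap.2 ⟨s, hs, List.mem_map.2 ⟨z, hz, rfl⟩⟩)))
    · exact flip (Subgroup.mem_sup_right (Subgroup.mem_sup_left (sub_ncl ⟨s, hs, z, hz, rfl⟩)))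
  · refine flip (key (fun g hg => hL.2 g (hU.1 (e.ge hg))) ?_ _ (e.le hu))
    rintro z (hz | hz)
    · exact Subgroup.mem_sup_right (Subgroup.mem_sup_right (Subgroup.mem_sup_left
        (sub_ncl ⟨z, hz, t, ht, rfl⟩)))
    · exact flip (Subgroup.mem_sup_right (Subgroup.mem_sup_right (Subgroup.mem_sup_right
        (Subgroup.commutator_mem_commutator ht hz))))

theorem step {S : ∀ a, List (GL (Fin (m a).1) ℚ)} {Y' : ∀ a, Subgroup (GL (Fin (m a).1) ℚ)}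
    (hm : CS m) (hok : ∀ a, (m a).ok) (hZ : CS Z) (hY : DS m Y) (hYN : ∀ a, (m a).Nrm (Y a))
    (hD : ∀ a, Nor (m a) (gen (Z a) ⊔ Y a)) (hS : CS S) (hSP : ∀ a, ∀ s ∈ S a, s ∈ (m a).P)
    (hY' : DS m Y') (hYN' : ∀ a, (m a).Nrm (Y' a)) :
    MV (fun a (q : List (GL (Fin (m a).1) ℚ) × DG (m a)) => (∀ s ∈ q.1, s ∈ (m a).P) ∧
      (m a).Nrm q.2 ∧ ⁅(m a).ncl {s | s ∈ S a} ⊔ Y' a, gen (Z a) ⊔ Y a⁆ =
        (m a).ncl {z | z ∈ q.1} ⊔ (show Subgroup _ from q.2)) := by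
  have hZP : ∀ a, ∀ z ∈ Z a, z ∈ (m a).P := fun a z hz =>
    (hD a).1 (Subgroup.mem_sup_left (Subgroup.subset_closure hz))
  have n1 := fun a => nrm_commList (hok a) (hYN a) (hSP a)
  have n2 := fun a => nrm_commList (hok a) (hYN' a) (hZP a)
  have n3 := fun a => nrm_comm2 (hYN' a) (hYN a)
  have h := DS.sup hm hok (DS.commList hm hok hS hSP hY hYN) (DS.sup hm hok
    (DS.commList hm hok hZ hZP hY' hYN') (DS.comm hm hok hY' hY hYN' hYN) n2 n3) n1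
    fun a => nrm_sup (n2 a) (n3 a)
  have hG := (grp hm).comp (s1.comp (s1 (β := fun p : Σ a, GL (Fin (m a).1) ℚ =>
    GL (Fin (m p.1).1) ℚ)))
  have hl : CS (fun a => (S a).flatMap fun s => (Z a).map fun z => ⁅s, z⁆) :=
    CS.flatMap (CS.lam (CS.map (CS.lam (CS.commutator hG.mul hG.inv (s2.comp s1) s2))
      (hZ.comp s1))) hS
  refine MV.of_cs (CS.pair (β := fun a => DG (m a)) hl h) fun a _ =>
    ⟨fun w hw => ?_, nrm_sup (n1 a) (nrm_sup (n2 a) (n3 a)),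
      comm_eq2 (hSP a) (nrm_iff.1 (hYN a)).1 (nrm_iff.1 (hYN' a)).1 (hD a)⟩
  obtain ⟨s, hs, hw⟩ := List.mem_flatMap.1 hw
  obtain ⟨z, hz, rfl⟩ := List.mem_map.1 hw
  exact comm_mem nor_P (hSP a s hs) (hZP a z hz)

theorem lcs (hm : CS m) (hok : ∀ a, (m a).ok) (hj : CS j) (hZ : CS Z) (hY : DS m Y)
    (hYN : ∀ a, (m a).Nrm (Y a)) (hD : ∀ a, Nor (m a) (gen (Z a) ⊔ Y a)) :
    MV (fun a (r : List (GL (Fin (m a).1) ℚ) × DG (m a)) => (∀ s ∈ r.1, s ∈ (m a).P) ∧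
      (m a).Nrm r.2 ∧ (gen (Z a) ⊔ Y a).lowerCentralSeries (j a) =
        (m a).ncl {z | z ∈ r.1} ⊔ (show Subgroup _ from r.2)) := by
  refine MV.iter (T := fun a _ => List (GL (Fin (m a).1) ℚ) × DG (m a))
    (P := fun a j r => (∀ s ∈ r.1, s ∈ (m a).P) ∧ (m a).Nrm r.2 ∧
      (gen (Z a) ⊔ Y a).lowerCentralSeries j =
        (m a).ncl {z | z ∈ r.1} ⊔ (show Subgroup _ from r.2)) ?_ ?_ hj
  · exact MV.of_cs (CS.pair (β := fun a => DG (m a)) hZ hY) fun a _ =>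
      ⟨fun z hz => (hD a).1 (Subgroup.mem_sup_left (Subgroup.subset_closure hz)), hYN a,
        (ncl_sup_eq (hD a) rfl).symm⟩
  · have h2 := FEnumAux.s2 (v2 (A := A)
      (β := fun a => Σ _ : ℕ, List (GL (Fin (m a).1) ℚ) × DG (m a))
      (Q := fun p => (∀ s ∈ p.2.2.1, s ∈ (m p.1).P) ∧ (m p.1).Nrm p.2.2.2 ∧
        (gen (Z p.1) ⊔ Y p.1).lowerCentralSeries p.2.1 =
          (m p.1).ncl {z | z ∈ p.2.2.1} ⊔ (show Subgroup _ from p.2.2.2)))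
    refine (step (hm.comp v1) (fun p => hok _) (hZ.comp v1) (hY.comp v1) (fun p => hYN _)
      (fun p => hD _) h2.fst (fun p => p.2.1) h2.snd fun p => p.2.2.1).mono
      fun p q _ _ h => ⟨h.1, h.2.1, ?_⟩
    rw [Subgroup.lowerCentralSeries_succ, p.2.2.2]
    exact h.2.2

end PairAux

theorem cs_lcsLe (hm : CS m) (hok : ∀ a, (m a).ok) (hN : ∀ a, (m a).Noeth) (hj : CS j)
    (hZ : CS Z) (hY : DS m Y) (hYN : ∀ a, (m a).Nrm (Y a))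
    (hD : ∀ a, CDerAux.Nor (m a) (gen (Z a) ⊔ Y a)) (hR : DS m R)
    (hRN : ∀ a, (m a).Nrm (R a)) :
    CS (fun a => (gen (Z a) ⊔ Y a).lowerCentralSeries (j a) ≤ R a) := by
  refine (PairAux.lcs hm hok hj hZ hY hYN hD).elim (CS.of_iff (CS.and
    (CDerAux.allY (hm.comp FOpsAux.v1) (fun p => hok _) FOpsAux.v2.fst (hR.comp FOpsAux.v1)
      fun p => hRN _)
    (DS.le (hm.comp FOpsAux.v1) (fun p => hok _) FOpsAux.v2.snd (hR.comp FOpsAux.v1)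
      (fun p => p.2.2.1) fun p => hRN _)) fun p _ => ?_)
  rw [p.2.2.2, sup_le_iff]
  exact and_congr ⟨fun h => (CDerAux.nrm_iff.1 (hRN _)).1.ncl_le h,
    fun h z hz => h (CDerAux.sub_ncl hz)⟩ Iff.rfl

end Pool.Agent.P.MP_257122_al.K
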