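import Pool.Agent.P.MP_257122_al.KDefs
import Pool.Agent.P.MP_257122_al.CBas

/-!
# Group rings: logarithms, kernels

PLAN.  `exists_log`: for `φ : G → Matrix` let `L φ` be its additive extension to `ℤ[G]` and call `φ` good of level
`j` if `L φ` maps `aug ⊤ ^ m` into `fil wt (j + m)` for all `m`.  With `(D y φ) h = φ (h y) - φ h` one has
`L φ (x * (of y - 1)) = L (D y φ) x`; so define goodness to depth `d` by recursion (`φ h ∈ fil wt j` and all `D y φ`
good of level `j + 1` to depth `d - 1`).  It is stable under sums, scalars, translations, and products by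
`D y (φ ψ) h = D y φ h * ψ (h y) + φ h * D y ψ h`; constants and `ρ` are good of level `0`
(`D y ρ h = ρ h * (ρ y - 1)`).  So `lg c ∘ ρ` is good, and `fil wt c = 0`.
`ker_gmap`: choose a section `s` of `f` on `K.map f` with values in `K`; the linear map `of h ↦ of (s (f h))`
factors through `gmap R f` and is congruent to the identity on `zs R K`.
`aug_pow_fg`: `Submodule.pow_induction_on_left'` or a directed union.
`aug_sq`: `exists_sec N`, extend `δ` linearly.   `dim_of_adapt`: the algebra homomorphism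
`ℤ[G] → Matrix` maps `aug N ^ m` into `fil wt m`.
-/

namespace Pool.Agent.P.MP_257122_al.K

open Polynomial MonoidAlgebra C
open scoped commutatorElement Matrix

variable {R G H : Type} [CommRing R] [Group G] [Group H] {N K : Subgroup G} {n c k : ℕ}
  {wt : Fin n → ℕ}

namespace KLogAux

/-- Differences of order at most `d` raise the weight accordingly. -/
def DGood (wt : Fin n → ℕ) : ℕ → ℕ → (G → Matrix (Fin n) (Fin n) ℚ) → Prop := fun d =>
  Nat.rec (motive := fun _ => ℕ → (G → Matrix (Fin n) (Fin n) ℚ) → Prop)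
    (fun j φ => ∀ h, φ h ∈ fil wt j)
    (fun _ P j φ => (∀ h, φ h ∈ fil wt j) ∧ ∀ y, P (j + 1) fun h => φ (h * y) - φ h) d

variable {d i j : ℕ} {φ ψ : G → Matrix (Fin n) (Fin n) ℚ}

theorem good_zero : DGood wt 0 j φ ↔ ∀ h, φ h ∈ fil wt j := Iff.rfl

theorem good_succ : DGood wt (d + 1) j φ ↔
    (∀ h, φ h ∈ fil wt j) ∧ ∀ y, DGood wt d (j + 1) fun h => φ (h * y) - φ h := Iff.rfl

theorem DGood.down (h : DGood wt (d + 1) j φ) : DGood wt d j φ := by
  induction d generalizing j φ with
  | zero => exact h.1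
  | succ d ih => exact ⟨h.1, fun y => ih (h.2 y)⟩

theorem DGood.congr (h : DGood wt d j φ) (e : ∀ g, ψ g = φ g) : DGood wt d j ψ :=
  (funext e : ψ = φ) ▸ h

theorem good_const {x : Matrix (Fin n) (Fin n) ℚ} (hx : x ∈ fil wt j) :
    DGood wt d j fun _ : G => x := by
  induction d generalizing j x with
  | zero => exact fun _ => hx
  | succ d ih => exact ⟨fun _ => hx, fun _ => ih (by rw [sub_self]; exact zero_mem _)⟩

theorem DGood.add (h : DGood wt d j φ) (h' : DGood wt d j ψ) : DGood wt d j fun g => φ g + ψ g := by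
  induction d generalizing j φ ψ with
  | zero => exact fun g => add_mem (h g) (h' g)
  | succ d ih =>
    exact ⟨fun g => add_mem (h.1 g) (h'.1 g),
      fun y => (ih (h.2 y) (h'.2 y)).congr fun g => add_sub_add_comm _ _ _ _⟩

theorem DGood.smul (h : DGood wt d j φ) (q : ℚ) : DGood wt d j fun g => q • φ g := by
  induction d generalizing j φ with
  | zero => exact fun g => Submodule.smul_mem _ _ (h g)
  | succ d ih =>
    exact ⟨fun g => Submodule.smul_mem _ _ (h.1 g),
      fun y => (ih (h.2 y)).congr fun g => (smul_sub _ _ _).symm⟩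

theorem DGood.shift (h : DGood wt d j φ) (y : G) : DGood wt d j fun g => φ (g * y) := by
  induction d generalizing j φ with
  | zero => exact fun g => h _
  | succ d ih =>
    refine ⟨fun g => h.1 _, fun z => (ih (h.2 (y⁻¹ * z * y))).congr fun g => ?_⟩
    have e : g * y * (y⁻¹ * z * y) = g * z * y := by group
    rw [e]

theorem DGood.mul (h : DGood wt d i φ) (h' : DGood wt d j ψ) :
    DGood wt d (i + j) fun g => φ g * ψ g := by
  induction d generalizing i j φ ψ with
  | zero => exact fun g => fil_mul (h g) (h' g)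
  | succ d ih =>
    refine ⟨fun g => fil_mul (h.1 g) (h'.1 g), fun y => ?_⟩
    have h1 := ih (h.2 y) (h'.down.shift y)
    have h2 := ih h.down (h'.2 y)
    rw [add_right_comm] at h1
    exact (h1.add h2).congr fun g => by noncomm_ring

theorem DGood.pow (h : DGood wt d 0 φ) (m : ℕ) : DGood wt d 0 fun g => φ g ^ m := by
  induction m with
  | zero => exact (good_const one_mem_fil).congr fun g => pow_zero _
  | succ m ih => exact (ih.mul h).congr fun g => pow_succ _ _

theorem good_sum {ι : Type} (s : Finset ι) (F : ι → G → Matrix (Fin n) (Fin n) ℚ)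
    (h : ∀ a ∈ s, DGood wt d j (F a)) : DGood wt d j fun g => ∑ a ∈ s, F a g := by
  classical
  induction s using Finset.induction_on with
  | empty => exact (good_const (zero_mem _)).congr fun g => Finset.sum_empty
  | insert a s ha ih =>
    exact ((h a (Finset.mem_insert_self _ _)).add
      (ih fun b hb => h b (Finset.mem_insert_of_mem hb))).congr fun g => Finset.sum_insert ha

theorem good_rho {ρ : G →* GL (Fin n) ℚ} (h : Adapt wt c ρ ⊤) :
    DGood wt d 0 fun g => (ρ g).val := by
  induction d with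
  | zero => exact fun g => (h.2.1 g).1
  | succ d ih =>
    refine ⟨fun g => (h.2.1 g).1, fun y => (ih.mul (good_const (h.2.2 y trivial))).congr fun g => ?_⟩
    dsimp only
    rw [map_mul, Units.val_mul, mul_sub, mul_one]

/-- The linear extension of a function on the group. -/
noncomputable def ext (R : Type) [CommRing R] {V : Type} [AddCommGroup V] [Module R V]
    (φ : G → V) : MonoidAlgebra R G →ₗ[R] V := (MonoidAlgebra.basis G R).constr R φ

theorem ext_of {V : Type} [AddCommGroup V] [Module R V] (φ : G → V) (g : G) :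
    ext R φ (of R G g) = φ g := (MonoidAlgebra.basis G R).constr_basis R φ g

theorem ext_mul {V : Type} [AddCommGroup V] [Module R V] (φ : G → V) (y : G)
    (a : MonoidAlgebra R G) :
    ext R φ (a * (of R G y - 1)) = ext R (fun g => φ (g * y) - φ g) a := by
  induction a using MonoidAlgebra.induction_on with
  | of g => rw [mul_sub, mul_one, ← map_mul, map_sub, ext_of, ext_of, ext_of]
  | add a b ha hb => rw [add_mul, map_add, map_add, ha, hb]
  | smul q a ha => rw [smul_mul_assoc, map_smul, map_smul, ha]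

theorem DGood.ext_mem (h : DGood wt d j φ) {x : MonoidAlgebra ℤ G}
    (hx : x ∈ aug ℤ (⊤ : Subgroup G) ^ d) : ext ℤ φ x ∈ fil wt (j + d) := by
  induction d generalizing j φ x with
  | zero =>
    clear hx
    induction x using MonoidAlgebra.induction_on with
    | of g => rw [ext_of]; exact h g
    | add a b ha hb => rw [map_add]; exact add_mem ha hb
    | smul q a ha => rw [map_smul]; exact zsmul_mem ha q
  | succ d ih =>
    rw [pow_succ] at hx
    refine Submodule.mul_induction_on hx (fun a ha b hb => ?_) fun a b ha hb => ?_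
    · induction hb using Submodule.span_induction with
      | mem b hb =>
        obtain ⟨y, -, rfl⟩ := hb
        rw [ext_mul, ← add_assoc, add_right_comm]
        exact ih (h.2 y) ha
      | zero => rw [mul_zero, map_zero]; exact zero_mem _
      | add b b' _ _ h1 h2 => rw [mul_add, map_add]; exact add_mem h1 h2
      | smul q b _ h1 => rw [mul_smul_comm, map_smul]; exact zsmul_mem h1 q
    · rw [map_add]; exact add_mem ha hb

theorem gen_left (Y Y' : List G) : gen Y ≤ gen (Y ++ Y') :=
  Subgroup.closure_mono fun _ h => List.mem_append_left _ h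

theorem gen_right (Y Y' : List G) : gen Y' ≤ gen (Y ++ Y') :=
  Subgroup.closure_mono fun _ h => List.mem_append_right _ h

theorem aug_fg {x : MonoidAlgebra R G} (hx : x ∈ aug R N) :
    ∃ Y : List G, (∀ y ∈ Y, y ∈ N) ∧ x ∈ aug R (gen Y) := by
  induction hx using Submodule.span_induction with
  | mem x hx =>
    obtain ⟨y, hy, rfl⟩ := hx
    exact ⟨[y], fun z hz => List.mem_singleton.1 hz ▸ hy,
      sub_mem_aug (Subgroup.subset_closure (List.mem_singleton_self y))⟩
  | zero => exact ⟨[], fun _ h => absurd h List.not_mem_nil, zero_mem _⟩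
  | add a b _ _ ha hb =>
    obtain ⟨Y, h1, h2⟩ := ha
    obtain ⟨Y', h3, h4⟩ := hb
    exact ⟨Y ++ Y', fun y hy => (List.mem_append.1 hy).elim (h1 y) (h3 y),
      add_mem (aug_mono (gen_left Y Y') h2) (aug_mono (gen_right Y Y') h4)⟩
  | smul q a _ ha =>
    obtain ⟨Y, h1, h2⟩ := ha
    exact ⟨Y, h1, Submodule.smul_mem _ _ h2⟩

end KLogAux

open KLogAux

theorem exists_log {ρ : G →* GL (Fin n) ℚ} (h : Adapt wt c ρ ⊤) :
    ∃ Λ : MonoidAlgebra ℤ G →+ Matrix (Fin n) (Fin n) ℚ, (∀ g, Λ (of ℤ G g) = lg c (ρ g).val) ∧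
      ∀ x ∈ aug ℤ (⊤ : Subgroup G) ^ c, Λ x = 0 := by
  have h1 : DGood wt c 0 fun g => (ρ g).val - 1 :=
    ((good_rho h).add (good_const (neg_mem one_mem_fil))).congr fun g => sub_eq_add_neg _ _
  have h2 : DGood wt c 0 fun g => lg c (ρ g).val :=
    good_sum (Finset.range c) _ fun k _ => (h1.pow (k + 1)).smul _
  exact ⟨(ext ℤ fun g => lg c (ρ g).val).toAddMonoidHom, fun g => ext_of _ g,
    fun x hx => fil_zero h.1 (Nat.le_add_left _ _) (h2.ext_mem hx)⟩

theorem ker_gmap (f : G →* H) {x : MonoidAlgebra R G} (hx : x ∈ zs R K) (h : gmap R f x = 0) :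
    x ∈ zs R K * aug R (K ⊓ f.ker) := by
  have hs : ∀ y : H, ∃ g : G, y ∈ K.map f → g ∈ K ∧ f g = y := by
    intro y
    by_cases hy : y ∈ K.map f
    · obtain ⟨g, hg⟩ := hy
      exact ⟨g, fun _ => hg⟩
    · exact ⟨1, fun h => (hy h).elim⟩
  choose s hs using hs
  have key : x - ext R (fun y => of R G (s y)) (gmap R f x) ∈ zs R K * aug R (K ⊓ f.ker) := by
    clear h
    induction hx using Submodule.span_induction with
    | mem x hx =>
      obtain ⟨g, hg, rfl⟩ := hx
      obtain ⟨h1, h2⟩ := hs (f g) ⟨g, hg, rfl⟩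
      have e : of R G g - of R G (s (f g)) = of R G (s (f g)) * (of R G ((s (f g))⁻¹ * g) - 1) := by
        rw [mul_sub, ← map_mul, mul_inv_cancel_left, mul_one]
      rw [gmap_of, ext_of, e]
      refine Submodule.mul_mem_mul (of_mem_zs h1) (sub_mem_aug ⟨K.mul_mem (K.inv_mem h1) hg, ?_⟩)
      exact MonoidHom.mem_ker.2 (by rw [map_mul, map_inv, h2, inv_mul_cancel])
    | zero => rw [map_zero, map_zero, sub_zero]; exact zero_mem _
    | add a b _ _ ha hb => rw [map_add, map_add, add_sub_add_comm]; exact add_mem ha hb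
    | smul q a _ ha => rw [map_smul, map_smul, ← smul_sub]; exact Submodule.smul_mem _ _ ha
  rwa [h, map_zero, sub_zero] at key

theorem aug_pow_fg {x : MonoidAlgebra R G} (hx : x ∈ aug R N ^ k) :
    ∃ Y : List G, (∀ y ∈ Y, y ∈ N) ∧ x ∈ aug R (gen Y) ^ k := by
  induction hx using Submodule.pow_induction_on_left' with
  | algebraMap r =>
    exact ⟨[], fun _ h => absurd h List.not_mem_nil, by
      rw [pow_zero]; exact Submodule.algebraMap_mem r⟩
  | add a b i _ _ ha hb =>
    obtain ⟨Y, h1, h2⟩ := ha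
    obtain ⟨Y', h3, h4⟩ := hb
    exact ⟨Y ++ Y', fun y hy => (List.mem_append.1 hy).elim (h1 y) (h3 y),
      add_mem (pow_le_pow_left' (aug_mono (gen_left Y Y')) i h2)
        (pow_le_pow_left' (aug_mono (gen_right Y Y')) i h4)⟩
  | mem_mul m hm i a _ ha =>
    obtain ⟨Y, h1, h2⟩ := aug_fg hm
    obtain ⟨Y', h3, h4⟩ := ha
    refine ⟨Y ++ Y', fun y hy => (List.mem_append.1 hy).elim (h1 y) (h3 y), ?_⟩
    rw [pow_succ']
    exact Submodule.mul_mem_mul (aug_mono (gen_left Y Y') h2)
      (pow_le_pow_left' (aug_mono (gen_right Y Y')) i h4)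

theorem aug_sq [N.Normal] {y : G} (hy : y ∈ N) (h : of ℚ G y - 1 ∈ aug ℚ N ^ 2) :
    ∃ m, 0 < m ∧ y ^ m ∈ ⁅N, N⁆ := by
  obtain ⟨V, _, _, act, δ, h1, h2, -⟩ := exists_sec N
  have h3 : aug ℚ N ^ 2 ≤ LinearMap.ker (ext ℚ δ) := by
    rw [pow_two, aug, Submodule.span_mul_span, Submodule.span_le]
    rintro _ ⟨_, ⟨a, ha, rfl⟩, _, ⟨b, hb, rfl⟩, rfl⟩
    refine LinearMap.mem_ker.2 ?_
    dsimp only
    rw [ext_mul, map_sub, ← map_one (of ℚ G), ext_of, ext_of, h1.1 a ha b hb, one_mul, h1.one]
    abel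
  have h4 := LinearMap.mem_ker.1 (h3 h)
  rw [map_sub, ← map_one (of ℚ G), ext_of, ext_of, h1.one, sub_zero] at h4
  exact (h2 y hy).1 h4

theorem dim_of_adapt {σ : G →* GL (Fin n) ℚ} (h : Adapt wt c σ N) : Dim N σ.ker c := by
  intro g _ hx
  let Φ : MonoidAlgebra ℤ G →ₐ[ℤ] Matrix (Fin n) (Fin n) ℚ :=
    MonoidAlgebra.lift ℤ (Matrix (Fin n) (Fin n) ℚ) G ((Units.coeHom _).comp σ)
  have hΦ : ∀ y, Φ (of ℤ G y) = (σ y).val := fun y => MonoidAlgebra.lift_of _ y
  have h1 : ∀ x ∈ aug ℤ N, Φ x ∈ fil wt 1 := by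
    intro x hx
    induction hx using Submodule.span_induction with
    | mem x hx =>
      obtain ⟨y, hy, rfl⟩ := hx
      rw [map_sub, map_one, hΦ]
      exact h.2.2 y hy
    | zero => rw [map_zero]; exact zero_mem _
    | add a b _ _ ha hb => rw [map_add]; exact add_mem ha hb
    | smul q a _ ha => rw [map_zsmul]; exact zsmul_mem ha q
  have h2 : ∀ m, ∀ x ∈ aug ℤ N ^ m, Φ x ∈ fil wt m := by
    intro m x hx
    induction hx using Submodule.pow_induction_on_right' with
    | algebraMap r => rw [AlgHom.commutes, Algebra.algebraMap_eq_smul_one]; exact zsmul_mem one_mem_fil r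
    | add a b i _ _ ha hb => rw [map_add]; exact add_mem ha hb
    | mul_mem i a _ ha m hm => rw [map_mul]; exact fil_mul ha (h1 m hm)
  have h3 : ∀ x ∈ aug ℤ σ.ker, Φ x = 0 := by
    intro x hx
    induction hx using Submodule.span_induction with
    | mem x hx =>
      obtain ⟨y, hy, rfl⟩ := hx
      rw [map_sub, map_one, hΦ, MonoidHom.mem_ker.1 hy, Units.val_one, sub_self]
    | zero => rw [map_zero]
    | add a b _ _ ha hb => rw [map_add, ha, hb, add_zero]
    | smul q a _ ha => rw [map_zsmul, ha, smul_zero]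
  obtain ⟨a, ha, b, hb, e⟩ := Submodule.mem_sup.1 hx
  have h4 : Φ b = 0 := by
    refine Submodule.mul_induction_on hb (fun x _ y hy => ?_) fun x y hx hy => ?_
    · rw [map_mul, h3 y hy, mul_zero]
    · rw [map_add, hx, hy, add_zero]
  have h5 := congrArg Φ e
  rw [map_add, h4, fil_zero h.1 (Nat.le_succ c) (h2 _ a ha), add_zero, map_sub, map_one, hΦ] at h5
  exact MonoidHom.mem_ker.2 (Units.ext (sub_eq_zero.1 h5.symm))

end Pool.Agent.P.MP_257122_al.K
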