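import Pool.Agent.P.MP_257122_al.CSer

/-!
# Roots and dimension subgroups in unipotent groups
-/

namespace Pool.Agent.P.MP_257122_al.K

open C

variable {n c D : ℕ} {wt : Fin n → ℕ} {R Y : Subgroup (GL (Fin n) ℚ)}
  (h : PL c D) (hc : ∀ i, wt i < c) (hY : ∀ y ∈ Y, IsUni wt y)
include h hc hY

theorem un_add {y : GL (Fin n) ℚ} (hy : y ∈ Y) {x : Matrix (Fin n) (Fin n) ℚ}
    (hx : x ∈ logSpan c Y) : ∃ e ∈ Y, lg c e.val = lg c y.val + D ^ (2 * c) • x := by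
  obtain ⟨e, h1, h2⟩ := s8 h hc hY 1 hy hx
  exact ⟨y * e, mul_mem hy (pw_le _ _ h1), by rw [h2, mul_one]⟩

theorem un_root (k : ℕ) {g : GL (Fin n) ℚ} (hg : g ∈ pw (D ^ (2 * c + 1) * k) Y) :
    ∃ y ∈ Y, y ^ k = g := by
  rw [pow_succ', mul_assoc] at hg
  obtain ⟨v, hv, e⟩ := s7 h hc hY _ hg 1 (one_mem _)
  obtain ⟨y, h1, h2⟩ := un_add h hc hY (one_mem Y) hv
  refine ⟨y, h1, lg_inj hc (hY _ (pow_mem h1 k)) (hY _ (pw_le _ _ hg)) ?_⟩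
  rw [one_mul] at e
  rw [lg_pow hc (hY _ h1), h2, e, Units.val_one, lg_one, zero_add, zero_add, mul_nsmul]

theorem un_sj (hR : NIn R Y) {x : Matrix (Fin n) (Fin n) ℚ} (hx : x ∈ dl c Y R) :
    ∃ r ∈ R, lg c r.val = D ^ (3 * c) • x := by
  have hu : ∀ r ∈ R, IsUni wt r := fun r hr => hY r (hR.1 hr)
  obtain ⟨r, h1, h2⟩ := un_add h hc hu (one_mem R) (s2 h hc hY c R 0 hR hu (by omega) x hx)
  refine ⟨r, h1, ?_⟩
  rw [h2, Units.val_one, lg_one, zero_add, ← mul_nsmul', ← pow_add]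
  congr 2
  omega

theorem un_small (hR : NIn R Y) {g r : GL (Fin n) ℚ} (hg : g ∈ pw (D ^ (5 * c + 3)) Y)
    (hr : r ∈ R) :
    ∃ w ∈ logSpan c R, lg c (r * g).val = lg c r.val + lg c g.val + D ^ (2 * c) • w := by
  rw [show 5 * c + 3 = 2 * c + 1 + (1 + (c + 1 + 2 * c)) by omega, pow_add] at hg
  obtain ⟨y, hy, rfl⟩ := un_root h hc hY _ hg
  obtain ⟨v, hv, e⟩ := h.dvd hc (hY r (hR.1 hr)) (hY y hy) uni_one
    (M := dv (D ^ (c + 1)) (logSpan c R)) (z := lg c y.val) (fun j => by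
      have h1 : (y ^ j)⁻¹ * r * (y ^ j)⁻¹⁻¹ ∈ R := hR.2 _ (inv_mem (pow_mem hy j)) r hr
      have h2 := span_mono hR.comm_le (s3 h hc hY hR (pow_mem hy j) h1)
      rw [show y ^ j * ((y ^ j)⁻¹ * r * (y ^ j)⁻¹⁻¹) = r * y ^ j by group,
        lg_pow hc (hY y hy)] at h2
      rw [one_pow, mul_one, mem_dv]
      have h3 := add_mem h2 (nsmul_mem (sub_mem (lg_mem_span (c := c) h1) (lg_mem_span hr))
        (D ^ (c + 1)))
      rwa [← smul_add, sub_add_sub_cancel, sub_right_comm] at h3) (D ^ (c + 1 + 2 * c))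
  refine ⟨_, mem_dv.1 hv, ?_⟩
  rw [one_pow, mul_one, ← pow_succ', add_comm _ 1] at e
  rw [lg_pow hc (hY y hy), ← mul_nsmul, ← pow_add, ← e]
  abel

theorem un_k3 (hR : NIn R Y) {x : Matrix (Fin n) (Fin n) ℚ}
    (hx : x ∈ dl c (pw (D ^ (5 * c + 3)) Y) (R ⊓ pw (D ^ (5 * c + 3)) Y)) :
    ∃ r ∈ R, lg c r.val = x := by
  have hu : ∀ r ∈ R, IsUni wt r := fun r hr => hY r (hR.1 hr)
  suffices ∃ r ∈ R ⊓ pw (D ^ (5 * c + 3)) Y, ∃ w ∈ logSpan c R,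
      lg c r.val + D ^ (2 * c) • w = x by
    obtain ⟨r, hr, w, hw, rfl⟩ := this
    exact un_add h hc hu hr.1 hw
  induction hx using AddSubgroup.closure_induction with
  | mem x hx =>
    obtain ⟨g, hg, r, hr, rfl⟩ := hx
    have h1 := hR.2 g (pw_le _ _ hg) r hr.1
    obtain ⟨w, hw, e⟩ := un_small h hc hY hR hg h1
    rw [inv_mul_cancel_right] at e
    exact ⟨_, Subgroup.mem_inf.2 ⟨h1, mul_mem (mul_mem hg hr.2) (inv_mem hg)⟩, w, hw,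
      by rw [e]; abel⟩
  | zero => exact ⟨1, one_mem _, 0, zero_mem _, by simp [lg_one]⟩
  | add x y _ _ a b =>
    obtain ⟨p, hp, u, hu, rfl⟩ := a
    obtain ⟨q, hq, v, hv, rfl⟩ := b
    obtain ⟨w, hw, e⟩ := un_small h hc hY hR hq.2 hp.1
    exact ⟨p * q, mul_mem hp hq, u + v - w, sub_mem (add_mem hu hv) hw, by rw [e]; module⟩
  | neg x _ a =>
    obtain ⟨p, hp, u, hu', rfl⟩ := a
    exact ⟨p⁻¹, inv_mem hp, -u, neg_mem hu', by rw [lg_inv hc (hu p hp.1)]; module⟩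

end Pool.Agent.P.MP_257122_al.K
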