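import Pool.Agent.P.MP_257122_al.KDsw
import Pool.Agent.P.MP_257122_al.KLog
import Pool.Agent.P.MP_257122_al.KRat
import Pool.Agent.P.MP_257122_al.KUn

/-!
# Dimension subgroups of nilpotent groups

PLAN.  Let `D b = {x : Fr b | of x - 1 ∈ aug ℤ ⊤ ^ (c + 1)}`; it is stable under endomorphisms (`gmap_aug_pow`)
and powers.  Iterating `dsw` (`aug_pow_anti`): `x ∈ D b` gives `x ^ m ! ∈ lcs m` for `m ≤ c`; and with
`φ = FreeGroup.lift fun i => of i ^ c !` (`hom_pow_lcs` with `n = c !`, `dsw`) `φ^[m] x ∈ lcs m` for `m ≤ c`.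
`exists_cov`: collect the finitely many `y ∈ N₀` whose powers are needed in a list `Y`,
`π₀ = lift Y.get`, `π = π₀ ∘ φ^[c]`, `π (of i ^ k) = y i ^ (c ! ^ c * k)`.
All three theorems use `ρ` from `exists_w0 b c`, `Λ` from `exists_log`, `PL (c + 1) (dn (c + 1))` (`pl_dn`), `Y = ρ.range`,
`R = π.ker.map ρ`.
`dim_pw`: `aug_pow_fg` gives a finite list `s`; apply `exists_cov` to `g :: s`; `K = pw k ⊤`, `g = π g'`, `g' ∈ K`,
`of g - 1 = gmap π a` with `a ∈ aug K ^ (c + 1)` (`map_aug`, `Submodule.map_pow`); `ker_gmap` for `of g' - 1 - a`; so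
`lg (ρ g') = Λ (of g' - 1 - a)` lies in `dl (pw k Y) (R ⊓ pw k Y)` (`pwMap`); `un_k3`, `lg_inj` give `ρ g' = ρ r`,
`r ∈ ker π`, so `g' r⁻¹ ∈ D b ≤ ker π`.
`sjogren`: the same with `π₀` and `un_sj`, `lg_pow`: `g' ^ m = z r`, `z ∈ D b`, and `π₀ z ^ c ! = 1`.
`pow_root`: `exists_cov`, `un_root`.
-/

namespace Pool.Agent.P.MP_257122_al.K

open Polynomial MonoidAlgebra C
open scoped commutatorElement Matrix

/-- The exponent that makes dimension subgroups trivial. -/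
def q3 (c : ℕ) : ℕ := c.factorial ^ c * dn (c + 1) ^ (5 * (c + 1) + 3)

theorem q3_pos (c : ℕ) : 0 < q3 c :=
  Nat.mul_pos (pow_pos (Nat.factorial_pos c) c) (pow_pos (pl_dn (c + 1)).pos _)

namespace KSjAux

/-- Membership in the dimension subgroup. -/
def InD {F : Type} [Group F] (c : ℕ) (x : F) : Prop :=
  of ℤ F x - 1 ∈ aug ℤ (⊤ : Subgroup F) ^ (c + 1)

variable {F F' : Type} [Group F] [Group F'] {b c m : ℕ}

theorem InD.map {x : F} (h : InD c x) (f : F →* F') : InD c (f x) := by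
  have := gmap_aug_pow f _ h
  rw [map_sub, map_one, gmap_of] at this
  exact pow_le_pow_left' (aug_mono le_top) _ this

theorem InD.pow {x : F} (h : InD c x) (k : ℕ) : InD c (x ^ k) := by
  have hl : zs ℤ (⊤ : Subgroup F) * aug ℤ (⊤ : Subgroup F) ^ (c + 1) ≤
      aug ℤ (⊤ : Subgroup F) ^ (c + 1) := by
    rw [pow_succ', ← mul_assoc]; exact mul_le_mul_left zs_mul_aug _
  induction k with
  | zero => rw [InD, pow_zero, map_one, sub_self]; exact zero_mem _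
  | succ k ih =>
    have e : of ℤ F (x ^ (k + 1)) - 1 = of ℤ F x * (of ℤ F (x ^ k) - 1) + (of ℤ F x - 1) := by
      rw [pow_succ', map_mul]; noncomm_ring
    rw [InD, e]
    exact add_mem (hl (Submodule.mul_mem_mul (of_mem_zs trivial) ih)) h

theorem InD.step {x : Fr b} (h : InD c x) (hm : m + 1 ≤ c)
    (hx : x ∈ (⊤ : Subgroup (Fr b)).lowerCentralSeries m) :
    x ^ (m + 1) ∈ (⊤ : Subgroup (Fr b)).lowerCentralSeries (m + 1) :=
  dsw hx (aug_pow_anti hm h)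

theorem InD.fact {x : Fr b} (h : InD c x) (hm : m ≤ c) :
    x ^ m.factorial ∈ (⊤ : Subgroup (Fr b)).lowerCentralSeries m := by
  induction m with
  | zero => trivial
  | succ m ih =>
    rw [Nat.factorial_succ, mul_comm, pow_mul]
    exact (h.pow _).step hm (ih (Nat.le_of_succ_le hm))

theorem phi_pow (n : ℕ) (g : Fr b) :
    FreeGroup.lift (fun i => (FreeGroup.of i : Fr b) ^ n) g * (g ^ n)⁻¹ ∈
      (⊤ : Subgroup (Fr b)).lowerCentralSeries 1 := by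
  have e : (Abelianization.of : Fr b →* _).comp (FreeGroup.lift fun i => FreeGroup.of i ^ n) =
      (powMonoidHom n).comp Abelianization.of := FreeGroup.ext_hom _ _ fun i => by simp
  have e' : Abelianization.of (FreeGroup.lift (fun i => (FreeGroup.of i : Fr b) ^ n) g) =
      Abelianization.of g ^ n := DFunLike.congr_fun e g
  rw [Subgroup.top_lowerCentralSeries_one, ← Abelianization.ker_of, MonoidHom.mem_ker, map_mul,
    map_inv, map_pow, e', mul_inv_cancel]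

theorem exists_psi (b : ℕ) (hm : m ≤ c) : ∃ ψ : Fr b →* Fr b,
    (∀ i, ψ (FreeGroup.of i) = FreeGroup.of i ^ c.factorial ^ m) ∧
      ∀ x, InD c x → ψ x ∈ (⊤ : Subgroup (Fr b)).lowerCentralSeries m := by
  induction m with
  | zero => exact ⟨MonoidHom.id _, fun i => by simp, fun _ _ => trivial⟩
  | succ m ih =>
    obtain ⟨ψ, h1, h2⟩ := ih (Nat.le_of_succ_le hm)
    refine ⟨(FreeGroup.lift fun i => FreeGroup.of i ^ c.factorial).comp ψ, fun i => ?_,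
      fun x hx => ?_⟩
    · rw [MonoidHom.comp_apply, h1, map_pow, FreeGroup.lift_apply_of, ← pow_mul, ← pow_succ']
    · have h3 := hom_pow_lcs _ _ (phi_pow c.factorial) m (h2 x hx)
      obtain ⟨j, hj⟩ : m + 1 ∣ c.factorial ^ (m + 1) :=
        (Nat.dvd_factorial m.succ_pos hm).trans (dvd_pow_self _ m.succ_ne_zero)
      have h4 := pow_mem ((hx.map ψ).step hm (h2 x hx)) j
      rw [← pow_mul, ← hj] at h4
      have h5 := mul_mem h3 h4
      rwa [inv_mul_cancel_right] at h5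

variable {G : Type} [Group G] {N : Subgroup G}

theorem kill (h : N.lowerCentralSeries c = ⊥) {π : F →* G} (hπ : π.range ≤ N) {x : F}
    (hx : x ∈ (⊤ : Subgroup F).lowerCentralSeries c) : π x = 1 := by
  have h1 : π x ∈ ((⊤ : Subgroup F).lowerCentralSeries c).map π := ⟨x, hx, rfl⟩
  rw [Subgroup.map_lowerCentralSeries, ← MonoidHom.range_eq_map, ← itB_self] at h1
  have h2 := itB_mono hπ hπ c h1
  rwa [itB_self, h] at h2

theorem fin_pw {K : ℕ} {x : G} (hx : x ∈ pw K N) :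
    ∃ Y : List G, (∀ y ∈ Y, y ∈ N) ∧ x ∈ gen (Y.map fun y => y ^ K) := by
  induction hx using Subgroup.closure_induction with
  | mem x hx =>
    obtain ⟨y, hy, rfl⟩ := hx
    exact ⟨[y], fun z hz => List.mem_singleton.1 hz ▸ hy,
      Subgroup.subset_closure (List.mem_singleton_self _)⟩
  | one => exact ⟨[], fun _ h => absurd h List.not_mem_nil, one_mem _⟩
  | mul a b _ _ ha hb =>
    obtain ⟨Y, h1, h2⟩ := ha
    obtain ⟨Y', h3, h4⟩ := hb
    refine ⟨Y ++ Y', fun y hy => (List.mem_append.1 hy).elim (h1 y) (h3 y), ?_⟩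
    rw [List.map_append]
    exact mul_mem (KLogAux.gen_left _ _ h2) (KLogAux.gen_right _ _ h4)
  | inv a _ ha =>
    obtain ⟨Y, h1, h2⟩ := ha
    exact ⟨Y, h1, inv_mem h2⟩

theorem cov0 {K : ℕ} {s : List G} (hs : ∀ x ∈ s, x ∈ pw K N) :
    ∃ (b : ℕ) (π : Fr b →* G), π.range ≤ N ∧
      ∀ M : Subgroup G, (∀ i, π (FreeGroup.of i) ^ K ∈ M) → ∀ x ∈ s, x ∈ M := by
  have : ∃ Y : List G, (∀ y ∈ Y, y ∈ N) ∧ ∀ x ∈ s, x ∈ gen (Y.map fun y => y ^ K) := by
    induction s with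
    | nil => exact ⟨[], fun _ h => absurd h List.not_mem_nil, fun _ h => absurd h List.not_mem_nil⟩
    | cons a s ih =>
      obtain ⟨Y, h1, h2⟩ := fin_pw (hs a List.mem_cons_self)
      obtain ⟨Y', h3, h4⟩ := ih fun x hx => hs x (List.mem_cons_of_mem _ hx)
      refine ⟨Y ++ Y', fun y hy => (List.mem_append.1 hy).elim (h1 y) (h3 y), fun x hx => ?_⟩
      rw [List.map_append]
      rcases List.mem_cons.1 hx with rfl | hx
      · exact KLogAux.gen_left _ _ h2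
      · exact KLogAux.gen_right _ _ (h4 x hx)
  obtain ⟨Y, h1, h2⟩ := this
  refine ⟨Y.length, FreeGroup.lift Y.get, ?_, fun M hM x hx => ?_⟩
  · rw [FreeGroup.range_lift_eq_closure, Subgroup.closure_le]
    rintro _ ⟨i, rfl⟩
    exact h1 _ (List.get_mem _ _)
  · refine (Subgroup.closure_le M).2 (fun z hz => ?_) (h2 x hx)
    obtain ⟨y, hy, rfl⟩ := List.mem_map.1 hz
    obtain ⟨i, rfl⟩ := List.get_of_mem hy
    have := hM i
    rwa [FreeGroup.lift_apply_of] at this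

variable {n : ℕ} {wt : Fin n → ℕ} {ρ : F →* GL (Fin n) ℚ}

theorem nin (ρ : F →* F') (π : F →* G) : NIn (π.ker.map ρ) (Subgroup.map ρ ⊤) := by
  refine ⟨Subgroup.map_mono le_top, ?_⟩
  rintro _ ⟨g, -, rfl⟩ _ ⟨r, hr, rfl⟩
  exact ⟨g * r * g⁻¹, π.normal_ker.conj_mem r hr g, by rw [map_mul, map_mul, map_inv]⟩

theorem uni (h : Adapt wt c ρ ⊤) : ∀ y ∈ Subgroup.map ρ ⊤, IsUni wt y := by
  rintro _ ⟨g, hg, rfl⟩
  exact h.2.2 g hg

theorem log_mem (h : Adapt wt (c + 1) ρ ⊤) {π : F →* G} {K : Subgroup F} {g : F} (hg : g ∈ K)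
    (hx : of ℤ G (π g) - 1 ∈ aug ℤ (K.map π) ^ (c + 1)) :
    lg (c + 1) (ρ g).val ∈ dl (c + 1) (K.map ρ) (π.ker.map ρ ⊓ K.map ρ) := by
  obtain ⟨Λ, h1, h2⟩ := exists_log h
  rw [← map_aug, ← Submodule.map_pow] at hx
  obtain ⟨a, ha, e⟩ := hx
  have ha' : a ∈ zs ℤ K := aug_le_zs (pow_one (aug ℤ K) ▸ aug_pow_anti (Nat.zero_le c) ha)
  have h3 := ker_gmap π (sub_mem (aug_le_zs (sub_mem_aug hg)) ha') (by
    rw [map_sub, map_sub, map_one, gmap_of]
    exact sub_eq_zero.2 e.symm)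
  have h4 : Λ (of ℤ F g - 1 - a) = lg (c + 1) (ρ g).val := by
    rw [map_sub, map_sub, h2 a (pow_le_pow_left' (aug_mono le_top) _ ha), h1, ← map_one (of ℤ F),
      h1, map_one, Units.val_one, lg_one, sub_zero, sub_zero]
  rw [← h4]
  generalize of ℤ F g - 1 - a = x at h3
  rw [zs, aug, Submodule.span_mul_span] at h3
  induction h3 using Submodule.span_induction with
  | mem x hx =>
    obtain ⟨_, ⟨k, hk, rfl⟩, _, ⟨r, hr, rfl⟩, rfl⟩ := hx
    dsimp only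
    rw [mul_sub, mul_one, ← map_mul, map_sub, h1, h1, map_mul]
    exact mem_dl ⟨k, hk, rfl⟩ ⟨⟨r, hr.2, rfl⟩, ⟨r, hr.1, rfl⟩⟩
  | zero => rw [map_zero]; exact zero_mem _
  | add x y _ _ hx hy => rw [map_add]; exact add_mem hx hy
  | smul q x _ hx => rw [map_zsmul]; exact zsmul_mem hx q

end KSjAux

open KSjAux

variable {G : Type} [Group G] {N : Subgroup G} {c : ℕ}

theorem exists_cov (h : N.lowerCentralSeries c = ⊥) (k : ℕ) (s : List G)
    (hs : ∀ x ∈ s, x ∈ pw (c.factorial ^ c * k) N) :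
    ∃ (b : ℕ) (π : Fr b →* G), π.range ≤ N ∧
      (∀ x, of ℤ _ x - 1 ∈ aug ℤ (⊤ : Subgroup (Fr b)) ^ (c + 1) → π x = 1) ∧
      ∀ x ∈ s, x ∈ (pw k ⊤).map π := by
  obtain ⟨b, π, h1, h2⟩ := cov0 hs
  obtain ⟨ψ, h3, h4⟩ := exists_psi b (le_refl c)
  refine ⟨b, π.comp ψ, ?_, fun x hx => kill h h1 (h4 x hx), h2 _ fun i => ?_⟩
  · rintro _ ⟨x, rfl⟩
    exact h1 ⟨ψ x, rfl⟩
  · exact ⟨FreeGroup.of i ^ k, pwMem trivial, by
      rw [map_pow, MonoidHom.comp_apply, h3, map_pow, pow_mul]⟩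

theorem dim_pw (h : N.lowerCentralSeries c = ⊥) : Dim (pw (q3 c) N) ⊥ c := by
  intro g hg hx
  rw [aug_bot, Submodule.mul_bot, sup_bot_eq] at hx
  obtain ⟨s, h1, h2⟩ := aug_pow_fg hx
  obtain ⟨b, π, -, h3, h4⟩ := exists_cov h _ (g :: s) fun x hx =>
    (List.mem_cons.1 hx).elim (fun e => e ▸ hg) (h1 x)
  obtain ⟨g, hg', rfl⟩ := h4 g List.mem_cons_self
  obtain ⟨n, wt, ρ, h5, h6⟩ := exists_w0 b c
  have h7 := log_mem h5 hg' (pow_le_pow_left' (aug_mono ((Subgroup.closure_le _).2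
    fun x hx => h4 x (List.mem_cons_of_mem _ hx))) _ h2)
  rw [pwMap] at h7
  obtain ⟨_, ⟨r, hr, rfl⟩, e⟩ := un_k3 (pl_dn (c + 1)) h5.1 (uni h5) (nin ρ π) h7
  have h8 := h3 _ (h6 (g * r⁻¹) (by
    rw [map_mul, map_inv, lg_inj h5.1 (h5.2.2 r trivial) (h5.2.2 g trivial) e, mul_inv_cancel]))
  rwa [map_mul, map_inv, MonoidHom.mem_ker.1 hr, inv_one, mul_one] at h8

theorem sjogren (c : ℕ) : ∃ m, 0 < m ∧ ∀ (G : Type) [Group G] (N : Subgroup G),
    N.lowerCentralSeries c = ⊥ → ∀ g ∈ N, of ℤ G g - 1 ∈ aug ℤ N ^ (c + 1) → g ^ m = 1 := by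
  refine ⟨dn (c + 1) ^ (3 * (c + 1)) * c.factorial,
    Nat.mul_pos (pow_pos (pl_dn (c + 1)).pos _) c.factorial_pos, fun G _ N h g hg hx => ?_⟩
  obtain ⟨s, h1, h2⟩ := aug_pow_fg hx
  obtain ⟨b, π, h3, h4⟩ := cov0 (K := 1) (N := N) (s := g :: s) fun x hx =>
    pow_one x ▸ pwMem ((List.mem_cons.1 hx).elim (fun e => e ▸ hg) (h1 x))
  replace h4 := h4 (Subgroup.map π ⊤) fun i =>
    pow_mem (Subgroup.mem_map_of_mem π (Subgroup.mem_top _)) 1
  obtain ⟨g, hg', rfl⟩ := h4 g List.mem_cons_self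
  obtain ⟨n, wt, ρ, h5, h6⟩ := exists_w0 b c
  have h7 := log_mem h5 hg' (pow_le_pow_left' (aug_mono ((Subgroup.closure_le _).2
    fun x hx => h4 x (List.mem_cons_of_mem _ hx))) _ h2)
  rw [inf_eq_left.2 (nin ρ π).1] at h7
  obtain ⟨_, ⟨r, hr, rfl⟩, e⟩ := un_sj (pl_dn (c + 1)) h5.1 (uni h5) (nin ρ π) h7
  rw [← lg_pow h5.1 (h5.2.2 g trivial), ← map_pow] at e
  have h8 := kill h h3 (InD.fact (h6 (g ^ dn (c + 1) ^ (3 * (c + 1)) * r⁻¹) (by
    rw [map_mul, map_inv, lg_inj h5.1 (h5.2.2 r trivial) (h5.2.2 _ trivial) e,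
      mul_inv_cancel])) le_rfl)
  rwa [map_pow, map_mul, map_inv, MonoidHom.mem_ker.1 hr, inv_one, mul_one, map_pow,
    ← pow_mul] at h8

theorem pow_root (c : ℕ) : ∃ D, 0 < D ∧ ∀ (G : Type) [Group G] (N : Subgroup G),
    N.lowerCentralSeries c = ⊥ → ∀ k, ∀ x ∈ pw (D * k) N, ∃ y ∈ N, y ^ k = x := by
  refine ⟨c.factorial ^ c * dn (c + 1) ^ (2 * (c + 1) + 1),
    Nat.mul_pos (pow_pos c.factorial_pos _) (pow_pos (pl_dn (c + 1)).pos _),
    fun G _ N h k x hx => ?_⟩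
  rw [mul_assoc] at hx
  obtain ⟨b, π, h1, h2, h3⟩ := exists_cov h _ [x] fun y hy => List.mem_singleton.1 hy ▸ hx
  obtain ⟨x, hx', rfl⟩ := h3 x List.mem_cons_self
  obtain ⟨n, wt, ρ, h5, h6⟩ := exists_w0 b c
  have h4 := Subgroup.mem_map_of_mem ρ hx'
  rw [pwMap] at h4
  obtain ⟨_, ⟨y, -, rfl⟩, e⟩ := un_root (pl_dn (c + 1)) h5.1 (uni h5) k h4
  have h7 := h2 _ (h6 (y ^ k * x⁻¹) (by rw [map_mul, map_inv, map_pow, e, mul_inv_cancel]))
  rw [map_mul, map_inv, map_pow, mul_inv_eq_one] at h7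
  exact ⟨π y, h1 ⟨y, rfl⟩, h7⟩

end Pool.Agent.P.MP_257122_al.K
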