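import Pool.Agent.P.MP_257122_al.NModP
import Pool.Agent.P.MP_257122_al.CDer
import Pool.Agent.P.MP_257122_al.FPoly
import Pool.Agent.P.MP_257122_al.FBtw

/-!
# Finite-dimensional models of the group algebra can be computed

PLAN.  `MV.search` over `Model b` with the r.e. certificate: weights, `IsPar`; `h : Fin n → QF b`
with `algOf g (h i) = L i`, `L i *ᵥ e₀ = Pi.single i 1`, and the relations of `span_mod_of_rel` in
`I = J ^ (e+1)` (`mem_kerI_pow`); and for `J ↦ fil 1`: a second family `h' : Fin r → QF b` with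
`algOf γ (h' i)` independent, matrices `g'`, a vector `e'`, whose relations (as in
`span_mod_of_rel`) lie in `I' = {a | algOf γ a = 0 ∧ algOf g a ∈ fil wt 1}`, a left ideal;
then every `a ∈ J` lies in `I'`.  The family `h'` comes from `exists_model γ 0`.
-/

namespace Pool.Agent.P.MP_257122_al

open Matrix FOpsAux

variable {A : Type} [Rep A]

@[aesop safe 50 apply (transparency := reducible) (rule_sets := [Restrict])]
theorem cs_algOf {b n : A → ℕ} {g : ∀ a, Fin (b a) → GL (Fin (n a)) ℚ} {x : ∀ a, QF (b a)}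
    (hn : CS n) (hg : CS g) (hx : CS x) : CS (fun a => algOf (g a) (x a)) :=
  have G : GrpF (fun a => GL (Fin (n a)) ℚ) := GrpF.gl (CFin.fin hn) Disc.fin
  CS.gaLift (AddF.matrix AddF.rat) (ZeroF.matrix ZeroF.rat) (SMulF.matrix (SMulF.self MulF.rat))
    (CS.homComp CS.unitsCoeHom (CS.freeLift G.mul G.inv G.one hg)) hx

namespace NModAux

section pure
variable {b n m : ℕ}

/-- A relation element. -/
noncomputable def rel (w : Fr b) (M : Matrix (Fin n) (Fin n) ℚ) (h : Fin n → QF b) (i : Fin n) :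
    QF b := MonoidAlgebra.single w 1 * h i - ∑ j, M j i • h j

/-- The relations of `span_mod_of_rel` satisfy `P`. -/
def Rel (P : QF b → Prop) (g : Fin b → GL (Fin n) ℚ) (e : Fin n → ℚ) (h : Fin n → QF b) : Prop :=
  P (1 - ∑ j, e j • h j) ∧ ∀ q : Fin b × Fin n, P (rel (FreeGroup.of q.1) (g q.1).val h q.2) ∧
    P (rel (FreeGroup.of q.1)⁻¹ (g q.1).inv h q.2)

theorem Rel.mono {P P' : QF b → Prop} {g : Fin b → GL (Fin n) ℚ} {e : Fin n → ℚ}
    {h : Fin n → QF b} (H : Rel P g e h) (k : ∀ x, P x → P' x) : Rel P' g e h :=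
  ⟨k _ H.1, fun q => ⟨k _ (H.2 q).1, k _ (H.2 q).2⟩⟩

theorem Rel.span {I : Submodule ℚ (QF b)} (hI : ∀ x, ∀ a ∈ I, x * a ∈ I)
    {g : Fin b → GL (Fin n) ℚ} {e : Fin n → ℚ} {h : Fin n → QF b} (H : Rel (· ∈ I) g e h)
    (a : QF b) : a - ∑ j, (algOf g a *ᵥ e) j • h j ∈ I :=
  span_mod_of_rel hI g e h H.1 (fun x i => (H.2 (x, i)).1) (fun x i => (H.2 (x, i)).2) a

/-- Explicit membership in a power of the kernel. -/
def PM (γ : Fin b → GL (Fin m) ℚ) (e : ℕ) (a : QF b) : Prop :=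
  ∃ l : List (List (QF b)), (∀ s ∈ l, s.length = e + 1 ∧ ∀ x ∈ s, algOf γ x = 0) ∧
    (l.map List.prod).sum = a

/-- The second left ideal. -/
def P2 (γ : Fin b → GL (Fin m) ℚ) (wt : Fin n → ℕ) (g : Fin b → GL (Fin n) ℚ) (a : QF b) : Prop :=
  algOf γ a = 0 ∧ algOf g a ∈ fil wt 1

/-- A family that is a basis modulo the kernel. -/
abbrev Sec (b : ℕ) : Type := Σ r : ℕ, (Fin b → GL (Fin r) ℚ) × (Fin r → ℚ) × (Fin r → QF b)

/-- The certificate for the kernel to raise weights. -/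
def C2 (γ : Fin b → GL (Fin m) ℚ) (wt : Fin n → ℕ) (g : Fin b → GL (Fin n) ℚ) : Prop :=
  ∃ s : Sec b, LinearIndependent ℚ (fun i => algOf γ (s.2.2.2 i)) ∧
    Rel (P2 γ wt g) s.2.1 s.2.2.1 s.2.2.2

/-- The certificate for the kernel of the orbit map. -/
def C1 (γ : Fin b → GL (Fin m) ℚ) (e : ℕ) (g : Fin b → GL (Fin n) ℚ) (v : Fin n → ℚ)
    (L : Fin n → Matrix (Fin n) (Fin n) ℚ) : Prop :=
  ∃ h : Fin n → QF b, (∀ i, algOf g (h i) = L i ∧ L i *ᵥ v = Pi.single i 1) ∧ Rel (PM γ e) g v h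

/-- The certificate. -/
def Ce (γ : Fin b → GL (Fin m) ℚ) (e : ℕ) (M : Model b) : Prop :=
  (∀ i, M.2.1 i < e + 1) ∧ (∀ x, IsPar M.2.1 (M.2.2.1 x)) ∧ C2 γ M.2.1 M.2.2.1 ∧
    C1 γ e M.2.2.1 M.2.2.2.1 M.2.2.2.2

theorem alg_par {wt : Fin n → ℕ} {g : Fin b → GL (Fin n) ℚ} (hg : ∀ x, IsPar wt (g x))
    (a : QF b) : algOf g a ∈ fil wt 0 := by
  induction a using MonoidAlgebra.induction_on with
  | of w => rw [algOf_of]; exact (isPar_lift hg w).1
  | add x y hx hy => rw [map_add]; exact add_mem hx hy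
  | smul q x hx => rw [map_smul]; exact Submodule.smul_mem _ _ hx

theorem C2.sound {γ : Fin b → GL (Fin m) ℚ} {wt : Fin n → ℕ} {g : Fin b → GL (Fin n) ℚ}
    (hg : ∀ x, IsPar wt (g x)) (h : C2 γ wt g) : ∀ a ∈ kerI γ, algOf g a ∈ fil wt 1 := by
  obtain ⟨⟨r, g', v, h'⟩, h1, h2⟩ := h
  intro a ha
  have ha' : algOf γ a = 0 := ha
  have h3 := Rel.span (I := kerI γ ⊓ (fil wt 1).comap (algOf g).toLinearMap) (fun x y hy => ⟨by
      have : algOf γ y = 0 := hy.1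
      change algOf γ (x * y) = 0
      rw [map_mul, this, mul_zero], by
      change algOf g (x * y) ∈ fil wt 1
      rw [map_mul]
      exact fil_mul' (alg_par hg x) hy.2⟩) h2 a
  have h4 : algOf γ (a - ∑ j, (algOf g' a *ᵥ v) j • h' j) = 0 := h3.1
  rw [map_sub, ha', zero_sub, neg_eq_zero, map_sum] at h4
  simp only [map_smul] at h4
  have h5 := Fintype.linearIndependent_iff.mp h1 _ h4
  have h6 : algOf g (a - ∑ j, (algOf g' a *ᵥ v) j • h' j) ∈ fil wt 1 := h3.2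
  simpa only [h5, zero_smul, Finset.sum_const_zero, sub_zero] using h6

theorem prod_fil {wt : Fin n → ℕ} {g : Fin b → GL (Fin n) ℚ} (s : List (QF b))
    (h : ∀ x ∈ s, algOf g x ∈ fil wt 1) : algOf g s.prod ∈ fil wt s.length := by
  induction s with
  | nil => rw [List.prod_nil, map_one]; exact gb_one
  | cons x s ih =>
    rw [List.prod_cons, map_mul, List.length_cons, add_comm]
    exact fil_mul' (h x (by simp)) (ih fun y hy => h y (by simp [hy]))

theorem Ce.sound {γ : Fin b → GL (Fin m) ℚ} {e : ℕ} {M : Model b} (h : Ce γ e M) :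
    M.ok (kerI γ) e := by
  obtain ⟨h1, h2, h3, h', h4, h5⟩ := h
  have h6 := h3.sound h2
  refine ⟨h1, h2, h6, fun a => ⟨fun ha => ?_, fun ha => ?_⟩, fun i => ⟨h' i, h4 i⟩⟩
  · have := Rel.span (fun x _ hy => kerI_pow_mul_left γ e x hy)
      (h5.mono fun x hx => (mem_kerI_pow γ e x).mpr hx) a
    simpa only [ha, Pi.zero_apply, zero_smul, Finset.sum_const_zero, sub_zero] using this
  · obtain ⟨l, hl, rfl⟩ := (mem_kerI_pow γ e a).mp ha
    have : algOf M.2.2.1 (l.map List.prod).sum = 0 := by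
      rw [map_list_sum]
      refine List.sum_eq_zero fun y hy => ?_
      obtain ⟨_, hz, rfl⟩ := List.mem_map.mp hy
      obtain ⟨s, hs, rfl⟩ := List.mem_map.mp hz
      have h7 := prod_fil s fun x hx => h6 x ((hl s hs).2 x hx)
      rw [(hl s hs).1] at h7
      exact Matrix.ext fun i j => h7 i j ((h1 i).trans_le (Nat.le_add_left _ _))
    rw [this, zero_mulVec]

theorem sum_vec {g : Fin b → GL (Fin n) ℚ} {v : Fin n → ℚ} {h : Fin n → QF b}
    (H : ∀ i, algOf g (h i) *ᵥ v = Pi.single i 1) (c : Fin n → ℚ) :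
    algOf g (∑ j, c j • h j) *ᵥ v = c := by
  rw [map_sum, sum_mulVec]
  simp only [map_smul, smul_mulVec, H]
  exact (pi_eq_sum_univ' c).symm

theorem rel_ok {J : Submodule ℚ (QF b)} {e : ℕ} {M : Model b} (hM : M.ok J e) :
    ∃ h : Fin M.1 → QF b, (∀ i, algOf M.2.2.1 (h i) = M.2.2.2.2 i ∧
      M.2.2.2.2 i *ᵥ M.2.2.2.1 = Pi.single i 1) ∧ Rel (· ∈ J ^ (e + 1)) M.2.2.1 M.2.2.2.1 h := by
  obtain ⟨-, -, -, h4, h5⟩ := hM
  choose h hh using h5
  have H : ∀ i, algOf M.2.2.1 (h i) *ᵥ M.2.2.2.1 = Pi.single i 1 := fun i => by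
    rw [(hh i).1, (hh i).2]
  have K : ∀ w i, rel w (FreeGroup.lift M.2.2.1 w).val h i ∈ J ^ (e + 1) := fun w i => by
    rw [← h4, rel, map_sub, sub_mulVec, sum_vec H, map_mul, ← mulVec_mulVec, H,
      ← MonoidAlgebra.of_apply, algOf_of, mulVec_single_one, sub_eq_zero]
    rfl
  refine ⟨h, hh, ?_, fun q => ⟨?_, ?_⟩⟩
  · refine (h4 _).mp ?_
    rw [map_sub, sub_mulVec, sum_vec H, map_one, one_mulVec, sub_self]
  · simpa only [FreeGroup.lift_apply_of] using K (FreeGroup.of q.1) q.2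
  · have := K (FreeGroup.of q.1)⁻¹ q.2
    rwa [map_inv, FreeGroup.lift_apply_of] at this

theorem complete (γ : Fin b → GL (Fin m) ℚ) (e : ℕ) : ∃ M : Model b, Ce γ e M := by
  obtain ⟨M, hM⟩ := exists_model γ e
  obtain ⟨M', hM'⟩ := exists_model γ 0
  obtain ⟨h, h1, h2⟩ := rel_ok hM
  obtain ⟨h', h3, h4⟩ := rel_ok hM'
  refine ⟨M, hM.1, hM.2.1, ⟨⟨M'.1, M'.2.2.1, M'.2.2.2.1, h'⟩, ?_, h4.mono fun x hx => ?_⟩, h, h1,
    h2.mono fun x hx => (mem_kerI_pow γ e x).mp hx⟩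
  · refine Fintype.linearIndependent_iff.mpr fun c hc => congrFun ?_
    have h5 : ∑ j, c j • h' j ∈ kerI γ ^ (0 + 1) := by
      rw [zero_add, pow_one]
      change algOf γ _ = 0
      rw [map_sum]
      simpa only [map_smul] using hc
    rwa [← hM'.2.2.2.1, sum_vec fun i => by rw [(h3 i).1, (h3 i).2]] at h5
  · rw [zero_add, pow_one] at hx
    exact ⟨hx, hM.2.2.1 x hx⟩
end pure

section comp
variable {b n m e : A → ℕ}

theorem mulQ : MulF (fun a => QF (b a)) := MulF.ga MulF.free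
theorem discQ : Disc (fun a => QF (b a)) :=
  Disc.ga (Disc.free Disc.fin Haus.fin) (Haus.free Disc.fin Haus.fin)
theorem enumQ (hb : CS b) : Enum (fun a => QF (b a)) := Enum.ga (Enum.free (Enum.fin hb))
theorem discM (hn : CS n) : Disc (fun a => Matrix (Fin (n a)) (Fin (n a)) ℚ) :=
  Disc.matrix (CFin.fin hn) (CFin.fin hn) Disc.rat

theorem cs_comb {c : ∀ a, Fin (n a) → ℚ} {h : ∀ a, Fin (n a) → QF (b a)} (hn : CS n) (hc : CS c)
    (hh : CS h) : CS (fun a => ∑ j, c a j • h a j) :=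
  CS.sum (CFin.fin hn) AddF.ga ZeroF.ga
    (CS.smul SMulF.ga (CS.app (hc.comp s1) s2) (CS.app (hh.comp s1) s2))

theorem cs_rel {w : ∀ a, Fr (b a)} {M : ∀ a, Matrix (Fin (n a)) (Fin (n a)) ℚ}
    {h : ∀ a, Fin (n a) → QF (b a)} {i : ∀ a, Fin (n a)} (hn : CS n) (hw : CS w) (hM : CS M)
    (hh : CS h) (hi : CS i) : CS (fun a => rel (w a) (M a) (h a) (i a)) :=
  CS.sub AddF.ga NegF.ga (CS.mul mulQ (CS.gaSingle hw CS.const) (CS.app hh hi))
    (cs_comb (c := fun a j => M a j (i a)) hn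
      (CS.lam (CS.mapp (hM.comp s1) s2 (hi.comp s1))) hh)

theorem cs_Rel {P : ∀ a, QF (b a) → Prop} {g : ∀ a, Fin (b a) → GL (Fin (n a)) ℚ}
    {v : ∀ a, Fin (n a) → ℚ} {h : ∀ a, Fin (n a) → QF (b a)} (hb : CS b) (hn : CS n) (hP : CS P)
    (hg : CS g) (hv : CS v) (hh : CS h) : CS (fun a => Rel (P a) (g a) (v a) (h a)) :=
  CS.and (CS.app hP (CS.sub AddF.ga NegF.ga (CS.one (OneF.ga OneF.free)) (cs_comb hn hv hh)))
    (CS.all ((CFin.fin hb).prod (CFin.fin hn)) (CS.and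
      (CS.app (hP.comp s1) (cs_rel (hn.comp s1) (CS.freeOf s2.fst)
        (CS.app (hg.comp s1) s2.fst).unitsVal (hh.comp s1) s2.snd))
      (CS.app (hP.comp s1) (cs_rel (hn.comp s1) (CS.inv InvF.free (CS.freeOf s2.fst))
        (CS.app (hg.comp s1) s2.fst).unitsInv (hh.comp s1) s2.snd))))

variable {γ : ∀ a, Fin (b a) → GL (Fin (m a)) ℚ} {g : ∀ a, Fin (b a) → GL (Fin (n a)) ℚ}

theorem cs_ker {x : ∀ a, QF (b a)} (hm : CS m) (hγ : CS γ) (hx : CS x) :
    CS (fun a => algOf (γ a) (x a) = 0) :=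
  CS.eq (discM hm) (cs_algOf hm hγ hx) (CS.zero (ZeroF.matrix ZeroF.rat))

theorem cs_good {s : ∀ a, List (QF (b a))} (hm : CS m) (he : CS e) (hγ : CS γ) (hs : CS s) :
    CS (fun a => (s a).length = e a + 1 ∧ ∀ x ∈ s a, algOf (γ a) x = 0) :=
  CS.and (CS.eq Disc.nat hs.length (CS.add AddF.nat he CS.const))
    (CS.allMem hs (cs_ker (hm.comp s1) (hγ.comp s1) s2))

theorem cs_PM {x : ∀ a, QF (b a)} (hb : CS b) (hm : CS m) (he : CS e) (hγ : CS γ) (hx : CS x) :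
    CS (fun a => PM (γ a) (e a) (x a)) :=
  CS.ex (enumQ hb).list.list (CS.and
    (CS.allMem s2 (cs_good ((hm.comp s1).comp s1) ((he.comp s1).comp s1) ((hγ.comp s1).comp s1) s2))
    (CS.eq discQ (CS.listSum AddF.ga ZeroF.ga
      (CS.map (CS.lam (CS.listProd mulQ (OneF.ga OneF.free) s2)) s2)) (hx.comp s1)))

theorem cs_C2 {wt : ∀ a, Fin (n a) → ℕ} (hb : CS b) (hm : CS m) (hn : CS n) (hγ : CS γ)
    (hw : CS wt) (hg : CS g) : CS (fun a => C2 (γ a) (wt a) (g a)) := by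
  have hP : CS (fun a => P2 (γ a) (wt a) (g a)) :=
    CS.lam (CS.and (cs_ker (hm.comp s1) (hγ.comp s1) s2)
      (CS.memFil (hn.comp s1) (hw.comp s1) CS.const (cs_algOf (hn.comp s1) (hg.comp s1) s2)))
  have hE : Enum (fun a => Sec (b a)) := Enum.sigma Enum.nat (Enum.prod
    (Enum.pi (CFin.fin (hb.comp s1)) Disc.fin ((GrpF.gl (CFin.fin s2) Disc.fin).enum.comp s1))
    (Enum.prod (Enum.pi (CFin.fin s2) Disc.fin Enum.rat)
      (Enum.pi (CFin.fin s2) Disc.fin (enumQ ((hb.comp s1).comp s1)))))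
  have k0 : CS (fun p : Σ a, Sec (b a) => p.2) := s2
  have k1 : CS (fun p : Σ a, Sec (b a) => p.2.1) := k0.sfst
  have k2 : CS (fun p : Σ a, Sec (b a) => p.2.2) := FEnumAux.s2 k0
  exact CS.ex hE (CS.and (CS.linIndep
    (CoordF.matrix (CFin.fin (hm.comp s1)) Disc.fin (CFin.fin (hm.comp s1)) Disc.fin)
    (CFin.fin k1) Disc.fin (CS.lam (cs_algOf ((hm.comp s1).comp s1) ((hγ.comp s1).comp s1)
      (CS.app (k2.snd.snd.comp s1) s2))))
    (cs_Rel (hb.comp s1) k1 (hP.comp s1) k2.fst k2.snd.fst k2.snd.snd))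

theorem cs_C1 {v : ∀ a, Fin (n a) → ℚ} {L : ∀ a, Fin (n a) → Matrix (Fin (n a)) (Fin (n a)) ℚ}
    (hb : CS b) (hm : CS m) (hn : CS n) (he : CS e) (hγ : CS γ) (hg : CS g) (hv : CS v)
    (hL : CS L) : CS (fun a => C1 (γ a) (e a) (g a) (v a) (L a)) := by
  have hP : CS (fun a => PM (γ a) (e a)) :=
    CS.lam (cs_PM (hb.comp s1) (hm.comp s1) (he.comp s1) (hγ.comp s1) s2)
  have h1 : CS (fun p : Σ a, Fin (n a) => L p.1 p.2 *ᵥ v p.1 = Pi.single p.2 1) :=
    CS.eq (Disc.pi (CFin.fin (hn.comp s1)) Disc.rat)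
      (CS.mulVec (CFin.fin (hn.comp s1)) AddF.rat ZeroF.rat MulF.rat (CS.app (hL.comp s1) s2)
        (hv.comp s1)) (CS.piSingle Disc.fin Haus.fin ZeroF.rat s2 CS.const)
  exact CS.ex (Enum.pi (CFin.fin hn) Disc.fin (enumQ (hb.comp s1))) (CS.and
    (CS.all (CFin.fin (hn.comp s1)) (CS.and
      (CS.eq (discM ((hn.comp s1).comp s1)) (cs_algOf ((hn.comp s1).comp s1)
        ((hg.comp s1).comp s1) (CS.app (s2.comp s1) s2)) (CS.app ((hL.comp s1).comp s1) s2))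
      (h1.comp (g := fun q : Σ p : (Σ a, Fin (n a) → QF (b a)), Fin (n p.1) => ⟨q.1.1, q.2⟩)
        (CS.smk0 (s1.comp s1) s2))))
    (cs_Rel (hb.comp s1) (hn.comp s1) (hP.comp s1) (hg.comp s1) (hv.comp s1) s2))

theorem cs_Ce {M : ∀ a, Model (b a)} (hb : CS b) (hm : CS m) (he : CS e) (hγ : CS γ) (hM : CS M) :
    CS (fun a => Ce (γ a) (e a) (M a)) :=
  have k1 : CS (fun a => (M a).1) := hM.sfst
  have k2 : CS (fun a => (M a).2) := FEnumAux.s2 hM
  CS.and (CS.all (CFin.fin k1) (CS.lt LtF.nat (CS.app (k2.fst.comp s1) s2)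
    (CS.add AddF.nat (he.comp s1) CS.const))) (CS.and (CS.all (CFin.fin hb)
      (CS.isPar (k1.comp s1) (k2.fst.comp s1) (CS.app (k2.snd.fst.comp s1) s2)))
    (CS.and (cs_C2 hb hm k1 hγ k2.fst k2.snd.fst)
      (cs_C1 hb hm k1 he hγ k2.snd.fst k2.snd.snd.fst k2.snd.snd.snd)))

theorem enumModel (hb : CS b) : Enum (fun a => Model (b a)) :=
  Enum.sigma Enum.nat (Enum.prod (Enum.pi (CFin.fin s2) Disc.fin Enum.nat) (Enum.prod
    (Enum.pi (CFin.fin (hb.comp s1)) Disc.fin ((GrpF.gl (CFin.fin s2) Disc.fin).enum.comp s1))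
    (Enum.prod (Enum.pi (CFin.fin s2) Disc.fin Enum.rat) (Enum.pi (CFin.fin s2) Disc.fin
      (Enum.matrix (CFin.fin (s2.comp s1)) Disc.fin (CFin.fin (s2.comp s1)) Disc.fin Enum.rat)))))

theorem cs_vecT {v : ∀ a, Fin (n a) → ℚ} (hv : CS v) : CS (fun a => vecT (v a)) :=
  have h : CS (fun a (I : Fin 1 → Fin (n a)) => v a (I 0)) :=
    CS.lam (CS.app (hv.comp s1) (CS.app s2 CS.const))
  CS.smk (β := fun a σ => Tn (n a) σ ℚ × Tn (n a) σ ℚ) (fun _ => [true])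
    (fun a => (fun I => v a (I (0 : Fin 1)), fun I => v a (I (0 : Fin 1)))) CS.const (h.pair h)

theorem cs_mulT {L : ∀ a, Fin (n a) → Matrix (Fin (n a)) (Fin (n a)) ℚ} (hL : CS L) :
    CS (fun a => mulT (L a)) :=
  have h : CS (fun a (I : Fin 3 → Fin (n a)) => L a (I 1) (I 0) (I 2)) :=
    CS.lam (CS.mapp (CS.app (hL.comp s1) (CS.app s2 CS.const)) (CS.app s2 CS.const)
      (CS.app s2 CS.const))
  CS.smk (β := fun a σ => Tn (n a) σ ℚ × Tn (n a) σ ℚ) (fun _ => [true, false, false])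
    (fun a => (fun I => L a (I (1 : Fin 3)) (I (0 : Fin 3)) (I (2 : Fin 3)),
      fun I => L a (I (1 : Fin 3)) (I (0 : Fin 3)) (I (2 : Fin 3)))) CS.const (h.pair h)

theorem cs_ent {σ : A → List Bool} {x y : ∀ a, Matrix (Fin (n a)) (Fin (n a)) ℚ}
    {I J : ∀ a, Fin (σ a).length → Fin (n a)} (hσ : CS σ) (hx : CS x) (hy : CS y) (hI : CS I)
    (hJ : CS J) : CS (fun a => act (σ a) (x a) (y a) (I a) (J a)) :=
  have h : CS (fun p : Σ a, Fin (σ a).length => (σ p.1).get p.2) := CS.get (hσ.comp s1) s2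
  CS.prod (CFin.fin hσ.length) MulF.rat OneF.rat (CS.ite (CS.eq Disc.bool h CS.const)
    (CS.notEq Haus.bool h CS.const)
    (CS.mapp (hx.comp s1) (CS.app (hI.comp s1) s2) (CS.app (hJ.comp s1) s2))
    (CS.mapp (hy.comp s1) (CS.app (hJ.comp s1) s2) (CS.app (hI.comp s1) s2)))

theorem cs_notFix {t : ∀ a, TPair (n a)} {x y : ∀ a, Matrix (Fin (n a)) (Fin (n a)) ℚ} (hn : CS n)
    (ht : CS t) (hx : CS x) (hy : CS y) :
    CS (fun a => ¬ act (t a).1 (x a) (y a) *ᵥ (t a).2.1 = (t a).2.2) :=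
  have k1 : CS (fun a => (t a).1) := ht.sfst
  have k2 : CS (fun a => (t a).2) := FEnumAux.s2 ht
  have hF : CFin (fun a => Fin (t a).1.length → Fin (n a)) :=
    CFin.pi (CFin.fin k1.length) Disc.fin (CFin.fin hn)
  CS.notEq (Haus.pi hF Haus.rat) (CS.mulVec hF AddF.rat ZeroF.rat MulF.rat
    (CS.mlam (cs_ent (k1.comp s1) (hx.comp s1) (hy.comp s1) s2.fst s2.snd)) k2.fst) k2.snd

theorem cs_addNe {Λ Λ' : ∀ a, AddSubgroup (Fin (n a) → ℚ)} (hn : CS n) (h : CS Λ) (h' : CS Λ') :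
    CS (fun a => ¬ Λ a = Λ' a) :=
  have hV : CoordF (fun a => Fin (n a) → ℚ) := CoordF.pi (CFin.fin hn) Disc.fin
  (CS.notAnd (CS.addNotLe hV h h') (CS.addNotLe hV h' h)).of_iff fun _ _ =>
    not_congr le_antisymm_iff.symm
end comp

end NModAux

open NModAux

theorem mv_model {b m e : A → ℕ} {γ : ∀ a, Fin (b a) → GL (Fin (m a)) ℚ} (hb : CS b) (hm : CS m)
    (he : CS e) (hγ : CS γ) : MV (fun a (M : Model (b a)) => M.ok (kerI (γ a)) (e a)) :=
  MV.search (Q' := fun a M => Ce (γ a) (e a) M) (enumModel hb)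
    (cs_Ce (hb.comp s1) (hm.comp s1) (he.comp s1) (hγ.comp s1) s2) (fun _ _ h => h.sound)
    fun a _ => complete (γ a) (e a)

section words
variable {b b' : A → ℕ}
@[aesop safe 50 apply (transparency := reducible) (rule_sets := [Restrict])]
theorem cs_inlF : CS (fun a => inlF (b a) (b' a)) := CS.freeMap CS.finCastAddF
@[aesop safe 50 apply (transparency := reducible) (rule_sets := [Restrict])]
theorem cs_inrF (hb : CS b) : CS (fun a => inrF (b a) (b' a)) := CS.freeMap (CS.finNatAddF hb)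
@[aesop safe 50 apply (transparency := reducible) (rule_sets := [Restrict])]
theorem cs_tieR {v : ∀ a, Fin (b' a) → Fr (b a)} (hb : CS b) (hb' : CS b') (hv : CS v) :
    CS (fun a => tieR (v a)) :=
  CS.ofFn hb' (CS.lam (CS.mul MulF.free
    (CS.inv InvF.free (CS.freeOf (CS.finNatAdd (hb.comp s1) s2)))
    (CS.homApp cs_inlF (CS.app (hv.comp s1) s2))))
@[aesop safe 50 apply (transparency := reducible) (rule_sets := [Restrict])]
theorem cs_tieL {u : ∀ a, Fin (b a) → Fr (b' a)} (hb : CS b) (hu : CS u) :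
    CS (fun a => tieL (u a)) :=
  CS.ofFn hb (CS.lam (CS.mul MulF.free (CS.inv InvF.free (CS.freeOf (CS.finCastAdd s2)))
    (CS.homApp (cs_inrF (hb.comp s1)) (CS.app (hu.comp s1) s2))))
theorem cs_nielIn {p p' : A → Pres} {u : ∀ a, Fin (p a).1 → Fr (p' a).1}
    {v : ∀ a, Fin (p' a).1 → Fr (p a).1} {Y : ∀ a, List (Fr (p a).1)} (hp : CS p) (hp' : CS p')
    (hu : CS u) (hv : CS v) (hY : CS Y) : CS (fun a => nielIn (p a) (p' a) (u a) (v a) (Y a)) :=
  have k1 : CS (fun a => (p a).1) := hp.sfst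
  have k2 : CS (fun a => (p a).2) := FEnumAux.s2 hp
  have l1 : CS (fun a => (p' a).1) := hp'.sfst
  have l2 : CS (fun a => (p' a).2) := FEnumAux.s2 hp'
  CS.smk0 (CS.add AddF.nat k1 l1) (CS.pair
    (k2.fst.pair (CS.append (CS.map (CS.homCoe cs_inlF) k2.snd) (cs_tieR k1 l1 hv)))
    (CS.pair (l2.fst.pair (CS.append (CS.map (CS.homCoe (cs_inrF k1)) l2.snd) (cs_tieL k1 hu)))
      (CS.append (CS.map (CS.homCoe cs_inlF) hY) (cs_tieR k1 l1 hv))))
end words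

section lat
variable {b n : A → ℕ}
theorem cs_evalAt {e : ∀ a, Fin (n a) → ℚ} (hn : CS n) (he : CS e) :
    CS (fun a => evalAt (e a)) :=
  CS.linIntro (CS.mulVec (CFin.fin (hn.comp s1)) AddF.rat ZeroF.rat MulF.rat s2 (he.comp s1))
theorem cs_orbL {g : ∀ a, Fin (b a) → GL (Fin (n a)) ℚ} {e : ∀ a, Fin (n a) → ℚ} (hb : CS b)
    (hn : CS n) (hg : CS g) (he : CS e) : CS (fun a => orbL (g a) (e a)) :=
  have hV : CoordF (fun a => Fin (n a) → ℚ) := CoordF.pi (CFin.fin hn) Disc.fin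
  CS.cl hV (CS.append
    (CS.ofFn hb (CS.lam (CS.mulVecLin (CFin.fin (hn.comp s1)) AddF.rat ZeroF.rat MulF.rat
      (CS.app (hg.comp s1) s2).unitsVal)))
    (CS.ofFn hb (CS.lam (CS.mulVecLin (CFin.fin (hn.comp s1)) AddF.rat ZeroF.rat MulF.rat
      (CS.app (hg.comp s1) s2).unitsInv)))) (CS.addClosure hV (CS.cons he CS.nil))
theorem cs_tens {M : ∀ a, Model (b a + b a)} (hb : CS b) (hM : CS M) :
    CS (fun a => (M a).tens) :=
  have k1 : CS (fun a => (M a).1) := hM.sfst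
  have k2 : CS (fun a => (M a).2) := FEnumAux.s2 hM
  CS.cons (cs_mulT k2.snd.snd.snd) (CS.cons (cs_vecT k2.snd.snd.fst) (CS.ofFn hb (CS.lam (cs_vecT
    (CS.mulVec (CFin.fin (k1.comp s1)) AddF.rat ZeroF.rat MulF.rat
      (CS.app (k2.snd.fst.comp s1) (CS.finNatAdd (hb.comp s1) s2)).unitsVal
      (k2.snd.snd.fst.comp s1))))))
theorem cs_notIsoL {us : ∀ a, List (TPair (n a))} {Ls : ∀ a, List (LPair (n a))}
    {β : ∀ a, GL (Fin (n a)) ℚ} (hn : CS n) (hu : CS us) (hL : CS Ls) (hβ : CS β) :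
    CS (fun a => ¬ IsoL (us a) (Ls a) (β a)) :=
  have hV : CoordF (fun p : Σ a, LPair (n a) => Fin (n p.1) → ℚ) :=
    CoordF.pi (CFin.fin (hn.comp s1)) Disc.fin
  CS.notAnd (CS.notAllMem hu
      (cs_notFix (hn.comp s1) s2 (hβ.comp s1).unitsVal (hβ.comp s1).unitsInv))
    (CS.notAllMem hL (cs_addNe (hn.comp s1) (CS.lmap hV hV (CS.mulVecLin (CFin.fin (hn.comp s1))
      AddF.rat ZeroF.rat MulF.rat (hβ.comp s1).unitsVal) s2.fst) s2.snd))
end lat

end Pool.Agent.P.MP_257122_al
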