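import Pool.Agent.P.MP_257122_al.KCs2
import Pool.Agent.P.MP_257122_al.KPair
import Pool.Agent.P.MP_257122_al.KNil
import Pool.Agent.P.MP_257122_al.KSj
import Pool.Agent.P.MP_257122_al.KCovG
import Pool.Agent.P.MP_257122_al.KVtf
import Pool.Agent.P.MP_257122_al.NMod

/-!
# Bounds for the derived length are recursively enumerable

A certified cover and two tests in the matrix group.
-/

namespace Pool.Agent.P.MP_257122_al.K

open Polynomial MonoidAlgebra C FOpsAux GResAux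
open scoped commutatorElement Matrix

/-- The first part of the certificate. -/
def Pre {b m : ℕ} (E Y₀ Y : List (Fr b)) (S : Subgroup (Fr b)) (c : ℕ)
    (γ : Fin b → GL (Fin m) ℚ) : Prop :=
  CovG (gen E) (ncl Y) S (c + 1) γ ∧ (∀ y ∈ Y, y ∈ pw (q3 (c + 1)) (ncl Y₀) ⊔ S) ∧
    ∀ x ∈ gensL b, ∀ y ∈ Y₀, x * y * x⁻¹ ∈ gen Y₀ ⊔ ncl Y

section pure
variable {b m c : ℕ} {E Y₀ Y : List (Fr b)} {S : Subgroup (Fr b)} [S.Normal]
  {γ : Fin b → GL (Fin m) ℚ}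

theorem Pre.normal (h : Pre E Y₀ Y S c γ) : (gen Y₀ ⊔ ncl Y).Normal :=
  (mgen_gensL b).normal fun x hx y hy => by
    have : gen Y₀ ⊔ ncl Y ≤ (gen Y₀ ⊔ ncl Y).comap (MulAut.conj x).toMonoidHom :=
      sup_le ((Subgroup.closure_le _).2 (h.2.2 x hx)) fun z hz =>
        Subgroup.mem_sup_right (Subgroup.Normal.conj_mem inferInstance z hz x)
    exact this hy

theorem Pre.ker (h : Pre E Y₀ Y S c γ) : ncl Y ≤ (FreeGroup.lift γ).ker := by
  obtain ⟨_, _, _, _, _, _, _, _, h⟩ := h.1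
  exact h

theorem Pre.vab (h : Pre E Y₀ Y S c γ) (hT : (gen E).Normal ∧ (gen E).FiniteIndex) :
    VAb (ncl Y) := by
  obtain ⟨_, _, _, _, h, _⟩ := h.1
  exact ⟨_, hT.1, hT.2, h.1, h.2.1⟩

theorem Pre.le (h : Pre E Y₀ Y S c γ) : ncl Y ≤ pw (q3 (c + 1)) (ncl Y₀) ⊔ S :=
  Subgroup.normalClosure_le_normal h.2.1

theorem Pre.sound (h : Pre E Y₀ Y S c γ) (hn : NilMod (ncl Y₀) S) {M : Model b}
    (hM : M.ok (kerI γ) (c + 1))
    (ht : ((gen Y₀ ⊔ ncl Y).map M.rho).lowerCentralSeries c ≤ S.map M.rho) : M.rho.ker ≤ S := by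
  have h1 : M.rho.ker ≤ S ⊔ (ncl Y₀).lowerCentralSeries (c + 1) := fun g hg => by
    obtain ⟨a, e⟩ := h.1.sound hM (S' := S ⊔ (ncl Y₀).lowerCentralSeries (c + 1)) le_sup_left hg
    have := (dim_pw (lcs_quot.2 le_sup_right)).anti (N' := (ncl Y).map _)
      ((Subgroup.map_mono h.le).trans (by
        rw [Subgroup.map_sup, pwMap, KCommAux.le_quot.2 le_sup_left, sup_bot_eq])) _ ⟨g, a, rfl⟩
      (Submodule.mem_sup_left e)
    rwa [Subgroup.mem_bot, QuotientGroup.mk'_apply, QuotientGroup.eq_one_iff] at this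
  have := h.normal
  have h2 : ncl Y₀ ≤ gen Y₀ ⊔ ncl Y := Subgroup.normalClosure_le_normal fun y hy =>
    Subgroup.mem_sup_left (Subgroup.subset_closure hy)
  rw [← Subgroup.map_lowerCentralSeries, Subgroup.map_le_map_iff] at ht
  have h3 := lcs_stab (((Subgroup.lowerCentralSeries_mono c h2).trans ht).trans
    (sup_le le_sup_left h1)) hn
  exact h1.trans (sup_le le_rfl
    (((ncl Y₀).lowerCentralSeries_antitone (Nat.le_succ c)).trans h3))

theorem exists_pre [Group.IsSolvable (Fr b ⧸ S)] (hG : FinRank (Fr b ⧸ S)) :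
    ∃ e, ∀ E, gen E = (res e (Fr b ⧸ S)).comap (QuotientGroup.mk' S) →
      ∃ (Y₀ Y : List (Fr b)) (c m : ℕ) (γ : Fin b → GL (Fin m) ℚ), Pre E Y₀ Y S c γ ∧
        NilMod (ncl Y₀) S ∧ S ≤ (FreeGroup.lift γ).ker ∧
        (gen Y₀ ⊔ ncl Y).lowerCentralSeries c ≤ S := by
  have hF : Group.FG (Fr b) := (mgen_gensL b).fg
  have hq := QuotientGroup.mk'_surjective S
  have hQ : Group.FG (Fr b ⧸ S) := ((mgen_gensL b).map _ hq).fg
  have hk : ∀ K : Subgroup (Fr b ⧸ S), S ≤ K.comap (QuotientGroup.mk' S) := fun K =>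
    (QuotientGroup.ker_mk' S).ge.trans (Subgroup.ker_le_comap _ _)
  obtain ⟨e₀, he₀⟩ := exists_nilDres _ hG
  set N₀ := (dres e₀ (Fr b ⧸ S)).comap (QuotientGroup.mk' S) with hN₀
  have hn : NilMod N₀ S := by
    have := he₀.comap (QuotientGroup.mk' S)
    rwa [MonoidHom.comap_bot, QuotientGroup.ker_mk'] at this
  have hV : VAb N₀ := (vab_dres e₀).comap _
  obtain ⟨c, hc⟩ := id hn
  obtain ⟨T₁, hT₁, hi⟩ := vtf hV (sup_le (pwLe (q3 (c + 1)) N₀) (hk _))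
    (relIndex_pw hG hn (q3_pos (c + 1)))
  have hfi : (T₁.map (QuotientGroup.mk' S)).FiniteIndex :=
    ⟨ne_zero_of_dvd_ne_zero hT₁.2.1.1 (Subgroup.index_map_dvd T₁ hq)⟩
  refine ⟨(T₁.map (QuotientGroup.mk' S)).index, fun E hE => ?_⟩
  have hET : gen E ≤ T₁ := by
    rw [hE]
    refine (Subgroup.comap_mono (res_le_of_index le_rfl)).trans ?_
    rw [Subgroup.comap_map_eq, QuotientGroup.ker_mk']
    exact sup_le le_rfl (le_sup_right.trans hT₁.2.2.1)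
  have hEn : (gen E).Normal := hE ▸ inferInstance
  have hEf : (gen E).FiniteIndex := by
    rw [hE]
    exact ⟨by rw [Subgroup.index_comap_of_surjective _ hq]; exact (res_finiteIndex _).1⟩
  have hT : Top (gen E) ((pw (q3 (c + 1)) N₀ ⊔ S) ⊓ gen E) := ⟨hEn, hEf, inf_le_right,
    le_inf ((Subgroup.commutator_mono hET hET).trans hT₁.2.2.2) (Subgroup.commutator_le_self _)⟩
  obtain ⟨m, γ, hγ⟩ := exists_covG hT (fun g hg j hj h => ⟨hi g (hET hg) j hj h.1, hg⟩) hG (c + 1)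
  obtain ⟨Y, hY⟩ := hT.vab.exists_ncl
  obtain ⟨Z, hZ, hZ'⟩ := hT.vab.noeth N₀
  have hS : S ≤ ncl Y := (le_inf le_sup_right ((hk _).trans hE.ge)).trans hY.le
  rw [hY] at hγ hZ'
  have h1 : ncl Y ≤ pw (q3 (c + 1)) N₀ ⊔ S := hY.ge.trans inf_le_left
  have h2 : ncl Y ≤ N₀ := h1.trans (sup_le (pwLe _ _) (hk _))
  have h3 : ∀ y ∈ Z ++ Y, y ∈ N₀ := fun y hy => (List.mem_append.1 hy).elim (hZ y)
    fun hy => h2 (Subgroup.subset_normalClosure hy)
  have h4 : N₀ = gen (Z ++ Y) ⊔ ncl Y := by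
    refine le_antisymm (fun x hx => ?_) (sup_le ((Subgroup.closure_le _).2 h3) h2)
    obtain ⟨l, hl, e⟩ := hZ' x hx
    rw [← inv_mul_cancel_right x l]
    exact mul_mem (Subgroup.mem_sup_right e) (Subgroup.mem_sup_left
      (Subgroup.closure_mono (k := {y | y ∈ Z ++ Y}) (fun y hy => List.mem_append_left Y hy) hl))
  have h5 : ncl (Z ++ Y) = N₀ := le_antisymm (Subgroup.normalClosure_le_normal h3)
    (h4.le.trans (sup_le (Subgroup.closure_le_normalClosure)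
      (Subgroup.normalClosure_mono fun y hy => List.mem_append_right Z hy)))
  have hp : Pre E (Z ++ Y) Y S c γ := ⟨hγ, fun y hy => h5 ▸ h1 (Subgroup.subset_normalClosure hy),
    fun x _ y hy => h4 ▸ Subgroup.Normal.conj_mem inferInstance y (h3 y hy) x⟩
  exact ⟨Z ++ Y, Y, c, m, γ, hp, h5 ▸ hn, hS.trans hp.ker, h4 ▸ hc⟩

end pure

section comp
variable {A : Type} [Rep A]

theorem cs_q3 {c : A → ℕ} (hc : CS c) : CS (fun a => q3 (c a)) :=
  have h1 : CS (fun a => c a + 1) := CS.add AddF.nat hc CS.const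
  have h2 : CS (fun a => 2 * (c a + 1) * (c a + 1)) :=
    CS.mul MulF.nat (CS.mul MulF.nat CS.const h1) h1
  CS.mul MulF.nat (CS.pow MulF.nat OneF.nat hc.factorial hc) (CS.pow MulF.nat OneF.nat
    (CS.pow MulF.nat OneF.nat (CS.pow MulF.nat OneF.nat CS.const
      (CS.add AddF.nat h2 CS.const)).factorial (CS.add AddF.nat h2 CS.const))
    (CS.add AddF.nat (CS.mul MulF.nat CS.const h1) CS.const))

variable {p : A → Pres} {j c m : A → ℕ} {E Y₀ Y : ∀ a, List (Fr (p a).1)}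
  {γ : ∀ a, Fin (p a).1 → GL (Fin (m a)) ℚ}

theorem cs_pre (hp : CS p) (hc : CS c) (hm : CS m) (hE : CS E) (h0 : CS Y₀) (hY : CS Y)
    (hγ : CS γ) (hT : ∀ a, (gen (E a)).Normal ∧ (gen (E a)).FiniteIndex) :
    CS (fun a => Pre (E a) (Y₀ a) (Y a) (p a).S (c a) (γ a)) := by
  have hb := pb hp
  have hF := grpFr hb
  have hS := CS.relS hb (pd hp) (pW hp)
  have h1 : CS (fun a => c a + 1) := CS.add AddF.nat hc CS.const
  have hL : CS (fun a => gen (Y₀ a) ⊔ ncl (Y a)) := CS.subgroupSup hF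
    (CS.closure hF (CS.setOf (CS.memList (grpFr (hb.comp s1)).disc s2 (h0.comp s1))))
    (KNilAux.cs_ncl hb hY)
  have t : CS (fun q : Σ p' : (Σ a, Fr (p a).1), Fr (p p'.1).1 => q.1.1) := s1.comp s1
  exact CS.and (cs_covG hb hm h1 hE hY hS hγ hT fun _ => inferInstance) (CS.and
    (CS.allMem hY (CS.memSubgroup ((CS.subgroupSup hF
      (cs_pw hF (cs_q3 h1) (KNilAux.cs_ncl hb h0)) hS).comp s1) s2))
    (CS.allMem (cs_gensL hb) (CS.allMem (h0.comp s1) (CS.memSubgroup (hL.comp t)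
      (CS.mul MulF.free (CS.mul MulF.free (s2.comp s1) s2) (CS.inv InvF.free (s2.comp s1)))))))

theorem cs_side (hp : CS p) (hm : CS m) (h0 : CS Y₀) (hγ : CS γ) (hG : ∀ a, FinRank (p a).G)
    (hT : ∀ a, (gen (E a)).Normal ∧ (gen (E a)).FiniteIndex)
    (hP : ∀ a, Pre (E a) (Y₀ a) (Y a) (p a).S (c a) (γ a)) :
    CS (fun a => NilMod (ncl (Y₀ a)) (p a).S ∧ (p a).S ≤ (FreeGroup.lift (γ a)).ker) :=
  CS.and (cs_nil hp h0 hG fun a => vab_mono ((hP a).vab (hT a))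
      ((hP a).le.trans (sup_le_sup_right (pwLe _ _) _)))
    (CS.relLeKerGL (wt := fun _ _ => 0) (c := fun _ => 1) (N := fun a => ncl (Y a)) (pb hp) hm
      (CS.lam CS.const) CS.const hγ (pd hp) (pW hp)
      (fun a => ⟨fun _ => Nat.one_pos, fun _ => ⟨fun _ _ h => absurd h (lt_irrefl _),
        fun _ _ h => absurd h (lt_irrefl _)⟩, fun y hy => by
          rw [MonoidHom.mem_ker.1 ((hP a).ker hy)]
          exact IsUni.one⟩) fun a => ⟨inferInstance, (hP a).vab (hT a)⟩)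

theorem btw_test {M : ∀ a, Model (p a).1} (hp : CS p) (hj : CS j) (hc : CS c) (h0 : CS Y₀)
    (hY : CS Y) (hM : CS M) (hT : ∀ a, (gen (E a)).Normal ∧ (gen (E a)).FiniteIndex)
    (hP : ∀ a, Pre (E a) (Y₀ a) (Y a) (p a).S (c a) (γ a))
    (hQ : ∀ a, NilMod (ncl (Y₀ a)) (p a).S ∧ (p a).S ≤ (FreeGroup.lift (γ a)).ker)
    (hMo : ∀ a, (M a).ok (kerI (γ a)) (c a + 1)) :
    Btw (fun a => (gen (Y₀ a) ⊔ ncl (Y a)).lowerCentralSeries (c a) ≤ (p a).S ∧
      derivedSeries (Fr (p a).1) (j a) ≤ (p a).S)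
      (fun a => derivedSeries (Fr (p a).1) (j a) ≤ (p a).S) := by
  have hb := pb hp
  have hn : CS (fun x => (M x).1) := hM.sfst
  have hw : CS (fun x => (M x).2.1) := hM.ssnd.fst
  have hg : CS (fun x => (M x).2.2.1) := hM.ssnd.snd.fst
  have h2 : CS (fun x => c x + 1 + 1) := CS.add AddF.nat (CS.add AddF.nat hc CS.const) CS.const
  have hA := fun a => (hMo a).adapt (le_refl (FreeGroup.lift (γ a)).ker)
  have hV := fun a => vab_mono ((hP a).vab (hT a)) (hP a).ker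
  have hm := CS.ambOf hb hn hw h2 hg
  have hok := fun a => ambOf_ok (hA a)
  have hN := fun a => ambOf_noeth (hA a) (hV a)
  have hR := DS.mapRel hb hn hw h2 hg (pd hp) (pW hp) hA (fun a => ⟨inferInstance, hV a⟩)
    fun a => (hQ a).2
  have hRN := fun a => ambOf_nrm (hA a) (hQ a).2
  have hG : GrpF (fun a => GL (Fin (M a).1) ℚ) := GrpF.gl (CFin.fin hn) Disc.fin
  have e : ∀ a, gen ((Y₀ a).map (M a).rho) ⊔ (ncl (Y a)).map (M a).rho =
      (gen (Y₀ a) ⊔ ncl (Y a)).map (M a).rho := fun a => by rw [Subgroup.map_sup, gen_map]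
  have hZ : CS (fun a => (Y₀ a).map (FreeGroup.lift (M a).2.2.1)) :=
    CS.map (CS.freeLift hG.mul hG.inv hG.one hg).homCoe h0
  have hD : ∀ a, CDerAux.Nor (ambOf (M a).2.1 (c a + 1 + 1) (M a).2.2.1)
      ((gen (Y₀ a) ⊔ ncl (Y a)).map (M a).rho) := fun a => by
    have := (hP a).normal
    refine ⟨?_, ?_⟩
    · rw [ambOf_P]
      exact Subgroup.map_le_range _ _
    · rw [ambOf_P]
      rintro _ ⟨g, rfl⟩ _ ⟨y, hy, rfl⟩
      exact ⟨g * y * g⁻¹, this.conj_mem y hy g, (map_mul (M a).rho _ _).trans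
        (congrArg₂ _ (map_mul (M a).rho _ _) (map_inv (M a).rho _))⟩
  have k1 := cs_lcsLe hm hok hN hc hZ
    (DS.mapNcl hb hn hw h2 hg hY fun a => (hMo a).adapt (hP a).ker)
    (fun a => ambOf_nrm (hA a) (hP a).ker) (fun a => (congrArg (CDerAux.Nor (ambOf _ _ _)) (e a)).ge (hD a)) hR hRN
  refine Btw.of_cs (k1.and (CS.derLe hm hok hN hj hR hRN)) (fun a _ h => ⟨?_, ?_⟩)
    fun a _ h => ?_
  · refine le_trans (le_of_eq ?_) (Subgroup.map_mono h.1)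
    rw [Subgroup.map_lowerCentralSeries]
    exact congrArg (Subgroup.lowerCentralSeries · (c a)) (e a)
  · rw [CDerAux.der_ambOf]
    exact Subgroup.map_mono h.2
  · have h1 := (hP a).sound (hQ a).1 (hMo a) (e a ▸ h.1)
    have h3 := h.2
    rw [CDerAux.der_ambOf] at h3
    exact (Subgroup.map_le_map_iff.1 h3).trans (sup_le le_rfl h1)

end comp

/-- The data of a certificate. -/
abbrev Dat (b : ℕ) : Type :=
  (List (Fr b) × List (Fr b) × ℕ) × Σ m : ℕ, Fin b → GL (Fin m) ℚ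

theorem btw_ex {A : Type} [Rep A] {T : A → Type} [∀ a, Rep (T a)] {L H : (Σ a, T a) → Prop}
    (hE : Enum T) (h : Btw L H) : Btw (fun a => ∃ x, L ⟨a, x⟩) (fun a => ∃ x, H ⟨a, x⟩) :=
  Btw.ex (L := fun a x => L ⟨a, x⟩) (H := fun a x => H ⟨a, x⟩) hE h

theorem btw_dat {A : Type} [Rep A] {p : A → Pres} {j : A → ℕ} {E : ∀ a, List (Fr (p a).1)}
    (hp : CS p) (hj : CS j) (hE : CS E) (hG : ∀ a, FinRank (p a).G)
    (hT : ∀ a, (gen (E a)).Normal ∧ (gen (E a)).FiniteIndex) :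
    Btw (fun a => ∃ x : Dat (p a).1, Pre (E a) x.1.1 x.1.2.1 (p a).S x.1.2.2 x.2.2 ∧
      (NilMod (ncl x.1.1) (p a).S ∧ (p a).S ≤ (FreeGroup.lift x.2.2).ker) ∧
      (gen x.1.1 ⊔ ncl x.1.2.1).lowerCentralSeries x.1.2.2 ≤ (p a).S ∧
      derivedSeries (Fr (p a).1) (j a) ≤ (p a).S)
      (fun a => derivedSeries (Fr (p a).1) (j a) ≤ (p a).S) := by
  have hF := (grpFr (pb hp)).enum.list
  have hD : Enum (fun a => Dat (p a).1) := (hF.prod (hF.prod Enum.nat)).prod (Enum.sigma Enum.nat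
    (Enum.pi (CFin.fin ((pb hp).comp s1)) Disc.fin
      ((GrpF.gl (CFin.fin s2) Disc.fin).enum.comp s1)))
  let P : (Σ a, Dat (p a).1) → Prop := fun q =>
    Pre (E q.1) q.2.1.1 q.2.1.2.1 (p q.1).S q.2.1.2.2 q.2.2.2
  have hz : CS (fun q : Σ a, Dat (p a).1 => q.2) := s2
  have hP : CS P := cs_pre (hp.comp s1) hz.fst.snd.snd hz.snd.sfst (hE.comp s1) hz.fst.fst
    hz.fst.snd.fst (FEnumAux.s2 hz.snd) fun q => hT _
  let Q : Subtype P → Prop := fun q =>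
    NilMod (ncl q.1.2.1.1) (p q.1.1).S ∧ (p q.1.1).S ≤ (FreeGroup.lift q.1.2.2.2).ker
  have hy : CS (fun q : Subtype P => q.1.2) := v2
  have hQ : CS Q := cs_side (hp.comp v1) hy.snd.sfst hy.fst.fst (FEnumAux.s2 hy.snd)
    (fun q => hG _) (fun q => hT _) fun q => q.2
  have ha : CS (fun q : Subtype Q => q.1.1.1) := v1.comp FEnumAux.v1
  have hx : CS (fun q : Subtype Q => q.1.1.2) := v2.comp FEnumAux.v1
  have key : Btw (fun q : Subtype Q =>
      (gen q.1.1.2.1.1 ⊔ ncl q.1.1.2.1.2.1).lowerCentralSeries q.1.1.2.1.2.2 ≤ (p q.1.1.1).S ∧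
        derivedSeries (Fr (p q.1.1.1).1) (j q.1.1.1) ≤ (p q.1.1.1).S)
      (fun q => derivedSeries (Fr (p q.1.1.1).1) (j q.1.1.1) ≤ (p q.1.1.1).S) :=
    Btw.bind (mv_model (pb (hp.comp ha)) hx.snd.sfst (CS.add AddF.nat hx.fst.snd.snd CS.const)
      (FEnumAux.s2 hx.snd)) (btw_test ((hp.comp ha).comp v1) ((hj.comp ha).comp v1)
        (hx.fst.snd.snd.comp v1) (hx.fst.fst.comp v1) (hx.fst.snd.fst.comp v1) v2
        (fun r => hT _) (fun r => r.1.1.1.2) (fun r => r.1.1.2) fun r => r.2)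
  refine (btw_ex hD (Btw.sub hP (Btw.sub hQ key))).mono ?_ ?_
  · rintro a - ⟨x, h1, h2, h3⟩
    exact ⟨x, h1, h2, h3⟩
  · rintro a - ⟨x, _, _, h⟩
    exact h

theorem derLe : CS (fun a : {a : Pres × ℕ // FinRank a.1.G} =>
    derivedSeries (Fr a.1.1.1) a.1.2 ≤ a.1.1.S) := by
  have h0 : CS (fun q : Σ _ : {a : Pres × ℕ // FinRank a.1.G}, ℕ => q.1.1) := FEnumAux.v1.comp s1
  have hp := h0.fst
  have hj := h0.snd
  have key : Btw (fun q : Σ _ : {a : Pres × ℕ // FinRank a.1.G}, ℕ =>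
      (∀ E, gen E = (res q.2 q.1.1.1.G).comap q.1.1.1.q → ∃ x : Dat q.1.1.1.1,
        Pre E x.1.1 x.1.2.1 q.1.1.1.S x.1.2.2 x.2.2 ∧
        (NilMod (ncl x.1.1) q.1.1.1.S ∧ q.1.1.1.S ≤ (FreeGroup.lift x.2.2).ker) ∧
        (gen x.1.1 ⊔ ncl x.1.2.1).lowerCentralSeries x.1.2.2 ≤ q.1.1.1.S ∧
        derivedSeries (Fr q.1.1.1.1) q.1.1.2 ≤ q.1.1.1.S))
      (fun q => derivedSeries (Fr q.1.1.1.1) q.1.1.2 ≤ q.1.1.1.S) := by
    refine Btw.bind (MV.gensRes hp s2) ((btw_dat (hp.comp v1) (hj.comp v1) v2 (fun r => r.1.1.1.2)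
      fun r => ?_).mono (fun r _ h => h _ r.2) fun _ _ h => h)
    have : Group.FG r.1.1.1.1.1.G := ((mgen_gensL _).map _ (QuotientGroup.mk'_surjective _)).fg
    rw [gen, r.2]
    exact ⟨inferInstance, ⟨by
      rw [Subgroup.index_comap_of_surjective _ (QuotientGroup.mk'_surjective _)]
      exact (res_finiteIndex _).1⟩⟩
  refine Btw.to_cs ((btw_ex Enum.nat key).mono (fun a _ h => ?_) ?_)
  · obtain ⟨e, he⟩ := exists_pre a.2
    refine ⟨e, fun E hE => ?_⟩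
    obtain ⟨Y₀, Y, c, m, γ, h1, h2, h3, h4⟩ := he E hE
    exact ⟨((Y₀, Y, c), ⟨m, γ⟩), h1, ⟨h2, h3⟩, h4, h⟩
  · rintro a - ⟨_, h⟩
    exact h

end Pool.Agent.P.MP_257122_al.K
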