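import Pool.Agent.P.MP_257122_al.KDefs

/-!
# Commutator calculus

PLAN.  `three_sub`: pass to `G ⧸ K`, `Subgroup.commutator_commutator_eq_bot_of_rotate`.
`lcs_comm`: induction on `j` for all `i`, `three_sub`.
`lcs_gen_le`: first for a group `H` with `gen Y = ⊤` and all commutators trivial, induction on `c`
for all `H`: the elements of `comms Y c` commute with `Y`, so they are central; pass to
`H ⧸ center H`, `Subgroup.lowerCentralSeries_succ_eq_bot`.  Then apply it to the subgroup
`gen (Y.map (mk' K))` of `G ⧸ K`.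
`frat_lcs`: put `K = L.lcs (i+1) ⊔ N.lcs (i+2) ⊔ pw p (N.lcs (i+1))`.  Modulo the normal subgroup
`N.lcs (i+2)` the commutator `⁅a, b⁆` (`a ∈ N.lcs i`, `b ∈ N`) is bimultiplicative, so for fixed `b` the
`a ∈ N.lcs i` with `⁅a, b⁆ ∈ K` form a subgroup, and likewise for fixed `a`.  First `b ∈ L` (generators
`a ∈ L.lcs i`, `a ∈ N.lcs (i+1)`, `a = u ^ p`), then `b ∈ ⁅N, N⁆` (`lcs_comm`) and `b = v ^ p`.
`le_of_frat_nil`: `frat_lcs` with `p = 0`.   `hom_pow_lcs`: induction on `m`, the same bilinearity.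
-/

namespace Pool.Agent.P.MP_257122_al.K

open Polynomial MonoidAlgebra C
open scoped commutatorElement Matrix

variable {G H : Type} [Group G] [Group H]

namespace KCommAux

theorem le_quot {A K : Subgroup G} [K.Normal] : A.map (QuotientGroup.mk' K) = ⊥ ↔ A ≤ K := by
  rw [Subgroup.map_eq_bot_iff, QuotientGroup.ker_mk']

theorem pow_left {u b : G} (h : Commute u ⁅u, b⁆) (p : ℕ) : ⁅u ^ p, b⁆ = ⁅u, b⁆ ^ p := by
  induction p with
  | zero => simp
  | succ p ih =>
    rw [pow_succ' u, commutatorElement_mul_left_eq_conj_mul, ih, (h.pow_right p).eq,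
      mul_inv_cancel_right, pow_succ]

theorem pow_right {a v : G} (h : Commute v ⁅a, v⁆) (p : ℕ) : ⁅a, v ^ p⁆ = ⁅a, v⁆ ^ p := by
  rw [← commutatorElement_inv, pow_left (by rw [← commutatorElement_inv]; exact h.inv_right),
    ← inv_pow, commutatorElement_inv]

theorem sub_left {N K : Subgroup G} (hK : ∀ n ∈ N, ∀ k ∈ K, n * k * n⁻¹ ∈ K) (b : G) :
    ∃ S : Subgroup G, ∀ a, a ∈ S ↔ a ∈ N ∧ ⁅a, b⁆ ∈ K :=
  ⟨{ carrier := {a | a ∈ N ∧ ⁅a, b⁆ ∈ K}
     one_mem' := ⟨N.one_mem, by simp⟩
     mul_mem' := fun {x y} hx hy => ⟨N.mul_mem hx.1 hy.1, by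
       rw [commutatorElement_mul_left_eq_conj_mul]
       exact K.mul_mem (hK _ hx.1 _ hy.2) hx.2⟩
     inv_mem' := fun {x} hx => ⟨N.inv_mem hx.1, by
       have := hK _ (N.inv_mem hx.1) _ (K.inv_mem hx.2)
       rwa [commutatorElement_inv, inv_inv, ← commutatorElement_inv_left] at this⟩ },
    fun _ => Iff.rfl⟩

end KCommAux

open KCommAux

theorem three_sub {A B C K : Subgroup G} [K.Normal] (h1 : ⁅⁅B, C⁆, A⁆ ≤ K) (h2 : ⁅⁅C, A⁆, B⁆ ≤ K) :
    ⁅⁅A, B⁆, C⁆ ≤ K := by
  rw [← le_quot, Subgroup.map_commutator, Subgroup.map_commutator] at h1 h2 ⊢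
  exact Subgroup.commutator_commutator_eq_bot_of_rotate h1 h2

theorem lcs_comm (N : Subgroup G) [N.Normal] (i j : ℕ) :
    ⁅N.lowerCentralSeries i, N.lowerCentralSeries j⁆ ≤ N.lowerCentralSeries (i + j + 1) := by
  induction j generalizing i with
  | zero => exact le_rfl
  | succ j ih =>
    rw [Subgroup.commutator_comm, N.lowerCentralSeries_succ j]
    refine three_sub ?_ (Subgroup.commutator_mono (ih i) le_rfl)
    rw [Subgroup.commutator_comm N, show i + (j + 1) + 1 = i + 1 + j + 1 by omega]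
    exact ih (i + 1)

theorem lcs_quot {N S : Subgroup G} [S.Normal] {c : ℕ} :
    (N.map (QuotientGroup.mk' S)).lowerCentralSeries c = ⊥ ↔ N.lowerCentralSeries c ≤ S := by
  rw [← Subgroup.map_lowerCentralSeries, le_quot]

theorem nilMod_quot {N S : Subgroup G} [S.Normal] :
    NilMod (N.map (QuotientGroup.mk' S)) ⊥ ↔ NilMod N S :=
  exists_congr fun _ => le_bot_iff.trans lcs_quot

theorem nilMod_mono {N N' S S' : Subgroup G} (h : NilMod N S) (hN : N' ≤ N) (hS : S ≤ S') :
    NilMod N' S' :=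
  h.imp fun c hc => (Subgroup.lowerCentralSeries_mono c hN).trans (hc.trans hS)

theorem comms_map (f : G →* H) (Y : List G) (c : ℕ) :
    comms (Y.map f) c = (comms Y c).map f := by
  induction c with
  | zero => rfl
  | succ c ih =>
    rw [comms_succ, comms_succ, ih, List.flatMap_map, List.map_flatMap]
    simp only [List.map_map, Function.comp_def, map_commutatorElement]

theorem comms_mem (Y : List G) (c : ℕ) : ∀ z ∈ comms Y c, z ∈ (gen Y).lowerCentralSeries c := by
  induction c with
  | zero => exact fun z hz => Subgroup.subset_closure hz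
  | succ c ih =>
    intro z hz
    rw [comms_succ] at hz
    obtain ⟨x, hx, hz⟩ := List.mem_flatMap.1 hz
    obtain ⟨y, hy, rfl⟩ := List.mem_map.1 hz
    exact Subgroup.commutator_mem_commutator (ih x hx) (Subgroup.subset_closure hy)

theorem KCommAux.top_bot (c : ℕ) : ∀ (G : Type) [Group G] (Y : List G), gen Y = ⊤ →
    (∀ z ∈ comms Y c, z = 1) → (⊤ : Subgroup G).lowerCentralSeries c = ⊥ := by
  induction c with
  | zero =>
    intro G _ Y hY h
    rw [← hY]
    exact Subgroup.closure_eq_bot_iff.2 h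
  | succ c ih =>
    intro G _ Y hY h
    refine Subgroup.lowerCentralSeries_succ_eq_bot _ (lcs_quot.1 ?_)
    have e := Subgroup.map_top_of_surjective _ (QuotientGroup.mk'_surjective (Subgroup.center G))
    rw [e]
    refine ih _ (Y.map (QuotientGroup.mk' _)) (by rw [← gen_map, hY, e]) fun z hz => ?_
    rw [comms_map] at hz
    obtain ⟨z, hz', rfl⟩ := List.mem_map.1 hz
    refine (QuotientGroup.eq_one_iff _).2 (Subgroup.mem_center_iff.2 fun g => ?_)
    have : gen Y ≤ Subgroup.centralizer {z} := (Subgroup.closure_le _).2 fun y hy =>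
      Subgroup.mem_centralizer_singleton_iff.2 (commutatorElement_eq_one_iff_mul_comm.1 (h _ (by
        rw [comms_succ]
        exact List.mem_flatMap.2 ⟨z, hz', List.mem_map_of_mem hy⟩))).symm
    exact Subgroup.mem_centralizer_singleton_iff.1 (this (hY ▸ Subgroup.mem_top g))

theorem lcs_gen_le {K : Subgroup G} [K.Normal] {Y : List G} {c : ℕ}
    (h : ∀ z ∈ comms Y c, z ∈ K) : (gen Y).lowerCentralSeries c ≤ K := by
  rw [← lcs_quot, gen_map]
  set Y' := Y.map (QuotientGroup.mk' K) with hY'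
  obtain ⟨Z, hZ⟩ : ∃ Z : List (gen Y'), Z.map (gen Y').subtype = Y' :=
    ⟨Y'.attachWith _ fun y hy => Subgroup.subset_closure hy, List.attachWith_map_subtype_val _⟩
  rw [← Subgroup.top_subtype_lowerCentralSeries, top_bot c _ Z ?_ fun z hz => ?_, Subgroup.map_bot]
  · refine Subgroup.map_injective (gen Y').subtype_injective ?_
    rw [gen_map, hZ, ← MonoidHom.range_eq_map, Subgroup.subtype_range]
  · have e0 : (comms Z c).map (gen Y').subtype = (comms Y c).map (QuotientGroup.mk' K) := by
      rw [← comms_map, hZ, ← comms_map]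
    have := List.mem_map_of_mem (f := (gen Y').subtype) hz
    rw [e0] at this
    obtain ⟨x, hx, e⟩ := List.mem_map.1 this
    exact Subtype.ext (e.symm.trans ((QuotientGroup.eq_one_iff _).2 (h x hx)))

theorem frat_lcs {L N : Subgroup G} [N.Normal] (hL : L ≤ N) {p : ℕ}
    (h : N ≤ L ⊔ ⁅N, N⁆ ⊔ pw p N) (i : ℕ) : N.lowerCentralSeries i ≤
      L.lowerCentralSeries i ⊔ N.lowerCentralSeries (i + 1) ⊔ pw p (N.lowerCentralSeries i) := by
  induction i with
  | zero => exact h
  | succ i ih =>
    set K := L.lowerCentralSeries (i + 1) ⊔ N.lowerCentralSeries (i + 1 + 1) ⊔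
      pw p (N.lowerCentralSeries (i + 1)) with hKdef
    have k2 : N.lowerCentralSeries (i + 1 + 1) ≤ K := le_sup_right.trans le_sup_left
    have k1 : K ≤ N.lowerCentralSeries (i + 1) := sup_le (sup_le
      (Subgroup.lowerCentralSeries_mono _ hL) (N.lowerCentralSeries_antitone (Nat.le_succ _)))
      (pwLe _ _)
    have c2 : ∀ n ∈ N, ∀ k ∈ N.lowerCentralSeries (i + 1),
        ⁅n, k⁆ ∈ N.lowerCentralSeries (i + 1 + 1) := fun n hn k hk => by
      rw [← commutatorElement_inv]
      exact inv_mem (Subgroup.commutator_mem_commutator hk hn)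
    have hK : ∀ n ∈ N, ∀ k ∈ K, n * k * n⁻¹ ∈ K := fun n hn k hk => by
      have := K.mul_mem (k2 (c2 n hn k (k1 hk))) hk
      rwa [commutatorElement_def, inv_mul_cancel_right] at this
    have hp : ∀ u ∈ N, ∀ b, ⁅u, b⁆ ∈ N.lowerCentralSeries (i + 1) → ⁅u ^ p, b⁆ ∈ K := by
      intro u hu b hb
      have e : ⁅u ^ p, b⁆ * (⁅u, b⁆ ^ p)⁻¹ ∈ N.lowerCentralSeries (i + 1 + 1) := by
        refine gb_eq.2 ?_
        show QuotientGroup.mk' _ _ = QuotientGroup.mk' _ _
        rw [map_pow, map_commutatorElement, map_commutatorElement, map_pow]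
        refine pow_left (commutatorElement_eq_one_iff_commute.1 ?_) p
        rw [← map_commutatorElement, ← map_commutatorElement]
        exact (QuotientGroup.eq_one_iff _).2 (c2 u hu _ hb)
      simpa using K.mul_mem (k2 e) (Subgroup.mem_sup_right (pwMem hb))
    have s1 : ∀ b ∈ L, ∀ a ∈ N.lowerCentralSeries i, ⁅a, b⁆ ∈ K := by
      intro b hb a ha
      obtain ⟨S, hS⟩ := sub_left hK b
      refine ((hS a).1 (ih.trans (sup_le (sup_le (fun x hx => ?_) fun x hx => ?_)
        (pwLeIff.2 fun x hx => ?_)) ha)).2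
      · exact (hS x).2 ⟨hL (L.lowerCentralSeries_le_self i hx), Subgroup.mem_sup_left
          (Subgroup.mem_sup_left (Subgroup.commutator_mem_commutator hx hb))⟩
      · exact (hS x).2 ⟨N.lowerCentralSeries_le_self _ hx,
          k2 (Subgroup.commutator_mem_commutator hx (hL hb))⟩
      · have hx' := N.lowerCentralSeries_le_self _ hx
        exact (hS _).2 ⟨pow_mem hx' p, hp x hx' b (Subgroup.commutator_mem_commutator hx (hL hb))⟩
    refine Subgroup.commutator_le.2 fun a ha b hb => ?_
    obtain ⟨S, hS⟩ := sub_left hK a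
    rw [← commutatorElement_inv]
    refine inv_mem ((hS b).1 (h.trans (sup_le (sup_le (fun x hx => ?_) fun x hx => ?_)
      (pwLeIff.2 fun x hx => ?_)) hb)).2
    · refine (hS x).2 ⟨hL hx, ?_⟩
      rw [← commutatorElement_inv]
      exact inv_mem (s1 x hx a ha)
    · refine (hS x).2 ⟨N.commutator_le_self hx, k2 ?_⟩
      rw [← commutatorElement_inv]
      exact inv_mem (lcs_comm N i 1 (Subgroup.commutator_mem_commutator ha hx))
    · refine (hS _).2 ⟨pow_mem hx p, hp x hx a ?_⟩
      rw [← commutatorElement_inv]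
      exact inv_mem (Subgroup.commutator_mem_commutator ha hx)

theorem le_of_frat_nil {L N : Subgroup G} [N.Normal] (hL : L ≤ N) (h : N ≤ L ⊔ ⁅N, N⁆)
    (hn : NilMod N ⊥) : N ≤ L := by
  obtain ⟨c, hc⟩ := hn
  have key : ∀ i, N ≤ L ⊔ N.lowerCentralSeries i := by
    intro i
    induction i with
    | zero => exact le_sup_right
    | succ i ih =>
      refine ih.trans (sup_le le_sup_left ((frat_lcs (p := 0) hL (h.trans le_sup_left) i).trans
        (sup_le (sup_le_sup_right (L.lowerCentralSeries_le_self i) _)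
          (pwLeIff.2 fun y _ => ?_))))
      rw [pow_zero]
      exact one_mem _
  exact (key c).trans (sup_le le_rfl (hc.trans bot_le))

theorem hom_pow_lcs (φ : G →* G) (n : ℕ)
    (h : ∀ g, φ g * (g ^ n)⁻¹ ∈ (⊤ : Subgroup G).lowerCentralSeries 1) (m : ℕ) {x : G}
    (hx : x ∈ (⊤ : Subgroup G).lowerCentralSeries m) :
    φ x * (x ^ n ^ (m + 1))⁻¹ ∈ (⊤ : Subgroup G).lowerCentralSeries (m + 1) := by
  induction m generalizing x with
  | zero => simpa using h x
  | succ m ih =>
    set π := QuotientGroup.mk' ((⊤ : Subgroup G).lowerCentralSeries (m + 1 + 1)) with hπ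
    have hz : ∀ z ∈ (⊤ : Subgroup G).lowerCentralSeries (m + 1), ∀ y, Commute (π z) y := by
      intro z hz y
      obtain ⟨y, rfl⟩ := QuotientGroup.mk'_surjective _ y
      rw [← commutatorElement_eq_one_iff_commute, ← hπ, ← map_commutatorElement]
      exact (QuotientGroup.eq_one_iff _).2 (Subgroup.commutator_mem_commutator hz trivial)
    refine gb_eq.2 ?_
    show π (φ x) = π (x ^ n ^ (m + 1 + 1))
    rw [map_pow]
    refine Subgroup.closure_induction
      (p := fun x _ => π (φ x) = π x ^ n ^ (m + 1 + 1)) ?_ (by simp only [map_one, one_pow]) ?_ ?_ hx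
    · rintro _ ⟨a, ha, g, -, rfl⟩
      have c : ∀ a ∈ (⊤ : Subgroup G).lowerCentralSeries m, ∀ g y, Commute y ⁅π a, π g⁆ :=
        fun a ha g y => by
          rw [← map_commutatorElement]
          exact (hz _ (Subgroup.commutator_mem_commutator ha trivial) y).symm
      have e1 : φ a = φ a * (a ^ n ^ (m + 1))⁻¹ * a ^ n ^ (m + 1) := by simp
      have e2 : φ g = φ g * (g ^ n)⁻¹ * g ^ n := by simp
      have ha' := pow_mem ha (n ^ (m + 1))
      have t1 : ⁅π (a ^ n ^ (m + 1)), π (φ g * (g ^ n)⁻¹)⁆ = 1 := by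
        rw [← map_commutatorElement]
        exact (QuotientGroup.eq_one_iff _).2
          (lcs_comm ⊤ m 1 (Subgroup.commutator_mem_commutator ha' (h g)))
      rw [map_commutatorElement, map_commutatorElement, map_commutatorElement, e1, map_mul π,
        commutatorElement_mul_left_eq_conj_mul, (hz _ (ih ha) _).eq, mul_inv_cancel_right,
        (hz _ (ih ha) _).commutator_eq, mul_one, e2, map_mul π,
        commutatorElement_mul_right_eq_mul_conj, t1, one_mul, (c _ ha' _ _).eq,
        mul_inv_cancel_right, map_pow π g, pow_right (c _ ha' _ _), map_pow,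
        pow_left (c _ ha _ _), ← pow_mul, ← pow_succ]
    · intro x y hx _ ex ey
      rw [map_mul, map_mul, ex, ey, map_mul, (hz x hx _).mul_pow]
    · intro x _ ex
      rw [map_inv, map_inv, ex, map_inv, inv_pow]

theorem lcs_stab {N S : Subgroup G} [N.Normal] [S.Normal] {c : ℕ}
    (h : N.lowerCentralSeries c ≤ S ⊔ N.lowerCentralSeries (c + 1)) (hn : NilMod N S) :
    N.lowerCentralSeries c ≤ S := by
  obtain ⟨d, hd⟩ := hn
  rw [← lcs_quot] at hd ⊢
  have h0 := Subgroup.map_mono (f := QuotientGroup.mk' S) h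
  rw [Subgroup.map_sup, le_quot.2 le_rfl, bot_sup_eq, Subgroup.map_lowerCentralSeries,
    Subgroup.map_lowerCentralSeries] at h0
  have h1 : ∀ j, (N.map (QuotientGroup.mk' S)).lowerCentralSeries c ≤
      (N.map (QuotientGroup.mk' S)).lowerCentralSeries (c + j) := by
    intro j
    induction j with
    | zero => exact le_rfl
    | succ j ih => exact h0.trans (Subgroup.commutator_mono ih le_rfl)
  exact le_bot_iff.1 ((h1 d).trans (hd ▸ Subgroup.lowerCentralSeries_antitone _ (by omega)))

end Pool.Agent.P.MP_257122_al.K
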