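import Pool.Agent.P.MP_257122_al.KComm

/-!
# Dimension subgroups of finite nilpotent groups

PLAN.  Reduce to `N = ⊤` in the finite nilpotent group `N` (`gmap` of the inclusion is injective, `map_aug`,
`Submodule.map_pow`).  For a finite `p`-group `P` some power of the augmentation ideal `A` of `(ZMod p)[P]`
vanishes: if `W ≠ 0` is a finite `(ZMod p)[P]`-module then `A W ≠ W` (a simple quotient has a nonzero fixed
vector by `IsPGroup.exists_fixed_point_of_prime_dvd_card_of_fixed_point` or `IsPGroup.card_modEq_card_fixedPoints`, so `P`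
acts trivially on it); or induction on `P` along a central element `z` of order `p` with `(z - 1) ^ p = 0`.
Reduce `ℤ[P] → (ZMod p)[P]`.  A finite nilpotent group is the product of its Sylow subgroups
(`Group.isNilpotent_of_finite_tfae`, `Sylow.directProductOfNormal`); use `Dim.comap`, `Dim.mono`.
-/

namespace Pool.Agent.P.MP_257122_al.K

open Polynomial MonoidAlgebra C
open scoped commutatorElement Matrix

namespace KFinNilAux

variable {P V : Type} [Group P] [AddCommGroup V]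

/-- The vectors that are fixed modulo `U`. -/
def stp (ρ : P →* Module.End ℤ V) (U : Submodule ℤ V) : Submodule ℤ V :=
  ⨅ g, U.comap (ρ g - 1)

theorem mem_stp {ρ : P →* Module.End ℤ V} {U : Submodule ℤ V} {v : V} :
    v ∈ stp ρ U ↔ ∀ g, ρ g v - v ∈ U := by
  simp [stp]

theorem lt_stp [Finite V] {p : ℕ} [Fact p.Prime] (hP : IsPGroup p P) (hV : ∀ v : V, p • v = 0)
    (ρ : P →* Module.End ℤ V) {U : Submodule ℤ V} (hU : ∀ g, ∀ u ∈ U, ρ g u ∈ U) (h : U ≠ ⊤) :
    U < stp ρ U := by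
  let _ : MulAction P (V ⧸ U) :=
    { smul := fun g => U.mapQ U (ρ g) (hU g)
      one_smul := fun x => by
        obtain ⟨v, rfl⟩ := U.mkQ_surjective x
        change U.mkQ (ρ 1 v) = _
        rw [map_one]; rfl
      mul_smul := fun a b x => by
        obtain ⟨v, rfl⟩ := U.mkQ_surjective x
        change U.mkQ (ρ (a * b) v) = U.mkQ (ρ a (ρ b v))
        rw [map_mul]; rfl }
  have h1 : Finite (V ⧸ U) := Finite.of_surjective _ U.mkQ_surjective
  obtain ⟨w, -, hw⟩ := SetLike.exists_of_lt (lt_top_iff_ne_top.2 h)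
  have h2 : addOrderOf (U.mkQ w) = p := addOrderOf_eq_prime (by rw [← map_nsmul, hV, map_zero])
    fun h0 => hw ((Submodule.Quotient.mk_eq_zero U).1 h0)
  obtain ⟨b, hb, hb0⟩ := hP.exists_fixed_point_of_prime_dvd_card_of_fixed_point (α := V ⧸ U)
    (h2 ▸ addOrderOf_dvd_natCard _) (a := 0) fun g => map_zero (U.mapQ U (ρ g) (hU g))
  obtain ⟨v, rfl⟩ := U.mkQ_surjective b
  refine lt_of_le_of_ne (fun u hu => mem_stp.2 fun g => U.sub_mem (hU g u hu) hu) fun e => hb0 ?_
  have h3 : v ∈ stp ρ U := mem_stp.2 fun g => (Submodule.Quotient.eq U).1 (hb g)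
  exact ((Submodule.Quotient.mk_eq_zero U).2 (e ▸ h3)).symm

theorem exists_pow [Finite V] {p : ℕ} [Fact p.Prime] (hP : IsPGroup p P) (hV : ∀ v : V, p • v = 0)
    (ρ : P →* Module.End ℤ V) (U : Submodule ℤ V) : (∀ g, ∀ u ∈ U, ρ g u ∈ U) →
    ∃ k, ∀ a ∈ aug ℤ (⊤ : Subgroup P) ^ k, ∀ v, MonoidAlgebra.lift ℤ _ _ ρ a v ∈ U := by
  induction U using WellFoundedGT.induction with
  | ind U ih =>
    intro hU
    by_cases h : U = ⊤
    · exact ⟨0, fun _ _ _ => h ▸ trivial⟩
    obtain ⟨k, hk⟩ := ih _ (lt_stp hP hV ρ hU h) fun g u hu => mem_stp.2 fun g' => by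
      have := U.sub_mem (mem_stp.1 hu (g' * g)) (mem_stp.1 hu g)
      rwa [sub_sub_sub_cancel_right, map_mul] at this
    have key : ∀ x ∈ aug ℤ (⊤ : Subgroup P), ∀ w ∈ stp ρ U, MonoidAlgebra.lift ℤ _ _ ρ x w ∈ U := by
      intro x hx w hw
      induction hx using Submodule.span_induction with
      | mem x hx =>
        obtain ⟨g, -, rfl⟩ := hx
        rw [map_sub, map_one, MonoidAlgebra.lift_of]
        exact mem_stp.1 hw g
      | zero => simp
      | add x y _ _ hx hy => rw [map_add]; exact U.add_mem hx hy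
      | smul r x _ hx => rw [map_smul]; exact U.smul_mem r hx
    refine ⟨k + 1, fun a ha v => ?_⟩
    rw [pow_succ'] at ha
    refine Submodule.mul_induction_on ha (fun x hx y hy => ?_) fun x y hx hy => ?_
    · rw [map_mul]
      exact key x hx _ (hk y hy v)
    · rw [map_add]
      exact U.add_mem hx hy

theorem dim_p [Finite P] {p : ℕ} [Fact p.Prime] (hP : IsPGroup p P) :
    DimMod (⊤ : Subgroup P) ⊥ := by
  classical
  let ρ : P →* Module.End ℤ (P → ZMod p) :=
    { toFun := fun g => LinearMap.funLeft ℤ (ZMod p) (· * g)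
      map_one' := LinearMap.ext fun f => _root_.funext fun x => congrArg f (mul_one x)
      map_mul' := fun a b => LinearMap.ext fun f => _root_.funext fun x =>
        congrArg f (mul_assoc x a b).symm }
  obtain ⟨k, hk⟩ := exists_pow (V := P → ZMod p) hP (fun v => _root_.funext fun x => by simp) ρ ⊥ fun g u hu => by
    rw [(Submodule.mem_bot ℤ).1 hu, map_zero]; exact Submodule.zero_mem _
  refine ⟨k, fun g _ hg => ?_⟩
  rw [aug_bot, Submodule.mul_bot, sup_bot_eq] at hg
  have h1 : aug ℤ (⊤ : Subgroup P) ^ (k + 1) ≤ aug ℤ (⊤ : Subgroup P) ^ k * ⊤ := by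
    rw [pow_succ]; exact mul_le_mul_right le_top _
  have h2 : ∀ a ∈ aug ℤ (⊤ : Subgroup P) ^ k * ⊤, ∀ v, MonoidAlgebra.lift ℤ _ _ ρ a v = 0 := by
    intro a ha v
    refine Submodule.mul_induction_on ha (fun x hx y _ => ?_) fun x y hx hy => ?_
    · rw [map_mul]
      exact hk x hx _
    · rw [map_add, LinearMap.add_apply, hx, hy, add_zero]
  have h3 := congrFun (h2 _ (h1 hg) (Pi.single 1 1)) 1
  rw [map_sub, map_one, MonoidAlgebra.lift_of] at h3
  by_contra h0
  have h4 : (Pi.single (1 : P) (1 : ZMod p) : P → ZMod p) (1 * g) -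
    (Pi.single (1 : P) (1 : ZMod p) : P → ZMod p) 1 = 0 := h3
  rw [one_mul, Pi.single_eq_of_ne h0, Pi.single_eq_same] at h4
  simp at h4

theorem dim_hom {H : Type} [Group H] {k : ℕ} (h : Dim (⊤ : Subgroup H) ⊥ k) (f : P →* H) {g : P}
    (hg : of ℤ P g - 1 ∈ aug ℤ (⊤ : Subgroup P) ^ (k + 1) ⊔ ⊤ * aug ℤ (⊥ : Subgroup P)) :
    f g = 1 := by
  refine h.comap f g trivial ?_
  rw [aug_bot, Submodule.mul_bot, sup_bot_eq] at hg
  exact Submodule.mem_sup_left hg

theorem dim_nil [Finite P] [h : Group.IsNilpotent P] : DimMod (⊤ : Subgroup P) ⊥ := by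
  obtain ⟨e⟩ : Nonempty ((∀ p : (Nat.card P).primeFactors, ∀ Q : Sylow p P, (Q : Subgroup P)) ≃* P) :=
    (Group.isNilpotent_of_finite_tfae.out 0 4).mp h
  have key : ∀ i : Σ p : (Nat.card P).primeFactors, Sylow p P,
      DimMod (⊤ : Subgroup (i.2 : Subgroup P)) ⊥ := fun i =>
    haveI : Fact (i.1 : ℕ).Prime := ⟨Nat.prime_of_mem_primeFactors i.1.2⟩
    dim_p i.2.isPGroup'
  choose k hk using key
  obtain ⟨K, hK⟩ := Finite.exists_le k
  refine ⟨K, fun g _ hg => ?_⟩
  rw [Subgroup.mem_bot, ← e.symm.map_eq_one_iff]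
  funext p Q
  exact dim_hom ((hk ⟨p, Q⟩).mono (hK _)) ((Pi.evalMonoidHom _ Q).comp
    ((Pi.evalMonoidHom (fun p : (Nat.card P).primeFactors => ∀ Q : Sylow p P, (Q : Subgroup P))
      p).comp e.symm.toMonoidHom)) hg

end KFinNilAux

theorem dimMod_finite {G : Type} [Group G] {N : Subgroup G} [Finite N] (h : NilMod N ⊥) :
    DimMod N ⊥ := by
  have h1 : Group.IsNilpotent N :=
    (Subgroup.isNilpotent_iff_lowerCentralSeries N).2 (h.imp fun _ => le_bot_iff.1)
  obtain ⟨k, hk⟩ := KFinNilAux.dim_nil (P := N)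
  refine ⟨k, fun g hg hx => ?_⟩
  have e : (⊤ : Subgroup N).map N.subtype = N := by
    rw [← MonoidHom.range_eq_map, Subgroup.subtype_range]
  rw [aug_bot, Submodule.mul_bot, sup_bot_eq, ← e, ← map_aug, ← Submodule.map_pow] at hx
  obtain ⟨a, ha, e'⟩ := hx
  have h2 : a = of ℤ N ⟨g, hg⟩ - 1 :=
    MonoidAlgebra.mapDomain_injective (R := ℤ) N.subtype_injective (by
      change gmap ℤ N.subtype a = gmap ℤ N.subtype _
      rw [map_sub, map_one, gmap_of]
      exact e')
  exact congrArg Subtype.val (Subgroup.mem_bot.1 (hk ⟨g, hg⟩ trivial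
    (Submodule.mem_sup_left (h2 ▸ ha))))

end Pool.Agent.P.MP_257122_al.K
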