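import Pool.Agent.P.MP_257122_al.KCovG
import Pool.Agent.P.MP_257122_al.KVtf
import Pool.Agent.P.MP_257122_al.KSj
import Pool.Agent.P.MP_257122_al.KFinNil

/-!
# Linear covers

Two rounds of the group ring construction.
-/

namespace Pool.Agent.P.MP_257122_al.K

open Polynomial MonoidAlgebra C
open scoped commutatorElement Matrix

theorem uni_root {n c m : ℕ} {wt : Fin n → ℕ} (hc : ∀ i, wt i < c) {y : GL (Fin n) ℚ}
    (hy : IsUni wt y) (hm : 0 < m) (h : y ^ m = 1) : y = 1 := by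
  refine lg_inj hc hy uni_one ?_
  have := lg_pow hc hy m
  rw [h, Units.val_one, lg_one, ← Nat.cast_smul_eq_nsmul ℚ] at this
  rw [Units.val_one, lg_one]
  exact (smul_eq_zero.1 this.symm).resolve_left (by exact_mod_cast hm.ne')

theorem cov_round {b : ℕ} {N S : Subgroup (Fr b)} [N.Normal] [S.Normal] (hN : VAb N)
    (hR : FinRank (Fr b ⧸ S)) (k : ℕ) :
    ∃ (n : ℕ) (wt : Fin n → ℕ) (σ : Fr b →* GL (Fin n) ℚ), Adapt wt (k + 1) σ N ∧
      ∀ (S' : Subgroup (Fr b)) [S'.Normal], S ≤ S' → ∀ g, σ g = 1 → g ∈ N ∧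
        of ℤ _ (QuotientGroup.mk' S' g) - 1 ∈
          aug ℤ (N.map (QuotientGroup.mk' S')) ^ (k + 1) := by
  obtain ⟨T, hT, hi⟩ := vtf hN le_rfl (by rw [Subgroup.relIndex_self]; exact one_ne_zero)
  obtain ⟨m, γ, hγ⟩ := exists_covG hT hi hR k
  obtain ⟨M, hM⟩ := exists_model γ k
  have hk : N ≤ (FreeGroup.lift γ).ker := by
    obtain ⟨_, _, _, _, _, _, _, _, h⟩ := hγ
    exact h
  exact ⟨_, _, M.rho, hM.adapt hk, fun S' _ hS g hg => hγ.sound hM hS hg⟩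

theorem cover {b : ℕ} (N S : Subgroup (Fr b)) [N.Normal] [S.Normal] (hN : VAb N)
    (hS : S ≤ N) (hnil : NilMod N S) (hR : FinRank (Fr b ⧸ S)) :
    ∃ (n : ℕ) (wt : Fin n → ℕ) (c : ℕ) (σ : Fr b →* GL (Fin n) ℚ), Adapt wt c σ N ∧
      σ.ker ⊓ N ≤ S := by
  obtain ⟨c, hc⟩ := id hnil
  obtain ⟨n, wt, ρ, hρ, h1⟩ := cov_round hN hR c
  obtain ⟨m, hm, hsj⟩ := sjogren c
  have h2 : ∀ g, ρ g = 1 → g ^ m ∈ S := fun g hg => by
    obtain ⟨a, e⟩ := h1 S le_rfl g hg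
    have := hsj _ _ (lcs_quot.2 hc) _ ⟨g, a, rfl⟩ e
    rwa [← map_pow, QuotientGroup.mk'_apply, QuotientGroup.eq_one_iff] at this
  have hR1 : FinRank (Fr b ⧸ (S ⊓ ρ.ker)) := hR.quot_inf (finRank_ker hρ (hR.quot_mono hS))
  have hn1 : NilMod N (S ⊓ ρ.ker) := hnil.inf ⟨c + 1, fun x hx => dim_of_adapt hρ x
    (N.lowerCentralSeries_le_self _ hx) (Submodule.mem_sup_left (sub_mem_aug_pow hx))⟩
  obtain ⟨c₁, hc₁⟩ := id hn1
  obtain ⟨D, hD, hroot⟩ := pow_root c₁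
  have hf := relIndex_pw hR1 hn1 (mul_pos hD hm)
  set S₂ := pw (D * m) N ⊔ S ⊓ ρ.ker with hS₂
  have : Finite (N.map (QuotientGroup.mk' S₂)) := by
    refine Nat.finite_of_card_ne_zero ?_
    rwa [← Subgroup.relIndex_ker, QuotientGroup.ker_mk']
  obtain ⟨k, hk⟩ := dimMod_finite (N := N.map (QuotientGroup.mk' S₂))
    (nilMod_quot.2 (nilMod_mono hn1 le_rfl le_sup_right))
  obtain ⟨n', wt', σ, hσ, h3⟩ := cov_round hN hR1 (max k (c + 1))
  refine ⟨n', wt', _, σ, hσ, fun g hg => ?_⟩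
  have a1 : g ∈ S₂ := by
    have := hk.mono (le_max_left k (c + 1)) _ ⟨g, hg.2, rfl⟩
      (Submodule.mem_sup_left (h3 S₂ le_sup_right g hg.1).2)
    rwa [Subgroup.mem_bot, QuotientGroup.mk'_apply, QuotientGroup.eq_one_iff] at this
  have a2 : ρ g = 1 := by
    have hA : Adapt wt (c + 1) (QuotientGroup.kerLift ρ) (N.map (QuotientGroup.mk' ρ.ker)) := by
      refine ⟨hρ.1, fun x => ?_, ?_⟩
      · obtain ⟨x, rfl⟩ := QuotientGroup.mk_surjective x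
        exact hρ.2.1 x
      · rintro _ ⟨x, hx, rfl⟩
        exact hρ.2.2 x hx
    exact (dim_of_adapt hA).mono (le_max_right k (c + 1)) _ ⟨g, hg.2, rfl⟩
      (Submodule.mem_sup_left (h3 ρ.ker inf_le_right g hg.1).2)
  rw [hS₂, ← mem_quot, pwMap] at a1
  obtain ⟨_, ⟨y, hy, rfl⟩, e⟩ := hroot _ _ (lcs_quot.2 hc₁) m _ a1
  rw [← map_pow, QuotientGroup.mk'_apply, QuotientGroup.mk'_apply, QuotientGroup.eq] at e
  have a3 : ρ y = 1 := by
    refine uni_root hρ.1 (hρ.2.2 y hy) hm ?_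
    have := MonoidHom.mem_ker.1 e.2
    rwa [map_mul, a2, mul_one, map_inv, inv_eq_one, map_pow] at this
  simpa using mul_mem (h2 y a3) e.1

end Pool.Agent.P.MP_257122_al.K
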