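import Pool.Agent.P.MP_257122_al.KKill
import Pool.Agent.P.MP_257122_al.GRes
import Pool.Agent.P.MP_257122_al.FPoly

/-!
# The certificates for covers are recursively enumerable

PLAN.  Unfold and call `aesop` (blueprint, section 0); `pev` is `aeval` (`CS.aevalInt`).
`cs_memLid`: `x ∈ Lid ℚ N τ f` iff `x = ∑ p.1 * (of p.2 - 1) + ∑ i, c i * pev (of (τ i)) (f i)` for a list of pairs
`p : QF b × Fr b` with `p.2 ∈ N` and a family `c : Fin r → QF b`; `of ℚ G g = single g 1` (`CS.gaSingle`).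
`cs_kill`: search `Y'` with `Y' ⊆ ncl Y`, `Y ⊆ nclIn T Y'`, `x y x⁻¹ ∈ nclIn T Y'` (`x ∈ gensL b`, `y ∈ Y'`) and
`pv t⁻¹ y l ∈ ⁅N, N⁆ ⊔ S` for `y ∈ Y'` (`nclIn_eq`, `mgen_gensL`, `kill_of_gens`, `exists_nclIn`).
-/

namespace Pool.Agent.P.MP_257122_al.K

open Polynomial MonoidAlgebra C
open scoped commutatorElement Matrix

variable {A : Type} [Rep A] {b r n k : A → ℕ}

namespace CsAux

open FOpsAux

theorem cs_conv {f g h : A → ℤ[X]} (hf : CS f) (hg : CS g) (hh : CS h) :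
    CS (fun a => Conv (f a) (g a) (h a)) := by
  have key : CS (fun u : ℤ[X] × ℤ[X] × ℤ[X] => Conv u.1 u.2.1 u.2.2) := by
    unfold Conv pev
    aesop (config := { terminal := true, enableSimp := false, maxRuleApplications := 3000, maxRuleApplicationDepth := 70, assumptionTransparency := .reducible }) (rule_sets := [-default, -builtin, Restrict])
  exact key.comp (hf.pair (hg.pair hh))

theorem cs_prim {f : A → ℤ[X]} (hf : CS f) : CS (fun a => Prim (f a)) := by
  have key : CS (fun u : ℤ[X] => Prim u) := by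
    unfold Prim
    aesop (config := { terminal := true, enableSimp := false, maxRuleApplications := 3000, maxRuleApplicationDepth := 70, assumptionTransparency := .reducible }) (rule_sets := [-default, -builtin, Restrict])
  exact key.comp hf

theorem cs_dvd {f g : A → ℤ[X]} (hf : CS f) (hg : CS g) : CS (fun a => ∃ c, f a = g a * c) := by
  have key : CS (fun u : ℤ[X] × ℤ[X] => ∃ c, u.1 = u.2 * c) := by
    aesop (config := { terminal := true, enableSimp := false, maxRuleApplications := 3000, maxRuleApplicationDepth := 70, assumptionTransparency := .reducible }) (rule_sets := [-default, -builtin, Restrict])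
  exact key.comp (hf.pair hg)

theorem cs_chain {v f : A → ℤ[X]} (hv : CS v) (hk : CS k) (hf : CS f) :
    CS (fun a => Chain (v a) (k a) (f a)) := by
  have key : CS (fun u : ℤ[X] × ℕ × ℤ[X] => Chain u.1 u.2.1 u.2.2) := by
    unfold Chain
    refine CS.ex ?_ (CS.and (CS.eq ?_ (CS.app s2 CS.finZero) ?_) (CS.and (CS.all ?_
      (cs_conv ?_ ?_ (CS.app (s2.comp s1) (CS.finSucc s2)))) (CS.all ?_ (cs_dvd ?_ ?_)))) <;>
    aesop (config := { terminal := true, enableSimp := false, maxRuleApplications := 3000, maxRuleApplicationDepth := 70, assumptionTransparency := .reducible }) (rule_sets := [-default, -builtin, Restrict])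
  exact key.comp (hv.pair (hk.pair hf))

theorem cs_pev {g : ∀ a, Fr (b a)} {p : A → ℤ[X]} (hg : CS g) (hp : CS p) :
    CS (fun a => pev (single (g a) (1 : ℚ)) (p a)) :=
  CS.aevalInt AddF.ga ZeroF.ga (MulF.ga MulF.free) (OneF.ga OneF.free) NegF.ga
    (CS.gaSingle hg OneF.rat) hp

theorem cs_rel {z : ∀ a, QF (b a)} {h : ∀ a, Fin (n a) → QF (b a)} {u : ∀ a, Fin (n a) → ℚ}
    (hn : CS n) (hz : CS z) (hh : CS h) (hu : CS (fun p : Σ a, Fin (n a) => u p.1 p.2)) :
    CS (fun a => z a - ∑ j, u a j • h a j) :=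
  CS.sub AddF.ga NegF.ga hz
    (CS.sum (CFin.fin hn) AddF.ga ZeroF.ga (CS.smul SMulF.ga hu (CS.app (hh.comp s1) s2)))

theorem mem_Lid {G : Type} [Group G] {r : ℕ} {N : Subgroup G} {τ : Fin r → G} {f : Fin r → ℤ[X]}
    {x : MonoidAlgebra ℚ G} :
    (∃ L : List (MonoidAlgebra ℚ G × G), (∀ p ∈ L, p.2 ∈ N) ∧ ∃ c : Fin r → MonoidAlgebra ℚ G,
      (L.map fun p => p.1 * (single p.2 1 - 1)).sum +
        ∑ i, c i * pev (single (τ i) (1 : ℚ)) (f i) = x) ↔ x ∈ Lid ℚ N τ f := by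
  constructor
  · rintro ⟨L, hL, c, rfl⟩
    refine add_mem (list_sum_mem fun y hy => ?_) (Submodule.sum_mem _ fun i _ =>
      Submodule.mul_mem_mul trivial (Submodule.mem_sup_right (Submodule.subset_span ⟨i, rfl⟩)))
    obtain ⟨p, hp, rfl⟩ := List.mem_map.1 hy
    exact Submodule.mul_mem_mul trivial (Submodule.mem_sup_left (sub_mem_aug (hL p hp)))
  · intro hx
    generalize hP : (fun x => ∃ L : List (MonoidAlgebra ℚ G × G), (∀ p ∈ L, p.2 ∈ N) ∧
      ∃ c : Fin r → MonoidAlgebra ℚ G, (L.map fun p => p.1 * (single p.2 1 - 1)).sum +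
        ∑ i, c i * pev (single (τ i) (1 : ℚ)) (f i) = x) = P
    have hadd : ∀ u v, P u → P v → P (u + v) := by
      subst hP
      rintro _ _ ⟨L, hL, c, rfl⟩ ⟨L', hL', c', rfl⟩
      refine ⟨L ++ L', fun p hp => (List.mem_append.1 hp).elim (hL p) (hL' p), c + c', ?_⟩
      simp only [List.map_append, List.sum_append, Pi.add_apply, add_mul, Finset.sum_add_distrib]
      abel
    refine (congrFun hP x).mpr (Submodule.mul_induction_on hx (fun u hu v hv => ?_) hadd)
    clear hu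
    rw [lgen, aug, ← Submodule.span_union] at hv
    induction hv using Submodule.span_induction generalizing u with
    | mem v hv =>
      subst hP
      rcases hv with ⟨y, hy, rfl⟩ | ⟨i, rfl⟩
      · exact ⟨[(u, y)], by simpa using hy, 0, by simp⟩
      · exact ⟨[], by simp, Pi.single i u, by simp [Pi.single_apply]⟩
    | zero => subst hP; exact ⟨[], by simp, 0, by simp⟩
    | add v w _ _ hv hw => rw [mul_add]; exact hadd _ _ (hv u) (hw u)
    | smul q v _ hv => rw [mul_smul_comm, ← smul_mul_assoc]; exact hv _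

theorem kill_iff {G : Type} [Group G] [Group.FG G] {X Y : List G} (hX : MGen X) {T S : Subgroup G}
    (hT : Top T (ncl Y)) (hS : S.Normal) {t : G} (ht : t ∈ T) {l : List ℤ} :
    (∃ Z : List G, (∀ z ∈ Z, z ∈ ncl Y) ∧ (∀ y ∈ Y, y ∈ nclIn T Z) ∧
      (∀ x ∈ X, ∀ z ∈ Z, x * z * x⁻¹ ∈ nclIn T Z) ∧
      ∀ z ∈ Z, pv t⁻¹ z l ∈ ⁅ncl Y, ncl Y⁆ ⊔ S) ↔ Kill t (ncl Y) S l := by
  have := hT.1
  constructor
  · rintro ⟨Z, h1, h2, h3, h4⟩
    have e := nclIn_eq hX h3
    refine kill_of_gens hT.2.2.2 ht (le_antisymm ?_ ?_) h4 <;> rw [e]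
    · exact Subgroup.normalClosure_le_normal fun y hy => e ▸ h2 y hy
    · exact Subgroup.normalClosure_le_normal h1
  · intro h
    obtain ⟨Z, e⟩ := exists_nclIn hT
    have h1 : ∀ z ∈ Z, z ∈ ncl Y := fun z hz =>
      e ▸ Subgroup.subset_closure ⟨1, T.one_mem, z, hz, by simp⟩
    exact ⟨Z, h1, fun y hy => e ▸ Subgroup.subset_normalClosure hy,
      fun x _ z hz => e ▸ Subgroup.Normal.conj_mem inferInstance z (h1 z hz) x,
      fun z hz => h z (h1 z hz)⟩

end CsAux

open CsAux FOpsAux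

theorem cs_good {v f : A → ℤ[X]} (hv : CS v) (hk : CS k) (hf : CS f) :
    CS (fun a => GoodP (v a) (k a) (f a)) :=
  (cs_prim hf).and ((cs_chain hv hk hf).and (cs_dvd hf (by
    aesop (config := { terminal := true, enableSimp := false, maxRuleApplications := 3000, maxRuleApplicationDepth := 70, assumptionTransparency := .reducible }) (rule_sets := [-default, -builtin, Restrict]))))

theorem cs_nclIn {G : A → Type} [∀ a, Rep (G a)] [∀ a, Group (G a)] {T : ∀ a, Subgroup (G a)}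
    {Y : ∀ a, List (G a)} (hG : GrpF G) (hT : CS T) (hY : CS Y) :
    CS (fun a => nclIn (T a) (Y a)) := by
  have t2 : CS (fun q : Σ p : (Σ a, G a), G p.1 => q.1.1) := s1.comp s1
  have t3 := t2.comp (s1 (β := fun q => G q.1.1))
  exact CS.closure hG (CS.setOf (CS.ex (hG.enum.comp s1) ((CS.memSubgroup (hT.comp t2) s2).and
    (CS.exMem (hY.comp t2) (CS.eq (hG.disc.comp t3) (CS.mul (hG.mul.comp t3)
      (CS.mul (hG.mul.comp t3) (s2.comp s1) s2) (CS.inv (hG.inv.comp t3) (s2.comp s1)))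
      ((s2.comp s1).comp s1))))))

variable {N S : ∀ a, Subgroup (Fr (b a))} {τ : ∀ a, Fin (r a) → Fr (b a)}
  {f : ∀ a, Fin (r a) → ℤ[X]} {E Y : ∀ a, List (Fr (b a))}

set_option backward.isDefEq.respectTransparency.types true in
theorem cs_memLid {x : ∀ a, QF (b a)} (hb : CS b) (hr : CS r) (hN : CS N) (hτ : CS τ) (hf : CS f)
    (hx : CS x) : CS (fun a => x a ∈ Lid ℚ (N a) (τ a) (f a)) := by
  have key : CS (fun u : Σ v : ℕ × ℕ, Subgroup (Fr v.1) × (Fin v.2 → Fr v.1) × (Fin v.2 → ℤ[X]) ×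
      QF v.1 => u.2.2.2.2 ∈ Lid ℚ u.2.1 u.2.2.1 u.2.2.2.1) := by
    refine CS.of_iff ?_ fun _ _ => mem_Lid
    aesop (config := { terminal := true, enableSimp := false, maxRuleApplications := 3000, maxRuleApplicationDepth := 70, assumptionTransparency := .reducible }) (rule_sets := [-default, -builtin, Restrict]) (add safe 5 (by with_reducible apply cs_pev))
  exact key.comp (CS.smk0 (hb.pair hr) (hN.pair (hτ.pair (hf.pair hx))))

theorem cs_cycLid {g : ∀ a, Fin (b a) → GL (Fin (n a)) ℚ} (hb : CS b) (hr : CS r) (hn : CS n)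
    (hN : CS N) (hτ : CS τ) (hf : CS f) (hg : CS g) :
    CS (fun a => CycC (Lid ℚ (N a) (τ a) (f a)) (g a)) := by
  have key : CS (fun u : Σ v : ℕ × ℕ × ℕ, Subgroup (Fr v.1) × (Fin v.2.1 → Fr v.1) ×
      (Fin v.2.1 → ℤ[X]) × (Fin v.1 → GL (Fin v.2.2) ℚ) =>
        CycC (Lid ℚ u.2.1 u.2.2.1 u.2.2.2.1) u.2.2.2.2) := by
    unfold CycC
    simp only [MonoidAlgebra.of_apply]
    refine CS.ex ?_ (CS.ex ?_ (CS.and (cs_memLid ?_ ?_ ?_ ?_ ?_ (cs_rel ?_ ?_ ?_ ?_))
      (CS.all ?_ (CS.all ?_ (CS.and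
        (cs_memLid ?_ ?_ ?_ ?_ ?_ (cs_rel ?_ ?_ ?_ (CS.mapp (CS.unitsVal (CS.app ?_ ?_)) s2 ?_)))
        (cs_memLid ?_ ?_ ?_ ?_ ?_
          (cs_rel ?_ ?_ ?_ (CS.mapp (CS.unitsInv (CS.app ?_ ?_)) s2 ?_)))))))) <;>
    aesop (config := { terminal := true, enableSimp := false, maxRuleApplications := 3000, maxRuleApplicationDepth := 70, assumptionTransparency := .reducible }) (rule_sets := [-default, -builtin, Restrict]) (erase CS.mapp, CS.mlam, CS.mrow)
  exact key.comp (CS.smk0 (hb.pair (hr.pair hn)) (hN.pair (hτ.pair (hf.pair hg))))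

theorem cs_kill {t : ∀ a, Fr (b a)} {l : A → List ℤ} (hb : CS b) (hE : CS E) (hY : CS Y)
    (hS : CS S) (ht : CS t) (hl : CS l) (hT : ∀ a, Top (gen (E a)) (ncl (Y a)))
    (hSn : ∀ a, (S a).Normal) (htT : ∀ a, t a ∈ gen (E a)) :
    CS (fun a => Kill (t a) (ncl (Y a)) (S a) (l a)) := by
  have key : CS (fun u : Σ b : ℕ, List (Fr b) × List (Fr b) × Subgroup (Fr b) × Fr b × List ℤ =>
      ∃ Z : List (Fr u.1), (∀ z ∈ Z, z ∈ ncl u.2.2.1) ∧ (∀ y ∈ u.2.2.1, y ∈ nclIn (gen u.2.1) Z) ∧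
        (∀ x ∈ gensL u.1, ∀ z ∈ Z, x * z * x⁻¹ ∈ nclIn (gen u.2.1) Z) ∧
        ∀ z ∈ Z, pv u.2.2.2.2.1⁻¹ z u.2.2.2.2.2 ∈ ⁅ncl u.2.2.1, ncl u.2.2.1⁆ ⊔ u.2.2.2.1) := by
    unfold gensL ncl gen
    aesop (config := { terminal := true, enableSimp := false, maxRuleApplications := 3000, maxRuleApplicationDepth := 70, assumptionTransparency := .reducible }) (rule_sets := [-default, -builtin, Restrict]) (add safe 5 (by with_reducible apply cs_nclIn))
  exact (key.comp (CS.smk0 hb (hE.pair (hY.pair (hS.pair (ht.pair hl)))))).of_iff fun a _ =>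
    have := (mgen_gensL (b a)).fg
    kill_iff (mgen_gensL _) (hT a) (hSn a) (htT a)

end Pool.Agent.P.MP_257122_al.K
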