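import Mathlib

/-!
# Linear algebra behind the certificates for rational subspaces
-/

namespace Pool.Agent.P.MP_257122_al.LSubAux

variable {V W : Type} [AddCommGroup V] [Module ℚ V] [AddCommGroup W] [Module ℚ W]

theorem range_get {V : Type} (l : List V) : Set.range l.get = {x | x ∈ l} := by
  ext x; simp [List.mem_iff_get]

theorem mem_span_list (l : List V) (x : V) :
    (∃ c : Fin l.length → ℚ, ∑ i, c i • l.get i = x) ↔ x ∈ Submodule.span ℚ {x | x ∈ l} := by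
  rw [← range_get, Submodule.mem_span_range_iff_exists_fun]

theorem span_le_iff (l : List V) (U : Submodule ℚ V) :
    (∀ y ∈ l, y ∈ U) ↔ Submodule.span ℚ {x | x ∈ l} ≤ U := by
  rw [Submodule.span_le]; rfl

theorem notMem_span_list (l : List V) (x : V) :
    (∃ φ : V →ₗ[ℚ] ℚ, (∀ y ∈ l, φ y = 0) ∧ φ x ≠ 0) ↔ ¬ x ∈ Submodule.span ℚ {x | x ∈ l} := by
  constructor
  · rintro ⟨φ, h, hx⟩ hm
    exact hx ((span_le_iff l (LinearMap.ker φ)).1 h hm)
  · intro h
    obtain ⟨φ, h1, h2⟩ := Submodule.exists_le_ker_of_notMem h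
    exact ⟨φ, fun y hy => h2 (Submodule.subset_span hy), h1⟩

theorem span_ofFn {k : ℕ} (v : Fin k → V) :
    Submodule.span ℚ {x | x ∈ List.ofFn v} = Submodule.span ℚ (Set.range v) := by
  congr 1; ext x; simp [List.mem_ofFn]

theorem span_coord {n : ℕ} (f : V →ₗ[ℚ] (Fin n → ℚ)) (g : (Fin n → ℚ) →ₗ[ℚ] V)
    (h : g ∘ₗ f = LinearMap.id) :
    Submodule.span ℚ {x | x ∈ List.ofFn fun i : Fin n => g (Pi.single i 1)} = ⊤ := by
  rw [span_ofFn, eq_top_iff]
  intro x _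
  have e : x = g (f x) := (LinearMap.congr_fun h x).symm
  rw [e, LinearMap.pi_apply_eq_sum_univ g (f x)]
  refine Submodule.sum_mem _ fun i _ => Submodule.smul_mem _ _ (Submodule.subset_span ⟨i, ?_⟩)
  refine congrArg g (funext fun j => ?_)
  simp [Pi.single_apply, eq_comm]

theorem finite_of_span {b : List V} (h : Submodule.span ℚ {x | x ∈ b} = ⊤) :
    Module.Finite ℚ V :=
  ⟨h ▸ Submodule.fg_span (List.finite_toSet b)⟩

theorem exists_list [Module.Finite ℚ V] (U : Submodule ℚ V) :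
    ∃ l : List V, Submodule.span ℚ {x | x ∈ l} = U := by
  obtain ⟨s, hs⟩ := IsNoetherian.noetherian U
  exact ⟨s.toList, by simpa using hs⟩

theorem all_of_span {b : List V} (h : Submodule.span ℚ {x | x ∈ b} = ⊤) (U : Submodule ℚ V)
    (hb : ∀ x ∈ b, x ∈ U) (x : V) : x ∈ U :=
  (span_le_iff b U).1 hb (h ▸ Submodule.mem_top)

theorem exists_ginv (φ : W →ₗ[ℚ] V) : ∃ ψ : V →ₗ[ℚ] W, ∀ x, φ (ψ (φ x)) = φ x := by
  obtain ⟨g, hg⟩ := φ.rangeRestrict.exists_rightInverse_of_surjective φ.range_rangeRestrict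
  obtain ⟨ψ, hψ⟩ := LinearMap.exists_extend g
  refine ⟨ψ, fun x => ?_⟩
  have h1 : ψ (φ x) = g (φ.rangeRestrict x) := LinearMap.congr_fun hψ (φ.rangeRestrict x)
  have h2 := congrArg Subtype.val (LinearMap.congr_fun hg (φ.rangeRestrict x))
  rw [h1]; exact h2

theorem comap_sound {b k : List W} (h : Submodule.span ℚ {x | x ∈ b} = ⊤) {l : List V}
    (φ : W →ₗ[ℚ] V) (ψ : V →ₗ[ℚ] W) (h1 : ∀ y ∈ k, φ y ∈ Submodule.span ℚ {x | x ∈ l})
    (h2 : ∀ u ∈ l, ψ u = 0) (h3 : ∀ x ∈ b, x - ψ (φ x) ∈ Submodule.span ℚ {x | x ∈ k}) :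
    Submodule.span ℚ {x | x ∈ k} = (Submodule.span ℚ {x | x ∈ l}).comap φ := by
  refine le_antisymm ((span_le_iff k _).1 h1) fun x hx => ?_
  have h4 : ψ (φ x) = 0 := (span_le_iff l (LinearMap.ker ψ)).1 h2 hx
  have h5 := all_of_span h
    ((Submodule.span ℚ {x | x ∈ k}).comap (LinearMap.id - ψ ∘ₗ φ))
    (fun y hy => by simpa using h3 y hy) x
  simpa [h4] using h5

theorem comap_complete [Module.Finite ℚ W] (l : List V) (φ : W →ₗ[ℚ] V) :
    ∃ (k : List W) (ψ : V →ₗ[ℚ] W), (∀ y ∈ k, φ y ∈ Submodule.span ℚ {x | x ∈ l}) ∧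
      (∀ u ∈ l, ψ u = 0) ∧ ∀ x, x - ψ (φ x) ∈ Submodule.span ℚ {x | x ∈ k} := by
  obtain ⟨k, hk⟩ := exists_list ((Submodule.span ℚ {x | x ∈ l}).comap φ)
  obtain ⟨g, hg⟩ := exists_ginv ((Submodule.span ℚ {x | x ∈ l}).mkQ ∘ₗ φ)
  refine ⟨k, g ∘ₗ (Submodule.span ℚ {x | x ∈ l}).mkQ, (span_le_iff k _).2 hk.le,
    fun u hu => ?_, fun x => ?_⟩
  · have : (Submodule.span ℚ {x | x ∈ l}).mkQ u = 0 :=
      (Submodule.Quotient.mk_eq_zero _).2 (Submodule.subset_span hu)
    rw [LinearMap.comp_apply, this, map_zero]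
  · rw [hk, Submodule.mem_comap, ← Submodule.Quotient.mk_eq_zero, map_sub,
      Submodule.Quotient.mk_sub, sub_eq_zero]
    exact (hg x).symm

theorem mem_ker_pi (l : List (V →ₗ[ℚ] ℚ)) (x : V) :
    x ∈ LinearMap.ker (LinearMap.pi fun i : Fin l.length => l.get i) ↔ ∀ c ∈ l, c x = 0 := by
  rw [LinearMap.mem_ker, funext_iff]
  simp only [LinearMap.pi_apply, Pi.zero_apply]
  refine ⟨fun h c hc => ?_, fun h i => h _ (List.get_mem l i)⟩
  obtain ⟨i, rfl⟩ := List.mem_iff_get.1 hc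
  exact h i

theorem exists_ann [Module.Finite ℚ V] (U : Submodule ℚ V) :
    ∃ l : List (V →ₗ[ℚ] ℚ), LinearMap.ker (LinearMap.pi fun i : Fin l.length => l.get i) = U := by
  let b := Module.finBasis ℚ (V ⧸ U)
  refine ⟨List.ofFn fun i => b.coord i ∘ₗ U.mkQ, ?_⟩
  ext x
  rw [mem_ker_pi, ← Submodule.Quotient.mk_eq_zero, ← b.forall_coord_eq_zero_iff]
  simp [List.mem_ofFn]

theorem linIndep_iff {ι : Type} (v : ι → V) :
    (∃ c : ι → V →ₗ[ℚ] ℚ, (∀ i, c i (v i) = 1) ∧ ∀ i j, i = j ∨ c i (v j) = 0) ↔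
      LinearIndependent ℚ v := by
  constructor
  · rintro ⟨c, h1, h2⟩
    exact LinearIndependent.of_pairwise_dual_eq_zero_one v c
      (fun i j hij => (h2 i j).resolve_left hij) h1
  · intro h
    classical
    choose c hc using fun i => LinearMap.exists_extend (Finsupp.lapply i ∘ₗ h.repr)
    have key : ∀ i j, c i (v j) = Finsupp.single j (1 : ℚ) i := fun i j => by
      have h1 := LinearMap.congr_fun (hc i) ⟨v j, Submodule.subset_span ⟨j, rfl⟩⟩
      rw [← h.repr_eq_single j ⟨v j, Submodule.subset_span ⟨j, rfl⟩⟩ rfl]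
      exact h1
    refine ⟨c, fun i => by simp [key], fun i j => ?_⟩
    by_cases e : i = j
    · exact Or.inl e
    · exact Or.inr (by rw [key, Finsupp.single_eq_of_ne e])

theorem exists_basis_fn [Module.Finite ℚ V] (U : Submodule ℚ V) :
    ∃ q : Σ k : ℕ, Fin k → V, LinearIndependent ℚ q.2 ∧
      Submodule.span ℚ {x | x ∈ List.ofFn q.2} = U := by
  let b := Module.finBasis ℚ U
  refine ⟨⟨_, U.subtype ∘ b⟩, b.linearIndependent.map' _ U.ker_subtype, ?_⟩
  rw [span_ofFn, Set.range_comp, ← Submodule.map_span, b.span_eq, Submodule.map_subtype_top]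

section field
variable {K : Type} [Field K] [CharZero K]

theorem pow_sound {b : List V} (h : Submodule.span ℚ {x | x ∈ b} = ⊤) (φ : V →ₗ[ℚ] K) {k : ℕ}
    (β : K) (c : Fin k → V →ₗ[ℚ] ℚ) (h1 : LinearIndependent ℚ fun i : Fin k => β ^ (i : ℕ))
    (h2 : ∀ x ∈ b, φ x = ∑ i, algebraMap ℚ K (c i x) * β ^ (i : ℕ)) :
    LinearMap.ker (LinearMap.pi c) = LinearMap.ker φ := by
  have h3 : ∀ x, φ x = ∑ i, c i x • β ^ (i : ℕ) := fun x => by
    have := all_of_span h (LinearMap.eqLocus φ (∑ i, (c i).smulRight (β ^ (i : ℕ))))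
      (fun y hy => by
        rw [LinearMap.mem_eqLocus, h2 y hy]
        simp [LinearMap.sum_apply, Algebra.smul_def]) x
    rw [LinearMap.mem_eqLocus] at this
    simpa [LinearMap.sum_apply] using this
  ext x
  rw [LinearMap.mem_ker, LinearMap.mem_ker, h3, funext_iff]
  simp only [LinearMap.pi_apply, Pi.zero_apply]
  exact ⟨fun e => by simp [e], fun e => Fintype.linearIndependent_iff.1 h1 _ e⟩

theorem pow_complete {b : List V} (h : Submodule.span ℚ {x | x ∈ b} = ⊤) (φ : V →ₗ[ℚ] K)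
    (ha : ∀ x, IsAlgebraic ℚ (φ x)) :
    ∃ (k : ℕ) (β : K) (c : Fin k → V →ₗ[ℚ] ℚ), IsAlgebraic ℚ β ∧
      (LinearIndependent ℚ fun i : Fin k => β ^ (i : ℕ)) ∧
      ∀ x, φ x = ∑ i, algebraMap ℚ K (c i x) * β ^ (i : ℕ) := by
  have : Finite (φ '' {x | x ∈ b}) := ((List.finite_toSet b).image φ).to_subtype
  let L := IntermediateField.adjoin ℚ (φ '' {x | x ∈ b})
  have : FiniteDimensional ℚ L := IntermediateField.finiteDimensional_adjoin (by
    rintro _ ⟨x, -, rfl⟩; exact (ha x).isIntegral)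
  have hm : ∀ x, φ x ∈ L := all_of_span h (L.toSubalgebra.toSubmodule.comap φ)
    fun x hx => IntermediateField.subset_adjoin _ _ ⟨x, hx, rfl⟩
  let φ' : V →ₗ[ℚ] L :=
    { toFun := fun x => ⟨φ x, hm x⟩
      map_add' := fun x y => Subtype.ext (by simp)
      map_smul' := fun q x => Subtype.ext (by simp) }
  let pb := Field.powerBasisOfFiniteOfSeparable ℚ L
  refine ⟨pb.dim, pb.gen, fun i => pb.basis.coord i ∘ₗ φ', ?_, ?_, fun x => ?_⟩
  · exact IntermediateField.isAlgebraic_iff.1 (Algebra.IsAlgebraic.isAlgebraic pb.gen)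
  · have := pb.basis.linearIndependent.map' L.val.toLinearMap
      (LinearMap.ker_eq_bot.2 Subtype.val_injective)
    have e : (L.val.toLinearMap ∘ pb.basis) = fun i : Fin pb.dim => (pb.gen : K) ^ (i : ℕ) := by
      funext i; simp
    rwa [e] at this
  · have := congrArg Subtype.val (pb.basis.sum_repr (φ' x))
    simp only [pb.basis_eq_pow] at this
    refine (show ((φ' x : L) : K) = _ from this.symm.trans ?_)
    simp [Algebra.smul_def]

end field

end Pool.Agent.P.MP_257122_al.LSubAux
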