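import Pool.Agent.P.MP_257122_al.LAlg
import Pool.Agent.P.MP_257122_al.LSubA

/-!
# Computing with rational subspaces: the proofs
-/

namespace Pool.Agent.P.MP_257122_al.LSubAux

variable {A : Type} [Rep A] {V W : A → Type} [∀ a, Rep (V a)] [∀ a, AddCommGroup (V a)]
  [∀ a, Module ℚ (V a)] [∀ a, Rep (W a)] [∀ a, AddCommGroup (W a)] [∀ a, Module ℚ (W a)]
  {U U' : ∀ a, Submodule ℚ (V a)}

theorem p1 {T : A → Type} [∀ a, Rep (T a)] : CS (fun p : Σ a, T a => p.1) :=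
  CS.sfst (g := fun p : Σ a, T a => p) CS.id

theorem p2 {T : A → Type} [∀ a, Rep (T a)] : CS (fun p : Σ a, T a => p.2) :=
  CS.ssnd (g := fun p : Σ a, T a => p) CS.id

theorem s1 {T : A → Type} [∀ a, Rep (T a)] {Q : (Σ a, T a) → Prop} :
    CS (fun p : {p : Σ a, T a // Q p} => p.1.1) :=
  p1.comp (CS.val (g := fun p : {p : Σ a, T a // Q p} => p) CS.id)

theorem s2 {T : A → Type} [∀ a, Rep (T a)] {Q : (Σ a, T a) → Prop} :
    CS (fun p : {p : Σ a, T a // Q p} => p.1.2) :=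
  p2.comp (CS.val (g := fun p : {p : Σ a, T a // Q p} => p) CS.id)

theorem span {l : ∀ a, List (V a)} (h : CS l) :
    CS (fun a => Submodule.span ℚ {x | x ∈ l a}) :=
  CS.toMap (fun a (l : List (V a)) => Submodule.span ℚ {x | x ∈ l}) h

theorem spanList (h : CS U) :
    MV (fun a (l : List (V a)) => Submodule.span ℚ {x | x ∈ l} = U a) :=
  MV.ofMap (fun a (l : List (V a)) => Submodule.span ℚ {x | x ∈ l}) h

theorem coordList {n : A → ℕ} {g : ∀ a, (Fin (n a) → ℚ) →ₗ[ℚ] V a} (hn : CS n) (hg : CS g) :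
    CS (fun a => List.ofFn fun i : Fin (n a) => g a (Pi.single i 1)) :=
  CS.ofFn hn (CS.lam (CS.linApp (hg.comp p1)
    (CS.piSingle Disc.fin Haus.fin ZeroF.rat p2 CS.const)))

theorem topList (hV : CoordF V) :
    MV (fun a (b : List (V a)) => Submodule.span ℚ {x | x ∈ b} = ⊤) :=
  MV.bind hV (MV.of_cs (coordList (CS.sfst s2) (CS.snd (CS.ssnd s2)))
    fun p _ => span_coord _ _ p.2.1)

theorem finite (hV : CoordF V) {a : A} (ha : Coded a) : Module.Finite ℚ (V a) := by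
  obtain ⟨b, -, hb⟩ := (topList hV).exists ha
  exact finite_of_span hb

theorem top (hV : CoordF V) : CS (fun a => (⊤ : Submodule ℚ (V a))) :=
  (topList hV).elim ((span s2).congr fun p _ => p.2)

theorem bot : CS (fun a => (⊥ : Submodule ℚ (V a))) :=
  (span CS.nil).congr fun a _ => by simp

theorem memSpan {x : ∀ a, V a} {l : ∀ a, List (V a)} (hV : CoordF V) (h : CS l) (hx : CS x) :
    CS (fun a => x a ∈ Submodule.span ℚ {y | y ∈ l a}) := by
  refine CS.of_iff ?_ fun a _ => mem_span_list (l a) (x a)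
  refine CS.ex (Enum.pi (CFin.fin (CS.length h)) Disc.fin Enum.rat) ?_
  refine CS.eq (hV.disc.comp p1) ?_ (hx.comp p1)
  refine CS.sum (CFin.fin ((CS.length h).comp p1)) (hV.add.comp p1) (hV.zero.comp p1) ?_
  exact CS.smul (hV.smul.comp (p1.comp p1)) (CS.app (p2.comp p1) p2)
    (CS.get (h.comp (p1.comp p1)) p2)

theorem mem {x : ∀ a, V a} (hV : CoordF V) (h : CS U) (hx : CS x) :
    CS (fun a => x a ∈ U a) :=
  (spanList h).elimP (P' := fun a l => x a ∈ Submodule.span ℚ {y | y ∈ l})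
    (memSpan (hV.comp p1) p2 (hx.comp p1)) fun a l _ _ e => by rw [e]

theorem enumForm (hV : CoordF V) : EnumC (fun a => V a →ₗ[ℚ] ℚ) :=
  EnumC.linearMap hV Enum.rat.toC AddF.rat ZeroF.rat (SMulF.self MulF.rat)

theorem codedForm (hV : CoordF V) {a : A} (ha : Coded a) (φ : V a →ₗ[ℚ] ℚ) : Coded φ :=
  CoordF.coded_linearMap (W := fun _ => ℚ) hV AddF.rat ZeroF.rat (SMulF.self MulF.rat) ha φ
    fun _ => Tot.tot _

theorem notMem {x : ∀ a, V a} (hV : CoordF V) (h : CS U) (hx : CS x) :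
    CS (fun a => ¬ x a ∈ U a) := by
  refine (spanList h).elimP (P' := fun a l => ∃ φ : V a →ₗ[ℚ] ℚ, Coded φ ∧
    (∀ y ∈ l, φ y = 0) ∧ φ (x a) ≠ 0) ?_ fun a l ha _ e => ?_
  · refine CS.exC ((enumForm hV).comp p1) (CS.and (CS.allMem (p2.comp p1) ?_) ?_)
    · exact CS.eq Disc.rat (CS.linApp (p2.comp p1) p2) CS.const
    · exact CS.ne Haus.rat (CS.linApp p2 (hx.comp (p1.comp p1))) CS.const
  · rw [← e, ← notMem_span_list]
    exact exists_congr fun φ => and_iff_right (codedForm hV ha φ)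

theorem le (hV : CoordF V) (h : CS U) (h' : CS U') : CS (fun a => U a ≤ U' a) :=
  (spanList h).elimP (P' := fun a l => ∀ y ∈ l, y ∈ U' a)
    (CS.allMem p2 (mem (hV.comp (p1.comp p1)) (h'.comp (p1.comp p1)) p2))
    fun a l _ _ e => by rw [← e, span_le_iff]

theorem notLe (hV : CoordF V) (h : CS U) (h' : CS U') : CS (fun a => ¬ U a ≤ U' a) :=
  (spanList h).elimP (P' := fun a l => ¬ ∀ y ∈ l, y ∈ U' a)
    (CS.notAllMem p2 (notMem (hV.comp (p1.comp p1)) (h'.comp (p1.comp p1)) p2))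
    fun a l _ _ e => by rw [← e, span_le_iff]

theorem disc (hV : CoordF V) : Disc (fun a => Submodule ℚ (V a)) :=
  (CS.and (le (hV.comp p1) (CS.fst p2) (CS.snd p2))
    (le (hV.comp p1) (CS.snd p2) (CS.fst p2))).of_iff fun _ _ => le_antisymm_iff.symm

theorem haus (hV : CoordF V) : Haus (fun a => Submodule ℚ (V a)) :=
  (CS.notAnd (notLe (hV.comp p1) (CS.fst p2) (CS.snd p2))
    (notLe (hV.comp p1) (CS.snd p2) (CS.fst p2))).of_iff fun _ _ => le_antisymm_iff.symm.not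

theorem enum (hV : CoordF V) : Enum (fun a => Submodule ℚ (V a)) := by
  obtain ⟨E, hE, h⟩ := hV.enum.list
  refine ⟨E, hE, fun c a hc => ⟨fun d hd => ?_, fun x => ?_⟩⟩
  · obtain ⟨l, hl⟩ := (h c a hc).1 d hd
    exact ⟨_, l, hl, rfl⟩
  · have := finite hV ⟨c, hc⟩
    obtain ⟨l, rfl⟩ := exists_list x
    obtain ⟨d, hd, hl⟩ := (h c a hc).2 l
    exact ⟨d, hd, l, hl, rfl⟩

theorem sup (h : CS U) (h' : CS U') : CS (fun a => U a ⊔ U' a) := by
  refine ((spanList h).prod (spanList h')).elim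
    ((span (CS.append (CS.fst s2) (CS.snd s2))).congr fun p _ => ?_)
  rw [← p.2.1, ← p.2.2, ← Submodule.span_union]
  congr 1; ext x; simp

theorem map {φ : ∀ a, V a →ₗ[ℚ] W a} (hφ : CS φ) (h : CS U) :
    CS (fun a => (U a).map (φ a)) := by
  refine (spanList h).elim ((span (CS.map (CS.linCoe (hφ.comp s1)) s2)).congr fun p _ => ?_)
  rw [← p.2, Submodule.map_span]
  congr 1; ext x; simp

theorem comap0 {φ : ∀ a, W a →ₗ[ℚ] V a} {l : ∀ a, List (V a)} {b : ∀ a, List (W a)}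
    (hV : CoordF V) (hW : CoordF W) (hφ : CS φ) (hl : CS l) (hb : CS b)
    (e : ∀ a, Submodule.span ℚ {x | x ∈ b a} = ⊤) :
    CS (fun a => (Submodule.span ℚ {x | x ∈ l a}).comap (φ a)) := by
  refine MV.elim (T := fun a => List (W a))
    (Q := fun a k => Submodule.span ℚ {x | x ∈ k} =
      (Submodule.span ℚ {x | x ∈ l a}).comap (φ a))
    (MV.search (Q' := fun a (k : List (W a)) => ∃ ψ : V a →ₗ[ℚ] W a, Coded ψ ∧
      (∀ y ∈ k, φ a y ∈ Submodule.span ℚ {x | x ∈ l a}) ∧ (∀ u ∈ l a, ψ u = 0) ∧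
      ∀ x ∈ b a, x - ψ (φ a x) ∈ Submodule.span ℚ {x | x ∈ k})
      hW.enum.list ?_ ?_ ?_) ((span s2).congr fun p _ => p.2)
  · refine CS.exC ((EnumC.linearMap hV hW.enum.toC hW.add hW.zero hW.smul).comp p1)
      (CS.and (CS.allMem (p2.comp p1) ?_) (CS.and (CS.allMem (hl.comp (p1.comp p1)) ?_)
        (CS.allMem (hb.comp (p1.comp p1)) ?_)))
    · exact memSpan (hV.comp (p1.comp (p1.comp p1))) (hl.comp (p1.comp (p1.comp p1)))
        (CS.linApp (hφ.comp (p1.comp (p1.comp p1))) p2)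
    · exact CS.eq (hW.disc.comp (p1.comp (p1.comp p1))) (CS.linApp (p2.comp p1) p2)
        (CS.zero (hW.zero.comp (p1.comp (p1.comp p1))))
    · exact memSpan (hW.comp (p1.comp (p1.comp p1))) (p2.comp (p1.comp p1))
        (CS.sub (hW.add.comp (p1.comp (p1.comp p1))) (hW.neg.comp (p1.comp (p1.comp p1))) p2
          (CS.linApp (p2.comp p1) (CS.linApp (hφ.comp (p1.comp (p1.comp p1))) p2)))
  · rintro a k ⟨ψ, -, h1, h2, h3⟩
    exact comap_sound (e a) _ ψ h1 h2 h3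
  · intro a ha
    have := finite hW ha
    obtain ⟨k, ψ, h1, h2, h3⟩ := comap_complete (l a) (φ a)
    exact ⟨k, ψ, hV.coded_linearMap hW.add hW.zero hW.smul ha ψ
      fun v => hW.enum.coded ha _, h1, h2, fun x _ => h3 x⟩

theorem comap {φ : ∀ a, W a →ₗ[ℚ] V a} (hV : CoordF V) (hW : CoordF W)
    (hφ : CS φ) (h : CS U) : CS (fun a => (U a).comap (φ a)) :=
  ((spanList h).prod (topList hW)).elim
    ((comap0 (hV.comp s1) (hW.comp s1) (hφ.comp s1) (CS.fst s2) (CS.snd s2)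
      fun p => p.2.2).congr fun p _ => by rw [p.2.1])

theorem ker {φ : ∀ a, V a →ₗ[ℚ] W a} (hV : CoordF V) (hW : CoordF W) (hφ : CS φ) :
    CS (fun a => LinearMap.ker (φ a)) :=
  (comap hW hV hφ bot).congr fun _ _ => Submodule.comap_bot _

theorem kerPi {k : A → ℕ} {c : ∀ a, Fin (k a) → V a →ₗ[ℚ] ℚ} (hV : CoordF V) (hk : CS k)
    (hc : CS c) : CS (fun a => LinearMap.ker (LinearMap.pi (c a))) :=
  ker hV (CoordF.pi (CFin.fin hk) Disc.fin)
    (CS.linIntro (CS.lam (CS.linApp (CS.app (hc.comp (p1.comp p1)) p2) (p2.comp p1))))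

theorem kerList {l : ∀ a, List (V a →ₗ[ℚ] ℚ)} (hV : CoordF V) (hl : CS l) :
    CS (fun a => LinearMap.ker (LinearMap.pi fun i : Fin (l a).length => (l a).get i)) :=
  kerPi hV (CS.length hl) (CS.lam (CS.get (hl.comp p1) p2))

theorem formKer {φ : ∀ a, V a →ₗ[ℚ] ℚ} (hV : CoordF V) (hφ : CS φ) :
    CS (fun a => LinearMap.ker (φ a)) :=
  (kerList hV (CS.cons hφ CS.nil)).congr fun a _ => by
    ext x; rw [mem_ker_pi]; simp

theorem ann (hV : CoordF V) (h : CS U) :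
    MV (fun a (l : List (V a →ₗ[ℚ] ℚ)) => ∀ x, x ∈ U a ↔ ∀ c ∈ l, c x = 0) := by
  refine MV.searchC (Q' := fun a l =>
    LinearMap.ker (LinearMap.pi fun i : Fin l.length => l.get i) = U a) (enumForm hV).list
    (CS.eq ((disc hV).comp p1) (kerList (hV.comp p1) p2) (h.comp p1))
    (fun a l e x => by rw [← e, mem_ker_pi]) fun a ha => ?_
  have := finite hV ha
  obtain ⟨l, hl⟩ := exists_ann (U a)
  exact ⟨l, coded_list.2 fun c _ => codedForm hV ha c, hl⟩

theorem inf (hV : CoordF V) (h : CS U) (h' : CS U') : CS (fun a => U a ⊓ U' a) := by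
  refine ((ann hV h).prod (ann hV h')).elim
    ((kerList (hV.comp s1) (CS.append (CS.fst s2) (CS.snd s2))).congr fun p _ => ?_)
  ext x
  rw [mem_ker_pi, Submodule.mem_inf, p.2.1, p.2.2, List.forall_mem_append]

theorem linIndep {ι : A → Type} [∀ a, Rep (ι a)] {v : ∀ a, ι a → V a} (hV : CoordF V)
    (hι : CFin ι) (hd : Disc ι) (hv : CS v) : CS (fun a => LinearIndependent ℚ (v a)) := by
  refine CS.of_iff (P := fun a => ∃ c : ι a → V a →ₗ[ℚ] ℚ, Coded c ∧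
    (∀ i, c i (v a i) = 1) ∧ ∀ i j, i = j ∨ c i (v a j) = 0) ?_ fun a ha => ?_
  · refine CS.exC (EnumC.pi hι hd ((enumForm hV).comp p1)) (CS.and (CS.all (hι.comp p1) ?_)
      (CS.all (hι.comp p1) (CS.all (hι.comp (p1.comp p1)) (CS.or ?_ ?_))))
    · exact CS.eq Disc.rat (CS.linApp (CS.app (p2.comp p1) p2)
        (CS.app (hv.comp (p1.comp p1)) p2)) CS.const
    · exact CS.eq (hd.comp (p1.comp (p1.comp p1))) (p2.comp p1) p2
    · exact CS.eq Disc.rat (CS.linApp (CS.app (p2.comp (p1.comp p1)) (p2.comp p1))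
        (CS.app (hv.comp (p1.comp (p1.comp p1))) p2)) CS.const
  · rw [← linIndep_iff]
    exact exists_congr fun c => and_iff_right
      (coded_pi (β := fun a _ => V a →ₗ[ℚ] ℚ) hι hd ha fun i => codedForm hV ha (c i))

theorem basis (hV : CoordF V) (h : CS U) :
    MV (fun a (q : Σ k : ℕ, Fin k → V a) =>
      LinearIndependent ℚ q.2 ∧ Submodule.span ℚ (Set.range q.2) = U a) := by
  refine MV.search (Q' := fun a q => LinearIndependent ℚ q.2 ∧
    Submodule.span ℚ {x | x ∈ List.ofFn q.2} = U a)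
    (Enum.sigma Enum.nat (Enum.pi (CFin.fin p2) Disc.fin (hV.enum.comp (p1.comp p1))))
    (CS.and (linIndep (hV.comp p1) (CFin.fin (CS.sfst p2)) Disc.fin (CS.ssnd p2))
      (CS.eq ((disc hV).comp p1) (span (CS.ofFn (CS.sfst p2) (CS.ssnd p2))) (h.comp p1)))
    (fun a q e => ⟨e.1, by rw [← span_ofFn, e.2]⟩) fun a ha => ?_
  have := finite hV ha
  exact exists_basis_fn (U a)

theorem padicCert {p : A → Nat.Primes} {φ : ∀ a, V a →ₗ[ℚ] Qp (p a)} {b : ∀ a, List (V a)}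
    {k : A → ℕ} {c : ∀ a, Fin (k a) → V a →ₗ[ℚ] ℚ} (hp : CS p) (hφ : CS φ) (hb : CS b)
    (hk : CS k) (hc : CS c) :
    CS (fun a => ∃ β : Qp (p a), Coded β ∧
      (LinearIndependent ℚ fun i : Fin (k a) => β ^ (i : ℕ)) ∧
      ∀ x ∈ b a, φ a x = ∑ i, algebraMap ℚ (Qp (p a)) (c a i x) * β ^ (i : ℕ)) := by
  refine CS.exC (EnumC.padic hp) (CS.and (CS.powIndep (hp.comp p1) p2 (hk.comp p1))
    (CS.allMem (hb.comp p1) ?_))
  refine CS.eq (Disc.padic (hp.comp (p1.comp p1))) (CS.linApp (hφ.comp (p1.comp p1)) p2)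
    (CS.sum (CFin.fin (hk.comp (p1.comp p1))) AddF.padic ZeroF.padic ?_)
  refine CS.mul MulF.padic (CS.algebraMap RatF.padic ?_)
    (CS.pow MulF.padic OneF.padic (p2.comp (p1.comp p1)) (CS.finVal p2))
  exact CS.linApp (CS.app (hc.comp (p1.comp (p1.comp p1))) p2) (p2.comp p1)

theorem kerPadic0 {p : A → Nat.Primes} {φ : ∀ a, V a →ₗ[ℚ] Qp (p a)} {b : ∀ a, List (V a)}
    (hV : CoordF V) (hp : CS p) (hφ : CS φ) (hb : CS b)
    (e : ∀ a, Submodule.span ℚ {x | x ∈ b a} = ⊤) : CS (fun a => LinearMap.ker (φ a)) := by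
  refine MV.elim (T := fun a => Σ k : ℕ, Fin k → V a →ₗ[ℚ] ℚ)
    (Q := fun a q => LinearMap.ker (LinearMap.pi q.2) = LinearMap.ker (φ a))
    (MV.searchC (Q' := fun a (q : Σ k : ℕ, Fin k → V a →ₗ[ℚ] ℚ) => ∃ β : Qp (p a), Coded β ∧
      (LinearIndependent ℚ fun i : Fin q.1 => β ^ (i : ℕ)) ∧
      ∀ x ∈ b a, φ a x = ∑ i, algebraMap ℚ (Qp (p a)) (q.2 i x) * β ^ (i : ℕ))
      (EnumC.sigma Enum.nat.toC
        (EnumC.pi (CFin.fin p2) Disc.fin ((enumForm hV).comp (p1.comp p1))))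
      (padicCert (hp.comp p1) (hφ.comp p1) (hb.comp p1) (CS.sfst p2) (CS.ssnd p2)) ?_ ?_)
    ((kerPi (hV.comp s1) (CS.sfst s2) (CS.ssnd s2)).congr fun p _ => p.2)
  · rintro a q ⟨β, -, h1, h2⟩
    exact pow_sound (e a) _ β q.2 h1 h2
  · intro a ha
    obtain ⟨k, β, c, h0, h1, h2⟩ := pow_complete (e a) (φ a) fun x =>
      coded_padic_iff.1 (((CS.linCoe hφ).coded ha).app (hV.enum.coded ha x))
    exact ⟨⟨k, c⟩, coded_sigma.2 ⟨Tot.tot _, coded_fun_fin.2 fun i => codedForm hV ha (c i)⟩,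
      β, coded_padic_iff.2 h0, h1, fun x _ => h2 x⟩

theorem kerPadic {p : A → Nat.Primes} {φ : ∀ a, V a →ₗ[ℚ] Qp (p a)} (hV : CoordF V)
    (hp : CS p) (hφ : CS φ) : CS (fun a => LinearMap.ker (φ a)) :=
  (topList hV).elim (kerPadic0 (hV.comp s1) (hp.comp s1) (hφ.comp s1) s2 fun p => p.2)

end Pool.Agent.P.MP_257122_al.LSubAux
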