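import Pool.Agent.P.MP_257122_al.LAlg
import Pool.Agent.P.MP_257122_al.LSubB

/-!
# Computing with rational subspaces

PLAN.  `MV.ofMap` gives spanning lists; use `CoordF` to pass to `Fin n → ℚ`.  Membership: guess
coefficients.  Non-membership: guess a covector killing the list and not the vector.
`MV.ann`: guess covectors `c_j` killing the list `l`, together with the certificate
`x = ∑ s_i(x) l_i + ∑ c_j(x) z_j` checked on a basis.  Kernels and intersections: by
`MV.search`, guess a list in the kernel with the same kind of certificate.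
`CS.kerPadic`: the finitely many values `φ(e_i)` are algebraic, so by the primitive element
theorem `φ = ∑_{s<k} β^s φ_s` with rational forms `φ_s` and `1, …, β^(k-1)` independent over `ℚ`
(`CS.powIndep`); guess `k, β, φ_s`; the kernel is the intersection of the kernels of the `φ_s`.
-/

namespace Pool.Agent.P.MP_257122_al

variable {A : Type} [Rep A] {V W : A → Type} [∀ a, Rep (V a)] [∀ a, AddCommGroup (V a)]
  [∀ a, Module ℚ (V a)] [∀ a, Rep (W a)] [∀ a, AddCommGroup (W a)] [∀ a, Module ℚ (W a)]
  {U U' : ∀ a, Submodule ℚ (V a)}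

@[aesop safe 50 apply (transparency := reducible) (rule_sets := [Restrict])]
theorem CS.span {l : ∀ a, List (V a)} (h : CS l) :
    CS (fun a => Submodule.span ℚ {x | x ∈ l a}) :=
  LSubAux.span h
theorem MV.spanList (h : CS U) :
    MV (fun a (l : List (V a)) => Submodule.span ℚ {x | x ∈ l} = U a) :=
  LSubAux.spanList h
theorem MV.ann (hV : CoordF V) (h : CS U) :
    MV (fun a (l : List (V a →ₗ[ℚ] ℚ)) => ∀ x, x ∈ U a ↔ ∀ c ∈ l, c x = 0) :=
  LSubAux.ann hV h
theorem MV.basis (hV : CoordF V) (h : CS U) :
    MV (fun a (q : Σ k : ℕ, Fin k → V a) =>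
      LinearIndependent ℚ q.2 ∧ Submodule.span ℚ (Set.range q.2) = U a) :=
  LSubAux.basis hV h
@[aesop safe 50 apply (transparency := reducible) (rule_sets := [Restrict])]
theorem CS.memSubmodule {x : ∀ a, V a} (hV : CoordF V) (h : CS U) (hx : CS x) :
    CS (fun a => x a ∈ U a) :=
  LSubAux.mem hV h hx
@[aesop safe 50 apply (transparency := reducible) (rule_sets := [Restrict])]
theorem CS.notMemSubmodule {x : ∀ a, V a} (hV : CoordF V) (h : CS U) (hx : CS x) :
    CS (fun a => ¬ x a ∈ U a) :=
  LSubAux.notMem hV h hx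
@[aesop safe 45 apply (transparency := reducible) (rule_sets := [Restrict])]
theorem CS.submoduleLe (hV : CoordF V) (h : CS U) (h' : CS U') : CS (fun a => U a ≤ U' a) :=
  LSubAux.le hV h h'
@[aesop safe 45 apply (transparency := reducible) (rule_sets := [Restrict])]
theorem CS.submoduleNotLe (hV : CoordF V) (h : CS U) (h' : CS U') :
    CS (fun a => ¬ U a ≤ U' a) :=
  LSubAux.notLe hV h h'
@[aesop safe 50 apply (transparency := reducible) (rule_sets := [Restrict])]
theorem Disc.submodule (hV : CoordF V) : Disc (fun a => Submodule ℚ (V a)) :=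
  LSubAux.disc hV
@[aesop safe 50 apply (transparency := reducible) (rule_sets := [Restrict])]
theorem Haus.submodule (hV : CoordF V) : Haus (fun a => Submodule ℚ (V a)) :=
  LSubAux.haus hV
@[aesop safe 50 apply (transparency := reducible) (rule_sets := [Restrict])]
theorem Enum.submodule (hV : CoordF V) : Enum (fun a => Submodule ℚ (V a)) :=
  LSubAux.enum hV
@[aesop safe 50 apply (transparency := reducible) (rule_sets := [Restrict])]
theorem CS.submoduleBot : CS (fun a => (⊥ : Submodule ℚ (V a))) :=
  LSubAux.bot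
@[aesop safe 50 apply (transparency := reducible) (rule_sets := [Restrict])]
theorem CS.submoduleTop (hV : CoordF V) : CS (fun a => (⊤ : Submodule ℚ (V a))) :=
  LSubAux.top hV
@[aesop safe 50 apply (transparency := reducible) (rule_sets := [Restrict])]
theorem CS.submoduleSup (h : CS U) (h' : CS U') : CS (fun a => U a ⊔ U' a) :=
  LSubAux.sup h h'
@[aesop safe 50 apply (transparency := reducible) (rule_sets := [Restrict])]
theorem CS.submoduleInf (hV : CoordF V) (h : CS U) (h' : CS U') : CS (fun a => U a ⊓ U' a) :=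
  LSubAux.inf hV h h'
@[aesop safe 50 apply (transparency := reducible) (rule_sets := [Restrict])]
theorem CS.submoduleMap {φ : ∀ a, V a →ₗ[ℚ] W a} (hφ : CS φ) (h : CS U) :
    CS (fun a => (U a).map (φ a)) :=
  LSubAux.map hφ h
@[aesop safe 50 apply (transparency := reducible) (rule_sets := [Restrict])]
theorem CS.submoduleComap {φ : ∀ a, W a →ₗ[ℚ] V a} (hV : CoordF V) (hW : CoordF W)
    (hφ : CS φ) (h : CS U) : CS (fun a => (U a).comap (φ a)) :=
  LSubAux.comap hV hW hφ h
@[aesop safe 50 apply (transparency := reducible) (rule_sets := [Restrict])]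
theorem CS.linKer {φ : ∀ a, V a →ₗ[ℚ] W a} (hV : CoordF V) (hW : CoordF W) (hφ : CS φ) :
    CS (fun a => LinearMap.ker (φ a)) :=
  LSubAux.ker hV hW hφ
@[aesop safe 49 apply (transparency := reducible) (rule_sets := [Restrict])]
theorem CS.formKer {φ : ∀ a, V a →ₗ[ℚ] ℚ} (hV : CoordF V) (hφ : CS φ) :
    CS (fun a => LinearMap.ker (φ a)) :=
  LSubAux.formKer hV hφ
@[aesop safe 49 apply (transparency := reducible) (rule_sets := [Restrict])]
theorem CS.kerPadic {p : A → Nat.Primes} {φ : ∀ a, V a →ₗ[ℚ] Qp (p a)} (hV : CoordF V)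
    (hp : CS p) (hφ : CS φ) : CS (fun a => LinearMap.ker (φ a)) :=
  LSubAux.kerPadic hV hp hφ
@[aesop safe 50 apply (transparency := reducible) (rule_sets := [Restrict])]
theorem CS.linIndep {ι : A → Type} [∀ a, Rep (ι a)] {v : ∀ a, ι a → V a} (hV : CoordF V)
    (hι : CFin ι) (hd : Disc ι) (hv : CS v) : CS (fun a => LinearIndependent ℚ (v a)) :=
  LSubAux.linIndep hV hι hd hv

end Pool.Agent.P.MP_257122_al
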