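import Pool.Agent.P.MP_257122_al.KCs
import Pool.Agent.P.MP_257122_al.KAff
import Pool.Agent.P.MP_257122_al.CDer
import Pool.Agent.P.MP_257122_al.LSub

/-!
# Markings and covers are recursively enumerable

PLAN.  `cs_ind`: search `n, wt, g` with `wt < 2`, `IsPar wt (g x)`, `IsUni wt (σ e)` for `e ∈ E`, `σ y = 1` for `y ∈ Y`
(`σ = lift g`), and the matrices `σ (τ j) - 1` linearly independent (`CS.linIndep`).  Sound: `δ y = σ y - 1` is
additive on `T = gen E` (a product of two matrices in `fil wt 1` is zero), `δ (zp τ t) = ∑ t j • δ (τ j)`.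
Complete: `exists_aff'` for `T` and `ncl Y` (`vab_finRank`); clear denominators in a relation; if `zp τ t ^ m ∈ N` then
`zp τ (m • t) ∈ N` (`map_zp`, `zp_smul` in the quotient by `N`).
`cs_covG`: `CS.ex` over `Σ r, Fin r → Fr b × List ℤ × ℤ[X]`; first `Y ⊆ T`, `⁅e, e'⁆ ∈ ncl Y` (`gb_comm_le`), `τ j ∈ T`,
then (`CS.exD`) on this subtype `cs_ind`, `cs_kill`; generation `∀ e ∈ E, ∃ t, e * (zp τ t)⁻¹ ∈ ncl Y` (the `g` with this
property form a subgroup of `T`), `cs_good`, `cs_cycLid`, `γ` kills `Y`.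
-/

namespace Pool.Agent.P.MP_257122_al.K

open Polynomial MonoidAlgebra C
open scoped commutatorElement Matrix

namespace Cs2

open FOpsAux

section pure
variable {G : Type} [Group G] {r n : ℕ} {wt : Fin n → ℕ} {σ : G →* GL (Fin n) ℚ} {T N : Subgroup G}
  {τ : Fin r → G}

theorem sec_zp (h : ∀ i, wt i < 2) (hu : ∀ y ∈ T, IsUni wt (σ y)) (hτ : ∀ j, τ j ∈ T)
    (t : Fin r → ℤ) : (σ (zp τ t)).val - 1 = ∑ j, t j • ((σ (τ j)).val - 1) := by
  let φ : T →* Multiplicative (Matrix (Fin n) (Fin n) ℚ) :=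
    MonoidHom.mk' (fun c => Multiplicative.ofAdd ((σ c).val - 1)) fun c c' => by
      have e : ((σ c).val - 1) * ((σ c').val - 1) = 0 := Matrix.ext fun a b =>
        fil_mul' (hu c c.2) (hu c' c'.2) a b (by have := h a; omega)
      refine congrArg Multiplicative.ofAdd
        (?_ : (σ (c * c')).val - 1 = (σ c).val - 1 + ((σ c').val - 1))
      rw [map_mul, Units.val_mul, ← sub_eq_zero, ← e]
      noncomm_ring
  have e1 : T.subtype _ = zp τ t := map_zp T.subtype (fun j => ⟨τ j, hτ j⟩) t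
  have e2 := congrArg Multiplicative.toAdd (map_zp φ (fun j => ⟨τ j, hτ j⟩) t)
  rw [zp, zp, List.prod_ofFn, toAdd_prod] at e2
  rw [← e1]
  exact e2

theorem quot_comm [N.Normal] (h : ⁅T, T⁆ ≤ N) (hτ : ∀ j, τ j ∈ T) (i j : Fin r) :
    QuotientGroup.mk' N (τ i) * QuotientGroup.mk' N (τ j) =
      QuotientGroup.mk' N (τ j) * QuotientGroup.mk' N (τ i) := by
  rw [← map_mul, ← map_mul]
  refine gb_eq.1 ?_
  rw [mul_inv_rev, ← mul_assoc]
  exact h (Subgroup.commutator_mem_commutator (hτ i) (hτ j))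

theorem span_gens [N.Normal] {E : List G} (h : ⁅gen E, gen E⁆ ≤ N) (hτ : ∀ j, τ j ∈ gen E)
    (h5 : ∀ a ∈ E, ∃ t, a * (zp τ t)⁻¹ ∈ N) : ∀ g ∈ gen E, ∃ t, g * (zp τ t)⁻¹ ∈ N := by
  intro g hg
  have hc := quot_comm h hτ
  simp only [gb_eq, ← QuotientGroup.mk'_apply, map_zp] at h5 ⊢
  induction hg using Subgroup.closure_induction with
  | mem a ha => exact h5 a ha
  | one => exact ⟨0, by rw [map_one, zp_zero]⟩
  | mul a b _ _ ha hb =>
    obtain ⟨s, hs⟩ := ha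
    obtain ⟨t, ht⟩ := hb
    exact ⟨s + t, by rw [map_mul, hs, ht, zp_add hc]⟩
  | inv a _ ha =>
    obtain ⟨s, hs⟩ := ha
    exact ⟨-s, by rw [map_inv, hs, zp_neg hc]⟩

end pure

/-- The certificate for independence. -/
def IndC {b r : ℕ} (E Y : List (Fr b)) (τ : Fin r → Fr b) : Prop :=
  ∃ x : Σ n : ℕ, (Fin n → ℕ) × (Fin b → GL (Fin n) ℚ), (∀ i, x.2.1 i < 2) ∧
    (∀ e ∈ E, IsUni x.2.1 (FreeGroup.lift x.2.2 e)) ∧ (∀ y ∈ Y, FreeGroup.lift x.2.2 y = 1) ∧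
    LinearIndependent ℚ fun j => (FreeGroup.lift x.2.2 (τ j)).val - 1

theorem indC_iff {b r : ℕ} {E Y : List (Fr b)} {τ : Fin r → Fr b} (hT : Top (gen E) (ncl Y))
    (hτ : ∀ j, τ j ∈ gen E) : IndC E Y τ ↔ ∀ t, zp τ t ∈ ncl Y → t = 0 := by
  constructor
  · rintro ⟨⟨n, wt, g⟩, h1, h2, h3, h4⟩ t ht
    have hu : ∀ y ∈ gen E, IsUni wt (FreeGroup.lift g y) := fun y hy => by
      induction hy using Subgroup.closure_induction with
      | mem a ha => exact h2 a ha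
      | one => rw [map_one]; exact IsUni.one
      | mul a b _ _ ha hb => rw [map_mul]; exact ha.mul hb
      | inv a _ ha => rw [map_inv]; exact ha.inv
    have hk : ncl Y ≤ (FreeGroup.lift g).ker := Subgroup.normalClosure_le_normal h3
    have e := sec_zp h1 hu hτ t
    rw [show FreeGroup.lift g (zp τ t) = 1 from hk ht, Units.val_one, sub_self] at e
    exact funext (Fintype.linearIndependent_iff.1
      ((LinearIndependent.iff_fractionRing ℤ ℚ).2 h4) t e.symm)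
  · intro h
    obtain ⟨h1, h2, h3, h4⟩ := hT
    obtain ⟨n, wt, σ, k1, k2⟩ := exists_aff' (gen E) (ncl Y)
      ⟨_, h1, h2, le_rfl, Subgroup.commutator_le_self _⟩ h4 h3 (vab_finRank ⟨_, h1, h2, h3, h4⟩)
    obtain ⟨g, rfl⟩ := FreeGroup.lift.surjective σ
    refine ⟨⟨n, wt, g⟩, k1.1, fun e he => k1.2.2 e (Subgroup.subset_closure he), fun y hy =>
      (k2 y (h3 (Subgroup.subset_normalClosure hy))).2
        ⟨1, one_pos, pow_mem (Subgroup.subset_normalClosure (a := y) hy) 1⟩,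
      (LinearIndependent.iff_fractionRing ℤ ℚ).1 (Fintype.linearIndependent_iff.2 fun t ht => ?_)⟩
    rw [← sec_zp k1.1 k1.2.2 hτ t, sub_eq_zero] at ht
    obtain ⟨m, hm, k3⟩ := (k2 _ (zp_mem hτ t)).1 (Units.ext ht)
    have k4 : zp τ ((m : ℤ) • t) ∈ ncl Y := by
      rw [← QuotientGroup.eq_one_iff, ← QuotientGroup.mk'_apply] at k3 ⊢
      rwa [map_zp, zp_smul (quot_comm h4 hτ), zpow_natCast, ← map_zp, ← map_pow]
    exact congrFun ((smul_eq_zero.1 (h _ k4)).resolve_left (by omega))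

/-- The first part of a marking. -/
def Pre {b r : ℕ} (E Y : List (Fr b)) (τ : Fin r → Fr b) : Prop :=
  (∀ y ∈ Y, y ∈ gen E) ∧ (∀ a ∈ E, ∀ a' ∈ E, ⁅a, a'⁆ ∈ ncl Y) ∧ ∀ j, τ j ∈ gen E

theorem Pre.top {b r : ℕ} {E Y : List (Fr b)} {τ : Fin r → Fr b} (h : Pre E Y τ)
    (hT : (gen E).Normal ∧ (gen E).FiniteIndex) : Top (gen E) (ncl Y) :=
  have := hT.1
  ⟨hT.1, hT.2, Subgroup.normalClosure_le_normal h.1, gb_comm_le h.2.1⟩

/-- The guessed data. -/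
abbrev Dat (b : ℕ) : Type := Σ r : ℕ, (Fin r → Fr b) × (Fin r → List ℤ) × (Fin r → ℤ[X])

theorem covG_iff {b m k : ℕ} {E Y : List (Fr b)} {S : Subgroup (Fr b)} {γ : Fin b → GL (Fin m) ℚ}
    (hT : (gen E).Normal ∧ (gen E).FiniteIndex) :
    (∃ x : Dat b, (∃ _ : Pre E Y x.2.1, (∀ t, zp x.2.1 t ∈ ncl Y → t = 0) ∧
        ∀ i, Kill (x.2.1 i) (ncl Y) S (x.2.2.1 i)) ∧
      (∀ a ∈ E, ∃ t, a * (zp x.2.1 t)⁻¹ ∈ ncl Y) ∧ (∀ i, GoodP (lp (x.2.2.1 i)) k (x.2.2.2 i)) ∧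
      CycC (Lid ℚ (ncl Y) x.2.1 x.2.2.2) γ ∧ ∀ y ∈ Y, FreeGroup.lift γ y = 1) ↔
    CovG (gen E) (ncl Y) S k γ := by
  constructor
  · rintro ⟨⟨r, τ, l, f⟩, ⟨h1, h2, h3⟩, h4, h5, h6, h7⟩
    obtain ⟨-, -, k1, k2⟩ := h1.top hT
    exact ⟨r, τ, l, f, ⟨k1, k2, h1.2.2, span_gens k2 h1.2.2 h4, h2⟩, h3, h5, h6,
      Subgroup.normalClosure_le_normal h7⟩
  · rintro ⟨r, τ, l, f, ⟨k1, k2, k3, k4, k5⟩, h3, h5, h6, h7⟩
    exact ⟨⟨r, τ, l, f⟩, ⟨⟨fun y hy => k1 (Subgroup.subset_normalClosure hy),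
      fun a ha a' ha' => k2 (Subgroup.commutator_mem_commutator (Subgroup.subset_closure ha)
        (Subgroup.subset_closure ha')), k3⟩, k5, h3⟩,
      fun a ha => k4 a (Subgroup.subset_closure ha), h5, h6,
      fun y hy => h7 (Subgroup.subset_normalClosure hy)⟩

variable {A : Type} [Rep A] {b r n : A → ℕ} {E Y : ∀ a, List (Fr (b a))}
  {τ : ∀ a, Fin (r a) → Fr (b a)}

theorem grpF (hb : CS b) : GrpF (fun a => Fr (b a)) := GrpF.free (Enum.fin hb) Disc.fin Haus.fin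

theorem grpL (hn : CS n) : GrpF (fun a => GL (Fin (n a)) ℚ) := GrpF.gl (CFin.fin hn) Disc.fin

theorem cs_lift {g : ∀ a, Fin (b a) → GL (Fin (n a)) ℚ} (hn : CS n) (hg : CS g) :
    CS (fun a => FreeGroup.lift (g a)) :=
  CS.freeLift (grpL hn).mul (grpL hn).inv (grpL hn).one hg

theorem cs_set (hb : CS b) (hY : CS Y) : CS (fun a => {y | y ∈ Y a}) :=
  CS.setOf (CS.memList ((grpF hb).disc.comp s1) s2 (hY.comp s1))

theorem cs_ker {g : ∀ a, Fin (b a) → GL (Fin (n a)) ℚ} (hn : CS n) (hg : CS g) (hY : CS Y) :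
    CS (fun a => ∀ y ∈ Y a, FreeGroup.lift (g a) y = 1) :=
  CS.allMem hY (CS.eq ((grpL hn).disc.comp s1) (CS.homApp ((cs_lift hn hg).comp s1) s2)
    (CS.one ((grpL hn).one.comp s1)))

theorem cs_lin {σ : ∀ a, Fr (b a) →* GL (Fin (n a)) ℚ} (hr : CS r) (hn : CS n) (hτ : CS τ)
    (hσ : CS σ) : CS (fun a => LinearIndependent ℚ fun j => (σ a (τ a j)).val - 1) :=
  have hV : CoordF fun a => Matrix (Fin (n a)) (Fin (n a)) ℚ :=
    CoordF.matrix (CFin.fin hn) Disc.fin (CFin.fin hn) Disc.fin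
  CS.linIndep hV (CFin.fin hr) Disc.fin (CS.lam (CS.sub (hV.add.comp s1) (hV.neg.comp s1)
    (CS.homApp (hσ.comp s1) (CS.app (hτ.comp s1) s2)).unitsVal
    (CS.one (OneF.matrix Disc.fin Haus.fin ZeroF.rat OneF.rat))))

theorem cs_indC (hb : CS b) (hr : CS r) (hE : CS E) (hY : CS Y) (hτ : CS τ) :
    CS (fun a => IndC (E a) (Y a) (τ a)) := by
  have h1 := s2 (β := fun a => Σ n : ℕ, (Fin n → ℕ) × (Fin (b a) → GL (Fin n) ℚ))
  have h2 := FEnumAux.s2 h1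
  have hσ := cs_lift h1.sfst h2.snd
  exact CS.ex (Enum.sigma Enum.nat ((Enum.pi (CFin.fin s2) Disc.fin Enum.nat).prod
      (Enum.pi (CFin.fin (hb.comp s1)) Disc.fin ((grpL s2).enum.comp s1))))
    ((CS.all (CFin.fin h1.sfst) (CS.lt LtF.nat (CS.app (h2.fst.comp s1) s2) CS.const)).and
      ((CS.allMem (hE.comp s1) (CS.isUni (h1.sfst.comp s1) (h2.fst.comp s1)
        (CS.homApp (hσ.comp s1) s2))).and ((cs_ker h1.sfst h2.snd (hY.comp s1)).and
          (cs_lin (hr.comp s1) h1.sfst (hτ.comp s1) hσ))))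

theorem cs_pre (hb : CS b) (hr : CS r) (hE : CS E) (hY : CS Y) (hτ : CS τ) :
    CS (fun a => Pre (E a) (Y a) (τ a)) :=
  have hT := CS.closure (grpF hb) (cs_set hb hE)
  have hN := CS.normalClosure (grpF hb) (cs_set hb hY)
  (CS.allMem hY (CS.memSubgroup (hT.comp s1) s2)).and
    ((CS.allMem hE (CS.allMem (hE.comp s1) (CS.memSubgroup (hN.comp (s1.comp s1))
      (CS.commutator MulF.free InvF.free (s2.comp s1) s2)))).and
      (CS.all (CFin.fin hr) (CS.memSubgroup (hT.comp s1) (CS.app (hτ.comp s1) s2))))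

theorem cs_span (hb : CS b) (hr : CS r) (hE : CS E) (hY : CS Y) (hτ : CS τ) :
    CS (fun a => ∀ x ∈ E a, ∃ t, x * (zp (τ a) t)⁻¹ ∈ ncl (Y a)) :=
  have hN := CS.normalClosure (grpF hb) (cs_set hb hY)
  CS.allMem hE (CS.ex (Enum.pi (CFin.fin (hr.comp s1)) Disc.fin Enum.int)
    (CS.memSubgroup (hN.comp (s1.comp s1)) (CS.mul MulF.free (s2.comp s1) (CS.inv InvF.free
      (CS.zp MulF.free InvF.free OneF.free (hr.comp (s1.comp s1)) (hτ.comp (s1.comp s1)) s2)))))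

end Cs2

open Cs2 FOpsAux

variable {A : Type} [Rep A] {b r m k : A → ℕ} {S : ∀ a, Subgroup (Fr (b a))}
  {E Y : ∀ a, List (Fr (b a))}

theorem cs_ind {τ : ∀ a, Fin (r a) → Fr (b a)} (hb : CS b) (hr : CS r) (hE : CS E) (hY : CS Y)
    (hτ : CS τ) (hT : ∀ a, Top (gen (E a)) (ncl (Y a))) (hτT : ∀ a j, τ a j ∈ gen (E a)) :
    CS (fun a => ∀ t, zp (τ a) t ∈ ncl (Y a) → t = 0) :=
  (cs_indC hb hr hE hY hτ).of_iff fun a _ => indC_iff (hT a) (hτT a)

theorem Cs2.cs_dep {τ : ∀ a, Fin (r a) → Fr (b a)} {l : ∀ a, Fin (r a) → List ℤ} (hb : CS b)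
    (hr : CS r) (hE : CS E) (hY : CS Y) (hS : CS S) (hτ : CS τ) (hl : CS l)
    (hT : ∀ a, (gen (E a)).Normal ∧ (gen (E a)).FiniteIndex) (hSn : ∀ a, (S a).Normal) :
    CS (fun a => ∃ _ : Pre (E a) (Y a) (τ a), (∀ t, zp (τ a) t ∈ ncl (Y a) → t = 0) ∧
      ∀ i, Kill (τ a i) (ncl (Y a)) (S a) (l a i)) :=
  have v := FEnumAux.v1 (p := fun a => Pre (E a) (Y a) (τ a))
  have w := v.comp (s1 (β := fun a : {a // Pre (E a) (Y a) (τ a)} => Fin (r a.1)))
  CS.exD (cs_pre hb hr hE hY hτ) ((cs_ind (hb.comp v) (hr.comp v) (hE.comp v) (hY.comp v)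
    (hτ.comp v) (fun a => a.2.top (hT _)) fun a => a.2.2.2).and
    (CS.all (CFin.fin (hr.comp v)) (cs_kill (hb.comp w) (hE.comp w) (hY.comp w) (hS.comp w)
      (CS.app (hτ.comp w) s2) (CS.app (hl.comp w) s2) (fun a => a.1.2.top (hT _))
      (fun _ => hSn _) fun a => a.1.2.2.2 _)))

theorem cs_covG {γ : ∀ a, Fin (b a) → GL (Fin (m a)) ℚ} (hb : CS b) (hm : CS m) (hk : CS k)
    (hE : CS E) (hY : CS Y) (hS : CS S) (hγ : CS γ)
    (hT : ∀ a, (gen (E a)).Normal ∧ (gen (E a)).FiniteIndex) (hSn : ∀ a, (S a).Normal) :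
    CS (fun a => CovG (gen (E a)) (ncl (Y a)) (S a) (k a) (γ a)) := by
  have h1 := s2 (β := fun a => Dat (b a))
  have h2 := FEnumAux.s2 h1
  have hb' := hb.comp (s1 (β := fun a => Dat (b a)))
  have hE' := hE.comp (s1 (β := fun a => Dat (b a)))
  have hY' := hY.comp (s1 (β := fun a => Dat (b a)))
  refine (CS.ex (Enum.sigma Enum.nat
      ((Enum.pi (CFin.fin s2) Disc.fin ((grpF hb).enum.comp (s1.comp s1))).prod
        ((Enum.pi (CFin.fin s2) Disc.fin (Enum.list Enum.int)).prod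
          (Enum.pi (CFin.fin s2) Disc.fin (Enum.poly Enum.int)))))
    ((cs_dep hb' h1.sfst hE' hY' (hS.comp s1) h2.fst h2.snd.fst (fun _ => hT _)
      fun _ => hSn _).and ((cs_span hb' h1.sfst hE' hY' h2.fst).and
      ((CS.all (CFin.fin h1.sfst) (cs_good (CS.lp (CS.app (h2.snd.fst.comp s1) s2))
        (hk.comp (s1.comp s1)) (CS.app (h2.snd.snd.comp s1) s2))).and
        ((cs_cycLid hb' h1.sfst (hm.comp s1) (CS.normalClosure (grpF hb') (cs_set hb' hY'))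
          h2.fst h2.snd.snd (hγ.comp s1)).and
          (cs_ker (hm.comp s1) (hγ.comp s1) hY')))))).of_iff fun a _ => covG_iff (hT a)

end Pool.Agent.P.MP_257122_al.K
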