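import Pool.Agent.P.MP_257122_al.KDefs0
import Pool.Agent.P.MP_257122_al.GBasic
import Pool.Agent.P.MP_257122_al.MSec
import Pool.Agent.P.MP_257122_al.CAux

/-!
# Structure theory and covers: definitions
-/

namespace Pool.Agent.P.MP_257122_al.K

open Polynomial MonoidAlgebra C
open scoped commutatorElement Matrix

section ring

/-- `b` is a two-sided ideal. -/
def Two {R A : Type} [CommRing R] [Ring A] [Algebra R A] (b : Submodule R A) : Prop :=
  ⊤ * b ≤ b ∧ b * ⊤ ≤ b

/-- The quotient by `b` has no torsion. -/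
def Pure {R M : Type} [Semiring R] [AddCommMonoid M] [Module R M] (b : Submodule R M) : Prop :=
  ∀ (m : ℕ) (x : M), m ≠ 0 → m • x ∈ b → x ∈ b

/-- The largest right ideal inside `L`. -/
def core {R A : Type} [CommRing R] [Ring A] [Algebra R A] (L : Submodule R A) : Submodule R A where
  carrier := {x | ∀ y, x * y ∈ L}
  zero_mem' := fun y => by rw [zero_mul]; exact L.zero_mem
  add_mem' := fun hx hy z => by rw [add_mul]; exact L.add_mem (hx z) (hy z)
  smul_mem' := fun r x hx z => by rw [smul_mul_assoc]; exact L.smul_mem r (hx z)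

/-- Evaluation of integral polynomials in a ring. -/
noncomputable abbrev pev {A : Type} [Ring A] (x : A) : ℤ[X] →ₐ[ℤ] A := aeval x

/-- The coefficients of `f` are coprime. -/
def Prim (f : ℤ[X]) : Prop := ∃ (u : ℤ[X]) (n : ℕ), (u * f).coeff n = 1

/-- `h (x y)` lies in the ideal generated by `f x` and `g y`. -/
def Conv (f g h : ℤ[X]) : Prop :=
  ∃ a b : ℤ[X][X], pev (Polynomial.C X * X : ℤ[X][X]) h =
    a * pev (Polynomial.C X : ℤ[X][X]) f + b * pev (X : ℤ[X][X]) g

/-- `f` kills the first tensor powers of a module that is killed by `v * (X - 1)`. -/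
def Chain (v : ℤ[X]) (k : ℕ) (f : ℤ[X]) : Prop :=
  ∃ g : Fin (k + 1) → ℤ[X], g 0 = X - 1 ∧
    (∀ j : Fin k, Conv (g j.castSucc) (v * (X - 1)) (g j.succ)) ∧ ∀ j, ∃ c, f = g j * c

/-- All conditions on one of the polynomials. -/
def GoodP (v : ℤ[X]) (k : ℕ) (f : ℤ[X]) : Prop :=
  Prim f ∧ Chain v k f ∧ ∃ c, f = (X - 1) ^ 2 * c

end ring

section grp
variable {G H : Type} [Group G] [Group H]

/-- The generators of the basic left ideal. -/
noncomputable def lgen (R : Type) [CommRing R] {r : ℕ} (N : Subgroup G) (τ : Fin r → G)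
    (f : Fin r → ℤ[X]) : Submodule R (MonoidAlgebra R G) :=
  aug R N ⊔ Submodule.span R (Set.range fun i => pev (of R G (τ i)) (f i))

/-- The left ideal generated by the `n - 1` and the `f i (τ i)`. -/
noncomputable def Lid (R : Type) [CommRing R] {r : ℕ} (N : Subgroup G) (τ : Fin r → G)
    (f : Fin r → ℤ[X]) : Submodule R (MonoidAlgebra R G) := ⊤ * lgen R N τ f

/-- The polynomial `lp l` in the conjugation by `t⁻¹` kills `N / ⁅N, N⁆ S`. -/
def Kill (t : G) (N S : Subgroup G) (l : List ℤ) : Prop := ∀ y ∈ N, pv t⁻¹ y l ∈ ⁅N, N⁆ ⊔ S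

/-- The normal closure of a list. -/
abbrev ncl (Y : List G) : Subgroup G := Subgroup.normalClosure {y | y ∈ Y}

/-- The subgroup generated by a list. -/
abbrev gen (Y : List G) : Subgroup G := Subgroup.closure {y | y ∈ Y}

/-- The subgroup generated by the conjugates of `Y` under `T`. -/
def nclIn (T : Subgroup G) (Y : List G) : Subgroup G :=
  Subgroup.closure {z | ∃ t ∈ T, ∃ y ∈ Y, t * y * t⁻¹ = z}

/-- The iterated commutator `⁅B, D, ..., D⁆`. -/
def itB (B D : Subgroup G) : ℕ → Subgroup G := fun n => (fun K => ⁅K, D⁆)^[n] B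

/-- The left normed commutators of length `c + 1` in the elements of `Y`. -/
def comms (Y : List G) : ℕ → List G :=
  fun c => (fun Z : List G => Z.flatMap fun z => Y.map fun y => ⁅z, y⁆)^[c] Y

/-- `X` generates `G` as a monoid. -/
def MGen (X : List G) : Prop := Submonoid.closure {x | x ∈ X} = ⊤

/-- `L` maps onto every elementary abelian quotient of `N / S`. -/
def Frat (L N S : Subgroup G) : Prop := ∀ p : ℕ, p.Prime → N ≤ L ⊔ ⁅N, N⁆ ⊔ pw p N ⊔ S

/-- A finite certificate for `Frat`. -/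
def FratC (X Y : List G) (m : ℕ) (S : Subgroup G) : Prop :=
  0 < m ∧ ∀ x ∈ X, ∀ y ∈ Y, (x * y * x⁻¹) ^ m ∈ gen Y ⊔ ⁅ncl Y, ncl Y⁆ ⊔ S ∧
    x * y * x⁻¹ ∈ gen Y ⊔ ⁅ncl Y, ncl Y⁆ ⊔ pw m (ncl Y) ⊔ S

/-- The certificate for nilpotency. -/
def CertA (X Y : List G) (m c : ℕ) (S : Subgroup G) : Prop :=
  FratC X Y m S ∧ ∀ x ∈ X, ∀ z ∈ comms (Y ++ Y.map fun y => x * y * x⁻¹) c, z ∈ S

/-- `T` is a normal subgroup of finite index that is abelian modulo `N`. -/
def Top (T N : Subgroup G) : Prop := T.Normal ∧ T.FiniteIndex ∧ N ≤ T ∧ ⁅T, T⁆ ≤ N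

theorem pwMem {k : ℕ} {Y : Subgroup G} {y : G} (hy : y ∈ Y) : y ^ k ∈ pw k Y :=
  Subgroup.subset_closure ⟨y, hy, rfl⟩

theorem pwLeIff {k : ℕ} {Y K : Subgroup G} : pw k Y ≤ K ↔ ∀ y ∈ Y, y ^ k ∈ K :=
  (Subgroup.closure_le _).trans ⟨fun h y hy => h ⟨y, hy, rfl⟩, fun h _ ⟨y, hy, e⟩ => e ▸ h y hy⟩

theorem pwLe (k : ℕ) (Y : Subgroup G) : pw k Y ≤ Y := pwLeIff.2 fun _ hy => pow_mem hy k

theorem pwMono (k : ℕ) {Y Y' : Subgroup G} (h : Y ≤ Y') : pw k Y ≤ pw k Y' :=
  pwLeIff.2 fun _ hy => pwMem (h hy)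

theorem pwDvd {k l : ℕ} (h : k ∣ l) (Y : Subgroup G) : pw l Y ≤ pw k Y := by
  obtain ⟨j, rfl⟩ := h
  exact pwLeIff.2 fun y hy => by rw [mul_comm, pow_mul]; exact pwMem (pow_mem hy j)

theorem pwMap (f : G →* H) (k : ℕ) (Y : Subgroup G) : (pw k Y).map f = pw k (Y.map f) := by
  refine le_antisymm (Subgroup.map_le_iff_le_comap.2 (pwLeIff.2 fun y hy => ?_))
    (pwLeIff.2 ?_)
  · rw [Subgroup.mem_comap, map_pow]
    exact pwMem ⟨y, hy, rfl⟩
  · rintro _ ⟨y, hy, rfl⟩
    exact ⟨y ^ k, pwMem hy, map_pow _ _ _⟩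

instance pwNormal (k : ℕ) (Y : Subgroup G) [h : Y.Normal] : (pw k Y).Normal :=
  ⟨fun x hx g => by
    have : pw k Y ≤ (pw k Y).comap (MulAut.conj g).toMonoidHom := pwLeIff.2 fun y hy => by
      rw [Subgroup.mem_comap, map_pow]
      exact pwMem (h.conj_mem y hy g)
    exact this hx⟩

theorem itB_zero (B D : Subgroup G) : itB B D 0 = B := rfl

theorem itB_succ (B D : Subgroup G) (n : ℕ) : itB B D (n + 1) = ⁅itB B D n, D⁆ :=
  Function.iterate_succ_apply' (fun K : Subgroup G => ⁅K, D⁆) n B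

theorem itB_add (B D : Subgroup G) (m n : ℕ) : itB B D (m + n) = itB (itB B D m) D n := by
  rw [add_comm]; exact Function.iterate_add_apply (fun K : Subgroup G => ⁅K, D⁆) n m B

theorem itB_mono {B B' D D' : Subgroup G} (h : B ≤ B') (h' : D ≤ D') (n : ℕ) :
    itB B D n ≤ itB B' D' n := by
  induction n with
  | zero => exact h
  | succ n ih => rw [itB_succ, itB_succ]; exact Subgroup.commutator_mono ih h'

instance itB_normal (B D : Subgroup G) [B.Normal] [D.Normal] (n : ℕ) : (itB B D n).Normal := by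
  induction n with
  | zero => rwa [itB_zero]
  | succ n ih => rw [itB_succ]; infer_instance

theorem itB_map (f : G →* H) (B D : Subgroup G) (n : ℕ) :
    (itB B D n).map f = itB (B.map f) (D.map f) n := by
  induction n with
  | zero => rfl
  | succ n ih => rw [itB_succ, itB_succ, Subgroup.map_commutator, ih]

theorem itB_self (N : Subgroup G) (n : ℕ) : itB N N n = N.lowerCentralSeries n := by
  induction n with
  | zero => rfl
  | succ n ih => rw [itB_succ, ih, Subgroup.lowerCentralSeries_succ]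

theorem lcs_add (N : Subgroup G) (m n : ℕ) :
    N.lowerCentralSeries (m + n) = itB (N.lowerCentralSeries m) N n := by
  rw [← itB_self, itB_add, itB_self]

theorem comms_zero (Y : List G) : comms Y 0 = Y := rfl

theorem comms_succ (Y : List G) (c : ℕ) :
    comms Y (c + 1) = (comms Y c).flatMap fun z => Y.map fun y => ⁅z, y⁆ :=
  Function.iterate_succ_apply' (fun Z : List G => Z.flatMap fun z => Y.map fun y => ⁅z, y⁆) c Y

theorem gen_map (f : G →* H) (Y : List G) : (gen Y).map f = gen (Y.map f) := by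
  rw [MonoidHom.map_closure]
  exact congrArg Subgroup.closure (Set.ext fun _ => List.mem_map.symm)

theorem ncl_map (f : G →* H) (hf : Function.Surjective f) (Y : List G) :
    (ncl Y).map f = ncl (Y.map f) := by
  rw [Subgroup.map_normalClosure _ f hf]
  exact congrArg Subgroup.normalClosure (Set.ext fun _ => List.mem_map.symm)

theorem mem_quot {S A : Subgroup G} [S.Normal] {g : G} :
    QuotientGroup.mk' S g ∈ A.map (QuotientGroup.mk' S) ↔ g ∈ A ⊔ S := by
  rw [← Subgroup.mem_comap, Subgroup.comap_map_eq, QuotientGroup.ker_mk']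

theorem MGen.map {X : List G} (h : MGen X) (f : G →* H) (hf : Function.Surjective f) :
    MGen (X.map f) := by
  have := congrArg (Submonoid.map f) h
  rw [MonoidHom.map_mclosure, ← MonoidHom.mrange_eq_map, MonoidHom.mrange_eq_top.2 hf] at this
  exact (congrArg Submonoid.closure (Set.ext fun _ => List.mem_map)).trans this

theorem MGen.fg {X : List G} (h : MGen X) : Group.FG G := by
  classical
  refine ⟨⟨X.toFinset, top_unique fun g _ => ?_⟩⟩
  have : g ∈ Submonoid.closure {x | x ∈ X} := h ▸ trivial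
  rw [List.coe_toFinset]
  exact Subgroup.le_closure_toSubmonoid _ this

/-- A subgroup that is stable under the conjugations by `X` is normal. -/
theorem MGen.normal {X : List G} (h : MGen X) {K : Subgroup G}
    (hK : ∀ x ∈ X, ∀ y ∈ K, x * y * x⁻¹ ∈ K) : K.Normal := by
  refine ⟨fun y hy g => ?_⟩
  have : g ∈ Submonoid.closure {x | x ∈ X} := h ▸ trivial
  induction this using Submonoid.closure_induction generalizing y with
  | mem x hx => exact hK x hx y hy
  | one => simpa using hy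
  | mul a b _ _ ha hb => simpa [mul_assoc] using ha _ (hb y hy)

theorem exists_mgen [h : Group.FG G] : ∃ X : List G, MGen X := by
  obtain ⟨s, hs⟩ := Group.fg_iff_monoid_fg.1 h
  exact ⟨s.toList, by simpa [MGen] using hs⟩

theorem Top.vab {T N : Subgroup G} (h : Top T N) : VAb N := ⟨T, h⟩

theorem core_le {R A : Type} [CommRing R] [Ring A] [Algebra R A] (L : Submodule R A) :
    core L ≤ L := fun x hx => mul_one x ▸ hx 1

theorem core_mul_top {R A : Type} [CommRing R] [Ring A] [Algebra R A] (L : Submodule R A) :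
    core L * ⊤ ≤ core L :=
  Submodule.mul_le.2 fun x hx y _ z => mul_assoc x y z ▸ hx (y * z)

theorem top_mul_top_mul {R A : Type} [CommRing R] [Ring A] [Algebra R A] (s : Submodule R A) :
    ⊤ * (⊤ * s) ≤ ⊤ * s := by
  rw [← mul_assoc]; exact mul_le_mul_left le_top _

theorem two_core {R A : Type} [CommRing R] [Ring A] [Algebra R A] {L : Submodule R A}
    (h : ⊤ * L ≤ L) : Two (core L) :=
  ⟨Submodule.mul_le.2 fun x _ y hy z => mul_assoc x y z ▸ h (Submodule.mul_mem_mul trivial (hy z)),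
    core_mul_top L⟩

end grp

/-- The generators of a free group and their inverses. -/
def gensL (b : ℕ) : List (Fr b) :=
  List.ofFn FreeGroup.of ++ List.ofFn fun x => (FreeGroup.of x)⁻¹

theorem mgen_gensL (b : ℕ) : MGen (gensL b) := by
  refine top_unique fun g _ => ?_
  induction g using FreeGroup.induction_on with
  | C1 => exact one_mem _
  | of x => exact Submonoid.subset_closure (by simp [gensL])
  | inv_of x _ => exact Submonoid.subset_closure (by simp [gensL])
  | mul x y hx hy => exact mul_mem (hx trivial) (hy trivial)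

/-- A certificate that the module given by `g` has a vector whose annihilator lies in `I`. -/
def CycC {b n : ℕ} (I : Submodule ℚ (QF b)) (g : Fin b → GL (Fin n) ℚ) : Prop :=
  ∃ (u : Fin n → ℚ) (h : Fin n → QF b), 1 - ∑ j, u j • h j ∈ I ∧
    ∀ x i, of ℚ (Fr b) (FreeGroup.of x) * h i - ∑ j, (g x).val j i • h j ∈ I ∧
      of ℚ (Fr b) (FreeGroup.of x)⁻¹ * h i - ∑ j, (g x).inv j i • h j ∈ I

/-- The kernel of `γ` is small enough to give a cover of `N / S`. -/
def CovG {b m : ℕ} (T N S : Subgroup (Fr b)) (k : ℕ) (γ : Fin b → GL (Fin m) ℚ) : Prop :=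
  ∃ (r : ℕ) (τ : Fin r → Fr b) (l : Fin r → List ℤ) (f : Fin r → ℤ[X]), IsMark T N τ ∧
    (∀ i, Kill (τ i) N S (l i)) ∧ (∀ i, GoodP (lp (l i)) k (f i)) ∧ CycC (Lid ℚ N τ f) γ ∧
    N ≤ (FreeGroup.lift γ).ker

end Pool.Agent.P.MP_257122_al.K
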