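import Pool.Agent.P.MP_257122_al.KComm

/-!
# The theorem of Dynkin, Specht and Wever for free groups

The free group acts on the product of `ℤ` and of all lower central factors, a generator `x` acting
as `1 + ad x`.  An element `u` of the term number `p` acts as `1 + ad u` up to terms of higher degree,
and it moves the generator of `ℤ` by `(p + 1) • u`.
-/

namespace Pool.Agent.P.MP_257122_al.K

open Polynomial MonoidAlgebra C
open scoped commutatorElement Matrix

theorem sub_mem_aug_pow {R G : Type} [CommRing R] [Group G] {N : Subgroup G} {m : ℕ} {x : G}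
    (hx : x ∈ N.lowerCentralSeries m) : of R G x - 1 ∈ aug R N ^ (m + 1) := by
  have hl : ∀ k, zs R N * aug R N ^ (k + 1) ≤ aug R N ^ (k + 1) := fun k => by
    rw [pow_succ', ← mul_assoc]; exact mul_le_mul_left zs_mul_aug _
  have hr : ∀ k, aug R N ^ (k + 1) * zs R N ≤ aug R N ^ (k + 1) := fun k => by
    rw [pow_succ, mul_assoc]; exact mul_le_mul_right aug_mul_zs _
  have hN : ∀ {k y}, y ∈ N.lowerCentralSeries k → y ∈ N := fun hy =>
    N.lowerCentralSeries_antitone (Nat.zero_le _) hy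
  induction m generalizing x with
  | zero => rw [zero_add, pow_one]; exact sub_mem_aug hx
  | succ m ih =>
    induction hx using Subgroup.closure_induction with
    | mem z hz =>
      obtain ⟨u, hu, y, hy, rfl⟩ := hz
      have e : of R G ⁅u, y⁆ - 1 = ((of R G u - 1) * (of R G y - 1) -
          (of R G y - 1) * (of R G u - 1)) * of R G (u⁻¹ * y⁻¹) := by
        have e1 : (of R G u - 1) * (of R G y - 1) - (of R G y - 1) * (of R G u - 1) =
            of R G (u * y) - of R G (y * u) := by rw [map_mul, map_mul]; noncomm_ring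
        rw [e1, sub_mul, ← map_mul, ← map_mul, ← map_one (of R G), commutatorElement_def]
        congr 2 <;> group
      rw [e]
      refine hr _ (Submodule.mul_mem_mul (sub_mem ?_ ?_)
        (of_mem_zs (mul_mem (inv_mem (hN hu)) (inv_mem hy))))
      · rw [pow_succ]; exact Submodule.mul_mem_mul (ih hu) (sub_mem_aug hy)
      · rw [pow_succ']; exact Submodule.mul_mem_mul (sub_mem_aug hy) (ih hu)
    | one => rw [map_one, sub_self]; exact zero_mem _
    | mul a b ha _ iha ihb =>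
      have e : of R G (a * b) - 1 = of R G a * (of R G b - 1) + (of R G a - 1) := by
        rw [map_mul]; noncomm_ring
      rw [e]
      exact add_mem (hl _ (Submodule.mul_mem_mul (of_mem_zs (hN (k := m + 1) ha)) ihb)) iha
    | inv a ha iha =>
      have e : of R G a⁻¹ - 1 = -(of R G a⁻¹ * (of R G a - 1)) := by
        rw [mul_sub, ← map_mul, inv_mul_cancel, map_one, mul_one, neg_sub]
      rw [e]
      exact neg_mem (hl _ (Submodule.mul_mem_mul (of_mem_zs (inv_mem (hN (k := m + 1) ha))) iha))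

namespace Dsw

variable {G : Type} [Group G]

/-- The lower central series. -/
abbrev ga (G : Type) [Group G] (n : ℕ) : Subgroup G := (⊤ : Subgroup G).lowerCentralSeries n

theorem comm_mem {i j m : ℕ} {a b : G} (ha : a ∈ ga G i) (hb : b ∈ ga G j) (h : m ≤ i + j + 1) :
    ⁅a, b⁆ ∈ ga G m :=
  Subgroup.lowerCentralSeries_antitone _ h (lcs_comm ⊤ i j (Subgroup.commutator_mem_commutator ha hb))

theorem top_mem (g : G) : g ∈ ga G 0 := trivial

/-- `f` is a homomorphism on `K`. -/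
def AddOn {V : Type} [AddCommGroup V] (K : Subgroup G) (f : G → V) : Prop :=
  ∀ a ∈ K, ∀ b ∈ K, f (a * b) = f a + f b

section addon
variable {V V' : Type} [AddCommGroup V] [AddCommGroup V'] {K : Subgroup G} {f g : G → V}

theorem AddOn.one (h : AddOn K f) : f 1 = 0 := by
  have := h 1 K.one_mem 1 K.one_mem
  rwa [mul_one, left_eq_add] at this

theorem AddOn.inv (h : AddOn K f) {a : G} (ha : a ∈ K) : f a⁻¹ = -f a := by
  have := h a⁻¹ (K.inv_mem ha) a ha
  rw [inv_mul_cancel, h.one] at this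
  exact eq_neg_of_add_eq_zero_left this.symm

theorem AddOn.pow (h : AddOn K f) {a : G} (ha : a ∈ K) (k : ℕ) : f (a ^ k) = k • f a := by
  induction k with
  | zero => rw [pow_zero, h.one, zero_smul]
  | succ k ih => rw [pow_succ, h _ (K.pow_mem ha k) _ ha, ih, succ_nsmul]

theorem AddOn.ext {s : Set G} (hK : K = Subgroup.closure s) (hf : AddOn K f) (hg : AddOn K g)
    (h : ∀ x ∈ s, f x = g x) {x : G} (hx : x ∈ K) : f x = g x := by
  subst hK
  induction hx using Subgroup.closure_induction with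
  | mem z hz => exact h z hz
  | one => rw [hf.one, hg.one]
  | mul a b ha hb iha ihb => rw [hf a ha b hb, hg a ha b hb, iha, ihb]
  | inv a ha iha => rw [hf.inv ha, hg.inv ha, iha]

/-- `δ` identifies `V` with the lower central factor number `n`. -/
structure Gr (n : ℕ) (δ : G → V) : Prop where
  add : AddOn (ga G n) δ
  zero : ∀ a ∈ ga G n, δ a = 0 ↔ a ∈ ga G (n + 1)
  surj : ∀ v, ∃ a ∈ ga G n, δ a = v

variable {n : ℕ} {δ : G → V}

theorem Gr.zero' (h : Gr n δ) {a : G} (ha : a ∈ ga G (n + 1)) : δ a = 0 :=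
  (h.zero a (Subgroup.lowerCentralSeries_antitone _ n.le_succ ha)).2 ha

theorem Gr.conj (h : Gr n δ) (g : G) {a : G} (ha : a ∈ ga G n) : δ (g * a * g⁻¹) = δ a := by
  have e : g * a * g⁻¹ = ⁅g, a⁆ * a := by rw [commutatorElement_def]; group
  rw [e, h.add _ (comm_mem (top_mem g) ha (by omega)) _ ha,
    h.zero' (comm_mem (top_mem g) ha (by omega)), zero_add]

theorem Gr.left (h : Gr n δ) {i j : ℕ} (hn : n ≤ i + j + 1) {a : G} (ha : a ∈ ga G j) :
    AddOn (ga G i) fun u => δ ⁅u, a⁆ := fun u hu v hv => by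
  have e : ⁅u * v, a⁆ = u * ⁅v, a⁆ * u⁻¹ * ⁅u, a⁆ := by simp only [commutatorElement_def]; group
  have h1 := comm_mem hv ha hn
  dsimp only
  rw [e, h.add _ (Subgroup.Normal.conj_mem inferInstance _ h1 u) _ (comm_mem hu ha hn),
    h.conj u h1, add_comm]

theorem Gr.right (h : Gr n δ) {i j : ℕ} (hn : n ≤ i + j + 1) {u : G} (hu : u ∈ ga G i) :
    AddOn (ga G j) fun a => δ ⁅u, a⁆ := fun a ha b hb => by
  have e : ⁅u, a * b⁆ = ⁅u, a⁆ * (a * ⁅u, b⁆ * a⁻¹) := by simp only [commutatorElement_def]; group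
  have h1 := comm_mem hu hb hn
  dsimp only
  rw [e, h.add _ (comm_mem hu ha hn) _ (Subgroup.Normal.conj_mem inferInstance _ h1 a),
    h.conj a h1]

theorem Gr.jacobi (h : Gr n δ) {p q : ℕ} (hn : n = q + (p + 1) + 1) {u a : G} (hu : u ∈ ga G p)
    (y : G) (ha : a ∈ ga G q) : δ ⁅u, ⁅y, a⁆⁆ - δ ⁅y, ⁅u, a⁆⁆ = δ ⁅⁅u, y⁆, a⁆ := by
  have hs : ⁅u, y⁆ ∈ ga G (p + 1) := comm_mem hu (top_mem y) (by omega)
  have ht : ⁅u, a⁆ ∈ ga G (p + q + 1) := comm_mem hu ha le_rfl
  have ht' : ⁅u, a⁆ ∈ ga G (p + 1) := comm_mem hu ha (by omega)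
  have hc : ⁅y, a⁆ ∈ ga G (q + 1) := comm_mem (top_mem y) ha (by omega)
  have e : ⁅u, ⁅y, a⁆⁆ = ⁅u, y⁆ * ⁅y, ⁅u, a⁆⁆ * ⁅u, y⁆⁻¹ * (⁅⁅u, y⁆ * ⁅u, a⁆, ⁅y, a⁆⁆ *
      (⁅y, a⁆ * (⁅⁅u, y⁆, ⁅u, a⁆⁆ * (⁅u, a⁆ * ⁅⁅u, y⁆, a⁆ * ⁅u, a⁆⁻¹)) * ⁅y, a⁆⁻¹)) := by
    simp only [commutatorElement_def]; group
  have hN : (ga G n).Normal := inferInstance
  have h1 : ⁅y, ⁅u, a⁆⁆ ∈ ga G n := comm_mem (top_mem y) ht (by omega)
  have h2 : ⁅⁅u, y⁆, a⁆ ∈ ga G n := comm_mem hs ha (by omega)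
  have h3 : ⁅⁅u, y⁆, ⁅u, a⁆⁆ ∈ ga G n := comm_mem hs ht (by omega)
  have h4 : ⁅⁅u, y⁆ * ⁅u, a⁆, ⁅y, a⁆⁆ ∈ ga G n := comm_mem (mul_mem hs ht') hc (by omega)
  have h5 := mul_mem h3 (hN.conj_mem _ h2 ⁅u, a⁆)
  rw [e, h.add _ (hN.conj_mem _ h1 _) _ (mul_mem h4 (hN.conj_mem _ h5 _)), h.conj _ h1,
    h.add _ h4 _ (hN.conj_mem _ h5 _), h.conj _ h5, h.add _ h3 _ (hN.conj_mem _ h2 _),
    h.conj _ h2, h.zero' (comm_mem (mul_mem hs ht') hc (by omega)),
    h.zero' (comm_mem hs ht (by omega)), zero_add, zero_add, add_sub_cancel_left]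

theorem Gr.exists_br (h : Gr n δ) {δ' : G → V'} (h' : Gr (n + 1) δ') (y : G) :
    ∃ β : V →+ V', ∀ a ∈ ga G n, β (δ a) = δ' ⁅y, a⁆ := by
  choose s hs hs' using h.surj
  have ad := h'.right (i := 0) (j := n) (by omega) (top_mem y)
  have key : ∀ a ∈ ga G n, ∀ b ∈ ga G n, δ a = δ b → δ' ⁅y, a⁆ = δ' ⁅y, b⁆ := by
    intro a ha b hb e
    have hc : b⁻¹ * a ∈ ga G n := mul_mem (inv_mem hb) ha
    have h0 : b⁻¹ * a ∈ ga G (n + 1) := (h.zero _ hc).1 (by
      rw [h.add _ (inv_mem hb) _ ha, h.add.inv hb, e, neg_add_cancel])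
    have := ad b hb _ hc
    dsimp only at this
    rwa [mul_inv_cancel_left, h'.zero' (comm_mem (top_mem y) h0 (by omega)), add_zero] at this
  refine ⟨AddMonoidHom.mk' (fun v => δ' ⁅y, s v⁆) fun v w => ?_, fun a ha => key _ (hs _) _ ha (hs' _)⟩
  rw [key _ (hs _) _ (mul_mem (hs v) (hs w)) (by rw [h.add _ (hs v) _ (hs w), hs', hs', hs'])]
  exact ad _ (hs v) _ (hs w)

end addon

theorem exists_gr (G : Type) [Group G] (n : ℕ) :
    ∃ (V : Type) (_ : AddCommGroup V) (δ : G → V), Gr n δ := by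
  classical
  let K := (ga G n).map (QuotientGroup.mk' (ga G (n + 1)))
  let _ : CommGroup K :=
    { (inferInstance : Group K) with
      mul_comm := by
        rintro ⟨_, a, ha, rfl⟩ ⟨_, b, hb, rfl⟩
        refine Subtype.ext (commutatorElement_eq_one_iff_mul_comm.1 ?_)
        rw [← map_commutatorElement]
        exact (QuotientGroup.eq_one_iff _).2 (comm_mem ha hb (by omega)) }
  refine ⟨Additive K, inferInstance, fun a =>
    if h : a ∈ ga G n then Additive.ofMul ⟨_, a, h, rfl⟩ else 0, ?_, ?_, ?_⟩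
  · intro a ha b hb
    dsimp only
    rw [dif_pos ha, dif_pos hb, dif_pos (mul_mem ha hb)]
    rfl
  · intro a ha
    rw [dif_pos ha, ofMul_eq_zero, Subtype.ext_iff]
    exact QuotientGroup.eq_one_iff _
  · rintro ⟨_, a, ha, rfl⟩
    exact ⟨a, ha, dif_pos ha⟩

theorem exists_tower (G : Type) [Group G] : ∃ (V : ℕ → Type) (_ : ∀ k, AddCommGroup (V k))
    (e : V 0) (δ : ∀ k, G → V (k + 1)) (β : G → ∀ k, V k →+ V (k + 1)), (∀ n, Gr n (δ n)) ∧
      (∀ y, β y 0 e = δ 0 y) ∧ ∀ y n, ∀ a ∈ ga G n, β y (n + 1) (δ n a) = δ (n + 1) ⁅y, a⁆ := by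
  choose V inst δ h using exists_gr G
  choose β hβ using fun n => (h n).exists_br (h (n + 1))
  exact ⟨fun k => Nat.casesOn k ℤ V, fun k => Nat.casesOn k (inferInstanceAs (AddCommGroup ℤ)) inst,
    (1 : ℤ), δ, fun y k => Nat.casesOn k (zmultiplesHom (V 0) (δ 0 y)) fun k => β k y, h,
    fun y => one_zsmul _, fun y n => hβ n y⟩

section tower
variable (V : ℕ → Type) [∀ k, AddCommGroup (V k)]

/-- The endomorphisms that raise the degree by `j`. -/
def E (j : ℕ) : Submodule ℤ (Module.End ℤ (∀ k, V k)) where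
  carrier := {φ | ∀ n w, (∀ k < n, w k = 0) → ∀ k < n + j, φ w k = 0}
  zero_mem' := fun _ _ _ _ _ => rfl
  add_mem' := fun {φ ψ} h h' n w hw k hk => by
    rw [LinearMap.add_apply, Pi.add_apply, h n w hw k hk, h' n w hw k hk, add_zero]
  smul_mem' := fun c φ h n w hw k hk => by
    rw [LinearMap.smul_apply, Pi.smul_apply, h n w hw k hk, smul_zero]

variable {V}

theorem E_mul {i j : ℕ} {φ ψ : Module.End ℤ (∀ k, V k)} (h : φ ∈ E V i) (h' : ψ ∈ E V j) :
    φ * ψ ∈ E V (j + i) := fun n w hw k hk =>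
  h (n + j) _ (h' n w hw) k (by omega)

theorem E_pow (j : ℕ) : E V 1 ^ j ≤ E V j := by
  induction j with
  | zero => exact Submodule.one_le.2 fun n w hw k hk => hw k hk
  | succ j ih =>
    rw [Submodule.pow_succ]
    exact Submodule.mul_le.2 fun φ h ψ h' => Nat.add_comm 1 j ▸ E_mul (ih h) h'

theorem E_zero {φ : Module.End ℤ (∀ k, V k)} (h : φ - 1 ∈ E V 1) : φ ∈ E V 0 := by
  intro n w hw k hk
  have := h n w hw k (by omega)
  rwa [LinearMap.sub_apply, Pi.sub_apply, Module.End.one_apply, hw k hk, sub_zero] at this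

/-- The unipotent automorphisms. -/
def U (V : ℕ → Type) [∀ k, AddCommGroup (V k)] : Subgroup (Module.End ℤ (∀ k, V k))ˣ where
  carrier := {φ | φ.val - 1 ∈ E V 1}
  one_mem' := by simp
  mul_mem' := fun {φ ψ} h h' => by
    have e : (φ * ψ).val - 1 = φ.val * (ψ.val - 1) + (φ.val - 1) := by
      rw [Units.val_mul]; noncomm_ring
    exact (e ▸ add_mem (E_mul (E_zero h) h') h : (φ * ψ).val - 1 ∈ E V 1)
  inv_mem' := fun {φ} h => by
    have h0 : (φ⁻¹).val ∈ E V 0 := by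
      intro n w hw
      have : ∀ j ≤ n, ∀ k < j, (φ⁻¹).val w k = 0 := by
        intro j
        induction j with
        | zero => exact fun _ k hk => absurd hk (Nat.not_lt_zero k)
        | succ j ih =>
          intro hj k hk
          have := h j _ (ih (by omega)) k hk
          rwa [LinearMap.sub_apply, Pi.sub_apply, ← Module.End.mul_apply, Units.mul_inv,
            Module.End.one_apply, hw k (by omega), zero_sub, neg_eq_zero] at this
      exact this n le_rfl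
    have e : (φ⁻¹).val - 1 = -((φ⁻¹).val * (φ.val - 1)) := by
      rw [mul_sub, Units.inv_mul, mul_one, neg_sub]
    exact (e ▸ neg_mem (E_mul h0 h) : (φ⁻¹).val - 1 ∈ E V 1)

/-- The operator given by maps between consecutive terms. -/
def D (β : ∀ k, V k →+ V (k + 1)) : Module.End ℤ (∀ k, V k) :=
  (AddMonoidHom.mk' (fun (w : ∀ k, V k) (k : ℕ) => (Nat.casesOn k 0 fun k => β k (w k) : V k))
    fun w w' => funext fun k => by
      cases k with
      | zero => exact (add_zero _).symm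
      | succ k => exact map_add _ _ _).toIntLinearMap

theorem D_mem (β : ∀ k, V k →+ V (k + 1)) : D β ∈ E V 1 := fun n w hw k hk => by
  cases k with
  | zero => rfl
  | succ k => exact (congrArg (β k) (hw k (by omega))).trans (map_zero _)

theorem D_unit (β : ∀ k, V k →+ V (k + 1)) : IsUnit (1 + D β) := by
  refine (Module.End.isUnit_iff _).2 ⟨(injective_iff_map_eq_zero _).2 fun w hw => funext fun k => ?_,
    fun v => ⟨fun k => Nat.rec (v 0) (fun k x => v (k + 1) - β k x) k, funext fun k => ?_⟩⟩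
  · induction k with
    | zero => exact (add_zero _).symm.trans (congrFun hw 0)
    | succ k ih =>
      have : w (k + 1) + β k (w k) = 0 := congrFun hw (k + 1)
      rwa [ih, Pi.zero_apply, map_zero, add_zero] at this
  · cases k with
    | zero => exact add_zero _
    | succ k => exact sub_add_cancel _ _

variable {ρ : G →* (Module.End ℤ (∀ k, V k))ˣ}

theorem alg_mem (h : ∀ g, ρ g ∈ U V) {j : ℕ} {x : MonoidAlgebra ℤ G}
    (hx : x ∈ aug ℤ (⊤ : Subgroup G) ^ j) :
    MonoidAlgebra.lift ℤ _ G ((Units.coeHom _).comp ρ) x ∈ E V j := by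
  have h1 : (aug ℤ (⊤ : Subgroup G)).map
      (MonoidAlgebra.lift ℤ _ G ((Units.coeHom _).comp ρ)).toLinearMap ≤ E V 1 := by
    rw [aug, Submodule.map_span, Submodule.span_le]
    rintro _ ⟨_, ⟨g, -, rfl⟩, rfl⟩
    rw [AlgHom.toLinearMap_apply, map_sub, map_one, MonoidAlgebra.lift_of]
    exact h g
  refine E_pow j (pow_le_pow_left' h1 j ?_)
  rw [← Submodule.map_pow]
  exact ⟨x, hx, rfl⟩

theorem sub_mem_E (h : ∀ g, ρ g ∈ U V) {j : ℕ} {g : G}
    (hg : of ℤ G g - 1 ∈ aug ℤ (⊤ : Subgroup G) ^ j) : (ρ g).val - 1 ∈ E V j := by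
  have := alg_mem h hg
  rwa [map_sub, map_one, MonoidAlgebra.lift_of] at this

theorem ga_mem (h : ∀ g, ρ g ∈ U V) {p : ℕ} {g : G} (hg : g ∈ ga G p) :
    (ρ g).val - 1 ∈ E V (p + 1) := sub_mem_E h (sub_mem_aug_pow hg)

theorem comp_add (h : ∀ g, ρ g ∈ U V) {p j m : ℕ} (hm : m = j + p + 1) {w : ∀ k, V k}
    (hw : ∀ k < j, w k = 0) : AddOn (ga G p) fun u => ((ρ u).val - 1) w m := fun u hu v hv => by
  have e : (ρ (u * v)).val - 1 =
      ((ρ u).val - 1) + ((ρ v).val - 1) + ((ρ u).val - 1) * ((ρ v).val - 1) := by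
    rw [map_mul, Units.val_mul]; noncomm_ring
  dsimp only
  rw [e, LinearMap.add_apply, Pi.add_apply, E_mul (ga_mem h hu) (ga_mem h hv) j w hw m (by omega),
    add_zero, LinearMap.add_apply, Pi.add_apply]

theorem comp_comm (h : ∀ g, ρ g ∈ U V) {p j m : ℕ} (hm : m = j + p + 2) {w : ∀ k, V k}
    (hw : ∀ k < j, w k = 0) {u : G} (hu : u ∈ ga G p) (y : G) : ((ρ ⁅u, y⁆).val - 1) w m =
      ((ρ u).val - 1) (((ρ y).val - 1) w) m - ((ρ y).val - 1) (((ρ u).val - 1) w) m := by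
  have e0 : (ρ ⁅u, y⁆).val - 1 = ((ρ (u * y)).val - (ρ (y * u)).val) * (ρ (u⁻¹ * y⁻¹)).val := by
    rw [sub_mul, ← Units.val_mul, ← Units.val_mul, ← map_mul, ← map_mul, ← Units.val_one,
      ← map_one ρ, commutatorElement_def]
    congr 3 <;> group
  have e : (ρ ⁅u, y⁆).val - 1 = ((ρ u).val - 1) * ((ρ y).val - 1) - ((ρ y).val - 1) * ((ρ u).val - 1)
      + (((ρ u).val - 1) * ((ρ y).val - 1) - ((ρ y).val - 1) * ((ρ u).val - 1)) *
        ((ρ (u⁻¹ * y⁻¹)).val - 1) := by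
    rw [e0, map_mul ρ u, map_mul ρ y, Units.val_mul, Units.val_mul]; noncomm_ring
  have h1 : ((ρ u).val - 1) * ((ρ y).val - 1) - ((ρ y).val - 1) * ((ρ u).val - 1) ∈ E V (p + 2) :=
    sub_mem (Nat.add_comm 1 (p + 1) ▸ E_mul (ga_mem h hu) (h y)) (E_mul (i := 1) (h y) (ga_mem h hu))
  rw [e, LinearMap.add_apply, Pi.add_apply, E_mul h1 (h _) j w hw m (by omega), add_zero]
  rfl

end tower

end Dsw

open Dsw in
theorem dsw {b m : ℕ} {x : Fr b} (hx : x ∈ (⊤ : Subgroup (Fr b)).lowerCentralSeries m)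
    (h : of ℤ _ x - 1 ∈ aug ℤ (⊤ : Subgroup (Fr b)) ^ (m + 2)) :
    x ^ (m + 1) ∈ (⊤ : Subgroup (Fr b)).lowerCentralSeries (m + 1) := by
  obtain ⟨V, _, e, δ, β, hδ, he, hβ⟩ := exists_tower (Fr b)
  let ρ : Fr b →* (Module.End ℤ (∀ k, V k))ˣ :=
    FreeGroup.lift fun i => (D_unit (β (FreeGroup.of i))).unit
  have hρ : ∀ i, (ρ (FreeGroup.of i)).val - 1 = D (β (FreeGroup.of i)) := fun i => by
    rw [FreeGroup.lift_apply_of, IsUnit.unit_spec, add_sub_cancel_left]
  have hU : ∀ g, ρ g ∈ U V := fun g => FreeGroup.range_lift_le (s := U V) (by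
    rintro _ ⟨i, rfl⟩
    have := hρ i
    rw [FreeGroup.lift_apply_of] at this
    exact (this ▸ D_mem _ : _ - 1 ∈ E V 1)) ⟨g, rfl⟩
  have h0 : ga (Fr b) 0 = Subgroup.closure (Set.range FreeGroup.of) :=
    (FreeGroup.closure_range_of _).symm
  have hs : ∀ p, ga (Fr b) (p + 1) =
      Subgroup.closure {x | ∃ u ∈ ga (Fr b) p, ∃ y ∈ (⊤ : Subgroup (Fr b)), ⁅u, y⁆ = x} := fun _ => rfl
  have P : ∀ p, ∀ u ∈ ga (Fr b) p, ∀ n k (w : ∀ k, V k), ∀ a ∈ ga (Fr b) n, k = n + p + 1 →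
      (∀ k < n + 1, w k = 0) → w (n + 1) = δ n a → ((ρ u).val - 1) w (k + 1) = δ k ⁅u, a⁆ := by
    have P0 : ∀ u ∈ ga (Fr b) 0, ∀ n k (w : ∀ k, V k), ∀ a ∈ ga (Fr b) n, k = n + 0 + 1 →
        (∀ k < n + 1, w k = 0) → w (n + 1) = δ n a → ((ρ u).val - 1) w (k + 1) = δ k ⁅u, a⁆ := by
      intro u hu n k w a ha hk hw hwa
      refine AddOn.ext h0 (comp_add hU (by omega) hw) ((hδ k).left (by omega) ha) ?_ hu
      rintro _ ⟨i, rfl⟩
      obtain rfl : k = n + 1 := hk
      rw [hρ, ← hβ _ n a ha, ← hwa]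
      rfl
    intro p
    induction p with
    | zero => exact P0
    | succ p ih =>
      intro u hu n k w a ha hk hw hwa
      refine AddOn.ext (hs p) (comp_add hU (by omega) hw) ((hδ k).left (by omega) ha) ?_ hu
      rintro _ ⟨u, hu, y, -, rfl⟩
      rw [comp_comm hU (by omega) hw hu y, ← (hδ k).jacobi hk hu y ha,
        ih u hu (n + 1) k _ _ (comm_mem (top_mem y) ha (by omega)) (by omega) (hU y _ w hw)
          (P0 y trivial n _ w a ha rfl hw hwa),
        P0 y trivial (n + p + 1) k _ _ (comm_mem hu ha (by omega)) (by omega)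
          (fun k hk => ga_mem hU hu _ w hw k (by omega)) (ih u hu n _ w a ha rfl hw hwa)]
  have hz : ∀ k < 0, (Pi.single 0 e : ∀ k, V k) k = 0 := fun k hk => absurd hk (Nat.not_lt_zero k)
  have Q : ∀ p, ∀ u ∈ ga (Fr b) p,
      ((ρ u).val - 1) (Pi.single 0 e) (p + 1) = δ p (u ^ (p + 1)) := by
    have ad : ∀ p, AddOn (ga (Fr b) p) fun u => δ p (u ^ (p + 1)) := fun p u hu v hv => by
      dsimp only
      rw [(hδ p).add.pow hu, (hδ p).add.pow hv, (hδ p).add.pow (mul_mem hu hv),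
        (hδ p).add u hu v hv, smul_add]
    have Q0 : ∀ u ∈ ga (Fr b) 0,
        ((ρ u).val - 1) (Pi.single 0 e) (0 + 1) = δ 0 (u ^ (0 + 1)) := by
      intro u hu
      refine AddOn.ext h0 (comp_add hU (by omega) hz) (ad 0) ?_ hu
      rintro _ ⟨i, rfl⟩
      rw [hρ, pow_succ, pow_zero, one_mul, ← he]
      exact congrArg (β _ 0) (Pi.single_eq_same 0 e)
    intro p
    induction p with
    | zero => exact Q0
    | succ p ih =>
      intro u hu
      refine AddOn.ext (hs p) (comp_add hU (by omega) hz) (ad _) ?_ hu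
      rintro _ ⟨u, hu, y, -, rfl⟩
      have h1 : ⁅u, y⁆ ∈ ga (Fr b) (p + 1) := comm_mem hu (top_mem y) (by omega)
      have h2 := ((hδ (p + 1)).right (i := 0) (by omega) (top_mem y)).pow hu (p + 1)
      rw [comp_comm hU (by omega) hz hu y,
        P p u hu 0 (p + 1) _ (y ^ (0 + 1)) trivial (by omega) (hU y 0 _ hz) (Q0 y trivial),
        P 0 y trivial p (p + 1) _ _ (pow_mem hu _) rfl
          (fun k hk => ga_mem hU hu 0 _ hz k (by omega)) (ih u hu),
        h2, pow_succ y, pow_zero, one_mul, ← commutatorElement_inv u y, (hδ _).add.inv h1, (hδ _).add.pow h1,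
        succ_nsmul _ (p + 1), smul_neg, sub_neg_eq_add]
      exact add_comm _ _
  exact ((hδ m).zero _ (pow_mem hx _)).1
    ((Q m x hx).symm.trans (sub_mem_E hU h 0 _ hz (m + 1) (by omega)))

end Pool.Agent.P.MP_257122_al.K
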