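import Pool.Agent.P.MP_257122_al.KFrat

/-!
# The nilpotency certificate in finite groups

PLAN.  Strong induction on `Nat.card Q` for all `Q, X, Y`.  Put `N = ncl Y`, `L = gen Y` (nilpotent; if
`X = []` then `Q` is trivial).  If `N ≠ ⊥` let `A` be the last nontrivial term of `der N`, `q` a prime dividing
its order, `W = {a ∈ A | a ^ q = 1}`, a nontrivial normal `q`-subgroup of `Q`.  Induction in `Q ⧸ W`
(`MGen.map`, `Frat.map`, `gen_map`, `ncl_map`) gives `N ≤ L ⊔ W`.  For a prime `s` let `P s` be the Sylow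
`s`-subgroup of `L` (normal in `L`, contains all `s`-elements of `L`).  For `s ≠ q`, every `s`-element
`l w` of `N` lies in `P s ⊔ W` (`l ^ (s ^ k) ∈ W`; split `l` into its `s`-part and its `s'`-part), and an
`s`-subgroup `P'` of `N` containing `P s` equals `P s` (`x = u w`, `u ∈ P s`, gives `w ∈ P' ⊓ W = ⊥`).
In the nilpotent group generated by `L` and `x L x⁻¹` the Sylow `s`-subgroup contains `P s` and `x (P s) x⁻¹`,
so `x` normalises `P s`, which is normal in `Q` (`MGen.normal`).  Also `P q ⊔ W` is a `q`-group that is normalised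
by `L` and `W`.  So `N` is generated by normal nilpotent subgroups / all its Sylow subgroups are normal
(`Group.isNilpotent_of_finite_tfae`), `N` is nilpotent.  `Frat` gives `N ≤ L ⊔ ⁅N, N⁆` (a nontrivial finite
abelian group is not `p`-divisible for all `p`; or: `N ≤ K ⊔ pw n N` for all `n > 0` by induction along prime
factors, `K = L ⊔ ⁅N, N⁆`, and take `n = Nat.card Q`).  Finish with `le_of_frat_nil`.
-/

namespace Pool.Agent.P.MP_257122_al.K

open Polynomial MonoidAlgebra C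
open scoped commutatorElement Matrix

namespace Fin0

variable {Q R : Type} [Group Q] [Group R]

/-- `x` is an `s`-element. -/
def E (s : ℕ) (x : Q) : Prop := ∃ n : ℕ, x ^ s ^ n = 1

/-- The `s`-elements of `K` are closed under products. -/
def Cl (s : ℕ) (K : Subgroup Q) : Prop := ∀ x ∈ K, ∀ y ∈ K, E s x → E s y → E s (x * y)

theorem E.map {s : ℕ} {x : Q} (h : E s x) (f : Q →* R) : E s (f x) := by
  obtain ⟨n, hn⟩ := h
  exact ⟨n, by rw [← map_pow, hn, map_one]⟩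

theorem E.inv {s : ℕ} {x : Q} (h : E s x) : E s x⁻¹ := by
  obtain ⟨n, hn⟩ := h
  exact ⟨n, by rw [inv_pow, hn, inv_one]⟩

theorem E.conj {s : ℕ} {x : Q} (h : E s x) (g : Q) : E s (g * x * g⁻¹) :=
  h.map (MulAut.conj g).toMonoidHom

theorem E.of_pow {s : ℕ} {x : Q} {k : ℕ} (h : E s (x ^ s ^ k)) : E s x := by
  obtain ⟨n, hn⟩ := h
  exact ⟨k + n, by rw [pow_add, pow_mul, hn]⟩

theorem E.coe {s : ℕ} {K : Subgroup Q} {x : K} : E s (x : Q) ↔ E s x :=
  ⟨fun ⟨n, hn⟩ => ⟨n, Subtype.ext hn⟩, fun h => h.map K.subtype⟩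

theorem E.lift {s : ℕ} {W : Subgroup Q} [W.Normal] (hW : ∀ w ∈ W, E s w) {x : Q}
    (h : E s (QuotientGroup.mk' W x)) : E s x := by
  obtain ⟨n, hn⟩ := h
  rw [← map_pow] at hn
  exact E.of_pow (hW _ ((QuotientGroup.eq_one_iff _).1 hn))

theorem E.eq_one {s q : ℕ} (hs : s.Prime) (hq : q.Prime) (hsq : s ≠ q) {x : Q} (h : E s x)
    (h' : E q x) : x = 1 := by
  obtain ⟨n, hn⟩ := h
  obtain ⟨m, hm⟩ := h'
  have hc : (s ^ n).Coprime (q ^ m) := Nat.Coprime.pow _ _ ((Nat.coprime_primes hs hq).2 hsq)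
  exact orderOf_eq_one_iff.1 (Nat.eq_one_of_dvd_coprimes hc (orderOf_dvd_of_pow_eq_one hn)
    (orderOf_dvd_of_pow_eq_one hm))

/-- The subgroup of the `s`-elements of `K`. -/
def P (s : ℕ) (K : Subgroup Q) (h : Cl s K) : Subgroup Q where
  carrier := {x | x ∈ K ∧ E s x}
  one_mem' := ⟨K.one_mem, 0, one_pow _⟩
  mul_mem' := fun hx hy => ⟨K.mul_mem hx.1 hy.1, h _ hx.1 _ hy.1 hx.2 hy.2⟩
  inv_mem' := fun hx => ⟨K.inv_mem hx.1, hx.2.inv⟩

theorem cl_of_nil [Finite Q] {s : ℕ} (hs : s.Prime) {K : Subgroup Q} (hK : Group.IsNilpotent K) :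
    Cl s K := by
  have := Fact.mk hs
  obtain ⟨S⟩ : Nonempty (Sylow s K) := inferInstance
  have key : ∀ x : K, E s x → x ∈ (S : Subgroup K) := by
    intro x ⟨n, hn⟩
    have hz : IsPGroup s (Subgroup.zpowers x) := by
      rintro ⟨_, k, rfl⟩
      exact ⟨n, Subtype.ext (by
        show (x ^ k) ^ s ^ n = 1
        rw [← zpow_natCast, ← zpow_mul, mul_comm, zpow_mul, zpow_natCast, hn, one_zpow])⟩
    obtain ⟨T, hT⟩ := hz.exists_le_sylow
    have := Sylow.unique_of_normal S inferInstance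
    rw [Subsingleton.elim S T]
    exact hT (Subgroup.mem_zpowers x)
  intro x hx y hy ex ey
  have h1 := key ⟨x, hx⟩ (E.coe.1 ex)
  have h2 := key ⟨y, hy⟩ (E.coe.1 ey)
  obtain ⟨n, hn⟩ := S.isPGroup' ⟨_, mul_mem h1 h2⟩
  exact ⟨n, congrArg (fun z : (S : Subgroup K) => ((z : K) : Q)) hn⟩

theorem nil_of_cl [Finite Q] {K : Subgroup Q} (h : ∀ s : ℕ, s.Prime → Cl s K) :
    Group.IsNilpotent K := by
  refine ((Group.isNilpotent_of_finite_tfae (G := K)).out 0 3 rfl rfl).2 ?_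
  intro s hs S
  have hc : Cl s (⊤ : Subgroup K) := fun x _ y _ ex ey =>
    E.coe.1 (h s hs.out _ x.2 _ y.2 (E.coe.2 ex) (E.coe.2 ey))
  have hp : IsPGroup s (P s ⊤ hc) := fun ⟨_, _, n, hn⟩ => ⟨n, Subtype.ext hn⟩
  have hle : (S : Subgroup K) ≤ P s ⊤ hc := fun x hx => by
    obtain ⟨n, hn⟩ := S.isPGroup' ⟨x, hx⟩
    exact ⟨trivial, n, congrArg Subtype.val hn⟩
  rw [← S.is_maximal' hp hle]
  exact ⟨fun x hx g => ⟨trivial, hx.2.conj g⟩⟩

theorem exists_W [Finite Q] [Group.IsSolvable Q] [Nontrivial Q] :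
    ∃ (q : ℕ) (W : Subgroup Q), q.Prime ∧ W.Normal ∧ W ≠ ⊥ ∧ ∀ w ∈ W, E q w := by
  classical
  have hex : ∃ n, derivedSeries Q n = ⊥ := Group.IsSolvable.solvable
  obtain ⟨m, hm⟩ : ∃ m, Nat.find hex = m + 1 := by
    refine Nat.exists_eq_succ_of_ne_zero fun h0 => ?_
    have := Nat.find_spec hex
    rw [h0] at this
    exact top_ne_bot this
  have h1 : derivedSeries Q m ≠ ⊥ := Nat.find_min hex (by omega)
  have h2 : ⁅derivedSeries Q m, derivedSeries Q m⁆ = ⊥ := by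
    have := Nat.find_spec hex
    rwa [hm] at this
  have hN := derivedSeries_normal Q m
  generalize derivedSeries Q m = A at h1 h2 hN
  have hc : ∀ x ∈ A, ∀ y ∈ A, Commute x y := fun x hx y hy =>
    commutatorElement_eq_one_iff_commute.1
      (Subgroup.mem_bot.1 (h2 ▸ Subgroup.commutator_mem_commutator hx hy))
  obtain ⟨q, hq, hd⟩ := Nat.exists_prime_and_dvd
    ((Subgroup.one_lt_card_iff_ne_bot A).2 h1).ne'
  have := Fact.mk hq
  obtain ⟨a, ha⟩ := exists_prime_orderOf_dvd_card' q hd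
  have hcl : Cl q A := by
    rintro x hx y hy ⟨n, hn⟩ ⟨k, hk⟩
    refine ⟨n + k, ?_⟩
    rw [(hc x hx y hy).mul_pow, pow_add, pow_mul, hn, one_pow, one_mul, mul_comm, pow_mul, hk,
      one_pow]
  refine ⟨q, P q A hcl, hq, ⟨fun x hx g => ⟨hN.conj_mem x hx.1 g, hx.2.conj g⟩⟩, fun hb => ?_,
    fun w hw => hw.2⟩
  have : (a : Q) ∈ P q A hcl := ⟨a.2, E.coe.2 ⟨1, by rw [pow_one, ← ha, pow_orderOf_eq_one]⟩⟩
  rw [hb, Subgroup.mem_bot, OneMemClass.coe_eq_one] at this
  rw [this, orderOf_one] at ha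
  exact hq.one_lt.ne ha

theorem frat_comm [Finite Q] {L N : Subgroup Q} (hL : L ≤ N)
    (hc : ∀ x ∈ N, ∀ y ∈ N, Commute x y) (hF : Frat L N ⊥) : N ≤ L := by
  have hb : ⁅N, N⁆ = ⊥ := le_bot_iff.1 (Subgroup.commutator_le.2 fun x hx y hy =>
    Subgroup.mem_bot.2 (commutatorElement_eq_one_iff_commute.2 (hc x hx y hy)))
  have h1 : ∀ p : ℕ, p.Prime → ∀ y ∈ N, ∃ l ∈ L, ∃ z ∈ N, y = l * z ^ p := by
    intro p hp
    let D : Subgroup Q :=
      { carrier := {y | ∃ l ∈ L, ∃ z ∈ N, y = l * z ^ p}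
        one_mem' := ⟨1, L.one_mem, 1, N.one_mem, by simp⟩
        mul_mem' := by
          rintro _ _ ⟨l, hl, z, hz, rfl⟩ ⟨l', hl', z', hz', rfl⟩
          refine ⟨l * l', L.mul_mem hl hl', z * z', N.mul_mem hz hz', ?_⟩
          rw [(hc z hz z' hz').mul_pow, mul_assoc, mul_assoc, ← mul_assoc (z ^ p),
            (hc _ (N.pow_mem hz p) _ (hL hl')).eq, mul_assoc]
        inv_mem' := by
          rintro _ ⟨l, hl, z, hz, rfl⟩
          refine ⟨l⁻¹, L.inv_mem hl, z⁻¹, N.inv_mem hz, ?_⟩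
          rw [(hc _ (hL hl) _ (N.pow_mem hz p)).eq, mul_inv_rev, inv_pow] }
    have : N ≤ D := by
      refine (hF p hp).trans ?_
      rw [hb, sup_bot_eq, sup_bot_eq]
      exact sup_le (fun l hl => ⟨l, hl, 1, N.one_mem, by simp⟩)
        (pwLeIff.2 fun z hz => ⟨1, L.one_mem, z, hz, by simp⟩)
    exact fun y hy => this hy
  have h2 : ∀ n : ℕ, n ≠ 0 → ∀ y ∈ N, ∃ l ∈ L, ∃ z ∈ N, y = l * z ^ n := by
    intro n
    induction n using Nat.recOnMul with
    | zero => exact fun h => absurd rfl h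
    | one => exact fun _ y hy => ⟨1, L.one_mem, y, hy, by simp⟩
    | prime p hp => exact fun _ => h1 p hp
    | mul a b ha hb =>
      intro hab y hy
      obtain ⟨l, hl, z, hz, rfl⟩ := hb (right_ne_zero_of_mul hab) y hy
      obtain ⟨l', hl', z', hz', rfl⟩ := ha (left_ne_zero_of_mul hab) z hz
      refine ⟨l * l' ^ b, L.mul_mem hl (L.pow_mem hl' b), z', hz', ?_⟩
      rw [(hc _ (hL hl') _ (N.pow_mem hz' a)).mul_pow, pow_mul, mul_assoc]
  intro y hy
  obtain ⟨l, hl, z, -, rfl⟩ := h2 (Nat.card Q) Nat.card_pos.ne' y hy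
  rwa [pow_card_eq_one', mul_one]

theorem frat_le [Finite Q] {L N : Subgroup Q} [N.Normal] (hL : L ≤ N) (hF : Frat L N ⊥) :
    N ≤ L ⊔ ⁅N, N⁆ := by
  have := frat_comm (Subgroup.map_mono hL) ?_
    (hF.map (QuotientGroup.mk' ⁅N, N⁆) (S' := ⊥) (by simp))
  · exact fun y hy => mem_quot.1 (this ⟨y, hy, rfl⟩)
  · rintro _ ⟨x, hx, rfl⟩ _ ⟨y, hy, rfl⟩
    rw [← commutatorElement_eq_one_iff_commute, ← map_commutatorElement]
    exact (QuotientGroup.eq_one_iff _).2 (Subgroup.commutator_mem_commutator hx hy)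

/-- An `s`-element of `L W` is an `s`-element of `L` times an element of `W`. -/
theorem split {s q : ℕ} (hs : s.Prime) (hq : q.Prime) (hsq : s ≠ q) {L W : Subgroup Q} [W.Normal]
    (hW : ∀ w ∈ W, E q w) {u : Q} (hu : u ∈ L ⊔ W) (eu : E s u) :
    ∃ l ∈ L, E s l ∧ l⁻¹ * u ∈ W := by
  obtain ⟨l, hl, e⟩ := mem_quot.2 hu
  obtain ⟨k, hk⟩ := eu.map (QuotientGroup.mk' W)
  rw [← e, ← map_pow] at hk
  have hk' : l ^ s ^ k ∈ W := (QuotientGroup.eq_one_iff _).1 hk
  obtain ⟨j, hj⟩ := hW _ hk'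
  have hc : (s ^ k).Coprime (q ^ j) := Nat.Coprime.pow _ _ ((Nat.coprime_primes hs hq).2 hsq)
  obtain ⟨a, b, hab⟩ := Nat.isCoprime_iff_coprime.2 hc
  have e1 : l = (l ^ q ^ j) ^ b * (l ^ s ^ k) ^ a := by
    rw [← zpow_natCast, ← zpow_natCast, ← zpow_mul, ← zpow_mul, ← zpow_add, mul_comm _ b,
      mul_comm _ a, add_comm, hab, zpow_one]
  refine ⟨(l ^ q ^ j) ^ b, L.zpow_mem (L.pow_mem hl _) _, ⟨k, ?_⟩, ?_⟩
  · rw [← zpow_natCast, ← zpow_mul, mul_comm, zpow_mul, zpow_natCast, ← pow_mul, mul_comm,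
      pow_mul, hj, one_zpow]
  · have e2 : l⁻¹ * u ∈ W := QuotientGroup.eq.1 e
    have e3 : ((l ^ q ^ j) ^ b)⁻¹ * u = (l ^ s ^ k) ^ a * (l⁻¹ * u) := by
      generalize (l ^ q ^ j) ^ b = c at e1 ⊢
      generalize (l ^ s ^ k) ^ a = d at e1 ⊢
      rw [e1]; group
    rw [e3]
    exact W.mul_mem (W.zpow_mem hk' _) e2

theorem nil_step [Finite Q] {X : List Q} (hX : MGen X) {L N W : Subgroup Q} [W.Normal]
    {q : ℕ} (hq : q.Prime) (hW : ∀ w ∈ W, E q w) (hN : N ≤ L ⊔ W)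
    (hL : Group.IsNilpotent L)
    (hn : ∀ x ∈ X, ∃ M ≤ N, Group.IsNilpotent M ∧ L ≤ M ∧ ∀ l ∈ L, x * l * x⁻¹ ∈ M) :
    Group.IsNilpotent N := by
  refine nil_of_cl fun s hs => ?_
  have hcl := cl_of_nil hs hL
  by_cases hsq : s = q
  · subst hsq
    intro u hu v hv eu ev
    obtain ⟨l, hl, e⟩ := mem_quot.2 (hN hu)
    obtain ⟨l', hl', e'⟩ := mem_quot.2 (hN hv)
    have h1 : E s l := E.lift hW (e ▸ eu.map _)
    have h2 : E s l' := E.lift hW (e' ▸ ev.map _)
    refine E.lift hW ?_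
    rw [map_mul, ← e, ← e', ← map_mul]
    exact (hcl l hl l' hl' h1 h2).map _
  · have : (P s L hcl).Normal := by
      refine hX.normal fun x hx y hy => ?_
      obtain ⟨M, hMN, hM, hLM, hxM⟩ := hn x hx
      have hu := hxM y hy.1
      have eu := hy.2.conj x
      obtain ⟨l, hl, el, hw⟩ := split hs hq hsq hW (hN (hMN hu)) eu
      have := E.eq_one hs hq hsq
        (cl_of_nil hs hM _ (M.inv_mem (hLM hl)) _ hu el.inv eu) (hW _ hw)
      rw [← inv_mul_eq_one.1 this]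
      exact ⟨hl, el⟩
    have key : ∀ u ∈ N, E s u → u ∈ P s L hcl := by
      intro u hu eu
      obtain ⟨l, hl, el, hw⟩ := split hs hq hsq hW (hN hu) eu
      have h1 : E s (l⁻¹ * u) := by
        refine E.lift (W := P s L hcl) (fun w hw => hw.2) ?_
        have : QuotientGroup.mk' (P s L hcl) l = 1 := (QuotientGroup.eq_one_iff _).2 ⟨hl, el⟩
        rw [map_mul, map_inv, this, inv_one, one_mul]
        exact eu.map _
      rw [← inv_mul_eq_one.1 (E.eq_one hs hq hsq h1 (hW _ hw))]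
      exact ⟨hl, el⟩
    exact fun u hu v hv eu ev => (mul_mem (key u hu eu) (key v hv ev)).2

theorem nil_of_le {K M : Subgroup Q} (h : K ≤ M) (hM : Group.IsNilpotent M) :
    Group.IsNilpotent K :=
  Group.nilpotent_of_mulEquiv (Subgroup.subgroupOfEquivOfLe h)

theorem gen_left (Y Z : List Q) : gen Y ≤ gen (Y ++ Z) :=
  Subgroup.closure_mono fun _ hy => List.mem_append_left _ hy

theorem gen_right (Y Z : List Q) : gen Z ≤ gen (Y ++ Z) :=
  Subgroup.closure_mono fun _ hy => List.mem_append_right _ hy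

theorem main (n : ℕ) : ∀ (Q : Type) [Group Q] [Finite Q] [Group.IsSolvable Q] (X Y : List Q),
    Nat.card Q = n → MGen X → Frat (gen Y) (ncl Y) ⊥ →
    (∀ x ∈ X, Group.IsNilpotent (gen (Y ++ Y.map fun y => x * y * x⁻¹))) → ncl Y ≤ gen Y := by
  induction n using Nat.strong_induction_on with
  | _ n ih =>
  intro Q _ _ _ X Y hc hX hF hn
  rcases subsingleton_or_nontrivial Q with hQ | hQ
  · exact fun y _ => Subsingleton.elim 1 y ▸ one_mem _
  obtain ⟨q, W, hq, hWn, hW0, hW⟩ := exists_W (Q := Q)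
  have hs := QuotientGroup.mk'_surjective W
  have hlt : Nat.card (Q ⧸ W) < n := by
    rw [← hc, Subgroup.card_eq_card_quotient_mul_card_subgroup W]
    exact lt_mul_of_one_lt_right Nat.card_pos ((Subgroup.one_lt_card_iff_ne_bot _).2 hW0)
  have h1 := ih _ hlt (Q ⧸ W) (X.map (QuotientGroup.mk' W)) (Y.map (QuotientGroup.mk' W)) rfl
    (hX.map _ hs) (by
      rw [← gen_map, ← ncl_map _ hs]
      exact hF.map _ (by simp)) (by
      intro x' hx'
      obtain ⟨x, hx, rfl⟩ := List.mem_map.1 hx'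
      have e : Y.map (QuotientGroup.mk' W) ++ (Y.map (QuotientGroup.mk' W)).map
          (fun y => QuotientGroup.mk' W x * y * (QuotientGroup.mk' W x)⁻¹) =
          (Y ++ Y.map fun y => x * y * x⁻¹).map (QuotientGroup.mk' W) := by
        rw [List.map_append, List.map_map, List.map_map]
        rfl
      rw [e, ← gen_map]
      have := hn x hx
      exact Group.nilpotent_of_surjective _ (MonoidHom.subgroupMap_surjective _ _))
  rw [← gen_map, ← ncl_map _ hs] at h1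
  have hN : ncl Y ≤ gen Y ⊔ W := fun y hy => mem_quot.1 (h1 ⟨y, hy, rfl⟩)
  have hLN : gen Y ≤ ncl Y := Subgroup.closure_le_normalClosure
  have hL : Group.IsNilpotent (gen Y) := by
    cases X with
    | nil =>
      exfalso
      obtain ⟨g, hg⟩ := exists_ne (1 : Q)
      have : g ∈ Submonoid.closure {x | x ∈ ([] : List Q)} := hX ▸ trivial
      simp at this
      exact hg this
    | cons x X => exact nil_of_le (gen_left _ _) (hn x List.mem_cons_self)
  have hnil : Group.IsNilpotent (ncl Y) := by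
    refine nil_step hX hq hW hN hL fun x hx => ⟨_, ?_, hn x hx, gen_left _ _, fun l hl => ?_⟩
    · refine (Subgroup.closure_le _).2 fun z hz => ?_
      rcases List.mem_append.1 hz with hz | hz
      · exact Subgroup.subset_normalClosure hz
      · obtain ⟨y, hy, rfl⟩ := List.mem_map.1 hz
        have hy' : y ∈ ncl Y := Subgroup.subset_normalClosure hy
        exact (inferInstance : (ncl Y).Normal).conj_mem y hy' x
    · refine gen_right Y _ ?_
      have e : (gen Y).map (MulAut.conj x).toMonoidHom = gen (Y.map fun y => x * y * x⁻¹) :=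
        gen_map (MulAut.conj x).toMonoidHom Y
      rw [← e]
      exact ⟨l, hl, rfl⟩
  obtain ⟨c, hc⟩ := (Subgroup.isNilpotent_iff_lowerCentralSeries _).1 hnil
  exact le_of_frat_nil hLN (frat_le hLN hF) ⟨c, hc.le⟩

end Fin0

theorem fin_nil {Q : Type} [Group Q] [Finite Q] [Group.IsSolvable Q] {X Y : List Q} (hX : MGen X)
    (hF : Frat (gen Y) (ncl Y) ⊥)
    (hn : ∀ x ∈ X, Group.IsNilpotent (gen (Y ++ Y.map fun y => x * y * x⁻¹))) :
    ncl Y ≤ gen Y := Fin0.main _ Q X Y rfl hX hF hn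

end Pool.Agent.P.MP_257122_al.K
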