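import Pool.Agent.P.MP_257122_al.KRank

/-!
# The Frattini condition

PLAN.  `FratC.frat`: `K = gen Y ⊔ ⁅N, N⁆ ⊔ pw p N ⊔ S` is stable under conjugation by `x ∈ X` (if `p ∣ m` use
`pwDvd`; else `z ^ m ∈ K` and `z ^ p ∈ K` give `z ∈ K`), so it is normal (`MGen.normal`) and contains `Y`.
`exists_fratC`: let `N = ncl Y₀`, `K = ⁅N, N⁆ ⊔ S`; every subgroup `gen Y ⊔ K` with `Y ⊆ N` is normalised
by `N`, and the image `V` of `N` in `G ⧸ K` is abelian of finite rank.  (1) There is a finite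
`Y₁ ⊇ Y₀` in `N` such that every `y ∈ N` has a power in `L₁ = gen Y₁ ⊔ K` (`exists_sec` and `IsSec.finite`
in `G ⧸ S`, or a maximal independent family).  (2) Choose `m₀` with `(x y x⁻¹) ^ m₀ ∈ L₁` for `x ∈ X`,
`y ∈ Y₁`.  The `v ∈ N ⊔ K` with `v ^ (m₀ ^ j) ∈ L₁` for some `j` form a subgroup stable under `X`, so it is normal
and contains `N`.  (3) `relIndex_pw` for `N`, `K`, `m₀`: add representatives, `Y = Y₁ ++ Y₂`,
`N ≤ gen Y ⊔ K ⊔ pw m₀ N`, hence `N ≤ gen Y ⊔ K ⊔ pw (m₀ ^ j) N` for all `j`.  Take `m = m₀ ^ j`, `j` large.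
-/

namespace Pool.Agent.P.MP_257122_al.K

open Polynomial MonoidAlgebra C
open scoped commutatorElement Matrix

variable {G H : Type} [Group G] [Group H]

/-- An abelian group of finite rank is torsion over a finitely generated subgroup. -/
theorem kf_tors {A : Type} [CommGroup A] (h : FinRank A) :
    ∃ s : Finset A, ∀ a, ∃ m, 0 < m ∧ a ^ m ∈ Subgroup.closure (s : Set A) := by
  classical
  obtain ⟨r, hr⟩ := h
  have key : ∀ (s : Set A) (a : A),
      Additive.ofMul a ∈ Submodule.span ℤ (Additive.ofMul '' s) ↔ a ∈ Subgroup.closure s := by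
    intro s a
    rw [← Submodule.mem_toAddSubgroup, Submodule.span_int_eq_addSubgroupClosure,
      Equiv.image_eq_preimage_symm]
    exact (congrArg (Additive.ofMul a ∈ ·) (Subgroup.toAddSubgroup_closure s)).symm.to_iff
  obtain ⟨b, hb, hm⟩ := exists_maximal_linearIndepOn ℤ (Additive.ofMul : A → Additive A)
  have hf : b.Finite := Set.not_infinite.1 fun hinf => by
    obtain ⟨t, ht, htc⟩ := hinf.exists_subset_card_eq (r + 1)
    obtain ⟨s, hsr, hs⟩ := hr _ ⟨t, rfl⟩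
    have hle := linearIndependent_le_span_aux' (fun i : t => Additive.ofMul (i : A)) (hb.mono ht)
      ((s.image Additive.ofMul : Finset (Additive A)) : Set (Additive A)) (by
        rintro _ ⟨⟨x, hx⟩, rfl⟩
        rw [Finset.coe_image]
        exact (key _ _).2 (hs ▸ Subgroup.subset_closure hx))
    have h2 := Finset.card_image_le (s := s) (f := Additive.ofMul)
    simp only [Finset.coe_sort_coe, Fintype.card_coe] at hle
    omega
  refine ⟨hf.toFinset, fun a => ?_⟩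
  rw [hf.coe_toFinset]
  by_cases ha : a ∈ b
  · exact ⟨1, one_pos, pow_mem (Subgroup.subset_closure ha) 1⟩
  · obtain ⟨c, hc, h⟩ := hm a ha
    have h' : a ^ c ∈ Subgroup.closure b := (key _ _).1 h
    refine ⟨c.natAbs, Int.natAbs_pos.2 hc, ?_⟩
    rcases Int.natAbs_eq c with e | e
    · rwa [e, zpow_natCast] at h'
    · rwa [e, zpow_neg, inv_mem_iff, zpow_natCast] at h'

theorem kf_lift {N K : Subgroup G} [K.Normal] (s : Finset (G ⧸ K))
    (hs : ∀ x ∈ s, x ∈ N.map (QuotientGroup.mk' K)) : ∃ Y : List G, (∀ y ∈ Y, y ∈ N) ∧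
      ∀ g : G, QuotientGroup.mk' K g ∈ Subgroup.closure (s : Set (G ⧸ K)) → g ∈ gen Y ⊔ K := by
  choose f hf hf' using hs
  refine ⟨s.attach.toList.map fun x => f x.1 x.2, fun y hy => ?_, fun g hg => mem_quot.1 ?_⟩
  · obtain ⟨x, -, rfl⟩ := List.mem_map.1 hy
    exact hf _ _
  · refine ((Subgroup.closure_le _).2 fun x hx => ?_) hg
    exact ⟨f x hx, Subgroup.subset_closure (List.mem_map.2 ⟨⟨x, hx⟩, by simp, rfl⟩), hf' _ _⟩

/-- The elements of `N` whose power number `n` lies in `L`. -/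
def kfRt {N K L : Subgroup G} [K.Normal] (h : ⁅N, N⁆ ≤ K) (hL : K ≤ L) (n : ℕ) : Subgroup G where
  carrier := {v | v ∈ N ∧ v ^ n ∈ L}
  one_mem' := ⟨one_mem _, by rw [one_pow]; exact one_mem _⟩
  inv_mem' := fun ⟨h1, h2⟩ => ⟨inv_mem h1, by rw [inv_pow]; exact inv_mem h2⟩
  mul_mem' := fun {v w} ⟨h1, h2⟩ ⟨h3, h4⟩ => ⟨mul_mem h1 h3, by
    have hc : Commute (QuotientGroup.mk' K v) (QuotientGroup.mk' K w) := by
      rw [← commutatorElement_eq_one_iff_commute, ← map_commutatorElement]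
      exact (QuotientGroup.eq_one_iff _).2 (h (Subgroup.commutator_mem_commutator h1 h3))
    rw [← sup_eq_left.2 hL, ← mem_quot, map_pow, map_mul, hc.mul_pow, ← map_pow, ← map_pow,
      ← map_mul]
    exact ⟨_, mul_mem h2 h4, rfl⟩⟩

theorem kf_dec {N K P R : Subgroup G} [K.Normal] (hP : P ≤ N) (h1 : P ≤ R) (h2 : N ⊓ K ≤ R)
    {v : G} (hv : v ∈ N) (h : v ∈ P ⊔ K) : v ∈ R := by
  obtain ⟨l, hl, k, hk, rfl⟩ := Subgroup.mem_sup_of_normal_right.1 h
  exact mul_mem (h1 hl) (h2 ⟨(N.mul_mem_cancel_left (hP hl)).1 hv, hk⟩)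

theorem kf_max {X Y : List G} {L : Subgroup G} (M : Submonoid ℕ)
    (h : ∀ x ∈ X, ∀ y ∈ Y, ∃ j ∈ M, (x * y * x⁻¹) ^ j ∈ L) :
    ∃ j ∈ M, ∀ x ∈ X, ∀ y ∈ Y, (x * y * x⁻¹) ^ j ∈ L := by
  have key : ∀ l : List G, (∀ z ∈ l, ∃ j ∈ M, z ^ j ∈ L) → ∃ j ∈ M, ∀ z ∈ l, z ^ j ∈ L := by
    intro l h
    induction l with
    | nil => exact ⟨1, one_mem _, fun _ hx => nomatch hx⟩
    | cons a l ih =>
      obtain ⟨j, hj0, hj⟩ := ih fun x hx => h x (List.mem_cons_of_mem _ hx)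
      obtain ⟨i, hi0, hi⟩ := h a List.mem_cons_self
      refine ⟨i * j, mul_mem hi0 hj0, fun x hx => ?_⟩
      rcases List.mem_cons.1 hx with rfl | hx
      · rw [pow_mul]; exact pow_mem hi j
      · rw [mul_comm, pow_mul]; exact pow_mem (hj x hx) i
  obtain ⟨j, hj, h'⟩ := key (X.flatMap fun x => Y.map fun y => x * y * x⁻¹) fun z hz => by
    obtain ⟨x, hx, hz⟩ := List.mem_flatMap.1 hz
    obtain ⟨y, hy, rfl⟩ := List.mem_map.1 hz
    exact h x hx y hy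
  exact ⟨j, hj, fun x hx y hy => h' _ (List.mem_flatMap.2 ⟨x, hx, List.mem_map.2 ⟨y, hy, rfl⟩⟩)⟩

theorem FratC.frat {X Y : List G} {m : ℕ} {S : Subgroup G} [S.Normal] (hX : MGen X)
    (h : FratC X Y m S) : Frat (gen Y) (ncl Y) S := by
  intro p hp
  have hn : (gen Y ⊔ ⁅ncl Y, ncl Y⁆ ⊔ pw p (ncl Y) ⊔ S).Normal := by
    refine hX.normal fun x hx => ?_
    have : gen Y ⊔ ⁅ncl Y, ncl Y⁆ ⊔ pw p (ncl Y) ⊔ S ≤
        (gen Y ⊔ ⁅ncl Y, ncl Y⁆ ⊔ pw p (ncl Y) ⊔ S).comap (MulAut.conj x).toMonoidHom := by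
      refine sup_le (sup_le (sup_le ((Subgroup.closure_le _).2 fun y hy => ?_) fun y hy => ?_)
        fun y hy => ?_) fun y hy => ?_
      · obtain ⟨h1, h2⟩ := h.2 x hx y hy
        show x * y * x⁻¹ ∈ gen Y ⊔ ⁅ncl Y, ncl Y⁆ ⊔ pw p (ncl Y) ⊔ S
        by_cases hd : p ∣ m
        · exact SetLike.le_def.1 (sup_le_sup_right (sup_le_sup_left (pwDvd hd _) _) _) h2
        · have e := Nat.gcd_eq_gcd_ab p m
          rw [(hp.coprime_iff_not_dvd.2 hd).gcd_eq_one, Nat.cast_one] at e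
          rw [← zpow_one (x * y * x⁻¹), e, zpow_add, zpow_mul, zpow_mul, zpow_natCast, zpow_natCast]
          exact mul_mem (zpow_mem (Subgroup.mem_sup_left (Subgroup.mem_sup_right (pwMem
            (Subgroup.Normal.conj_mem inferInstance _ (Subgroup.subset_normalClosure hy) x)))) _)
            (zpow_mem (SetLike.le_def.1 (sup_le_sup_right le_sup_left _) h1) _)
      · exact Subgroup.mem_sup_left (Subgroup.mem_sup_left (Subgroup.mem_sup_right
          (Subgroup.Normal.conj_mem inferInstance _ hy x)))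
      · exact Subgroup.mem_sup_left (Subgroup.mem_sup_right
          (Subgroup.Normal.conj_mem inferInstance _ hy x))
      · exact Subgroup.mem_sup_right (Subgroup.Normal.conj_mem inferInstance _ hy x)
    exact fun y hy => this hy
  exact Subgroup.normalClosure_le_normal fun y hy => Subgroup.mem_sup_left
    (Subgroup.mem_sup_left (Subgroup.mem_sup_left (Subgroup.subset_closure hy)))

theorem exists_fratC {X : List G} {S : Subgroup G} [S.Normal] (hX : MGen X)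
    (hG : FinRank (G ⧸ S)) (Y₀ : List G) :
    ∃ Y m, (∀ y ∈ Y₀, y ∈ Y) ∧ ncl Y = ncl Y₀ ∧ FratC X Y m S := by
  classical
  obtain ⟨N, hN⟩ : ∃ N, N = ncl Y₀ := ⟨_, rfl⟩
  have hNn : N.Normal := hN ▸ inferInstance
  obtain ⟨K, hK⟩ : ∃ K, K = ⁅N, N⁆ ⊔ S := ⟨_, rfl⟩
  have hKn : K.Normal := hK ▸ inferInstance
  have hNK : ⁅N, N⁆ ≤ K := hK ▸ le_sup_left
  have hGK : FinRank (G ⧸ K) := hG.quot_mono (hK ▸ le_sup_right)
  have hY₀ : ∀ y ∈ Y₀, y ∈ N := fun y hy => hN ▸ Subgroup.subset_normalClosure hy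
  have gl : ∀ {Y Y' : List G}, (∀ y ∈ Y, y ∈ Y') → gen Y ≤ gen Y' :=
    fun h => Subgroup.closure_mono h
  -- step 1
  obtain ⟨Y₁, hY₁, h01, h1⟩ : ∃ Y₁ : List G, (∀ y ∈ Y₁, y ∈ N) ∧ (∀ y ∈ Y₀, y ∈ Y₁) ∧
      ∀ y ∈ N, ∃ m, 0 < m ∧ y ^ m ∈ gen Y₁ ⊔ K := by
    have hc : ⁅N.map (QuotientGroup.mk' K), N.map (QuotientGroup.mk' K)⁆ = ⊥ := by
      rw [← Subgroup.map_commutator, Subgroup.map_eq_bot_iff, QuotientGroup.ker_mk']
      exact hNK
    obtain ⟨s, hs⟩ := @kf_tors _ ⟨kr_comm hc⟩ (finRank_sub hGK _)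
    obtain ⟨Y, hY, hY'⟩ := kf_lift (N := N) (s.image (Subgroup.subtype _)) fun x hx => by
      obtain ⟨y, -, rfl⟩ := Finset.mem_image.1 hx
      exact y.2
    refine ⟨Y₀ ++ Y, fun y hy => (List.mem_append.1 hy).elim (hY₀ y) (hY y),
      fun y hy => List.mem_append_left _ hy, fun y hy => ?_⟩
    obtain ⟨m, hm, h⟩ := hs ⟨_, y, hy, rfl⟩
    refine ⟨m, hm, SetLike.le_def.1 (sup_le_sup_right (gl fun _ h => List.mem_append_right _ h) _) (hY' _ ?_)⟩
    have := Subgroup.mem_map_of_mem (Subgroup.subtype _) h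
    rw [MonoidHom.map_closure] at this
    rwa [map_pow, Finset.coe_image]
  -- step 2
  obtain ⟨m₀, hm₀, h2⟩ := kf_max (X := X) (Y := Y₁) (L := gen Y₁ ⊔ K) (nonZeroDivisors ℕ)
    fun x _ y hy => by
      obtain ⟨m, hm, h⟩ := h1 _ (hNn.conj_mem _ (hY₁ y hy) x)
      exact ⟨m, mem_nonZeroDivisors_of_ne_zero hm.ne', h⟩
  have hm : 0 < m₀ := Nat.pos_of_ne_zero (nonZeroDivisors.ne_zero hm₀)
  have hg₁ : gen Y₁ ≤ N := (Subgroup.closure_le _).2 hY₁
  have h3 : ∀ v ∈ N, ∃ j ∈ Submonoid.powers m₀, v ^ j ∈ gen Y₁ ⊔ K := by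
    let R : Subgroup G :=
      { carrier := {v | ∃ j, v ∈ kfRt hNK (le_sup_right : K ≤ gen Y₁ ⊔ K) (m₀ ^ j)}
        one_mem' := ⟨0, one_mem _⟩
        inv_mem' := fun ⟨j, h⟩ => ⟨j, inv_mem h⟩
        mul_mem' := fun {v w} ⟨i, h⟩ ⟨j, h'⟩ => ⟨i + j, mul_mem
          ⟨h.1, by rw [pow_add, pow_mul]; exact pow_mem h.2 _⟩
          ⟨h'.1, by rw [add_comm, pow_add, pow_mul]; exact pow_mem h'.2 _⟩⟩ }
    have hR : R.Normal := hX.normal fun x hx v ⟨j, hv, hj⟩ => by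
      have := kf_dec (R := (kfRt hNK (le_sup_right : K ≤ gen Y₁ ⊔ K) m₀).comap
        (MulAut.conj x).toMonoidHom) hg₁
        ((Subgroup.closure_le _).2 fun y hy => ⟨hNn.conj_mem _ (hY₁ y hy) x, h2 x hx y hy⟩)
        (fun k hk => ⟨hNn.conj_mem _ hk.1 x,
          pow_mem (Subgroup.mem_sup_right (hKn.conj_mem _ hk.2 x)) _⟩) (pow_mem hv _) hj
      refine ⟨j + 1, hNn.conj_mem _ hv x, ?_⟩
      rw [pow_succ, pow_mul, conj_pow]
      exact this.2
    have : N ≤ R := hN ▸ Subgroup.normalClosure_le_normal fun y hy => ⟨0, hY₀ y hy,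
      pow_mem (Subgroup.mem_sup_left (Subgroup.subset_closure (a := y) (h01 y hy))) _⟩
    intro v hv
    obtain ⟨j, h⟩ := this hv
    exact ⟨_, ⟨j, rfl⟩, h.2⟩
  -- step 3
  obtain ⟨Y₂, hY₂, h4⟩ : ∃ Y₂ : List G, (∀ y ∈ Y₂, y ∈ N) ∧ N ≤ gen Y₂ ⊔ (pw m₀ N ⊔ K) := by
    have h := relIndex_pw hGK ⟨1, hNK⟩ hm
    rw [← QuotientGroup.ker_mk' (pw m₀ N ⊔ K), Subgroup.relIndex_ker] at h
    have := Nat.finite_of_card_ne_zero h
    obtain ⟨s, hs⟩ : (N.map (QuotientGroup.mk' (pw m₀ N ⊔ K))).FG :=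
      (Group.fg_iff_subgroup_fg _).1 inferInstance
    obtain ⟨Y, hY, hY'⟩ := kf_lift (N := N) s fun x hx => hs ▸ Subgroup.subset_closure hx
    exact ⟨Y, hY, fun y hy => hY' y (hs ▸ ⟨y, hy, rfl⟩)⟩
  have hY : ∀ y ∈ Y₁ ++ Y₂, y ∈ N := fun y hy => (List.mem_append.1 hy).elim (hY₁ y) (hY₂ y)
  have h5 : ∀ j, N ≤ gen (Y₁ ++ Y₂) ⊔ K ⊔ pw (m₀ ^ j) N := by
    intro j
    induction j with
    | zero => exact fun v hv => Subgroup.mem_sup_right (pow_one v ▸ pwMem hv)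
    | succ j ih =>
      refine ih.trans (sup_le le_sup_left (pwLeIff.2 fun v hv => ?_))
      refine (kf_dec (P := gen Y₂ ⊔ pw m₀ N) (R := kfRt hNK (le_sup_right.trans le_sup_left) (m₀ ^ j))
        (sup_le ((Subgroup.closure_le _).2 hY₂) (pwLe _ _))
        (sup_le ((Subgroup.closure_le _).2 fun y hy => ⟨hY₂ y hy, pow_mem (Subgroup.mem_sup_left
          (Subgroup.mem_sup_left (Subgroup.subset_closure (a := y) (List.mem_append_right _ hy)))) _⟩)
          (pwLeIff.2 fun y hy => ⟨pow_mem hy _, ?_⟩))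
        (fun k hk => ⟨hk.1, pow_mem (Subgroup.mem_sup_left (Subgroup.mem_sup_right hk.2)) _⟩)
        hv ((sup_assoc (gen Y₂) _ K).ge (h4 hv))).2
      rw [← pow_mul, ← pow_succ']
      exact Subgroup.mem_sup_right (pwMem hy)
  have e : ncl (Y₁ ++ Y₂) = N := le_antisymm (Subgroup.normalClosure_le_normal hY)
    (hN ▸ Subgroup.normalClosure_mono fun y hy => List.mem_append_left _ (h01 y hy))
  obtain ⟨_, ⟨j, rfl⟩, h6⟩ := kf_max (X := X) (Y := Y₁ ++ Y₂) _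
    fun x _ y hy => h3 _ (hNn.conj_mem _ (hY y hy) x)
  refine ⟨Y₁ ++ Y₂, m₀ ^ j, fun y hy => List.mem_append_left _ (h01 y hy), e.trans hN,
    pow_pos hm j, fun x hx y hy => ?_⟩
  rw [e, sup_right_comm _ (pw _ _), sup_assoc (gen _), ← hK]
  exact ⟨SetLike.le_def.1 (sup_le_sup_right (gl fun _ h => List.mem_append_left _ h) _)
    (h6 x hx y hy),
    h5 j (hNn.conj_mem _ (hY y hy) x)⟩

theorem Frat.map {L N S : Subgroup G} (h : Frat L N S) (f : G →* H) {S' : Subgroup H}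
    (hS : S.map f ≤ S') : Frat (L.map f) (N.map f) S' := fun p hp =>
  (Subgroup.map_mono (h p hp)).trans (by
    rw [Subgroup.map_sup, Subgroup.map_sup, Subgroup.map_sup, Subgroup.map_commutator, pwMap]
    exact sup_le_sup_left hS _)

end Pool.Agent.P.MP_257122_al.K
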