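import Pool.Agent.P.MP_257122_al.SCan

/-!
# Good parameters exist
-/

namespace Pool.Agent.P.MP_257122_al.K

theorem goodPar (G : Type) [Group G] [Group.FG G] [Group.IsSolvable G] (h : FinRank G) :
    ∃ e, ∀ e₁, e ≤ e₁ → ∃ e', ∀ e₂, e' ≤ e₂ → GoodPar e₁ e₂ G := by
  obtain ⟨e, he⟩ := exists_nil_dres G h
  exact ⟨e, fun e₁ h1 => exists_nil_Ncan h (he e₁ h1)⟩

end Pool.Agent.P.MP_257122_al.K
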