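import Pool.Agent.P.MP_257122_al.MSec
import Pool.Agent.P.MP_257122_al.GBasic
import Pool.Agent.P.MP_257122_al.CDer
import Pool.Agent.P.MP_257122_al.GRes
import Pool.Agent.P.MP_257122_al.KS2
import Pool.Agent.P.MP_257122_al.KAff
import Pool.Agent.P.MP_257122_al.KCov
import Pool.Agent.P.MP_257122_al.KCert

/-!
# Structure of soluble groups of finite rank, linear covers

The interface of the chapter on structure theory and covers.
-/

namespace Pool.Agent.P.MP_257122_al

/-- Good parameters exist. -/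
theorem exists_goodPar (G : Type) [Group G] [Group.FG G] [Group.IsSolvable G] (h : FinRank G) :
    ∃ e, ∀ e₁, e ≤ e₁ → ∃ e', ∀ e₂, e' ≤ e₂ → GoodPar e₁ e₂ G := K.goodPar G h

/-- Representations with two weights that see an abelian section modulo torsion. -/
theorem exists_aff {b : ℕ} (N R : Subgroup (Fr b)) [N.Normal] [R.Normal] (hN : VAb N)
    (h1 : ⁅N, N⁆ ≤ R) (h2 : R ≤ N) (hR : FinRank (Fr b ⧸ R)) :
    ∃ (n : ℕ) (wt : Fin n → ℕ) (σ : Fr b →* GL (Fin n) ℚ), Adapt wt 2 σ N ∧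
      ∀ y ∈ N, σ y = 1 ↔ ∃ m, 0 < m ∧ y ^ m ∈ R := exists_aff' N R hN h1 h2 hR

/-- Linear covers. -/
theorem exists_cover {b : ℕ} (N S : Subgroup (Fr b)) [N.Normal] [S.Normal] (hN : VAb N)
    (hS : S ≤ N) (hnil : NilMod N S) (hR : FinRank (Fr b ⧸ S)) :
    ∃ (n : ℕ) (wt : Fin n → ℕ) (c : ℕ) (σ : Fr b →* GL (Fin n) ℚ), Adapt wt c σ N ∧
      σ.ker ⊓ N ≤ S := K.cover N S hN hS hnil hR

/-- Upper bounds for the derived length are recursively enumerable. -/
theorem cs_derLe : CS (fun a : {a : Pres × ℕ // FinRank a.1.G} =>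
    derivedSeries (Fr a.1.1.1) a.1.2 ≤ a.1.1.S) := K.derLe

end Pool.Agent.P.MP_257122_al
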