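import Pool.Agent.P.MP_257122_al.KComm

/-!
# Finite rank: finiteness lemmas

PLAN.  `finRank_comm`: a subgroup of a quotient of `ℤ ^ r` is a quotient of a submodule of `ℤ ^ r`,
free of rank at most `r` (`Submodule.basisOfPid`, or `Module.Free`, `Submodule.finrank_le`); use
`FinRank.of_surjective` from `Multiplicative (Fin r → ℤ)`.
`finite_of_exp`: induction on the derived length; an abelian group of exponent `m` and rank `r` is
finite since all its finitely generated subgroups have at most `m ^ r` elements.
`finRank_ker`: by downward induction on `j` the group of all `y ∈ N.map σ` with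
`y - 1 ∈ fil wt (j + 1)` has finite rank (`FinRank.extension`): `y ↦` the entries of `y - 1` at the places
with `wt a = wt b + j + 1` is a homomorphism to the additive group of matrices with kernel the next
group; a finitely generated subgroup of a rational vector space of dimension `d` is free of rank
at most `d`.  Lemmas on `fil`: `fil_mul'`, `IsUni.mul`, `IsUni.inv` in `GBasic`.
-/

namespace Pool.Agent.P.MP_257122_al.K

open Polynomial MonoidAlgebra C
open scoped commutatorElement Matrix

variable {G H : Type} [Group G] [Group H]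

theorem kr_mem {V : Type} [AddCommGroup V] (S : Set (Multiplicative V)) (x : V) :
    Multiplicative.ofAdd x ∈ Subgroup.closure S ↔
      x ∈ Submodule.span ℤ (Multiplicative.ofAdd ⁻¹' S) := by
  rw [← Subgroup.mem_toAddSubgroup', Subgroup.toAddSubgroup'_closure,
    ← Submodule.span_int_eq_addSubgroupClosure, Submodule.mem_toAddSubgroup]

theorem kr_add {V : Type} [AddCommGroup V] [Module.IsTorsionFree ℤ V] (r : ℕ)
    (h : ∀ n (v : Fin n → V), LinearIndependent ℤ v → n ≤ r) : FinRank (Multiplicative V) := by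
  classical
  refine ⟨r, ?_⟩
  rintro _ ⟨t, rfl⟩
  have := Module.Finite.span_of_finite ℤ
    (t.finite_toSet.preimage (Multiplicative.ofAdd (α := V)).injective.injOn)
  let b := Module.finBasis ℤ (Submodule.span ℤ (Multiplicative.ofAdd ⁻¹' (t : Set (Multiplicative V))))
  refine ⟨Finset.univ.image fun i => Multiplicative.ofAdd (b i : V), Finset.card_image_le.trans
    ((Finset.card_fin _).trans_le (h _ _ (b.linearIndependent.map' _ (Submodule.ker_subtype _)))),
    Subgroup.ext fun x => ?_⟩
  have e := congrArg (Submodule.map (Submodule.subtype _)) b.span_eq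
  rw [Submodule.map_subtype_top, Submodule.map_span, ← Set.range_comp] at e
  rw [← ofAdd_toAdd x, kr_mem, kr_mem]
  refine iff_of_eq (congrArg (_ ∈ ·) ((congrArg _ (Set.ext fun y => ?_)).trans e))
  simp

theorem kr_hom (φ : G →* H) (h : FinRank φ.ker) (h' : FinRank H) : FinRank G :=
  h.extension _ (h'.of_injective _ (QuotientGroup.kerLift_injective φ))

theorem finRank_of_finite [Finite G] : FinRank G := by
  have := Fintype.ofFinite G
  classical
  exact ⟨Fintype.card G, fun K _ => ⟨(K : Set G).toFinset, Finset.card_le_univ _, by simp⟩⟩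

theorem finRank_sub (h : FinRank G) (K : Subgroup G) : FinRank K :=
  h.of_injective K.subtype K.subtype_injective

theorem finRank_quot (h : FinRank G) (K : Subgroup G) [K.Normal] : FinRank (G ⧸ K) :=
  h.of_surjective (QuotientGroup.mk' K) (QuotientGroup.mk'_surjective K)

theorem finRank_comm (A : Type) [CommGroup A] [Group.FG A] : FinRank A := by
  obtain ⟨n, f, hf⟩ := Module.Finite.exists_fin' ℤ (Additive A)
  exact (kr_add n fun _ v hv => by simpa using hv.fintype_card_le_finrank).of_surjective
    (AddMonoidHom.toMultiplicativeLeft f.toAddMonoidHom) hf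

theorem kr_comm {T : Subgroup G} (h : ⁅T, T⁆ = ⊥) (a b : T) : a * b = b * a :=
  Subtype.ext (commutatorElement_eq_one_iff_mul_comm.1
    (Subgroup.mem_bot.1 (h ▸ Subgroup.commutator_mem_commutator a.2 b.2)))

theorem kr_index {T : Subgroup G} [T.FiniteIndex] {f : G →* H} (hf : Function.Surjective f) :
    (T.map f).FiniteIndex :=
  ⟨ne_zero_of_dvd_ne_zero Subgroup.FiniteIndex.index_ne_zero (T.index_map_dvd hf)⟩

theorem vab_finRank [Group.FG G] {N : Subgroup G} [N.Normal] (h : VAb N) : FinRank (G ⧸ N) := by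
  obtain ⟨T, h1, h2, -, h3⟩ := h
  have := h1.map _ (QuotientGroup.mk'_surjective N)
  have := kr_index (T := T) (QuotientGroup.mk'_surjective N)
  have := Group.fg_of_surjective ((QuotientGroup.mk' N).subgroupMap_surjective T)
  have hc : ⁅T.map (QuotientGroup.mk' N), T.map (QuotientGroup.mk' N)⁆ = ⊥ := by
    rwa [← Subgroup.map_commutator, Subgroup.map_eq_bot_iff, QuotientGroup.ker_mk']
  exact FinRank.extension (T.map (QuotientGroup.mk' N))
    (@finRank_comm _ ⟨kr_comm hc⟩ this) finRank_of_finite

theorem vab_mono {N N' : Subgroup G} [N'.Normal] (h : VAb N) (hN : N ≤ N') : VAb N' := by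
  obtain ⟨T, h1, h2, -, h3⟩ := h
  refine ⟨T ⊔ N', inferInstance, Subgroup.finiteIndex_of_le le_sup_left, le_sup_right, ?_⟩
  rw [Subgroup.sup_eq_closure]
  refine gb_comm_le ?_
  rintro a (ha | ha) b hb
  · rcases hb with hb | hb
    · exact hN (h3 (Subgroup.commutator_mem_commutator ha hb))
    · exact Subgroup.commutator_le_right ⊤ N' (Subgroup.commutator_mem_commutator trivial hb)
  · exact Subgroup.commutator_le_left N' ⊤ (Subgroup.commutator_mem_commutator ha trivial)

theorem vab_inf {N N' : Subgroup G} (h : VAb N) (h' : VAb N') : VAb (N ⊓ N') := by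
  obtain ⟨T, h1, h2, h3, h4⟩ := h
  obtain ⟨T', k1, k2, k3, k4⟩ := h'
  exact ⟨T ⊓ T', inferInstance, inferInstance, inf_le_inf h3 k3,
    le_inf ((Subgroup.commutator_mono inf_le_left inf_le_left).trans h4)
      ((Subgroup.commutator_mono inf_le_right inf_le_right).trans k4)⟩

theorem vab_map {N : Subgroup G} (h : VAb N) (f : G →* H) (hf : Function.Surjective f) :
    VAb (N.map f) := by
  obtain ⟨T, h1, h2, h3, h4⟩ := h
  exact ⟨T.map f, h1.map f hf, kr_index hf, Subgroup.map_mono h3,
    Subgroup.map_commutator T T f ▸ Subgroup.map_mono h4⟩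

theorem vab_dres [Group.FG G] (e : ℕ) : VAb (dres e G) :=
  ⟨res e G, inferInstance, res_finiteIndex e, Subgroup.commutator_le_left _ _, le_rfl⟩

theorem dres_anti {e e' : ℕ} (h : e ≤ e') : dres e' G ≤ dres e G :=
  Subgroup.commutator_mono (res_anti h) (res_anti h)

theorem kr_exp {A : Type} [CommGroup A] (h : FinRank A) {m : ℕ} (hm : 0 < m)
    (he : ∀ g : A, g ^ m = 1) : Finite A := by
  obtain ⟨r, h⟩ := h
  by_contra! hi
  obtain ⟨t, ht⟩ := Infinite.exists_subset_card_eq A (m ^ r + 1)
  obtain ⟨s, h1, h2⟩ := h _ ⟨t, rfl⟩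
  have d := card_dvd_exponent_pow_rank' (Subgroup.closure (s : Set A))
    fun g => Subtype.ext (he g)
  have : Finite (Subgroup.closure (s : Set A)) :=
    Nat.finite_of_card_ne_zero (ne_zero_of_dvd_ne_zero (pow_pos hm _).ne' d)
  have := Nat.card_le_card_of_injective (fun x : t => (⟨x, h2 ▸ Subgroup.subset_closure x.2⟩ :
    Subgroup.closure (s : Set A))) fun x y e => by simpa using e
  rw [Nat.card_eq_fintype_card, Fintype.card_coe] at this
  exact (this.trans ((Nat.le_of_dvd (pow_pos hm _) d).trans (Nat.pow_le_pow_right hm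
    ((Subgroup.rank_closure_finset_le_card s).trans h1)))).not_gt (by omega)

theorem finite_of_exp [Group.IsSolvable G] (h : FinRank G) {m : ℕ} (hm : 0 < m)
    (he : ∀ g : G, g ^ m = 1) : Finite G := by
  obtain ⟨n, hn⟩ := Group.IsSolvable.solvable (G := G)
  induction n generalizing G with
  | zero =>
    have := Subgroup.subsingleton_iff.1 (subsingleton_of_bot_eq_top hn.symm)
    infer_instance
  | succ n ih =>
    have : Finite (derivedSeries G n) := @kr_exp _ ⟨kr_comm hn⟩ (finRank_sub h _) m hm
      fun g => Subtype.ext (he g)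
    have : Finite (G ⧸ derivedSeries G n) := ih (finRank_quot h _)
      (fun g => QuotientGroup.induction_on g fun g => by rw [← QuotientGroup.mk_pow, he]; rfl) (by
        rw [← map_derivedSeries_eq (QuotientGroup.mk'_surjective _), Subgroup.map_eq_bot_iff,
          QuotientGroup.ker_mk'])
    exact Finite.of_subgroup_quotient (derivedSeries G n)

theorem relIndex_pw {N S : Subgroup G} [N.Normal] [S.Normal] (hR : FinRank (G ⧸ S))
    (hn : NilMod N S) {q : ℕ} (hq : 0 < q) : (pw q N ⊔ S).relIndex N ≠ 0 := by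
  obtain ⟨c, hc⟩ := hn
  have : Group.IsNilpotent (N.map (QuotientGroup.mk' (pw q N ⊔ S))) :=
    (Subgroup.isNilpotent_iff_lowerCentralSeries _).2 ⟨c, lcs_quot.2 (hc.trans le_sup_right)⟩
  have : Finite (N.map (QuotientGroup.mk' (pw q N ⊔ S))) :=
    finite_of_exp (finRank_sub (hR.quot_mono le_sup_right) _) hq fun ⟨_, y, hy, rfl⟩ =>
      Subtype.ext ((QuotientGroup.eq_one_iff (y ^ q)).2 (Subgroup.mem_sup_left (pwMem hy)))
  rw [← QuotientGroup.ker_mk' (pw q N ⊔ S), Subgroup.relIndex_ker]
  exact Nat.card_pos.ne'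

section
variable {n : ℕ} (wt : Fin n → ℕ)

theorem kr_anti {i j : ℕ} (h : i ≤ j) : fil wt j ≤ fil wt i := fun _ hx a b k => hx a b (by omega)

/-- The matrices congruent to the identity modulo `fil wt (j + 1)`. -/
def krU (j : ℕ) : Subgroup (GL (Fin n) ℚ) where
  carrier := {y | y.val - 1 ∈ fil wt (j + 1)}
  one_mem' := by simp
  mul_mem' {x y} hx hy := by
    have : (x * y).val - 1 = (x.val - 1) * y.val + (y.val - 1) := by
      rw [Units.val_mul]; noncomm_ring
    rw [Set.mem_ofPred_eq, this]
    exact add_mem (fil_mul' (j := 0) hx (gb_par (kr_anti wt j.succ_pos hy))) hy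
  inv_mem' {x} hx := by
    have : (x⁻¹).val - 1 = -((x.val - 1) * (x⁻¹).val) := by
      rw [sub_mul, Units.mul_inv, one_mul, neg_sub]
    rw [Set.mem_ofPred_eq, this]
    exact neg_mem (fil_mul' (j := 0) hx (gb_inv (kr_anti wt j.succ_pos hx)))

theorem kr_step (j : ℕ) (h : FinRank (krU wt (j + 1))) : FinRank (krU wt j) := by
  let φ : krU wt j →* Multiplicative (Matrix (Fin n) (Fin n) ℚ ⧸ fil wt (j + 2)) :=
    MonoidHom.mk' (fun y => Multiplicative.ofAdd (Submodule.Quotient.mk (y.1.val - 1)))
      fun x y => congrArg Multiplicative.ofAdd ((Submodule.Quotient.eq _).2 (by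
        have : (x * y).1.val - 1 - (x.1.val - 1 + (y.1.val - 1)) =
            (x.1.val - 1) * (y.1.val - 1) := by
          rw [Subgroup.coe_mul, Units.val_mul]; noncomm_ring
        exact this ▸ kr_anti wt (by omega) (fil_mul' x.2 y.2)))
  refine kr_hom φ (h.of_injective (((krU wt j).subtype.comp φ.ker.subtype).codRestrict _
    fun y => (Submodule.Quotient.mk_eq_zero _).1 y.2) fun x y e =>
      Subtype.ext (Subtype.ext (congrArg (fun z : krU wt (j + 1) => z.1) e))) ?_
  have := Module.IsTorsionFree.trans_faithfulSMul ℤ ℚ (Matrix (Fin n) (Fin n) ℚ ⧸ fil wt (j + 2))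
  exact kr_add _ fun _ v hv => by
    simpa using ((LinearIndependent.iff_fractionRing ℤ ℚ).1 hv).fintype_card_le_finrank

end

theorem finRank_ker {n c : ℕ} {wt : Fin n → ℕ} {σ : G →* GL (Fin n) ℚ} {N : Subgroup G}
    [N.Normal] (h : Adapt wt c σ N) (hN : FinRank (G ⧸ N)) : FinRank (G ⧸ σ.ker) := by
  have h0 : FinRank (krU wt 0) := Nat.decreasingInduction (fun j _ => kr_step wt j) (by
    have : Subsingleton (krU wt c) := ⟨fun x y => Subtype.ext (Units.ext (sub_left_injective
      (b := 1) (Matrix.ext fun a b => (x.2 a b (by have := h.1 a; omega)).trans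
        (y.2 a b (by have := h.1 a; omega)).symm)))⟩
    exact finRank_of_finite) c.zero_le
  have hl : σ.ker ⊔ N ≤ (krU wt 0).comap σ := sup_le (Subgroup.ker_le_comap _ _) h.2.2
  let ψ := QuotientGroup.lift σ.ker (QuotientGroup.mk' (σ.ker ⊔ N))
    fun g hg => (QuotientGroup.eq_one_iff g).2 (Subgroup.mem_sup_left hg)
  refine kr_hom ψ (h0.of_injective (((QuotientGroup.kerLift σ).comp ψ.ker.subtype).codRestrict _
    fun ⟨y, hy⟩ => ?_) fun x y e => Subtype.ext (QuotientGroup.kerLift_injective σ
      (Subtype.ext_iff.1 e))) (hN.quot_mono le_sup_right)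
  induction y using QuotientGroup.induction_on with
  | H g => exact hl ((QuotientGroup.eq_one_iff g).1 hy)

end Pool.Agent.P.MP_257122_al.K
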