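import Pool.Agent.P.MP_257122_al.KPU
import Pool.Agent.P.MP_257122_al.KRank

/-!
# Primitive polynomials that kill an abelian section

PLAN.  `pv_map`, `pv_mem`, `mem_quot`.  For `S = ⊥` use the action `abHom N` on `Additive (Abelianization N)`
(`MSec`): `pv g y l` maps to `aeval (abHom N g) (lp l)` of the class of `y`; elements of `T` act by commuting
operators and `N` acts trivially.  `exists_nclIn`: `VAb.exists_ncl` in the finitely generated group `T`.
`exists_kill`: for `y` in the finite list `Y`, the `r + 1` elements `φ ^ i y` lie in a subgroup with `r` generators, so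
the map `ℤ ^ (r+1) → V` factors through a linear map `ℤ ^ (r+1) → ℤ ^ r`, whose kernel contains a nonzero
vector and then (divide by the gcd; or take a nonzero polynomial of degree at most `r` in the kernel and its
`primPart`) a primitive vector.  Multiply the polynomials (`Prim.mul`, `lp_surjective`), `kill_of_gens`.
-/

namespace Pool.Agent.P.MP_257122_al.K

open Polynomial MonoidAlgebra C
open scoped commutatorElement Matrix

namespace Kil

variable {G : Type} [Group G] {D : Subgroup G} [D.Normal]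

/-- The class in the abelianisation. -/
def dl {D : Subgroup G} (c : G) (h : c ∈ D) : Additive (Abelianization D) :=
  Additive.ofMul (Abelianization.of ⟨c, h⟩)

omit [D.Normal] in
theorem dl_one : dl 1 D.one_mem = 0 := congrArg Additive.ofMul (map_one Abelianization.of)

omit [D.Normal] in
theorem dl_mul {a b : G} (ha : a ∈ D) (hb : b ∈ D) (h : a * b ∈ D) :
    dl (a * b) h = dl a ha + dl b hb :=
  congrArg Additive.ofMul (map_mul Abelianization.of (⟨a, ha⟩ : D) ⟨b, hb⟩)

omit [D.Normal] in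
theorem dl_inv {a : G} (ha : a ∈ D) (h : a⁻¹ ∈ D) : dl a⁻¹ h = -dl a ha :=
  congrArg Additive.ofMul (map_inv Abelianization.of (⟨a, ha⟩ : D))

omit [D.Normal] in
theorem dl_zpow {a : G} (ha : a ∈ D) (n : ℤ) (h : a ^ n ∈ D) : dl (a ^ n) h = n • dl a ha :=
  congrArg Additive.ofMul (map_zpow Abelianization.of (⟨a, ha⟩ : D) n)

theorem dl_conj (g : G) {a : G} (ha : a ∈ D) (h : g * a * g⁻¹ ∈ D) :
    dl (g * a * g⁻¹) h = abHom D g (dl a ha) := rfl

omit [D.Normal] in
theorem dl_eq_zero {a : G} (ha : a ∈ D) : dl a ha = 0 ↔ a ∈ ⁅D, D⁆ :=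
  (QuotientGroup.eq_one_iff _).trans (mem_comm_iff D ⟨a, ha⟩).symm

theorem dl_pv (g : G) {a : G} (ha : a ∈ D) (l : List ℤ) :
    dl (pv g a l) (pv_mem g ha l) = aeval (abHom D g) (lp l) (dl a ha) := by
  induction l with
  | nil =>
    show dl 1 D.one_mem = aeval (abHom D g) (0 : ℤ[X]) (dl a ha)
    rw [map_zero, dl_one]
    rfl
  | cons c l ih =>
    have h1 := pv_mem (D := D) g ha l
    have h2 := Subgroup.Normal.conj_mem inferInstance _ h1 g
    show dl (a ^ c * (g * pv g a l * g⁻¹)) (D.mul_mem (D.zpow_mem ha c) h2) =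
      aeval (abHom D g) (Polynomial.C c + X * lp l) (dl a ha)
    rw [dl_mul (D.zpow_mem ha c) h2, dl_zpow ha, dl_conj g h1, ih, map_add, map_mul, aeval_C,
      aeval_X, LinearMap.add_apply, Module.End.mul_apply, algebraMap_int_eq, eq_intCast,
      Module.End.intCast_apply]

theorem abHom_mem {n : G} (hn : n ∈ D) : abHom D n = 1 := by
  refine LinearMap.ext fun v => ?_
  obtain ⟨⟨c, hc⟩, rfl⟩ := ab_surj D v
  change abHom D n (dl c hc) = dl c hc
  rw [← dl_conj n hc (D.mul_mem (D.mul_mem hn hc) (D.inv_mem hn)),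
    dl_mul (D.mul_mem hn hc) (D.inv_mem hn), dl_mul hn hc, dl_inv hn]
  abel

theorem commute_ab {x y : G} (h : ⁅x, y⁆ ∈ D) : Commute (abHom D x) (abHom D y) := by
  have e : x * y = ⁅x, y⁆ * (y * x) := by rw [commutatorElement_def]; group
  show abHom D x * abHom D y = abHom D y * abHom D x
  rw [← map_mul, e, map_mul, abHom_mem h, one_mul, map_mul]

theorem prim_rel {V σ : Type} [AddCommGroup V] [Fintype σ] (φ : Module.End ℤ V) (v : V)
    (π : (σ → ℤ) →ₗ[ℤ] V) (h : ∀ i : Fin (Fintype.card σ + 1), ∃ w, π w = (φ ^ (i : ℕ)) v) :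
    ∃ p, Prim p ∧ aeval φ p v = 0 := by
  choose M hM using h
  obtain ⟨a, ha, ha0⟩ : ∃ a, Fintype.linearCombination ℤ M a = 0 ∧ a ≠ 0 := by
    by_contra hc
    push Not at hc
    have := LinearMap.finrank_le_finrank_of_injective
      ((injective_iff_map_eq_zero (Fintype.linearCombination ℤ M)).2 hc)
    simp at this
  obtain ⟨⟨p, hp⟩, rfl⟩ := (degreeLTEquiv ℤ (Fintype.card σ + 1)).surjective a
  have hp0 : p ≠ 0 := fun e => ha0 (by subst e; exact map_zero _)
  have hd : p.primPart.natDegree < Fintype.card σ + 1 := by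
    rw [natDegree_primPart]
    exact (natDegree_lt_iff_degree_lt hp0).2 (mem_degreeLT.1 hp)
  have e : degreeLTEquiv ℤ (Fintype.card σ + 1) ⟨p, hp⟩ =
      p.content • fun i : Fin (Fintype.card σ + 1) => p.primPart.coeff i := by
    funext i
    change p.coeff i = p.content * p.primPart.coeff i
    rw [← coeff_C_mul, ← eq_C_content_mul_primPart]
  rw [e, map_smul, smul_eq_zero, or_iff_right (mt content_eq_zero_iff.1 hp0)] at ha
  refine ⟨p.primPart, prim_iff.2 (isPrimitive_primPart p), ?_⟩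
  have h2 := congrArg π ha
  rw [Fintype.linearCombination_apply, map_sum, map_zero] at h2
  simp only [map_smul, hM] at h2
  rw [aeval_eq_sum_range' hd, LinearMap.sum_apply, Finset.sum_range]
  exact h2

theorem exists_prim (hG : FinRank G) (g : G) {a : G} (ha : a ∈ D) :
    ∃ p, Prim p ∧ aeval (abHom D g) p (dl a ha) = 0 := by
  classical
  obtain ⟨r, hr⟩ := hG
  obtain ⟨s, hs, hs'⟩ := hr (Subgroup.closure (((Finset.range (r + 1)).image
    fun i => g ^ i * a * (g ^ i)⁻¹ : Finset G) : Set G)) ⟨_, rfl⟩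
  have hD : Subgroup.closure (s : Set G) ≤ D := by
    rw [hs', Subgroup.closure_le]
    intro x hx
    obtain ⟨i, -, rfl⟩ := Finset.mem_image.1 hx
    exact Subgroup.Normal.conj_mem inferInstance _ ha _
  let π := Fintype.linearCombination ℤ fun x : s => dl x.1 (hD (Subgroup.subset_closure x.2))
  have key : ∀ x (hx : x ∈ Subgroup.closure (s : Set G)), dl x (hD hx) ∈ π.range := by
    intro x hx
    induction hx using Subgroup.closure_induction with
    | mem x hx => exact ⟨Pi.single ⟨x, hx⟩ 1, by simp [π]⟩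
    | one => rw [dl_one]; exact zero_mem _
    | mul x y hx hy ix iy => rw [dl_mul (hD hx) (hD hy)]; exact add_mem ix iy
    | inv x hx ix => rw [dl_inv (hD hx)]; exact neg_mem ix
  refine prim_rel _ _ π fun i => ?_
  have hi : (i : ℕ) < r + 1 := by have := i.2; have := Fintype.card_coe s; omega
  rw [← map_pow]
  exact key (g ^ (i : ℕ) * a * (g ^ (i : ℕ))⁻¹) (hs' ▸ Subgroup.subset_closure
    (Finset.mem_coe.2 (Finset.mem_image.2 ⟨i, Finset.mem_range.2 hi, rfl⟩)))

theorem exists_prim_list (hG : FinRank G) (g : G) (Y : List G) (hY : ∀ y ∈ Y, y ∈ D) :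
    ∃ p, Prim p ∧ ∀ y (h : y ∈ Y), aeval (abHom D g) p (dl y (hY y h)) = 0 := by
  induction Y with
  | nil => exact ⟨1, ⟨1, 0, by simp⟩, by simp⟩
  | cons a Y ih =>
    obtain ⟨p, h1, h2⟩ := ih fun y h => hY y (List.mem_cons_of_mem _ h)
    obtain ⟨q, h3, h4⟩ := exists_prim hG g (hY a List.mem_cons_self)
    refine ⟨p * q, h1.mul h3, fun y h => ?_⟩
    rcases List.mem_cons.1 h with rfl | h'
    · rw [map_mul, Module.End.mul_apply, h4, map_zero]
    · rw [mul_comm, map_mul, Module.End.mul_apply, h2 y h', map_zero]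

theorem mem_nclIn {T : Subgroup G} {Y : List G} {y : G} (hy : y ∈ Y) : y ∈ nclIn T Y :=
  Subgroup.subset_closure ⟨1, T.one_mem, y, hy, by simp⟩

theorem conj_nclIn {T : Subgroup G} {Y : List G} {t z : G} (ht : t ∈ T) (hz : z ∈ nclIn T Y) :
    t * z * t⁻¹ ∈ nclIn T Y := by
  have : nclIn T Y ≤ (nclIn T Y).comap (MulAut.conj t).toMonoidHom := by
    refine (Subgroup.closure_le _).2 ?_
    rintro _ ⟨u, hu, y, hy, rfl⟩
    exact Subgroup.subset_closure ⟨t * u, T.mul_mem ht hu, y, hy, by simp [mul_assoc]⟩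
  exact this hz

end Kil

open Kil

variable {G : Type} [Group G] {T N S S' : Subgroup G} {t : G} {l : List ℤ} {Y : List G}

theorem kil_iff [N.Normal] [S.Normal] {y : G} (hy : y ∈ N) :
    have := Subgroup.Normal.map (inferInstance : N.Normal) _ (QuotientGroup.mk'_surjective S)
    pv t⁻¹ y l ∈ ⁅N, N⁆ ⊔ S ↔ aeval (abHom (N.map (QuotientGroup.mk' S)) (QuotientGroup.mk' S t⁻¹))
      (lp l) (dl (QuotientGroup.mk' S y) (Subgroup.mem_map_of_mem _ hy)) = 0 := by
  intro _
  rw [← dl_pv, dl_eq_zero, ← pv_map, ← Subgroup.map_commutator, mem_quot]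

theorem kill_quot [S.Normal] :
    Kill (QuotientGroup.mk' S t) (N.map (QuotientGroup.mk' S)) ⊥ l ↔ Kill t N S l := by
  have : ∀ y, pv (QuotientGroup.mk' S t)⁻¹ (QuotientGroup.mk' S y) l ∈
      ⁅N.map (QuotientGroup.mk' S), N.map (QuotientGroup.mk' S)⁆ ⊔ ⊥ ↔
        pv t⁻¹ y l ∈ ⁅N, N⁆ ⊔ S := fun y => by
    rw [sup_bot_eq, ← map_inv, ← pv_map, ← Subgroup.map_commutator, mem_quot]
  refine ⟨fun h y hy => (this y).1 (h _ ⟨y, hy, rfl⟩), ?_⟩
  rintro h _ ⟨y, hy, rfl⟩
  exact (this y).2 (h y hy)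

theorem Kill.mono (h : Kill t N S l) (hS : S ≤ S') : Kill t N S' l :=
  fun y hy => (sup_le_sup_left hS _ : _ ≤ ⁅N, N⁆ ⊔ S') (h y hy)

theorem Kill.inf [N.Normal] (h : Kill t N S l) : Kill t N (S ⊓ N) l := by
  intro y hy
  obtain ⟨a, ha, b, hb, e⟩ := Subgroup.mem_sup_of_normal_left.1 (h y hy)
  have h1 : b ∈ N := by
    rw [← N.mul_mem_cancel_left (Subgroup.commutator_le_self N ha), e]
    exact pv_mem _ hy l
  rw [← e]
  exact mul_mem (Subgroup.mem_sup_left ha) (Subgroup.mem_sup_right ⟨hb, h1⟩)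

theorem kill_of_gens [N.Normal] [S.Normal] (hT : ⁅T, T⁆ ≤ N) (ht : t ∈ T) (hN : N = nclIn T Y)
    (h : ∀ y ∈ Y, pv t⁻¹ y l ∈ ⁅N, N⁆ ⊔ S) : Kill t N S l := by
  subst hN
  have := Subgroup.Normal.map (inferInstance : (nclIn T Y).Normal) _
    (QuotientGroup.mk'_surjective S)
  have m : ∀ {x}, x ∈ nclIn T Y →
      QuotientGroup.mk' S x ∈ (nclIn T Y).map (QuotientGroup.mk' S) := Subgroup.mem_map_of_mem _
  intro y hy
  refine (kil_iff hy).2 ?_
  induction hy using Subgroup.closure_induction with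
  | mem x hx =>
    obtain ⟨u, hu, y, hy, rfl⟩ := hx
    have h1 := (kil_iff (mem_nclIn hy)).1 (h y hy)
    have h2 := commute_aeval (commute_ab (x := QuotientGroup.mk' S u) (y := QuotientGroup.mk' S t⁻¹)
      (map_commutatorElement (QuotientGroup.mk' S) _ _ ▸ m (hT
        (Subgroup.commutator_mem_commutator hu (T.inv_mem ht))))) l
    refine (congrArg _ (dl_conj (QuotientGroup.mk' S u) (m (mem_nclIn hy)) _)).trans ?_
    rw [← Module.End.mul_apply, ← h2.eq, Module.End.mul_apply, h1, map_zero]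
  | one => exact (congrArg _ dl_one).trans (map_zero _)
  | mul x y hx hy ix iy =>
    exact (congrArg _ (dl_mul (m hx) (m hy) _)).trans (by rw [map_add, ix, iy, add_zero])
  | inv x hx ix => exact (congrArg _ (dl_inv (m hx) _)).trans (by rw [map_neg, ix, neg_zero])

theorem exists_nclIn [Group.FG G] [N.Normal] (h : Top T N) : ∃ Y, N = nclIn T Y := by
  obtain ⟨h1, h2, h3, h4⟩ := h
  have hv : VAb (N.subgroupOf T) := ⟨⊤, inferInstance, inferInstance, le_top,
    Subgroup.commutator_le.2 fun a _ b _ => h4 (Subgroup.commutator_mem_commutator a.2 b.2)⟩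
  obtain ⟨Y, hY⟩ := hv.exists_ncl
  refine ⟨Y.map T.subtype, le_antisymm (fun n hn => ?_) ((Subgroup.closure_le _).2 ?_)⟩
  · have h5 : N.subgroupOf T ≤ (nclIn T (Y.map T.subtype)).comap T.subtype := by
      rw [hY]
      refine (Subgroup.closure_le _).2 fun z hz => ?_
      obtain ⟨y, hy, hc⟩ := Group.mem_conjugatesOfSet_iff.1 hz
      obtain ⟨u, rfl⟩ := isConj_iff.1 hc
      exact Subgroup.subset_closure ⟨u, u.2, y, List.mem_map_of_mem hy, rfl⟩
    exact h5 (show (⟨n, h3 hn⟩ : T) ∈ N.subgroupOf T from hn)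
  · rintro _ ⟨u, -, _, hy, rfl⟩
    obtain ⟨y, hy', rfl⟩ := List.mem_map.1 hy
    have : y ∈ N.subgroupOf T := hY ▸ Subgroup.subset_normalClosure hy'
    exact Subgroup.Normal.conj_mem (inferInstance : N.Normal) y this u

theorem nclIn_eq {X : List G} (hX : MGen X) [T.Normal]
    (h : ∀ x ∈ X, ∀ y ∈ Y, x * y * x⁻¹ ∈ nclIn T Y) : nclIn T Y = ncl Y := by
  have : (nclIn T Y).Normal := hX.normal fun x hx => by
    have : nclIn T Y ≤ (nclIn T Y).comap (MulAut.conj x).toMonoidHom := by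
      refine (Subgroup.closure_le _).2 ?_
      rintro _ ⟨u, hu, y, hy, rfl⟩
      have := conj_nclIn (Subgroup.Normal.conj_mem inferInstance u hu x) (h x hx y hy)
      simpa [mul_assoc] using this
    exact fun y hy => this hy
  refine le_antisymm ((Subgroup.closure_le _).2 ?_)
    (Subgroup.normalClosure_le_normal fun y hy => mem_nclIn hy)
  rintro _ ⟨u, -, y, hy, rfl⟩
  exact Subgroup.Normal.conj_mem (inferInstance : (ncl Y).Normal) y
    (Subgroup.subset_normalClosure hy) u

theorem exists_kill [Group.FG G] [N.Normal] [S.Normal] (h : Top T N) (hG : FinRank (G ⧸ S))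
    (ht : t ∈ T) : ∃ l, Prim (lp l) ∧ Kill t N S l := by
  obtain ⟨Y, hY⟩ := exists_nclIn h
  have := Subgroup.Normal.map (inferInstance : N.Normal) _ (QuotientGroup.mk'_surjective S)
  obtain ⟨p, h1, h2⟩ := exists_prim_list (D := N.map (QuotientGroup.mk' S)) hG
    (QuotientGroup.mk' S t⁻¹) (Y.map (QuotientGroup.mk' S)) fun y hy => by
      obtain ⟨y, hy', rfl⟩ := List.mem_map.1 hy
      exact Subgroup.mem_map_of_mem _ (hY ▸ mem_nclIn hy')
  obtain ⟨l, rfl⟩ := lp_surjective p
  exact ⟨l, h1, kill_of_gens h.2.2.2 ht hY fun y hy =>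
    (kil_iff (hY ▸ mem_nclIn hy)).2 (h2 _ (List.mem_map_of_mem hy))⟩

end Pool.Agent.P.MP_257122_al.K
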