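import Pool.Agent.P.MP_257122_al.KPU

/-!
# Ideals of Laurent polynomial rings

PLAN.  `lau_pure`: first the ideal of `MvPolynomial (Fin r) ℤ` generated by the `f i (X i)` is pure
(induction on `r`, `MvPolynomial.finSuccEquiv`, `pu1` over the quotient by the smaller ideal); the group ring is
obtained by inverting the variables: every element times a monomial is the image of a polynomial, and the
map from polynomials is injective.  Alternatively induct directly on `r` with Laurent polynomials.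
`lau_fin`: the quotient is generated as a `ℚ`-algebra by the images of the `x i` and their inverses, all
integral over `ℚ` (an invertible algebraic element has an algebraic inverse);
`Algebra.finite_adjoin_of_finite_of_isIntegral`, or `Module.Finite` from `Algebra.FiniteType` and `Algebra.IsIntegral`.
`lau_one`, `lau_inj`: the algebra homomorphism to the dual numbers (`TrivSqZeroExt ℚ ℚ`, `DualNumber ℚ`) with
`a ↦ 1 + a j ε` kills the ideal since `(X - 1) ^ 2 ∣ f i`; for `lau_one` use the augmentation.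
-/

namespace Pool.Agent.P.MP_257122_al.K

open Polynomial MonoidAlgebra C
open scoped commutatorElement Matrix

/-- The free abelian group of rank `r`. -/
abbrev Zr (r : ℕ) : Type := Multiplicative (Fin r → ℤ)

/-- The ideal generated by the `f i (x i)`. -/
noncomputable def lauI (R : Type) [CommRing R] {r : ℕ} (f : Fin r → ℤ[X]) :
    Ideal (MonoidAlgebra R (Zr r)) :=
  Ideal.span (Set.range fun i => pev (of R (Zr r) (Multiplicative.ofAdd (Pi.single i 1))) (f i))

namespace Lau

theorem map_pev {A B : Type} [Ring A] [Ring B] (φ : A →+* B) (x : A) (g : ℤ[X]) :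
    φ (pev x g) = pev (φ x) g := (aeval_algHom_apply φ.toIntAlgHom x g).symm

theorem univ (r : ℕ) : ∀ f : Fin r → ℤ[X], (∀ i, Prim (f i)) →
    ∃ (B : Type) (_ : CommRing B) (ξ : Fin r → Bˣ),
      (∀ (m : ℕ) (x : B), m ≠ 0 → m • x = 0 → x = 0) ∧ (∀ i, pev (ξ i : B) (f i) = 0) ∧
      ∀ (A : Type) [CommRing A] (η : Fin r → Aˣ), (∀ i, pev (η i : A) (f i) = 0) →
        ∃ ψ : B →+* A, ∀ i, ψ (ξ i) = η i := by
  induction r with
  | zero =>
    exact fun f _ => ⟨ℤ, inferInstance, Fin.elim0, fun m x hm h => by simpa [hm] using h,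
      fun i => i.elim0, fun A _ _ _ => ⟨Int.castRingHom A, fun i => i.elim0⟩⟩
  | succ r ih =>
    intro f hf
    obtain ⟨B, _, ξ, h1, h2, h3⟩ := ih (fun i => f i.succ) fun i => hf _
    let I : Ideal B[X] := Ideal.span {pev (X : B[X]) (f 0)}
    let t : B[X] ⧸ I := Ideal.Quotient.mk I X
    let ι : B[X] →+* Localization.Away t :=
      (algebraMap (B[X] ⧸ I) (Localization.Away t)).comp (Ideal.Quotient.mk I)
    have hu : IsUnit (ι X) := IsLocalization.Away.algebraMap_isUnit t
    refine ⟨Localization.Away t, inferInstance,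
      Fin.cons hu.unit fun i => Units.map (ι.comp Polynomial.C).toMonoidHom (ξ i),
      fun m x hm h => ?_, fun i => ?_, fun A _ η hη => ?_⟩
    · obtain ⟨⟨a, s⟩, rfl⟩ := IsLocalization.mk'_surjective (Submonoid.powers t) x
      dsimp only at h ⊢
      rw [nsmul_eq_mul, ← map_natCast (algebraMap (B[X] ⧸ I) (Localization.Away t)),
        IsLocalization.mul_mk'_eq_mk'_of_mul, IsLocalization.mk'_eq_zero_iff] at h
      obtain ⟨c, hc⟩ := h
      refine (IsLocalization.mk'_eq_zero_iff _ _).2 ⟨c, ?_⟩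
      obtain ⟨y, hy⟩ := Ideal.Quotient.mk_surjective ((c : B[X] ⧸ I) * a)
      rw [← hy]
      refine Ideal.Quotient.eq_zero_iff_mem.2 (pu1 h1 (hf 0) m y hm
        (Ideal.Quotient.eq_zero_iff_mem.1 ?_))
      rw [map_nsmul, hy, nsmul_eq_mul, mul_left_comm, hc]
    · refine Fin.cases ?_ (fun i => ?_) i
      · change pev (ι X) (f 0) = 0
        rw [← map_pev, RingHom.comp_apply,
          Ideal.Quotient.eq_zero_iff_mem.2 (Ideal.mem_span_singleton_self _), map_zero]
      · change pev ((ι.comp Polynomial.C) (ξ i)) (f i.succ) = 0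
        rw [← map_pev, h2, map_zero]
    · obtain ⟨ψ₀, h4⟩ := h3 A (fun i => η i.succ) fun i => hη _
      let ψ₁ : B[X] ⧸ I →+* A := Ideal.Quotient.lift I (eval₂RingHom ψ₀ (η 0)) fun a ha => by
        obtain ⟨c, rfl⟩ := Ideal.mem_span_singleton'.1 ha
        rw [map_mul, map_pev, coe_eval₂RingHom, eval₂_X, hη, mul_zero]
      have e : ψ₁ t = η 0 := eval₂_X _ _
      refine ⟨IsLocalization.Away.lift t (g := ψ₁) (e ▸ (η 0).isUnit), fun i => ?_⟩
      refine Fin.cases ?_ (fun i => ?_) i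
      · exact (IsLocalization.Away.lift_eq t _ _).trans e
      · exact (IsLocalization.Away.lift_eq t _ _).trans ((eval₂_C _ _).trans (h4 i))

theorem eq_prod {r : ℕ} (a : Zr r) :
    a = ∏ i, (Multiplicative.ofAdd (Pi.single i 1) : Zr r) ^ a.toAdd i := by
  apply Multiplicative.toAdd.injective
  rw [toAdd_prod]
  exact pi_eq_sum_univ' _

theorem kills {r : ℕ} {f : Fin r → ℤ[X]} (hf : ∀ i, ∃ c, f i = (X - 1) ^ 2 * c) {A : Type}
    [CommRing A] [Algebra ℚ A] (χ : Zr r →* A)
    (h : ∀ i, (χ (Multiplicative.ofAdd (Pi.single i 1)) - 1) ^ 2 = 0)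
    {x : MonoidAlgebra ℚ (Zr r)} (hx : x ∈ lauI ℚ f) : MonoidAlgebra.lift ℚ _ _ χ x = 0 := by
  have : lauI ℚ f ≤ RingHom.ker (MonoidAlgebra.lift ℚ A (Zr r) χ).toRingHom := by
    refine Ideal.span_le.2 ?_
    rintro _ ⟨i, rfl⟩
    obtain ⟨c, hc⟩ := hf i
    rw [SetLike.mem_coe, RingHom.mem_ker, map_pev, hc]
    change pev (MonoidAlgebra.lift ℚ A (Zr r) χ _) _ = 0
    rw [MonoidAlgebra.lift_of, map_mul, map_pow, map_sub, map_one, aeval_X, h, zero_mul]
  exact this hx

/-- A character with values in the dual numbers. -/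
def chi {r : ℕ} (j : Fin r) : Zr r →* DualNumber ℚ where
  toFun a := ⟨1, a.toAdd j⟩
  map_one' := by ext <;> simp
  map_mul' a b := by ext <;> simp [add_comm]

end Lau

variable {r : ℕ} {f : Fin r → ℤ[X]}

theorem lau_pure (hf : ∀ i, Prim (f i)) : Pure (lauI ℤ f) := by
  obtain ⟨B, _, ξ, h1, h2, h3⟩ := Lau.univ r f hf
  let π := Ideal.Quotient.mk (lauI ℤ f)
  let η : Zr r →* (MonoidAlgebra ℤ (Zr r) ⧸ lauI ℤ f)ˣ :=
    (π.toMonoidHom.comp (of ℤ (Zr r))).toHomUnits
  obtain ⟨ψ, hψ⟩ := h3 _ (fun i => η (Multiplicative.ofAdd (Pi.single i 1))) fun i =>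
    (Lau.map_pev π _ _).symm.trans
      (Ideal.Quotient.eq_zero_iff_mem.2 (Ideal.subset_span ⟨i, rfl⟩))
  let χ : Zr r →* Bˣ := MonoidHom.mk' (fun a => ∏ i, ξ i ^ a.toAdd i) fun a b => by
    simp [zpow_add, Finset.prod_mul_distrib]
  have hχ : ∀ i, χ (Multiplicative.ofAdd (Pi.single i 1)) = ξ i := fun i => by
    change ∏ j, ξ j ^ (Pi.single i (1 : ℤ) : Fin r → ℤ) j = ξ i
    rw [Finset.prod_eq_single i (fun j _ h => by simp [h]) (by simp)]
    simp
  let φ : MonoidAlgebra ℤ (Zr r) →+* B :=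
    (MonoidAlgebra.lift ℤ B (Zr r) ((Units.coeHom B).comp χ)).toRingHom
  have hφ : ∀ a, φ (of ℤ _ a) = χ a := fun a => MonoidAlgebra.lift_of _ _
  have hk : lauI ℤ f ≤ RingHom.ker φ := by
    refine Ideal.span_le.2 ?_
    rintro _ ⟨i, rfl⟩
    rw [SetLike.mem_coe, RingHom.mem_ker, Lau.map_pev, hφ, hχ, h2]
  have hc : ∀ x, ψ (φ x) = π x := fun x => by
    induction x using MonoidAlgebra.induction_on with
    | of a =>
      have : Units.map ψ.toMonoidHom (χ a) = η a := by
        rw [Lau.eq_prod a]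
        simp only [map_prod, map_zpow, hχ]
        exact Finset.prod_congr rfl fun i _ => congrArg (· ^ _) (Units.ext (hψ i))
      rw [hφ]
      exact congrArg Units.val this
    | add x y hx hy => rw [map_add, map_add, map_add, hx, hy]
    | smul c x hx => rw [map_zsmul, map_zsmul, map_zsmul, hx]
  intro m x hm hx
  have h4 := h1 m (φ x) hm ((map_nsmul φ m x).symm.trans (hk hx))
  rw [← Ideal.Quotient.eq_zero_iff_mem]
  exact (hc x).symm.trans (by rw [h4, map_zero])

theorem lau_fin (hf : ∀ i, f i ≠ 0) : Module.Finite ℚ (MonoidAlgebra ℚ (Zr r) ⧸ lauI ℚ f) := by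
  let π := Ideal.Quotient.mkₐ ℚ (lauI ℚ f)
  let η : Zr r →* (MonoidAlgebra ℚ (Zr r) ⧸ lauI ℚ f)ˣ :=
    (π.toRingHom.toMonoidHom.comp (of ℚ (Zr r))).toHomUnits
  let W : Subgroup (MonoidAlgebra ℚ (Zr r) ⧸ lauI ℚ f)ˣ :=
    { carrier := {u | IsIntegral ℚ u.val}
      mul_mem' := fun h1 h2 => h1.mul h2
      one_mem' := isIntegral_one
      inv_mem' := fun {u} h => by
        let _ := u.invertible
        exact (IsAlgebraic.invOf h.isAlgebraic).isIntegral }
  have h1 : ∀ i, η (Multiplicative.ofAdd (Pi.single i 1)) ∈ W := fun i => by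
    refine IsAlgebraic.isIntegral ⟨(f i).map (Int.castRingHom ℚ),
      (Polynomial.map_ne_zero_iff Int.cast_injective).2 (hf i), ?_⟩
    rw [aeval_def, eval₂_map, Subsingleton.elim ((algebraMap ℚ _).comp (Int.castRingHom ℚ))
      (Int.castRingHom _)]
    exact (Lau.map_pev π.toRingHom _ _).symm.trans
      (Ideal.Quotient.eq_zero_iff_mem.2 (Ideal.subset_span ⟨i, rfl⟩))
  have h2 : Algebra.IsIntegral ℚ (MonoidAlgebra ℚ (Zr r) ⧸ lauI ℚ f) := ⟨fun x => by
    obtain ⟨x, rfl⟩ := Ideal.Quotient.mkₐ_surjective ℚ (lauI ℚ f) x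
    induction x using MonoidAlgebra.induction_on with
    | of a =>
      have : η a ∈ W := by
        rw [Lau.eq_prod a, map_prod]
        exact prod_mem fun i _ => by rw [map_zpow]; exact zpow_mem (h1 i) _
      exact this
    | add x y hx hy => rw [map_add]; exact hx.add hy
    | smul c x hx => rw [map_smul]; exact hx.smul c⟩
  have h3 : AddMonoid.FG (Fin r → ℤ) :=
    AddGroup.fg_iff_addMonoid_fg.1 (Module.Finite.iff_addGroup_fg.1 inferInstance)
  exact Algebra.IsIntegral.finite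

theorem lau_one (hf : ∀ i, ∃ c, f i = (X - 1) ^ 2 * c) (a : Zr r) : of ℚ _ a ∉ lauI ℚ f := by
  intro h
  have := Lau.kills hf (1 : Zr r →* ℚ) (by simp) h
  rw [MonoidAlgebra.lift_of] at this
  exact one_ne_zero this

theorem lau_inj (hf : ∀ i, ∃ c, f i = (X - 1) ^ 2 * c) {a a' : Zr r}
    (h : of ℚ _ a - of ℚ _ a' ∈ lauI ℚ f) : a = a' := by
  refine Multiplicative.toAdd.injective (funext fun j => ?_)
  have := Lau.kills hf (Lau.chi j) (fun i => by ext <;> simp [Lau.chi]) h
  rw [map_sub, MonoidAlgebra.lift_of, MonoidAlgebra.lift_of, sub_eq_zero] at this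
  exact Int.cast_injective (α := ℚ) (congrArg TrivSqZeroExt.snd this)

end Pool.Agent.P.MP_257122_al.K
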