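import Pool.Agent.P.MP_257122_al.KDefs

/-!
# Primitive polynomials

PLAN.  `prim_iff`: Bezout for the coefficients (`Finset.gcd_eq_sum_mul` or the ideal `contentIdeal`),
`u = ∑ c i X ^ (n - i)`.
`pu1`: it suffices to treat a prime `m = p`.  If `p x = f z` then in `(R ⧸ p)[X]`, an algebra over the field
`ZMod p`, we have `f z = 0` with `f ≠ 0` over `ZMod p`; its leading coefficient is a unit, so `z = 0`,
`z = p z'`, `x = f z'`.
`exists_conv`: `A = ℤ[X] ⧸ (f)` is torsion free by `pu1`, so `A[Y] ⧸ (g)` is torsion free, i.e. the ideal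
`(C f, g)` of `ℤ[X][X]` is pure.  Over `ℚ` the quotient is finite-dimensional (or: `x` and `y` are
algebraic over `ℤ` in the quotient ring `B`, after inverting `lc f * lc g` they are integral, so `x y` is killed by a
nonzero integral polynomial `h₀`); take the primitive part of `h₀`.
`exists_good`: recursion gives primitive `g j`; put `f = (X - 1) ^ 2 * ∏ g j`.
`Conv.apply`: the ring homomorphism `ℤ[X][X] → A` (`eval₂RingHom'`), or work in the commutative ring
`Subring.closure {x, y}`.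
-/

namespace Pool.Agent.P.MP_257122_al.K

open Polynomial MonoidAlgebra C
open scoped commutatorElement Matrix

theorem prim_iff {f : ℤ[X]} : Prim f ↔ f.IsPrimitive := by
  constructor
  · rintro ⟨u, n, h⟩ r hr
    exact isUnit_of_dvd_one (h ▸ (C_dvd_iff_dvd_coeff _ _).1 (hr.mul_left u) n)
  · intro h
    let J : Ideal ℤ := LinearMap.range ((lcoeff ℤ f.natDegree).comp (LinearMap.mulRight ℤ f))
    have h1 : ∀ i, f.coeff i ∈ J := fun i => by
      rcases le_or_gt i f.natDegree with hi | hi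
      · refine ⟨X ^ (f.natDegree - i), ?_⟩
        rw [LinearMap.comp_apply, LinearMap.mulRight_apply, lcoeff_apply, coeff_X_pow_mul',
          if_pos (Nat.sub_le _ _), Nat.sub_sub_self hi]
      · rw [coeff_eq_zero_of_natDegree_lt hi]
        exact J.zero_mem
    have h2 : IsUnit (Submodule.IsPrincipal.generator J) :=
      h _ ((C_dvd_iff_dvd_coeff _ _).2 fun i =>
        (Submodule.IsPrincipal.mem_iff_generator_dvd J).1 (h1 i))
    obtain ⟨u, hu⟩ : (1 : ℤ) ∈ J := (Submodule.IsPrincipal.mem_iff_generator_dvd J).2 h2.dvd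
    exact ⟨u, f.natDegree, hu⟩

theorem Prim.mul {f g : ℤ[X]} (hf : Prim f) (hg : Prim g) : Prim (f * g) :=
  prim_iff.2 ((prim_iff.1 hf).mul (prim_iff.1 hg))

theorem Prim.ne_zero {f : ℤ[X]} (hf : Prim f) : f ≠ 0 := (prim_iff.1 hf).ne_zero

namespace PU

theorem nzd {R : Type} [CommRing R] {f : ℤ[X]} (hf : Prim f) {z : R[X]}
    (h : z * f.map (Int.castRingHom R) = 0) : z = 0 := by
  obtain ⟨u, n, hu⟩ := hf
  have h1 : (u * f).map (Int.castRingHom R) ∈ nonZeroDivisors R[X] :=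
    mem_nonzeroDivisors_of_coeff_mem n (by rw [Polynomial.coeff_map, hu, map_one]; exact one_mem _)
  refine h1.2 z ?_
  rw [Polynomial.map_mul, mul_left_comm, h, mul_zero]

theorem pev_X {R : Type} [CommRing R] (f : ℤ[X]) :
    pev (X : R[X]) f = f.map (Int.castRingHom R) :=
  congrArg (fun φ : ℤ →+* R[X] => eval₂ φ X f)
    (RingHom.ext_int _ (Polynomial.C.comp (Int.castRingHom R)))

theorem pev_id (f : ℤ[X]) : pev (X : ℤ[X]) f = f := by
  rw [pev_X, RingHom.ext_int (Int.castRingHom ℤ) (RingHom.id ℤ), Polynomial.map_id]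

theorem alg {B : Type} [CommRing B] {x y : B} {f g : ℤ[X]} (hf : f ≠ 0) (hg : g ≠ 0)
    (hx : pev x f = 0) (hy : pev y g = 0) :
    ∃ (m : ℕ) (h : ℤ[X]), m ≠ 0 ∧ Prim h ∧ m • pev (x * y) h = 0 := by
  obtain ⟨h, h0, hh⟩ := IsAlgebraic.mul (R := ℤ) ⟨f, hf, hx⟩ ⟨g, hg, hy⟩
  rw [h.eq_C_content_mul_primPart, map_mul, aeval_C, eq_intCast, ← zsmul_eq_mul] at hh
  refine ⟨h.content.natAbs, h.primPart, Int.natAbs_ne_zero.2 fun e => h0 (content_eq_zero_iff.1 e),
    prim_iff.2 h.isPrimitive_primPart, ?_⟩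
  rcases Int.natAbs_eq h.content with e | e
  · rwa [e, natCast_zsmul] at hh
  · rwa [e, neg_smul, neg_eq_zero, natCast_zsmul] at hh

theorem div {R S : Type} [CommRing R] [CommRing S] (φ : R →+* S) {c : R}
    (hφ : ∀ x, φ x = 0 → c ∣ x) {z : R[X]} (h : z.map φ = 0) : Polynomial.C c ∣ z :=
  (C_dvd_iff_dvd_coeff _ _).2 fun i => hφ _ (by rw [← Polynomial.coeff_map, h, Polynomial.coeff_zero])

theorem hom_pev {A B : Type} [Ring A] [Ring B] (φ : A →+* B) (x : A) (f : ℤ[X]) :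
    φ (pev x f) = pev (φ x) f := (aeval_algHom_apply φ.toIntAlgHom x f).symm

end PU

open PU

theorem pu1 {R : Type} [CommRing R] (hR : ∀ (m : ℕ) (x : R), m ≠ 0 → m • x = 0 → x = 0)
    {f : ℤ[X]} (hf : Prim f) : Pure (Ideal.span {pev (X : R[X]) f}) := by
  intro m x hm hx
  rw [pev_X] at hx ⊢
  obtain ⟨z, hz⟩ := Ideal.mem_span_singleton'.1 hx
  let φ := Ideal.Quotient.mk (Ideal.span {(m : R)})
  have h0 : (m : R ⧸ Ideal.span {(m : R)}) = 0 := by
    rw [← map_natCast φ]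
    exact Ideal.Quotient.eq_zero_iff_mem.2 (Ideal.mem_span_singleton_self _)
  have h1 : z.map φ * f.map (Int.castRingHom _) = 0 := by
    have h2 := congrArg (Polynomial.map φ) hz
    rw [Polynomial.map_mul, Polynomial.map_map, nsmul_eq_mul, Polynomial.map_mul,
      Polynomial.map_natCast, ← C_eq_natCast, h0, C_0, zero_mul] at h2
    rwa [RingHom.ext_int (Int.castRingHom _) (φ.comp (Int.castRingHom R))]
  obtain ⟨w, hw⟩ := div φ (c := (m : R)) (fun y hy =>
    Ideal.mem_span_singleton.1 (Ideal.Quotient.eq_zero_iff_mem.1 hy)) (nzd hf h1)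
  refine Ideal.mem_span_singleton'.2 ⟨w, ?_⟩
  rw [← sub_eq_zero]
  ext i
  refine hR m _ hm ?_
  rw [← Polynomial.coeff_smul, smul_sub, ← hz, hw, nsmul_eq_mul, C_eq_natCast, mul_assoc,
    sub_self, Polynomial.coeff_zero]

namespace PU

theorem pure2 {f g : ℤ[X]} (hf : Prim f) (hg : Prim g) :
    Pure (Ideal.span {pev (Polynomial.C X : ℤ[X][X]) f, pev (X : ℤ[X][X]) g}) := by
  intro m x hm hx
  have e1 : pev (Polynomial.C X : ℤ[X][X]) f = Polynomial.C f := by
    rw [← hom_pev, pev_id]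
  let φ := Ideal.Quotient.mk (Ideal.span {f})
  have h1 : ∀ (k : ℕ) (y : ℤ[X] ⧸ Ideal.span {f}), k ≠ 0 → k • y = 0 → y = 0 := by
    intro k y hk hy
    obtain ⟨y, rfl⟩ := Ideal.Quotient.mk_surjective y
    rw [← map_nsmul, Ideal.Quotient.eq_zero_iff_mem] at hy
    have h2 := pu1 (R := ℤ) (fun j a hj ha => by simpa [hj] using ha) hf k y hk
    rw [pev_id] at h2
    exact Ideal.Quotient.eq_zero_iff_mem.2 (h2 hy)
  have h0 : φ f = 0 := Ideal.Quotient.eq_zero_iff_mem.2 (Ideal.mem_span_singleton_self _)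
  have e3 : Polynomial.mapRingHom φ (pev (X : ℤ[X][X]) g) = pev X g := by
    rw [hom_pev, Polynomial.coe_mapRingHom, map_X]
  rw [e1] at hx ⊢
  obtain ⟨a, b, hab⟩ := Ideal.mem_span_pair.1 hx
  have h3 := congrArg (Polynomial.mapRingHom φ) hab
  rw [map_add, map_mul, map_mul, map_nsmul, e3, Polynomial.coe_mapRingHom, map_C, h0, C_0,
    mul_zero, zero_add] at h3
  obtain ⟨c, hc⟩ := Ideal.mem_span_singleton'.1
    (pu1 h1 hg m (x.map φ) hm (Ideal.mem_span_singleton'.2 ⟨_, h3⟩))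
  obtain ⟨c, rfl⟩ := Polynomial.map_surjective φ Ideal.Quotient.mk_surjective c
  obtain ⟨w, hw⟩ := div φ (c := f) (z := x - c * pev (X : ℤ[X][X]) g) (fun y hy =>
    Ideal.mem_span_singleton.1 (Ideal.Quotient.eq_zero_iff_mem.1 hy)) (by
      rw [Polynomial.map_sub, ← hc, ← e3, Polynomial.coe_mapRingHom, Polynomial.map_mul, sub_self])
  exact Ideal.mem_span_pair.2 ⟨w, c, by rw [mul_comm w, ← hw, sub_add_cancel]⟩

theorem alg' {B : Type} [CommRing B] {I : Ideal B} {x y : B} {f g : ℤ[X]} (hf : f ≠ 0) (hg : g ≠ 0)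
    (hx : pev x f ∈ I) (hy : pev y g ∈ I) :
    ∃ (m : ℕ) (h : ℤ[X]), m ≠ 0 ∧ Prim h ∧ m • pev (x * y) h ∈ I := by
  obtain ⟨m, h, hm, hp, hh⟩ := alg hf hg
    ((hom_pev _ x f).symm.trans (Ideal.Quotient.eq_zero_iff_mem.2 hx))
    ((hom_pev _ y g).symm.trans (Ideal.Quotient.eq_zero_iff_mem.2 hy))
  rw [← map_mul, ← hom_pev, ← map_nsmul, Ideal.Quotient.eq_zero_iff_mem] at hh
  exact ⟨m, h, hm, hp, hh⟩

theorem prim_sub : Prim (X - 1 : ℤ[X]) := prim_iff.2 (monic_X_sub_C (1 : ℤ)).isPrimitive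

end PU

theorem exists_conv {f g : ℤ[X]} (hf : Prim f) (hg : Prim g) : ∃ h, Prim h ∧ Conv f g h := by
  obtain ⟨m, h, hm, hp, hh⟩ := alg' (I := Ideal.span {pev (Polynomial.C X : ℤ[X][X]) f,
    pev (X : ℤ[X][X]) g}) hf.ne_zero hg.ne_zero (Ideal.subset_span (.inl rfl))
    (Ideal.subset_span (.inr rfl))
  obtain ⟨a, b, hab⟩ := Ideal.mem_span_pair.1 (pure2 hf hg _ _ hm hh)
  exact ⟨h, hp, a, b, hab.symm⟩

theorem exists_good {v : ℤ[X]} (hv : Prim v) (k : ℕ) : ∃ f, GoodP v k f := by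
  choose s hs hs' using fun f : {f : ℤ[X] // Prim f} => exists_conv f.2 (hv.mul prim_sub)
  let g : ℕ → {f : ℤ[X] // Prim f} := fun n => (fun f => ⟨s f, hs f⟩)^[n] ⟨X - 1, prim_sub⟩
  have hg : ∀ n, (g (n + 1)).1 = s (g n) := fun n =>
    congrArg Subtype.val (Function.iterate_succ_apply' _ n _)
  refine ⟨(X - 1) ^ 2 * ∏ j : Fin (k + 1), (g j).1, ?_, ⟨fun j => (g j).1, rfl, fun j => ?_,
    fun j => ?_⟩, _, rfl⟩
  · refine Prim.mul (sq (X - 1 : ℤ[X]) ▸ prim_sub.mul prim_sub) ?_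
    exact Finset.prod_induction _ Prim (fun _ _ => Prim.mul) (prim_iff.2 isPrimitive_one)
      fun j _ => (g j).2
  · change Conv (g j).1 _ (g (j + 1)).1
    rw [hg]
    exact hs' _
  · exact (Finset.dvd_prod_of_mem (fun j : Fin (k + 1) => (g j).1) (Finset.mem_univ j)).mul_left _

theorem Conv.apply {f g h : ℤ[X]} (hc : Conv f g h) {A : Type} [Ring A] {x y : A}
    (hxy : Commute x y) : ∃ a ∈ Subring.closure {x, y}, ∃ b ∈ Subring.closure {x, y},
      pev (x * y) h = a * pev x f + b * pev y g := by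
  obtain ⟨a, b, hab⟩ := hc
  have hx : x ∈ Subring.closure {x, y} := Subring.subset_closure (by simp)
  have hy : y ∈ Subring.closure {x, y} := Subring.subset_closure (by simp)
  have h0 : ∀ p : ℤ[X], Commute (pev x p) y ∧ pev x p ∈ Subring.closure {x, y} := fun p => by
    induction p using Polynomial.induction_on' with
    | add p q hp hq => rw [map_add]; exact ⟨hp.1.add_left hq.1, add_mem hp.2 hq.2⟩
    | monomial n c =>
      rw [aeval_monomial, eq_intCast]
      exact ⟨(Int.cast_commute c y).mul_left (hxy.pow_left n),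
        mul_mem (intCast_mem _ c) (pow_mem hx n)⟩
  let φ : ℤ[X][X] →+* A := eval₂RingHom' (pev x : ℤ[X] →+* A) y fun p => (h0 p).1
  have e1 : φ X = y := eval₂_X _ _
  have e2 : ∀ p, φ (Polynomial.C p) = pev x p := fun p => eval₂_C _ _
  have h1 : ∀ p, φ p ∈ Subring.closure {x, y} := fun p => by
    induction p using Polynomial.induction_on' with
    | add p q hp hq => rw [map_add]; exact add_mem hp hq
    | monomial n c =>
      rw [← C_mul_X_pow_eq_monomial, map_mul, map_pow, e1, e2]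
      exact mul_mem (h0 c).2 (pow_mem hy n)
  refine ⟨φ a, h1 a, φ b, h1 b, ?_⟩
  have h2 := congrArg φ hab
  rwa [map_add, map_mul, map_mul, hom_pev, hom_pev, hom_pev, map_mul, e1, e2, aeval_X] at h2

end Pool.Agent.P.MP_257122_al.K
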