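import Pool.Agent.P.MP_257122_al.KDefs

/-!
# Products of pure ideals in the group ring of a free group

PLAN.  Let `L = MonoidAlgebra ℤ (Fr b)`, `E = L ⊗[ℤ] L` with the commuting left and right multiplications
`a • (u ⊗ v) • a' = a u ⊗ v a'`.  Since the group is free there are additive maps `d x : L → E`
(`x : Fin b`) with `d x (u v) = d x u • v + u • d x v` and `d x (of y) = if x = y then 1 ⊗ 1 else 0`
(cocycle from `FreeGroup.lift` into a semidirect product, into the units of `TrivSqZeroExt`, or into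
triangular matrices of endomorphisms; extend linearly), and
`l ⊗ 1 - 1 ⊗ l = ∑ x, μ x (d x l)` where `μ x (u ⊗ v) = u x ⊗ v - u ⊗ x v` (both sides are derivations that
agree on generators).  Let `m • l ∈ I * J`.  Then `l ∈ I`, `l ∈ J`, and `m • d x l` lies in the kernel of
`E → (L ⧸ I) ⊗ (L ⧸ J)`; the target is torsion free (`Module.Flat` over `ℤ` from torsion freeness), so
`d x l` lies in this kernel, which is `im (I ⊗ L) + im (L ⊗ J)` (`TensorProduct.map_ker`).  Write
`d x l = p x + q x`.  The element `z = l ⊗ 1 - ∑ μ x (p x) = 1 ⊗ l + ∑ μ x (q x)` lies in `im (I ⊗ L)` and in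
`im (L ⊗ J)`, hence in `im (I ⊗ J)` (flatness of `L ⧸ J` and right exactness); multiplication
`E → L` kills the image of `μ x` and sends `z` to `l`.
-/

namespace Pool.Agent.P.MP_257122_al.K

open Polynomial MonoidAlgebra C
open scoped commutatorElement Matrix

namespace KPureAux

open TensorProduct

variable {R : Type} [CommRing R] {b : ℕ}

/-- a map that intertwines the generators intertwines everything -/
theorem inter {V V' : Type} [AddCommGroup V] [Module R V] [AddCommGroup V'] [Module R V']
    (Φ : MonoidAlgebra R (Fr b) →ₐ[R] Module.End R V)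
    (Ψ : MonoidAlgebra R (Fr b) →ₐ[R] Module.End R V') (α : V →ₗ[R] V')
    (h : ∀ y w, α (Φ (of R _ (FreeGroup.of y)) w) = Ψ (of R _ (FreeGroup.of y)) (α w))
    (l : MonoidAlgebra R (Fr b)) : ∀ w, α (Φ l w) = Ψ l (α w) := by
  induction l using MonoidAlgebra.induction_on with
  | of g =>
    induction g using FreeGroup.induction_on with
    | C1 => simp only [map_one, Module.End.one_apply, implies_true]
    | of y => exact h y
    | inv_of y ih =>
      intro w
      have e := congrArg (Ψ (of R _ (FreeGroup.of y)⁻¹)) (ih (Φ (of R _ (FreeGroup.of y)⁻¹) w))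
      simp only [← Module.End.mul_apply, ← map_mul, mul_inv_cancel, inv_mul_cancel, map_one,
        Module.End.one_apply] at e
      exact e.symm
    | mul x y hx hy => simp only [map_mul, Module.End.mul_apply, hx, hy, implies_true]
  | add f g hf hg => simp only [map_add, LinearMap.add_apply, hf, hg, implies_true]
  | smul r f hf => simp only [map_smul, LinearMap.smul_apply, hf, implies_true]

variable (R b)

/-- the group ring -/
abbrev L : Type := MonoidAlgebra R (Fr b)
/-- the module carrying the universal derivation -/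
abbrev W : Type := L R b × (Fin b → L R b ⊗[R] L R b)

/-- the action of a generator -/
noncomputable def T (y : Fin b) : W R b ≃ₗ[R] W R b :=
  LinearEquiv.skewProd
    (DistribMulAction.toLinearEquiv R _ ((of R (Fr b)).toHomUnits (FreeGroup.of y)))
    (DistribMulAction.toLinearEquiv R _ ((of R (Fr b)).toHomUnits (FreeGroup.of y)))
    (LinearMap.single R _ y ∘ₗ TensorProduct.mk R _ _ 1)

/-- the action of the group ring -/
noncomputable def Φ : L R b →ₐ[R] Module.End R (W R b) :=
  MonoidAlgebra.lift R _ _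
    (LinearEquiv.automorphismGroup.toLinearMapMonoidHom.comp (FreeGroup.lift (T R b)))

variable {R b}

theorem Φ_of (y : Fin b) (w : W R b) : Φ R b (of R _ (FreeGroup.of y)) w =
    (of R _ (FreeGroup.of y) * w.1,
      of R _ (FreeGroup.of y) • w.2 + Pi.single y ((1 : L R b) ⊗ₜ[R] w.1)) := by
  rw [Φ, MonoidAlgebra.lift_of, MonoidHom.comp_apply, FreeGroup.lift_apply_of]
  rfl

/-- the derivations -/
noncomputable def d (x : Fin b) : L R b →ₗ[R] L R b ⊗[R] L R b :=
  LinearMap.proj x ∘ₗ LinearMap.snd R _ _ ∘ₗ LinearMap.applyₗ (R := R) ((1, 0) : W R b) ∘ₗ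
    (Φ R b).toLinearMap

theorem Φ_fst (l : L R b) (w : W R b) : (Φ R b l w).1 = l * w.1 :=
  inter (Φ R b) (Algebra.lsmul R R (L R b)) (LinearMap.fst R _ _) (fun y w => by
    rw [Φ_of]; rfl) l w

theorem Φ_one (l : L R b) : Φ R b l (1, 0) = (l, fun x => d x l) :=
  Prod.ext ((Φ_fst l _).trans (mul_one l)) rfl

theorem Φ_inr (l : L R b) (f : Fin b → L R b ⊗[R] L R b) : Φ R b l (0, f) = (0, l • f) :=
  (inter (Algebra.lsmul R R _) (Φ R b) (LinearMap.inr R _ _) (fun y w => by
    rw [Φ_of]; simp) l f).symm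

theorem lT_smul (g : L R b →ₗ[R] L R b) (u : L R b) (e : L R b ⊗[R] L R b) :
    g.lTensor _ (u • e) = u • g.lTensor _ e :=
  (AlgebraTensorModule.lTensor (L R b) (L R b) g).map_smul u e

theorem Φ_inl (l v : L R b) :
    Φ R b l (v, 0) = (l * v, fun x => (LinearMap.mulRight R v).lTensor _ (d x l)) := by
  have h := inter (Φ R b) (Φ R b) ((LinearMap.mulRight R v).prodMap
    (((LinearMap.mulRight R v).lTensor _).compLeft _)) (fun y w => by
      rw [Φ_of, Φ_of]
      refine Prod.ext (mul_assoc _ _ _) (funext fun x => ?_)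
      by_cases h : x = y
      · subst h
        simp [lT_smul]
      · simp [lT_smul, h]) l (1, 0)
  rw [Φ_one, LinearMap.prodMap_apply, LinearMap.prodMap_apply, map_zero,
    LinearMap.mulRight_apply, LinearMap.mulRight_apply, one_mul] at h
  exact h.symm

theorem d_mul (x : Fin b) (u v : L R b) :
    d x (u * v) = (LinearMap.mulRight R v).lTensor _ (d x u) + u • d x v := by
  have h := Φ_one (u * v)
  rw [map_mul, Module.End.mul_apply, Φ_one, ← Prod.fst_add_snd (v, _), map_add, Φ_inl, Φ_inr] at h
  exact (congrFun (congrArg Prod.snd h) x).symm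

/-- the inner maps -/
noncomputable def μ (x : Fin b) : L R b ⊗[R] L R b →ₗ[R] L R b ⊗[R] L R b :=
  (LinearMap.mulRight R (of R _ (FreeGroup.of x))).rTensor _ -
    (LinearMap.mulLeft R (of R _ (FreeGroup.of x))).lTensor _

theorem μ_smul (x : Fin b) (u : L R b) (e : L R b ⊗[R] L R b) : μ x (u • e) = u • μ x e := by
  induction e using TensorProduct.induction_on with
  | zero => simp
  | tmul p q => simp [μ, smul_tmul', smul_sub, mul_assoc]
  | add p q hp hq => simp only [smul_add, map_add, hp, hq]

theorem mul_μ (x : Fin b) (e : L R b ⊗[R] L R b) : LinearMap.mul' R _ (μ x e) = 0 := by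
  induction e using TensorProduct.induction_on with
  | zero => simp
  | tmul p q => simp [μ, mul_assoc]
  | add p q hp hq => simp only [map_add, hp, hq, add_zero]

theorem sum_d (l : L R b) : (1 : L R b) ⊗ₜ[R] l + ∑ x, μ x (d x l) = l ⊗ₜ[R] 1 := by
  have h := inter (Φ R b) (Algebra.lsmul R R _)
    ((TensorProduct.mk R _ _ 1).coprod (∑ x, μ x ∘ₗ LinearMap.proj x)) (fun y w => by
      rw [Φ_of]
      simp only [LinearMap.coprod_apply, mk_apply, LinearMap.sum_apply, LinearMap.comp_apply,
        LinearMap.proj_apply, map_add, Pi.smul_apply, μ_smul, Algebra.lsmul_coe, Finset.smul_sum]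
      have e : ∑ x, μ x ((Pi.single y ((1 : L R b) ⊗ₜ[R] w.1) : Fin b → L R b ⊗[R] L R b) x) =
          μ y ((1 : L R b) ⊗ₜ[R] w.1) := by
        rw [Finset.sum_eq_single y (fun x _ h => by simp [h]) (by simp), Pi.single_eq_same]
      rw [e]
      simp only [μ, LinearMap.sub_apply, LinearMap.rTensor_tmul, LinearMap.lTensor_tmul,
        LinearMap.mulRight_apply, LinearMap.mulLeft_apply, smul_tmul', one_mul, smul_eq_mul,
        mul_one]
      abel) l (1, 0)
  rw [Φ_one] at h
  simpa [smul_tmul'] using h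

variable {I J : Submodule R (L R b)}

theorem map_mem {S : Submodule R (L R b)} {g : L R b →ₗ[R] L R b} (h : ∀ x ∈ S, g x ∈ S)
    (k : L R b →ₗ[R] L R b) :
    (∀ e ∈ LinearMap.range (S.subtype.rTensor (L R b)),
      TensorProduct.map g k e ∈ LinearMap.range (S.subtype.rTensor (L R b))) ∧
    ∀ e ∈ LinearMap.range (S.subtype.lTensor (L R b)),
      TensorProduct.map k g e ∈ LinearMap.range (S.subtype.lTensor (L R b)) := by
  constructor
  · rintro _ ⟨e, rfl⟩
    refine ⟨TensorProduct.map (g.restrict h) k e, ?_⟩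
    rw [LinearMap.rTensor_map, LinearMap.map_rTensor]
    rfl
  · rintro _ ⟨e, rfl⟩
    refine ⟨TensorProduct.map k (g.restrict h) e, ?_⟩
    rw [LinearMap.lTensor_map, LinearMap.map_lTensor]
    rfl

theorem mem_l (hI : Two I) (u : L R b) {i : L R b} (h : i ∈ I) : u * i ∈ I :=
  hI.1 (Submodule.mul_mem_mul Submodule.mem_top h)

theorem mem_r (hI : Two I) (u : L R b) {i : L R b} (h : i ∈ I) : i * u ∈ I :=
  hI.2 (Submodule.mul_mem_mul h Submodule.mem_top)

theorem d_ker (hI : Two I) (hJ : Two J) (x : Fin b) {l : L R b} (h : l ∈ I * J) :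
    TensorProduct.map I.mkQ J.mkQ (d x l) = 0 := by
  refine Submodule.mul_induction_on h (fun i hi j hj => ?_) (fun u v hu hv => ?_)
  · have h1 : ∀ e : L R b ⊗[R] L R b,
        TensorProduct.map I.mkQ J.mkQ ((LinearMap.mulRight R j).lTensor _ e) = 0 := fun e => by
      induction e using TensorProduct.induction_on with
      | zero => simp only [map_zero]
      | tmul p q =>
        rw [LinearMap.lTensor_tmul, map_tmul, LinearMap.mulRight_apply, Submodule.mkQ_apply J,
          (Submodule.Quotient.mk_eq_zero J).2 (mem_l hJ q hj), tmul_zero]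
      | add p q hp hq => simp only [map_add, hp, hq, add_zero]
    have h2 : ∀ e : L R b ⊗[R] L R b, TensorProduct.map I.mkQ J.mkQ (i • e) = 0 := fun e => by
      induction e using TensorProduct.induction_on with
      | zero => simp only [smul_zero, map_zero]
      | tmul p q =>
        rw [smul_tmul', map_tmul, smul_eq_mul, Submodule.mkQ_apply I,
          (Submodule.Quotient.mk_eq_zero I).2 (mem_r hI p hi), zero_tmul]
      | add p q hp hq => simp only [smul_add, map_add, hp, hq, add_zero]
    rw [d_mul, map_add, h1, h2, add_zero]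
  · rw [map_add, map_add, hu, hv, add_zero]

theorem μ_mem (hI : Two I) (x : Fin b) :
    (∀ e ∈ LinearMap.range (I.subtype.rTensor (L R b)),
      μ x e ∈ LinearMap.range (I.subtype.rTensor (L R b))) ∧
    ∀ e ∈ LinearMap.range (I.subtype.lTensor (L R b)),
      μ x e ∈ LinearMap.range (I.subtype.lTensor (L R b)) :=
  ⟨fun e he => sub_mem ((map_mem (fun _ h => mem_r hI _ h) _).1 e he)
      ((map_mem (g := LinearMap.id) (fun _ h => h) _).1 e he),
    fun e he => sub_mem ((map_mem (g := LinearMap.id) (fun _ h => h) _).2 e he)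
      ((map_mem (fun _ h => mem_l hI _ h) _).2 e he)⟩

theorem main (hI : Two I) (hJ : Two J) [Module.Flat R (L R b ⧸ J)] {l : L R b} (h1 : l ∈ I)
    (h2 : l ∈ J) (h : ∀ x, TensorProduct.map I.mkQ J.mkQ (d x l) = 0) : l ∈ I * J := by
  have hk := TensorProduct.map_ker (LinearMap.exact_subtype_mkQ I) I.mkQ_surjective
    (LinearMap.exact_subtype_mkQ J) J.mkQ_surjective
  have hd : ∀ x, ∃ q ∈ LinearMap.range (J.subtype.lTensor (L R b)),
      ∃ p ∈ LinearMap.range (I.subtype.rTensor (L R b)), q + p = d x l := fun x =>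
    Submodule.mem_sup.1 (hk ▸ LinearMap.mem_ker.2 (h x))
  choose q hq p hp hs using hd
  have hz : l ⊗ₜ[R] (1 : L R b) - ∑ x, μ x (p x) = (1 : L R b) ⊗ₜ[R] l + ∑ x, μ x (q x) := by
    rw [← sum_d l]
    simp only [← hs, map_add, Finset.sum_add_distrib]
    abel
  obtain ⟨w, hw⟩ : l ⊗ₜ[R] (1 : L R b) - ∑ x, μ x (p x) ∈
      LinearMap.range (I.subtype.rTensor (L R b)) :=
    sub_mem ⟨(⟨l, h1⟩ : I) ⊗ₜ[R] 1, rfl⟩ (sum_mem fun x _ => (μ_mem hI x).1 _ (hp x))
  obtain ⟨w', hw'⟩ : (1 : L R b) ⊗ₜ[R] l + ∑ x, μ x (q x) ∈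
      LinearMap.range (J.subtype.lTensor (L R b)) :=
    add_mem ⟨1 ⊗ₜ[R] (⟨l, h2⟩ : J), rfl⟩ (sum_mem fun x _ => (μ_mem hJ x).2 _ (hq x))
  have h0 : J.mkQ.lTensor I w = 0 := by
    apply Module.Flat.rTensor_preserves_injective_linearMap (M := L R b ⧸ J) I.subtype
      I.injective_subtype
    rw [map_zero, ← LinearMap.comp_apply, LinearMap.rTensor_comp_lTensor,
      ← LinearMap.lTensor_comp_rTensor, LinearMap.comp_apply, hw, hz, ← hw']
    exact (lTensor_exact _ (LinearMap.exact_subtype_mkQ J) J.mkQ_surjective).apply_apply_eq_zero w'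
  obtain ⟨t, rfl⟩ := (lTensor_exact I (LinearMap.exact_subtype_mkQ J) J.mkQ_surjective w).1 h0
  have hm := congrArg (LinearMap.mul' R (L R b)) hw
  rw [map_sub, map_sum, LinearMap.mul'_apply, mul_one] at hm
  simp only [mul_μ, Finset.sum_const_zero, sub_zero] at hm
  rw [← hm]
  clear hm hw h0
  induction t using TensorProduct.induction_on with
  | zero => simp only [map_zero, Submodule.zero_mem]
  | tmul i j => exact Submodule.mul_mem_mul i.2 j.2
  | add u v hu hv => simp only [map_add]; exact add_mem hu hv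

theorem flat {M : Type} [AddCommGroup M] {S : Submodule ℤ M} (h : Pure S) :
    Module.Flat ℤ (M ⧸ S) := by
  have : Module.IsTorsionFree ℤ (M ⧸ S) := Module.IsTorsionFree.of_smul_eq_zero fun r m e => by
    obtain ⟨m, rfl⟩ := S.mkQ_surjective m
    refine or_iff_not_imp_left.2 fun hr => (Submodule.Quotient.mk_eq_zero S).2
      (h r.natAbs m (Int.natAbs_ne_zero.2 hr) ?_)
    have e' : r • m ∈ S := (Submodule.Quotient.mk_eq_zero S).1 e
    rcases Int.natAbs_eq r with e2 | e2
    · rw [← natCast_zsmul, ← e2]; exact e'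
    · rw [← natCast_zsmul, ← neg_mem_iff, ← neg_smul, ← e2]; exact e'
  infer_instance

end KPureAux

variable {b : ℕ} {I J : Submodule ℤ (MonoidAlgebra ℤ (Fr b))}

theorem pure_mul (hI : Two I) (hJ : Two J) (pI : Pure I) (pJ : Pure J) : Pure (I * J) := by
  intro m l hm h
  have := KPureAux.flat pI
  have := KPureAux.flat pJ
  refine KPureAux.main hI hJ (pI m l hm (((mul_le_mul_right le_top I).trans hI.2) h))
    (pJ m l hm (((mul_le_mul_left le_top J).trans hJ.1) h)) fun x => ?_
  have e := KPureAux.d_ker hI hJ x h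
  rw [map_nsmul, map_nsmul, ← natCast_zsmul] at e
  exact (smul_eq_zero_iff_right (Int.natCast_ne_zero.2 hm)).1 e

theorem two_mul' {R A : Type} [CommRing R] [Ring A] [Algebra R A] {I J : Submodule R A}
    (hI : Two I) (hJ : Two J) : Two (I * J) :=
  ⟨by rw [← mul_assoc]; exact mul_le_mul_left hI.1 _,
    by rw [mul_assoc]; exact mul_le_mul_right hJ.2 _⟩

theorem two_pow {R A : Type} [CommRing R] [Ring A] [Algebra R A] {I : Submodule R A}
    (hI : Two I) (k : ℕ) : Two (I ^ (k + 1)) := by
  induction k with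
  | zero => rwa [zero_add, pow_one]
  | succ k ih => rw [pow_succ]; exact two_mul' ih hI

theorem pure_pow (hI : Two I) (pI : Pure I) (k : ℕ) : Pure (I ^ (k + 1)) := by
  induction k with
  | zero => rwa [zero_add, pow_one]
  | succ k ih => rw [pow_succ]; exact pure_mul (two_pow hI k) hI ih pI

end Pool.Agent.P.MP_257122_al.K
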