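import Pool.Agent.P.MP_257122_al.KStep1
import Pool.Agent.P.MP_257122_al.KKill

/-!
# The semidirect trick

PLAN.  `step_mark`: induction on `r`.  For `τ : Fin (r+1) → G` let `T' = N ⊔ closure (range (τ ∘ succ))`
(or the set of all `g` with `g * (zp (τ ∘ succ) t)⁻¹ ∈ N` for some `t`); `IsMark T' N (τ ∘ succ)`, and `step_one`
applies to `T' ≤ T`, `t = τ 0` (`gb_zp_succ`; compute in the abelian group `T / N`, `gb_quot`).
`step_main`: with `b = zs R T * lgen R N τ f` we get `a ^ (j+1) ≤ ⊤ * b ^ (j+1)` by induction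
(`a * (⊤ * b ^ j) ≤ a * b ^ j`); the projection `π : R[G] → R[G]` that keeps the part supported in `T` satisfies
`π (x * y) = π x * y` for `y ∈ zs R T`, so `⊤ * b ^ (k+1) ⊓ zs R T ≤ zs R T * b ^ (k+1) ≤ b ^ (k+1)`.
`step_quot`: apply `step_main` in `G ⧸ S` to the image of `core (Lid R N τ f)` under the surjection
`gmap R (mk' S)` (`Submodule.map_pow`, `map_aug`, `gmap_top_aug`, `kill_quot`, `map_zp`).
-/

namespace Pool.Agent.P.MP_257122_al.K

open Polynomial MonoidAlgebra C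
open scoped commutatorElement Matrix

variable {R G : Type} [CommRing R] [Group G] {T N S : Subgroup G} [N.Normal] {r k : ℕ}
  {τ : Fin r → G} {l : Fin r → List ℤ} {f : Fin r → ℤ[X]} {x : MonoidAlgebra R G}

namespace StepAux

theorem pev_mem {g : G} (hg : g ∈ T) (p : ℤ[X]) : pev (of R G g) p ∈ zs R T := by
  rw [pev, aeval_eq_sum_range]
  refine Submodule.sum_mem _ fun i _ => zsmul_mem ?_ _
  rw [← map_pow]
  exact of_mem_zs (T.pow_mem hg i)

omit [N.Normal] in
theorem lgen_le (hM : IsMark T N τ) : lgen R N τ f ≤ zs R T :=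
  sup_le (aug_le_zs.trans (zs_mono hM.1))
    (Submodule.span_le.2 (by rintro _ ⟨i, rfl⟩; exact pev_mem (hM.2.2.1 i) _))

theorem exists_proj (R : Type) [CommRing R] (T : Subgroup G) :
    ∃ π : MonoidAlgebra R G →ₗ[R] MonoidAlgebra R G, (∀ x, π x ∈ zs R T) ∧
      (∀ x ∈ zs R T, π x = x) ∧ ∀ x, ∀ y ∈ zs R T, π (x * y) = π x * y := by
  classical
  let π : MonoidAlgebra R G →ₗ[R] MonoidAlgebra R G :=
    (MonoidAlgebra.basis G R).constr R fun g => if g ∈ T then of R G g else 0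
  have h : ∀ g, π (of R G g) = if g ∈ T then of R G g else 0 := fun g =>
    (MonoidAlgebra.basis G R).constr_basis R _ g
  refine ⟨π, fun x => ?_, fun x hx => ?_, fun x y hy => ?_⟩
  · induction x using MonoidAlgebra.induction_on with
    | of g =>
      rw [h]
      split_ifs with hg
      exacts [of_mem_zs hg, zero_mem _]
    | add a b ha hb => rw [map_add]; exact add_mem ha hb
    | smul c a ha => rw [map_smul]; exact Submodule.smul_mem _ _ ha
  · induction hx using Submodule.span_induction with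
    | mem _ hx => obtain ⟨g, hg, rfl⟩ := hx; rw [h, if_pos hg]
    | zero => exact map_zero _
    | add a b _ _ ha hb => rw [map_add, ha, hb]
    | smul c a _ ha => rw [map_smul, ha]
  · induction hy using Submodule.span_induction with
    | mem _ hy =>
      obtain ⟨n, hn, rfl⟩ := hy
      induction x using MonoidAlgebra.induction_on with
      | of g =>
        rw [← map_mul, h, h]
        by_cases hg : g ∈ T
        · rw [if_pos hg, if_pos (T.mul_mem hg hn), map_mul]
        · rw [if_neg hg, if_neg (fun e => hg ((T.mul_mem_cancel_right hn).1 e)), zero_mul]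
      | add a b ha hb => rw [add_mul, map_add, map_add, ha, hb, add_mul]
      | smul c a ha => rw [smul_mul_assoc, map_smul, map_smul, ha, smul_mul_assoc]
    | zero => rw [mul_zero, mul_zero, map_zero]
    | add a b _ _ ha hb => rw [mul_add, mul_add, map_add, ha, hb]
    | smul c a _ ha => rw [mul_smul_comm, mul_smul_comm, map_smul, ha]

theorem mem_of_top_mul {c : Submodule R (MonoidAlgebra R G)} (hc : c ≤ zs R T) (hx : x ∈ ⊤ * c)
    (hxT : x ∈ zs R T) : x ∈ zs R T * c := by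
  obtain ⟨π, h1, h2, h3⟩ := exists_proj R T
  rw [← h2 x hxT]
  refine Submodule.mul_induction_on hx (fun u _ v hv => ?_) fun u v hu hv => ?_
  · rw [h3 u v (hc hv)]
    exact Submodule.mul_mem_mul (h1 u) hv
  · rw [map_add]
    exact add_mem hu hv

theorem tail {τ : Fin (r + 1) → G} (hM : IsMark T N τ) :
    ∃ T' : Subgroup G, T' ≤ T ∧ IsMark T' N (fun j => τ j.succ) ∧
      (∀ g ∈ T, ∃ a : ℤ, (τ 0 ^ a)⁻¹ * g ∈ T') ∧ ∀ a : ℤ, τ 0 ^ a ∈ T' → a = 0 := by
  obtain ⟨h1, h2, h3, h4, h5⟩ := hM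
  let q := QuotientGroup.mk' N
  have hc : ∀ i j : Fin r, q (τ i.succ) * q (τ j.succ) = q (τ j.succ) * q (τ i.succ) := fun i j =>
    commutatorElement_eq_one_iff_mul_comm.1 ((map_commutatorElement q _ _).symm.trans
      ((QuotientGroup.eq_one_iff _).2 (h2 (Subgroup.commutator_mem_commutator (h3 _) (h3 _)))))
  let φ : Multiplicative (Fin r → ℤ) →* G ⧸ N :=
    MonoidHom.mk' (fun s => zp (fun j => q (τ j.succ)) s.toAdd) fun a b => zp_add hc _ _
  have hm : ∀ g, g ∈ φ.range.comap q ↔ ∃ t, g * (zp (fun j => τ j.succ) t)⁻¹ ∈ N := fun g =>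
    ⟨fun ⟨t, e⟩ => ⟨t.toAdd, gb_eq.2 (e.symm.trans (map_zp q _ _).symm)⟩,
      fun ⟨t, e⟩ => ⟨Multiplicative.ofAdd t, ((gb_eq.1 e).trans (map_zp q _ _)).symm⟩⟩
  have hle : φ.range.comap q ≤ T := fun g hg => by
    obtain ⟨t, e⟩ := (hm g).1 hg
    exact (T.mul_mem_cancel_right (T.inv_mem (zp_mem (fun j => h3 _) t))).1 (h1 e)
  have hz : ∀ (a : ℤ) (t : Fin r → ℤ), τ 0 ^ a * zp (fun j => τ j.succ) t ∈ N → a = 0 ∧ t = 0 := by
    intro a t e
    have := h5 (Fin.cons a t) (by rwa [gb_zp_succ])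
    exact ⟨congrFun this 0, funext fun j => congrFun this j.succ⟩
  refine ⟨φ.range.comap q, hle, ⟨fun g hg => (hm g).2 ⟨0, by rwa [zp_zero, inv_one, mul_one]⟩,
    (Subgroup.commutator_mono hle hle).trans h2, fun j => (hm _).2 ⟨Pi.single j 1, ?_⟩,
    fun g hg => (hm g).1 hg, fun t e => (hz 0 t (by rwa [zpow_zero, one_mul])).2⟩,
    fun g hg => ?_, fun a ha => ?_⟩
  · rw [zp_single, mul_inv_cancel]
    exact N.one_mem
  · obtain ⟨t, e⟩ := h4 g hg
    refine ⟨t 0, (hm _).2 ⟨fun j => t j.succ, ?_⟩⟩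
    rw [gb_zp_succ, mul_inv_rev, ← mul_assoc] at e
    rw [mul_assoc]
    exact Subgroup.Normal.mem_comm inferInstance e
  · obtain ⟨t, e⟩ := ha
    refine (hz a (-t.toAdd) ((QuotientGroup.eq_one_iff _).1 ?_)).1
    change q _ = 1
    rw [map_mul, map_zp, zp_neg hc, ← e]
    exact mul_inv_cancel _

theorem gmap_zs {H : Type} [Group H] (q : G →* H) (hx : x ∈ zs R T) :
    gmap R q x ∈ zs R (T.map q) := by
  induction hx using Submodule.span_induction with
  | mem _ hx => obtain ⟨g, hg, rfl⟩ := hx; rw [gmap_of]; exact of_mem_zs ⟨g, hg, rfl⟩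
  | zero => rw [map_zero]; exact zero_mem _
  | add a b _ _ ha hb => rw [map_add]; exact add_mem ha hb
  | smul c a _ ha => rw [map_smul]; exact Submodule.smul_mem _ _ ha

theorem gmap_surj {H : Type} [Group H] {q : G →* H} (hq : Function.Surjective q)
    (y : MonoidAlgebra R H) : ∃ x, gmap R q x = y := by
  induction y using MonoidAlgebra.induction_on with
  | of g => obtain ⟨g', rfl⟩ := hq g; exact ⟨_, gmap_of q g'⟩
  | add a b ha hb => obtain ⟨a', rfl⟩ := ha; obtain ⟨b', rfl⟩ := hb; exact ⟨_, map_add _ _ _⟩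
  | smul c a ha => obtain ⟨a', rfl⟩ := ha; exact ⟨_, map_smul _ _ _⟩

omit [N.Normal] in
theorem map_Lid {H : Type} [Group H] (q : G →* H) :
    (Lid R N τ f).map (gmap R q).toLinearMap ≤ Lid R (N.map q) (fun i => q (τ i)) f := by
  rw [Lid, Submodule.map_mul, lgen, Submodule.map_sup, map_aug]
  refine mul_le_mul' le_top (sup_le_sup le_rfl ?_)
  rw [Submodule.map_span, Submodule.span_le]
  rintro _ ⟨_, ⟨i, rfl⟩, rfl⟩
  refine Submodule.subset_span ⟨i, ?_⟩
  exact (congrArg (fun z => pev z (f i)) (gmap_of q (τ i)).symm).trans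
    (aeval_algHom_apply (gmap R q).toRingHom.toIntAlgHom _ _)

end StepAux

open StepAux

theorem step_mark (hM : IsMark T N τ) (hK : ∀ i, Kill (τ i) N ⊥ (l i))
    (hC : ∀ i, Chain (lp (l i)) k (f i)) (hx : x ∈ (zs R T * lgen R N τ f) ^ (k + 1))
    (hxN : x ∈ zs R N) : x ∈ aug R N ^ (k + 1) := by
  induction r generalizing T with
  | zero =>
    have hT : T ≤ N := fun g hg => by
      obtain ⟨t, e⟩ := hM.2.2.2.1 g hg
      rwa [Subsingleton.elim t 0, zp_zero, inv_one, mul_one] at e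
    refine pow_le_pow_left' ((mul_le_mul' (zs_mono hT) (sup_le le_rfl ?_)).trans zs_mul_aug) _ hx
    exact Submodule.span_le.2 (by rintro _ ⟨i, -⟩; exact i.elim0)
  | succ r ih =>
    obtain ⟨T', h1, h2, h3, h4⟩ := tail hM
    have key : lgen R N τ f ≤ aug R N ⊔ Submodule.span R (Set.range fun i : Fin r =>
        pev (of R G (τ i.succ)) (f i.succ)) ⊔ Submodule.span R {pev (of R G (τ 0)) (f 0)} := by
      refine sup_le (le_sup_left.trans le_sup_left) (Submodule.span_le.2 ?_)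
      rintro _ ⟨i, rfl⟩
      refine Fin.cases ?_ (fun j => ?_) i
      · exact Submodule.mem_sup_right (Submodule.subset_span rfl)
      · exact Submodule.mem_sup_left (Submodule.mem_sup_right (Submodule.subset_span ⟨j, rfl⟩))
    have key' := pow_le_pow_left' (mul_le_mul_right key (zs R T)) (k + 1) hx
    exact ih (l := fun j => l j.succ) (f := fun j => f j.succ) h2 (fun _ => hK _) (fun _ => hC _)
      (step_one h2.1 h1 (hM.2.2.1 0) hM.2.1 h3 h4 (le_sup_right.trans (lgen_le h2)) (hK 0) (hC 0)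
        key' (zs_mono h2.1 hxN))

theorem step_main (hM : IsMark T N τ) (hK : ∀ i, Kill (τ i) N ⊥ (l i))
    (hC : ∀ i, Chain (lp (l i)) k (f i)) {a : Submodule R (MonoidAlgebra R G)} (ha : a * ⊤ ≤ a)
    (haL : a ≤ Lid R N τ f) (hx : x ∈ a ^ (k + 1)) (hxN : x ∈ zs R N) :
    x ∈ aug R N ^ (k + 1) := by
  have hb : zs R T * lgen R N τ f ≤ zs R T := (mul_le_mul_right (lgen_le hM) _).trans zs_mul_zs
  have hab : a ≤ ⊤ * (zs R T * lgen R N τ f) := haL.trans (mul_le_mul_right (fun y hy =>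
    one_mul y ▸ Submodule.mul_mem_mul one_mem_zs hy) _)
  generalize e : zs R T * lgen R N τ f = b at hb hab
  have h1 : ∀ j, a ^ (j + 1) ≤ ⊤ * b ^ (j + 1) := by
    intro j
    induction j with
    | zero => rwa [pow_one, pow_one]
    | succ j ih =>
      rw [pow_succ' a, pow_succ' b, ← mul_assoc]
      refine (mul_le_mul_right ih _).trans ?_
      rw [← mul_assoc]
      exact mul_le_mul_left (ha.trans hab) _
  have h2 : ∀ j, b ^ (j + 1) ≤ zs R T := by
    intro j
    induction j with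
    | zero => rwa [pow_one]
    | succ j ih => rw [pow_succ]; exact (mul_le_mul' ih hb).trans zs_mul_zs
  have h3 := mem_of_top_mul (h2 k) (h1 k hx) (zs_mono hM.1 hxN)
  refine step_mark hM hK hC ?_ hxN
  rw [pow_succ', ← mul_assoc] at h3
  rw [e, pow_succ']
  refine (mul_le_mul_left ?_ _ : zs R T * b * b ^ k ≤ _) h3
  rw [← e, ← mul_assoc]
  exact mul_le_mul_left zs_mul_zs _

theorem step_quot [S.Normal] (hS : S ≤ N) (hM : IsMark T N τ) (hK : ∀ i, Kill (τ i) N S (l i))
    (hC : ∀ i, Chain (lp (l i)) k (f i))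
    (hx : x ∈ core (Lid R N τ f) ^ (k + 1) ⊔ ⊤ * aug R S) (hxN : x ∈ zs R N) :
    gmap R (QuotientGroup.mk' S) x ∈ aug R (N.map (QuotientGroup.mk' S)) ^ (k + 1) := by
  have hq := QuotientGroup.mk'_surjective S
  have := Subgroup.Normal.map ‹N.Normal› _ hq
  obtain ⟨h1, h2, h3, h4, h5⟩ := hM
  refine step_main (T := T.map (QuotientGroup.mk' S)) (τ := fun i => QuotientGroup.mk' S (τ i))
    (a := (core (Lid R N τ f)).map (gmap R (QuotientGroup.mk' S)).toLinearMap)
    ⟨Subgroup.map_mono h1, ?_, fun j => ⟨_, h3 j, rfl⟩, ?_, fun t ht => h5 t ?_⟩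
    (fun i => kill_quot.2 (hK i)) hC (Submodule.mul_le.2 ?_)
    ((Submodule.map_mono (core_le _)).trans (map_Lid _)) ?_ (gmap_zs _ hxN)
  · rw [← Subgroup.map_commutator]
    exact Subgroup.map_mono h2
  · rintro _ ⟨g, hg, rfl⟩
    obtain ⟨t, e⟩ := h4 g hg
    exact ⟨t, _, e, by rw [map_mul, map_inv, map_zp]⟩
  · rwa [← map_zp, mem_quot, sup_eq_left.2 hS] at ht
  · rintro _ ⟨u, hu, rfl⟩ y -
    obtain ⟨v, rfl⟩ := gmap_surj hq y
    exact ⟨u * v, core_mul_top _ (Submodule.mul_mem_mul hu trivial), map_mul (gmap R _) u v⟩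
  · obtain ⟨u, hu, v, hv, rfl⟩ := Submodule.mem_sup.1 hx
    have hv' := gmap_top_aug (QuotientGroup.mk' S) hv
    rw [QuotientGroup.map_mk'_self, aug_bot, Submodule.mul_bot, Submodule.mem_bot] at hv'
    rw [map_add, hv', add_zero, ← Submodule.map_pow]
    exact ⟨u, hu, rfl⟩

end Pool.Agent.P.MP_257122_al.K
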