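import Pool.Agent.P.MP_257122_al.KPU

/-!
# The semidirect trick: one step

PLAN.  Let `B = aug R N ⊔ span s`, `b = zs R H₀ * B`, `Λ j = zs R H₀ * b ^ j`, `φ x = t⁻¹ x t` (an algebra
automorphism of `R[G]`).  For `g, h ∈ H₁` we have `g h - h g ∈ of (h g) * aug R N`; so `b * zs R H₀ ≤ b`,
`φ ^ (±1)` preserve `zs R H₀`, `aug R N`, `b`, `Λ j`, and `φ z - z ∈ zs R H₀ * aug R N` for `z ∈ zs R H₀`.
(1) `w = lp l * (X - 1)` satisfies `pev φ w b ≤ b * b`: the map `n ↦ n - 1` is multiplicative to additive modulo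
`aug N ^ 2`, so `pev φ (lp l) (n - 1) ≡ pv t⁻¹ n l - 1 ≡ 0`; and `φ (z y) ≡ z φ y` modulo `b * b` for `z ∈ zs R H₀`,
`y ∈ b`.  (2) By `Conv.apply` (in the ring of endomorphisms of `R[G] ⊗ R[G]`, or of the bilinear maps
`R[G] → R[G] → R[G]`, applied to the multiplication) `pev φ (g j) (Λ j) ≤ Λ (j + 1)`, hence the same for `f`,
`j ≤ k`.  (3) Let `π : R[G] → R[G]` be linear with `π (of (t ^ a * h)) = of h` for `h ∈ H₀` (and `0` outside `H₁`).
For `x ∈ zs R H₁`: `π (x * of h) = π x * of h`, `π (x * of t ^ a) = φ ^ a (π x)`.  So if `π x ∈ Λ j`, `x ∈ zs R H₁`, `j ≤ k` and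
`y ∈ b₁ = zs R H₁ * (B ⊔ span {f t})` then `π (x * y) ∈ Λ (j + 1)`.  Start with `x = 1`; `π` is the identity on
`zs R H₀`; finally `Λ (k + 1) ≤ b ^ (k + 1)`.
-/

namespace Pool.Agent.P.MP_257122_al.K

open Polynomial MonoidAlgebra C
open scoped commutatorElement Matrix

namespace Step1

section pev
variable {R M : Type} [CommRing R] [AddCommGroup M] [Module R M]

theorem pev_mono_apply (φ : Module.End R M) (n : ℕ) (a : ℤ) (x : M) :
    pev φ (monomial n a) x = a • (φ ^ n) x := by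
  rw [aeval_monomial, Module.End.mul_apply, eq_intCast, Module.End.intCast_apply]

theorem pow_mem' {φ : Module.End R M} {P : Submodule R M} (h : ∀ x ∈ P, φ x ∈ P) (n : ℕ) :
    ∀ x ∈ P, (φ ^ n) x ∈ P := by
  induction n with
  | zero => exact fun x hx => hx
  | succ n ih => exact fun x hx => by rw [pow_succ', Module.End.mul_apply]; exact h _ (ih x hx)

theorem pev_mem {φ : Module.End R M} {P : Submodule R M} (h : ∀ x ∈ P, φ x ∈ P) (f : ℤ[X]) :
    ∀ x ∈ P, pev φ f x ∈ P := by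
  intro x hx
  induction f using Polynomial.induction_on' with
  | add p q hp hq => rw [map_add, LinearMap.add_apply]; exact add_mem hp hq
  | monomial n a => rw [pev_mono_apply]; exact zsmul_mem (pow_mem' h n x hx) a

theorem pev_inter {M' : Type} [AddCommGroup M'] [Module R M'] (φ : Module.End R M)
    (y : Module.End R M') (Ψ : Module.End R M →+ M') (h : ∀ ψ, y (Ψ ψ) = Ψ (ψ * φ)) (f : ℤ[X]) :
    pev y f (Ψ 1) = Ψ (pev φ f) := by
  have hp : ∀ n : ℕ, (y ^ n) (Ψ 1) = Ψ (φ ^ n) := by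
    intro n
    induction n with
    | zero => rfl
    | succ n ih => rw [pow_succ', Module.End.mul_apply, ih, h, pow_succ]
  induction f using Polynomial.induction_on' with
  | add p q hp hq => rw [map_add, map_add, map_add, LinearMap.add_apply, hp, hq]
  | monomial n a =>
    rw [pev_mono_apply, hp, ← map_zsmul, aeval_monomial, eq_intCast, zsmul_eq_mul]

theorem clos_mem {x y a : Module.End R M} {W : Submodule R M} (hx : ∀ v ∈ W, x v ∈ W)
    (hy : ∀ v ∈ W, y v ∈ W) (ha : a ∈ Subring.closure {x, y}) : ∀ v ∈ W, a v ∈ W := by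
  induction ha using Subring.closure_induction with
  | mem z hz => rcases hz with rfl | rfl <;> assumption
  | zero => exact fun v _ => W.zero_mem
  | one => exact fun v hv => hv
  | add a b _ _ ha hb => exact fun v hv => add_mem (ha v hv) (hb v hv)
  | neg a _ ha => exact fun v hv => neg_mem (ha v hv)
  | mul a b _ _ ha hb => exact fun v hv => ha _ (hb v hv)

end pev

theorem conv_step {R A : Type} [CommRing R] [Ring A] [Algebra R A] {φ : Module.End R A}
    (hφ : ∀ u v, φ (u * v) = φ u * φ v) {P Q W : Submodule R A} (hP : ∀ x ∈ P, φ x ∈ P)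
    (hQ : ∀ x ∈ Q, φ x ∈ Q) {f g h : ℤ[X]} (hc : Conv f g h)
    (hf : ∀ u ∈ P, ∀ v ∈ Q, pev φ f u * v ∈ W) (hg : ∀ u ∈ P, ∀ v ∈ Q, u * pev φ g v ∈ W) :
    ∀ x ∈ P * Q, pev φ h x ∈ W := by
  let x : Module.End R (A → A → A) :=
    { toFun := fun β u v => β (φ u) v, map_add' := fun _ _ => rfl, map_smul' := fun _ _ => rfl }
  let y : Module.End R (A → A → A) :=
    { toFun := fun β u v => β u (φ v), map_add' := fun _ _ => rfl, map_smul' := fun _ _ => rfl }
  let U : Submodule R (A → A → A) :=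
    { carrier := {β | ∀ u ∈ P, ∀ v ∈ Q, β u v ∈ W}
      zero_mem' := fun _ _ _ _ => W.zero_mem
      add_mem' := fun ha hb u hu v hv => add_mem (ha u hu v hv) (hb u hu v hv)
      smul_mem' := fun r _ ha u hu v hv => W.smul_mem r (ha u hu v hv) }
  have hx : ∀ β ∈ U, x β ∈ U := fun β hβ u hu v hv => hβ _ (hP u hu) v hv
  have hy : ∀ β ∈ U, y β ∈ U := fun β hβ u hu v hv => hβ u hu _ (hQ v hv)
  obtain ⟨a, ha, b, hb, e⟩ := hc.apply (x := x) (y := y) rfl
  let Ψ₁ : Module.End R A →+ (A → A → A) := AddMonoidHom.mk' (fun ψ u v => ψ u * v)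
    fun _ _ => funext fun _ => funext fun _ => add_mul _ _ _
  let Ψ₂ : Module.End R A →+ (A → A → A) := AddMonoidHom.mk' (fun ψ u v => u * ψ v)
    fun _ _ => funext fun _ => funext fun _ => mul_add _ _ _
  let Ψ₃ : Module.End R A →+ (A → A → A) := AddMonoidHom.mk' (fun ψ u v => ψ (u * v))
    fun _ _ => rfl
  have e1 := pev_inter φ x Ψ₁ (fun _ => rfl) f
  have e2 := pev_inter φ y Ψ₂ (fun _ => rfl) g
  have e3 := pev_inter φ (x * y) Ψ₃ (fun ψ => by
    funext u v
    change ψ (φ u * φ v) = ψ (φ (u * v))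
    rw [hφ]) h
  have m1 : Ψ₁ 1 = Ψ₃ 1 := funext fun _ => funext fun _ => rfl
  have m2 : Ψ₂ 1 = Ψ₃ 1 := funext fun _ => funext fun _ => rfl
  have u1 : Ψ₁ (pev φ f) ∈ U := fun u hu v hv => hf u hu v hv
  have u2 : Ψ₂ (pev φ g) ∈ U := fun u hu v hv => hg u hu v hv
  rw [← e1, m1] at u1
  rw [← e2, m2] at u2
  have hU : Ψ₃ (pev φ h) ∈ U := by
    rw [← e3, e, LinearMap.add_apply, Module.End.mul_apply, Module.End.mul_apply]
    exact add_mem (clos_mem hx hy ha _ u1) (clos_mem hx hy hb _ u2)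
  intro z hz
  refine Submodule.mul_induction_on hz (fun u hu v hv => hU u hu v hv) fun u v hu hv => ?_
  rw [map_add]; exact add_mem hu hv

variable {R G : Type} [CommRing R] [Group G]

/-- Conjugation by `u⁻¹`. -/
noncomputable def cj (R : Type) [CommRing R] (u : G) : Module.End R (MonoidAlgebra R G) :=
  (gmap R (MulAut.conj u⁻¹).toMonoidHom).toLinearMap

theorem cj_of (u g : G) : cj R u (of R G g) = of R G (u⁻¹ * g * u) := by
  rw [cj, AlgHom.toLinearMap_apply, gmap_of]; simp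

theorem cj_one (u : G) : cj R u 1 = 1 := map_one (gmap R _)

theorem cj_mul (u : G) (x y : MonoidAlgebra R G) : cj R u (x * y) = cj R u x * cj R u y :=
  map_mul (gmap R _) x y

theorem cj_mul_mem {u : G} {P Q W : Submodule R (MonoidAlgebra R G)}
    (h : ∀ x ∈ P, ∀ y ∈ Q, cj R u x * cj R u y ∈ W) : ∀ z ∈ P * Q, cj R u z ∈ W := fun z hz =>
  Submodule.mul_induction_on hz (fun x hx y hy => cj_mul u x y ▸ h x hx y hy)
    fun x y hx hy => by rw [map_add]; exact add_mem hx hy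

theorem zs_ind {H : Subgroup G} {M : Type} [AddCommGroup M] [Module R M]
    (F : MonoidAlgebra R G →ₗ[R] M) {W : Submodule R M} (h : ∀ g ∈ H, F (of R G g) ∈ W) :
    ∀ x ∈ zs R H, F x ∈ W := fun _ hx =>
  (Submodule.span_le.2 (fun _ ⟨g, hg, e⟩ => e ▸ h g hg) : zs R H ≤ W.comap F) hx

theorem zs_ext {H : Subgroup G} {M : Type} [AddCommGroup M] [Module R M]
    (F F' : MonoidAlgebra R G →ₗ[R] M) (h : ∀ g ∈ H, F (of R G g) = F' (of R G g)) :
    ∀ x ∈ zs R H, F x = F' x := fun x hx =>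
  sub_eq_zero.1 ((Submodule.mem_bot R).1 (zs_ind (F - F') (W := ⊥)
    (fun g hg => (Submodule.mem_bot R).2 (sub_eq_zero.2 (h g hg))) x hx))

theorem cj_aug {N : Subgroup G} [hN : N.Normal] (u : G) : ∀ x ∈ aug R N, cj R u x ∈ aug R N :=
  fun _ hx => (Submodule.span_le.2 (fun _ ⟨n, hn, e⟩ => e ▸ (by
    rw [SetLike.mem_coe, Submodule.mem_comap, map_sub, cj_one, cj_of]
    exact sub_mem_aug (hN.conj_mem' n hn u))) : aug R N ≤ (aug R N).comap (cj R u)) hx

theorem mul_sub_mem {N : Subgroup G} {a b : G} (ha : a ∈ N) (hb : b ∈ N) :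
    (of R G (a * b) - 1) - ((of R G a - 1) + (of R G b - 1)) ∈ aug R N * aug R N := by
  have : (of R G (a * b) - 1) - ((of R G a - 1) + (of R G b - 1)) =
      (of R G a - 1) * (of R G b - 1) := by rw [map_mul]; noncomm_ring
  exact this ▸ Submodule.mul_mem_mul (sub_mem_aug ha) (sub_mem_aug hb)

/-- The homomorphism `n ↦ n - 1`. -/
noncomputable def dl (R : Type) [CommRing R] (N : Subgroup G) :
    N →* Multiplicative (MonoidAlgebra R G ⧸ aug R N * aug R N) :=
  MonoidHom.mk' (fun n => Multiplicative.ofAdd ((aug R N * aug R N).mkQ (of R G n - 1)))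
    fun a b => by
      rw [← ofAdd_add, ← map_add]
      exact congrArg _ ((Submodule.Quotient.eq _).2 (mul_sub_mem a.2 b.2))

theorem zpow_sub_mem {N : Subgroup G} {n : G} (hn : n ∈ N) (a : ℤ) :
    (of R G (n ^ a) - 1) - a • (of R G n - 1) ∈ aug R N * aug R N := by
  have := congrArg Multiplicative.toAdd (map_zpow (dl R N) ⟨n, hn⟩ a)
  rw [toAdd_zpow] at this
  refine (Submodule.Quotient.eq _).1 ?_
  exact this.trans (map_zsmul (aug R N * aug R N).mkQ a _).symm

theorem comm_sub_mem {N : Subgroup G} {n : G} (hn : n ∈ ⁅N, N⁆) :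
    of R G n - 1 ∈ aug R N * aug R N := by
  have h1 : ⁅N, N⁆ ≤ (dl R N).ker.map N.subtype := Subgroup.commutator_le.2 fun a ha b hb =>
    ⟨⁅(⟨a, ha⟩ : N), (⟨b, hb⟩ : N)⁆, by
      rw [SetLike.mem_coe, MonoidHom.mem_ker, map_commutatorElement,
        commutatorElement_eq_one_iff_mul_comm, mul_comm], rfl⟩
  obtain ⟨m, hm, rfl⟩ := h1 hn
  exact (Submodule.Quotient.mk_eq_zero _).1 (congrArg Multiplicative.toAdd hm)

theorem pev_cons {M : Type} [AddCommGroup M] [Module R M] (φ : Module.End R M) (a : ℤ)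
    (l : List ℤ) (x : M) : pev φ (lp (a :: l)) x = a • x + φ (pev φ (lp l) x) := by
  change pev φ (Polynomial.C a + X * lp l) x = _
  rw [map_add, map_mul, aeval_X, aeval_C, LinearMap.add_apply, Module.End.mul_apply, eq_intCast,
    Module.End.intCast_apply]

theorem pev_pv {N : Subgroup G} [hN : N.Normal] (t : G) {n : G} (hn : n ∈ N) (l : List ℤ) :
    (of R G (pv t⁻¹ n l) - 1) - pev (cj R t) (lp l) (of R G n - 1) ∈ aug R N * aug R N := by
  induction l with
  | nil =>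
    change (of R G 1 - 1) - pev (cj R t) 0 (of R G n - 1) ∈ _
    rw [map_one, map_zero, LinearMap.zero_apply, sub_self, sub_self]; exact zero_mem _
  | cons a l ih =>
    have h1 := cj_mul_mem (fun x hx y hy => Submodule.mul_mem_mul (cj_aug t x hx) (cj_aug t y hy))
      _ ih
    have h2 := mul_sub_mem (R := R) (N.zpow_mem hn a) (hN.conj_mem' _ (pv_mem t⁻¹ hn l) t)
    have h3 := add_mem (add_mem h1 h2) (zpow_sub_mem (R := R) hn a)
    have e : pv t⁻¹ n (a :: l) = n ^ a * (t⁻¹ * pv t⁻¹ n l * t) := by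
      change n ^ a * (t⁻¹ * pv t⁻¹ n l * t⁻¹⁻¹) = _
      rw [inv_inv]
    rw [map_sub, map_sub, cj_one, cj_of] at h3
    rw [pev_cons, e]
    exact (congrArg (· ∈ _) (by abel)).mp h3

theorem pev_aug {N : Subgroup G} [N.Normal] {t : G} {l : List ℤ} (hK : Kill t N ⊥ l) :
    ∀ x ∈ aug R N, pev (cj R t) (lp l) x ∈ aug R N * aug R N :=
  fun _ hx => (Submodule.span_le.2 (fun _ ⟨n, hn, e⟩ => e ▸ (by
    have h1 := hK n hn
    rw [sup_bot_eq] at h1
    have := sub_mem (comm_sub_mem (R := R) h1) (pev_pv t hn l)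
    rwa [sub_sub_cancel] at this)) :
      aug R N ≤ (aug R N * aug R N).comap (pev (cj R t) (lp l))) hx

theorem cj_sub {H₀ H₁ N : Subgroup G} (h1 : H₀ ≤ H₁) (hc : ⁅H₁, H₁⁆ ≤ N) {u : G} (hu : u ∈ H₁) :
    ∀ z ∈ zs R H₀, cj R u z - z ∈ zs R H₀ * aug R N :=
  zs_ind (cj R u - LinearMap.id) fun g hg => by
    have e : of R G (u⁻¹ * g * u) - of R G g = of R G g * (of R G ⁅g⁻¹, u⁻¹⁆ - 1) := by
      rw [mul_sub, ← map_mul, mul_one, commutatorElement_def]; congr 2; group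
    rw [LinearMap.sub_apply, cj_of, LinearMap.id_apply, e]
    exact Submodule.mul_mem_mul (of_mem_zs hg) (sub_mem_aug (hc
      (Subgroup.commutator_mem_commutator (inv_mem (h1 hg)) (inv_mem hu))))

theorem of_mul_cj (u : G) (z : MonoidAlgebra R G) : z * of R G u = of R G u * cj R u z :=
  zs_ext (H := ⊤) (LinearMap.mulRight R (of R G u)) (LinearMap.mulLeft R (of R G u) ∘ₗ cj R u)
    (fun g _ => by
      rw [LinearMap.mulRight_apply, LinearMap.comp_apply, LinearMap.mulLeft_apply, cj_of,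
        ← map_mul, ← map_mul]; congr 1; group) z (zs_top (R := R) (G := G) ▸ trivial)

/-- The filtration `Z * b ^ j`. -/
noncomputable def La (Z b : Submodule R (MonoidAlgebra R G)) : ℕ → Submodule R (MonoidAlgebra R G)
  | 0 => Z
  | j + 1 => La Z b j * b

theorem exists_pi {H₀ H₁ : Subgroup G} {t : G} (h1 : H₀ ≤ H₁) (ht : t ∈ H₁)
    (hg : ∀ g ∈ H₁, ∃ a : ℤ, (t ^ a)⁻¹ * g ∈ H₀) (hi : ∀ a : ℤ, t ^ a ∈ H₀ → a = 0) :
    ∃ π : MonoidAlgebra R G →ₗ[R] MonoidAlgebra R G,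
      ∀ (a : ℤ), ∀ h ∈ H₀, π (of R G (t ^ a * h)) = of R G h := by
  classical
  choose! c hc using hg
  refine ⟨mapDomainLinearMap R R fun g => (t ^ c g)⁻¹ * g, fun a h hh => ?_⟩
  have h2 := H₀.mul_mem (hc _ (H₁.mul_mem (H₁.zpow_mem ht a) (h1 hh))) (H₀.inv_mem hh)
  rw [mul_assoc, mul_inv_cancel_right, ← zpow_neg, ← zpow_add] at h2
  have h3 : c (t ^ a * h) = a := by have := hi _ h2; omega
  rw [of_apply, mapDomainLinearMap_single, h3, inv_mul_cancel_left, of_apply]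

end Step1

open Step1 in
theorem step_one {R G : Type} [CommRing R] [Group G] {H₀ H₁ N : Subgroup G} [N.Normal] {t : G}
    (h0 : N ≤ H₀) (h1 : H₀ ≤ H₁) (ht : t ∈ H₁) (hc : ⁅H₁, H₁⁆ ≤ N)
    (hg : ∀ g ∈ H₁, ∃ a : ℤ, (t ^ a)⁻¹ * g ∈ H₀) (hi : ∀ a : ℤ, t ^ a ∈ H₀ → a = 0)
    {s : Submodule R (MonoidAlgebra R G)} (hs : s ≤ zs R H₀) {l : List ℤ} {k : ℕ} {f : ℤ[X]}
    (hK : Kill t N ⊥ l) (hC : Chain (lp l) k f) {x : MonoidAlgebra R G}
    (hx : x ∈ (zs R H₁ * (aug R N ⊔ s ⊔ Submodule.span R {pev (of R G t) f})) ^ (k + 1))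
    (hx0 : x ∈ zs R H₀) : x ∈ (zs R H₀ * (aug R N ⊔ s)) ^ (k + 1) := by
  set Z := zs R H₀ with hZ
  set I := aug R N with hI
  set b := Z * (I ⊔ s) with hb
  have hZZ : Z * Z ≤ Z := zs_mul_zs
  have hIZ : I ≤ Z := aug_le_zs.trans (zs_mono h0)
  have hBZ : I ⊔ s ≤ Z := sup_le hIZ hs
  have hbZ : b ≤ Z := (mul_le_mul_right hBZ _).trans hZZ
  have hBb : I ⊔ s ≤ b := fun y hy => one_mul y ▸ Submodule.mul_mem_mul one_mem_zs hy
  have hZI : Z * I ≤ b := mul_le_mul_right le_sup_left _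
  have hZb : Z * b ≤ b := by rw [hb, ← mul_assoc]; exact mul_le_mul_left hZZ _
  have hcs : ∀ u ∈ H₁, ∀ z ∈ Z, cj R u z - z ∈ Z * I := fun u hu => cj_sub h1 hc hu
  have hcZ : ∀ u ∈ H₁, ∀ z ∈ Z, cj R u z ∈ Z := fun u hu z hz =>
    sub_add_cancel (cj R u z) z ▸ add_mem (hbZ (hZI (hcs u hu z hz))) hz
  have hcb : ∀ u ∈ H₁, ∀ z ∈ b, cj R u z ∈ b := fun u hu z hz =>
    sub_add_cancel (cj R u z) z ▸ add_mem (hZI (hcs u hu z (hbZ hz))) hz
  have hbZ' : b * Z ≤ b := Submodule.mul_le.2 fun y hy =>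
    zs_ind (LinearMap.mulLeft R y) fun g hg => by
      rw [LinearMap.mulLeft_apply, of_mul_cj]
      exact hZb (Submodule.mul_mem_mul (of_mem_zs hg) (hcb g (h1 hg) y hy))
  have hcL : ∀ j, ∀ u ∈ H₁, ∀ z ∈ La Z b j, cj R u z ∈ La Z b j := by
    intro j u hu
    induction j with
    | zero => exact hcZ u hu
    | succ j ih =>
      exact cj_mul_mem fun x hx y hy => Submodule.mul_mem_mul (ih x hx) (hcb u hu y hy)
  have hLZ : ∀ j, La Z b j * Z ≤ La Z b j := by
    intro j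
    cases j with
    | zero => exact hZZ
    | succ j => rw [La, mul_assoc]; exact mul_le_mul_right hbZ' _
  have hLb : ∀ j, La Z b (j + 1) ≤ b ^ (j + 1) := by
    intro j
    induction j with
    | zero => rw [zero_add, pow_one]; exact hZb
    | succ j ih => rw [pow_succ]; exact mul_le_mul_left ih _
  have hsw : ∀ z ∈ Z, ∀ y ∈ b, ∀ l : List ℤ,
      pev (cj R t) (lp l) (z * y) - z * pev (cj R t) (lp l) y ∈ b * b := by
    intro z hz y hy l
    induction l with
    | nil =>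
      change pev (cj R t) 0 (z * y) - z * pev (cj R t) 0 y ∈ _
      rw [map_zero, LinearMap.zero_apply, LinearMap.zero_apply, mul_zero, sub_self]
      exact zero_mem _
    | cons a l ih =>
      have h2 := cj_mul_mem (fun x hx y hy =>
        Submodule.mul_mem_mul (hcb t ht x hx) (hcb t ht y hy)) _ ih
      have h3 := add_mem h2 (Submodule.mul_mem_mul (hZI (hcs t ht z hz))
        (hcb t ht _ (pev_mem (hcb t ht) (lp l) y hy)))
      rw [map_sub, cj_mul, sub_mul] at h3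
      rw [pev_cons, pev_cons, mul_add, mul_smul_comm]
      exact (congrArg (· ∈ _) (by abel)).mp h3
  have hX : ∀ z, pev (cj R t) (X - 1) z = cj R t z - z := fun z => by
    rw [map_sub, aeval_X, map_one]; rfl
  have hw : ∀ y ∈ b, pev (cj R t) (lp l * (X - 1)) y ∈ b * b := by
    intro y hy
    rw [map_mul, Module.End.mul_apply, hX]
    refine Submodule.mul_induction_on (hcs t ht y (hbZ hy)) (fun z hz n hn => ?_)
      fun u v hu hv => by rw [map_add]; exact add_mem hu hv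
    have h2 : Z * (I * I) ≤ b * b := by
      rw [← mul_assoc]; exact mul_le_mul' hZI (le_sup_left.trans hBb)
    exact sub_add_cancel (pev (cj R t) (lp l) (z * n)) _ ▸ add_mem
      (hsw z hz n (hBb (Submodule.mem_sup_left hn)) l)
      (h2 (Submodule.mul_mem_mul hz (pev_aug hK n hn)))
  obtain ⟨g, hg0, hgs, hgf⟩ := hC
  have hgL : ∀ j : Fin (k + 1), ∀ z ∈ La Z b j, pev (cj R t) (g j) z ∈ La Z b (j + 1) := by
    intro j
    induction j using Fin.induction with
    | zero =>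
      intro z hz
      rw [hg0, hX]
      exact mul_le_mul_right (le_sup_left.trans hBb) Z (hcs t ht z hz)
    | succ j ih =>
      refine conv_step (cj_mul t) (hcL j t ht) (hcb t ht) (hgs j)
        (fun u hu v hv => Submodule.mul_mem_mul (ih u hu) hv) fun u hu v hv => ?_
      change _ ∈ La Z b j * b * b
      rw [mul_assoc]
      exact Submodule.mul_mem_mul hu (hw v hv)
  have hfL : ∀ j ≤ k, ∀ z ∈ La Z b j, pev (cj R t) f z ∈ La Z b (j + 1) := by
    intro j hj z hz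
    obtain ⟨c, e⟩ := hgf ⟨j, Nat.lt_succ_of_le hj⟩
    rw [e, map_mul, Module.End.mul_apply]
    exact hgL ⟨j, Nat.lt_succ_of_le hj⟩ _ (pev_mem (hcL j t ht) c z hz)
  obtain ⟨π, hπ⟩ := exists_pi (R := R) h1 ht hg hi
  have hdec : ∀ g ∈ H₁, ∃ a : ℤ, ∃ h ∈ H₀, g = t ^ a * h := fun g hg' =>
    (hg g hg').imp fun a ha => ⟨_, ha, (mul_inv_cancel_left _ _).symm⟩
  have hπZ : ∀ x ∈ zs R H₁, ∀ z ∈ Z, π (x * z) = π x * z := fun x hx =>
    zs_ext (π ∘ₗ LinearMap.mulLeft R x) (LinearMap.mulLeft R (π x)) fun h hh =>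
      zs_ext (π ∘ₗ LinearMap.mulRight R (of R G h)) (LinearMap.mulRight R (of R G h) ∘ₗ π)
        (fun g hg' => by
          obtain ⟨a, h', hh', rfl⟩ := hdec g hg'
          change π (of R G _ * of R G h) = π _ * of R G h
          rw [← map_mul, mul_assoc, hπ a _ (H₀.mul_mem hh' hh), hπ a _ hh', map_mul]) x hx
  have hπt : ∀ c : ℤ, ∀ x ∈ zs R H₁, π (x * of R G (t ^ c)) = cj R (t ^ c) (π x) := fun c =>
    zs_ext (π ∘ₗ LinearMap.mulRight R (of R G (t ^ c))) (cj R (t ^ c) ∘ₗ π) fun g hg' => by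
      obtain ⟨a, h', hh', rfl⟩ := hdec g hg'
      change π (of R G _ * of R G _) = cj R _ (π _)
      have e : t ^ a * h' * t ^ c = t ^ (a + c) * ((t ^ c)⁻¹ * h' * t ^ c) := by group
      have e' : (t ^ c)⁻¹ * h' * t ^ c = h' * ⁅h'⁻¹, (t ^ c)⁻¹⁆ := by
        rw [commutatorElement_def]; group
      rw [← map_mul, hπ a _ hh', cj_of, e, hπ]
      exact e' ▸ H₀.mul_mem hh' (h0 (hc (Subgroup.commutator_mem_commutator (inv_mem (h1 hh'))
        (inv_mem (H₁.zpow_mem ht c)))))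
  have htn : ∀ n : ℕ, of R G t ^ n ∈ zs R H₁ := fun n =>
    map_pow (of R G) t n ▸ of_mem_zs (H₁.pow_mem ht n)
  have hπn : ∀ x ∈ zs R H₁, ∀ n : ℕ, π (x * of R G t ^ n) = (cj R t ^ n) (π x) := by
    intro x hx n
    induction n with
    | zero => rw [pow_zero, mul_one]; rfl
    | succ n ih =>
      have := hπt 1 _ (zs_mul_zs (Submodule.mul_mem_mul hx (htn n)))
      rw [zpow_one] at this
      rw [pow_succ, ← mul_assoc, this, ih, pow_succ', Module.End.mul_apply]
  have hπf : ∀ x ∈ zs R H₁, ∀ f : ℤ[X], pev (of R G t) f ∈ zs R H₁ ∧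
      π (x * pev (of R G t) f) = pev (cj R t) f (π x) := by
    intro x hx f
    induction f using Polynomial.induction_on' with
    | add p q hp hq =>
      rw [map_add, map_add, mul_add, map_add, LinearMap.add_apply, hp.2, hq.2]
      exact ⟨add_mem hp.1 hq.1, rfl⟩
    | monomial n a =>
      rw [pev_mono_apply, aeval_monomial, eq_intCast, ← zsmul_eq_mul, mul_smul_comm, map_zsmul,
        hπn x hx]
      exact ⟨zsmul_mem (htn n) a, rfl⟩
  have hπ0 : ∀ z ∈ Z, π z = z := zs_ext π LinearMap.id fun h hh => by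
    have := hπ 0 h hh
    rwa [zpow_zero, one_mul] at this
  have key : ∀ j ≤ k + 1, (zs R H₁ * (I ⊔ s ⊔ Submodule.span R {pev (of R G t) f})) ^ j ≤
      zs R H₁ ⊓ (La Z b j).comap π := by
    intro j hj
    induction j with
    | zero =>
      rw [pow_zero, Submodule.one_le]
      exact ⟨one_mem_zs, (congrArg (· ∈ Z) (hπ0 1 one_mem_zs)).mpr one_mem_zs⟩
    | succ j ih =>
      rw [pow_succ]
      refine (mul_le_mul_left (ih (by omega)) _).trans ?_
      rw [← mul_assoc]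
      have s1 : (zs R H₁ ⊓ (La Z b j).comap π) * zs R H₁ ≤ zs R H₁ ⊓ (La Z b j).comap π :=
        Submodule.mul_le.2 fun y hy => zs_ind (LinearMap.mulLeft R y) fun g hg' => by
          refine ⟨zs_mul_zs (Submodule.mul_mem_mul hy.1 (of_mem_zs hg')), ?_⟩
          obtain ⟨a, h, hh, rfl⟩ := hdec g hg'
          change π (y * _) ∈ La Z b j
          rw [map_mul (of R G), ← mul_assoc, hπZ _ (zs_mul_zs (Submodule.mul_mem_mul hy.1
            (of_mem_zs (H₁.zpow_mem ht a)))) _ (of_mem_zs hh), hπt a y hy.1]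
          exact hLZ j (Submodule.mul_mem_mul (hcL j _ (H₁.zpow_mem ht a) _ hy.2) (of_mem_zs hh))
      refine (mul_le_mul_left s1 _).trans ?_
      rw [Submodule.mul_sup]
      refine sup_le (Submodule.mul_le.2 fun y hy z hz => ?_) (Submodule.mul_le.2 fun y hy z hz => ?_)
      · refine ⟨zs_mul_zs (Submodule.mul_mem_mul hy.1 (zs_mono h1 (hBZ hz))), ?_⟩
        change π (y * z) ∈ La Z b j * b
        rw [hπZ y hy.1 z (hBZ hz)]
        exact Submodule.mul_mem_mul hy.2 (hBb hz)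
      · obtain ⟨r, rfl⟩ := Submodule.mem_span_singleton.1 hz
        rw [mul_smul_comm]
        refine Submodule.smul_mem _ r
          ⟨zs_mul_zs (Submodule.mul_mem_mul hy.1 (hπf y hy.1 f).1), ?_⟩
        change π (y * _) ∈ La Z b (j + 1)
        rw [(hπf y hy.1 f).2]
        exact hfL j (by omega) _ hy.2
  exact hLb k (hπ0 x hx0 ▸ (key (k + 1) le_rfl hx).2)

end Pool.Agent.P.MP_257122_al.K
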