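import Pool.Agent.P.MP_257122_al.LAlgB

/-!
# Computing with algebraic real and `p`-adic numbers

PLAN.  Prove everything once for a family `F` of complete fields with dense rationals and
`NrmF F`, with the representation `repAlg` (namespace `LAlgAux`), then specialise.
`Good` is r.e. (it is a system of rational inequalities).  Ring operations act on the formal
lists.  `x = 0` for `x = algVal l`: there are a good `β = (f, a, r)` and polynomials `g_t`, one for
each atom `t = (f_t, a_t, r_t)` of `l` (use `List.Forall₂` or a list of pairs), with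
`f ∣ f_t.comp g_t` (a quotient is guessed), `‖g_t(a) - a_t‖ + L r ≤ r_t` for a rational Lipschitz
bound `L` of `g_t` on the ball (or: the Taylor coefficients of `g_t` at `a`), and
`f ∣ ∑ q ∏ g_t`.  Completeness: primitive element theorem, `f` the minimal polynomial,
`exists_good`.  `‖x‖ < q`: there is a good `β` with `x = root β` and `‖a‖ + r < q`; similarly
`q < ‖x‖`, and `x ≠ 0` iff `∃ q > 0, q < ‖x‖`.  Inverses by search.  Linear independence of
the powers of `x`: `x` is a root of a nonzero rational polynomial; `1, …, x^(k-1)` are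
independent iff the minimal polynomial has degree `≥ k`; scale `x` by a positive integer `N` so
that `N x` is a root of a monic integer polynomial `f`; the minimal polynomial of `N x` is a
monic integer divisor of `f` (Gauss) whose coefficients are bounded by
`(2 (1 + ∑ |coeff f|)) ^ deg f`; so it suffices that no monic integer polynomial of degree
`< k` with coefficients in that box vanishes at `N x` (`CS.allBox`).
-/

namespace Pool.Agent.P.MP_257122_al

variable {A : Type} [Rep A]

namespace LAlgAux

open FPropAux

omit [Rep A] in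
theorem raReal : RA (fun _ : A => ℝ) := fun _ _ _ => Iff.rfl

omit [Rep A] in
theorem raPadic {p : A → Nat.Primes} : RA (fun a => Qp (p a)) := fun _ _ _ => Iff.rfl

theorem famReal : Fam (fun _ : A => ℝ) (fun _ q => |q|) :=
  ⟨raReal, CS.lam (CS.ratAbs s2), fun _ q => by rw [Real.norm_eq_abs, Rat.cast_abs],
    fun _ => Rat.denseRange_cast⟩

theorem cs_val {p : A → Nat.Primes} {n : A → ℕ} (hp : CS p) (hn : CS n) :
    CS (fun a => padicValNat (p a).1 (n a)) := by
  have key : CS (fun u : Nat.Primes × ℕ => padicValNat u.1.1 u.2) := by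
    refine MV.to_cs (MV.search (Q' := fun u k => (u.2 = 0 ∧ k = 0) ∨
      (u.1.1 ^ k ∣ u.2 ∧ ¬ u.1.1 ^ (k + 1) ∣ u.2)) Enum.nat ?_ ?_ ?_)
    · aesop (config := { terminal := true, enableSimp := false, maxRuleApplications := 3000, maxRuleApplicationDepth := 70, assumptionTransparency := .reducible }) (rule_sets := [-default, -builtin, Restrict]) (erase CS.mapp, CS.mlam)
    · rintro ⟨p, n⟩ k (⟨h1, h2⟩ | ⟨h1, h2⟩)
      · dsimp only at h1 ⊢
        rw [h1, h2, padicValNat_zero_right]
      · dsimp only at h1 h2 ⊢
        have h0 : n ≠ 0 := fun h => h2 (h ▸ dvd_zero _)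
        rw [padicValNat_dvd_iff_le h0] at h1 h2
        omega
    · rintro ⟨p, n⟩ -
      by_cases h0 : n = 0
      · exact ⟨0, Or.inl ⟨h0, rfl⟩⟩
      · exact ⟨_, Or.inr ⟨pow_padicValNat_dvd, pow_succ_padicValNat_not_dvd h0⟩⟩
  exact key.comp (hp.pair hn)

theorem cs_padicNorm {p : A → Nat.Primes} {q : A → ℚ} (hp : CS p) (hq : CS q) :
    CS (fun a => padicNorm (p a).1 (q a)) := by
  have key : CS (fun u : Nat.Primes × ℚ => padicNorm u.1.1 u.2) := by
    unfold padicNorm padicValRat padicValInt
    aesop (config := { terminal := true, enableSimp := false, maxRuleApplications := 3000, maxRuleApplicationDepth := 70, assumptionTransparency := .reducible }) (rule_sets := [-default, -builtin, Restrict]) (erase CS.mapp, CS.mlam) (add safe 5 (by with_reducible apply cs_val))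
  exact key.comp (hp.pair hq)

theorem famPadic {p : A → Nat.Primes} (hp : CS p) :
    Fam (fun a => Qp (p a)) (fun a q => padicNorm (p a).1 q) :=
  ⟨raPadic, CS.lam (cs_padicNorm (hp.comp s1) s2), fun _ q => Padic.eq_padicNorm q,
    fun a => Padic.denseRange_ratCast (p a).1⟩

theorem realPos {x : A → ℝ} (hx : CS x) : CS (fun a => 0 < x a) := by
  refine CS.of_iff (CS.ex (P := fun a (q : ℚ) => ‖x a - q‖ < q) Enum.rat (famReal.normLt
    (CS.sub raReal.add raReal.neg (hx.comp s1) (raReal.ratCast s2)) s2)) fun a _ => ⟨?_, ?_⟩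
  · rintro ⟨q, hq⟩
    rw [Real.norm_eq_abs, abs_lt] at hq
    linarith [hq.1]
  · intro h
    obtain ⟨q, h1, h2⟩ := exists_rat_btwn (half_lt_self h)
    refine ⟨q, ?_⟩
    rw [Real.norm_eq_abs, abs_lt]
    constructor <;> linarith

theorem ltReal : LtF (fun _ : A => ℝ) :=
  (realPos (CS.sub raReal.add raReal.neg (CS.snd s2) (CS.fst s2))).of_iff fun _ _ => sub_pos

theorem leReal : LeF (fun _ : A => ℝ) :=
  (CS.or (CS.lt ltReal (CS.fst s2) (CS.snd s2)) (famReal.eq (CS.fst s2) (CS.snd s2))).of_iff
    fun _ _ => le_iff_lt_or_eq.symm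

end LAlgAux

open LAlgAux FPropAux

theorem coded_real_iff {x : ℝ} : Coded x ↔ IsAlgebraic ℚ x :=
  coded_alg_iff Rat.denseRange_cast
theorem coded_padic_iff {p : Nat.Primes} {x : Qp p} : Coded x ↔ IsAlgebraic ℚ x :=
  coded_alg_iff (Padic.denseRange_ratCast p.1)

@[aesop safe 50 apply (transparency := reducible) (rule_sets := [Restrict])]
theorem ZeroF.real : ZeroF (fun _ : A => ℝ) := raReal.zero
@[aesop safe 50 apply (transparency := reducible) (rule_sets := [Restrict])]
theorem OneF.real : OneF (fun _ : A => ℝ) := raReal.one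
@[aesop safe 50 apply (transparency := reducible) (rule_sets := [Restrict])]
theorem AddF.real : AddF (fun _ : A => ℝ) := raReal.add
@[aesop safe 50 apply (transparency := reducible) (rule_sets := [Restrict])]
theorem MulF.real : MulF (fun _ : A => ℝ) := raReal.mul
@[aesop safe 50 apply (transparency := reducible) (rule_sets := [Restrict])]
theorem NegF.real : NegF (fun _ : A => ℝ) := raReal.neg
@[aesop safe 50 apply (transparency := reducible) (rule_sets := [Restrict])]
theorem InvF.real : InvF (fun _ : A => ℝ) := famReal.inv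
@[aesop safe 50 apply (transparency := reducible) (rule_sets := [Restrict])]
theorem RatF.real : RatF (fun _ : A => ℝ) := raReal.rat
@[aesop safe 50 apply (transparency := reducible) (rule_sets := [Restrict])]
theorem Disc.real : Disc (fun _ : A => ℝ) := famReal.disc
@[aesop safe 50 apply (transparency := reducible) (rule_sets := [Restrict])]
theorem Haus.real : Haus (fun _ : A => ℝ) := famReal.haus
@[aesop safe 50 apply (transparency := reducible) (rule_sets := [Restrict])]
theorem LeF.real : LeF (fun _ : A => ℝ) := leReal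
@[aesop safe 50 apply (transparency := reducible) (rule_sets := [Restrict])]
theorem LtF.real : LtF (fun _ : A => ℝ) := ltReal
@[aesop safe 50 apply (transparency := reducible) (rule_sets := [Restrict])]
theorem EnumC.real : EnumC (fun _ : A => ℝ) := famReal.enumC
@[aesop safe 50 apply (transparency := reducible) (rule_sets := [Restrict])]
theorem CS.realAbs {x : A → ℝ} (h : CS x) : CS (fun a => |x a|) := by
  classical
  refine (CS.ite (P := fun a => 0 ≤ x a) (CS.le leReal raReal.zero h)
    (CS.notLe ltReal raReal.zero h) h (CS.neg raReal.neg h)).congr fun a _ => ?_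
  split_ifs with k
  · exact (abs_of_nonneg k).symm
  · exact (abs_of_neg (not_le.1 k)).symm

section padic
variable {p : A → Nat.Primes}
@[aesop safe 50 apply (transparency := reducible) (rule_sets := [Restrict])]
theorem ZeroF.padic : ZeroF (fun a => Qp (p a)) := raPadic.zero
@[aesop safe 50 apply (transparency := reducible) (rule_sets := [Restrict])]
theorem OneF.padic : OneF (fun a => Qp (p a)) := raPadic.one
@[aesop safe 50 apply (transparency := reducible) (rule_sets := [Restrict])]
theorem AddF.padic : AddF (fun a => Qp (p a)) := raPadic.add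
@[aesop safe 50 apply (transparency := reducible) (rule_sets := [Restrict])]
theorem MulF.padic : MulF (fun a => Qp (p a)) := raPadic.mul
@[aesop safe 50 apply (transparency := reducible) (rule_sets := [Restrict])]
theorem NegF.padic : NegF (fun a => Qp (p a)) := raPadic.neg
@[aesop safe 50 apply (transparency := reducible) (rule_sets := [Restrict])]
theorem RatF.padic : RatF (fun a => Qp (p a)) := raPadic.rat
@[aesop safe 50 apply (transparency := reducible) (rule_sets := [Restrict])]
theorem InvF.padic (hp : CS p) : InvF (fun a => Qp (p a)) := (famPadic hp).inv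
@[aesop safe 50 apply (transparency := reducible) (rule_sets := [Restrict])]
theorem Disc.padic (hp : CS p) : Disc (fun a => Qp (p a)) := (famPadic hp).disc
@[aesop safe 50 apply (transparency := reducible) (rule_sets := [Restrict])]
theorem Haus.padic (hp : CS p) : Haus (fun a => Qp (p a)) := (famPadic hp).haus
@[aesop safe 50 apply (transparency := reducible) (rule_sets := [Restrict])]
theorem EnumC.padic (hp : CS p) : EnumC (fun a => Qp (p a)) := (famPadic hp).enumC
@[aesop safe 50 apply (transparency := reducible) (rule_sets := [Restrict])]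
theorem CS.padicNorm {x : ∀ a, Qp (p a)} (hp : CS p) (h : CS x) : CS (fun a => ‖x a‖) := by
  have h' := famPadic (hp.comp (s1 (T := fun _ => ℚ)))
  have key : MV (fun a (q : ℚ) => ‖x a‖ = _root_.padicNorm (p a).1 q) := by
    refine MV.search (Q' := fun a q => x a = q ∨ ‖x a - q‖ < _root_.padicNorm (p a).1 q) Enum.rat
      (CS.or (h'.eq (h.comp s1) (h'.rep.ratCast s2))
        (h'.normLt (CS.sub h'.rep.add h'.rep.neg (h.comp s1) (h'.rep.ratCast s2))
          (cs_padicNorm (hp.comp s1) s2))) ?_ ?_
    · rintro a q (k | k)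
      · rw [k, Padic.eq_padicNorm]
      · rw [← Padic.eq_padicNorm] at k ⊢
        exact Padic.norm_eq_of_norm_sub_lt_right k
    · intro a _
      by_cases h0 : x a = 0
      · exact ⟨0, Or.inl (by rw [h0, Rat.cast_zero])⟩
      · obtain ⟨q, hq⟩ := (Padic.denseRange_ratCast (p a).1).exists_dist_lt (x a)
          (norm_pos_iff.2 h0)
        rw [dist_eq_norm] at hq
        refine ⟨q, Or.inr ?_⟩
        rwa [← Padic.eq_padicNorm, ← Padic.norm_eq_of_norm_sub_lt_left hq]
  refine MV.elim key ?_
  exact (raReal.ratCast (cs_padicNorm (hp.comp (CS.sfst (CS.val CS.id)))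
    (CS.ssnd (CS.val CS.id)))).congr fun u _ => u.2.symm
theorem CS.powIndep {x : ∀ a, Qp (p a)} {k : A → ℕ} (hp : CS p) (h : CS x) (hk : CS k) :
    CS (fun a => LinearIndependent ℚ (fun i : Fin (k a) => x a ^ (i : ℕ))) :=
  (famPadic hp).powIndep h hk
end padic

@[aesop safe 50 apply (transparency := reducible) (rule_sets := [Restrict])]
theorem CS.memZinv {m : A → ℕ} {q : A → ℚ} (hm : CS m) (hq : CS q) :
    CS (fun a => q a ∈ Zinv (m a)) := by
  have key : CS (fun u : ℕ × ℚ => ∀ p ≤ u.2.den, p.Prime → p ∣ u.2.den → p ∣ u.1) := by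
    aesop (config := { terminal := true, enableSimp := false, maxRuleApplications := 3000, maxRuleApplicationDepth := 70, assumptionTransparency := .reducible }) (rule_sets := [-default, -builtin, Restrict]) (erase CS.mapp, CS.mlam)
  exact (key.comp (hm.pair hq)).of_iff fun a _ =>
    ⟨fun k p hp hd => k p (Nat.le_of_dvd (q a).den_pos hd) hp hd, fun k p _ hp hd => k p hp hd⟩
@[aesop safe 50 apply (transparency := reducible) (rule_sets := [Restrict])]
theorem CS.notMemZinv {m : A → ℕ} {q : A → ℚ} (hm : CS m) (hq : CS q) :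
    CS (fun a => ¬ q a ∈ Zinv (m a)) := by
  have key : CS (fun u : ℕ × ℚ => ∃ p : ℕ, p.Prime ∧ p ∣ u.2.den ∧ ¬ p ∣ u.1) := by
    aesop (config := { terminal := true, enableSimp := false, maxRuleApplications := 3000, maxRuleApplicationDepth := 70, assumptionTransparency := .reducible }) (rule_sets := [-default, -builtin, Restrict]) (erase CS.mapp, CS.mlam)
  refine (key.comp (hm.pair hq)).of_iff fun a _ => ⟨fun ⟨p, hp, hd, k⟩ h => k (h p hp hd), fun k => ?_⟩
  by_contra h
  exact k fun p hp hd => by_contra fun k' => h ⟨p, hp, hd, k'⟩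
@[aesop safe 50 apply (transparency := reducible) (rule_sets := [Restrict])]
theorem CFin.primesDvd {m : A → {m : ℕ // 0 < m}} (hm : CS m) :
    CFin (fun a => {p : Nat.Primes // p.1 ∣ (m a).1}) := by
  have hm' := fun (B : Type) [Rep B] (g : B → A) => hm.comp (g := g)
  have key : CFin (fun a => {i : Fin ((m a).1 + 1) // i.1.Prime ∧ i.1 ∣ (m a).1}) := by
    aesop (config := { terminal := true, enableSimp := false, maxRuleApplications := 3000, maxRuleApplicationDepth := 70, assumptionTransparency := .reducible }) (rule_sets := [-default, -builtin, Restrict]) (erase CS.mapp, CS.mlam) (add safe 5 (by with_reducible apply hm'))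
  refine MV.bind key (MV.of_cs (f := fun u => u.1.2.map fun i =>
    (⟨⟨i.1.1, i.2.1⟩, i.2.2⟩ : {p : Nat.Primes // p.1 ∣ (m u.1.1).1})) ?_ ?_)
  · refine CS.map (CS.lam ?_) (CS.ssnd (CS.val CS.id))
    exact CS.finVal (CS.val s2)
  · rintro ⟨⟨a, l⟩, h1, h2⟩ -
    refine ⟨h1.map fun i j e => Subtype.ext (Fin.ext (congrArg (fun z => z.1.1) e)), fun x => ?_⟩
    exact List.mem_map.2 ⟨⟨⟨x.1.1, Nat.lt_succ_of_le (Nat.le_of_dvd (m a).2 x.2)⟩, x.1.2, x.2⟩,
      h2 _, rfl⟩

end Pool.Agent.P.MP_257122_al
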