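import Pool.Agent.P.MP_257122_al.LRoot

/-!
# Rational criteria for identities between isolated roots
-/

namespace Pool.Agent.P.MP_257122_al
namespace LAlgAux

open Polynomial Filter Topology

abbrev Atom : Type := ℚ[X] × ℚ × ℚ
abbrev Form : Type := List (ℚ × List Atom)

def GoodL (F : Type) [NormedField F] (l : Form) : Prop :=
  ∀ p ∈ l, ∀ t ∈ p.2, Good F t

def GoodQ (ν : ℚ → ℚ) (t : Atom) : Prop :=
  0 < t.2.2 ∧
  4 * ν ((taylor t.2.1 t.1).coeff 0) < t.2.2 * ν ((taylor t.2.1 t.1).coeff 1) ∧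
  2 * ∑ k ∈ Finset.range t.1.natDegree,
    ((k : ℚ) + 2) * ν ((taylor t.2.1 t.1).coeff (k + 2)) * t.2.2 ^ (k + 1) <
    ν ((taylor t.2.1 t.1).coeff 1)

noncomputable def Bd (ν : ℚ → ℚ) (u : ℚ[X]) (a r : ℚ) : ℚ :=
  ∑ k ∈ Finset.range (u.natDegree + 1), ν ((taylor a u).coeff k) * r ^ k

def Link (ν : ℚ → ℚ) (β t : Atom) (g : ℚ[X]) : Prop :=
  (∃ h, t.1.comp g = β.1 * h) ∧ Bd ν (g - C t.2.1) β.2.1 β.2.2 ≤ t.2.2

def ZeroQ (ν : ℚ → ℚ) (l : Form) : Prop :=
  ∃ β : Atom, GoodQ ν β ∧ ∃ m : List (ℚ × List (Atom × ℚ[X])),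
    l = m.map (fun p => (p.1, p.2.map fun u => u.1)) ∧
    (∀ p ∈ m, ∀ u ∈ p.2, Link ν β u.1 u.2) ∧
    ∃ h, (m.map fun p => C p.1 * (p.2.map fun u => u.2).prod).sum = β.1 * h

variable {F : Type} [NormedField F] [CharZero F] {ν : ℚ → ℚ}

omit [CharZero F] in
theorem good_iff (hν : ∀ q : ℚ, ‖(q : F)‖ = (ν q : ℝ)) (t : Atom) : GoodQ ν t ↔ Good F t := by
  unfold Good GoodQ
  simp only [hν]
  refine and_congr Iff.rfl (and_congr ?_ ?_)
  · rw [← Rat.cast_lt (K := ℝ)]; push_cast; rfl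
  · rw [← Rat.cast_lt (K := ℝ)]; push_cast; rfl

theorem bd_cast (hν : ∀ q : ℚ, ‖(q : F)‖ = (ν q : ℝ)) (u : ℚ[X]) (a r : ℚ) :
    (Bd ν u a r : ℝ) = ∑ k ∈ Finset.range (u.natDegree + 1),
      ‖aeval (a : F) (hasseDeriv k u)‖ * (r : ℝ) ^ k := by
  unfold Bd
  push_cast
  refine Finset.sum_congr rfl fun k _ => ?_
  rw [← hν, taylor_coeff, ← eq_ratCast (algebraMap ℚ F) a, aeval_algebraMap_apply_eq_algebraMap_eval,
    eq_ratCast]

theorem norm_le_bd (hν : ∀ q : ℚ, ‖(q : F)‖ = (ν q : ℝ)) (u : ℚ[X]) {a r : ℚ} {y : F}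
    (hy : ‖y - a‖ ≤ r) : ‖aeval y u‖ ≤ Bd ν u a r := by
  have e : aeval y u = aeval (y - a) (taylor a u) := by
    rw [taylor_apply, aeval_comp]
    simp
  rw [e, aeval_eq_sum_range, natDegree_taylor]
  refine (norm_sum_le _ _).trans ?_
  unfold Bd
  push_cast
  refine Finset.sum_le_sum fun k _ => ?_
  rw [Rat.smul_def, norm_mul, norm_pow, hν]
  have h0 : (0 : ℝ) ≤ ν ((taylor a u).coeff k) := hν _ ▸ norm_nonneg _
  gcongr

theorem bd_eventually (u : ℚ[X]) {θ : F} {R : ℝ} (h : ‖aeval θ u‖ < R) :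
    ∀ᶠ z : F × ℝ in 𝓝 (θ, 0), ∑ k ∈ Finset.range (u.natDegree + 1),
      ‖aeval z.1 (hasseDeriv k u)‖ * z.2 ^ k < R := by
  have hc : Continuous fun z : F × ℝ => ∑ k ∈ Finset.range (u.natDegree + 1),
      ‖aeval z.1 (hasseDeriv k u)‖ * z.2 ^ k :=
    continuous_finsetSum _ fun k _ =>
      (((hasseDeriv k u).continuous_aeval.comp continuous_fst).norm).mul (continuous_snd.pow k)
  refine hc.continuousAt.eventually_lt continuousAt_const ?_
  rw [Finset.sum_range_succ']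
  simpa using h

theorem algVal_map {θ : F} (m : List (ℚ × List (Atom × ℚ[X])))
    (h : ∀ p ∈ m, ∀ u ∈ p.2, root F u.1 = aeval θ u.2) :
    algVal F (m.map fun p => (p.1, p.2.map fun u => u.1)) =
      aeval θ (m.map fun p => C p.1 * (p.2.map fun u => u.2).prod).sum := by
  unfold algVal
  rw [map_list_sum, List.map_map, List.map_map]
  congr 1
  refine List.map_congr_left fun p hp => ?_
  simp only [Function.comp_apply, map_mul, aeval_C, eq_ratCast, map_list_prod, List.map_map]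
  congr 2
  exact List.map_congr_left fun u hu => h p hp u hu

theorem primitive {S : Set F} (hS : S.Finite) (h : ∀ x ∈ S, IsAlgebraic ℚ x) :
    ∃ θ : F, IsAlgebraic ℚ θ ∧ ∀ x ∈ S, ∃ g : ℚ[X], aeval θ g = x := by
  have : Finite S := hS
  have := IntermediateField.finiteDimensional_adjoin (K := ℚ) (S := S)
    fun x hx => (h x hx).isIntegral
  let pb := Field.powerBasisOfFiniteOfSeparable ℚ (IntermediateField.adjoin ℚ S)
  refine ⟨pb.gen.1, (pb.isIntegral_gen.map (IntermediateField.adjoin ℚ S).val).isAlgebraic,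
    fun x hx => ?_⟩
  obtain ⟨g, hg⟩ := pb.exists_eq_aeval' ⟨x, IntermediateField.subset_adjoin ℚ S hx⟩
  refine ⟨g, ?_⟩
  have := congrArg (IntermediateField.adjoin ℚ S).val hg
  rw [← aeval_algHom_apply] at this
  exact this.symm

variable [CompleteSpace F]

theorem exists_atom (hd : DenseRange (Rat.cast : ℚ → F)) {x : F} (hx : IsAlgebraic ℚ x) {ε : ℝ}
    (hε : 0 < ε) : ∃ a r : ℚ, (r : ℝ) < ε ∧ Good F (minpoly ℚ x, a, r) ∧
      root F (minpoly ℚ x, a, r) = x :=
  exists_good hd (minpoly.aeval ℚ x)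
    ((minpoly.irreducible hx.isIntegral).separable.aeval_derivative_ne_zero (minpoly.aeval ℚ x)) hε

theorem root_close {t : Atom} (h : Good F t) : ‖root F t - (t.2.1 : F)‖ < (t.2.2 : ℝ) := by
  have h1 := (good_root h).2.1
  have h2 : (0 : ℝ) < t.2.2 := by exact_mod_cast h.1
  linarith

theorem link_sound (hν : ∀ q : ℚ, ‖(q : F)‖ = (ν q : ℝ)) {β t : Atom} {g : ℚ[X]} (hβ : Good F β)
    (ht : Good F t) (h : Link ν β t g) : root F t = aeval (root F β) g := by
  obtain ⟨⟨k, hk⟩, hb⟩ := h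
  refine ((good_root ht).2.2.2 _ ?_ ?_).symm
  · have := norm_le_bd hν (g - C t.2.1) (root_close hβ).le
    rw [map_sub, aeval_C, eq_ratCast] at this
    exact this.trans (by exact_mod_cast hb)
  · rw [← aeval_comp, hk, map_mul, (good_root hβ).1, zero_mul]

theorem zero_iff (hν : ∀ q : ℚ, ‖(q : F)‖ = (ν q : ℝ)) (hd : DenseRange (Rat.cast : ℚ → F))
    {l : Form} (hl : GoodL F l) : ZeroQ ν l ↔ algVal F l = 0 := by
  constructor
  · rintro ⟨β, hβ, m, rfl, hm, k, hk⟩
    rw [good_iff hν] at hβ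
    rw [algVal_map (θ := root F β) m fun p hp u hu => link_sound hν hβ
      (hl _ (List.mem_map_of_mem hp) _ (List.mem_map_of_mem hu)) (hm p hp u hu), hk, map_mul,
      (good_root hβ).1, zero_mul]
  · intro h0
    have hT : {t : Atom | t ∈ l.flatMap fun p => p.2}.Finite := List.finite_toSet _
    have hg : ∀ t ∈ {t : Atom | t ∈ l.flatMap fun p => p.2}, Good F t := fun t ht => by
      obtain ⟨p, hp, ht⟩ := List.mem_flatMap.1 ht
      exact hl p hp t ht
    obtain ⟨θ, hθ, hS⟩ := primitive (hT.image (root F)) (by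
      rintro _ ⟨t, ht, rfl⟩
      exact ⟨t.1, (good_root (hg t ht)).2.2.1, (good_root (hg t ht)).1⟩)
    have hS' : ∀ t : Atom, ∃ g : ℚ[X], t ∈ {t : Atom | t ∈ l.flatMap fun p => p.2} →
        aeval θ g = root F t := fun t => by
      by_cases ht : t ∈ {t : Atom | t ∈ l.flatMap fun p => p.2}
      · obtain ⟨g, hg⟩ := hS _ ⟨t, ht, rfl⟩
        exact ⟨g, fun _ => hg⟩
      · exact ⟨0, fun k => absurd k ht⟩
    choose g hgt using hS'
    have ev := (eventually_all_finite hT).2 fun t ht =>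
      bd_eventually (g t - C t.2.1) (θ := θ) (R := t.2.2) (by
        rw [map_sub, aeval_C, eq_ratCast, hgt t ht]
        exact root_close (hg t ht))
    obtain ⟨ε, hε, hev⟩ := Metric.eventually_nhds_iff.1 ev
    obtain ⟨a, r, hr, hβ, hroot⟩ := exists_atom hd hθ hε
    have hr0 : (0 : ℝ) < r := by exact_mod_cast hβ.1
    have hclose : ‖θ - a‖ < r := by
      have := root_close hβ
      rwa [hroot] at this
    have hz : dist ((a : F), (r : ℝ)) (θ, 0) < ε := by
      rw [Prod.dist_eq, max_lt_iff, dist_comm, dist_eq_norm, Real.dist_eq, sub_zero, abs_of_pos hr0]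
      exact ⟨hclose.trans hr, hr⟩
    have hmap : l = (l.map fun p => (p.1, p.2.map fun t => (t, g t))).map
        (fun p => (p.1, p.2.map fun u => u.1)) := by
      simp [List.map_map, Function.comp_def]
    have hmem : ∀ p ∈ l.map fun p => (p.1, p.2.map fun t => (t, g t)), ∀ u ∈ p.2,
        u.1 ∈ {t : Atom | t ∈ l.flatMap fun p => p.2} ∧ u.2 = g u.1 := by
      intro p hp u hu
      obtain ⟨p', hp', rfl⟩ := List.mem_map.1 hp
      obtain ⟨t, ht, rfl⟩ := List.mem_map.1 hu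
      exact ⟨List.mem_flatMap.2 ⟨p', hp', ht⟩, rfl⟩
    refine ⟨(minpoly ℚ θ, a, r), (good_iff hν _).2 hβ, _, hmap, fun p hp u hu => ?_, ?_⟩
    · obtain ⟨h1, h2⟩ := hmem p hp u hu
      rw [h2]
      refine ⟨minpoly.dvd ℚ θ ?_, ?_⟩
      · rw [aeval_comp, hgt _ h1]
        exact (good_root (hg _ h1)).1
      · have := hev hz _ h1
        rw [← bd_cast hν] at this
        exact_mod_cast this.le
    · refine minpoly.dvd ℚ θ ?_
      rw [← algVal_map (θ := θ) _ fun p hp u hu => ?_, ← hmap, h0]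
      obtain ⟨h1, h2⟩ := hmem p hp u hu
      rw [h2, hgt _ h1]

theorem norm_lt_iff (hν : ∀ q : ℚ, ‖(q : F)‖ = (ν q : ℝ)) (hd : DenseRange (Rat.cast : ℚ → F))
    {x : F} (hx : IsAlgebraic ℚ x) (q : ℚ) :
    (∃ β : {β : Atom // Good F β}, x = root F β.1 ∧ ν β.1.2.1 + β.1.2.2 < q) ↔ ‖x‖ < q := by
  constructor
  · rintro ⟨⟨β, hβ⟩, rfl, h⟩
    have h1 := root_close hβ
    have h2 := norm_sub_norm_le (root F β) (β.2.1 : F)
    have h3 : (ν β.2.1 : ℝ) + β.2.2 < q := by exact_mod_cast h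
    rw [hν] at h2
    linarith
  · intro h
    obtain ⟨a, r, hr, hβ, hroot⟩ := exists_atom hd hx (ε := (q - ‖x‖) / 2) (by linarith)
    refine ⟨⟨_, hβ⟩, hroot.symm, ?_⟩
    have h1 := root_close hβ
    rw [hroot, norm_sub_rev] at h1
    have h2 := norm_sub_norm_le (a : F) x
    rw [hν] at h2
    have h3 : (ν a : ℝ) + r < q := by
      dsimp only at h1
      linarith
    exact_mod_cast h3

theorem lt_norm_iff (hν : ∀ q : ℚ, ‖(q : F)‖ = (ν q : ℝ)) (hd : DenseRange (Rat.cast : ℚ → F))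
    {x : F} (hx : IsAlgebraic ℚ x) (q : ℚ) :
    (∃ β : {β : Atom // Good F β}, x = root F β.1 ∧ q + β.1.2.2 < ν β.1.2.1) ↔ q < ‖x‖ := by
  constructor
  · rintro ⟨⟨β, hβ⟩, rfl, h⟩
    have h1 := root_close hβ
    rw [norm_sub_rev] at h1
    have h2 := norm_sub_norm_le (β.2.1 : F) (root F β)
    have h3 : (q : ℝ) + β.2.2 < ν β.2.1 := by exact_mod_cast h
    rw [hν] at h2
    linarith
  · intro h
    obtain ⟨a, r, hr, hβ, hroot⟩ := exists_atom hd hx (ε := (‖x‖ - q) / 2) (by linarith)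
    refine ⟨⟨_, hβ⟩, hroot.symm, ?_⟩
    have h1 := root_close hβ
    rw [hroot] at h1
    have h2 := norm_sub_norm_le x (a : F)
    rw [hν] at h2
    have h3 : (q : ℝ) + r < ν a := by
      dsimp only at h1
      linarith
    exact_mod_cast h3

omit [CompleteSpace F] in
/-- A finite test for the independence of the powers of an integral element. -/
theorem indep_of_box {y : F} {f : ℤ[X]} {B k : ℕ} (hm : f.coeff f.natDegree = 1)
    (hy : aeval y f = 0) (hB : ∀ i < f.natDegree, (f.coeff i).natAbs ≤ B)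
    (h : ∀ t : Fin k → ℤ, (∀ i, (t i).natAbs ≤ (B + 1) ^ f.natDegree *
      f.natDegree.choose (f.natDegree / 2)) → (∀ i, t i = 0) ∨ ∑ i, (t i : F) * y ^ (i : ℕ) ≠ 0) :
    LinearIndependent ℚ (fun i : Fin k => y ^ (i : ℕ)) := by
  have hf : f.Monic := hm
  have hi : IsIntegral ℤ y := ⟨f, hf, by rwa [aeval_def] at hy⟩
  have hg := minpoly.monic hi
  have hdvd := minpoly.isIntegrallyClosed_dvd hi hy
  have hdeg : (minpoly ℚ y).natDegree = (minpoly ℤ y).natDegree := by
    rw [minpoly.isIntegrallyClosed_eq_field_fractions' ℚ hi, hg.natDegree_map]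
  by_cases hk : k ≤ (minpoly ℚ y).natDegree
  · exact (linearIndependent_pow (K := ℚ) y).comp (Fin.castLE hk) (Fin.castLE_injective hk)
  exfalso
  rw [hdeg, not_le] at hk
  have hroots : ∀ z ∈ ((minpoly ℤ y).map (Int.castRingHom ℂ)).roots, ‖z‖ ≤ (B + 1 : ℝ) := by
    intro z hz
    have hf' := hf.map (Int.castRingHom ℂ)
    have h1 : (f.map (Int.castRingHom ℂ)).IsRoot z :=
      (isRoot_of_mem_roots hz).dvd (Polynomial.map_dvd _ hdvd)
    have h2 := h1.norm_lt_cauchyBound hf'.ne_zero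
    have h3 : (f.map (Int.castRingHom ℂ)).cauchyBound ≤ (B + 1 : NNReal) := by
      unfold cauchyBound
      rw [hf'.leadingCoeff, nnnorm_one, div_one, hf.natDegree_map]
      gcongr
      refine Finset.sup_le fun i hi => ?_
      rw [coeff_map, eq_intCast, Complex.nnnorm_intCast, ← NNReal.natCast_natAbs]
      exact_mod_cast hB i (Finset.mem_range.1 hi)
    have h4 := (h2.trans_le h3).le
    exact_mod_cast h4
  have hco := coeff_bdd_of_roots_le (Int.castRingHom ℂ) hg (IsAlgClosed.splits _)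
    (natDegree_le_of_dvd hdvd hf.ne_zero) hroots
  rcases h (fun i => (minpoly ℤ y).coeff i) (fun i => by
    have := hco i
    rw [coeff_map, eq_intCast, Complex.norm_intCast, max_eq_left (by
      have : (0 : ℝ) ≤ B := Nat.cast_nonneg B
      linarith), ← Int.cast_abs, ← Int.natCast_natAbs] at this
    exact_mod_cast this) with h0 | h0
  · have := h0 ⟨_, hk⟩
    rw [hg.coeff_natDegree] at this
    exact one_ne_zero this
  · refine h0 ?_
    have := minpoly.aeval ℤ y
    rw [aeval_eq_sum_range' hk, Finset.sum_range] at this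
    simpa only [zsmul_eq_mul] using this

omit [CompleteSpace F] in
theorem indep_iff {x : F} (hx : IsAlgebraic ℚ x) (k : ℕ) :
    (∃ N : ℤ, N ≠ 0 ∧ ∃ f : ℤ[X], f.coeff f.natDegree = 1 ∧ aeval ((N : F) * x) f = 0 ∧
      ∃ B : ℕ, (∀ i < f.natDegree, (f.coeff i).natAbs ≤ B) ∧
      ∀ t : Fin k → ℤ, (∀ i, (t i).natAbs ≤ (B + 1) ^ f.natDegree *
        f.natDegree.choose (f.natDegree / 2)) →
        (∀ i, t i = 0) ∨ ∑ i, (t i : F) * ((N : F) * x) ^ (i : ℕ) ≠ 0) ↔
    LinearIndependent ℚ (fun i : Fin k => x ^ (i : ℕ)) := by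
  constructor
  · rintro ⟨N, hN, f, hm, hy, B, hB, h⟩
    have h2 := indep_of_box (y := (N : F) * x) (k := k) hm hy hB h
    have h1 := Fintype.linearIndependent_iff.1 h2
    have hN' : (N : ℚ) ≠ 0 := by exact_mod_cast hN
    have hN'' : (N : F) ≠ 0 := by exact_mod_cast hN
    refine Fintype.linearIndependent_iff.2 fun g hg i => ?_
    have := h1 (fun i => g i / (N : ℚ) ^ (i : ℕ)) (by
      refine Eq.trans (Finset.sum_congr rfl fun i _ => ?_) hg
      rw [Rat.smul_def, Rat.smul_def, mul_pow]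
      push_cast
      field_simp) i
    simpa [hN'] using this
  · intro h
    obtain ⟨N, hN, f, hf, hy⟩ :=
      ((IsFractionRing.isAlgebraic_iff ℤ ℚ F).2 hx).exists_integral_multiple
    refine ⟨N, hN, f, hf, by rwa [aeval_def, ← zsmul_eq_mul],
      ∑ i ∈ Finset.range f.natDegree, (f.coeff i).natAbs, fun i hi => Finset.single_le_sum
        (f := fun i => (f.coeff i).natAbs) (fun _ _ => Nat.zero_le _) (Finset.mem_range.2 hi),
      fun t _ => or_iff_not_imp_right.2 fun h0 i => ?_⟩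
    have := Fintype.linearIndependent_iff.1 h (fun i => t i * (N : ℚ) ^ (i : ℕ)) (by
      refine Eq.trans (Finset.sum_congr rfl fun i _ => ?_) (not_not.1 h0)
      rw [Rat.smul_def, mul_pow]
      push_cast
      ring) i
    have hN' : (N : ℚ) ≠ 0 := by exact_mod_cast hN
    simpa [hN'] using this

end LAlgAux
end Pool.Agent.P.MP_257122_al
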