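import Pool.Agent.P.MP_257122_al.LAlgA
import Pool.Agent.P.MP_257122_al.FPoly

/-!
# Computing in a family of complete fields with dense rationals
-/

namespace Pool.Agent.P.MP_257122_al
namespace LAlgAux

open Polynomial FPropAux

variable {A : Type} [Rep A]

theorem cs_goodQ {ν : A → ℚ → ℚ} {t : A → Atom} (hν : CS ν) (ht : CS t) :
    CS (fun a => GoodQ (ν a) (t a)) := by
  have key : CS (fun p : (ℚ → ℚ) × Atom => GoodQ p.1 p.2) := by
    unfold GoodQ
    aesop (config := { terminal := true, enableSimp := false, maxRuleApplications := 3000, maxRuleApplicationDepth := 70, assumptionTransparency := .reducible }) (rule_sets := [-default, -builtin, Restrict]) (erase CS.mapp, CS.mlam)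
  exact key.comp (hν.pair ht)

theorem cs_link {ν : A → ℚ → ℚ} {β t : A → Atom} {g : A → ℚ[X]} (hν : CS ν) (hβ : CS β)
    (ht : CS t) (hg : CS g) : CS (fun a => Link (ν a) (β a) (t a) (g a)) := by
  have key : CS (fun p : (ℚ → ℚ) × Atom × Atom × ℚ[X] => Link p.1 p.2.1 p.2.2.1 p.2.2.2) := by
    unfold Link Bd
    aesop (config := { terminal := true, enableSimp := false, maxRuleApplications := 3000, maxRuleApplicationDepth := 70, assumptionTransparency := .reducible }) (rule_sets := [-default, -builtin, Restrict]) (erase CS.mapp, CS.mlam)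
  exact key.comp (hν.pair (hβ.pair (ht.pair hg)))

theorem cs_zeroQ {ν : A → ℚ → ℚ} {l : A → Form} (hν : CS ν) (hl : CS l) :
    CS (fun a => ZeroQ (ν a) (l a)) := by
  have key : CS (fun p : (ℚ → ℚ) × Form => ZeroQ p.1 p.2) := by
    unfold ZeroQ
    aesop (config := { terminal := true, enableSimp := false, maxRuleApplications := 3000, maxRuleApplicationDepth := 70, assumptionTransparency := .reducible }) (rule_sets := [-default, -builtin, Restrict]) (erase CS.mapp, CS.mlam) (add safe 5 (by with_reducible first | apply cs_goodQ | apply cs_link))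
  exact key.comp (hν.pair hl)

/-- The family carries the representation by formal combinations of roots. -/
def RA (F : A → Type) [∀ a, NormedField (F a)] [∀ a, CharZero (F a)] [∀ a, Rep (F a)] : Prop :=
  ∀ a c (x : F a), Rep.R c x ↔ ∃ l : Form, Rep.R c l ∧ GoodL (F a) l ∧ algVal (F a) l = x

section ring
variable {F : A → Type} [∀ a, NormedField (F a)] [∀ a, CharZero (F a)] [∀ a, Rep (F a)]

theorem RA.toAlg (h : RA F) {l : A → Form} (hl : CS l) (hg : ∀ a, GoodL (F a) (l a)) :
    CS (fun a => algVal (F a) (l a)) := by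
  obtain ⟨G, hG, e⟩ := hl
  refine ⟨G, hG, fun c a r => ?_⟩
  obtain ⟨d, hd, rd⟩ := e c a r
  exact ⟨d, hd, (h a d _).2 ⟨_, rd, hg a, rfl⟩⟩

theorem RA.ofAlg (h : RA F) {x : ∀ a, F a} (hx : CS x) :
    MV (fun a (l : Form) => GoodL (F a) l ∧ algVal (F a) l = x a) := by
  obtain ⟨G, hG, e⟩ := hx
  refine ⟨G, hG, fun c a r => ?_⟩
  obtain ⟨d, hd, rd⟩ := e c a r
  obtain ⟨l, rl, gl, el⟩ := (h a d _).1 rd
  exact ⟨d, hd, l, ⟨gl, el⟩, rl⟩

theorem RA.enumC (h : RA F) (hE : Enum (fun a => {l : Form // GoodL (F a) l})) : EnumC F := by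
  obtain ⟨E, hE, e⟩ := hE
  refine ⟨E, hE, fun c a r => ⟨fun d hd => ?_, fun x ⟨c', hx⟩ => ?_⟩⟩
  · obtain ⟨l, rl⟩ := (e c a r).1 d hd
    exact ⟨_, (h a d _).2 ⟨l.1, rl, l.2, rfl⟩⟩
  · obtain ⟨l, -, gl, rfl⟩ := (h a c' x).1 hx
    obtain ⟨d, hd, rd⟩ := (e c a r).2 ⟨l, gl⟩
    exact ⟨d, hd, (h a d _).2 ⟨l, rd, gl, rfl⟩⟩

theorem RA.binop (h : RA F) {op : ∀ a, F a → F a → F a} {φ : Form → Form → Form}
    (hφ : CS (fun p : Form × Form => φ p.1 p.2))
    (hg : ∀ a l m, GoodL (F a) l → GoodL (F a) m → GoodL (F a) (φ l m))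
    (he : ∀ a l m, algVal (F a) (φ l m) = op a (algVal (F a) l) (algVal (F a) m)) :
    CS (fun p : Σ a, F a × F a => op p.1 p.2.1 p.2.2) := by
  obtain ⟨G, hG, e⟩ := hφ
  refine ⟨fun c => G c.unpair.2, hG.comp (Computable.snd.comp Computable.unpair), ?_⟩
  rintro c ⟨a, x, y⟩ ⟨-, r2, r3⟩
  obtain ⟨l, rl, gl, rfl⟩ := (h a _ x).1 r2
  obtain ⟨m, rm, gm, rfl⟩ := (h a _ y).1 r3
  obtain ⟨d, hd, rd⟩ := e c.unpair.2 (l, m) ⟨rl, rm⟩
  exact ⟨d, hd, (h a d _).2 ⟨_, rd, hg a l m gl gm, he a l m⟩⟩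

theorem RA.zero (h : RA F) : ZeroF F :=
  (h.toAlg (l := fun _ => []) CS.nil fun _ _ hp => absurd hp List.not_mem_nil).congr
    fun _ _ => rfl

theorem RA.ratCast (h : RA F) {q : A → ℚ} (hq : CS q) : CS (fun a => (q a : F a)) :=
  (h.toAlg (l := fun a => [(q a, [])]) (CS.cons (hq.pair CS.nil) CS.nil) fun _ p hp t ht => by
    rw [List.mem_singleton.1 hp] at ht
    exact absurd ht List.not_mem_nil).congr fun _ _ => by simp [algVal]

theorem RA.root (h : RA F) {t : A → Atom} (ht : CS t) (hg : ∀ a, Good (F a) (t a)) :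
    CS (fun a => root (F a) (t a)) :=
  (h.toAlg (l := fun a => [(1, [t a])])
    (CS.cons (CS.pair CS.const (CS.cons ht CS.nil)) CS.nil) fun a p hp u hu => by
    rw [List.mem_singleton.1 hp] at hu
    exact List.mem_singleton.1 hu ▸ hg a).congr fun _ _ => by simp [algVal]

theorem RA.one (h : RA F) : OneF F :=
  (h.ratCast (q := fun _ => 1) CS.const).congr fun _ _ => Rat.cast_one

theorem RA.rat (h : RA F) : RatF F :=
  (RA.ratCast (F := fun p : Σ _ : A, ℚ => F p.1) (fun p => h p.1) s2).congr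
    fun _ _ => (eq_ratCast _ _).symm

theorem RA.add (h : RA F) : AddF F :=
  h.binop (op := fun _ x y => x + y) (φ := fun l m => l ++ m)
    (CS.append (CS.fst CS.id) (CS.snd CS.id))
    (fun _ l m hl hm p hp => (List.mem_append.1 hp).elim (hl p) (hm p))
    (fun _ l m => by simp [algVal])

theorem RA.mul (h : RA F) : MulF F := by
  refine h.binop (op := fun _ x y => x * y)
    (φ := fun l m => l.flatMap fun p => m.map fun q => (p.1 * q.1, p.2 ++ q.2)) ?_ ?_ ?_
  · aesop (config := { terminal := true, enableSimp := false, maxRuleApplications := 3000, maxRuleApplicationDepth := 70, assumptionTransparency := .reducible }) (rule_sets := [-default, -builtin, Restrict]) (erase CS.mapp, CS.mlam)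
  · intro a l m hl hm u hu t ht
    obtain ⟨p, hp, hu⟩ := List.mem_flatMap.1 hu
    obtain ⟨q, hq, rfl⟩ := List.mem_map.1 hu
    exact (List.mem_append.1 ht).elim (hl p hp t) (hm q hq t)
  · intro a l m
    unfold algVal
    induction l with
    | nil => simp
    | cons p l ih =>
      rw [List.flatMap_cons, List.map_append, List.sum_append, ih, List.map_cons, List.sum_cons,
        add_mul]
      congr 1
      rw [← List.sum_map_mul_left, List.map_map]
      congr 1
      refine List.map_congr_left fun q _ => ?_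
      simp only [Function.comp_apply, List.map_append, List.prod_append, Rat.cast_mul]
      ring

theorem RA.neg (h : RA F) : NegF F :=
  have h' : RA (fun p : Σ a, F a => F p.1) := fun p => h p.1
  (CS.mul h'.mul (h'.ratCast (q := fun _ => -1) CS.const) s2).congr fun _ _ => by simp

end ring

/-- The norm of rationals is given by the computable function `ν`, and they are dense. -/
structure Fam (F : A → Type) [∀ a, NormedField (F a)] [∀ a, CharZero (F a)] [∀ a, Rep (F a)]
    (ν : A → ℚ → ℚ) : Prop where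
  rep : RA F
  cs : CS ν
  nrm : ∀ a (q : ℚ), ‖(q : F a)‖ = (ν a q : ℝ)
  dense : ∀ a, DenseRange (Rat.cast : ℚ → F a)

section fam
variable {F : A → Type} [∀ a, NormedField (F a)] [∀ a, CharZero (F a)] [∀ a, Rep (F a)]
  {ν : A → ℚ → ℚ}

theorem Fam.comp (h : Fam F ν) {B : Type} [Rep B] {g : B → A} (hg : CS g) :
    Fam (fun b => F (g b)) (fun b => ν (g b)) :=
  ⟨fun b => h.rep (g b), h.cs.comp hg, fun b => h.nrm (g b), fun b => h.dense (g b)⟩

theorem Fam.good (h : Fam F ν) {t : A → Atom} (ht : CS t) : CS (fun a => Good (F a) (t a)) :=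
  (cs_goodQ h.cs ht).of_iff fun a _ => good_iff (h.nrm a) _

theorem Fam.enumAtom (h : Fam F ν) : Enum (fun a => {β : Atom // Good (F a) β}) :=
  Enum.subtype (Enum.prod (Enum.poly Enum.rat) (Enum.prod Enum.rat Enum.rat))
    ((h.comp s1).good s2)

theorem Fam.enumC (h : Fam F ν) : EnumC F := by
  refine h.rep.enumC (Enum.subtype (Enum.list (Enum.prod Enum.rat (Enum.list
    (Enum.prod (Enum.poly Enum.rat) (Enum.prod Enum.rat Enum.rat))))) ?_)
  unfold GoodL
  refine CS.allMem s2 (CS.allMem (CS.snd s2) ?_)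
  exact (h.comp (CS.sfst (CS.sfst s1))).good s2

variable [∀ a, CompleteSpace (F a)]

theorem Fam.coded_iff (h : Fam F ν) {a : A} {x : F a} : Coded x ↔ IsAlgebraic ℚ x :=
  (exists_congr fun c => h.rep a c x).trans (coded_alg_iff (h.dense a))

theorem Fam.isZero (h : Fam F ν) {x : ∀ a, F a} (hx : CS x) : CS (fun a => x a = 0) :=
  MV.elimP (h.rep.ofAlg hx) (P' := fun a l => ZeroQ (ν a) l) (cs_zeroQ (h.cs.comp s1) s2)
    fun a l _ _ hl => by rw [zero_iff (h.nrm a) (h.dense a) hl.1, hl.2]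

theorem Fam.eq (h : Fam F ν) {x y : ∀ a, F a} (hx : CS x) (hy : CS y) :
    CS (fun a => x a = y a) :=
  (h.isZero (CS.sub h.rep.add h.rep.neg hx hy)).of_iff fun _ _ => sub_eq_zero

theorem Fam.disc (h : Fam F ν) : Disc F :=
  (h.comp s1).eq (CS.fst s2) (CS.snd s2)

theorem Fam.normLt (h : Fam F ν) {x : ∀ a, F a} {q : A → ℚ} (hx : CS x) (hq : CS q) :
    CS (fun a => ‖x a‖ < (q a : ℝ)) := by
  refine CS.of_iff (CS.ex h.enumAtom ?_) fun a ha =>
    norm_lt_iff (h.nrm a) (h.dense a) (h.coded_iff.1 (hx.coded ha)) (q a)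
  have h' := h.comp (s1 (T := fun a => {β : Atom // Good (F a) β}))
  exact CS.and (h'.eq (hx.comp s1) (h'.rep.root (CS.val s2) fun p => p.2.2))
    (CS.lt LtF.rat (CS.add AddF.rat (CS.app h'.cs (CS.fst (CS.snd (CS.val s2))))
      (CS.snd (CS.snd (CS.val s2)))) (hq.comp s1))

theorem Fam.ltNorm (h : Fam F ν) {x : ∀ a, F a} {q : A → ℚ} (hx : CS x) (hq : CS q) :
    CS (fun a => (q a : ℝ) < ‖x a‖) := by
  refine CS.of_iff (CS.ex h.enumAtom ?_) fun a ha =>
    lt_norm_iff (h.nrm a) (h.dense a) (h.coded_iff.1 (hx.coded ha)) (q a)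
  have h' := h.comp (s1 (T := fun a => {β : Atom // Good (F a) β}))
  exact CS.and (h'.eq (hx.comp s1) (h'.rep.root (CS.val s2) fun p => p.2.2))
    (CS.lt LtF.rat (CS.add AddF.rat (hq.comp s1) (CS.snd (CS.snd (CS.val s2))))
      (CS.app h'.cs (CS.fst (CS.snd (CS.val s2)))))

theorem Fam.neZero (h : Fam F ν) {x : ∀ a, F a} (hx : CS x) : CS (fun a => x a ≠ 0) :=
  (h.ltNorm (q := fun _ => 0) hx CS.const).of_iff fun _ _ => by simp

theorem Fam.haus (h : Fam F ν) : Haus F :=
  have h' := h.comp (s1 (T := fun a => F a × F a))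
  (h'.neZero (CS.sub h'.rep.add h'.rep.neg (CS.fst s2) (CS.snd s2))).of_iff
    fun _ _ => sub_ne_zero

theorem Fam.inv' (h : Fam F ν) {x : ∀ a, F a} (hx : CS x) : CS (fun a => (x a)⁻¹) := by
  have h' := h.comp (s1 (T := F))
  refine MV.to_cs (MV.searchC (Q' := fun a y => (x a = 0 ∧ y = 0) ∨ x a * y = 1) h.enumC
    (CS.or (CS.and (h'.isZero (hx.comp s1)) (h'.isZero s2))
      (h'.eq (CS.mul h'.rep.mul (hx.comp s1) s2) h'.rep.one)) ?_ ?_)
  · rintro a y (⟨h1, h2⟩ | h1)
    · rw [h1, h2, inv_zero]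
    · exact eq_inv_of_mul_eq_one_right h1
  · intro a ha
    refine ⟨(x a)⁻¹, h.coded_iff.2 (h.coded_iff.1 (hx.coded ha)).inv, ?_⟩
    by_cases h0 : x a = 0
    · exact Or.inl ⟨h0, by rw [h0, inv_zero]⟩
    · exact Or.inr (mul_inv_cancel₀ h0)

theorem Fam.inv (h : Fam F ν) : InvF F := (h.comp s1).inv' s2

theorem Fam.powIndep (h : Fam F ν) {x : ∀ a, F a} {k : A → ℕ} (hx : CS x) (hk : CS k) :
    CS (fun a => LinearIndependent ℚ (fun i : Fin (k a) => x a ^ (i : ℕ))) := by
  refine CS.of_iff ?_ fun a ha => indep_iff (h.coded_iff.1 (hx.coded ha)) (k a)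
  have hx' := fun (B : Type) [Rep B] (g : B → A) => hx.comp (g := g)
  have hk' := fun (B : Type) [Rep B] (g : B → A) => hk.comp (g := g)
  have h1 := fun (B : Type) [Rep B] (g : B → A) => h.rep.add.comp (g := g)
  have h2 := fun (B : Type) [Rep B] (g : B → A) => h.rep.mul.comp (g := g)
  have h3 := fun (B : Type) [Rep B] (g : B → A) => h.rep.neg.comp (g := g)
  have h4 := fun (B : Type) [Rep B] (g : B → A) => h.rep.zero.comp (g := g)
  have h5 := fun (B : Type) [Rep B] (g : B → A) => h.rep.one.comp (g := g)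
  have h6 := fun (B : Type) [Rep B] (g : B → A) => h.disc.comp (g := g)
  have h7 := fun (B : Type) [Rep B] (g : B → A) => h.haus.comp (g := g)
  refine CS.ex Enum.int (CS.and ?_ (CS.ex (Enum.poly Enum.int) (CS.and ?_ (CS.and ?_
    (CS.ex Enum.nat (CS.and ?_ (CS.allBox ?_ Disc.fin ?_ ?_)))))))
  all_goals
    aesop (config := { terminal := true, enableSimp := false, maxRuleApplications := 3000, maxRuleApplicationDepth := 70, assumptionTransparency := .reducible }) (rule_sets := [-default, -builtin, Restrict]) (erase CS.mapp, CS.mlam) (add safe 5 (by with_reducible first | apply hx' | apply hk' | apply h1 | apply h2 | apply h3 | apply h4 | apply h5 | apply h6 | apply h7))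

end fam

end LAlgAux
end Pool.Agent.P.MP_257122_al
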