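import Pool.Agent.P.MP_257122_al.LEasy

/-!
# From constraints to generators and back

PLAN.  `GenF.atPrime`: `MV.ofMap` gives a description `D`; by `loc_desc` the module is `con` of the
casts of the equations and of the list made of the `castV (cv b.2)` with `¬ p ∣ b.1` and the
`cv a.2` with `a.1 = p` (`flatMap` of an `if`; `CS.dite`, `CS.eqRec`); then `ConF.toGen`.
`MV.globGen'`: the modulus is the product of all moduli and primes of `D`; `glob_desc`,
`ConF.toGen` with `FK.zinv` on the extended base, `glob_gen_mono`.  `CS.assemble`: `MV.elim` on the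
product of the two `globGen'`, modulus the product of the two moduli and `e`; the group is
`resQ (G a m) ⊓ ⨅ p : {p // p ∣ m}, resQ (L a p)` (`CS.resGlob`, `CS.resLoc`, `CS.addiInf`,
`CFin.primesDvd`).  The statements without `Fintype` instances are reduced to the subtype
`{a // Finite (ι a)}` of the base by `CS.of_sub` and `CFin.finite`.  `memLoc`: `CS.memGen`;
`lineLoc`: `line_memL`, `mem_gen_nil`; `formLoc`: test on generators.
-/

namespace Pool.Agent.P.MP_257122_al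

open Matrix

variable {A : Type} [Rep A]

namespace LAsmAux

open FOpsAux

/-- Transport along an equality of primes. -/
def tr {ι : Type} {q p : Nat.Primes} (e : q = p) (x : ι → Qp q) : ι → Qp p := e ▸ x

/-- The forms that are integrality conditions at `p`. -/
noncomputable def forms {ι : Type} [DecidableEq ι] (D : Desc (ι → ℚ)) (p : Nat.Primes) :
    List (ι → Qp p) :=
  (D.2.1.flatMap fun b => if p.1 ∣ b.1.1 then [] else [castV (Qp p) (cv b.2)]) ++
    D.2.2.flatMap fun a => if h : a.1 = p then [tr h (cv a.2)] else []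

/-- The product of all moduli and primes. -/
def modulus {V : Type} [AddCommGroup V] [Module ℚ V] (D : Desc V) : ℕ :=
  (D.2.1.map fun b => b.1.1).prod * (D.2.2.map fun a => a.1.1).prod

theorem modulus_pos {V : Type} [AddCommGroup V] [Module ℚ V] (D : Desc V) : 0 < modulus D := by
  refine Nat.mul_pos (List.prod_pos fun x hx => ?_) (List.prod_pos fun x hx => ?_)
  · obtain ⟨b, -, rfl⟩ := List.mem_map.1 hx
    exact b.1.2
  · obtain ⟨a, -, rfl⟩ := List.mem_map.1 hx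
    exact a.1.2.pos

theorem loc_con {ι : Type} [Fintype ι] [DecidableEq ι] (D : Desc (ι → ℚ)) (p : Nat.Primes) :
    ext (Zp p) (Qp p) D.sub =
      con (Zp p) (D.1.map fun c => castV (Qp p) (cv c)) (forms D p) := by
  refine Submodule.ext fun y => ?_
  rw [← loc_eq, loc_desc, mem_con]
  refine and_congr (by simp) ⟨fun h x hx => isI_padic.2 ?_, fun h => ⟨fun b hb hp => ?_,
    fun a ha => ?_⟩⟩
  · rcases List.mem_append.1 hx with hx | hx
    · obtain ⟨b, hb, hx⟩ := List.mem_flatMap.1 hx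
      split_ifs at hx with hp
      · simp at hx
      · rw [List.mem_singleton.1 hx]
        exact h.1 b hb hp
    · obtain ⟨⟨q, a⟩, ha, hx⟩ := List.mem_flatMap.1 hx
      split_ifs at hx with hp
      · obtain rfl : q = p := hp
        rw [List.mem_singleton.1 hx]
        exact h.2 a ha
      · simp at hx
  · refine isI_padic.1 (h _ (List.mem_append_left _ (List.mem_flatMap.2 ⟨b, hb, ?_⟩)))
    rw [if_neg hp]
    exact List.mem_singleton_self _
  · refine isI_padic.1 (h _ (List.mem_append_right _ (List.mem_flatMap.2 ⟨_, ha, ?_⟩)))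
    rw [dif_pos rfl]
    exact List.mem_singleton_self _

theorem form_iff {ι : Type} [Fintype ι] {p : Nat.Primes} (w : ι → Qp p)
    (M D : List (ι → Qp p)) : (∀ y ∈ genMod (Zp p) (Qp p) M D, ‖w ⬝ᵥ y‖ ≤ 1) ↔
      (∀ x ∈ M, IsI (Zp p) (w ⬝ᵥ x)) ∧ ∀ d ∈ D, w ⬝ᵥ d = 0 := by
  constructor
  · refine fun h => ⟨fun x hx => isI_padic.2 (h x (mem_gen_left hx)), fun d hd => ?_⟩
    by_contra h0
    have h1 := h _ (smul_mem_gen hd (((p.1 : Qp p))⁻¹ * (w ⬝ᵥ d)⁻¹))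
    rw [dotProduct_smul, smul_eq_mul, mul_assoc, inv_mul_cancel₀ h0, mul_one, norm_inv,
      Padic.norm_p, inv_inv] at h1
    exact absurd p.2.one_lt (not_lt.2 (by exact_mod_cast h1))
  · intro h y hy
    have : genMod (Zp p) (Qp p) M D ≤ con (Zp p) [] [w] :=
      genMod_le.2 ⟨fun x hx => ⟨by simp, by simpa using h.1 x hx⟩, fun d hd c => ⟨by simp, by
        simpa [h.2 d hd] using isI_zero (K := Qp p) (Zp p)⟩⟩
    exact isI_padic.1 ((this hy).2 w (List.mem_singleton_self _))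

variable {ι : A → Type} [∀ a, Rep (ι a)] [∀ a, DecidableEq (ι a)]

theorem cs_cv {F : A → Type} [∀ a, Rep (F a)] [∀ a, AddCommGroup (F a)] [∀ a, Module ℚ (F a)]
    {f : ∀ a, (ι a → ℚ) →ₗ[ℚ] F a} (hι : CFin ι) (hd : Disc ι) (hf : CS f) :
    CS (fun a => cv (f a)) :=
  CS.lam (CS.linApp (hf.comp s1)
    (CS.piSingle (hd.comp s1) ((hι.haus hd).comp s1) ZeroF.rat s2 CS.const))

omit [∀ a, DecidableEq (ι a)] in
theorem cs_tr {p q : A → Nat.Primes} (e : ∀ a, q a = p a) {x : ∀ a, ι a → Qp (q a)} (h : CS x) :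
    CS (fun a => tr (e a) (x a)) :=
  CS.eqRec (ι := fun _ => Nat.Primes) (T := fun a q => ι a → Qp q) e h

theorem cs_forms {D : ∀ a, Desc (ι a → ℚ)} {p : A → Nat.Primes} (hι : CFin ι) (hd : Disc ι)
    (hp : CS p) (hD : CS D) : CS (fun a => forms (D a) (p a)) := by
  refine CS.append (CS.flatMap (CS.lam ?_) hD.snd.fst) (CS.flatMap (CS.lam ?_) hD.snd.snd)
  · exact CS.ite (CS.natDvd (CS.primeVal (hp.comp s1)) (CS.val s2.fst))
      (CS.natNotDvd (CS.primeVal (hp.comp s1)) (CS.val s2.fst)) CS.nil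
      (CS.cons (CS.castVec (FK.padic (hp.comp s1)) (cs_cv (hι.comp s1) (hd.comp s1) s2.snd)) CS.nil)
  · refine CS.dite (CS.eq Disc.primes (CS.sfst s2) (hp.comp s1))
      (CS.notEq Haus.primes (CS.sfst s2) (hp.comp s1)) (CS.cons ?_ CS.nil) CS.nil
    exact cs_tr _ (cs_cv (hι.comp v1) (hd.comp v1) (FEnumAux.s2 (α := fun _ => Nat.Primes)
      (β := fun (b : {b : Σ a, Σ q : Nat.Primes, (ι a → ℚ) →ₗ[ℚ] Qp q // b.2.1 = p b.1}) q =>
        (ι b.1.1 → ℚ) →ₗ[ℚ] Qp q) v2))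

omit [∀ a, DecidableEq (ι a)] in
theorem cs_modulus {D : ∀ a, Desc (ι a → ℚ)} (hD : CS D) : CS (fun a => modulus (D a)) :=
  CS.mul MulF.nat (CS.listProd MulF.nat OneF.nat (CS.map (CS.lam (CS.val s2.fst)) hD.snd.fst))
    (CS.listProd MulF.nat OneF.nat (CS.map (CS.lam (CS.primeVal (CS.sfst s2))) hD.snd.snd))

end LAsmAux

open FOpsAux LAsmAux

section fin
variable {ι κ μ : A → Type} [∀ a, Rep (ι a)] [∀ a, Fintype (ι a)] [∀ a, DecidableEq (ι a)]
  [∀ a, Rep (κ a)] [∀ a, Fintype (κ a)] [∀ a, DecidableEq (κ a)]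
  [∀ a, Rep (μ a)] [∀ a, Fintype (μ a)] [∀ a, DecidableEq (μ a)]

theorem GenF.atPrime {Γ : ∀ a, AddSubgroup (ι a → ℚ)} {p : A → Nat.Primes} (hι : CFin ι)
    (hd : Disc ι) (hp : CS p) (h : CS Γ) :
    GenF (fun a => Zp (p a)) (fun a => Qp (p a)) (fun a => ext (Zp (p a)) (Qp (p a)) (Γ a)) := by
  refine ConF.toGen ?_ (FK.padic hp) hι hd
  refine MV.bind (MV.ofMap (fun _ => Desc.sub) h) (MV.of_cs
    (f := fun b => (b.1.2.1.map fun c => castV (Qp (p b.1.1)) (cv c), forms b.1.2 (p b.1.1)))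
    (CS.pair (CS.map (CS.lam (CS.castVec (FK.padic (hp.comp (v1.comp s1)))
      (cs_cv (hι.comp (v1.comp s1)) (hd.comp (v1.comp s1)) s2))) v2.fst)
      (cs_forms (hι.comp v1) (hd.comp v1) (hp.comp v1) v2)) fun b _ => ?_)
  exact (congrArg (ext _ _) b.2).symm.trans (loc_con _ _)

theorem MV.globGen' {Γ : ∀ a, AddSubgroup (ι a → ℚ)} (hι : CFin ι) (hd : Disc ι) (h : CS Γ) :
    MV (fun a (q : ℕ × List (ι a → ℚ) × List (ι a → ℚ)) => 0 < q.1 ∧
      ∀ m, 0 < m → q.1 ∣ m → glob m (Γ a) = genMod (Zinv m) ℚ q.2.1 q.2.2) := by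
  refine MV.bind (MV.ofMap (fun _ => Desc.sub) h) ?_
  have hm := cs_modulus (v2 (β := fun a => Desc (ι a → ℚ)) (Q := fun b => b.2.sub = Γ b.1))
  have hc : ConF (fun b : {b : Σ a, Desc (ι a → ℚ) // b.2.sub = Γ b.1} => Zinv (modulus b.1.2))
      (fun _ => ℚ) (fun b => glob (modulus b.1.2) (Γ b.1.1)) :=
    MV.of_cs (f := fun b => (b.1.2.1.map cv, b.1.2.2.1.map fun c => cv c.2))
      (CS.pair (CS.map (CS.lam (cs_cv (hι.comp (v1.comp s1)) (hd.comp (v1.comp s1)) s2)) v2.fst)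
        (CS.map (CS.lam (cs_cv (hι.comp (v1.comp s1)) (hd.comp (v1.comp s1)) s2.snd)) v2.snd.fst))
      fun b _ => (congrArg (glob _) b.2).symm.trans (glob_desc _ (modulus_pos _)
        (fun c hc => (List.dvd_prod (List.mem_map_of_mem hc)).mul_right _)
        fun c hc => (List.dvd_prod (List.mem_map_of_mem hc)).mul_left _)
  refine MV.bind (hc.toGen (FK.zinv hm fun b => modulus_pos _) (hι.comp v1) (hd.comp v1))
    (MV.of_cs (f := fun c => (modulus c.1.1.1.2, c.1.2)) (CS.pair (hm.comp v1) v2) fun c _ => ?_)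
  exact ⟨modulus_pos _, fun m _ hm => glob_gen_mono hm c.2⟩

/-- A group given by a global and local conditions that are computable from two groups. -/
theorem CS.assemble {Γ₁ : ∀ a, AddSubgroup (ι a → ℚ)} {Γ₂ : ∀ a, AddSubgroup (κ a → ℚ)}
    {Γ : ∀ a, AddSubgroup (μ a → ℚ)} (hι : CFin ι) (hdι : Disc ι) (hκ : CFin κ) (hdκ : Disc κ)
    (hμ : CFin μ) (hdμ : Disc μ) (h₁ : CS Γ₁) (h₂ : CS Γ₂) {e : A → ℕ} (he : CS e)
    (he0 : ∀ a, 0 < e a) (G : ∀ a (m : ℕ), Submodule (Zinv m) (μ a → ℚ))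
    (L : ∀ a (p : Nat.Primes), Submodule (Zp p) (μ a → Qp p))
    (hmem : ∀ a m, 0 < m → ∀ x, x ∈ Γ a ↔
      castV ℚ x ∈ G a m ∧ ∀ p : Nat.Primes, p.1 ∣ m → castV (Qp p) x ∈ L a p)
    (hG : ∀ (B : Type) [Rep B] (g : B → A) (m : B → ℕ), CS g → CS m → (∀ b, 0 < m b) →
      (∀ b, e (g b) ∣ m b) →
      GenF (fun b => Zinv (m b)) (fun _ => ℚ) (fun b => ext (Zinv (m b)) ℚ (Γ₁ (g b))) →
      GenF (fun b => Zinv (m b)) (fun _ => ℚ) (fun b => ext (Zinv (m b)) ℚ (Γ₂ (g b))) →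
      ConF (fun b => Zinv (m b)) (fun _ => ℚ) (fun b => G (g b) (m b)))
    (hL : ConF (fun b : Σ _ : A, Nat.Primes => Zp b.2) (fun b => Qp b.2) (fun b => L b.1 b.2)) :
    CS Γ := by
  have key : ∀ (B : Type) [Rep B] (g : B → A) (m₁ m₂ : B → ℕ)
      (q₁ : ∀ b, List (ι (g b) → ℚ) × List (ι (g b) → ℚ))
      (q₂ : ∀ b, List (κ (g b) → ℚ) × List (κ (g b) → ℚ)), CS g → CS m₁ → CS m₂ → CS q₁ → CS q₂ →
      (∀ b, 0 < m₁ b ∧ ∀ m, 0 < m → m₁ b ∣ m →
        glob m (Γ₁ (g b)) = genMod (Zinv m) ℚ (q₁ b).1 (q₁ b).2) →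
      (∀ b, 0 < m₂ b ∧ ∀ m, 0 < m → m₂ b ∣ m →
        glob m (Γ₂ (g b)) = genMod (Zinv m) ℚ (q₂ b).1 (q₂ b).2) → CS (fun b => Γ (g b)) := by
    intro B _ g m₁ m₂ q₁ q₂ hg hm₁ hm₂ hq₁ hq₂ e₁ e₂
    obtain ⟨m, em⟩ : ∃ m : B → ℕ, m = fun b => m₁ b * m₂ b * e (g b) := ⟨_, rfl⟩
    have hm : CS m := em ▸ CS.mul MulF.nat (CS.mul MulF.nat hm₁ hm₂) (he.comp hg)
    have h0 : ∀ b, 0 < m b := fun b =>
      em ▸ Nat.mul_pos (Nat.mul_pos (e₁ b).1 (e₂ b).1) (he0 _)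
    have k := hG B g m hg hm h0 (fun b => em ▸ dvd_mul_left _ _)
      (MV.of_cs hq₁ fun b _ => (glob_eq _ _).symm.trans
        ((e₁ b).2 _ (h0 b) (em ▸ (dvd_mul_right _ _).mul_right _)))
      (MV.of_cs hq₂ fun b _ => (glob_eq _ _).symm.trans
        ((e₂ b).2 _ (h0 b) (em ▸ (dvd_mul_left _ _).mul_right _)))
    have k1 := CS.resGlob (hμ.comp hg) hm h0 k
    have hp : CS (fun c : Σ b : B, {p : Nat.Primes // p.1 ∣ m b} => c.2.1) := CS.val s2
    have k0 : CS (fun c : Σ _ : A, Nat.Primes => resQ (L c.1 c.2)) :=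
      CS.resLoc (hμ.comp s1) (hdμ.comp s1) s2 hL
    have k2 : CS (fun c : Σ b : B, {p : Nat.Primes // p.1 ∣ m b} => resQ (L (g c.1) c.2.1)) :=
      k0.comp (g := fun c : Σ b : B, {p : Nat.Primes // p.1 ∣ m b} => ⟨g c.1, c.2.1⟩)
        (CS.smk0 (hg.comp s1) hp)
    have k3 := CS.addiInf
      (F := fun (b : B) (p : {p : Nat.Primes // p.1 ∣ m b}) => resQ (L (g b) p.1))
      (CFin.primesDvd (m := fun b => ⟨m b, h0 b⟩) (CS.submk hm)) k2
    refine (CS.addInf k1 k3).congr fun b _ => AddSubgroup.ext fun x => ?_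
    rw [hmem _ _ (h0 b), AddSubgroup.mem_inf, AddSubgroup.mem_iInf]
    exact and_congr Iff.rfl ⟨fun h p hp => h ⟨p, hp⟩, fun h p => h p.1 p.2⟩
  exact MV.elim ((MV.globGen' hι hdι h₁).prod (MV.globGen' hκ hdκ h₂))
    (key _ _ _ _ _ _ v1 v2.fst.fst v2.snd.fst v2.fst.snd v2.snd.snd (fun b => b.2.1)
      fun b => b.2.2)

end fin

section coord
variable {ι : A → Type} [∀ a, Rep (ι a)] {Γ : ∀ a, AddSubgroup (ι a → ℚ)}

/-- Generators away from a modulus; every multiple of the modulus works as well. -/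
theorem MV.globGen (hι : CFin ι) (hd : Disc ι) (h : CS Γ) :
    MV (fun a (q : ℕ × List (ι a → ℚ) × List (ι a → ℚ)) => 0 < q.1 ∧
      ∀ m, 0 < m → q.1 ∣ m → glob m (Γ a) = genMod (Zinv m) ℚ q.2.1 q.2.2) := by
  classical
  refine CS.of_sub (T := fun _ => Sel _) (P := fun a => Finite (ι a)) (fun _ => hι.finite) ?_
  let _ : ∀ b : {a // Finite (ι a)}, Fintype (ι b.1) := fun b => @Fintype.ofFinite _ b.2
  exact MV.globGen' (hι.comp FEnumAux.v1) (hd.comp FEnumAux.v1) (h.comp FEnumAux.v1)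

/-- Generators at a prime. -/
theorem MV.locGen {p : A → Nat.Primes} (hι : CFin ι) (hd : Disc ι) (hp : CS p) (h : CS Γ) :
    MV (fun a (q : List (ι a → Qp (p a)) × List (ι a → Qp (p a))) =>
      loc (p a) (Γ a) = genMod (Zp (p a)) (Qp (p a)) q.1 q.2) := by
  classical
  refine CS.of_sub (T := fun _ => Sel _) (P := fun a => Finite (ι a)) (fun _ => hι.finite) ?_
  let _ : ∀ b : {a // Finite (ι a)}, Fintype (ι b.1) := fun b => @Fintype.ofFinite _ b.2
  exact GenF.atPrime (hι.comp FEnumAux.v1) (hd.comp FEnumAux.v1) (hp.comp FEnumAux.v1)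
    (h.comp FEnumAux.v1)

@[aesop safe 50 apply (transparency := reducible) (rule_sets := [Restrict])]
theorem CS.memLoc {p : A → Nat.Primes} {v : ∀ a, ι a → Qp (p a)} (hι : CFin ι) (hd : Disc ι)
    (hp : CS p) (h : CS Γ) (hv : CS v) : CS (fun a => v a ∈ loc (p a) (Γ a)) :=
  MV.elimP (MV.locGen hι hd hp h)
    (CS.memGen (FK.padic (hp.comp s1)) (hι.comp s1) s2.fst s2.snd (hv.comp s1))
    fun a q _ _ e => by rw [e]

theorem CS.lineLoc {p : A → Nat.Primes} {v : ∀ a, ι a → Qp (p a)} (hι : CFin ι) (hd : Disc ι)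
    (hp : CS p) (h : CS Γ) (hv : CS v) :
    CS (fun a => ∀ c : Qp (p a), c • v a ∈ loc (p a) (Γ a)) := by
  refine MV.elimP (MV.locGen hι hd hp h)
    (P' := fun a q => v a ∈ genMod (Zp (p a)) (Qp (p a)) [] q.2) (CS.memGen (FK.padic (hp.comp s1)) (hι.comp s1) CS.nil s2.snd (hv.comp s1))
    fun a q ha _ e => ?_
  have := hι.finite ha
  rw [e, mem_gen_nil]
  exact ⟨fun k c => mem_gen_of_span (Submodule.smul_mem _ c k), line_memL (nice_padic _)⟩

theorem CS.formLoc {p : A → Nat.Primes} {w : ∀ a, ι a → Qp (p a)} [∀ a, Fintype (ι a)]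
    (hι : CFin ι) (hd : Disc ι) (hp : CS p) (h : CS Γ) (hw : CS w) :
    CS (fun a => ∀ y ∈ loc (p a) (Γ a), ‖w a ⬝ᵥ y‖ ≤ 1) :=
  MV.elimP (MV.locGen hι hd hp h)
    (P' := fun a q => (∀ x ∈ q.1, IsI (Zp (p a)) (w a ⬝ᵥ x)) ∧ ∀ d ∈ q.2, w a ⬝ᵥ d = 0)
    (CS.and (CS.allMem s2.fst (CS.isI (FK.padic (hp.comp (s1.comp s1)))
        (CS.dotProduct (hι.comp (s1.comp s1)) AddF.padic ZeroF.padic MulF.padic
          (hw.comp (s1.comp s1)) s2)))
      (CS.allMem s2.snd (CS.eq (Disc.padic (hp.comp (s1.comp s1)))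
        (CS.dotProduct (hι.comp (s1.comp s1)) AddF.padic ZeroF.padic MulF.padic
          (hw.comp (s1.comp s1)) s2) (CS.zero ZeroF.padic))))
    fun a q _ _ e => by rw [e, form_iff]

end coord

end Pool.Agent.P.MP_257122_al
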