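import Pool.Agent.P.MP_257122_al.LAsm

/-!
# Bilinear operations in coordinates

PLAN.  `bx_cast`: expand `x`, `y` in the standard bases.  `ext_bil`, `bilM_gen`: span
inductions (`ext_le`, `genMod_le`, `map_gen` twice, using `LinearMap.flip`).  `homM_con`: test on
generators; `∀ c, IsI (c * z)` forces `z = 0`.  `homLat_local`: `mem_iff_local` for the target
group, `glob_eq`, `loc_eq`.  `GenF.bilM`, `ConF.homM`: `MV.bind` on `MV.prod`, `MV.of_cs`.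
`CS.bilC`, `CS.homC`: `CS.assemble` with `e = 1`, `GenF.atPrime`, `GenF.toCon`, `FK.zinv`, `FK.padic`.
-/

namespace Pool.Agent.P.MP_257122_al

open Matrix

section pure
variable {O K : Type} [CommRing O] [Field K] [Algebra O K] {ι κ μ : Type}

theorem bilM_gen (B : (ι → K) →ₗ[K] (κ → K) →ₗ[K] (μ → K)) (M D : List (ι → K))
    (M' D' : List (κ → K)) :
    bilM O B (genMod O K M D) (genMod O K M' D') = genMod O K (pairs (fun x y => B x y) M M')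
      (pairs (fun x y => B x y) M D' ++ pairs (fun x y => B x y) D (M' ++ D')) := by
  refine le_antisymm (Submodule.span_le.2 ?_) (genMod_le.2 ⟨?_, ?_⟩)
  · rintro _ ⟨x, hx, y, hy, rfl⟩
    refine map_gen (B.flip y) (fun x hx => map_gen (B x) (fun y hy => ?_) (fun d hd c => ?_) hy)
      (fun d hd c => map_gen (c • B d) (fun y hy => ?_) (fun e he c' => ?_) hy) hx
    · exact mem_gen_left (mem_pairs.2 ⟨x, hx, y, hy, rfl⟩)
    · exact smul_mem_gen (List.mem_append_left _ (mem_pairs.2 ⟨x, hx, d, hd, rfl⟩)) c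
    · exact smul_mem_gen (List.mem_append_right _
        (mem_pairs.2 ⟨d, hd, y, List.mem_append_left _ hy, rfl⟩)) c
    · rw [LinearMap.smul_apply, smul_smul]
      exact smul_mem_gen (List.mem_append_right _
        (mem_pairs.2 ⟨d, hd, e, List.mem_append_right _ he, rfl⟩)) _
  · intro z hz
    obtain ⟨x, hx, y, hy, rfl⟩ := mem_pairs.1 hz
    exact Submodule.subset_span ⟨x, mem_gen_left hx, y, mem_gen_left hy, rfl⟩
  · intro z hz c
    rcases List.mem_append.1 hz with hz | hz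
    · obtain ⟨x, hx, y, hy, rfl⟩ := mem_pairs.1 hz
      exact Submodule.subset_span ⟨x, mem_gen_left hx, c • y, smul_mem_gen hy c, map_smul _ _ _⟩
    · obtain ⟨x, hx, y, hy, rfl⟩ := mem_pairs.1 hz
      exact Submodule.subset_span ⟨c • x, smul_mem_gen hx c, y,
        (List.mem_append.1 hy).elim mem_gen_left mem_gen_right, by
          rw [map_smul, LinearMap.smul_apply]⟩

variable [Fintype ι] [Fintype κ] [Fintype μ] [DecidableEq ι] [DecidableEq κ]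

namespace LBilAux

omit [Fintype κ] [DecidableEq κ] in
theorem form_dot (B : (ι → K) →ₗ[K] (κ → K) →ₗ[K] (μ → K)) (c : μ → K) (v : κ → K)
    (ξ : ι → K) : (fun i => c ⬝ᵥ B (Pi.single i 1) v) ⬝ᵥ ξ = c ⬝ᵥ B ξ v := by
  conv_rhs => rw [pi_eq_sum_univ' ξ, map_sum, LinearMap.sum_apply, dotProduct_sum]
  refine Finset.sum_congr rfl fun i _ => ?_
  rw [map_smul, LinearMap.smul_apply, dotProduct_smul, smul_eq_mul, mul_comm]

theorem eq_zero (h : ∃ x : K, ¬ IsI O x) {z : K} (hz : ∀ c : K, IsI O (c * z)) : z = 0 := by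
  obtain ⟨x, hx⟩ := h
  by_contra h0
  exact hx (div_mul_cancel₀ x h0 ▸ hz (x / z))

end LBilAux

theorem homM_con (h : ∃ x : K, ¬ IsI O x) (B : (ι → K) →ₗ[K] (κ → K) →ₗ[K] (μ → K))
    (M D : List (κ → K)) (C E : List (μ → K)) :
    homM O B (genMod O K M D) (con O C E) =
      con O (pairs (fun c v i => c ⬝ᵥ B (Pi.single i 1) v) C (M ++ D) ++
        pairs (fun c v i => c ⬝ᵥ B (Pi.single i 1) v) E D)
        (pairs (fun c v i => c ⬝ᵥ B (Pi.single i 1) v) E M) := by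
  ext ξ
  refine ⟨fun hξ => ⟨fun z hz => ?_, fun z hz => ?_⟩, fun hξ v hv => ?_⟩
  · rcases List.mem_append.1 hz with hz | hz
    · obtain ⟨c, hc, v, hv, rfl⟩ := mem_pairs.1 hz
      rw [LBilAux.form_dot]
      exact (hξ v ((List.mem_append.1 hv).elim mem_gen_left mem_gen_right)).1 c hc
    · obtain ⟨c, hc, v, hv, rfl⟩ := mem_pairs.1 hz
      rw [LBilAux.form_dot]
      refine LBilAux.eq_zero h fun a => ?_
      have := (hξ _ (smul_mem_gen hv a)).2 c hc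
      rwa [map_smul, dotProduct_smul, smul_eq_mul] at this
  · obtain ⟨c, hc, v, hv, rfl⟩ := mem_pairs.1 hz
    rw [LBilAux.form_dot]
    exact (hξ v (mem_gen_left hv)).2 c hc
  · have h1 : ∀ c ∈ C, ∀ v ∈ M ++ D, c ⬝ᵥ B ξ v = 0 := fun c hc v hv => by
      rw [← LBilAux.form_dot]
      exact hξ.1 _ (List.mem_append_left _ (mem_pairs.2 ⟨c, hc, v, hv, rfl⟩))
    refine map_gen (B ξ) (fun v hv => mem_con.2
      ⟨fun c hc => h1 c hc v (List.mem_append_left _ hv), fun c hc => ?_⟩)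
      (fun v hv a => mem_con.2 ⟨fun c hc => ?_, fun c hc => ?_⟩) hv
    · rw [← LBilAux.form_dot]
      exact hξ.2 _ (mem_pairs.2 ⟨c, hc, v, hv, rfl⟩)
    · rw [dotProduct_smul, h1 c hc v (List.mem_append_right _ hv), smul_zero]
    · rw [dotProduct_smul, ← LBilAux.form_dot,
        hξ.1 _ (List.mem_append_right _ (mem_pairs.2 ⟨c, hc, v, hv, rfl⟩)), smul_zero]
      exact isI_zero O

theorem bx_cast [CharZero K] (β : (ι → ℚ) →ₗ[ℚ] (κ → ℚ) →ₗ[ℚ] (μ → ℚ)) (x : ι → ℚ)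
    (y : κ → ℚ) : bx (bc K β) (castV K x) (castV K y) = castV K (β x y) := by
  funext l
  conv_rhs => rw [pi_eq_sum_univ' x, pi_eq_sum_univ' y]
  simp only [bx_apply, bc, castV, map_sum, map_smul, LinearMap.sum_apply, LinearMap.smul_apply,
    Finset.sum_apply, Pi.smul_apply, smul_eq_mul, Rat.cast_sum, Rat.cast_mul, Finset.mul_sum]
  rw [Finset.sum_comm]
  exact Finset.sum_congr rfl fun j _ => Finset.sum_congr rfl fun i _ => by ring

theorem LBilAux.hom_ext [CharZero K] (β : (ι → ℚ) →ₗ[ℚ] (κ → ℚ) →ₗ[ℚ] (μ → ℚ))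
    (Λ : AddSubgroup (κ → ℚ)) (N : Submodule O (μ → K)) (ξ : ι → ℚ) :
    castV K ξ ∈ homM O (bx (bc K β)) (ext O K Λ) N ↔ ∀ v ∈ Λ, castV K (β ξ v) ∈ N := by
  refine ⟨fun h v hv => bx_cast (K := K) β ξ v ▸ h _ (cast_mem_ext hv), fun h v hv => ?_⟩
  refine (ext_le (N := N.comap ((bx (bc K β) (castV K ξ)).restrictScalars O))).2
    (fun w hw => ?_) hv
  change bx (bc K β) (castV K ξ) (castV K w) ∈ N
  rw [bx_cast]
  exact h w hw

theorem ext_bil [CharZero K] (β : (ι → ℚ) →ₗ[ℚ] (κ → ℚ) →ₗ[ℚ] (μ → ℚ))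
    (Λ : AddSubgroup (ι → ℚ)) (Λ' : AddSubgroup (κ → ℚ)) :
    ext O K (bil β Λ Λ') = bilM O (bx (bc K β)) (ext O K Λ) (ext O K Λ') := by
  refine le_antisymm (ext_le.2 ((AddSubgroup.closure_le _).2 ?_)) (Submodule.span_le.2 ?_)
  · rintro _ ⟨x, hx, y, hy, rfl⟩
    exact Submodule.subset_span ⟨_, cast_mem_ext hx, _, cast_mem_ext hy, bx_cast β x y⟩
  · rintro _ ⟨x, hx, y, hy, rfl⟩
    exact (ext_le (N := homM O (bx (bc K β)) (ext O K Λ') (ext O K (bil β Λ Λ')))).2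
      (fun ξ hξ => (LBilAux.hom_ext β Λ' _ ξ).2 fun v hv =>
        cast_mem_ext (AddSubgroup.subset_closure ⟨ξ, hξ, v, hv, rfl⟩)) hx y hy

theorem homLat_local (β : (ι → ℚ) →ₗ[ℚ] (κ → ℚ) →ₗ[ℚ] (μ → ℚ)) (Λ : AddSubgroup (κ → ℚ))
    (Λ' : AddSubgroup (μ → ℚ)) {m : ℕ} (hm : 0 < m) (ξ : ι → ℚ) :
    ξ ∈ homLat β Λ Λ' ↔
      castV ℚ ξ ∈ homM (Zinv m) (bx (bc ℚ β)) (ext (Zinv m) ℚ Λ) (ext (Zinv m) ℚ Λ') ∧
      ∀ p : Nat.Primes, p.1 ∣ m → castV (Qp p) ξ ∈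
        homM (Zp p) (bx (bc (Qp p) β)) (ext (Zp p) (Qp p) Λ) (ext (Zp p) (Qp p) Λ') := by
  simp only [LBilAux.hom_ext]
  simp only [castK_rat, ← glob_eq, ← loc_eq]
  exact ⟨fun h => ⟨fun v hv => ((mem_iff_local Λ' hm _).1 (h v hv)).1,
    fun p hp v hv => ((mem_iff_local Λ' hm _).1 (h v hv)).2 p hp⟩,
    fun h v hv => (mem_iff_local Λ' hm _).2 ⟨h.1 v hv, fun p hp => h.2 p hp v hv⟩⟩

end pure

variable {A : Type} [Rep A] {ι κ μ : A → Type}
  [∀ a, Rep (ι a)] [∀ a, Fintype (ι a)] [∀ a, DecidableEq (ι a)]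
  [∀ a, Rep (κ a)] [∀ a, Fintype (κ a)] [∀ a, DecidableEq (κ a)]
  [∀ a, Rep (μ a)] [∀ a, Fintype (μ a)] [∀ a, DecidableEq (μ a)]

namespace LBilAux

open FEnumAux

theorem mv2 {T U W : A → Type} [∀ a, Rep (T a)] [∀ a, Rep (U a)] [∀ a, Rep (W a)]
    {Q : ∀ a, T a → Prop} {Q' : ∀ a, U a → Prop} {R : ∀ a, W a → Prop} (h : MV Q) (h' : MV Q')
    {f : ∀ a, T a → U a → W a} (hf : CS f) (e : ∀ a x y, Q a x → Q' a y → R a (f a x y)) :
    MV R :=
  MV.bind (MV.prod h h') (MV.of_cs (f := fun p => f p.1.1 p.1.2.1 p.1.2.2)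
    (CS.app (CS.app (hf.comp (p1.comp v1)) (CS.fst (p2.comp v1))) (CS.snd (p2.comp v1)))
    fun p _ => e _ _ _ p.2.1 p.2.2)

variable {O K : A → Type} [∀ a, CommRing (O a)] [∀ a, Field (K a)] [∀ a, Algebra (O a) (K a)]
  [∀ a, Rep (K a)]

omit [∀ a, Fintype (μ a)] [∀ a, DecidableEq (μ a)] [∀ a, DecidableEq (ι a)]
  [∀ a, DecidableEq (κ a)] in
theorem cs_bx {t : ∀ a, ι a → κ a → μ a → K a} {x : ∀ a, ι a → K a} {y : ∀ a, κ a → K a}
    (hK : FK O K) (hι : CFin ι) (hκ : CFin κ) (ht : CS t) (hx : CS x) (hy : CS y) :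
    CS (fun a => bx (t a) (x a) (y a)) := by
  have g3 : CS (fun q : Σ q : (Σ q : (Σ a, μ a), ι q.1), κ q.1.1 => q.1.1.1) :=
    p1.comp (p1.comp p1)
  exact CS.lam (f := fun a l => ∑ i, ∑ j, x a i * y a j * t a i j l)
    (CS.sum (hι.comp p1) (hK.add.comp p1) (hK.zero.comp p1)
      (CS.sum (hκ.comp (p1.comp p1)) (hK.add.comp (p1.comp p1)) (hK.zero.comp (p1.comp p1))
        (CS.mul (hK.mul.comp g3) (CS.mul (hK.mul.comp g3) (CS.app (hx.comp g3) (p2.comp p1))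
          (CS.app (hy.comp g3) p2))
          (CS.app (CS.app (CS.app (ht.comp g3) (p2.comp p1)) p2) (p2.comp (p1.comp p1))))))

omit [∀ a, Fintype (μ a)] [∀ a, DecidableEq (μ a)] [∀ a, Fintype (ι a)]
  [∀ a, Fintype (κ a)] in
theorem cs_bc {β : ∀ a, (ι a → ℚ) →ₗ[ℚ] (κ a → ℚ) →ₗ[ℚ] (μ a → ℚ)} (hK : FK O K)
    (hι : CFin ι) (hdι : Disc ι) (hκ : CFin κ) (hdκ : Disc κ) (hβ : CS β) :
    CS (fun a => bc (K a) (β a)) := by
  have g2 : CS (fun q : Σ q : (Σ a, ι a), κ q.1 => q.1.1) := p1.comp p1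
  exact CS.lam (CS.lam (CS.castVec (hK.comp g2) (CS.linApp (CS.linApp (hβ.comp g2)
    (CS.piSingle (hdι.comp g2) ((hι.haus hdι).comp g2) ZeroF.rat (p2.comp p1) CS.const))
    (CS.piSingle (hdκ.comp g2) ((hκ.haus hdκ).comp g2) ZeroF.rat p2 CS.const))))

omit [∀ a, Fintype (μ a)] [∀ a, DecidableEq (μ a)] [∀ a, DecidableEq (ι a)]
  [∀ a, DecidableEq (κ a)] in
theorem gen_bilM {t : ∀ a, ι a → κ a → μ a → K a} {N : ∀ a, Submodule (O a) (ι a → K a)}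
    {N' : ∀ a, Submodule (O a) (κ a → K a)} (hK : FK O K) (hι : CFin ι) (hκ : CFin κ)
    (ht : CS t) (h : GenF O K N) (h' : GenF O K N') :
    GenF O K (fun a => bilM (O a) (bx (t a)) (N a) (N' a)) := by
  have hB : CS (fun a (x : ι a → K a) (y : κ a → K a) => bx (t a) x y) :=
    have g2 : CS (fun q : Σ q : (Σ a, ι a → K a), κ q.1 → K q.1 => q.1.1) := p1.comp p1
    CS.lam (CS.lam (cs_bx (hK.comp g2) (hι.comp g2) (hκ.comp g2) (ht.comp g2) (p2.comp p1) p2))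
  have g2 : CS (fun q : Σ q : (Σ a, List (ι a → K a) × List (ι a → K a)),
    List (κ q.1 → K q.1) × List (κ q.1 → K q.1) => q.1.1) := p1.comp p1
  have k := hB.comp g2
  have k1 : CS (fun q : Σ q : (Σ a, List (ι a → K a) × List (ι a → K a)),
    List (κ q.1 → K q.1) × List (κ q.1 → K q.1) => q.1.2) := p2.comp p1
  refine mv2 h h' (f := fun a q q' => (pairs (fun x y => bx (t a) x y) q.1 q'.1,
    pairs (fun x y => bx (t a) x y) q.1 q'.2 ++
      pairs (fun x y => bx (t a) x y) q.2 (q'.1 ++ q'.2))) (CS.lam (CS.lam (CS.pair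
    (CS.prs k (CS.fst k1) (CS.fst p2)) (CS.append (CS.prs k (CS.fst k1) (CS.snd p2))
    (CS.prs k (CS.snd k1) (CS.append (CS.fst p2) (CS.snd p2))))))) fun a q q' e e' => ?_
  beta_reduce
  rw [e, e', bilM_gen]

omit [∀ a, DecidableEq (μ a)] in
theorem con_homM {t : ∀ a, ι a → κ a → μ a → K a} {N : ∀ a, Submodule (O a) (κ a → K a)}
    {N' : ∀ a, Submodule (O a) (μ a → K a)} (hK : FK O K) (hι : CFin ι) (hdι : Disc ι)
    (hκ : CFin κ) (hμ : CFin μ) (ht : CS t) (h : GenF O K N) (h' : ConF O K N') :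
    ConF O K (fun a => homM (O a) (bx (t a)) (N a) (N' a)) := by
  have hB : CS (fun a (c : μ a → K a) (v : κ a → K a) (i : ι a) =>
      c ⬝ᵥ bx (t a) (Pi.single i 1) v) :=
    have g3 : CS (fun q : Σ q : (Σ q : (Σ a, μ a → K a), κ q.1 → K q.1), ι q.1.1 => q.1.1.1) :=
      p1.comp (p1.comp p1)
    CS.lam (CS.lam (CS.lam (CS.dotProduct (hμ.comp g3) (hK.add.comp g3) (hK.zero.comp g3)
      (hK.mul.comp g3) (p2.comp (p1.comp p1))
      (cs_bx (hK.comp g3) (hι.comp g3) (hκ.comp g3) (ht.comp g3)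
        (CS.piSingle (hdι.comp g3) ((hι.haus hdι).comp g3) (hK.zero.comp g3) p2
          (CS.one (hK.one.comp g3))) (p2.comp p1)))))
  have g2 : CS (fun q : Σ q : (Σ a, List (κ a → K a) × List (κ a → K a)),
    List (μ q.1 → K q.1) × List (μ q.1 → K q.1) => q.1.1) := p1.comp p1
  have k := hB.comp g2
  have k1 : CS (fun q : Σ q : (Σ a, List (κ a → K a) × List (κ a → K a)),
    List (μ q.1 → K q.1) × List (μ q.1 → K q.1) => q.1.2) := p2.comp p1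
  refine mv2 h h' (f := fun a q q' =>
    (pairs (fun c v i => c ⬝ᵥ bx (t a) (Pi.single i 1) v) q'.1 (q.1 ++ q.2) ++
      pairs (fun c v i => c ⬝ᵥ bx (t a) (Pi.single i 1) v) q'.2 q.2,
      pairs (fun c v i => c ⬝ᵥ bx (t a) (Pi.single i 1) v) q'.2 q.1)) (CS.lam (CS.lam (CS.pair
    (CS.append (CS.prs k (CS.fst p2) (CS.append (CS.fst k1) (CS.snd k1)))
      (CS.prs k (CS.snd p2) (CS.snd k1))) (CS.prs k (CS.snd p2) (CS.fst k1)))))
    fun a q q' e e' => ?_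
  beta_reduce
  rw [e, e', homM_con (hK.nice _).nf]

end LBilAux

open LBilAux FEnumAux in
theorem CS.bilC {β : ∀ a, (ι a → ℚ) →ₗ[ℚ] (κ a → ℚ) →ₗ[ℚ] (μ a → ℚ)}
    {Λ : ∀ a, AddSubgroup (ι a → ℚ)} {Λ' : ∀ a, AddSubgroup (κ a → ℚ)} (hι : CFin ι)
    (hdι : Disc ι) (hκ : CFin κ) (hdκ : Disc κ) (hμ : CFin μ) (hdμ : Disc μ) (hβ : CS β)
    (h : CS Λ) (h' : CS Λ') : CS (fun a => bil (β a) (Λ a) (Λ' a)) := by
  refine CS.assemble hι hdι hκ hdκ hμ hdμ h h' (e := fun _ => 1) CS.const (fun _ => one_pos)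
    (fun a m => bilM (Zinv m) (bx (bc ℚ (β a))) (ext (Zinv m) ℚ (Λ a)) (ext (Zinv m) ℚ (Λ' a)))
    (fun a p => bilM (Zp p) (bx (bc (Qp p) (β a))) (ext (Zp p) (Qp p) (Λ a))
      (ext (Zp p) (Qp p) (Λ' a))) (fun a m hm x => ?_) (fun B _ g m hg hm h0 _ k k' => ?_) ?_
  · simp only [← ext_bil]
    simp only [castK_rat, ← glob_eq, ← loc_eq]
    exact mem_iff_local _ hm x
  · have hK := FK.zinv hm h0
    exact (gen_bilM hK (hι.comp hg) (hκ.comp hg) (cs_bc hK (hι.comp hg) (hdι.comp hg)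
      (hκ.comp hg) (hdκ.comp hg) (hβ.comp hg)) k k').toCon hK (hμ.comp hg) (hdμ.comp hg)
  · have hg := p1 (A := A) (T := fun _ => Nat.Primes)
    have hp := p2 (A := A) (T := fun _ => Nat.Primes)
    have hK := FK.padic hp
    exact (gen_bilM hK (hι.comp hg) (hκ.comp hg) (cs_bc hK (hι.comp hg) (hdι.comp hg)
      (hκ.comp hg) (hdκ.comp hg) (hβ.comp hg))
      (GenF.atPrime (hι.comp hg) (hdι.comp hg) hp (h.comp hg))
      (GenF.atPrime (hκ.comp hg) (hdκ.comp hg) hp (h'.comp hg))).toCon hK (hμ.comp hg)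
      (hdμ.comp hg)

open LBilAux FEnumAux in
theorem CS.homC {β : ∀ a, (ι a → ℚ) →ₗ[ℚ] (κ a → ℚ) →ₗ[ℚ] (μ a → ℚ)}
    {Λ : ∀ a, AddSubgroup (κ a → ℚ)} {Λ' : ∀ a, AddSubgroup (μ a → ℚ)} (hι : CFin ι)
    (hdι : Disc ι) (hκ : CFin κ) (hdκ : Disc κ) (hμ : CFin μ) (hdμ : Disc μ) (hβ : CS β)
    (h : CS Λ) (h' : CS Λ') : CS (fun a => homLat (β a) (Λ a) (Λ' a)) := by
  refine CS.assemble hκ hdκ hμ hdμ hι hdι h h' (e := fun _ => 1) CS.const (fun _ => one_pos)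
    (fun a m => homM (Zinv m) (bx (bc ℚ (β a))) (ext (Zinv m) ℚ (Λ a)) (ext (Zinv m) ℚ (Λ' a)))
    (fun a p => homM (Zp p) (bx (bc (Qp p) (β a))) (ext (Zp p) (Qp p) (Λ a))
      (ext (Zp p) (Qp p) (Λ' a))) (fun a m hm x => homLat_local _ _ _ hm x)
    (fun B _ g m hg hm h0 _ k k' => ?_) ?_
  · have hK := FK.zinv hm h0
    exact con_homM hK (hι.comp hg) (hdι.comp hg) (hκ.comp hg) (hμ.comp hg)
      (cs_bc hK (hι.comp hg) (hdι.comp hg) (hκ.comp hg) (hdκ.comp hg) (hβ.comp hg)) k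
      (k'.toCon hK (hμ.comp hg) (hdμ.comp hg))
  · have hg := p1 (A := A) (T := fun _ => Nat.Primes)
    have hp := p2 (A := A) (T := fun _ => Nat.Primes)
    have hK := FK.padic hp
    exact con_homM hK (hι.comp hg) (hdι.comp hg) (hκ.comp hg) (hμ.comp hg)
      (cs_bc hK (hι.comp hg) (hdι.comp hg) (hκ.comp hg) (hdκ.comp hg) (hβ.comp hg))
      (GenF.atPrime (hκ.comp hg) (hdκ.comp hg) hp (h.comp hg))
      ((GenF.atPrime (hμ.comp hg) (hdμ.comp hg) hp (h'.comp hg)).toCon hK (hμ.comp hg)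
        (hdμ.comp hg))

end Pool.Agent.P.MP_257122_al
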