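import Pool.Agent.P.MP_257122_al.LGen

/-!
# Certificates for the passage between generators and constraints

PLAN.  `cert_sound`: `≥` by `genMod_le`; `≤`: for `y` in `con C A` apply `map_gen` to the
`K`-linear map `T ↦ fun i => ∑ j, T (i, j) * y j`, which sends `tn u v` to `(v ⬝ᵥ y) • u` and
`idv` to `y`.  `cert_symm`: `map_gen` for the swap `T ↦ T ∘ Prod.swap`.  `cert_exists`: let
`W` be the kernel of `C`, `α : (ι → K) →ₗ[K] (Fin u → K)` the map `y ↦ fun j => A.get j ⬝ᵥ y`
and `P` the submodule of those `s : Fin u → O` whose image in `Fin u → K` lies in `α W`.  The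
quotient by `P` is finitely generated and torsion free, hence free and projective, so there is
`π : (Fin u → O) →ₗ[O] (Fin u → O)` with values in `P` fixing `P`.  Choose `M j ∈ W` with
`α (M j) = π (e j)`; `D` spans `W ⊓ ker α`; `E` lists the standard basis.  The matrix
`T = idv - ∑ j, tn (M j) (A j)` maps `W` into the span of `D` (clear denominators), so
`T = (1 - q) T + q T` (with `q` a projection with kernel the span of `D`) has a part with columns
in the span of `D` and a part with rows in the span of `C` (`mem_span_of_iInf_ker_le_ker`).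
`line_memL`: `cert_exists` for `(D, M)`, `cert_symm`, `cert_sound`, and the map of `cert_sound`.
`nice_zinv`: an ideal is generated by a generator of its contraction to `ℤ`; `1 / q` is not
integral for a prime `q > m`.
-/

namespace Pool.Agent.P.MP_257122_al

open Matrix

variable {O K : Type} [CommRing O] [Field K] [Algebra O K] {ι : Type}

namespace LCertAux

/-- A matrix, written as a vector, applied to `y`. -/
def ev [Fintype ι] (y : ι → K) : (ι × ι → K) →ₗ[K] (ι → K) where
  toFun T i := ∑ j, T (i, j) * y j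
  map_add' T T' := by ext i; simp [add_mul, Finset.sum_add_distrib]
  map_smul' c T := by ext i; simp [Finset.mul_sum, mul_assoc]

theorem ev_tn [Fintype ι] (y u v : ι → K) : ev y (tn u v) = (v ⬝ᵥ y) • u := by
  ext i
  simp [ev, tn, dotProduct, Finset.sum_mul, mul_assoc, mul_comm (u i)]

theorem ev_idv [Fintype ι] [DecidableEq ι] (y : ι → K) : ev y (idv K ι) = y := by
  ext i
  simp [ev, idv]

theorem mem_of_cert [Fintype ι] [DecidableEq ι] {C A M D E : List (ι → K)} {y : ι → K}
    {N : Submodule O (ι → K)}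
    (h : idv K ι ∈ genMod O K (pairs tn M A) (pairs tn D E ++ pairs tn E C))
    (h1 : ∀ x ∈ M, ∀ a ∈ A, (a ⬝ᵥ y) • x ∈ N) (h2 : ∀ d ∈ D, ∀ c : K, c • d ∈ N)
    (h3 : ∀ c ∈ C, c ⬝ᵥ y = 0) : y ∈ N := by
  rw [← ev_idv y]
  refine map_gen (ev y) (fun T hT => ?_) (fun T hT c => ?_) h
  · obtain ⟨x, hx, a, ha, rfl⟩ := mem_pairs.1 hT
    rw [ev_tn]
    exact h1 x hx a ha
  · rcases List.mem_append.1 hT with hT | hT <;> obtain ⟨x, hx, a, ha, rfl⟩ := mem_pairs.1 hT
    · rw [ev_tn, smul_smul]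
      exact h2 x hx _
    · rw [ev_tn, h3 a ha, zero_smul, smul_zero]
      exact N.zero_mem

theorem mem_span_of_dot [Fintype ι] [DecidableEq ι] {C : List (ι → K)} {r : ι → K}
    (h : ∀ y, (∀ c ∈ C, c ⬝ᵥ y = 0) → r ⬝ᵥ y = 0) : r ∈ Submodule.span K {x | x ∈ C} := by
  by_contra hr
  obtain ⟨f, hf, hf'⟩ := Submodule.exists_dual_map_eq_bot_of_notMem hr inferInstance
  obtain ⟨y, rfl⟩ := (dotProductEquiv K ι).surjective f
  refine hf ((dotProduct_comm y r).trans (h y fun c hc => (dotProduct_comm c y).trans ?_))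
  exact (Submodule.eq_bot_iff _).1 hf' _ ⟨c, Submodule.subset_span hc, rfl⟩

/-- The tensor product as a bilinear map. -/
def tnL : (ι → K) →ₗ[K] (ι → K) →ₗ[K] (ι × ι → K) :=
  LinearMap.mk₂ K tn (fun _ _ _ => funext fun _ => add_mul _ _ _)
    (fun _ _ _ => funext fun _ => mul_assoc _ _ _) (fun _ _ _ => funext fun _ => mul_add _ _ _)
    fun _ _ _ => funext fun _ => mul_left_comm _ _ _

theorem tn_mem {X Y : List (ι → K)} {u v : ι → K} (hu : u ∈ Submodule.span K {x | x ∈ X})
    (hv : v ∈ Submodule.span K {x | x ∈ Y}) :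
    tn u v ∈ Submodule.span K {x | x ∈ pairs tn X Y} := by
  have := Submodule.apply_mem_map₂ tnL hu hv
  rw [Submodule.map₂_span_span] at this
  exact Submodule.span_mono (fun z hz => mem_pairs.2 hz) this

theorem split [Fintype ι] [DecidableEq ι] {C D E : List (ι → K)} (hE : ∀ i, Pi.single i 1 ∈ E)
    {T : ι × ι → K} (h : ∀ y, (∀ c ∈ C, c ⬝ᵥ y = 0) → ev y T ∈ Submodule.span K {x | x ∈ D}) :
    T ∈ Submodule.span K {x | x ∈ pairs tn D E ++ pairs tn E C} := by
  obtain ⟨q, hq⟩ := (Submodule.span K {x | x ∈ D}).subtype.exists_leftInverse_of_injective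
    (Submodule.ker_subtype _)
  let T1 : ι × ι → K := fun p => (q fun i => T (i, p.2)).1 p.1
  have e1 : T1 = ∑ j, tn (q fun i => T (i, j)).1 (Pi.single j 1) := by
    ext ⟨i, j⟩
    simp [T1, tn, Pi.single_apply]
  have e2 : T - T1 = ∑ i, tn (Pi.single i 1) fun j => (T - T1) (i, j) := by
    ext ⟨i, j⟩
    simp [tn, Pi.single_apply]
  rw [← add_sub_cancel T1 T]
  refine Submodule.add_mem _ ?_ ?_
  · rw [e1]
    exact Submodule.sum_mem _ fun j _ => Submodule.span_mono (fun _ => List.mem_append_left _)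
      (tn_mem (q _).2 (Submodule.subset_span (hE j)))
  · rw [e2]
    refine Submodule.sum_mem _ fun i _ => Submodule.span_mono (fun _ => List.mem_append_right _)
      (tn_mem (Submodule.subset_span (hE i)) (mem_span_of_dot fun y hy => ?_))
    have e3 : ev y T = ∑ j, y j • fun i => T (i, j) := by
      ext i
      simp [ev, mul_comm]
    have e4 : ev y T1 = (q (ev y T)).1 := by
      rw [e3]
      ext i
      simp [ev, T1, mul_comm]
    have e5 : q (ev y T) = ⟨_, h y hy⟩ := LinearMap.congr_fun hq ⟨_, h y hy⟩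
    show ev y (T - T1) i = 0
    rw [map_sub, e4, e5, sub_self, Pi.zero_apply]

theorem exists_proj (h : Nice O K) {u : ℕ} (U : Submodule K (Fin u → K)) :
    ∃ π : Fin u → Fin u → O, (∀ j, (fun i => algebraMap O K (π j i)) ∈ U) ∧
      ∀ z ∈ U, ∑ j, z j • (fun i => algebraMap O K (π j i)) = z := by
  have := h.dom
  have := h.pid
  have := h.frac
  let φ : (Fin u → O) →ₗ[O] (Fin u → K) := (Algebra.linearMap O K).compLeft (Fin u)
  let P : Submodule O (Fin u → O) := (U.restrictScalars O).comap φ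
  have hne : ∀ o : O, o ≠ 0 → algebraMap O K o ≠ 0 := fun o ho =>
    (map_ne_zero_iff _ (IsFractionRing.injective O K)).2 ho
  have : Module.IsTorsionFree O ((Fin u → O) ⧸ P) := Module.IsTorsionFree.of_smul_eq_zero
    fun o s hs => or_iff_not_imp_left.2 fun ho => by
      obtain ⟨s, rfl⟩ := P.mkQ_surjective s
      rw [← map_smul] at hs
      have h1 : φ (o • s) ∈ U := (Submodule.Quotient.mk_eq_zero P).1 hs
      rw [map_smul, ← algebraMap_smul K] at h1
      exact (Submodule.Quotient.mk_eq_zero P).2 ((U.smul_mem_iff (hne o ho)).1 h1)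
  obtain ⟨σ, hσ⟩ := Module.projective_lifting_property P.mkQ LinearMap.id P.mkQ_surjective
  let π : (Fin u → O) →ₗ[O] (Fin u → O) := LinearMap.id - σ ∘ₗ P.mkQ
  refine ⟨fun j => π (Pi.single j 1), fun j => ?_, fun z hz => ?_⟩
  · refine (Submodule.Quotient.mk_eq_zero P).1 (?_ : P.mkQ (_ - σ (P.mkQ _)) = 0)
    rw [map_sub]
    exact sub_eq_zero.2 (LinearMap.congr_fun hσ _).symm
  · obtain ⟨b, hb⟩ := IsLocalization.exist_integer_multiples_of_finite (nonZeroDivisors O) z
    choose s hs using hb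
    have e : φ s = algebraMap O K b • z := funext fun i => (hs i).trans (Algebra.smul_def _ _)
    have h1 : P.mkQ s = 0 := (Submodule.Quotient.mk_eq_zero P).2 (by
      show φ s ∈ U
      rw [e]
      exact U.smul_mem _ hz)
    have h2 : π s = s := by
      show s - σ (P.mkQ s) = s
      rw [h1, map_zero, sub_zero]
    refine smul_right_injective _ (hne b (nonZeroDivisors.coe_ne_zero b)) ?_
    show algebraMap O K b • _ = algebraMap O K b • z
    rw [← e, ← h2, LinearMap.pi_apply_eq_sum_univ π s, map_sum, Finset.smul_sum]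
    refine Finset.sum_congr rfl fun j _ => ?_
    rw [map_smul, ← algebraMap_smul K (s j), hs j, smul_smul, Algebra.smul_def (b : O)]
    exact congrArg (fun w => _ • φ (π w)) (funext fun i => by simp [Pi.single_apply, eq_comm])

end LCertAux

open LCertAux

theorem cert_sound [Fintype ι] [DecidableEq ι] {C A M D E : List (ι → K)}
    (h : LCrt O C A M D E) : con O C A = genMod O K M D := by
  refine le_antisymm (fun y hy => mem_of_cert h.2.2.2.2
    (fun x hx a ha => (hy.2 a ha).smul_mem (mem_gen_left hx)) (fun d hd c => smul_mem_gen hd c) hy.1)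
    (genMod_le.2 ⟨fun x hx => ⟨fun c hc => h.1 c hc x hx, fun a ha => h.2.2.2.1 a ha x hx⟩,
      fun d hd c => ⟨fun c' hc => ?_, fun a ha => ?_⟩⟩)
  · rw [dotProduct_smul, h.2.1 c' hc d hd, smul_zero]
  · rw [dotProduct_smul, h.2.2.1 a ha d hd, smul_zero]
    exact isI_zero O

theorem cert_symm [Fintype ι] [DecidableEq ι] {C A M D E : List (ι → K)}
    (h : LCrt O C A M D E) : LCrt O D M A C E := by
  refine ⟨fun d hd a ha => (dotProduct_comm _ _).trans (h.2.2.1 a ha d hd),
    fun d hd c hc => (dotProduct_comm _ _).trans (h.2.1 c hc d hd),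
    fun x hx c hc => (dotProduct_comm _ _).trans (h.1 c hc x hx),
    fun x hx a ha => dotProduct_comm a x ▸ h.2.2.2.1 a ha x hx, ?_⟩
  have e : ∀ u v : ι → K, LinearMap.funLeft K K Prod.swap (tn u v) = tn v u :=
    fun u v => funext fun _ => mul_comm _ _
  have e' : LinearMap.funLeft K K Prod.swap (idv K ι) = idv K ι :=
    funext fun p => if_congr eq_comm rfl rfl
  rw [← e']
  refine map_gen _ (fun T hT => ?_) (fun T hT c => ?_) h.2.2.2.2
  · obtain ⟨x, hx, a, ha, rfl⟩ := mem_pairs.1 hT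
    rw [e]
    exact mem_gen_left (mem_pairs.2 ⟨a, ha, x, hx, rfl⟩)
  · rcases List.mem_append.1 hT with hT | hT <;> obtain ⟨x, hx, a, ha, rfl⟩ := mem_pairs.1 hT <;>
      rw [e]
    · exact smul_mem_gen (List.mem_append_right _ (mem_pairs.2 ⟨a, ha, x, hx, rfl⟩)) c
    · exact smul_mem_gen (List.mem_append_left _ (mem_pairs.2 ⟨a, ha, x, hx, rfl⟩)) c

theorem cert_exists [Fintype ι] [DecidableEq ι] (h : Nice O K) (C A : List (ι → K)) :
    ∃ M D E, LCrt O C A M D E := by
  let W : Submodule K (ι → K) := con K C []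
  have hW : ∀ y, y ∈ W ↔ ∀ c ∈ C, c ⬝ᵥ y = 0 := fun y =>
    ⟨fun k => k.1, fun k => ⟨k, fun _ ha => nomatch ha⟩⟩
  let α : (ι → K) →ₗ[K] (Fin A.length → K) := (Matrix.of A.get).mulVecLin
  obtain ⟨π, h1, h2⟩ := exists_proj h (W.map α)
  choose M hM hM' using h1
  obtain ⟨D, hD⟩ := IsNoetherian.noetherian (W ⊓ LinearMap.ker α)
  have hD' : ∀ d ∈ D.toList, d ∈ W ⊓ LinearMap.ker α := fun d hd =>
    hD ▸ Submodule.subset_span (Finset.mem_toList.1 hd)
  refine ⟨List.ofFn M, D.toList, Finset.univ.toList.map fun i => Pi.single i 1,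
    fun c hc x hx => ?_, fun c hc d hd => (hD' d hd).1.1 c hc, fun a ha d hd => ?_,
    fun a ha x hx => ?_, ?_⟩
  · obtain ⟨j, rfl⟩ := (List.mem_ofFn' _ _).1 hx
    exact (hM j).1 c hc
  · obtain ⟨i, rfl⟩ := List.mem_iff_get.1 ha
    exact congrFun (hD' d hd).2 i
  · obtain ⟨j, rfl⟩ := (List.mem_ofFn' _ _).1 hx
    obtain ⟨i, rfl⟩ := List.mem_iff_get.1 ha
    exact ⟨π j i, (congrFun (hM' j) i).symm⟩
  · rw [← add_sub_cancel (∑ j, tn (M j) (A.get j)) (idv K ι)]
    refine Submodule.add_mem _ (Submodule.sum_mem _ fun j _ => mem_gen_left (mem_pairs.2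
      ⟨M j, (List.mem_ofFn' _ _).2 ⟨j, rfl⟩, A.get j, List.get_mem _ _, rfl⟩))
      (mem_gen_of_span (split (fun i => List.mem_map.2 ⟨i, by simp, rfl⟩) fun y hy => ?_))
    have e : {x | x ∈ D.toList} = (D : Set (ι → K)) := Set.ext fun _ => Finset.mem_toList
    rw [e, hD, map_sub, ev_idv, map_sum]
    simp only [ev_tn]
    refine ⟨W.sub_mem ((hW y).2 hy) (W.sum_mem fun j _ => W.smul_mem _ (hM j)), ?_⟩
    show α _ = 0
    rw [map_sub, map_sum, sub_eq_zero, ← h2 (α y) ⟨y, (hW y).2 hy, rfl⟩]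
    exact Finset.sum_congr rfl fun j _ => by rw [map_smul, hM']; rfl

theorem line_memL [Finite ι] (h : Nice O K) {M D : List (ι → K)} {y : ι → K}
    (hy : ∀ c : K, c • y ∈ genMod O K M D) : y ∈ Submodule.span K {x | x ∈ D} := by
  classical
  have := Fintype.ofFinite ι
  obtain ⟨M', D', E, hc⟩ := cert_exists h D M
  have hc' := cert_symm hc
  rw [← cert_sound hc'] at hy
  refine (mem_gen_nil (O := O)).1 (mem_of_cert hc'.2.2.2.2 (fun x _ a ha => ?_)
    (fun d hd c => smul_mem_gen hd c) (one_smul K y ▸ (hy 1).1))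
  have : a ⬝ᵥ y = 0 := by
    by_contra h0
    obtain ⟨z, hz⟩ := h.nf
    have := (hy (z / (a ⬝ᵥ y))).2 a ha
    rw [dotProduct_smul, smul_eq_mul, div_mul_cancel₀ _ h0] at this
    exact hz this
  rw [this, zero_smul]
  exact Submodule.zero_mem _

theorem nice_zinv {m : ℕ} (hm : 0 < m) : Nice (Zinv m) ℚ := by
  refine ⟨inferInstance, ⟨fun I => ?_⟩, IsFractionRing.of_field _ _ fun z =>
    ⟨z.num, z.den, by simp [Rat.num_div_den]⟩, ?_⟩
  · obtain ⟨g, hg⟩ := (IsPrincipalIdealRing.principal (I.comap (Int.castRingHom (Zinv m)))).principal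
    have h1 : g ∈ I.comap (Int.castRingHom (Zinv m)) := hg ▸ Submodule.mem_span_singleton_self g
    refine ⟨(g : Zinv m), le_antisymm (fun x hx => ?_) ((Submodule.span_singleton_le_iff_mem _ _).2 h1)⟩
    have h2 : x.1.num ∈ I.comap (Int.castRingHom (Zinv m)) := by
      have e : Int.castRingHom (Zinv m) x.1.num = (x.1.den : Zinv m) * x :=
        Subtype.ext (by simp [Rat.den_mul_eq_num])
      rw [Ideal.mem_comap, e]
      exact I.mul_mem_left _ hx
    rw [hg] at h2
    obtain ⟨a, ha⟩ := Submodule.mem_span_singleton.1 h2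
    have h3 : (x.1.den : ℚ)⁻¹ ∈ Zinv m := fun p hp hd =>
      x.2 p hp (by rwa [Rat.inv_natCast_den_of_pos x.1.den_pos] at hd)
    refine Submodule.mem_span_singleton.2 ⟨a * ⟨_, h3⟩, Subtype.ext ?_⟩
    have e : (a : ℚ) * g = x.1.num := by exact_mod_cast ha
    show (a : ℚ) * (x.1.den : ℚ)⁻¹ * g = x.1
    rw [mul_right_comm, e, ← div_eq_mul_inv, Rat.num_div_den]
  · obtain ⟨q, hq, hp⟩ := Nat.exists_infinite_primes (m + 1)
    refine ⟨(q : ℚ)⁻¹, fun k => ?_⟩
    have := Nat.le_of_dvd hm (isI_zinv.1 k q hp (by rw [Rat.inv_natCast_den_of_pos hp.pos]))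
    omega

theorem nice_int : Nice ℤ ℚ := by
  refine ⟨inferInstance, inferInstance, inferInstance, 2⁻¹, fun ⟨o, ho⟩ => ?_⟩
  have e : ((2 * o : ℤ) : ℚ) = (1 : ℤ) := by
    rw [eq_intCast] at ho
    rw [Int.cast_mul, ho]
    norm_num
  have := Int.cast_injective e
  omega

theorem nice_padic (p : Nat.Primes) : Nice (Zp p) (Qp p) := by
  refine ⟨inferInstance, inferInstance, inferInstance, (p.1 : Qp p)⁻¹, fun k => ?_⟩
  have h1 := isI_padic.1 k
  rw [norm_inv, Padic.norm_p, inv_inv] at h1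
  exact absurd h1 (not_le.2 (by exact_mod_cast p.2.one_lt))

end Pool.Agent.P.MP_257122_al
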