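import Pool.Agent.P.MP_257122_al.Rep

/-!
# Algebraic elements of complete fields, generic complex points, described subgroups
-/

namespace Pool.Agent.P.MP_257122_al

open Polynomial

instance factPrimes (p : Nat.Primes) : Fact p.1.Prime := ⟨p.2⟩

/-- The field of `p`-adic numbers. -/
abbrev Qp (p : Nat.Primes) : Type := ℚ_[p.1]

/-- The ring of `p`-adic integers. -/
abbrev Zp (p : Nat.Primes) : Type := ℤ_[p.1]

section alg
variable (F : Type) [NormedField F] [CharZero F]

/-- Newton data `(f, a, r)`: the map `x ↦ x - f x / f' a` contracts the ball of radius `r`. -/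
def Good (t : ℚ[X] × ℚ × ℚ) : Prop :=
  0 < t.2.2 ∧
  4 * ‖(((taylor t.2.1 t.1).coeff 0 : ℚ) : F)‖ < (t.2.2 : ℝ) * ‖(((taylor t.2.1 t.1).coeff 1 : ℚ) : F)‖ ∧
  2 * ∑ k ∈ Finset.range t.1.natDegree,
    ((k : ℝ) + 2) * ‖(((taylor t.2.1 t.1).coeff (k + 2) : ℚ) : F)‖ * (t.2.2 : ℝ) ^ (k + 1) <
    ‖(((taylor t.2.1 t.1).coeff 1 : ℚ) : F)‖

open Classical in
/-- A root of `f` in the ball of radius `r` about `a`, if there is one. -/
noncomputable def root (t : ℚ[X] × ℚ × ℚ) : F :=
  if h : ∃ x : F, ‖x - (t.2.1 : F)‖ ≤ (t.2.2 : ℝ) ∧ aeval x t.1 = 0 then h.choose else 0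

/-- The value of a formal rational combination of products of roots. -/
noncomputable def algVal (l : List (ℚ × List (ℚ[X] × ℚ × ℚ))) : F :=
  (l.map fun p => (p.1 : F) * (p.2.map (root F)).prod).sum

/-- Algebraic elements are coded by rational combinations of products of isolated roots. -/
@[reducible] noncomputable def repAlg : Rep F :=
  ⟨fun c x => ∃ l : List (ℚ × List (ℚ[X] × ℚ × ℚ)), Rep.R c l ∧
    (∀ p ∈ l, ∀ t ∈ p.2, Good F t) ∧ algVal F l = x⟩

end alg

noncomputable instance repReal : Rep ℝ := repAlg ℝ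
noncomputable instance repPadic {p : ℕ} [Fact p.Prime] : Rep ℚ_[p] := repAlg ℚ_[p]

/-- The norm of rationals in the family of fields is computable. -/
def NrmF {A : Type} [Rep A] (F : A → Type) [∀ a, NormedField (F a)] [∀ a, CharZero (F a)] :
    Prop :=
  ∃ ν : A → ℚ → ℚ, CS ν ∧ ∀ a (q : ℚ), ‖(q : F a)‖ = (ν a q : ℝ)

/-- Complex points; their codes carry no information. -/
def Gen (σ : Type) : Type := σ → ℂ

instance repGen {σ : Type} : Rep (Gen σ) := ⟨fun _ _ => True⟩

/-- Complex numbers coded by rational polynomials in the coordinates of `x`. -/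
def Cx {σ : Type} (_x : Gen σ) : Type := ℂ

noncomputable instance {σ : Type} (x : Gen σ) : Field (Cx x) := inferInstanceAs (Field ℂ)
instance {σ : Type} (x : Gen σ) : CharZero (Cx x) := inferInstanceAs (CharZero ℂ)

noncomputable instance repCx {σ : Type} [Rep σ] (x : Gen σ) : Rep (Cx x) :=
  ⟨fun c z => ∃ P : MvPolynomial σ ℚ, Rep.R c P ∧
    MvPolynomial.aeval (R := ℚ) (S₁ := ℂ) (fun i => x i) P = z⟩

/-- The coordinates of a complex point. -/
def Cx.co {σ : Type} (x : Gen σ) (i : σ) : Cx x := x i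

/-- Propositions coded by finite systems of equations. -/
def ZC {σ : Type} (_x : Gen σ) : Type := Prop

noncomputable instance repZC {σ : Type} [Rep σ] (x : Gen σ) : Rep (ZC x) :=
  ⟨fun c P => ∃ l : List (Cx x), Rep.R c l ∧ ((show Prop from P) ↔ ∀ z ∈ l, z = 0)⟩

/-- `P` is given by a computable system of polynomial equations in the point `x`. -/
def ZS {A : Type} [Rep A] {σ : A → Type} [∀ a, Rep (σ a)] (x : ∀ a, Gen (σ a)) (P : A → Prop) :
    Prop :=
  CS (T := fun a => ZC (x a)) P

/-- Rationals that are integral at all primes not dividing `m`. -/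
def Zinv (m : ℕ) : Subring ℚ where
  carrier := {q | ∀ p : ℕ, p.Prime → p ∣ q.den → p ∣ m}
  zero_mem' := fun p hp h => absurd (Nat.dvd_one.mp (by simpa using h)) hp.ne_one
  one_mem' := fun p hp h => absurd (Nat.dvd_one.mp (by simpa using h)) hp.ne_one
  add_mem' := fun {a b} ha hb p hp h =>
    ((Nat.Prime.dvd_mul hp).mp (h.trans (Rat.add_den_dvd a b))).elim (ha p hp) (hb p hp)
  mul_mem' := fun {a b} ha hb p hp h =>
    ((Nat.Prime.dvd_mul hp).mp (h.trans (Rat.mul_den_dvd a b))).elim (ha p hp) (hb p hp)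
  neg_mem' := fun {a} ha p hp h => ha p hp (by simpa using h)

/-- Constraints on vectors: rational equations, integrality away from a modulus, and
integrality of `p`-adic linear forms. -/
abbrev Desc (V : Type) [AddCommGroup V] [Module ℚ V] : Type :=
  List (V →ₗ[ℚ] ℚ) × List ({m : ℕ // 0 < m} × (V →ₗ[ℚ] ℚ)) × List (Σ p : Nat.Primes, V →ₗ[ℚ] Qp p)

/-- The subgroup cut out by a list of constraints. -/
def Desc.sub {V : Type} [AddCommGroup V] [Module ℚ V] (D : Desc V) : AddSubgroup V where
  carrier := {x | (∀ c ∈ D.1, c x = 0) ∧ (∀ b ∈ D.2.1, b.2 x ∈ Zinv b.1.1) ∧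
    ∀ a ∈ D.2.2, ‖a.2 x‖ ≤ 1}
  zero_mem' := ⟨fun c _ => map_zero c, fun b _ => by rw [map_zero]; exact zero_mem _,
    fun a _ => by rw [map_zero, norm_zero]; exact zero_le_one⟩
  add_mem' := fun {x y} hx hy => ⟨fun c hc => by rw [map_add, hx.1 c hc, hy.1 c hc, add_zero],
    fun b hb => by rw [map_add]; exact add_mem (hx.2.1 b hb) (hy.2.1 b hb),
    fun a ha => by
      rw [map_add]
      exact (IsUltrametricDist.norm_add_le_max _ _).trans (max_le (hx.2.2 a ha) (hy.2.2 a ha))⟩
  neg_mem' := fun {x} hx => ⟨fun c hc => by rw [map_neg, hx.1 c hc, neg_zero],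
    fun b hb => by rw [map_neg]; exact neg_mem (hx.2.1 b hb),
    fun a ha => by rw [map_neg, norm_neg]; exact hx.2.2 a ha⟩

/-- Additive subgroups of rational vector spaces are coded by constraints. -/
noncomputable instance repAddSubgroup {V : Type} [AddCommGroup V] [Module ℚ V] [Rep V] :
    Rep (AddSubgroup V) := Rep.ofMap Desc.sub

section loc
variable {ι : Type}

/-- A rational vector as a vector over a field of characteristic zero. -/
def castV (F : Type) [DivisionRing F] (v : ι → ℚ) : ι → F := fun i => (v i : F)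

/-- The `p`-adic module spanned by a group of rational vectors. -/
noncomputable def loc (p : Nat.Primes) (Λ : AddSubgroup (ι → ℚ)) : Submodule (Zp p) (ι → Qp p) :=
  Submodule.span (Zp p) (castV (Qp p) '' (Λ : Set (ι → ℚ)))

/-- The module spanned over `Zinv m`. -/
def glob {V : Type} [AddCommGroup V] [Module ℚ V] (m : ℕ) (Λ : AddSubgroup V) :
    Submodule (Zinv m) V :=
  Submodule.span (Zinv m) (Λ : Set V)

/-- The module spanned by `M` over the ring `O` and by `D` over the field `K`. -/
def genMod (O K : Type) {W : Type} [CommRing O] [Field K] [Algebra O K] [AddCommGroup W]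
    [Module K W] [Module O W] [IsScalarTower O K W] (M D : List W) : Submodule O W :=
  Submodule.span O {x | x ∈ M} ⊔ (Submodule.span K {x | x ∈ D}).restrictScalars O

end loc

section ops
variable {V W X : Type} [AddCommGroup V] [Module ℚ V] [AddCommGroup W] [Module ℚ W]
  [AddCommGroup X] [Module ℚ X]

/-- The subgroup generated by the values of a bilinear map. -/
def bil (β : V →ₗ[ℚ] W →ₗ[ℚ] X) (Λ : AddSubgroup V) (Λ' : AddSubgroup W) : AddSubgroup X :=
  AddSubgroup.closure {z | ∃ x ∈ Λ, ∃ y ∈ Λ', β x y = z}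

/-- The least subgroup containing `Λ` and closed under a list of linear maps. -/
def cl (l : List (V →ₗ[ℚ] V)) (Λ : AddSubgroup V) : AddSubgroup V :=
  sInf {M | Λ ≤ M ∧ ∀ φ ∈ l, ∀ x ∈ M, φ x ∈ M}

/-- The elements that carry `Λ` into `Λ'` under a bilinear map. -/
def homLat (β : X →ₗ[ℚ] V →ₗ[ℚ] W) (Λ : AddSubgroup V) (Λ' : AddSubgroup W) : AddSubgroup X where
  carrier := {ξ | ∀ v ∈ Λ, β ξ v ∈ Λ'}
  zero_mem' := fun v _ => by rw [map_zero, LinearMap.zero_apply]; exact zero_mem _
  add_mem' := fun {a b} ha hb v hv => by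
    rw [map_add, LinearMap.add_apply]; exact add_mem (ha v hv) (hb v hv)
  neg_mem' := fun {a} ha v hv => by
    rw [map_neg, LinearMap.neg_apply]; exact neg_mem (ha v hv)

/-- The image under a linear map. -/
def lmap (φ : V →ₗ[ℚ] W) (Λ : AddSubgroup V) : AddSubgroup W := Λ.map φ.toAddMonoidHom

/-- The preimage under a linear map. -/
def lcomap (φ : V →ₗ[ℚ] W) (Λ : AddSubgroup W) : AddSubgroup V := Λ.comap φ.toAddMonoidHom

/-- The multiple of a subgroup by a rational number. -/
def scal (q : ℚ) (Λ : AddSubgroup V) : AddSubgroup V := lmap (q • LinearMap.id) Λ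

/-- The rational span. -/
def qspan (Λ : AddSubgroup V) : Submodule ℚ V := Submodule.span ℚ (Λ : Set V)

end ops

end Pool.Agent.P.MP_257122_al
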