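import Pool.Agent.P.MP_257122_al.LCert

/-!
# Local-global principles for groups of rational vectors

PLAN.  `mem_glob_iff`: span induction, the product of the denominators.  `loc_rat`: the vector
lies in the `Zp p`-span of finitely many `λ j ∈ Λ`; by `cert_exists nice_int`, `cert_symm`,
`cert_sound` the group `genMod ℤ ℚ M []` they generate is `con ℤ C A`; the casts of the
constraints hold on the `p`-adic span, so `C x = 0` and the `a ⬝ᵥ x` have denominators prime to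
`p`; `N` is the product of these.  `mem_iff_local`: the integers `n` with `n • x ∈ Λ` form an
ideal; if `n₀` is the least positive one and `p` a prime factor, then `p ∣ m` and `p ∣ N`.
`exists_le_closure_sup_scal`: a finitely generated subgroup has a basis with at most
`finrank V` elements, so every finitely generated subgroup of `Λ / N Λ` has at most
`N ^ finrank V` elements; take one of maximal size.  `glob_desc`: `m ^ k • x` satisfies all
constraints for large `k`.  `loc_desc`: `→` span induction.  `←`: `cert_exists nice_int` for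
`(C, [])` gives rational `d ∈ D` killed by `C` with `y` in their `Qp p`-span (cast the identity
for `idv`, or use any rational projection onto the kernel); positive multiples `λ i` of them lie
in `D.sub`; `y = ∑ c i • λ i`; choose `r i ∈ ℤ[1/p]` with `‖c i - r i‖ ≤ 1`; then
`x = ∑ r i • λ i` has `p ^ k • x ∈ D.sub`, `y - x ∈ loc`, so `x` satisfies the constraints at
`p` and hence all constraints.
-/

namespace Pool.Agent.P.MP_257122_al

open Matrix

namespace LDensAux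

theorem inv_mem {m N : ℕ} (hN : 0 < N) :
    (N : ℚ)⁻¹ ∈ Zinv m ↔ ∀ p : ℕ, p.Prime → p ∣ N → p ∣ m := by
  change (∀ p : ℕ, p.Prime → p ∣ ((N : ℚ)⁻¹).den → p ∣ m) ↔ _
  rw [Rat.inv_natCast_den_of_pos hN]

theorem nat_smul {V : Type} [AddCommGroup V] [Module ℚ V] {Λ : AddSubgroup V} {x : V}
    (h : x ∈ Λ) (n : ℕ) : (n : ℚ) • x ∈ Λ := by
  rw [Nat.cast_smul_eq_nsmul]; exact nsmul_mem h n

theorem int_smul {V : Type} [AddCommGroup V] [Module ℚ V] {Λ : AddSubgroup V} {x : V}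
    (h : x ∈ Λ) (n : ℤ) : (n : ℚ) • x ∈ Λ := by
  rw [Int.cast_smul_eq_zsmul]; exact zsmul_mem h n

theorem norm_le_iff (p : Nat.Primes) (q : ℚ) : ‖(q : Qp p)‖ ≤ 1 ↔ ¬ p.1 ∣ q.den := by
  refine ⟨fun h hp => ?_, Padic.norm_rat_le_one⟩
  have h1 : ‖(q.den : Qp p)‖ < 1 := Padic.norm_natCast_lt_one_iff.2 hp
  have h2 : ‖(q.num : Qp p)‖ < 1 := by
    have : (q.num : Qp p) = (q : Qp p) * q.den := by
      rw [← Rat.cast_natCast, ← Rat.cast_mul, Rat.mul_den_eq_num, Rat.cast_intCast]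
    rw [this, norm_mul]
    exact (mul_le_of_le_one_left (norm_nonneg _) h).trans_lt h1
  rw [Padic.norm_intCast_lt_one_iff, Int.natCast_dvd] at h2
  exact p.2.ne_one (Nat.eq_one_of_dvd_coprimes q.reduced h2 hp)

theorem cast_dot {ι : Type} [Fintype ι] (F : Type) [Field F] [CharZero F] (a x : ι → ℚ) :
    castV F a ⬝ᵥ castV F x = ((a ⬝ᵥ x : ℚ) : F) := by
  simp [castV, dotProduct]

theorem list_mul {α : Type} (Q : ℕ → Prop) (h1 : Q 1) (hm : ∀ a b, Q a → Q b → Q (a * b))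
    (P : α → ℕ → Prop) (l : List α) (h : ∀ a ∈ l, ∃ n, Q n ∧ ∀ k, n ∣ k → P a k) :
    ∃ n, Q n ∧ ∀ k, n ∣ k → ∀ a ∈ l, P a k := by
  induction l with
  | nil => exact ⟨1, h1, fun _ _ _ h => absurd h List.not_mem_nil⟩
  | cons a l ih =>
    obtain ⟨n, h2, h3⟩ := h a List.mem_cons_self
    obtain ⟨n', h4, h5⟩ := ih fun b hb => h b (List.mem_cons_of_mem _ hb)
    refine ⟨n * n', hm _ _ h2 h4, fun k hk b hb => ?_⟩
    rcases List.mem_cons.1 hb with rfl | hb
    · exact h3 k (dvd_of_mul_right_dvd hk)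
    · exact h5 k (dvd_of_mul_left_dvd hk) b hb

theorem mul_int (q : ℚ) {k : ℕ} (h : q.den ∣ k) : ∃ z : ℤ, (z : ℚ) = k * q := by
  obtain ⟨j, rfl⟩ := h
  refine ⟨j * q.num, ?_⟩
  rw [Int.cast_mul, ← Rat.mul_den_eq_num]
  push_cast
  ring

theorem exists_pow (p : Nat.Primes) (c : Qp p) : ∃ k : ℕ, ‖(p.1 : Qp p) ^ k * c‖ ≤ 1 := by
  obtain ⟨k, hk⟩ := exists_pow_lt_of_lt_one (x := (‖c‖ + 1)⁻¹) (by positivity)
    (Padic.norm_p_lt_one (p := p.1))
  refine ⟨k, ?_⟩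
  rw [norm_mul, norm_pow]
  have h0 : 0 < ‖c‖ + 1 := by positivity
  have h1 := mul_le_mul_of_nonneg_right hk.le (norm_nonneg c)
  refine h1.trans ?_
  rw [inv_mul_le_iff₀ h0]
  linarith

theorem exists_appr (p : Nat.Primes) (c : Qp p) :
    ∃ k n : ℕ, ‖c - (((n : ℚ) / (p.1 : ℚ) ^ k : ℚ) : Qp p)‖ ≤ 1 := by
  obtain ⟨k, hk⟩ := exists_pow p c
  obtain ⟨w, hw⟩ := Ideal.mem_span_singleton.1 (PadicInt.appr_spec k ⟨_, hk⟩)
  refine ⟨k, PadicInt.appr ⟨_, hk⟩ k, ?_⟩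
  have h1 := congrArg (fun z : Zp p => (z : Qp p)) hw
  simp only [PadicInt.coe_sub, PadicInt.coe_natCast, PadicInt.coe_mul, PadicInt.coe_pow] at h1
  have h0 : (p.1 : Qp p) ^ k ≠ 0 := pow_ne_zero _ (Nat.cast_ne_zero.2 p.2.ne_zero)
  have : c - (((PadicInt.appr ⟨_, hk⟩ k : ℚ) / (p.1 : ℚ) ^ k : ℚ) : Qp p) = w := by
    push_cast
    rw [eq_comm, eq_sub_iff_add_eq, ← mul_right_inj' h0, mul_add, ← h1, mul_div_cancel₀ _ h0,
      sub_add_cancel]
  rw [this]
  exact w.2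

end LDensAux

open LDensAux

theorem mem_glob_iff {V : Type} [AddCommGroup V] [Module ℚ V] (m : ℕ) (Λ : AddSubgroup V)
    (x : V) : x ∈ glob m Λ ↔ ∃ N : ℕ, 0 < N ∧ (N : ℚ)⁻¹ ∈ Zinv m ∧ (N : ℚ) • x ∈ Λ := by
  constructor
  · intro h
    induction h using Submodule.span_induction with
    | mem x hx => exact ⟨1, one_pos, by simp, by simpa using hx⟩
    | zero => exact ⟨1, one_pos, by simp, by simp⟩
    | add x y _ _ ihx ihy =>
      obtain ⟨a, a1, a2, a3⟩ := ihx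
      obtain ⟨b, b1, b2, b3⟩ := ihy
      refine ⟨a * b, Nat.mul_pos a1 b1, ?_, ?_⟩
      · rw [Nat.cast_mul, mul_inv]; exact mul_mem a2 b2
      · rw [Nat.cast_mul, smul_add]
        refine add_mem ?_ ?_
        · rw [mul_comm, mul_smul]; exact nat_smul a3 b
        · rw [mul_smul]; exact nat_smul b3 a
    | smul o x _ ih =>
      obtain ⟨a, a1, a2, a3⟩ := ih
      refine ⟨o.1.den * a, Nat.mul_pos o.1.pos a1, ?_, ?_⟩
      · rw [Nat.cast_mul, mul_inv]; exact mul_mem ((inv_mem o.1.pos).2 o.2) a2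
      · have : ((o.1.den * a : ℕ) : ℚ) • o • x = (o.1.num : ℚ) • (a : ℚ) • x := by
          rw [Subring.smul_def, smul_smul, smul_smul, ← Rat.mul_den_eq_num]
          congr 1
          push_cast
          ring
        rw [this]
        exact int_smul a3 _
  · rintro ⟨N, h1, h2, h3⟩
    have := (glob m Λ).smul_mem ⟨_, h2⟩ (Submodule.subset_span h3)
    rwa [Subring.smul_def, smul_smul, inv_mul_cancel₀ (Nat.cast_ne_zero.2 h1.ne'), one_smul] at this

theorem zinv_mono {m m' : ℕ} (h : m ∣ m') : Zinv m ≤ Zinv m' :=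
  fun _ hq p hp hd => (hq p hp hd).trans h

theorem glob_gen_mono {V : Type} [AddCommGroup V] [Module ℚ V] {m m' : ℕ} (h : m ∣ m')
    {Λ : AddSubgroup V} {M D : List V} (e : glob m Λ = genMod (Zinv m) ℚ M D) :
    glob m' Λ = genMod (Zinv m') ℚ M D := by
  have up : ∀ x, x ∈ glob m Λ → x ∈ glob m' Λ := fun x hx => by
    obtain ⟨N, h1, h2, h3⟩ := (mem_glob_iff _ _ _).1 hx
    exact (mem_glob_iff _ _ _).2 ⟨N, h1, zinv_mono h h2, h3⟩
  refine le_antisymm (Submodule.span_le.2 fun x hx => ?_) (genMod_le.2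
    ⟨fun x hx => up x (e ▸ mem_gen_left hx), fun d hd c => up _ (e ▸ smul_mem_gen hd c)⟩)
  let P : Submodule (Zinv m) V :=
    { carrier := genMod (Zinv m') ℚ M D
      add_mem' := fun h1 h2 => add_mem h1 h2
      zero_mem' := zero_mem _
      smul_mem' := fun o _ hy => (genMod (Zinv m') ℚ M D).smul_mem ⟨o.1, zinv_mono h o.2⟩ hy }
  have : glob m Λ ≤ P := e ▸ genMod_le.2
    ⟨fun x hx => mem_gen_left (O := Zinv m') hx, fun d hd c => smul_mem_gen (O := Zinv m') hd c⟩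
  exact this (Submodule.subset_span hx)

theorem loc_rat {ι : Type} [Finite ι] (p : Nat.Primes) (Λ : AddSubgroup (ι → ℚ)) {x : ι → ℚ}
    (h : castV (Qp p) x ∈ loc p Λ) : ∃ N : ℕ, ¬ p.1 ∣ N ∧ (N : ℚ) • x ∈ Λ := by
  classical
  have := Fintype.ofFinite ι
  obtain ⟨T, hT, hx⟩ := Submodule.mem_span_finite_of_mem_span h
  obtain ⟨S, hS, rfl⟩ := Finset.subset_set_image_iff.1 hT
  obtain ⟨A, C, E, hc⟩ := cert_exists nice_int ([] : List (ι → ℚ)) S.toList
  have e := cert_sound (cert_symm hc)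
  have h1 : castV (Qp p) x ∈ con (Zp p) (C.map (castV (Qp p))) (A.map (castV (Qp p))) := by
    refine (Submodule.span_le.2 fun y hy => ?_) hx
    obtain ⟨z, hz, rfl⟩ := Finset.mem_image.1 hy
    have : z ∈ con ℤ C A := e ▸ mem_gen_left (Finset.mem_toList.2 hz)
    refine ⟨List.forall_mem_map.2 fun c hc => ?_, List.forall_mem_map.2 fun a ha => ?_⟩
    · rw [cast_dot, this.1 c hc, Rat.cast_zero]
    · obtain ⟨o, ho⟩ := this.2 a ha
      rw [cast_dot, ← ho, isI_padic]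
      simpa using Padic.norm_int_le_one o
  obtain ⟨N, h2, h3⟩ := list_mul (fun n => ¬ p.1 ∣ n) (fun h => p.2.ne_one (Nat.dvd_one.1 h))
    (fun a b ha hb h => (p.2.dvd_mul.1 h).elim ha hb) (fun a k => IsI ℤ ((k : ℚ) * (a ⬝ᵥ x))) A
    fun a ha => ⟨(a ⬝ᵥ x).den, (norm_le_iff p _).1 (by
      rw [← cast_dot, ← isI_padic]; exact h1.2 _ (List.mem_map_of_mem ha)),
      fun k hk => mul_int _ hk⟩
  have h4 : (N : ℚ) • x ∈ con ℤ C A := by
    refine ⟨fun c hc => ?_, fun a ha => ?_⟩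
    · have := h1.1 _ (List.mem_map_of_mem hc)
      rw [cast_dot, Rat.cast_eq_zero] at this
      rw [dotProduct_smul, this, smul_zero]
    · rw [dotProduct_smul]
      exact h3 N dvd_rfl a ha
  rw [e] at h4
  exact ⟨N, h2, (genMod_le (N := AddSubgroup.toIntSubmodule Λ)).2
    ⟨fun y hy => hS (Finset.mem_toList.1 hy), fun _ h => absurd h List.not_mem_nil⟩ h4⟩

/-- Local-global principle for membership in an arbitrary subgroup. -/
theorem mem_iff_local {ι : Type} [Finite ι] (Λ : AddSubgroup (ι → ℚ)) {m : ℕ} (hm : 0 < m)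
    (x : ι → ℚ) :
    x ∈ Λ ↔ x ∈ glob m Λ ∧ ∀ p : Nat.Primes, p.1 ∣ m → castV (Qp p) x ∈ loc p Λ := by
  classical
  refine ⟨fun h => ⟨Submodule.subset_span h, fun p _ => cast_mem_ext h⟩, fun ⟨h1, h2⟩ => ?_⟩
  obtain ⟨N, a1, a2, a3⟩ := (mem_glob_iff _ _ _).1 h1
  have ex : ∃ n : ℕ, 0 < n ∧ (n : ℚ) • x ∈ Λ := ⟨N, a1, a3⟩
  obtain ⟨b1, b2⟩ := Nat.find_spec ex
  have dv : ∀ n : ℕ, (n : ℚ) • x ∈ Λ → Nat.find ex ∣ n := fun n hn => by
    by_contra hd
    refine Nat.find_min ex (Nat.mod_lt n b1)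
      ⟨Nat.pos_of_ne_zero fun h => hd (Nat.dvd_of_mod_eq_zero h), ?_⟩
    have := sub_mem hn (nat_smul b2 (n / Nat.find ex))
    have e : (n : ℚ) - (n / Nat.find ex * Nat.find ex : ℕ) = (n % Nat.find ex : ℕ) := by
      rw [sub_eq_iff_eq_add, ← Nat.cast_add, Nat.mod_add_div']
    rwa [smul_smul, ← sub_smul, ← Nat.cast_mul, e] at this
  by_cases e : Nat.find ex = 1
  · simpa [e] using b2
  · obtain ⟨p, hp, hd⟩ := Nat.exists_prime_and_dvd e
    obtain ⟨n, c1, c2⟩ := loc_rat ⟨p, hp⟩ Λ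
      (h2 ⟨p, hp⟩ ((inv_mem a1).1 a2 p hp (hd.trans (dv N a3))))
    exact absurd (hd.trans (dv n c2)) c1

/-- A subgroup of a finite-dimensional space is finite modulo multiples. -/
theorem exists_le_closure_sup_scal {V : Type} [AddCommGroup V] [Module ℚ V] [Module.Finite ℚ V]
    (Λ : AddSubgroup V) {N : ℕ} (hN : 0 < N) :
    ∃ l : List V, (∀ x ∈ l, x ∈ Λ) ∧ Λ ≤ AddSubgroup.closure {x | x ∈ l} ⊔ scal N Λ := by
  classical
  have hf : ((QuotientAddGroup.mk : V → V ⧸ scal N Λ) '' (Λ : Set V)).Finite := by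
    by_contra hi
    obtain ⟨t, h1, h2⟩ := Set.Infinite.exists_subset_card_eq hi (N ^ Module.finrank ℚ V + 1)
    obtain ⟨T, h3, rfl⟩ := Finset.subset_set_image_iff.1 h1
    let F := Submodule.span ℤ (T : Set V)
    have hF : ∀ x ∈ F, x ∈ Λ := fun x hx =>
      (Submodule.span_le (p := AddSubgroup.toIntSubmodule Λ)).2 h3 hx
    have : Module.Finite ℤ F := Module.Finite.span_of_finite ℤ T.finite_toSet
    have : IsAddTorsionFree V := .of_module_rat V
    let b := Module.finBasis ℤ F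
    have li : LinearIndependent ℚ fun i => (b i : V) :=
      (LinearIndependent.iff_fractionRing ℤ ℚ).1 (b.linearIndependent.map' F.subtype F.ker_subtype)
    have h4 := li.fintype_card_le_finrank
    rw [Fintype.card_fin] at h4
    have h5 : T.image (QuotientAddGroup.mk : V → V ⧸ scal N Λ) ⊆ Finset.univ.image
        fun c : Fin (Module.finrank ℤ F) → Fin N =>
          (QuotientAddGroup.mk (∑ i, (c i).1 • (b i : V)) : V ⧸ scal N Λ) := by
      intro y hy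
      obtain ⟨x, hx, rfl⟩ := Finset.mem_image.1 hy
      have hN' : (0 : ℤ) < N := by exact_mod_cast hN
      let r := b.repr ⟨x, Submodule.subset_span hx⟩
      refine Finset.mem_image.2 ⟨fun i => ⟨(r i % N).toNat, ?_⟩, Finset.mem_univ _,
        QuotientAddGroup.eq.2 ⟨∑ i, (r i / N) • (b i : V),
          sum_mem fun i _ => zsmul_mem (hF _ (b i).2) _, ?_⟩⟩
      · have := Int.emod_lt_of_pos (r i) hN'
        omega
      · have h6 := congrArg F.subtype (b.sum_repr ⟨x, Submodule.subset_span hx⟩)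
        simp only [map_sum, map_smul, Submodule.subtype_apply] at h6
        change (N : ℚ) • ∑ i, (r i / N) • (b i : V) = -∑ i, (r i % N).toNat • (b i : V) + x
        refine Eq.trans ?_ (congrArg (_ + ·) h6)
        rw [Nat.cast_smul_eq_nsmul, Finset.smul_sum, neg_add_eq_sub, ← Finset.sum_sub_distrib]
        refine Finset.sum_congr rfl fun i _ => ?_
        rw [← natCast_zsmul, ← natCast_zsmul, smul_smul, ← sub_smul,
          Int.toNat_of_nonneg (Int.emod_nonneg _ hN'.ne')]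
        congr 1
        have := Int.emod_add_mul_ediv (r i) N
        change _ = r i - _
        omega
    have h6 := (Finset.card_le_card h5).trans Finset.card_image_le
    rw [h2, Finset.card_univ, Fintype.card_fun, Fintype.card_fin, Fintype.card_fin] at h6
    have := Nat.pow_le_pow_right hN h4
    omega
  obtain ⟨T, h1, h2⟩ := Finset.subset_set_image_iff.1 (hf.coe_toFinset.subset)
  refine ⟨T.toList, fun x hx => h1 (Finset.mem_toList.1 hx), fun x hx => ?_⟩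
  obtain ⟨y, hy, e⟩ := Finset.mem_image.1 (h2 ▸ hf.mem_toFinset.2 ⟨x, hx, rfl⟩)
  exact AddSubgroup.mem_sup.2 ⟨y, AddSubgroup.subset_closure (Finset.mem_toList.2 hy), _,
    QuotientAddGroup.eq.1 e, add_neg_cancel_left _ _⟩

variable {ι : Type} [Fintype ι] [DecidableEq ι]

theorem cv_dot {F : Type} [Field F] [CharZero F] [Module ℚ F] (f : (ι → ℚ) →ₗ[ℚ] F)
    (x : ι → ℚ) : cv f ⬝ᵥ castV F x = f x := by
  conv_rhs => rw [← Finset.univ_sum_single x, map_sum]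
  refine Finset.sum_congr rfl fun i _ => ?_
  have : Pi.single i (x i) = x i • (Pi.single i 1 : ι → ℚ) := by
    rw [← Pi.single_smul, smul_eq_mul, mul_one]
  rw [this, f.map_smul, mul_comm]
  exact ratCast_smul_eq F ℚ (x i) _

theorem LDensAux.cv_rat (f : (ι → ℚ) →ₗ[ℚ] ℚ) (x : ι → ℚ) : cv f ⬝ᵥ x = f x := by
  rw [← cv_dot, castK_rat]

theorem LDensAux.glob_desc0 (D : Desc (ι → ℚ)) {m : ℕ} (h1 : ∀ b ∈ D.2.1, b.1.1 ∣ m)
    (h2 : ∀ a ∈ D.2.2, a.1.1 ∣ m) :
    glob m D.sub = con (Zinv m) (D.1.map cv) (D.2.1.map fun b => cv b.2) := by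
  refine le_antisymm (Submodule.span_le.2 fun x hx => ⟨List.forall_mem_map.2 fun c hc => ?_,
    List.forall_mem_map.2 fun b hb => ?_⟩) fun x hx => ?_
  · rw [cv_rat]; exact hx.1 c hc
  · rw [cv_rat]; exact isI_zinv.2 (zinv_mono (h1 b hb) (hx.2.1 b hb))
  have q1 : 0 < 1 ∧ ((1 : ℕ) : ℚ)⁻¹ ∈ Zinv m := ⟨one_pos, by simp⟩
  have q2 : ∀ a b : ℕ, 0 < a ∧ (a : ℚ)⁻¹ ∈ Zinv m → 0 < b ∧ (b : ℚ)⁻¹ ∈ Zinv m →
      0 < a * b ∧ ((a * b : ℕ) : ℚ)⁻¹ ∈ Zinv m := fun a b ha hb =>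
    ⟨Nat.mul_pos ha.1 hb.1, by rw [Nat.cast_mul, mul_inv]; exact mul_mem ha.2 hb.2⟩
  obtain ⟨n, a1, a2⟩ := list_mul _ q1 q2 (fun b k => b.2 ((k : ℚ) • x) ∈ Zinv b.1.1) D.2.1
    fun b hb => ⟨(b.2 x).den, ⟨(b.2 x).pos, (inv_mem (b.2 x).pos).2 (by
      have := isI_zinv.1 (hx.2 _ (List.mem_map_of_mem (f := fun b => cv b.2) hb))
      rwa [cv_rat] at this)⟩, fun k hk => by
      obtain ⟨z, hz⟩ := mul_int _ hk
      rw [map_smul, smul_eq_mul, ← hz]
      exact intCast_mem _ z⟩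
  obtain ⟨n', b1, b2⟩ := list_mul _ q1 q2 (fun a k => ‖a.2 ((k : ℚ) • x)‖ ≤ 1) D.2.2
    fun a ha => by
      obtain ⟨j, hj⟩ := exists_pow a.1 (a.2 x)
      have h0 : 0 < a.1.1 ^ j := pow_pos a.1.2.pos _
      refine ⟨a.1.1 ^ j, ⟨h0, (inv_mem h0).2 fun q hq hd => ?_⟩, ?_⟩
      · exact (hq.dvd_of_dvd_pow hd).trans (h2 a ha)
      · rintro _ ⟨k, rfl⟩
        rw [map_smul, Nat.cast_smul_eq_nsmul, nsmul_eq_mul, Nat.cast_mul, Nat.cast_pow,
          mul_right_comm, norm_mul]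
        exact mul_le_one₀ hj (norm_nonneg _) (by simpa using Padic.norm_int_le_one (k : ℤ))
  refine (mem_glob_iff _ _ _).2 ⟨n * n', (q2 _ _ a1 b1).1, (q2 _ _ a1 b1).2, fun c hc => ?_,
    a2 _ (dvd_mul_right _ _), b2 _ (dvd_mul_left _ _)⟩
  rw [map_smul, ← cv_rat, hx.1 _ (List.mem_map_of_mem hc), smul_zero]

theorem glob_desc (D : Desc (ι → ℚ)) {m : ℕ} (hm : 0 < m) (h1 : ∀ b ∈ D.2.1, b.1.1 ∣ m)
    (h2 : ∀ a ∈ D.2.2, a.1.1 ∣ m) :
    glob m D.sub = con (Zinv m) (D.1.map cv) (D.2.1.map fun b => cv b.2) :=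
  glob_desc0 D h1 h2

/-- The `p`-adic vectors that satisfy the constraints at `p`. -/
def LDensAux.Lc (D : Desc (ι → ℚ)) (p : Nat.Primes) : Submodule (Zp p) (ι → Qp p) where
  carrier := {y | (∀ c ∈ D.1, castV (Qp p) (cv c) ⬝ᵥ y = 0) ∧
      (∀ b ∈ D.2.1, ¬ p.1 ∣ b.1.1 → IsI (Zp p) (castV (Qp p) (cv b.2) ⬝ᵥ y)) ∧
      ∀ a : (ι → ℚ) →ₗ[ℚ] Qp p, ⟨p, a⟩ ∈ D.2.2 → IsI (Zp p) (cv a ⬝ᵥ y)}
  zero_mem' := ⟨fun c _ => dotProduct_zero _, fun a _ _ => by
    rw [dotProduct_zero]; exact isI_zero _, fun a _ => by rw [dotProduct_zero]; exact isI_zero _⟩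
  add_mem' := fun {x y} hx hy => ⟨fun c hc => by
    rw [dotProduct_add, hx.1 c hc, hy.1 c hc, add_zero], fun a ha h => by
    rw [dotProduct_add]; exact (hx.2.1 a ha h).add (hy.2.1 a ha h), fun a ha => by
    rw [dotProduct_add]; exact (hx.2.2 a ha).add (hy.2.2 a ha)⟩
  smul_mem' := fun o {y} hy => ⟨fun c hc => by rw [dotProduct_smul, hy.1 c hc, smul_zero],
    fun a ha h => by rw [dotProduct_smul]; exact (hy.2.1 a ha h).smul o,
    fun a ha => by rw [dotProduct_smul]; exact (hy.2.2 a ha).smul o⟩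

theorem LDensAux.loc_le (D : Desc (ι → ℚ)) (p : Nat.Primes) : loc p D.sub ≤ Lc D p := by
  refine Submodule.span_le.2 ?_
  rintro _ ⟨x, hx, rfl⟩
  refine ⟨fun c hc => ?_, fun b hb h => ?_, fun a ha => ?_⟩
  · rw [cast_dot, cv_rat, hx.1 c hc, Rat.cast_zero]
  · rw [cast_dot, cv_rat, isI_padic, norm_le_iff]
    exact fun hd => h (hx.2.1 b hb p.1 p.2 hd)
  · rw [cv_dot, isI_padic]
    exact hx.2.2 ⟨p, a⟩ ha

theorem LDensAux.mem_sub (D : Desc (ι → ℚ)) (p : Nat.Primes) {x : ι → ℚ} {k : ℕ}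
    (h1 : (p.1 : ℚ) ^ k • x ∈ D.sub) (h2 : castV (Qp p) x ∈ Lc D p) : x ∈ D.sub := by
  have h0 : 0 < p.1 ^ k := pow_pos p.2.pos _
  refine ⟨fun c hc => ?_, fun b hb q hq hd => ?_, fun a ha => ?_⟩
  · have := h2.1 c hc
    rwa [cast_dot, cv_rat, Rat.cast_eq_zero] at this
  · by_cases e : q = p.1
    · by_contra h
      subst e
      have := h2.2.1 b hb h
      rw [cast_dot, cv_rat, isI_padic, norm_le_iff] at this
      exact this hd
    · have e1 : b.2 x = ((p.1 ^ k : ℕ) : ℚ)⁻¹ * b.2 ((p.1 : ℚ) ^ k • x) := by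
        rw [map_smul, smul_eq_mul, ← Nat.cast_pow, inv_mul_cancel_left₀ (Nat.cast_ne_zero.2 h0.ne')]
      rw [e1] at hd
      rcases hq.dvd_mul.1 (hd.trans (Rat.mul_den_dvd _ _)) with h | h
      · rw [Rat.inv_natCast_den_of_pos h0] at h
        exact absurd ((Nat.prime_dvd_prime_iff_eq hq p.2).1 (hq.dvd_of_dvd_pow h)) e
      · exact h1.2.1 b hb q hq h
  · obtain ⟨q, f⟩ := a
    by_cases e : q = p
    · subst e
      have := h2.2.2 f ha
      rwa [cv_dot, isI_padic] at this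
    · have := h1.2.2 _ ha
      have e1 : ‖(p.1 : Qp q)‖ = 1 := Padic.norm_natCast_eq_one_iff.2
        ((Nat.coprime_primes q.2 p.2).2 fun h => e (Subtype.ext h))
      rwa [map_smul, ← Nat.cast_pow, Nat.cast_smul_eq_nsmul, nsmul_eq_mul, norm_mul, Nat.cast_pow,
        norm_pow, e1, one_pow, one_mul] at this

omit [Fintype ι] [DecidableEq ι] in
theorem LDensAux.split (Λ : AddSubgroup (ι → ℚ)) (p : Nat.Primes) {y : ι → Qp p}
    (h : y ∈ Submodule.span (Qp p) (castV (Qp p) '' (Λ : Set (ι → ℚ)))) (c : Qp p) :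
    ∃ (x : ι → ℚ) (k : ℕ), (p.1 : ℚ) ^ k • x ∈ Λ ∧ c • y - castV (Qp p) x ∈ loc p Λ := by
  induction h using Submodule.span_induction generalizing c with
  | mem y hy =>
    obtain ⟨x, hx, rfl⟩ := hy
    obtain ⟨k, n, h⟩ := exists_appr p c
    refine ⟨((n : ℚ) / (p.1 : ℚ) ^ k) • x, k, ?_, ?_⟩
    · rw [smul_smul, mul_div_cancel₀ _ (pow_ne_zero _ (Nat.cast_ne_zero.2 p.2.ne_zero))]
      exact nat_smul hx n
    · rw [castK_smul, ← sub_smul]
      exact (isI_padic.2 h).smul_mem (cast_mem_ext hx)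
  | zero => exact ⟨0, 0, by simp, by simp [castV_zero]⟩
  | add y z _ _ ihy ihz =>
    obtain ⟨x, k, h1, h2⟩ := ihy c
    obtain ⟨x', k', h3, h4⟩ := ihz c
    refine ⟨x + x', k + k', ?_, ?_⟩
    · rw [smul_add, pow_add]
      refine add_mem ?_ ?_
      · rw [mul_comm, mul_smul, ← Nat.cast_pow _ k']; exact nat_smul h1 _
      · rw [mul_smul, ← Nat.cast_pow _ k]; exact nat_smul h3 _
    · rw [castK_add, smul_add, add_sub_add_comm]
      exact add_mem h2 h4
  | smul a y _ ih => rw [smul_smul]; exact ih _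

theorem LDensAux.mem_span (D : Desc (ι → ℚ)) (p : Nat.Primes) {y : ι → Qp p}
    (h : ∀ c ∈ D.1, castV (Qp p) (cv c) ⬝ᵥ y = 0) :
    y ∈ Submodule.span (Qp p) (castV (Qp p) '' (D.sub : Set (ι → ℚ))) := by
  obtain ⟨M, D', E, -, h1, -, -, h2⟩ := cert_exists nice_int (D.1.map cv) []
  let f : (ι × ι → ℚ) →ₗ[ℚ] (ι → Qp p) :=
    { toFun := fun T i => ∑ j, (T (i, j) : Qp p) * y j
      map_add' := fun S T => by ext i; simp [add_mul, Finset.sum_add_distrib]
      map_smul' := fun q T => by ext i; simp [Finset.mul_sum, mul_assoc, Rat.smul_def] }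
  have f1 : f (idv ℚ ι) = y := by
    ext i
    simp [f, idv, apply_ite]
  have f2 : ∀ u v, f (tn u v) = (castV (Qp p) v ⬝ᵥ y) • castV (Qp p) u := fun u v => by
    ext i
    simp [f, tn, castV, dotProduct, Finset.mul_sum, mul_comm, mul_left_comm]
  rw [← f1]
  refine map_gen (N := (Submodule.span (Qp p)
    (castV (Qp p) '' (D.sub : Set (ι → ℚ)))).restrictScalars ℤ) f (fun x hx => ?_)
    (fun d hd c => ?_) h2
  · obtain ⟨_, _, _, hv, _⟩ := mem_pairs.1 hx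
    exact absurd hv List.not_mem_nil
  · refine Submodule.smul_of_tower_mem (Submodule.span (Qp p) _) c ?_
    rcases List.mem_append.1 hd with hd | hd
    · obtain ⟨u, hu, v, -, rfl⟩ := mem_pairs.1 hd
      have : u ∈ glob 0 D.sub := by
        rw [glob_desc0 D (fun _ _ => dvd_zero _) fun _ _ => dvd_zero _]
        exact ⟨fun c hc => h1 c hc u hu, fun a _ => isI_zinv.2 fun _ _ _ => dvd_zero _⟩
      obtain ⟨N, a1, -, a2⟩ := (mem_glob_iff _ _ _).1 this
      have e : castV (Qp p) u = (N : Qp p)⁻¹ • castV (Qp p) ((N : ℚ) • u) := by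
        rw [castK_smul, smul_smul, Rat.cast_natCast, inv_mul_cancel₀ (Nat.cast_ne_zero.2 a1.ne'),
          one_smul]
      rw [f2, e]
      exact Submodule.smul_mem _ _ (Submodule.smul_mem _ _ (Submodule.subset_span ⟨_, a2, rfl⟩))
    · obtain ⟨u, -, v, hv, rfl⟩ := mem_pairs.1 hd
      obtain ⟨c, hc, rfl⟩ := List.mem_map.1 hv
      rw [f2, h c hc, zero_smul]
      exact zero_mem _

theorem loc_desc (D : Desc (ι → ℚ)) (p : Nat.Primes) (y : ι → Qp p) :
    y ∈ loc p D.sub ↔ (∀ c ∈ D.1, castV (Qp p) (cv c) ⬝ᵥ y = 0) ∧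
      (∀ b ∈ D.2.1, ¬ p.1 ∣ b.1.1 → ‖castV (Qp p) (cv b.2) ⬝ᵥ y‖ ≤ 1) ∧
      ∀ a : (ι → ℚ) →ₗ[ℚ] Qp p, ⟨p, a⟩ ∈ D.2.2 → ‖cv a ⬝ᵥ y‖ ≤ 1 := by
  simp only [← isI_padic]
  refine ⟨fun h => loc_le D p h, fun h => ?_⟩
  obtain ⟨x, k, h1, h2⟩ := split D.sub p (mem_span D p h.1) 1
  rw [one_smul] at h2
  have h3 := sub_mem (show y ∈ Lc D p from h) (loc_le D p h2)
  rw [sub_sub_cancel] at h3
  have := add_mem h2 (cast_mem_ext (mem_sub D p h1 h3))
  rwa [sub_add_cancel] at this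

end Pool.Agent.P.MP_257122_al
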