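import Pool.Agent.P.MP_257122_al.LCert

/-!
# Specialisations; computing generators and constraints

PLAN.  `spec_padic`: choose for every finite set `s` the data of `alg_approx` with `ε = 1`, let
`ψ s x` be `φ x` on the subring and `0` elsewhere, and take `Filter.map ψ atTop`.  The transfer
lemmas are inductions with `filter_upwards` (`Filter.eventually_all` for finite index types,
induction on lists and on `Finset` sums).  Write `x ∈ genMod M D` as
`x = ∑ s i • M.get i + ∑ t j • D.get j` with integral `s i`; `IsSpec.gen` applies `ψ` to the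
coefficients.  `CS.memGen`: guess coded coefficients (`CS.exC`); for coded `x, M, D` they exist
because `ψ` eventually fixes `x, M, D` (entries of coded vectors are coded: `CFin.enum`,
`Enum.coded`, `Coded.app`; conversely `coded_pi`).  `MV.cert`: `MV.searchC`; the certificate is
r.e. by `CS.memGen` for the index family `ι × ι`; completeness by `cert_exists` and
`IsSpec.cert`.  `ConF.toGen`, `GenF.toCon`: `MV.bind`, `cert_sound`, `cert_symm`.
-/

namespace Pool.Agent.P.MP_257122_al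

open Matrix Filter

theorem spec_rat (O : Type) [CommRing O] [Algebra O ℚ] :
    IsSpec O (pure id : Filter (ℚ → ℚ)) :=
  ⟨inferInstance, rfl, rfl, fun _ _ => rfl, fun _ _ => rfl, fun _ _ => rfl, fun _ h => h,
    fun x => Tot.tot x⟩

theorem spec_padic (p : Nat.Primes) : ∃ L, IsSpec (K := Qp p) (Zp p) L := by
  classical
  choose A φ h1 h2 h3 h4 h5 using fun s : Finset (Qp p) =>
    alg_approx (Padic.denseRange_ratCast p.1) s zero_lt_one
  let ψ : Finset (Qp p) → Qp p → Qp p := fun s x => if h : x ∈ A s then φ s ⟨x, h⟩ else 0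
  have e : ∀ s x (h : x ∈ A s), ψ s x = φ s ⟨x, h⟩ := fun s x h => dif_pos h
  have m : ∀ x : Qp p, ∀ᶠ s : Finset (Qp p) in atTop, x ∈ s := fun x =>
    (eventually_ge_atTop {x}).mono fun s hs => hs (Finset.mem_singleton_self x)
  refine ⟨Filter.map ψ atTop, inferInstance, ?_, ?_, fun x y => ?_, fun x y => ?_,
    fun x hx => ?_, fun x hx => ?_, ?_⟩ <;> rw [eventually_map]
  · exact Eventually.of_forall fun s => (e s 0 (zero_mem _)).trans (map_zero _)
  · exact Eventually.of_forall fun s => (e s 1 (one_mem _)).trans (map_one _)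
  · filter_upwards [m x, m y] with s hx hy
    rw [e s x (h1 s x hx), e s y (h1 s y hy), e s _ (add_mem (h1 s x hx) (h1 s y hy)), ← map_add]
    rfl
  · filter_upwards [m x, m y] with s hx hy
    rw [e s x (h1 s x hx), e s y (h1 s y hy), e s _ (mul_mem (h1 s x hx) (h1 s y hy)), ← map_mul]
    rfl
  · have ha := coded_padic_iff.1 hx
    exact Eventually.of_forall fun s => (e s x (h2 s x ha)).trans (h4 s _ ha)
  · filter_upwards [m x] with s hs
    rw [e s x (h1 s x hs), isI_padic]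
    have h6 := h5 s ⟨x, h1 s x hs⟩ hs
    have h7 := IsUltrametricDist.norm_add_le_max (φ s ⟨x, h1 s x hs⟩ - x) x
    rw [sub_add_cancel] at h7
    exact h7.trans (max_le h6.le (isI_padic.1 hx))
  · refine Eventually.of_forall fun s x => coded_padic_iff.2 ?_
    by_cases h : x ∈ A s
    · rw [e s x h]
      exact h3 s _
    · rw [show ψ s x = 0 from dif_neg h]
      exact isAlgebraic_zero

namespace LSpecAux

section
variable {O K W : Type} [CommRing O] [Field K] [Algebra O K] [AddCommGroup W] [Module K W]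

/-- linear combinations of lists -/
def lc (s : List K) (M : List W) : W := (List.zipWith (fun c x => c • x) s M).sum

theorem lc_nil (M : List W) : lc ([] : List K) M = 0 := by simp [lc]

theorem lc_nil' (s : List K) : lc s ([] : List W) = 0 := by simp [lc]

theorem lc_cons (c : K) (s : List K) (x : W) (M : List W) :
    lc (c :: s) (x :: M) = c • x + lc s M := by simp [lc]

variable [Module O W] [IsScalarTower O K W]

theorem lc_mem {N : Submodule O W} {M : List W} {s : List K}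
    (h : ∀ c ∈ s, ∀ x ∈ M, c • x ∈ N) : lc s M ∈ N := by
  induction s generalizing M with
  | nil =>
    rw [lc_nil]
    exact zero_mem _
  | cons c s ih =>
    cases M with
    | nil =>
      rw [lc_nil']
      exact zero_mem _
    | cons x M =>
      rw [lc_cons]
      exact add_mem (h c List.mem_cons_self x List.mem_cons_self)
        (ih fun d hd y hy => h d (List.mem_cons_of_mem _ hd) y (List.mem_cons_of_mem _ hy))

theorem of_span {M : List W} {x : W} (hx : x ∈ Submodule.span O {x | x ∈ M}) :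
    ∃ s : List K, (∀ c ∈ s, IsI O c) ∧ x = lc s M := by
  induction M generalizing x with
  | nil => exact ⟨[], by simp, by simpa [lc_nil] using hx⟩
  | cons a M ih =>
    have e : {x | x ∈ a :: M} = insert a {x | x ∈ M} := by
      ext y
      simp
    rw [e, Submodule.mem_span_insert] at hx
    obtain ⟨o, y, hy, rfl⟩ := hx
    obtain ⟨s, h1, rfl⟩ := ih hy
    refine ⟨algebraMap O K o :: s, fun c hc => ?_, by rw [lc_cons, algebraMap_smul]⟩
    rcases List.mem_cons.1 hc with rfl | hc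
    · exact ⟨o, rfl⟩
    · exact h1 c hc

theorem mem_gen {M D : List W} {x : W} : x ∈ genMod O K M D ↔
    ∃ q : List K × List K, (∀ c ∈ q.1, IsI O c) ∧ x = lc q.1 M + lc q.2 D := by
  constructor
  · intro hx
    obtain ⟨y, hy, z, hz, rfl⟩ := Submodule.mem_sup.1 hx
    obtain ⟨s, h1, rfl⟩ := of_span (K := K) hy
    obtain ⟨t, -, rfl⟩ := of_span (O := K) (K := K) hz
    exact ⟨(s, t), h1, rfl⟩
  · rintro ⟨q, h1, rfl⟩
    exact add_mem (lc_mem fun c hc x hx => (h1 c hc).smul_mem (mem_gen_left hx))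
      (lc_mem fun c _ x hx => smul_mem_gen hx c)

end

end LSpecAux

section pure
variable {O K : Type} [CommRing O] [Field K] [Algebra O K] [Rep K] {ι κ : Type}
  {L : Filter (K → K)}

theorem IsSpec.all {α : Type} {P : α → (K → K) → Prop} {l : List α}
    (h : ∀ x ∈ l, ∀ᶠ ψ in L, P x ψ) : ∀ᶠ ψ in L, ∀ x ∈ l, P x ψ :=
  (eventually_all_finite l.finite_toSet).2 h

theorem IsSpec.fixV [Finite ι] (h : IsSpec O L) {x : ι → K} (hx : ∀ i, Coded (x i)) :
    ∀ᶠ ψ in L, ψ ∘ x = x :=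
  (eventually_all.2 fun i => h.fix _ (hx i)).mono fun _ h => funext h

theorem IsSpec.fixL [Finite ι] (h : IsSpec O L) {X : List (ι → K)}
    (hx : ∀ x ∈ X, ∀ i, Coded (x i)) : ∀ᶠ ψ in L, X.map (fun x => ψ ∘ x) = X :=
  (IsSpec.all fun x h1 => h.fixV (hx x h1)).mono fun _ h1 =>
    (List.map_congr_left h1).trans (List.map_id' X)

theorem LSpecAux.sum {α : Type} (h : IsSpec O L) (s : Finset α) (f : α → K) :
    ∀ᶠ ψ in L, ψ (∑ i ∈ s, f i) = ∑ i ∈ s, ψ (f i) := by
  classical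
  induction s using Finset.induction_on with
  | empty => simpa using h.zero
  | insert a s ha ih =>
    filter_upwards [ih, h.add (f a) (∑ i ∈ s, f i)] with ψ h1 h2
    rw [Finset.sum_insert ha, Finset.sum_insert ha, h2, h1]

theorem IsSpec.dot [Fintype ι] (h : IsSpec O L) (x y : ι → K) :
    ∀ᶠ ψ in L, ψ (x ⬝ᵥ y) = (ψ ∘ x) ⬝ᵥ (ψ ∘ y) := by
  filter_upwards [LSpecAux.sum h Finset.univ fun i => x i * y i,
    eventually_all.2 fun i => h.mul (x i) (y i)] with ψ h1 h2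
  exact h1.trans (Finset.sum_congr rfl fun i _ => h2 i)

theorem IsSpec.smul [Finite ι] (h : IsSpec O L) (c : K) (x : ι → K) :
    ∀ᶠ ψ in L, ψ ∘ (c • x) = ψ c • (ψ ∘ x) :=
  (eventually_all.2 fun i => h.mul c (x i)).mono fun _ h => funext h

namespace LSpecAux

theorem addV [Finite ι] (h : IsSpec O L) (x y : ι → K) :
    ∀ᶠ ψ in L, ψ ∘ (x + y) = ψ ∘ x + ψ ∘ y :=
  (eventually_all.2 fun i => h.add (x i) (y i)).mono fun _ h => funext h

theorem lcV [Finite ι] (h : IsSpec O L) (s : List K) (M : List (ι → K)) :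
    ∀ᶠ ψ in L, ψ ∘ lc s M = lc (s.map ψ) (M.map fun x => ψ ∘ x) := by
  induction s generalizing M with
  | nil =>
    filter_upwards [h.zero] with ψ h0
    rw [List.map_nil, lc_nil, lc_nil]
    exact funext fun _ => h0
  | cons c s ih =>
    cases M with
    | nil =>
      filter_upwards [h.zero] with ψ h0
      rw [List.map_nil, lc_nil', lc_nil']
      exact funext fun _ => h0
    | cons x M =>
      filter_upwards [ih M, addV h (c • x) (lc s M), h.smul c x] with ψ h1 h2 h3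
      rw [List.map_cons, List.map_cons, lc_cons, lc_cons, h2, h1, h3]

theorem genV [Finite ι] (h : IsSpec O L) {M D : List (ι → K)} {q : List K × List K}
    (hq : ∀ c ∈ q.1, IsI O c) : ∀ᶠ ψ in L, (∀ c ∈ q.1.map ψ, IsI O c) ∧
      ψ ∘ (lc q.1 M + lc q.2 D) =
        lc (q.1.map ψ) (M.map fun x => ψ ∘ x) + lc (q.2.map ψ) (D.map fun x => ψ ∘ x) := by
  filter_upwards [IsSpec.all fun c hc => h.int c (hq c hc), addV h (lc q.1 M) (lc q.2 D),
    lcV h q.1 M, lcV h q.2 D] with ψ h1 h2 h3 h4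
  exact ⟨List.forall_mem_map.2 h1, by rw [h2, h3, h4]⟩

theorem prsV [Finite ι] (h : IsSpec O L) (X Y : List (ι → K)) :
    ∀ᶠ ψ in L, (pairs tn X Y).map (fun x => ψ ∘ x) ⊆
      pairs tn (X.map fun x => ψ ∘ x) (Y.map fun x => ψ ∘ x) := by
  filter_upwards [IsSpec.all (l := X) fun u _ => IsSpec.all (l := Y) fun v _ =>
    eventually_all.2 fun q : ι × ι => h.mul (u q.1) (v q.2)] with ψ h1 z hz
  obtain ⟨_, h2, rfl⟩ := List.mem_map.1 hz
  obtain ⟨u, hu, v, hv, rfl⟩ := mem_pairs.1 h2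
  exact mem_pairs.2 ⟨_, List.mem_map_of_mem hu, _, List.mem_map_of_mem hv,
    (funext (h1 u hu v hv)).symm⟩

theorem orthV [Fintype ι] (h : IsSpec O L) {X Y : List (ι → K)}
    (hc : ∀ c ∈ X, ∀ x ∈ Y, c ⬝ᵥ x = 0) : ∀ᶠ ψ in L,
      ∀ c ∈ X.map fun x => ψ ∘ x, ∀ x ∈ Y.map fun x => ψ ∘ x, c ⬝ᵥ x = 0 := by
  filter_upwards [IsSpec.all (l := X) fun u _ => IsSpec.all (l := Y) fun v _ => h.dot u v,
    h.zero] with ψ h1 h0
  refine List.forall_mem_map.2 fun u hu => List.forall_mem_map.2 fun v hv => ?_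
  rw [← h1 u hu v hv, hc u hu v hv, h0]

end LSpecAux

theorem IsSpec.gen [Finite ι] (h : IsSpec O L) {M D : List (ι → K)} {x : ι → K}
    (hx : x ∈ genMod O K M D) :
    ∀ᶠ ψ in L, ψ ∘ x ∈ genMod O K (M.map fun x => ψ ∘ x) (D.map fun x => ψ ∘ x) := by
  obtain ⟨q, h1, rfl⟩ := LSpecAux.mem_gen.1 hx
  filter_upwards [LSpecAux.genV h (M := M) (D := D) h1] with ψ h2
  exact LSpecAux.mem_gen.2 ⟨(_, _), h2⟩

theorem IsSpec.cert [Fintype ι] [DecidableEq ι] (h : IsSpec O L) {C A M D E : List (ι → K)}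
    (hc : LCrt O C A M D E) : ∀ᶠ ψ in L, LCrt O (C.map fun x => ψ ∘ x) (A.map fun x => ψ ∘ x)
      (M.map fun x => ψ ∘ x) (D.map fun x => ψ ∘ x) (E.map fun x => ψ ∘ x) := by
  obtain ⟨h1, h2, h3, h4, h5⟩ := hc
  filter_upwards [LSpecAux.orthV h h1, LSpecAux.orthV h h2, LSpecAux.orthV h h3,
    IsSpec.all (l := A) fun u hu => IsSpec.all (l := M) fun v hv =>
      (h.dot u v).and (h.int _ (h4 u hu v hv)),
    h.gen h5, LSpecAux.prsV h M A, LSpecAux.prsV h D E, LSpecAux.prsV h E C, h.zero, h.one]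
    with ψ k1 k2 k3 k4 k5 k6 k7 k8 k0 k9
  refine ⟨k1, k2, k3, List.forall_mem_map.2 fun u hu => List.forall_mem_map.2 fun v hv => ?_, ?_⟩
  · rw [← (k4 u hu v hv).1]
    exact (k4 u hu v hv).2
  · have e : ψ ∘ idv K ι = idv K ι := by
      funext q
      by_cases hq : q.1 = q.2 <;> simp [idv, hq, k0, k9]
    rw [e, List.map_append] at k5
    exact gen_mono k6 (List.append_subset.2 ⟨List.subset_append_of_subset_left _ k7,
      List.subset_append_of_subset_right _ k8⟩) k5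

end pure

variable {A : Type} [Rep A]

theorem FK.zinv {m : A → ℕ} (hm : CS m) (h0 : ∀ a, 0 < m a) :
    FK (fun a => Zinv (m a)) (fun _ => ℚ) where
  zero := ZeroF.rat
  one := OneF.rat
  add := AddF.rat
  mul := MulF.rat
  neg := NegF.rat
  rat := FOpsAux.s2
  disc := Disc.rat
  enum := Enum.rat.toC
  int := (CS.memZinv (hm.comp FOpsAux.s1) FOpsAux.s2).of_iff fun _ _ => isI_zinv.symm
  nice := fun a => nice_zinv (h0 a)
  spec := fun _ => ⟨_, spec_rat _⟩

theorem FK.padic {p : A → Nat.Primes} (hp : CS p) :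
    FK (fun a => Zp (p a)) (fun a => Qp (p a)) where
  zero := ZeroF.padic
  one := OneF.padic
  add := AddF.padic
  mul := MulF.padic
  neg := NegF.padic
  rat := CS.ratCast RatF.padic FOpsAux.s2
  disc := Disc.padic hp
  enum := EnumC.padic hp
  int := (CS.le LeF.real (CS.padicNorm (hp.comp FOpsAux.s1) FOpsAux.s2)
    (CS.one OneF.real)).of_iff fun _ _ => isI_padic.symm
  nice := fun a => nice_padic (p a)
  spec := fun a => spec_padic (p a)

variable {O K : A → Type} [∀ a, CommRing (O a)] [∀ a, Field (K a)] [∀ a, Algebra (O a) (K a)]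
  [∀ a, Rep (K a)] {ι : A → Type} [∀ a, Rep (ι a)]

theorem CS.isI {x : ∀ a, K a} (hK : FK O K) (hx : CS x) : CS (fun a => IsI (O a) (x a)) :=
  hK.int.comp (g := fun a => ⟨a, x a⟩) (CS.smk0 CS.id hx)

theorem CS.castVec {v : ∀ a, ι a → ℚ} (hK : FK O K) (hv : CS v) :
    CS (fun a => castV (K a) (v a)) :=
  CS.lam (hK.rat.comp (g := fun p : Σ a, ι a => ⟨p.1, v p.1 p.2⟩)
    (CS.smk0 FOpsAux.s1 (CS.app (hv.comp FOpsAux.s1) FOpsAux.s2)))

theorem coded_vec_iff (hι : CFin ι) (hd : Disc ι) {a : A} (ha : Coded a) {x : ι a → K a} :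
    Coded x ↔ ∀ i, Coded (x i) :=
  ⟨fun h i => h.app (hι.enum.coded ha i), fun h => coded_pi (β := fun a _ => K a) hι hd ha h⟩

theorem LSpecAux.cs_lc {M : ∀ a, List (ι a → K a)} {s : ∀ a, List (K a)} (hK : FK O K)
    (hs : CS s) (hM : CS M) : CS (fun a => LSpecAux.lc (s a) (M a)) :=
  CS.listSum hK.add.pi hK.zero.pi (CS.zipWith (FOpsAux.cur2
    (CS.smul ((SMulF.pi (ι := ι) (SMulF.self hK.mul)).comp FOpsAux.s1) (CS.fst FOpsAux.s2)
      (CS.snd FOpsAux.s2))) hs hM)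

theorem CS.memGen {M D : ∀ a, List (ι a → K a)} {x : ∀ a, ι a → K a} (hK : FK O K)
    (hι : CFin ι) (hM : CS M) (hD : CS D) (hx : CS x) :
    CS (fun a => x a ∈ genMod (O a) (K a) (M a) (D a)) := by
  have h1 : CS (fun a => ∃ q : List (K a) × List (K a), Coded q ∧ ((∀ c ∈ q.1, IsI (O a) c) ∧
      x a = LSpecAux.lc q.1 (M a) + LSpecAux.lc q.2 (D a))) := by
    have hK' := hK.comp (FOpsAux.s1 (β := fun a => List (K a) × List (K a)))
    refine CS.exC (hK.enum.list.prod hK.enum.list) (CS.and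
      (CS.allMem (CS.fst FOpsAux.s2) (CS.isI (hK'.comp FOpsAux.s1) FOpsAux.s2)) ?_)
    exact CS.eq ((Disc.pi (β := fun a _ => K a) hι (hK.disc.comp FOpsAux.s1)).comp FOpsAux.s1)
      (hx.comp FOpsAux.s1) (CS.add hK'.add.pi
        (LSpecAux.cs_lc hK' (CS.fst FOpsAux.s2) (hM.comp FOpsAux.s1))
        (LSpecAux.cs_lc hK' (CS.snd FOpsAux.s2) (hD.comp FOpsAux.s1)))
  refine h1.of_iff fun a ha => ⟨fun ⟨q, _, h⟩ => LSpecAux.mem_gen.2 ⟨q, h⟩, fun h => ?_⟩
  obtain ⟨q, h2, h3⟩ := LSpecAux.mem_gen.1 h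
  obtain ⟨L, hL⟩ := hK.spec a
  haveI := hL.ne
  haveI := hι.finite ha
  have c : ∀ y : ι a → K a, Coded y → ∀ i, Coded (y i) := fun y hy i =>
    hy.app (hι.enum.coded ha i)
  obtain ⟨ψ, ⟨k1, k2⟩, k3, k4, k5, k6⟩ := ((LSpecAux.genV hL (M := M a) (D := D a) h2).and
    ((hL.fixV (c _ (hx.coded ha))).and
    ((hL.fixL fun y hy => c y (coded_list.1 (hM.coded ha) y hy)).and
    ((hL.fixL fun y hy => c y (coded_list.1 (hD.coded ha) y hy)).and hL.coded)))).exists
  rw [← h3, k3, k4, k5] at k2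
  exact ⟨(q.1.map ψ, q.2.map ψ), coded_prod.2 ⟨coded_list.2 (List.forall_mem_map.2 fun y _ => k6 y),
    coded_list.2 (List.forall_mem_map.2 fun y _ => k6 y)⟩, k1, k2⟩

variable [∀ a, Fintype (ι a)] [∀ a, DecidableEq (ι a)]

namespace LSpecAux

theorem cs_dot {X Y : ∀ a, List (ι a → K a)} (hK : FK O K) (hι : CFin ι) (hX : CS X) (hY : CS Y)
    {P : ∀ a, K a → Prop} (hP : CS (fun p : Σ a, K a => P p.1 p.2)) :
    CS (fun a => ∀ c ∈ X a, ∀ x ∈ Y a, P a (c ⬝ᵥ x)) := by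
  refine CS.allMem hX (CS.allMem (hY.comp FOpsAux.s1) ?_)
  have hg : CS (fun p : Σ b : (Σ a, (ι a → K a)), (ι b.1 → K b.1) => p.1.1) :=
    CS.sfst FOpsAux.s1
  exact hP.comp (g := fun p : Σ b : (Σ a, (ι a → K a)), (ι b.1 → K b.1) => ⟨p.1.1, p.1.2 ⬝ᵥ p.2⟩)
    (CS.smk0 hg (CS.dotProduct (hι.comp hg) (hK.add.comp hg) (hK.zero.comp hg) (hK.mul.comp hg)
      (FOpsAux.s2.comp FOpsAux.s1) FOpsAux.s2))

theorem cs_tn (hK : FK O K) :
    CS (fun a => (tn : (ι a → K a) → (ι a → K a) → ι a × ι a → K a)) := by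
  refine FOpsAux.cur2 (CS.lam ?_)
  exact CS.mul (hK.mul.comp (CS.sfst FOpsAux.s1))
    (CS.app (CS.fst (FOpsAux.s2.comp FOpsAux.s1)) (CS.fst FOpsAux.s2))
    (CS.app (CS.snd (FOpsAux.s2.comp FOpsAux.s1)) (CS.snd FOpsAux.s2))

theorem cs_idv (hK : FK O K) (hι : CFin ι) (hd : Disc ι) : CS (fun a => idv (K a) (ι a)) :=
  CS.lam (CS.ite (CS.eq (hd.comp FOpsAux.s1) (CS.fst FOpsAux.s2) (CS.snd FOpsAux.s2))
    (CS.notEq ((hι.haus hd).comp FOpsAux.s1) (CS.fst FOpsAux.s2) (CS.snd FOpsAux.s2))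
    (CS.one (hK.one.comp FOpsAux.s1)) (CS.zero (hK.zero.comp FOpsAux.s1)))

theorem cs_cert {C B M D E : ∀ a, List (ι a → K a)} (hK : FK O K) (hι : CFin ι) (hd : Disc ι)
    (hC : CS C) (hB : CS B) (hM : CS M) (hD : CS D) (hE : CS E) :
    CS (fun a => LCrt (O a) (C a) (B a) (M a) (D a) (E a)) := by
  have h0 : CS (fun p : Σ a, K a => p.2 = 0) :=
    CS.eq (hK.disc.comp FOpsAux.s1) FOpsAux.s2 (CS.zero (hK.zero.comp FOpsAux.s1))
  exact CS.and (cs_dot hK hι hC hM (P := fun _ z => z = 0) h0)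
    (CS.and (cs_dot hK hι hC hD (P := fun _ z => z = 0) h0)
    (CS.and (cs_dot hK hι hB hD (P := fun _ z => z = 0) h0)
    (CS.and (cs_dot hK hι hB hM (P := fun a z => IsI (O a) z) hK.int)
    (CS.memGen hK (hι.prod hι) (CS.prs (cs_tn hK) hM hB)
      (CS.append (CS.prs (cs_tn hK) hD hE) (CS.prs (cs_tn hK) hE hC)) (cs_idv hK hι hd)))))

end LSpecAux

theorem MV.cert {C B : ∀ a, List (ι a → K a)} (hK : FK O K) (hι : CFin ι) (hd : Disc ι)
    (hC : CS C) (hB : CS B) :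
    MV (fun a (q : List (ι a → K a) × List (ι a → K a) × List (ι a → K a)) =>
      LCrt (O a) (C a) (B a) q.1 q.2.1 q.2.2) := by
  have hE : EnumC (fun a => List (ι a → K a)) :=
    (EnumC.pi (β := fun a _ => K a) hι hd (hK.enum.comp FOpsAux.s1)).list
  refine MV.searchC (hE.prod (hE.prod hE)) (LSpecAux.cs_cert (hK.comp FOpsAux.s1)
    (hι.comp FOpsAux.s1) (hd.comp FOpsAux.s1) (hC.comp FOpsAux.s1) (hB.comp FOpsAux.s1)
    (CS.fst FOpsAux.s2) (CS.fst (CS.snd FOpsAux.s2)) (CS.snd (CS.snd FOpsAux.s2)))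
    (fun _ _ h => h) fun a ha => ?_
  obtain ⟨M, D, E, h⟩ := cert_exists (hK.nice a) (C a) (B a)
  obtain ⟨L, hL⟩ := hK.spec a
  haveI := hL.ne
  obtain ⟨ψ, k1, k2, k3, k4⟩ := ((hL.cert h).and
    ((hL.fixL fun y hy => (coded_vec_iff hι hd ha).1 (coded_list.1 (hC.coded ha) y hy)).and
    ((hL.fixL fun y hy => (coded_vec_iff hι hd ha).1 (coded_list.1 (hB.coded ha) y hy)).and
    hL.coded))).exists
  rw [k2, k3] at k1
  have c : ∀ X : List (ι a → K a), Coded (X.map fun x => ψ ∘ x) := fun X =>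
    coded_list.2 (List.forall_mem_map.2 fun y _ => (coded_vec_iff hι hd ha).2 fun i => k4 _)
  exact ⟨(_, _, _), coded_prod.2 ⟨c M, coded_prod.2 ⟨c D, c E⟩⟩, k1⟩

theorem ConF.toGen {N : ∀ a, Submodule (O a) (ι a → K a)} (h : ConF O K N) (hK : FK O K)
    (hι : CFin ι) (hd : Disc ι) : GenF O K N := by
  refine MV.bind h (MV.bind (MV.cert (hK.comp FOpsAux.v1) (hι.comp FOpsAux.v1)
    (hd.comp FOpsAux.v1) (CS.fst FOpsAux.v2) (CS.snd FOpsAux.v2)) ?_)
  exact MV.of_cs (CS.pair (CS.fst FOpsAux.v2) (CS.fst (CS.snd FOpsAux.v2))) fun p _ =>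
    p.1.1.2.trans (cert_sound p.2)

theorem GenF.toCon {N : ∀ a, Submodule (O a) (ι a → K a)} (h : GenF O K N) (hK : FK O K)
    (hι : CFin ι) (hd : Disc ι) : ConF O K N := by
  refine MV.bind h (MV.bind (MV.cert (hK.comp FOpsAux.v1) (hι.comp FOpsAux.v1)
    (hd.comp FOpsAux.v1) (CS.snd FOpsAux.v2) (CS.fst FOpsAux.v2)) ?_)
  exact MV.of_cs (CS.pair (CS.fst (CS.snd FOpsAux.v2)) (CS.fst FOpsAux.v2)) fun p _ =>
    p.1.1.2.trans (cert_sound (cert_symm p.2)).symm

end Pool.Agent.P.MP_257122_al
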