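import Pool.Agent.P.MP_257122_al.LDens
import Pool.Agent.P.MP_257122_al.LSpec

/-!
# Operations that are immediate on constraints

PLAN.  `MV.ofMap (fun _ => Desc.sub) h` gives a description, `CS.toMap (fun _ => Desc.sub)`
builds a subgroup from a computed description (then `CS.congr`).  Membership is a conjunction of
decidable constraints (`CS.memZinv`, `CS.padicNorm`, `LeF.real`, `LtF.real`).  `addNotLe`: guess
a vector.  `addBot`: the coordinate forms.  `addInf`: append.  `lcomap`: compose.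
`toAddSubgroup`: `MV.ann`.  `infList`: `CS.foldr` with `addInf`; `addiInf` over the list given by
`CFin`.  `memGlob`: `mem_glob_iff`.  `resGlob`, `resLoc`: `MV.elim`; a vector `c` gives the form
`x ↦ c ⬝ᵥ castV x`; the `p`-adic equations are handled by `CS.kerPadic`, `toAddSubgroup` and
`infList`.
-/

namespace Pool.Agent.P.MP_257122_al

open Matrix

/-- The vectors with coordinates in `Zinv m`. -/
def zl (ι : Type) (m : ℕ) : AddSubgroup (ι → ℚ) where
  carrier := {x | ∀ i, x i ∈ Zinv m}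
  zero_mem' := fun _ => zero_mem _
  add_mem' := fun hx hy i => add_mem (hx i) (hy i)
  neg_mem' := fun hx i => neg_mem (hx i)

variable {A : Type} [Rep A] {V W : A → Type}
  [∀ a, Rep (V a)] [∀ a, AddCommGroup (V a)] [∀ a, Module ℚ (V a)]
  [∀ a, Rep (W a)] [∀ a, AddCommGroup (W a)] [∀ a, Module ℚ (W a)]
  {Λ Λ' : ∀ a, AddSubgroup (V a)}

namespace LEasyAux

open FOpsAux

theorem elim {T U : A → Type} [∀ a, Rep (T a)] [∀ a, Rep (U a)] {Q : ∀ a, T a → Prop}
    (h : MV Q) {f : ∀ a, U a}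
    (H : ∀ (B : Type) [Rep B] (g : B → A) (x : ∀ b, T (g b)), CS g → CS x →
      (∀ b, Q (g b) (x b)) → CS (fun b => f (g b))) : CS f :=
  h.elim (H _ (fun p : {p : Σ a, T a // Q p.1 p.2} => p.1.1) (fun p => p.1.2) v1 v2 fun p => p.2)

theorem desc (h : CS Λ) : MV (fun a (D : Desc (V a)) => D.sub = Λ a) :=
  MV.ofMap (U := fun a => Desc (V a)) (fun _ => Desc.sub) h

theorem mk {D : ∀ a, Desc (V a)} (hD : CS D) (e : ∀ a, (D a).sub = Λ a) : CS Λ :=
  (CS.toMap (U := fun a => Desc (V a)) (fun _ => Desc.sub) hD).congr fun a _ => e a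

theorem mem_sub {V : Type} [AddCommGroup V] [Module ℚ V] {D : Desc V} {x : V} :
    x ∈ D.sub ↔ (∀ c ∈ D.1, c x = 0) ∧ (∀ b ∈ D.2.1, b.2 x ∈ Zinv b.1.1) ∧
      ∀ a ∈ D.2.2, ‖a.2 x‖ ≤ 1 := Iff.rfl

theorem pr1 (g : ∀ a, Σ p : Nat.Primes, V a →ₗ[ℚ] Qp p) (h : CS g) : CS (fun a => (g a).1) :=
  CS.sfst (α := fun _ => Nat.Primes) (β := fun a p => V a →ₗ[ℚ] Qp p) h

theorem pr2 (g : ∀ a, Σ p : Nat.Primes, V a →ₗ[ℚ] Qp p) (h : CS g) : CS (fun a => (g a).2) :=
  CS.ssnd (α := fun _ => Nat.Primes) (β := fun a p => V a →ₗ[ℚ] Qp p) h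

theorem nrm {x : ∀ a, V a} (hx : CS x) :
    CS (fun q : Σ a, (Σ p : Nat.Primes, V a →ₗ[ℚ] Qp p) => ‖q.2.2 (x q.1)‖) :=
  CS.padicNorm (pr1 (V := fun q : Σ a, (Σ p : Nat.Primes, V a →ₗ[ℚ] Qp p) => V q.1) _ s2)
    (CS.linApp (pr2 (V := fun q : Σ a, (Σ p : Nat.Primes, V a →ₗ[ℚ] Qp p) => V q.1) _ s2)
      (hx.comp s1))

theorem memD {D : ∀ a, Desc (V a)} {x : ∀ a, V a} (hD : CS D) (hx : CS x) :
    CS (fun a => x a ∈ (D a).sub) :=
  CS.and (CS.allMem hD.fst (CS.eq Disc.rat (CS.linApp s2 (hx.comp s1)) (CS.zero ZeroF.rat)))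
    (CS.and (CS.allMem hD.snd.fst (CS.memZinv (CS.val s2.fst) (CS.linApp s2.snd (hx.comp s1))))
      (CS.allMem hD.snd.snd (CS.le LeF.real (nrm hx) (CS.one OneF.real))))

theorem notMemD {D : ∀ a, Desc (V a)} {x : ∀ a, V a} (hD : CS D) (hx : CS x) :
    CS (fun a => ¬ x a ∈ (D a).sub) :=
  CS.notAnd
    (CS.notAllMem hD.fst (CS.notEq Haus.rat (CS.linApp s2 (hx.comp s1)) (CS.zero ZeroF.rat)))
    (CS.notAnd
      (CS.notAllMem hD.snd.fst (CS.notMemZinv (CS.val s2.fst) (CS.linApp s2.snd (hx.comp s1))))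
      (CS.notAllMem hD.snd.snd (CS.notLe LtF.real (nrm hx) (CS.one OneF.real))))

/-- The subgroup killed by a list of forms. -/
theorem killed {l : ∀ a, List (V a →ₗ[ℚ] ℚ)} (hl : CS l)
    (e : ∀ a x, x ∈ Λ a ↔ ∀ c ∈ l a, c x = 0) : CS Λ :=
  mk (D := fun a => (l a, [], [])) (hl.pair (CS.nil.pair CS.nil)) fun a => by
    ext x
    simp [mem_sub, e]

/-- The form `x ↦ c ⬝ᵥ x` on rational vectors. -/
noncomputable def form {ι : Type} [Fintype ι] {K : Type} [Field K] [CharZero K] (c : ι → K) :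
    (ι → ℚ) →ₗ[ℚ] K where
  toFun x := c ⬝ᵥ castV K x
  map_add' x y := by rw [castK_add, dotProduct_add]
  map_smul' q x := by
    rw [castK_smul, dotProduct_smul, smul_eq_mul, RingHom.id_apply, Rat.smul_def]

theorem form_apply {ι : Type} [Fintype ι] {K : Type} [Field K] [CharZero K] (c : ι → K)
    (x : ι → ℚ) : form c x = c ⬝ᵥ castV K x := rfl

theorem cs_form {ι O K : A → Type} [∀ a, Rep (ι a)] [∀ a, Fintype (ι a)] [∀ a, CommRing (O a)]
    [∀ a, Field (K a)] [∀ a, CharZero (K a)] [∀ a, Algebra (O a) (K a)] [∀ a, Rep (K a)]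
    {c : ∀ a, ι a → K a} (hK : FK O K) (hι : CFin ι) (hc : CS c) : CS (fun a => form (c a)) :=
  CS.linIntro (CS.dotProduct (hι.comp s1) (hK.add.comp s1) (hK.zero.comp s1) (hK.mul.comp s1)
    (hc.comp s1) (CS.castVec (hK.comp s1) s2))

end LEasyAux

open LEasyAux FOpsAux

@[aesop safe 50 apply (transparency := reducible) (rule_sets := [Restrict])]
theorem CS.memAdd {x : ∀ a, V a} (h : CS Λ) (hx : CS x) : CS (fun a => x a ∈ Λ a) :=
  elim (desc h) fun _ _ _ _ hg hD e => (memD hD (hx.comp hg)).of_iff fun b _ => by rw [e b]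
@[aesop safe 50 apply (transparency := reducible) (rule_sets := [Restrict])]
theorem CS.notMemAdd {x : ∀ a, V a} (h : CS Λ) (hx : CS x) : CS (fun a => ¬ x a ∈ Λ a) :=
  elim (desc h) fun _ _ _ _ hg hD e => (notMemD hD (hx.comp hg)).of_iff fun b _ => by rw [e b]
@[aesop safe 45 apply (transparency := reducible) (rule_sets := [Restrict])]
theorem CS.addNotLe (hV : CoordF V) (h : CS Λ) (h' : CS Λ') : CS (fun a => ¬ Λ a ≤ Λ' a) :=
  (CS.ex (P := fun a x => x ∈ Λ a ∧ ¬ x ∈ Λ' a) hV.enum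
    (CS.and (CS.memAdd (h.comp s1) s2) (CS.notMemAdd (h'.comp s1) s2))).of_iff fun _ _ =>
      SetLike.not_le_iff_exists.symm
@[aesop safe 50 apply (transparency := reducible) (rule_sets := [Restrict])]
theorem EnumC.addSubgroup (hV : CoordF V) : EnumC (fun a => AddSubgroup (V a)) := by
  have hq : EnumC (fun a => V a →ₗ[ℚ] ℚ) :=
    EnumC.linearMap hV Enum.rat.toC AddF.rat ZeroF.rat (SMulF.self MulF.rat)
  refine EnumC.ofMap (U := fun a => Desc (V a)) (fun _ => Desc.sub)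
    (EnumC.prod hq.list (EnumC.prod (EnumC.list (EnumC.prod ?_ hq)) (EnumC.list ?_)))
  · exact EnumC.subtype Enum.nat.toC (CS.lt LtF.nat (CS.zero ZeroF.nat) s2)
  · exact EnumC.sigma (β := fun a (p : Nat.Primes) => V a →ₗ[ℚ] Qp p) Enum.primes.toC
      (EnumC.linearMap (hV.comp s1) (EnumC.padic s2) AddF.padic ZeroF.padic
        (SMulF.rat MulF.padic RatF.padic))
@[aesop safe 50 apply (transparency := reducible) (rule_sets := [Restrict])]
theorem CS.addTop : CS (fun a => (⊤ : AddSubgroup (V a))) :=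
  killed (l := fun _ => []) CS.nil fun _ _ => by simp
@[aesop safe 50 apply (transparency := reducible) (rule_sets := [Restrict])]
theorem CS.addBot (hV : CoordF V) : CS (fun a => (⊥ : AddSubgroup (V a))) :=
  elim (MV.ann hV CS.submoduleBot) fun _ _ _ _ _ hl e => killed hl fun b x => by
    rw [← e b x, AddSubgroup.mem_bot, Submodule.mem_bot]
@[aesop safe 50 apply (transparency := reducible) (rule_sets := [Restrict])]
theorem CS.addInf (h : CS Λ) (h' : CS Λ') : CS (fun a => Λ a ⊓ Λ' a) :=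
  elim ((desc h).prod (desc h')) fun _ _ _ D _ hD e =>
    mk (D := fun b => ((D b).1.1 ++ (D b).2.1, (D b).1.2.1 ++ (D b).2.2.1,
      (D b).1.2.2 ++ (D b).2.2.2))
      ((CS.append hD.fst.fst hD.snd.fst).pair ((CS.append hD.fst.snd.fst hD.snd.snd.fst).pair
        (CS.append hD.fst.snd.snd hD.snd.snd.snd))) fun b => by
      ext x
      rw [← (e b).1, ← (e b).2, AddSubgroup.mem_inf]
      simp only [mem_sub, List.forall_mem_append]
      tauto
@[aesop safe 50 apply (transparency := reducible) (rule_sets := [Restrict])]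
theorem CS.toAddSubgroup {U : ∀ a, Submodule ℚ (V a)} (hV : CoordF V) (h : CS U) :
    CS (fun a => (U a).toAddSubgroup) :=
  elim (MV.ann hV h) fun _ _ _ _ _ hl e => killed hl fun b x => by
    rw [← e b x, Submodule.mem_toAddSubgroup]
@[aesop safe 50 apply (transparency := reducible) (rule_sets := [Restrict])]
theorem CS.lcomap {φ : ∀ a, W a →ₗ[ℚ] V a} (hφ : CS φ) (h : CS Λ) :
    CS (fun a => lcomap (φ a) (Λ a)) :=
  elim (desc h) fun B _ g D hg hD e => by
    have h1 : CS (fun b => (D b).1.map fun c => c ∘ₗ φ (g b)) :=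
      CS.map (CS.lam (CS.linComp s2 ((hφ.comp hg).comp s1))) hD.fst
    have h2 : CS (fun b => (D b).2.1.map fun c => (c.1, c.2 ∘ₗ φ (g b))) :=
      CS.map (CS.lam (s2.fst.pair (CS.linComp s2.snd ((hφ.comp hg).comp s1)))) hD.snd.fst
    have h3 : CS (fun b => (D b).2.2.map fun c =>
        (⟨c.1, c.2 ∘ₗ φ (g b)⟩ : Σ p : Nat.Primes, W (g b) →ₗ[ℚ] Qp p)) :=
      CS.map (CS.lam (CS.smk
        (A := Σ b, (Σ p : Nat.Primes, V (g b) →ₗ[ℚ] Qp p)) (α := fun _ => Nat.Primes)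
        (β := fun q p => W (g q.1) →ₗ[ℚ] Qp p) (fun q => q.2.1)
        (fun q => q.2.2 ∘ₗ φ (g q.1))
        (pr1 (V := fun q : Σ b, (Σ p : Nat.Primes, V (g b) →ₗ[ℚ] Qp p) => V (g q.1)) _ s2)
        (CS.linComp
          (pr2 (V := fun q : Σ b, (Σ p : Nat.Primes, V (g b) →ₗ[ℚ] Qp p) => V (g q.1)) _ s2)
          ((hφ.comp hg).comp s1)))) hD.snd.snd
    refine mk (h1.pair (h2.pair h3)) fun b => ?_
    ext x
    rw [← e b]
    simp only [mem_sub, List.forall_mem_map]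
    rfl
@[aesop safe 50 apply (transparency := reducible) (rule_sets := [Restrict])]
theorem CS.memGlob {m : A → ℕ} {x : ∀ a, V a} (hV : CoordF V) (hm : CS m) (h : CS Λ)
    (hx : CS x) : CS (fun a => x a ∈ glob (m a) (Λ a)) :=
  have k : CS (fun p : Σ _ : A, ℕ => ((p.2 : ℕ) : ℚ)) :=
    CS.natCast AddF.rat ZeroF.rat OneF.rat s2
  (CS.ex (P := fun a (N : ℕ) => 0 < N ∧ (N : ℚ)⁻¹ ∈ Zinv (m a) ∧ (N : ℚ) • x a ∈ Λ a) Enum.nat
    (CS.and (CS.lt LtF.nat (CS.zero ZeroF.nat) s2)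
      (CS.and (CS.memZinv (hm.comp s1) (CS.inv InvF.rat k))
        (CS.memAdd (h.comp s1) (CS.smul (hV.smul.comp s1) k (hx.comp s1)))))).of_iff
    fun a _ => (mem_glob_iff (m a) (Λ a) (x a)).symm

theorem CS.infList {T : A → Type} [∀ a, Rep (T a)] {l : ∀ a, List (T a)}
    {F : ∀ a, T a → AddSubgroup (V a)} (hl : CS l) (h : CS (fun p : Σ a, T a => F p.1 p.2)) :
    CS (fun a => ⨅ t ∈ l a, F a t) := by
  refine (CS.foldr (f := fun a t S => F a t ⊓ S) (CS.lam (CS.lam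
    (CS.addInf (h.comp s1) s2))) CS.addTop hl).congr fun a _ => ?_
  induction l a with
  | nil => simp
  | cons t l ih =>
    rw [List.foldr_cons, ih]
    ext x
    simp [AddSubgroup.mem_iInf]

theorem CS.addiInf {T : A → Type} [∀ a, Rep (T a)] {F : ∀ a, T a → AddSubgroup (V a)}
    (hT : CFin T) (h : CS (fun p : Σ a, T a => F p.1 p.2)) : CS (fun a => ⨅ t, F a t) :=
  elim hT fun _ _ g l hg hl e =>
    (CS.infList (F := fun b t => F (g b) t) hl
      (h.comp (g := fun p : Σ b, T (g b) => ⟨g p.1, p.2⟩)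
        (CS.smk0 (hg.comp s1) s2))).congr fun b _ => by
      simp [(e b).2]

variable {ι : A → Type} [∀ a, Rep (ι a)]

theorem CS.zlat {m : A → ℕ} (hι : CFin ι) (hm : CS m) (h0 : ∀ a, 0 < m a) :
    CS (fun a => zl (ι a) (m a)) :=
  elim hι fun _ _ g l hg hl e => by
    have h1 : CS (fun b => (l b).map fun i => ((⟨m (g b), h0 _⟩, LinearMap.proj i) :
        {m : ℕ // 0 < m} × ((ι (g b) → ℚ) →ₗ[ℚ] ℚ))) :=
      CS.map (CS.lam ((CS.submk ((hm.comp hg).comp s1)).pair (CS.linIntro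
        (CS.app (A := Σ r : (Σ b, ι (g b)), (ι (g r.1) → ℚ)) (f := fun r => r.2)
          (i := fun r => r.1.2) s2 (s2.comp s1))))) hl
    refine mk (CS.nil.pair (h1.pair CS.nil)) fun b => ?_
    ext x
    simp only [mem_sub, List.forall_mem_map, (e b).2]
    simp [zl]

variable [∀ a, Fintype (ι a)]

theorem CS.resGlob {m : A → ℕ} {N : ∀ a, Submodule (Zinv (m a)) (ι a → ℚ)} (hι : CFin ι)
    (hm : CS m) (h0 : ∀ a, 0 < m a) (h : ConF (fun a => Zinv (m a)) (fun _ => ℚ) N) :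
    CS (fun a => resQ (N a)) :=
  elim h fun _ _ g q hg hq e => by
    have k := cs_form (c := fun p : Σ b, (ι (g b) → ℚ) => p.2)
      (FK.zinv ((hm.comp hg).comp s1) fun _ => h0 _) ((hι.comp hg).comp s1) s2
    have h1 : CS (fun b => (q b).1.map form) := CS.map (CS.lam k) hq.fst
    have h2 : CS (fun b => (q b).2.map fun c => ((⟨m (g b), h0 _⟩, form c) :
        {m : ℕ // 0 < m} × ((ι (g b) → ℚ) →ₗ[ℚ] ℚ))) :=
      CS.map (CS.lam ((CS.submk ((hm.comp hg).comp s1)).pair k)) hq.snd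
    refine mk (h1.pair (h2.pair CS.nil)) fun b => ?_
    ext x
    rw [mem_res, e b, mem_con]
    simp [mem_sub, form_apply, isI_zinv]

theorem CS.resLoc {p : A → Nat.Primes} {N : ∀ a, Submodule (Zp (p a)) (ι a → Qp (p a))}
    (hι : CFin ι) (hd : Disc ι) (hp : CS p)
    (h : ConF (fun a => Zp (p a)) (fun a => Qp (p a)) N) : CS (fun a => resQ (N a)) :=
  elim h fun B _ g q hg hq e => by
    have k := cs_form (c := fun r : Σ b, (ι (g b) → Qp (p (g b))) => r.2)
      (FK.padic ((hp.comp hg).comp s1)) ((hι.comp hg).comp s1) s2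
    have hV : CoordF (fun r : Σ b, (ι (g b) → Qp (p (g b))) => ι (g r.1) → ℚ) :=
      CoordF.pi ((hι.comp hg).comp s1) ((hd.comp hg).comp s1)
    have h1 : CS (fun b => ⨅ c ∈ (q b).1, (LinearMap.ker (form c)).toAddSubgroup) :=
      CS.infList hq.fst (CS.toAddSubgroup hV (CS.kerPadic hV ((hp.comp hg).comp s1) k))
    have h2 : CS (fun b => Desc.sub (V := ι (g b) → ℚ)
        ([], [], (q b).2.map fun c => ⟨p (g b), form c⟩)) :=
      mk (CS.nil.pair (CS.nil.pair (CS.map (CS.lam (CS.smk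
        (A := Σ b, (ι (g b) → Qp (p (g b)))) (α := fun _ => Nat.Primes)
        (β := fun r p => (ι (g r.1) → ℚ) →ₗ[ℚ] Qp p) (fun r => p (g r.1)) (fun r => form r.2)
        ((hp.comp hg).comp s1) k)) hq.snd))) fun _ => rfl
    refine (CS.addInf h1 h2).congr fun b _ => ?_
    ext x
    rw [mem_res, e b, mem_con, AddSubgroup.mem_inf]
    simp only [mem_sub, List.forall_mem_map, AddSubgroup.mem_iInf, Submodule.mem_toAddSubgroup,
      LinearMap.mem_ker, form_apply, isI_padic]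
    simp

end Pool.Agent.P.MP_257122_al
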