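import Pool.Agent.P.MP_257122_al.LSub
import Pool.Agent.P.MP_257122_al.LApprox

/-!
# Modules given by generators or by constraints: definitions and basic facts

`O` is a ring with fraction field `K` (the cases are `Zinv m ⊆ ℚ` and `Zp p ⊆ Qp p`).
-/

namespace Pool.Agent.P.MP_257122_al

open Matrix

/-- All values `f u v` for `u` in `X` and `v` in `Y`. -/
def pairs {α β γ : Type} (f : α → β → γ) (X : List α) (Y : List β) : List γ :=
  X.flatMap fun u => Y.map (f u)

theorem mem_pairs {α β γ : Type} {f : α → β → γ} {X : List α} {Y : List β} {z : γ} :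
    z ∈ pairs f X Y ↔ ∃ u ∈ X, ∃ v ∈ Y, f u v = z := by
  simp [pairs]

section pure
variable (O : Type) {K : Type} [CommRing O] [Field K] [Algebra O K] {ι κ μ : Type}

/-- `x` is integral. -/
def IsI (x : K) : Prop := ∃ o : O, algebraMap O K o = x

variable {O} in
theorem IsI.add {x y : K} (hx : IsI O x) (hy : IsI O y) : IsI O (x + y) := by
  obtain ⟨a, rfl⟩ := hx; obtain ⟨b, rfl⟩ := hy; exact ⟨a + b, map_add _ _ _⟩

variable {O} in
theorem IsI.mul {x y : K} (hx : IsI O x) (hy : IsI O y) : IsI O (x * y) := by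
  obtain ⟨a, rfl⟩ := hx; obtain ⟨b, rfl⟩ := hy; exact ⟨a * b, map_mul _ _ _⟩

theorem isI_zero : IsI O (0 : K) := ⟨0, map_zero _⟩

theorem isI_one : IsI O (1 : K) := ⟨1, map_one _⟩

variable {O} in
theorem IsI.smul {x : K} (hx : IsI O x) (o : O) : IsI O (o • x) := by
  rw [Algebra.smul_def]; exact IsI.mul ⟨o, rfl⟩ hx

variable {O} in
theorem IsI.smul_mem {W : Type} [AddCommGroup W] [Module K W] [Module O W] [IsScalarTower O K W]
    {N : Submodule O W} {c : K} (hc : IsI O c) {x : W} (hx : x ∈ N) : c • x ∈ N := by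
  obtain ⟨o, rfl⟩ := hc
  rw [algebraMap_smul]; exact N.smul_mem o hx

theorem isI_zinv {m : ℕ} {q : ℚ} : IsI (Zinv m) q ↔ q ∈ Zinv m :=
  ⟨fun ⟨o, h⟩ => h ▸ o.2, fun h => ⟨⟨q, h⟩, rfl⟩⟩

theorem isI_padic {p : Nat.Primes} {x : Qp p} : IsI (Zp p) x ↔ ‖x‖ ≤ 1 :=
  ⟨fun ⟨o, h⟩ => h ▸ o.2, fun h => ⟨⟨x, h⟩, rfl⟩⟩

/-- The vectors killed by `C` and integral on `A`. -/
def con [Fintype ι] (C A : List (ι → K)) : Submodule O (ι → K) where
  carrier := {y | (∀ c ∈ C, c ⬝ᵥ y = 0) ∧ ∀ a ∈ A, IsI O (a ⬝ᵥ y)}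
  zero_mem' := ⟨fun c _ => dotProduct_zero c, fun a _ => by
    rw [dotProduct_zero]; exact isI_zero O⟩
  add_mem' := fun {x y} hx hy => ⟨fun c hc => by
    rw [dotProduct_add, hx.1 c hc, hy.1 c hc, add_zero], fun a ha => by
    rw [dotProduct_add]; exact (hx.2 a ha).add (hy.2 a ha)⟩
  smul_mem' := fun o {y} hy => ⟨fun c hc => by rw [dotProduct_smul, hy.1 c hc, smul_zero],
    fun a ha => by rw [dotProduct_smul]; exact (hy.2 a ha).smul o⟩

variable {O} in
theorem mem_con [Fintype ι] {C A : List (ι → K)} {y : ι → K} :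
    y ∈ con O C A ↔ (∀ c ∈ C, c ⬝ᵥ y = 0) ∧ ∀ a ∈ A, IsI O (a ⬝ᵥ y) := Iff.rfl

section gen
variable {O} {W : Type} [AddCommGroup W] [Module K W] [Module O W] [IsScalarTower O K W]
  {M D : List W}

theorem genMod_le {N : Submodule O W} :
    genMod O K M D ≤ N ↔ (∀ x ∈ M, x ∈ N) ∧ ∀ d ∈ D, ∀ c : K, c • d ∈ N := by
  rw [genMod, sup_le_iff, Submodule.span_le]
  refine and_congr Iff.rfl ⟨fun h d hd c => h (Submodule.smul_mem _ c
    (Submodule.subset_span hd) : c • d ∈ Submodule.span K {x | x ∈ D}), fun h x hx => ?_⟩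
  replace hx : x ∈ Submodule.span K {x | x ∈ D} := hx
  have : ∀ c : K, c • x ∈ N := by
    induction hx using Submodule.span_induction with
    | mem x hx => exact h x hx
    | zero => intro c; rw [smul_zero]; exact N.zero_mem
    | add x y _ _ ihx ihy => intro c; rw [smul_add]; exact N.add_mem (ihx c) (ihy c)
    | smul a x _ ih => intro c; rw [smul_smul]; exact ih _
  simpa using this 1

theorem mem_gen_left {x : W} (hx : x ∈ M) : x ∈ genMod O K M D :=
  (genMod_le.1 le_rfl).1 x hx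

theorem smul_mem_gen {d : W} (hd : d ∈ D) (c : K) : c • d ∈ genMod O K M D :=
  (genMod_le.1 le_rfl).2 d hd c

theorem mem_gen_right {d : W} (hd : d ∈ D) : d ∈ genMod O K M D := by
  simpa using smul_mem_gen (O := O) (M := M) hd (1 : K)

theorem mem_gen_of_span {x : W} (hx : x ∈ Submodule.span K {x | x ∈ D}) : x ∈ genMod O K M D :=
  Submodule.mem_sup_right hx

theorem mem_gen_nil {x : W} : x ∈ genMod O K [] D ↔ x ∈ Submodule.span K {x | x ∈ D} := by
  simp [genMod]

theorem gen_mono {M' D' : List W} (hM : M ⊆ M') (hD : D ⊆ D') :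
    genMod O K M D ≤ genMod O K M' D' :=
  genMod_le.2 ⟨fun _ h => mem_gen_left (hM h), fun _ h c => smul_mem_gen (hD h) c⟩

/-- A `K`-linear map sends `genMod M D` into `N` if it does so on generators. -/
theorem map_gen {W' : Type} [AddCommGroup W'] [Module K W'] [Module O W'] [IsScalarTower O K W']
    (f : W →ₗ[K] W') {N : Submodule O W'} (hM : ∀ x ∈ M, f x ∈ N)
    (hD : ∀ d ∈ D, ∀ c : K, c • f d ∈ N) {x : W} (hx : x ∈ genMod O K M D) : f x ∈ N :=
  (genMod_le (N := N.comap (f.restrictScalars O))).2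
    ⟨hM, fun d hd c => by simpa using hD d hd c⟩ hx

end gen

/-- The module spanned by a group of rational vectors. -/
def ext (K : Type) [Field K] [Algebra O K] (Λ : AddSubgroup (ι → ℚ)) : Submodule O (ι → K) :=
  Submodule.span O (castV K '' (Λ : Set (ι → ℚ)))

theorem castK_add [CharZero K] (x y : ι → ℚ) : castV K (x + y) = castV K x + castV K y := by
  ext i; simp [castV]

theorem castV_neg (x : ι → ℚ) : castV K (-x) = -castV K x := by
  ext i; simp [castV]

theorem castV_zero : castV K (0 : ι → ℚ) = 0 := by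
  ext i; simp [castV]

theorem castK_smul [CharZero K] (q : ℚ) (x : ι → ℚ) :
    castV K (q • x) = (q : K) • castV K x := by
  ext i; simp [castV]

theorem castK_rat (x : ι → ℚ) : castV ℚ x = x := by
  ext i; simp [castV]

theorem loc_eq (p : Nat.Primes) (Λ : AddSubgroup (ι → ℚ)) : loc p Λ = ext (Zp p) (Qp p) Λ := rfl

theorem glob_eq (m : ℕ) (Λ : AddSubgroup (ι → ℚ)) : glob m Λ = ext (Zinv m) ℚ Λ := by
  simp [glob, ext, castK_rat]

variable {O} in
/-- The rational points of a module. -/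
def resQ [CharZero K] (N : Submodule O (ι → K)) : AddSubgroup (ι → ℚ) where
  carrier := {x | castV K x ∈ N}
  zero_mem' := by change castV K 0 ∈ N; rw [castV_zero]; exact N.zero_mem
  add_mem' := fun {x y} hx hy => by
    change castV K (x + y) ∈ N; rw [castK_add]; exact N.add_mem hx hy
  neg_mem' := fun {x} hx => by change castV K (-x) ∈ N; rw [castV_neg]; exact N.neg_mem hx

variable {O} in
theorem mem_res [CharZero K] {N : Submodule O (ι → K)} {x : ι → ℚ} :
    x ∈ resQ N ↔ castV K x ∈ N := Iff.rfl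

variable {O} in
theorem ext_le [CharZero K] {Λ : AddSubgroup (ι → ℚ)} {N : Submodule O (ι → K)} :
    ext O K Λ ≤ N ↔ Λ ≤ resQ N := by
  rw [ext, Submodule.span_le, Set.image_subset_iff]; rfl

variable {O} in
theorem cast_mem_ext {Λ : AddSubgroup (ι → ℚ)} {x : ι → ℚ} (hx : x ∈ Λ) :
    castV K x ∈ ext O K Λ := Submodule.subset_span ⟨x, hx, rfl⟩

/-- The tensor product of two vectors. -/
def tn (u : ι → K) (v : κ → K) : ι × κ → K := fun q => u q.1 * v q.2

/-- The identity matrix as a vector. -/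
def idv (K ι : Type) [Field K] [DecidableEq ι] : ι × ι → K := fun q => if q.1 = q.2 then 1 else 0

/-- A certificate for `con C A = genMod M D`. -/
def LCrt [Fintype ι] [DecidableEq ι] (C A M D E : List (ι → K)) : Prop :=
  (∀ c ∈ C, ∀ x ∈ M, c ⬝ᵥ x = 0) ∧ (∀ c ∈ C, ∀ d ∈ D, c ⬝ᵥ d = 0) ∧
  (∀ a ∈ A, ∀ d ∈ D, a ⬝ᵥ d = 0) ∧ (∀ a ∈ A, ∀ x ∈ M, IsI O (a ⬝ᵥ x)) ∧
  idv K ι ∈ genMod O K (pairs tn M A) (pairs tn D E ++ pairs tn E C)

/-- The coefficient vector of a linear form on rational vectors. -/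
def cv {F : Type} [AddCommGroup F] [Module ℚ F] [DecidableEq ι] (f : (ι → ℚ) →ₗ[ℚ] F) : ι → F :=
  fun i => f (Pi.single i 1)

/-- The bilinear map with structure constants `t`. -/
def bx [Fintype ι] [Fintype κ] (t : ι → κ → μ → K) : (ι → K) →ₗ[K] (κ → K) →ₗ[K] (μ → K) :=
  LinearMap.mk₂ K (fun x y l => ∑ i, ∑ j, x i * y j * t i j l)
    (fun x x' y => by ext l; simp [add_mul, Finset.sum_add_distrib])
    (fun c x y => by ext l; simp [Finset.mul_sum, mul_assoc])
    (fun x y y' => by ext l; simp [add_mul, mul_add, Finset.sum_add_distrib])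
    (fun c x y => by ext l; simp [Finset.mul_sum, mul_assoc, mul_left_comm])

theorem bx_apply [Fintype ι] [Fintype κ] (t : ι → κ → μ → K) (x : ι → K) (y : κ → K) :
    bx t x y = fun l => ∑ i, ∑ j, x i * y j * t i j l := rfl

/-- The structure constants of a rational bilinear map. -/
def bc (K : Type) [Field K] [DecidableEq ι] [DecidableEq κ]
    (β : (ι → ℚ) →ₗ[ℚ] (κ → ℚ) →ₗ[ℚ] (μ → ℚ)) : ι → κ → μ → K :=
  fun i j => castV K (β (Pi.single i 1) (Pi.single j 1))

/-- The module spanned by the values of a bilinear map. -/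
def bilM (B : (ι → K) →ₗ[K] (κ → K) →ₗ[K] (μ → K)) (N : Submodule O (ι → K))
    (N' : Submodule O (κ → K)) : Submodule O (μ → K) :=
  Submodule.span O {z | ∃ x ∈ N, ∃ y ∈ N', B x y = z}

/-- The vectors that carry `N` into `N'`. -/
def homM (B : (ι → K) →ₗ[K] (κ → K) →ₗ[K] (μ → K)) (N : Submodule O (κ → K))
    (N' : Submodule O (μ → K)) : Submodule O (ι → K) where
  carrier := {ξ | ∀ v ∈ N, B ξ v ∈ N'}
  zero_mem' := fun v _ => by rw [map_zero, LinearMap.zero_apply]; exact zero_mem _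
  add_mem' := fun {a b} ha hb v hv => by
    rw [map_add, LinearMap.add_apply]; exact add_mem (ha v hv) (hb v hv)
  smul_mem' := fun o {a} ha v hv => by
    rw [LinearMap.map_smul_of_tower, LinearMap.smul_apply]; exact N'.smul_mem o (ha v hv)

/-- The matrix over `K` of a rational linear map. -/
def mc (K : Type) [Field K] [DecidableEq ι] (φ : (ι → ℚ) →ₗ[ℚ] (ι → ℚ)) : Matrix ι ι K :=
  Matrix.of fun i j => (φ (Pi.single j 1) i : K)

/-- Add the images under the matrices in `l`. -/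
def grow [Fintype ι] (l : List (Matrix ι ι K)) (X : List (ι → K)) : List (ι → K) :=
  X ++ pairs (fun φ x => φ *ᵥ x) l X

/-- The least module containing `N` and closed under the matrices in `l`. -/
def clM [Fintype ι] (l : List (Matrix ι ι K)) (N : Submodule O (ι → K)) : Submodule O (ι → K) :=
  sInf {P | N ≤ P ∧ ∀ φ ∈ l, ∀ x ∈ P, φ *ᵥ x ∈ P}

/-- A certificate for `clM l (genMod M D) = genMod M' D'`. -/
def ClCert [Fintype ι] (π : K) (l : List (Matrix ι ι K)) (M D M' D' : List (ι → K)) (j : ℕ) :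
    Prop :=
  (∀ x ∈ grow l M' ++ M, x ∈ genMod O K M' D') ∧ (∀ x ∈ grow l D' ++ D, x ∈ genMod O K [] D') ∧
  (∀ x ∈ M' ++ D', x ∈ genMod O K ((grow l)^[j] M) ((grow l)^[j] D)) ∧
  ∀ x ∈ D', x ∈ genMod O K (((grow l)^[j] D').map fun y => π • y) ((grow l)^[j] D)

/-- A principal ideal domain that is not a field, with its fraction field. -/
structure Nice (K : Type) [Field K] [Algebra O K] : Prop where
  dom : IsDomain O
  pid : IsPrincipalIdealRing O
  frac : IsFractionRing O K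
  nf : ∃ x : K, ¬ IsI O x

/-- A family of approximate ring maps to coded elements that fix the coded elements. -/
structure IsSpec [Rep K] (L : Filter (K → K)) : Prop where
  ne : L.NeBot
  zero : ∀ᶠ ψ in L, ψ 0 = 0
  one : ∀ᶠ ψ in L, ψ 1 = 1
  add : ∀ x y, ∀ᶠ ψ in L, ψ (x + y) = ψ x + ψ y
  mul : ∀ x y, ∀ᶠ ψ in L, ψ (x * y) = ψ x * ψ y
  fix : ∀ x, Coded x → ∀ᶠ ψ in L, ψ x = x
  int : ∀ x, IsI O x → ∀ᶠ ψ in L, IsI O (ψ x)
  coded : ∀ᶠ ψ in L, ∀ x, Coded (ψ x)

end pure

section family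
variable {A : Type} [Rep A] (O K : A → Type) [∀ a, CommRing (O a)] [∀ a, Field (K a)]
  [∀ a, Algebra (O a) (K a)] [∀ a, Rep (K a)]

/-- A computable family of fields with rings of integers. -/
structure FK : Prop where
  zero : ZeroF K
  one : OneF K
  add : AddF K
  mul : MulF K
  neg : NegF K
  rat : CS (fun p : Σ _ : A, ℚ => ((p.2 : ℚ) : K p.1))
  disc : Disc K
  enum : EnumC K
  int : CS (fun p : Σ a, K a => IsI (O p.1) p.2)
  nice : ∀ a, Nice (O a) (K a)
  spec : ∀ a, ∃ L, IsSpec (K := K a) (O a) L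

variable {O K} in
theorem FK.comp {B : Type} [Rep B] {g : B → A} (h : FK O K) (hg : CS g) :
    FK (fun b => O (g b)) (fun b => K (g b)) where
  zero := h.zero.comp hg
  one := h.one.comp hg
  add := h.add.comp hg
  mul := h.mul.comp hg
  neg := h.neg.comp hg
  rat := h.rat.comp (g := fun p : Σ _ : B, ℚ => ⟨g p.1, p.2⟩)
    (CS.smk0 (hg.comp (CS.sfst CS.id)) (CS.ssnd CS.id))
  disc := h.disc.comp hg
  enum := h.enum.comp hg
  int := h.int.comp (g := fun p : Σ b, K (g b) => ⟨g p.1, p.2⟩)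
    (CS.smk0 (hg.comp (CS.sfst CS.id)) (CS.ssnd CS.id))
  nice := fun b => h.nice (g b)
  spec := fun b => h.spec (g b)

variable {ι : A → Type} [∀ a, Rep (ι a)]

/-- Generators of `N a` can be computed. -/
def GenF (N : ∀ a, Submodule (O a) (ι a → K a)) : Prop :=
  MV (fun a (q : List (ι a → K a) × List (ι a → K a)) => N a = genMod (O a) (K a) q.1 q.2)

/-- Constraints for `N a` can be computed. -/
def ConF [∀ a, Fintype (ι a)] (N : ∀ a, Submodule (O a) (ι a → K a)) : Prop :=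
  MV (fun a (q : List (ι a → K a) × List (ι a → K a)) => N a = con (O a) q.1 q.2)

variable {O K}

theorem GenF.comp {B : Type} [Rep B] {g : B → A} {N : ∀ a, Submodule (O a) (ι a → K a)}
    (h : GenF O K N) (hg : CS g) :
    GenF (fun b => O (g b)) (fun b => K (g b)) (fun b => N (g b)) := MV.comp h hg

theorem ConF.comp [∀ a, Fintype (ι a)] {B : Type} [Rep B] {g : B → A}
    {N : ∀ a, Submodule (O a) (ι a → K a)} (h : ConF O K N) (hg : CS g) :
    ConF (fun b => O (g b)) (fun b => K (g b)) (fun b => N (g b)) := MV.comp h hg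

/-- Passing to a subtype that contains all coded elements. -/
theorem CS.of_sub {T : A → Type} [∀ a, Rep (T a)] {f : ∀ a, T a} {P : A → Prop}
    (hP : ∀ a, Coded a → P a) (h : CS (fun b : {a // P a} => f b.1)) : CS f := by
  obtain ⟨F, hF, H⟩ := h
  exact ⟨F, hF, fun c a r => H c ⟨a, hP a ⟨c, r⟩⟩ r⟩

theorem CFin.finite (h : CFin ι) {a : A} (ha : Coded a) : Finite (ι a) := by
  obtain ⟨l, -, -, hl⟩ := MV.exists h ha
  exact Finite.of_surjective l.get fun x => List.mem_iff_get.1 (hl x)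

@[aesop safe 50 apply (transparency := reducible) (rule_sets := [Restrict])]
theorem CS.prs {α β γ : A → Type} [∀ a, Rep (α a)] [∀ a, Rep (β a)] [∀ a, Rep (γ a)]
    {f : ∀ a, α a → β a → γ a} {X : ∀ a, List (α a)} {Y : ∀ a, List (β a)} (hf : CS f)
    (hX : CS X) (hY : CS Y) : CS (fun a => pairs (f a) (X a) (Y a)) := by
  unfold Pool.Agent.P.MP_257122_al.pairs
  exact CS.flatMap (CS.lam (CS.map (CS.app (hf.comp (CS.sfst CS.id)) (CS.ssnd CS.id))
    (hY.comp (CS.sfst CS.id)))) hX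

end family

end Pool.Agent.P.MP_257122_al
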