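import Pool.Agent.P.MP_257122_al.LDefs
import Pool.Agent.P.MP_257122_al.FProp

/-!
# Isolated roots in complete fields

PLAN.  `good_root`: with `c k` the Taylor coefficients at `a`, the map
`h ↦ -(c 0 + ∑_{k ≥ 2} c k h^k) / c 1` sends the closed ball of radius `r` into the ball of
radius `r / 2` and is `1/2`-Lipschitz there (`‖h^k - h'^k‖ ≤ k r^(k-1) ‖h - h'‖`); use
`ContractingWith.exists_fixedPoint'` or a direct Cauchy sequence.  `exists_good`: a simple root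
`x` of `f`; choose `r` small and a rational `a` with `‖a - x‖` much smaller than `r`; the Taylor
coefficients depend continuously on `a`.
-/

namespace Pool.Agent.P.MP_257122_al

open Polynomial

namespace LRootAux

open Filter Topology

section abstr
variable {F : Type} [NormedField F]

theorem pow_sub_le {h h' : F} {r : ℝ} (h1 : ‖h‖ ≤ r) (h2 : ‖h'‖ ≤ r) (k : ℕ) :
    ‖h ^ (k + 1) - h' ^ (k + 1)‖ ≤ ((k : ℝ) + 1) * r ^ k * ‖h - h'‖ := by
  have hr : 0 ≤ r := (norm_nonneg _).trans h1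
  induction k with
  | zero => simp
  | succ k ih =>
    have e : h ^ (k + 1 + 1) - h' ^ (k + 1 + 1) =
        h * (h ^ (k + 1) - h' ^ (k + 1)) + h' ^ (k + 1) * (h - h') := by ring
    have a1 : ‖h * (h ^ (k + 1) - h' ^ (k + 1))‖ ≤ r * (((k : ℝ) + 1) * r ^ k * ‖h - h'‖) := by
      rw [norm_mul]
      exact mul_le_mul h1 ih (norm_nonneg _) hr
    have a2 : ‖h' ^ (k + 1) * (h - h')‖ ≤ r ^ (k + 1) * ‖h - h'‖ := by
      rw [norm_mul, norm_pow]
      exact mul_le_mul_of_nonneg_right (pow_le_pow_left₀ (norm_nonneg _) h2 _) (norm_nonneg _)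
    rw [e]
    refine (norm_add_le _ _).trans ((add_le_add a1 a2).trans (le_of_eq ?_))
    push_cast
    ring

/-- The higher order terms. -/
def hi (c : ℕ → F) (n : ℕ) (h : F) : F := ∑ k ∈ Finset.range n, c (k + 2) * h ^ (k + 2)

theorem hi_zero (c : ℕ → F) (n : ℕ) : hi c n 0 = 0 := by simp [hi]

theorem hi_lip (c : ℕ → F) (n : ℕ) {h h' : F} {r : ℝ} (h1 : ‖h‖ ≤ r) (h2 : ‖h'‖ ≤ r) :
    ‖hi c n h - hi c n h'‖ ≤
      (∑ k ∈ Finset.range n, ((k : ℝ) + 2) * ‖c (k + 2)‖ * r ^ (k + 1)) * ‖h - h'‖ := by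
  rw [hi, hi, ← Finset.sum_sub_distrib, Finset.sum_mul]
  refine (norm_sum_le _ _).trans (Finset.sum_le_sum fun k _ => ?_)
  rw [← mul_sub, norm_mul]
  refine (mul_le_mul_of_nonneg_left (pow_sub_le h1 h2 (k + 1)) (norm_nonneg _)).trans
    (le_of_eq ?_)
  push_cast
  ring

/-- The fixed point argument. -/
theorem newton [CompleteSpace F] {c₀ c₁ : F} {g : F → F} {r : ℝ} (hr : 0 < r)
    (h0 : 4 * ‖c₀‖ < r * ‖c₁‖) (g0 : g 0 = 0)
    (hg : ∀ h h', ‖h‖ ≤ r → ‖h'‖ ≤ r → 2 * ‖g h - g h'‖ ≤ ‖c₁‖ * ‖h - h'‖) :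
    (∃ h, ‖h‖ ≤ r ∧ c₀ + c₁ * h + g h = 0) ∧
      (∀ h, ‖h‖ ≤ r → c₀ + c₁ * h + g h = 0 → 2 * ‖h‖ ≤ r) ∧
      ∀ h h', ‖h‖ ≤ r → ‖h'‖ ≤ r → c₀ + c₁ * h + g h = 0 → c₀ + c₁ * h' + g h' = 0 → h = h' := by
  have hc : 0 < ‖c₁‖ := (mul_pos_iff_of_pos_left hr).1 (lt_of_le_of_lt (by positivity) h0)
  have hc' : c₁ ≠ 0 := norm_pos_iff.1 hc
  have g1 : ∀ h, ‖h‖ ≤ r → 2 * ‖g h‖ ≤ ‖c₁‖ * ‖h‖ := fun h hh => by
    simpa [g0] using hg h 0 hh (by simpa using hr.le)
  refine ⟨?_, fun h hh e => ?_, fun h h' hh hh' e e' => ?_⟩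
  · have hm : Set.MapsTo (fun h => -(c₀ + g h) / c₁) (Metric.closedBall 0 r)
        (Metric.closedBall 0 r) := fun h hh => by
      rw [mem_closedBall_zero_iff] at hh ⊢
      rw [norm_div, norm_neg, div_le_iff₀ hc]
      have a1 := norm_add_le c₀ (g h)
      have a2 := g1 h hh
      have a3 := mul_le_mul_of_nonneg_left hh hc.le
      have a4 := norm_nonneg c₀
      linarith
    have hk : ContractingWith (1 / 2) (hm.restrict _ _ _) := by
      refine ⟨by norm_num, LipschitzWith.of_dist_le_mul fun x y => ?_⟩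
      have a1 := hg x y (mem_closedBall_zero_iff.1 x.2) (mem_closedBall_zero_iff.1 y.2)
      have e : -(c₀ + g x) / c₁ - -(c₀ + g y) / c₁ = -(g x - g y) / c₁ := by ring
      show dist (-(c₀ + g x) / c₁) (-(c₀ + g y) / c₁) ≤ _ * dist (x : F) y
      rw [dist_eq_norm, dist_eq_norm, e, norm_div, norm_neg, div_le_iff₀ hc]
      push_cast
      linarith
    obtain ⟨y, hy, hf, -⟩ := ContractingWith.exists_fixedPoint'
      Metric.isClosed_closedBall.isComplete hm hk (Metric.mem_closedBall_self hr.le)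
      (edist_ne_top _ _)
    refine ⟨y, mem_closedBall_zero_iff.1 hy, ?_⟩
    have e : -(c₀ + g y) / c₁ = y := hf
    rw [div_eq_iff hc'] at e
    linear_combination -e
  · have e1 : c₁ * h = -(c₀ + g h) := by linear_combination e
    have e2 : ‖c₁‖ * ‖h‖ = ‖c₀ + g h‖ := by rw [← norm_mul, e1, norm_neg]
    have a1 := norm_add_le c₀ (g h)
    have a2 := g1 h hh
    refine le_of_mul_le_mul_left ?_ hc
    linarith
  · have e1 : c₁ * (h - h') = -(g h - g h') := by linear_combination e - e'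
    have e2 : ‖c₁‖ * ‖h - h'‖ = ‖g h - g h'‖ := by rw [← norm_mul, e1, norm_neg]
    have a1 := hg h h' hh hh'
    have a2 := norm_nonneg (g h - g h')
    have a3 : ‖c₁‖ * ‖h - h'‖ = 0 := by linarith
    exact sub_eq_zero.1 (norm_eq_zero.1 ((mul_eq_zero.1 a3).resolve_left hc.ne'))

variable [CharZero F]

theorem expand (f : ℚ[X]) (a : ℚ) (x : F) :
    aeval x f = (((taylor a f).coeff 0 : ℚ) : F) + (((taylor a f).coeff 1 : ℚ) : F) * (x - a) +
      hi (fun k => (((taylor a f).coeff k : ℚ) : F)) f.natDegree (x - a) := by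
  have e : aeval x f = aeval (x - a) (taylor a f) := by
    rw [taylor_apply, aeval_comp]
    simp
  rw [e, aeval_eq_sum_range' (n := f.natDegree + 2) (by rw [natDegree_taylor]; omega),
    Finset.sum_range_succ', Finset.sum_range_succ', hi]
  simp only [Rat.smul_def]
  ring

/-- The Taylor coefficients at a point of `F`. -/
noncomputable def tc (f : ℚ[X]) (k : ℕ) (y : F) : F :=
  (hasseDeriv k (f.map (algebraMap ℚ F))).eval y

theorem tc_cont (f : ℚ[X]) (k : ℕ) : Continuous (tc (F := F) f k) := Polynomial.continuous _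

theorem tc_rat (f : ℚ[X]) (k : ℕ) (a : ℚ) : (((taylor a f).coeff k : ℚ) : F) = tc f k (a : F) := by
  rw [tc, ← taylor_coeff, ← eq_ratCast (algebraMap ℚ F) a, ← map_taylor, coeff_map, eq_ratCast]

theorem tc_zero (f : ℚ[X]) (y : F) : tc f 0 y = aeval y f := by
  rw [tc, hasseDeriv_zero', eval_map_algebraMap]

theorem tc_one (f : ℚ[X]) (y : F) : tc f 1 y = aeval y (derivative f) := by
  rw [tc, hasseDeriv_one', derivative_map, eval_map_algebraMap]

end abstr

theorem tot_poly : Tot ℚ[X] := ⟨fun f => by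
  obtain ⟨c, hc⟩ := Tot.tot (f.support.toList.map fun n => (f.coeff n, n))
  refine ⟨c, _, hc, ?_⟩
  simp only [List.map_map]
  exact (Finset.sum_map_toList _ _).trans f.as_sum_support.symm⟩

end LRootAux

variable {F : Type} [NormedField F] [CharZero F] [CompleteSpace F]

theorem good_root {t : ℚ[X] × ℚ × ℚ} (h : Good F t) :
    aeval (root F t) t.1 = 0 ∧ 2 * ‖root F t - (t.2.1 : F)‖ ≤ (t.2.2 : ℝ) ∧ t.1 ≠ 0 ∧
      ∀ x : F, ‖x - (t.2.1 : F)‖ ≤ (t.2.2 : ℝ) → aeval x t.1 = 0 → x = root F t := by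
  obtain ⟨f, a, r⟩ := t
  obtain ⟨h1, h2, h3⟩ := h
  simp only at h1 h2 h3 ⊢
  obtain ⟨⟨y, hy, ey⟩, n2, n3⟩ := LRootAux.newton (g := LRootAux.hi
    (fun k => (((taylor a f).coeff k : ℚ) : F)) f.natDegree) (Rat.cast_pos.2 h1) h2
    (LRootAux.hi_zero _ _) fun h h' hh hh' => by
      have a1 := LRootAux.hi_lip (fun k => (((taylor a f).coeff k : ℚ) : F)) f.natDegree hh hh'
      have a2 := mul_le_mul_of_nonneg_right h3.le (norm_nonneg (h - h'))
      linarith
  have hex : ∃ x : F, ‖x - (a : F)‖ ≤ (r : ℝ) ∧ aeval x f = 0 :=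
    ⟨y + a, by simpa using hy, by rw [LRootAux.expand f a, add_sub_cancel_right, ey]⟩
  have hs : ‖root F (f, a, r) - (a : F)‖ ≤ (r : ℝ) ∧ aeval (root F (f, a, r)) f = 0 := by
    rw [root, dif_pos hex]
    exact hex.choose_spec
  refine ⟨hs.2, n2 _ hs.1 (by rw [← LRootAux.expand, hs.2]), ?_, fun x hx ex => ?_⟩
  · rintro rfl
    simp at h2
  · exact sub_left_injective (n3 _ _ hx hs.1 (by rw [← LRootAux.expand, ex])
      (by rw [← LRootAux.expand, hs.2]))

theorem exists_good (hd : DenseRange (Rat.cast : ℚ → F)) {x : F} {f : ℚ[X]} (hf : aeval x f = 0)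
    (hf' : aeval x (derivative f) ≠ 0) {ε : ℝ} (hε : 0 < ε) :
    ∃ a r : ℚ, (r : ℝ) < ε ∧ Good F (f, a, r) ∧ root F (f, a, r) = x := by
  have hc : 0 < ‖LRootAux.tc f 1 x‖ := by rw [LRootAux.tc_one]; exact norm_pos_iff.2 hf'
  have ho : IsOpen {r : ℝ | 2 * ∑ k ∈ Finset.range f.natDegree,
      ((k : ℝ) + 2) * ‖LRootAux.tc f (k + 2) x‖ * r ^ (k + 1) < ‖LRootAux.tc f 1 x‖} :=
    isOpen_lt (by fun_prop) continuous_const
  obtain ⟨δ, hδ, hb⟩ := Metric.isOpen_iff.1 ho 0 (by simpa using hc)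
  obtain ⟨r, hr0, hr1⟩ := exists_rat_btwn (lt_min hε hδ)
  have hr2 := hb (show (r : ℝ) ∈ Metric.ball 0 δ by
    rw [mem_ball_zero_iff, Real.norm_of_nonneg hr0.le]; exact hr1.trans_le (min_le_right _ _))
  have ct := LRootAux.tc_cont (F := F) f
  have hU : IsOpen ({y : F | 4 * ‖LRootAux.tc f 0 y‖ < r * ‖LRootAux.tc f 1 y‖} ∩
      ({y : F | 2 * ∑ k ∈ Finset.range f.natDegree, ((k : ℝ) + 2) * ‖LRootAux.tc f (k + 2) y‖ *
        (r : ℝ) ^ (k + 1) < ‖LRootAux.tc f 1 y‖} ∩ {y : F | ‖x - y‖ < r})) :=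
    (isOpen_lt (by fun_prop) (by fun_prop)).inter ((isOpen_lt (by fun_prop) (by fun_prop)).inter
      (isOpen_lt (by fun_prop) continuous_const))
  obtain ⟨a, h1, h2, h3⟩ := hd.exists_mem_open hU ⟨x, by
    simpa [LRootAux.tc_zero, hf] using mul_pos hr0 hc, hr2, by simpa using hr0⟩
  have hg : Good F (f, a, r) := by
    refine ⟨Rat.cast_pos.1 hr0, ?_, ?_⟩
    · simp only [LRootAux.tc_rat]
      exact h1
    · simp only [LRootAux.tc_rat]
      exact h2
  exact ⟨a, r, hr1.trans_le (min_le_left _ _), hg, ((good_root hg).2.2.2 x (le_of_lt h3) hf).symm⟩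

theorem coded_alg_iff (hd : DenseRange (Rat.cast : ℚ → F)) {x : F} :
    @Coded F (repAlg F) x ↔ IsAlgebraic ℚ x := by
  constructor
  · rintro ⟨c, l, -, hl, rfl⟩
    rw [← mem_algebraicClosure_iff]
    refine list_sum_mem fun y hy => ?_
    obtain ⟨p, hp, rfl⟩ := List.mem_map.1 hy
    refine mul_mem (SubfieldClass.ratCast_mem _ _) (list_prod_mem fun z hz => ?_)
    obtain ⟨t, ht, rfl⟩ := List.mem_map.1 hz
    obtain ⟨h1, -, h2, -⟩ := good_root (hl p hp t ht)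
    exact mem_algebraicClosure_iff.2 ⟨t.1, h2, h1⟩
  · intro hx
    have hs : (minpoly ℚ x).Separable := (minpoly.irreducible hx.isIntegral).separable
    obtain ⟨a, r, -, hg, e⟩ := exists_good hd (minpoly.aeval ℚ x)
      (hs.aeval_derivative_ne_zero (minpoly.aeval ℚ x)) one_pos
    have := LRootAux.tot_poly
    obtain ⟨c, hc⟩ := Tot.tot [((1 : ℚ), [(minpoly ℚ x, a, r)])]
    refine ⟨c, _, hc, fun p hp t ht => ?_, by simp [algVal, e]⟩
    rw [List.mem_singleton.1 hp] at ht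
    rw [List.mem_singleton.1 ht]
    exact hg

end Pool.Agent.P.MP_257122_al
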