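import Pool.Agent.P.MP_257122_al.MTh
import Pool.Agent.P.MP_257122_al.KIface

/-!
# Matrices that see the action on the canonical abelian section

PLAN.  Let `E` generate `T₁ = comap q (res e₁ G)` (`MV.gensRes`), `D₁ = ⁅T₁, T₁⁆`, the normal closure
of the commutators of `E`.  Certificate for `B = (r, A)`: data `n, wt, g : Fin b → GL (Fin n) ℚ`,
`c : Fin r → Fr b` with `wt < 2`, `IsPar (g x)`, `IsUni (σ ⁅a, a'⁆)` (so `Adapt wt 2 σ D₁`,
`σ = lift g`; `VAb D₁` by `T₁`), `relS ≤ ker σ` (`CS.relLeKerGL` on the subtype),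
`c i ∈ D₁`, the matrices `σ (c i) - 1` independent (`CS.linIndep`), and
`σ (τ j) (σ (c i) - 1) σ (τ j)⁻¹ = ∑ l, A j l i • (σ (c l) - 1)`.
SOUND: `σ` factors through `G`; `δ y = σ y - 1` with the conjugation action is `IsSec` on `dres`
(a product of two matrices in `fil wt 1` is `0`); elements of `res e₁` commute on the span `U` of
`δ (dres)`; if `g = y * zp τ t`, `y ∈ Ncan`, and `f (act g) = 0` on `U` then
`f (act (zp τ t))` is nilpotent on `U`, hence on the span of the `δ (c i)`, where it has the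
matrix `f (zp A t)`.  COMPLETE: `exists_aff` for `N = comap q dres`, `R = comap q ⁅dres, dres⁆`,
`c i` with `δ (c i)` a basis of `U`; then `zp A t` unipotent gives `Unip`, so `zp τ t ∈ N`.
-/

namespace Pool.Agent.P.MP_257122_al

open scoped commutatorElement
open Matrix

namespace MAffAux

section pure
variable {G : Type} [Group G]

theorem nil_of_unip {R : Type} [Ring R] {x y : R} (h : Commute x y) (hy : IsNilpotent (y - 1))
    (l : List ℤ) (h0 : Polynomial.aeval (y * x) (lp l) = 0) :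
    IsNilpotent (Polynomial.aeval x (lp l)) := by
  have key : ∀ l : List ℤ, ∃ z, Commute x z ∧ Commute y z ∧
      Polynomial.aeval (y * x) (lp l) = Polynomial.aeval x (lp l) + (y - 1) * z := by
    intro l
    induction l with
    | nil =>
      refine ⟨0, Commute.zero_right _, Commute.zero_right _, ?_⟩
      show Polynomial.aeval _ (0 : Polynomial ℤ) = Polynomial.aeval _ (0 : Polynomial ℤ) + _
      rw [map_zero, map_zero, mul_zero, add_zero]
    | cons a l ih =>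
      obtain ⟨z, h1, h2, e⟩ := ih
      refine ⟨x * Polynomial.aeval (y * x) (lp l) + x * z, ?_, ?_, ?_⟩
      · exact ((Commute.refl x).mul_right
          (commute_aeval (h.mul_right (Commute.refl x)) l)).add_right
          ((Commute.refl x).mul_right h1)
      · exact (h.symm.mul_right
          (commute_aeval ((Commute.refl y).mul_right h.symm) l)).add_right (h.symm.mul_right h2)
      · show Polynomial.aeval _ (Polynomial.C a + Polynomial.X * lp l) =
          Polynomial.aeval _ (Polynomial.C a + Polynomial.X * lp l) + _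
        have c : (y - 1) * (x * z) = x * ((y - 1) * z) := by
          rw [← mul_assoc, ← mul_assoc, (h.sub_right (Commute.one_right x)).eq]
        rw [map_add, map_mul, map_add, map_mul, Polynomial.aeval_C, Polynomial.aeval_C,
          Polynomial.aeval_X, Polynomial.aeval_X, mul_add, c, add_assoc, ← add_assoc (x * _),
          add_comm (x * _), add_assoc, ← mul_add, ← e, ← mul_assoc, ← add_mul, sub_mul, one_mul,
          sub_add_cancel]
  obtain ⟨z, -, h2, e⟩ := key l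
  rw [h0] at e
  rw [eq_neg_of_add_eq_zero_left e.symm]
  exact ((h2.sub_left (Commute.one_left z)).isNilpotent_mul_right hy).neg

theorem ann_pow {T : Subgroup G} [T.Normal] {x y : G} (hx : x ∈ T) (hy : y ∈ T)
    (hu : Unip ⁅T, T⁆ y) {l : List ℤ} (h : Ann ⁅T, T⁆ (y * x) l) :
    ∃ m l', lp l' = lp l ^ m ∧ Ann ⁅T, T⁆ x l' := by
  obtain ⟨V, _, _, act, δ, k⟩ := exists_sec ⁅T, T⁆
  have k' : Full ⁅T, T⁆ act δ := k
  rw [k'.ann, map_mul] at h
  obtain ⟨m, hm⟩ := nil_of_unip (k'.commute hx hy) ((k'.unip y).1 hu) l h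
  obtain ⟨l', hl⟩ := lp_surjective (lp l ^ m)
  exact ⟨m, l', hl, (k'.ann x l').2 (by rw [hl, map_pow, hm])⟩

variable {V : Type} [AddCommGroup V] [Module ℚ V] {r : ℕ}

/-- Pairs of an endomorphism and its matrix on the vectors `w`. -/
def tw (w : Fin r → V) : Subring (Module.End ℚ V × Matrix (Fin r) (Fin r) ℚ) where
  carrier := {p | ∀ v, p.1 (Fintype.linearCombination ℚ w v) =
    Fintype.linearCombination ℚ w (p.2 *ᵥ v)}
  mul_mem' := fun {a b} ha hb v => by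
    rw [Prod.fst_mul, Prod.snd_mul, Module.End.mul_apply, hb, ha, Matrix.mulVec_mulVec]
  one_mem' := fun v => by rw [Prod.fst_one, Prod.snd_one, Matrix.one_mulVec]; rfl
  add_mem' := fun {a b} ha hb v => by
    rw [Prod.fst_add, Prod.snd_add, LinearMap.add_apply, ha, hb, Matrix.add_mulVec, map_add]
  zero_mem' := fun v => by rw [Prod.fst_zero, Prod.snd_zero, Matrix.zero_mulVec, map_zero]; rfl
  neg_mem' := fun {a} ha v => by
    rw [Prod.fst_neg, Prod.snd_neg, LinearMap.neg_apply, ha, Matrix.neg_mulVec, map_neg]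

theorem mem_tw {w : Fin r → V} {φ : Module.End ℚ V} {M : Matrix (Fin r) (Fin r) ℚ} :
    (φ, M) ∈ tw w ↔ ∀ i, φ (w i) = ∑ l, M l i • w l := by
  constructor
  · intro h i
    have := h (Pi.single i 1)
    rwa [Fintype.linearCombination_apply_single, one_smul, Matrix.mulVec_single_one,
      Fintype.linearCombination_apply] at this
  · intro h v
    have : φ ∘ₗ Fintype.linearCombination ℚ w =
        Fintype.linearCombination ℚ w ∘ₗ Matrix.mulVecLin M := by
      refine LinearMap.pi_ext' fun i => LinearMap.ext_ring ?_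
      show φ (Fintype.linearCombination ℚ w (Pi.single i 1)) =
        Fintype.linearCombination ℚ w (M *ᵥ Pi.single i 1)
      rw [Fintype.linearCombination_apply_single, one_smul, Matrix.mulVec_single_one,
        Fintype.linearCombination_apply, h]
      rfl
    exact LinearMap.congr_fun this v

theorem tw_aeval {w : Fin r → V} {φ : Module.End ℚ V} {M : Matrix (Fin r) (Fin r) ℚ}
    (h : (φ, M) ∈ tw w) (l : List ℤ) :
    (Polynomial.aeval φ (lp l), Polynomial.aeval M (lp l)) ∈ tw w := by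
  induction l with
  | nil =>
    show (Polynomial.aeval φ (0 : Polynomial ℤ), Polynomial.aeval M (0 : Polynomial ℤ)) ∈ _
    rw [map_zero, map_zero]
    exact zero_mem _
  | cons a l ih =>
    show (Polynomial.aeval φ (Polynomial.C a + Polynomial.X * lp l),
      Polynomial.aeval M (Polynomial.C a + Polynomial.X * lp l)) ∈ _
    rw [map_add, map_mul, map_add, map_mul, Polynomial.aeval_C, Polynomial.aeval_C,
      Polynomial.aeval_X, Polynomial.aeval_X, eq_intCast (algebraMap ℤ (Module.End ℚ V)) a,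
      eq_intCast (algebraMap ℤ (Matrix (Fin r) (Fin r) ℚ)) a]
    exact add_mem (intCast_mem (tw w) a) (mul_mem h ih)

theorem tw_zp {w : Fin r → V} (act : G →* Module.End ℚ V) {k : ℕ} {τ : Fin k → G}
    {A : Fin k → GL (Fin r) ℚ} (h : ∀ j, (act (τ j), (A j).val) ∈ tw w) (t : Fin k → ℤ) :
    (act (zp τ t), (zp A t).val) ∈ tw w := by
  let K : Subgroup (G × GL (Fin r) ℚ) :=
    { carrier := {p | (act p.1, p.2.val) ∈ tw w}
      one_mem' := by
        show (act 1, 1) ∈ tw w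
        rw [map_one]
        exact one_mem _
      mul_mem' := fun {a b} ha hb => by
        show (act (a.1 * b.1), a.2.val * b.2.val) ∈ tw w
        rw [map_mul]
        exact (tw w).mul_mem ha hb
      inv_mem' := fun {a} ha v => by
        have := congrArg (act a.1⁻¹) (ha ((a.2⁻¹).val *ᵥ v))
        rw [← Module.End.mul_apply, ← map_mul, inv_mul_cancel, map_one, Matrix.mulVec_mulVec,
          Units.mul_inv, Matrix.one_mulVec] at this
        exact this.symm }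
  have := zp_mem (T := K) (τ := fun j => (τ j, A j)) h t
  have e1 := map_zp (MonoidHom.fst G (GL (Fin r) ℚ)) (fun j => (τ j, A j)) t
  have e2 := map_zp (MonoidHom.snd G (GL (Fin r) ℚ)) (fun j => (τ j, A j)) t
  exact (congrArg₂ (fun (x : G) (y : GL (Fin r) ℚ) => (act x, y.val) ∈ tw w) e1 e2).mp this

theorem tw_eq {w : Fin r → V} (hw : LinearIndependent ℚ w) {φ : Module.End ℚ V}
    {M : Matrix (Fin r) (Fin r) ℚ} (h : (φ, M) ∈ tw w) (h0 : ∀ i, φ (w i) = 0) : M = 0 :=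
  Matrix.ext fun l i =>
    Fintype.linearIndependent_iff.1 hw (fun l => M l i) ((mem_tw.1 h i).symm.trans (h0 i)) l

variable {act : G →* Module.End ℚ V} {δ : G → V}

theorem sees_of_sec {e₁ e₂ k : ℕ} (h : IsSec (dres e₁ G) act δ) {c : Fin r → G}
    (hc : ∀ i, c i ∈ dres e₁ G) (hi : LinearIndependent ℚ fun i => δ (c i)) {τ : Fin k → G}
    (hτ : ∀ j, τ j ∈ res e₁ G) {A : Fin k → GL (Fin r) ℚ}
    (hA : ∀ j, (act (τ j), (A j).val) ∈ tw fun i => δ (c i)) (g : G) (t : Fin k → ℤ) (l : List ℤ)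
    (hg : g * (zp τ t)⁻¹ ∈ Ncan e₁ e₂ G) (hl : Ann (dres e₁ G) g l) :
    IsNilpotent (Polynomial.aeval (zp A t).val (lp l)) := by
  obtain ⟨h1, h2⟩ := mem_Ncan.1 hg
  rw [← inv_mul_cancel_right g (zp τ t)] at hl
  obtain ⟨m, l', e, hl'⟩ := ann_pow (zp_mem hτ t) h1.1 h2 hl
  refine ⟨m, ?_⟩
  rw [← map_pow, ← e]
  refine tw_eq hi (tw_aeval (tw_zp act hA t) l') fun i => ?_
  obtain ⟨s, hs, hs'⟩ := hl' _ (hc i)
  rw [← h.pv _ (hc i)]
  exact h.eq_zero (pv_mem _ (hc i) _) hs hs'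

theorem exists_mat [Module.Finite ℚ V] {D : Subgroup G} [D.Normal] (h : IsSec D act δ) :
    ∃ (r : ℕ) (c : Fin r → G) (ρ : G → GL (Fin r) ℚ), (∀ i, c i ∈ D) ∧
      (LinearIndependent ℚ fun i => δ (c i)) ∧ (∀ g, (act g, (ρ g).val) ∈ tw fun i => δ (c i)) ∧
      ∀ d ∈ D, ∃ v, Fintype.linearCombination ℚ (fun i => δ (c i)) v = δ d := by
  obtain ⟨b, hb, hs, hi⟩ := exists_linearIndependent ℚ (δ '' (D : Set G))
  have : Finite b := hi.finite
  obtain ⟨r, ⟨ε⟩⟩ := Finite.exists_equiv_fin b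
  have hb' : ∀ i : Fin r, ∃ x ∈ D, δ x = (ε.symm i).1 := fun i => hb (ε.symm i).2
  choose c hc hc' using hb'
  have hw : LinearIndependent ℚ fun i => δ (c i) := by
    simp only [hc']
    exact hi.comp ε.symm ε.symm.injective
  have hd : ∀ d ∈ D, ∃ v, Fintype.linearCombination ℚ (fun i => δ (c i)) v = δ d := by
    intro d hd
    have : δ d ∈ Submodule.span ℚ b := hs ▸ Submodule.subset_span ⟨d, hd, rfl⟩
    rw [← LinearMap.mem_range, Fintype.range_linearCombination]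
    have k : b ⊆ Set.range fun i => δ (c i) := fun x hx =>
      ⟨ε ⟨x, hx⟩, by simp only [hc', Equiv.symm_apply_apply]⟩
    exact Submodule.span_mono k this
  have hd' : ∀ g i, ∃ v, Fintype.linearCombination ℚ (fun i => δ (c i)) v = δ (g * c i * g⁻¹) :=
    fun g i => hd _ (Subgroup.Normal.conj_mem inferInstance _ (hc i) g)
  choose v hv using hd'
  have hM : ∀ g, (act g, Matrix.of fun l i => v g i l) ∈ tw fun i => δ (c i) := fun g =>
    mem_tw.2 fun i => by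
      rw [← h.2 g _ (hc i), ← hv, Fintype.linearCombination_apply]
      rfl
  have h1 : ∀ g g', g * g' = 1 →
      (Matrix.of fun l i => v g i l) * (Matrix.of fun l i => v g' i l) = 1 := fun g g' e => by
    have k := (tw _).sub_mem ((tw _).mul_mem (hM g) (hM g')) (tw _).one_mem
    refine sub_eq_zero.1 (tw_eq (φ := act g * act g' - 1) hw k fun i => ?_)
    rw [← map_mul, e, map_one, sub_self]
    rfl
  exact ⟨r, c, fun g => ⟨_, _, h1 g g⁻¹ (mul_inv_cancel g), h1 g⁻¹ g (inv_mul_cancel g)⟩, hc, hw,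
    hM, hd⟩

theorem comm_mat {T : Subgroup G} [T.Normal] (h : IsSec ⁅T, T⁆ act δ) {c : Fin r → G}
    (hc : ∀ i, c i ∈ ⁅T, T⁆) (hi : LinearIndependent ℚ fun i => δ (c i)) {ρ : G → GL (Fin r) ℚ}
    (hρ : ∀ g, (act g, (ρ g).val) ∈ tw fun i => δ (c i)) {x y : G} (hx : x ∈ T) (hy : y ∈ T) :
    ρ x * ρ y = ρ y * ρ x := by
  have k := (tw _).sub_mem ((tw _).mul_mem (hρ x) (hρ y)) ((tw _).mul_mem (hρ y) (hρ x))
  refine Units.ext (sub_eq_zero.1 (tw_eq (φ := act x * act y - act y * act x) hi k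
    fun l => sub_eq_zero.2 ?_))
  have e : x * y = ⁅x, y⁆ * (y * x) := by rw [commutatorElement_def]; group
  rw [← map_mul, ← map_mul, e, map_mul, Module.End.mul_apply, ← h.2 _ _ (hc l)]
  exact h.act_mem (Subgroup.Normal.conj_mem inferInstance _ (hc l) _)
    (Subgroup.commutator_mem_commutator hx hy)

theorem itc_zero {D : Subgroup G} [D.Normal] (h : IsSec D act δ) {w : Fin r → V}
    (hw : ∀ d ∈ D, ∃ v, Fintype.linearCombination ℚ w v = δ d) {x : G}
    {M : Matrix (Fin r) (Fin r) ℚ} (hM : (act x, M) ∈ tw w) {m : ℕ} (hm : (M - 1) ^ m = 0) {d : G}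
    (hd : d ∈ D) : δ (itc x d m) = 0 := by
  obtain ⟨v, hv⟩ := hw d hd
  have k : ((act x - 1) ^ m) (Fintype.linearCombination ℚ w v) =
      Fintype.linearCombination ℚ w ((M - 1) ^ m *ᵥ v) :=
    (tw w).pow_mem ((tw w).sub_mem hM (tw w).one_mem) m v
  rwa [hm, Matrix.zero_mulVec, map_zero, hv, ← h.itc _ hd] at k

variable {n : ℕ}

/-- The conjugation action on matrices. -/
def cj (σ : G →* GL (Fin n) ℚ) : G →* Module.End ℚ (Matrix (Fin n) (Fin n) ℚ) where
  toFun g := LinearMap.mulLeftRight ℚ ((σ g).val, (σ g).inv)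
  map_one' := LinearMap.ext fun x => by
    rw [map_one]
    exact (mul_one _).trans (one_mul x)
  map_mul' g h := LinearMap.ext fun x => by
    rw [map_mul]
    show (σ g).val * (σ h).val * x * ((σ h).inv * (σ g).inv) =
      (σ g).val * ((σ h).val * x * (σ h).inv) * (σ g).inv
    simp only [mul_assoc]

theorem isSec_cj {wt : Fin n → ℕ} {σ : G →* GL (Fin n) ℚ} {D : Subgroup G} (h : Adapt wt 2 σ D) :
    IsSec D (cj σ) fun y => (σ y).val - 1 := by
  refine ⟨fun c hc c' hc' => ?_, fun g c _ => ?_⟩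
  · have e : ((σ c).val - 1) * ((σ c').val - 1) = 0 := Matrix.ext fun a b =>
      fil_mul' (h.2.2 c hc) (h.2.2 c' hc') a b (by have := h.1 a; omega)
    show (σ (c * c')).val - 1 = (σ c).val - 1 + ((σ c').val - 1)
    rw [map_mul, Units.val_mul, ← sub_eq_zero, ← e]
    noncomm_ring
  · show (σ (g * c * g⁻¹)).val - 1 = (σ g).val * ((σ c).val - 1) * (σ g).inv
    rw [map_mul, map_mul, map_inv, mul_sub, sub_mul, mul_one, (σ g).val_inv]
    rfl

theorem faith_of_sees {D N : Subgroup G} {k : ℕ} {τ : Fin k → G} {A : Fin k → GL (Fin n) ℚ}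
    (h : Sees D N τ A) (hF : Faith A) {t : Fin k → ℤ} (ht : zp τ t ∈ N) : t = 0 := by
  have := h.2 1 t [-1, 1] (by rw [one_mul]; exact inv_mem ht) fun c _ =>
    ⟨1, one_pos, by simp [pv]⟩
  refine hF t ?_
  have e : lp [-1, 1] = Polynomial.X - 1 := by
    simp only [lp, List.foldr_cons, List.foldr_nil, map_neg, map_one]
    ring
  rwa [e, map_sub, Polynomial.aeval_X, map_one] at this

end pure

/-- The preimage of the derived subgroup, up to relations. -/
def D1 (p : Pres) (e : ℕ) : Subgroup (Fr p.1) :=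
  ⁅(res e p.G).comap p.q, (res e p.G).comap p.q⁆

theorem map_D1 (p : Pres) (e : ℕ) : (D1 p e).map p.q = dres e p.G := by
  rw [D1, Subgroup.map_commutator,
    Subgroup.map_comap_eq_self_of_surjective (QuotientGroup.mk'_surjective p.S)]
  rfl

theorem vab_D1 (p : Pres) (e : ℕ) : (D1 p e).Normal ∧ VAb (D1 p e) := by
  have := res_finiteIndex (G := p.G) e
  refine ⟨Subgroup.commutator_normal _ _, (res e p.G).comap p.q, inferInstance, ⟨?_⟩,
    Subgroup.commutator_le_self _, le_rfl⟩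
  rw [Subgroup.index_comap_of_surjective _ (QuotientGroup.mk'_surjective p.S)]
  exact Subgroup.FiniteIndex.index_ne_zero

/-- The guessed data. -/
abbrev Dat (b r : ℕ) : Type := Σ n : ℕ, (Fin n → ℕ) × (Fin b → GL (Fin n) ℚ) × (Fin r → Fr b)

/-- The linear part of the certificate. -/
def Lin {b k r n : ℕ} (τ : Fin k → Fr b) (M : Fin k → GL (Fin r) ℚ) (σ : Fr b →* GL (Fin n) ℚ)
    (c : Fin r → Fr b) : Prop :=
  (LinearIndependent ℚ fun i => (σ (c i)).val - 1) ∧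
    ∀ j i, (σ (τ j)).val * ((σ (c i)).val - 1) * (σ (τ j)).inv =
      ∑ l, (M j).val l i • ((σ (c l)).val - 1)

/-- The certificate. -/
def Cert (p : Pres) (e : ℕ) {k r : ℕ} (τ : Fin k → Fr p.1) (M : Fin k → GL (Fin r) ℚ) : Prop :=
  (∃ x : Dat p.1 r, (∃ _ : Adapt x.2.1 2 (FreeGroup.lift x.2.2.1) (D1 p e),
      p.S ≤ (FreeGroup.lift x.2.2.1).ker) ∧ (∀ i, x.2.2.2 i ∈ D1 p e) ∧
      Lin τ M (FreeGroup.lift x.2.2.1) x.2.2.2) ∧
    ∃ _ : ∀ i j, M i * M j = M j * M i, Faith M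

theorem adapt_lift {p : Pres} {e n : ℕ} {wt : Fin n → ℕ} {σ : Fr p.1 →* GL (Fin n) ℚ}
    (h : Adapt wt 2 σ (D1 p e)) (hS : p.S ≤ σ.ker) :
    Adapt wt 2 (QuotientGroup.lift p.S σ hS) (dres e p.G) := by
  refine ⟨h.1, fun g => ?_, fun y hy => ?_⟩
  · obtain ⟨x, rfl⟩ := QuotientGroup.mk_surjective g
    exact h.2.1 x
  · rw [← map_D1] at hy
    obtain ⟨x, hx, rfl⟩ := hy
    exact h.2.2 x hx

theorem sound {p : Pres} {e₁ e₂ k r : ℕ} {τ : Fin k → Fr p.1} {M : Fin k → GL (Fin r) ℚ}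
    (hT : ∀ j, τ j ∈ p.T e₁ e₂) (h : Cert p e₁ τ M) :
    Sees (dres e₁ p.G) (Ncan e₁ e₂ p.G) (fun j => p.q (τ j)) M ∧ Faith M := by
  obtain ⟨⟨⟨n, wt, g, c⟩, ⟨h1, h2⟩, h3, h4, h5⟩, h6, h7⟩ := h
  refine ⟨⟨h6, sees_of_sec (isSec_cj (adapt_lift h1 h2)) (c := fun i => p.q (c i))
    (fun i => ?_) h4 (fun j => (hT j).1) fun j => mem_tw.2 (h5 j)⟩, h7⟩
  rw [← map_D1]
  exact Subgroup.mem_map_of_mem _ (h3 i)

theorem complete {p : Pres} {e₁ e₂ k : ℕ} {τ : Fin k → Fr p.1} (hG : FinRank p.G)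
    (hT : ∀ j, τ j ∈ p.T e₁ e₂) (hI : ∀ t, zp τ t ∈ p.N e₁ e₂ → t = 0) :
    ∃ B : Σ r : ℕ, Fin k → GL (Fin r) ℚ, Cert p e₁ τ B.2 := by
  have := res_finiteIndex (G := p.G) e₁
  have hv : VAb (dres e₁ p.G) :=
    ⟨res e₁ p.G, inferInstance, this, Subgroup.commutator_le_self _, le_rfl⟩
  have hS : ∀ K : Subgroup p.G, p.S ≤ K.comap p.q := fun K y hy => by
    rw [Subgroup.mem_comap, QuotientGroup.mk'_apply, (QuotientGroup.eq_one_iff y).2 hy]
    exact one_mem _
  obtain ⟨n, wt, σ, h1, h2⟩ := exists_aff ((dres e₁ p.G).comap p.q)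
    ((⁅dres e₁ p.G, dres e₁ p.G⁆).comap p.q) (hv.comap _) (gb_comm_comap _ _ _)
    (Subgroup.comap_mono (Subgroup.commutator_le_self _)) (hG.quot_mono (hS _))
  obtain ⟨g, rfl⟩ := FreeGroup.lift.surjective σ
  have h3 : Adapt wt 2 (FreeGroup.lift g) (D1 p e₁) :=
    ⟨h1.1, h1.2.1, fun y hy => h1.2.2 y (gb_comm_comap _ _ _ hy)⟩
  have h4 : p.S ≤ (FreeGroup.lift g).ker := fun y hy =>
    (h2 y (hS _ hy)).2 ⟨1, one_pos, hS _ (pow_mem hy 1)⟩
  have hs := isSec_cj (adapt_lift h3 h4)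
  obtain ⟨r, c, ρ, k1, k2, k3, k4⟩ := exists_mat hs
  have k5 : ∀ i, ∃ x ∈ D1 p e₁, p.q x = c i := fun i => Subgroup.mem_map.1 (map_D1 p e₁ ▸ k1 i)
  choose c' k5 k6 using k5
  obtain rfl : c = fun i => p.q (c' i) := funext fun i => (k6 i).symm
  have k9 : Lin τ (fun j => ρ (p.q (τ j))) (FreeGroup.lift g) c' :=
    ⟨k2, fun j => mem_tw.1 (k3 (p.q (τ j)))⟩
  refine ⟨⟨r, fun j => ρ (p.q (τ j))⟩, ⟨⟨n, wt, g, c'⟩, ⟨h3, h4⟩, k5, k9⟩,
    fun i j => comm_mat hs k1 k2 k3 (hT i).1 (hT j).1, fun t ⟨m, hm⟩ => hI t ?_⟩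
  · refine mem_Ncan.2 ⟨zp_mem hT t, m, fun d hd => ?_⟩
    have k7 := itc_zero hs k4 (tw_zp _ (fun j => k3 (p.q (τ j))) t) hm hd
    rw [← map_zp] at k7
    have k8 := itc_mem (p.q (zp τ t)) hd m
    obtain ⟨y, hy⟩ := QuotientGroup.mk'_surjective p.S (itc (p.q (zp τ t)) d m)
    rw [← hy] at k7 k8 ⊢
    obtain ⟨s, hs1, hs2⟩ := (h2 y k8).1 (Units.ext (sub_eq_zero.1 k7))
    exact ⟨s, hs1, by rwa [Subgroup.mem_comap, map_pow] at hs2⟩

section comp
open FOpsAux
variable {A : Type} [Rep A] {p : A → Pres} {e b k r n : A → ℕ} {wt : ∀ a, Fin (n a) → ℕ}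

theorem grpF (hb : CS b) : GrpF (fun a => Fr (b a)) := GrpF.free (Enum.fin hb) Disc.fin Haus.fin

theorem grpL (hn : CS n) : GrpF (fun a => GL (Fin (n a)) ℚ) := GrpF.gl (CFin.fin hn) Disc.fin

theorem cs_lift {g : ∀ a, Fin (b a) → GL (Fin (n a)) ℚ} (hn : CS n) (hg : CS g) :
    CS (fun a => FreeGroup.lift (g a)) :=
  CS.freeLift (grpL hn).mul (grpL hn).inv (grpL hn).one hg

theorem cs_D1 (hp : CS p) (he : CS e) : CS (fun a => D1 (p a) (e a)) :=
  CS.subgroupComm (grpF hp.sfst) (CS.presRes hp he) (CS.presRes hp he)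

theorem cs_uni {σ : ∀ a, Fr (b a) →* GL (Fin (n a)) ℚ} {E : ∀ a, List (Fr (b a))} (hn : CS n)
    (hw : CS wt) (hσ : CS σ) (hE : CS E) :
    CS (fun a => ∀ x ∈ E a, ∀ y ∈ E a, IsUni (wt a) (σ a ⁅x, y⁆)) :=
  CS.allMem hE (CS.allMem (hE.comp s1) (CS.isUni (hn.comp (s1.comp s1)) (hw.comp (s1.comp s1))
    (CS.homApp (hσ.comp (s1.comp s1)) (CS.commutator MulF.free InvF.free (s2.comp s1) s2))))

theorem cs_adapt {g : ∀ a, Fin (p a).1 → GL (Fin (n a)) ℚ} (hp : CS p) (he : CS e) (hn : CS n)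
    (hw : CS wt) (hg : CS g) :
    CS (fun a => Adapt (wt a) 2 (FreeGroup.lift (g a)) (D1 (p a) (e a))) := by
  have h1 : CS (fun a => ∀ i, wt a i < 2) :=
    CS.all (CFin.fin hn) (CS.lt LtF.nat (CS.app (hw.comp s1) s2) CS.const)
  have h2 : CS (fun a => ∀ x, IsPar (wt a) (g a x)) :=
    CS.all (CFin.fin hp.sfst) (CS.isPar (hn.comp s1) (hw.comp s1) (CS.app (hg.comp s1) s2))
  refine (MV.gensRes hp he).elimP (P' := fun a E => (∀ i, wt a i < 2) ∧
    (∀ x, IsPar (wt a) (g a x)) ∧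
      ∀ x ∈ E, ∀ y ∈ E, IsUni (wt a) (FreeGroup.lift (g a) ⁅x, y⁆))
    ((h1.comp s1).and ((h2.comp s1).and
      (cs_uni (hn.comp s1) (hw.comp s1) ((cs_lift hn hg).comp s1) s2))) fun a E _ _ hE => ?_
  refine and_congr_right fun _ => ⟨fun h => ⟨isPar_lift h.1, fun y hy => ?_⟩,
    fun h => ⟨fun x => ?_, fun x hx y hy => h.2 _ ?_⟩⟩
  · refine isUni_ncl (isPar_lift h.1) (s := {z | ∃ x ∈ E, ∃ y ∈ E, ⁅x, y⁆ = z}) ?_ y ?_
    · rintro _ ⟨x, hx, y, hy, rfl⟩
      exact h.2 x hx y hy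
    · rw [D1, ← hE] at hy
      refine gb_comm_le (fun x hx y hy => Subgroup.subset_normalClosure ?_) hy
      exact ⟨x, hx, y, hy, rfl⟩
  · have := h.1 (FreeGroup.of x)
    rwa [FreeGroup.lift_apply_of] at this
  · rw [D1, ← hE]
    exact Subgroup.commutator_mem_commutator (Subgroup.subset_closure hx)
      (Subgroup.subset_closure hy)

theorem cs_aff {g : ∀ a, Fin (p a).1 → GL (Fin (n a)) ℚ} (hp : CS p) (he : CS e) (hn : CS n)
    (hw : CS wt) (hg : CS g) :
    CS (fun a => ∃ _ : Adapt (wt a) 2 (FreeGroup.lift (g a)) (D1 (p a) (e a)),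
      (p a).S ≤ (FreeGroup.lift (g a)).ker) :=
  have v := FEnumAux.v1 (p := fun a => Adapt (wt a) 2 (FreeGroup.lift (g a)) (D1 (p a) (e a)))
  CS.exD (cs_adapt hp he hn hw hg) (CS.relLeKerGL (hp.sfst.comp v) (hn.comp v) (hw.comp v)
    CS.const (hg.comp v) ((FEnumAux.s2 hp).fst.comp v) ((FEnumAux.s2 hp).snd.comp v)
    (fun a => a.2) fun _ => vab_D1 _ _)

theorem cs_lin {τ : ∀ a, Fin (k a) → Fr (b a)} {M : ∀ a, Fin (k a) → GL (Fin (r a)) ℚ}
    {σ : ∀ a, Fr (b a) →* GL (Fin (n a)) ℚ} {c : ∀ a, Fin (r a) → Fr (b a)} (hk : CS k)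
    (hr : CS r) (hn : CS n) (hτ : CS τ) (hM : CS M) (hσ : CS σ) (hc : CS c) :
    CS (fun a => Lin (τ a) (M a) (σ a) (c a)) := by
  have hV : CoordF fun a => Matrix (Fin (n a)) (Fin (n a)) ℚ :=
    CoordF.matrix (CFin.fin hn) Disc.fin (CFin.fin hn) Disc.fin
  have hm : MulF fun a => Matrix (Fin (n a)) (Fin (n a)) ℚ :=
    MulF.matrix (CFin.fin hn) AddF.rat ZeroF.rat MulF.rat
  have hw : CS fun a i => (σ a (c a i)).val - 1 :=
    CS.lam (CS.sub (hV.add.comp s1) (hV.neg.comp s1)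
      (CS.homApp (hσ.comp s1) (CS.app (hc.comp s1) s2)).unitsVal
      (CS.one (OneF.matrix Disc.fin Haus.fin ZeroF.rat OneF.rat)))
  have h1 : CS fun q : Σ a, Fin (k a) => σ q.1 (τ q.1 q.2) :=
    CS.homApp (hσ.comp s1) (CS.app (hτ.comp s1) s2)
  have h2 : CS fun q : Σ a, Fin (k a) => (M q.1 q.2).val := (CS.app (hM.comp s1) s2).unitsVal
  have v : CS fun q : Σ q : (Σ a, Fin (k a)), Fin (r q.1) => q.1.1 := s1.comp s1
  have h3 := CS.app (hw.comp v) s2
  have h4 := CS.app (hw.comp (v.comp (s1 (β := fun q => Fin (r q.1.1))))) s2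
  exact (CS.linIndep hV (CFin.fin hr) Disc.fin hw).and (CS.all (CFin.fin hk)
    (CS.all (CFin.fin (hr.comp s1)) (CS.eq (hV.disc.comp v)
      (CS.mul (hm.comp v) (CS.mul (hm.comp v) (h1.comp s1).unitsVal h3) (h1.comp s1).unitsInv)
      (CS.sum (CFin.fin (hr.comp v)) (hV.add.comp v) (hV.zero.comp v)
        (CS.smul (hV.smul.comp (v.comp s1)) (CS.mapp (h2.comp (s1.comp s1)) s2 (s2.comp s1))
          h4)))))

theorem enum_dat (hb : CS b) (hr : CS r) : Enum (fun a => Dat (b a) (r a)) :=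
  Enum.sigma Enum.nat ((Enum.pi (CFin.fin s2) Disc.fin Enum.nat).prod
    ((Enum.pi (CFin.fin (hb.comp s1)) Disc.fin ((grpL s2).enum.comp s1)).prod
      (Enum.pi (CFin.fin (hr.comp s1)) Disc.fin ((grpF hb).enum.comp (s1.comp s1)))))

theorem cs_cert {τ : ∀ a, Fin (k a) → Fr (p a).1} {M : ∀ a, Fin (k a) → GL (Fin (r a)) ℚ}
    (hp : CS p) (he : CS e) (hk : CS k) (hr : CS r) (hτ : CS τ) (hM : CS M) :
    CS (fun a => Cert (p a) (e a) (τ a) (M a)) := by
  have h1 := s2 (β := fun a => Dat (p a).1 (r a))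
  have h2 := FEnumAux.s2 h1
  have v := FEnumAux.v1 (p := fun a => ∀ i j, M a i * M a j = M a j * M a i)
  have w : CS fun q : Σ q : (Σ a, Fin (k a)), Fin (k q.1) => q.1.1 := s1.comp s1
  have m1 := CS.app (hM.comp w) (s2.comp s1)
  have m2 := CS.app (hM.comp w) s2
  have hG := (grpL hr).comp w
  exact (CS.ex (enum_dat hp.sfst hr)
    ((cs_aff (hp.comp s1) (he.comp s1) h1.sfst h2.fst h2.snd.fst).and
      ((CS.all (CFin.fin (hr.comp s1)) (CS.memSubgroup ((cs_D1 hp he).comp (s1.comp s1))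
        (CS.app (h2.snd.snd.comp s1) s2))).and
        (cs_lin (hk.comp s1) (hr.comp s1) h1.sfst (hτ.comp s1) (hM.comp s1)
          (cs_lift h1.sfst h2.snd.fst) h2.snd.snd)))).and
    (CS.exD (CS.all (CFin.fin hk) (CS.all (CFin.fin (hk.comp s1))
      (CS.eq hG.disc (CS.mul hG.mul m1 m2) (CS.mul hG.mul m2 m1))))
      (cs_faith (hk.comp v) (hr.comp v) (hM.comp v) fun a => a.2))

theorem enum_mat (hk : CS k) : Enum (fun a => Σ r : ℕ, Fin (k a) → GL (Fin r) ℚ) :=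
  Enum.sigma Enum.nat (Enum.pi (CFin.fin (hk.comp s1)) Disc.fin ((grpL s2).enum.comp s1))

theorem cs_certB {τ : ∀ a, Fin (k a) → Fr (p a).1} (hp : CS p) (he : CS e) (hk : CS k)
    (hτ : CS τ) : CS (fun q : Σ a, Σ r : ℕ, Fin (k a) → GL (Fin r) ℚ =>
      Cert (p q.1) (e q.1) (τ q.1) q.2.2) :=
  have h := s2 (β := fun a => Σ r : ℕ, Fin (k a) → GL (Fin r) ℚ)
  have h' := FEnumAux.s2 h
  cs_cert (hp.comp s1) (he.comp s1) (hk.comp s1) h.sfst (hτ.comp s1) h'

end comp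

end MAffAux

open MAffAux

variable {A : Type} [Rep A] {p : A → Pres} {e₁ e₂ k : A → ℕ} {τ : ∀ a, Fin (k a) → Fr (p a).1}

/-- Independence modulo the canonical subgroup is r.e. -/
theorem cs_presInd (hp : CS p) (h1 : CS e₁) (h2 : CS e₂) (hk : CS k) (hτ : CS τ)
    (hG : ∀ a, FinRank (p a).G) (hT : ∀ a j, τ a j ∈ (p a).T (e₁ a) (e₂ a)) :
    CS (fun a => ∀ t, zp (τ a) t ∈ (p a).N (e₁ a) (e₂ a) → t = 0) := by
  refine (CS.ex (enum_mat hk) (cs_certB hp h1 hk hτ)).of_iff fun a _ =>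
    ⟨fun ⟨B, hB⟩ t ht => ?_, complete (hG a) (hT a)⟩
  obtain ⟨k1, k2⟩ := sound (hT a) hB
  exact faith_of_sees k1 k2 (map_zp (p a).q (τ a) t ▸ ht)

theorem mv_sees (hp : CS p) (h1 : CS e₁) (h2 : CS e₂) (hk : CS k) (hτ : CS τ)
    (hG : ∀ a, FinRank (p a).G) (hT : ∀ a j, τ a j ∈ (p a).T (e₁ a) (e₂ a))
    (hI : ∀ a t, zp (τ a) t ∈ (p a).N (e₁ a) (e₂ a) → t = 0) :
    MV (fun a (B : Σ r : ℕ, Fin (k a) → GL (Fin r) ℚ) =>
      Sees (dres (e₁ a) (p a).G) (Ncan (e₁ a) (e₂ a) (p a).G) (fun j => (p a).q (τ a j)) B.2 ∧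
        Faith B.2) :=
  MV.search (enum_mat hk) (cs_certB hp h1 hk hτ) (fun a _ h => sound (hT a) h)
    fun a _ => complete (hG a) (hT a) (hI a)

end Pool.Agent.P.MP_257122_al
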