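import Pool.Agent.P.MP_257122_al.MAff

/-!
# Markings of the canonical subgroup; bounds for the induced map on the torus

PLAN.  With generators `E` of `T` (`MV.gensT`): `Mark` holds iff `Y ⊆ N` (`CS.presN`), `τ j ∈ T`,
`⁅a, a'⁆ ∈ ncl Y` and `∃ t, a * (zp τ t)⁻¹ ∈ ncl Y` for `a, a' ∈ E`, and independence
(`cs_presInd` on the subtype where `τ j ∈ T`).
`mv_bound`: for every `j` search `l` with `lp l ≠ 0` and `Ann` (`exists_ann`, `CS.presAnn`, `MV.pi`),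
`mv_sees` on the other side, `Ann.equiv`, `mv_theta`, take the maximum (or the sum) of the bounds.
-/

namespace Pool.Agent.P.MP_257122_al

open scoped commutatorElement
open FOpsAux

theorem Pres.S_le_N (p : Pres) (e₁ e₂ : ℕ) : p.S ≤ p.N e₁ e₂ := fun g hg => by
  have h : p.q g = 1 := (QuotientGroup.eq_one_iff g).2 hg
  rw [Pres.N, Subgroup.mem_comap, h]
  exact one_mem _
instance Pres.N_normal (p : Pres) (e₁ e₂ : ℕ) : (p.N e₁ e₂).Normal :=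
  Subgroup.Normal.comap inferInstance _
instance Pres.T_normal (p : Pres) (e₁ e₂ : ℕ) : (p.T e₁ e₂).Normal :=
  Subgroup.Normal.comap inferInstance _
instance Pres.T_finiteIndex (p : Pres) (e₁ e₂ : ℕ) : (p.T e₁ e₂).FiniteIndex :=
  ⟨by
    rw [Pres.T, Subgroup.index_comap_of_surjective _ (QuotientGroup.mk'_surjective p.S)]
    exact (res₂_finiteIndex e₁ e₂).index_ne_zero⟩
theorem Pres.vab_N (p : Pres) (e₁ e₂ : ℕ) : VAb (p.N e₁ e₂) :=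
  VAb.comap ⟨res₂ e₁ e₂ p.G, inferInstance, res₂_finiteIndex e₁ e₂,
    fun _ hg => (mem_Ncan.1 hg).1, comm_res₂_le e₁ e₂⟩ _
theorem Pres.nilMod {p : Pres} {e₁ e₂ : ℕ} (h : GoodPar e₁ e₂ p.G) : NilMod (p.N e₁ e₂) p.S :=
  by
    have h1 := h.1.comap p.q
    rwa [MonoidHom.comap_bot, QuotientGroup.ker_mk'] at h1
theorem mm_le (p : Pres) (e₁ e₂ : ℕ) : p.N e₁ e₂ ≤ p.T e₁ e₂ := fun _ hg => (mem_Ncan.1 hg).1

theorem mm_comm (p : Pres) (e₁ e₂ : ℕ) : ⁅p.T e₁ e₂, p.T e₁ e₂⁆ ≤ p.N e₁ e₂ :=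
  (gb_comm_comap _ _ _).trans (Subgroup.comap_mono (comm_res₂_le e₁ e₂))

theorem mm_iso {p p' : Pres} {u : Fr p.1 →* Fr p'.1} {v : Fr p'.1 →* Fr p.1}
    (h : Compat p.S p'.S u v) :
    ∃ φ : p.G ≃* p'.G, (∀ g, φ (p.q g) = p'.q (u g)) ∧ ∀ g, φ.symm (p'.q g) = p.q (v g) :=
  ⟨MonoidHom.toMulEquiv (QuotientGroup.map p.S p'.S u h.1) (QuotientGroup.map p'.S p.S v h.2.1)
    (QuotientGroup.monoidHom_ext _ (MonoidHom.ext fun g => gb_eq.1 (h.2.2.1 g)))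
    (QuotientGroup.monoidHom_ext _ (MonoidHom.ext fun g => gb_eq.1 (h.2.2.2 g))),
    fun _ => rfl, fun _ => rfl⟩

theorem mm_mark {p : Pres} {e₁ e₂ : ℕ} {x : Mk p.1} {E : List (Fr p.1)}
    (hE : Subgroup.closure {y | y ∈ E} = p.T e₁ e₂) :
    ((∀ y ∈ x.2.2, y ∈ p.N e₁ e₂) ∧ ∃ _ : ∀ j, x.2.1 j ∈ p.T e₁ e₂,
      ∀ t, zp x.2.1 t ∈ p.N e₁ e₂ → t = 0) ∧
    (∀ a ∈ E, ∀ a' ∈ E, ⁅a, a'⁆ ∈ Subgroup.normalClosure {y | y ∈ x.2.2}) ∧
    (∀ a ∈ E, ∃ t, a * (zp x.2.1 t)⁻¹ ∈ Subgroup.normalClosure {y | y ∈ x.2.2}) ↔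
    p.Mark e₁ e₂ x := by
  have hEm : ∀ a ∈ E, a ∈ p.T e₁ e₂ := fun a ha => hE ▸ Subgroup.subset_closure ha
  constructor
  · rintro ⟨⟨h1, h2, h3⟩, h4, h5⟩
    have k1 : Subgroup.normalClosure {y | y ∈ x.2.2} ≤ p.N e₁ e₂ :=
      Subgroup.normalClosure_le_normal h1
    have k2 := gb_comm_le (E := {y | y ∈ E}) h4
    rw [hE] at k2
    have hc : ∀ i j, QuotientGroup.mk' (Subgroup.normalClosure {y | y ∈ x.2.2}) (x.2.1 i) *
        QuotientGroup.mk' _ (x.2.1 j) = QuotientGroup.mk' _ (x.2.1 j) *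
          QuotientGroup.mk' _ (x.2.1 i) := fun i j => by
      rw [← map_mul, ← map_mul]
      refine gb_eq.1 ?_
      rw [mul_inv_rev, ← mul_assoc]
      exact k2 (Subgroup.commutator_mem_commutator (h2 i) (h2 j))
    have k3 : ∀ g ∈ p.T e₁ e₂, ∃ t,
        g * (zp x.2.1 t)⁻¹ ∈ Subgroup.normalClosure {y | y ∈ x.2.2} := fun g hg => by
      rw [← hE] at hg
      simp only [gb_eq, ← QuotientGroup.mk'_apply, map_zp] at h5 ⊢
      induction hg using Subgroup.closure_induction with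
      | mem a ha => exact h5 a ha
      | one => exact ⟨0, by rw [map_one, zp_zero]⟩
      | mul a b _ _ ha hb =>
        obtain ⟨s, hs⟩ := ha
        obtain ⟨t, ht⟩ := hb
        exact ⟨s + t, by rw [map_mul, hs, ht, zp_add hc]⟩
      | inv a _ ha =>
        obtain ⟨s, hs⟩ := ha
        exact ⟨-s, by rw [map_inv, hs, zp_neg hc]⟩
    refine ⟨le_antisymm (fun g hg => ?_) k1, mm_le _ _ _, mm_comm _ _ _, h2,
      fun g hg => (k3 g hg).imp fun t ht => k1 ht, h3⟩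
    obtain ⟨t, ht⟩ := k3 g (mm_le _ _ _ hg)
    have k4 : zp x.2.1 t ∈ p.N e₁ e₂ := by
      simpa using mul_mem (inv_mem (k1 ht)) hg
    rwa [h3 t k4, zp_zero, inv_one, mul_one] at ht
  · rintro ⟨h1, h2, h3, h4, h5, h6⟩
    rw [← h1]
    exact ⟨⟨fun y hy => h1 ▸ Subgroup.subset_normalClosure hy, h4, h6⟩,
      fun a ha a' ha' => h3 (Subgroup.commutator_mem_commutator (hEm a ha) (hEm a' ha')),
      fun a ha => h5 a (hEm a ha)⟩

theorem Pres.exists_mark {p : Pres} {e₁ e₂ : ℕ} (h : GoodPar e₁ e₂ p.G) :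
    ∃ x, p.Mark e₁ e₂ x := by
  obtain ⟨Y, hY⟩ := (p.vab_N e₁ e₂).exists_ncl
  obtain ⟨k, τ, hτ⟩ := exists_isMark (mm_le p e₁ e₂) (mm_comm p e₁ e₂)
    fun g hg m hm k => h.2 _ hg m hm (by rw [← map_pow]; exact k)
  exact ⟨⟨k, τ, Y⟩, hY, hτ⟩

/-- A compatible pair for the relations is compatible with the canonical subgroups. -/
theorem Compat.canon {p p' : Pres} {u : Fr p.1 →* Fr p'.1} {v : Fr p'.1 →* Fr p.1}
    (h : Compat p.S p'.S u v) (e₁ e₂ : ℕ) :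
    Compat (p.N e₁ e₂) (p'.N e₁ e₂) u v ∧ (∀ g ∈ p.T e₁ e₂, u g ∈ p'.T e₁ e₂) ∧
      ∀ g ∈ p'.T e₁ e₂, v g ∈ p.T e₁ e₂ := by
  obtain ⟨φ, h1, h2⟩ := mm_iso h
  refine ⟨⟨fun y hy => ?_, fun y hy => ?_, fun g => p.S_le_N _ _ (h.2.2.1 g),
    fun g => p'.S_le_N _ _ (h.2.2.2 g)⟩, fun g hg => ?_, fun g hg => ?_⟩
  · exact Subgroup.mem_comap.2 (h1 y ▸ Ncan_map φ hy)
  · exact Subgroup.mem_comap.2 (h2 y ▸ Ncan_map φ.symm hy)
  · exact Subgroup.mem_comap.2 (h1 g ▸ (mem_res₂_equiv φ).2 hg)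
  · exact Subgroup.mem_comap.2 (h2 g ▸ (mem_res₂_equiv φ.symm).2 hg)

theorem Compat.symm {G H : Type} [Group G] [Group H] {N : Subgroup G} {N' : Subgroup H}
    {u : G →* H} {v : H →* G} (h : Compat N N' u v) : Compat N' N v u :=
  ⟨h.2.1, h.1, h.2.2.2, h.2.2.1⟩

variable {A : Type} [Rep A] {p p' : A → Pres} {e₁ e₂ : A → ℕ} {x : ∀ a, Mk (p a).1}
  {x' : ∀ a, Mk (p' a).1}

theorem mm_v {P : A → Prop} : CS (fun a : Subtype P => a.1) :=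
  CS.val (α := fun _ => A) (p := fun _ => P) CS.id

theorem mm_grp (hp : CS p) : GrpF (fun a => Fr (p a).1) :=
  GrpF.free (Enum.fin (CS.sfst hp)) Disc.fin Haus.fin

theorem mm_ncl (hp : CS p) (hx : CS x) :
    CS (fun a => Subgroup.normalClosure {y | y ∈ (x a).2.2}) :=
  CS.normalClosure (mm_grp hp) (CS.setOf
    (CS.memList ((mm_grp hp).disc.comp s1) s2 ((CS.snd (CS.ssnd hx)).comp s1)))

theorem mm_enum {k : A → ℕ} (hk : CS k) : Enum (fun a => Fin (k a) → ℤ) :=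
  Enum.pi (CFin.fin hk) Disc.fin Enum.int

theorem mm_w {w : ∀ a, Fr (p a).1} {t : ∀ a, Fin (x a).1 → ℤ} (hp : CS p) (hx : CS x)
    (hw : CS w) (ht : CS t) : CS (fun a => w a * (zp (x a).2.1 (t a))⁻¹) :=
  CS.mul (mm_grp hp).mul hw (CS.inv (mm_grp hp).inv (CS.zp (mm_grp hp).mul (mm_grp hp).inv
    (mm_grp hp).one (CS.sfst hx) (CS.fst (CS.ssnd hx)) ht))

theorem mm_lift {u : ∀ a, Fin (p a).1 → Fr (p' a).1} (hp' : CS p') (hu : CS u) :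
    CS (fun a => FreeGroup.lift (u a)) :=
  CS.freeLift (mm_grp hp').mul (mm_grp hp').inv (mm_grp hp').one hu

theorem mm_gen {U : ∀ a, Fr (p a).1 →* Fr (p' a).1} {V : ∀ a, Fr (p' a).1 →* Fr (p a).1}
    (hp : CS p) (hU : CS U) (hV : CS V) : CS (fun q : Σ a, Fin (p a).1 =>
      V q.1 (U q.1 (FreeGroup.of q.2)) * (FreeGroup.of q.2)⁻¹) :=
  CS.mul ((mm_grp hp).mul.comp s1) (CS.homApp (hV.comp s1) (CS.homApp (hU.comp s1) (CS.freeOf s2)))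
    (CS.inv ((mm_grp hp).inv.comp s1) (CS.freeOf s2))

theorem mm_one {w : ∀ a, Fr (p a).1} (hp : CS p) (hp' : CS p') (h1 : CS e₁) (h2 : CS e₂)
    (hx' : CS x') (hw : CS w) (hG : ∀ a, FinRank (p a).G) (hG' : ∀ a, FinRank (p' a).G)
    (hT : ∀ a, w a ∈ (p a).T (e₁ a) (e₂ a)) (hM' : ∀ a, (p' a).Mark (e₁ a) (e₂ a) (x' a)) :
    MV (fun a (R : ℕ) => ∀ u v, Compat (p a).S (p' a).S u v → ∀ t,
      u (w a) * (zp (x' a).2.1 t)⁻¹ ∈ (p' a).N (e₁ a) (e₂ a) → ∀ l, (t l).natAbs ≤ R) := by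
  have hk : CS (fun a => (x' a).1) := CS.sfst hx'
  have m1 : MV (fun a (l : List ℤ) => lp l ≠ 0 ∧ Ann (dres (e₁ a) (p a).G) ((p a).q (w a)) l) :=
    MV.search (Enum.list Enum.int)
      (CS.and (CS.ne (Haus.poly AddF.int ZeroF.int Haus.int) (CS.lp s2) (CS.zero ZeroF.poly))
        (CS.presAnn (hp.comp s1) (h1.comp s1) (hw.comp s1) s2 fun q => (hT q.1).1))
      (fun _ _ h => h) fun a _ => exists_ann (hG a) _ _
  have m2 := mv_sees hp' h1 h2 hk (CS.fst (CS.ssnd hx')) hG' (fun a => (hM' a).2.2.2.1)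
    fun a => (hM' a).2.2.2.2.2
  refine (m1.prod m2).bind ((mv_theta (f := fun q => lp q.1.2.1) (M := fun q => q.1.2.2.2)
    (hk.comp v1) (CS.sfst (CS.snd v2)) (CS.ssnd (CS.snd v2)) ?_
    (fun q => q.2.2.1.1) (fun q => q.2.2.2) fun q => q.2.1.1).mono
    fun q R _ _ hR u v h t ht => hR t ?_)
  · with_reducible exact CS.lp (CS.fst v2)
  obtain ⟨φ, k1, -⟩ := mm_iso h
  refine q.2.2.1.2 ((p' q.1.1).q (u (w q.1.1))) t _ ?_ (k1 _ ▸ q.2.1.2.equiv φ)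
  rw [← map_zp, ← map_inv, ← map_mul]
  exact ht

theorem cs_presMark (hp : CS p) (h1 : CS e₁) (h2 : CS e₂) (hx : CS x)
    (hG : ∀ a, FinRank (p a).G) : CS (fun a => (p a).Mark (e₁ a) (e₂ a) (x a)) := by
  have hτ : CS (fun a => (x a).2.1) := CS.fst (CS.ssnd hx)
  have hY : CS (fun a => (x a).2.2) := CS.snd (CS.ssnd hx)
  have hk : CS (fun a => (x a).1) := CS.sfst hx
  have c1 : CS (fun a => ∀ y ∈ (x a).2.2, y ∈ (p a).N (e₁ a) (e₂ a)) :=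
    CS.allMem hY (CS.memSubgroup ((CS.presN hp h1 h2).comp s1) s2)
  have c2 : CS (fun a => ∃ _ : ∀ j, (x a).2.1 j ∈ (p a).T (e₁ a) (e₂ a),
      ∀ t, zp (x a).2.1 t ∈ (p a).N (e₁ a) (e₂ a) → t = 0) :=
    CS.exD (CS.all (CFin.fin hk)
      (CS.memSubgroup ((CS.presT hp h1 h2).comp s1) (CS.app (hτ.comp s1) s2)))
      (cs_presInd (hp.comp mm_v) (h1.comp mm_v) (h2.comp mm_v) (hk.comp mm_v) (hτ.comp mm_v)
        (fun a => hG a.1) fun a => a.2)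
  have hK := mm_ncl hp hx
  have hF := mm_grp hp
  have c3 : CS (fun q : Σ a, List (Fr (p a).1) => ∀ a ∈ q.2, ∀ a' ∈ q.2,
      ⁅a, a'⁆ ∈ Subgroup.normalClosure {y | y ∈ (x q.1).2.2}) :=
    CS.allMem s2 (CS.allMem (CS.comp s2 s1) (CS.memSubgroup (hK.comp (CS.comp s1 (CS.comp s1 s1)))
      (CS.commutator (hF.mul.comp (CS.comp s1 (CS.comp s1 s1)))
        (hF.inv.comp (CS.comp s1 (CS.comp s1 s1))) (CS.comp s2 s1) s2)))
  have c4 : CS (fun q : Σ a, List (Fr (p a).1) => ∀ a ∈ q.2, ∃ t,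
      a * (zp (x q.1).2.1 t)⁻¹ ∈ Subgroup.normalClosure {y | y ∈ (x q.1).2.2}) :=
    CS.allMem s2 (CS.ex (mm_enum (hk.comp (CS.comp s1 s1)))
      (CS.memSubgroup (hK.comp (CS.comp s1 (CS.comp s1 s1)))
        (mm_w (hp.comp (CS.comp s1 (CS.comp s1 s1))) (hx.comp (CS.comp s1 (CS.comp s1 s1)))
          (CS.comp s2 s1) s2)))
  exact (MV.gensT hp h1 h2).elimP (((c1.comp s1).and (c2.comp s1)).and (c3.and c4))
    fun a E _ _ hE => mm_mark hE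

theorem cs_presNotN {w : ∀ a, Fr (p a).1} (hp : CS p) (h1 : CS e₁) (h2 : CS e₂) (hx : CS x)
    (hw : CS w) (hM : ∀ a, (p a).Mark (e₁ a) (e₂ a) (x a)) :
    CS (fun a => ¬ w a ∈ (p a).N (e₁ a) (e₂ a)) := by
  have hk : CS (fun a => (x a).1) := CS.sfst hx
  refine ((CS.presNotT hp h1 h2 hw).or (CS.ex (mm_enum hk) (CS.and
    (CS.ne (Haus.pi (CFin.fin (hk.comp s1)) Haus.int) s2 (CS.lam CS.const))
    (CS.memSubgroup ((CS.presN hp h1 h2).comp s1)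
      (mm_w (hp.comp s1) (hx.comp s1) (hw.comp s1) s2))))).of_iff
    fun a _ => ((hM a).2.notMem_iff _).symm

theorem cs_compat {u : ∀ a, Fin (p a).1 → Fr (p' a).1} {v : ∀ a, Fin (p' a).1 → Fr (p a).1}
    (hp : CS p) (hp' : CS p') (hx : CS x) (hx' : CS x') (hu : CS u) (hv : CS v)
    (hM : ∀ a, (p a).Mark (e₁ a) (e₂ a) (x a)) (hM' : ∀ a, (p' a).Mark (e₁ a) (e₂ a) (x' a)) :
    CS (fun a => Compat ((p a).N (e₁ a) (e₂ a)) ((p' a).N (e₁ a) (e₂ a))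
      (FreeGroup.lift (u a)) (FreeGroup.lift (v a))) := by
  have hU := mm_lift hp' hu
  have hV := mm_lift hp hv
  have hK := mm_ncl hp hx
  have hK' := mm_ncl hp' hx'
  refine CS.of_iff (CS.and ?_ (CS.and ?_ (CS.and ?_ ?_))) fun a _ => by
    rw [(hM a).1, (hM' a).1, compat_iff_gens]
  · exact CS.allMem (CS.snd (CS.ssnd hx)) (CS.memSubgroup (hK'.comp s1)
      (CS.homApp (hU.comp s1) s2))
  · exact CS.allMem (CS.snd (CS.ssnd hx')) (CS.memSubgroup (hK.comp s1)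
      (CS.homApp (hV.comp s1) s2))
  · exact CS.all (CFin.fin (CS.sfst hp)) (CS.memSubgroup (hK.comp s1) (mm_gen hp hU hV))
  · exact CS.all (CFin.fin (CS.sfst hp')) (CS.memSubgroup (hK'.comp s1) (mm_gen hp' hV hU))

theorem cs_notCompat {u : ∀ a, Fin (p a).1 → Fr (p' a).1} {v : ∀ a, Fin (p' a).1 → Fr (p a).1}
    (hp : CS p) (hp' : CS p') (h1 : CS e₁) (h2 : CS e₂) (hx : CS x) (hx' : CS x') (hu : CS u)
    (hv : CS v) (hM : ∀ a, (p a).Mark (e₁ a) (e₂ a) (x a))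
    (hM' : ∀ a, (p' a).Mark (e₁ a) (e₂ a) (x' a)) :
    CS (fun a => ¬ Compat ((p a).N (e₁ a) (e₂ a)) ((p' a).N (e₁ a) (e₂ a))
      (FreeGroup.lift (u a)) (FreeGroup.lift (v a))) := by
  have hU := mm_lift hp' hu
  have hV := mm_lift hp hv
  refine CS.of_iff (CS.notAnd ?_ (CS.notAnd ?_ (CS.notAnd ?_ ?_))) fun a _ => by
    rw [(hM a).1, (hM' a).1, compat_iff_gens, ← (hM a).1, ← (hM' a).1]
  · exact CS.notAllMem (CS.snd (CS.ssnd hx)) (cs_presNotN (hp'.comp s1) (h1.comp s1)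
      (h2.comp s1) (hx'.comp s1) (CS.homApp (hU.comp s1) s2) fun a => hM' a.1)
  · exact CS.notAllMem (CS.snd (CS.ssnd hx')) (cs_presNotN (hp.comp s1) (h1.comp s1)
      (h2.comp s1) (hx.comp s1) (CS.homApp (hV.comp s1) s2) fun a => hM a.1)
  · exact CS.notAll (Enum.fin (CS.sfst hp)) (cs_presNotN (hp.comp s1) (h1.comp s1)
      (h2.comp s1) (hx.comp s1) (mm_gen hp hU hV) fun a => hM a.1)
  · exact CS.notAll (Enum.fin (CS.sfst hp')) (cs_presNotN (hp'.comp s1) (h1.comp s1)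
      (h2.comp s1) (hx'.comp s1) (mm_gen hp' hV hU) fun a => hM' a.1)

theorem mv_bound (hp : CS p) (hp' : CS p') (h1 : CS e₁) (h2 : CS e₂) (hx : CS x) (hx' : CS x')
    (hG : ∀ a, FinRank (p a).G) (hG' : ∀ a, FinRank (p' a).G)
    (hM : ∀ a, (p a).Mark (e₁ a) (e₂ a) (x a)) (hM' : ∀ a, (p' a).Mark (e₁ a) (e₂ a) (x' a)) :
    MV (fun a (R : ℕ) => ∀ u v, Compat (p a).S (p' a).S u v → ∀ j t,
      u ((x a).2.1 j) * (zp (x' a).2.1 t)⁻¹ ∈ (p' a).N (e₁ a) (e₂ a) → ∀ l, (t l).natAbs ≤ R) :=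
  by
    have hk : CS (fun a => (x a).1) := CS.sfst hx
    have hτ : CS (fun a => (x a).2.1) := CS.fst (CS.ssnd hx)
    have m1 := MV.pi (Q := fun a (j : Fin (x a).1) (R : ℕ) => ∀ u v, Compat (p a).S (p' a).S u v →
      ∀ t, u ((x a).2.1 j) * (zp (x' a).2.1 t)⁻¹ ∈ (p' a).N (e₁ a) (e₂ a) →
        ∀ l, (t l).natAbs ≤ R) (CFin.fin hk) Disc.fin
      (mm_one (w := fun q : Σ a, Fin (x a).1 => (x q.1).2.1 q.2) (hp.comp s1) (hp'.comp s1)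
        (h1.comp s1) (h2.comp s1) (hx'.comp s1) (CS.app (hτ.comp s1) s2) (fun q => hG q.1)
        (fun q => hG' q.1) (fun q => (hM q.1).2.2.2.1 q.2) fun q => hM' q.1)
    refine m1.bind (MV.of_cs (f := fun q => ∑ j, q.1.2 j)
      (CS.sum (CFin.fin (hk.comp v1)) AddF.nat ZeroF.nat (CS.app (CS.comp v2 s1) s2))
      fun q _ u v h j t ht l => (q.2 j u v h t ht l).trans ?_)
    exact Finset.single_le_sum (f := fun j => q.1.2 j) (fun _ _ => Nat.zero_le _)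
      (Finset.mem_univ j)

end Pool.Agent.P.MP_257122_al
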