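import Pool.Agent.P.MP_257122_al.MThP
import Pool.Agent.P.MP_257122_al.GRes
import Pool.Agent.P.MP_257122_al.FPoly

/-!
# Bounding exponent vectors by annihilating polynomials

PLAN.  `ThSize` and `ThCert` are r.e. (`CS.allBox`).  `Faith A ↔ ∃ s R, 0 < s ∧ ThSize A s ∧ 0 < R ∧
ThCert ...`.  For `mv_theta` search `(s, R)`; bound the coefficients with `MV.degBound`.
-/

namespace Pool.Agent.P.MP_257122_al

variable {A : Type} [Rep A] {k n : A → ℕ} {M : ∀ a, Fin (k a) → GL (Fin (n a)) ℚ}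

namespace MThAux

open FPropAux

theorem cs_thM {s : A → ℕ} (hs : CS s) (hk : CS k) (hn : CS n) :
    CS (fun a => thM (s a) (k a) (n a)) :=
  CS.mul MulF.nat (CS.pow MulF.nat OneF.nat (CS.factorial hs.succ) hk.succ)
    (CS.pow MulF.nat OneF.nat hn.succ hk)

theorem cs_nq {s : A → ℕ} (hs : CS s) : CS (fun a => (s a : ℚ)) :=
  CS.natCast AddF.rat ZeroF.rat OneF.rat hs

theorem cs_zq {z : A → ℤ} (hz : CS z) : CS (fun a => (z a : ℚ)) :=
  CS.intCast AddF.rat ZeroF.rat OneF.rat NegF.rat hz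

theorem cs_den {s : A → ℕ} {x : A → ℚ} (hs : CS s) (hx : CS x) :
    CS (fun a => ∃ z : ℤ, (s a : ℚ) * x a = z) :=
  CS.ex Enum.int (CS.eq Disc.rat (CS.mul MulF.rat (cs_nq (hs.comp s1)) (hx.comp s1)) (cs_zq s2))

theorem cs_siz {s : A → ℕ} {x : A → ℚ} (hs : CS s) (hx : CS x) : CS (fun a => |x a| ≤ s a) :=
  CS.le LeF.rat (CS.ratAbs hx) (cs_nq hs)

theorem cs_thSize {s : A → ℕ} (hk : CS k) (hn : CS n) (hM : CS M) (hs : CS s) :
    CS (fun a => ThSize (M a) (s a)) := by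
  refine CS.all (CFin.fin hk) (CS.all (CFin.fin (hn.comp s1))
    (CS.all (CFin.fin (hn.comp (s1.comp s1))) ?_))
  have h0 : CS fun q : Σ r : (Σ p : (Σ a, Fin (k a)), Fin (n p.1)), Fin (n r.1.1) =>
      s q.1.1.1 := hs.comp (s1.comp (s1.comp s1))
  have h1 : CS fun q : Σ r : (Σ p : (Σ a, Fin (k a)), Fin (n p.1)), Fin (n r.1.1) =>
      M q.1.1.1 q.1.1.2 := (CS.app (hM.comp s1) s2).comp (s1.comp s1)
  have h2 := CS.mapp (CS.unitsVal h1) (s2.comp s1) s2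
  have h3 := CS.mapp (CS.unitsInv h1) (s2.comp s1) s2
  exact (cs_den h0 h2).and ((cs_siz h0 h2).and ((cs_den h0 h3).and (cs_siz h0 h3)))

theorem cs_zpv {t : ∀ a, Fin (k a) → ℤ} (hk : CS k) (hn : CS n) (hM : CS M) (ht : CS t) :
    CS (fun a => (zp (M a) (t a)).val) :=
  CS.unitsVal (CS.zp (MulF.units (MulF.matrix (CFin.fin hn) AddF.rat ZeroF.rat MulF.rat))
    InvF.units (OneF.units (OneF.matrix Disc.fin Haus.fin ZeroF.rat OneF.rat)) hk hM ht)

theorem cs_pol {D : A → ℕ} {X : ∀ a, Matrix (Fin (n a)) (Fin (n a)) ℚ} {c : ∀ a, Fin (n a) → ℤ}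
    (hn : CS n) (hD : CS D) (hX : CS X) (hc : CS c) :
    CS (fun a => X a ^ n a + ∑ i, ((c a i : ℚ) / (D a : ℚ)) • X a ^ i.1 ≠ 0) := by
  have hm : MulF fun a => Matrix (Fin (n a)) (Fin (n a)) ℚ :=
    MulF.matrix (CFin.fin hn) AddF.rat ZeroF.rat MulF.rat
  have h1 : OneF fun a => Matrix (Fin (n a)) (Fin (n a)) ℚ :=
    OneF.matrix Disc.fin Haus.fin ZeroF.rat OneF.rat
  have h0 : ZeroF fun a => Matrix (Fin (n a)) (Fin (n a)) ℚ := ZeroF.matrix ZeroF.rat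
  have ha : AddF fun a => Matrix (Fin (n a)) (Fin (n a)) ℚ := AddF.matrix AddF.rat
  exact CS.ne (Haus.matrix (CFin.fin hn) (CFin.fin hn) Haus.rat)
    (CS.add ha (CS.pow hm h1 hX hn) (CS.sum (CFin.fin hn) ha h0
      (CS.smul (SMulF.matrix (R := fun _ => ℚ) (M := fun _ => ℚ) (MulF.rat (A := Σ a, Fin (n a))))
        (CS.div MulF.rat InvF.rat (cs_zq (CS.app (hc.comp s1) s2)) (cs_nq (hD.comp s1)))
        (CS.pow (hm.comp s1) (h1.comp s1) (hX.comp s1) (CS.finVal s2))))) h0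

theorem cs_thCert {D B R : A → ℕ} (hk : CS k) (hn : CS n) (hM : CS M) (hD : CS D) (hB : CS B)
    (hR : CS R) : CS (fun a => ThCert (M a) (D a) (B a) (R a)) :=
  CS.allBox (CFin.fin hk) Disc.fin hR (CS.imp
    (CS.notEx (CFin.fin (hk.comp s1)) (CS.notEq Haus.nat (CS.natAbs (CS.app (s2.comp s1) s2))
      (hR.comp (s1.comp s1))))
    (CS.allBox (CFin.fin (hn.comp s1)) Disc.fin (hB.comp s1)
      (cs_pol (hn.comp (s1.comp s1)) (hD.comp (s1.comp s1))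
        ((cs_zpv (hk.comp s1) (hn.comp s1) (hM.comp s1) s2).comp s1) s2)))

/-- The certificate. -/
def Cert {k n : ℕ} (M : Fin k → GL (Fin n) ℚ) (s R : ℕ) : Prop :=
  0 < s ∧ ThSize M s ∧ 0 < R ∧ ThCert M (thM s k n ^ n) ((2 * thM s k n ^ 2) ^ n) R

theorem cs_cert {s R : A → ℕ} (hk : CS k) (hn : CS n) (hM : CS M) (hs : CS s) (hR : CS R) :
    CS (fun a => Cert (M a) (s a) (R a)) :=
  (CS.lt LtF.nat CS.const hs).and ((cs_thSize hk hn hM hs).and ((CS.lt LtF.nat CS.const hR).and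
    (cs_thCert hk hn hM (CS.pow MulF.nat OneF.nat (cs_thM hs hk hn) hn)
      (CS.pow MulF.nat OneF.nat (CS.mul MulF.nat CS.const
        (CS.pow MulF.nat OneF.nat (cs_thM hs hk hn) CS.const)) hn) hR)))

theorem exists_cert {k n : ℕ} {M : Fin k → GL (Fin n) ℚ} (hc : ∀ i j, M i * M j = M j * M i)
    (hF : Faith M) (s₀ : ℕ) : ∃ R s, s₀ < s ∧ Cert M s R := by
  obtain ⟨s, h1, h2⟩ := exists_thSize M s₀
  obtain ⟨R, h3, h4⟩ := th_complete hc hF (thM s k n ^ n) ((2 * thM s k n ^ 2) ^ n)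
  exact ⟨R, s, h1, Nat.zero_lt_of_lt h1, h2, h3, h4⟩

end MThAux

open MThAux FPropAux

theorem cs_faith (hk : CS k) (hn : CS n) (hM : CS M)
    (hc : ∀ a i j, M a i * M a j = M a j * M a i) : CS (fun a => Faith (M a)) := by
  refine (CS.ex (P := fun a (p : ℕ × ℕ) => Cert (M a) p.1 p.2) (Enum.nat.prod Enum.nat)
    (cs_cert (hk.comp s1) (hn.comp s1) (hM.comp s1) s2.fst s2.snd)).of_iff fun a _ => ⟨?_, ?_⟩
  · rintro ⟨p, h1, h2, h3, h4⟩
    exact faith_of_cert (hc a) h1 h2 h3 h4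
  · intro h
    obtain ⟨R, s, -, h1⟩ := exists_cert (hc a) h 0
    exact ⟨(s, R), h1⟩

theorem mv_theta {f : A → Polynomial ℤ} (hk : CS k) (hn : CS n) (hM : CS M) (hf : CS f)
    (hc : ∀ a i j, M a i * M a j = M a j * M a i) (hF : ∀ a, Faith (M a)) (h0 : ∀ a, f a ≠ 0) :
    MV (fun a (R : ℕ) => ∀ t, IsNilpotent (Polynomial.aeval (zp (M a) t).val (f a)) →
      ∀ j, (t j).natAbs ≤ R) := by
  refine MV.search (Q' := fun a R => ∃ s : ℕ,
    (∀ i ≤ (f a).natDegree, ((f a).coeff i).natAbs ≤ s) ∧ Cert (M a) s R) Enum.nat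
    (CS.ex Enum.nat (CS.and (CS.allLe (CS.natDegreeInt (hf.comp (s1.comp s1)))
      (CS.le LeF.nat (CS.natAbs (CS.coeff (R := fun _ => ℤ) AddF.int ZeroF.int
        (hf.comp (s1.comp (s1.comp s1))) s2)) (s2.comp s1)))
      (cs_cert (hk.comp (s1.comp s1)) (hn.comp (s1.comp s1)) (hM.comp (s1.comp s1)) s2
        (s2.comp s1)))) ?_ fun a _ => ?_
  · rintro a R ⟨s, h, h1, h2, h3, h4⟩ t ht j
    refine (th_sound (hc a) h1 h2 (h0 a) (fun i => ?_) h3 h4 t ht j).le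
    rcases le_or_gt i (f a).natDegree with hi | hi
    · exact h i hi
    · rw [Polynomial.coeff_eq_zero_of_natDegree_lt hi]
      exact Nat.zero_le _
  · obtain ⟨R, s, h1, h2⟩ := exists_cert (hc a) (hF a)
      (∑ i ∈ Finset.range ((f a).natDegree + 1), ((f a).coeff i).natAbs)
    refine ⟨R, s, fun i hi => le_trans ?_ h1.le, h2⟩
    exact Finset.single_le_sum (f := fun i => ((f a).coeff i).natAbs) (fun _ _ => Nat.zero_le _)
      (Finset.mem_range.2 (Nat.lt_succ_of_le hi))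

end Pool.Agent.P.MP_257122_al
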