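import Pool.Agent.P.MP_257122_al.GBasic
import Pool.Agent.P.MP_257122_al.H1.Malcev

/-!
# Bounding exponent vectors by annihilating polynomials: pure part

PLAN (`th_sound`).  Let `N = max |t j| ≥ R`, `t₀ j = round (R * t j / N)`, `u = N t₀ - R t`,
`|u j| ≤ N`, so `X ^ N = (A ^ t) ^ R * A ^ u` for `X = A ^ t₀`.  An eigenvalue `lam` of `X` over
`ℂ` has a joint eigenvector for all `A j` (`mal_common` on the eigenspace, or triangularise):
`lam = ∏ mu j ^ t₀ j`, `nu = ∏ mu j ^ t j` is a root of `f`, so `|nu| ≤ 1 + s`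
(`Polynomial.cauchyBound`), `a nu` is integral (`a` the leading coefficient), `|mu j ^ (±1)| ≤ n s`,
`s mu j ^ (±1)` integral.  Hence `|lam| ≤ thM`, `(a s ^ k lam) ^ N` and so `thM * lam` is integral.
The coefficients of the characteristic polynomial of `X` times `thM ^ n` are rational algebraic
integers bounded by `(2 thM ^ 2) ^ n`; Cayley-Hamilton contradicts the certificate.
PLAN (`th_complete`).  Finitely many joint eigencharacters `chi` (`mal_card`); if a fixed monic `g`
kills `A ^ t` then `(chi t)` lies in a finite set; `t ↦ (chi t)` is injective by `Faith`.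
-/

namespace Pool.Agent.P.MP_257122_al

variable {k n : ℕ}

/-- The bound for eigenvalues and their denominators. -/
def thM (s k n : ℕ) : ℕ := (s + 1).factorial ^ (k + 1) * (n + 1) ^ k

/-- The entries of the matrices and their inverses have size and denominator governed by `s`. -/
def ThSize (A : Fin k → GL (Fin n) ℚ) (s : ℕ) : Prop :=
  ∀ j a b, (∃ z : ℤ, (s : ℚ) * (A j).val a b = z) ∧ |(A j).val a b| ≤ s ∧
    (∃ z : ℤ, (s : ℚ) * (A j).inv a b = z) ∧ |(A j).inv a b| ≤ s

/-- No monic polynomial in a box kills a product of powers on the sphere of radius `R`. -/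
def ThCert (A : Fin k → GL (Fin n) ℚ) (D B R : ℕ) : Prop :=
  ∀ t : Fin k → ℤ, (∀ j, (t j).natAbs ≤ R) → (∃ j, (t j).natAbs = R) →
    ∀ c : Fin n → ℤ, (∀ i, (c i).natAbs ≤ B) →
      (zp A t).val ^ n + ∑ i, ((c i : ℚ) / (D : ℚ)) • (zp A t).val ^ i.1 ≠ 0

open Polynomial

theorem th_rat {q : ℚ} {m : ℕ} (h : q.den + q.num.natAbs ≤ m) :
    (∃ z : ℤ, ((m.factorial : ℕ) : ℚ) * q = z) ∧ |q| ≤ (m.factorial : ℕ) := by
  constructor
  · obtain ⟨d, hd⟩ := Nat.dvd_factorial q.den_pos (le_trans (Nat.le_add_right _ _) h)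
    refine ⟨d * q.num, ?_⟩
    rw [hd]
    push_cast
    rw [← Rat.mul_den_eq_num]
    ring
  · have h1 : (1 : ℚ) ≤ q.den := by exact_mod_cast q.den_pos
    have h2 : |q| * q.den = q.num.natAbs := by
      rw [Nat.cast_natAbs, Int.cast_abs, ← Rat.mul_den_eq_num, abs_mul, Nat.abs_cast]
    have h3 : ((q.num.natAbs : ℕ) : ℚ) ≤ (m.factorial : ℕ) := by
      exact_mod_cast (le_trans (Nat.le_add_left _ _) h).trans m.self_le_factorial
    nlinarith [abs_nonneg q]

/-- The action of rational matrices on complex vectors. -/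
noncomputable def thRho (n : ℕ) : Matrix (Fin n) (Fin n) ℚ →+* Module.End ℂ (Fin n → ℂ) :=
  (Matrix.toLinAlgEquiv' (R := ℂ) (n := Fin n)).toRingEquiv.toRingHom.comp
    (algebraMap ℚ ℂ).mapMatrix

theorem thRho_apply (x : Matrix (Fin n) (Fin n) ℚ) (v : Fin n → ℂ) (a : Fin n) :
    thRho n x v a = ∑ b, (x a b : ℂ) * v b := rfl

theorem thRho_inj : Function.Injective (thRho n) :=
  (Matrix.toLinAlgEquiv' (R := ℂ) (n := Fin n)).injective.comp
    (Matrix.map_injective (algebraMap ℚ ℂ).injective)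

theorem thRho_aevalZ (x : Matrix (Fin n) (Fin n) ℚ) (f : ℤ[X]) :
    thRho n (aeval x f) = aeval (thRho n x) (f.map (algebraMap ℤ ℂ)) := by
  rw [aeval_def, aeval_def, hom_eval₂, eval₂_map]
  exact congrArg (fun φ => eval₂ φ (thRho n x) f) (RingHom.ext_int _ _)

theorem thRho_aevalQ (x : Matrix (Fin n) (Fin n) ℚ) (f : ℚ[X]) :
    thRho n (aeval x f) = aeval (thRho n x) (f.map (algebraMap ℚ ℂ)) := by
  rw [aeval_def, aeval_def, hom_eval₂, eval₂_map]
  exact congrArg (fun φ => eval₂ φ (thRho n x) f) (RingHom.ext_rat _ _)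

theorem th_root {x : Matrix (Fin n) (Fin n) ℚ} {v : Fin n → ℂ} {z : ℂ} (hv : v ≠ 0)
    (h : thRho n x v = z • v) {f : ℤ[X]} (hf : IsNilpotent (aeval x f)) : aeval z f = 0 := by
  obtain ⟨m, hm⟩ := hf
  rw [← map_pow] at hm
  have e := Module.End.aeval_apply_of_mem_apply_eq_smul (p := (f ^ m).map (algebraMap ℤ ℂ)) h
  rw [← thRho_aevalZ, hm, map_zero, LinearMap.zero_apply, eval_map_algebraMap, map_pow] at e
  exact eq_zero_of_pow_eq_zero ((smul_eq_zero.1 e.symm).resolve_right hv)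

/-- Pairs of a matrix and an eigenvalue on the vector `v`. -/
noncomputable def thPairs (v : Fin n → ℂ) : Subgroup (GL (Fin n) ℚ × ℂˣ) where
  carrier := {p | thRho n p.1.val v = p.2.val • v}
  one_mem' := by
    show thRho n 1 v = (1 : ℂ) • v
    rw [map_one, one_smul]
    rfl
  mul_mem' := fun {a b} ha hb => by
    show thRho n (a.1.val * b.1.val) v = (a.2.val * b.2.val) • v
    rw [map_mul, Module.End.mul_apply, hb, map_smul, ha, smul_smul, mul_comm]
  inv_mem' := fun {a} ha => by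
    show thRho n (a.1⁻¹).val v = (a.2⁻¹).val • v
    have e : thRho n (a.1⁻¹).val (thRho n a.1.val v) = v := by
      rw [← Module.End.mul_apply, ← map_mul, Units.inv_mul, map_one]
      rfl
    rw [ha, map_smul] at e
    rw [← congrArg (fun w => (a.2⁻¹).val • w) e, smul_smul, Units.inv_mul, one_smul]

/-- Joint eigenvalues. -/
def ThEig (A : Fin k → GL (Fin n) ℚ) (μ : Fin k → ℂˣ) : Prop :=
  ∃ v, v ≠ 0 ∧ ∀ j, thRho n (A j).val v = (μ j).val • v

theorem th_zp {A : Fin k → GL (Fin n) ℚ} {μ : Fin k → ℂˣ} {v : Fin n → ℂ}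
    (h : ∀ j, thRho n (A j).val v = (μ j).val • v) (t : Fin k → ℤ) :
    thRho n (zp A t).val v = (zp μ t).val • v := by
  have e := zp_mem (T := thPairs v) (τ := fun j => (A j, μ j)) h t
  have e1 : (zp (fun j => (A j, μ j)) t).1 = zp A t :=
    map_zp (MonoidHom.fst _ _) (fun j => (A j, μ j)) t
  have e2 : (zp (fun j => (A j, μ j)) t).2 = zp μ t :=
    map_zp (MonoidHom.snd _ _) (fun j => (A j, μ j)) t
  rw [← e1, ← e2]
  exact e

theorem th_comm {A : Fin k → GL (Fin n) ℚ} (hc : ∀ i j, A i * A j = A j * A i) (i : Fin k)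
    (t : Fin k → ℤ) : A i * zp A t = zp A t * A i := by
  have e := (zp_add hc (Pi.single i 1) t).symm.trans
    ((congrArg (zp A) (add_comm _ _)).trans (zp_add hc t (Pi.single i 1)))
  rwa [zp_single] at e

/-- Every eigenvalue of a product of powers comes from a joint eigenvalue. -/
theorem th_joint {A : Fin k → GL (Fin n) ℚ} (hc : ∀ i j, A i * A j = A j * A i) (t : Fin k → ℤ)
    {z : ℂ} (hz : ((zp A t).val.charpoly.map (algebraMap ℚ ℂ)).IsRoot z) :
    ∃ μ, ThEig A μ ∧ (zp μ t).val = z := by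
  have h1 : (thRho n (zp A t).val).HasEigenvalue z := by
    rw [Module.End.hasEigenvalue_iff_isRoot_charpoly]
    rw [← Matrix.charpoly_map, ← Matrix.charpoly_toLin'] at hz
    exact hz
  let U := (thRho n (zp A t).val).eigenspace z
  have : Nontrivial U := Submodule.nontrivial_iff_ne_bot.2 h1
  have hU : ∀ j, ∀ u ∈ U, thRho n (A j).val u ∈ U := fun j u hu => by
    rw [Module.End.mem_eigenspace_iff] at hu ⊢
    rw [← Module.End.mul_apply, ← map_mul, ← Units.val_mul, ← th_comm hc, Units.val_mul, map_mul,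
      Module.End.mul_apply, hu, map_smul]
  obtain ⟨χ, v, hv, h⟩ := H1.mal_common (fun j => (thRho n (A j).val).restrict (hU j))
    fun i j => LinearMap.ext fun u => Subtype.ext (by
      show thRho n (A i).val (thRho n (A j).val u) = thRho n (A j).val (thRho n (A i).val u)
      rw [← Module.End.mul_apply, ← map_mul, ← Units.val_mul, hc, Units.val_mul, map_mul,
        Module.End.mul_apply])
  have hv' : (v : Fin n → ℂ) ≠ 0 := fun e => hv (Subtype.ext e)
  have h' : ∀ j, thRho n (A j).val v = χ j • (v : Fin n → ℂ) := fun j => congrArg Subtype.val (h j)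
  have h0 : ∀ j, χ j ≠ 0 := fun j e => hv' (by
    have e' : thRho n ((A j)⁻¹).val (thRho n (A j).val v) = v := by
      rw [← Module.End.mul_apply, ← map_mul, Units.inv_mul, map_one]
      rfl
    rw [← e', h', e, zero_smul, map_zero])
  refine ⟨fun j => Units.mk0 (χ j) (h0 j), ⟨v, hv', h'⟩, ?_⟩
  have e := th_zp (μ := fun j => Units.mk0 (χ j) (h0 j)) h' t
  rw [Module.End.mem_eigenspace_iff.1 v.2] at e
  exact (smul_left_injective ℂ hv' e).symm

/-- Size and denominator are bounded by `P`. -/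
def ThGood (P : ℕ) (z : ℂ) : Prop := ‖z‖ ≤ P ∧ IsIntegral ℤ ((P : ℂ) * z)

theorem th_nat (m : ℕ) : IsIntegral ℤ (m : ℂ) := by
  have := isIntegral_algebraMap (R := ℤ) (A := ℂ) (x := (m : ℤ))
  simpa using this

theorem ThGood.mul {P Q : ℕ} {z w : ℂ} (h : ThGood P z) (h' : ThGood Q w) :
    ThGood (P * Q) (z * w) := by
  constructor
  · rw [norm_mul, Nat.cast_mul]
    exact mul_le_mul h.1 h'.1 (norm_nonneg _) (Nat.cast_nonneg _)
  · rw [Nat.cast_mul, mul_mul_mul_comm]
    exact h.2.mul h'.2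

theorem ThGood.one : ThGood 1 1 := ⟨by simp, by simpa using isIntegral_one⟩

theorem ThGood.pow {P : ℕ} {z : ℂ} (h : ThGood P z) (m : ℕ) : ThGood (P ^ m) (z ^ m) := by
  induction m with
  | zero => exact ThGood.one
  | succ m ih => rw [pow_succ, pow_succ]; exact ih.mul h

theorem ThGood.of_dvd {P Q : ℕ} {z : ℂ} (h : ThGood P z) (hQ : 0 < Q) (hd : P ∣ Q) :
    ThGood Q z := by
  refine ⟨h.1.trans (by exact_mod_cast Nat.le_of_dvd hQ hd), ?_⟩
  obtain ⟨d, rfl⟩ := hd
  rw [mul_comm P, Nat.cast_mul, mul_assoc]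
  exact (th_nat d).mul h.2

theorem ThGood.pow_le {P : ℕ} {z : ℂ} (h : ThGood P z) (hP : 0 < P) {m N : ℕ} (hm : m ≤ N) :
    ThGood (P ^ N) (z ^ m) :=
  (h.pow m).of_dvd (pow_pos hP N) (pow_dvd_pow P hm)

theorem ThGood.of_pow {P N : ℕ} {z : ℂ} (hN : 0 < N) (h : ThGood (P ^ N) (z ^ N)) :
    ThGood P z := by
  constructor
  · have := h.1
    rw [norm_pow, Nat.cast_pow] at this
    exact le_of_pow_le_pow_left₀ hN.ne' (Nat.cast_nonneg _) this
  · have := h.2
    rw [Nat.cast_pow, ← mul_pow] at this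
    exact IsIntegral.of_pow hN this

theorem ThGood.prod {ι : Type} (S : Finset ι) {P : ℕ} {z : ι → ℂ} (h : ∀ i, ThGood P (z i)) :
    ThGood (P ^ S.card) (∏ i ∈ S, z i) := by
  classical
  induction S using Finset.induction_on with
  | empty => exact ThGood.one
  | insert a S ha ih =>
    rw [Finset.prod_insert ha, Finset.card_insert_of_notMem ha, pow_succ']
    exact (h a).mul ih

theorem th_good_root {s : ℕ} {f : ℤ[X]} (hf : f ≠ 0) (hfs : ∀ i, (f.coeff i).natAbs ≤ s) {z : ℂ}
    (hz : aeval z f = 0) : ThGood (s + 1).factorial z := by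
  have hl : f.leadingCoeff ≠ 0 := leadingCoeff_ne_zero.2 hf
  have hi : Function.Injective (algebraMap ℤ ℂ) := RingHom.injective_int _
  constructor
  · have h1 : (f.map (algebraMap ℤ ℂ)).IsRoot z := by rwa [IsRoot, eval_map_algebraMap]
    have h2 := h1.norm_lt_cauchyBound ((Polynomial.map_ne_zero_iff hi).2 hf)
    have h3 : cauchyBound (f.map (algebraMap ℤ ℂ)) ≤ (s : NNReal) + 1 := by
      refine add_le_add_left ((div_le_self bot_le ?_).trans (Finset.sup_le fun i _ => ?_)) 1
      · rw [leadingCoeff_map_of_injective hi, eq_intCast, Complex.nnnorm_intCast,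
          ← NNReal.natCast_natAbs]
        exact_mod_cast Int.natAbs_pos.2 hl
      · rw [coeff_map, eq_intCast, Complex.nnnorm_intCast, ← NNReal.natCast_natAbs]
        exact_mod_cast hfs i
    have h4 : ‖z‖ ≤ (s : ℝ) + 1 := by exact_mod_cast (h2.trans_le h3).le
    exact h4.trans (by exact_mod_cast (s + 1).self_le_factorial)
  · obtain ⟨d, hd⟩ : f.leadingCoeff ∣ ((s + 1).factorial : ℤ) :=
      Int.natAbs_dvd.1 (Int.natCast_dvd_natCast.2
        (Nat.dvd_factorial (Int.natAbs_pos.2 hl) ((hfs _).trans s.le_succ)))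
    have e : (((s + 1).factorial : ℕ) : ℂ) * z = d • (f.leadingCoeff • z) := by
      rw [smul_smul, mul_comm d, ← hd, zsmul_eq_mul, Int.cast_natCast]
    rw [e]
    exact (isIntegral_leadingCoeff_smul f z hz).smul d

theorem th_good_eig {s : ℕ} (hs : 0 < s) {x : Matrix (Fin n) (Fin n) ℚ}
    (hx : ∀ a b, (∃ z : ℤ, (s : ℚ) * x a b = z) ∧ |x a b| ≤ s) {v : Fin n → ℂ} {z : ℂ}
    (hv : v ≠ 0) (h : thRho n x v = z • v) : ThGood ((s + 1).factorial * (n + 1)) z := by
  constructor
  · have h1 : ‖z • v‖ ≤ (n * s : ℝ) * ‖v‖ := by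
      rw [← h]
      refine (pi_norm_le_iff_of_nonneg (by positivity)).2 fun a => ?_
      rw [thRho_apply]
      refine (norm_sum_le _ _).trans ((Finset.sum_le_card_nsmul _ _ (s * ‖v‖) fun b _ => ?_).trans
        (by simp [mul_assoc]))
      rw [norm_mul, Complex.norm_ratCast]
      exact mul_le_mul (by exact_mod_cast (hx a b).2) (norm_le_pi_norm v b) (norm_nonneg _)
        (Nat.cast_nonneg _)
    rw [norm_smul] at h1
    refine (le_of_mul_le_mul_right h1 (norm_pos_iff.2 hv)).trans ?_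
    rw [mul_comm]
    exact_mod_cast Nat.mul_le_mul (s.le_succ.trans (s + 1).self_le_factorial) n.le_succ
  · choose Z hZ using fun a b => (hx a b).1
    have e : (algebraMap ℤ ℚ).mapMatrix (Matrix.of Z) = (s : Matrix (Fin n) (Fin n) ℚ) * x := by
      rw [← nsmul_eq_mul]
      ext a b
      rw [Matrix.smul_apply, nsmul_eq_mul, hZ]
      rfl
    have h1 : aeval ((s : Matrix (Fin n) (Fin n) ℚ) * x) (Matrix.of Z).charpoly = 0 := by
      have := congrArg (algebraMap ℤ ℚ).mapMatrix (Matrix.of Z).aeval_self_charpoly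
      rw [map_zero, aeval_def, hom_eval₂, e] at this
      rw [← this, aeval_def]
      exact congrArg (fun φ => eval₂ φ _ _) (RingHom.ext_int _ _)
    have h2 : thRho n ((s : Matrix (Fin n) (Fin n) ℚ) * x) v = ((s : ℂ) * z) • v := by
      rw [map_mul, map_natCast, Module.End.mul_apply, h, Module.End.natCast_apply,
        ← Nat.cast_smul_eq_nsmul ℂ, smul_smul]
    have h3 : IsIntegral ℤ ((s : ℂ) * z) :=
      ⟨_, (Matrix.of Z).charpoly_monic, th_root hv h2 (h1 ▸ IsNilpotent.zero)⟩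
    obtain ⟨d, hd⟩ := (Nat.dvd_factorial hs s.le_succ).mul_right (n + 1)
    rw [hd, mul_comm s, Nat.cast_mul, mul_assoc]
    exact (th_nat d).mul h3

/-- The monic polynomial with lower coefficients `c`. -/
noncomputable def thPol (c : Fin n → ℚ) : ℚ[X] := X ^ n + ∑ i, C (c i) * X ^ i.1

theorem thPol_monic (c : Fin n → ℚ) : (thPol c).Monic := monic_X_pow_add (degree_sum_fin_lt c)

theorem aeval_thPol (x : Matrix (Fin n) (Fin n) ℚ) (c : Fin n → ℚ) :
    aeval x (thPol c) = x ^ n + ∑ i, c i • x ^ i.1 := by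
  simp only [thPol, map_add, map_pow, aeval_X, map_sum, map_mul, aeval_C, Algebra.smul_def]

theorem th_coeffs {M : ℕ} (hM : 0 < M) (x : Matrix (Fin n) (Fin n) ℚ)
    (h : ∀ z, (x.charpoly.map (algebraMap ℚ ℂ)).IsRoot z → ThGood M z) :
    ∃ c : Fin n → ℤ, (∀ i, (c i).natAbs ≤ (2 * M ^ 2) ^ n) ∧
      x ^ n + ∑ i, ((c i : ℚ) / ((M ^ n : ℕ) : ℚ)) • x ^ i.1 = 0 := by
  have hm := x.charpoly_monic
  have hd : x.charpoly.natDegree = n := by rw [Matrix.charpoly_natDegree_eq_dim, Fintype.card_fin]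
  have hM' : (M : ℂ) ≠ 0 := by exact_mod_cast hM.ne'
  have h1 : ∀ i : Fin n, ∃ c : ℤ, algebraMap ℤ ℚ c = (M : ℚ) ^ n * x.charpoly.coeff i := by
    intro i
    refine IsIntegrallyClosed.isIntegral_iff.1
      ((isIntegral_algebraMap_iff (algebraMap ℚ ℂ).injective).1 ?_)
    have h2 := isIntegral_coeff_of_factors (R := ℤ)
      ((x.charpoly.map (algebraMap ℚ ℂ)).scaleRoots M)
      (by rw [((monic_scaleRoots_iff _).2 (hm.map _)).leadingCoeff]; exact isIntegral_one)
      (IsAlgClosed.splits _) (fun z hz => by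
        rw [← mul_div_cancel₀ z hM'] at hz ⊢
        rw [IsRoot, scaleRoots_eval_mul] at hz
        exact (h _ ((mul_eq_zero.1 hz).resolve_left (pow_ne_zero _ hM'))).2) i
    rw [coeff_scaleRoots, hm.natDegree_map, hd, coeff_map] at h2
    have e : (M : ℂ) ^ n = (M : ℂ) ^ i.1 * (M : ℂ) ^ (n - i.1) := by
      rw [← pow_add, Nat.add_sub_cancel' i.2.le]
    rw [map_mul, map_pow, map_natCast, e, mul_assoc, mul_comm (_ ^ (n - i.1))]
    exact ((th_nat M).pow _).mul h2
  choose c hc using h1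
  refine ⟨c, fun i => ?_, ?_⟩
  · have h2 := coeff_le_of_roots_le (f := algebraMap ℚ ℂ) (B := M) i hm (IsAlgClosed.splits _)
      fun z hz => (h z (isRoot_of_mem_roots hz)).1
    rw [hd, coeff_map] at h2
    have h3 : (M : ℝ) ^ (n - i.1) * n.choose i ≤ (M : ℝ) ^ n * 2 ^ n := by
      exact_mod_cast Nat.mul_le_mul (Nat.pow_le_pow_right hM (Nat.sub_le n i)) (n.choose_le_two_pow i)
    have h4 : (((c i).natAbs : ℕ) : ℝ) = (M : ℝ) ^ n * ‖algebraMap ℚ ℂ (x.charpoly.coeff i)‖ := by
      have := congrArg (fun q => ‖algebraMap ℚ ℂ q‖) (hc i)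
      simpa [Nat.cast_natAbs] using this
    have h5 : (((c i).natAbs : ℕ) : ℝ) ≤ (2 * (M : ℝ) ^ 2) ^ n := by
      rw [h4]
      refine (mul_le_mul_of_nonneg_left (h2.trans h3) (by positivity)).trans_eq ?_
      ring
    exact_mod_cast h5
  · have e : ∀ i : Fin n, (c i : ℚ) / ((M ^ n : ℕ) : ℚ) = x.charpoly.coeff i := fun i => by
      rw [div_eq_iff (by positivity), Nat.cast_pow, mul_comm]
      exact hc i
    simp only [e]
    rw [← aeval_thPol, ← x.aeval_self_charpoly]
    refine congrArg (aeval x) ?_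
    rw [thPol, Fin.sum_univ_eq_sum_range (fun i => C (x.charpoly.coeff i) * X ^ i) n]
    have := hm.as_sum
    rw [hd] at this
    exact this.symm

theorem exists_thSize (A : Fin k → GL (Fin n) ℚ) (s₀ : ℕ) : ∃ s, s₀ < s ∧ ThSize A s := by
  obtain ⟨m, hm⟩ := Finite.exists_le fun p : Fin k × Fin n × Fin n =>
    ((A p.1).val p.2.1 p.2.2).den + ((A p.1).val p.2.1 p.2.2).num.natAbs +
      (((A p.1).inv p.2.1 p.2.2).den + ((A p.1).inv p.2.1 p.2.2).num.natAbs)
  refine ⟨(m + s₀ + 1).factorial, lt_of_lt_of_le (by omega) (Nat.self_le_factorial _),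
    fun j a b => ?_⟩
  have h := hm (j, a, b)
  have h1 := th_rat (q := (A j).val a b) (m := m + s₀ + 1) (by simp only at h; omega)
  have h2 := th_rat (q := (A j).inv a b) (m := m + s₀ + 1) (by simp only at h; omega)
  exact ⟨h1.1, h1.2, h2.1, h2.2⟩

theorem th_sound {A : Fin k → GL (Fin n) ℚ} (hc : ∀ i j, A i * A j = A j * A i) {s R : ℕ}
    (hs : 0 < s) (hA : ThSize A s) {f : Polynomial ℤ} (hf : f ≠ 0)
    (hfs : ∀ i, (f.coeff i).natAbs ≤ s) (hR : 0 < R)
    (h : ThCert A (thM s k n ^ n) ((2 * thM s k n ^ 2) ^ n) R) (t : Fin k → ℤ)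
    (ht : IsNilpotent (Polynomial.aeval (zp A t).val f)) (j : Fin k) : (t j).natAbs < R := by
  by_contra hj
  obtain ⟨j₀, _, hj₀⟩ := Finset.exists_max_image Finset.univ (fun i => (t i).natAbs)
    ⟨j, Finset.mem_univ j⟩
  obtain ⟨N, hN⟩ : ∃ N, N = (t j₀).natAbs := ⟨_, rfl⟩
  have h1 : ∀ i, (t i).natAbs ≤ N := fun i => hN ▸ hj₀ i (Finset.mem_univ i)
  have hRN : R ≤ N := (not_lt.1 hj).trans (h1 j)
  have hN0 : (0 : ℤ) < N := by omega
  have hF : 0 < (s + 1).factorial := Nat.factorial_pos _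
  obtain ⟨c, hc1, hc2⟩ := th_coeffs (M := thM s k n) (by unfold thM; positivity)
    (zp A fun i => R * t i / N).val (fun z hz => by
      obtain ⟨μ, ⟨v, hv, hμ⟩, rfl⟩ := th_joint hc _ hz
      have g1 := th_good_root hf hfs (th_root hv (th_zp hμ t) ht)
      have g2 : ∀ i, ThGood ((s + 1).factorial * (n + 1)) ((μ i)⁻¹).val := fun i =>
        th_good_eig hs (fun a b => (hA i a b).2.2) hv
          ((thPairs v).inv_mem (x := (A i, μ i)) (hμ i))
      have e : (zp μ fun i => R * t i / N) ^ N =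
          zp μ t ^ R * ∏ i, (μ i)⁻¹ ^ (R * t i % N).toNat := by
        simp only [zp, List.prod_ofFn, ← Finset.prod_pow, ← Finset.prod_mul_distrib]
        refine Finset.prod_congr rfl fun i _ => ?_
        rw [← zpow_natCast, ← zpow_natCast, ← zpow_natCast, ← zpow_mul, ← zpow_mul, inv_zpow',
          ← zpow_add, Int.toNat_of_nonneg (Int.emod_nonneg _ hN0.ne')]
        refine congrArg (μ i ^ ·) ?_
        have := Int.ediv_mul_add_emod (R * t i) N
        linarith
      refine ThGood.of_pow (N := N) (by omega) ?_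
      rw [← Units.val_pow_eq_pow_val, e, Units.val_mul, Units.val_pow_eq_pow_val, Units.coe_prod]
      have g3 := (g1.pow_le hF hRN).mul (ThGood.prod Finset.univ fun i =>
        (g2 i).pow_le (by positivity) (m := (R * t i % N).toNat) (N := N)
          (by have := Int.emod_lt_of_pos (R * t i) hN0; omega))
      have e' : thM s k n ^ N = (s + 1).factorial ^ N *
          (((s + 1).factorial * (n + 1)) ^ N) ^ (Finset.univ : Finset (Fin k)).card := by
        rw [thM, Finset.card_univ, Fintype.card_fin, pow_right_comm, ← mul_pow, mul_pow _ (n + 1),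
          pow_succ', mul_assoc]
      rw [e']
      simpa only [Units.val_pow_eq_pow_val] using g3)
  refine h _ (fun i => ?_) ⟨j₀, ?_⟩ c hc1 hc2
  · have h2 := h1 i
    have h3 : (R : ℤ) * t i / N ≤ R :=
      Int.ediv_le_of_le_mul hN0 (mul_le_mul_of_nonneg_left (by omega) (by omega))
    have h4 : -(R : ℤ) ≤ R * t i / N := Int.le_ediv_of_mul_le hN0 (by
      rw [neg_mul_comm]
      exact mul_le_mul_of_nonneg_left (by omega) (by omega))
    omega
  · rcases Int.natAbs_eq (t j₀) with e | e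
    · rw [e, ← hN, Int.mul_ediv_cancel _ hN0.ne', Int.natAbs_natCast]
    · rw [e, ← hN, ← neg_mul_comm, Int.mul_ediv_cancel _ hN0.ne', Int.natAbs_neg,
        Int.natAbs_natCast]

theorem th_fin {A : Fin k → GL (Fin n) ℚ} (hc : ∀ i j, A i * A j = A j * A i) (hF : Faith A)
    {g : ℚ[X]} (hg : g.Monic) : {t | aeval (zp A t).val g = 0}.Finite := by
  have hS : {μ | ThEig A μ}.Finite := by
    refine Set.Finite.of_finite_image (f := fun μ j => (μ j).val)
      ((H1.mal_card fun j => thRho n (A j).val).1.subset ?_)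
      fun μ _ ν _ e => funext fun j => Units.ext (congrFun e j)
    rintro _ ⟨μ, hμ, rfl⟩
    exact hμ
  have := hS.to_subtype
  refine Set.Finite.of_finite_image (f := fun t (μ : {μ | ThEig A μ}) => (zp μ.1 t).val)
    ((Set.Finite.pi' fun _ => finite_setOfPred_isRoot (hg.map (algebraMap ℚ ℂ)).ne_zero).subset ?_)
    fun t _ t' _ e => ?_
  · rintro _ ⟨t, ht, rfl⟩ ⟨μ, v, hv, hμ⟩
    have e := Module.End.aeval_apply_of_mem_apply_eq_smul (p := g.map (algebraMap ℚ ℂ))
      (th_zp hμ t)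
    rw [← thRho_aevalQ, ht, map_zero, LinearMap.zero_apply] at e
    exact (smul_eq_zero.1 e.symm).resolve_right hv
  · refine sub_eq_zero.1 (hF (t - t') ?_)
    have hm := ((zp A (t - t')).val.charpoly_monic).map (algebraMap ℚ ℂ)
    have h1 := (IsAlgClosed.splits _).eq_prod_roots_of_monic hm
    rw [Multiset.eq_replicate_card.2 (fun z hz => show z = 1 from ?_ :
      ∀ z ∈ ((zp A (t - t')).val.charpoly.map (algebraMap ℚ ℂ)).roots, z = 1),
      Multiset.map_replicate, Multiset.prod_replicate] at h1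
    · have h2 := thRho_aevalQ (zp A (t - t')).val (zp A (t - t')).val.charpoly
      rw [Matrix.aeval_self_charpoly, h1] at h2
      rw [map_pow, map_sub, aeval_X, C_1, map_one, ← map_one (thRho n), ← map_sub, ← map_pow] at h2
      exact ⟨_, thRho_inj h2.symm⟩
    · obtain ⟨μ, hμ, rfl⟩ := th_joint hc _ (isRoot_of_mem_roots hz)
      have e' : zp μ t = zp μ t' := Units.ext (congrFun e ⟨μ, hμ⟩)
      rw [sub_eq_add_neg, zp_add fun _ _ => mul_comm _ _, zp_neg fun _ _ => mul_comm _ _, e',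
        mul_inv_cancel, Units.val_one]

theorem th_complete {A : Fin k → GL (Fin n) ℚ} (hc : ∀ i j, A i * A j = A j * A i)
    (hF : Faith A) (D B : ℕ) : ∃ R, 0 < R ∧ ThCert A D B R := by
  have h1 : {c : Fin n → ℤ | ∀ i, c i ∈ Set.Icc (-(B : ℤ)) B}.Finite :=
    Set.Finite.pi' fun _ => Set.finite_Icc _ _
  have h2 := (h1.biUnion fun c _ => th_fin hc hF (thPol_monic fun i => (c i : ℚ) / D)).to_subtype
  obtain ⟨m, hm⟩ := Finite.exists_le fun p : (⋃ c ∈ {c : Fin n → ℤ | ∀ i, c i ∈ Set.Icc (-(B : ℤ)) B},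
    {t | aeval (zp A t).val (thPol fun i => (c i : ℚ) / D) = 0}) × Fin k => (p.1.1 p.2).natAbs
  refine ⟨m + 1, m.succ_pos, fun t _ ⟨j, hj⟩ c hc e => ?_⟩
  have h3 := hm (⟨t, Set.mem_biUnion (x := c) (fun i => by
    have := hc i
    constructor <;> omega) ((aeval_thPol _ _).trans e)⟩, j)
  simp only at h3
  omega

theorem faith_of_cert {A : Fin k → GL (Fin n) ℚ} (hc : ∀ i j, A i * A j = A j * A i) {s R : ℕ}
    (hs : 0 < s) (hA : ThSize A s) (hR : 0 < R)
    (h : ThCert A (thM s k n ^ n) ((2 * thM s k n ^ 2) ^ n) R) : Faith A := by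
  intro t ht
  have h1 : IsNilpotent (aeval (zp A ((R : ℤ) • t)).val (X - C 1 : ℤ[X])) := by
    rw [zp_smul hc, map_sub, aeval_X, C_1, map_one, zpow_natCast, Units.val_pow_eq_pow_val,
      ← geom_sum_mul]
    refine Commute.isNilpotent_mul_left (Commute.sum_left _ _ _ fun i _ => ?_) ht
    exact ((Commute.refl _).sub_right (Commute.one_right _)).pow_left i
  funext j
  have h2 := th_sound hc hs hA (X_sub_C_ne_zero 1) (fun i => by
    rw [coeff_sub, coeff_X, coeff_C]
    split_ifs <;> omega) hR h _ h1 j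
  rw [Pi.smul_apply, smul_eq_mul, Int.natAbs_mul, Int.natAbs_natCast] at h2
  have h3 : (t j).natAbs < 1 := lt_of_mul_lt_mul_left (by rwa [mul_one]) R.zero_le
  show t j = 0
  omega

end Pool.Agent.P.MP_257122_al
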