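import Pool.Agent.P.MP_257122_al.GBasic

/-!
# Averaging for isomorphisms of virtually abelian groups (pure part)
-/

namespace Pool.Agent.P.MP_257122_al

namespace MVAAux

variable {G H : Type} [Group G] [Group H] {k k' : ℕ}

/-- `T` is a normal free abelian subgroup with basis `τ`. -/
structure Lat (T : Subgroup G) (τ : Fin k → G) : Prop where
  nrm : T.Normal
  mem : ∀ j, τ j ∈ T
  comm : ∀ x ∈ T, ∀ y ∈ T, x * y = y * x
  sur : ∀ g ∈ T, ∃ t, zp τ t = g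
  inj : ∀ t, zp τ t = 1 → t = 0

/-- Coordinates. -/
noncomputable def co (τ : Fin k → G) (g : G) : Fin k → ℤ := Function.invFun (zp τ) g

variable {T : Subgroup G} {τ : Fin k → G} {T' : Subgroup H} {τ' : Fin k' → H}

theorem Lat.cm (h : Lat T τ) : ∀ i j, τ i * τ j = τ j * τ i :=
  fun i j => h.comm _ (h.mem i) _ (h.mem j)

theorem Lat.zp_inj (h : Lat T τ) : Function.Injective (zp τ) := by
  intro s t e
  have : zp τ (s + -t) = 1 := by rw [zp_add h.cm, zp_neg h.cm, e, mul_inv_cancel]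
  have := h.inj _ this
  rwa [← sub_eq_add_neg, sub_eq_zero] at this

theorem Lat.co_zp (h : Lat T τ) (t : Fin k → ℤ) : co τ (zp τ t) = t :=
  Function.leftInverse_invFun h.zp_inj t

theorem Lat.zp_co (h : Lat T τ) {g : G} (hg : g ∈ T) : zp τ (co τ g) = g :=
  Function.invFun_eq (h.sur g hg)

theorem Lat.co_mul (h : Lat T τ) {g g' : G} (hg : g ∈ T) (hg' : g' ∈ T) :
    co τ (g * g') = co τ g + co τ g' := by
  apply h.zp_inj
  rw [zp_add h.cm, h.zp_co hg, h.zp_co hg', h.zp_co (T.mul_mem hg hg')]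

theorem Lat.co_inv (h : Lat T τ) {g : G} (hg : g ∈ T) : co τ g⁻¹ = - co τ g := by
  apply h.zp_inj
  rw [zp_neg h.cm, h.zp_co hg, h.zp_co (T.inv_mem hg)]

/-- The additive map induced by a homomorphism. -/
noncomputable def lin (h : Lat T τ) (h' : Lat T' τ') (f : G →* H) (hf : ∀ g ∈ T, f g ∈ T') :
    (Fin k → ℤ) →+ (Fin k' → ℤ) :=
  AddMonoidHom.mk' (fun t => co τ' (f (zp τ t))) (fun s t => by
    rw [zp_add h.cm, map_mul, h'.co_mul (hf _ (zp_mem h.mem _)) (hf _ (zp_mem h.mem _))])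

theorem lin_co (h : Lat T τ) (h' : Lat T' τ') (f : G →* H) (hf : ∀ g ∈ T, f g ∈ T') {g : G}
    (hg : g ∈ T) : lin h h' f hf (co τ g) = co τ' (f g) := by
  show co τ' (f (zp τ (co τ g))) = _
  rw [h.zp_co hg]

theorem nrm_smul (n : ℤ) (t : Fin k → ℤ) : ‖n • t‖ = ‖n‖ * ‖t‖ := norm_smul n t

theorem lin_le (h : Lat T τ) (h' : Lat T' τ') (f : G →* H) (hf : ∀ g ∈ T, f g ∈ T') {R : ℝ}
    (hR : ∀ j, ‖co τ' (f (τ j))‖ ≤ R) (t : Fin k → ℤ) :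
    ‖lin h h' f hf t‖ ≤ k * (‖t‖ * R) := by
  have e : t = ∑ j, t j • (Pi.single j 1 : Fin k → ℤ) := by
    ext l
    simp [Finset.sum_apply, Pi.single_apply]
  have e2 : lin h h' f hf t = ∑ j, t j • co τ' (f (τ j)) := by
    conv_lhs => rw [e]
    rw [map_sum]
    refine Finset.sum_congr rfl fun j _ => ?_
    rw [map_zsmul]
    congr 1
    show co τ' (f (zp τ _)) = _
    rw [zp_single]
  rw [e2]
  refine (norm_sum_le _ _).trans ?_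
  refine (Finset.sum_le_card_nsmul _ _ (‖t‖ * R) fun j _ => ?_).trans ?_
  · rw [nrm_smul]
    exact mul_le_mul (norm_le_pi_norm t j) (hR j) (norm_nonneg _) (norm_nonneg _)
  · simp

theorem co_map_le (h : Lat T τ) (h' : Lat T' τ') (f : G →* H) (hf : ∀ g ∈ T, f g ∈ T') {R s : ℝ}
    (hR0 : 0 ≤ R) (hR : ∀ j, ‖co τ' (f (τ j))‖ ≤ R) {g : G} (hg : g ∈ T) (hs : ‖co τ g‖ ≤ s) :
    ‖co τ' (f g)‖ ≤ k * (s * R) := by
  rw [← lin_co h h' f hf hg]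
  refine (lin_le h h' f hf hR _).trans ?_
  gcongr

theorem box_iff (t : Fin k → ℤ) (B : ℕ) : (∀ l, (t l).natAbs ≤ B) ↔ ‖t‖ ≤ B := by
  rw [pi_norm_le_iff_of_nonneg (Nat.cast_nonneg B)]
  refine forall_congr' fun l => ?_
  rw [Int.norm_eq_abs, ← Int.cast_abs, ← Int.natCast_natAbs, Int.cast_natCast, Nat.cast_le]

/-- A set of representatives with bounded multiplication table. -/
structure Tr (T : Subgroup G) (τ : Fin k → G) (r : Set G) (s : ℝ) : Prop where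
  cov : ∀ g, ∃ x ∈ r, g * x⁻¹ ∈ T
  one : (1 : G) ∈ r
  tau : ∀ j, τ j ∈ r
  tri : ∀ x ∈ r, ∀ y ∈ r, ∀ z ∈ r, x * y * z⁻¹ ∈ T → ‖co τ (x * y * z⁻¹)‖ ≤ s

theorem avg {X : Type} [Group X] [Finite X] (t : X → Fin k → ℤ)
    (M : X → (Fin k → ℤ) →+ (Fin k → ℤ)) {C D : ℝ} (hD : 0 ≤ D)
    (hM : ∀ α x, ‖M α x‖ ≤ k * (‖x‖ * D))
    (ht : ∀ α β, ‖t α + M α (t β) - t (α * β)‖ ≤ C) :
    ∃ w, ∀ α, ‖-w + t α + M α w‖ ≤ C + 1 + k * D := by
  have := Fintype.ofFinite X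
  set q : ℕ := Fintype.card X with hq
  have hq0 : 0 < q := Fintype.card_pos
  set σ : Fin k → ℤ := ∑ β, t β with hσ
  set w : Fin k → ℤ := fun l => σ l / q with hw
  set ρ : Fin k → ℤ := fun l => σ l % q with hρ
  have hρ1 : ‖ρ‖ ≤ q := by
    rw [← box_iff]
    intro l
    have h1 : 0 ≤ σ l % q := Int.emod_nonneg _ (by exact_mod_cast hq0.ne')
    have h2 : σ l % q < q := Int.emod_lt_of_pos _ (by exact_mod_cast hq0)
    show (σ l % q).natAbs ≤ q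
    omega
  have hdiv : σ = (q : ℤ) • w + ρ := by
    ext l
    exact (Int.mul_ediv_add_emod _ _).symm
  refine ⟨w, fun α => ?_⟩
  have hs : ∑ β, t (α * β) = σ := Fintype.sum_equiv (Equiv.mulLeft α) _ _ fun _ => rfl
  have key : (q : ℤ) • (-w + t α + M α w) =
      ∑ β, (t α + M α (t β) - t (α * β)) + ρ - M α ρ := by
    rw [Finset.sum_sub_distrib, Finset.sum_add_distrib, hs, ← map_sum, ← hσ, Finset.sum_const,
      Finset.card_univ, ← hq]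
    conv_rhs => rw [hdiv]
    rw [map_add, map_zsmul, ← natCast_zsmul]
    module
  have h1 : ‖∑ β, (t α + M α (t β) - t (α * β))‖ ≤ q * C := by
    refine (norm_sum_le _ _).trans ?_
    refine (Finset.sum_le_card_nsmul _ _ C fun β _ => ht α β).trans ?_
    rw [Finset.card_univ, ← hq, nsmul_eq_mul]
  have h2 : ‖M α ρ‖ ≤ k * (q * D) := by
    refine (hM α ρ).trans ?_
    gcongr
  have h3 : (q : ℝ) * ‖-w + t α + M α w‖ ≤ q * (C + 1 + k * D) := by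
    have e : (q : ℝ) * ‖-w + t α + M α w‖ = ‖(q : ℤ) • (-w + t α + M α w)‖ := by
      rw [nrm_smul, Int.norm_natCast]
    rw [e, key]
    refine (norm_sub_le _ _).trans ?_
    have := norm_add_le (∑ β, (t α + M α (t β) - t (α * β))) ρ
    nlinarith
  exact le_of_mul_le_mul_left h3 (by exact_mod_cast hq0)

theorem pure (hL : Lat T τ) (hL' : Lat T' τ') [T.FiniteIndex] {r : Set G} {r' : Set H} {s R : ℝ}
    (hs : 0 ≤ s) (hR0 : 0 ≤ R) (hr : Tr T τ r s) (hr' : Tr T' τ' r' s) (ψ : G →* H) (φ : H →* G)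
    (h1 : ∀ g, φ (ψ g) = g) (h2 : ∀ g, ψ (φ g) = g) (hψ : ∀ g ∈ T, ψ g ∈ T')
    (hφ : ∀ g ∈ T', φ g ∈ T) (hR : ∀ j, ‖co τ' (ψ (τ j))‖ ≤ R)
    (hR' : ∀ j, ‖co τ (φ (τ' j))‖ ≤ R) :
    ∃ h : H, (∀ x ∈ r, ∃ y ∈ r', ∃ t, ‖t‖ ≤ k * (s * R) + (k * (s * R) + s + 1 + k' * s) ∧
        h * ψ x * h⁻¹ = zp τ' t * y) ∧
      ∀ y ∈ r', ∃ x ∈ r, ∃ t, ‖t‖ ≤ k' * ((s + (k * (s * R) + s + 1 + k' * s)) * R) ∧
        φ (h⁻¹ * y * h) = zp τ t * x := by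
  have := hL.nrm
  have hn' := hL'.nrm
  have hρ : ∀ α : G ⧸ T, ∃ x ∈ r, (x : G ⧸ T) = α := by
    intro α
    obtain ⟨g, rfl⟩ := QuotientGroup.mk_surjective α
    obtain ⟨x, hx, e⟩ := hr.cov g
    exact ⟨x, hx, (gb_eq.1 e).symm⟩
  choose ρ hρr hρ using hρ
  choose ρ' hρr' hρ' using fun α => hr'.cov (ψ (ρ α))
  have hc : ∀ α β, ρ α * ρ β * (ρ (α * β))⁻¹ ∈ T := by
    intro α β
    rw [gb_eq, QuotientGroup.mk_mul, hρ, hρ, hρ]
  have hc' : ∀ α β, ρ' α * ρ' β * (ρ' (α * β))⁻¹ ∈ T' := by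
    intro α β
    have := hψ _ (hc α β)
    rw [map_mul, map_mul, map_inv, gb_eq, QuotientGroup.mk_mul, gb_eq.1 (hρ' _), gb_eq.1 (hρ' _),
      gb_eq.1 (hρ' _)] at this
    rw [gb_eq, QuotientGroup.mk_mul, this]
  have hcj : ∀ α, ∀ g ∈ T', (MulAut.conj (ρ' α)).toMonoidHom g ∈ T' :=
    fun α g hg => hn'.conj_mem g hg _
  obtain ⟨w, hw⟩ := avg (X := G ⧸ T) (fun α => co τ' (ψ (ρ α) * (ρ' α)⁻¹))
    (fun α => lin hL' hL' _ (hcj α)) (C := k * (s * R) + s) hs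
    (fun α x => lin_le hL' hL' _ (hcj α) (fun j => hr'.tri _ (hρr' α) _ (hr'.tau j) _ (hρr' α)
      (hcj α _ (hL'.mem j))) x) (fun α β => by
      have e : co τ' (ψ (ρ α) * (ρ' α)⁻¹) + lin hL' hL' _ (hcj α) (co τ' (ψ (ρ β) * (ρ' β)⁻¹)) -
          co τ' (ψ (ρ (α * β)) * (ρ' (α * β))⁻¹) =
          co τ' (ψ (ρ α * ρ β * (ρ (α * β))⁻¹)) - co τ' (ρ' α * ρ' β * (ρ' (α * β))⁻¹) := by
        rw [lin_co hL' hL' _ (hcj α) (hρ' β), sub_eq_sub_iff_add_eq_add,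
          ← hL'.co_mul (hρ' α) (hcj α _ (hρ' β)),
          ← hL'.co_mul (T'.mul_mem (hρ' α) (hcj α _ (hρ' β))) (hc' α β),
          ← hL'.co_mul (hψ _ (hc α β)) (hρ' _)]
        congr 1
        simp only [MulEquiv.coe_toMonoidHom, MulAut.conj_apply, map_mul, map_inv]
        group
      rw [e]
      refine (norm_sub_le _ _).trans (add_le_add ?_ ?_)
      · exact co_map_le hL hL' ψ hψ hR0 hR (hc α β)
          (hr.tri _ (hρr _) _ (hρr _) _ (hρr _) (hc α β))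
      · exact hr'.tri _ (hρr' _) _ (hρr' _) _ (hρr' _) (hc' α β))
  have hz : zp τ' w ∈ T' := zp_mem hL'.mem w
  set z := zp τ' w with hzdef
  have hm : ∀ α, z⁻¹ * ψ (ρ α) * z * (ρ' α)⁻¹ ∈ T' ∧
      ‖co τ' (z⁻¹ * ψ (ρ α) * z * (ρ' α)⁻¹)‖ ≤ k * (s * R) + s + 1 + k' * s := by
    intro α
    have e : z⁻¹ * ψ (ρ α) * z * (ρ' α)⁻¹ =
        z⁻¹ * (ψ (ρ α) * (ρ' α)⁻¹) * (MulAut.conj (ρ' α)).toMonoidHom z := by
      simp only [MulEquiv.coe_toMonoidHom, MulAut.conj_apply]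
      group
    rw [e]
    refine ⟨T'.mul_mem (T'.mul_mem (T'.inv_mem hz) (hρ' α)) (hcj α _ hz), ?_⟩
    rw [hL'.co_mul (T'.mul_mem (T'.inv_mem hz) (hρ' α)) (hcj α _ hz),
      hL'.co_mul (T'.inv_mem hz) (hρ' α), hL'.co_inv hz, ← lin_co hL' hL' _ (hcj α) hz, hzdef,
      hL'.co_zp]
    exact hw α
  refine ⟨z⁻¹, fun x hx => ?_, fun y hy => ?_⟩
  · have hd : x * 1 * (ρ x)⁻¹ ∈ T := by rw [mul_one, gb_eq, hρ]
    have hb := co_map_le hL hL' ψ hψ hR0 hR hd (hr.tri _ hx _ hr.one _ (hρr _) hd)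
    refine ⟨ρ' x, hρr' _, co τ' (ψ (x * 1 * (ρ x)⁻¹) * (z⁻¹ * ψ (ρ x) * z * (ρ' x)⁻¹)), ?_, ?_⟩
    · rw [hL'.co_mul (hψ _ hd) (hm _).1]
      exact (norm_add_le _ _).trans (add_le_add hb (hm _).2)
    · rw [hL'.zp_co (T'.mul_mem (hψ _ hd) (hm _).1)]
      have e := hL'.comm _ (hψ _ hd) _ (T'.inv_mem hz)
      calc z⁻¹ * ψ x * z⁻¹⁻¹ = z⁻¹ * ψ (x * 1 * (ρ x)⁻¹) * (ψ (ρ x) * z) := by
            simp only [map_mul, map_inv, map_one]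
            group
        _ = _ := by
            rw [← e]
            group
  · have hd0 : ρ (φ y) * (φ y)⁻¹ ∈ T := by rw [gb_eq, hρ]
    have hd : y * 1 * (ρ' (φ y))⁻¹ ∈ T' := by
      have := hψ _ hd0
      rw [map_mul, map_inv, h2, gb_eq] at this
      rw [mul_one, gb_eq, ← this, gb_eq.1 (hρ' _)]
    have hg : y * 1 * (ρ' (φ y))⁻¹ * (z⁻¹ * ψ (ρ (φ y)) * z * (ρ' (φ y))⁻¹)⁻¹ ∈ T' :=
      T'.mul_mem hd (T'.inv_mem (hm _).1)
    refine ⟨ρ (φ y), hρr _,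
      co τ (φ (y * 1 * (ρ' (φ y))⁻¹ * (z⁻¹ * ψ (ρ (φ y)) * z * (ρ' (φ y))⁻¹)⁻¹)), ?_, ?_⟩
    · refine co_map_le hL' hL φ hφ hR0 hR' hg ?_
      rw [hL'.co_mul hd (T'.inv_mem (hm _).1), hL'.co_inv (hm _).1]
      refine (norm_add_le _ _).trans (add_le_add (hr'.tri _ hy _ hr'.one _ (hρr' _) hd) ?_)
      rw [norm_neg]
      exact (hm _).2
    · rw [hL.zp_co (hφ _ hg)]
      have e := hL'.comm _ hg _ hz
      have e2 : z⁻¹⁻¹ * y * z⁻¹ =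
          y * 1 * (ρ' (φ y))⁻¹ * (z⁻¹ * ψ (ρ (φ y)) * z * (ρ' (φ y))⁻¹)⁻¹ * ψ (ρ (φ y)) := by
        calc _ = z * (y * 1 * (ρ' (φ y))⁻¹ * (z⁻¹ * ψ (ρ (φ y)) * z * (ρ' (φ y))⁻¹)⁻¹) *
              (z⁻¹ * ψ (ρ (φ y))) := by group
          _ = _ := by
            rw [← e]
            group
      rw [e2, map_mul φ _ (ψ _), h1]

/-- The certificate for a list of representatives. -/
def Cert {b : ℕ} (T N : Subgroup (Fr b)) (τ : Fin k → Fr b) (r : List (Fr b)) (s : ℕ) : Prop :=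
  1 ∈ r ∧ (∀ i, FreeGroup.of i ∈ r) ∧ (∀ j, τ j ∈ r) ∧
    (∀ x ∈ r, ∀ y ∈ r, ∃ z ∈ r, ∃ t, x * y⁻¹ * z⁻¹ * (zp τ t)⁻¹ ∈ N) ∧
    ∀ x ∈ r, ∀ y ∈ r, ∀ z ∈ r, ¬ x * y * z⁻¹ ∈ T ∨
      ∃ t, (∀ l, (t l).natAbs ≤ s) ∧ x * y * z⁻¹ * (zp τ t)⁻¹ ∈ N

theorem ex_bd {α : Type} (l : List α) (P : α → ℕ → Prop)
    (mono : ∀ x s s', s ≤ s' → P x s → P x s') (h : ∀ x, ∃ s, P x s) : ∃ s, ∀ x ∈ l, P x s := by
  induction l with
  | nil => exact ⟨0, by simp⟩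
  | cons x l ih =>
    obtain ⟨s, hs⟩ := ih
    obtain ⟨s', hs'⟩ := h x
    refine ⟨s + s', fun y hy => ?_⟩
    rcases List.mem_cons.1 hy with rfl | hy
    · exact mono _ _ _ (by omega) hs'
    · exact mono _ _ _ (by omega) (hs y hy)

theorem Cert.mono {b : ℕ} {T N : Subgroup (Fr b)} {τ : Fin k → Fr b} {r : List (Fr b)} {s s' : ℕ}
    (h : Cert T N τ r s) (e : s ≤ s') : Cert T N τ r s' :=
  ⟨h.1, h.2.1, h.2.2.1, h.2.2.2.1, fun x hx y hy z hz => (h.2.2.2.2 x hx y hy z hz).imp id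
    fun ⟨t, ht, h'⟩ => ⟨t, fun l => (ht l).trans e, h'⟩⟩

theorem exists_cert {b : ℕ} {T N : Subgroup (Fr b)} {τ : Fin k → Fr b} [T.Normal] [T.FiniteIndex]
    (h : IsMark T N τ) : ∃ x : List (Fr b) × ℕ, Cert T N τ x.1 x.2 := by
  classical
  have := Fintype.ofFinite (Fr b ⧸ T)
  set r : List (Fr b) := 1 :: (List.ofFn FreeGroup.of ++ List.ofFn τ ++
    (Finset.univ : Finset (Fr b ⧸ T)).toList.map Quotient.out) with hr
  obtain ⟨s, hs⟩ := ex_bd (r.flatMap fun x => r.flatMap fun y => r.map fun z => x * y * z⁻¹)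
    (fun w s => ¬ w ∈ T ∨ ∃ t, (∀ l, (t l).natAbs ≤ s) ∧ w * (zp τ t)⁻¹ ∈ N)
    (fun w s s' e hw => hw.imp id fun ⟨t, ht, h'⟩ => ⟨t, fun l => (ht l).trans e, h'⟩)
    (fun w => by
      by_cases hw : w ∈ T
      · obtain ⟨t, ht⟩ := h.2.2.2.1 w hw
        exact ⟨∑ l, (t l).natAbs, Or.inr ⟨t, fun l => Finset.single_le_sum
          (f := fun l => (t l).natAbs) (fun _ _ => Nat.zero_le _) (Finset.mem_univ l), ht⟩⟩
      · exact ⟨0, Or.inl hw⟩)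
  refine ⟨(r, s), by simp [hr], fun i => by simp [hr], fun j => by simp [hr], fun x _ y _ => ?_,
    fun x hx y hy z hz => hs _ ?_⟩
  · refine ⟨Quotient.out ((x * y⁻¹ : Fr b) : Fr b ⧸ T), by simp [hr], h.2.2.2.1 _ ?_⟩
    rw [gb_eq, QuotientGroup.out_eq']
  · simp only [List.mem_flatMap, List.mem_map]
    exact ⟨x, hx, y, hy, z, hz, rfl⟩

theorem lat_quot {T N : Subgroup G} {τ : Fin k → G} [hT : T.Normal] [N.Normal]
    (h : IsMark T N τ) :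
    Lat (T.map (QuotientGroup.mk' N)) (fun j => QuotientGroup.mk' N (τ j)) := by
  refine ⟨hT.map _ (QuotientGroup.mk'_surjective N), fun j => ⟨_, h.2.2.1 j, rfl⟩, ?_, ?_, ?_⟩
  · rintro _ ⟨x, hx, rfl⟩ _ ⟨y, hy, rfl⟩
    have := h.2.1 (Subgroup.commutator_mem_commutator hx hy)
    rw [← map_mul, ← map_mul]
    refine gb_eq.1 ?_
    rw [commutatorElement_def] at this
    rw [mul_inv_rev, ← mul_assoc]
    exact this
  · rintro _ ⟨x, hx, rfl⟩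
    obtain ⟨t, ht⟩ := h.2.2.2.1 x hx
    exact ⟨t, by rw [← map_zp]; exact (gb_eq.1 ht).symm⟩
  · intro t ht
    rw [← map_zp] at ht
    exact h.2.2.2.2 t ((QuotientGroup.eq_one_iff _).1 ht)

theorem mem_quot {T N : Subgroup G} [N.Normal] (h : N ≤ T) {g : G} :
    QuotientGroup.mk' N g ∈ T.map (QuotientGroup.mk' N) ↔ g ∈ T := by
  refine ⟨?_, fun hg => ⟨g, hg, rfl⟩⟩
  rintro ⟨x, hx, e⟩
  have := h (gb_eq.2 e.symm)
  simpa using T.mul_mem this hx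

theorem Cert.tr {b : ℕ} {T N : Subgroup (Fr b)} {τ : Fin k → Fr b} {r : List (Fr b)} {s : ℕ}
    [T.Normal] [N.Normal] (h : IsMark T N τ) (hc : Cert T N τ r s) :
    Tr (T.map (QuotientGroup.mk' N)) (fun j => QuotientGroup.mk' N (τ j))
      (QuotientGroup.mk' N '' {x | x ∈ r}) s := by
  refine ⟨?_, ⟨1, hc.1, map_one _⟩, fun j => ⟨_, hc.2.2.1 j, rfl⟩, ?_⟩
  · let S : Subgroup (Fr b ⧸ T) := Subgroup.ofDiv (QuotientGroup.mk' T '' {x | x ∈ r})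
      ⟨_, 1, hc.1, rfl⟩ (by
        rintro _ ⟨x, hx, rfl⟩ _ ⟨y, hy, rfl⟩
        obtain ⟨z, hz, t, ht⟩ := hc.2.2.2.1 x hx y hy
        refine ⟨z, hz, ?_⟩
        have : x * y⁻¹ * z⁻¹ ∈ T := by
          simpa using T.mul_mem (h.1 ht) (zp_mem h.2.2.1 t)
        rw [← map_inv, ← map_mul]
        exact (gb_eq.1 this).symm)
    have hS : S.comap (QuotientGroup.mk' T) = ⊤ := by
      rw [eq_top_iff, ← FreeGroup.closure_range_of, Subgroup.closure_le]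
      rintro _ ⟨i, rfl⟩
      exact ⟨_, hc.2.1 i, rfl⟩
    intro g
    obtain ⟨g, rfl⟩ := QuotientGroup.mk'_surjective N g
    have hg : g ∈ S.comap (QuotientGroup.mk' T) := by rw [hS]; trivial
    obtain ⟨x, hx, e⟩ := hg
    refine ⟨_, ⟨x, hx, rfl⟩, ?_⟩
    rw [← map_inv, ← map_mul]
    exact ⟨_, gb_eq.2 e.symm, rfl⟩
  · rintro _ ⟨x, hx, rfl⟩ _ ⟨y, hy, rfl⟩ _ ⟨z, hz, rfl⟩ hm
    rw [← map_inv, ← map_mul, ← map_mul] at hm ⊢
    rcases hc.2.2.2.2 x hx y hy z hz with h' | ⟨t, ht, h'⟩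
    · exact absurd ((mem_quot h.1).1 hm) h'
    · have e : QuotientGroup.mk' N (x * y * z⁻¹) = zp (fun j => QuotientGroup.mk' N (τ j)) t := by
        rw [← map_zp]
        exact gb_eq.1 h'
      rw [e, (lat_quot h).co_zp]
      exact (box_iff t s).1 ht

theorem free_main {b b' : ℕ} {T N : Subgroup (Fr b)} {τ : Fin k → Fr b} {r : List (Fr b)}
    {T' N' : Subgroup (Fr b')} {τ' : Fin k' → Fr b'} {r' : List (Fr b')} {s R : ℕ}
    [T.Normal] [N.Normal] [T.FiniteIndex] [T'.Normal] [N'.Normal]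
    (h : IsMark T N τ) (h' : IsMark T' N' τ') (hc : Cert T N τ r s) (hc' : Cert T' N' τ' r' s)
    {u : Fr b →* Fr b'} {v : Fr b' →* Fr b} (huv : Compat N N' u v) (hu : ∀ g ∈ T, u g ∈ T')
    (hv : ∀ g ∈ T', v g ∈ T)
    (hR : ∀ j t, u (τ j) * (zp τ' t)⁻¹ ∈ N' → ∀ l, (t l).natAbs ≤ R)
    (hR' : ∀ j t, v (τ' j) * (zp τ t)⁻¹ ∈ N → ∀ l, (t l).natAbs ≤ R) :
    ∃ (g : Fr b') (x : Fin b → Fr b') (y : Fin b' → Fr b),
      (∀ i, ∃ t, (∀ l, (t l).natAbs ≤ k * (s * R) + (k * (s * R) + s + 1 + k' * s)) ∧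
        ∃ z ∈ r', x i = zp τ' t * z) ∧
      (∀ i, ∃ t, (∀ l, (t l).natAbs ≤ k' * ((s + (k * (s * R) + s + 1 + k' * s)) * R)) ∧
        ∃ z ∈ r, y i = zp τ t * z) ∧
      (∀ i, x i * (g * u (FreeGroup.of i) * g⁻¹)⁻¹ ∈ N') ∧
        ∀ i, y i * (v (g⁻¹ * FreeGroup.of i * g))⁻¹ ∈ N := by
  have : (T.map (QuotientGroup.mk' N)).FiniteIndex :=
    ⟨fun e => Subgroup.FiniteIndex.index_ne_zero (H := T) (Nat.eq_zero_of_zero_dvd
      (e ▸ T.index_map_dvd (QuotientGroup.mk'_surjective N)))⟩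
  let ψ := QuotientGroup.map N N' u huv.1
  let φ := QuotientGroup.map N' N v huv.2.1
  have hψ : ∀ g, ψ (QuotientGroup.mk' N g) = QuotientGroup.mk' N' (u g) := fun _ => rfl
  have hφ : ∀ g, φ (QuotientGroup.mk' N' g) = QuotientGroup.mk' N (v g) := fun _ => rfl
  obtain ⟨g, H1, H2⟩ := pure (R := R) (lat_quot h) (lat_quot h') (Nat.cast_nonneg s)
    (Nat.cast_nonneg R) (hc.tr h) (hc'.tr h') ψ φ
    (fun g => by
      obtain ⟨g, rfl⟩ := QuotientGroup.mk'_surjective N g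
      exact gb_eq.1 (huv.2.2.1 g))
    (fun g => by
      obtain ⟨g, rfl⟩ := QuotientGroup.mk'_surjective N' g
      exact gb_eq.1 (huv.2.2.2 g))
    (by
      rintro _ ⟨g, hg, rfl⟩
      exact ⟨_, hu g hg, rfl⟩)
    (by
      rintro _ ⟨g, hg, rfl⟩
      exact ⟨_, hv g hg, rfl⟩)
    (fun j => by
      refine (box_iff _ _).1 (hR j _ (gb_eq.2 ?_))
      have := (lat_quot h').zp_co (g := QuotientGroup.mk' N' (u (τ j))) ⟨_, hu _ (h.2.2.1 j), rfl⟩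
      rw [← map_zp] at this
      exact this.symm)
    (fun j => by
      refine (box_iff _ _).1 (hR' j _ (gb_eq.2 ?_))
      have := (lat_quot h).zp_co (g := QuotientGroup.mk' N (v (τ' j))) ⟨_, hv _ (h'.2.2.1 j), rfl⟩
      rw [← map_zp] at this
      exact this.symm)
  obtain ⟨g, rfl⟩ := QuotientGroup.mk'_surjective N' g
  have K1 : ∀ i, ∃ x, (∃ t, (∀ l, (t l).natAbs ≤ k * (s * R) + (k * (s * R) + s + 1 + k' * s)) ∧
      ∃ z ∈ r', x = zp τ' t * z) ∧ x * (g * u (FreeGroup.of i) * g⁻¹)⁻¹ ∈ N' := by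
    intro i
    obtain ⟨_, ⟨z, hz, rfl⟩, t, ht, e⟩ := H1 _ ⟨_, hc.2.1 i, rfl⟩
    refine ⟨_, ⟨t, (box_iff _ _).2 (by exact_mod_cast ht), z, hz, rfl⟩, gb_eq.2 ?_⟩
    rw [hψ, ← map_zp, ← map_inv, ← map_mul, ← map_mul, ← map_mul] at e
    exact e.symm
  have K2 : ∀ i, ∃ y, (∃ t, (∀ l, (t l).natAbs ≤ k' * ((s + (k * (s * R) + s + 1 + k' * s)) * R)) ∧
      ∃ z ∈ r, y = zp τ t * z) ∧ y * (v (g⁻¹ * FreeGroup.of i * g))⁻¹ ∈ N := by
    intro i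
    obtain ⟨_, ⟨z, hz, rfl⟩, t, ht, e⟩ := H2 _ ⟨_, hc'.2.1 i, rfl⟩
    refine ⟨_, ⟨t, (box_iff _ _).2 (by exact_mod_cast ht), z, hz, rfl⟩, gb_eq.2 ?_⟩
    rw [← map_zp, ← map_inv, ← map_mul, ← map_mul, ← map_mul, hφ] at e
    exact e.symm
  choose x hx hx' using K1
  choose y hy hy' using K2
  exact ⟨g, x, y, hx, hy, hx', hy'⟩

end MVAAux

end Pool.Agent.P.MP_257122_al
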