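import Pool.Agent.P.MP_257122_al.GRes
import Pool.Agent.P.MP_257122_al.GBasic
import Pool.Agent.P.MP_257122_al.MVA2

/-!
# Isomorphisms of virtually abelian groups up to inner automorphisms

PLAN.  Search exact transversals `r`, `r'` (lists; pairwise inequivalent modulo `T`, covering:
`1` and all `s * x^(±1)` are in `T r`) and a size `s` such that the exponent vectors `t` in
`r_a r_b ≡ zp τ t * r_c`, `r_a τ_j r_a⁻¹ ≡ zp τ t`, `x ≡ zp τ t * r_a` (generators `x`) modulo `N`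
are bounded by `s`, on both sides.  Output all pairs with `u x = zp τ' t * r'`, `v y = zp τ t * r`,
`|t| ≤ B`, `B` an explicit crude function of `s + R + k + k' + length` (`MV.box`, `MV.listsLe`,
`MV.pi`, or `CS`-lists built by `flatMap`).
PURE PART, in `Q = F / N`, `Q' = F' / N'`, `ψ : Q ≃* Q'`, additive notation on `T' = ℤ ^ k'`,
`θ = ψ | T`, `q = |Q / T|`: `ψ r_a = t_a · r'_(π a)`.  From `ψ r_a ψ r_b = ψ (r_a r_b)`:
`t_a + a • t_b + c' (π a, π b) = θ c (a, b) + t_(a b)`.  Sum over `b`, `σ = ∑ t_b`: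
`q t_a = σ - a • σ + bounded`.  Write `σ = q w + σ₁` with `0 ≤ σ₁ < q`; conjugating by `-w`
replaces `t_a` by `t_a - w + a • w = (σ₁ - a • σ₁ + bounded) / q`.  Conjugation by an element
of `T'` does not change `θ`.  For the inverse: `y = t' · ψ r_a` with `t'` bounded, so
`ψ⁻¹ y = θ⁻¹ t' · r_a`.
-/

namespace Pool.Agent.P.MP_257122_al

variable {A : Type} [Rep A] {b b' k k' R : A → ℕ} {T N : ∀ a, Subgroup (Fr (b a))}
  {T' N' : ∀ a, Subgroup (Fr (b' a))} {τ : ∀ a, Fin (k a) → Fr (b a)}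
  {τ' : ∀ a, Fin (k' a) → Fr (b' a)}

namespace MVAAux

open FOpsAux

theorem mv_map {U W : A → Type} [∀ a, Rep (U a)] [∀ a, Rep (W a)] {Q : ∀ a, U a → Prop}
    {Q' : ∀ a, W a → Prop} (h : MV Q) (F : ∀ a, U a → W a)
    (hF : CS (fun p : Σ a, U a => F p.1 p.2)) (e : ∀ a x, Q a x → Q' a (F a x)) : MV Q' :=
  h.bind (MV.of_cs (f := fun p : {p : Σ a, U a // Q p.1 p.2} => F p.1.1 p.1.2)
    (hF.comp (CS.val CS.id)) fun p _ => e _ _ p.2)

theorem mv_words {r : ∀ a, List (Fr (b a))} {B : A → ℕ} (hk : CS k) (hτ : CS τ) (hr : CS r)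
    (hB : CS B) : MV (fun a (W : List (Fr (b a))) =>
      ∀ t, (∀ l, (t l).natAbs ≤ B a) → ∀ z ∈ r a, zp (τ a) t * z ∈ W) := by
  refine mv_map (MV.box (CFin.fin hk) Disc.fin hB)
    (fun a L => L.flatMap fun t => (r a).map fun z => zp (τ a) t * z) ?_ ?_
  · refine CS.flatMap (CS.lam (CS.map (CS.lam ?_) (hr.comp (s1.comp s1)))) s2
    exact CS.mul MulF.free (CS.zp MulF.free InvF.free OneF.free
      (hk.comp (s1.comp (s1.comp s1))) (hτ.comp (s1.comp (s1.comp s1))) (s2.comp s1)) s2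
  · intro a L hL t ht z hz
    simp only [List.mem_flatMap, List.mem_map]
    exact ⟨t, (hL t).2 ht, z, hz, rfl⟩

theorem mv_funs {U : A → Type} [∀ a, Rep (U a)] {n : A → ℕ} {W : ∀ a, List (U a)} (hn : CS n)
    (hW : CS W) : MV (fun a (L : List (Fin (n a) → U a)) => ∀ f, (∀ i, f i ∈ W a) → f ∈ L) := by
  refine mv_map (CFin.pi (CFin.fin hn) Disc.fin (CFin.fin (CS.length hW)))
    (fun a L => L.map fun g i => (W a).get (g i)) ?_ ?_
  · refine CS.map (CS.lam (CS.lam ?_)) s2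
    exact CS.get (hW.comp (s1.comp (s1.comp s1))) (CS.app (s2.comp s1) s2)
  · intro a L hL f hf
    choose g hg using fun i => List.get_of_mem (hf i)
    exact List.mem_map.2 ⟨g, hL.2 g, funext hg⟩

theorem mv_side {r : ∀ a, List (Fr (b a))} {B n : A → ℕ} (hn : CS n) (hk : CS k) (hτ : CS τ)
    (hr : CS r) (hB : CS B) : MV (fun a (L : List (Fin (n a) → Fr (b a))) =>
      ∀ f, (∀ i, ∃ t, (∀ l, (t l).natAbs ≤ B a) ∧ ∃ z ∈ r a, f i = zp (τ a) t * z) → f ∈ L) := by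
  refine (mv_words hk hτ hr hB).bind ((mv_funs (hn.comp v1) v2).mono ?_)
  intro p L _ _ hL f hf
  refine hL f fun i => ?_
  obtain ⟨t, ht, z, hz, e⟩ := hf i
  rw [e]
  exact p.2 t ht z hz

theorem cs_inN {w : ∀ a, Fr (b a)} (hk : CS k) (hN : CS N) (hτ : CS τ) (hw : CS w) :
    CS (fun a => ∃ t, w a * (zp (τ a) t)⁻¹ ∈ N a) :=
  CS.ex (Enum.pi (CFin.fin hk) Disc.fin Enum.int) (CS.memSubgroup (hN.comp s1)
    (CS.mul MulF.free (hw.comp s1) (CS.inv InvF.free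
      (CS.zp MulF.free InvF.free OneF.free (hk.comp s1) (hτ.comp s1) s2))))

theorem cs_bdN {w : ∀ a, Fr (b a)} {s : A → ℕ} (hk : CS k) (hN : CS N) (hτ : CS τ) (hw : CS w)
    (hs : CS s) : CS (fun a => ∃ t, (∀ l, (t l).natAbs ≤ s a) ∧ w a * (zp (τ a) t)⁻¹ ∈ N a) :=
  CS.ex (Enum.pi (CFin.fin hk) Disc.fin Enum.int) (CS.and
    (CS.all (CFin.fin (hk.comp s1)) (CS.le LeF.nat (CS.natAbs (CS.app (s2.comp s1) s2))
      (hs.comp (s1.comp s1))))
    (CS.memSubgroup (hN.comp s1)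
    (CS.mul MulF.free (hw.comp s1) (CS.inv InvF.free
      (CS.zp MulF.free InvF.free OneF.free (hk.comp s1) (hτ.comp s1) s2)))))

theorem cs_cert {r : ∀ a, List (Fr (b a))} {s : A → ℕ} (hb : CS b) (hk : CS k) (hN : CS N)
    (hτ : CS τ) (hT : CS (fun x : Σ a, Fr (b a) => ¬ x.2 ∈ T x.1)) (hr : CS r) (hs : CS s) :
    CS (fun a => Cert (T a) (N a) (τ a) (r a) (s a)) := by
  refine CS.and (CS.memList (Disc.free Disc.fin Haus.fin) (CS.one OneF.free) hr) (CS.and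
    (CS.all (CFin.fin hb) (CS.memList (Disc.free Disc.fin Haus.fin) (CS.freeOf s2) (hr.comp s1)))
    (CS.and (CS.all (CFin.fin hk) (CS.memList (Disc.free Disc.fin Haus.fin)
      (CS.app (hτ.comp s1) s2) (hr.comp s1))) (CS.and ?_ ?_)))
  · refine CS.allMem hr (CS.allMem (hr.comp s1) (CS.exMem (hr.comp (s1.comp s1)) ?_))
    exact cs_inN (hk.comp (s1.comp (s1.comp s1))) (hN.comp (s1.comp (s1.comp s1)))
      (hτ.comp (s1.comp (s1.comp s1)))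
      (CS.mul MulF.free (CS.mul MulF.free (s2.comp (s1.comp s1)) (CS.inv InvF.free (s2.comp s1)))
        (CS.inv InvF.free s2))
  · refine CS.allMem hr (CS.allMem (hr.comp s1) (CS.allMem (hr.comp (s1.comp s1)) ?_))
    have hw : CS (fun p : Σ q : (Σ q : (Σ a, Fr (b a)), Fr (b q.1)), Fr (b q.1.1) =>
        p.1.1.2 * p.1.2 * p.2⁻¹) :=
      CS.mul MulF.free (CS.mul MulF.free (s2.comp (s1.comp s1)) (s2.comp s1))
        (CS.inv InvF.free s2)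
    exact CS.or (hT.comp (CS.smk0 (s1.comp (s1.comp s1)) hw))
      (cs_bdN (hk.comp (s1.comp (s1.comp s1))) (hN.comp (s1.comp (s1.comp s1)))
        (hτ.comp (s1.comp (s1.comp s1))) hw (hs.comp (s1.comp (s1.comp s1))))

theorem mv_cert (hb : CS b) (hk : CS k) (hN : CS N) (hτ : CS τ)
    (hT : CS (fun x : Σ a, Fr (b a) => ¬ x.2 ∈ T x.1))
    (hM : ∀ a, (T a).Normal ∧ (N a).Normal ∧ (T a).FiniteIndex ∧ IsMark (T a) (N a) (τ a)) :
    MV (fun a (x : List (Fr (b a)) × ℕ) => Cert (T a) (N a) (τ a) x.1 x.2) := by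
  refine MV.search (Enum.prod (Enum.list (Enum.free (Enum.fin hb))) Enum.nat)
    (cs_cert (hb.comp s1) (hk.comp s1) (hN.comp s1) (hτ.comp s1)
      (hT.comp (CS.smk0 (s1.comp s1) s2)) (CS.fst s2) (CS.snd s2)) (fun _ _ h => h) fun a _ => ?_
  obtain ⟨h1, -, h3, h4⟩ := hM a
  exact exists_cert h4

theorem mv_out {r : ∀ a, List (Fr (b a))} {r' : ∀ a, List (Fr (b' a))} {B B' : A → ℕ} (hb : CS b)
    (hb' : CS b') (hk : CS k) (hk' : CS k') (hτ : CS τ) (hτ' : CS τ') (hr : CS r) (hr' : CS r')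
    (hB : CS B) (hB' : CS B') :
    MV (fun a (L : List ((Fin (b a) → Fr (b' a)) × (Fin (b' a) → Fr (b a)))) => ∀ x y,
      (∀ i, ∃ t, (∀ l, (t l).natAbs ≤ B' a) ∧ ∃ z ∈ r' a, x i = zp (τ' a) t * z) →
      (∀ i, ∃ t, (∀ l, (t l).natAbs ≤ B a) ∧ ∃ z ∈ r a, y i = zp (τ a) t * z) → (x, y) ∈ L) := by
  refine mv_map ((mv_side hb hk' hτ' hr' hB').prod (mv_side hb' hk hτ hr hB))
    (fun a L => L.1.flatMap fun x => L.2.map fun y => (x, y)) ?_ ?_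
  · exact CS.flatMap (CS.lam (CS.map (CS.lam (CS.pair (s2.comp s1) s2)) (CS.snd (s2.comp s1))))
      (CS.fst s2)
  · intro a L hL x y hx hy
    simp only [List.mem_flatMap, List.mem_map]
    exact ⟨x, hL.1 x hx, y, hL.2 y hy, rfl⟩

end MVAAux

open MVAAux FOpsAux in
theorem mv_va (hb : CS b) (hb' : CS b') (hk : CS k) (hk' : CS k') (hR : CS R) (hN : CS N)
    (hN' : CS N') (hτ : CS τ) (hτ' : CS τ')
    (hT : CS (fun x : Σ a, Fr (b a) => ¬ x.2 ∈ T x.1))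
    (hT' : CS (fun x : Σ a, Fr (b' a) => ¬ x.2 ∈ T' x.1))
    (hM : ∀ a, (T a).Normal ∧ (N a).Normal ∧ (T a).FiniteIndex ∧ IsMark (T a) (N a) (τ a))
    (hM' : ∀ a, (T' a).Normal ∧ (N' a).Normal ∧ (T' a).FiniteIndex ∧ IsMark (T' a) (N' a) (τ' a)) :
    MV (fun a (L : List ((Fin (b a) → Fr (b' a)) × (Fin (b' a) → Fr (b a)))) =>
      ∀ u v, Compat (N a) (N' a) u v → (∀ g ∈ T a, u g ∈ T' a) → (∀ g ∈ T' a, v g ∈ T a) →
        (∀ j t, u (τ a j) * (zp (τ' a) t)⁻¹ ∈ N' a → ∀ l, (t l).natAbs ≤ R a) →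
        (∀ j t, v (τ' a j) * (zp (τ a) t)⁻¹ ∈ N a → ∀ l, (t l).natAbs ≤ R a) →
        ∃ h : Fr (b' a), ∃ x ∈ L,
          (∀ i, x.1 i * (h * u (FreeGroup.of i) * h⁻¹)⁻¹ ∈ N' a) ∧
            ∀ i, x.2 i * (v (h⁻¹ * FreeGroup.of i * h))⁻¹ ∈ N a) := by
  refine ((mv_cert hb hk hN hτ hT hM).prod (mv_cert hb' hk' hN' hτ' hT' hM')).bind ?_
  have hs := nadd (CS.snd (CS.fst (v2 (β := fun a => (List (Fr (b a)) × ℕ) × List (Fr (b' a)) × ℕ)
    (Q := fun p => Cert (T p.1) (N p.1) (τ p.1) p.2.1.1 p.2.1.2 ∧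
      Cert (T' p.1) (N' p.1) (τ' p.1) p.2.2.1 p.2.2.2)))) (CS.snd (CS.snd v2))
  have h1 := nmul (hk.comp v1) (nmul hs (hR.comp v1))
  have h2 := nadd (nadd (nadd h1 hs) (CS.one OneF.nat)) (nmul (hk'.comp v1) hs)
  refine (mv_out (hb.comp v1) (hb'.comp v1) (hk.comp v1) (hk'.comp v1) (hτ.comp v1) (hτ'.comp v1)
    (CS.fst (CS.fst v2)) (CS.fst (CS.snd v2))
    (nmul (hk'.comp v1) (nmul (nadd hs h2) (hR.comp v1))) (nadd h1 h2)).mono ?_
  rintro ⟨⟨a, p⟩, hc, hc'⟩ L - - hL u v huv hu hv hR hR'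
  obtain ⟨i1, i2, i3, h⟩ := hM a
  obtain ⟨i4, i5, -, h'⟩ := hM' a
  obtain ⟨g, x, y, hx, hy, e⟩ := free_main h h' (hc.mono (Nat.le_add_right p.1.2 p.2.2))
    (hc'.mono (Nat.le_add_left p.2.2 p.1.2)) huv hu hv hR hR'
  exact ⟨g, (x, y), hL x y hx hy, e⟩

end Pool.Agent.P.MP_257122_al
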