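import Pool.Agent.P.MP_257122_al.NModP
import Pool.Agent.P.MP_257122_al.KIface

/-!
# The core: completeness

PLAN (`core_complete`).  `β` fixes `e₀`, the structure tensor and `ρ(z) e₀`, so conjugation by `β`
fixes `ρ(z)` for `z` in the second block.  For `g` in the first block, `inlF g = n * inrF g` with `n`
in `N⁺ = comap fold N`, so `y = β ρ(g) β⁻¹ ρ(g)⁻¹ = ρ(n')`, `n' ∈ N⁺`.  Also `y e₀` lies in the
span of the orbit of the first block (`β` preserves it, `Model.ok.eq_sum`), which is fixed by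
the matrix of the retraction `inlF ∘ fold` (`Model.ok.endo`); so `y = ρ(inlF (fold n'))`.  Define
`u x = fold n' * x` on generators, `v` likewise for `β⁻¹`; then `Compat S S' u v`, `Compat.iso`.
PLAN (`core_exists`).  `exists_cover` for `S ⊓ S'` gives `σ`; `γ x` is the block diagonal part of
`σ (of x)` (entries with equal weights), a homomorphism on parabolic matrices that kills unipotent
ones; `kerI (append γ γ)` is mapped into `fil wt 1` by `algOf (append σ σ)`, its power `c + 1` to `0`.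
-/

namespace Pool.Agent.P.MP_257122_al

variable {b : ℕ} {N S S' : Subgroup (Fr b)}

namespace NCompl

open Matrix

theorem fold_inl (w : Fr b) : fold b (inlF b b w) = w := by
  have : (fold b).comp (inlF b b) = MonoidHom.id _ :=
    FreeGroup.ext_hom _ _ fun x => by simp [fold, inlF]
  exact DFunLike.congr_fun this w

theorem fold_inr (w : Fr b) : fold b (inrF b b w) = w := by
  have : (fold b).comp (inrF b b) = MonoidHom.id _ :=
    FreeGroup.ext_hom _ _ fun x => by
      rw [MonoidHom.comp_apply, inrF, FreeGroup.map.of, fold, FreeGroup.lift_apply_of,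
        Fin.append_right]
      rfl
  exact DFunLike.congr_fun this w

/-- Conjugation by `β` is induced by a word. -/
theorem key {m e : ℕ} {γ : Fin b → GL (Fin m) ℚ} {M : Model (b + b)}
    (hM : M.ok (kerI (Fin.append γ γ)) e) {β : GL (Fin M.1) ℚ}
    (h0 : β.val *ᵥ M.2.2.2.1 = M.2.2.2.1)
    (h1 : ∀ w, β * M.rho (inrF b b w) * β⁻¹ = M.rho (inrF b b w))
    (h2 : ∀ x ∈ orbL (fun x => M.2.2.1 (Fin.castAdd b x)) M.2.2.2.1,
      β.val *ᵥ x ∈ orbL (fun x => M.2.2.1 (Fin.castAdd b x)) M.2.2.2.1)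
    (h3 : ∀ y ∈ M.big N, β * y * β⁻¹ ∈ M.big N) (w : Fr b) :
    ∃ w', w' * w⁻¹ ∈ N ∧ β * M.rho (inlF b b w) * β⁻¹ = M.rho (inlF b b w') := by
  have hn : inlF b b w * (inrF b b w)⁻¹ ∈ N.comap (fold b) := by
    rw [Subgroup.mem_comap, map_mul, map_inv, fold_inl, fold_inr, mul_inv_cancel]
    exact N.one_mem
  obtain ⟨n, hn', e1⟩ := h3 _ ⟨_, hn, rfl⟩
  have e2 : β * M.rho (inlF b b w) * β⁻¹ = M.rho (n * inrF b b w) := by
    rw [map_mul, e1, ← h1 w, map_mul, map_inv]
    group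
  refine ⟨fold b (n * inrF b b w), ?_, ?_⟩
  · rw [map_mul, fold_inr, mul_inv_cancel_right]
    exact hn'
  obtain ⟨α, hα⟩ := hM.endo ((inlF b b).comp (fold b)) fun w => by
    rw [lift_append_self, lift_append_self, MonoidHom.comp_apply, fold_inl]
  have hα' : ∀ W, α *ᵥ ((M.rho W).val *ᵥ M.2.2.2.1) =
      (M.rho (inlF b b (fold b W))).val *ᵥ M.2.2.2.1 := fun W => by
    have := hα (MonoidAlgebra.of ℚ _ W)
    rw [MonoidAlgebra.of_apply, MonoidAlgebra.mapDomain_single, ← MonoidAlgebra.of_apply,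
      ← MonoidAlgebra.of_apply, algOf_of, algOf_of] at this
    exact this
  have hfix : ∀ x ∈ orbL (fun x => M.2.2.1 (Fin.castAdd b x)) M.2.2.2.1, α *ᵥ x = x := by
    intro x hx
    rw [orbL_eq] at hx
    induction hx using AddSubgroup.closure_induction with
    | mem x h =>
      obtain ⟨u, rfl⟩ := h
      have := hα' (inlF b b u)
      rw [fold_inl, Model.rho, lift_inlF] at this
      exact this
    | zero => exact mulVec_zero _
    | add x y _ _ hx hy => rw [mulVec_add, hx, hy]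
    | neg x _ hx => rw [mulVec_neg, hx]
  have h0' : (β⁻¹).val *ᵥ M.2.2.2.1 = M.2.2.2.1 := by
    conv_lhs => rw [← h0]
    rw [mulVec_mulVec, Units.inv_mul, one_mulVec]
  have hmem : (M.rho (n * inrF b b w)).val *ᵥ M.2.2.2.1 ∈
      orbL (fun x => M.2.2.1 (Fin.castAdd b x)) M.2.2.2.1 := by
    rw [← e2, Units.val_mul, Units.val_mul, ← mulVec_mulVec, h0', ← mulVec_mulVec]
    refine h2 _ ?_
    rw [orbL_eq]
    exact AddSubgroup.subset_closure ⟨w, by rw [Model.rho, lift_inlF]⟩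
  have e3 := (hα' _).symm.trans (hfix _ hmem)
  have e4 := hM.eq_zero (a := MonoidAlgebra.of ℚ _ (inlF b b (fold b (n * inrF b b w))) -
    MonoidAlgebra.of ℚ _ (n * inrF b b w)) (by
      rw [map_sub, algOf_of, algOf_of, sub_mulVec]
      exact sub_eq_zero.2 e3)
  rw [map_sub, algOf_of, algOf_of, sub_eq_zero] at e4
  rw [e2]
  exact Units.ext e4.symm

/-- Conjugation by `β` is induced by an endomorphism. -/
theorem key' [N.Normal] {n : ℕ} {ρ : Fr b →* GL (Fin n) ℚ} {β : GL (Fin n) ℚ}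
    (h : ∀ w, ∃ w', w' * w⁻¹ ∈ N ∧ β * ρ w * β⁻¹ = ρ w') :
    ∃ u : Fr b →* Fr b, (∀ w, u w * w⁻¹ ∈ N) ∧ ∀ w, β * ρ w * β⁻¹ = ρ (u w) := by
  choose f h1 h2 using h
  refine ⟨FreeGroup.lift fun x => f (FreeGroup.of x),
    gb_gens _ fun x => by rw [FreeGroup.lift_apply_of]; exact h1 _, fun w => ?_⟩
  have : (MulAut.conj β).toMonoidHom.comp ρ =
      ρ.comp (FreeGroup.lift fun x => f (FreeGroup.of x)) :=
    FreeGroup.ext_hom _ _ fun x => by
      rw [MonoidHom.comp_apply, MonoidHom.comp_apply, FreeGroup.lift_apply_of, ← h2]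
      rfl
  exact DFunLike.congr_fun this w

variable {n : ℕ}

/-- The block diagonal part. -/
def dg (wt : Fin n → ℕ) : Matrix (Fin n) (Fin n) ℚ →ₗ[ℚ] Matrix (Fin n) (Fin n) ℚ where
  toFun x := Matrix.of fun p q => if wt p = wt q then x p q else 0
  map_add' x y := by
    ext p q
    simp only [of_apply, Matrix.add_apply]
    split_ifs <;> simp
  map_smul' c x := by
    ext p q
    simp only [of_apply, Matrix.smul_apply, RingHom.id_apply]
    split_ifs <;> simp

variable {wt : Fin n → ℕ} {x y : Matrix (Fin n) (Fin n) ℚ}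

theorem dg_apply (x : Matrix (Fin n) (Fin n) ℚ) (p q : Fin n) :
    dg wt x p q = if wt p = wt q then x p q else 0 := rfl

theorem dg_one : dg wt 1 = 1 := by
  ext p q
  rw [dg_apply]
  split_ifs with h
  · rfl
  · exact (one_apply_ne fun e => h (by rw [e])).symm

theorem dg_mul (hx : x ∈ fil wt 0) (hy : y ∈ fil wt 0) : dg wt (x * y) = dg wt x * dg wt y := by
  ext p q
  rw [dg_apply, mul_apply, mul_apply]
  split_ifs with h
  · refine Finset.sum_congr rfl fun r _ => ?_
    rw [dg_apply, dg_apply]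
    rcases lt_trichotomy (wt p) (wt r) with h1 | h1 | h1
    · rw [hx p r (by omega), if_neg h1.ne, zero_mul, zero_mul]
    · rw [if_pos h1, if_pos (h1.symm.trans h)]
    · rw [hy r q (by omega), if_neg h1.ne', mul_zero, zero_mul]
  · refine (Finset.sum_eq_zero fun r _ => ?_).symm
    rw [dg_apply, dg_apply]
    by_cases h1 : wt p = wt r
    · rw [if_neg (fun h2 : wt r = wt q => h (h1.trans h2)), mul_zero]
    · rw [if_neg h1, zero_mul]

theorem dg_fil (hx : x ∈ fil wt 1) : dg wt x = 0 := by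
  ext p q
  rw [dg_apply]
  split_ifs with h
  · exact hx p q (by omega)
  · rfl

theorem fil_of_dg (hx : x ∈ fil wt 0) (h : dg wt x = 0) : x ∈ fil wt 1 := by
  intro p q hpq
  by_cases h1 : wt p = wt q
  · have := congrFun (congrFun h p) q
    rwa [dg_apply, if_pos h1] at this
  · exact hx p q (by omega)

/-- The block diagonal part of a representation. -/
def dgH {G : Type} [Group G] (σ : G →* GL (Fin n) ℚ) (h : ∀ g, IsPar wt (σ g)) :
    G →* GL (Fin n) ℚ where
  toFun g := ⟨dg wt (σ g).val, dg wt (σ g).inv,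
    by rw [← dg_mul (h g).1 (h g).2, (σ g).val_inv, dg_one],
    by rw [← dg_mul (h g).2 (h g).1, (σ g).inv_val, dg_one]⟩
  map_one' := Units.ext (by
    show dg wt (σ 1).val = 1
    rw [map_one, Units.val_one, dg_one])
  map_mul' g g' := Units.ext (by
    show dg wt (σ (g * g')).val = dg wt (σ g).val * dg wt (σ g').val
    rw [map_mul, Units.val_mul, dg_mul (h g).1 (h g').1])

theorem lift_of {G : Type} [Group G] (σ : Fr b →* G) :
    (FreeGroup.lift fun x => σ (FreeGroup.of x)) = σ :=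
  FreeGroup.ext_hom _ _ fun _ => FreeGroup.lift_apply_of

end NCompl

open NCompl Matrix

theorem core_complete [N.Normal] [S.Normal] [S'.Normal] {m e : ℕ} {γ : Fin b → GL (Fin m) ℚ}
    {M : Model (b + b)} (hM : M.ok (kerI (Fin.append γ γ)) e)
    (hγ : N ≤ (FreeGroup.lift γ).ker) (hS : S ≤ N) (hS' : S' ≤ N)
    (hk : ∀ w ∈ N, M.rho (inlF b b w) = 1 → w ∈ S ⊓ S') {β : GL (Fin M.1) ℚ}
    (hβ : M.Pass (e + 1) N S S' β) : Nonempty ((Fr b ⧸ S) ≃* (Fr b ⧸ S')) := by
  obtain ⟨⟨hT, hL⟩, hN, hSS⟩ := hβ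
  have h0 : β.val *ᵥ M.2.2.2.1 = M.2.2.2.1 := (act_vecT _ β).1 (hT _ (by simp [Model.tens]))
  have hm := (act_mulT _ β).1 (hT (mulT M.2.2.2.2) (by simp [Model.tens]))
  have h1 : ∀ w, β * M.rho (inrF b b w) * β⁻¹ = M.rho (inrF b b w) := by
    intro w
    have : (MulAut.conj β).toMonoidHom.comp (M.rho.comp (inrF b b)) = M.rho.comp (inrF b b) := by
      refine FreeGroup.ext_hom _ _ fun z => Units.ext ?_
      have e1 : M.rho.comp (inrF b b) (FreeGroup.of z) = M.2.2.1 (Fin.natAdd b z) := by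
        simp [Model.rho, inrF]
      have e2 := hM.eq_sum (MonoidAlgebra.of ℚ _ (FreeGroup.of (Fin.natAdd b z)))
      rw [algOf_of, FreeGroup.lift_apply_of] at e2
      have e3 := (act_vecT _ β).1 (hT (vecT ((M.2.2.1 (Fin.natAdd b z)).val *ᵥ M.2.2.2.1))
        (List.mem_cons_of_mem _ (List.mem_cons_of_mem _ ((List.mem_ofFn' _ _).2 ⟨z, rfl⟩))))
      have e4 := hm ((M.2.2.1 (Fin.natAdd b z)).val *ᵥ M.2.2.2.1)
      rw [e3, ← e2] at e4
      rw [MonoidHom.comp_apply, e1]
      exact e4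
    exact DFunLike.congr_fun this w
  have hO := hL (orbL (fun x => M.2.2.1 (Fin.castAdd b x)) M.2.2.2.1,
    orbL (fun x => M.2.2.1 (Fin.castAdd b x)) M.2.2.2.1) (by simp [Model.lats])
  obtain ⟨u, hu1, hu2⟩ := key' (N := N) (ρ := M.rho.comp (inlF b b)) (β := β)
    (key hM h0 h1 (fun x hx => hO.le ⟨x, hx, rfl⟩) hN.1)
  obtain ⟨v, hv1, hv2⟩ := key' (N := N) (ρ := M.rho.comp (inlF b b)) (β := β⁻¹)
    (key hM (by
      conv_lhs => rw [← h0]
      rw [mulVec_mulVec, Units.inv_mul, one_mulVec]) (fun w => by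
      conv_lhs => rw [← h1 w]
      group) (fun x hx => by
      obtain ⟨x', hx', rfl⟩ := hO.ge hx
      change (β⁻¹).val *ᵥ (β.val *ᵥ x') ∈ _
      rwa [mulVec_mulVec, Units.inv_mul, one_mulVec]) (fun y hy => by
      rw [inv_inv]
      exact hN.2 y hy))
  have hk' : ∀ w w', w * w'⁻¹ ∈ N → M.rho.comp (inlF b b) w = M.rho.comp (inlF b b) w' →
      w * w'⁻¹ ∈ S ⊓ S' := fun w w' h e => hk _ h (by
    change M.rho.comp (inlF b b) _ = 1
    rw [map_mul, map_inv, e, mul_inv_cancel])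
  have him : ∀ (T : Subgroup (Fr b)) y, y ∈ M.im T ↔ ∃ s ∈ T, M.rho.comp (inlF b b) s = y := by
    intro T y
    simp only [Model.im, Subgroup.mem_map, MonoidHom.comp_apply, Model.rho, lift_inlF]
  refine Compat.iso (u := u) (v := v) ⟨fun y hy => ?_, fun y hy => ?_, fun g => ?_, fun g => ?_⟩
  · obtain ⟨s, hs, e⟩ := (him _ _).1 (hSS.1 _ ((him _ _).2 ⟨y, hy, rfl⟩))
    have := (hk' (u y) s (by
      simpa using N.mul_mem (N.mul_mem (hu1 y) (hS hy)) (N.inv_mem (hS' hs)))
      (by rw [e, hu2])).2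
    simpa using S'.mul_mem this hs
  · obtain ⟨s, hs, e⟩ := (him _ _).1 (hSS.2 _ ((him _ _).2 ⟨y, hy, rfl⟩))
    have := (hk' (v y) s (by
      simpa using N.mul_mem (N.mul_mem (hv1 y) (hS' hy)) (N.inv_mem (hS hs)))
      (by rw [e, ← hv2, inv_inv])).1
    simpa using S.mul_mem this hs
  · refine (hk' _ _ (by simpa [mul_assoc] using N.mul_mem (hv1 (u g)) (hu1 g)) ?_).1
    rw [← hv2, ← hu2]
    group
  · refine (hk' _ _ (by simpa [mul_assoc] using N.mul_mem (hu1 (v g)) (hv1 g)) ?_).2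
    rw [← hu2, ← hv2]
    group

theorem core_exists [N.Normal] [S.Normal] [S'.Normal] (hN : VAb N) (hS : S ≤ N) (hS' : S' ≤ N)
    (hG : FinRank (Fr b ⧸ S)) (hG' : FinRank (Fr b ⧸ S')) (hn : NilMod N S) (hn' : NilMod N S') :
    ∃ (m e : ℕ) (γ : Fin b → GL (Fin m) ℚ), N ≤ (FreeGroup.lift γ).ker ∧
      ∀ M : Model (b + b), M.ok (kerI (Fin.append γ γ)) e →
        ∀ w ∈ N, M.rho (inlF b b w) = 1 → w ∈ S ⊓ S' := by
  obtain ⟨n, wt, c, σ, ⟨hc, hpar, huni⟩, hker⟩ :=
    exists_cover N (S ⊓ S') hN (inf_le_left.trans hS) (hn.inf hn') (hG.quot_inf hG')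
  refine ⟨n, c, fun x => dgH σ hpar (FreeGroup.of x), fun w hw => ?_, fun M hM w hw h1 => ?_⟩
  · rw [lift_of, MonoidHom.mem_ker]
    refine Units.ext ?_
    have := dg_fil (huni w hw)
    rw [map_sub, dg_one, sub_eq_zero] at this
    exact this
  set B := algOf (Fin.append (fun x => σ (FreeGroup.of x)) fun x => σ (FreeGroup.of x)) with hB
  have hBof : ∀ W, B (MonoidAlgebra.of ℚ _ W) = (σ (fold b W)).val := fun W => by
    rw [hB, algOf_of, lift_append_self, lift_of]
  have h2 : ∀ a, B a ∈ fil wt 0 ∧ algOf (Fin.append (fun x => dgH σ hpar (FreeGroup.of x))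
      fun x => dgH σ hpar (FreeGroup.of x)) a = dg wt (B a) := by
    intro a
    induction a using MonoidAlgebra.induction_on with
    | of W =>
      rw [hBof, algOf_of, lift_append_self, lift_of]
      exact ⟨(hpar _).1, rfl⟩
    | add f g hf hg => rw [map_add, map_add, map_add, hf.2, hg.2]; exact ⟨add_mem hf.1 hg.1, rfl⟩
    | smul r f hf =>
      rw [map_smul, map_smul, map_smul, hf.2]
      exact ⟨Submodule.smul_mem _ _ hf.1, rfl⟩
  have h3 : ∀ k, ∀ a ∈ kerI (Fin.append (fun x => dgH σ hpar (FreeGroup.of x))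
      fun x => dgH σ hpar (FreeGroup.of x)) ^ k, B a ∈ fil wt k := by
    intro k
    induction k with
    | zero => exact fun a _ => (h2 a).1
    | succ k ih =>
      intro a ha
      rw [pow_succ] at ha
      refine Submodule.mul_induction_on ha (fun x hx y hy => ?_) fun x y hx hy => ?_
      · rw [map_mul]
        exact fil_mul' (ih x hx) (fil_of_dg (h2 y).1 ((h2 y).2.symm.trans hy))
      · rw [map_add]
        exact add_mem hx hy
  have h4 := h3 _ _ ((hM.2.2.2.1 (MonoidAlgebra.of ℚ _ (inlF b b w) - 1)).1 (by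
    rw [map_sub, map_one, algOf_of]
    change ((M.rho (inlF b b w)).val - 1) *ᵥ _ = 0
    rw [h1, Units.val_one, sub_self, zero_mulVec]))
  rw [map_sub, map_one, hBof, fold_inl] at h4
  refine hker ⟨Units.ext (sub_eq_zero.1 (Matrix.ext fun p q => h4 p q ?_)), hw⟩
  have := hc p
  omega

end Pool.Agent.P.MP_257122_al
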