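import Pool.Agent.P.MP_257122_al.NSound
import Pool.Agent.P.MP_257122_al.NCompl
import Pool.Agent.P.MP_257122_al.NMod
import Pool.Agent.P.MP_257122_al.BT

/-!
# The core
-/

namespace Pool.Agent.P.MP_257122_al

theorem fold_inlF (b : ℕ) (w : Fr b) : fold b (inlF b b w) = w := by
  have : (fold b).comp (inlF b b) = MonoidHom.id _ := by
    refine FreeGroup.ext_hom _ _ fun i => ?_
    simp [fold, inlF]
  exact DFunLike.congr_fun this w

section pure
variable {b m e : ℕ} {γ : Fin b → GL (Fin m) ℚ} {M : Model (b + b)} {N : Subgroup (Fr b)}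

theorem adapt_big (hM : M.ok (kerI (Fin.append γ γ)) e) (hγ : N ≤ (FreeGroup.lift γ).ker) :
    Adapt M.2.1 (e + 1) (FreeGroup.lift M.2.2.1) (N.comap (fold b)) :=
  hM.adapt fun w hw => by
    rw [MonoidHom.mem_ker, lift_append_self]
    exact hγ hw

theorem adapt_small (hM : M.ok (kerI (Fin.append γ γ)) e) (hγ : N ≤ (FreeGroup.lift γ).ker) :
    Adapt M.2.1 (e + 1) (FreeGroup.lift fun x => M.2.2.1 (Fin.castAdd b x)) N := by
  obtain ⟨h1, h2, h3⟩ := adapt_big hM hγ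
  refine ⟨h1, fun w => ?_, fun w hw => ?_⟩
  · rw [← lift_inlF]; exact h2 _
  · rw [← lift_inlF]
    exact h3 _ (by rw [Subgroup.mem_comap, fold_inlF]; exact hw)

end pure

variable {A : Type} [Rep A]

theorem cs_notConj {m : A → Amb} {Y Y' : ∀ a, Subgroup (GL (Fin (m a).1) ℚ)}
    {β : ∀ a, GL (Fin (m a).1) ℚ} (hm : CS m) (hok : ∀ a, (m a).ok) (h : DS m Y) (h' : DS m Y')
    (hN : ∀ a, (m a).Nrm (Y a)) (hN' : ∀ a, (m a).Nrm (Y' a)) (hβ : CS β) :
    CS (fun a => ¬ Conj (β a) (Y a) (Y' a)) := by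
  have hG : GrpF (fun a => GL (Fin (m a).1) ℚ) := GrpF.gl (CFin.fin hm.sfst) Disc.fin
  have h0 : CS (fun p : Σ a, GL (Fin (m a).1) ℚ => p.1) := CS.id.sfst
  have hy : CS (fun p : Σ a, GL (Fin (m a).1) ℚ => p.2) := CS.id.ssnd
  have hG' := hG.comp h0
  have hb := hβ.comp h0
  have k1 : CS (fun a => ∃ y, y ∈ Y a ∧ ¬ β a * y * (β a)⁻¹ ∈ Y' a) :=
    CS.ex hG.enum (((h.comp h0).mem (hm.comp h0) (fun p => hok _) (fun p => hN _) hy).and
      ((h'.comp h0).notMem (hm.comp h0) (fun p => hok _) (fun p => hN' _)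
        (CS.mul hG'.mul (CS.mul hG'.mul hb hy) (CS.inv hG'.inv hb))))
  have k2 : CS (fun a => ∃ y, y ∈ Y' a ∧ ¬ (β a)⁻¹ * y * β a ∈ Y a) :=
    CS.ex hG.enum (((h'.comp h0).mem (hm.comp h0) (fun p => hok _) (fun p => hN' _) hy).and
      ((h.comp h0).notMem (hm.comp h0) (fun p => hok _) (fun p => hN _)
        (CS.mul hG'.mul (CS.mul hG'.mul (CS.inv hG'.inv hb) hy) hb)))
  refine (k1.or k2).of_iff fun a _ => ?_
  simp only [Conj, not_and_or, not_forall, exists_prop]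

theorem btw_model {a : A → CoreIn} {m e : A → ℕ} {γ : ∀ x, Fin (a x).1 → GL (Fin (m x)) ℚ}
    {M : ∀ x, Model ((a x).1 + (a x).1)} (ha : CS a) (he : CS e) (hM : CS M)
    (hok : ∀ x, (a x).ok) (hγ : ∀ x, (a x).N ≤ (FreeGroup.lift (γ x)).ker)
    (hMo : ∀ x, (M x).ok (kerI (Fin.append (γ x) (γ x))) (e x)) :
    Btw (fun x => ∀ β, ¬ (M x).Pass (e x + 1) (a x).N (a x).S (a x).S' β)
      (fun x => (a x).Hi) := by
  obtain ⟨κ, hκ, hκ0, hκ1⟩ := exists_kap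
  have hb : CS (fun x => (a x).1) := ha.sfst
  have hbb : CS (fun x => (a x).1 + (a x).1) := CS.add AddF.nat hb hb
  have hn : CS (fun x => (M x).1) := hM.sfst
  have hw : CS (fun x => (M x).2.1) := hM.ssnd.fst
  have hg : CS (fun x => (M x).2.2.1) := hM.ssnd.snd.fst
  have h0 : CS (fun x => (M x).2.2.2.1) := hM.ssnd.snd.snd.fst
  have hc : CS (fun x => e x + 1) := CS.add AddF.nat he CS.const
  have hg' : CS (fun x i => (M x).2.2.1 (Fin.castAdd (a x).1 i)) :=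
    CS.lam (CS.app (hg.comp CS.id.sfst) (CS.finCastAdd CS.id.ssnd))
  have hY : CS (fun x => (a x).2.2.2.map (inlF (a x).1 (a x).1) ++
      tieR (FreeGroup.of : Fin (a x).1 → Fr (a x).1)) :=
    CS.append (CS.map (CS.homCoe cs_inlF) ha.ssnd.snd.snd)
      (cs_tieR hb hb (CS.lam (CS.freeOf CS.id.ssnd)))
  have aB := fun x => adapt_big (hMo x) (hγ x)
  have aS := fun x => adapt_small (hMo x) (hγ x)
  have hmB := CS.ambOf hbb hn hw hc hg
  have hmS := CS.ambOf hb hn hw hc hg'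
  have dU : DS (fun x => ambOf (M x).2.1 (e x + 1) (M x).2.2.1) (fun x => (M x).big (a x).N) := by
    have := DS.mapNcl hbb hn hw hc hg hY fun x => comap_fold_ncl (a x).2.2.2 ▸ aB x
    refine CS.congr this fun x _ => ?_
    rw [← comap_fold_ncl]; rfl
  have dK : DS (fun x => ambOf (M x).2.1 (e x + 1) fun i => (M x).2.2.1 (Fin.castAdd (a x).1 i))
      (fun x => (M x).im (a x).S) :=
    DS.mapRel hb hn hw hc hg' ha.ssnd.fst.fst ha.ssnd.fst.snd aS
      (fun x => ⟨inferInstance, (hok x).2.2⟩) fun x => (hok x).1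
  have dK' : DS (fun x => ambOf (M x).2.1 (e x + 1) fun i => (M x).2.2.1 (Fin.castAdd (a x).1 i))
      (fun x => (M x).im (a x).S') :=
    DS.mapRel hb hn hw hc hg' ha.ssnd.snd.fst.fst ha.ssnd.snd.fst.snd aS
      (fun x => ⟨inferInstance, (hok x).2.2⟩) fun x => (hok x).2.1
  have cM : CoordF (fun x => Matrix (Fin (M x).1) (Fin (M x).1) ℚ) :=
    CoordF.matrix (CFin.fin hn) Disc.fin (CFin.fin hn) Disc.fin
  have cV : CoordF (fun x => Fin (M x).1 → ℚ) := CoordF.pi (CFin.fin hn) Disc.fin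
  have hev := cs_evalAt hn h0
  have lU : CS (fun x => logL (e x + 1) (M x).2.2.2.1 ((M x).big (a x).N)) :=
    CS.lmap cM cV hev (dU.logSpan hmB)
  have lK : CS (fun x => logL (e x + 1) (M x).2.2.2.1 ((M x).im (a x).S)) :=
    CS.lmap cM cV hev (dK.logSpan hmS)
  have lK' : CS (fun x => logL (e x + 1) (M x).2.2.2.1 ((M x).im (a x).S')) :=
    CS.lmap cM cV hev (dK'.logSpan hmS)
  have o1 := cs_orbL hbb hn hg h0
  have o2 := cs_orbL hb hn hg' h0
  have hL : CS (fun x => (M x).lats (e x + 1) ((M x).big (a x).N) ((M x).im (a x).S)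
      ((M x).im (a x).S')) :=
    CS.cons (o1.pair o1) (CS.cons (o2.pair o2) (CS.cons (lU.pair lU) (CS.cons (lK.pair lK') CS.nil)))
  have hT := cs_tens hb hM
  have hI : CS (fun x => (M x).bt (e x + 1) (κ (e x + 1)) (a x).N (a x).S (a x).S') := by
    unfold Model.bt
    refine CS.sigmaIntro ?_ ?_ <;> dsimp only
    · exact hn
    · exact hT.pair (hL.pair (hκ.comp hc))
  have hbt := bt.comp (g := fun x => ⟨(M x).bt (e x + 1) (κ (e x + 1)) (a x).N (a x).S (a x).S',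
    core_btok (hMo x) (hκ0 _)⟩) hI
  refine Btw.bind hbt ?_
  let B : Type := {q : Σ x, List (GL (Fin (M x).1) ℚ) //
    BTCover ((M q.1).bt (e q.1 + 1) (κ (e q.1 + 1)) (a q.1).N (a q.1).S (a q.1).S') q.2}
  have hP : CS (fun p : Σ x, GL (Fin (M x).1) ℚ =>
      ¬ (M p.1).Pass (e p.1 + 1) (a p.1).N (a p.1).S (a p.1).S' p.2) := by
    have j0 : CS (fun p : Σ x, GL (Fin (M x).1) ℚ => p.1) := CS.id.sfst
    have jβ : CS (fun p : Σ x, GL (Fin (M x).1) ℚ => p.2) := CS.id.ssnd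
    have n1 := cs_notIsoL (hn.comp j0) (hT.comp j0) (hL.comp j0) jβ
    have n2 := cs_notConj (hmB.comp j0) (fun p => ambOf_ok (aB _)) (dU.comp j0) (dU.comp j0)
      (fun p => ambOf_nrm (aB p.1) le_rfl) (fun p => ambOf_nrm (aB p.1) le_rfl) jβ
    have n3 := cs_notConj (hmS.comp j0) (fun p => ambOf_ok (aS _)) (dK.comp j0) (dK'.comp j0)
      (fun p => ambOf_nrm (aS p.1) (hok _).1) (fun p => ambOf_nrm (aS p.1) (hok _).2.1) jβ
    refine (n1.or (n2.or n3)).of_iff fun p _ => ?_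
    simp only [Model.Pass, not_and_or]
    rfl
  have i0 : CS (fun r : Σ q : B, GL (Fin (M q.1.1).1) ℚ => r.1.1.1) := CS.id.sfst.val.sfst
  have i1 : CS (fun r : Σ q : B, GL (Fin (M q.1.1).1) ℚ => r.2) := CS.id.ssnd
  have hA : CS (fun q : B => ∀ β ∈ q.1.2,
      ¬ (M q.1.1).Pass (e q.1.1 + 1) (a q.1.1).N (a q.1.1).S (a q.1.1).S' β) :=
    CS.allMem CS.id.val.ssnd (hP.comp (g := fun r : Σ q : B, GL (Fin (M q.1.1).1) ℚ =>
      ⟨r.1.1.1, r.2⟩) (CS.sigmaIntro i0 i1))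
  refine Btw.of_cs hA (fun q _ h β _ => h β) fun q _ h => ?_
  rintro ⟨α, hα, hαN⟩
  obtain ⟨β, hβ, hp⟩ := core_sound (hMo q.1.1) (hγ _) (hok _).1 (hok _).2.1
    (fun n wt Y h1 h2 => hκ1 n _ wt Y h1 h2) hα hαN q.2
  exact h β hβ hp

theorem cs_kills {b m : A → ℕ} {γ : ∀ x, Fin (b x) → GL (Fin (m x)) ℚ} {Y : ∀ x, List (Fr (b x))}
    (hm : CS m) (hγ : CS γ) (hY : CS Y) : CS (fun x => ∀ y ∈ Y x, FreeGroup.lift (γ x) y = 1) := by
  have hG : GrpF (fun x => GL (Fin (m x)) ℚ) := GrpF.gl (CFin.fin hm) Disc.fin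
  have h0 : CS (fun p : Σ x, Fr (b x) => p.1) := CS.id.sfst
  have hG' := hG.comp h0
  exact CS.allMem hY (CS.eq hG'.disc (CS.homApp (CS.freeLift hG'.mul hG'.inv hG'.one (hγ.comp h0))
    CS.id.ssnd) (CS.one hG'.one))

set_option synthInstance.maxSize 2000 in
theorem btw_core : Btw (fun a : {a : CoreIn // a.ok} => a.1.Lo) (fun a => a.1.Hi) := by
  let T : {a : CoreIn // a.ok} → Type := fun a => Σ m : ℕ, ℕ × (Fin a.1.1 → GL (Fin m) ℚ)
  have hE : Enum T := by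
    aesop (config := { terminal := true, enableSimp := false, maxRuleApplications := 3000, maxRuleApplicationDepth := 70, assumptionTransparency := .reducible }) (rule_sets := [-default, -builtin, Restrict]) (erase CS.mapp, CS.mlam) (add safe 1 (by dsimp only [T]))
  have hP : CS (fun q : Σ a : {a : CoreIn // a.ok}, Σ m : ℕ, ℕ × (Fin a.1.1 → GL (Fin m) ℚ) =>
      ∀ y ∈ q.1.1.2.2.2, FreeGroup.lift q.2.2.2 y = 1) :=
    cs_kills CS.id.ssnd.sfst CS.id.ssnd.ssnd.snd CS.id.sfst.val.ssnd.snd.snd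
  let B : Type := {q : Σ a, T a // ∀ y ∈ q.1.1.2.2.2, FreeGroup.lift q.2.2.2 y = 1}
  have hγ : ∀ q : B, q.1.1.1.N ≤ (FreeGroup.lift q.1.2.2.2).ker := fun q =>
    Subgroup.normalClosure_le_normal fun y hy => q.2 y hy
  have ha : CS (fun q : B => q.1.1.1) := CS.id.val.sfst.val
  have ht : CS (fun q : B => q.1.2) := CS.id.val.ssnd
  have hmod := mv_model (CS.add AddF.nat ha.sfst ha.sfst) ht.sfst ht.ssnd.fst
    (CS.finAppend ha.sfst ht.ssnd.snd ht.ssnd.snd)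
  have key : Btw (fun q : B => ∀ M : Model (q.1.1.1.1 + q.1.1.1.1),
      M.ok (kerI (Fin.append q.1.2.2.2 q.1.2.2.2)) q.1.2.2.1 →
        ∀ β, ¬ M.Pass (q.1.2.2.1 + 1) q.1.1.1.N q.1.1.1.S q.1.1.1.S' β)
      (fun q => q.1.1.1.Hi) := by
    refine Btw.bind hmod ?_
    let C : Type := {r : Σ q : B, Model (q.1.1.1.1 + q.1.1.1.1) //
      r.2.ok (kerI (Fin.append r.1.1.2.2.2 r.1.1.2.2.2)) r.1.1.2.2.1}
    have jj : CS (fun r : C => r.1) := CS.val (α := fun _ => Σ q : B, Model (q.1.1.1.1 + q.1.1.1.1))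
      CS.id
    have j0 : CS (fun r : C => r.1.1) := jj.sfst
    have jM : CS (fun r : C => r.1.2) := jj.ssnd
    exact (btw_model (ha.comp j0) (ht.comp j0).ssnd.fst jM (fun r => r.1.1.1.1.2)
      (fun r => hγ r.1.1) (fun r => r.2)).mono (fun r _ h => h r.1.2 r.2) fun _ _ h => h
  refine (Btw.ex
    (L := fun a (x : T a) => ∃ _ : ∀ y ∈ a.1.2.2.2, FreeGroup.lift x.2.2 y = 1,
      ∀ M : Model (a.1.1 + a.1.1), M.ok (kerI (Fin.append x.2.2 x.2.2)) x.2.1 →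
        ∀ β, ¬ M.Pass (x.2.1 + 1) a.1.N a.1.S a.1.S' β)
    (H := fun a (x : T a) => ∃ _ : ∀ y ∈ a.1.2.2.2, FreeGroup.lift x.2.2 y = 1, a.1.Hi)
    hE (Btw.sub hP key)).mono ?_ ?_
  · rintro ⟨a, hS, hS', hV⟩ - ⟨hG, hG', hn, hn', hI⟩
    obtain ⟨m, e, γ, h1, h2⟩ := core_exists hV hS hS' hG hG' hn hn'
    exact ⟨⟨m, e, γ⟩, fun y hy => h1 (Subgroup.subset_normalClosure hy), fun M hM β hβ =>
      hI (core_complete hM h1 hS hS' (h2 M hM) hβ)⟩
  · rintro a - ⟨x, -, h⟩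
    exact h

end Pool.Agent.P.MP_257122_al
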