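import Pool.Agent.P.MP_257122_al.GDefs

/-!
# The core: definitions
-/

namespace Pool.Agent.P.MP_257122_al

open Matrix

/-- The inclusion of the first block of generators. -/
def inlF (b b' : ℕ) : Fr b →* Fr (b + b') := FreeGroup.map (Fin.castAdd b')

/-- The inclusion of the second block of generators. -/
def inrF (b b' : ℕ) : Fr b' →* Fr (b + b') := FreeGroup.map (Fin.natAdd b)

/-- The folding map of the double. -/
def fold (b : ℕ) : Fr (b + b) →* Fr b := FreeGroup.lift (Fin.append FreeGroup.of FreeGroup.of)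

/-- The words that identify the second block with words in the first block. -/
def tieR {b b' : ℕ} (v : Fin b' → Fr b) : List (Fr (b + b')) :=
  List.ofFn fun y => (FreeGroup.of (Fin.natAdd b y))⁻¹ * inlF b b' (v y)

/-- The words that identify the first block with words in the second block. -/
def tieL {b b' : ℕ} (u : Fin b → Fr b') : List (Fr (b + b')) :=
  List.ofFn fun x => (FreeGroup.of (Fin.castAdd b' x))⁻¹ * inrF b b' (u x)

/-- Two presentations rewritten on the union of the generators. -/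
def nielIn (p p' : Pres) (u : Fin p.1 → Fr p'.1) (v : Fin p'.1 → Fr p.1) (Y : List (Fr p.1)) :
    CoreIn :=
  ⟨p.1 + p'.1, (p.2.1, p.2.2.map (inlF p.1 p'.1) ++ tieR v),
    (p'.2.1, p'.2.2.map (inrF p.1 p'.1) ++ tieL u), Y.map (inlF p.1 p'.1) ++ tieR v⟩

/-- Evaluation of matrices at a vector. -/
def evalAt {n : ℕ} (e : Fin n → ℚ) : Matrix (Fin n) (Fin n) ℚ →ₗ[ℚ] (Fin n → ℚ) where
  toFun x := x *ᵥ e
  map_add' x y := Matrix.add_mulVec x y e
  map_smul' c x := Matrix.smul_mulVec c x e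

/-- The additive span of the orbit of `e` under the group generated by the `g x`. -/
def orbL {b n : ℕ} (g : Fin b → GL (Fin n) ℚ) (e : Fin n → ℚ) : AddSubgroup (Fin n → ℚ) :=
  cl (List.ofFn (fun x => (g x).val.mulVecLin) ++ List.ofFn (fun x => (g x).inv.mulVecLin))
    (AddSubgroup.closure {x | x ∈ [e]})

/-- The span of the logarithms, as vectors. -/
def logL {n : ℕ} (c : ℕ) (e : Fin n → ℚ) (Y : Subgroup (GL (Fin n) ℚ)) :
    AddSubgroup (Fin n → ℚ) :=
  lmap (evalAt e) (logSpan c Y)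

/-- A vector as a tensor. -/
def vecT {n : ℕ} (v : Fin n → ℚ) : TPair n :=
  ⟨[true], fun I => v (I (0 : Fin 1)), fun I => v (I (0 : Fin 1))⟩

/-- The structure constants as a tensor. -/
def mulT {n : ℕ} (L : Fin n → Matrix (Fin n) (Fin n) ℚ) : TPair n :=
  ⟨[true, false, false], fun I => L (I (1 : Fin 3)) (I (0 : Fin 3)) (I (2 : Fin 3)),
    fun I => L (I (1 : Fin 3)) (I (0 : Fin 3)) (I (2 : Fin 3))⟩

/-- The representation of a model. -/
noncomputable def Model.rho {b : ℕ} (M : Model b) : Fr b →* GL (Fin M.1) ℚ :=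
  FreeGroup.lift M.2.2.1

/-- The image of a subgroup of the first block. -/
noncomputable def Model.im {b : ℕ} (M : Model (b + b)) (S : Subgroup (Fr b)) :
    Subgroup (GL (Fin M.1) ℚ) :=
  S.map (FreeGroup.lift fun x => M.2.2.1 (Fin.castAdd b x))

/-- The image of the preimage under the folding map. -/
noncomputable def Model.big {b : ℕ} (M : Model (b + b)) (N : Subgroup (Fr b)) :
    Subgroup (GL (Fin M.1) ℚ) :=
  (N.comap (fold b)).map M.rho

/-- The tensors of a model of the double. -/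
def Model.tens {b : ℕ} (M : Model (b + b)) : List (TPair M.1) :=
  mulT M.2.2.2.2 :: vecT M.2.2.2.1 ::
    List.ofFn fun z : Fin b => vecT ((M.2.2.1 (Fin.natAdd b z)).val *ᵥ M.2.2.2.1)

/-- The pairs of groups of vectors attached to three matrix groups. -/
def Model.lats {b : ℕ} (M : Model (b + b)) (c : ℕ) (U K K' : Subgroup (GL (Fin M.1) ℚ)) :
    List (LPair M.1) :=
  [(orbL M.2.2.1 M.2.2.2.1, orbL M.2.2.1 M.2.2.2.1),
    (orbL (fun x => M.2.2.1 (Fin.castAdd b x)) M.2.2.2.1,
      orbL (fun x => M.2.2.1 (Fin.castAdd b x)) M.2.2.2.1),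
    (logL c M.2.2.2.1 U, logL c M.2.2.2.1 U), (logL c M.2.2.2.1 K, logL c M.2.2.2.1 K')]

/-- The input of the arithmetic core. -/
noncomputable def Model.bt {b : ℕ} (M : Model (b + b)) (c κ : ℕ) (N S S' : Subgroup (Fr b)) :
    BTIn :=
  ⟨M.1, M.tens, M.lats c (M.big N) (M.im S) (M.im S'), κ⟩

/-- Conjugation by `β` carries `Y` onto `Y'`. -/
def Conj {G : Type} [Group G] (β : G) (Y Y' : Subgroup G) : Prop :=
  (∀ y ∈ Y, β * y * β⁻¹ ∈ Y') ∧ ∀ y ∈ Y', β⁻¹ * y * β ∈ Y

/-- The final test. -/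
def Model.Pass {b : ℕ} (M : Model (b + b)) (c : ℕ) (N S S' : Subgroup (Fr b))
    (β : GL (Fin M.1) ℚ) : Prop :=
  IsoL M.tens (M.lats c (M.big N) (M.im S) (M.im S')) β ∧ Conj β (M.big N) (M.big N) ∧
    Conj β (M.im S) (M.im S')

/-- The logarithms of unipotent groups are stable under adding `κ` times their span. -/
def KapOk (c κ : ℕ) : Prop :=
  ∀ (n : ℕ) (wt : Fin n → ℕ) (Y : Subgroup (GL (Fin n) ℚ)), (∀ i, wt i < c) →
    (∀ y ∈ Y, IsUni wt y) → ∀ y ∈ Y, ∀ x ∈ scal κ (logSpan c Y),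
      ∃ y' ∈ Y, lg c y'.val = lg c y.val + x

end Pool.Agent.P.MP_257122_al
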