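import Pool.Agent.P.MP_257122_al.NDefs
import Pool.Agent.P.MP_257122_al.GBasic

/-!
# Nielsen moves: from two presentations to one free group

PLAN.  `qL = lift (Fin.append of v) : Fr (b + b') →* Fr b` is a retraction of `inlF` with kernel
`ncl (tieR v)`; hence `relS d (W.map inlF ++ tieR v) = (relS d W).comap qL` (the derived series
maps onto the derived series) and `ncl (Y.map inlF ++ tieR v) = (ncl Y).comap qL`; symmetrically
with `qR = lift (Fin.append u of)`; under `Compat` also `(ncl Y).comap qL = N'.comap qR`.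
`niel_hi`: `α₂` fixes the first block and sends `y` to `y * inlF ((v₀ y)⁻¹ * v y)`, `α₁` fixes the
second block and sends `x` to `x * inrF ((u x)⁻¹ * u₀ x)`; both are automorphisms congruent to the
identity, and `qR (α₁ (α₂ w)) ≡ u₀ (qL w)` modulo `S'`.
-/

namespace Pool.Agent.P.MP_257122_al

section ret
variable {F G : Type} [Group F] [Group G]

/-- `q` is a retraction of `i` whose kernel is normally generated by `T`. -/
structure NlRet (i : G →* F) (q : F →* G) (T : List F) : Prop where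
  qi : ∀ y, q (i y) = y
  qT : ∀ t ∈ T, q t = 1
  ker : ∀ w, i (q w) * w⁻¹ ∈ Subgroup.normalClosure {t | t ∈ T}

variable {i : G →* F} {q : F →* G} {T : List F}

theorem NlRet.eq_comap (h : NlRet i q T) {K : Subgroup F} [K.Normal] {S : Subgroup G}
    (hT : ∀ t ∈ T, t ∈ K) (h1 : S ≤ K.comap i) (h2 : K ≤ S.comap q) : K = S.comap q := by
  refine le_antisymm h2 fun w hw => ?_
  have h3 : i (q w) * w⁻¹ ∈ K := Subgroup.normalClosure_le_normal (N := K) hT (h.ker w)
  have h4 := K.mul_mem (K.inv_mem h3) (h1 hw)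
  simpa using h4

theorem NlRet.ncl_le (W : List G) : Subgroup.normalClosure {y | y ∈ W} ≤
    (Subgroup.normalClosure {y | y ∈ W.map i ++ T}).comap i :=
  Subgroup.normalClosure_le_normal fun _ hy =>
    Subgroup.subset_normalClosure (List.mem_append_left _ (List.mem_map_of_mem hy))

theorem NlRet.le_ncl (h : NlRet i q T) (W : List G) :
    Subgroup.normalClosure {y | y ∈ W.map i ++ T} ≤
      (Subgroup.normalClosure {y | y ∈ W}).comap q := by
  refine Subgroup.normalClosure_le_normal fun y hy => ?_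
  rcases List.mem_append.1 hy with hy | hy
  · obtain ⟨w, hw, rfl⟩ := List.mem_map.1 hy
    change q (i w) ∈ Subgroup.normalClosure _
    rw [h.qi]
    exact Subgroup.subset_normalClosure hw
  · change q y ∈ Subgroup.normalClosure _
    rw [h.qT y hy]
    exact one_mem _

theorem NlRet.ncl (h : NlRet i q T) (W : List G) :
    Subgroup.normalClosure {y | y ∈ W.map i ++ T} =
      (Subgroup.normalClosure {y | y ∈ W}).comap q :=
  h.eq_comap (fun _ ht => Subgroup.subset_normalClosure (List.mem_append_right _ ht))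
    (NlRet.ncl_le W) (h.le_ncl W)

theorem NlRet.iso (h : NlRet i q T) {K : Subgroup F} [K.Normal] {S : Subgroup G} [S.Normal]
    (e : K = S.comap q) : Nonempty ((F ⧸ K) ≃* (G ⧸ S)) := by
  refine Compat.iso (u := q) (v := i) ⟨fun y hy => ?_, fun y hy => ?_, fun g => ?_, fun g => ?_⟩
  · rwa [e] at hy
  · rwa [e, Subgroup.mem_comap, h.qi]
  · simp [e, h.qi]
  · simp [h.qi]

end ret

theorem NlRet.relS {b c : ℕ} {i : Fr b →* Fr c} {q : Fr c →* Fr b} {T : List (Fr c)}
    (h : NlRet i q T) (d : ℕ) (W : List (Fr b)) :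
    relS d (W.map i ++ T) = (relS d W).comap q := by
  refine h.eq_comap (fun _ ht => Subgroup.mem_sup_left
    (Subgroup.subset_normalClosure (List.mem_append_right _ ht))) (sup_le ?_ ?_) (sup_le ?_ ?_)
  · exact (NlRet.ncl_le W).trans (Subgroup.comap_mono le_sup_left)
  · exact (Subgroup.map_le_iff_le_comap.1 (map_derivedSeries_le_derivedSeries i d)).trans
      (Subgroup.comap_mono le_sup_right)
  · exact (h.le_ncl W).trans (Subgroup.comap_mono le_sup_left)
  · exact (Subgroup.map_le_iff_le_comap.1 (map_derivedSeries_le_derivedSeries q d)).trans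
      (Subgroup.comap_mono le_sup_right)

theorem nl_cong {b : ℕ} {H : Type} [Group H] (N : Subgroup H) [N.Normal] (f g : Fr b →* H)
    (h : ∀ x, (f (FreeGroup.of x) : H ⧸ N) = g (FreeGroup.of x)) (w : Fr b) :
    (f w : H ⧸ N) = g w :=
  DFunLike.congr_fun (FreeGroup.ext_hom ((QuotientGroup.mk' N).comp f)
    ((QuotientGroup.mk' N).comp g) h) w

theorem nl_mem {H : Type} [Group H] {N : Subgroup H} [N.Normal] {x y : H}
    (h : (x : H ⧸ N) = y) : x ∈ N ↔ y ∈ N := by
  rw [← QuotientGroup.eq_one_iff, h, QuotientGroup.eq_one_iff]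

theorem Compat.nl_iff {G H : Type} [Group G] [Group H] {N : Subgroup G} {N' : Subgroup H}
    {u : G →* H} {v : H →* G} (h : Compat N N' u v) (g : G) : u g ∈ N' ↔ g ∈ N := by
  refine ⟨fun hg => ?_, h.1 g⟩
  simpa using N.mul_mem (N.inv_mem (h.2.2.1 g)) (h.2.1 _ hg)

section maps
variable {b b' : ℕ}

theorem nl_inl (x : Fin b) : inlF b b' (FreeGroup.of x) = FreeGroup.of (Fin.castAdd b' x) :=
  FreeGroup.map.of

theorem nl_inr (y : Fin b') : inrF b b' (FreeGroup.of y) = FreeGroup.of (Fin.natAdd b y) :=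
  FreeGroup.map.of

/-- The homomorphism given on the two blocks. -/
def nlLift {H : Type} [Group H] (f : Fin b → H) (g : Fin b' → H) : Fr (b + b') →* H :=
  FreeGroup.lift (Fin.append f g)

variable {H : Type} [Group H]

theorem nlLift_l (f : Fin b → H) (g : Fin b' → H) (x : Fin b) :
    nlLift f g (FreeGroup.of (Fin.castAdd b' x)) = f x := by simp [nlLift]

theorem nlLift_r (f : Fin b → H) (g : Fin b' → H) (y : Fin b') :
    nlLift f g (FreeGroup.of (Fin.natAdd b y)) = g y := by simp [nlLift]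

theorem nlLift_inl (f : Fr b →* H) (g : Fin b' → H) (w : Fr b) :
    nlLift (fun x => f (FreeGroup.of x)) g (inlF b b' w) = f w :=
  DFunLike.congr_fun (FreeGroup.ext_hom ((nlLift _ g).comp (inlF b b')) f fun x => by
    rw [MonoidHom.comp_apply, nl_inl, nlLift_l]) w

theorem nlLift_inr (f : Fin b → H) (g : Fr b' →* H) (w : Fr b') :
    nlLift f (fun y => g (FreeGroup.of y)) (inrF b b' w) = g w :=
  DFunLike.congr_fun (FreeGroup.ext_hom ((nlLift f _).comp (inrF b b')) g fun y => by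
    rw [MonoidHom.comp_apply, nl_inr, nlLift_r]) w

theorem nl_retL (v : Fin b' → Fr b) : NlRet (inlF b b') (nlLift FreeGroup.of v) (tieR v) where
  qi := nlLift_inl (MonoidHom.id _) v
  qT t ht := by
    obtain ⟨y, rfl⟩ := List.mem_ofFn.1 ht
    have := nlLift_inl (MonoidHom.id _) v (v y)
    simp only [MonoidHom.id_apply] at this
    rw [map_mul, map_inv, nlLift_r, this, inv_mul_cancel]
  ker := gb_gens ((inlF b b').comp (nlLift FreeGroup.of v)) fun z => by
    rw [MonoidHom.comp_apply]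
    refine Fin.addCases (fun x => ?_) (fun y => ?_) z
    · rw [nlLift_l, nl_inl, mul_inv_cancel]
      exact one_mem _
    · rw [nlLift_r]
      exact Subgroup.Normal.mem_comm inferInstance
        (Subgroup.subset_normalClosure (List.mem_ofFn.2 ⟨y, rfl⟩))

theorem nl_retR (u : Fin b → Fr b') : NlRet (inrF b b') (nlLift u FreeGroup.of) (tieL u) where
  qi := nlLift_inr u (MonoidHom.id _)
  qT t ht := by
    obtain ⟨x, rfl⟩ := List.mem_ofFn.1 ht
    have := nlLift_inr u (MonoidHom.id _) (u x)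
    simp only [MonoidHom.id_apply] at this
    rw [map_mul, map_inv, nlLift_l, this, inv_mul_cancel]
  ker := gb_gens ((inrF b b').comp (nlLift u FreeGroup.of)) fun z => by
    rw [MonoidHom.comp_apply]
    refine Fin.addCases (fun x => ?_) (fun y => ?_) z
    · rw [nlLift_l]
      exact Subgroup.Normal.mem_comm inferInstance
        (Subgroup.subset_normalClosure (List.mem_ofFn.2 ⟨x, rfl⟩))
    · rw [nlLift_r, nl_inr, mul_inv_cancel]
      exact one_mem _

theorem nl_N {N : Subgroup (Fr b)} {N' : Subgroup (Fr b')} [N'.Normal] {u : Fin b → Fr b'}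
    {v : Fin b' → Fr b} (h : Compat N N' (FreeGroup.lift u) (FreeGroup.lift v)) :
    N.comap (nlLift FreeGroup.of v) = N'.comap (nlLift u FreeGroup.of) := by
  ext w
  rw [Subgroup.mem_comap, Subgroup.mem_comap, ← h.nl_iff]
  refine nl_mem (nl_cong N' ((FreeGroup.lift u).comp (nlLift FreeGroup.of v)) _ (fun z => ?_) w)
  rw [MonoidHom.comp_apply]
  refine Fin.addCases (fun x => ?_) (fun y => ?_) z
  · rw [nlLift_l, nlLift_l, FreeGroup.lift_apply_of]
  · have := h.2.2.2 (FreeGroup.of y)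
    rw [FreeGroup.lift_apply_of] at this
    rw [nlLift_r, nlLift_r, ← gb_eq]
    exact this

/-- Multiplying the second block by words in the first block. -/
def nlA (c : Fin b' → Fr b) : Fr (b + b') →* Fr (b + b') :=
  nlLift (fun x => inlF b b' (FreeGroup.of x))
    fun y => FreeGroup.of (Fin.natAdd b y) * inlF b b' (c y)

/-- Multiplying the first block by words in the second block. -/
def nlB (c : Fin b → Fr b') : Fr (b + b') →* Fr (b + b') :=
  nlLift (fun x => FreeGroup.of (Fin.castAdd b' x) * inrF b b' (c x))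
    fun y => inrF b b' (FreeGroup.of y)

theorem nlA_inl (c : Fin b' → Fr b) (w : Fr b) : nlA c (inlF b b' w) = inlF b b' w :=
  nlLift_inl _ _ w

theorem nlB_inr (c : Fin b → Fr b') (w : Fr b') : nlB c (inrF b b' w) = inrF b b' w :=
  nlLift_inr _ _ w

theorem nlA_l (c : Fin b' → Fr b) (x : Fin b) :
    nlA c (FreeGroup.of (Fin.castAdd b' x)) = FreeGroup.of (Fin.castAdd b' x) :=
  (nlLift_l _ _ x).trans (nl_inl x)

theorem nlA_r (c : Fin b' → Fr b) (y : Fin b') : nlA c (FreeGroup.of (Fin.natAdd b y)) =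
    FreeGroup.of (Fin.natAdd b y) * inlF b b' (c y) := nlLift_r _ _ y

theorem nlB_l (c : Fin b → Fr b') (x : Fin b) : nlB c (FreeGroup.of (Fin.castAdd b' x)) =
    FreeGroup.of (Fin.castAdd b' x) * inrF b b' (c x) := nlLift_l _ _ x

theorem nlB_r (c : Fin b → Fr b') (y : Fin b') :
    nlB c (FreeGroup.of (Fin.natAdd b y)) = FreeGroup.of (Fin.natAdd b y) :=
  (nlLift_r _ _ y).trans (nl_inr y)

theorem nlA_comp (c c' : Fin b' → Fr b) (h : ∀ y, c' y * c y = 1) :
    (nlA c').comp (nlA c) = MonoidHom.id _ :=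
  FreeGroup.ext_hom _ _ fun z => by
    rw [MonoidHom.comp_apply, MonoidHom.id_apply]
    refine Fin.addCases (fun x => ?_) (fun y => ?_) z
    · rw [nlA_l, nlA_l]
    · rw [nlA_r, map_mul, nlA_r, nlA_inl, mul_assoc, ← map_mul, h, map_one, mul_one]

theorem nlB_comp (c c' : Fin b → Fr b') (h : ∀ x, c' x * c x = 1) :
    (nlB c').comp (nlB c) = MonoidHom.id _ :=
  FreeGroup.ext_hom _ _ fun z => by
    rw [MonoidHom.comp_apply, MonoidHom.id_apply]
    refine Fin.addCases (fun x => ?_) (fun y => ?_) z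
    · rw [nlB_l, map_mul, nlB_l, nlB_inr, mul_assoc, ← map_mul, h, map_one, mul_one]
    · rw [nlB_r, nlB_r]

/-- The first kind of move as an automorphism. -/
def nlAe (c : Fin b' → Fr b) : Fr (b + b') ≃* Fr (b + b') :=
  (nlA c).toMulEquiv (nlA fun y => (c y)⁻¹) (nlA_comp _ _ fun _ => inv_mul_cancel _)
    (nlA_comp _ _ fun _ => mul_inv_cancel _)

/-- The second kind of move as an automorphism. -/
def nlBe (c : Fin b → Fr b') : Fr (b + b') ≃* Fr (b + b') :=
  (nlB c).toMulEquiv (nlB fun y => (c y)⁻¹) (nlB_comp _ _ fun _ => inv_mul_cancel _)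
    (nlB_comp _ _ fun _ => mul_inv_cancel _)

theorem nlA_cong {K : Subgroup (Fr (b + b'))} [K.Normal] {c : Fin b' → Fr b}
    (h : ∀ y, inlF b b' (c y) ∈ K) : ∀ g, nlA c g * g⁻¹ ∈ K :=
  gb_gens _ fun z => by
    refine Fin.addCases (fun x => ?_) (fun y => ?_) z
    · rw [nlA_l, mul_inv_cancel]
      exact one_mem _
    · rw [nlA_r]
      exact Subgroup.Normal.conj_mem inferInstance _ (h y) _

theorem nlB_cong {K : Subgroup (Fr (b + b'))} [K.Normal] {c : Fin b → Fr b'}
    (h : ∀ x, inrF b b' (c x) ∈ K) : ∀ g, nlB c g * g⁻¹ ∈ K :=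
  gb_gens _ fun z => by
    refine Fin.addCases (fun x => ?_) (fun y => ?_) z
    · rw [nlB_l]
      exact Subgroup.Normal.conj_mem inferInstance _ (h x) _
    · rw [nlB_r, mul_inv_cancel]
      exact one_mem _

end maps

variable {p p' : Pres} {u : Fin p.1 → Fr p'.1} {v : Fin p'.1 → Fr p.1} {Y : List (Fr p.1)}
  {N' : Subgroup (Fr p'.1)}

theorem niel_ok [N'.Normal] (hS : p.S ≤ Subgroup.normalClosure {y | y ∈ Y}) (hS' : p'.S ≤ N')
    (hV : VAb (Subgroup.normalClosure {y | y ∈ Y}))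
    (h : Compat (Subgroup.normalClosure {y | y ∈ Y}) N' (FreeGroup.lift u) (FreeGroup.lift v)) :
    (nielIn p p' u v Y).ok := by
  have e1 : (nielIn p p' u v Y).S = _ := (nl_retL v).relS p.2.1 p.2.2
  have e2 : (nielIn p p' u v Y).S' = _ := (nl_retR u).relS p'.2.1 p'.2.2
  have e3 : (nielIn p p' u v Y).N = _ := (nl_retL v).ncl Y
  refine ⟨?_, ?_, ?_⟩
  · rw [e1, e3]
    exact Subgroup.comap_mono hS
  · rw [e2, e3.trans (nl_N h)]
    exact Subgroup.comap_mono hS'
  · rw [e3]
    exact hV.comap _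

theorem niel_lo [N'.Normal]
    (h : Compat (Subgroup.normalClosure {y | y ∈ Y}) N' (FreeGroup.lift u) (FreeGroup.lift v))
    (hG : FinRank p.G) (hG' : FinRank p'.G)
    (hN : NilMod (Subgroup.normalClosure {y | y ∈ Y}) p.S) (hN' : NilMod N' p'.S)
    (hI : ¬ Nonempty (p.G ≃* p'.G)) : (nielIn p p' u v Y).Lo := by
  have e1 : (nielIn p p' u v Y).S = _ := (nl_retL v).relS p.2.1 p.2.2
  have e2 : (nielIn p p' u v Y).S' = _ := (nl_retR u).relS p'.2.1 p'.2.2
  have e3 : (nielIn p p' u v Y).N = _ := (nl_retL v).ncl Y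
  obtain ⟨φ⟩ := (nl_retL v).iso ((nl_retL v).relS p.2.1 p.2.2)
  obtain ⟨ψ⟩ := (nl_retR u).iso ((nl_retR u).relS p'.2.1 p'.2.2)
  refine ⟨hG.of_injective φ.toMonoidHom φ.injective, hG'.of_injective ψ.toMonoidHom ψ.injective,
    ?_, ?_, fun ⟨χ⟩ => hI ⟨(φ.symm.trans χ).trans ψ⟩⟩
  · rw [e1, e3]
    exact hN.comap _
  · rw [e2, e3.trans (nl_N h)]
    exact hN'.comap _

theorem niel_hi [N'.Normal] (hS : p.S ≤ Subgroup.normalClosure {y | y ∈ Y}) (hS' : p'.S ≤ N')
    (h : Compat (Subgroup.normalClosure {y | y ∈ Y}) N' (FreeGroup.lift u) (FreeGroup.lift v))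
    (hH : (nielIn p p' u v Y).Hi) {u₀ : Fr p.1 →* Fr p'.1} {v₀ : Fr p'.1 →* Fr p.1}
    (h₀ : Compat p.S p'.S u₀ v₀) (hu : ∀ i, u i * (u₀ (FreeGroup.of i))⁻¹ ∈ N')
    (hv : ∀ i, v i * (v₀ (FreeGroup.of i))⁻¹ ∈ Subgroup.normalClosure {y | y ∈ Y}) : False := by
  have e1 : (nielIn p p' u v Y).S = _ := (nl_retL v).relS p.2.1 p.2.2
  have e2 : (nielIn p p' u v Y).S' = _ := (nl_retR u).relS p'.2.1 p'.2.2
  have e3 : (nielIn p p' u v Y).N = _ := (nl_retL v).ncl Y
  let c : Fin p'.1 → Fr p.1 := fun y => (v₀ (FreeGroup.of y))⁻¹ * v y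
  let d : Fin p.1 → Fr p'.1 := fun x => (u x)⁻¹ * u₀ (FreeGroup.of x)
  have k1 : ∀ w, nlLift u FreeGroup.of (nlB d (inlF p.1 p'.1 w)) = u₀ w := fun w =>
    DFunLike.congr_fun (FreeGroup.ext_hom
      (((nlLift u FreeGroup.of).comp (nlB d)).comp (inlF p.1 p'.1)) u₀ fun x => by
      rw [MonoidHom.comp_apply, MonoidHom.comp_apply, nl_inl, nlB_l, map_mul, nlLift_l,
        (nl_retR u).qi, mul_inv_cancel_left]) w
  have k2 : ∀ w, ((nlLift u FreeGroup.of (nlB d (nlA c w)) : Fr p'.1) : p'.G) =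
      (u₀ (nlLift FreeGroup.of v w) : Fr p'.1) :=
    nl_cong p'.S (((nlLift u FreeGroup.of).comp (nlB d)).comp (nlA c))
      (u₀.comp (nlLift FreeGroup.of v)) fun z => by
      simp only [MonoidHom.comp_apply]
      refine Fin.addCases (fun x => ?_) (fun y => ?_) z
      · rw [nlA_l, ← nl_inl, k1, (nl_retL v).qi]
      · rw [nlA_r, map_mul, map_mul, k1, nlB_r, nlLift_r, nlLift_r, map_mul, map_inv,
          QuotientGroup.mk_mul, QuotientGroup.mk_mul, QuotientGroup.mk_inv,
          gb_eq.1 (h₀.2.2.2 (FreeGroup.of y)), mul_inv_cancel_left]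
  refine hH ⟨(nlAe c).trans (nlBe d), ?_, fun g => ?_⟩
  · have k3 : (nielIn p p' u v Y).S =
        (nielIn p p' u v Y).S'.comap ((nlAe c).trans (nlBe d)).toMonoidHom := by
      ext w
      rw [e1, e2]
      exact ((nl_mem (k2 w)).trans (h₀.nl_iff _)).symm
    rw [k3]
    exact Subgroup.map_comap_eq_self_of_surjective ((nlAe c).trans (nlBe d)).surjective _
  · have e4 := (nl_retL v).ncl Y
    have k4 := nlA_cong (c := c)
      (K := Subgroup.normalClosure {y | y ∈ Y.map (inlF p.1 p'.1) ++ tieR v}) (fun y => by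
      rw [e4, Subgroup.mem_comap, (nl_retL v).qi]
      exact Subgroup.Normal.mem_comm inferInstance (hv y)) g
    have k5 := nlB_cong (c := d)
      (K := Subgroup.normalClosure {y | y ∈ Y.map (inlF p.1 p'.1) ++ tieR v}) (fun x => by
      rw [e4.trans (nl_N h), Subgroup.mem_comap, (nl_retR u).qi]
      have := N'.inv_mem (hu x)
      rw [mul_inv_rev, inv_inv] at this
      exact Subgroup.Normal.mem_comm inferInstance this) (nlA c g)
    have k6 := mul_mem k5 k4
    rw [mul_assoc, inv_mul_cancel_left] at k6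
    exact k6

end Pool.Agent.P.MP_257122_al
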