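import Pool.Agent.P.MP_257122_al.NModP
import Pool.Agent.P.MP_257122_al.CGrp

/-!
# The core: admissibility and soundness

PLAN (`core_btok`).  All groups of vectors lie in `Zinv m ^ n` for `m` divisible by `c !` and by the
denominators of the generators, their inverses and `e₀`; the first one spans (`Model.ok.surj`).
PLAN (`core_sound`).  Extend `α` and `α⁻¹` to the double by the identity on the second block;
`Model.ok.endo` gives mutually inverse matrices, `a : GL` with `a ρ(w) a⁻¹ = ρ(α⁺ w)`, `a e₀ = e₀`;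
so `IsoL` holds (`act_mulT`, `act_vecT`, `orbL_eq`, `lg_conj`).  `BTCover` gives `β` with
`δ = β⁻¹ a ≡ 1` modulo `κ` on every group.  For `y` in `Y = big N` or `im S`: `lg y` lies in the
image of the algebra, `δ (lg y) δ⁻¹` too, and such matrices are determined by their value at `e₀`
(`Model.ok.eq_sum`); so `δ^(±1) (lg y) δ^(∓1) - lg y ∈ κ logSpan Y`, and `KapOk`, `eq_of_lg_conj` give
`Conj δ Y Y`.
-/

namespace Pool.Agent.P.MP_257122_al

open Matrix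

namespace NSoundAux

theorem exists_zinv {ι : Type} [Fintype ι] (q : ι → ℚ) : ∃ m, 0 < m ∧ ∀ i, q i ∈ Zinv m :=
  ⟨∏ i, (q i).den, Finset.prod_pos fun i _ => (q i).den_pos, fun i _ _ h =>
    h.trans (Finset.dvd_prod_of_mem _ (Finset.mem_univ i))⟩

section red
variable {n B : ℕ} {O : Subring ℚ}

theorem lift_mem {g : Fin B → GL (Fin n) ℚ} (h : ∀ x, (g x).val ∈ O.matrix)
    (h' : ∀ x, (g x).inv ∈ O.matrix) (w : Fr B) : (FreeGroup.lift g w).val ∈ O.matrix := by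
  induction w using FreeGroup.induction_on with
  | C1 => rw [map_one]; exact one_mem _
  | of x => rw [FreeGroup.lift_apply_of]; exact h x
  | inv_of x _ => rw [map_inv, FreeGroup.lift_apply_of]; exact h' x
  | mul x y hx hy => rw [map_mul]; exact mul_mem hx hy

theorem lg_mem {c : ℕ} (hc : ∀ k : Fin c, (((k : ℕ) : ℚ) + 1)⁻¹ ∈ O)
    {x : Matrix (Fin n) (Fin n) ℚ} (hx : x ∈ O.matrix) : lg c x ∈ O.matrix := by
  refine sum_mem fun k hk i j => ?_
  have h : (x - 1) ^ (k + 1) ∈ O.matrix := pow_mem (sub_mem hx (one_mem _)) _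
  rw [Matrix.smul_apply, smul_eq_mul, div_eq_mul_inv]
  exact O.mul_mem (O.mul_mem (O.pow_mem (O.neg_mem O.one_mem) _) (hc ⟨k, Finset.mem_range.1 hk⟩))
    (h i j)

theorem mulVec_mem {x : Matrix (Fin n) (Fin n) ℚ} (hx : x ∈ O.matrix) {v : Fin n → ℚ}
    (hv : ∀ i, v i ∈ O) (i : Fin n) : (x *ᵥ v) i ∈ O :=
  O.sum_mem (t := Finset.univ) fun j _ => O.mul_mem (hx i j) (hv j)

theorem closure_mem {s : Set (Fin n → ℚ)} (hs : ∀ v ∈ s, ∀ i, v i ∈ O) {v : Fin n → ℚ}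
    (hv : v ∈ AddSubgroup.closure s) : ∀ i, v i ∈ O := by
  induction hv using AddSubgroup.closure_induction with
  | mem x h => exact hs x h
  | zero => exact fun _ => zero_mem _
  | add x y _ _ hx hy => exact fun i => add_mem (hx i) (hy i)
  | neg x _ hx => exact fun i => neg_mem (hx i)

theorem logL_eq (c : ℕ) (v : Fin n → ℚ) (Y : Subgroup (GL (Fin n) ℚ)) :
    logL c v Y = AddSubgroup.closure {x | ∃ y ∈ Y, lg c y.val *ᵥ v = x} := by
  rw [logL, lmap, logSpan, AddMonoidHom.map_closure]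
  congr 1
  ext x
  exact ⟨fun ⟨_, ⟨y, hy, rfl⟩, h⟩ => ⟨y, hy, h⟩, fun ⟨y, hy, h⟩ => ⟨_, ⟨y, hy, rfl⟩, h⟩⟩

theorem lmap_closure {a : Matrix (Fin n) (Fin n) ℚ} {s t : Set (Fin n → ℚ)}
    (h : ∀ x ∈ s, a *ᵥ x ∈ t) (h' : ∀ y ∈ t, ∃ x ∈ s, a *ᵥ x = y) :
    lmap a.mulVecLin (AddSubgroup.closure s) = AddSubgroup.closure t := by
  rw [lmap, AddMonoidHom.map_closure]
  congr 1
  ext y
  exact ⟨fun ⟨x, hx, e⟩ => e ▸ h x hx, h' y⟩

theorem inv_mulVec {a : GL (Fin n) ℚ} {v w : Fin n → ℚ} (h : a.val *ᵥ v = w) :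
    (a⁻¹).val *ᵥ w = v := by
  rw [← h, mulVec_mulVec, Units.inv_mul, one_mulVec]

theorem lmap_logL {c : ℕ} {a : GL (Fin n) ℚ} {v : Fin n → ℚ} (ha : a.val *ᵥ v = v)
    {Y Y' : Subgroup (GL (Fin n) ℚ)} (h : Conj a Y Y') :
    lmap a.val.mulVecLin (logL c v Y) = logL c v Y' := by
  have key : ∀ y : GL (Fin n) ℚ, a.val *ᵥ (lg c y.val *ᵥ v) = lg c (a * y * a⁻¹).val *ᵥ v :=
    fun y => by rw [lg_conj, ← mulVec_mulVec, ← mulVec_mulVec, inv_mulVec ha]
  rw [logL_eq, logL_eq]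
  refine lmap_closure ?_ ?_
  · rintro _ ⟨y, hy, rfl⟩
    exact ⟨_, h.1 y hy, (key y).symm⟩
  · rintro _ ⟨y, hy, rfl⟩
    refine ⟨_, ⟨_, h.2 y hy, rfl⟩, ?_⟩
    rw [key]
    congr 3
    group

/-- `β` fixes the unit vector and the structure constants. -/
def Fx (v : Fin n → ℚ) (L : Fin n → Matrix (Fin n) (Fin n) ℚ) (β : GL (Fin n) ℚ) : Prop :=
  β.val *ᵥ v = v ∧ ∀ u : Fin n → ℚ,
    β.val * (∑ i, u i • L i) * (β⁻¹).val = ∑ i, (β.val *ᵥ u) i • L i

theorem Fx.inv {v : Fin n → ℚ} {L : Fin n → Matrix (Fin n) (Fin n) ℚ} {β : GL (Fin n) ℚ}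
    (h : Fx v L β) : Fx v L β⁻¹ := by
  refine ⟨inv_mulVec h.1, fun u => ?_⟩
  have := h.2 ((β⁻¹).val *ᵥ u)
  rw [mulVec_mulVec, Units.mul_inv, one_mulVec] at this
  rw [← this, inv_inv, mul_assoc, mul_assoc, Units.inv_mul, mul_one, Units.inv_mul_cancel_left]

theorem Fx.mul {v : Fin n → ℚ} {L : Fin n → Matrix (Fin n) (Fin n) ℚ} {β δ : GL (Fin n) ℚ}
    (h : Fx v L β) (h' : Fx v L δ) : Fx v L (β * δ) := by
  refine ⟨by rw [Units.val_mul, ← mulVec_mulVec, h'.1, h.1], fun u => ?_⟩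
  rw [_root_.mul_inv_rev, Units.val_mul, Units.val_mul, ← mulVec_mulVec, ← h.2, ← h'.2]
  simp only [mul_assoc]

theorem conj_trans {G : Type} [Group G] {a δ : G} {Y Y' : Subgroup G} (h : Conj a Y Y')
    (h' : Conj δ Y Y) : Conj (a * δ⁻¹) Y Y' := by
  refine ⟨fun y hy => ?_, fun y hy => ?_⟩
  · have := h.1 _ (h'.2 y hy)
    rwa [show a * (δ⁻¹ * y * δ) * a⁻¹ = a * δ⁻¹ * y * (a * δ⁻¹)⁻¹ by group] at this
  · have := h'.1 _ (h.2 y hy)
    rwa [show δ * (a⁻¹ * y * a) * δ⁻¹ = (a * δ⁻¹)⁻¹ * y * (a * δ⁻¹) by group] at this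

end red

section model
variable {B m e κ : ℕ} {γ : Fin B → GL (Fin m) ℚ} {M : Model B}

theorem lg_alg (c : ℕ) (w : Fr B) :
    lg c (M.rho w).val = algOf M.2.2.1 (lg c (MonoidAlgebra.of ℚ (Fr B) w)) := by
  simp only [lg, map_sum, map_smul, map_pow, map_sub, map_one, algOf_of, Model.rho]

theorem span_alg {c : ℕ} {Y : Subgroup (GL (Fin M.1) ℚ)} (hY : Y ≤ M.rho.range)
    {x : Matrix (Fin M.1) (Fin M.1) ℚ} (hx : x ∈ logSpan c Y) : ∃ a, algOf M.2.2.1 a = x := by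
  induction hx using AddSubgroup.closure_induction with
  | mem x h =>
    obtain ⟨y, hy, rfl⟩ := h
    obtain ⟨w, rfl⟩ := hY hy
    exact ⟨_, (lg_alg c w).symm⟩
  | zero => exact ⟨0, map_zero _⟩
  | add x y _ _ hx hy =>
    obtain ⟨a, rfl⟩ := hx
    obtain ⟨a', rfl⟩ := hy
    exact ⟨a + a', map_add _ _ _⟩
  | neg x _ hx =>
    obtain ⟨a, rfl⟩ := hx
    exact ⟨-a, map_neg _ _⟩

/-- A matrix congruent to the identity on the logarithms normalises the group. -/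
theorem conj_mem (hM : M.ok (kerI γ) e) (hκ : KapOk (e + 1) κ) {Y : Subgroup (GL (Fin M.1) ℚ)}
    (hY : Y ≤ M.rho.range) (hU : ∀ y ∈ Y, IsUni M.2.1 y) {δ : GL (Fin M.1) ℚ}
    (hδ : Fx M.2.2.2.1 M.2.2.2.2 δ)
    (h : ∀ x ∈ logL (e + 1) M.2.2.2.1 Y, δ.val *ᵥ x - x ∈ scal κ (logL (e + 1) M.2.2.2.1 Y))
    {y : GL (Fin M.1) ℚ} (hy : y ∈ Y) : δ * y * δ⁻¹ ∈ Y := by
  have sm : ∀ x ∈ logSpan (e + 1) Y, x = ∑ i, (x *ᵥ M.2.2.2.1) i • M.2.2.2.2 i := fun x hx => by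
    obtain ⟨a, rfl⟩ := span_alg hY hx
    exact hM.eq_sum a
  have h1 : lg (e + 1) y.val ∈ logSpan (e + 1) Y := AddSubgroup.subset_closure ⟨y, hy, rfl⟩
  obtain ⟨_, ⟨X, hX, rfl⟩, h2⟩ := h _ ⟨_, h1, rfl⟩
  obtain ⟨y', hy', h3⟩ := hκ _ _ Y hM.1 hU y hy _ ⟨X, hX, rfl⟩
  change (κ : ℚ) • (X *ᵥ M.2.2.2.1) = δ.val *ᵥ (lg (e + 1) y.val *ᵥ M.2.2.2.1) -
    lg (e + 1) y.val *ᵥ M.2.2.2.1 at h2
  change _ = _ + (κ : ℚ) • X at h3
  rw [eq_of_lg_conj hM.1 (hU y hy) (hU y' hy') (g := δ) ?_]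
  · exact hy'
  · rw [h3, sm _ h1, hδ.2, ← sm _ h1, eq_add_of_sub_eq h2.symm]
    simp only [Pi.add_apply, Pi.smul_apply, add_smul, Finset.sum_add_distrib, smul_assoc,
      ← Finset.smul_sum]
    rw [← sm _ h1, ← sm _ hX, add_comm]

theorem conj_self (hM : M.ok (kerI γ) e) (hκ : KapOk (e + 1) κ) {Y : Subgroup (GL (Fin M.1) ℚ)}
    (hY : Y ≤ M.rho.range) (hU : ∀ y ∈ Y, IsUni M.2.1 y) {a β : GL (Fin M.1) ℚ}
    (ha : Fx M.2.2.2.1 M.2.2.2.2 a) (hβ : Fx M.2.2.2.1 M.2.2.2.2 β)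
    (hl : lmap a.val.mulVecLin (logL (e + 1) M.2.2.2.1 Y) =
      lmap β.val.mulVecLin (logL (e + 1) M.2.2.2.1 Y))
    (h : ∀ x ∈ logL (e + 1) M.2.2.2.1 Y,
      (β⁻¹ * a).val *ᵥ x - x ∈ scal κ (logL (e + 1) M.2.2.2.1 Y)) : Conj (β⁻¹ * a) Y Y := by
  have hδ := hβ.inv.mul ha
  refine ⟨fun y hy => conj_mem hM hκ hY hU hδ h hy, fun y hy => ?_⟩
  have := conj_mem hM hκ hY hU hδ.inv (fun x hx => ?_) hy
  · rwa [inv_inv] at this
  · obtain ⟨x', hx', e'⟩ : β.val *ᵥ x ∈ lmap a.val.mulVecLin (logL (e + 1) M.2.2.2.1 Y) :=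
      hl ▸ ⟨x, hx, rfl⟩
    have e2 : (β⁻¹ * a).val *ᵥ x' = x := by
      rw [Units.val_mul, ← mulVec_mulVec]
      exact (congrArg _ e').trans (inv_mulVec rfl)
    rw [inv_mulVec e2, ← neg_sub, ← e2]
    exact neg_mem (h x' hx')

theorem mat_ext (hM : M.ok (kerI γ) e) {x y : Matrix (Fin M.1) (Fin M.1) ℚ}
    (h : ∀ a, x *ᵥ (algOf M.2.2.1 a *ᵥ M.2.2.2.1) = y *ᵥ (algOf M.2.2.1 a *ᵥ M.2.2.2.1)) :
    x = y := by
  refine Matrix.toLin'.injective (LinearMap.ext fun v => ?_)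
  obtain ⟨a, rfl⟩ := hM.surj v
  exact h a

/-- Automorphisms of the free group that do not change `γ` act on the model. -/
theorem exists_gl (hM : M.ok (kerI γ) e) (φ ψ : Fr B →* Fr B) (h1 : ∀ w, φ (ψ w) = w)
    (h2 : ∀ w, ψ (φ w) = w) (hφ : ∀ w, FreeGroup.lift γ (φ w) = FreeGroup.lift γ w) :
    ∃ a : GL (Fin M.1) ℚ, Fx M.2.2.2.1 M.2.2.2.2 a ∧ ∀ w, a * M.rho w * a⁻¹ = M.rho (φ w) := by
  obtain ⟨A, hA⟩ := hM.endo φ hφ
  obtain ⟨A', hA'⟩ := hM.endo ψ fun w => by rw [← hφ, h1]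
  have cp : ∀ (φ ψ : Fr B →* Fr B), (∀ w, φ (ψ w) = w) → ∀ x : QF B,
      MonoidAlgebra.mapDomain φ (MonoidAlgebra.mapDomain ψ x) = x := fun φ ψ h x => by
    induction x using MonoidAlgebra.induction_linear with
    | zero => rw [MonoidAlgebra.mapDomain_zero, MonoidAlgebra.mapDomain_zero]
    | add x y hx hy => rw [MonoidAlgebra.mapDomain_add, MonoidAlgebra.mapDomain_add, hx, hy]
    | single w r => rw [MonoidAlgebra.mapDomain_single, MonoidAlgebra.mapDomain_single, h]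
  let a : GL (Fin M.1) ℚ := ⟨A, A',
    mat_ext hM fun x => by rw [← mulVec_mulVec, hA', hA, cp φ ψ h1, one_mulVec],
    mat_ext hM fun x => by rw [← mulVec_mulVec, hA, hA', cp ψ φ h2, one_mulVec]⟩
  have key : ∀ x, a.val * algOf M.2.2.1 x * (a⁻¹).val =
      algOf M.2.2.1 (MonoidAlgebra.mapDomain φ x) := fun x => by
    rw [Units.mul_inv_eq_iff_eq_mul]
    refine mat_ext hM fun y => ?_
    change (A * _) *ᵥ _ = (_ * A) *ᵥ _
    rw [← mulVec_mulVec, ← mulVec_mulVec, hA, mulVec_mulVec _ (algOf _ x), ← map_mul, hA,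
      MonoidAlgebra.mapDomain_mul, map_mul, mulVec_mulVec]
  refine ⟨a, ⟨?_, fun u => ?_⟩, fun w => Units.ext ?_⟩
  · have := hA 1
    rwa [MonoidAlgebra.mapDomain_one, map_one, one_mulVec] at this
  · obtain ⟨x, rfl⟩ := hM.surj u
    rw [← hM.eq_sum, key, hM.eq_sum, ← hA]
  · have := key (MonoidAlgebra.of ℚ (Fr B) w)
    rw [MonoidAlgebra.of_apply, MonoidAlgebra.mapDomain_single, ← MonoidAlgebra.of_apply,
      ← MonoidAlgebra.of_apply, algOf_of, algOf_of] at this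
    exact this

end model

section dbl
variable {b : ℕ}

/-- The extension to the double by the identity on the second block. -/
def extD (φ : Fr b →* Fr b) : Fr (b + b) →* Fr (b + b) :=
  FreeGroup.lift (Fin.append (fun x => inlF b b (φ (FreeGroup.of x)))
    fun y => FreeGroup.of (Fin.natAdd b y))

theorem ext_right (φ : Fr b →* Fr b) (y : Fin b) :
    extD φ (FreeGroup.of (Fin.natAdd b y)) = FreeGroup.of (Fin.natAdd b y) := by
  rw [extD, FreeGroup.lift_apply_of, Fin.append_right]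

theorem ext_inl (φ : Fr b →* Fr b) (w : Fr b) : extD φ (inlF b b w) = inlF b b (φ w) := by
  refine DFunLike.congr_fun (?_ : (extD φ).comp (inlF b b) = (inlF b b).comp φ) w
  refine FreeGroup.ext_hom _ _ fun x => ?_
  rw [MonoidHom.comp_apply, MonoidHom.comp_apply, inlF, FreeGroup.map.of, extD,
    FreeGroup.lift_apply_of, Fin.append_left, inlF]

theorem dbl_ext {G : Type} [Group G] {f g : Fr (b + b) →* G}
    (h : ∀ w, f (inlF b b w) = g (inlF b b w))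
    (h' : ∀ y, f (FreeGroup.of (Fin.natAdd b y)) = g (FreeGroup.of (Fin.natAdd b y)))
    (w : Fr (b + b)) : f w = g w := by
  refine DFunLike.congr_fun (FreeGroup.ext_hom f g fun x => ?_) w
  induction x using Fin.addCases with
  | left x => exact h (FreeGroup.of x)
  | right y => exact h' y

theorem ext_ext {φ ψ : Fr b →* Fr b} (h : ∀ w, φ (ψ w) = w) (w : Fr (b + b)) :
    extD φ (extD ψ w) = w :=
  dbl_ext (f := (extD φ).comp (extD ψ)) (g := MonoidHom.id _)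
    (fun w => by rw [MonoidHom.comp_apply, ext_inl, ext_inl, h, MonoidHom.id_apply])
    (fun y => by rw [MonoidHom.comp_apply, ext_right, ext_right, MonoidHom.id_apply]) w

theorem fold_inl (w : Fr b) : fold b (inlF b b w) = w := by
  refine DFunLike.congr_fun (?_ : (fold b).comp (inlF b b) = MonoidHom.id _) w
  refine FreeGroup.ext_hom _ _ fun x => ?_
  rw [MonoidHom.comp_apply, inlF, FreeGroup.map.of, fold, FreeGroup.lift_apply_of,
    Fin.append_left, MonoidHom.id_apply]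

theorem fold_ext {G : Type} [Group G] (f : Fr b →* G) {φ : Fr b →* Fr b} (h : ∀ w, f (φ w) = f w)
    (w : Fr (b + b)) : f (fold b (extD φ w)) = f (fold b w) :=
  dbl_ext (f := (f.comp (fold b)).comp (extD φ)) (g := f.comp (fold b))
    (fun w => by simp only [MonoidHom.comp_apply, ext_inl, fold_inl, h])
    (fun y => by simp only [MonoidHom.comp_apply, ext_right]) w

theorem mem_im {M : Model (b + b)} {S : Subgroup (Fr b)} {y : GL (Fin M.1) ℚ} :
    y ∈ M.im S ↔ ∃ s ∈ S, M.rho (inlF b b s) = y := by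
  simp only [Model.im, Subgroup.mem_map, Model.rho, lift_inlF]

end dbl

end NSoundAux

open NSoundAux

variable {b m e κ : ℕ} {γ : Fin b → GL (Fin m) ℚ} {M : Model (b + b)} {N S S' : Subgroup (Fr b)}

theorem core_btok (hM : M.ok (kerI (Fin.append γ γ)) e) (hκ : 0 < κ) :
    BTok (M.bt (e + 1) κ N S S') := by
  obtain ⟨r, hr, h⟩ := exists_zinv (ι := (Fin (b + b) × Fin M.1 × Fin M.1) ⊕
      (Fin (b + b) × Fin M.1 × Fin M.1) ⊕ Fin M.1 ⊕ Fin (e + 1))
    (Sum.elim (fun p => (M.2.2.1 p.1).val p.2.1 p.2.2) (Sum.elim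
      (fun p => (M.2.2.1 p.1).inv p.2.1 p.2.2) (Sum.elim M.2.2.2.1 fun k => (((k : ℕ) : ℚ) + 1)⁻¹)))
  have h1 : ∀ x, (M.2.2.1 x).val ∈ (Zinv r).matrix := fun x i j => h (.inl (x, i, j))
  have h2 : ∀ x, (M.2.2.1 x).inv ∈ (Zinv r).matrix := fun x i j => h (.inr (.inl (x, i, j)))
  have h3 : ∀ i, M.2.2.2.1 i ∈ Zinv r := fun i => h (.inr (.inr (.inl i)))
  have h4 : ∀ k : Fin (e + 1), (((k : ℕ) : ℚ) + 1)⁻¹ ∈ Zinv r := fun k => h (.inr (.inr (.inr k)))
  have o : ∀ {B : ℕ} (f : Fin B → Fin (b + b)), Red (orbL (fun x => M.2.2.1 (f x)) M.2.2.2.1) :=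
    fun f => ⟨r, hr, fun x hx => by
      rw [orbL_eq] at hx
      refine closure_mem ?_ hx
      rintro _ ⟨w, rfl⟩
      exact mulVec_mem (lift_mem (fun x => h1 (f x)) (fun x => h2 (f x)) w) h3⟩
  have l : ∀ Y ≤ M.rho.range, Red (logL (e + 1) M.2.2.2.1 Y) := fun Y hY => ⟨r, hr, fun x hx => by
    rw [logL_eq] at hx
    refine closure_mem ?_ hx
    rintro _ ⟨y, hy, rfl⟩
    obtain ⟨w, rfl⟩ := hY hy
    exact mulVec_mem (lg_mem h4 (lift_mem h1 h2 w)) h3⟩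
  have i : ∀ S, M.im S ≤ M.rho.range := fun S y hy => let ⟨_, _, h⟩ := mem_im.1 hy; ⟨_, h⟩
  have sp : qspan (orbL M.2.2.1 M.2.2.2.1) = ⊤ := by
    refine top_unique fun v _ => ?_
    obtain ⟨a, rfl⟩ := hM.surj v
    induction a using MonoidAlgebra.induction_on with
    | of w =>
      rw [algOf_of, orbL_eq]
      exact Submodule.subset_span (AddSubgroup.subset_closure ⟨w, rfl⟩)
    | add x y hx hy =>
      rw [map_add, add_mulVec]
      exact add_mem (hx trivial) (hy trivial)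
    | smul q x hx =>
      rw [map_smul, smul_mulVec]
      exact Submodule.smul_mem _ _ (hx trivial)
  refine ⟨hκ, fun (L : LPair M.1) (hL : L ∈ M.lats (e + 1) (M.big N) (M.im S) (M.im S')) => ?_,
    _, List.mem_cons_self .., sp, sp⟩
  simp only [Model.lats, List.mem_cons, List.not_mem_nil, or_false] at hL
  rcases hL with rfl | rfl | rfl | rfl
  · exact ⟨o id, o id⟩
  · exact ⟨o _, o _⟩
  · exact ⟨l _ (Subgroup.map_le_range _ _), l _ (Subgroup.map_le_range _ _)⟩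
  · exact ⟨l _ (i S), l _ (i S')⟩

theorem core_sound [N.Normal] (hM : M.ok (kerI (Fin.append γ γ)) e)
    (hγ : N ≤ (FreeGroup.lift γ).ker) (hS : S ≤ N) (hS' : S' ≤ N) (hκ : KapOk (e + 1) κ)
    {α : Fr b ≃* Fr b} (hα : S.map α.toMonoidHom = S') (hαN : ∀ g, α g * g⁻¹ ∈ N)
    {R : List (GL (Fin M.1) ℚ)} (hR : BTCover (M.bt (e + 1) κ N S S') R) :
    ∃ β ∈ R, M.Pass (e + 1) N S S' β := by
  have q1 : ∀ w, QuotientGroup.mk' N (α.toMonoidHom w) = QuotientGroup.mk' N w := fun w =>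
    QuotientGroup.eq_iff_div_mem.2 (div_eq_mul_inv (α w) w ▸ hαN w)
  have q2 : ∀ w, QuotientGroup.mk' N (α.symm.toMonoidHom w) = QuotientGroup.mk' N w := fun w => by
    rw [← q1]
    exact congrArg _ (α.apply_symm_apply w)
  have g1 : ∀ w, FreeGroup.lift γ (α.toMonoidHom w) = FreeGroup.lift γ w := fun w => by
    have := hγ (hαN w)
    rwa [MonoidHom.mem_ker, map_mul, map_inv, mul_inv_eq_one] at this
  have i1 : ∀ w, extD α.toMonoidHom (extD α.symm.toMonoidHom w) = w := ext_ext α.apply_symm_apply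
  have i2 : ∀ w, extD α.symm.toMonoidHom (extD α.toMonoidHom w) = w := ext_ext α.symm_apply_apply
  obtain ⟨a, ha, hc⟩ := exists_gl hM _ _ i1 i2 fun w => by
    rw [lift_append_self, lift_append_self, fold_ext _ g1]
  have hc' : ∀ w, a⁻¹ * M.rho w * a = M.rho (extD α.symm.toMonoidHom w) := fun w => by
    conv_lhs => rw [← i1 w, ← hc]
    group
  have hv : ∀ w, a.val *ᵥ ((M.rho w).val *ᵥ M.2.2.2.1) =
      (M.rho (extD α.toMonoidHom w)).val *ᵥ M.2.2.2.1 := fun w => by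
    rw [← hc, Units.val_mul, Units.val_mul, ← mulVec_mulVec, ← mulVec_mulVec, inv_mulVec ha.1]
  have fN : ∀ {φ : Fr b →* Fr b}, (∀ w, QuotientGroup.mk' N (φ w) = QuotientGroup.mk' N w) →
      ∀ w ∈ N.comap (fold b), extD φ w ∈ N.comap (fold b) := fun h w hw =>
    (QuotientGroup.eq_one_iff (N := N) (fold b _)).1
      ((fold_ext _ h w).trans ((QuotientGroup.eq_one_iff (N := N) (fold b w)).2 hw))
  have c1 : Conj a (M.big N) (M.big N) := by
    constructor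
    · rintro _ ⟨w, hw, rfl⟩
      exact ⟨_, fN q1 w hw, (hc w).symm⟩
    · rintro _ ⟨w, hw, rfl⟩
      exact ⟨_, fN q2 w hw, (hc' w).symm⟩
  have c2 : Conj a (M.im S) (M.im S') := by
    refine ⟨fun y hy => ?_, fun y hy => ?_⟩ <;> obtain ⟨s, hs, rfl⟩ := mem_im.1 hy
    · exact mem_im.2 ⟨α.toMonoidHom s, hα.le ⟨s, hs, rfl⟩, by rw [hc, ext_inl]⟩
    · rw [← hα] at hs
      obtain ⟨s, hs, rfl⟩ := hs
      refine mem_im.2 ⟨s, hs, ?_⟩
      rw [hc', ext_inl]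
      exact congrArg _ (congrArg _ (α.symm_apply_apply s).symm)
  have iso : IsoL M.tens (M.lats (e + 1) (M.big N) (M.im S) (M.im S')) a := by
    refine ⟨fun t ht => ?_, fun L hL => ?_⟩
    · simp only [Model.tens, List.mem_cons, List.mem_ofFn] at ht
      rcases ht with rfl | rfl | ⟨z, rfl⟩
      · exact (act_mulT _ _).2 ha.2
      · exact (act_vecT _ _).2 ha.1
      · have := hv (FreeGroup.of (Fin.natAdd b z))
        rw [ext_right, Model.rho, FreeGroup.lift_apply_of] at this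
        exact (act_vecT _ _).2 this
    · simp only [Model.lats, List.mem_cons, List.not_mem_nil, or_false] at hL
      rcases hL with rfl | rfl | rfl | rfl
      · simp only [orbL_eq]
        refine lmap_closure ?_ ?_
        · rintro _ ⟨w, rfl⟩
          exact ⟨_, (hv w).symm⟩
        · rintro _ ⟨w, rfl⟩
          exact ⟨_, ⟨_, rfl⟩, (hv _).trans (by rw [i1]; rfl)⟩
      · simp only [orbL_eq, ← lift_inlF]
        refine lmap_closure ?_ ?_
        · rintro _ ⟨w, rfl⟩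
          exact ⟨_, ((hv _).trans (by rw [ext_inl]; rfl)).symm⟩
        · rintro _ ⟨w, rfl⟩
          refine ⟨_, ⟨α.symm w, rfl⟩, (hv _).trans ?_⟩
          rw [ext_inl, show α.toMonoidHom (α.symm w) = w from α.apply_symm_apply w]
          rfl
      · exact lmap_logL ha.1 c1
      · exact lmap_logL ha.1 c2
  obtain ⟨β, hβ, hi, hd⟩ : ∃ β ∈ R, IsoL M.tens (M.lats (e + 1) (M.big N) (M.im S) (M.im S')) β ∧
      ∀ L ∈ M.lats (e + 1) (M.big N) (M.im S) (M.im S'), ∀ x ∈ L.1,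
        (β⁻¹ * a).val *ᵥ x - x ∈ scal κ L.1 := hR a iso
  have hb : Fx M.2.2.2.1 M.2.2.2.2 β :=
    ⟨(act_vecT _ _).1 (hi.1 _ (List.mem_cons_of_mem _ (List.mem_cons_self ..))),
      (act_mulT _ _).1 (hi.1 _ (List.mem_cons_self ..))⟩
  have u1 : ∀ y ∈ M.big N, IsUni M.2.1 y := by
    rintro _ ⟨w, hw, rfl⟩
    refine (hM.adapt (N := N.comap (fold b)) fun w hw => ?_).2.2 w hw
    rw [MonoidHom.mem_ker, lift_append_self]
    exact hγ hw
  have i3 : M.im S ≤ M.big N := fun y hy => by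
    obtain ⟨s, hs, rfl⟩ := mem_im.1 hy
    exact ⟨_, show fold b (inlF b b s) ∈ N by rw [fold_inl]; exact hS hs, rfl⟩
  have r1 : M.big N ≤ M.rho.range := Subgroup.map_le_range _ _
  have m3 : (logL (e + 1) M.2.2.2.1 (M.big N), logL (e + 1) M.2.2.2.1 (M.big N)) ∈
      M.lats (e + 1) (M.big N) (M.im S) (M.im S') := by simp [Model.lats]
  have m4 : (logL (e + 1) M.2.2.2.1 (M.im S), logL (e + 1) M.2.2.2.1 (M.im S')) ∈
      M.lats (e + 1) (M.big N) (M.im S) (M.im S') := by simp [Model.lats]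
  have eb : β = a * (β⁻¹ * a)⁻¹ := by group
  refine ⟨β, hβ, hi, ?_, ?_⟩ <;> rw [eb]
  · exact conj_trans c1 (conj_self hM hκ r1 u1 ha hb ((iso.2 _ m3).trans (hi.2 _ m3).symm)
      (hd _ m3))
  · exact conj_trans c2 (conj_self hM hκ (i3.trans r1) (fun y hy => u1 y (i3 hy)) ha hb
      ((iso.2 _ m4).trans (hi.2 _ m4).symm) (hd _ m4))

end Pool.Agent.P.MP_257122_al
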