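import Mathlib

/-!
# Represented types

A representation of a type `T` says which natural numbers are codes of which elements.
`CS f` says that the (dependent) function `f` is computable on codes.  With the Sierpinski
representation of `Prop`, `CS P` says that the predicate `P` is recursively enumerable.
-/

namespace Pool.Agent.P.MP_257122_al

open Nat.Partrec (Code)

/-- `Rep.R c x`: the number `c` is a code of `x`. -/
class Rep (T : Type) where
  R : ℕ → T → Prop

/-- Run program number `c` on input `d`. -/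
def ev (c d : ℕ) : Part ℕ := Code.eval (Denumerable.ofNat Code c) d

/-- `f` is computable on codes. -/
def CS {A : Type} [Rep A] {T : A → Type} [∀ a, Rep (T a)] (f : ∀ a, T a) : Prop :=
  ∃ F : ℕ →. ℕ, Partrec F ∧ ∀ c a, Rep.R c a → ∃ d ∈ F c, Rep.R d (f a)

/-- `x` has a code. -/
def Coded {T : Type} [Rep T] (x : T) : Prop := ∃ c, Rep.R c x

/-- Every element has a code. -/
class Tot (T : Type) [Rep T] : Prop where
  tot : ∀ x : T, Coded x

/-- Equality of two representations, found by instance search. -/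
class RepEq {T : Type} (i j : Rep T) : Prop where
  eq : i = j

/-- The identity on representations; it delays unification. -/
@[reducible] def Rep.w {T : Type} (j : Rep T) : Rep T := j

instance RepEq.refl {T : Type} (i : Rep T) : RepEq i i := ⟨rfl⟩

instance repNat : Rep ℕ := ⟨fun c n => c = n⟩
instance repUnit : Rep Unit := ⟨fun _ _ => True⟩
instance repBool : Rep Bool := ⟨fun c b => c = b.toNat⟩
instance repProp : Rep Prop := ⟨fun c p => ((ev c 0).Dom ↔ p)⟩
instance repPi {ι : Type} {T : ι → Type} [Rep ι] [∀ i, Rep (T i)] : Rep (∀ i, T i) :=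
  ⟨fun c f => ∀ d i, Rep.R d i → ∃ e ∈ ev c d, Rep.R e (f i)⟩
instance repSigma {α : Type} {β : α → Type} [Rep α] [∀ a, Rep (β a)] : Rep (Σ a, β a) :=
  ⟨fun c p => Rep.R c.unpair.1 p.1 ∧ Rep.R c.unpair.2 p.2⟩
instance repProd {α β : Type} [Rep α] [Rep β] : Rep (α × β) :=
  ⟨fun c p => Rep.R c.unpair.1 p.1 ∧ Rep.R c.unpair.2 p.2⟩
instance repSum {α β : Type} [Rep α] [Rep β] : Rep (α ⊕ β) :=
  ⟨fun c s => Sum.elim (fun x => c.unpair.1 = 0 ∧ Rep.R c.unpair.2 x)
    (fun y => c.unpair.1 = 1 ∧ Rep.R c.unpair.2 y) s⟩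
instance repSubtype {α : Type} {p : α → Prop} [Rep α] : Rep (Subtype p) :=
  ⟨fun c x => Rep.R c x.1⟩
instance repFin {n : ℕ} : Rep (Fin n) := ⟨fun c i => c = i.1⟩
instance repList {α : Type} [Rep α] : Rep (List α) :=
  ⟨fun c l => List.Forall₂ Rep.R (Denumerable.ofNat (List ℕ) c) l⟩
instance repSet {α : Type} [Rep α] : Rep (Set α) := inferInstanceAs (Rep (α → Prop))
instance repMatrix {m n R : Type} [Rep m] [Rep n] [Rep R] : Rep (Matrix m n R) :=
  inferInstanceAs (Rep (m → n → R))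
instance repPrimes : Rep Nat.Primes := ⟨fun c p => c = p.1⟩
instance repUnits {M : Type} [Monoid M] [Rep M] : Rep Mˣ :=
  ⟨fun c u => Rep.R c ((u.val, u.inv) : M × M)⟩

/-- The representation of `T` by codes of preimages under `φ`. -/
@[reducible] def Rep.ofMap {U T : Type} [Rep U] (φ : U → T) : Rep T :=
  ⟨fun c t => ∃ u, Rep.R c u ∧ φ u = t⟩

/-- The representation of `T` by codes of images under `ψ`. -/
@[reducible] def Rep.ofPull {U T : Type} [Rep U] (ψ : T → U) : Rep T :=
  ⟨fun c t => Rep.R c (ψ t)⟩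

instance repInt : Rep ℤ := Rep.ofMap (fun p : ℕ × ℕ => (p.1 : ℤ) - p.2)
instance repRat : Rep ℚ := Rep.ofMap (fun p : ℤ × ℕ => (p.1 : ℚ) / ((p.2 : ℚ) + 1))
instance repFreeGroup {ι : Type} [Rep ι] : Rep (FreeGroup ι) :=
  Rep.ofMap (fun l : List (ι × Bool) => FreeGroup.mk l)
instance repSubgroup {G : Type} [Group G] [Rep G] : Rep (Subgroup G) :=
  Rep.ofPull (fun S => (S : Set G))
instance repMonoidHom {G H : Type} [MulOneClass G] [MulOneClass H] [Rep G] [Rep H] :
    Rep (G →* H) := Rep.ofPull (fun φ => (φ : G → H))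
instance repLinearMap {R V W : Type} [Semiring R] [AddCommMonoid V] [AddCommMonoid W]
    [Module R V] [Module R W] [Rep V] [Rep W] : Rep (V →ₗ[R] W) :=
  Rep.ofPull (fun φ => (φ : V → W))
noncomputable instance repPolynomial {R : Type} [Semiring R] [Rep R] : Rep (Polynomial R) :=
  Rep.ofMap (fun l : List (R × ℕ) => (l.map fun p => Polynomial.monomial p.2 p.1).sum)
noncomputable instance repMvPolynomial {σ R : Type} [CommSemiring R] [Rep σ] [Rep R] :
    Rep (MvPolynomial σ R) :=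
  Rep.ofMap (fun l : List (R × List σ) =>
    (l.map fun p => MvPolynomial.C p.1 * (p.2.map MvPolynomial.X).prod).sum)
noncomputable instance repMonoidAlgebra {R G : Type} [Semiring R] [Rep R] [Rep G] :
    Rep (MonoidAlgebra R G) :=
  Rep.ofMap (fun l : List (R × G) => (l.map fun p => MonoidAlgebra.single p.2 p.1).sum)
/-- Subspaces are coded by finite spanning lists. -/
instance repSubmodule {V : Type} [AddCommGroup V] [Module ℚ V] [Rep V] : Rep (Submodule ℚ V) :=
  Rep.ofMap (fun l : List V => Submodule.span ℚ {x | x ∈ l})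

/-- Subsets coded by a code of one of their elements. -/
def Sel (T : Type) : Type := T → Prop

instance repSel {T : Type} [Rep T] : Rep (Sel T) := ⟨fun c S => ∃ x, S x ∧ Rep.R c x⟩

section
variable {A : Type} [Rep A]

/-- From a code of `a` one can compute a code of some `x` with `Q a x`. -/
def MV {T : A → Type} [∀ a, Rep (T a)] (Q : ∀ a, T a → Prop) : Prop :=
  CS (T := fun a => Sel (T a)) Q

/-- A set of codes covering all elements can be enumerated. -/
def Enum (T : A → Type) [∀ a, Rep (T a)] : Prop :=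
  ∃ E : ℕ × ℕ → Prop, REPred E ∧ ∀ c a, Rep.R c a →
    (∀ d, E (c, d) → ∃ x : T a, Rep.R d x) ∧ ∀ x : T a, ∃ d, E (c, d) ∧ Rep.R d x

/-- A set of codes covering all coded elements can be enumerated. -/
def EnumC (T : A → Type) [∀ a, Rep (T a)] : Prop :=
  ∃ E : ℕ × ℕ → Prop, REPred E ∧ ∀ c a, Rep.R c a →
    (∀ d, E (c, d) → ∃ x : T a, Rep.R d x) ∧ ∀ x : T a, Coded x → ∃ d, E (c, d) ∧ Rep.R d x

/-- A repetition-free list of all elements can be computed. -/
def CFin (T : A → Type) [∀ a, Rep (T a)] : Prop :=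
  MV (T := fun a => List (T a)) (fun _ l => l.Nodup ∧ ∀ x, x ∈ l)

/-- Equality is recursively enumerable. -/
def Disc (T : A → Type) [∀ a, Rep (T a)] : Prop :=
  CS (fun p : Σ a, T a × T a => p.2.1 = p.2.2)

/-- Inequality is recursively enumerable. -/
def Haus (T : A → Type) [∀ a, Rep (T a)] : Prop :=
  CS (fun p : Σ a, T a × T a => p.2.1 ≠ p.2.2)

def LeF (T : A → Type) [∀ a, Rep (T a)] [∀ a, LE (T a)] : Prop :=
  CS (fun p : Σ a, T a × T a => p.2.1 ≤ p.2.2)
def LtF (T : A → Type) [∀ a, Rep (T a)] [∀ a, LT (T a)] : Prop :=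
  CS (fun p : Σ a, T a × T a => p.2.1 < p.2.2)
def ZeroF (T : A → Type) [∀ a, Rep (T a)] [∀ a, Zero (T a)] : Prop := CS (fun a => (0 : T a))
def OneF (T : A → Type) [∀ a, Rep (T a)] [∀ a, One (T a)] : Prop := CS (fun a => (1 : T a))
def AddF (T : A → Type) [∀ a, Rep (T a)] [∀ a, Add (T a)] : Prop :=
  CS (fun p : Σ a, T a × T a => p.2.1 + p.2.2)
def MulF (T : A → Type) [∀ a, Rep (T a)] [∀ a, Mul (T a)] : Prop :=
  CS (fun p : Σ a, T a × T a => p.2.1 * p.2.2)
def NegF (T : A → Type) [∀ a, Rep (T a)] [∀ a, Neg (T a)] : Prop :=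
  CS (fun p : Σ a, T a => -p.2)
def InvF (T : A → Type) [∀ a, Rep (T a)] [∀ a, Inv (T a)] : Prop :=
  CS (fun p : Σ a, T a => p.2⁻¹)
def SMulF (M T : A → Type) [∀ a, Rep (M a)] [∀ a, Rep (T a)] [∀ a, SMul (M a) (T a)] : Prop :=
  CS (fun p : Σ a, M a × T a => p.2.1 • p.2.2)
def RatF (T : A → Type) [∀ a, Rep (T a)] [∀ a, Semiring (T a)] [∀ a, Algebra ℚ (T a)] : Prop :=
  CS (fun p : Σ _ : A, ℚ => algebraMap ℚ (T p.1) p.2)

/-- Computable coordinates on a family of rational vector spaces. -/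
def CoordF (V : A → Type) [∀ a, Rep (V a)] [∀ a, AddCommGroup (V a)] [∀ a, Module ℚ (V a)] :
    Prop :=
  MV (fun a (q : Σ n : ℕ, (V a →ₗ[ℚ] (Fin n → ℚ)) × ((Fin n → ℚ) →ₗ[ℚ] V a)) =>
    q.2.2 ∘ₗ q.2.1 = LinearMap.id ∧ q.2.1 ∘ₗ q.2.2 = LinearMap.id)

end

end Pool.Agent.P.MP_257122_al
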