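import Pool.Agent.P.MP_257122_al.SNil

/-!
# The canonical subgroup is nilpotent

PLAN (`torsion_finite`).  `R` = the commutative subring of `End M` generated by the action of the
generators of `T` and their inverses is Noetherian, `M` is a finite `R`-module, so the torsion
submodule is finitely generated, has bounded exponent, and is finite (`RkLe.finite_of_exp`).
PLAN (`exists_nil_Ncan`).  `D = dres e₁ G`, `M = D / D'` (`exists_secZ`), `Ñ = Ncan e₁ e₁ G`.
`res e₁ / Ñ` is finitely generated abelian; with `n` the exponent of its torsion, `powS n (res e₁) ⊔ Ñ`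
has finite index and no torsion modulo `Ñ`; the centraliser of the finite group `torsion M` has finite
index; take `e'` = the index of the intersection (`res_le_of_index`).  `N = Ncan e₁ e₂ G` is finitely
generated modulo `D` (`VAb.noeth`), its generators act on `M` by commuting operators with
`(act n - 1) ^ (k + 1) = 0`; hence `[D, k' N] ≤ D'`; `hall_nil`; `⁅N, N⁆ ≤ D`.
PLAN (`exists_res_inf_le`).  In `Γ = G / powS q N` the image `Φ` of `N` is finite (nilpotent of
finite rank and generated... every lower central factor has exponent `q` and finite rank).  `C` = the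
centraliser of `Φ` in `T`; `⁅C, C⁆ ≤ Φ` is central in `C`, so `a`-th powers (`a = card Φ`) are central;
they generate a finitely generated abelian subgroup `Z` of finite index, and `Z ^ n` is torsion-free.
-/

namespace Pool.Agent.P.MP_257122_al

variable {G : Type} [Group G]

namespace SCanAux

open scoped commutatorElement

section ring
variable {M : Type} [AddCommGroup M]

theorem exists_ring (act : G →* Module.End ℤ M) {T : Subgroup G} (hT : T.FG)
    (hc : ∀ a ∈ T, ∀ b ∈ T, act a * act b = act b * act a) :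
    ∃ (A : Type) (_ : CommRing A) (_ : IsNoetherianRing A) (ι : A →+* Module.End ℤ M),
      ∀ t ∈ T, ∃ a, ι a = act t := by
  have h1 := (Group.fg_iff_subgroup_fg T).2 hT
  have h2 : Group.FG (Abelianization T) :=
    Group.fg_of_surjective (f := Abelianization.of) QuotientGroup.mk_surjective
  have h3 : commutator T ≤ (act.comp T.subtype).ker :=
    Subgroup.commutator_le.2 fun a _ b _ => by
      rw [MonoidHom.mem_ker, commutatorElement_def, map_mul, map_mul, map_mul]
      simp only [MonoidHom.comp_apply, Subgroup.subtype_apply]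
      rw [hc _ a.2 _ b.2, ← map_mul, ← map_mul, ← map_mul]
      simp
  let f : Abelianization T →* Module.End ℤ M := QuotientGroup.lift (commutator T) _ h3
  refine ⟨MonoidAlgebra ℤ (Abelianization T), inferInstance,
    Algebra.FiniteType.isNoetherianRing ℤ _, (MonoidAlgebra.lift ℤ _ _ f).toRingHom,
    fun t ht => ⟨MonoidAlgebra.of _ _ (Abelianization.of ⟨t, ht⟩), ?_⟩⟩
  exact MonoidAlgebra.lift_of f _

theorem prod_zero (act : G →* Module.End ℤ M) {T N : Subgroup G} (hT : T.FG)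
    (hc : ∀ a ∈ T, ∀ b ∈ T, act a * act b = act b * act a) (hN : N ≤ T)
    (hn : ∀ g ∈ N, IsNilpotent (act g - 1)) : ∃ k, ∀ l : List G, (∀ x ∈ l, x ∈ N) →
      l.length = k → (l.map fun x => act x - 1).prod = 0 := by
  obtain ⟨A, _, _, ι, hι⟩ := exists_ring act hT hc
  obtain ⟨k, hk⟩ := Ideal.exists_pow_le_of_le_radical_of_fg (I := (RingHom.ker ι).radical) le_rfl
    (IsNoetherian.noetherian _)
  have key : ∀ l : List G, (∀ x ∈ l, x ∈ N) →
      ∃ a ∈ (RingHom.ker ι).radical ^ l.length, ι a = (l.map fun x => act x - 1).prod := by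
    intro l hl
    induction l with
    | nil => exact ⟨1, by simp, by simp⟩
    | cons x l ih =>
      obtain ⟨a, ha, e⟩ := ih fun y hy => hl y (List.mem_cons_of_mem _ hy)
      have hx := hl x List.mem_cons_self
      obtain ⟨b, hb⟩ := hι x (hN hx)
      obtain ⟨j, hj⟩ := hn x hx
      refine ⟨(b - 1) * a, ?_, by rw [map_mul, map_sub, map_one, hb, e]; simp⟩
      rw [List.length_cons, pow_succ']
      refine Ideal.mul_mem_mul ⟨j, ?_⟩ ha
      rw [RingHom.mem_ker, map_pow, map_sub, map_one, hb, hj]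
  refine ⟨k, fun l hl hlk => ?_⟩
  obtain ⟨a, ha, e⟩ := key l hl
  rw [← e]
  exact hk (hlk ▸ ha)

theorem mem_tors {x : M} : x ∈ Submodule.torsion ℤ M ↔ ∃ n : ℕ, 0 < n ∧ n • x = 0 := by
  rw [Submodule.mem_torsion_iff]
  constructor
  · rintro ⟨⟨a, ha⟩, h⟩
    refine ⟨a.natAbs, Int.natAbs_pos.2 (nonZeroDivisors.ne_zero ha), ?_⟩
    have h' : a • x = 0 := h
    rw [← natCast_zsmul]
    rcases Int.natAbs_eq a with e | e
    · rwa [← e]
    · rw [e, neg_smul, neg_eq_zero] at h'
      exact h'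
  · rintro ⟨n, hn, h⟩
    refine ⟨⟨n, mem_nonZeroDivisors_of_ne_zero (by exact_mod_cast hn.ne')⟩, ?_⟩
    change (n : ℤ) • x = 0
    rwa [natCast_zsmul]

/-- An equivariant additive map on a normal subgroup. -/
structure Sec (D : Subgroup G) (act : G →* Module.End ℤ M) (δ : G → M) : Prop where
  add : ∀ c ∈ D, ∀ c' ∈ D, δ (c * c') = δ c + δ c'
  conj : ∀ g, ∀ c ∈ D, δ (g * c * g⁻¹) = act g (δ c)

variable {D : Subgroup G} {act : G →* Module.End ℤ M} {δ : G → M}

/-- The restriction as a homomorphism. -/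
def Sec.hom (h : Sec D act δ) : D →* Multiplicative M :=
  MonoidHom.mk' (fun c => Multiplicative.ofAdd (δ c)) fun a b => by
    rw [← ofAdd_add, ← h.add _ a.2 _ b.2]; rfl

theorem Sec.one (h : Sec D act δ) : δ 1 = 0 := congrArg Multiplicative.toAdd (map_one h.hom)

theorem Sec.inv (h : Sec D act δ) {c : G} (hc : c ∈ D) : δ c⁻¹ = -δ c :=
  congrArg Multiplicative.toAdd (map_inv h.hom ⟨c, hc⟩)

theorem Sec.pow (h : Sec D act δ) {c : G} (hc : c ∈ D) (m : ℕ) : δ (c ^ m) = m • δ c :=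
  congrArg Multiplicative.toAdd (map_pow h.hom ⟨c, hc⟩ m)

/-- The preimage of a submodule. -/
def Sec.pre (h : Sec D act δ) (U : Submodule ℤ M) : Subgroup G where
  carrier := {c | c ∈ D ∧ δ c ∈ U}
  mul_mem' := fun {a b} ha hb =>
    ⟨D.mul_mem ha.1 hb.1, by rw [h.add _ ha.1 _ hb.1]; exact U.add_mem ha.2 hb.2⟩
  one_mem' := ⟨D.one_mem, by rw [h.one]; exact U.zero_mem⟩
  inv_mem' := fun {a} ha => ⟨D.inv_mem ha.1, by rw [h.inv ha.1]; exact U.neg_mem ha.2⟩

theorem Sec.act_one (h : Sec D act δ) (hs : ∀ x, ∃ c ∈ D, δ c = x) {d : G} (hd : d ∈ D) :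
    act d = 1 := by
  ext x
  obtain ⟨c, hc, rfl⟩ := hs x
  rw [← h.conj d c hc, h.add _ (D.mul_mem hd hc) _ (D.inv_mem hd), h.add _ hd _ hc, h.inv hd]
  simp

theorem Sec.itc [D.Normal] (h : Sec D act δ) (g : G) {c : G} (hc : c ∈ D) (k : ℕ) :
    δ (itc g c k) = ((act g - 1) ^ k) (δ c) := by
  induction k with
  | zero => rfl
  | succ k ih =>
    have h1 := itc_mem g hc k
    rw [itc_succ, h.add _ (Subgroup.Normal.conj_mem inferInstance _ h1 g) _ (D.inv_mem h1),
      h.conj g _ h1, h.inv h1, ih, pow_succ']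
    simp [sub_eq_add_neg]

theorem Sec.iter [D.Normal] (h : Sec D act δ) (N : Subgroup G) (k : ℕ) :
    (fun H => ⁅H, N⁆)^[k] D ≤ h.pre ((brk act N)^[k] ⊤) := by
  induction k with
  | zero => exact fun c hc => ⟨hc, trivial⟩
  | succ k ih =>
    rw [Function.iterate_succ_apply', Function.iterate_succ_apply']
    refine Subgroup.commutator_le.2 fun c hc n hn => ?_
    obtain ⟨h1, h2⟩ := ih hc
    have h3 : n * c⁻¹ * n⁻¹ ∈ D := Subgroup.Normal.conj_mem inferInstance _ (D.inv_mem h1) n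
    have e : ⁅c, n⁆ = c * (n * c⁻¹ * n⁻¹) := by rw [commutatorElement_def]; group
    rw [e]
    refine ⟨D.mul_mem h1 h3, Submodule.subset_span ⟨n, hn, -δ c, Submodule.neg_mem _ h2, ?_⟩⟩
    rw [h.add _ h1 _ h3, h.conj _ _ (D.inv_mem h1), h.inv h1]
    abel

end ring

theorem exists_tf {A : Type} [CommGroup A] [Group.FG A] :
    ∃ B : Subgroup A, B.FiniteIndex ∧ ∀ b ∈ B, ∀ m, 0 < m → b ^ m = 1 → b = 1 := by
  have h1 := (Group.fg_iff_subgroup_fg _).2 (gb_fg (CommGroup.torsion A))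
  have h2 : Finite (CommGroup.torsion A) :=
    CommGroup.finite_of_fg_isMulTorsion _ fun x =>
      (Subgroup.subtype_injective _).isOfFinOrder_iff.1 x.2
  have h3 : Nat.card (CommGroup.torsion A) ≠ 0 := Nat.card_pos.ne'
  refine ⟨_, Subgroup.finiteIndex_range_powMonoidHom_of_fg A h3, ?_⟩
  rintro _ ⟨a, rfl⟩ m hm h
  rw [powMonoidHom_apply] at h ⊢
  have h4 : a ∈ CommGroup.torsion A := isOfFinOrder_iff_pow_eq_one.2
    ⟨Nat.card (CommGroup.torsion A) * m, Nat.mul_pos (Nat.pos_of_ne_zero h3) hm, by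
      rwa [pow_mul]⟩
  exact congrArg Subtype.val (pow_card_eq_one' (x := (⟨a, h4⟩ : CommGroup.torsion A)))

theorem fi_map {T : Subgroup G} [T.FiniteIndex] (K : Subgroup T) [K.FiniteIndex] :
    (K.map T.subtype).FiniteIndex :=
  ⟨by
    rw [Subgroup.index_map_subtype]
    exact mul_ne_zero Subgroup.FiniteIndex.index_ne_zero Subgroup.FiniteIndex.index_ne_zero⟩

theorem exists_tf_mod [Group.FG G] {T N : Subgroup G} [T.FiniteIndex] [N.Normal]
    (hT : ⁅T, T⁆ ≤ N) :
    ∃ K : Subgroup G, K.FiniteIndex ∧ ∀ g ∈ K, ∀ m, 0 < m → g ^ m ∈ N → g ∈ N := by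
  obtain ⟨A, _, π, hπ, hk⟩ := gb_quot hT
  have h1 : Group.FG A := Group.fg_of_surjective hπ
  obtain ⟨B, hB, hB'⟩ := exists_tf (A := A)
  have h2 : (B.comap π).FiniteIndex :=
    ⟨by rw [Subgroup.index_comap_of_surjective _ hπ]; exact hB.index_ne_zero⟩
  refine ⟨_, fi_map (B.comap π), ?_⟩
  rintro _ ⟨x, hx, rfl⟩ m hm h
  exact (hk x).1 (hB' _ hx m hm (by rw [← map_pow]; exact (hk _).2 h))

theorem finite_step (h : FinRank G) {N : Subgroup G} [N.Normal] {q : ℕ} (hq : 0 < q)
    (he : ∀ x ∈ N, x ^ q = 1) (hf : Finite (⁅N, N⁆ : Subgroup G)) : Finite N := by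
  obtain ⟨M, _, act, δ, h1, h2, h3, h4, h5, -⟩ := exists_secZ N
  have hs : Sec N act δ := ⟨h1, h2⟩
  obtain ⟨r, hr⟩ := h5 h
  have hM : Finite M := (hr.finite_of_exp hq fun x => by
    obtain ⟨c, hc, rfl⟩ := h4 x
    rw [← hs.pow hc, he c hc, hs.one]).1
  refine hs.hom.finite_iff_finite_ker_range.2 ⟨?_, inferInstance⟩
  exact Finite.of_injective (fun x : hs.hom.ker => (⟨x.1.1, (h3 _ x.1.2).1
    (congrArg Multiplicative.toAdd x.2)⟩ : (⁅N, N⁆ : Subgroup G)))
    fun x y e => Subtype.ext (Subtype.ext (Subtype.mk.inj e))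

theorem finite_of_der (h : FinRank G) {q : ℕ} (hq : 0 < q) (c : ℕ) :
    ∀ (N : Subgroup G) [N.Normal], (∀ x ∈ N, x ^ q = 1) → der N c ≤ ⊥ → Finite N := by
  induction c with
  | zero =>
    intro N _ _ hc
    obtain rfl : N = ⊥ := le_bot_iff.1 hc
    infer_instance
  | succ c ih =>
    intro N _ he hc
    exact finite_step h hq he
      (ih ⁅N, N⁆ (fun x hx => he x (Subgroup.commutator_le_self _ hx)) hc)

theorem der_le (N : Subgroup G) (j : ℕ) : der N j ≤ N.lowerCentralSeries j := by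
  induction j with
  | zero => exact le_rfl
  | succ j ih =>
    rw [gb_der_succ]
    exact Subgroup.commutator_mono ih (ih.trans (N.lowerCentralSeries_antitone (Nat.zero_le j)))

theorem powS_normal (q : ℕ) (N : Subgroup G) [hN : N.Normal] : (powS q N).Normal := by
  refine ⟨fun x hx g => ?_⟩
  have : powS q N ≤ (powS q N).comap (MulAut.conj g).toMonoidHom :=
    (Subgroup.closure_le _).2 (by
      rintro _ ⟨y, hy, rfl⟩
      exact Subgroup.subset_closure ⟨g * y * g⁻¹, hN.conj_mem y hy g, by simp⟩)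
  exact this hx

theorem exists_ab [Group.FG G] {T Φ : Subgroup G} [T.FiniteIndex] [Finite Φ] (hT : ⁅T, T⁆ ≤ Φ) :
    ∃ Z : Subgroup G, Z.FiniteIndex ∧ ⁅Z, Z⁆ ≤ ⊥ := by
  have h1 : Finite (commutatorSet T) := by
    refine Finite.of_injective (fun x : commutatorSet T => (⟨x.1.1, ?_⟩ : Φ))
      fun x y e => Subtype.ext (Subtype.ext (Subtype.mk.inj e))
    obtain ⟨a, b, e⟩ := x.2
    rw [← e]
    exact hT (Subgroup.commutator_mem_commutator a.2 b.2)
  refine ⟨_, fi_map (Subgroup.center T), Subgroup.commutator_le.2 ?_⟩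
  rintro _ ⟨a, ha, rfl⟩ _ ⟨b, -, rfl⟩
  rw [← map_commutatorElement, commutatorElement_eq_one_iff_mul_comm.2
    (Subgroup.mem_center_iff.1 ha b).symm, map_one]
  exact Subgroup.one_mem _

end SCanAux

open SCanAux

theorem torsion_finite {M : Type} [AddCommGroup M] {r : ℕ} (hM : RkLe M r)
    (act : G →* Module.End ℤ M) {T : Subgroup G} (hT : T.FG)
    (hc : ∀ a ∈ T, ∀ b ∈ T, act a * act b = act b * act a) (s : Finset M)
    (hs : Submodule.span ℤ {x | ∃ t ∈ T, ∃ y ∈ s, act t y = x} = ⊤) :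
    Finite (Submodule.torsion ℤ M) := by
  obtain ⟨A, _, _, ι, hι⟩ := exists_ring act hT hc
  let _ : Module A M := Module.compHom M ι
  have h1 : Module.Finite A M := ⟨⟨s, eq_top_iff.2 fun x _ => by
    have h2 : Submodule.span ℤ {x | ∃ t ∈ T, ∃ y ∈ s, act t y = x} ≤
        (Submodule.span A (s : Set M)).toAddSubgroup.toIntSubmodule := Submodule.span_le.2 (by
      rintro _ ⟨t, ht, y, hy, rfl⟩
      obtain ⟨a, ha⟩ := hι t ht
      rw [← ha]
      exact Submodule.smul_mem (Submodule.span A (s : Set M)) a (Submodule.subset_span hy))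
    exact h2 (hs ▸ Submodule.mem_top)⟩⟩
  let W : ℕ → Submodule A M := fun k =>
    { carrier := {x | k.factorial • x = 0}
      add_mem' := fun {x y} hx hy => by
        change _ • (x + y) = 0
        rw [smul_add, hx, hy, add_zero]
      zero_mem' := smul_zero _
      smul_mem' := fun a x hx => by
        change _ • a • x = 0
        rw [smul_comm, hx, smul_zero] }
  have hW : ∀ n k (x : M), n ∣ k.factorial → n • x = 0 → x ∈ W k := by
    rintro n k x ⟨d, hd⟩ hx
    change k.factorial • x = 0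
    rw [hd, mul_comm, mul_smul, hx, smul_zero]
  obtain ⟨k, hk⟩ := monotone_stabilizes_iff_noetherian.2 (inferInstance : IsNoetherian A M)
    ⟨W, fun a b hab x hx => hW _ _ x (Nat.factorial_dvd_factorial hab) hx⟩
  refine ((hM.sub _).finite_of_exp k.factorial_pos fun x => Subtype.ext ?_).1
  obtain ⟨n, hn, hx⟩ := mem_tors.1 x.2
  have h3 : x.1 ∈ W (max n k) := hW n _ _ (Nat.dvd_factorial hn (le_max_left _ _)) hx
  have h4 : W k = W (max n k) := hk _ (le_max_right _ _)
  rw [← h4] at h3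
  exact h3

theorem exists_nil_Ncan [Group.FG G] (h : FinRank G) {e₁ : ℕ} (hD : NilMod (dres e₁ G) ⊥) :
    ∃ e', ∀ e₂, e' ≤ e₂ → NilMod (Ncan e₁ e₂ G) ⊥ ∧
      ∀ g ∈ res₂ e₁ e₂ G, ∀ m, 0 < m → g ^ m ∈ Ncan e₁ e₂ G → g ∈ Ncan e₁ e₂ G := by
  classical
  obtain ⟨M, _, act, δ, h1, h2, h3, h4, h5, -⟩ := exists_secZ (dres e₁ G)
  have hs : Sec (dres e₁ G) act δ := ⟨h1, h2⟩
  obtain ⟨r, hr⟩ := h5 h
  have hfi := res_finiteIndex (G := G) e₁
  have hT : (res e₁ G).FG := (Group.fg_iff_subgroup_fg _).1 inferInstance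
  have hc : ∀ a ∈ res e₁ G, ∀ b ∈ res e₁ G, act a * act b = act b * act a := fun a ha b hb => by
    have := hs.act_one h4 (Subgroup.commutator_mem_commutator ha hb)
    rw [← map_mul, ← map_mul, show a * b = (a * b * a⁻¹ * b⁻¹) * (b * a) by group, map_mul,
      ← commutatorElement_def, this, one_mul]
  have hfin : Finite (Submodule.torsion ℤ M) := by
    obtain ⟨E, hE⟩ := hT
    refine torsion_finite hr act ⟨E, hE⟩ hc
      ((E ×ˢ E).image fun p => δ (p.1 * p.2 * p.1⁻¹ * p.2⁻¹)) (eq_top_iff.2 fun x _ => ?_)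
    obtain ⟨c, hc', rfl⟩ := h4 x
    refine (comm_le_of_gens (K := hs.pre _) hE (fun t ht k hk => ⟨?_, ?_⟩)
      (fun a ha b hb => ⟨?_, ?_⟩) hc').2
    · exact Subgroup.Normal.conj_mem inferInstance _ hk.1 t
    · rw [h2 t k hk.1]
      refine Submodule.mem_comap.1 (Submodule.span_le.2 ?_ hk.2)
      rintro _ ⟨t', ht', y, hy, rfl⟩
      exact Submodule.subset_span ⟨t * t', mul_mem ht ht', y, hy, by rw [map_mul]; rfl⟩
    · exact Subgroup.commutator_mem_commutator (hE ▸ Subgroup.subset_closure ha)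
        (hE ▸ Subgroup.subset_closure hb)
    · exact Submodule.subset_span ⟨1, one_mem _, _, Finset.mem_image.2
        ⟨(a, b), Finset.mem_product.2 ⟨ha, hb⟩, rfl⟩, by rw [map_one]; rfl⟩
  let _ : MulAction G (Submodule.torsion ℤ M) :=
    { smul := fun g x => ⟨act g x, by
        obtain ⟨n, hn, hx⟩ := mem_tors.1 x.2
        exact mem_tors.2 ⟨n, hn, by rw [← map_nsmul, hx, map_zero]⟩⟩
      one_smul := fun x => Subtype.ext (by change act 1 x = x; rw [map_one]; rfl)
      mul_smul := fun a b x => Subtype.ext (by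
        change act (a * b) x = act a (act b x); rw [map_mul]; rfl) }
  have hfi2 := res₂_finiteIndex (G := G) e₁ e₁
  obtain ⟨K, hK, hK'⟩ := exists_tf_mod (comm_res₂_le (G := G) e₁ e₁)
  have hC := Subgroup.finiteIndex_ker (MulAction.toPermHom G (Submodule.torsion ℤ M))
  refine ⟨max K.index (MulAction.toPermHom G (Submodule.torsion ℤ M)).ker.index,
    fun e₂ he => ⟨?_, fun g hg m hm hgm => ?_⟩⟩
  · have hle : Ncan e₁ e₂ G ≤ res e₁ G := fun g hg => (mem_Ncan.1 hg).1.1
    obtain ⟨k, hk⟩ := prod_zero act hT hc hle fun g hg => by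
      obtain ⟨hg1, j, hj⟩ := mem_Ncan.1 hg
      refine ⟨j + 1, LinearMap.ext fun x => ?_⟩
      obtain ⟨c, hc', rfl⟩ := h4 x
      obtain ⟨m, hm, hcm⟩ := hj c hc'
      have e1 : ((act g - 1) ^ j) (δ c) ∈ Submodule.torsion ℤ M := mem_tors.2 ⟨m, hm, by
        rw [← hs.itc g hc', ← hs.pow (itc_mem g hc' j)]
        exact (h3 _ (pow_mem (itc_mem g hc' j) m)).2 hcm⟩
      have e2 := res_le_of_index ((le_max_right _ _).trans he) hg1.2
      have e3 : act g (((act g - 1) ^ j) (δ c)) = ((act g - 1) ^ j) (δ c) :=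
        congrArg Subtype.val (DFunLike.congr_fun (MonoidHom.mem_ker.1 e2)
          (⟨((act g - 1) ^ j) (δ c), e1⟩ : Submodule.torsion ℤ M))
      rw [pow_succ', Module.End.mul_apply, LinearMap.sub_apply, e3]
      simp
    have h6 : (brk act (Ncan e₁ e₂ G))^[k] ⊤ ≤ ⊥ :=
      brk_iter_le k fun l hl hlk u _ => by rw [hk l hl hlk]; exact Submodule.zero_mem _
    obtain ⟨k', hk'⟩ := hall_nil (N := Ncan e₁ e₂ G) hD ⟨k, fun c hc' => by
      obtain ⟨e1, e2⟩ := hs.iter _ k hc'
      exact (h3 c e1).1 (h6 e2)⟩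
    have h7 : ∀ i, (Ncan e₁ e₂ G).lowerCentralSeries (i + 1) ≤
        (fun H => ⁅H, Ncan e₁ e₂ G⁆)^[i] (dres e₁ G) := fun i => by
      induction i with
      | zero => exact Subgroup.commutator_mono hle hle
      | succ i ih =>
        rw [Function.iterate_succ_apply']
        exact Subgroup.commutator_mono ih le_rfl
    exact ⟨k' + 1, hk' ▸ h7 k'⟩
  · have e1 := hK' g (res_le_of_index ((le_max_left _ _).trans he) hg.2) m hm
      (mem_Ncan.2 ⟨⟨(mem_Ncan.1 hgm).1.1, (mem_Ncan.1 hgm).1.1⟩, (mem_Ncan.1 hgm).2⟩)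
    exact mem_Ncan.2 ⟨hg, (mem_Ncan.1 e1).2⟩

theorem exists_res_inf_le [Group.FG G] (h : FinRank G) {N : Subgroup G} [N.Normal] (hN : VAb N)
    (hn : NilMod N ⊥) {q : ℕ} (hq : 0 < q) : ∃ e', ∀ e, e' ≤ e → res e G ⊓ N ≤ powS q N := by
  have hP := powS_normal q N
  obtain ⟨T, -, hT, -, hTN⟩ := hN
  obtain ⟨c, hc⟩ := hn
  have hs := QuotientGroup.mk'_surjective (powS q N)
  have h1 : Group.FG (G ⧸ powS q N) := Group.fg_of_surjective hs
  have h2 : (N.map (QuotientGroup.mk' (powS q N))).Normal := Subgroup.Normal.map inferInstance _ hs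
  have he : ∀ x ∈ N, QuotientGroup.mk' (powS q N) x ^ q = 1 := fun x hx => by
    rw [← map_pow]
    exact (QuotientGroup.eq_one_iff _).2 (Subgroup.subset_closure ⟨x, hx, rfl⟩)
  have h3 : Finite (N.map (QuotientGroup.mk' (powS q N))) :=
    finite_of_der (h.of_surjective _ hs) hq c _ (by rintro _ ⟨x, hx, rfl⟩; exact he x hx) (by
      rw [← map_der, le_bot_iff.1 ((der_le N c).trans hc), Subgroup.map_bot])
  have h4 : (T.map (QuotientGroup.mk' (powS q N))).FiniteIndex :=
    ⟨fun h0 => hT.index_ne_zero (Nat.eq_zero_of_zero_dvd (h0 ▸ Subgroup.index_map_dvd T hs))⟩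
  obtain ⟨Z, hZ, hZ'⟩ := exists_ab (T := T.map (QuotientGroup.mk' (powS q N)))
    (Φ := N.map (QuotientGroup.mk' (powS q N)))
    (by rw [← Subgroup.map_commutator]; exact Subgroup.map_mono hTN)
  obtain ⟨K, hK, hK'⟩ := exists_tf_mod hZ'
  have h5 : (K.comap (QuotientGroup.mk' (powS q N))).FiniteIndex :=
    ⟨by rw [Subgroup.index_comap_of_surjective _ hs]; exact hK.index_ne_zero⟩
  exact ⟨(K.comap (QuotientGroup.mk' (powS q N))).index, fun e hle g hg =>
    (QuotientGroup.eq_one_iff _).1 (Subgroup.mem_bot.1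
      (hK' _ (res_le_of_index hle hg.1) q hq (Subgroup.mem_bot.2 (he g hg.2))))⟩

end Pool.Agent.P.MP_257122_al
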