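import Pool.Agent.P.MP_257122_al.MSec
import Pool.Agent.P.MP_257122_al.GBasic
import Pool.Agent.P.MP_257122_al.H1.Malcev

/-!
# Modules of finite rank over soluble groups: definitions
-/

namespace Pool.Agent.P.MP_257122_al

variable {G M : Type} [Group G] [AddCommGroup M]

/-- Finitely generated subgroups need at most `r` generators. -/
def RkLe (M : Type) [AddCommGroup M] (r : ℕ) : Prop :=
  ∀ U : Submodule ℤ M, U.FG → ∃ s : Finset M, s.card ≤ r ∧ Submodule.span ℤ (s : Set M) = U

/-- The commutator of a submodule with a subgroup. -/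
def brk (act : G →* Module.End ℤ M) (D : Subgroup G) (U : Submodule ℤ M) : Submodule ℤ M :=
  Submodule.span ℤ {x | ∃ d ∈ D, ∃ u ∈ U, act d u - u = x}

/-- Invariant submodules. -/
def InvU (act : G →* Module.End ℤ M) (U : Submodule ℤ M) : Prop := ∀ g, ∀ u ∈ U, act g u ∈ U

/-- `W` is finitely generated modulo `U` after inverting `m`. -/
def MTyp (m : ℕ) (W U : Submodule ℤ M) : Prop :=
  ∃ s : Finset M, (∀ x ∈ s, x ∈ W) ∧ ∀ w ∈ W, ∃ j, m ^ j • w ∈ Submodule.span ℤ (s : Set M) ⊔ U

/-- `f` is a bound in the theorem of Malcev for dimension `r` and derived length `d`. -/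
def MalOk (r d f : ℕ) : Prop :=
  ∀ (k : Type) [Field k] (V : Type) [AddCommGroup V] [Module k V] [Module.Finite k V],
    Module.finrank k V ≤ r → ∀ (G : Type) [Group G] (ρ : G →* Module.End k V),
      (∀ g ∈ derivedSeries G d, ρ g = 1) →
        ∃ H : Subgroup G, H.index ≠ 0 ∧ H.index ≤ f ∧ H1.Uni ρ ⁅H, H⁆ r

theorem exists_malOk (r d : ℕ) : ∃ f, MalOk r d f := H1.malcev r d

theorem MalOk.uni {r d f : ℕ} (h : MalOk r d f) {k V : Type} [Field k] [AddCommGroup V]
    [Module k V] [Module.Finite k V] (hV : Module.finrank k V ≤ r) (ρ : G →* Module.End k V)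
    (hρ : ∀ g ∈ derivedSeries G d, ρ g = 1) : H1.Uni ρ (dres f G) r := by
  obtain ⟨H, h0, h1, h2⟩ := h k V hV G ρ hρ
  haveI : H.FiniteIndex := ⟨h0⟩
  exact h2.mono (Subgroup.commutator_mono (res_le_of_index h1) (res_le_of_index h1)) le_rfl

/-- The subgroup generated by the `q`-th powers. -/
def powS (q : ℕ) (N : Subgroup G) : Subgroup G := Subgroup.closure {y | ∃ x ∈ N, x ^ q = y}

theorem brk_mono {act : G →* Module.End ℤ M} {D : Subgroup G} : Monotone (brk act D) :=
  fun _ _ h => Submodule.span_mono fun _ ⟨d, hd, u, hu, e⟩ => ⟨d, hd, u, h hu, e⟩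

/-- Iterated commutators are spanned by values of products. -/
theorem brk_iter_le {act : G →* Module.End ℤ M} {D : Subgroup G} {U T : Submodule ℤ M} (k : ℕ)
    (h : ∀ l : List G, (∀ x ∈ l, x ∈ D) → l.length = k → ∀ u ∈ U,
      (l.map fun x => act x - 1).prod u ∈ T) : (brk act D)^[k] U ≤ T := by
  induction k generalizing U with
  | zero => exact fun u hu => by simpa using h [] (by simp) rfl u hu
  | succ k ih =>
    rw [Function.iterate_succ_apply]
    refine ih fun l hl hk u hu => ?_
    refine Submodule.span_induction (p := fun u _ => (l.map fun x => act x - 1).prod u ∈ T)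
      ?_ (by simp) (fun x y _ _ hx hy => by rw [map_add]; exact T.add_mem hx hy)
      (fun a x _ hx => by rw [map_smul]; exact T.smul_mem a hx) hu
    rintro _ ⟨d, hd, v, hv, rfl⟩
    have := h (l ++ [d]) (fun x hx => (List.mem_append.1 hx).elim (hl x)
      fun e => List.mem_singleton.1 e ▸ hd) (by simp [hk]) v hv
    simpa using this

end Pool.Agent.P.MP_257122_al
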