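import Pool.Agent.P.MP_257122_al.SDefs

/-!
# Unipotent action on torsion-free and on elementary abelian sections

PLAN.  `brk_torsion`: `V = ℚ ⊗[ℤ] M` (or `LocalizedModule`), of dimension at most `r`;
`MalOk.uni`, `brk_iter_le`.  `brk_modp`: `V = U / p U` as a `ZMod p`-space of dimension at most `r`.
`finite_of_exp`: every finitely generated subgroup has at most `n ^ r` elements.
-/

namespace Pool.Agent.P.MP_257122_al

variable {G M : Type} [Group G] [AddCommGroup M] {r d f : ℕ} {act : G →* Module.End ℤ M}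

theorem RkLe.sub (h : RkLe M r) (U : Submodule ℤ M) : RkLe U r := by
  classical
  intro W hW
  obtain ⟨s, hs, hsW⟩ := h (W.map U.subtype) (hW.map _)
  have hsU : ∀ x ∈ s, x ∈ U := fun x hx => by
    have hx' : x ∈ W.map U.subtype := hsW ▸ Submodule.subset_span hx
    obtain ⟨y, -, rfl⟩ := hx'
    exact y.2
  refine ⟨s.attach.image fun x => (⟨x.1, hsU x.1 x.2⟩ : U),
    Finset.card_image_le.trans (by simpa using hs), ?_⟩
  apply Submodule.map_injective_of_injective U.injective_subtype
  rw [Submodule.map_span, ← hsW]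
  congr 1
  ext x
  simp only [Finset.coe_image, Set.mem_image, Finset.mem_coe, Finset.mem_attach, true_and]
  constructor
  · rintro ⟨_, ⟨y, rfl⟩, rfl⟩
    exact y.2
  · intro hx
    exact ⟨_, ⟨⟨x, hx⟩, rfl⟩, rfl⟩

theorem RkLe.of_surjective {M' : Type} [AddCommGroup M'] (h : RkLe M r) (φ : M →ₗ[ℤ] M')
    (hφ : Function.Surjective φ) : RkLe M' r := by
  classical
  rintro W ⟨t, rfl⟩
  choose σ hσ using hφ
  obtain ⟨s, hs, hsW⟩ := h (Submodule.span ℤ ((t.image σ : Finset M) : Set M)) ⟨_, rfl⟩
  refine ⟨s.image φ, Finset.card_image_le.trans hs, ?_⟩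
  rw [Finset.coe_image, ← Submodule.map_span, hsW, Submodule.map_span, Finset.coe_image,
    ← Set.image_comp]
  congr 1
  ext x
  simp [hσ]

namespace SModAAux

theorem card_le (h : RkLe M r) {n : ℕ} (hn : 0 < n) (he : ∀ x : M, n • x = 0) (t : Finset M) :
    t.card ≤ n ^ r := by
  classical
  obtain ⟨s, hs, hst⟩ := h (Submodule.span ℤ (t : Set M)) ⟨_, rfl⟩
  have hsub : t ⊆ Finset.univ.image fun c : s → Fin n => ∑ a : s, (c a : ℕ) • a.1 := by
    intro x hx
    have hx' : x ∈ Submodule.span ℤ (s : Set M) := hst ▸ Submodule.subset_span hx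
    obtain ⟨c, rfl⟩ := Submodule.mem_span_finset'.1 hx'
    have hn' : (0 : ℤ) < n := by exact_mod_cast hn
    refine Finset.mem_image.2 ⟨fun a => ⟨(c a % n).toNat, ?_⟩, Finset.mem_univ _, ?_⟩
    · have h1 := Int.emod_nonneg (c a) hn'.ne'
      have h2 := Int.emod_lt_of_pos (c a) hn'
      omega
    · refine Finset.sum_congr rfl fun a _ => ?_
      have h1 := Int.emod_nonneg (c a) hn'.ne'
      show (c a % n).toNat • a.1 = c a • a.1
      rw [← natCast_zsmul, Int.toNat_of_nonneg h1]
      conv_rhs => rw [← Int.emod_add_ediv_mul (c a) n, add_smul, mul_smul, natCast_zsmul, he,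
        smul_zero, add_zero]
  refine (Finset.card_le_card hsub).trans (Finset.card_image_le.trans ?_)
  rw [Finset.card_univ, Fintype.card_fun, Fintype.card_fin, Fintype.card_coe]
  exact Nat.pow_le_pow_right hn hs

theorem dim_le {k V : Type} [Field k] [AddCommGroup V] [Module k V] (h : RkLe M r) (ι : M →+ V)
    (hι : Submodule.span k (Set.range ι) = ⊤) : Module.Finite k V ∧ Module.finrank k V ≤ r := by
  classical
  have hr : Module.rank k V ≤ r := by
    refine rank_le fun s hs => ?_
    have h1 : (s : Set V) ⊆ Submodule.span k (Set.range ι) := by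
      rw [hι]
      exact Set.subset_univ _
    obtain ⟨t, ht, hst⟩ := Submodule.subset_span_finite_of_subset_span h1
    rw [← Set.image_univ] at ht
    obtain ⟨u, -, rfl⟩ := Finset.subset_set_image_iff.1 ht
    obtain ⟨w, hw, hwu⟩ := h (Submodule.span ℤ (u : Set M)) ⟨_, rfl⟩
    have key : ∀ x ∈ Submodule.span ℤ (w : Set M),
        ι x ∈ Submodule.span k ((w.image ι : Finset V) : Set V) := by
      intro x hx
      induction hx using Submodule.span_induction with
      | mem x hx => exact Submodule.subset_span (Finset.mem_coe.2 (Finset.mem_image_of_mem ι hx))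
      | zero => rw [map_zero]; exact Submodule.zero_mem _
      | add x y _ _ ix iy => rw [map_add]; exact Submodule.add_mem _ ix iy
      | smul a x _ ix => rw [map_zsmul]; exact zsmul_mem ix a
    have h2 : Submodule.span k ((u.image ι : Finset V) : Set V) ≤
        Submodule.span k ((w.image ι : Finset V) : Set V) := by
      refine Submodule.span_le.2 fun x hx => ?_
      obtain ⟨y, hy, rfl⟩ := Finset.mem_image.1 (Finset.mem_coe.1 hx)
      exact key y (hwu ▸ Submodule.subset_span hy)
    have hle := linearIndependent_le_span_aux' (fun i : s => (i : V)) hs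
      ((w.image ι : Finset V) : Set V) (by
        rintro _ ⟨⟨x, hx⟩, rfl⟩
        exact h2 (hst hx))
    have h3 := Finset.card_image_le (s := w) (f := ι)
    simp only [Finset.coe_sort_coe, Fintype.card_coe] at hle
    omega
  exact ⟨Module.rank_lt_aleph0_iff.1 (hr.trans_lt Cardinal.natCast_lt_aleph0),
    Module.finrank_le_of_rank_le hr⟩

omit [Group G] in
theorem inter {R S V : Type} [Ring R] [Ring S] [Module R M] [AddCommGroup V] [Module S V]
    (ι : M →+ V) (a : G → Module.End R M) (b : G → Module.End S V)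
    (h : ∀ g x, ι (a g x) = b g (ι x)) (l : List G) (x : M) :
    ι ((l.map fun g => a g - 1).prod x) = (l.map fun g => b g - 1).prod (ι x) := by
  induction l with
  | nil => rfl
  | cons g l ih =>
    simp only [List.map_cons, List.prod_cons, Module.End.mul_apply, LinearMap.sub_apply,
      Module.End.one_apply, map_sub, h, ih]

theorem tmul_zero {k : Type} [Field k] (hf : MalOk r d f) (hM : RkLe M r)
    (ha : ∀ g ∈ derivedSeries G d, act g = 1) (l : List G) (hl : ∀ x ∈ l, x ∈ dres f G)
    (hr : l.length = r) (x : M) :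
    (1 : k) ⊗ₜ[ℤ] ((l.map fun g => act g - 1).prod x) = 0 := by
  let ι : M →+ TensorProduct ℤ k M := (TensorProduct.mk ℤ k M 1).toAddMonoidHom
  let ρ : G →* Module.End k (TensorProduct ℤ k M) :=
    (Module.End.baseChangeHom ℤ k M).toMonoidHom.comp act
  have hι : Submodule.span k (Set.range ι) = ⊤ := by
    refine eq_top_iff.2 fun x _ => ?_
    induction x using TensorProduct.induction_on with
    | zero => exact Submodule.zero_mem _
    | add x y hx hy => exact Submodule.add_mem _ (hx trivial) (hy trivial)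
    | tmul q a =>
      have e : q ⊗ₜ[ℤ] a = q • ι a := by
        show _ = q • ((1 : k) ⊗ₜ[ℤ] a)
        rw [TensorProduct.smul_tmul', smul_eq_mul, mul_one]
      rw [e]
      exact Submodule.smul_mem _ _ (Submodule.subset_span ⟨a, rfl⟩)
  obtain ⟨h1, h2⟩ := dim_le hM ι hι
  have hu := hf.uni h2 ρ fun g hg => by
    show (Module.End.baseChangeHom ℤ k M).toMonoidHom (act g) = 1
    rw [ha g hg, map_one]
  have e := inter ι act ρ (fun _ _ => rfl) l x
  rw [hu l hl hr.ge] at e
  exact e

/-- The action on an invariant submodule. -/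
def resAct (act : G →* Module.End ℤ M) {U : Submodule ℤ M} (hU : InvU act U) :
    G →* Module.End ℤ U where
  toFun g := (act g).restrict (hU g)
  map_one' := LinearMap.ext fun u => Subtype.ext (by simp)
  map_mul' g h := LinearMap.ext fun u => Subtype.ext (by simp)

end SModAAux

theorem RkLe.finite_of_exp (h : RkLe M r) {n : ℕ} (hn : 0 < n) (he : ∀ x : M, n • x = 0) :
    Finite M ∧ Nat.card M ≤ n ^ r := by
  have hfin : Finite M := by
    by_contra hinf
    rw [not_finite_iff_infinite] at hinf
    obtain ⟨t, ht⟩ := Infinite.exists_subset_card_eq M (n ^ r + 1)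
    have := SModAAux.card_le h hn he t
    omega
  refine ⟨hfin, ?_⟩
  have := Fintype.ofFinite M
  rw [Nat.card_eq_fintype_card, ← Finset.card_univ]
  exact SModAAux.card_le h hn he _

theorem brk_torsion (hf : MalOk r d f) (hM : RkLe M r) (ha : ∀ g ∈ derivedSeries G d, act g = 1) :
    (brk act (dres f G))^[r] ⊤ ≤ Submodule.torsion ℤ M := by
  refine brk_iter_le r fun l hl hr u _ => ?_
  have e := SModAAux.tmul_zero (k := ℚ) hf hM ha l hl hr u
  have : IsLocalizedModule (nonZeroDivisors ℤ) (TensorProduct.mk ℤ ℚ M 1) :=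
    IsLocalization.tensorProduct_isLocalizedModule _ _
  exact (IsLocalizedModule.eq_zero_iff (nonZeroDivisors ℤ) (TensorProduct.mk ℤ ℚ M 1)).1 e

theorem brk_modp (hf : MalOk r d f) (hM : RkLe M r) (ha : ∀ g ∈ derivedSeries G d, act g = 1)
    {p : ℕ} (hp : p.Prime) {U : Submodule ℤ M} (hU : InvU act U) :
    ∀ x ∈ (brk act (dres f G))^[r] U, ∃ u ∈ U, p • u = x := by
  have key : (brk act (dres f G))^[r] U ≤ U.map ((p : ℤ) • LinearMap.id) := by
    refine brk_iter_le r fun l hl hr u hu => ?_
    have hmax : (Ideal.span {(p : ℤ)}).IsMaximal :=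
      (Ideal.span_singleton_prime (by exact_mod_cast hp.ne_zero)).2
        (Nat.prime_iff_prime_int.1 hp) |>.isMaximal (by
          rw [Ne, Ideal.span_singleton_eq_bot]
          exact_mod_cast hp.ne_zero)
    let _ := Ideal.Quotient.field (Ideal.span {(p : ℤ)})
    have e := SModAAux.tmul_zero (k := ℤ ⧸ Ideal.span {(p : ℤ)}) (act := SModAAux.resAct act hU)
      hf (hM.sub U) (fun g hg => LinearMap.ext fun u => Subtype.ext (by
        show act g u = u
        rw [ha g hg]
        rfl)) l hl hr ⟨u, hu⟩
    have e2 := congrArg (TensorProduct.quotTensorEquivQuotSMul U (Ideal.span {(p : ℤ)})) e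
    rw [TensorProduct.quotTensorEquivQuotSMul_mk_one_tmul, map_zero,
      Submodule.Quotient.mk_eq_zero, Submodule.ideal_span_singleton_smul,
      Submodule.mem_smul_pointwise_iff_exists] at e2
    obtain ⟨v, -, hv⟩ := e2
    have e3 := SModAAux.inter U.subtype.toAddMonoidHom (SModAAux.resAct act hU) act
      (fun _ _ => rfl) l ⟨u, hu⟩
    refine ⟨v, v.2, ?_⟩
    rw [← hv] at e3
    exact e3
  intro x hx
  obtain ⟨u, hu, e⟩ := key hx
  exact ⟨u, hu, (natCast_zsmul u p).symm.trans e⟩

end Pool.Agent.P.MP_257122_al
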