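import Pool.Agent.P.MP_257122_al.SPad

/-!
# Nilpotent action on torsion modules

PLAN.  `W p = {w ∈ W | ∃ k, p ^ k • w = 0}`; every `w` is a sum of elements of the `W p` (Bezout,
induction on the order).  Let `n > 0` kill the finite set `s` of `MTyp`.  If `p ∤ m n` then
`W p = brk (W p)` (multiply a relation `m ^ j n w = ∑ (d - 1) w_i` by a number prime to `p` that moves
all `w_i` into `W p`), so `W p` is divisible (`brk_modp`), so `0` (`brk_div`).  For the finitely many
other primes: the chain `(p ^ k W p)[p]` in the finite group `W[p]` stabilises, so some `p ^ k W p` is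
divisible, and `(k + 1) r` steps kill `W p`.
-/

namespace Pool.Agent.P.MP_257122_al

variable {G M : Type} [Group G] [AddCommGroup M] {r d f : ℕ} {act : G →* Module.End ℤ M}

namespace SModBAux

/-- The `p`-primary part of a submodule. -/
def prim (p : ℕ) (W : Submodule ℤ M) : Submodule ℤ M where
  carrier := {w | w ∈ W ∧ ∃ k, p ^ k • w = 0}
  zero_mem' := ⟨W.zero_mem, 0, smul_zero _⟩
  add_mem' := by
    rintro x y ⟨hx, a, ha⟩ ⟨hy, b, hb⟩
    refine ⟨W.add_mem hx hy, a + b, ?_⟩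
    rw [smul_add, pow_add, mul_smul, mul_smul, hb, smul_zero, add_zero, smul_comm, ha, smul_zero]
  smul_mem' := by
    rintro c x ⟨hx, a, ha⟩
    exact ⟨W.smul_mem c hx, a, by rw [smul_comm, ha, smul_zero]⟩

/-- The multiples of a submodule. -/
def nsm (c : ℕ) (U : Submodule ℤ M) : Submodule ℤ M where
  carrier := {x | ∃ u ∈ U, c • u = x}
  zero_mem' := ⟨0, U.zero_mem, smul_zero _⟩
  add_mem' := by
    rintro _ _ ⟨x, hx, rfl⟩ ⟨y, hy, rfl⟩
    exact ⟨x + y, U.add_mem hx hy, smul_add _ _ _⟩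
  smul_mem' := by
    rintro a _ ⟨x, hx, rfl⟩
    exact ⟨a • x, U.smul_mem a hx, smul_comm _ _ _⟩

/-- The elements killed by all products of length `k`. -/
def kil (act : G →* Module.End ℤ M) (D : Subgroup G) (k : ℕ) : Submodule ℤ M where
  carrier := {u | ∀ l : List G, (∀ x ∈ l, x ∈ D) → l.length = k →
    (l.map fun x => act x - 1).prod u = 0}
  zero_mem' := fun _ _ _ => map_zero _
  add_mem' := fun hx hy l h1 h2 => by rw [map_add, hx l h1 h2, hy l h1 h2, add_zero]
  smul_mem' := fun a _ hx l h1 h2 => by rw [map_smul, hx l h1 h2, smul_zero]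

theorem prim_inv {p : ℕ} {W : Submodule ℤ M} (hW : InvU act W) : InvU act (prim p W) := by
  rintro g u ⟨hu, k, hk⟩
  exact ⟨hW g u hu, k, by rw [← map_nsmul, hk, map_zero]⟩

theorem nsm_inv {c : ℕ} {U : Submodule ℤ M} (hU : InvU act U) : InvU act (nsm c U) := by
  rintro g _ ⟨u, hu, rfl⟩
  exact ⟨act g u, hU g u hu, (map_nsmul _ _ _).symm⟩

theorem prod_mem {D : Subgroup G} {U : Submodule ℤ M} (l : List G) (hl : ∀ x ∈ l, x ∈ D) {u : M}
    (hu : u ∈ U) : (l.map fun x => act x - 1).prod u ∈ (brk act D)^[l.length] U := by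
  induction l with
  | nil => simpa using hu
  | cons x l ih =>
    rw [List.length_cons, Function.iterate_succ_apply']
    exact Submodule.subset_span ⟨x, hl x List.mem_cons_self, _,
      ih fun y hy => hl y (List.mem_cons_of_mem _ hy), by simp⟩

theorem le_kil {D : Subgroup G} {U : Submodule ℤ M} {k k' : ℕ} (h : (brk act D)^[k] U = ⊥)
    (hk : k ≤ k') : U ≤ kil act D k' := by
  have h0 : brk act D ⊥ = ⊥ := by
    refine eq_bot_iff.2 (Submodule.span_le.2 ?_)
    rintro _ ⟨g, -, u, hu, rfl⟩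
    rw [(Submodule.mem_bot ℤ).1 hu]
    simp
  have h1 : (brk act D)^[k'] U = ⊥ := by
    obtain ⟨j, rfl⟩ := Nat.exists_eq_add_of_le' hk
    rw [Function.iterate_add_apply, h, Function.iterate_fixed h0]
  intro u hu l hl hk
  have := prod_mem (act := act) l hl hu
  rwa [hk, h1, Submodule.mem_bot] at this

theorem tors {W : Submodule ℤ M} (ht : W ≤ Submodule.torsion ℤ M) {w : M} (hw : w ∈ W) :
    ∃ t : ℕ, 0 < t ∧ t • w = 0 := by
  obtain ⟨⟨a, ha⟩, e⟩ := (Submodule.mem_torsion_iff w).1 (ht hw)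
  refine ⟨a.natAbs, Int.natAbs_pos.2 (nonZeroDivisors.ne_zero ha), ?_⟩
  have e' : a • w = 0 := e
  rw [← natCast_zsmul]
  rcases Int.natAbs_eq a with h | h
  · rw [← h, e']
  · rw [← neg_eq_iff_eq_neg] at h
    rw [← h, neg_smul, e', neg_zero]

theorem bez {T : Submodule ℤ M} {a b : ℕ} (h : a.Coprime b) {w : M} (ha : a • w ∈ T)
    (hb : b • w ∈ T) : w ∈ T := by
  obtain ⟨x, y, e⟩ := Nat.isCoprime_iff_coprime.2 h
  have : w = x • a • w + y • b • w := by
    rw [← natCast_zsmul, ← natCast_zsmul, ← mul_smul, ← mul_smul, ← add_smul, e, one_smul]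
  rw [this]
  exact T.add_mem (T.smul_mem _ ha) (T.smul_mem _ hb)

theorem le_of_prim {W T : Submodule ℤ M} (ht : W ≤ Submodule.torsion ℤ M)
    (h : ∀ p : ℕ, p.Prime → prim p W ≤ T) : W ≤ T := by
  have key : ∀ t : ℕ, 0 < t → ∀ w ∈ W, t • w = 0 → w ∈ T := by
    intro t
    induction t using Nat.recOnPosPrimePosCoprime with
    | prime_pow p n hp _ => exact fun _ w hw e => h p hp ⟨hw, n, e⟩
    | zero => exact fun h => absurd h (lt_irrefl 0)
    | one =>
      intro _ w _ e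
      rw [one_smul] at e
      rw [e]
      exact T.zero_mem
    | coprime a b ha hb hab iha ihb =>
      intro _ w hw e
      refine bez hab (ihb (by omega) _ (nsmul_mem hw a) ?_) (iha (by omega) _ (nsmul_mem hw b) ?_)
      · rw [← mul_smul, mul_comm, e]
      · rw [← mul_smul, e]
  intro w hw
  obtain ⟨t, h0, e⟩ := tors ht hw
  exact key t h0 w hw e

theorem brk_prim {D : Subgroup G} {W : Submodule ℤ M} (ht : W ≤ Submodule.torsion ℤ M) {p : ℕ}
    (hp : p.Prime) {y : M} (hy : y ∈ brk act D W) :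
    ∃ c : ℕ, c.Coprime p ∧ c • y ∈ brk act D (prim p W) := by
  induction hy using Submodule.span_induction with
  | mem y hy =>
    obtain ⟨g, hg, u, hu, rfl⟩ := hy
    obtain ⟨t, h0, e⟩ := tors ht hu
    obtain ⟨a, c, hc, rfl⟩ := Nat.exists_eq_pow_mul_and_not_dvd h0.ne' p hp.ne_one
    refine ⟨c, ((Nat.Prime.coprime_iff_not_dvd hp).2 hc).symm,
      Submodule.subset_span ⟨g, hg, c • u, ⟨nsmul_mem hu c, a, by rw [← mul_smul, e]⟩, ?_⟩⟩
    rw [map_nsmul, smul_sub]
  | zero => exact ⟨1, Nat.coprime_one_left p, by simp⟩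
  | add x y _ _ ix iy =>
    obtain ⟨a, ha, hx⟩ := ix
    obtain ⟨b, hb, hy⟩ := iy
    refine ⟨a * b, Nat.Coprime.mul_left ha hb, ?_⟩
    rw [smul_add]
    refine Submodule.add_mem _ ?_ ?_
    · rw [mul_comm, mul_smul]
      exact nsmul_mem hx b
    · rw [mul_smul]
      exact nsmul_mem hy a
  | smul a x _ ix =>
    obtain ⟨c, hc, hx⟩ := ix
    exact ⟨c, hc, by rw [smul_comm]; exact Submodule.smul_mem _ a hx⟩

theorem prim_bot (hf : MalOk r d f) (hM : RkLe M r) (ha : ∀ g ∈ derivedSeries G d, act g = 1)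
    {W : Submodule ℤ M} (hW : InvU act W) {p : ℕ} (hp : p.Prime)
    (h : prim p W ≤ brk act (dres f G) (prim p W)) : prim p W = ⊥ := by
  have h1 : ∀ i, prim p W ≤ (brk act (dres f G))^[i] (prim p W) := by
    intro i
    induction i with
    | zero => exact le_rfl
    | succ i ih =>
      rw [Function.iterate_succ_apply']
      exact h.trans (brk_mono ih)
  refine eq_bot_iff.2 ((h1 r).trans (brk_div hf hM ha hp (prim_inv hW) (fun u hu => hu.2) ?_).le)
  exact fun u hu => brk_modp hf hM ha hp (prim_inv hW) u (h1 r hu)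

theorem exists_div (hM : RkLe M r) {p : ℕ} (hp : 0 < p) {U : Submodule ℤ M}
    (ht : ∀ u ∈ U, ∃ k, p ^ k • u = 0) :
    ∃ k, ∀ u ∈ nsm (p ^ k) U, ∃ v ∈ nsm (p ^ k) U, p • v = u := by
  have hfin : {x : M | p • x = 0}.Finite := by
    have h := ((hM.sub (Submodule.torsionBy ℤ M p)).finite_of_exp hp fun x => Subtype.ext (by
      have := (Submodule.mem_torsionBy_iff _ _).1 x.2
      rw [natCast_zsmul] at this
      exact this)).1
    refine (Set.toFinite (Submodule.torsionBy ℤ M p : Set M)).subset fun x hx => ?_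
    exact (Submodule.mem_torsionBy_iff _ _).2 ((natCast_zsmul x p).trans hx)
  have up : ∀ j x, x ∈ nsm (p ^ (j + 1)) U ↔ ∃ v ∈ nsm (p ^ j) U, p • v = x := by
    intro j x
    constructor
    · rintro ⟨u, hu, rfl⟩
      exact ⟨_, ⟨u, hu, rfl⟩, by rw [pow_succ', mul_smul]⟩
    · rintro ⟨_, ⟨u, hu, rfl⟩, rfl⟩
      exact ⟨u, hu, by rw [pow_succ', mul_smul]⟩
  have down : ∀ j, nsm (p ^ (j + 1)) U ≤ nsm (p ^ j) U := fun j x hx => by
    obtain ⟨v, hv, rfl⟩ := (up j x).1 hx
    exact nsmul_mem hv p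
  let S : ℕ → Set M := fun j => {x | x ∈ nsm (p ^ j) U ∧ p • x = 0}
  have hS : ∀ j, (S j).Finite := fun j => hfin.subset fun x hx => hx.2
  have anti : Antitone S := antitone_nat_of_succ_le fun j x hx => ⟨down j hx.1, hx.2⟩
  obtain ⟨k, -, hk⟩ := (InvImage.wf (fun j => (S j).ncard) wellFounded_lt).has_min Set.univ
    ⟨0, trivial⟩
  have stab : ∀ j, k ≤ j → S j = S k := fun j hj =>
    Set.eq_of_subset_of_ncard_le (anti hj) (not_lt.1 (hk j trivial)) (hS k)
  have key : ∀ a j, k ≤ j → ∀ u ∈ nsm (p ^ j) U, p ^ a • u = 0 → u ∈ nsm (p ^ (j + 1)) U := by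
    intro a
    induction a with
    | zero =>
      intro j _ u _ e
      rw [pow_zero, one_smul] at e
      rw [e]
      exact Submodule.zero_mem _
    | succ a ih =>
      intro j hj u hu e
      obtain ⟨v, hv, hvu⟩ := (up _ _).1 (ih (j + 1) (by omega) (p • u) ((up j _).2 ⟨u, hu, rfl⟩)
        (by rw [← mul_smul, ← pow_succ, e]))
      have h1 : u - v ∈ S j :=
        ⟨Submodule.sub_mem _ hu (down j hv), by rw [smul_sub, hvu, sub_self]⟩
      rw [stab j hj, ← stab (j + 1) (by omega)] at h1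
      have h2 := Submodule.add_mem _ h1.1 hv
      rwa [sub_add_cancel] at h2
  refine ⟨k, fun u hu => (up k u).1 ?_⟩
  obtain ⟨w, hw, e⟩ := hu
  obtain ⟨a, ha⟩ := ht w hw
  exact key a k le_rfl u ⟨w, hw, e⟩ (by rw [← e, smul_comm, ha, smul_zero])

theorem prim_nil (hf : MalOk r d f) (hM : RkLe M r) (ha : ∀ g ∈ derivedSeries G d, act g = 1)
    {U : Submodule ℤ M} (hU : InvU act U) {p : ℕ} (hp : p.Prime)
    (ht : ∀ u ∈ U, ∃ k, p ^ k • u = 0) : ∃ k, (brk act (dres f G))^[k] U = ⊥ := by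
  have h1 : ∀ k, (brk act (dres f G))^[k * r] U ≤ nsm (p ^ k) U := by
    intro k
    induction k with
    | zero =>
      rw [zero_mul]
      exact fun u hu => ⟨u, hu, by rw [pow_zero, one_smul]⟩
    | succ k ih =>
      rw [Nat.succ_mul, add_comm, Function.iterate_add_apply]
      intro x hx
      obtain ⟨_, ⟨u, hu, rfl⟩, rfl⟩ :=
        brk_modp hf hM ha hp (nsm_inv hU) x (brk_mono.iterate r ih hx)
      exact ⟨u, hu, by rw [pow_succ', mul_smul]⟩
  obtain ⟨k, hk⟩ := exists_div hM hp.pos ht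
  refine ⟨r + k * r, eq_bot_iff.2 ?_⟩
  rw [Function.iterate_add_apply]
  refine (brk_mono.iterate r (h1 k)).trans (brk_div hf hM ha hp (nsm_inv hU) ?_ hk).le
  rintro _ ⟨u, hu, rfl⟩
  obtain ⟨a, e⟩ := ht u hu
  exact ⟨a, by rw [smul_comm, e, smul_zero]⟩

end SModBAux

theorem brk_nil (hf : MalOk r d f) (hM : RkLe M r) (ha : ∀ g ∈ derivedSeries G d, act g = 1)
    {W : Submodule ℤ M} (hW : InvU act W) (ht : W ≤ Submodule.torsion ℤ M) {m : ℕ} (hm : 0 < m)
    (h : MTyp m W (brk act (dres f G) W)) : ∃ k, (brk act (dres f G))^[k] W = ⊥ := by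
  classical
  obtain ⟨s, hs, h⟩ := h
  obtain ⟨n, hn, hns⟩ : ∃ n : ℕ, 0 < n ∧ ∀ x ∈ Submodule.span ℤ (s : Set M), n • x = 0 := by
    choose t ht0 hte using fun x : s => SModBAux.tors ht (hs x.1 x.2)
    refine ⟨∏ x, t x, Finset.prod_pos fun x _ => ht0 x, fun x hx => ?_⟩
    induction hx using Submodule.span_induction with
    | mem x hx =>
      obtain ⟨c, hc⟩ := Finset.dvd_prod_of_mem t (Finset.mem_univ ⟨x, hx⟩)
      rw [hc, mul_comm, mul_smul, hte, smul_zero]
    | zero => exact smul_zero _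
    | add x y _ _ ix iy => rw [smul_add, ix, iy, add_zero]
    | smul a x _ ix => rw [smul_comm, ix, smul_zero]
  have h1 : ∀ p : ℕ, ∃ k, p.Prime → (brk act (dres f G))^[k] (SModBAux.prim p W) = ⊥ := by
    intro p
    by_cases hp : p.Prime
    · obtain ⟨k, hk⟩ := SModBAux.prim_nil hf hM ha (SModBAux.prim_inv hW) hp fun u hu => hu.2
      exact ⟨k, fun _ => hk⟩
    · exact ⟨0, fun h => absurd h hp⟩
  choose κ hκ using h1
  refine ⟨(m * n).primeFactors.sup κ, eq_bot_iff.2 (brk_iter_le _ fun l hl hk u hu => ?_)⟩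
  refine (Submodule.mem_bot ℤ).2 (SModBAux.le_of_prim
    (T := SModBAux.kil act (dres f G) ((m * n).primeFactors.sup κ)) ht (fun p hp => ?_) hu l hl hk)
  by_cases hd : p ∣ m * n
  · exact SModBAux.le_kil (hκ p hp)
      (Finset.le_sup (Nat.mem_primeFactors.2 ⟨hp, hd, (Nat.mul_pos hm hn).ne'⟩))
  · have hc := ((Nat.Prime.coprime_iff_not_dvd hp).2 hd).symm
    rw [SModBAux.prim_bot hf hM ha hW hp]
    · exact bot_le
    rintro w ⟨hw, a, e⟩
    obtain ⟨j, hj⟩ := h w hw
    obtain ⟨x, hx, y, hy, hxy⟩ := Submodule.mem_sup.1 hj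
    obtain ⟨c, hcp, hcy⟩ := SModBAux.brk_prim ht hp hy
    refine SModBAux.bez (a := n * c * m ^ j) (b := p ^ a) (Nat.Coprime.pow_right a
      (Nat.Coprime.mul_left (Nat.Coprime.mul_left (Nat.Coprime.coprime_mul_left hc) hcp)
        (Nat.Coprime.pow_left j (Nat.Coprime.coprime_mul_right hc)))) ?_ ?_
    · rw [mul_smul, ← hxy, smul_add, mul_comm n c, mul_smul, hns x hx, smul_zero, zero_add,
        mul_comm c n, mul_smul]
      exact nsmul_mem hcy n
    · rw [e]
      exact Submodule.zero_mem _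

end Pool.Agent.P.MP_257122_al
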