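import Pool.Agent.P.MP_257122_al.SModA

/-!
# Unipotent action on divisible `p`-groups

We use the Tate module `T` of sequences `x` with `x 0 = 0` and `p • x (n + 1) = x n`.  It is a
torsion-free separated `ℤ_[p]`-module, `T / p T` embeds in the `p`-torsion, so `T` is spanned by
`r` elements, and the theorem of Malcev applies to `ℚ_[p] ⊗ T`.
-/

namespace Pool.Agent.P.MP_257122_al

variable {G M : Type} [Group G] [AddCommGroup M] {r d f : ℕ} {act : G →* Module.End ℤ M}

namespace SPadAux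

/-- Compatible sequences. -/
def tsub (p : ℕ) (M : Type) [AddCommGroup M] : AddSubgroup (ℕ → M) where
  carrier := {x | x 0 = 0 ∧ ∀ n, p • x (n + 1) = x n}
  zero_mem' := ⟨rfl, fun _ => smul_zero _⟩
  add_mem' := fun {x y} hx hy => ⟨by rw [Pi.add_apply, hx.1, hy.1, add_zero], fun n => by
    rw [Pi.add_apply, Pi.add_apply, smul_add, hx.2, hy.2]⟩
  neg_mem' := fun {x} hx => ⟨by rw [Pi.neg_apply, hx.1, neg_zero], fun n => by
    rw [Pi.neg_apply, Pi.neg_apply, smul_neg, hx.2]⟩

/-- The Tate module. -/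
def Tate (p : ℕ) (M : Type) [AddCommGroup M] : Type := tsub p M

instance (p : ℕ) : AddCommGroup (Tate p M) := (tsub p M).toAddCommGroup

variable {p : ℕ}

/-- Evaluation. -/
def ev (n : ℕ) : Tate p M →+ M where
  toFun x := x.1 n
  map_zero' := rfl
  map_add' _ _ := rfl

theorem ev_ext {x y : Tate p M} (h : ∀ n, ev n x = ev n y) : x = y :=
  Subtype.ext (funext h)

theorem ev_zero (x : Tate p M) : ev 0 x = 0 := x.2.1

theorem ev_succ (x : Tate p M) (n : ℕ) : p • ev (n + 1) x = ev n x := x.2.2 n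

theorem ev_add (x : Tate p M) (k n : ℕ) : p ^ k • ev (n + k) x = ev n x := by
  induction k with
  | zero => rw [pow_zero, one_smul, add_zero]
  | succ k ih => rw [pow_succ, mul_smul, ← add_assoc, ev_succ, ih]

theorem ev_pow (x : Tate p M) (n : ℕ) : p ^ n • ev n x = 0 := by
  have := ev_add x n 0
  rwa [zero_add, ev_zero] at this

variable [Fact p.Prime]

theorem appr_smul {n : ℕ} {u : M} (hu : p ^ n • u = 0) (a : ℤ_[p]) (m : ℕ)
    (h : a - m ∈ Ideal.span {(p : ℤ_[p]) ^ n}) : a.appr n • u = m • u := by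
  have e := PadicInt.zmod_congr_of_sub_mem_span n a _ _ (PadicInt.appr_spec n a) h
  rw [ZMod.natCast_eq_natCast_iff'] at e
  rw [nsmul_eq_mod_nsmul (a.appr n) hu, nsmul_eq_mod_nsmul m hu, e]

noncomputable instance : SMul ℤ_[p] (Tate p M) where
  smul a x := ⟨fun n => a.appr n • ev n x, by
    refine ⟨by simp only [ev_zero, smul_zero], fun n => ?_⟩
    show p • a.appr (n + 1) • ev (n + 1) x = a.appr n • ev n x
    rw [smul_comm, ev_succ]
    refine (appr_smul (ev_pow x n) a _ ?_).symm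
    exact Ideal.span_singleton_le_span_singleton.2 (pow_dvd_pow _ n.le_succ)
      (PadicInt.appr_spec (n + 1) a)⟩

theorem ev_smul (a : ℤ_[p]) (x : Tate p M) (n : ℕ) : ev n (a • x) = a.appr n • ev n x := rfl

noncomputable instance : Module ℤ_[p] (Tate p M) where
  one_smul x := ev_ext fun n => by
    rw [ev_smul, appr_smul (ev_pow x n) 1 1 (by simp), one_smul]
  mul_smul a b x := ev_ext fun n => by
    rw [ev_smul, ev_smul, ev_smul, ← mul_smul]
    refine appr_smul (ev_pow x n) _ _ ?_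
    have e : a * b - ((a.appr n * b.appr n : ℕ) : ℤ_[p]) =
        a * (b - b.appr n) + (b.appr n : ℤ_[p]) * (a - a.appr n) := by
      push_cast
      ring
    rw [e]
    exact Ideal.add_mem _ (Ideal.mul_mem_left _ _ (PadicInt.appr_spec n b))
      (Ideal.mul_mem_left _ _ (PadicInt.appr_spec n a))
  smul_zero a := ev_ext fun n => by rw [ev_smul, map_zero, smul_zero]
  smul_add a x y := ev_ext fun n => by rw [map_add, ev_smul, ev_smul, ev_smul, map_add, smul_add]
  add_smul a b x := ev_ext fun n => by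
    rw [map_add, ev_smul, ev_smul, ev_smul, ← add_smul]
    refine appr_smul (ev_pow x n) _ _ ?_
    have e : a + b - ((a.appr n + b.appr n : ℕ) : ℤ_[p]) = (a - a.appr n) + (b - b.appr n) := by
      push_cast
      ring
    rw [e]
    exact Ideal.add_mem _ (PadicInt.appr_spec n a) (PadicInt.appr_spec n b)
  zero_smul x := ev_ext fun n => by
    rw [ev_smul, appr_smul (ev_pow x n) 0 0 (by simp), zero_smul, map_zero]

theorem ev_pow_smul (k n : ℕ) (x : Tate p M) : ev n ((p : ℤ_[p]) ^ k • x) = p ^ k • ev n x := by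
  rw [ev_smul, appr_smul (ev_pow x n) _ (p ^ k) (by simp)]

theorem mem_pow {N : Type} [AddCommGroup N] [Module ℤ_[p] N] (n : ℕ) (x : N) :
    x ∈ (IsLocalRing.maximalIdeal ℤ_[p] ^ n • ⊤ : Submodule ℤ_[p] N) ↔
      ∃ y, (p : ℤ_[p]) ^ n • y = x := by
  rw [PadicInt.maximalIdeal_eq_span_p, Ideal.span_singleton_pow,
    Submodule.ideal_span_singleton_smul, Submodule.mem_smul_pointwise_iff_exists]
  simp

theorem prec_pi (ι : Type) : IsPrecomplete (IsLocalRing.maximalIdeal ℤ_[p]) (ι → ℤ_[p]) := by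
  refine ⟨fun s hs => ?_⟩
  have h1 : ∀ i, ∃ L : ℤ_[p], ∀ n, s n i ≡ L
      [SMOD (IsLocalRing.maximalIdeal ℤ_[p] ^ n • ⊤ : Submodule ℤ_[p] ℤ_[p])] := fun i => by
    refine IsPrecomplete.prec inferInstance fun {m n} hmn => ?_
    obtain ⟨y, hy⟩ := (mem_pow m _).1 (SModEq.sub_mem.1 (hs hmn))
    exact SModEq.sub_mem.2 ((mem_pow m _).2 ⟨y i, congrFun hy i⟩)
  choose L hL using h1
  refine ⟨L, fun n => ?_⟩
  choose y hy using fun i => (mem_pow n _).1 (SModEq.sub_mem.1 (hL i n))
  exact SModEq.sub_mem.2 ((mem_pow n _).2 ⟨y, funext hy⟩)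

theorem haus : IsHausdorff (IsLocalRing.maximalIdeal ℤ_[p]) (Tate p M) := by
  refine ⟨fun x hx => ev_ext fun n => ?_⟩
  obtain ⟨y, hy⟩ := (mem_pow n _).1 (SModEq.sub_mem.1 (hx n))
  rw [sub_zero] at hy
  rw [← hy, ev_pow_smul, ev_pow, map_zero]

theorem div_of_ev {x : Tate p M} (h : ev 1 x = 0) : ∃ y : Tate p M, (p : ℤ_[p]) ^ 1 • y = x := by
  refine ⟨⟨fun n => ev (n + 1) x, h, fun n => ev_succ x (n + 1)⟩, ev_ext fun n => ?_⟩
  refine (ev_pow_smul 1 n _).trans ?_
  rw [pow_one]
  exact ev_succ x n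

theorem span_tate (hM : RkLe M r) :
    ∃ s : Finset (Tate p M), s.card ≤ r ∧ Submodule.span ℤ_[p] (s : Set (Tate p M)) = ⊤ := by
  classical
  have hp : p.Prime := Fact.out
  let W : Submodule ℤ M := LinearMap.range (ev (p := p) (M := M) 1).toIntLinearMap
  have hW : ∀ x : W, p • x = 0 := by
    rintro ⟨_, x, rfl⟩
    have := ev_pow x 1
    rw [pow_one] at this
    exact Subtype.ext this
  have i0 : Finite W := ((hM.sub W).finite_of_exp hp.pos hW).1
  obtain ⟨s, hs, hsW⟩ := hM W (Module.Finite.iff_fg.1 inferInstance)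
  have hl : ∀ a : s, ∃ x : Tate p M, ev 1 x = a.1 := fun a => by
    have : a.1 ∈ W := hsW ▸ Submodule.subset_span a.2
    exact this
  choose t ht using hl
  let φ : (s → ℤ_[p]) →ₗ[ℤ_[p]] Tate p M := Fintype.linearCombination ℤ_[p] t
  have i1 := prec_pi (p := p) s
  have i2 := haus (p := p) (M := M)
  have hφ : Function.Surjective φ := by
    refine surjective_of_mkQ_comp_surjective (I := IsLocalRing.maximalIdeal ℤ_[p]) fun y => ?_
    obtain ⟨y, rfl⟩ := Submodule.Quotient.mk_surjective _ y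
    have hy : ev 1 y ∈ Submodule.span ℤ (s : Set M) := hsW ▸ ⟨y, rfl⟩
    obtain ⟨c, hc⟩ := Submodule.mem_span_finset'.1 hy
    refine ⟨fun a => (c a : ℤ_[p]), (Submodule.Quotient.eq _).2 ?_⟩
    have e : ev 1 (φ (fun a => (c a : ℤ_[p])) - y) = 0 := by
      rw [map_sub, ← hc, Fintype.linearCombination_apply, map_sum, sub_eq_zero]
      refine Finset.sum_congr rfl fun a _ => ?_
      rw [Int.cast_smul_eq_zsmul, map_zsmul, ht]
    have := (mem_pow 1 _).2 (div_of_ev e)
    rwa [pow_one] at this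
  refine ⟨Finset.univ.image t, Finset.card_image_le.trans (by simpa using hs), ?_⟩
  rw [Finset.coe_image, Finset.coe_univ, Set.image_univ, ← Fintype.range_linearCombination]
  exact LinearMap.range_eq_top.2 hφ

theorem eq_zero_of_smul {a : ℤ_[p]} (ha : a ≠ 0) {x : Tate p M} (h : a • x = 0) : x = 0 := by
  rw [PadicInt.unitCoeff_spec ha, mul_smul] at h
  have h2 : (p : ℤ_[p]) ^ a.valuation • x = 0 := by
    have := congrArg (fun y => ((PadicInt.unitCoeff ha)⁻¹ : ℤ_[p]ˣ).1 • y) h
    simpa only [smul_smul, ← mul_assoc, Units.inv_mul, one_mul, smul_zero] using this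
  refine ev_ext fun n => ?_
  rw [← ev_add x a.valuation n, ← ev_pow_smul, h2, map_zero, map_zero]

/-- The action on the Tate module. -/
def tact (p : ℕ) [Fact p.Prime] (act : G →* Module.End ℤ M) :
    G →* Module.End ℤ_[p] (Tate p M) where
  toFun g :=
    { toFun := fun x => ⟨fun n => act g (ev n x), by
        refine ⟨by simp only [ev_zero, map_zero], fun n => ?_⟩
        show p • act g (ev (n + 1) x) = act g (ev n x)
        rw [← map_nsmul, ev_succ]⟩
      map_add' := fun x y => ev_ext fun n => by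
        show act g (ev n (x + y)) = act g (ev n x) + act g (ev n y)
        rw [map_add, map_add]
      map_smul' := fun a x => ev_ext fun n => by
        show act g (ev n (a • x)) = a.appr n • act g (ev n x)
        rw [ev_smul, map_nsmul] }
  map_one' := LinearMap.ext fun x => ev_ext fun n => by
    show act 1 (ev n x) = ev n x
    rw [map_one, Module.End.one_apply]
  map_mul' g h := LinearMap.ext fun x => ev_ext fun n => by
    show act (g * h) (ev n x) = act g (act h (ev n x))
    rw [map_mul, Module.End.mul_apply]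

theorem tate_uni (hf : MalOk r d f) (hM : RkLe M r)
    (ha : ∀ g ∈ derivedSeries G d, act g = 1) (l : List G) (hl : ∀ x ∈ l, x ∈ dres f G)
    (hr : l.length = r) (x : Tate p M) : (l.map fun g => tact p act g - 1).prod x = 0 := by
  classical
  let ι : Tate p M →ₗ[ℤ_[p]] TensorProduct ℤ_[p] ℚ_[p] (Tate p M) :=
    TensorProduct.mk ℤ_[p] ℚ_[p] (Tate p M) 1
  let ρ : G →* Module.End ℚ_[p] (TensorProduct ℤ_[p] ℚ_[p] (Tate p M)) :=
    (Module.End.baseChangeHom ℤ_[p] ℚ_[p] (Tate p M)).toMonoidHom.comp (tact p act)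
  obtain ⟨s, hs, hst⟩ := span_tate (p := p) hM
  have hι : Submodule.span ℚ_[p] (↑(s.image ι) : Set (TensorProduct ℤ_[p] ℚ_[p] (Tate p M))) = ⊤ := by
    have key : ∀ a ∈ Submodule.span ℤ_[p] (s : Set (Tate p M)),
        ι a ∈ Submodule.span ℚ_[p] (↑(s.image ι) : Set (TensorProduct ℤ_[p] ℚ_[p] (Tate p M))) := by
      intro a ha
      induction ha using Submodule.span_induction with
      | mem y hy => exact Submodule.subset_span (Finset.mem_coe.2 (Finset.mem_image_of_mem ι hy))
      | zero => rw [map_zero]; exact Submodule.zero_mem _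
      | add y z _ _ iy iz => rw [map_add]; exact Submodule.add_mem _ iy iz
      | smul c y _ iy =>
        rw [map_smul, ← algebraMap_smul ℚ_[p] c]
        exact Submodule.smul_mem _ _ iy
    refine eq_top_iff.2 fun y _ => ?_
    induction y using TensorProduct.induction_on with
    | zero => exact Submodule.zero_mem _
    | add y z hy hz => exact Submodule.add_mem _ (hy trivial) (hz trivial)
    | tmul q a =>
      have e : q ⊗ₜ[ℤ_[p]] a = q • ι a := by
        show _ = q • ((1 : ℚ_[p]) ⊗ₜ[ℤ_[p]] a)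
        rw [TensorProduct.smul_tmul', smul_eq_mul, mul_one]
      rw [e]
      exact Submodule.smul_mem _ _ (key a (hst ▸ Submodule.mem_top))
  have i0 : Module.Finite ℚ_[p] (TensorProduct ℤ_[p] ℚ_[p] (Tate p M)) := ⟨⟨_, hι⟩⟩
  have h2 : Module.finrank ℚ_[p] (TensorProduct ℤ_[p] ℚ_[p] (Tate p M)) ≤ r := by
    rw [← finrank_top, ← hι]
    exact (finrank_span_finset_le_card _).trans (Finset.card_image_le.trans hs)
  have hu := hf.uni h2 ρ fun g hg => by
    have e : tact p act g = 1 := LinearMap.ext fun x => ev_ext fun n => by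
      show act g (ev n x) = ev n x
      rw [ha g hg, Module.End.one_apply]
    show (Module.End.baseChangeHom ℤ_[p] ℚ_[p] (Tate p M)).toMonoidHom (tact p act g) = 1
    rw [e, map_one]
  have e := SModAAux.inter ι.toAddMonoidHom (tact p act) ρ (fun _ _ => rfl) l x
  rw [hu l hl hr.ge] at e
  have hloc : IsLocalizedModule (nonZeroDivisors ℤ_[p])
      (TensorProduct.mk ℤ_[p] ℚ_[p] (Tate p M) 1) :=
    IsLocalization.tensorProduct_isLocalizedModule _ _
  obtain ⟨c, hc⟩ := (IsLocalizedModule.eq_zero_iff (nonZeroDivisors ℤ_[p])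
    (TensorProduct.mk ℤ_[p] ℚ_[p] (Tate p M) 1)).1 e
  exact eq_zero_of_smul (nonZeroDivisors.coe_ne_zero c) hc

omit [Fact p.Prime] in
theorem exists_ev (hd : ∀ u : M, ∃ v, p • v = u) {u : M} {k : ℕ} (hu : p ^ k • u = 0) :
    ∃ x : Tate p M, ev k x = u := by
  choose σ hσ using hd
  refine ⟨⟨fun n => p ^ k • σ^[n] u, hu, fun n => ?_⟩, ?_⟩
  · show p • p ^ k • σ^[n + 1] u = p ^ k • σ^[n] u
    rw [smul_comm, Function.iterate_succ_apply', hσ]
  · show p ^ k • σ^[k] u = u
    clear hu
    induction k with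
    | zero => rw [pow_zero, one_smul, Function.iterate_zero_apply]
    | succ k ih => rw [pow_succ, mul_smul, Function.iterate_succ_apply', hσ, ih]

end SPadAux

theorem brk_div (hf : MalOk r d f) (hM : RkLe M r) (ha : ∀ g ∈ derivedSeries G d, act g = 1)
    {p : ℕ} (hp : p.Prime) {U : Submodule ℤ M} (hU : InvU act U)
    (ht : ∀ u ∈ U, ∃ k, p ^ k • u = 0) (hd : ∀ u ∈ U, ∃ v ∈ U, p • v = u) :
    (brk act (dres f G))^[r] U = ⊥ := by
  have i0 := Fact.mk hp
  refine eq_bot_iff.2 (brk_iter_le r fun l hl hr u hu => ?_)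
  obtain ⟨k, hk⟩ := ht u hu
  obtain ⟨x, hx⟩ := SPadAux.exists_ev (p := p) (M := U) (fun w => by
    obtain ⟨v, hv, e⟩ := hd w.1 w.2
    exact ⟨⟨v, hv⟩, Subtype.ext e⟩) (u := ⟨u, hu⟩) (k := k) (Subtype.ext hk)
  have e := SPadAux.tate_uni (act := SModAAux.resAct act hU) hf (hM.sub U)
    (fun g hg => LinearMap.ext fun u => Subtype.ext (by
      show act g u = u
      rw [ha g hg]
      rfl)) l hl hr x
  have e2 := SModAAux.inter (SPadAux.ev k) (SPadAux.tact p (SModAAux.resAct act hU))
    (SModAAux.resAct act hU) (fun _ _ => rfl) l x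
  rw [e, map_zero, hx] at e2
  have e3 := SModAAux.inter U.subtype.toAddMonoidHom (SModAAux.resAct act hU) act
    (fun _ _ => rfl) l ⟨u, hu⟩
  rw [← e2, map_zero] at e3
  exact (Submodule.mem_bot ℤ).2 e3.symm

end Pool.Agent.P.MP_257122_al
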