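import Pool.Agent.P.MP_257122_al.KIface
import Pool.Agent.P.MP_257122_al.MMark

/-!
# Isomorphism is recursively enumerable

PLAN.  `p.G ≃* p'.G` exists iff each group satisfies the derived length bound of the other one
(`cs_derLe`) and there are `u`, `v` with `u W ⊆ S'`, `v W' ⊆ S`, `v (u x) x⁻¹ ∈ S`,
`u (v y) y⁻¹ ∈ S'` (`Compat.iso`, `exists_compat`).
-/

namespace Pool.Agent.P.MP_257122_al

/-- Pairs of presentations of groups of finite rank. -/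
abbrev PP : Type := {a : Pres × Pres // FinRank a.1.G ∧ FinRank a.2.G}

theorem tiso_der {p p' : Pres} {u : Fr p.1 →* Fr p'.1} {v : Fr p'.1 →* Fr p.1}
    (h1 : ∀ y ∈ p'.S, v y ∈ p.S) (h2 : ∀ g, v (u g) * g⁻¹ ∈ p.S) :
    derivedSeries (Fr p.1) p'.2.1 ≤ p.S := fun g hg => by
  have h3 : u g ∈ p'.S := (le_sup_right : derivedSeries (Fr p'.1) p'.2.1 ≤ p'.S)
    (map_derivedSeries_le_derivedSeries u _ ⟨g, hg, rfl⟩)
  exact p.S.inv_mem_iff.1 ((p.S.mul_mem_cancel_left (h1 _ h3)).1 (h2 g))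

theorem tiso_le {p p' : Pres} {u : Fr p.1 →* Fr p'.1}
    (h1 : derivedSeries (Fr p'.1) p.2.1 ≤ p'.S) (h2 : ∀ w ∈ p.2.2, u w ∈ p'.S) :
    ∀ y ∈ p.S, u y ∈ p'.S :=
  show p.S ≤ p'.S.comap u from sup_le (Subgroup.normalClosure_le_normal fun y hy => h2 y hy)
    fun g hg => h1 (map_derivedSeries_le_derivedSeries u _ ⟨g, hg, rfl⟩)

theorem tiso_iff (p p' : Pres) :
    (derivedSeries (Fr p.1) p'.2.1 ≤ p.S ∧ derivedSeries (Fr p'.1) p.2.1 ≤ p'.S) ∧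
      (∃ x : (Fin p.1 → Fr p'.1) × (Fin p'.1 → Fr p.1),
        ((∀ w ∈ p.2.2, FreeGroup.lift x.1 w ∈ p'.S) ∧
          ∀ i, FreeGroup.lift x.2 (x.1 i) * (FreeGroup.of i)⁻¹ ∈ p.S) ∧
        ((∀ w ∈ p'.2.2, FreeGroup.lift x.2 w ∈ p.S) ∧
          ∀ i, FreeGroup.lift x.1 (x.2 i) * (FreeGroup.of i)⁻¹ ∈ p'.S)) ↔
      Nonempty (p.G ≃* p'.G) := by
  constructor
  · rintro ⟨⟨h1, h2⟩, x, ⟨h3, h5⟩, h4, h6⟩
    refine Compat.iso (u := FreeGroup.lift x.1) (v := FreeGroup.lift x.2)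
      ⟨tiso_le h2 h3, tiso_le h1 h4,
        gb_gens ((FreeGroup.lift x.2).comp (FreeGroup.lift x.1)) fun i => ?_,
        gb_gens ((FreeGroup.lift x.1).comp (FreeGroup.lift x.2)) fun i => ?_⟩
    · simpa using h5 i
    · simpa using h6 i
  · rintro ⟨φ⟩
    obtain ⟨u, v, h, -⟩ := exists_compat φ
    obtain ⟨x, rfl⟩ := FreeGroup.lift.surjective u
    obtain ⟨y, rfl⟩ := FreeGroup.lift.surjective v
    refine ⟨⟨tiso_der h.2.1 h.2.2.1, tiso_der h.1 h.2.2.2⟩, (x, y),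
      ⟨fun w hw => h.1 w (Subgroup.mem_sup_left (Subgroup.subset_normalClosure hw)), fun i => ?_⟩,
      fun w hw => h.2.1 w (Subgroup.mem_sup_left (Subgroup.subset_normalClosure hw)), fun i => ?_⟩
    · simpa using h.2.2.1 (FreeGroup.of i)
    · simpa using h.2.2.2 (FreeGroup.of i)

open FOpsAux in
theorem tiso_half {A : Type} [Rep A] {b b' : A → ℕ} {W : ∀ a, List (Fr (b a))}
    {S : ∀ a, Subgroup (Fr (b a))} {S' : ∀ a, Subgroup (Fr (b' a))}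
    {x : ∀ a, Fin (b a) → Fr (b' a)} {y : ∀ a, Fin (b' a) → Fr (b a)} (hb : CS b) (hW : CS W)
    (hS : CS S) (hS' : CS S') (hx : CS x) (hy : CS y) :
    CS (fun a => (∀ w ∈ W a, FreeGroup.lift (x a) w ∈ S' a) ∧
      ∀ i, FreeGroup.lift (y a) (x a i) * (FreeGroup.of i)⁻¹ ∈ S a) :=
  CS.and (CS.allMem hW (CS.memSubgroup (hS'.comp s1)
      (CS.homApp ((CS.freeLift MulF.free InvF.free OneF.free hx).comp s1) s2)))
    (CS.all (CFin.fin hb) (CS.memSubgroup (hS.comp s1) (CS.mul MulF.free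
      (CS.homApp ((CS.freeLift MulF.free InvF.free OneF.free hy).comp s1)
        (CS.app (hx.comp s1) s2)) (CS.inv InvF.free (CS.freeOf s2)))))

open FOpsAux in
theorem tiso_cert {A : Type} [Rep A] {p p' : A → Pres} (hp : CS p) (hp' : CS p') :
    CS (fun a => ∃ x : (Fin (p a).1 → Fr (p' a).1) × (Fin (p' a).1 → Fr (p a).1),
      ((∀ w ∈ (p a).2.2, FreeGroup.lift x.1 w ∈ (p' a).S) ∧
        ∀ i, FreeGroup.lift x.2 (x.1 i) * (FreeGroup.of i)⁻¹ ∈ (p a).S) ∧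
      ((∀ w ∈ (p' a).2.2, FreeGroup.lift x.2 w ∈ (p a).S) ∧
        ∀ i, FreeGroup.lift x.1 (x.2 i) * (FreeGroup.of i)⁻¹ ∈ (p' a).S)) := by
  have b := CS.sfst hp
  have b' := CS.sfst hp'
  have r : CS (fun a => (p a).2) := CS.ssnd hp
  have r' : CS (fun a => (p' a).2) := CS.ssnd hp'
  have S : CS (fun a => (p a).S) := CS.relS b r.fst r.snd
  have S' : CS (fun a => (p' a).S) := CS.relS b' r'.fst r'.snd
  exact CS.ex (Enum.prod
      (Enum.pi (CFin.fin b) Disc.fin (Enum.free (Enum.fin (b'.comp s1))))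
      (Enum.pi (CFin.fin b') Disc.fin (Enum.free (Enum.fin (b.comp s1)))))
    (CS.and (tiso_half (b.comp s1) (r.snd.comp s1) (S.comp s1) (S'.comp s1) s2.fst s2.snd)
      (tiso_half (b'.comp s1) (r'.snd.comp s1) (S'.comp s1) (S.comp s1) s2.snd s2.fst))

theorem cs_iso : CS (fun a : PP => Nonempty (a.1.1.G ≃* a.1.2.G)) := by
  have v : CS (fun a : PP => a.1) := CS.val CS.id
  have r : CS (fun a : PP => a.1.1.2) := CS.ssnd v.fst
  have r' : CS (fun a : PP => a.1.2.2) := CS.ssnd v.snd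
  have g : CS (fun a : PP =>
      (⟨(a.1.1, a.1.2.2.1), a.2.1⟩ : {a : Pres × ℕ // FinRank a.1.G})) :=
    CS.submk (p := fun _ a => FinRank a.1.G) (h := fun a => a.2.1) (CS.pair v.fst r'.fst)
  have g' : CS (fun a : PP =>
      (⟨(a.1.2, a.1.1.2.1), a.2.2⟩ : {a : Pres × ℕ // FinRank a.1.G})) :=
    CS.submk (p := fun _ a => FinRank a.1.G) (h := fun a => a.2.2) (CS.pair v.snd r.fst)
  exact (((cs_derLe.comp g).and (cs_derLe.comp g')).and (tiso_cert v.fst v.snd)).of_iff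
    fun a _ => tiso_iff a.1.1 a.1.2

end Pool.Agent.P.MP_257122_al
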