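import Pool.Agent.P.MP_257122_al.TIso
import Pool.Agent.P.MP_257122_al.MVA
import Pool.Agent.P.MP_257122_al.NNiel
import Pool.Agent.P.MP_257122_al.NCore

/-!
# Non-isomorphism is recursively enumerable
-/

namespace Pool.Agent.P.MP_257122_al

theorem congr_of_gens {b : ℕ} {H : Type} [Group H] {N : Subgroup H} [N.Normal]
    {u u₀ : Fr b →* H} (h : ∀ i, u (FreeGroup.of i) * (u₀ (FreeGroup.of i))⁻¹ ∈ N) (g : Fr b) :
    u g * (u₀ g)⁻¹ ∈ N := by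
  have e : (QuotientGroup.mk' N).comp u = (QuotientGroup.mk' N).comp u₀ := by
    refine FreeGroup.ext_hom _ _ fun i => ?_
    have := h i
    rw [← QuotientGroup.ker_mk' N, MonoidHom.mem_ker, map_mul, map_inv, mul_inv_eq_one] at this
    exact this
  rw [← QuotientGroup.ker_mk' N, MonoidHom.mem_ker, map_mul, map_inv, mul_inv_eq_one]
  exact DFunLike.congr_fun e g

theorem Compat.of_congr {G H : Type} [Group G] [Group H] {N : Subgroup G} {N' : Subgroup H}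
    {u u₀ : G →* H} {v v₀ : H →* G} (h : Compat N N' u₀ v₀) (hu : ∀ g, u g * (u₀ g)⁻¹ ∈ N')
    (hv : ∀ g, v g * (v₀ g)⁻¹ ∈ N) : Compat N N' u v := by
  refine ⟨fun y hy => ?_, fun y hy => ?_, fun g => ?_, fun g => ?_⟩
  · simpa using N'.mul_mem (hu y) (h.1 y hy)
  · simpa using N.mul_mem (hv y) (h.2.1 y hy)
  · have := N.mul_mem (N.mul_mem (hv (u g)) (h.2.1 _ (hu g))) (h.2.2.1 g)
    simpa [mul_assoc] using this
  · have := N'.mul_mem (N'.mul_mem (hu (v g)) (h.1 _ (hv g))) (h.2.2.2 g)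
    simpa [mul_assoc] using this

theorem Compat.conj {G H : Type} [Group G] [Group H] {S : Subgroup G} {S' : Subgroup H}
    [hS' : S'.Normal] {u : G →* H} {v : H →* G} (h : Compat S S' u v) (c : H) :
    Compat S S' ((MulAut.conj c).toMonoidHom.comp u) (v.comp (MulAut.conj c⁻¹).toMonoidHom) := by
  refine ⟨fun y hy => ?_, fun y hy => ?_, fun g => ?_, fun g => ?_⟩
  · simpa using hS'.conj_mem _ (h.1 y hy) c
  · have := h.2.1 _ (hS'.conj_mem _ hy c⁻¹)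
    simpa using this
  · have := h.2.2.1 g
    simpa [mul_assoc] using this
  · have := hS'.conj_mem _ (h.2.2.2 (c⁻¹ * g * c)) c
    simpa [mul_assoc] using this

section
variable {A : Type} [Rep A] {p p' : A → Pres} {e₁ e₂ : A → ℕ} {x : ∀ a, Mk (p a).1}
  {x' : ∀ a, Mk (p' a).1}

theorem btw_pair {u : ∀ a, Fin (p a).1 → Fr (p' a).1} {v : ∀ a, Fin (p' a).1 → Fr (p a).1}
    (hp : CS p) (hp' : CS p') (h1 : CS e₁) (h2 : CS e₂) (hx : CS x) (hx' : CS x') (hu : CS u)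
    (hv : CS v) (hG : ∀ a, FinRank (p a).G) (hG' : ∀ a, FinRank (p' a).G)
    (hM : ∀ a, (p a).Mark (e₁ a) (e₂ a) (x a)) (hM' : ∀ a, (p' a).Mark (e₁ a) (e₂ a) (x' a)) :
    Btw (fun a => ¬ Nonempty ((p a).G ≃* (p' a).G) ∧ GoodPar (e₁ a) (e₂ a) (p a).G ∧
        GoodPar (e₁ a) (e₂ a) (p' a).G)
      (fun a => ¬ ∃ u₀ v₀, Compat (p a).S (p' a).S u₀ v₀ ∧
        (∀ i, u a i * (u₀ (FreeGroup.of i))⁻¹ ∈ (p' a).N (e₁ a) (e₂ a)) ∧
          ∀ i, v a i * (v₀ (FreeGroup.of i))⁻¹ ∈ (p a).N (e₁ a) (e₂ a)) := by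
  have hc := cs_compat hp hp' hx hx' hu hv hM hM'
  have hn := cs_notCompat hp hp' h1 h2 hx hx' hu hv hM hM'
  let B : Type := {a // Compat ((p a).N (e₁ a) (e₂ a)) ((p' a).N (e₁ a) (e₂ a))
    (FreeGroup.lift (u a)) (FreeGroup.lift (v a))}
  have hok : ∀ b : B, (nielIn (p b.1) (p' b.1) (u b.1) (v b.1) (x b.1).2.2).ok := fun b =>
    niel_ok (N' := (p' b.1).N (e₁ b.1) (e₂ b.1)) ((hM b.1).1 ▸ Pres.S_le_N _ _ _)
      (Pres.S_le_N _ _ _) ((hM b.1).1 ▸ Pres.vab_N _ _ _) ((hM b.1).1 ▸ b.2)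
  have hval : CS (fun b : B => b.1) := CS.id.val
  have hcs : CS (fun b : B => nielIn (p b.1) (p' b.1) (u b.1) (v b.1) (x b.1).2.2) :=
    cs_nielIn (hp.comp hval) (hp'.comp hval) (hu.comp hval) (hv.comp hval)
      (hx.comp hval).ssnd.snd
  have core := btw_core.comp (g := fun b : B => ⟨_, hok b⟩) hcs
  refine ((Btw.of_cs hn (fun _ _ h => h) (fun _ _ h => h)).or (Btw.sub hc core)).mono ?_ ?_
  · rintro a - ⟨hI, hg, hg'⟩
    by_cases h : Compat ((p a).N (e₁ a) (e₂ a)) ((p' a).N (e₁ a) (e₂ a))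
      (FreeGroup.lift (u a)) (FreeGroup.lift (v a))
    · exact Or.inr ⟨h, niel_lo (N' := (p' a).N (e₁ a) (e₂ a)) ((hM a).1 ▸ h) (hG a) (hG' a)
        ((hM a).1 ▸ Pres.nilMod hg) (Pres.nilMod hg') hI⟩
    · exact Or.inl h
  · rintro a - (h | ⟨h, hH⟩) ⟨u₀, v₀, h₀, hu₀, hv₀⟩
    · refine h ((h₀.canon (e₁ a) (e₂ a)).1.of_congr (congr_of_gens fun i => ?_)
        (congr_of_gens fun i => ?_))
      · rw [FreeGroup.lift_apply_of]; exact hu₀ i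
      · rw [FreeGroup.lift_apply_of]; exact hv₀ i
    · exact niel_hi (N' := (p' a).N (e₁ a) (e₂ a)) ((hM a).1 ▸ Pres.S_le_N _ _ _)
        (Pres.S_le_N _ _ _) ((hM a).1 ▸ h) hH h₀ hu₀ ((hM a).1 ▸ hv₀)

theorem mv_pairs (hp : CS p) (hp' : CS p') (h1 : CS e₁) (h2 : CS e₂) (hx : CS x) (hx' : CS x')
    (hG : ∀ a, FinRank (p a).G) (hG' : ∀ a, FinRank (p' a).G)
    (hM : ∀ a, (p a).Mark (e₁ a) (e₂ a) (x a)) (hM' : ∀ a, (p' a).Mark (e₁ a) (e₂ a) (x' a)) :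
    MV (fun a (L : List ((Fin (p a).1 → Fr (p' a).1) × (Fin (p' a).1 → Fr (p a).1))) =>
      Nonempty ((p a).G ≃* (p' a).G) → ∃ y ∈ L, ∃ u₀ v₀, Compat (p a).S (p' a).S u₀ v₀ ∧
        (∀ i, y.1 i * (u₀ (FreeGroup.of i))⁻¹ ∈ (p' a).N (e₁ a) (e₂ a)) ∧
          ∀ i, y.2 i * (v₀ (FreeGroup.of i))⁻¹ ∈ (p a).N (e₁ a) (e₂ a)) := by
  refine ((mv_bound hp hp' h1 h2 hx hx' hG hG' hM hM').prod
    (mv_bound hp' hp h1 h2 hx' hx hG' hG hM' hM)).bind ?_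
  have ha := (CS.id (A := {q : Σ _ : A, ℕ × ℕ // (∀ u v, Compat (p q.1).S (p' q.1).S u v → ∀ j t,
      u ((x q.1).2.1 j) * (zp (x' q.1).2.1 t)⁻¹ ∈ (p' q.1).N (e₁ q.1) (e₂ q.1) →
        ∀ l, (t l).natAbs ≤ q.2.1) ∧ ∀ u v, Compat (p' q.1).S (p q.1).S u v → ∀ j t,
      u ((x' q.1).2.1 j) * (zp (x q.1).2.1 t)⁻¹ ∈ (p q.1).N (e₁ q.1) (e₂ q.1) →
        ∀ l, (t l).natAbs ≤ q.2.2})).val
  have h0 := ha.sfst
  have hR := CS.add AddF.nat ha.ssnd.fst ha.ssnd.snd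
  refine (mv_va (T := fun q => (p q.1.1).T (e₁ q.1.1) (e₂ q.1.1))
    (T' := fun q => (p' q.1.1).T (e₁ q.1.1) (e₂ q.1.1)) (hp.comp h0).sfst (hp'.comp h0).sfst
    (hx.comp h0).sfst (hx'.comp h0).sfst hR
    (CS.presN (hp.comp h0) (h1.comp h0) (h2.comp h0))
    (CS.presN (hp'.comp h0) (h1.comp h0) (h2.comp h0)) (hx.comp h0).ssnd.fst
    (hx'.comp h0).ssnd.fst
    (CS.presNotT ((hp.comp h0).comp CS.id.sfst) ((h1.comp h0).comp CS.id.sfst)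
      ((h2.comp h0).comp CS.id.sfst) CS.id.ssnd)
    (CS.presNotT ((hp'.comp h0).comp CS.id.sfst) ((h1.comp h0).comp CS.id.sfst)
      ((h2.comp h0).comp CS.id.sfst) CS.id.ssnd)
    (fun q => ⟨inferInstance, inferInstance, inferInstance, (hM q.1.1).2⟩)
    (fun q => ⟨inferInstance, inferInstance, inferInstance, (hM' q.1.1).2⟩)).mono ?_
  rintro ⟨⟨a, R, R'⟩, hb, hb'⟩ L - - hL ⟨φ⟩
  obtain ⟨u, v, hc, -, -⟩ := exists_compat φ
  obtain ⟨c1, c2, c3⟩ := hc.canon (e₁ a) (e₂ a)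
  obtain ⟨c, y, hy, hy1, hy2⟩ := hL u v c1 c2 c3
    (fun j t ht l => (hb u v hc j t ht l).trans (Nat.le_add_right _ _))
    (fun j t ht l => (hb' v u hc.symm j t ht l).trans (Nat.le_add_left _ _))
  refine ⟨y, hy, _, _, hc.conj c, fun i => ?_, fun i => ?_⟩
  · simpa using hy1 i
  · simpa using hy2 i

theorem btw_marked (hp : CS p) (hp' : CS p') (h1 : CS e₁) (h2 : CS e₂) (hx : CS x) (hx' : CS x')
    (hG : ∀ a, FinRank (p a).G) (hG' : ∀ a, FinRank (p' a).G)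
    (hM : ∀ a, (p a).Mark (e₁ a) (e₂ a) (x a)) (hM' : ∀ a, (p' a).Mark (e₁ a) (e₂ a) (x' a)) :
    Btw (fun a => ¬ Nonempty ((p a).G ≃* (p' a).G) ∧ GoodPar (e₁ a) (e₂ a) (p a).G ∧
        GoodPar (e₁ a) (e₂ a) (p' a).G) (fun a => ¬ Nonempty ((p a).G ≃* (p' a).G)) := by
  refine Btw.bind (mv_pairs hp hp' h1 h2 hx hx' hG hG' hM hM') ?_
  let B : Type := {q : Σ a, List ((Fin (p a).1 → Fr (p' a).1) × (Fin (p' a).1 → Fr (p a).1)) //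
    Nonempty ((p q.1).G ≃* (p' q.1).G) → ∃ y ∈ q.2, ∃ u₀ v₀, Compat (p q.1).S (p' q.1).S u₀ v₀ ∧
      (∀ i, y.1 i * (u₀ (FreeGroup.of i))⁻¹ ∈ (p' q.1).N (e₁ q.1) (e₂ q.1)) ∧
        ∀ i, y.2 i * (v₀ (FreeGroup.of i))⁻¹ ∈ (p q.1).N (e₁ q.1) (e₂ q.1)}
  have hl : CS (fun q : B => q.1.2) := CS.id.val.ssnd
  let C : Type := {r : Σ q : B, (Fin (p q.1.1).1 → Fr (p' q.1.1).1) ×
    (Fin (p' q.1.1).1 → Fr (p q.1.1).1) // r.2 ∈ r.1.1.2}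
  have h0 : CS (fun r : C => r.1.1.1.1) := CS.id.val.sfst.val.sfst
  have hy : CS (fun r : C => r.1.2) := CS.id.val.ssnd
  have key := btw_pair (hp.comp h0) (hp'.comp h0) (h1.comp h0) (h2.comp h0) (hx.comp h0)
    (hx'.comp h0) hy.fst hy.snd (fun r => hG _) (fun r => hG' _) (fun r => hM _) (fun r => hM' _)
  refine (Btw.allMem (L := fun q _ => ¬ Nonempty ((p q.1.1).G ≃* (p' q.1.1).G) ∧
      GoodPar (e₁ q.1.1) (e₂ q.1.1) (p q.1.1).G ∧ GoodPar (e₁ q.1.1) (e₂ q.1.1) (p' q.1.1).G)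
    (H := fun q y => ¬ ∃ u₀ v₀, Compat (p q.1.1).S (p' q.1.1).S u₀ v₀ ∧
      (∀ i, y.1 i * (u₀ (FreeGroup.of i))⁻¹ ∈ (p' q.1.1).N (e₁ q.1.1) (e₂ q.1.1)) ∧
        ∀ i, y.2 i * (v₀ (FreeGroup.of i))⁻¹ ∈ (p q.1.1).N (e₁ q.1.1) (e₂ q.1.1))
    hl key).mono (fun q _ h _ _ => h) (fun q _ h hI => ?_)
  obtain ⟨y, hy, h'⟩ := q.2 hI
  exact h y hy h'

end

theorem cs_nonIso : CS (fun a : PP => ¬ Nonempty (a.1.1.G ≃* a.1.2.G)) := by
  let T : PP → Type := fun a => (ℕ × ℕ) × Mk a.1.1.1 × Mk a.1.2.1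
  have hE : Enum T := by
    aesop (config := { terminal := true, enableSimp := false, maxRuleApplications := 3000, maxRuleApplicationDepth := 70, assumptionTransparency := .reducible }) (rule_sets := [-default, -builtin, Restrict]) (erase CS.mapp, CS.mlam) (add safe 1 (by dsimp only [T]))
  have ha : CS (fun q : Σ a, T a => q.1.1) := CS.id.sfst.val
  have ht : CS (fun q : Σ a, T a => q.2) := CS.id.ssnd
  have hM : CS (fun q : Σ a, T a => q.1.1.1.Mark q.2.1.1 q.2.1.2 q.2.2.1 ∧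
      q.1.1.2.Mark q.2.1.1 q.2.1.2 q.2.2.2) :=
    (cs_presMark ha.fst ht.fst.fst ht.fst.snd ht.snd.fst fun q => q.1.2.1).and
      (cs_presMark ha.snd ht.fst.fst ht.fst.snd ht.snd.snd fun q => q.1.2.2)
  let B : Type := {q : Σ a, T a // q.1.1.1.Mark q.2.1.1 q.2.1.2 q.2.2.1 ∧
      q.1.1.2.Mark q.2.1.1 q.2.1.2 q.2.2.2}
  have hv : CS (fun q : B => q.1) := CS.id.val
  have key := btw_marked (ha.comp hv).fst (ha.comp hv).snd (ht.comp hv).fst.fst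
    (ht.comp hv).fst.snd (ht.comp hv).snd.fst (ht.comp hv).snd.snd (fun q => q.1.1.2.1)
    (fun q => q.1.1.2.2) (fun q => q.2.1) (fun q => q.2.2)
  refine Btw.to_cs ((Btw.ex
    (L := fun a (x : T a) => ∃ _ : a.1.1.Mark x.1.1 x.1.2 x.2.1 ∧ a.1.2.Mark x.1.1 x.1.2 x.2.2,
      ¬ Nonempty (a.1.1.G ≃* a.1.2.G) ∧ GoodPar x.1.1 x.1.2 a.1.1.G ∧ GoodPar x.1.1 x.1.2 a.1.2.G)
    (H := fun a (x : T a) => ∃ _ : a.1.1.Mark x.1.1 x.1.2 x.2.1 ∧ a.1.2.Mark x.1.1 x.1.2 x.2.2,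
      ¬ Nonempty (a.1.1.G ≃* a.1.2.G)) hE (Btw.sub hM key)).mono ?_ ?_)
  · rintro ⟨⟨p, p'⟩, hG, hG'⟩ - hI
    obtain ⟨e, he⟩ := exists_goodPar p.G hG
    obtain ⟨e', he'⟩ := exists_goodPar p'.G hG'
    obtain ⟨f, hf⟩ := he (max e e') (le_max_left _ _)
    obtain ⟨f', hf'⟩ := he' (max e e') (le_max_right _ _)
    have g := hf (max f f') (le_max_left _ _)
    have g' := hf' (max f f') (le_max_right _ _)
    obtain ⟨x, hx⟩ := Pres.exists_mark g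
    obtain ⟨x', hx'⟩ := Pres.exists_mark g'
    exact ⟨((max e e', max f f'), x, x'), ⟨hx, hx'⟩, hI, g, g'⟩
  · rintro a - ⟨x, -, h⟩
    exact h

end Pool.Agent.P.MP_257122_al
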